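import Pool.Agent.MP_0af329_co.Basic

/-! Row [ANG-ACUTE]: four points in general position do not span four acute triangles. -/

namespace Pool.Agent.MP_0af329_co

open EuclideanGeometry

/-- The determinant of the triangle `a b c`. -/
def acute_det (a b c : Pt) : ℝ := (b 0 - a 0) * (c 1 - a 1) - (b 1 - a 1) * (c 0 - a 0)

theorem acute_collinear {a b c : Pt} (h : acute_det a b c = 0) :
    Collinear ℝ ({a, b, c} : Set Pt) := by
  rw [acute_det] at h
  by_cases hb : b = a
  · subst hb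
    simpa using collinear_pair ℝ b c
  · rw [collinear_iff_of_mem (p₀ := a) (by simp)]
    refine ⟨b - a, ?_⟩
    intro p hp
    simp only [Set.mem_insert_iff, Set.mem_singleton_iff] at hp
    rcases hp with rfl | rfl | rfl
    · exact ⟨0, by simp⟩
    · exact ⟨1, by simp⟩
    · by_cases h0 : b 0 - a 0 = 0
      · have h1 : b 1 - a 1 ≠ 0 := by
          intro h1
          apply hb
          ext i
          fin_cases i
          · exact sub_eq_zero.1 h0
          · exact sub_eq_zero.1 h1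
        refine ⟨(p 1 - a 1) / (b 1 - a 1), ?_⟩
        have h2 : p 0 - a 0 = 0 := by
          rw [h0, zero_mul, zero_sub, neg_eq_zero] at h
          exact (mul_eq_zero.1 h).resolve_left h1
        ext i
        fin_cases i
        · simp only [Fin.zero_eta, vadd_eq_add, PiLp.add_apply, PiLp.smul_apply, PiLp.sub_apply,
            smul_eq_mul, h0, mul_zero, zero_add]
          exact sub_eq_zero.1 h2
        · simp only [Fin.mk_one, vadd_eq_add, PiLp.add_apply, PiLp.smul_apply, PiLp.sub_apply,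
            smul_eq_mul]
          field_simp
          ring
      · refine ⟨(p 0 - a 0) / (b 0 - a 0), ?_⟩
        ext i
        fin_cases i
        · simp only [Fin.zero_eta, vadd_eq_add, PiLp.add_apply, PiLp.smul_apply, PiLp.sub_apply,
            smul_eq_mul]
          field_simp
          ring
        · simp only [Fin.mk_one, vadd_eq_add, PiLp.add_apply, PiLp.smul_apply, PiLp.sub_apply,
            smul_eq_mul]
          field_simp
          linarith

/-- The inner product of `a - b` and `c - b`. -/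
def acute_ip (a b c : Pt) : ℝ := (a 0 - b 0) * (c 0 - b 0) + (a 1 - b 1) * (c 1 - b 1)

theorem acute_ip_pos {a b c : Pt} (h : ∠ a b c < Real.pi / 2) : 0 < acute_ip a b c := by
  have h1 : inner ℝ (a - b) (c - b) = acute_ip a b c := by
    rw [acute_ip]
    simp [PiLp.inner_apply, Fin.sum_univ_two]
    ring
  rw [← h1]
  have h2 : InnerProductGeometry.angle (a - b) (c - b) < Real.pi / 2 := h
  rw [InnerProductGeometry.angle, Real.arccos_lt_pi_div_two] at h2
  by_contra hcon
  have h3 : inner ℝ (a - b) (c - b) ≤ 0 := not_lt.1 hcon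
  have h4 : inner ℝ (a - b) (c - b) / (‖a - b‖ * ‖c - b‖) ≤ 0 :=
    div_nonpos_of_nonpos_of_nonneg h3 (by positivity)
  linarith

/-- Sign pattern (1,3). -/
theorem acute_A (q p r s : Pt) (t1 t2 t3 : ℝ) (h1 : 0 < t1) (h2 : 0 < t2) (h3 : 0 < t3)
    (e0 : t1 * (p 0 - q 0) + t2 * (r 0 - q 0) + t3 * (s 0 - q 0) = 0)
    (e1 : t1 * (p 1 - q 1) + t2 * (r 1 - q 1) + t3 * (s 1 - q 1) = 0)
    (i1 : 0 < acute_ip p q r) (i2 : 0 < acute_ip p q s) : False := by
  rw [acute_ip] at i1 i2
  have h4 : t1 * ((p 0 - q 0) ^ 2 + (p 1 - q 1) ^ 2) +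
      t2 * ((p 0 - q 0) * (r 0 - q 0) + (p 1 - q 1) * (r 1 - q 1)) +
      t3 * ((p 0 - q 0) * (s 0 - q 0) + (p 1 - q 1) * (s 1 - q 1)) = 0 := by
    linear_combination (p 0 - q 0) * e0 + (p 1 - q 1) * e1
  have h5 : 0 ≤ t1 * ((p 0 - q 0) ^ 2 + (p 1 - q 1) ^ 2) := by positivity
  have h6 := mul_pos h2 i1
  have h7 := mul_pos h3 i2
  linarith

/-- Sign pattern (2,2). -/
theorem acute_B (a b c d : Pt) (s t u v : ℝ) (hs : 0 < s) (ht : 0 < t) (hu : 0 < u) (hv : 0 < v)
    (e : s + t = u + v)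
    (e0 : s * a 0 + t * b 0 = u * c 0 + v * d 0)
    (e1 : s * a 1 + t * b 1 = u * c 1 + v * d 1)
    (i1 : 0 < acute_ip c a d) (i2 : 0 < acute_ip c b d)
    (i3 : 0 < acute_ip a c b) (i4 : 0 < acute_ip a d b) : False := by
  rw [acute_ip] at i1 i2 i3 i4
  -- weights: `s` at `a`, `t` at `b`, `u` at `c`, `v` at `d`
  have j1 := mul_pos hs i1
  have j2 := mul_pos ht i2
  have j3 := mul_pos hu i3
  have j4 := mul_pos hv i4
  have key : s * ((c 0 - a 0) * (d 0 - a 0) + (c 1 - a 1) * (d 1 - a 1)) +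
      t * ((c 0 - b 0) * (d 0 - b 0) + (c 1 - b 1) * (d 1 - b 1)) +
      (u * ((a 0 - c 0) * (b 0 - c 0) + (a 1 - c 1) * (b 1 - c 1)) +
      v * ((a 0 - d 0) * (b 0 - d 0) + (a 1 - d 1) * (b 1 - d 1))) = 0 := by
    linear_combination (a 0 + b 0 - c 0 - d 0) * e0 + (a 1 + b 1 - c 1 - d 1) * e1 +
      (c 0 * d 0 - a 0 * b 0 + c 1 * d 1 - a 1 * b 1) * e
  linarith

/-- Four points of the plane, no three on a line, cannot have all their angles acute. -/
theorem exists_not_acute (p : Fin 4 → Pt)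
    (hp : ∀ i j k : Fin 4, i ≠ j → j ≠ k → i ≠ k → ¬ Collinear ℝ ({p i, p j, p k} : Set Pt)) :
    ∃ i j k : Fin 4, i ≠ j ∧ j ≠ k ∧ i ≠ k ∧ Real.pi / 2 ≤ ∠ (p i) (p j) (p k) := by
  by_contra hcon
  push Not at hcon
  have hip : ∀ i j k : Fin 4, i ≠ j → j ≠ k → i ≠ k → 0 < acute_ip (p i) (p j) (p k) :=
    fun i j k h1 h2 h3 => acute_ip_pos (hcon i j k h1 h2 h3)
  have hdet : ∀ i j k : Fin 4, i ≠ j → j ≠ k → i ≠ k → acute_det (p i) (p j) (p k) ≠ 0 :=
    fun i j k h1 h2 h3 h => hp i j k h1 h2 h3 (acute_collinear h)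
  -- the four coefficients
  obtain ⟨l0, hl0⟩ : ∃ l, l = acute_det (p 1) (p 2) (p 3) := ⟨_, rfl⟩
  obtain ⟨l1, hl1⟩ : ∃ l, l = - acute_det (p 0) (p 2) (p 3) := ⟨_, rfl⟩
  obtain ⟨l2, hl2⟩ : ∃ l, l = acute_det (p 0) (p 1) (p 3) := ⟨_, rfl⟩
  obtain ⟨l3, hl3⟩ : ∃ l, l = - acute_det (p 0) (p 1) (p 2) := ⟨_, rfl⟩
  have n0 : l0 ≠ 0 := by rw [hl0]; exact hdet 1 2 3 (by decide) (by decide) (by decide)
  have n1 : l1 ≠ 0 := by
    rw [hl1]; exact neg_ne_zero.2 (hdet 0 2 3 (by decide) (by decide) (by decide))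
  have n2 : l2 ≠ 0 := by rw [hl2]; exact hdet 0 1 3 (by decide) (by decide) (by decide)
  have n3 : l3 ≠ 0 := by
    rw [hl3]; exact neg_ne_zero.2 (hdet 0 1 2 (by decide) (by decide) (by decide))
  rw [acute_det] at hl0 hl1 hl2 hl3
  have s0 : l0 + l1 + l2 + l3 = 0 := by rw [hl0, hl1, hl2, hl3]; ring
  have sx : l0 * p 0 0 + l1 * p 1 0 + l2 * p 2 0 + l3 * p 3 0 = 0 := by
    rw [hl0, hl1, hl2, hl3]; ring
  have sy : l0 * p 0 1 + l1 * p 1 1 + l2 * p 2 1 + l3 * p 3 1 = 0 := by
    rw [hl0, hl1, hl2, hl3]; ring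
  clear hl0 hl1 hl2 hl3 hdet
  -- (1,3) patterns
  have A0 : 0 < l1 → 0 < l2 → 0 < l3 → False := fun h1 h2 h3 =>
    acute_A (p 0) (p 1) (p 2) (p 3) l1 l2 l3 h1 h2 h3
      (by linear_combination sx - p 0 0 * s0) (by linear_combination sy - p 0 1 * s0)
      (hip 1 0 2 (by decide) (by decide) (by decide)) (hip 1 0 3 (by decide) (by decide) (by decide))
  have A0' : l1 < 0 → l2 < 0 → l3 < 0 → False := fun h1 h2 h3 =>
    acute_A (p 0) (p 1) (p 2) (p 3) (-l1) (-l2) (-l3) (by linarith) (by linarith) (by linarith)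
      (by linear_combination -sx + p 0 0 * s0) (by linear_combination -sy + p 0 1 * s0)
      (hip 1 0 2 (by decide) (by decide) (by decide)) (hip 1 0 3 (by decide) (by decide) (by decide))
  have A1 : 0 < l0 → 0 < l2 → 0 < l3 → False := fun h1 h2 h3 =>
    acute_A (p 1) (p 0) (p 2) (p 3) l0 l2 l3 h1 h2 h3
      (by linear_combination sx - p 1 0 * s0) (by linear_combination sy - p 1 1 * s0)
      (hip 0 1 2 (by decide) (by decide) (by decide)) (hip 0 1 3 (by decide) (by decide) (by decide))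
  have A1' : l0 < 0 → l2 < 0 → l3 < 0 → False := fun h1 h2 h3 =>
    acute_A (p 1) (p 0) (p 2) (p 3) (-l0) (-l2) (-l3) (by linarith) (by linarith) (by linarith)
      (by linear_combination -sx + p 1 0 * s0) (by linear_combination -sy + p 1 1 * s0)
      (hip 0 1 2 (by decide) (by decide) (by decide)) (hip 0 1 3 (by decide) (by decide) (by decide))
  have A2 : 0 < l0 → 0 < l1 → 0 < l3 → False := fun h1 h2 h3 =>
    acute_A (p 2) (p 0) (p 1) (p 3) l0 l1 l3 h1 h2 h3
      (by linear_combination sx - p 2 0 * s0) (by linear_combination sy - p 2 1 * s0)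
      (hip 0 2 1 (by decide) (by decide) (by decide)) (hip 0 2 3 (by decide) (by decide) (by decide))
  have A2' : l0 < 0 → l1 < 0 → l3 < 0 → False := fun h1 h2 h3 =>
    acute_A (p 2) (p 0) (p 1) (p 3) (-l0) (-l1) (-l3) (by linarith) (by linarith) (by linarith)
      (by linear_combination -sx + p 2 0 * s0) (by linear_combination -sy + p 2 1 * s0)
      (hip 0 2 1 (by decide) (by decide) (by decide)) (hip 0 2 3 (by decide) (by decide) (by decide))
  have A3 : 0 < l0 → 0 < l1 → 0 < l2 → False := fun h1 h2 h3 =>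
    acute_A (p 3) (p 0) (p 1) (p 2) l0 l1 l2 h1 h2 h3
      (by linear_combination sx - p 3 0 * s0) (by linear_combination sy - p 3 1 * s0)
      (hip 0 3 1 (by decide) (by decide) (by decide)) (hip 0 3 2 (by decide) (by decide) (by decide))
  have A3' : l0 < 0 → l1 < 0 → l2 < 0 → False := fun h1 h2 h3 =>
    acute_A (p 3) (p 0) (p 1) (p 2) (-l0) (-l1) (-l2) (by linarith) (by linarith) (by linarith)
      (by linear_combination -sx + p 3 0 * s0) (by linear_combination -sy + p 3 1 * s0)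
      (hip 0 3 1 (by decide) (by decide) (by decide)) (hip 0 3 2 (by decide) (by decide) (by decide))
  -- (2,2) patterns
  have B01 : 0 < l0 → 0 < l1 → l2 < 0 → l3 < 0 → False := fun h1 h2 h3 h4 =>
    acute_B (p 0) (p 1) (p 2) (p 3) l0 l1 (-l2) (-l3) h1 h2 (by linarith) (by linarith)
      (by linarith) (by linarith) (by linarith)
      (hip 2 0 3 (by decide) (by decide) (by decide)) (hip 2 1 3 (by decide) (by decide) (by decide))
      (hip 0 2 1 (by decide) (by decide) (by decide)) (hip 0 3 1 (by decide) (by decide) (by decide))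
  have B01' : l0 < 0 → l1 < 0 → 0 < l2 → 0 < l3 → False := fun h1 h2 h3 h4 =>
    acute_B (p 0) (p 1) (p 2) (p 3) (-l0) (-l1) l2 l3 (by linarith) (by linarith) h3 h4
      (by linarith) (by linarith) (by linarith)
      (hip 2 0 3 (by decide) (by decide) (by decide)) (hip 2 1 3 (by decide) (by decide) (by decide))
      (hip 0 2 1 (by decide) (by decide) (by decide)) (hip 0 3 1 (by decide) (by decide) (by decide))
  have B02 : 0 < l0 → 0 < l2 → l1 < 0 → l3 < 0 → False := fun h1 h2 h3 h4 =>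
    acute_B (p 0) (p 2) (p 1) (p 3) l0 l2 (-l1) (-l3) h1 h2 (by linarith) (by linarith)
      (by linarith) (by linarith) (by linarith)
      (hip 1 0 3 (by decide) (by decide) (by decide)) (hip 1 2 3 (by decide) (by decide) (by decide))
      (hip 0 1 2 (by decide) (by decide) (by decide)) (hip 0 3 2 (by decide) (by decide) (by decide))
  have B02' : l0 < 0 → l2 < 0 → 0 < l1 → 0 < l3 → False := fun h1 h2 h3 h4 =>
    acute_B (p 0) (p 2) (p 1) (p 3) (-l0) (-l2) l1 l3 (by linarith) (by linarith) h3 h4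
      (by linarith) (by linarith) (by linarith)
      (hip 1 0 3 (by decide) (by decide) (by decide)) (hip 1 2 3 (by decide) (by decide) (by decide))
      (hip 0 1 2 (by decide) (by decide) (by decide)) (hip 0 3 2 (by decide) (by decide) (by decide))
  have B03 : 0 < l0 → 0 < l3 → l1 < 0 → l2 < 0 → False := fun h1 h2 h3 h4 =>
    acute_B (p 0) (p 3) (p 1) (p 2) l0 l3 (-l1) (-l2) h1 h2 (by linarith) (by linarith)
      (by linarith) (by linarith) (by linarith)
      (hip 1 0 2 (by decide) (by decide) (by decide)) (hip 1 3 2 (by decide) (by decide) (by decide))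
      (hip 0 1 3 (by decide) (by decide) (by decide)) (hip 0 2 3 (by decide) (by decide) (by decide))
  have B03' : l0 < 0 → l3 < 0 → 0 < l1 → 0 < l2 → False := fun h1 h2 h3 h4 =>
    acute_B (p 0) (p 3) (p 1) (p 2) (-l0) (-l3) l1 l2 (by linarith) (by linarith) h3 h4
      (by linarith) (by linarith) (by linarith)
      (hip 1 0 2 (by decide) (by decide) (by decide)) (hip 1 3 2 (by decide) (by decide) (by decide))
      (hip 0 1 3 (by decide) (by decide) (by decide)) (hip 0 2 3 (by decide) (by decide) (by decide))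
  rcases lt_or_gt_of_ne n0 with m0 | m0 <;> rcases lt_or_gt_of_ne n1 with m1 | m1 <;>
    rcases lt_or_gt_of_ne n2 with m2 | m2 <;> rcases lt_or_gt_of_ne n3 with m3 | m3
  · exact A0' m1 m2 m3
  · exact A3' m0 m1 m2
  · exact A2' m0 m1 m3
  · exact B01' m0 m1 m2 m3
  · exact A1' m0 m2 m3
  · exact B02' m0 m2 m1 m3
  · exact B03' m0 m3 m1 m2
  · exact A0 m1 m2 m3
  · exact A0' m1 m2 m3
  · exact B03 m0 m3 m1 m2
  · exact B02 m0 m2 m1 m3
  · exact A1 m0 m2 m3
  · exact B01 m0 m1 m2 m3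
  · exact A2 m0 m1 m3
  · exact A3 m0 m1 m2
  · exact A0 m1 m2 m3

end Pool.Agent.MP_0af329_co
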