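import Pool.Agent.MP_0af329_co.Defs

namespace Pool.Agent.MP_0af329_co

open EuclideanGeometry

theorem mem_trip {S : Finset Pt} {x y z : Pt} :
    (x, y, z) ∈ trip S ↔ (x ∈ S ∧ y ∈ S ∧ z ∈ S) ∧ x ≠ y ∧ y ≠ z ∧ x ≠ z := by
  classical
  simp [trip, Finset.mem_filter, Finset.mem_product]

theorem cnt_eq_sum (S : Finset Pt) (A : Set ℝ) [DecidablePred (· ∈ A)] :
    (cnt S A : ℝ) = ∑ t ∈ trip S, if ∠ t.1 t.2.1 t.2.2 ∈ A then (1 : ℝ) else 0 := by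
  classical
  rw [cnt, Finset.card_filter]
  push_cast
  refine Finset.sum_congr rfl fun t _ => ?_
  congr

/-- Rotating ordered triples. -/
theorem sum_trip_rot (S : Finset Pt) (f : Pt → Pt → Pt → ℝ) :
    ∑ t ∈ trip S, f t.1 t.2.1 t.2.2 = ∑ t ∈ trip S, f t.2.1 t.2.2 t.1 := by
  classical
  refine Finset.sum_bij' (fun t _ => (t.2.2, t.1, t.2.1)) (fun t _ => (t.2.1, t.2.2, t.1))
    ?_ ?_ ?_ ?_ ?_
  · rintro ⟨x, y, z⟩ h
    rw [mem_trip] at h ⊢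
    exact ⟨⟨h.1.2.2, h.1.1, h.1.2.1⟩, h.2.2.2.symm, h.2.1, h.2.2.1.symm⟩
  · rintro ⟨x, y, z⟩ h
    rw [mem_trip] at h ⊢
    exact ⟨⟨h.1.2.1, h.1.2.2, h.1.1⟩, h.2.2.1, h.2.2.2.symm, h.2.1.symm⟩
  · rintro ⟨x, y, z⟩ _; rfl
  · rintro ⟨x, y, z⟩ _; rfl
  · rintro ⟨x, y, z⟩ _; rfl

/-- Reversing ordered triples. -/
theorem sum_trip_swap (S : Finset Pt) (f : Pt → Pt → Pt → ℝ) :
    ∑ t ∈ trip S, f t.1 t.2.1 t.2.2 = ∑ t ∈ trip S, f t.2.2 t.2.1 t.1 := by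
  classical
  refine Finset.sum_bij' (fun t _ => (t.2.2, t.2.1, t.1)) (fun t _ => (t.2.2, t.2.1, t.1))
    ?_ ?_ ?_ ?_ ?_
  · rintro ⟨x, y, z⟩ h
    rw [mem_trip] at h ⊢
    exact ⟨⟨h.1.2.2, h.1.2.1, h.1.1⟩, h.2.2.1.symm, h.2.1.symm, h.2.2.2.symm⟩
  · rintro ⟨x, y, z⟩ h
    rw [mem_trip] at h ⊢
    exact ⟨⟨h.1.2.2, h.1.2.1, h.1.1⟩, h.2.2.1.symm, h.2.1.symm, h.2.2.2.symm⟩
  · rintro ⟨x, y, z⟩ _; rfl
  · rintro ⟨x, y, z⟩ _; rfl
  · rintro ⟨x, y, z⟩ _; rfl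

/-- A sum over ordered triples, as an iterated sum with the middle point first. -/
theorem sum_trip_eq (S : Finset Pt) (f : Pt → Pt → Pt → ℝ) [DecidableEq Pt] :
    ∑ t ∈ trip S, f t.1 t.2.1 t.2.2 =
      ∑ y ∈ S, ∑ x ∈ S.erase y, ∑ z ∈ (S.erase y).erase x, f x y z := by
  classical
  have h : trip S = (S.sigma fun y => (S.erase y).sigma fun x => (S.erase y).erase x).image
      (fun s => (s.2.1, s.1, s.2.2)) := by
    ext ⟨x, y, z⟩
    rw [mem_trip]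
    simp only [Finset.mem_image, Finset.mem_sigma, Finset.mem_erase, Sigma.exists, Prod.mk.injEq]
    constructor
    · rintro ⟨⟨hx, hy, hz⟩, h1, h2, h3⟩
      exact ⟨y, x, z, ⟨hy, ⟨h1, hx⟩, h3.symm, h2.symm, hz⟩, rfl, rfl, rfl⟩
    · rintro ⟨a, b, c, ⟨ha, ⟨hb1, hb⟩, hc1, hc2, hc⟩, rfl, rfl, rfl⟩
      exact ⟨⟨hb, ha, hc⟩, hb1, hc2.symm, hc1.symm⟩
  rw [h, Finset.sum_image]
  · rw [Finset.sum_sigma]
    refine Finset.sum_congr rfl fun y _ => ?_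
    rw [Finset.sum_sigma]
  · rintro ⟨a, b, c⟩ _ ⟨a', b', c'⟩ _ h
    simp only [Prod.mk.injEq] at h
    obtain ⟨rfl, rfl, rfl⟩ := h
    rfl

theorem card_trip (S : Finset Pt) :
    ((trip S).card : ℝ) = (S.card : ℝ) * ((S.card : ℝ) - 1) * ((S.card : ℝ) - 2) := by
  classical
  have h := sum_trip_eq S (fun _ _ _ => 1)
  rw [Finset.sum_const, nsmul_eq_mul, mul_one] at h
  rw [h]
  have : ∀ y ∈ S, ∑ x ∈ S.erase y, ∑ z ∈ (S.erase y).erase x, (1 : ℝ) =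
      ((S.card : ℝ) - 1) * ((S.card : ℝ) - 2) := by
    intro y hy
    have h1 : ∀ x ∈ S.erase y, ∑ z ∈ (S.erase y).erase x, (1 : ℝ) = (S.card : ℝ) - 2 := by
      intro x hx
      rw [Finset.sum_const, nsmul_eq_mul, mul_one, Finset.card_erase_of_mem hx,
        Finset.card_erase_of_mem hy]
      have h2 : 1 ≤ (S.erase y).card := Finset.card_pos.mpr ⟨x, hx⟩
      rw [Finset.card_erase_of_mem hy] at h2
      rw [Nat.cast_sub h2, Nat.cast_sub (Finset.card_pos.mpr ⟨y, hy⟩)]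
      push_cast
      ring
    rw [Finset.sum_congr rfl h1, Finset.sum_const, nsmul_eq_mul, Finset.card_erase_of_mem hy,
      Nat.cast_sub (Finset.card_pos.mpr ⟨y, hy⟩)]
    push_cast
    ring
  rw [Finset.sum_congr rfl this, Finset.sum_const, nsmul_eq_mul, mul_assoc]

theorem cnt_le_card_trip (S : Finset Pt) (A : Set ℝ) : cnt S A ≤ (trip S).card := by
  classical
  exact Finset.card_filter_le _ _

theorem cnt_mono (S : Finset Pt) {A B : Set ℝ} (h : A ⊆ B) : cnt S A ≤ cnt S B := by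
  classical
  exact Finset.card_le_card (Finset.monotone_filter_right _ fun t _ ht => h ht)

/-- An angle and the set it lies in: splitting. -/
theorem cnt_add_cnt_compl (S : Finset Pt) (A : Set ℝ) :
    (cnt S A : ℝ) + cnt S Aᶜ = (S.card : ℝ) * ((S.card : ℝ) - 1) * ((S.card : ℝ) - 2) := by
  classical
  rw [← card_trip]
  have := Finset.card_filter_add_card_filter_not (s := trip S)
    (fun t => ∠ t.1 t.2.1 t.2.2 ∈ A)
  rw [← this]
  push_cast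
  simp [cnt]

theorem angle_pos_of_genPos {S : Finset Pt} (hS : GenPos S) {x y z : Pt} (hx : x ∈ S) (hy : y ∈ S)
    (hz : z ∈ S) (hxy : x ≠ y) (hyz : y ≠ z) (hxz : x ≠ z) : 0 < ∠ x y z := by
  have h := hS x hx y hy z hz hxy hyz hxz
  rw [collinear_iff_eq_or_eq_or_angle_eq_zero_or_angle_eq_pi] at h
  push Not at h
  exact lt_of_le_of_ne (angle_nonneg _ _ _) (Ne.symm h.2.2.1)

theorem angle_lt_pi_of_genPos {S : Finset Pt} (hS : GenPos S) {x y z : Pt} (hx : x ∈ S)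
    (hy : y ∈ S) (hz : z ∈ S) (hxy : x ≠ y) (hyz : y ≠ z) (hxz : x ≠ z) :
    ∠ x y z < Real.pi := by
  have h := hS x hx y hy z hz hxy hyz hxz
  rw [collinear_iff_eq_or_eq_or_angle_eq_zero_or_angle_eq_pi] at h
  push Not at h
  exact lt_of_le_of_ne (angle_le_pi _ _ _) h.2.2.2

end Pool.Agent.MP_0af329_co
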