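import Pool.Agent.MP_0af329_co.Cvx0
import Pool.Agent.MP_0af329_co.Basic
import Pool.Agent.MP_0af329_co.Acute

/-! A finite set in convex position has a cyclic enumeration. -/

set_option autoImplicit false

namespace Pool.Agent.MP_0af329_co.Cvx

open Finset

/-- No point of `S` lies in the convex hull of the others. -/
def ConvexPos (S : Finset Pt) : Prop := ∀ x ∈ S, x ∉ convexHull ℝ ((S : Set Pt) \ {x})

/-- The coordinates of a point. -/
def co (x : Pt) : ℝ × ℝ := (x 0, x 1)

theorem co_cr (a b c : Pt) : cr (co a) (co b) (co c) = acute_det a b c := rfl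

theorem cr_rot (a b c : ℝ × ℝ) : cr b c a = cr a b c := by
  simp only [cr]
  ring

/-- `q` inside the triangle `o p r`. -/
theorem mem_hull {o p x r : Pt} (h1 : 0 < cr (co o) (co p) (co x)) (h2 : 0 < cr (co o) (co x) (co r))
    (h3 : 0 < cr (co o) (co p) (co r)) (h : cr (co p) (co x) (co r) ≤ 0) :
    x ∈ convexHull ℝ ({o, p, r} : Set Pt) := by
  set D := cr (co o) (co p) (co r) with hD
  have hid : D = cr (co o) (co p) (co x) + cr (co o) (co x) (co r) - cr (co p) (co x) (co r) := by
    simp only [hD, cr]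
    ring
  have e : x = (-(cr (co p) (co x) (co r)) / D) • o + (cr (co o) (co x) (co r) / D) • p +
      (cr (co o) (co p) (co x) / D) • r := by
    have e0 : D * x 0 = -(cr (co p) (co x) (co r)) * o 0 + cr (co o) (co x) (co r) * p 0 +
        cr (co o) (co p) (co x) * r 0 := by
      simp only [hD, cr, co]
      ring
    have e1 : D * x 1 = -(cr (co p) (co x) (co r)) * o 1 + cr (co o) (co x) (co r) * p 1 +
        cr (co o) (co p) (co x) * r 1 := by
      simp only [hD, cr, co]
      ring
    have hD0 : D ≠ 0 := h3.ne'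
    ext i
    fin_cases i
    · change x 0 = _ * o 0 + _ * p 0 + _ * r 0
      field_simp
      linarith
    · change x 1 = _ * o 1 + _ * p 1 + _ * r 1
      field_simp
      linarith
  have hmem : ∀ y ∈ ({o, p, r} : Set Pt), y ∈ convexHull ℝ ({o, p, r} : Set Pt) :=
    fun y hy => subset_convexHull ℝ _ hy
  have hconv := convex_convexHull ℝ ({o, p, r} : Set Pt)
  have w1 : 0 ≤ -(cr (co p) (co x) (co r)) / D := div_nonneg (by linarith) h3.le
  have w2 : 0 ≤ cr (co o) (co x) (co r) / D := div_nonneg h2.le h3.le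
  have w3 : 0 ≤ cr (co o) (co p) (co x) / D := div_nonneg h1.le h3.le
  have w : -(cr (co p) (co x) (co r)) / D + cr (co o) (co x) (co r) / D +
      cr (co o) (co p) (co x) / D = 1 := by
    rw [← add_div, ← add_div, div_eq_one_iff_eq h3.ne']
    linarith
  have hsum := hconv.sum_mem (t := (Finset.univ : Finset (Fin 3)))
    (w := ![-(cr (co p) (co x) (co r)) / D, cr (co o) (co x) (co r) / D,
      cr (co o) (co p) (co x) / D]) (z := ![o, p, r])
    (by intro i _; fin_cases i <;> simpa using by assumption)
    (by simpa [Fin.sum_univ_three] using w)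
    (by intro i _; fin_cases i <;> (apply hmem; simp))
  rw [Fin.sum_univ_three] at hsum
  simp only [Matrix.cons_val_zero, Matrix.cons_val_one, Matrix.cons_val_two, Matrix.head_cons,
    Matrix.tail_cons] at hsum
  rw [e]
  exact hsum

theorem exists_delta (S : Finset Pt) :
    ∃ δ : ℝ, ∀ x ∈ S, ∀ y ∈ S, x ≠ y → (x 0 - y 0) + δ * (x 1 - y 1) ≠ 0 := by
  classical
  obtain ⟨δ, hδ⟩ := Infinite.exists_notMem_finset
    ((S ×ˢ S).image (fun p : Pt × Pt => -(p.1 0 - p.2 0) / (p.1 1 - p.2 1)))
  refine ⟨δ, fun x hx y hy hxy h => ?_⟩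
  by_cases h1 : x 1 - y 1 = 0
  · rw [h1, mul_zero, add_zero] at h
    apply hxy
    ext i
    fin_cases i
    · exact sub_eq_zero.1 h
    · exact sub_eq_zero.1 h1
  · apply hδ
    rw [Finset.mem_image]
    refine ⟨(x, y), Finset.mem_product.2 ⟨hx, hy⟩, ?_⟩
    change -(x 0 - y 0) / (x 1 - y 1) = δ
    field_simp
    linarith

/-- Enumeration of a finite set by increasing values of `key`. -/
theorem exists_enum (T : Finset Pt) (key : Pt → ℝ) (hinj : ∀ x ∈ T, ∀ y ∈ T, key x = key y → x = y) :
    ∃ e : ℕ → Pt, (∀ i, i < T.card → e i ∈ T) ∧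
      (∀ i j, i < j → j < T.card → key (e i) < key (e j)) ∧ ∀ x ∈ T, ∃ i < T.card, e i = x := by
  classical
  have hcard : (T.image key).card = T.card :=
    Finset.card_image_of_injOn fun x hx y hy h => hinj x hx y hy h
  set t := (T.image key).orderEmbOfFin hcard with ht
  have hmem : ∀ i, ∃ x ∈ T, key x = t i := by
    intro i
    have := Finset.orderEmbOfFin_mem (T.image key) hcard i
    rw [Finset.mem_image] at this
    exact this
  choose g hg1 hg2 using hmem
  refine ⟨fun i => if h : i < T.card then g ⟨i, h⟩ else 0, ?_, ?_, ?_⟩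
  · intro i hi
    simp only [dif_pos hi]
    exact hg1 _
  · intro i j hij hj
    have hi : i < T.card := hij.trans hj
    simp only [dif_pos hi, dif_pos hj]
    rw [hg2, hg2]
    exact t.strictMono hij
  · intro x hx
    have h1 : key x ∈ T.image key := Finset.mem_image_of_mem _ hx
    have h2 : key x ∈ Set.range t := by
      rw [ht, Finset.range_orderEmbOfFin]
      exact h1
    obtain ⟨i, hi⟩ := h2
    refine ⟨i, i.2, ?_⟩
    simp only [dif_pos i.2]
    exact hinj _ (hg1 _) _ hx ((hg2 _).trans hi)

/-- The cyclic enumeration in terms of residues: from the base inequalities to `CP`. -/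
theorem CP_of_base (q : ℕ → ℝ × ℝ) (n : ℕ) (hn : 0 < n) (hq : ∀ i, q i = q (i % n))
    (hb : ∀ i j k, i < j → j < k → k < n → 0 < cr (q i) (q j) (q k)) : CP q n where
  per := by
    intro i
    rw [hq (i + n), hq i, Nat.add_mod_right]
  pos := by
    intro i j k hij hjk hki
    have hper : ∀ i, q (i + n) = q i := by
      intro i
      rw [hq (i + n), hq i, Nat.add_mod_right]
    have hper2 : ∀ a i, q (n * a + i) = q i := by
      intro a i
      rw [hq (n * a + i), hq i, Nat.mul_add_mod]
    set a := i / n with ha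
    have hi : i = n * a + i % n := (Nat.div_add_mod i n).symm
    have hi' : i % n < n := Nat.mod_lt _ hn
    obtain ⟨j', hj'⟩ : ∃ j', j = n * a + j' := ⟨j - n * a, by omega⟩
    obtain ⟨k', hk'⟩ : ∃ k', k = n * a + k' := ⟨k - n * a, by omega⟩
    rw [hi, hj', hk', hper2, hper2, hper2]
    set i' := i % n with hi''
    have h1 : i' < j' := by omega
    have h2 : j' < k' := by omega
    have h3 : k' < i' + n := by omega
    clear_value i'
    by_cases hk : k' < n
    · exact hb i' j' k' h1 h2 hk
    · obtain ⟨k'', rfl⟩ : ∃ k'', k' = k'' + n := ⟨k' - n, by omega⟩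
      rw [hper]
      by_cases hj : j' < n
      · have := hb k'' i' j' (by omega) h1 hj
        rw [← cr_rot] at this
        exact this
      · obtain ⟨j'', rfl⟩ : ∃ j'', j' = j'' + n := ⟨j' - n, by omega⟩
        rw [hper]
        have := hb j'' k'' i' (by omega) (by omega) hi'
        rw [cr_rot]
        rw [← cr_rot] at this
        rw [← cr_rot] at this
        rw [← cr_rot]
        exact this

theorem exists_CP (S : Finset Pt) (hS : GenPos S) (hc : ConvexPos S) (h3 : 3 ≤ S.card) :
    ∃ q : ℕ → Pt, CP (fun i => co (q i)) S.card ∧ (∀ i, q i ∈ S) ∧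
      (∀ i j, i < S.card → j < S.card → q i = q j → i = j) ∧ ∀ x ∈ S, ∃ i < S.card, q i = x := by
  classical
  obtain ⟨δ, hδ⟩ := exists_delta S
  have hne : S.Nonempty := Finset.card_pos.1 (by omega)
  obtain ⟨o, ho, hmin⟩ := Finset.exists_min_image S (fun x => x 0 + δ * x 1) hne
  set T := S.erase o with hT
  have hTcard : T.card = S.card - 1 := Finset.card_erase_of_mem ho
  set u : Pt → ℝ := fun x => (x 0 - o 0) + δ * (x 1 - o 1) with hu
  set v : Pt → ℝ := fun x => -δ * (x 0 - o 0) + (x 1 - o 1) with hv
  have hupos : ∀ x ∈ T, 0 < u x := by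
    intro x hx
    rw [hT, Finset.mem_erase] at hx
    have h1 := hmin x hx.2
    have h2 := hδ x hx.2 o ho hx.1
    have h3 : 0 ≤ u x := by
      simp only [hu]
      linarith
    exact lt_of_le_of_ne h3 (Ne.symm h2)
  have hid : ∀ x y : Pt, u x * v y - v x * u y = (1 + δ ^ 2) * cr (co o) (co x) (co y) := by
    intro x y
    simp only [hu, hv, cr, co]
    ring
  have hD : (0 : ℝ) < 1 + δ ^ 2 := by positivity
  set key : Pt → ℝ := fun x => v x / u x with hkey
  have hlt : ∀ x ∈ T, ∀ y ∈ T, key x < key y → 0 < cr (co o) (co x) (co y) := by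
    intro x hx y hy h
    have hx0 := hupos x hx
    have hy0 := hupos y hy
    simp only [hkey] at h
    rw [div_lt_div_iff₀ hx0 hy0] at h
    have h1 := hid x y
    have h2 : 0 < (1 + δ ^ 2) * cr (co o) (co x) (co y) := by
      rw [← h1]
      linarith
    exact pos_of_mul_pos_right h2 hD.le
  have hinj : ∀ x ∈ T, ∀ y ∈ T, key x = key y → x = y := by
    intro x hx y hy h
    have hx0 := hupos x hx
    have hy0 := hupos y hy
    simp only [hkey] at h
    rw [div_eq_div_iff hx0.ne' hy0.ne'] at h
    have h1 := hid x y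
    have h2 : (1 + δ ^ 2) * cr (co o) (co x) (co y) = 0 := by
      rw [← h1]
      linarith
    have h3 : cr (co o) (co x) (co y) = 0 := (mul_eq_zero.1 h2).resolve_left hD.ne'
    rw [co_cr] at h3
    by_contra hxy
    rw [hT, Finset.mem_erase] at hx hy
    exact hS o ho x hx.2 y hy.2 hx.1.symm hxy hy.1.symm (acute_collinear h3)
  obtain ⟨e, he1, he2, he3⟩ := exists_enum T key hinj
  rw [hTcard] at he1 he2 he3
  have hn : 0 < S.card := by omega
  set n := S.card with hnn
  set q : ℕ → Pt := fun i => if i % n = 0 then o else e (i % n - 1) with hq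
  have hq0 : ∀ i, i % n = 0 → q i = o := fun i hi => if_pos hi
  have hq1 : ∀ i, i % n ≠ 0 → q i = e (i % n - 1) := fun i hi => if_neg hi
  have hmod : ∀ i, i % n < n := fun i => Nat.mod_lt _ hn
  have heS : ∀ i, i < n - 1 → e i ∈ S := fun i hi => Finset.mem_of_mem_erase (he1 i hi)
  have heo : ∀ i, i < n - 1 → e i ≠ o := fun i hi => Finset.ne_of_mem_erase (he1 i hi)
  have heinj : ∀ i j, i < n - 1 → j < n - 1 → e i = e j → i = j := by
    intro i j hi hj h
    rcases lt_trichotomy i j with h1 | h1 | h1
    · have := he2 i j h1 hj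
      rw [h] at this
      exact absurd this (lt_irrefl _)
    · exact h1
    · have := he2 j i h1 hi
      rw [h] at this
      exact absurd this (lt_irrefl _)
  refine ⟨q, CP_of_base _ n hn ?_ ?_, ?_, ?_, ?_⟩
  · intro i
    simp only [hq, Nat.mod_mod]
  · intro i j k hij hjk hkn
    have hj : q j = e (j - 1) := by
      rw [hq1 j (by rw [Nat.mod_eq_of_lt (by omega)]; omega), Nat.mod_eq_of_lt (by omega)]
    have hk : q k = e (k - 1) := by
      rw [hq1 k (by rw [Nat.mod_eq_of_lt (by omega)]; omega), Nat.mod_eq_of_lt (by omega)]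
    have hjk' : 0 < cr (co o) (co (e (j - 1))) (co (e (k - 1))) :=
      hlt _ (he1 _ (by omega)) _ (he1 _ (by omega)) (he2 _ _ (by omega) (by omega))
    change 0 < cr (co (q i)) (co (q j)) (co (q k))
    rw [hj, hk]
    rcases Nat.eq_zero_or_pos i with h0 | h0
    · rw [hq0 i (by rw [h0, Nat.zero_mod])]
      exact hjk'
    · have hi : q i = e (i - 1) := by
        rw [hq1 i (by rw [Nat.mod_eq_of_lt (by omega)]; omega), Nat.mod_eq_of_lt (by omega)]
      rw [hi]
      have hij' : 0 < cr (co o) (co (e (i - 1))) (co (e (j - 1))) :=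
        hlt _ (he1 _ (by omega)) _ (he1 _ (by omega)) (he2 _ _ (by omega) (by omega))
      have hik' : 0 < cr (co o) (co (e (i - 1))) (co (e (k - 1))) :=
        hlt _ (he1 _ (by omega)) _ (he1 _ (by omega)) (he2 _ _ (by omega) (by omega))
      by_contra hcon
      have hmem := mem_hull hij' hjk' hik' (not_lt.1 hcon)
      refine hc (e (j - 1)) (heS _ (by omega)) (convexHull_mono ?_ hmem)
      intro y hy
      simp only [Set.mem_insert_iff, Set.mem_singleton_iff] at hy
      rcases hy with rfl | rfl | rfl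
      · exact ⟨Finset.mem_coe.2 ho, fun h => heo _ (by omega) h.symm⟩
      · refine ⟨Finset.mem_coe.2 (heS _ (by omega)), fun h => ?_⟩
        have := heinj _ _ (by omega) (by omega) h
        omega
      · refine ⟨Finset.mem_coe.2 (heS _ (by omega)), fun h => ?_⟩
        have := heinj _ _ (by omega) (by omega) h
        omega
  · intro i
    by_cases h : i % n = 0
    · rw [hq0 i h]; exact ho
    · rw [hq1 i h]
      have := hmod i
      exact heS _ (by omega)
  · intro i j hi hj h
    have hi' := Nat.mod_eq_of_lt hi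
    have hj' := Nat.mod_eq_of_lt hj
    by_cases h0 : i = 0
    · by_cases h1 : j = 0
      · omega
      · rw [hq0 i (by omega), hq1 j (by omega), hj'] at h
        exact absurd h.symm (heo _ (by omega))
    · by_cases h1 : j = 0
      · rw [hq0 j (by omega), hq1 i (by omega), hi'] at h
        exact absurd h (heo _ (by omega))
      · rw [hq1 j (by omega), hq1 i (by omega), hi', hj'] at h
        have := heinj _ _ (by omega) (by omega) h
        omega
  · intro x hx
    by_cases h : x = o
    · exact ⟨0, hn, by rw [hq0 0 (Nat.zero_mod _), h]⟩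
    · obtain ⟨i, hi, rfl⟩ := he3 x (Finset.mem_erase.2 ⟨h, hx⟩)
      refine ⟨i + 1, by omega, ?_⟩
      have h1 : (i + 1) % n = i + 1 := Nat.mod_eq_of_lt (by omega)
      rw [hq1 _ (by omega), h1]
      rfl

end Pool.Agent.MP_0af329_co.Cvx
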