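import Mathlib

/-!
Convex position: definitions for the 18-point certificate (see the note of helper18).
-/

namespace Pool.Agent.MP_0af329_co.Cvx

/-- twice the signed area of the triangle `a b c` -/
def cr (a b c : ℝ × ℝ) : ℝ := (b.1 - a.1) * (c.2 - a.2) - (b.2 - a.2) * (c.1 - a.1)

/-- the dot product of `b - a` and `c - a` -/
def dt (a b c : ℝ × ℝ) : ℝ := (b.1 - a.1) * (c.1 - a.1) + (b.2 - a.2) * (c.2 - a.2)

/-- `q` lists (periodically) the vertices of a convex `n`-gon in counterclockwise order -/
structure CP (q : ℕ → ℝ × ℝ) (n : ℕ) : Prop where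
  per : ∀ i, q (i + n) = q i
  pos : ∀ i j k, i < j → j < k → k < i + n → 0 < cr (q i) (q j) (q k)

open Classical in
/-- corner at `v`, previous gap `a`, next gap `b`; `1` if the angle is at least a right angle -/
noncomputable def X (q : ℕ → ℝ × ℝ) (n v a b : ℕ) : ℕ :=
  if 0 < dt (q v) (q (v + b)) (q (v + n - a)) then 0 else 1

end Pool.Agent.MP_0af329_co.Cvx
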