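import Mathlib
import Pool.Agent.MP_0af329_co.Cvx0

/-!
The 18-point certificate.
-/

namespace Pool.Agent.MP_0af329_co.Cvx

theorem sum_shift (f : ℕ → ℕ) (n : ℕ) (hf : ∀ i, f (i + n) = f i) (t : ℕ) :
    ∑ s ∈ Finset.range n, f (s + t) = ∑ s ∈ Finset.range n, f s := by
  induction t with
  | zero => simp
  | succ t ih =>
    rw [← ih]
    have h1 := Finset.sum_range_succ' (fun s => f (s + t)) n
    have h2 := Finset.sum_range_succ (fun s => f (s + t)) n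
    have h3 : f (n + t) = f (0 + t) := by rw [Nat.add_comm n t, hf, Nat.zero_add]
    have h4 : ∀ s, f (s + (t + 1)) = f (s + 1 + t) := fun s => by congr 1; omega
    simp only [h4]
    have h5 : (∑ s ∈ Finset.range n, f (s + 1 + t)) + f (0 + t) =
        (∑ s ∈ Finset.range n, f (s + t)) + f (n + t) := by rw [← h1, ← h2]
    rw [h3] at h5
    exact Nat.add_right_cancel h5

theorem X_per {q : ℕ → ℝ × ℝ} {n : ℕ} (hp : ∀ i, q (i + n) = q i) (a b : ℕ) (ha : a ≤ n) (v : ℕ) :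
    X q n (v + n) a b = X q n v a b := by
  unfold X
  have e1 : v + n + b = (v + b) + n := by omega
  have e2 : v + n + n - a = (v + n - a) + n := by omega
  rw [e1, e2, hp, hp, hp]

/-- total number of right or obtuse corners with gaps `a`, `b` -/
noncomputable def Y (q : ℕ → ℝ × ℝ) (n a b : ℕ) : ℕ := ∑ v ∈ Finset.range n, X q n v a b

theorem Y_shift {q : ℕ → ℝ × ℝ} {n : ℕ} (hp : ∀ i, q (i + n) = q i) (a b t : ℕ) (ha : a ≤ n) :
    ∑ s ∈ Finset.range n, X q n (s + t) a b = Y q n a b :=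
  sum_shift (fun v => X q n v a b) n (fun i => X_per hp a b ha i) t

/-- the hypotheses on polygons -/
structure Poly (q : ℕ → ℝ × ℝ) (n : ℕ) : Prop where
  per : ∀ i, q (i + n) = q i
  p4 : ∀ s a b c d, 0 < a → 0 < b → 0 < c → 0 < d → a + b + c + d = n →
    1 ≤ X q n s d a + X q n (s + a) a b + X q n (s + (a + b)) b c + X q n (s + (a + b + c)) c d
  p5 : ∀ s a b c d e, 0 < a → 0 < b → 0 < c → 0 < d → 0 < e → a + b + c + d + e = n →
    2 ≤ X q n s e a + X q n (s + a) a b + X q n (s + (a + b)) b c + X q n (s + (a + b + c)) c d +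
      X q n (s + (a + b + c + d)) d e
  p6 : ∀ s a b c d e f, 0 < a → 0 < b → 0 < c → 0 < d → 0 < e → 0 < f → a + b + c + d + e + f = n →
    3 ≤ X q n s f a + X q n (s + a) a b + X q n (s + (a + b)) b c + X q n (s + (a + b + c)) c d +
      X q n (s + (a + b + c + d)) d e + X q n (s + (a + b + c + d + e)) e f

theorem Y4 {q : ℕ → ℝ × ℝ} {n : ℕ} (h : Poly q n) (a b c d : ℕ) (ha : 0 < a) (hb : 0 < b) (hc : 0 < c)
    (hd : 0 < d) (hs : a + b + c + d = n) : n ≤ Y q n d a + Y q n a b + Y q n b c + Y q n c d := by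
  have h1 := Finset.sum_le_sum (s := Finset.range n) (fun s _ => h.p4 s a b c d ha hb hc hd hs)
  simp only [Finset.sum_add_distrib] at h1
  rw [Y_shift h.per _ _ _ (by omega), Y_shift h.per _ _ _ (by omega), Y_shift h.per _ _ _ (by omega)] at h1
  have h2 : ∑ s ∈ Finset.range n, X q n s d a = Y q n d a := rfl
  rw [h2] at h1
  simpa using h1

theorem Y5 {q : ℕ → ℝ × ℝ} {n : ℕ} (h : Poly q n) (a b c d e : ℕ) (ha : 0 < a) (hb : 0 < b) (hc : 0 < c)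
    (hd : 0 < d) (he : 0 < e) (hs : a + b + c + d + e = n) :
    n * 2 ≤ Y q n e a + Y q n a b + Y q n b c + Y q n c d + Y q n d e := by
  have h1 := Finset.sum_le_sum (s := Finset.range n) (fun s _ => h.p5 s a b c d e ha hb hc hd he hs)
  simp only [Finset.sum_add_distrib] at h1
  rw [Y_shift h.per _ _ _ (by omega), Y_shift h.per _ _ _ (by omega), Y_shift h.per _ _ _ (by omega),
    Y_shift h.per _ _ _ (by omega)] at h1
  have h2 : ∑ s ∈ Finset.range n, X q n s e a = Y q n e a := rfl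
  rw [h2] at h1
  simpa using h1

theorem Y6 {q : ℕ → ℝ × ℝ} {n : ℕ} (h : Poly q n) (a b c d e f : ℕ) (ha : 0 < a) (hb : 0 < b) (hc : 0 < c)
    (hd : 0 < d) (he : 0 < e) (hf : 0 < f) (hs : a + b + c + d + e + f = n) :
    n * 3 ≤ Y q n f a + Y q n a b + Y q n b c + Y q n c d + Y q n d e + Y q n e f := by
  have h1 := Finset.sum_le_sum (s := Finset.range n) (fun s _ => h.p6 s a b c d e f ha hb hc hd he hf hs)
  simp only [Finset.sum_add_distrib] at h1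
  rw [Y_shift h.per _ _ _ (by omega), Y_shift h.per _ _ _ (by omega), Y_shift h.per _ _ _ (by omega),
    Y_shift h.per _ _ _ (by omega), Y_shift h.per _ _ _ (by omega)] at h1
  have h2 : ∑ s ∈ Finset.range n, X q n s f a = Y q n f a := rfl
  rw [h2] at h1
  simpa using h1

/-- the right or obtuse rainbow corners of 18 points -/
noncomputable def T18 (q : ℕ → ℝ × ℝ) : ℕ :=
  ∑ a ∈ Finset.range 18, ∑ b ∈ Finset.range 18,
    if 0 < a ∧ 0 < b ∧ a + b < 18 ∧ a % 6 ≠ 0 ∧ b % 6 ≠ 0 ∧ (a + b) % 6 ≠ 0 then Y q 18 a b else 0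


theorem T18_eq (q : ℕ → ℝ × ℝ) : T18 q = Y q 18 1 1 + Y q 18 1 2 + Y q 18 1 3 + Y q 18 1 4 + Y q 18 1 7 + Y q 18 1 8 + Y q 18 1 9 + Y q 18 1 10 + Y q 18 1 13 + Y q 18 1 14 + Y q 18 1 15 + Y q 18 1 16 + Y q 18 2 1 + Y q 18 2 2 + Y q 18 2 3 + Y q 18 2 5 + Y q 18 2 7 + Y q 18 2 8 + Y q 18 2 9 + Y q 18 2 11 + Y q 18 2 13 + Y q 18 2 14 + Y q 18 2 15 + Y q 18 3 1 + Y q 18 3 2 + Y q 18 3 4 + Y q 18 3 5 + Y q 18 3 7 + Y q 18 3 8 + Y q 18 3 10 + Y q 18 3 11 + Y q 18 3 13 + Y q 18 3 14 + Y q 18 4 1 + Y q 18 4 3 + Y q 18 4 4 + Y q 18 4 5 + Y q 18 4 7 + Y q 18 4 9 + Y q 18 4 10 + Y q 18 4 11 + Y q 18 4 13 + Y q 18 5 2 + Y q 18 5 3 + Y q 18 5 4 + Y q 18 5 5 + Y q 18 5 8 + Y q 18 5 9 + Y q 18 5 10 + Y q 18 5 11 + Y q 18 7 1 + Y q 18 7 2 + Y q 18 7 3 + Y q 18 7 4 + Y q 18 7 7 + Y q 18 7 8 + Y q 18 7 9 + Y q 18 7 10 + Y q 18 8 1 + Y q 18 8 2 + Y q 18 8 3 + Y q 18 8 5 + Y q 18 8 7 + Y q 18 8 8 + Y q 18 8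 9 + Y q 18 9 1 + Y q 18 9 2 + Y q 18 9 4 + Y q 18 9 5 + Y q 18 9 7 + Y q 18 9 8 + Y q 18 10 1 + Y q 18 10 3 + Y q 18 10 4 + Y q 18 10 5 + Y q 18 10 7 + Y q 18 11 2 + Y q 18 11 3 + Y q 18 11 4 + Y q 18 11 5 + Y q 18 13 1 + Y q 18 13 2 + Y q 18 13 3 + Y q 18 13 4 + Y q 18 14 1 + Y q 18 14 2 + Y q 18 14 3 + Y q 18 15 1 + Y q 18 15 2 + Y q 18 16 1 := by
  unfold T18
  simp [Finset.sum_range_succ]
  try ring

theorem T18_ge {q : ℕ → ℝ × ℝ} (h : Poly q 18) : 240 ≤ T18 q := by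
  have h0 := Y6 h 1 1 1 4 1 10 (by norm_num) (by norm_num) (by norm_num) (by norm_num) (by norm_num) (by norm_num) (by norm_num)
  have h1 := Y6 h 1 1 1 10 1 4 (by norm_num) (by norm_num) (by norm_num) (by norm_num) (by norm_num) (by norm_num) (by norm_num)
  have h2 := Y6 h 1 2 2 2 1 10 (by norm_num) (by norm_num) (by norm_num) (by norm_num) (by norm_num) (by norm_num) (by norm_num)
  have h3 := Y6 h 1 2 8 2 1 4 (by norm_num) (by norm_num) (by norm_num) (by norm_num) (by norm_num) (by norm_num) (by norm_num)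
  have h4 := Y6 h 1 2 8 3 1 3 (by norm_num) (by norm_num) (by norm_num) (by norm_num) (by norm_num) (by norm_num) (by norm_num)
  have h5 := Y6 h 1 3 1 3 1 9 (by norm_num) (by norm_num) (by norm_num) (by norm_num) (by norm_num) (by norm_num) (by norm_num)
  have h6 := Y6 h 1 3 1 3 8 2 (by norm_num) (by norm_num) (by norm_num) (by norm_num) (by norm_num) (by norm_num) (by norm_num)
  have h7 := Y4 h 1 7 1 9 (by norm_num) (by norm_num) (by norm_num) (by norm_num) (by norm_num)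
  have h8 := Y4 h 1 7 3 7 (by norm_num) (by norm_num) (by norm_num) (by norm_num) (by norm_num)
  have h9 := Y4 h 1 8 1 8 (by norm_num) (by norm_num) (by norm_num) (by norm_num) (by norm_num)
  have h10 := Y5 h 2 2 3 2 9 (by norm_num) (by norm_num) (by norm_num) (by norm_num) (by norm_num) (by norm_num)
  have h11 := Y5 h 2 2 3 8 3 (by norm_num) (by norm_num) (by norm_num) (by norm_num) (by norm_num) (by norm_num)
  have h12 := Y5 h 2 2 9 2 3 (by norm_num) (by norm_num) (by norm_num) (by norm_num) (by norm_num) (by norm_num)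
  have h13 := Y5 h 2 3 2 3 8 (by norm_num) (by norm_num) (by norm_num) (by norm_num) (by norm_num) (by norm_num)
  have h14 := Y5 h 2 3 2 8 3 (by norm_num) (by norm_num) (by norm_num) (by norm_num) (by norm_num) (by norm_num)
  have h15 := Y4 h 2 5 2 9 (by norm_num) (by norm_num) (by norm_num) (by norm_num) (by norm_num)
  have h16 := Y4 h 2 5 3 8 (by norm_num) (by norm_num) (by norm_num) (by norm_num) (by norm_num)
  have h17 := Y4 h 2 7 2 7 (by norm_num) (by norm_num) (by norm_num) (by norm_num) (by norm_num)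
  have h18 := Y4 h 2 8 3 5 (by norm_num) (by norm_num) (by norm_num) (by norm_num) (by norm_num)
  have h19 := Y4 h 3 4 4 7 (by norm_num) (by norm_num) (by norm_num) (by norm_num) (by norm_num)
  have h20 := Y4 h 3 4 7 4 (by norm_num) (by norm_num) (by norm_num) (by norm_num) (by norm_num)
  have h21 := Y4 h 3 5 3 7 (by norm_num) (by norm_num) (by norm_num) (by norm_num) (by norm_num)
  have h22 := Y4 h 3 5 5 5 (by norm_num) (by norm_num) (by norm_num) (by norm_num) (by norm_num)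
  have h23 := Y4 h 3 7 4 4 (by norm_num) (by norm_num) (by norm_num) (by norm_num) (by norm_num)
  have h24 := Y4 h 4 5 4 5 (by norm_num) (by norm_num) (by norm_num) (by norm_num) (by norm_num)
  rw [T18_eq]
  have key : 6696 ≤ 28 * (Y q 18 1 1 + Y q 18 1 2 + Y q 18 1 3 + Y q 18 1 4 + Y q 18 1 7 + Y q 18 1 8 + Y q 18 1 9 + Y q 18 1 10 + Y q 18 1 13 + Y q 18 1 14 + Y q 18 1 15 + Y q 18 1 16 + Y q 18 2 1 + Y q 18 2 2 + Y q 18 2 3 + Y q 18 2 5 + Y q 18 2 7 + Y q 18 2 8 + Y q 18 2 9 + Y q 18 2 11 + Y q 18 2 13 + Y q 18 2 14 + Y q 18 2 15 + Y q 18 3 1 + Y q 18 3 2 + Y q 18 3 4 + Y q 18 3 5 + Y q 18 3 7 + Y q 18 3 8 + Y q 18 3 10 + Y q 18 3 11 + Y q 18 3 13 + Y q 18 3 14 + Y q 18 4 1 + Y q 18 4 3 + Y q 18 4 4 + Y q 18 4 5 + Y q 18 4 7 + Y q 18 4 9 + Y q 18 4 10 + Y q 18 4 11 + Y q 18 4 13 + Y q 18 5 2 + Y q 18 5 3 + Y q 18 5 4 + Y q 18 5 5 + Y q 18 5 8 + Y q 18 5 9 + Y q 18 5 10 + Y q 18 5 11 +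 Y q 18 7 1 + Y q 18 7 2 + Y q 18 7 3 + Y q 18 7 4 + Y q 18 7 7 + Y q 18 7 8 + Y q 18 7 9 + Y q 18 7 10 + Y q 18 8 1 + Y q 18 8 2 + Y q 18 8 3 + Y q 18 8 5 + Y q 18 8 7 + Y q 18 8 8 + Y q 18 8 9 + Y q 18 9 1 + Y q 18 9 2 + Y q 18 9 4 + Y q 18 9 5 + Y q 18 9 7 + Y q 18 9 8 + Y q 18 10 1 + Y q 18 10 3 + Y q 18 10 4 + Y q 18 10 5 + Y q 18 10 7 + Y q 18 11 2 + Y q 18 11 3 + Y q 18 11 4 + Y q 18 11 5 + Y q 18 13 1 + Y q 18 13 2 + Y q 18 13 3 + Y q 18 13 4 + Y q 18 14 1 + Y q 18 14 2 + Y q 18 14 3 + Y q 18 15 1 + Y q 18 15 2 + Y q 18 16 1) := by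
    linarith [Nat.mul_le_mul_left 7 h0, Nat.mul_le_mul_left 7 h1, Nat.mul_le_mul_left 6 h2, Nat.mul_le_mul_left 14 h3, Nat.mul_le_mul_left 8 h4, Nat.mul_le_mul_left 2 h5, Nat.mul_le_mul_left 8 h6, Nat.mul_le_mul_left 26 h7, Nat.mul_le_mul_left 2 h8, Nat.mul_le_mul_left 14 h9, Nat.mul_le_mul_left 1 h10, Nat.mul_le_mul_left 14 h11, Nat.mul_le_mul_left 1 h12, Nat.mul_le_mul_left 4 h13, Nat.mul_le_mul_left 4 h14, Nat.mul_le_mul_left 26 h15, Nat.mul_le_mul_left 2 h16, Nat.mul_le_mul_left 14 h17, Nat.mul_le_mul_left 2 h18, Nat.mul_le_mul_left 14 h19, Nat.mul_le_mul_left 14 h20, Nat.mul_le_mul_left 12 h21, Nat.mul_le_mul_left 14 h22, Nat.mul_le_mul_left 14 h23, Nat.mul_le_mul_left 14 h24]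
  omega

end Pool.Agent.MP_0af329_co.Cvx
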