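import Mathlib
import Pool.Agent.MP_0af329_co.Cvx0
import Pool.Agent.MP_0af329_co.Cvx18

/-!
Averaging the 18-point certificate over the choices of six residues.
-/

namespace Pool.Agent.MP_0af329_co.Cvx

open Finset

/-- Subsequences of a convex polygon. -/
theorem CP.comp {q : ℕ → ℝ × ℝ} {n N : ℕ} (h : CP q n) {f : ℕ → ℕ} (hf : StrictMono f)
    (hper : ∀ i, f (i + N) = f i + n) : CP (fun i => q (f i)) N where
  per := fun i => by
    show q (f (i + N)) = q (f i)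
    rw [hper, h.per]
  pos := fun i j k hij hjk hki => h.pos _ _ _ (hf hij) (hf hjk) (by
    rw [← hper]; exact hf hki)

open Classical in
/-- the corners `(v, x, y)` of the `n`-gon which are not acute -/
noncomputable def B (q : ℕ → ℝ × ℝ) (n : ℕ) : Finset (ℕ × ℕ × ℕ) :=
  (range n ×ˢ range (2 * n) ×ˢ range (2 * n)).filter fun t =>
    t.1 < t.2.1 ∧ t.2.1 < t.2.2 ∧ t.2.2 < t.1 + n ∧ ¬ 0 < dt (q t.1) (q t.2.1) (q t.2.2)

open Classical in
/-- the corners `(v, x, y)` of the `n`-gon which are not acute, with different residues mod `c` -/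
noncomputable def A (q : ℕ → ℝ × ℝ) (n c : ℕ) : Finset (ℕ × ℕ × ℕ) :=
  (B q n).filter fun t =>
    t.1 % c ≠ t.2.1 % c ∧ t.1 % c ≠ t.2.2 % c ∧ t.2.1 % c ≠ t.2.2 % c

theorem mem_B {q : ℕ → ℝ × ℝ} {n : ℕ} {t : ℕ × ℕ × ℕ} : t ∈ B q n ↔
    t.1 < n ∧ t.1 < t.2.1 ∧ t.2.1 < t.2.2 ∧ t.2.2 < t.1 + n ∧
      ¬ 0 < dt (q t.1) (q t.2.1) (q t.2.2) := by
  classical
  unfold B
  simp only [mem_filter, mem_product, mem_range]
  constructor
  · rintro ⟨⟨h1, h2, h3⟩, h4, h5, h6, h7⟩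
    exact ⟨h1, h4, h5, h6, h7⟩
  · rintro ⟨h1, h4, h5, h6, h7⟩
    exact ⟨⟨h1, by omega, by omega⟩, h4, h5, h6, h7⟩

theorem mem_A {q : ℕ → ℝ × ℝ} {n c : ℕ} {t : ℕ × ℕ × ℕ} : t ∈ A q n c ↔
    t ∈ B q n ∧ t.1 % c ≠ t.2.1 % c ∧ t.1 % c ≠ t.2.2 % c ∧ t.2.1 % c ≠ t.2.2 % c := by
  classical
  unfold A
  rw [mem_filter]

/-- The map on corners induced by a subsequence. -/
def mp (f : ℕ → ℕ) (t : ℕ × ℕ × ℕ) : ℕ × ℕ × ℕ := (f t.1, f t.2.1, f t.2.2)

theorem mp_inj {f : ℕ → ℕ} (hf : Function.Injective f) : Function.Injective (mp f) := by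
  rintro ⟨a, b, c⟩ ⟨a', b', c'⟩ h
  simp only [mp, Prod.mk.injEq] at h
  obtain ⟨h1, h2, h3⟩ := h
  rw [hf h1, hf h2, hf h3]

theorem mp_mem_B {q : ℕ → ℝ × ℝ} {n N : ℕ} {f : ℕ → ℕ} (hf : StrictMono f)
    (hper : ∀ i, f (i + N) = f i + n) (hlt : ∀ i, i < N → f i < n) {t : ℕ × ℕ × ℕ}
    (ht : t ∈ B (fun i => q (f i)) N) : mp f t ∈ B q n := by
  rw [mem_B] at ht ⊢
  obtain ⟨h1, h2, h3, h4, h5⟩ := ht
  refine ⟨hlt _ h1, hf h2, hf h3, ?_, h5⟩
  show f t.2.2 < f t.1 + n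
  rw [← hper]
  exact hf h4

theorem card_B_le {q : ℕ → ℝ × ℝ} {n N : ℕ} {f : ℕ → ℕ} (hf : StrictMono f)
    (hper : ∀ i, f (i + N) = f i + n) (hlt : ∀ i, i < N → f i < n) :
    (B (fun i => q (f i)) N).card ≤ (B q n).card :=
  card_le_card_of_injOn (mp f) (fun _ ht => mp_mem_B hf hper hlt ht) (mp_inj hf.injective).injOn

theorem aux_mem {q : ℕ → ℝ × ℝ} {n c v a b : ℕ} (hv : v < n) (h1 : 0 < a) (h2 : 0 < b)
    (h3 : a + b < n) (e1 : v % c ≠ (v + b) % c) (e2 : v % c ≠ (v + n - a) % c)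
    (e3 : (v + b) % c ≠ (v + n - a) % c)
    (h7 : ¬ 0 < dt (q v) (q (v + b)) (q (v + n - a))) : (v, v + b, v + n - a) ∈ A q n c := by
  rw [mem_A, mem_B]
  exact ⟨⟨hv, Nat.lt_add_of_pos_right h2, by show v + b < v + n - a; omega,
    by show v + n - a < v + n; omega, h7⟩, e1, e2, e3⟩

theorem aux_arith {v a b : ℕ} (h3 : a + b < 18) (h4 : a % 6 ≠ 0) (h5 : b % 6 ≠ 0)
    (h6 : (a + b) % 6 ≠ 0) : v % 6 ≠ (v + b) % 6 ∧ v % 6 ≠ (v + 18 - a) % 6 ∧
      (v + b) % 6 ≠ (v + 18 - a) % 6 := by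
  omega

/-- The general form of `T18`. -/
noncomputable def W (q : ℕ → ℝ × ℝ) (n c : ℕ) : ℕ :=
  ∑ a ∈ Finset.range n, ∑ b ∈ Finset.range n,
    if 0 < a ∧ 0 < b ∧ a + b < n ∧ a % c ≠ 0 ∧ b % c ≠ 0 ∧ (a + b) % c ≠ 0 then Y q n a b else 0

/-- `W` counts corners. -/
theorem W_le_card (q : ℕ → ℝ × ℝ) (n c : ℕ)
    (har : ∀ v a b : ℕ, a + b < n → a % c ≠ 0 → b % c ≠ 0 → (a + b) % c ≠ 0 →
      v % c ≠ (v + b) % c ∧ v % c ≠ (v + n - a) % c ∧ (v + b) % c ≠ (v + n - a) % c) :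
    W q n c ≤ (A q n c).card := by
  classical
  have e : W q n c = (((range n ×ˢ range n) ×ˢ range n).filter fun t : (ℕ × ℕ) × ℕ =>
      (0 < t.1.1 ∧ 0 < t.1.2 ∧ t.1.1 + t.1.2 < n ∧ t.1.1 % c ≠ 0 ∧ t.1.2 % c ≠ 0 ∧
        (t.1.1 + t.1.2) % c ≠ 0) ∧
        ¬ 0 < dt (q t.2) (q (t.2 + t.1.2)) (q (t.2 + n - t.1.1))).card := by
    rw [card_filter, sum_product, sum_product]
    unfold W Y X
    refine sum_congr rfl fun a _ => sum_congr rfl fun b _ => ?_
    split_ifs with h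
    · refine sum_congr rfl fun v _ => ?_
      by_cases h' : 0 < dt (q v) (q (v + b)) (q (v + n - a))
      · rw [if_pos h', if_neg (fun hh => hh.2 h')]
      · rw [if_neg h', if_pos ⟨h, h'⟩]
    · symm
      refine sum_eq_zero fun v _ => ?_
      rw [if_neg (fun hh => h hh.1)]
  rw [e]
  refine card_le_card_of_injOn (fun t : (ℕ × ℕ) × ℕ => (t.2, t.2 + t.1.2, t.2 + n - t.1.1)) ?_ ?_
  · rintro ⟨⟨a, b⟩, v⟩ ht
    simp only [coe_filter, mem_product, mem_range, Set.mem_ofPred_eq] at ht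
    obtain ⟨⟨⟨ha, hb⟩, hv⟩, ⟨h1, h2, h3, h4, h5, h6⟩, h7⟩ := ht
    obtain ⟨e1, e2, e3⟩ := har v a b h3 h4 h5 h6
    exact mem_coe.2 (aux_mem hv h1 h2 h3 e1 e2 e3 h7)
  · rintro ⟨⟨a, b⟩, v⟩ ht ⟨⟨a', b'⟩, v'⟩ ht' heq
    simp only [coe_filter, mem_product, mem_range, Set.mem_ofPred_eq] at ht ht'
    simp only [Prod.mk.injEq] at heq ⊢
    omega

theorem T18_le_card (q : ℕ → ℝ × ℝ) : T18 q ≤ (A q 18 6).card :=
  W_le_card q 18 6 (fun _ _ _ h3 h4 h5 h6 => aux_arith h3 h4 h5 h6)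

/-- The increasing enumeration of the numbers with residue mod `m` in a `6`-set. -/
def phi (m : ℕ) (r : Fin 6 → ℕ) (i : ℕ) : ℕ :=
  r ⟨i % 6, Nat.mod_lt _ (by norm_num)⟩ + m * (i / 6)

theorem phi_mod {m : ℕ} {r : Fin 6 → ℕ} (hr : ∀ j, r j < m) (i : ℕ) :
    phi m r i % m = r ⟨i % 6, Nat.mod_lt _ (by norm_num)⟩ := by
  unfold phi
  rw [Nat.add_mul_mod_self_left, Nat.mod_eq_of_lt (hr _)]

theorem phi_strictMono {m : ℕ} {r : Fin 6 → ℕ} (hr : ∀ j, r j < m) (hmono : StrictMono r) :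
    StrictMono (phi m r) := by
  intro i j hij
  unfold phi
  rcases Nat.lt_or_ge (i / 6) (j / 6) with h | h
  · have h1 := hr ⟨i % 6, Nat.mod_lt _ (by norm_num)⟩
    have h2 : m * (i / 6 + 1) ≤ m * (j / 6) := Nat.mul_le_mul_left _ h
    have h3 : m * (i / 6 + 1) = m * (i / 6) + m := by ring
    omega
  · have h0 : i / 6 = j / 6 := by
      have := Nat.div_le_div_right (c := 6) hij.le
      omega
    have h1 : i % 6 < j % 6 := by omega
    have h2 : r ⟨i % 6, Nat.mod_lt _ (by norm_num)⟩ < r ⟨j % 6, Nat.mod_lt _ (by norm_num)⟩ :=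
      hmono h1
    rw [h0]
    omega

theorem phi_per {m : ℕ} {r : Fin 6 → ℕ} (i : ℕ) : phi m r (i + 18) = phi m r i + 3 * m := by
  unfold phi
  have h1 : (i + 18) / 6 = i / 6 + 3 := by omega
  have h2 : (⟨(i + 18) % 6, Nat.mod_lt _ (by norm_num)⟩ : Fin 6) =
      ⟨i % 6, Nat.mod_lt _ (by norm_num)⟩ := by
    apply Fin.ext
    show (i + 18) % 6 = i % 6
    omega
  rw [h1, h2]
  ring

theorem phi_lt {m : ℕ} {r : Fin 6 → ℕ} (hr : ∀ j, r j < m) (i : ℕ) (hi : i < 18) :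
    phi m r i < 3 * m := by
  unfold phi
  have h1 := hr ⟨i % 6, Nat.mod_lt _ (by norm_num)⟩
  have h2 : m * (i / 6) ≤ m * 2 := Nat.mul_le_mul_left _ (by omega)
  omega

/-- For a fixed `6`-set `R` of residues: at least `240` corners have residues in `R`. -/
theorem card_R {q : ℕ → ℝ × ℝ} {m : ℕ} (h : CP q (3 * m))
    (hP : ∀ q' : ℕ → ℝ × ℝ, CP q' 18 → Poly q' 18) {R : Finset ℕ} (hR : R ⊆ range m)
    (hc : R.card = 6) :
    240 ≤ ((A q (3 * m) m).filter fun t => t.1 % m ∈ R ∧ t.2.1 % m ∈ R ∧ t.2.2 % m ∈ R).card := by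
  classical
  set r : Fin 6 → ℕ := fun j => R.orderEmbOfFin hc j with hrdef
  have hmem : ∀ j, r j ∈ R := fun j => R.orderEmbOfFin_mem hc j
  have hr : ∀ j, r j < m := fun j => mem_range.1 (hR (hmem j))
  have hmono : StrictMono r := (R.orderEmbOfFin hc).strictMono
  have hf := phi_strictMono hr hmono
  have h0 : CP (fun i => q (phi m r i)) 18 := h.comp hf (fun i => phi_per i)
  have h00 : 240 ≤ T18 (fun i => q (phi m r i)) := T18_ge (hP _ h0)
  have h1 : 240 ≤ (A (fun i => q (phi m r i)) 18 6).card := h00.trans (T18_le_card _)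
  refine h1.trans ?_
  refine card_le_card_of_injOn (mp (phi m r)) ?_ (mp_inj hf.injective).injOn
  intro t ht
  have ht' := mem_A.1 (mem_coe.1 ht)
  obtain ⟨h2, h3, h4, h5⟩ := ht'
  have h6 := mp_mem_B hf phi_per (phi_lt hr) h2
  have key : ∀ a b : ℕ, a % 6 ≠ b % 6 → phi m r a % m ≠ phi m r b % m := by
    intro a b hab heq
    rw [phi_mod hr, phi_mod hr] at heq
    have := hmono.injective heq
    simp only [Fin.mk.injEq] at this
    exact hab this
  have key2 : ∀ a : ℕ, phi m r a % m ∈ R := by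
    intro a
    rw [phi_mod hr]
    exact hmem _
  rw [mem_coe, mem_filter, mem_A]
  exact ⟨⟨h6, key _ _ h3, key _ _ h4, key _ _ h5⟩, key2 _, key2 _, key2 _⟩

/-- The number of `6`-sets containing three given residues. -/
theorem card_super {m a b c : ℕ} (ha : a < m) (hb : b < m) (hc : c < m) (hab : a ≠ b) (hac : a ≠ c)
    (hbc : b ≠ c) :
    ((powersetCard 6 (range m)).filter fun R => a ∈ R ∧ b ∈ R ∧ c ∈ R).card ≤
      (m - 3).choose 3 := by
  classical
  have hcard : ({a, b, c} : Finset ℕ).card = 3 := by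
    rw [card_eq_three]
    exact ⟨a, b, c, hab, hac, hbc, rfl⟩
  have hsub : ({a, b, c} : Finset ℕ) ⊆ range m := by
    intro x hx
    simp only [mem_insert, mem_singleton] at hx
    rw [mem_range]
    rcases hx with rfl | rfl | rfl <;> assumption
  have h1 : (powersetCard 3 (range m \ {a, b, c})).card = (m - 3).choose 3 := by
    rw [card_powersetCard, card_sdiff_of_subset hsub, hcard, card_range]
  rw [← h1]
  refine card_le_card_of_injOn (fun R => R \ {a, b, c}) ?_ ?_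
  · intro R hR
    rw [mem_coe, mem_filter, mem_powersetCard] at hR
    obtain ⟨⟨h2, h3⟩, h4, h5, h6⟩ := hR
    have hs : ({a, b, c} : Finset ℕ) ⊆ R := by
      intro x hx
      simp only [mem_insert, mem_singleton] at hx
      rcases hx with rfl | rfl | rfl <;> assumption
    show R \ {a, b, c} ∈ powersetCard 3 (range m \ {a, b, c})
    rw [mem_powersetCard, card_sdiff_of_subset hs, hcard, h3]
    exact ⟨sdiff_subset_sdiff h2 (Subset.refl _), rfl⟩
  · intro R hR R' hR' heq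
    rw [mem_coe, mem_filter] at hR hR'
    obtain ⟨-, h4, h5, h6⟩ := hR
    obtain ⟨-, h4', h5', h6'⟩ := hR'
    have hs : ({a, b, c} : Finset ℕ) ⊆ R := by
      intro x hx
      simp only [mem_insert, mem_singleton] at hx
      rcases hx with rfl | rfl | rfl <;> assumption
    have hs' : ({a, b, c} : Finset ℕ) ⊆ R' := by
      intro x hx
      simp only [mem_insert, mem_singleton] at hx
      rcases hx with rfl | rfl | rfl <;> assumption
    have heq' : R \ {a, b, c} = R' \ {a, b, c} := heq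
    rw [← sdiff_union_of_subset hs, ← sdiff_union_of_subset hs', heq']

/-- The averaged inequality. -/
theorem card_A_ge {q : ℕ → ℝ × ℝ} {m : ℕ} (hm : 6 ≤ m) (h : CP q (3 * m))
    (hP : ∀ q' : ℕ → ℝ × ℝ, CP q' 18 → Poly q' 18) :
    12 * m.choose 3 ≤ (A q (3 * m) m).card := by
  classical
  have h1 : 240 * m.choose 6 ≤ ∑ R ∈ powersetCard 6 (range m),
      ((A q (3 * m) m).filter fun t => t.1 % m ∈ R ∧ t.2.1 % m ∈ R ∧ t.2.2 % m ∈ R).card := by
    have h2 : ∑ R ∈ powersetCard 6 (range m), 240 = 240 * m.choose 6 := by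
      rw [sum_const, card_powersetCard, card_range, smul_eq_mul, mul_comm]
    rw [← h2]
    refine sum_le_sum fun R hR => ?_
    rw [mem_powersetCard] at hR
    exact card_R h hP hR.1 hR.2
  have h3 : ∑ R ∈ powersetCard 6 (range m),
      ((A q (3 * m) m).filter fun t => t.1 % m ∈ R ∧ t.2.1 % m ∈ R ∧ t.2.2 % m ∈ R).card =
      ∑ t ∈ A q (3 * m) m, ((powersetCard 6 (range m)).filter fun R =>
        t.1 % m ∈ R ∧ t.2.1 % m ∈ R ∧ t.2.2 % m ∈ R).card := by
    simp only [card_filter]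
    rw [sum_comm]
  have h4 : ∑ t ∈ A q (3 * m) m, ((powersetCard 6 (range m)).filter fun R =>
        t.1 % m ∈ R ∧ t.2.1 % m ∈ R ∧ t.2.2 % m ∈ R).card ≤
      (A q (3 * m) m).card * (m - 3).choose 3 := by
    rw [← smul_eq_mul (A q (3 * m) m).card]
    refine sum_le_card_nsmul _ _ _ fun t ht => ?_
    rw [mem_A] at ht
    obtain ⟨-, h5, h6, h7⟩ := ht
    have hm0 : 0 < m := by omega
    exact card_super (Nat.mod_lt _ hm0) (Nat.mod_lt _ hm0) (Nat.mod_lt _ hm0) h5 h6 h7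
  have h5 : 240 * m.choose 6 ≤ (A q (3 * m) m).card * (m - 3).choose 3 :=
    h1.trans (h3.le.trans h4)
  have h6 : m.choose 6 * Nat.choose 6 3 = m.choose 3 * (m - 3).choose (6 - 3) :=
    Nat.choose_mul (by norm_num : 3 ≤ 6)
  have h7 : Nat.choose 6 3 = 20 := by decide
  rw [h7] at h6
  have h8 : 0 < (m - 3).choose 3 := Nat.choose_pos (by omega)
  have h9 : (12 * m.choose 3) * (m - 3).choose 3 ≤ (A q (3 * m) m).card * (m - 3).choose 3 := by
    have e : (12 * m.choose 3) * (m - 3).choose 3 = 240 * m.choose 6 := by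
      have : (m - 3).choose (6 - 3) = (m - 3).choose 3 := rfl
      rw [this] at h6
      have e2 : (12 * m.choose 3) * (m - 3).choose 3 = 12 * (m.choose 3 * (m - 3).choose 3) := by
        ring
      rw [e2, ← h6]
      ring
    rw [e]
    exact h5
  exact Nat.le_of_mul_le_mul_right h9 h8

/-- Dropping at most two points. -/
def drp (n i : ℕ) : ℕ := i % (3 * (n / 3)) + n * (i / (3 * (n / 3)))

theorem drp_strictMono {n : ℕ} (hn : 3 ≤ n) : StrictMono (drp n) := by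
  intro i j hij
  unfold drp
  set N := 3 * (n / 3) with hN
  have hN0 : 0 < N := by omega
  have hNn : N ≤ n := by omega
  rcases Nat.lt_or_ge (i / N) (j / N) with h | h
  · have h1 := Nat.mod_lt i hN0
    have h2 : n * (i / N + 1) ≤ n * (j / N) := Nat.mul_le_mul_left _ h
    have h3 : n * (i / N + 1) = n * (i / N) + n := by ring
    omega
  · have h0 : i / N = j / N := by
      have := Nat.div_le_div_right (c := N) hij.le
      omega
    have h1 := Nat.div_add_mod i N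
    have h2 := Nat.div_add_mod j N
    rw [h0] at h1 ⊢
    omega

theorem drp_per {n : ℕ} (hn : 3 ≤ n) (i : ℕ) : drp n (i + 3 * (n / 3)) = drp n i + n := by
  unfold drp
  have hN0 : 0 < 3 * (n / 3) := by omega
  rw [Nat.add_mod_right, Nat.add_div_right _ hN0]
  ring

theorem drp_lt {n : ℕ} (i : ℕ) (hi : i < 3 * (n / 3)) : drp n i < n := by
  unfold drp
  rw [Nat.mod_eq_of_lt hi, Nat.div_eq_of_lt hi]
  omega

/-- The lower bound for the number of non-acute corners of a convex `n`-gon. -/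
theorem card_B_ge {q : ℕ → ℝ × ℝ} {n : ℕ} (hn : 18 ≤ n) (h : CP q n)
    (hP : ∀ q' : ℕ → ℝ × ℝ, CP q' 18 → Poly q' 18) :
    12 * (n / 3).choose 3 ≤ (B q n).card := by
  have hn3 : 3 ≤ n := by omega
  have h1 : CP (fun i => q (drp n i)) (3 * (n / 3)) := h.comp (drp_strictMono hn3) (drp_per hn3)
  have h2 := card_A_ge (by omega) h1 hP
  have h3 : (A (fun i => q (drp n i)) (3 * (n / 3)) (n / 3)).card ≤
      (B (fun i => q (drp n i)) (3 * (n / 3))).card := by
    classical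
    unfold A
    exact card_filter_le _ _
  exact h2.trans (h3.trans (card_B_le (drp_strictMono hn3) (drp_per hn3) drp_lt))

end Pool.Agent.MP_0af329_co.Cvx
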