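import Pool.Agent.MP_0af329_co.Basic
import Pool.Agent.MP_0af329_co.CvxAvg

/-!
The corners of a convex polygon and the angles of its set of vertices.
-/

namespace Pool.Agent.MP_0af329_co.Cvx

open Finset EuclideanGeometry

/-- A pair of real numbers as a point of the plane. -/
noncomputable def pt (a : ℝ × ℝ) : Pt := !₂[a.1, a.2]

@[simp] theorem pt0 (a : ℝ × ℝ) : pt a 0 = a.1 := by simp [pt]
@[simp] theorem pt1 (a : ℝ × ℝ) : pt a 1 = a.2 := by simp [pt]

theorem pt_inj : Function.Injective pt := by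
  intro a b h
  have h0 : pt a 0 = pt b 0 := by rw [h]
  have h1 : pt a 1 = pt b 1 := by rw [h]
  rw [pt0, pt0] at h0
  rw [pt1, pt1] at h1
  exact Prod.ext h0 h1

theorem dt_eq (a b c : ℝ × ℝ) : inner ℝ (pt b - pt a) (pt c - pt a) = dt a b c := by
  simp [dt, PiLp.inner_apply, Fin.sum_univ_two]
  ring

theorem angle_gt {a b c : ℝ × ℝ} (h : dt a b c < 0) :
    Real.pi / 2 < ∠ (pt b) (pt a) (pt c) := by
  have h2 : inner ℝ (pt b - pt a) (pt c - pt a) < 0 := by rw [dt_eq]; exact h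
  have hab : pt b - pt a ≠ 0 := by
    intro h3
    rw [h3, inner_zero_left] at h2
    exact lt_irrefl _ h2
  have hcb : pt c - pt a ≠ 0 := by
    intro h3
    rw [h3, inner_zero_right] at h2
    exact lt_irrefl _ h2
  have h4 : 0 < ‖pt b - pt a‖ := norm_pos_iff.2 hab
  have h5 : 0 < ‖pt c - pt a‖ := norm_pos_iff.2 hcb
  change Real.pi / 2 < InnerProductGeometry.angle (pt b - pt a) (pt c - pt a)
  by_contra h1
  have h3 := not_lt.1 h1
  rw [InnerProductGeometry.angle, Real.arccos_le_pi_div_two] at h3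
  have h6 := div_neg_of_neg_of_pos h2 (mul_pos h4 h5)
  linarith

theorem CP.inj {q : ℕ → ℝ × ℝ} {n : ℕ} (h : CP q n) (hn : 3 ≤ n) {i j : ℕ} (hij : i < j)
    (hj : j < i + n) : q i ≠ q j := by
  intro he
  rcases Nat.lt_or_ge (i + 1) j with h1 | h1
  · have h2 := h.pos i (i + 1) j (by omega) h1 hj
    rw [he] at h2
    simp only [cr] at h2
    linarith
  · have h2 := h.pos i j (i + 2) hij (by omega) (by omega)
    rw [he] at h2
    simp only [cr] at h2
    linarith

theorem CP.eq_of_eq {q : ℕ → ℝ × ℝ} {n : ℕ} (h : CP q n) (hn : 3 ≤ n) {v i j : ℕ} (hi : v ≤ i)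
    (hj : v ≤ j) (hi' : i < v + n) (hj' : j < v + n) (he : q i = q j) : i = j := by
  rcases Nat.lt_trichotomy i j with h1 | h1 | h1
  · exact absurd he (h.inj hn h1 (by omega))
  · exact h1
  · exact absurd he.symm (h.inj hn h1 (by omega))

open Classical in
/-- the obtuse corners -/
noncomputable def B' (q : ℕ → ℝ × ℝ) (n : ℕ) : Finset (ℕ × ℕ × ℕ) :=
  (B q n).filter fun t => dt (q t.1) (q t.2.1) (q t.2.2) < 0

theorem card_B_le_B' {q : ℕ → ℝ × ℝ} {n : ℕ} (h : CP q n) (hn : 3 ≤ n) :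
    (B q n).card ≤ (B' q n).card + 2 * n ^ 2 := by
  classical
  have h1 : (B q n).card = (B' q n).card +
      ((B q n).filter fun t => ¬ dt (q t.1) (q t.2.1) (q t.2.2) < 0).card := by
    unfold B'
    rw [card_filter_add_card_filter_not]
  rw [h1]
  apply Nat.add_le_add_left
  have h2 : (range n ×ˢ range (2 * n)).card = 2 * n ^ 2 := by
    rw [card_product, card_range, card_range]
    ring
  rw [← h2]
  refine card_le_card_of_injOn (fun t => (t.1, t.2.1)) ?_ ?_
  · rintro ⟨v, x, y⟩ ht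
    rw [mem_coe, mem_filter, mem_B] at ht
    obtain ⟨⟨h3, h4, h5, h6, -⟩, -⟩ := ht
    simp only at h3 h4 h5 h6
    simp only [coe_product, Set.mem_prod, mem_coe, mem_range]
    exact ⟨h3, by omega⟩
  · rintro ⟨v, x, y⟩ ht ⟨v', x', y'⟩ ht' he
    rw [mem_coe, mem_filter, mem_B] at ht ht'
    obtain ⟨⟨h3, h4, h5, h6, h7⟩, h8⟩ := ht
    obtain ⟨⟨h3', h4', h5', h6', h7'⟩, h8'⟩ := ht'
    simp only [Prod.mk.injEq] at he h3 h4 h5 h6 h7 h8 h3' h4' h5' h6' h7' h8' ⊢
    obtain ⟨rfl, rfl⟩ := he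
    refine ⟨rfl, rfl, ?_⟩
    have e1 : dt (q v) (q x) (q y) = 0 := le_antisymm (not_lt.1 h7) (not_lt.1 h8)
    have e2 : dt (q v) (q x) (q y') = 0 := le_antisymm (not_lt.1 h7') (not_lt.1 h8')
    have hne : q v ≠ q x := h.inj hn h4 (by omega)
    have e3 : cr (q v) (q y) (q y') = 0 := by
      simp only [dt] at e1 e2
      simp only [cr]
      have k : ((q x).1 - (q v).1) ≠ 0 ∨ ((q x).2 - (q v).2) ≠ 0 := by
        by_contra hcon
        rw [not_or, not_not, not_not] at hcon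
        apply hne
        apply Prod.ext
        · linarith [hcon.1]
        · linarith [hcon.2]
      rcases k with k | k
      · apply mul_left_cancel₀ k
        linear_combination ((q y').2 - (q v).2) * e1 - ((q y).2 - (q v).2) * e2
      · apply mul_left_cancel₀ k
        linear_combination ((q y).1 - (q v).1) * e2 - ((q y').1 - (q v).1) * e1
    rcases Nat.lt_trichotomy y y' with h9 | h9 | h9
    · exact absurd e3 (h.pos v y y' (by omega) h9 h6').ne'
    · exact h9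
    · have h10 := h.pos v y' y (by omega) h9 h6
      have h11 : cr (q v) (q y') (q y) = - cr (q v) (q y) (q y') := by
        simp only [cr]; ring
      rw [h11, e3] at h10
      linarith

theorem two_card_le {q : ℕ → ℝ × ℝ} {n : ℕ} (h : CP q n) (hn : 3 ≤ n) {S : Finset Pt}
    (hS : ∀ i, pt (q i) ∈ S) : 2 * (B' q n).card ≤ cnt S (Set.Ioi (Real.pi / 2)) := by
  classical
  have h1 : 2 * (B' q n).card = (B' q n ×ˢ (univ : Finset Bool)).card := by
    rw [card_product, card_univ, Fintype.card_bool, mul_comm]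
  rw [h1]
  unfold cnt
  refine card_le_card_of_injOn (fun t : (ℕ × ℕ × ℕ) × Bool =>
    if t.2 then (pt (q t.1.2.2), pt (q t.1.1), pt (q t.1.2.1))
    else (pt (q t.1.2.1), pt (q t.1.1), pt (q t.1.2.2))) ?_ ?_
  · rintro ⟨⟨v, x, y⟩, b⟩ ht
    rw [mem_coe, mem_product] at ht
    have ht1 := ht.1
    unfold B' at ht1
    rw [mem_filter, mem_B] at ht1
    obtain ⟨⟨h3, h4, h5, h6, -⟩, h8⟩ := ht1
    simp only at h3 h4 h5 h6 h8
    have n1 : pt (q v) ≠ pt (q x) := fun e => h.inj hn h4 (by omega) (pt_inj e)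
    have n2 : pt (q v) ≠ pt (q y) := fun e => h.inj hn (h4.trans h5) h6 (pt_inj e)
    have n3 : pt (q x) ≠ pt (q y) := fun e => h.inj hn h5 (by omega) (pt_inj e)
    have h9 := angle_gt h8
    cases b
    · simp only [mem_coe, mem_filter, Bool.false_eq_true, if_false]
      exact ⟨mem_trip.2 ⟨⟨hS _, hS _, hS _⟩, n1.symm, n2, n3⟩, h9⟩
    · simp only [mem_coe, mem_filter, if_true]
      refine ⟨mem_trip.2 ⟨⟨hS _, hS _, hS _⟩, n2.symm, n1, n3.symm⟩, ?_⟩
      rw [EuclideanGeometry.angle_comm]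
      exact h9
  · rintro ⟨⟨v, x, y⟩, b⟩ ht ⟨⟨v', x', y'⟩, b'⟩ ht' he
    rw [mem_coe, mem_product] at ht ht'
    have ht1 := ht.1
    have ht1' := ht'.1
    unfold B' at ht1 ht1'
    rw [mem_filter, mem_B] at ht1 ht1'
    obtain ⟨⟨h3, h4, h5, h6, -⟩, -⟩ := ht1
    obtain ⟨⟨h3', h4', h5', h6', -⟩, -⟩ := ht1'
    simp only at h3 h4 h5 h6 h3' h4' h5' h6'
    have hv : ∀ {a b : ℕ}, a < n → b < n → pt (q a) = pt (q b) → a = b := fun ha hb e =>
      h.eq_of_eq hn (Nat.zero_le _) (Nat.zero_le _) (by omega) (by omega) (pt_inj e)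
    cases b <;> cases b' <;>
      simp only [Bool.false_eq_true, if_false, if_true, Prod.mk.injEq] at he <;>
      obtain ⟨e1, e2, e3⟩ := he <;> have e4 := hv h3 h3' e2 <;> subst e4
    · have e5 := h.eq_of_eq hn (v := v) h4.le h4'.le (by omega) (by omega) (pt_inj e1)
      have e6 := h.eq_of_eq hn (v := v) (by omega) (by omega) h6 h6' (pt_inj e3)
      rw [e5, e6]
    · have e5 := h.eq_of_eq hn (v := v) h4.le (by omega) (by omega) h6' (pt_inj e1)
      have e6 := h.eq_of_eq hn (v := v) (by omega) h4'.le h6 (by omega) (pt_inj e3)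
      omega
    · have e5 := h.eq_of_eq hn (v := v) (by omega) h4'.le h6 (by omega) (pt_inj e1)
      have e6 := h.eq_of_eq hn (v := v) h4.le (by omega) (by omega) h6' (pt_inj e3)
      omega
    · have e5 := h.eq_of_eq hn (v := v) (by omega) (by omega) h6 h6' (pt_inj e1)
      have e6 := h.eq_of_eq hn (v := v) h4.le h4'.le (by omega) (by omega) (pt_inj e3)
      rw [e5, e6]

theorem choose3 (m : ℕ) (hm : 2 ≤ m) :
    ((m.choose 3 : ℕ) : ℝ) = (m : ℝ) * ((m : ℝ) - 1) * ((m : ℝ) - 2) / 6 := by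
  obtain ⟨k, rfl⟩ := Nat.exists_eq_add_of_le hm
  have h := Nat.descFactorial_eq_factorial_mul_choose (2 + k) 3
  have h1 : (2 + k).descFactorial 3 = (2 + k) * (1 + k) * k := by
    simp only [Nat.descFactorial_succ, Nat.descFactorial_zero]
    have e1 : 2 + k - 2 = k := by omega
    have e2 : 2 + k - 1 = 1 + k := by omega
    rw [e1, e2, Nat.sub_zero]
    ring
  have h2 : Nat.factorial 3 = 6 := rfl
  rw [h1, h2] at h
  have h3 : ((2 + k : ℕ) : ℝ) * ((1 + k : ℕ) : ℝ) * (k : ℝ) = 6 * (((2 + k).choose 3 : ℕ) : ℝ) := by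
    exact_mod_cast h
  push_cast at h3 ⊢
  linarith

/-- The lower bound. -/
theorem cnt_ge {q : ℕ → ℝ × ℝ} {n : ℕ} (h : CP q n)
    (hP : ∀ q' : ℕ → ℝ × ℝ, CP q' 18 → Poly q' 18) {S : Finset Pt}
    (hS : ∀ i, pt (q i) ∈ S) :
    4 / 27 * (n : ℝ) ^ 3 - 7 * (n : ℝ) ^ 2 ≤ cnt S (Set.Ioi (Real.pi / 2)) := by
  rcases Nat.lt_or_ge n 18 with h1 | h1
  · have h2 : (n : ℝ) < 18 := by exact_mod_cast h1
    have h3 : (0 : ℝ) ≤ n := Nat.cast_nonneg n
    have h4 : (0 : ℝ) ≤ cnt S (Set.Ioi (Real.pi / 2)) := Nat.cast_nonneg _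
    nlinarith [mul_nonneg h3 h3]
  · have h2 := card_B_ge h1 h hP
    have h3 := card_B_le_B' h (by omega)
    have h4 := two_card_le h (by omega) hS
    have h5 : 24 * (n / 3).choose 3 ≤ cnt S (Set.Ioi (Real.pi / 2)) + 4 * n ^ 2 := by omega
    have h6 : (24 : ℝ) * ((n / 3).choose 3 : ℕ) ≤
        (cnt S (Set.Ioi (Real.pi / 2)) : ℝ) + 4 * (n : ℝ) ^ 2 := by exact_mod_cast h5
    rw [choose3 _ (by omega)] at h6
    have h7 : (n : ℝ) ≤ 3 * ((n / 3 : ℕ) : ℝ) + 2 := by
      have : n ≤ 3 * (n / 3) + 2 := by omega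
      exact_mod_cast this
    have h8 : (18 : ℝ) ≤ n := by exact_mod_cast h1
    set m : ℝ := ((n / 3 : ℕ) : ℝ) with hm
    have h9 : (6 : ℝ) ≤ m := by
      have : 6 ≤ n / 3 := by omega
      rw [hm]
      exact_mod_cast this
    have h10 : ((n : ℝ) - 2) / 3 ≤ m := by linarith
    have h11 : ((n : ℝ) - 5) / 3 ≤ m - 1 := by linarith
    have h12 : ((n : ℝ) - 8) / 3 ≤ m - 2 := by linarith
    have h13 : ((n : ℝ) - 2) / 3 * (((n : ℝ) - 5) / 3) ≤ m * (m - 1) :=
      mul_le_mul h10 h11 (by linarith) (by linarith)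
    have h14 : ((n : ℝ) - 2) / 3 * (((n : ℝ) - 5) / 3) * (((n : ℝ) - 8) / 3) ≤
        m * (m - 1) * (m - 2) :=
      mul_le_mul h13 h12 (by linarith) (mul_nonneg (by linarith) (by linarith))
    have h15 : 4 * (m * (m - 1) * (m - 2)) = 24 * (m * (m - 1) * (m - 2) / 6) := by ring
    nlinarith

end Pool.Agent.MP_0af329_co.Cvx
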