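import Pool.Agent.MP_0af329_co.Lim
import Pool.Agent.MP_0af329_co.CvxLink
import Pool.Agent.MP_0af329_co.Cvx4

/-!
The limit for point sets in convex position.
-/

namespace Pool.Agent.MP_0af329_co.Cvx

open Finset EuclideanGeometry Filter Topology

theorem ConvexPos.mono {S T : Finset Pt} (hT : ConvexPos T) (h : S ⊆ T) : ConvexPos S :=
  fun x hx hx' => hT x (h hx) (convexHull_mono (Set.sdiff_subset_sdiff_left (by exact_mod_cast h)) hx')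

theorem cnt_mono_left {S T : Finset Pt} (h : S ⊆ T) (A : Set ℝ) : cnt S A ≤ cnt T A := by
  classical
  unfold cnt
  refine card_le_card (filter_subset_filter _ ?_)
  rintro ⟨x, y, z⟩ ht
  rw [mem_trip] at ht ⊢
  exact ⟨⟨h ht.1.1, h ht.1.2.1, h ht.1.2.2⟩, ht.2⟩

/-- The smallest value of `cnt S A` over all `n`-point sets `S` in general and convex position. -/
noncomputable def minCntC (n : ℕ) (A : Set ℝ) : ℕ :=
  sInf {m | ∃ S : Finset Pt, S.card = n ∧ GenPos S ∧ ConvexPos S ∧ cnt S A = m}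

theorem final
    (H1 : ∀ (S : Finset Pt), GenPos S → ConvexPos S → 3 ≤ S.card →
      4 / 27 * (S.card : ℝ) ^ 3 - 7 * (S.card : ℝ) ^ 2 ≤ cnt S (Set.Ioi (Real.pi / 2)))
    (H2 : ∀ m : ℕ, 1 ≤ m → ∃ S : Finset Pt, S.card = 3 * m ∧ GenPos S ∧ ConvexPos S ∧
      (cnt S (Set.Ioi (Real.pi / 2)) : ℝ) ≤ 4 / 27 * (3 * (m : ℝ)) ^ 3) :
    Tendsto (fun n : ℕ => (minCntC n (Set.Ioi (Real.pi / 2)) : ℝ) /
      ((n : ℝ) * ((n : ℝ) - 1) * ((n : ℝ) - 2))) atTop (𝓝 (4 / 27)) := by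
  classical
  have H3 : ∀ n : ℕ, 1 ≤ n → ∃ S : Finset Pt, S.card = n ∧ GenPos S ∧ ConvexPos S ∧
      (cnt S (Set.Ioi (Real.pi / 2)) : ℝ) ≤ 4 / 27 * (n : ℝ) ^ 3 + 4 * (n : ℝ) ^ 2 := by
    intro n hn
    obtain ⟨T, h1, h2, h3, h4⟩ := H2 ((n + 2) / 3) (by omega)
    obtain ⟨S, h5, h6⟩ := exists_subset_card_eq (s := T) (n := n) (by omega)
    refine ⟨S, h6, h2.mono h5, h3.mono h5, ?_⟩
    have h7 : (cnt S (Set.Ioi (Real.pi / 2)) : ℝ) ≤ (cnt T (Set.Ioi (Real.pi / 2)) : ℝ) := by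
      exact_mod_cast cnt_mono_left h5 _
    refine h7.trans (h4.trans ?_)
    have h8 : 3 * (((n + 2) / 3 : ℕ) : ℝ) ≤ (n : ℝ) + 2 := by
      have : 3 * ((n + 2) / 3) ≤ n + 2 := Nat.mul_div_le _ _
      exact_mod_cast this
    have h9 : (3 * (((n + 2) / 3 : ℕ) : ℝ)) ^ 3 ≤ ((n : ℝ) + 2) ^ 3 :=
      pow_le_pow_left₀ (by positivity) h8 3
    have h10 : (1 : ℝ) ≤ n := by exact_mod_cast hn
    nlinarith [mul_nonneg (sub_nonneg.2 h10) (by linarith : (0 : ℝ) ≤ n)]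
  have H4 : ∀ n : ℕ, 1 ≤ n →
      (minCntC n (Set.Ioi (Real.pi / 2)) : ℝ) ≤ 4 / 27 * (n : ℝ) ^ 3 + 4 * (n : ℝ) ^ 2 := by
    intro n hn
    obtain ⟨S, h1, h2, h3, h4⟩ := H3 n hn
    refine le_trans ?_ h4
    have h5 : minCntC n (Set.Ioi (Real.pi / 2)) ≤ cnt S (Set.Ioi (Real.pi / 2)) :=
      Nat.sInf_le ⟨S, h1, h2, h3, rfl⟩
    exact_mod_cast h5
  have H5 : ∀ n : ℕ, 3 ≤ n →
      4 / 27 * (n : ℝ) ^ 3 - 7 * (n : ℝ) ^ 2 ≤ (minCntC n (Set.Ioi (Real.pi / 2)) : ℝ) := by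
    intro n hn
    have hne : {m | ∃ S : Finset Pt, S.card = n ∧ GenPos S ∧ ConvexPos S ∧
        cnt S (Set.Ioi (Real.pi / 2)) = m}.Nonempty := by
      obtain ⟨S, h1, h2, h3, -⟩ := H3 n (by omega)
      exact ⟨_, S, h1, h2, h3, rfl⟩
    obtain ⟨S, h1, h2, h3, h4⟩ := Nat.sInf_mem hne
    have h5 := H1 S h2 h3 (by omega)
    rw [h1] at h5
    unfold minCntC
    rw [← h4]
    exact h5
  have t1 : Tendsto (fun n : ℕ => 4 / 27 * ((n : ℝ) ^ 3 /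
      ((n : ℝ) * ((n : ℝ) - 1) * ((n : ℝ) - 2))) - 7 * ((n : ℝ) ^ 2 /
      ((n : ℝ) * ((n : ℝ) - 1) * ((n : ℝ) - 2)))) atTop (𝓝 (4 / 27)) := by
    have := (tendsto_cube.const_mul (4 / 27)).sub (tendsto_sq.const_mul 7)
    simpa using this
  have t2 : Tendsto (fun n : ℕ => 4 / 27 * ((n : ℝ) ^ 3 /
      ((n : ℝ) * ((n : ℝ) - 1) * ((n : ℝ) - 2))) + 4 * ((n : ℝ) ^ 2 /
      ((n : ℝ) * ((n : ℝ) - 1) * ((n : ℝ) - 2)))) atTop (𝓝 (4 / 27)) := by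
    have := (tendsto_cube.const_mul (4 / 27)).add (tendsto_sq.const_mul 4)
    simpa using this
  refine tendsto_of_tendsto_of_tendsto_of_le_of_le' t1 t2 ?_ ?_
  · filter_upwards [eventually_ge_atTop 3] with n hn
    have h6 := denom_pos hn
    have e : 4 / 27 * ((n : ℝ) ^ 3 / ((n : ℝ) * ((n : ℝ) - 1) * ((n : ℝ) - 2))) - 7 * ((n : ℝ) ^ 2 /
      ((n : ℝ) * ((n : ℝ) - 1) * ((n : ℝ) - 2))) = (4 / 27 * (n : ℝ) ^ 3 - 7 * (n : ℝ) ^ 2) /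
      ((n : ℝ) * ((n : ℝ) - 1) * ((n : ℝ) - 2)) := by
      rw [sub_div, mul_div_assoc, mul_div_assoc]
    rw [e]
    exact div_le_div_of_nonneg_right (H5 n hn) h6.le
  · filter_upwards [eventually_ge_atTop 3] with n hn
    have h6 := denom_pos hn
    have e : 4 / 27 * ((n : ℝ) ^ 3 / ((n : ℝ) * ((n : ℝ) - 1) * ((n : ℝ) - 2))) + 4 * ((n : ℝ) ^ 2 /
      ((n : ℝ) * ((n : ℝ) - 1) * ((n : ℝ) - 2))) = (4 / 27 * (n : ℝ) ^ 3 + 4 * (n : ℝ) ^ 2) /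
      ((n : ℝ) * ((n : ℝ) - 1) * ((n : ℝ) - 2)) := by
      rw [add_div, mul_div_assoc, mul_div_assoc]
    rw [e]
    exact div_le_div_of_nonneg_right (H4 n (by omega)) h6.le

end Pool.Agent.MP_0af329_co.Cvx
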