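import Pool.Agent.MP_0af329_co.Upper
import Pool.Agent.MP_0af329_co.Acute
import Pool.Agent.MP_0af329_co.Cvx4

/-!
# The upper bound `F(π/2) ≤ 4/27` (Conway, Croft, Erdős, Guy 1979)

Three clusters `A`, `B`, `C` of `m` points near the corners of a right triangle (right angle at `B`).
For two points of `A` and one point of `B` all angles are acute, also for two points of `B` and one
of `C`, two points of `C` and one of `A`, and one point of each cluster.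
-/

set_option autoImplicit false

namespace Pool.Agent.MP_0af329_co.QU

open Finset EuclideanGeometry Filter Topology
open Pool.Agent.MP_0af329_co.Cvx (ConvexPos)

/-- The points of the cluster `A`. -/
noncomputable def pa (t : ℝ) : Pt := !₂[t, 1 - t ^ 2 / 2]

/-- The points of the cluster `B`. -/
noncomputable def pb (f : ℝ) : Pt := !₂[f ^ 2 / 2, -f]

/-- The points of the cluster `C`. -/
noncomputable def pc (s : ℝ) : Pt := !₂[1 + s - s ^ 2 / 2, s + s ^ 2 / 2]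

@[simp] theorem pa0 (t : ℝ) : pa t 0 = t := by simp [pa]
@[simp] theorem pa1 (t : ℝ) : pa t 1 = 1 - t ^ 2 / 2 := by simp [pa]
@[simp] theorem pb0 (t : ℝ) : pb t 0 = t ^ 2 / 2 := by simp [pb]
@[simp] theorem pb1 (t : ℝ) : pb t 1 = -t := by simp [pb]
@[simp] theorem pc0 (t : ℝ) : pc t 0 = 1 + t - t ^ 2 / 2 := by simp [pc]
@[simp] theorem pc1 (t : ℝ) : pc t 1 = t + t ^ 2 / 2 := by simp [pc]

theorem angle_lt_of_ip {a b c : Pt} (h : 0 < acute_ip a b c) : ∠ a b c < Real.pi / 2 := by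
  have h1 : inner ℝ (a - b) (c - b) = acute_ip a b c := by
    rw [acute_ip]
    simp [PiLp.inner_apply, Fin.sum_univ_two]
    ring
  have h2 : 0 < inner ℝ (a - b) (c - b) := by rw [h1]; exact h
  have hab : a - b ≠ 0 := by
    intro h3
    rw [h3, inner_zero_left] at h2
    exact lt_irrefl _ h2
  have hcb : c - b ≠ 0 := by
    intro h3
    rw [h3, inner_zero_right] at h2
    exact lt_irrefl _ h2
  change InnerProductGeometry.angle (a - b) (c - b) < Real.pi / 2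
  rw [InnerProductGeometry.angle, Real.arccos_lt_pi_div_two]
  have h4 : 0 < ‖a - b‖ := norm_pos_iff.2 hab
  have h5 : 0 < ‖c - b‖ := norm_pos_iff.2 hcb
  positivity

/-- `d²/2 + d E > 0` if `|E| < |d|/2`. -/
theorem pos_of_abs (d E : ℝ) (h : 2 * |E| < |d|) : 0 < d * (d / 2 + E) := by
  rcases abs_cases d with ⟨h1, h2⟩ | ⟨h1, h2⟩ <;> rcases abs_cases E with ⟨h3, h4⟩ | ⟨h3, h4⟩ <;>
    rw [h1, h3] at h
  · exact mul_pos (by linarith) (by linarith)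
  · exact mul_pos (by linarith) (by linarith)
  · exact mul_pos_of_neg_of_neg (by linarith) (by linarith)
  · exact mul_pos_of_neg_of_neg (by linarith) (by linarith)

/-! ### the inner products -/

theorem ip_aab (t t' f : ℝ) (h : 2 * |f ^ 2 / 2 + f * (t + t') / 2 - t ^ 2 * (t + t') / 4| < |t' - t|) :
    0 < acute_ip (pa t') (pa t) (pb f) := by
  have h1 := pos_of_abs _ _ h
  have h2 : acute_ip (pa t') (pa t) (pb f) =
      (t' - t) * ((t' - t) / 2 + (f ^ 2 / 2 + f * (t + t') / 2 - t ^ 2 * (t + t') / 4)) := by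
    simp only [acute_ip, pa0, pa1, pb0, pb1]
    ring
  rw [h2]
  exact h1

theorem ip_bbc (f f' s : ℝ)
    (h : 2 * |- s - s ^ 2 / 2 + (f + f') / 2 * (s - s ^ 2 / 2 - f ^ 2 / 2)| < |f' - f|) :
    0 < acute_ip (pb f') (pb f) (pc s) := by
  have h1 := pos_of_abs _ _ h
  have h2 : acute_ip (pb f') (pb f) (pc s) =
      (f' - f) * ((f' - f) / 2 +
        (- s - s ^ 2 / 2 + (f + f') / 2 * (s - s ^ 2 / 2 - f ^ 2 / 2))) := by
    simp only [acute_ip, pc0, pc1, pb0, pb1]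
    ring
  rw [h2]
  exact h1

theorem ip_cca (s s' t : ℝ)
    (h : |t - t ^ 2 / 2 - (s + s') / 2 * (t + t ^ 2 / 2 + s ^ 2)| < |s' - s|) :
    0 < acute_ip (pc s') (pc s) (pa t) := by
  have h1 := pos_of_abs (s' - s) ((t - t ^ 2 / 2 - (s + s') / 2 * (t + t ^ 2 / 2 + s ^ 2)) / 2) (by
    rw [abs_div, abs_two]
    linarith)
  have h2 : acute_ip (pc s') (pc s) (pa t) =
      2 * ((s' - s) * ((s' - s) / 2 +
        (t - t ^ 2 / 2 - (s + s') / 2 * (t + t ^ 2 / 2 + s ^ 2)) / 2)) := by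
    simp only [acute_ip, pc0, pc1, pa0, pa1]
    ring
  rw [h2]
  linarith

theorem sq_small {t : ℝ} (h0 : 0 < t) (h1 : t ≤ 1 / 10) : 0 ≤ t ^ 2 ∧ t ^ 2 ≤ 1 / 100 := by
  constructor
  · positivity
  · nlinarith

theorem ip_aba (t t' f : ℝ) (h0 : 0 < t) (h1 : t ≤ 1 / 10) (g0 : 0 < t') (g1 : t' ≤ 1 / 10)
    (k0 : 0 < f) (k1 : f ≤ 1 / 10) : 0 < acute_ip (pa t) (pb f) (pa t') := by
  obtain ⟨a1, a2⟩ := sq_small h0 h1
  obtain ⟨b1, b2⟩ := sq_small g0 g1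
  obtain ⟨c1, c2⟩ := sq_small k0 k1
  simp only [acute_ip, pa0, pa1, pb0, pb1]
  have e1 : |t - f ^ 2 / 2| ≤ 1 / 10 := by rw [abs_le]; constructor <;> linarith
  have e2 : |t' - f ^ 2 / 2| ≤ 1 / 10 := by rw [abs_le]; constructor <;> linarith
  have e3 : |(t - f ^ 2 / 2) * (t' - f ^ 2 / 2)| ≤ 1 / 10 * (1 / 10) := by
    rw [abs_mul]
    exact mul_le_mul e1 e2 (abs_nonneg _) (by norm_num)
  have e4 := (abs_le.1 e3).1
  have e5 : (9 / 10 : ℝ) * (9 / 10) ≤ (1 - t ^ 2 / 2 - -f) * (1 - t' ^ 2 / 2 - -f) :=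
    mul_le_mul (by linarith) (by linarith) (by norm_num) (by linarith)
  linarith

theorem ip_bcb (f f' s : ℝ) (h0 : 0 < f) (h1 : f ≤ 1 / 10) (g0 : 0 < f') (g1 : f' ≤ 1 / 10)
    (k0 : 0 < s) (k1 : s ≤ 1 / 10) : 0 < acute_ip (pb f) (pc s) (pb f') := by
  obtain ⟨a1, a2⟩ := sq_small h0 h1
  obtain ⟨b1, b2⟩ := sq_small g0 g1
  obtain ⟨c1, c2⟩ := sq_small k0 k1
  simp only [acute_ip, pc0, pc1, pb0, pb1]
  have e1 : 0 < (f ^ 2 / 2 - (1 + s - s ^ 2 / 2)) * (f' ^ 2 / 2 - (1 + s - s ^ 2 / 2)) :=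
    mul_pos_of_neg_of_neg (by linarith) (by linarith)
  have e2 : 0 < (-f - (s + s ^ 2 / 2)) * (-f' - (s + s ^ 2 / 2)) :=
    mul_pos_of_neg_of_neg (by linarith) (by linarith)
  linarith

theorem ip_cac (s s' t : ℝ) (h0 : 0 < s) (h1 : s ≤ 1 / 10) (g0 : 0 < s') (g1 : s' ≤ 1 / 10)
    (k0 : 0 < t) (k1 : t ≤ 1 / 10) : 0 < acute_ip (pc s) (pa t) (pc s') := by
  obtain ⟨a1, a2⟩ := sq_small h0 h1
  obtain ⟨b1, b2⟩ := sq_small g0 g1
  obtain ⟨c1, c2⟩ := sq_small k0 k1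
  simp only [acute_ip, pc0, pc1, pa0, pa1]
  have e1 : 0 < (1 + s - s ^ 2 / 2 - t) * (1 + s' - s' ^ 2 / 2 - t) :=
    mul_pos (by linarith) (by linarith)
  have e2 : 0 < (s + s ^ 2 / 2 - (1 - t ^ 2 / 2)) * (s' + s' ^ 2 / 2 - (1 - t ^ 2 / 2)) :=
    mul_pos_of_neg_of_neg (by linarith) (by linarith)
  linarith

theorem ip_abc (t f s : ℝ) (h0 : 0 < t) (h1 : t ≤ 1 / 10) (g0 : 0 < f) (g1 : f ≤ 1 / 10)
    (k0 : 0 < s) (k1 : s ≤ 1 / 10) (h : f ^ 2 / 2 < t) : 0 < acute_ip (pa t) (pb f) (pc s) := by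
  obtain ⟨a1, a2⟩ := sq_small h0 h1
  obtain ⟨b1, b2⟩ := sq_small g0 g1
  obtain ⟨c1, c2⟩ := sq_small k0 k1
  simp only [acute_ip, pc0, pc1, pa0, pa1, pb0, pb1]
  have e1 : 0 < (t - f ^ 2 / 2) * (1 + s - s ^ 2 / 2 - f ^ 2 / 2) :=
    mul_pos (by linarith) (by linarith)
  have e2 : 0 < (1 - t ^ 2 / 2 - -f) * (s + s ^ 2 / 2 - -f) :=
    mul_pos (by linarith) (by linarith)
  linarith

theorem ip_bac (t f s : ℝ) (h0 : 0 < t) (h1 : t ≤ 1 / 10) (g0 : 0 < f) (g1 : f ≤ 1 / 10)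
    (k0 : 0 < s) (k1 : s ≤ 1 / 10) : 0 < acute_ip (pb f) (pa t) (pc s) := by
  obtain ⟨a1, a2⟩ := sq_small h0 h1
  obtain ⟨b1, b2⟩ := sq_small g0 g1
  obtain ⟨c1, c2⟩ := sq_small k0 k1
  simp only [acute_ip, pc0, pc1, pa0, pa1, pb0, pb1]
  have e1 : |(f ^ 2 / 2 - t) * (1 + s - s ^ 2 / 2 - t)| ≤ 1 / 10 * (11 / 10) := by
    rw [abs_mul]
    refine mul_le_mul ?_ ?_ (abs_nonneg _) (by norm_num)
    · rw [abs_le]; constructor <;> linarith
    · rw [abs_le]; constructor <;> linarith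
  have e2 := (abs_le.1 e1).1
  have e3 : (99 / 100 : ℝ) * (88 / 100) ≤ (f + (1 - t ^ 2 / 2)) * ((1 - t ^ 2 / 2) - (s + s ^ 2 / 2)) :=
    mul_le_mul (by linarith) (by linarith) (by norm_num) (by linarith)
  nlinarith

theorem ip_acb (t f s : ℝ) (h0 : 0 < t) (h1 : t ≤ 1 / 10) (g0 : 0 < f) (g1 : f ≤ 1 / 10)
    (k0 : 0 < s) (k1 : s ≤ 1 / 10) : 0 < acute_ip (pa t) (pc s) (pb f) := by
  obtain ⟨a1, a2⟩ := sq_small h0 h1
  obtain ⟨b1, b2⟩ := sq_small g0 g1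
  obtain ⟨c1, c2⟩ := sq_small k0 k1
  simp only [acute_ip, pc0, pc1, pa0, pa1, pb0, pb1]
  have e1 : (89 / 100 : ℝ) * (99 / 100) ≤ (1 + s - s ^ 2 / 2 - t) * (1 + s - s ^ 2 / 2 - f ^ 2 / 2) :=
    mul_le_mul (by linarith) (by linarith) (by norm_num) (by linarith)
  have e2 : (1 - t ^ 2 / 2 - (s + s ^ 2 / 2)) * (f + (s + s ^ 2 / 2)) ≤ 1 * (3 / 10) :=
    mul_le_mul (by linarith) (by linarith) (by linarith) (by norm_num)
  nlinarith


/-! ### the parameters -/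

theorem est_pow (M e : ℝ) (a : ℕ) (ha : a ≤ 6) (hM : 1 ≤ M) (he : 0 < e) (hMe : M ^ 6 * e ≤ 1 / 1000) :
    M ^ a * e ≤ 1 / 1000 :=
  (mul_le_mul_of_nonneg_right (pow_le_pow_right₀ hM ha) he.le).trans hMe

/-- `f² ≤ 256/1000 e`. -/
theorem est_f2 (M e k : ℝ) (hM : 1 ≤ M) (he : 0 < e) (hMe : M ^ 6 * e ≤ 1 / 1000)
    (hk0 : 1 ≤ k) (hk : k ≤ M) : (16 * M ^ 2 * e * k) ^ 2 ≤ 256 / 1000 * e := by
  have h1 : M ^ 4 * k ^ 2 ≤ M ^ 6 := by
    calc M ^ 4 * k ^ 2 ≤ M ^ 4 * M ^ 2 := by gcongr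
      _ = M ^ 6 := by ring
  have h2 : M ^ 4 * k ^ 2 * e ≤ 1 / 1000 := (mul_le_mul_of_nonneg_right h1 he.le).trans hMe
  have h3 : (16 * M ^ 2 * e * k) ^ 2 = 256 * (M ^ 4 * k ^ 2 * e) * e := by ring
  rw [h3]
  nlinarith

theorem est_f (M e k : ℝ) (hM : 1 ≤ M) (he : 0 < e) (hMe : M ^ 6 * e ≤ 1 / 1000)
    (hk0 : 1 ≤ k) (hk : k ≤ M) : 0 < 16 * M ^ 2 * e * k ∧ 16 * M ^ 2 * e * k ≤ 16 * (M ^ 3 * e) ∧
      16 * M ^ 2 * e * k ≤ 16 / 1000 := by
  have h0 : 0 < M := by linarith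
  have h1 : 16 * M ^ 2 * e * k ≤ 16 * (M ^ 3 * e) := by
    have : 16 * M ^ 2 * e * k ≤ 16 * M ^ 2 * e * M := by gcongr
    linarith
  have h2 := est_pow M e 3 (by norm_num) hM he hMe
  refine ⟨by positivity, h1, by linarith⟩

theorem est_s (M e k : ℝ) (hM : 1 ≤ M) (he : 0 < e) (hMe : M ^ 6 * e ≤ 1 / 1000)
    (hk0 : 1 ≤ k) (hk : k ≤ M) : 0 < 2 * M * e * k ∧ 2 * M * e * k ≤ 2 * (M ^ 2 * e) ∧
      2 * M * e * k ≤ 2 / 1000 ∧ (2 * M * e * k) ^ 2 ≤ 4 / 1000 * e := by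
  have h0 : 0 < M := by linarith
  have h1 : 2 * M * e * k ≤ 2 * (M ^ 2 * e) := by
    have : 2 * M * e * k ≤ 2 * M * e * M := by gcongr
    linarith
  have h2 := est_pow M e 2 (by norm_num) hM he hMe
  have h3 := est_pow M e 4 (by norm_num) hM he hMe
  refine ⟨by positivity, h1, by linarith, ?_⟩
  have h4 : M ^ 2 * k ^ 2 ≤ M ^ 4 := by
    calc M ^ 2 * k ^ 2 ≤ M ^ 2 * M ^ 2 := by gcongr
      _ = M ^ 4 := by ring
  have h5 : M ^ 2 * k ^ 2 * e ≤ 1 / 1000 := (mul_le_mul_of_nonneg_right h4 he.le).trans h3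
  have h6 : (2 * M * e * k) ^ 2 = 4 * (M ^ 2 * k ^ 2 * e) * e := by ring
  rw [h6]
  nlinarith

theorem est_t (M e k : ℝ) (hM : 1 ≤ M) (he : 0 < e) (hMe : M ^ 6 * e ≤ 1 / 1000)
    (hk0 : 1 ≤ k) (hk : k ≤ M) : 0 < e * k ∧ e ≤ e * k ∧ e * k ≤ M * e ∧ e * k ≤ 1 / 1000 ∧
      (e * k) ^ 2 ≤ 1 / 1000 * e := by
  have h0 : 0 < M := by linarith
  have h1 : e * k ≤ M * e := by nlinarith
  have h2 := est_pow M e 1 (by norm_num) hM he hMe
  have h3 := est_pow M e 2 (by norm_num) hM he hMe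
  have h4 : k ^ 2 ≤ M ^ 2 := by gcongr
  have h5 : k ^ 2 * e ≤ 1 / 1000 := (mul_le_mul_of_nonneg_right h4 he.le).trans h3
  have h6 : (e * k) ^ 2 = (k ^ 2 * e) * e := by ring
  refine ⟨by positivity, by nlinarith, h1, by linarith, ?_⟩
  rw [h6]
  nlinarith

theorem cond_aab (M e n n' k : ℝ) (hM : 1 ≤ M) (he : 0 < e) (hMe : M ^ 6 * e ≤ 1 / 1000)
    (hn0 : 1 ≤ n) (hn : n ≤ M) (hn0' : 1 ≤ n') (hn' : n' ≤ M) (hk0 : 1 ≤ k) (hk : k ≤ M)
    (hnn : 1 ≤ |n' - n|) :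
    0 < acute_ip (pa (e * n')) (pa (e * n)) (pb (16 * M ^ 2 * e * k)) := by
  apply ip_aab
  have h0 : 0 < M := by linarith
  obtain ⟨f1, f2, f3⟩ := est_f M e k hM he hMe hk0 hk
  have f4 := est_f2 M e k hM he hMe hk0 hk
  obtain ⟨t1, t2, t3, t4, t5⟩ := est_t M e n hM he hMe hn0 hn
  obtain ⟨u1, u2, u3, u4, u5⟩ := est_t M e n' hM he hMe hn0' hn'
  have h1 : |e * n' - e * n| = e * |n' - n| := by
    rw [← mul_sub, abs_mul, abs_of_pos he]
  have h2 : e ≤ |e * n' - e * n| := by rw [h1]; nlinarith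
  refine lt_of_lt_of_le ?_ h2
  -- the second term
  have h3 : 16 * M ^ 2 * e * k * (e * n + e * n') ≤ 16 * (M ^ 3 * e) * (2 * (M * e)) :=
    mul_le_mul f2 (by linarith) (by positivity) (by positivity)
  have h4 := est_pow M e 4 (by norm_num) hM he hMe
  have h5 : 16 * (M ^ 3 * e) * (2 * (M * e)) = 32 * (M ^ 4 * e) * e := by ring
  have h6 : 16 * M ^ 2 * e * k * (e * n + e * n') ≤ 32 / 1000 * e := by
    rw [h5] at h3
    nlinarith
  have h7 : 0 ≤ 16 * M ^ 2 * e * k * (e * n + e * n') := by positivity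
  -- the third term
  have h8 : (e * n) ^ 2 * (e * n + e * n') ≤ (1 / 1000 * e) * (2 / 1000) :=
    mul_le_mul t5 (by linarith) (by positivity) (by positivity)
  have h9 : 0 ≤ (e * n) ^ 2 * (e * n + e * n') := by positivity
  have h10 : 0 ≤ (16 * M ^ 2 * e * k) ^ 2 := by positivity
  have h11 : |(16 * M ^ 2 * e * k) ^ 2 / 2 + 16 * M ^ 2 * e * k * (e * n + e * n') / 2 -
      (e * n) ^ 2 * (e * n + e * n') / 4| ≤ 200 / 1000 * e := by
    rw [abs_le]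
    constructor <;> linarith
  linarith

theorem cond_bbc (M e n n' k : ℝ) (hM : 1 ≤ M) (he : 0 < e) (hMe : M ^ 6 * e ≤ 1 / 1000)
    (hn0 : 1 ≤ n) (hn : n ≤ M) (hn0' : 1 ≤ n') (hn' : n' ≤ M) (hk0 : 1 ≤ k) (hk : k ≤ M)
    (hnn : 1 ≤ |n' - n|) :
    0 < acute_ip (pb (16 * M ^ 2 * e * n')) (pb (16 * M ^ 2 * e * n)) (pc (2 * M * e * k)) := by
  apply ip_bbc
  have h0 : 0 < M := by linarith
  obtain ⟨f1, f2, f3⟩ := est_f M e n hM he hMe hn0 hn
  have f4 := est_f2 M e n hM he hMe hn0 hn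
  obtain ⟨g1, g2, g3⟩ := est_f M e n' hM he hMe hn0' hn'
  obtain ⟨s1, s2, s3, s4⟩ := est_s M e k hM he hMe hk0 hk
  have h1 : |16 * M ^ 2 * e * n' - 16 * M ^ 2 * e * n| = 16 * (M ^ 2 * e) * |n' - n| := by
    rw [← mul_sub, abs_mul, abs_of_pos (show 0 < 16 * M ^ 2 * e by positivity)]
    ring
  have hp : 0 < M ^ 2 * e := by positivity
  have h2 : 16 * (M ^ 2 * e) ≤ |16 * M ^ 2 * e * n' - 16 * M ^ 2 * e * n| := by
    rw [h1]; nlinarith
  refine lt_of_lt_of_le ?_ h2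
  have hMM : 1 ≤ M ^ 2 := one_le_pow₀ hM
  have hee : e ≤ M ^ 2 * e := by nlinarith
  set f := 16 * M ^ 2 * e * n with hf
  set f' := 16 * M ^ 2 * e * n' with hf'
  set s := 2 * M * e * k with hs
  have h3 : |(f + f') / 2 * (s - s ^ 2 / 2 - f ^ 2 / 2)| ≤ 16 / 1000 * (3 * (M ^ 2 * e)) := by
    rw [abs_mul]
    refine mul_le_mul ?_ ?_ (abs_nonneg _) (by norm_num)
    · rw [abs_le]; constructor <;> linarith
    · rw [abs_le]
      have : 0 ≤ s ^ 2 := by positivity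
      have : 0 ≤ f ^ 2 := by positivity
      constructor <;> linarith
  have h4 := abs_le.1 h3
  have h5 : |-s - s ^ 2 / 2 + (f + f') / 2 * (s - s ^ 2 / 2 - f ^ 2 / 2)| ≤ 3 * (M ^ 2 * e) := by
    have : 0 ≤ s ^ 2 := by positivity
    rw [abs_le]
    constructor <;> linarith [h4.1, h4.2]
  linarith

theorem cond_cca (M e n n' k : ℝ) (hM : 1 ≤ M) (he : 0 < e) (hMe : M ^ 6 * e ≤ 1 / 1000)
    (hn0 : 1 ≤ n) (hn : n ≤ M) (hn0' : 1 ≤ n') (hn' : n' ≤ M) (hk0 : 1 ≤ k) (hk : k ≤ M)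
    (hnn : 1 ≤ |n' - n|) :
    0 < acute_ip (pc (2 * M * e * n')) (pc (2 * M * e * n)) (pa (e * k)) := by
  apply ip_cca
  have h0 : 0 < M := by linarith
  obtain ⟨s1, s2, s3, s4⟩ := est_s M e n hM he hMe hn0 hn
  obtain ⟨r1, r2, r3, r4⟩ := est_s M e n' hM he hMe hn0' hn'
  obtain ⟨t1, t2, t3, t4, t5⟩ := est_t M e k hM he hMe hk0 hk
  have h1 : |2 * M * e * n' - 2 * M * e * n| = 2 * (M * e) * |n' - n| := by
    rw [← mul_sub, abs_mul, abs_of_pos (show 0 < 2 * M * e by positivity)]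
    ring
  have hp : 0 < M * e := by positivity
  have h2 : 2 * (M * e) ≤ |2 * M * e * n' - 2 * M * e * n| := by
    rw [h1]; nlinarith
  refine lt_of_lt_of_le ?_ h2
  set s := 2 * M * e * n with hs
  set s' := 2 * M * e * n' with hs'
  set t := e * k with ht
  have h3 : (s + s') / 2 * (t + t ^ 2 / 2 + s ^ 2) ≤ 2 / 1000 * (2 * t) := by
    refine mul_le_mul (by linarith) ?_ (by positivity) (by norm_num)
    nlinarith
  have h4 : 0 ≤ (s + s') / 2 * (t + t ^ 2 / 2 + s ^ 2) := by positivity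
  have h5 : 0 ≤ t ^ 2 := by positivity
  have h6 : |t - t ^ 2 / 2 - (s + s') / 2 * (t + t ^ 2 / 2 + s ^ 2)| ≤ M * e := by
    rw [abs_le]
    constructor <;> linarith
  linarith

theorem ip_comm (a b c : Pt) : acute_ip a b c = acute_ip c b a := by
  simp only [acute_ip]
  ring

/-- The configuration: three clusters of `m` points. -/
noncomputable def conf (m : ℕ) (e : ℝ) (x : Fin 3 × Fin m) : Pt :=
  if x.1 = 0 then pa (e * (((x.2 : ℕ) : ℝ) + 1))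
  else if x.1 = 1 then pb (16 * (m : ℝ) ^ 2 * e * (((x.2 : ℕ) : ℝ) + 1))
  else pc (2 * (m : ℝ) * e * (((x.2 : ℕ) : ℝ) + 1))

/-- The good class patterns: three different classes, or two points of a class and one point of the
next class. -/
def goodc (i j k : Fin 3) : Prop :=
  (i ≠ j ∧ j ≠ k ∧ i ≠ k) ∨ (i = j ∧ k = i + 1) ∨ (j = k ∧ i = j + 1) ∨ (i = k ∧ j = i + 1)

instance (i j k : Fin 3) : Decidable (goodc i j k) := by unfold goodc; infer_instance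

theorem goodc_rot {i j k : Fin 3} (h : goodc i j k) : goodc j k i := by
  revert i j k; decide

theorem goodc_swap {i j k : Fin 3} (h : goodc i j k) : goodc k j i := by
  revert i j k; decide

theorem ip_cases {m : ℕ} (P : Fin 3 × Fin m → Pt)
    (AAB : ∀ a b c : Fin m, a ≠ b → 0 < acute_ip (P (0, a)) (P (0, b)) (P (1, c)))
    (BBC : ∀ a b c : Fin m, a ≠ b → 0 < acute_ip (P (1, a)) (P (1, b)) (P (2, c)))
    (CCA : ∀ a b c : Fin m, a ≠ b → 0 < acute_ip (P (2, a)) (P (2, b)) (P (0, c)))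
    (ABA : ∀ a b c : Fin m, 0 < acute_ip (P (0, a)) (P (1, b)) (P (0, c)))
    (BCB : ∀ a b c : Fin m, 0 < acute_ip (P (1, a)) (P (2, b)) (P (1, c)))
    (CAC : ∀ a b c : Fin m, 0 < acute_ip (P (2, a)) (P (0, b)) (P (2, c)))
    (ABC : ∀ a b c : Fin m, 0 < acute_ip (P (0, a)) (P (1, b)) (P (2, c)))
    (BAC : ∀ a b c : Fin m, 0 < acute_ip (P (1, a)) (P (0, b)) (P (2, c)))
    (ACB : ∀ a b c : Fin m, 0 < acute_ip (P (0, a)) (P (2, b)) (P (1, c)))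
    (x y z : Fin 3 × Fin m) (hxy : x ≠ y) (hyz : y ≠ z) (hxz : x ≠ z) (h : goodc x.1 y.1 z.1) :
    0 < acute_ip (P x) (P y) (P z) := by
  obtain ⟨i, a⟩ := x
  obtain ⟨j, b⟩ := y
  obtain ⟨k, c⟩ := z
  have hij : i = j → a ≠ b := fun h1 h2 => hxy (by rw [h1, h2])
  have hjk : j = k → b ≠ c := fun h1 h2 => hyz (by rw [h1, h2])
  have hik : i = k → a ≠ c := fun h1 h2 => hxz (by rw [h1, h2])
  change goodc i j k at h
  clear hxy hyz hxz
  fin_cases i <;> fin_cases j <;> fin_cases k <;> first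
    | exact absurd h (by decide)
    | exact AAB _ _ _ (hij rfl)
    | exact BBC _ _ _ (hij rfl)
    | exact CCA _ _ _ (hij rfl)
    | exact ABA _ _ _
    | exact BCB _ _ _
    | exact CAC _ _ _
    | exact ABC _ _ _
    | exact BAC _ _ _
    | exact ACB _ _ _
    | (rw [ip_comm]; exact AAB _ _ _ (hjk rfl).symm)
    | (rw [ip_comm]; exact BBC _ _ _ (hjk rfl).symm)
    | (rw [ip_comm]; exact CCA _ _ _ (hjk rfl).symm)
    | (rw [ip_comm]; exact ABC _ _ _)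
    | (rw [ip_comm]; exact BAC _ _ _)
    | (rw [ip_comm]; exact ACB _ _ _)

theorem ip_conf (m : ℕ) (e : ℝ) (he : 0 < e) (hMe : (m : ℝ) ^ 6 * e ≤ 1 / 1000)
    (x y z : Fin 3 × Fin m) (hxy : x ≠ y) (hyz : y ≠ z) (hxz : x ≠ z) (h : goodc x.1 y.1 z.1) :
    0 < acute_ip (conf m e x) (conf m e y) (conf m e z) := by
  obtain ⟨i, a⟩ := x
  obtain ⟨j, b⟩ := y
  obtain ⟨k, c⟩ := z
  have hm : 1 ≤ m := by have := a.2; omega
  have hM : (1 : ℝ) ≤ (m : ℝ) := by exact_mod_cast hm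
  have hlo : ∀ a : Fin m, (1 : ℝ) ≤ ((a : ℕ) : ℝ) + 1 := fun a => by
    have : (0 : ℝ) ≤ ((a : ℕ) : ℝ) := by positivity
    linarith
  have hhi : ∀ a : Fin m, ((a : ℕ) : ℝ) + 1 ≤ (m : ℝ) := fun a => by
    have := a.2
    exact_mod_cast this
  have hd : ∀ a b : Fin m, a ≠ b → (1 : ℝ) ≤ |(((a : ℕ) : ℝ) + 1) - (((b : ℕ) : ℝ) + 1)| := by
    intro a b hab
    have h1 : ((a : ℕ) : ℤ) - ((b : ℕ) : ℤ) ≠ 0 := by
      intro h
      apply hab
      apply Fin.ext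
      omega
    have h2 : (1 : ℤ) ≤ |((a : ℕ) : ℤ) - ((b : ℕ) : ℤ)| := Int.one_le_abs h1
    have h3 : (1 : ℝ) ≤ |((a : ℕ) : ℝ) - ((b : ℕ) : ℝ)| := by exact_mod_cast h2
    rw [add_sub_add_right_eq_sub]
    exact h3
  -- abbreviations for bounds
  have T := fun a : Fin m => est_t (m : ℝ) e (((a : ℕ) : ℝ) + 1) hM he hMe (hlo a) (hhi a)
  have G := fun a : Fin m => est_s (m : ℝ) e (((a : ℕ) : ℝ) + 1) hM he hMe (hlo a) (hhi a)
  have H := fun a : Fin m => est_f (m : ℝ) e (((a : ℕ) : ℝ) + 1) hM he hMe (hlo a) (hhi a)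
  have H2 := fun a : Fin m => est_f2 (m : ℝ) e (((a : ℕ) : ℝ) + 1) hM he hMe (hlo a) (hhi a)
  have t0 := fun a => (T a).1
  have t1 := fun a : Fin m => (T a).2.2.2.1.trans (show (1 / 1000 : ℝ) ≤ 1 / 10 by norm_num)
  have s0 := fun a => (G a).1
  have s1 := fun a : Fin m => (G a).2.2.1.trans (show (2 / 1000 : ℝ) ≤ 1 / 10 by norm_num)
  have f0 := fun a => (H a).1
  have f1 := fun a : Fin m => (H a).2.2.trans (show (16 / 1000 : ℝ) ≤ 1 / 10 by norm_num)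
  have ft : ∀ a b : Fin m, (16 * (m : ℝ) ^ 2 * e * (((b : ℕ) : ℝ) + 1)) ^ 2 / 2 <
      e * (((a : ℕ) : ℝ) + 1) := fun a b => by
    have h1 := H2 b
    have h2 := (T a).2.1
    linarith
  have hc0 : ∀ a : Fin m, conf m e (0, a) = pa (e * (((a : ℕ) : ℝ) + 1)) := fun a => rfl
  have hc1 : ∀ a : Fin m, conf m e (1, a) = pb (16 * (m : ℝ) ^ 2 * e * (((a : ℕ) : ℝ) + 1)) :=
    fun a => rfl
  have hc2 : ∀ a : Fin m, conf m e (2, a) = pc (2 * (m : ℝ) * e * (((a : ℕ) : ℝ) + 1)) :=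
    fun a => rfl
  -- the nine basic facts
  have AAB : ∀ a b c : Fin m, a ≠ b → 0 < acute_ip (conf m e (0, a)) (conf m e (0, b))
      (conf m e (1, c)) := fun a b c hab => by
    rw [hc0, hc0, hc1]
    exact cond_aab _ _ _ _ _ hM he hMe (hlo b) (hhi b) (hlo a) (hhi a) (hlo c) (hhi c) (hd a b hab)
  have BBC : ∀ a b c : Fin m, a ≠ b → 0 < acute_ip (conf m e (1, a)) (conf m e (1, b))
      (conf m e (2, c)) := fun a b c hab => by
    rw [hc1, hc1, hc2]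
    exact cond_bbc _ _ _ _ _ hM he hMe (hlo b) (hhi b) (hlo a) (hhi a) (hlo c) (hhi c) (hd a b hab)
  have CCA : ∀ a b c : Fin m, a ≠ b → 0 < acute_ip (conf m e (2, a)) (conf m e (2, b))
      (conf m e (0, c)) := fun a b c hab => by
    rw [hc2, hc2, hc0]
    exact cond_cca _ _ _ _ _ hM he hMe (hlo b) (hhi b) (hlo a) (hhi a) (hlo c) (hhi c) (hd a b hab)
  have ABA : ∀ a b c : Fin m, 0 < acute_ip (conf m e (0, a)) (conf m e (1, b))
      (conf m e (0, c)) := fun a b c => by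
    rw [hc0, hc1, hc0]
    exact ip_aba _ _ _ (t0 a) (t1 a) (t0 c) (t1 c) (f0 b) (f1 b)
  have BCB : ∀ a b c : Fin m, 0 < acute_ip (conf m e (1, a)) (conf m e (2, b))
      (conf m e (1, c)) := fun a b c => by
    rw [hc1, hc2, hc1]
    exact ip_bcb _ _ _ (f0 a) (f1 a) (f0 c) (f1 c) (s0 b) (s1 b)
  have CAC : ∀ a b c : Fin m, 0 < acute_ip (conf m e (2, a)) (conf m e (0, b))
      (conf m e (2, c)) := fun a b c => by
    rw [hc2, hc0, hc2]
    exact ip_cac _ _ _ (s0 a) (s1 a) (s0 c) (s1 c) (t0 b) (t1 b)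
  have ABC : ∀ a b c : Fin m, 0 < acute_ip (conf m e (0, a)) (conf m e (1, b))
      (conf m e (2, c)) := fun a b c => by
    rw [hc0, hc1, hc2]
    exact ip_abc _ _ _ (t0 a) (t1 a) (f0 b) (f1 b) (s0 c) (s1 c) (ft a b)
  have BAC : ∀ a b c : Fin m, 0 < acute_ip (conf m e (1, a)) (conf m e (0, b))
      (conf m e (2, c)) := fun a b c => by
    rw [hc0, hc1, hc2]
    exact ip_bac _ _ _ (t0 b) (t1 b) (f0 a) (f1 a) (s0 c) (s1 c)
  have ACB : ∀ a b c : Fin m, 0 < acute_ip (conf m e (0, a)) (conf m e (2, b))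
      (conf m e (1, c)) := fun a b c => by
    rw [hc0, hc1, hc2]
    exact ip_acb _ _ _ (t0 a) (t1 a) (f0 c) (f1 c) (s0 b) (s1 b)
  exact ip_cases (conf m e) AAB BBC CCA ABA BCB CAC ABC BAC ACB (i, a) (j, b) (k, c) hxy hyz hxz h

theorem angle_conf (m : ℕ) (e : ℝ) (he : 0 < e) (hMe : (m : ℝ) ^ 6 * e ≤ 1 / 1000)
    (x y z : Fin 3 × Fin m) (hxy : x ≠ y) (hyz : y ≠ z) (hxz : x ≠ z) (h : goodc x.1 y.1 z.1) :
    ∠ (conf m e x) (conf m e y) (conf m e z) < Real.pi / 2 :=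
  angle_lt_of_ip (ip_conf m e he hMe x y z hxy hyz hxz h)

theorem conf_inj (m : ℕ) (e : ℝ) (he : 0 < e) (hMe : (m : ℝ) ^ 6 * e ≤ 1 / 1000)
    (x y : Fin 3 × Fin m) (hxy : x ≠ y) : conf m e x ≠ conf m e y := by
  have hz : ∃ z : Fin 3 × Fin m, y ≠ z ∧ x ≠ z ∧ goodc x.1 y.1 z.1 := by
    have h1 : ∀ i j : Fin 3, ∃ k : Fin 3, k ≠ i ∧ k ≠ j ∧ goodc i j k := by decide
    obtain ⟨k, hk1, hk2, hk3⟩ := h1 x.1 y.1
    refine ⟨(k, x.2), ?_, ?_, hk3⟩
    · intro h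
      exact hk2 (by rw [h])
    · intro h
      apply hk1
      have := congrArg Prod.fst h
      exact this.symm
  obtain ⟨z, hyz, hxz, hg⟩ := hz
  intro h
  have h2 := angle_conf m e he hMe x y z hxy hyz hxz hg
  rw [h, angle_self_left] at h2
  exact lt_irrefl _ h2

/-- The sum of the angles of a triangle: at most one angle is obtuse. -/
theorem at_most_one {x y z : Pt} (hxy : x ≠ y) :
    (if ∠ x y z ∈ Set.Ioi (Real.pi / 2) then (1 : ℝ) else 0) +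
    (if ∠ y z x ∈ Set.Ioi (Real.pi / 2) then (1 : ℝ) else 0) +
    (if ∠ z x y ∈ Set.Ioi (Real.pi / 2) then (1 : ℝ) else 0) ≤ 1 := by
  have h1 : ∠ x y z + ∠ y z x + ∠ z x y = Real.pi :=
    angle_add_angle_add_angle_eq_pi z hxy.symm
  have h2 := angle_nonneg x y z
  have h3 := angle_nonneg y z x
  have h4 := angle_nonneg z x y
  simp only [Set.mem_Ioi]
  split_ifs <;> linarith

theorem sum_ind_le {T : Type} [DecidableEq T] (s J : Finset T) :
    ∑ t ∈ s, (if t ∈ J then (1 : ℝ) else 0) ≤ (J.card : ℝ) := by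
  have h1 : ∀ t ∈ s, (if t ∈ J then (1 : ℝ) else 0) = if t ∈ s ∩ J then (1 : ℝ) else 0 := by
    intro t ht
    by_cases h : t ∈ J
    · rw [if_pos h, if_pos (Finset.mem_inter.2 ⟨ht, h⟩)]
    · rw [if_neg h, if_neg (fun h' => h (Finset.mem_inter.1 h').2)]
  rw [Finset.sum_congr rfl h1, Finset.sum_ite_mem, Finset.sum_const, nsmul_eq_mul, mul_one]
  exact_mod_cast Finset.card_le_card
    (Finset.inter_subset_right.trans Finset.inter_subset_right : s ∩ (s ∩ J) ⊆ J)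

theorem cnt_le (m : ℕ) (p : Fin 3 × Fin m → Pt) (hpinj : Function.Injective p)
    (S : Finset Pt) (hSp : ∀ t, t ∈ S ↔ ∃ x, p x = t)
    (hang : ∀ x y z : Fin 3 × Fin m, x ≠ y → y ≠ z → x ≠ z → goodc x.1 y.1 z.1 →
      ∠ (p x) (p y) (p z) < Real.pi / 2) :
    (cnt S (Set.Ioi (Real.pi / 2)) : ℝ) ≤ 4 * (m : ℝ) ^ 3 := by
  classical
  have himg : S = Finset.univ.image p := by
    ext t
    rw [hSp]
    simp only [Finset.mem_image, Finset.mem_univ, true_and]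
  subst himg
  clear hSp
  set S := Finset.univ.image p with hS
  -- the bad patterns
  let I : Finset ((Fin 3 × Fin 3 × Fin 3) × (Fin m × Fin m × Fin m)) :=
    (Finset.univ.filter fun c : Fin 3 × Fin 3 × Fin 3 => ¬ goodc c.1 c.2.1 c.2.2) ×ˢ Finset.univ
  let J : Finset (Pt × Pt × Pt) :=
    I.image fun s => (p (s.1.1, s.2.1), p (s.1.2.1, s.2.2.1), p (s.1.2.2, s.2.2.2))
  have hJ : (J.card : ℝ) ≤ 12 * (m : ℝ) ^ 3 := by
    have h1 : J.card ≤ I.card := Finset.card_image_le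
    have h2 : I.card = 12 * (m * (m * m)) := by
      simp only [I, Finset.card_product, Finset.card_univ, Fintype.card_prod, Fintype.card_fin]
      have : (Finset.univ.filter fun c : Fin 3 × Fin 3 × Fin 3 =>
          ¬ goodc c.1 c.2.1 c.2.2).card = 12 := by decide
      rw [this]
    have h3 : (J.card : ℝ) ≤ ((12 * (m * (m * m)) : ℕ) : ℝ) := by
      rw [← h2]
      exact_mod_cast h1
    push_cast at h3
    linarith
  set o : Pt → Pt → Pt → ℝ := fun x y z =>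
    if ∠ x y z ∈ Set.Ioi (Real.pi / 2) then (1 : ℝ) else 0 with ho
  have hcnt : (cnt S (Set.Ioi (Real.pi / 2)) : ℝ) = ∑ t ∈ trip S, o t.1 t.2.1 t.2.2 :=
    cnt_eq_sum S _
  have hr1 : ∑ t ∈ trip S, o t.1 t.2.1 t.2.2 = ∑ t ∈ trip S, o t.2.1 t.2.2 t.1 :=
    sum_trip_rot S o
  have hr2 : ∑ t ∈ trip S, o t.2.1 t.2.2 t.1 = ∑ t ∈ trip S, o t.2.2 t.1 t.2.1 :=
    sum_trip_rot S (fun x y z => o y z x)
  have hsum : ∑ t ∈ trip S, (o t.1 t.2.1 t.2.2 + o t.2.1 t.2.2 t.1 + o t.2.2 t.1 t.2.1) ≤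
      ∑ t ∈ trip S, if t ∈ J then (1 : ℝ) else 0 := by
    refine Finset.sum_le_sum fun t ht => ?_
    obtain ⟨x, y, z, hxy, hyz, hxz, rfl⟩ := exists_triple p ht
    by_cases hg : goodc x.1 y.1 z.1
    · have a1 := hang x y z hxy hyz hxz hg
      have a2 := hang y z x hyz hxz.symm hxy.symm (goodc_rot hg)
      have a3 := hang z x y hxz.symm hxy hyz.symm (goodc_rot (goodc_rot hg))
      have b1 : o (p x) (p y) (p z) = 0 := if_neg (not_lt.2 a1.le)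
      have b2 : o (p y) (p z) (p x) = 0 := if_neg (not_lt.2 a2.le)
      have b3 : o (p z) (p x) (p y) = 0 := if_neg (not_lt.2 a3.le)
      change o (p x) (p y) (p z) + o (p y) (p z) (p x) + o (p z) (p x) (p y) ≤ _
      rw [b1, b2, b3]
      split_ifs <;> norm_num
    · have hmem : (p x, p y, p z) ∈ J := by
        simp only [J, Finset.mem_image]
        refine ⟨((x.1, y.1, z.1), (x.2, y.2, z.2)), ?_, rfl⟩
        simp only [I, Finset.mem_product, Finset.mem_univ, and_true, Finset.mem_filter, true_and]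
        exact hg
      rw [if_pos hmem]
      exact at_most_one (hpinj.ne hxy)
  have hcard : ∑ t ∈ trip S, (if t ∈ J then (1 : ℝ) else 0) ≤ (J.card : ℝ) := by
    exact sum_ind_le (trip S) J
  rw [Finset.sum_add_distrib, Finset.sum_add_distrib, ← hr2, ← hr1, ← hcnt] at hsum
  linarith

/-! ### convex position -/

/-- The value of the functional `(α, β)`. -/
def fn (α β : ℝ) (x : Pt) : ℝ := α * x 0 + β * x 1

theorem not_mem_hull (α β : ℝ) (x : Pt) (T : Set Pt) (h : ∀ y ∈ T, fn α β y < fn α β x) :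
    x ∉ convexHull ℝ T := by
  intro hx
  have hconv : Convex ℝ {y : Pt | fn α β y < fn α β x} := by
    intro y hy z hz a b ha hb hab
    simp only [Set.mem_ofPred_eq, fn] at hy hz ⊢
    have e0 : (a • y + b • z) 0 = a * y 0 + b * z 0 := rfl
    have e1 : (a • y + b • z) 1 = a * y 1 + b * z 1 := rfl
    rw [e0, e1]
    have e2 : α * (a * y 0 + b * z 0) + β * (a * y 1 + b * z 1) =
        a * (α * y 0 + β * y 1) + b * (α * z 0 + β * z 1) := by ring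
    rw [e2]
    rcases eq_or_lt_of_le ha with h0 | h0
    · have hb1 : b = 1 := by linarith
      rw [← h0, hb1]
      linarith
    · have h1 : a * (α * y 0 + β * y 1) < a * (α * x 0 + β * x 1) := mul_lt_mul_of_pos_left hy h0
      have h2 : b * (α * z 0 + β * z 1) ≤ b * (α * x 0 + β * x 1) :=
        mul_le_mul_of_nonneg_left hz.le hb
      have h3 : a * (α * x 0 + β * x 1) + b * (α * x 0 + β * x 1) = α * x 0 + β * x 1 := by
        rw [← add_mul, hab, one_mul]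
      linarith
  have hsub : convexHull ℝ T ⊆ {y : Pt | fn α β y < fn α β x} := convexHull_min h hconv
  have h' := hsub hx
  simp only [Set.mem_ofPred_eq] at h'
  exact lt_irrefl _ h'

theorem sep_a (t t' f s : ℝ) (h0 : 0 < t) (h1 : t ≤ 1 / 10) (g0 : 0 < f)
    (g1 : f ≤ 1 / 10) (k0 : 0 < s) (k1 : s ≤ 1 / 10) (hne : t ≠ t') :
    fn t 1 (pa t') < fn t 1 (pa t) ∧ fn t 1 (pb f) < fn t 1 (pa t) ∧
      fn t 1 (pc s) < fn t 1 (pa t) := by
  have hsq : 0 < (t - t') ^ 2 := by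
    have : t - t' ≠ 0 := sub_ne_zero.2 hne
    positivity
  obtain ⟨a1, a2⟩ := sq_small h0 h1
  obtain ⟨b1, b2⟩ := sq_small g0 g1
  obtain ⟨c1, c2⟩ := sq_small k0 k1
  simp only [fn, pa0, pa1, pb0, pb1, pc0, pc1]
  refine ⟨by nlinarith, ?_, ?_⟩
  · have : t * (f ^ 2 / 2) ≤ 1 / 10 * (1 / 100) := mul_le_mul h1 (by linarith) (by positivity) (by norm_num)
    nlinarith
  · have : t * (1 + s - s ^ 2 / 2) ≤ 1 / 10 * (11 / 10) :=
      mul_le_mul h1 (by linarith) (by linarith) (by norm_num)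
    nlinarith

theorem sep_b (t f f' s : ℝ) (h0 : 0 < t) (h1 : t ≤ 1 / 10) (g0 : 0 < f)
    (g1 : f ≤ 1 / 10) (k0 : 0 < s) (k1 : s ≤ 1 / 10) (hne : f ≠ f') :
    fn (-1) (-f) (pb f') < fn (-1) (-f) (pb f) ∧ fn (-1) (-f) (pa t) < fn (-1) (-f) (pb f) ∧
      fn (-1) (-f) (pc s) < fn (-1) (-f) (pb f) := by
  have hsq : 0 < (f - f') ^ 2 := by
    have : f - f' ≠ 0 := sub_ne_zero.2 hne
    positivity
  obtain ⟨a1, a2⟩ := sq_small h0 h1
  obtain ⟨b1, b2⟩ := sq_small g0 g1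
  obtain ⟨c1, c2⟩ := sq_small k0 k1
  simp only [fn, pa0, pa1, pb0, pb1, pc0, pc1]
  refine ⟨by nlinarith, ?_, ?_⟩
  · have : 0 < f * (1 - t ^ 2 / 2) := mul_pos g0 (by linarith)
    nlinarith
  · have : 0 < f * (s + s ^ 2 / 2) := mul_pos g0 (by linarith)
    nlinarith

theorem sep_c (t f s s' : ℝ) (h0 : 0 < t) (h1 : t ≤ 1 / 10) (g0 : 0 < f)
    (g1 : f ≤ 1 / 10) (k0 : 0 < s) (k1 : s ≤ 1 / 10) (hne : s ≠ s') :
    fn (1 + s) (s - 1) (pc s') < fn (1 + s) (s - 1) (pc s) ∧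
      fn (1 + s) (s - 1) (pa t) < fn (1 + s) (s - 1) (pc s) ∧
      fn (1 + s) (s - 1) (pb f) < fn (1 + s) (s - 1) (pc s) := by
  have hsq : 0 < (s - s') ^ 2 := by
    have : s - s' ≠ 0 := sub_ne_zero.2 hne
    positivity
  obtain ⟨a1, a2⟩ := sq_small h0 h1
  obtain ⟨b1, b2⟩ := sq_small g0 g1
  obtain ⟨c1, c2⟩ := sq_small k0 k1
  simp only [fn, pa0, pa1, pb0, pb1, pc0, pc1]
  have hval : (1 + s) * (1 + s - s ^ 2 / 2) + (s - 1) * (s + s ^ 2 / 2) = 1 + s + s ^ 2 := by ring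
  rw [hval]
  refine ⟨?_, ?_, ?_⟩
  · have : (1 + s) * (1 + s' - s' ^ 2 / 2) + (s - 1) * (s' + s' ^ 2 / 2) =
        1 + s + s ^ 2 - (s - s') ^ 2 := by ring
    rw [this]
    linarith
  · have e1 : (1 + s) * t ≤ 11 / 10 * (1 / 10) := mul_le_mul (by linarith) h1 h0.le (by norm_num)
    have e2 : (s - 1) * (1 - t ^ 2 / 2) < 0 := mul_neg_of_neg_of_pos (by linarith) (by linarith)
    linarith
  · have e1 : (1 + s) * (f ^ 2 / 2) ≤ 11 / 10 * (1 / 100) :=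
      mul_le_mul (by linarith) (by linarith) (by positivity) (by norm_num)
    have e2 : (1 - s) * f ≤ 1 * (1 / 10) := mul_le_mul (by linarith) g1 g0.le (by norm_num)
    have e3 : (s - 1) * -f = (1 - s) * f := by ring
    rw [e3]
    linarith

theorem genPos_of_convexPos {S : Finset Pt} (h : ConvexPos S) : GenPos S := by
  have key : ∀ a ∈ S, ∀ b ∈ S, ∀ c ∈ S, a ≠ b → b ≠ c → Wbtw ℝ a b c → False := by
    intro a ha b hb c hc hab hbc hw
    apply h b hb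
    have h1 : b ∈ segment ℝ a c := mem_segment_iff_wbtw.2 hw
    refine segment_subset_convexHull ?_ ?_ h1
    · exact ⟨Finset.mem_coe.2 ha, hab⟩
    · exact ⟨Finset.mem_coe.2 hc, hbc.symm⟩
  intro x hx y hy z hz hxy hyz hxz hcol
  rcases hcol.wbtw_or_wbtw_or_wbtw with hw | hw | hw
  · exact key x hx y hy z hz hxy hyz hw
  · exact key y hy z hz x hx hyz hxz.symm hw
  · exact key z hz x hx y hy hxz.symm hxy hw

theorem sep_conf (m : ℕ) (e : ℝ) (he : 0 < e) (hMe : (m : ℝ) ^ 6 * e ≤ 1 / 1000)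
    (x : Fin 3 × Fin m) : ∃ α β : ℝ, ∀ y : Fin 3 × Fin m, y ≠ x →
      fn α β (conf m e y) < fn α β (conf m e x) := by
  obtain ⟨i, a⟩ := x
  have hm : 1 ≤ m := by have := a.2; omega
  have hM : (1 : ℝ) ≤ (m : ℝ) := by exact_mod_cast hm
  have hM0 : (0 : ℝ) < (m : ℝ) := by linarith
  have hlo : ∀ a : Fin m, (1 : ℝ) ≤ ((a : ℕ) : ℝ) + 1 := fun a => by
    have : (0 : ℝ) ≤ ((a : ℕ) : ℝ) := by positivity
    linarith
  have hhi : ∀ a : Fin m, ((a : ℕ) : ℝ) + 1 ≤ (m : ℝ) := fun a => by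
    have := a.2
    exact_mod_cast this
  have hne : ∀ (k : ℝ) (a b : Fin m), 0 < k → a ≠ b →
      k * (((a : ℕ) : ℝ) + 1) ≠ k * (((b : ℕ) : ℝ) + 1) := by
    intro k a b hk hab h
    apply hab
    have h1 : ((a : ℕ) : ℝ) + 1 = ((b : ℕ) : ℝ) + 1 := mul_left_cancel₀ hk.ne' h
    have h2 : ((a : ℕ) : ℝ) = ((b : ℕ) : ℝ) := by linarith
    exact Fin.ext (by exact_mod_cast h2)
  have T := fun a : Fin m => est_t (m : ℝ) e (((a : ℕ) : ℝ) + 1) hM he hMe (hlo a) (hhi a)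
  have G := fun a : Fin m => est_s (m : ℝ) e (((a : ℕ) : ℝ) + 1) hM he hMe (hlo a) (hhi a)
  have H := fun a : Fin m => est_f (m : ℝ) e (((a : ℕ) : ℝ) + 1) hM he hMe (hlo a) (hhi a)
  have t0 := fun a => (T a).1
  have t1 := fun a : Fin m => (T a).2.2.2.1.trans (show (1 / 1000 : ℝ) ≤ 1 / 10 by norm_num)
  have s0 := fun a => (G a).1
  have s1 := fun a : Fin m => (G a).2.2.1.trans (show (2 / 1000 : ℝ) ≤ 1 / 10 by norm_num)
  have f0 := fun a => (H a).1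
  have f1 := fun a : Fin m => (H a).2.2.trans (show (16 / 1000 : ℝ) ≤ 1 / 10 by norm_num)
  have hc0 : ∀ a : Fin m, conf m e (0, a) = pa (e * (((a : ℕ) : ℝ) + 1)) := fun a => rfl
  have hc1 : ∀ a : Fin m, conf m e (1, a) = pb (16 * (m : ℝ) ^ 2 * e * (((a : ℕ) : ℝ) + 1)) :=
    fun a => rfl
  have hc2 : ∀ a : Fin m, conf m e (2, a) = pc (2 * (m : ℝ) * e * (((a : ℕ) : ℝ) + 1)) :=
    fun a => rfl
  have hfin : ∀ j : Fin 3, j = 0 ∨ j = 1 ∨ j = 2 := by decide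
  rcases hfin i with rfl | rfl | rfl
  · refine ⟨e * (((a : ℕ) : ℝ) + 1), 1, ?_⟩
    rintro ⟨j, b⟩ hy
    rw [hc0 a]
    rcases hfin j with rfl | rfl | rfl
    · rw [hc0 b]
      have hab : a ≠ b := fun h => hy (by rw [h])
      exact (sep_a _ _ _ _ (t0 a) (t1 a) (f0 a) (f1 a) (s0 a) (s1 a) (hne e a b he hab)).1
    · rw [hc1 b]
      exact (sep_a _ (e * (((a : ℕ) : ℝ) + 1) + 1) _ _ (t0 a) (t1 a) (f0 b) (f1 b) (s0 a) (s1 a)
        (by linarith)).2.1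
    · rw [hc2 b]
      exact (sep_a _ (e * (((a : ℕ) : ℝ) + 1) + 1) _ _ (t0 a) (t1 a) (f0 a) (f1 a) (s0 b) (s1 b)
        (by linarith)).2.2
  · refine ⟨-1, -(16 * (m : ℝ) ^ 2 * e * (((a : ℕ) : ℝ) + 1)), ?_⟩
    rintro ⟨j, b⟩ hy
    rw [hc1 a]
    rcases hfin j with rfl | rfl | rfl
    · rw [hc0 b]
      exact (sep_b _ _ (16 * (m : ℝ) ^ 2 * e * (((a : ℕ) : ℝ) + 1) + 1) _ (t0 b) (t1 b) (f0 a)
        (f1 a) (s0 a) (s1 a) (by linarith)).2.1
    · rw [hc1 b]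
      have hab : a ≠ b := fun h => hy (by rw [h])
      exact (sep_b _ _ _ _ (t0 a) (t1 a) (f0 a) (f1 a) (s0 a) (s1 a)
        (hne _ a b (by positivity) hab)).1
    · rw [hc2 b]
      exact (sep_b _ _ (16 * (m : ℝ) ^ 2 * e * (((a : ℕ) : ℝ) + 1) + 1) _ (t0 a) (t1 a) (f0 a)
        (f1 a) (s0 b) (s1 b) (by linarith)).2.2
  · refine ⟨1 + 2 * (m : ℝ) * e * (((a : ℕ) : ℝ) + 1), 2 * (m : ℝ) * e * (((a : ℕ) : ℝ) + 1) - 1, ?_⟩
    rintro ⟨j, b⟩ hy
    rw [hc2 a]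
    rcases hfin j with rfl | rfl | rfl
    · rw [hc0 b]
      exact (sep_c _ _ _ (2 * (m : ℝ) * e * (((a : ℕ) : ℝ) + 1) + 1) (t0 b) (t1 b) (f0 a)
        (f1 a) (s0 a) (s1 a) (by linarith)).2.1
    · rw [hc1 b]
      exact (sep_c _ _ _ (2 * (m : ℝ) * e * (((a : ℕ) : ℝ) + 1) + 1) (t0 a) (t1 a) (f0 b)
        (f1 b) (s0 a) (s1 a) (by linarith)).2.2
    · rw [hc2 b]
      have hab : a ≠ b := fun h => hy (by rw [h])
      exact (sep_c _ _ _ _ (t0 a) (t1 a) (f0 a) (f1 a) (s0 a) (s1 a)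
        (hne _ a b (by positivity) hab)).1

/-- For every `m ≥ 1` there are `3m` points in convex position with at most `4 m³` ordered triples
whose angle is greater than `π/2`, i.e. at most `2 m³` angles greater than `π/2`. -/
theorem exists_convex_conf (m : ℕ) (hm : 1 ≤ m) : ∃ S : Finset Pt, S.card = 3 * m ∧ GenPos S ∧
    ConvexPos S ∧ (cnt S (Set.Ioi (Real.pi / 2)) : ℝ) ≤ 4 * (m : ℝ) ^ 3 := by
  have hM : (1 : ℝ) ≤ (m : ℝ) := by exact_mod_cast hm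
  have hM0 : (0 : ℝ) < (m : ℝ) := by linarith
  set e : ℝ := 1 / (1000 * (m : ℝ) ^ 6) with hedef
  have he : 0 < e := by positivity
  have hMe : (m : ℝ) ^ 6 * e ≤ 1 / 1000 := by
    rw [hedef]
    apply le_of_eq
    field_simp
  have hinj : Function.Injective (conf m e) := by
    intro x y h
    by_contra hne
    exact conf_inj m e he hMe x y hne h
  set S : Finset Pt := Finset.univ.map ⟨conf m e, hinj⟩ with hSdef
  have hmem : ∀ t, t ∈ S ↔ ∃ x, conf m e x = t := by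
    intro t
    rw [hSdef, Finset.mem_map]
    simp only [Finset.mem_univ, true_and, Function.Embedding.coeFn_mk]
  have hcp : ConvexPos S := by
    intro x hx
    obtain ⟨x, rfl⟩ := (hmem x).1 hx
    obtain ⟨α, β, h⟩ := sep_conf m e he hMe x
    refine not_mem_hull α β _ _ ?_
    rintro y ⟨hy, hyx⟩
    obtain ⟨y, rfl⟩ := (hmem y).1 (Finset.mem_coe.1 hy)
    exact h y fun h' => hyx (by rw [h']; rfl)
  refine ⟨S, ?_, genPos_of_convexPos hcp, hcp, cnt_le m (conf m e) hinj S hmem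
    (fun x y z hxy hyz hxz h => angle_conf m e he hMe x y z hxy hyz hxz h)⟩
  rw [hSdef, Finset.card_map, Finset.card_univ, Fintype.card_prod, Fintype.card_fin,
    Fintype.card_fin]

theorem F_half_le : F (Real.pi / 2) ≤ 4 / 27 := by
  refine dens_le _ _ 3 (by norm_num) fun m hm => ?_
  obtain ⟨S, h1, h2, -, h3⟩ := exists_convex_conf m hm
  refine ⟨S, h1, h2, ?_⟩
  push_cast
  linarith

end Pool.Agent.MP_0af329_co.QU
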