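import Pool.Agent.MP_0af329_co.Basic

/-! Row [ANG-LIM]: the limits exist; transfer lemmas. -/

namespace Pool.Agent.MP_0af329_co

open EuclideanGeometry Filter Topology

/-- e.g. the points `(i, i^2)`. -/
theorem exists_genPos (n : ℕ) : ∃ S : Finset Pt, S.card = n ∧ GenPos S := by
  classical
  let p : ℕ → Pt := fun i => !₂[(i : ℝ), (i : ℝ) ^ 2]
  have hp0 : ∀ i, p i 0 = (i : ℝ) := fun i => by simp [p]
  have hp1 : ∀ i, p i 1 = (i : ℝ) ^ 2 := fun i => by simp [p]
  have hinj : Function.Injective p := by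
    intro i j h
    have h0 : p i 0 = p j 0 := by rw [h]
    rw [hp0, hp0] at h0
    exact Nat.cast_injective h0
  refine ⟨(Finset.range n).image p, ?_, ?_⟩
  · rw [Finset.card_image_of_injective _ hinj, Finset.card_range]
  · intro x hx y hy z hz hxy hyz hxz hcol
    rw [Finset.mem_image] at hx hy hz
    obtain ⟨i, -, rfl⟩ := hx
    obtain ⟨j, -, rfl⟩ := hy
    obtain ⟨k, -, rfl⟩ := hz
    have hij : (j : ℝ) - i ≠ 0 := by
      intro h
      apply hxy
      have : (i : ℝ) = j := by linarith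
      rw [Nat.cast_injective this]
    have hjk : (k : ℝ) - j ≠ 0 := by
      intro h
      apply hyz
      have : (j : ℝ) = k := by linarith
      rw [Nat.cast_injective this]
    have hik : (k : ℝ) - i ≠ 0 := by
      intro h
      apply hxz
      have : (i : ℝ) = k := by linarith
      rw [Nat.cast_injective this]
    rw [collinear_iff_exists_forall_eq_smul_vadd] at hcol
    obtain ⟨q, v, h⟩ := hcol
    obtain ⟨r1, h1⟩ := h (p i) (by simp)
    obtain ⟨r2, h2⟩ := h (p j) (by simp)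
    obtain ⟨r3, h3⟩ := h (p k) (by simp)
    have e10 : (i : ℝ) = r1 * v 0 + q 0 := by rw [← hp0 i, h1]; simp
    have e11 : (i : ℝ) ^ 2 = r1 * v 1 + q 1 := by rw [← hp1 i, h1]; simp
    have e20 : (j : ℝ) = r2 * v 0 + q 0 := by rw [← hp0 j, h2]; simp
    have e21 : (j : ℝ) ^ 2 = r2 * v 1 + q 1 := by rw [← hp1 j, h2]; simp
    have e30 : (k : ℝ) = r3 * v 0 + q 0 := by rw [← hp0 k, h3]; simp
    have e31 : (k : ℝ) ^ 2 = r3 * v 1 + q 1 := by rw [← hp1 k, h3]; simp
    have key : ((j : ℝ) - i) * ((k : ℝ) - i) * ((k : ℝ) - j) = 0 := by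
      have a1 : (j : ℝ) - i = (r2 - r1) * v 0 := by rw [e20, e10]; ring
      have a2 : (k : ℝ) - i = (r3 - r1) * v 0 := by rw [e30, e10]; ring
      have b1 : (j : ℝ) ^ 2 - (i : ℝ) ^ 2 = (r2 - r1) * v 1 := by rw [e21, e11]; ring
      have b2 : (k : ℝ) ^ 2 - (i : ℝ) ^ 2 = (r3 - r1) * v 1 := by rw [e31, e11]; ring
      have : ((j : ℝ) - i) * ((k : ℝ) ^ 2 - (i : ℝ) ^ 2) -
          ((k : ℝ) - i) * ((j : ℝ) ^ 2 - (i : ℝ) ^ 2) = 0 := by
        rw [b1, b2, a1, a2]; ring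
      linear_combination this
    exact (mul_ne_zero (mul_ne_zero hij hik) hjk) key

theorem minCnt_le {S : Finset Pt} (hS : GenPos S) (A : Set ℝ) : minCnt S.card A ≤ cnt S A :=
  Nat.sInf_le ⟨S, rfl, hS, rfl⟩

theorem exists_minCnt (n : ℕ) (A : Set ℝ) :
    ∃ S : Finset Pt, S.card = n ∧ GenPos S ∧ cnt S A = minCnt n A := by
  have hne : {m | ∃ S : Finset Pt, S.card = n ∧ GenPos S ∧ cnt S A = m}.Nonempty := by
    obtain ⟨S, h1, h2⟩ := exists_genPos n
    exact ⟨cnt S A, S, h1, h2, rfl⟩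
  exact Nat.sInf_mem hne

theorem GenPos.mono {S T : Finset Pt} (hT : GenPos T) (h : S ⊆ T) : GenPos S :=
  fun x hx y hy z hz => hT x (h hx) y (h hy) z (h hz)

/-- Deleting one point: averaging. -/
theorem sum_cnt_erase [DecidableEq Pt] (S : Finset Pt) (A : Set ℝ) :
    ∑ p ∈ S, cnt (S.erase p) A + 3 * cnt S A = S.card * cnt S A := by
  classical
  have h1 : ∀ p ∈ S, cnt (S.erase p) A + ∑ t ∈ (trip S).filter
      (fun t => EuclideanGeometry.angle t.1 t.2.1 t.2.2 ∈ A),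
        (if p = t.1 ∨ p = t.2.1 ∨ p = t.2.2 then 1 else 0) = cnt S A := by
    intro p _
    have h2 : cnt (S.erase p) A = ∑ t ∈ (trip S).filter
      (fun t => EuclideanGeometry.angle t.1 t.2.1 t.2.2 ∈ A),
        (if ¬ (p = t.1 ∨ p = t.2.1 ∨ p = t.2.2) then 1 else 0) := by
      rw [cnt, Finset.card_eq_sum_ones, ← Finset.sum_filter]
      refine Finset.sum_congr ?_ fun _ _ => rfl
      ext ⟨x, y, z⟩
      simp only [Finset.mem_filter, mem_trip, Finset.mem_erase]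
      have e1 : p = x ↔ x = p := eq_comm
      have e2 : p = y ↔ y = p := eq_comm
      have e3 : p = z ↔ z = p := eq_comm
      rw [e1, e2, e3]
      tauto
    rw [h2, ← Finset.sum_add_distrib]
    have h3 : ∀ t ∈ (trip S).filter (fun t => EuclideanGeometry.angle t.1 t.2.1 t.2.2 ∈ A),
        ((if ¬ (p = t.1 ∨ p = t.2.1 ∨ p = t.2.2) then 1 else 0) +
          (if p = t.1 ∨ p = t.2.1 ∨ p = t.2.2 then 1 else 0)) = 1 := by
      intro t _
      by_cases hP : p = t.1 ∨ p = t.2.1 ∨ p = t.2.2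
      · rw [if_neg (not_not.mpr hP), if_pos hP]
      · rw [if_pos hP, if_neg hP]
    rw [Finset.sum_congr rfl h3, cnt, Finset.card_eq_sum_ones]
  have h4 : ∑ p ∈ S, ∑ t ∈ (trip S).filter
      (fun t => EuclideanGeometry.angle t.1 t.2.1 t.2.2 ∈ A),
        (if p = t.1 ∨ p = t.2.1 ∨ p = t.2.2 then 1 else 0) = 3 * cnt S A := by
    rw [Finset.sum_comm]
    have h5 : ∀ t ∈ (trip S).filter (fun t => EuclideanGeometry.angle t.1 t.2.1 t.2.2 ∈ A),
        (∑ p ∈ S, if p = t.1 ∨ p = t.2.1 ∨ p = t.2.2 then 1 else 0) = 3 := by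
      rintro ⟨x, y, z⟩ ht
      simp only [Finset.mem_filter, mem_trip] at ht
      obtain ⟨⟨⟨hx, hy, hz⟩, hxy, hyz, hxz⟩, -⟩ := ht
      rw [← Finset.sum_filter, ← Finset.card_eq_sum_ones]
      have : S.filter (fun p => p = x ∨ p = y ∨ p = z) = {x, y, z} := by
        ext p
        simp only [Finset.mem_filter, Finset.mem_insert, Finset.mem_singleton]
        constructor
        · exact fun h => h.2
        · rintro (rfl | rfl | rfl)
          · exact ⟨hx, Or.inl rfl⟩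
          · exact ⟨hy, Or.inr (Or.inl rfl)⟩
          · exact ⟨hz, Or.inr (Or.inr rfl)⟩
      rw [this, Finset.card_eq_three.mpr ⟨x, y, z, hxy, hxz, hyz, rfl⟩]
    rw [Finset.sum_congr rfl h5, Finset.sum_const, cnt, smul_eq_mul, mul_comm]
  rw [← h4, ← Finset.sum_add_distrib, Finset.sum_congr rfl h1, Finset.sum_const, smul_eq_mul]

theorem minCnt_succ (n : ℕ) (A : Set ℝ) :
    (n + 1) * minCnt n A + 3 * minCnt (n + 1) A ≤ (n + 1) * minCnt (n + 1) A := by
  classical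
  obtain ⟨S, h1, h2, h3⟩ := exists_minCnt (n + 1) A
  have h := sum_cnt_erase S A
  rw [h1, h3] at h
  rw [← h]
  refine Nat.add_le_add_right ?_ _
  have h4 : ∀ p ∈ S, minCnt n A ≤ cnt (S.erase p) A := by
    intro p hp
    have h5 : (S.erase p).card = n := by rw [Finset.card_erase_of_mem hp, h1]; rfl
    have h6 := minCnt_le (h2.mono (Finset.erase_subset p S)) A
    rwa [h5] at h6
  calc (n + 1) * minCnt n A = ∑ p ∈ S, minCnt n A := by
        rw [Finset.sum_const, h1, smul_eq_mul]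
    _ ≤ ∑ p ∈ S, cnt (S.erase p) A := Finset.sum_le_sum h4

theorem denom_pos {n : ℕ} (hn : 3 ≤ n) : 0 < (n : ℝ) * ((n : ℝ) - 1) * ((n : ℝ) - 2) := by
  have h : (3 : ℝ) ≤ n := by exact_mod_cast hn
  have h1 : (0 : ℝ) < n := by linarith
  have h2 : (0 : ℝ) < (n : ℝ) - 1 := by linarith
  have h3 : (0 : ℝ) < (n : ℝ) - 2 := by linarith
  positivity

theorem ratio_nonneg (n : ℕ) (A : Set ℝ) : 0 ≤ ratio n A := by
  rw [ratio]
  rcases Nat.lt_or_ge n 3 with h | h
  · interval_cases n <;> norm_num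
  · exact div_nonneg (Nat.cast_nonneg _) (denom_pos h).le

theorem ratio_mono (A : Set ℝ) : Monotone fun n : ℕ => ratio n A := by
  refine monotone_nat_of_le_succ fun n => ?_
  rcases Nat.lt_or_ge n 3 with h | h
  · have : ratio n A = 0 := by
      rw [ratio]
      interval_cases n <;> norm_num
    rw [this]
    exact ratio_nonneg _ _
  · have h1 := minCnt_succ n A
    have h2 : ((n : ℝ) + 1) * minCnt n A + 3 * minCnt (n + 1) A ≤
        ((n : ℝ) + 1) * minCnt (n + 1) A := by exact_mod_cast h1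
    have h3 := denom_pos h
    have h4 := denom_pos (Nat.le_succ_of_le h)
    rw [ratio, ratio, div_le_div_iff₀ h3 h4]
    push_cast
    have h5 : (3 : ℝ) ≤ n := by exact_mod_cast h
    have h6 : 0 ≤ (n : ℝ) * ((n : ℝ) - 1) := mul_nonneg (by linarith) (by linarith)
    have h7 : ((n : ℝ) + 1) * minCnt n A ≤ ((n : ℝ) - 2) * minCnt (n + 1) A := by linarith
    calc (minCnt n A : ℝ) * (((n : ℝ) + 1) * ((n : ℝ) + 1 - 1) * ((n : ℝ) + 1 - 2))
        = ((n : ℝ) * ((n : ℝ) - 1)) * (((n : ℝ) + 1) * minCnt n A) := by ring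
      _ ≤ ((n : ℝ) * ((n : ℝ) - 1)) * (((n : ℝ) - 2) * minCnt (n + 1) A) :=
          mul_le_mul_of_nonneg_left h7 h6
      _ = (minCnt (n + 1) A : ℝ) * ((n : ℝ) * ((n : ℝ) - 1) * ((n : ℝ) - 2)) := by ring

theorem ratio_le_one (n : ℕ) (A : Set ℝ) : ratio n A ≤ 1 := by
  rcases Nat.lt_or_ge n 3 with h | h
  · have : ratio n A = 0 := by
      rw [ratio]
      interval_cases n <;> norm_num
    rw [this]
    exact zero_le_one
  · obtain ⟨S, h1, h2, h3⟩ := exists_minCnt n A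
    have h4 : (cnt S A : ℝ) ≤ (trip S).card := by exact_mod_cast cnt_le_card_trip S A
    rw [card_trip, h1, h3] at h4
    rw [ratio, div_le_one (denom_pos h)]
    exact h4

/-- Averaging over the deletion of one point: `ratio` is nondecreasing for `n ≥ 3`; it is bounded
by `1`. -/
theorem tendsto_ratio (A : Set ℝ) : Tendsto (fun n : ℕ => ratio n A) atTop (𝓝 (dens A)) := by
  have h1 : BddAbove (Set.range fun n : ℕ => ratio n A) := by
    refine ⟨1, ?_⟩
    rintro _ ⟨n, rfl⟩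
    exact ratio_le_one n A
  have h2 := tendsto_atTop_ciSup (ratio_mono A) h1
  have h3 : dens A = ⨆ n : ℕ, ratio n A := h2.limUnder_eq
  rw [h3]
  exact h2

theorem ratio_le_dens (A : Set ℝ) {n : ℕ} (hn : 3 ≤ n) : ratio n A ≤ dens A :=
  have _ := hn
  (ratio_mono A).ge_of_tendsto (tendsto_ratio A) n

theorem minCnt_mono (n : ℕ) {A B : Set ℝ} (h : A ⊆ B) : minCnt n A ≤ minCnt n B := by
  obtain ⟨S, h1, h2, h3⟩ := exists_minCnt n B
  rw [← h3, ← h1]
  exact (minCnt_le h2 A).trans (cnt_mono S h)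

theorem dens_mono {A B : Set ℝ} (h : A ⊆ B) : dens A ≤ dens B := by
  refine le_of_tendsto_of_tendsto (tendsto_ratio A) (tendsto_ratio B) ?_
  filter_upwards [eventually_ge_atTop 3] with n hn
  rw [ratio, ratio]
  have h1 : (minCnt n A : ℝ) ≤ minCnt n B := by exact_mod_cast minCnt_mono n h
  exact div_le_div_of_nonneg_right h1 (denom_pos hn).le

theorem tendsto_cast : Tendsto (fun n : ℕ => (n : ℝ)) atTop atTop := tendsto_natCast_atTop_atTop

theorem tendsto_sq : Tendsto (fun n : ℕ => (n : ℝ) ^ 2 /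
    ((n : ℝ) * ((n : ℝ) - 1) * ((n : ℝ) - 2))) atTop (𝓝 0) := by
  have h1 : Tendsto (fun n : ℕ => 3 / (n : ℝ) + 9 / (n : ℝ) ^ 2 * 0 + 0) atTop (𝓝 0) := by
    have := tendsto_const_div_atTop_nhds_zero_nat (3 : ℝ)
    simpa using this
  refine tendsto_of_tendsto_of_tendsto_of_le_of_le' tendsto_const_nhds
    (tendsto_const_div_atTop_nhds_zero_nat (6 : ℝ)) ?_ ?_
  · filter_upwards [eventually_ge_atTop 3] with n hn
    exact div_nonneg (sq_nonneg _) (denom_pos hn).le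
  · filter_upwards [eventually_ge_atTop 4] with n hn
    have h : (4 : ℝ) ≤ n := by exact_mod_cast hn
    rw [div_le_div_iff₀ (denom_pos (le_trans (by norm_num) hn)) (by linarith)]
    have h2 : (n : ℝ) ^ 2 ≤ 6 * (((n : ℝ) - 1) * ((n : ℝ) - 2)) := by nlinarith
    calc (n : ℝ) ^ 2 * n ≤ 6 * (((n : ℝ) - 1) * ((n : ℝ) - 2)) * n :=
          mul_le_mul_of_nonneg_right h2 (by linarith)
      _ = 6 * ((n : ℝ) * ((n : ℝ) - 1) * ((n : ℝ) - 2)) := by ring

theorem le_dens (A : Set ℝ) (c C : ℝ)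
    (h : ∀ S : Finset Pt, GenPos S → 3 ≤ S.card →
      c * ((S.card : ℝ) * ((S.card : ℝ) - 1) * ((S.card : ℝ) - 2)) - C * (S.card : ℝ) ^ 2 ≤
        cnt S A) :
    c ≤ dens A := by
  have h1 : Tendsto (fun n : ℕ => c - C * ((n : ℝ) ^ 2 /
      ((n : ℝ) * ((n : ℝ) - 1) * ((n : ℝ) - 2)))) atTop (𝓝 c) := by
    have := (tendsto_sq.const_mul C).const_sub c
    simpa using this
  refine le_of_tendsto_of_tendsto h1 (tendsto_ratio A) ?_
  filter_upwards [eventually_ge_atTop 3] with n hn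
  obtain ⟨S, h2, h3, h4⟩ := exists_minCnt n A
  have h5 := h S h3 (h2 ▸ hn)
  rw [h2, h4] at h5
  have h6 := denom_pos hn
  rw [ratio, le_div_iff₀ h6, sub_mul, mul_assoc C, div_mul_cancel₀ _ h6.ne']
  exact h5

theorem tendsto_cube : Tendsto (fun n : ℕ => (n : ℝ) ^ 3 /
    ((n : ℝ) * ((n : ℝ) - 1) * ((n : ℝ) - 2))) atTop (𝓝 1) := by
  have h1 : Tendsto (fun n : ℕ => 1 + (3 - 2 / (n : ℝ)) * ((n : ℝ) ^ 2 /
      ((n : ℝ) * ((n : ℝ) - 1) * ((n : ℝ) - 2)))) atTop (𝓝 1) := by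
    have a : Tendsto (fun n : ℕ => 3 - 2 / (n : ℝ)) atTop (𝓝 3) := by
      have := (tendsto_const_div_atTop_nhds_zero_nat (2 : ℝ)).const_sub 3
      simpa using this
    have := (a.mul tendsto_sq).const_add 1
    simpa using this
  refine h1.congr' ?_
  filter_upwards [eventually_ge_atTop 3] with n hn
  have h6 := denom_pos hn
  have h7 : (n : ℝ) ≠ 0 := by
    have : (3 : ℝ) ≤ n := by exact_mod_cast hn
    linarith
  rw [eq_div_iff h6.ne', add_mul, mul_assoc (3 - 2 / (n : ℝ)), div_mul_cancel₀ _ h6.ne']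
  field_simp
  ring

theorem dens_le (A : Set ℝ) (c : ℝ) (k : ℕ) (hk : 0 < k)
    (h : ∀ m : ℕ, 1 ≤ m → ∃ S : Finset Pt, S.card = k * m ∧ GenPos S ∧
      (cnt S A : ℝ) ≤ c * ((k : ℝ) * m) ^ 3) :
    dens A ≤ c := by
  have hk' : Tendsto (fun m : ℕ => k * m) atTop atTop :=
    Filter.tendsto_id.const_mul_atTop' hk
  have h1 : Tendsto (fun m : ℕ => ratio (k * m) A) atTop (𝓝 (dens A)) :=
    (tendsto_ratio A).comp hk'
  have h2 : Tendsto (fun m : ℕ => c * (((k * m : ℕ) : ℝ) ^ 3 /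
      (((k * m : ℕ) : ℝ) * (((k * m : ℕ) : ℝ) - 1) * (((k * m : ℕ) : ℝ) - 2)))) atTop (𝓝 c) := by
    have := (tendsto_cube.comp hk').const_mul c
    simpa using this
  refine le_of_tendsto_of_tendsto h1 h2 ?_
  filter_upwards [eventually_ge_atTop 3] with m hm
  obtain ⟨S, h3, h4, h5⟩ := h m (le_trans (by norm_num) hm)
  have h6 := minCnt_le h4 A
  rw [h3] at h6
  have h7 : 3 ≤ k * m := le_trans hm (Nat.le_mul_of_pos_left m hk)
  have h8 := denom_pos h7
  rw [ratio, ← mul_div_assoc]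
  refine div_le_div_of_nonneg_right ?_ h8.le
  have h9 : (minCnt (k * m) A : ℝ) ≤ cnt S A := by exact_mod_cast h6
  push_cast
  exact h9.trans h5

end Pool.Agent.MP_0af329_co
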