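import Pool.Agent.MP_0af329_co.PDK

/-!
# The behaviour of `G` near `0`
-/

set_option autoImplicit false

namespace Pool.Agent.MP_0af329_co

open Filter Topology

/-- An explicit lower bound. -/
theorem le_G_explicit {α : ℝ} (h0 : 0 < α) (h1 : α < Real.pi / 2) :
    α / Real.pi * (Real.pi / (Real.pi + α) * (1 / 2 + Real.pi ^ 2 / 24 * (1 - α ^ 2 / 8))) ≤
      G α := by
  have hpi := Real.pi_pos
  have hpi4 := Real.pi_lt_four
  set m := ⌈Real.pi / α⌉₊ with hm
  have hle : Real.pi / α ≤ m := Nat.le_ceil _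
  have hlt : (m : ℝ) < Real.pi / α + 1 := Nat.ceil_lt_add_one (by positivity)
  have h2 : (2 : ℝ) < Real.pi / α := by
    rw [lt_div_iff₀ h0]
    linarith
  have hm2 : 2 ≤ m := by
    have : (2 : ℝ) < m := by linarith
    have : 2 < m := by exact_mod_cast this
    omega
  have hm0 : (0 : ℝ) < m := by positivity
  have hma : Real.pi / m ≤ α := by
    rw [div_le_iff₀ hm0]
    rw [div_le_iff₀ h0] at hle
    linarith
  have h3 := le_G_pd hm2 hma
  refine le_trans ?_ h3
  set x := Real.pi / (2 * m) with hx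
  have hx0 : 0 < x := by positivity
  have hxa : x ≤ α / 2 := by
    have : x = Real.pi / m / 2 := by rw [hx]; field_simp
    rw [this]
    linarith
  have hx1 : x ≤ 1 := by linarith
  have hs : x - x ^ 3 / 4 ≤ Real.sin x := by
    have h6 := Real.sin_gt_sub_cube hx0
    have h7 : 0 ≤ x ^ 3 := by positivity
    linarith
  have hs2 : x ^ 2 * (1 - α ^ 2 / 8) ≤ Real.sin x ^ 2 := by
    have e1 : 0 ≤ x - x ^ 3 / 4 := by
      have : x ^ 3 ≤ x := by nlinarith [pow_le_one₀ (n := 2) hx0.le hx1, sq_nonneg x]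
      linarith
    have e2 : (x - x ^ 3 / 4) ^ 2 ≤ Real.sin x ^ 2 := by gcongr
    have e3 : x ^ 2 * (1 - α ^ 2 / 8) ≤ (x - x ^ 3 / 4) ^ 2 := by
      have e4 : (x - x ^ 3 / 4) ^ 2 = x ^ 2 * (1 - x ^ 2 / 4) ^ 2 := by ring
      rw [e4]
      have e5 : x ^ 2 ≤ α ^ 2 / 4 := by nlinarith
      gcongr
      nlinarith [sq_nonneg (x ^ 2)]
    linarith
  have hq : 0 ≤ 1 - α ^ 2 / 8 := by nlinarith
  have e6 : (m : ℝ) / 6 * (x ^ 2 * (1 - α ^ 2 / 8)) = 1 / m * (Real.pi ^ 2 / 24 * (1 - α ^ 2 / 8)) := by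
    rw [hx]
    field_simp
    ring
  have e7 : 1 / m * (1 / 2 + Real.pi ^ 2 / 24 * (1 - α ^ 2 / 8)) ≤
      1 / (2 * m) + m / 6 * Real.sin x ^ 2 := by
    have e8 : (m : ℝ) / 6 * (x ^ 2 * (1 - α ^ 2 / 8)) ≤ m / 6 * Real.sin x ^ 2 := by gcongr
    rw [e6] at e8
    have e9 : 1 / (2 * (m : ℝ)) = 1 / m * (1 / 2) := by field_simp
    rw [e9]
    linarith
  refine le_trans ?_ e7
  rw [← mul_assoc]
  have e10 : α / Real.pi * (Real.pi / (Real.pi + α)) ≤ 1 / m := by
    have e11 : α / Real.pi * (Real.pi / (Real.pi + α)) = α / (Real.pi + α) := by field_simp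
    rw [e11, div_le_div_iff₀ (by positivity) hm0]
    have : (m : ℝ) * α < (Real.pi / α + 1) * α := by gcongr
    have e12 : (Real.pi / α + 1) * α = Real.pi + α := by field_simp
    linarith
  exact mul_le_mul_of_nonneg_right e10 (by positivity)

theorem G_le_explicit {α : ℝ} (h0 : 0 < α) (h1 : α < Real.pi / 2) :
    G α ≤ α / Real.pi * (Real.pi / (Real.pi - α)) := by
  have hpi := Real.pi_pos
  set m := ⌈Real.pi / α⌉₊ with hm
  have hle : Real.pi / α ≤ m := Nat.le_ceil _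
  have hlt : (m : ℝ) < Real.pi / α + 1 := Nat.ceil_lt_add_one (by positivity)
  have h2 : (2 : ℝ) < Real.pi / α := by
    rw [lt_div_iff₀ h0]
    linarith
  have hm2 : 2 < m := by
    have : (2 : ℝ) < m := by linarith
    exact_mod_cast this
  have hcast : ((m - 1 : ℕ) : ℝ) = (m : ℝ) - 1 := by
    rw [Nat.cast_sub (by omega)]
    simp
  have hm2' : (2 : ℝ) < m := by exact_mod_cast hm2
  have hm0 : (0 : ℝ) < (m : ℝ) - 1 := by linarith
  have h3 : α < Real.pi / ((m - 1 : ℕ) : ℝ) := by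
    rw [hcast, lt_div_iff₀ hm0]
    have : ((m : ℝ) - 1) * α < Real.pi / α * α := by
      apply mul_lt_mul_of_pos_right _ h0
      linarith
    rw [div_mul_cancel₀ _ h0.ne'] at this
    linarith
  have h4 := G_le (m - 1) (by omega) α h3
  rw [hcast] at h4
  have h5 : 0 ≤ 1 / (3 * ((m : ℝ) - 1) ^ 2) := by positivity
  have h6 : 1 / ((m : ℝ) - 1) ≤ α / Real.pi * (Real.pi / (Real.pi - α)) := by
    have e11 : α / Real.pi * (Real.pi / (Real.pi - α)) = α / (Real.pi - α) := by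
      have : Real.pi - α ≠ 0 := by linarith
      field_simp
    rw [e11, div_le_div_iff₀ hm0 (by linarith)]
    have : Real.pi ≤ m * α := by
      rw [div_le_iff₀ h0] at hle
      exact hle
    linarith
  linarith

/-- The lower constant near `0`. -/
theorem eventually_le_G {c : ℝ} (hc : c < 1 / 2 + Real.pi ^ 2 / 24) :
    ∀ᶠ α in 𝓝[>] (0 : ℝ), c * (α / Real.pi) ≤ G α := by
  have hpi := Real.pi_pos
  have h1 : Tendsto (fun α : ℝ => Real.pi / (Real.pi + α) *
      (1 / 2 + Real.pi ^ 2 / 24 * (1 - α ^ 2 / 8))) (𝓝[>] 0)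
      (𝓝 (Real.pi / (Real.pi + 0) * (1 / 2 + Real.pi ^ 2 / 24 * (1 - 0 ^ 2 / 8)))) := by
    have : ContinuousAt (fun α : ℝ => Real.pi / (Real.pi + α) *
      (1 / 2 + Real.pi ^ 2 / 24 * (1 - α ^ 2 / 8))) 0 := by
      have h : Real.pi + 0 ≠ 0 := by linarith
      fun_prop (disch := assumption)
    exact this.tendsto.mono_left nhdsWithin_le_nhds
  have h2 : Real.pi / (Real.pi + 0) * (1 / 2 + Real.pi ^ 2 / 24 * (1 - 0 ^ 2 / 8)) =
      1 / 2 + Real.pi ^ 2 / 24 := by
    rw [add_zero, div_self hpi.ne']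
    ring
  rw [h2] at h1
  filter_upwards [h1.eventually (lt_mem_nhds hc),
    Ioo_mem_nhdsGT (show (0 : ℝ) < Real.pi / 2 by linarith)] with α ha hb
  refine le_trans ?_ (le_G_explicit hb.1 hb.2)
  rw [mul_comm]
  exact mul_le_mul_of_nonneg_left ha.le (div_nonneg hb.1.le hpi.le)

/-- The upper constant near `0`. -/
theorem eventually_G_le {C : ℝ} (hC : 1 < C) :
    ∀ᶠ α in 𝓝[>] (0 : ℝ), G α ≤ C * (α / Real.pi) := by
  have hpi := Real.pi_pos
  have h1 : Tendsto (fun α : ℝ => Real.pi / (Real.pi - α)) (𝓝[>] 0)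
      (𝓝 (Real.pi / (Real.pi - 0))) := by
    have : ContinuousAt (fun α : ℝ => Real.pi / (Real.pi - α)) 0 := by
      have h : Real.pi - 0 ≠ 0 := by linarith
      fun_prop (disch := assumption)
    exact this.tendsto.mono_left nhdsWithin_le_nhds
  rw [sub_zero, div_self hpi.ne'] at h1
  filter_upwards [h1.eventually (gt_mem_nhds hC),
    Ioo_mem_nhdsGT (show (0 : ℝ) < Real.pi / 2 by linarith)] with α ha hb
  refine (G_le_explicit hb.1 hb.2).trans ?_
  rw [mul_comm C]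
  exact mul_le_mul_of_nonneg_left ha.le (div_nonneg hb.1.le hpi.le)

end Pool.Agent.MP_0af329_co
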