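import Pool.Agent.MP_0af329_co.Basic

/-! Row [ANG-CLUS]: points in general position in small balls. -/

namespace Pool.Agent.MP_0af329_co

open EuclideanGeometry Filter Topology

theorem clus_span_ne_top (a b : Pt) : affineSpan ℝ ({a, b} : Set Pt) ≠ ⊤ := by
  intro h
  have h1 := (collinear_iff_finrank_le_one (k := ℝ) (s := ({a, b} : Set Pt))).1
    (collinear_pair ℝ a b)
  rw [← direction_affineSpan, h, AffineSubspace.direction_top, finrank_top,
    finrank_euclideanSpace, Fintype.card_fin] at h1
  omega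

/-- A ball is not covered by finitely many lines. -/
theorem clus_avoid {N : ℕ} (q : Fin N → Pt) (c : Pt) (ε : ℝ) (hε : 0 < ε) :
    ∃ p : Pt, dist p c < ε ∧ ∀ i j, p ∉ affineSpan ℝ ({q i, q j} : Set Pt) := by
  by_contra hcon
  push Not at hcon
  have hsub : Metric.ball c ε ⊆ ⋃ i, ⋃ j, (affineSpan ℝ ({q i, q j} : Set Pt) : Set Pt) := by
    intro p hp
    obtain ⟨i, j, h⟩ := hcon p hp
    exact Set.mem_iUnion.2 ⟨i, Set.mem_iUnion.2 ⟨j, h⟩⟩
  have h0 : MeasureTheory.volume
      (⋃ i, ⋃ j, (affineSpan ℝ ({q i, q j} : Set Pt) : Set Pt)) = 0 := by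
    rw [MeasureTheory.measure_iUnion_null_iff]
    intro i
    rw [MeasureTheory.measure_iUnion_null_iff]
    intro j
    exact MeasureTheory.Measure.addHaar_affineSubspace _ _ (clus_span_ne_top _ _)
  have h1 : 0 < MeasureTheory.volume (Metric.ball c ε) := Metric.measure_ball_pos _ _ hε
  exact absurd (MeasureTheory.measure_mono_null hsub h0) h1.ne'

/-- One can choose points in general position in prescribed small balls (induction: a ball is not
covered by finitely many lines and points). -/
theorem exists_cluster {N : ℕ} (c : Fin N → Pt) (ε : ℝ) (hε : 0 < ε) :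
    ∃ q : Fin N → Pt, Function.Injective q ∧ GenPos (Finset.univ.image q) ∧
      ∀ i, dist (q i) (c i) < ε := by
  classical
  -- an index form of general position
  suffices h : ∃ q : Fin N → Pt, Function.Injective q ∧
      (∀ i j k : Fin N, i ≠ j → j ≠ k → i ≠ k → ¬ Collinear ℝ ({q i, q j, q k} : Set Pt)) ∧
      ∀ i, dist (q i) (c i) < ε by
    obtain ⟨q, hq, hcol, hd⟩ := h
    refine ⟨q, hq, ?_, hd⟩
    intro x hx y hy z hz hxy hyz hxz
    obtain ⟨i, -, rfl⟩ := Finset.mem_image.1 hx
    obtain ⟨j, -, rfl⟩ := Finset.mem_image.1 hy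
    obtain ⟨k, -, rfl⟩ := Finset.mem_image.1 hz
    exact hcol i j k (fun h => hxy (by rw [h])) (fun h => hyz (by rw [h]))
      (fun h => hxz (by rw [h]))
  induction N with
  | zero => exact ⟨c, fun i => i.elim0, fun i => i.elim0, fun i => i.elim0⟩
  | succ N ih =>
    obtain ⟨q, hq, hcol, hd⟩ := ih (fun i => c i.castSucc)
    obtain ⟨p, hp, hav⟩ := clus_avoid q (c (Fin.last N)) ε hε
    have hpne : ∀ i, p ≠ q i := by
      intro i h
      apply hav i i
      rw [h]
      exact mem_affineSpan ℝ (by simp)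
    have hpcol : ∀ i j, i ≠ j → ¬ Collinear ℝ ({p, q i, q j} : Set Pt) := by
      intro i j hij h
      exact hav i j (h.mem_affineSpan_of_mem_of_ne (by simp) (by simp) (by simp)
        (fun he => hij (hq he)))
    refine ⟨Fin.snoc (α := fun _ => Pt) q p, ?_, ?_, ?_⟩
    · intro i j hij
      refine Fin.lastCases ?_ (fun i => ?_) i hij <;> intro hij <;> revert hij <;>
        refine Fin.lastCases ?_ (fun j => ?_) j <;> intro hij
      · rfl
      · simp only [Fin.snoc_last, Fin.snoc_castSucc] at hij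
        exact absurd hij (hpne j)
      · simp only [Fin.snoc_last, Fin.snoc_castSucc] at hij
        exact absurd hij.symm (hpne i)
      · simp only [Fin.snoc_castSucc] at hij
        rw [hq hij]
    · intro i j k
      refine Fin.lastCases ?_ (fun i => ?_) i <;> refine Fin.lastCases ?_ (fun j => ?_) j <;>
        refine Fin.lastCases ?_ (fun k => ?_) k <;> intro h1 h2 h3
      · exact absurd rfl h1
      · exact absurd rfl h1
      · exact absurd rfl h3
      · simp only [Fin.snoc_last, Fin.snoc_castSucc]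
        exact hpcol j k (fun h => h2 (by rw [h]))
      · exact absurd rfl h2
      · simp only [Fin.snoc_last, Fin.snoc_castSucc]
        rw [Set.insert_comm]
        exact hpcol i k (fun h => h3 (by rw [h]))
      · simp only [Fin.snoc_last, Fin.snoc_castSucc]
        rw [Set.pair_comm, Set.insert_comm]
        exact hpcol i j (fun h => h1 (by rw [h]))
      · simp only [Fin.snoc_castSucc]
        exact hcol i j k (fun h => h1 (by rw [h])) (fun h => h2 (by rw [h]))
          (fun h => h3 (by rw [h]))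
    · intro i
      refine Fin.lastCases ?_ (fun i => ?_) i
      · simpa only [Fin.snoc_last] using hp
      · simpa only [Fin.snoc_castSucc] using hd i

/-- Continuity of the angle at a triple of distinct points, uniform over a finite set. -/
theorem exists_eps (S : Finset Pt) (U : Set ℝ) (hU : IsOpen U) :
    ∃ ε > 0, ∀ x ∈ S, ∀ y ∈ S, ∀ z ∈ S, x ≠ y → y ≠ z → x ≠ z → ∠ x y z ∈ U →
      ∀ x' y' z' : Pt, dist x' x < ε → dist y' y < ε → dist z' z < ε → ∠ x' y' z' ∈ U := by
  have key : ∀ᶠ ε : ℝ in 𝓝[>] 0, ∀ x ∈ S, ∀ y ∈ S, ∀ z ∈ S, x ≠ y → y ≠ z → x ≠ z →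
      ∠ x y z ∈ U →
      ∀ x' y' z' : Pt, dist x' x < ε → dist y' y < ε → dist z' z < ε → ∠ x' y' z' ∈ U := by
    rw [Filter.eventually_all_finset]
    intro x _
    rw [Filter.eventually_all_finset]
    intro y _
    rw [Filter.eventually_all_finset]
    intro z _
    by_cases hxy : x ≠ y
    swap
    · exact Filter.Eventually.of_forall fun _ h => absurd h hxy
    by_cases hyz : y ≠ z
    swap
    · exact Filter.Eventually.of_forall fun _ _ h => absurd h hyz
    by_cases hang : ∠ x y z ∈ U
    swap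
    · exact Filter.Eventually.of_forall fun _ _ _ _ h => absurd h hang
    have hc : ContinuousAt (fun t : Pt × Pt × Pt => ∠ t.1 t.2.1 t.2.2) (x, y, z) :=
      continuousAt_angle (x := (x, y, z)) hxy (Ne.symm hyz)
    have hnh : ∀ᶠ t in 𝓝 ((x, y, z) : Pt × Pt × Pt), ∠ t.1 t.2.1 t.2.2 ∈ U :=
      hc.eventually (hU.mem_nhds hang)
    obtain ⟨δ, hδ, hball⟩ := Metric.eventually_nhds_iff.1 hnh
    filter_upwards [Ioo_mem_nhdsGT hδ] with ε hε _ _ _ _ x' y' z' h1 h2 h3
    refine hball (y := (x', y', z')) ?_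
    rw [Prod.dist_eq, Prod.dist_eq]
    exact max_lt (h1.trans hε.2) (max_lt (h2.trans hε.2) (h3.trans hε.2))
  obtain ⟨ε, h, hε⟩ := (key.and self_mem_nhdsWithin).exists
  exact ⟨ε, hε, h⟩

end Pool.Agent.MP_0af329_co
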