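import Pool.Agent.MP_0af329_co.EqAng
import Pool.Agent.MP_0af329_co.Clus

/-! Row [ANG-BLOW]: blow-up of a finite configuration, one-sided continuity. -/

namespace Pool.Agent.MP_0af329_co

open EuclideanGeometry Filter Topology

/-- Replace every point of `S` by a cluster of `m` points.  The triples from three different
clusters have their angle in `B` only if the original angle is in `closure B`; there are at most
`3 n² m³` other ordered triples. -/
theorem dens_le_blowup (S : Finset Pt) (hn : 0 < S.card) (B : Set ℝ) :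
    dens B ≤ ((cnt S (closure B) : ℝ) + 3 * (S.card : ℝ) ^ 2) / (S.card : ℝ) ^ 3 := by
  classical
  refine dens_le B _ S.card hn ?_
  intro m _
  obtain ⟨ε, hε, hang⟩ := exists_eps S (closure B)ᶜ isClosed_closure.isOpen_compl
  let s : Fin S.card ≃ S := S.equivFin.symm
  obtain ⟨q, hq, hgen, hdist⟩ := exists_cluster
    (fun i : Fin (S.card * m) => ((s (finProdFinEquiv.symm i).1 : S) : Pt)) ε hε
  refine ⟨Finset.univ.image q, ?_, hgen, ?_⟩
  · rw [Finset.card_image_of_injective _ hq, Finset.card_univ, Fintype.card_fin]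
  let Q : Fin S.card × Fin m → Pt := fun a => q (finProdFinEquiv a)
  have hQd : ∀ a, dist (Q a) (s a.1 : Pt) < ε := by
    intro a
    have := hdist (finProdFinEquiv a)
    rwa [Equiv.symm_apply_apply] at this
  let I := Fin S.card × Fin m
  let W1 : Finset (I × I × I) := Finset.univ.filter fun t => t.1.1 ≠ t.2.1.1 ∧ t.2.1.1 ≠ t.2.2.1 ∧
    t.1.1 ≠ t.2.2.1 ∧ ∠ (s t.1.1 : Pt) (s t.2.1.1 : Pt) (s t.2.2.1 : Pt) ∈ closure B
  let W2 : Finset (I × I × I) := Finset.univ.filter fun t => t.1.1 = t.2.1.1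
  let W3 : Finset (I × I × I) := Finset.univ.filter fun t => t.2.1.1 = t.2.2.1
  let W4 : Finset (I × I × I) := Finset.univ.filter fun t => t.1.1 = t.2.2.1
  have hsub : ((trip (Finset.univ.image q)).filter fun t => ∠ t.1 t.2.1 t.2.2 ∈ B) ⊆
      (W1 ∪ (W2 ∪ (W3 ∪ W4))).image (fun t => (Q t.1, Q t.2.1, Q t.2.2)) := by
    rintro ⟨x, y, z⟩ ht
    rw [Finset.mem_filter, mem_trip] at ht
    obtain ⟨⟨⟨hx, hy, hz⟩, hxy, hyz, hxz⟩, hB⟩ := ht
    simp only [Finset.mem_image, Finset.mem_univ, true_and] at hx hy hz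
    obtain ⟨i, rfl⟩ := hx
    obtain ⟨j, rfl⟩ := hy
    obtain ⟨l, rfl⟩ := hz
    have hQ : ∀ i, q i = Q (finProdFinEquiv.symm i) := fun i => by
      change q i = q (finProdFinEquiv (finProdFinEquiv.symm i))
      rw [Equiv.apply_symm_apply]
    rw [Finset.mem_image]
    refine ⟨(finProdFinEquiv.symm i, finProdFinEquiv.symm j, finProdFinEquiv.symm l), ?_, ?_⟩
    · simp only [Finset.mem_union, W1, W2, W3, W4, Finset.mem_filter, Finset.mem_univ, true_and]
      by_cases h1 : (finProdFinEquiv.symm i).1 = (finProdFinEquiv.symm j).1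
      · exact Or.inr (Or.inl h1)
      by_cases h2 : (finProdFinEquiv.symm j).1 = (finProdFinEquiv.symm l).1
      · exact Or.inr (Or.inr (Or.inl h2))
      by_cases h3 : (finProdFinEquiv.symm i).1 = (finProdFinEquiv.symm l).1
      · exact Or.inr (Or.inr (Or.inr h3))
      refine Or.inl ⟨h1, h2, h3, ?_⟩
      by_contra hcon
      have hne : ∀ a b : Fin S.card, a ≠ b → ((s a : S) : Pt) ≠ ((s b : S) : Pt) :=
        fun a b hab h => hab (s.injective (Subtype.ext h))
      have h4 := hang _ (s (finProdFinEquiv.symm i).1).2 _ (s (finProdFinEquiv.symm j).1).2 _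
        (s (finProdFinEquiv.symm l).1).2 (hne _ _ h1) (hne _ _ h2) (hne _ _ h3) hcon
        (q i) (q j) (q l) (hdist i) (hdist j) (hdist l)
      exact h4 (subset_closure hB)
    · simp only [← hQ]
  have hc0 : cnt (Finset.univ.image q) B ≤ (W1 ∪ (W2 ∪ (W3 ∪ W4))).card := by
    unfold cnt
    refine le_trans (le_of_eq ?_) ((Finset.card_le_card hsub).trans Finset.card_image_le)
    congr
  have hc1 : W1.card ≤ cnt S (closure B) * (m * (m * m)) := by
    have h1 : W1.card ≤ (((trip S).filter fun t => ∠ t.1 t.2.1 t.2.2 ∈ closure B) ×ˢ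
        (Finset.univ : Finset (Fin m × Fin m × Fin m))).card := by
      refine Finset.card_le_card_of_injOn
        (fun t => (((s t.1.1 : Pt), (s t.2.1.1 : Pt), (s t.2.2.1 : Pt)),
          (t.1.2, t.2.1.2, t.2.2.2))) ?_ ?_
      · rintro ⟨a, b, c⟩ ht
        simp only [W1, Finset.coe_filter, Finset.mem_univ, true_and, Set.mem_ofPred_eq] at ht
        obtain ⟨h1, h2, h3, h4⟩ := ht
        rw [Finset.mem_coe, Finset.mem_product]
        refine ⟨?_, Finset.mem_univ _⟩
        rw [Finset.mem_filter, mem_trip]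
        have hne : ∀ a b : Fin S.card, a ≠ b → ((s a : S) : Pt) ≠ ((s b : S) : Pt) :=
          fun a b hab h => hab (s.injective (Subtype.ext h))
        exact ⟨⟨⟨(s a.1).2, (s b.1).2, (s c.1).2⟩, hne _ _ h1, hne _ _ h2, hne _ _ h3⟩, h4⟩
      · rintro ⟨⟨a, a'⟩, ⟨b, b'⟩, ⟨c, c'⟩⟩ _ ⟨⟨x, x'⟩, ⟨y, y'⟩, ⟨z, z'⟩⟩ _ h
        simp only [Prod.mk.injEq] at h
        obtain ⟨⟨h1, h2, h3⟩, rfl, rfl, rfl⟩ := h
        have hinj : ∀ a b : Fin S.card, ((s a : S) : Pt) = ((s b : S) : Pt) → a = b :=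
          fun a b h => s.injective (Subtype.ext h)
        rw [hinj _ _ h1, hinj _ _ h2, hinj _ _ h3]
    rw [Finset.card_product, Finset.card_univ, Fintype.card_prod, Fintype.card_prod,
      Fintype.card_fin] at h1
    refine h1.trans (le_of_eq ?_)
    congr 1
  have hcard5 : (Finset.univ : Finset ((Fin S.card × Fin S.card) × (Fin m × Fin m × Fin m))).card =
      (S.card * S.card) * (m * (m * m)) := by
    simp [Finset.card_univ, Fintype.card_prod, Fintype.card_fin]
  have hc2 : W2.card ≤ (S.card * S.card) * (m * (m * m)) := by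
    rw [← hcard5]
    refine Finset.card_le_card_of_injOn
      (fun t => ((t.1.1, t.2.2.1), (t.1.2, t.2.1.2, t.2.2.2))) (fun _ _ => Finset.mem_univ _) ?_
    rintro ⟨⟨a, a'⟩, ⟨b, b'⟩, ⟨c, c'⟩⟩ h1 ⟨⟨x, x'⟩, ⟨y, y'⟩, ⟨z, z'⟩⟩ h2 h
    simp only [W2, Finset.coe_filter, Finset.mem_univ, true_and, Set.mem_ofPred_eq] at h1 h2
    simp only [Prod.mk.injEq] at h
    obtain ⟨⟨rfl, rfl⟩, rfl, rfl, rfl⟩ := h
    subst h1
    subst h2
    rfl
  have hc3 : W3.card ≤ (S.card * S.card) * (m * (m * m)) := by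
    rw [← hcard5]
    refine Finset.card_le_card_of_injOn
      (fun t => ((t.1.1, t.2.2.1), (t.1.2, t.2.1.2, t.2.2.2))) (fun _ _ => Finset.mem_univ _) ?_
    rintro ⟨⟨a, a'⟩, ⟨b, b'⟩, ⟨c, c'⟩⟩ h1 ⟨⟨x, x'⟩, ⟨y, y'⟩, ⟨z, z'⟩⟩ h2 h
    simp only [W3, Finset.coe_filter, Finset.mem_univ, true_and, Set.mem_ofPred_eq] at h1 h2
    simp only [Prod.mk.injEq] at h
    obtain ⟨⟨rfl, rfl⟩, rfl, rfl, rfl⟩ := h
    subst h1
    subst h2
    rfl
  have hc4 : W4.card ≤ (S.card * S.card) * (m * (m * m)) := by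
    rw [← hcard5]
    refine Finset.card_le_card_of_injOn
      (fun t => ((t.1.1, t.2.1.1), (t.1.2, t.2.1.2, t.2.2.2))) (fun _ _ => Finset.mem_univ _) ?_
    rintro ⟨⟨a, a'⟩, ⟨b, b'⟩, ⟨c, c'⟩⟩ h1 ⟨⟨x, x'⟩, ⟨y, y'⟩, ⟨z, z'⟩⟩ h2 h
    simp only [W4, Finset.coe_filter, Finset.mem_univ, true_and, Set.mem_ofPred_eq] at h1 h2
    simp only [Prod.mk.injEq] at h
    obtain ⟨⟨rfl, rfl⟩, rfl, rfl, rfl⟩ := h
    subst h1
    subst h2
    rfl
  have htot : cnt (Finset.univ.image q) B ≤
      (cnt S (closure B) + 3 * (S.card * S.card)) * (m * (m * m)) := by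
    have h1 := Finset.card_union_le W1 (W2 ∪ (W3 ∪ W4))
    have h2 := Finset.card_union_le W2 (W3 ∪ W4)
    have h3 := Finset.card_union_le W3 W4
    calc cnt (Finset.univ.image q) B ≤ (W1 ∪ (W2 ∪ (W3 ∪ W4))).card := hc0
      _ ≤ W1.card + (W2.card + (W3.card + W4.card)) := by omega
      _ ≤ cnt S (closure B) * (m * (m * m)) + ((S.card * S.card) * (m * (m * m)) +
          ((S.card * S.card) * (m * (m * m)) + (S.card * S.card) * (m * (m * m)))) :=
          Nat.add_le_add hc1 (Nat.add_le_add hc2 (Nat.add_le_add hc3 hc4))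
      _ = _ := by ring
  have hn' : (0 : ℝ) < S.card := by exact_mod_cast hn
  have htot' : (cnt (Finset.univ.image q) B : ℝ) ≤
      ((cnt S (closure B) : ℝ) + 3 * ((S.card : ℝ) * S.card)) * (m * (m * m)) := by
    exact_mod_cast htot
  refine htot'.trans (le_of_eq ?_)
  field_simp

private theorem blow_key (A B : Set ℝ) (α : ℝ) (S : Finset Pt) (h3 : 3 ≤ S.card) (hS : GenPos S)
    (hmin : cnt S A = minCnt S.card A)
    (hcl : ∀ t ∈ trip S, ∠ t.1 t.2.1 t.2.2 ∈ closure B →
      ∠ t.1 t.2.1 t.2.2 ∈ A ∨ ∠ t.1 t.2.1 t.2.2 = α) :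
    dens B ≤ dens A + 5 / S.card := by
  classical
  have h1 := dens_le_blowup S (by omega) B
  have h2 : cnt S (closure B) ≤ cnt S A + cnt S {α} := by
    unfold cnt
    refine le_trans (Finset.card_le_card ?_) (Finset.card_union_le _ _)
    intro t ht
    rw [Finset.mem_filter] at ht
    rw [Finset.mem_union, Finset.mem_filter, Finset.mem_filter]
    rcases hcl t ht.1 ht.2 with h | h
    · exact Or.inl ⟨ht.1, h⟩
    · exact Or.inr ⟨ht.1, h⟩
  have h4 := cnt_singleton_le hS α
  have h5 := ratio_le_dens A h3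
  unfold ratio at h5
  rw [← hmin] at h5
  have hn : (3 : ℝ) ≤ S.card := by exact_mod_cast h3
  set n : ℝ := (S.card : ℝ) with hnd
  have h6 : (cnt S A : ℝ) ≤ dens A * (n * (n - 1) * (n - 2)) := by
    rwa [div_le_iff₀ (by
      have : 0 < n - 1 := by linarith
      have : 0 < n - 2 := by linarith
      positivity)] at h5
  have h0 : 0 ≤ dens A := by
    refine le_trans ?_ h5
    have : 0 < n - 1 := by linarith
    have : 0 < n - 2 := by linarith
    positivity
  have h7 : dens A * (n * (n - 1) * (n - 2)) ≤ dens A * n ^ 3 := by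
    apply mul_le_mul_of_nonneg_left _ h0
    nlinarith
  have h8 : (cnt S (closure B) : ℝ) ≤ cnt S A + cnt S {α} := by exact_mod_cast h2
  refine h1.trans ?_
  rw [div_le_iff₀ (by positivity)]
  have h9 : (dens A + 5 / n) * n ^ 3 = dens A * n ^ 3 + 5 * n ^ 2 := by
    field_simp
  rw [h9]
  linarith

private theorem exists_large (r : ℝ) (hr : 0 < r) : ∃ n : ℕ, 3 ≤ n ∧ 5 / (n : ℝ) < r := by
  obtain ⟨n, hn⟩ := exists_nat_gt (5 / r)
  refine ⟨n + 3, by omega, ?_⟩
  have h1 : (0 : ℝ) < ((n + 3 : ℕ) : ℝ) := by positivity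
  rw [div_lt_iff₀ h1]
  rw [div_lt_iff₀ hr] at hn
  push_cast
  nlinarith

/-- `F` is continuous from the left. (For every `n` take `S` optimal for `Ioi α`; for `β < α` close
enough to `α` no angle of `S` is in `[β, α)`, so `cnt S (closure (Ioi β)) ≤ cnt S (Ioi α) + 2n²`.
Also `F` is antitone.) -/
theorem F_left (α : ℝ) : ContinuousWithinAt F (Set.Iic α) α := by
  refine tendsto_order.2 ⟨fun a ha => ?_, fun a ha => ?_⟩
  · filter_upwards [self_mem_nhdsWithin] with β hβ
    exact lt_of_lt_of_le ha (dens_mono (Set.Ioi_subset_Ioi hβ))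
  · obtain ⟨n, hn3, hn⟩ := exists_large (a - F α) (by linarith)
    obtain ⟨S, hcard, hS, hmin⟩ := exists_minCnt n (Set.Ioi α)
    have hev : ∀ᶠ β in 𝓝[Set.Iic α] α, ∀ t ∈ trip S, ∠ t.1 t.2.1 t.2.2 < α →
        ∠ t.1 t.2.1 t.2.2 < β := by
      rw [Filter.eventually_all_finset]
      intro t _
      by_cases h : ∠ t.1 t.2.1 t.2.2 < α
      · filter_upwards [mem_nhdsWithin_of_mem_nhds (lt_mem_nhds h)] with β hβ _
        exact hβ
      · exact Filter.Eventually.of_forall fun β h' => absurd h' h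
    filter_upwards [hev] with β hβ
    have hk := blow_key (Set.Ioi α) (Set.Ioi β) α S (by omega) hS (by rw [hcard]; exact hmin) (by
      intro t ht htB
      rw [closure_Ioi] at htB
      rcases lt_trichotomy (∠ t.1 t.2.1 t.2.2) α with h | h | h
      · exact absurd (hβ t ht h) (not_lt.2 htB)
      · exact Or.inr h
      · exact Or.inl h)
    rw [hcard] at hk
    change dens (Set.Ioi β) < a
    have : F α = dens (Set.Ioi α) := rfl
    linarith

theorem G_right (α : ℝ) : ContinuousWithinAt G (Set.Ici α) α := by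
  refine tendsto_order.2 ⟨fun a ha => ?_, fun a ha => ?_⟩
  · filter_upwards [self_mem_nhdsWithin] with β hβ
    exact lt_of_lt_of_le ha (dens_mono (Set.Iio_subset_Iio hβ))
  · obtain ⟨n, hn3, hn⟩ := exists_large (a - G α) (by linarith)
    obtain ⟨S, hcard, hS, hmin⟩ := exists_minCnt n (Set.Iio α)
    have hev : ∀ᶠ β in 𝓝[Set.Ici α] α, ∀ t ∈ trip S, α < ∠ t.1 t.2.1 t.2.2 →
        β < ∠ t.1 t.2.1 t.2.2 := by
      rw [Filter.eventually_all_finset]
      intro t _
      by_cases h : α < ∠ t.1 t.2.1 t.2.2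
      · filter_upwards [mem_nhdsWithin_of_mem_nhds (gt_mem_nhds h)] with β hβ _
        exact hβ
      · exact Filter.Eventually.of_forall fun β h' => absurd h' h
    filter_upwards [hev] with β hβ
    have hk := blow_key (Set.Iio α) (Set.Iio β) α S (by omega) hS (by rw [hcard]; exact hmin) (by
      intro t ht htB
      rw [closure_Iio] at htB
      rcases lt_trichotomy (∠ t.1 t.2.1 t.2.2) α with h | h | h
      · exact Or.inl h
      · exact Or.inr h
      · exact absurd (hβ t ht h) (not_lt.2 htB))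
    rw [hcard] at hk
    change dens (Set.Iio β) < a
    have : G α = dens (Set.Iio α) := rfl
    linarith

end Pool.Agent.MP_0af329_co
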