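import Pool.Agent.MP_0af329_co.CG11

/-!
# Interior angles of subpolygons of a convex polygon
-/

set_option autoImplicit false

namespace Pool.Agent.MP_0af329_co.CG

open Finset EuclideanGeometry
open Pool.Agent.MP_0af329_co.Cvx (co CP ConvexPos)

variable {q : ℕ → Pt} {n : ℕ}

theorem fan_sum (h : CP (fun i => co (q i)) n) (hn : 3 ≤ n) {z : ℕ → ℕ} (hz : StrictMono z) (m : ℕ)
    (hm : z (m + 1) < z 0 + n) :
    ag q (z 0) (z 1 - z 0) (z (m + 1) - z 0) +
      ∑ i ∈ range m, ag q (z (i + 1)) (z (i + 2) - z (i + 1)) (z i + n - z (i + 1)) +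
      ag q (z (m + 1)) (z 0 + n - z (m + 1)) (z m + n - z (m + 1)) = m * Real.pi := by
  induction m with
  | zero =>
    have h1 : z 0 < z 1 := hz (by norm_num)
    simp only [zero_add] at hm ⊢
    rw [ag_self h hn _ _ (by omega) (by omega), ag_self h hn _ _ (by omega) (by omega)]
    simp
  | succ m ih =>
    have h1 : z 0 < z 1 := hz (by norm_num)
    have h2 : z 1 ≤ z (m + 1) := hz.monotone (by omega)
    have h3 : z (m + 1) < z (m + 1 + 1) := hz (by omega)
    have h4 : z 0 ≤ z m := hz.monotone (by omega)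
    have h5 : z m < z (m + 1) := hz (by omega)
    have ih' := ih (by omega)
    have e1 := ag_add h hn (x := z 0) (u := z 1 - z 0) (v := z (m + 1) - z 0)
      (w := z (m + 1 + 1) - z 0) (by omega) (by omega) (by omega) (by omega)
    have e2 := ag_add h hn (x := z (m + 1)) (u := z (m + 1 + 1) - z (m + 1))
      (v := z 0 + n - z (m + 1)) (w := z m + n - z (m + 1)) (by omega) (by omega) (by omega)
      (by omega)
    have e3 := ag_tri h hn (x := z 0) (g := z (m + 1) - z 0) (e := z (m + 1 + 1) - z 0) (by omega)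
      (by omega) (by omega)
    have a1 : z 0 + (z (m + 1) - z 0) = z (m + 1) := by omega
    have a2 : z (m + 1 + 1) - z 0 - (z (m + 1) - z 0) = z (m + 1 + 1) - z (m + 1) := by omega
    have a3 : n - (z (m + 1) - z 0) = z 0 + n - z (m + 1) := by omega
    have a4 : z 0 + (z (m + 1 + 1) - z 0) = z (m + 1 + 1) := by omega
    have a5 : n - (z (m + 1 + 1) - z 0) = z 0 + n - z (m + 1 + 1) := by omega
    have a6 : z 0 + n - z (m + 1 + 1) + (z (m + 1) - z 0) = z (m + 1) + n - z (m + 1 + 1) := by
      omega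
    rw [a1, a2, a3, a4, a5, a6] at e3
    rw [sum_range_succ, e1]
    have a7 : m + 2 = m + 1 + 1 := rfl
    rw [a7, e2]
    push_cast
    linarith

theorem poly_sum (h : CP (fun i => co (q i)) n) (hn : 3 ≤ n) {z : ℕ → ℕ} (hz : StrictMono z)
    {m : ℕ} (hm : 2 ≤ m) (hper : ∀ i, z (i + m) = z i + n) :
    ∑ i ∈ range m, ag q (z (i + 1)) (z (i + 2) - z (i + 1)) (z i + n - z (i + 1)) =
      ((m : ℝ) - 2) * Real.pi := by
  obtain ⟨M, rfl⟩ := Nat.exists_eq_add_of_le' hm
  have h0 : z (M + 2) = z 0 + n := by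
    have := hper 0
    rwa [zero_add] at this
  have h1 : z (M + 1 + 2) = z 1 + n := by
    have := hper 1
    rwa [show 1 + (M + 2) = M + 1 + 2 by ring] at this
  have h2 : z (M + 1) < z (M + 2) := hz (by omega)
  have h3 := fan_sum h hn hz M (by omega)
  have h4 : z 0 < z 1 := hz (by norm_num)
  have h5 : z 1 ≤ z (M + 1) := hz.monotone (by omega)
  rw [sum_range_succ, sum_range_succ]
  have e1 : ag q (z (M + 1 + 1)) (z (M + 1 + 2) - z (M + 1 + 1)) (z (M + 1) + n - z (M + 1 + 1)) =
      ag q (z 0) (z 1 - z 0) (z (M + 1) - z 0) := by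
    rw [h1, show M + 1 + 1 = M + 2 from rfl, h0, ag_per h]
    congr 1 <;> omega
  rw [e1]
  have e2 : z (M + 2) - z (M + 1) = z 0 + n - z (M + 1) := by rw [h0]
  rw [e2]
  push_cast
  linarith

theorem ag_lt_pi (h : CP (fun i => co (q i)) n) (hn : 3 ≤ n) {x d e : ℕ} (hd : 0 < d) (hde : d < e)
    (he : e < n) : ag q x d e < Real.pi := by
  have h1 := ag_tri h hn (x := x) hd hde he
  have h2 : 0 < ag q (x + d) (e - d) (n - d) := by
    rcases (ag_nonneg (q := q) (x + d) (e - d) (n - d)).lt_or_eq with h3 | h3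
    · exact h3
    · exfalso
      have h4 := h.pos (x + d) (x + e) (x + n) (by omega) (by omega) (by omega)
      unfold ag at h3
      have h5 := EuclideanGeometry.collinear_of_angle_eq_zero h3.symm
      have e1 : x + d + (e - d) = x + e := by omega
      have e2 : x + d + (n - d) = x + n := by omega
      rw [e1, e2] at h5
      have h6 : Collinear ℝ {q (x + d), q (x + e), q (x + n)} := by
        have : ({q (x + e), q (x + d), q (x + n)} : Set Pt) = {q (x + d), q (x + e), q (x + n)} :=
          Set.insert_comm _ _ _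
        rwa [this] at h5
      rw [collinear_iff_of_mem (p₀ := q (x + d)) (by simp)] at h6
      obtain ⟨w, hw⟩ := h6
      obtain ⟨r, hr⟩ := hw (q (x + e)) (by simp)
      obtain ⟨s, hs⟩ := hw (q (x + n)) (by simp)
      simp only [Cvx.cr, co, hr, hs, vadd_eq_add, PiLp.add_apply, PiLp.smul_apply,
        smul_eq_mul] at h4
      have : (0 : ℝ) < 0 := by
        calc (0 : ℝ) < _ := h4
          _ = 0 := by ring
      exact lt_irrefl _ this
  have h3 := ag_nonneg (q := q) (x + e) (n - e) (n - e + d)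
  linarith

end Pool.Agent.MP_0af329_co.CG
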