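import Pool.Agent.MP_0af329_co.CF9

/-!
# `FC` jumps at `π/3`
-/

set_option autoImplicit false

namespace Pool.Agent.MP_0af329_co

open Filter Topology Finset EuclideanGeometry
open Pool.Agent.MP_0af329_co.Cvx (ConvexPos minCntC)

namespace CF

/-- first coordinates of an equilateral triangle -/
noncomputable def tA0 (i : Fin 3) : ℝ := if i = 0 then 0 else if i = 1 then 2 else 1
/-- second coordinates of an equilateral triangle -/
noncomputable def tA1 (i : Fin 3) : ℝ := if i = 2 then Real.sqrt 3 else 0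
/-- first coordinates of the directions -/
noncomputable def tu0 (i : Fin 3) : ℝ := if i = 2 then -1 else 1 / 2
/-- second coordinates of the directions -/
noncomputable def tu1 (i : Fin 3) : ℝ :=
  if i = 0 then -(Real.sqrt 3 / 2) else if i = 1 then Real.sqrt 3 / 2 else 0

/-- the vertices of an equilateral triangle -/
noncomputable def tA (i : Fin 3) : Pt := !₂[tA0 i, tA1 i]
/-- the directions -/
noncomputable def tu (i : Fin 3) : Pt := !₂[tu0 i, tu1 i]

@[simp] theorem tA_0 (i : Fin 3) : tA i 0 = tA0 i := by simp [tA]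
@[simp] theorem tA_1 (i : Fin 3) : tA i 1 = tA1 i := by simp [tA]
@[simp] theorem tu_0 (i : Fin 3) : tu i 0 = tu0 i := by simp [tu]
@[simp] theorem tu_1 (i : Fin 3) : tu i 1 = tu1 i := by simp [tu]

theorem sq3 : Real.sqrt 3 * Real.sqrt 3 = 3 := Real.mul_self_sqrt (by norm_num)

theorem tu_sq (i : Fin 3) : tu i 0 ^ 2 + tu i 1 ^ 2 = 1 := by
  have h := sq3
  rw [tu_0, tu_1]
  fin_cases i <;> simp [tu0, tu1] <;> nlinarith

theorem tD_sq {i j : Fin 3} (hij : i ≠ j) : dp (tA j - tA i) (tA j - tA i) = 4 := by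
  have h := sq3
  unfold dp
  simp only [PiLp.sub_apply, tA_0, tA_1]
  fin_cases i <;> fin_cases j <;> simp [tA0, tA1] at hij ⊢ <;> nlinarith

theorem tD_rt {i j : Fin 3} (hij : i ≠ j) : 0 < dp (tA j - tA i) (rt (tu i)) := by
  have h := sq3
  have h3 : 0 < Real.sqrt 3 := Real.sqrt_pos.2 (by norm_num)
  unfold dp
  simp only [PiLp.sub_apply, tA_0, tA_1, rt0, rt1, tu_0, tu_1]
  fin_cases i <;> fin_cases j <;> simp [tA0, tA1, tu0, tu1] at hij ⊢ <;> nlinarith

theorem tD_u {i j : Fin 3} (hij : i ≠ j) : dp (tu i) (tA j - tA i) = 1 ∨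
    dp (tu i) (tA j - tA i) = -1 := by
  have h := sq3
  unfold dp
  simp only [PiLp.sub_apply, tA_0, tA_1, tu_0, tu_1]
  fin_cases i <;> fin_cases j <;> simp [tA0, tA1, tu0, tu1] at hij ⊢ <;>
    first
    | (left; nlinarith)
    | (right; nlinarith)
    | norm_num

theorem tD_D {i j k : Fin 3} (hij : i ≠ j) (hkj : k ≠ j) : 2 ≤ dp (tA i - tA j) (tA k - tA j) := by
  have h := sq3
  unfold dp
  simp only [PiLp.sub_apply, tA_0, tA_1]
  fin_cases i <;> fin_cases j <;> fin_cases k <;> simp [tA0, tA1] at hij hkj ⊢ <;> nlinarith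

theorem norm_of_dp {x : Pt} {r : ℝ} (hr : 0 ≤ r) (h : dp x x = r ^ 2) : ‖x‖ = r := by
  have h1 := norm_sq x
  rw [h] at h1
  exact (pow_left_inj₀ (norm_nonneg x) hr (by norm_num)).1 h1

theorem angle_le_third {x y : Pt} {r s : ℝ} (hr : 0 < r) (hs : 0 < s) (hx : ‖x‖ = r) (hy : ‖y‖ = s)
    (h : r * s / 2 ≤ dp x y) : InnerProductGeometry.angle x y ≤ Real.pi / 3 := by
  have h1 := InnerProductGeometry.cos_angle_mul_norm_mul_norm x y
  rw [inner_eq, hx, hy] at h1
  have h2 : 1 / 2 ≤ Real.cos (InnerProductGeometry.angle x y) := by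
    have h3 : 0 < r * s := mul_pos hr hs
    by_contra hlt
    push Not at hlt
    have := mul_lt_mul_of_pos_right hlt h3
    linarith
  by_contra hlt
  push Not at hlt
  have h4 : Real.cos (InnerProductGeometry.angle x y) < Real.cos (Real.pi / 3) :=
    Real.cos_lt_cos_of_nonneg_of_le_pi (by linarith [Real.pi_pos])
      (InnerProductGeometry.angle_le_pi _ _) hlt
  rw [Real.cos_pi_div_three] at h4
  linarith

theorem tD_norm {i j : Fin 3} (hij : i ≠ j) : ‖tA j - tA i‖ = 2 :=
  norm_of_dp (by norm_num) (by rw [tD_sq hij]; norm_num)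

theorem tu_norm (i : Fin 3) : ‖tu i‖ = 1 :=
  norm_of_dp (by norm_num) (by
    have := tu_sq i
    unfold dp
    linarith)

theorem tu_angle {i j : Fin 3} (hij : i ≠ j) :
    InnerProductGeometry.angle (tu i) (tA j - tA i) ≤ Real.pi / 3 ∨
    InnerProductGeometry.angle (-tu i) (tA j - tA i) ≤ Real.pi / 3 := by
  rcases tD_u hij with h | h
  · left
    exact angle_le_third one_pos two_pos (tu_norm i) (tD_norm hij) (by rw [h]; norm_num)
  · right
    refine angle_le_third one_pos two_pos (by rw [norm_neg]; exact tu_norm i) (tD_norm hij) ?_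
    have h1 : dp (-tu i) (tA j - tA i) = - dp (tu i) (tA j - tA i) := by
      unfold dp
      simp only [PiLp.neg_apply]
      ring
    rw [h1, h]
    norm_num

end CF

/-- `FC ≤ 7/27` after `π/3` -/
theorem FC_le_third {α : ℝ} (hα : Real.pi / 3 < α) : FC α ≤ 7 / 27 := by
  classical
  have hpi := Real.pi_pos
  refine densC_le _ _ 3 (by norm_num) fun m hm => ?_
  obtain ⟨p, h1, h2, h3, h4, h5, h6⟩ := CF.exists_clusters CF.tA CF.tu m α (by linarith) CF.tu_sq
    (fun i j hij => CF.tD_rt hij) (by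
      intro i j k hij hkj
      have := CF.angle_le_third two_pos two_pos (CF.tD_norm hij.symm) (CF.tD_norm hkj.symm) (by
        have := CF.tD_D hij hkj
        linarith)
      exact lt_of_le_of_lt this hα)
  have hw : ∀ j : Fin 3, (fun _ : Fin 3 => m) j ≤ m := fun _ => le_rfl
  have hcnt := CF.cnt_clusters p (fun _ => m) hw α (fun _ => True) h3 h6 (by
    intro x y z hxy hzy hne hboth
    have hzx : z.1 ≠ x.1 := hxy ▸ hzy
    rcases CF.tu_angle hzy.symm with h7 | h7
    · rcases lt_or_gt_of_ne hne with h8 | h8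
      · have h9 := h4 y x z hxy.symm hzx h8 (by
          rw [hxy]
          exact lt_of_le_of_lt h7 hα)
        linarith [hboth.2]
      · have h9 := h4 x y z hxy hzy h8 (lt_of_le_of_lt h7 hα)
        linarith [hboth.1]
    · rcases lt_or_gt_of_ne hne with h8 | h8
      · have h9 := h5 x y z hxy hzy h8 (lt_of_le_of_lt h7 hα)
        linarith [hboth.1]
      · have h9 := h5 y x z hxy.symm hzx h8 (by
          rw [hxy]
          exact lt_of_le_of_lt h7 hα)
        linarith [hboth.2]) (fun x y z _ _ _ h => absurd trivial h)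
  refine ⟨(CF.Yw (fun _ : Fin 3 => m)).image p, ?_, ?_, ?_⟩
  · rw [Finset.card_image_of_injective _ h1, CF.card_Yw _ hw, sum_const, card_univ,
      Fintype.card_fin, smul_eq_mul]
  · exact Cvx.ConvexPos.mono h2 (image_subset_image (subset_univ _))
  · have e3 : 3 * m - m = 2 * m := by omega
    simp only [if_true, sum_const, card_univ, Fintype.card_fin, smul_eq_mul, e3] at hcnt
    have hc : (cnt ((CF.Yw (fun _ : Fin 3 => m)).image p) (Set.Ioi α) : ℝ) ≤
        ((3 * (2 * m.choose 3 + 2 * (m.choose 2 * (2 * m))) : ℕ) : ℝ) := by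
      exact_mod_cast hcnt
    push_cast at hc
    have c1 := CF.choose3_le m
    have c2 := CF.choose2_le m
    have c4 : (m.choose 2 : ℝ) * (2 * m) ≤ (m : ℝ) ^ 2 / 2 * (2 * m) :=
      mul_le_mul_of_nonneg_right c2 (by positivity)
    push_cast
    nlinarith

theorem not_continuousAt_FC_third : ¬ ContinuousAt FC (Real.pi / 3) := by
  refine not_continuousAt_FC (fun x hx => FC_le_third hx) ?_
  exact lt_of_lt_of_le (by norm_num) (le_FC_third le_rfl)

/-- `FC` is discontinuous at `π - 2π/m` for every `m ≥ 3` -/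
theorem FC_discontinuous (m : ℕ) (hm : 3 ≤ m) : ¬ ContinuousAt FC (Real.pi - 2 * Real.pi / m) := by
  rcases Nat.even_or_odd' m with ⟨h, rfl | rfl⟩
  · have hh : 2 ≤ h := by omega
    have hhR : (2 : ℝ) ≤ h := by exact_mod_cast hh
    have e1 : 2 * Real.pi / ((2 * h : ℕ) : ℝ) = Real.pi / h := by
      push_cast
      field_simp
    rw [e1]
    exact not_continuousAt_FC_even h (by omega)
  · rcases Nat.eq_or_lt_of_le (show 1 ≤ h by omega) with h1 | h1
    · subst h1
      have e1 : Real.pi - 2 * Real.pi / ((2 * 1 + 1 : ℕ) : ℝ) = Real.pi / 3 := by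
        push_cast
        ring
      rw [e1]
      exact not_continuousAt_FC_third
    · have := not_continuousAt_FC_odd h h1
      push_cast
      exact this

end Pool.Agent.MP_0af329_co
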