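import Pool.Agent.MP_0af329_co.CF1

/-!
# Subpolygons with few large angles: the lower bound for the number of large angles
-/

set_option autoImplicit false

namespace Pool.Agent.MP_0af329_co.CG

open Finset EuclideanGeometry
open Pool.Agent.MP_0af329_co.Cvx (co CP ConvexPos)

open Classical in
/-- At least `t` of `m` numbers in `[0, π)` with sum `(m - 2) π` are greater than `α`. -/
theorem many_large (m t : ℕ) (f : ℕ → ℝ) (h1 : ∀ i ∈ range m, f i < Real.pi)
    (h2 : ∑ i ∈ range m, f i = ((m : ℝ) - 2) * Real.pi) {α : ℝ} (ht : 2 ≤ t)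
    (hα : α < Real.pi) (hm : 2 * Real.pi ≤ ((m : ℝ) - t + 1) * (Real.pi - α)) :
    t ≤ ∑ i ∈ range m, (if α < f i then 1 else 0) := by
  by_contra hc
  push Not at hc
  set L := ∑ i ∈ range m, (if α < f i then 1 else 0) with hL
  have hLR : ((L : ℕ) : ℝ) = ∑ i ∈ range m, (if α < f i then (1 : ℝ) else 0) := by
    rw [hL]
    push_cast
    rfl
  have hpt : ∀ i ∈ range m, f i ≤ α + (Real.pi - α) * (if α < f i then (1 : ℝ) else 0) := by
    intro i hi
    have := h1 i hi
    split_ifs with h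
    · linarith
    · push Not at h
      linarith
  have hsum : ∑ i ∈ range m, (α + (Real.pi - α) * (if α < f i then (1 : ℝ) else 0)) =
      m * α + (Real.pi - α) * L := by
    rw [sum_add_distrib, ← mul_sum, ← hLR, sum_const, card_range, nsmul_eq_mul]
  have htL : (L : ℝ) + 1 ≤ t := by exact_mod_cast hc
  have ht2 : (2 : ℝ) ≤ t := by exact_mod_cast ht
  have hpa : 0 < Real.pi - α := by linarith
  by_cases hL0 : L = 0
  · have h3 := sum_le_sum hpt
    rw [hsum, h2, hL0] at h3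
    push_cast at h3
    nlinarith
  · have h3 : ∑ i ∈ range m, f i <
        ∑ i ∈ range m, (α + (Real.pi - α) * (if α < f i then (1 : ℝ) else 0)) := by
      refine sum_lt_sum hpt ?_
      by_contra hne
      push Not at hne
      apply hL0
      rw [hL]
      refine sum_eq_zero fun i hi => ?_
      have h4 := hne i hi
      have h5 := h1 i hi
      split_ifs with h
      · rw [if_pos h] at h4
        linarith
      · rfl
    rw [hsum, h2] at h3
    nlinarith

/-- the vertices of the polygon with gaps `a, b, N - a - b` repeated -/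
def zz (x a b N i : ℕ) : ℕ :=
  x + i / 3 * N + if i % 3 = 0 then 0 else if i % 3 = 1 then a else a + b

theorem zz0 (x a b N j : ℕ) : zz x a b N (3 * j) = x + j * N := by
  have e1 : 3 * j / 3 = j := by omega
  have e2 : 3 * j % 3 = 0 := by omega
  rw [zz, e1, e2, if_pos rfl, add_zero]

theorem zz1 (x a b N j : ℕ) : zz x a b N (3 * j + 1) = x + j * N + a := by
  have e1 : (3 * j + 1) / 3 = j := by omega
  have e2 : (3 * j + 1) % 3 = 1 := by omega
  rw [zz, e1, e2, if_neg (by norm_num), if_pos rfl]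

theorem zz2 (x a b N j : ℕ) : zz x a b N (3 * j + 2) = x + j * N + (a + b) := by
  have e1 : (3 * j + 2) / 3 = j := by omega
  have e2 : (3 * j + 2) % 3 = 2 := by omega
  rw [zz, e1, e2, if_neg (by norm_num), if_neg (by norm_num)]

theorem exists_three (i : ℕ) : ∃ j, i = 3 * j ∨ i = 3 * j + 1 ∨ i = 3 * j + 2 := ⟨i / 3, by omega⟩

theorem zz_mono {x a b N : ℕ} (ha : 0 < a) (hb : 0 < b) (hab : a + b < N) :
    StrictMono (zz x a b N) := by
  refine strictMono_nat_of_lt_succ fun i => ?_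
  obtain ⟨j, rfl | rfl | rfl⟩ := exists_three i
  · rw [zz0, zz1]
    omega
  · rw [show 3 * j + 1 + 1 = 3 * j + 2 from rfl, zz1, zz2]
    omega
  · rw [show 3 * j + 2 + 1 = 3 * (j + 1) by ring, zz0, zz2]
    have : (j + 1) * N = j * N + N := by ring
    omega

theorem zz_per (x a b N h i : ℕ) : zz x a b N (i + 3 * h) = zz x a b N i + h * N := by
  obtain ⟨j, rfl | rfl | rfl⟩ := exists_three i
  · rw [show 3 * j + 3 * h = 3 * (j + h) by ring, zz0, zz0]
    ring
  · rw [show 3 * j + 1 + 3 * h = 3 * (j + h) + 1 by ring, zz1, zz1]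
    ring
  · rw [show 3 * j + 2 + 3 * h = 3 * (j + h) + 2 by ring, zz2, zz2]
    ring

theorem sum_range_three (h : ℕ) (f : ℕ → ℕ) :
    ∑ i ∈ range (3 * h), f i = ∑ j ∈ range h, (f (3 * j) + f (3 * j + 1) + f (3 * j + 2)) := by
  induction h with
  | zero => rfl
  | succ h ih =>
    rw [sum_range_succ (n := h), ← ih, show 3 * (h + 1) = 3 * h + 1 + 1 + 1 by ring, sum_range_succ,
      sum_range_succ, sum_range_succ]
    ring

variable {q : ℕ → Pt} {n : ℕ}

open Classical in
/-- indicator of a large corner at `v`, previous gap `a`, next gap `b` -/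
noncomputable def Lg (q : ℕ → Pt) (n : ℕ) (α : ℝ) (v a b : ℕ) : ℕ :=
  if α < ag q v b (n - a) then 1 else 0

/-- number of large corners with previous gap `a` and next gap `b` -/
noncomputable def Wg (q : ℕ → Pt) (n : ℕ) (α : ℝ) (a b : ℕ) : ℕ := ∑ v ∈ range n, Lg q n α v a b

theorem Lg_per (h : CP (fun i => co (q i)) n) (α : ℝ) (v a b : ℕ) :
    Lg q n α (v + n) a b = Lg q n α v a b := by
  unfold Lg
  rw [ag_per h]

theorem Wg_shift (h : CP (fun i => co (q i)) n) (α : ℝ) (a b s : ℕ) :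
    ∑ v ∈ range n, Lg q n α (v + s) a b = Wg q n α a b := by
  rw [Wg]
  exact Cvx.sum_shift (fun v => Lg q n α v a b) n (fun v => Lg_per h α v a b) s

theorem poly_large (h : ℕ) (N : ℕ) (hc : CP (fun i => co (q i)) (h * N)) (hn : 3 ≤ h * N)
    (hh : 1 ≤ h) {α : ℝ} (hα : α < Real.pi) (t : ℕ) (ht : 2 ≤ t)
    (hm : 2 * Real.pi ≤ (3 * (h : ℝ) - t + 1) * (Real.pi - α)) {x a b c : ℕ} (ha : 0 < a) (hb : 0 < b)
    (hcp : 0 < c) (habc : a + b + c = N) :
    t ≤ ∑ j ∈ range h, (Lg q (h * N) α (x + (j * N + a)) a b +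
      Lg q (h * N) α (x + (j * N + a + b)) b c + Lg q (h * N) α (x + (j + 1) * N) c a) := by
  have hz := zz_mono (x := x) ha hb (by omega : a + b < N)
  have h1 := poly_sum hc hn hz (m := 3 * h) (by omega) (fun i => zz_per x a b N h i)
  have hNn : N ≤ h * N := Nat.le_mul_of_pos_left N hh
  have h2 := many_large (3 * h) t (fun i => ag q (zz x a b N (i + 1))
    (zz x a b N (i + 2) - zz x a b N (i + 1)) (zz x a b N i + h * N - zz x a b N (i + 1))) (by
      intro i _
      have m1 : zz x a b N i < zz x a b N (i + 1) := hz (by omega)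
      have m2 : zz x a b N (i + 1) < zz x a b N (i + 2) := hz (by omega)
      have m3 : zz x a b N (i + 2) < zz x a b N (i + 3 * h) := hz (by omega)
      rw [zz_per] at m3
      exact ag_lt_pi hc hn (by omega) (by omega) (by omega)) h1 (α := α) ht hα (by
      push_cast
      exact hm)
  rw [sum_range_three] at h2
  refine h2.trans (le_of_eq (sum_congr rfl fun j _ => ?_))
  have e3 : 3 * j + 3 = 3 * (j + 1) := by ring
  have e4 : 3 * j + 4 = 3 * (j + 1) + 1 := by ring
  have hj : (j + 1) * N = j * N + N := by ring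
  simp only [Lg]
  rw [show 3 * j + 1 + 1 = 3 * j + 2 from rfl, show 3 * j + 2 + 1 = 3 * j + 3 from rfl,
    show 3 * j + 1 + 2 = 3 * j + 3 from rfl, show 3 * j + 2 + 2 = 3 * j + 4 from rfl, e3, e4, zz0, zz1,
    zz2, zz0, zz1]
  have b1 : x + j * N + (a + b) - (x + j * N + a) = b := by omega
  have b2 : x + j * N + h * N - (x + j * N + a) = h * N - a := by omega
  have b3 : x + (j + 1) * N - (x + j * N + (a + b)) = c := by omega
  have b4 : x + j * N + a + h * N - (x + j * N + (a + b)) = h * N - b := by omega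
  have b5 : x + (j + 1) * N + a - (x + (j + 1) * N) = a := by omega
  have b6 : x + j * N + (a + b) + h * N - (x + (j + 1) * N) = h * N - c := by omega
  have b7 : x + (j * N + a) = x + j * N + a := by ring
  have b8 : x + (j * N + a + b) = x + j * N + (a + b) := by ring
  rw [b1, b2, b3, b4, b5, b6, b7, b8]

theorem Wg_three (h : ℕ) (N : ℕ) (hc : CP (fun i => co (q i)) (h * N)) (hn : 3 ≤ h * N)
    (hh : 1 ≤ h) {α : ℝ} (hα : α < Real.pi) (t : ℕ) (ht : 2 ≤ t)
    (hm : 2 * Real.pi ≤ (3 * (h : ℝ) - t + 1) * (Real.pi - α)) {a b c : ℕ} (ha : 0 < a) (hb : 0 < b)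
    (hcp : 0 < c) (habc : a + b + c = N) :
    t * N ≤ Wg q (h * N) α a b + Wg q (h * N) α b c + Wg q (h * N) α c a := by
  have h1 : ∑ x ∈ range (h * N), t ≤ ∑ x ∈ range (h * N), ∑ j ∈ range h,
      (Lg q (h * N) α (x + (j * N + a)) a b +
      Lg q (h * N) α (x + (j * N + a + b)) b c + Lg q (h * N) α (x + (j + 1) * N) c a) :=
    sum_le_sum fun x _ => poly_large h N hc hn hh hα t ht hm ha hb hcp habc
  rw [sum_comm, sum_const, card_range, smul_eq_mul] at h1
  have h2 : ∑ j ∈ range h, ∑ x ∈ range (h * N),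
      (Lg q (h * N) α (x + (j * N + a)) a b +
      Lg q (h * N) α (x + (j * N + a + b)) b c + Lg q (h * N) α (x + (j + 1) * N) c a) =
      h * (Wg q (h * N) α a b + Wg q (h * N) α b c + Wg q (h * N) α c a) := by
    rw [sum_congr rfl (g := fun _ => Wg q (h * N) α a b + Wg q (h * N) α b c + Wg q (h * N) α c a),
      sum_const, card_range, smul_eq_mul]
    intro j _
    rw [sum_add_distrib, sum_add_distrib, Wg_shift hc, Wg_shift hc, Wg_shift hc]
  rw [h2] at h1
  have h3 : h * (t * N) ≤ h * (Wg q (h * N) α a b + Wg q (h * N) α b c + Wg q (h * N) α c a) := by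
    calc h * (t * N) = h * N * t := by ring
      _ ≤ _ := h1
  exact Nat.le_of_mul_le_mul_left h3 hh

/-- the gap pairs -/
def Dg (N : ℕ) : Finset (ℕ × ℕ) :=
  (range N ×ˢ range N).filter fun t => 0 < t.1 ∧ 0 < t.2 ∧ t.1 + t.2 < N

theorem mem_Dg {N : ℕ} {t : ℕ × ℕ} : t ∈ Dg N ↔ 0 < t.1 ∧ 0 < t.2 ∧ t.1 + t.2 < N := by
  unfold Dg
  rw [mem_filter, mem_product, mem_range, mem_range]
  constructor
  · rintro ⟨-, h⟩
    exact h
  · rintro ⟨h1, h2, h3⟩
    exact ⟨⟨by omega, by omega⟩, h1, h2, h3⟩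

theorem sum_Dg_rot (N : ℕ) (f : ℕ → ℕ → ℕ) :
    ∑ t ∈ Dg N, f t.2 (N - t.1 - t.2) = ∑ t ∈ Dg N, f t.1 t.2 := by
  refine sum_nbij' (fun t => (t.2, N - t.1 - t.2)) (fun t => (N - t.1 - t.2, t.1)) ?_ ?_ ?_ ?_ ?_
  · rintro ⟨a, b⟩ h
    rw [mem_Dg] at h ⊢
    simp only at h ⊢
    omega
  · rintro ⟨a, b⟩ h
    rw [mem_Dg] at h ⊢
    simp only at h ⊢
    omega
  · rintro ⟨a, b⟩ h
    rw [mem_Dg] at h
    simp only at h ⊢
    rw [Prod.mk.injEq]
    omega
  · rintro ⟨a, b⟩ h
    rw [mem_Dg] at h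
    simp only at h ⊢
    rw [Prod.mk.injEq]
    omega
  · rintro ⟨a, b⟩ _
    rfl

theorem two_card_Dg (N : ℕ) : (N - 1) * (N - 2) = 2 * (Dg N).card := by
  have h1 : (Dg N).card = ∑ a ∈ range (N - 1), a := by
    have e1 : Dg N = ((range (N - 1)).sigma (fun a => range a)).image
        (fun t => (t.2 + 1, N - 1 - t.1)) := by
      ext ⟨a, b⟩
      rw [mem_Dg, mem_image]
      simp only [mem_sigma, mem_range, Prod.mk.injEq, Sigma.exists]
      constructor
      · rintro ⟨h1, h2, h3⟩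
        exact ⟨N - 1 - b, a - 1, by omega, by omega, by omega⟩
      · rintro ⟨c, d, ⟨h1, h2⟩, h3, h4⟩
        omega
    rw [e1, card_image_of_injOn, card_sigma]
    · simp only [card_range]
    · rintro ⟨c, d⟩ h ⟨c', d'⟩ h' he
      simp only [coe_sigma, Set.mem_sigma_iff, mem_coe, mem_range] at h h'
      simp only [Prod.mk.injEq] at he
      have e1 : d = d' := by omega
      have e2 : c = c' := by omega
      subst e1
      subst e2
      rfl
  rw [h1, mul_comm 2, sum_range_id_mul_two]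
  rw [Nat.sub_sub]

open Classical in
theorem card_Sm_ge (h : ℕ) (N : ℕ) (hc : CP (fun i => co (q i)) (h * N)) (hn : 3 ≤ h * N)
    (hh : 1 ≤ h) {α : ℝ} (hα : α < Real.pi) (t : ℕ) (ht : 2 ≤ t)
    (hm : 2 * Real.pi ≤ (3 * (h : ℝ) - t + 1) * (Real.pi - α)) :
    t * N * ((N - 1) * (N - 2)) ≤
      6 * (Sm (h * N) fun x d e => ag q x d e ∈ Set.Ioi α).card := by
  have h1 : ∑ s ∈ Dg N, t * N ≤ ∑ s ∈ Dg N, (Wg q (h * N) α s.1 s.2 +
      Wg q (h * N) α s.2 (N - s.1 - s.2) + Wg q (h * N) α (N - s.1 - s.2) s.1) := by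
    refine sum_le_sum fun s hs => ?_
    rw [mem_Dg] at hs
    exact Wg_three h N hc hn hh hα t ht hm hs.1 hs.2.1 (by omega) (by omega)
  have h2 := sum_Dg_rot N (fun a b => Wg q (h * N) α a b)
  have h3 : ∑ s ∈ Dg N, Wg q (h * N) α (N - s.1 - s.2) s.1 =
      ∑ s ∈ Dg N, Wg q (h * N) α s.1 s.2 := by
    have h4 := sum_Dg_rot N (fun a b => Wg q (h * N) α (N - a - b) a)
    rw [← h4]
    refine sum_congr rfl fun s hs => ?_
    rw [mem_Dg] at hs
    have : N - s.2 - (N - s.1 - s.2) = s.1 := by omega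
    simp only [this]
  rw [sum_add_distrib, sum_add_distrib, h2, h3, sum_const, smul_eq_mul] at h1
  have h5 : ∑ s ∈ Dg N, Wg q (h * N) α s.1 s.2 ≤
      (Sm (h * N) fun x d e => ag q x d e ∈ Set.Ioi α).card := by
    have e1 : ∑ s ∈ Dg N, Wg q (h * N) α s.1 s.2 =
        ((Dg N ×ˢ range (h * N)).filter fun s => α < ag q s.2 s.1.2 (h * N - s.1.1)).card := by
      rw [card_filter, sum_product]
      rfl
    rw [e1]
    have hNn : N ≤ h * N := Nat.le_mul_of_pos_left N hh
    refine card_le_card_of_injOn (fun s => (s.2, s.1.2, h * N - s.1.1)) ?_ ?_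
    · rintro ⟨⟨a, b⟩, v⟩ hs
      rw [mem_coe, mem_filter, mem_product, mem_Dg, mem_range] at hs
      obtain ⟨⟨⟨h6, h7, h8⟩, h9⟩, h10⟩ := hs
      simp only at h6 h7 h8 h9 h10
      unfold Sm
      rw [mem_coe, mem_filter, mem_product, mem_product, mem_range, mem_range, mem_range]
      refine ⟨⟨h9, ?_, ?_⟩, ⟨?_, ?_⟩, h10⟩
      · show b < h * N
        omega
      · show h * N - a < h * N
        omega
      · show 0 < b
        omega
      · show b < h * N - a
        omega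
    · rintro ⟨⟨a, b⟩, v⟩ hs ⟨⟨a', b'⟩, v'⟩ hs' he
      rw [mem_coe, mem_filter, mem_product, mem_Dg, mem_range] at hs hs'
      obtain ⟨⟨⟨h6, h7, h8⟩, h9⟩, -⟩ := hs
      obtain ⟨⟨⟨h6', h7', h8'⟩, h9'⟩, -⟩ := hs'
      simp only [Prod.mk.injEq] at he h6 h7 h8 h9 h6' h7' h8' h9' ⊢
      omega
  have h6 := two_card_Dg N
  calc t * N * ((N - 1) * (N - 2)) = 2 * ((Dg N).card * (t * N)) := by rw [h6]; ring
    _ ≤ 2 * (∑ s ∈ Dg N, Wg q (h * N) α s.1 s.2 + ∑ s ∈ Dg N, Wg q (h * N) α s.1 s.2 +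
        ∑ s ∈ Dg N, Wg q (h * N) α s.1 s.2) := Nat.mul_le_mul_left 2 h1
    _ ≤ 6 * (Sm (h * N) fun x d e => ag q x d e ∈ Set.Ioi α).card := by omega

end Pool.Agent.MP_0af329_co.CG
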