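import Pool.Agent.MP_0af329_co.CF2

/-!
# Lower bounds for `FC`
-/

set_option autoImplicit false

namespace Pool.Agent.MP_0af329_co

open Filter Topology Finset EuclideanGeometry
open Pool.Agent.MP_0af329_co.Cvx (ConvexPos minCntC)

theorem CG.three_cnt_Ioi_ge {S : Finset Pt} (hS : ConvexPos S) (h : ℕ) (N : ℕ)
    (hN : h * N ≤ S.card) (hh : 1 ≤ h) {α : ℝ} (hα : α < Real.pi) (t : ℕ) (ht : 2 ≤ t)
    (hm : 2 * Real.pi ≤ (3 * (h : ℝ) - t + 1) * (Real.pi - α)) :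
    t * N * ((N - 1) * (N - 2)) ≤ 3 * cnt S (Set.Ioi α) := by
  classical
  rcases Nat.lt_or_ge N 3 with h3 | h3
  · interval_cases N <;> simp
  · obtain ⟨S', hS', hc⟩ := Finset.exists_subset_card_eq hN
    have hcv : ConvexPos S' := Cvx.ConvexPos.mono hS hS'
    have h4 : 3 ≤ h * N := le_trans h3 (Nat.le_mul_of_pos_left N hh)
    obtain ⟨q, h1, h2, -, -⟩ := Cvx.exists_CP S' (QU.genPos_of_convexPos hcv) hcv (hc ▸ h4)
    rw [hc] at h1
    have h5 := CG.card_Sm_ge h N h1 h4 hh hα t ht hm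
    have h6 := CG.two_card_Sm_le h1 h4 h2 (Set.Ioi α)
    have h7 := Cvx.cnt_mono_left hS' (Set.Ioi α)
    omega

theorem le_FC_of_poly (h t : ℕ) (hh : 1 ≤ h) (ht : 2 ≤ t) {α : ℝ} (hα : α < Real.pi)
    (hm : 2 * Real.pi ≤ (3 * (h : ℝ) - t + 1) * (Real.pi - α)) :
    (t : ℝ) / (3 * (h : ℝ) ^ 3) ≤ FC α := by
  refine le_densC _ _ (2 * t / (h : ℝ) ^ 2) ?_
  intro S hS h3
  have hhR : (0 : ℝ) < h := by exact_mod_cast hh
  set n := S.card with hn
  set N := n / h with hNd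
  have h1 : h * N ≤ n := Nat.mul_div_le n h
  have h2 : n < h * (N + 1) := Nat.lt_mul_div_succ n hh
  have h4 := CG.three_cnt_Ioi_ge hS h N h1 hh hα t ht hm
  have h5 : (t : ℝ) * (N * ((N - 1) * (N - 2))) ≤ 3 * cnt S (Set.Ioi α) := by
    rcases Nat.lt_or_ge N 2 with h6 | h6
    · have : (N : ℝ) * (((N : ℝ) - 1) * ((N : ℝ) - 2)) = 0 := by
        interval_cases N <;> norm_num
      rw [this, mul_zero]
      positivity
    · have e1 : ((N - 1 : ℕ) : ℝ) = (N : ℝ) - 1 := by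
        rw [Nat.cast_sub (by omega)]
        norm_num
      have e2 : ((N - 2 : ℕ) : ℝ) = (N : ℝ) - 2 := by
        rw [Nat.cast_sub (by omega)]
        norm_num
      have h7 : ((t * N * ((N - 1) * (N - 2)) : ℕ) : ℝ) ≤ ((3 * cnt S (Set.Ioi α) : ℕ) : ℝ) := by
        exact_mod_cast h4
      push_cast at h7
      rw [e1, e2] at h7
      linarith
  set r : ℝ := n / h with hr
  have hnr : (n : ℝ) = r * h := (div_mul_cancel₀ _ hhR.ne').symm
  have hr0 : 0 < r := by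
    rw [hr]
    have : (0 : ℝ) < n := by
      have : 0 < n := by omega
      exact_mod_cast this
    exact div_pos this hhR
  have hrN : r < N + 1 := by
    rw [hr, div_lt_iff₀ hhR]
    have : (n : ℝ) < (h : ℝ) * ((N : ℝ) + 1) := by exact_mod_cast h2
    linarith
  have hNN : (0 : ℝ) ≤ N * (((N : ℝ) - 1) * ((N : ℝ) - 2)) := by
    rcases Nat.lt_or_ge N 2 with h6 | h6
    · interval_cases N <;> norm_num
    · have : (2 : ℝ) ≤ N := by exact_mod_cast h6
      exact mul_nonneg (by linarith) (mul_nonneg (by linarith) (by linarith))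
  have key : r ^ 3 - 6 * r ^ 2 ≤ N * (((N : ℝ) - 1) * ((N : ℝ) - 2)) := by
    rcases le_or_gt r 6 with h6 | h6
    · have : r ^ 3 - 6 * r ^ 2 = r ^ 2 * (r - 6) := by ring
      have h7 : r ^ 2 * (r - 6) ≤ 0 := mul_nonpos_of_nonneg_of_nonpos (sq_nonneg r) (by linarith)
      linarith
    · have h7 : r - 1 ≤ N := by linarith
      have h8 : (r - 2) * (r - 3) ≤ ((N : ℝ) - 1) * ((N : ℝ) - 2) :=
        mul_le_mul (by linarith) (by linarith) (by linarith) (by linarith)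
      have h9 : (r - 1) * ((r - 2) * (r - 3)) ≤ N * (((N : ℝ) - 1) * ((N : ℝ) - 2)) :=
        mul_le_mul h7 h8 (mul_nonneg (by linarith) (by linarith)) (by linarith)
      have h10 : (r - 1) * ((r - 2) * (r - 3)) = r ^ 3 - 6 * r ^ 2 + 11 * r - 6 := by ring
      linarith
  have htR : (0 : ℝ) ≤ t := by positivity
  have key2 := mul_le_mul_of_nonneg_left key htR
  have h8 : (t : ℝ) / (3 * (h : ℝ) ^ 3) * ((n : ℝ) * ((n : ℝ) - 1) * ((n : ℝ) - 2)) ≤
      (t : ℝ) / (3 * (h : ℝ) ^ 3) * (n : ℝ) ^ 3 := by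
    refine mul_le_mul_of_nonneg_left ?_ (by positivity)
    have h3R : (3 : ℝ) ≤ n := by exact_mod_cast h3
    nlinarith
  have h9 : (t : ℝ) / (3 * (h : ℝ) ^ 3) * (n : ℝ) ^ 3 = t * r ^ 3 / 3 := by
    rw [hnr]
    field_simp
  have h10 : 2 * (t : ℝ) / (h : ℝ) ^ 2 * (n : ℝ) ^ 2 = 2 * t * r ^ 2 := by
    rw [hnr]
    field_simp
  rw [h9] at h8
  rw [h10]
  linarith

/-- `FC ≥ 1 / (3 h²)` up to and including `π - 2π/(2h+1)`, for `h ≥ 2` -/
theorem le_FC_odd' (h : ℕ) (hh : 2 ≤ h) {α : ℝ} (hα : α ≤ Real.pi - 2 * Real.pi / (2 * h + 1)) :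
    1 / (3 * (h : ℝ) ^ 2) ≤ FC α := by
  have hpi := Real.pi_pos
  have hhR : (2 : ℝ) ≤ h := by exact_mod_cast hh
  have h1 : 0 < 2 * Real.pi / (2 * h + 1) := by positivity
  have h2 := le_FC_of_poly h h (by omega) hh (α := α) (by linarith) (by
    have h3 : (2 * (h : ℝ) + 1) * (2 * Real.pi / (2 * h + 1)) = 2 * Real.pi := by
      field_simp
    have h4 : (2 * (h : ℝ) + 1) * (2 * Real.pi / (2 * h + 1)) ≤
        (2 * (h : ℝ) + 1) * (Real.pi - α) :=
      mul_le_mul_of_nonneg_left (by linarith) (by linarith)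
    have h5 : (3 * (h : ℝ) - h + 1) = 2 * h + 1 := by ring
    rw [h5]
    linarith)
  have h3 : (h : ℝ) / (3 * (h : ℝ) ^ 3) = 1 / (3 * (h : ℝ) ^ 2) := by
    field_simp
  rw [← h3]
  exact h2

/-- `FC ≥ (h + 1) / (3 h³)` up to and including `π - π/h`, for `h ≥ 1` -/
theorem le_FC_even (h : ℕ) (hh : 1 ≤ h) {α : ℝ} (hα : α ≤ Real.pi - Real.pi / h) :
    ((h : ℝ) + 1) / (3 * (h : ℝ) ^ 3) ≤ FC α := by
  have hpi := Real.pi_pos
  have hhR : (1 : ℝ) ≤ h := by exact_mod_cast hh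
  have h1 : 0 < Real.pi / h := by positivity
  have h2 := le_FC_of_poly h (h + 1) hh (by omega) (α := α) (by linarith) (by
    have h3 : (2 * (h : ℝ)) * (Real.pi / h) = 2 * Real.pi := by
      field_simp
    have h4 : (2 * (h : ℝ)) * (Real.pi / h) ≤ (2 * (h : ℝ)) * (Real.pi - α) :=
      mul_le_mul_of_nonneg_left (by linarith) (by linarith)
    push_cast
    have h5 : (3 * (h : ℝ) - (h + 1) + 1) = 2 * h := by ring
    rw [h5]
    linarith)
  push_cast at h2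
  exact h2

/-- `FC ≤ 1 / (3 h²)` after `π - π/h`, for `h ≥ 1` -/
theorem FC_le_even (h : ℕ) (hh : 1 ≤ h) {α : ℝ} (hα : Real.pi - Real.pi / h < α) :
    FC α ≤ 1 / (3 * (h : ℝ) ^ 2) := by
  refine densC_le _ _ h hh fun m hm => ?_
  obtain ⟨S, h1, h2, h3⟩ := CG.exists_large h (h * m) hh α hα
  refine ⟨S, h1, h2, ?_⟩
  have h4 : h * m % h = 0 := Nat.mul_mod_right h m
  have h5 : h * m / h = m := Nat.mul_div_cancel_left m hh
  rw [h4, h5, zero_mul, zero_add, Nat.sub_zero] at h3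
  have h6 : ((cnt S (Set.Ioi α) : ℕ) : ℝ) ≤ ((2 * (h * m.choose 3) : ℕ) : ℝ) := by
    exact_mod_cast h3
  have h7 : (m.choose 3 : ℝ) ≤ (m : ℝ) ^ 3 / 6 := by
    have := Nat.choose_le_pow_div (α := ℝ) 3 m
    have h8 : ((Nat.factorial 3 : ℕ) : ℝ) = 6 := by norm_num [Nat.factorial]
    rwa [h8] at this
  have hhR : (1 : ℝ) ≤ h := by exact_mod_cast hh
  push_cast at h6
  calc (cnt S (Set.Ioi α) : ℝ) ≤ 2 * (h * (m.choose 3 : ℝ)) := h6
    _ ≤ 2 * (h * ((m : ℝ) ^ 3 / 6)) := by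
        refine mul_le_mul_of_nonneg_left ?_ (by norm_num)
        exact mul_le_mul_of_nonneg_left h7 (by linarith)
    _ = 1 / (3 * (h : ℝ) ^ 2) * ((h : ℝ) * m) ^ 3 := by
        field_simp
        ring

end Pool.Agent.MP_0af329_co
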