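import Pool.Agent.MP_0af329_co.CF3

/-!
# `FC ≥ 1/3` up to `π/3`
-/

set_option autoImplicit false

namespace Pool.Agent.MP_0af329_co

open Filter Topology Finset EuclideanGeometry
open Pool.Agent.MP_0af329_co.Cvx (ConvexPos minCntC)

theorem cnt_union_le (S : Finset Pt) (A B : Set ℝ) : cnt S (A ∪ B) ≤ cnt S A + cnt S B := by
  classical
  have h1 : (cnt S (A ∪ B) : ℝ) ≤ cnt S A + cnt S B := by
    rw [cnt_eq_sum, cnt_eq_sum, cnt_eq_sum, ← sum_add_distrib]
    refine sum_le_sum fun t _ => ?_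
    by_cases h2 : ∠ t.1 t.2.1 t.2.2 ∈ A
    · rw [if_pos (Set.mem_union_left B h2), if_pos h2]
      split_ifs <;> norm_num
    · by_cases h3 : ∠ t.1 t.2.1 t.2.2 ∈ B
      · rw [if_pos (Set.mem_union_right A h3), if_pos h3]
        split_ifs <;> norm_num
      · rw [if_neg (fun h => h.elim h2 h3), if_neg h2, if_neg h3]
        norm_num
  exact_mod_cast h1

theorem card_trip_le_Ici (S : Finset Pt) {α : ℝ} (hα : α ≤ Real.pi / 3) :
    ((trip S).card : ℝ) ≤ 3 * cnt S (Set.Ici α) := by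
  classical
  have h1 : ((trip S).card : ℝ) ≤ ∑ t ∈ trip S,
      ((if ∠ t.1 t.2.1 t.2.2 ∈ Set.Ici α then (1 : ℝ) else 0) +
      (if ∠ t.2.1 t.2.2 t.1 ∈ Set.Ici α then (1 : ℝ) else 0) +
      (if ∠ t.2.2 t.1 t.2.1 ∈ Set.Ici α then (1 : ℝ) else 0)) := by
    rw [card_eq_sum_ones]
    push_cast
    refine sum_le_sum ?_
    rintro ⟨x, y, z⟩ ht
    rw [mem_trip] at ht
    have h2 := EuclideanGeometry.angle_add_angle_add_angle_eq_pi (p₁ := x) (p₂ := y) z
      ht.2.1.symm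
    simp only [Set.mem_Ici]
    by_contra hc
    push Not at hc
    have h3 : ¬ α ≤ ∠ x y z := by
      intro h
      rw [if_pos h] at hc
      have : (0 : ℝ) ≤ (if α ≤ ∠ y z x then (1 : ℝ) else 0) := by split_ifs <;> norm_num
      have : (0 : ℝ) ≤ (if α ≤ ∠ z x y then (1 : ℝ) else 0) := by split_ifs <;> norm_num
      linarith
    have h4 : ¬ α ≤ ∠ y z x := by
      intro h
      rw [if_pos h] at hc
      have : (0 : ℝ) ≤ (if α ≤ ∠ x y z then (1 : ℝ) else 0) := by split_ifs <;> norm_num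
      have : (0 : ℝ) ≤ (if α ≤ ∠ z x y then (1 : ℝ) else 0) := by split_ifs <;> norm_num
      linarith
    have h5 : ¬ α ≤ ∠ z x y := by
      intro h
      rw [if_pos h] at hc
      have : (0 : ℝ) ≤ (if α ≤ ∠ x y z then (1 : ℝ) else 0) := by split_ifs <;> norm_num
      have : (0 : ℝ) ≤ (if α ≤ ∠ y z x then (1 : ℝ) else 0) := by split_ifs <;> norm_num
      linarith
    push Not at h3 h4 h5
    linarith
  rw [sum_add_distrib, sum_add_distrib] at h1
  have e1 : (cnt S (Set.Ici α) : ℝ) =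
      ∑ t ∈ trip S, (if ∠ t.2.1 t.2.2 t.1 ∈ Set.Ici α then (1 : ℝ) else 0) := by
    rw [cnt_eq_sum]
    exact sum_trip_rot S (fun x y z => if ∠ x y z ∈ Set.Ici α then (1 : ℝ) else 0)
  have e2 : ∑ t ∈ trip S, (if ∠ t.2.1 t.2.2 t.1 ∈ Set.Ici α then (1 : ℝ) else 0) =
      ∑ t ∈ trip S, (if ∠ t.2.2 t.1 t.2.1 ∈ Set.Ici α then (1 : ℝ) else 0) :=
    sum_trip_rot S (fun x y z => if ∠ y z x ∈ Set.Ici α then (1 : ℝ) else 0)
  rw [← e2, ← e1, ← cnt_eq_sum] at h1
  linarith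

theorem le_FC_third {α : ℝ} (hα : α ≤ Real.pi / 3) : 1 / 3 ≤ FC α := by
  refine le_densC _ _ 2 ?_
  intro S hS h3
  have h1 := card_trip_le_Ici S hα
  have h2 := cnt_singleton_le (QU.genPos_of_convexPos hS) α
  have h4 : (cnt S (Set.Ici α) : ℝ) ≤ cnt S (Set.Ioi α) + cnt S {α} := by
    rw [← Set.Ioi_union_left]
    exact_mod_cast cnt_union_le S (Set.Ioi α) {α}
  rw [card_trip] at h1
  linarith

/-- the exact value of `FC` on `(π - π/h, π - 2π/(2h+1)]` -/
theorem FC_eq (h : ℕ) (hh : 1 ≤ h) {α : ℝ} (h1 : Real.pi - Real.pi / h < α)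
    (h2 : α ≤ Real.pi - 2 * Real.pi / (2 * h + 1)) : FC α = 1 / (3 * (h : ℝ) ^ 2) := by
  refine le_antisymm (FC_le_even h hh h1) ?_
  rcases Nat.eq_or_lt_of_le hh with h3 | h3
  · subst h3
    have h4 : α ≤ Real.pi / 3 := by
      push_cast at h2
      linarith
    have h5 := le_FC_third h4
    push_cast
    linarith
  · exact le_FC_odd' h h3 h2

theorem FC_anti : Antitone FC := fun _ _ h => densC_mono (Set.Ioi_subset_Ioi h)

theorem not_continuousAt_FC {α c : ℝ} (h : ∀ x, α < x → FC x ≤ c) (hc : c < FC α) :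
    ¬ ContinuousAt FC α := by
  intro hcont
  have h1 : Tendsto FC (𝓝[>] α) (𝓝 (FC α)) := hcont.tendsto.mono_left nhdsWithin_le_nhds
  have h2 : FC α ≤ c := by
    refine le_of_tendsto h1 ?_
    filter_upwards [self_mem_nhdsWithin] with x hx
    exact h x hx
  linarith

/-- `FC` is discontinuous at `π - π/h` for every `h ≥ 2` -/
theorem not_continuousAt_FC_even (h : ℕ) (hh : 1 ≤ h) :
    ¬ ContinuousAt FC (Real.pi - Real.pi / h) := by
  have hhR : (1 : ℝ) ≤ h := by exact_mod_cast hh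
  refine not_continuousAt_FC (fun x hx => FC_le_even h hh hx) ?_
  refine lt_of_lt_of_le ?_ (le_FC_even h hh le_rfl)
  rw [div_lt_div_iff₀ (by positivity) (by positivity)]
  nlinarith [pow_pos (lt_of_lt_of_le zero_lt_one hhR) 3, pow_pos (lt_of_lt_of_le zero_lt_one hhR) 2]

end Pool.Agent.MP_0af329_co
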