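import Pool.Agent.MP_0af329_co.CF4

/-!
# Clusters at the vertices of a convex polygon
-/

set_option autoImplicit false

namespace Pool.Agent.MP_0af329_co.CF

open Filter Topology EuclideanGeometry
open Pool.Agent.MP_0af329_co.Cvx (ConvexPos)

/-- rotation by ninety degrees -/
noncomputable def rt (u : Pt) : Pt := !₂[-u 1, u 0]

@[simp] theorem rt0 (u : Pt) : rt u 0 = -u 1 := by simp [rt]
@[simp] theorem rt1 (u : Pt) : rt u 1 = u 0 := by simp [rt]

/-- inner product in coordinates -/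
def dp (x y : Pt) : ℝ := x 0 * y 0 + x 1 * y 1

variable {ι : Type}

/-- the points of the clusters -/
noncomputable def cp (A u : ι → Pt) (m : ℕ) (ε : ℝ) (x : ι × Fin m) : Pt :=
  A x.1 + (ε * ((x.2 : ℕ) : ℝ)) • u x.1 + ((ε * ((x.2 : ℕ) : ℝ)) ^ 2) • rt (u x.1)

theorem cp_c (A u : ι → Pt) (m : ℕ) (ε : ℝ) (x : ι × Fin m) (k : Fin 2) :
    cp A u m ε x k = A x.1 k + (ε * ((x.2 : ℕ) : ℝ)) * u x.1 k +
      ((ε * ((x.2 : ℕ) : ℝ)) ^ 2) * rt (u x.1) k := rfl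

theorem cp_cont (A u : ι → Pt) (m : ℕ) (x : ι × Fin m) : Continuous fun ε => cp A u m ε x := by
  unfold cp
  exact (continuous_const.add ((continuous_id.mul continuous_const).smul continuous_const)).add
    (((continuous_id.mul continuous_const).pow 2).smul continuous_const)

theorem cp_tendsto (A u : ι → Pt) (m : ℕ) (x : ι × Fin m) :
    Tendsto (fun ε => cp A u m ε x) (𝓝[>] 0) (𝓝 (A x.1)) := by
  have h1 := (cp_cont A u m x).tendsto 0
  have h2 : cp A u m 0 x = A x.1 := by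
    unfold cp
    simp
  rw [h2] at h1
  exact h1.mono_left nhdsWithin_le_nhds

theorem tendsto_angle_diff (A u : ι → Pt) (m : ℕ) (x y z : ι × Fin m) (h1 : A x.1 ≠ A y.1)
    (h2 : A z.1 ≠ A y.1) :
    Tendsto (fun ε => ∠ (cp A u m ε x) (cp A u m ε y) (cp A u m ε z)) (𝓝[>] 0)
      (𝓝 (∠ (A x.1) (A y.1) (A z.1))) := by
  have h3 := EuclideanGeometry.continuousAt_angle (x := (A x.1, A y.1, A z.1)) h1 h2
  have h4 : Tendsto (fun ε => (cp A u m ε x, cp A u m ε y, cp A u m ε z)) (𝓝[>] 0)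
      (𝓝 (A x.1, A y.1, A z.1)) := (cp_tendsto A u m x).prodMk_nhds
    ((cp_tendsto A u m y).prodMk_nhds (cp_tendsto A u m z))
  have h5 := h3.tendsto.comp h4
  exact h5.congr fun ε => rfl

theorem cp_sub (A u : ι → Pt) (m : ℕ) (ε : ℝ) (j : ι) (s t : Fin m) :
    cp A u m ε (j, s) - cp A u m ε (j, t) = (ε * (((s : ℕ) : ℝ) - ((t : ℕ) : ℝ))) •
      (u j + (ε * (((s : ℕ) : ℝ) + ((t : ℕ) : ℝ))) • rt (u j)) := by
  ext k
  show cp A u m ε (j, s) k - cp A u m ε (j, t) k = _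
  rw [cp_c, cp_c]
  show _ = (ε * (((s : ℕ) : ℝ) - ((t : ℕ) : ℝ))) *
      (u j k + (ε * (((s : ℕ) : ℝ) + ((t : ℕ) : ℝ))) * rt (u j) k)
  ring

theorem dir_tendsto (u : ι → Pt) (j : ι) (c : ℝ) :
    Tendsto (fun ε : ℝ => u j + (ε * c) • rt (u j)) (𝓝[>] 0) (𝓝 (u j)) := by
  have h1 : Continuous fun ε : ℝ => u j + (ε * c) • rt (u j) :=
    continuous_const.add ((continuous_id.mul continuous_const).smul continuous_const)
  have h2 := h1.tendsto 0
  simp only [zero_mul, zero_smul, add_zero] at h2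
  exact h2.mono_left nhdsWithin_le_nhds

theorem tendsto_angle_gt (A u : ι → Pt) (m : ℕ) (j : ι) (s t : Fin m) (z : ι × Fin m) (hst : t < s)
    (hu : u j ≠ 0) (h2 : A z.1 ≠ A j) :
    Tendsto (fun ε => ∠ (cp A u m ε (j, s)) (cp A u m ε (j, t)) (cp A u m ε z)) (𝓝[>] 0)
      (𝓝 (InnerProductGeometry.angle (u j) (A z.1 - A j))) := by
  have h3 := InnerProductGeometry.continuousAt_angle (x := (u j, A z.1 - A j)) hu (sub_ne_zero.2 h2)
  have h4 : Tendsto (fun ε => (u j + (ε * (((s : ℕ) : ℝ) + ((t : ℕ) : ℝ))) • rt (u j),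
      cp A u m ε z - cp A u m ε (j, t))) (𝓝[>] 0) (𝓝 (u j, A z.1 - A j)) :=
    (dir_tendsto u j _).prodMk_nhds ((cp_tendsto A u m z).sub (cp_tendsto A u m (j, t)))
  have h5 := h3.tendsto.comp h4
  refine h5.congr' ?_
  filter_upwards [self_mem_nhdsWithin] with ε hε
  have hε' : 0 < ε := hε
  have h6 : (0 : ℝ) < ((s : ℕ) : ℝ) - ((t : ℕ) : ℝ) := by
    have : ((t : ℕ) : ℝ) < ((s : ℕ) : ℝ) := by exact_mod_cast hst
    linarith
  show InnerProductGeometry.angle _ _ = InnerProductGeometry.angle _ _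
  simp only [vsub_eq_sub]
  rw [cp_sub, InnerProductGeometry.angle_smul_left_of_pos _ _ (mul_pos hε' h6)]

theorem tendsto_angle_lt (A u : ι → Pt) (m : ℕ) (j : ι) (s t : Fin m) (z : ι × Fin m) (hst : s < t)
    (hu : u j ≠ 0) (h2 : A z.1 ≠ A j) :
    Tendsto (fun ε => ∠ (cp A u m ε (j, s)) (cp A u m ε (j, t)) (cp A u m ε z)) (𝓝[>] 0)
      (𝓝 (InnerProductGeometry.angle (-u j) (A z.1 - A j))) := by
  have h3 := InnerProductGeometry.continuousAt_angle (x := (-u j, A z.1 - A j)) (neg_ne_zero.2 hu)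
    (sub_ne_zero.2 h2)
  have h4 : Tendsto (fun ε => (-(u j + (ε * (((s : ℕ) : ℝ) + ((t : ℕ) : ℝ))) • rt (u j)),
      cp A u m ε z - cp A u m ε (j, t))) (𝓝[>] 0) (𝓝 (-u j, A z.1 - A j)) :=
    (dir_tendsto u j _).neg.prodMk_nhds ((cp_tendsto A u m z).sub (cp_tendsto A u m (j, t)))
  have h5 := h3.tendsto.comp h4
  refine h5.congr' ?_
  filter_upwards [self_mem_nhdsWithin] with ε hε
  have hε' : 0 < ε := hε
  have h6 : (0 : ℝ) < ((t : ℕ) : ℝ) - ((s : ℕ) : ℝ) := by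
    have : ((s : ℕ) : ℝ) < ((t : ℕ) : ℝ) := by exact_mod_cast hst
    linarith
  show InnerProductGeometry.angle _ _ = InnerProductGeometry.angle _ _
  simp only [vsub_eq_sub]
  rw [cp_sub]
  have h7 : (ε * (((s : ℕ) : ℝ) - ((t : ℕ) : ℝ))) •
      (u j + (ε * (((s : ℕ) : ℝ) + ((t : ℕ) : ℝ))) • rt (u j)) =
      (ε * (((t : ℕ) : ℝ) - ((s : ℕ) : ℝ))) •
      (-(u j + (ε * (((s : ℕ) : ℝ) + ((t : ℕ) : ℝ))) • rt (u j))) := by
    rw [smul_neg, ← neg_smul]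
    congr 1
    ring
  rw [h7, InnerProductGeometry.angle_smul_left_of_pos _ _ (mul_pos hε' h6)]

theorem angle_same (A u : ι → Pt) (m : ℕ) (j : ι) (s t r : Fin m) (ε : ℝ) (hε : 0 < ε)
    (h : (s < t ∧ r < t) ∨ (t < s ∧ t < r)) :
    ∠ (cp A u m ε (j, s)) (cp A u m ε (j, t)) (cp A u m ε (j, r)) = InnerProductGeometry.angle
      (u j + (ε * (((s : ℕ) : ℝ) + ((t : ℕ) : ℝ))) • rt (u j))
      (u j + (ε * (((r : ℕ) : ℝ) + ((t : ℕ) : ℝ))) • rt (u j)) := by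
  show InnerProductGeometry.angle _ _ = InnerProductGeometry.angle _ _
  simp only [vsub_eq_sub]
  rw [cp_sub, cp_sub]
  rcases h with ⟨h1, h2⟩ | ⟨h1, h2⟩
  · have h3 : ε * (((s : ℕ) : ℝ) - ((t : ℕ) : ℝ)) < 0 := by
      have : ((s : ℕ) : ℝ) < ((t : ℕ) : ℝ) := by exact_mod_cast h1
      exact mul_neg_of_pos_of_neg hε (by linarith)
    have h4 : ε * (((r : ℕ) : ℝ) - ((t : ℕ) : ℝ)) < 0 := by
      have : ((r : ℕ) : ℝ) < ((t : ℕ) : ℝ) := by exact_mod_cast h2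
      exact mul_neg_of_pos_of_neg hε (by linarith)
    rw [InnerProductGeometry.angle_smul_left_of_neg _ _ h3,
      InnerProductGeometry.angle_smul_right_of_neg _ _ h4, InnerProductGeometry.angle_neg_neg]
  · have h3 : 0 < ε * (((s : ℕ) : ℝ) - ((t : ℕ) : ℝ)) := by
      have : ((t : ℕ) : ℝ) < ((s : ℕ) : ℝ) := by exact_mod_cast h1
      exact mul_pos hε (by linarith)
    have h4 : 0 < ε * (((r : ℕ) : ℝ) - ((t : ℕ) : ℝ)) := by
      have : ((t : ℕ) : ℝ) < ((r : ℕ) : ℝ) := by exact_mod_cast h2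
      exact mul_pos hε (by linarith)
    rw [InnerProductGeometry.angle_smul_left_of_pos _ _ h3,
      InnerProductGeometry.angle_smul_right_of_pos _ _ h4]

theorem tendsto_angle_same (A u : ι → Pt) (m : ℕ) (j : ι) (s t r : Fin m)
    (h : (s < t ∧ r < t) ∨ (t < s ∧ t < r)) (hu : u j ≠ 0) :
    Tendsto (fun ε => ∠ (cp A u m ε (j, s)) (cp A u m ε (j, t)) (cp A u m ε (j, r))) (𝓝[>] 0)
      (𝓝 0) := by
  have h3 := InnerProductGeometry.continuousAt_angle (x := (u j, u j)) hu hu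
  have h4 : Tendsto (fun ε => (u j + (ε * (((s : ℕ) : ℝ) + ((t : ℕ) : ℝ))) • rt (u j),
      u j + (ε * (((r : ℕ) : ℝ) + ((t : ℕ) : ℝ))) • rt (u j))) (𝓝[>] 0) (𝓝 (u j, u j)) :=
    (dir_tendsto u j _).prodMk_nhds (dir_tendsto u j _)
  have h5 := h3.tendsto.comp h4
  have h6 : InnerProductGeometry.angle (u j) (u j) = 0 := InnerProductGeometry.angle_self hu
  simp only [h6] at h5
  refine h5.congr' ?_
  filter_upwards [self_mem_nhdsWithin] with ε hε
  exact (angle_same A u m j s t r ε hε h).symm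

/-- the separating functional at `x` -/
noncomputable def sep (A u : ι → Pt) (m : ℕ) (ε : ℝ) (x y : ι × Fin m) : ℝ :=
  dp (cp A u m ε y - cp A u m ε x) (rt (u x.1) - (2 * ε * ((x.2 : ℕ) : ℝ)) • u x.1)

theorem sep_eq (A u : ι → Pt) (m : ℕ) (ε : ℝ) (x y : ι × Fin m) :
    sep A u m ε x y = (cp A u m ε y 0 - cp A u m ε x 0) *
        (-u x.1 1 - (2 * ε * ((x.2 : ℕ) : ℝ)) * u x.1 0) +
      (cp A u m ε y 1 - cp A u m ε x 1) *
        (u x.1 0 - (2 * ε * ((x.2 : ℕ) : ℝ)) * u x.1 1) := by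
  unfold sep dp
  simp only [PiLp.sub_apply, PiLp.smul_apply, smul_eq_mul, rt0, rt1]

theorem sep_same (A u : ι → Pt) (m : ℕ) (ε : ℝ) (j : ι) (s t : Fin m)
    (hu : u j 0 ^ 2 + u j 1 ^ 2 = 1) :
    sep A u m ε (j, s) (j, t) = (ε * (((t : ℕ) : ℝ) - ((s : ℕ) : ℝ))) ^ 2 := by
  rw [sep_eq, cp_c, cp_c, cp_c, cp_c]
  simp only [rt0, rt1]
  calc _ = (ε * (((t : ℕ) : ℝ) - ((s : ℕ) : ℝ))) ^ 2 * (u j 0 ^ 2 + u j 1 ^ 2) := by ring
    _ = _ := by rw [hu, mul_one]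

theorem sep_tendsto (A u : ι → Pt) (m : ℕ) (x y : ι × Fin m) :
    Tendsto (fun ε => sep A u m ε x y) (𝓝[>] 0) (𝓝 (dp (A y.1 - A x.1) (rt (u x.1)))) := by
  have h1 : Continuous fun ε => sep A u m ε x y := by
    have e1 : (fun ε => sep A u m ε x y) = fun ε => (cp A u m ε y 0 - cp A u m ε x 0) *
        (-u x.1 1 - (2 * ε * ((x.2 : ℕ) : ℝ)) * u x.1 0) +
      (cp A u m ε y 1 - cp A u m ε x 1) *
        (u x.1 0 - (2 * ε * ((x.2 : ℕ) : ℝ)) * u x.1 1) := by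
      funext ε
      exact sep_eq A u m ε x y
    rw [e1]
    simp only [cp_c]
    fun_prop
  have h2 := h1.tendsto 0
  have h3 : sep A u m 0 x y = dp (A y.1 - A x.1) (rt (u x.1)) := by
    rw [sep_eq, cp_c, cp_c, cp_c, cp_c]
    unfold dp
    simp
  rw [h3] at h2
  exact h2.mono_left nhdsWithin_le_nhds

theorem exists_clusters [Fintype ι] [DecidableEq ι] (A u : ι → Pt) (m : ℕ) (α : ℝ) (hα : 0 < α)
    (hu : ∀ i, u i 0 ^ 2 + u i 1 ^ 2 = 1)
    (hin : ∀ i j, i ≠ j → 0 < dp (A j - A i) (rt (u i)))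
    (h1 : ∀ i j k, i ≠ j → k ≠ j → ∠ (A i) (A j) (A k) < α) :
    ∃ p : ι × Fin m → Pt, Function.Injective p ∧ ConvexPos (Finset.univ.image p) ∧
      (∀ x y z, x.1 ≠ y.1 → z.1 ≠ y.1 → ∠ (p x) (p y) (p z) < α) ∧
      (∀ x y z, x.1 = y.1 → z.1 ≠ y.1 → y.2 < x.2 →
        InnerProductGeometry.angle (u y.1) (A z.1 - A y.1) < α → ∠ (p x) (p y) (p z) < α) ∧
      (∀ x y z, x.1 = y.1 → z.1 ≠ y.1 → x.2 < y.2 →
        InnerProductGeometry.angle (-u y.1) (A z.1 - A y.1) < α → ∠ (p x) (p y) (p z) < α) ∧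
      (∀ x y z, x.1 = y.1 → z.1 = y.1 → (x.2 < y.2 ∧ z.2 < y.2) ∨ (y.2 < x.2 ∧ y.2 < z.2) →
        ∠ (p x) (p y) (p z) < α) := by
  have hA : ∀ i j, i ≠ j → A i ≠ A j := by
    intro i j hij h
    have := hin i j hij
    rw [h, sub_self] at this
    simp [dp] at this
  have hu0 : ∀ i, u i ≠ 0 := by
    intro i h
    have := hu i
    rw [h] at this
    simp at this
  have c1 : ∀ᶠ ε in 𝓝[>] (0 : ℝ), ∀ x y : ι × Fin m, x.1 ≠ y.1 → 0 < sep A u m ε x y := by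
    rw [eventually_all]
    intro x
    rw [eventually_all]
    intro y
    by_cases h : x.1 = y.1
    · exact Eventually.of_forall fun ε h' => absurd h h'
    · filter_upwards [(sep_tendsto A u m x y).eventually_const_lt (hin x.1 y.1 h)] with ε hε _
      exact hε
  have c2 : ∀ᶠ ε in 𝓝[>] (0 : ℝ), ∀ x y z : ι × Fin m, x.1 ≠ y.1 → z.1 ≠ y.1 →
      ∠ (cp A u m ε x) (cp A u m ε y) (cp A u m ε z) < α := by
    rw [eventually_all]
    intro x
    rw [eventually_all]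
    intro y
    rw [eventually_all]
    intro z
    by_cases h : x.1 = y.1
    · exact Eventually.of_forall fun ε h' => absurd h h'
    by_cases h' : z.1 = y.1
    · exact Eventually.of_forall fun ε _ h'' => absurd h' h''
    · filter_upwards [(tendsto_angle_diff A u m x y z (hA _ _ h) (hA _ _ h')).eventually_lt_const
        (h1 _ _ _ h h')] with ε hε _ _
      exact hε
  have c3 : ∀ᶠ ε in 𝓝[>] (0 : ℝ), ∀ x y z : ι × Fin m, x.1 = y.1 → z.1 ≠ y.1 → y.2 < x.2 →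
      InnerProductGeometry.angle (u y.1) (A z.1 - A y.1) < α →
      ∠ (cp A u m ε x) (cp A u m ε y) (cp A u m ε z) < α := by
    rw [eventually_all]
    rintro ⟨j, s⟩
    rw [eventually_all]
    rintro ⟨j', t⟩
    rw [eventually_all]
    intro z
    by_cases h : j = j' ∧ z.1 ≠ j' ∧ t < s ∧ InnerProductGeometry.angle (u j') (A z.1 - A j') < α
    · obtain ⟨rfl, h2, h3, h4⟩ := h
      filter_upwards [(tendsto_angle_gt A u m j s t z h3 (hu0 j) (hA _ _ h2)).eventually_lt_const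
        h4] with ε hε _ _ _ _
      exact hε
    · exact Eventually.of_forall fun ε g1 g2 g3 g4 => absurd ⟨g1, g2, g3, g4⟩ h
  have c4 : ∀ᶠ ε in 𝓝[>] (0 : ℝ), ∀ x y z : ι × Fin m, x.1 = y.1 → z.1 ≠ y.1 → x.2 < y.2 →
      InnerProductGeometry.angle (-u y.1) (A z.1 - A y.1) < α →
      ∠ (cp A u m ε x) (cp A u m ε y) (cp A u m ε z) < α := by
    rw [eventually_all]
    rintro ⟨j, s⟩
    rw [eventually_all]
    rintro ⟨j', t⟩
    rw [eventually_all]
    intro z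
    by_cases h : j = j' ∧ z.1 ≠ j' ∧ s < t ∧ InnerProductGeometry.angle (-u j') (A z.1 - A j') < α
    · obtain ⟨rfl, h2, h3, h4⟩ := h
      filter_upwards [(tendsto_angle_lt A u m j s t z h3 (hu0 j) (hA _ _ h2)).eventually_lt_const
        h4] with ε hε _ _ _ _
      exact hε
    · exact Eventually.of_forall fun ε g1 g2 g3 g4 => absurd ⟨g1, g2, g3, g4⟩ h
  have c5 : ∀ᶠ ε in 𝓝[>] (0 : ℝ), ∀ x y z : ι × Fin m, x.1 = y.1 → z.1 = y.1 →
      (x.2 < y.2 ∧ z.2 < y.2) ∨ (y.2 < x.2 ∧ y.2 < z.2) →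
      ∠ (cp A u m ε x) (cp A u m ε y) (cp A u m ε z) < α := by
    rw [eventually_all]
    rintro ⟨j, s⟩
    rw [eventually_all]
    rintro ⟨j', t⟩
    rw [eventually_all]
    rintro ⟨j'', r⟩
    by_cases h : j = j' ∧ j'' = j' ∧ ((s < t ∧ r < t) ∨ (t < s ∧ t < r))
    · obtain ⟨rfl, rfl, h3⟩ := h
      filter_upwards [(tendsto_angle_same A u m j'' s t r h3 (hu0 j'')).eventually_lt_const
        hα] with ε hε _ _ _
      exact hε
    · exact Eventually.of_forall fun ε g1 g2 g3 => absurd ⟨g1, g2, g3⟩ h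
  obtain ⟨ε, ⟨⟨⟨⟨d1, d2⟩, d3⟩, d4⟩, d6⟩, d5⟩ :=
    (((((c1.and c2).and c3).and c4).and c5).and
      (self_mem_nhdsWithin : Set.Ioi (0 : ℝ) ∈ 𝓝[>] (0 : ℝ))).exists
  have hε : 0 < ε := d5
  have hpos : ∀ x y : ι × Fin m, x ≠ y → 0 < sep A u m ε x y := by
    rintro ⟨j, s⟩ ⟨j', t⟩ hxy
    by_cases h : j = j'
    · subst h
      rw [sep_same A u m ε j s t (hu j)]
      have hst : s ≠ t := fun h => hxy (by rw [h])
      have : ((t : ℕ) : ℝ) - ((s : ℕ) : ℝ) ≠ 0 := by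
        rw [sub_ne_zero]
        intro h
        apply hst
        have h' : (t : ℕ) = (s : ℕ) := by exact_mod_cast h
        exact (Fin.ext h').symm
      exact lt_of_le_of_ne (sq_nonneg _) (pow_ne_zero 2 (mul_ne_zero hε.ne' this)).symm
    · exact d1 _ _ h
  refine ⟨cp A u m ε, ?_, ?_, d2, d3, d4, d6⟩
  · intro x y h
    by_contra hne
    have := hpos x y hne
    unfold sep at this
    rw [h, sub_self] at this
    simp [dp] at this
  · intro a ha
    simp only [Finset.mem_image, Finset.mem_univ, true_and] at ha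
    obtain ⟨x, rfl⟩ := ha
    refine QU.not_mem_hull (-(-u x.1 1 - (2 * ε * ((x.2 : ℕ) : ℝ)) * u x.1 0))
      (-(u x.1 0 - (2 * ε * ((x.2 : ℕ) : ℝ)) * u x.1 1)) _ _ ?_
    rintro b ⟨hb, hbx⟩
    simp only [Finset.coe_image, Finset.coe_univ, Set.image_univ, Set.mem_range] at hb
    obtain ⟨y, rfl⟩ := hb
    have hxy : x ≠ y := fun h => hbx (by rw [h]; rfl)
    have h2 := hpos x y hxy
    rw [sep_eq] at h2
    unfold QU.fn
    linarith

end Pool.Agent.MP_0af329_co.CF
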