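import Pool.Agent.MP_0af329_co.CF5

/-!
# Clusters at the vertices of a polygon with an inscribed circle
-/

set_option autoImplicit false

namespace Pool.Agent.MP_0af329_co.CF

open Filter Topology EuclideanGeometry
open Pool.Agent.MP_0af329_co.Cvx (ConvexPos)

/-- the vertex -/
noncomputable def vx (ψ κ : ℝ) : Pt := !₂[Real.cos ψ / Real.cos κ, Real.sin ψ / Real.cos κ]

/-- the direction of the cluster -/
noncomputable def dr (ψ : ℝ) : Pt := !₂[-Real.sin ψ, Real.cos ψ]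

@[simp] theorem vx0 (ψ κ : ℝ) : vx ψ κ 0 = Real.cos ψ / Real.cos κ := by simp [vx]
@[simp] theorem vx1 (ψ κ : ℝ) : vx ψ κ 1 = Real.sin ψ / Real.cos κ := by simp [vx]
@[simp] theorem dr0 (ψ : ℝ) : dr ψ 0 = -Real.sin ψ := by simp [dr]
@[simp] theorem dr1 (ψ : ℝ) : dr ψ 1 = Real.cos ψ := by simp [dr]

theorem dr_sq (ψ : ℝ) : dr ψ 0 ^ 2 + dr ψ 1 ^ 2 = 1 := by
  rw [dr0, dr1]
  nlinarith [Real.sin_sq_add_cos_sq ψ]

theorem inner_eq (x y : Pt) : inner ℝ x y = dp x y := by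
  unfold dp
  simp only [PiLp.inner_apply, Fin.sum_univ_two, RCLike.inner_apply, conj_trivial]
  ring

theorem norm_sq (x : Pt) : ‖x‖ ^ 2 = dp x x := by
  rw [← real_inner_self_eq_norm_sq, inner_eq]

theorem norm_dr (ψ : ℝ) : ‖dr ψ‖ = 1 := by
  have h1 := norm_sq (dr ψ)
  have h2 := dr_sq ψ
  have h3 : dp (dr ψ) (dr ψ) = 1 := by
    unfold dp
    nlinarith
  rw [h3] at h1
  nlinarith [norm_nonneg (dr ψ)]

theorem norm_rt_dr (ψ : ℝ) : ‖rt (dr ψ)‖ = 1 := by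
  have h1 := norm_sq (rt (dr ψ))
  have h3 : dp (rt (dr ψ)) (rt (dr ψ)) = 1 := by
    unfold dp
    rw [rt0, rt1, dr0, dr1]
    nlinarith [Real.sin_sq_add_cos_sq ψ]
  rw [h3] at h1
  nlinarith [norm_nonneg (rt (dr ψ))]

theorem cos_add_e (ψ κ : ℝ) (D : Pt) : -(Real.cos (ψ + κ) * D 0 + Real.sin (ψ + κ) * D 1) =
    Real.cos κ * dp (rt (dr ψ)) D - Real.sin κ * dp (dr ψ) D := by
  unfold dp
  rw [rt0, rt1, dr0, dr1, Real.cos_add, Real.sin_add]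
  ring

/-- one side of the wedge -/
theorem wedge_side (ψ κ φ ψ' κ' : ℝ) (hφ : Real.cos (φ - ψ) = Real.cos κ)
    (hκ : 0 < Real.cos κ) (hκ' : 0 < Real.cos κ') (h : Real.cos (φ - ψ') ≤ Real.cos κ') :
    Real.cos φ * (vx ψ' κ' - vx ψ κ) 0 + Real.sin φ * (vx ψ' κ' - vx ψ κ) 1 ≤ 0 := by
  rw [PiLp.sub_apply, PiLp.sub_apply, vx0, vx1, vx0, vx1]
  have e1 : Real.cos φ * (Real.cos ψ' / Real.cos κ' - Real.cos ψ / Real.cos κ) +
      Real.sin φ * (Real.sin ψ' / Real.cos κ' - Real.sin ψ / Real.cos κ) =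
      Real.cos (φ - ψ') / Real.cos κ' - Real.cos (φ - ψ) / Real.cos κ := by
    rw [Real.cos_sub, Real.cos_sub]
    ring
  rw [e1, hφ, div_self hκ.ne']
  have h2 : Real.cos (φ - ψ') / Real.cos κ' ≤ 1 := by
    rw [div_le_one hκ']
    exact h
  linarith

/-- the wedge condition -/
structure Wedge (ψ κ ψ' κ' : ℝ) : Prop where
  p : 0 < κ
  l : κ < Real.pi / 2
  p' : 0 < κ'
  l' : κ' < Real.pi / 2
  plus : Real.cos (ψ + κ - ψ') ≤ Real.cos κ'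
  minus : Real.cos (ψ - κ - ψ') ≤ Real.cos κ'
  ne : vx ψ κ ≠ vx ψ' κ'

theorem Wedge.ineq {ψ κ ψ' κ' : ℝ} (w : Wedge ψ κ ψ' κ') :
    Real.sin κ * |dp (dr ψ) (vx ψ' κ' - vx ψ κ)| ≤
      Real.cos κ * dp (rt (dr ψ)) (vx ψ' κ' - vx ψ κ) := by
  have hc : 0 < Real.cos κ := Real.cos_pos_of_mem_Ioo ⟨by linarith [w.p, Real.pi_pos], w.l⟩
  have hc' : 0 < Real.cos κ' := Real.cos_pos_of_mem_Ioo ⟨by linarith [w.p', Real.pi_pos], w.l'⟩
  have h1 := wedge_side ψ κ (ψ + κ) ψ' κ' (by congr 1; ring) hc hc' w.plus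
  have h2 := wedge_side ψ κ (ψ - κ) ψ' κ' (by
    rw [show ψ - κ - ψ = -κ by ring, Real.cos_neg]) hc hc' w.minus
  have h3 := cos_add_e ψ κ (vx ψ' κ' - vx ψ κ)
  have h4 := cos_add_e ψ (-κ) (vx ψ' κ' - vx ψ κ)
  rw [Real.cos_neg, Real.sin_neg, show ψ + -κ = ψ - κ by ring] at h4
  have hs : 0 < Real.sin κ := Real.sin_pos_of_pos_of_lt_pi w.p (by linarith [w.l, Real.pi_pos])
  rcases abs_cases (dp (dr ψ) (vx ψ' κ' - vx ψ κ)) with ⟨h5, -⟩ | ⟨h5, -⟩ <;> rw [h5]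
  · linarith
  · linarith

theorem dp_sq (ψ : ℝ) (D : Pt) : dp (rt (dr ψ)) D ^ 2 + dp (dr ψ) D ^ 2 = dp D D := by
  unfold dp
  rw [rt0, rt1, dr0, dr1]
  calc _ = (D 0 ^ 2 + D 1 ^ 2) * (Real.sin ψ ^ 2 + Real.cos ψ ^ 2) := by ring
    _ = _ := by rw [Real.sin_sq_add_cos_sq]; ring

theorem Wedge.pos {ψ κ ψ' κ' : ℝ} (w : Wedge ψ κ ψ' κ') :
    0 < dp (rt (dr ψ)) (vx ψ' κ' - vx ψ κ) := by
  have h1 := w.ineq
  have hc : 0 < Real.cos κ := Real.cos_pos_of_mem_Ioo ⟨by linarith [w.p, Real.pi_pos], w.l⟩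
  have hs : 0 < Real.sin κ := Real.sin_pos_of_pos_of_lt_pi w.p (by linarith [w.l, Real.pi_pos])
  have h2 : 0 ≤ Real.cos κ * dp (rt (dr ψ)) (vx ψ' κ' - vx ψ κ) :=
    le_trans (mul_nonneg hs.le (abs_nonneg _)) h1
  have h3 : 0 ≤ dp (rt (dr ψ)) (vx ψ' κ' - vx ψ κ) := nonneg_of_mul_nonneg_right h2 hc
  rcases h3.lt_or_eq with h4 | h4
  · exact h4
  · exfalso
    rw [← h4, mul_zero] at h1
    have h5 : |dp (dr ψ) (vx ψ' κ' - vx ψ κ)| = 0 := by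
      have := abs_nonneg (dp (dr ψ) (vx ψ' κ' - vx ψ κ))
      nlinarith
    have h6 := dp_sq ψ (vx ψ' κ' - vx ψ κ)
    rw [← h4, abs_eq_zero.1 h5, ← norm_sq] at h6
    have h7 : ‖vx ψ' κ' - vx ψ κ‖ = 0 := by nlinarith [norm_nonneg (vx ψ' κ' - vx ψ κ)]
    rw [norm_eq_zero, sub_eq_zero] at h7
    exact w.ne h7.symm

theorem Wedge.angle_le {ψ κ ψ' κ' : ℝ} (w : Wedge ψ κ ψ' κ') :
    InnerProductGeometry.angle (rt (dr ψ)) (vx ψ' κ' - vx ψ κ) ≤ Real.pi / 2 - κ := by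
  set D := vx ψ' κ' - vx ψ κ with hD
  have hc : 0 < Real.cos κ := Real.cos_pos_of_mem_Ioo ⟨by linarith [w.p, Real.pi_pos], w.l⟩
  have hs : 0 < Real.sin κ := Real.sin_pos_of_pos_of_lt_pi w.p (by linarith [w.l, Real.pi_pos])
  have h1 := w.ineq
  have h2 := w.pos
  rw [← hD] at h1 h2
  have h3 := InnerProductGeometry.cos_angle_mul_norm_mul_norm (rt (dr ψ)) D
  rw [norm_rt_dr, one_mul, inner_eq] at h3
  have h4 := dp_sq ψ D
  rw [← norm_sq] at h4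
  have h5 : Real.sin κ * ‖D‖ ≤ dp (rt (dr ψ)) D := by
    have h6 : (Real.sin κ * ‖D‖) ^ 2 ≤ dp (rt (dr ψ)) D ^ 2 := by
      have h7 : (Real.sin κ * |dp (dr ψ) D|) ^ 2 ≤ (Real.cos κ * dp (rt (dr ψ)) D) ^ 2 :=
        pow_le_pow_left₀ (mul_nonneg hs.le (abs_nonneg _)) h1 2
      rw [mul_pow, mul_pow, sq_abs] at h7
      rw [mul_pow, ← h4]
      nlinarith [Real.sin_sq_add_cos_sq κ]
    exact le_of_sq_le_sq h6 h2.le
  have hDpos : 0 < ‖D‖ := by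
    rw [norm_pos_iff]
    intro h
    rw [h] at h2
    simp [dp] at h2
  have h6 : Real.sin κ ≤ Real.cos (InnerProductGeometry.angle (rt (dr ψ)) D) := by
    by_contra hlt
    push Not at hlt
    have := mul_lt_mul_of_pos_right hlt hDpos
    linarith
  by_contra hlt
  push Not at hlt
  have h7 : Real.cos (InnerProductGeometry.angle (rt (dr ψ)) D) < Real.cos (Real.pi / 2 - κ) :=
    Real.cos_lt_cos_of_nonneg_of_le_pi (by linarith [w.l]) (InnerProductGeometry.angle_le_pi _ _) hlt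
  rw [Real.cos_pi_div_two_sub] at h7
  linarith

theorem angle_dr_rt (ψ : ℝ) : InnerProductGeometry.angle (dr ψ) (rt (dr ψ)) = Real.pi / 2 := by
  rw [← InnerProductGeometry.inner_eq_zero_iff_angle_eq_pi_div_two, inner_eq]
  unfold dp
  rw [rt0, rt1, dr0, dr1]
  ring

theorem angle_neg_dr_rt (ψ : ℝ) : InnerProductGeometry.angle (-dr ψ) (rt (dr ψ)) = Real.pi / 2 := by
  rw [InnerProductGeometry.angle_neg_left, angle_dr_rt]
  ring

theorem Wedge.angle_dr {ψ κ ψ' κ' : ℝ} (w : Wedge ψ κ ψ' κ') :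
    InnerProductGeometry.angle (dr ψ) (vx ψ' κ' - vx ψ κ) ≤ Real.pi - κ ∧
    InnerProductGeometry.angle (-dr ψ) (vx ψ' κ' - vx ψ κ) ≤ Real.pi - κ := by
  have h1 := w.angle_le
  have h2 := InnerProductGeometry.angle_le_angle_add_angle (dr ψ) (rt (dr ψ)) (vx ψ' κ' - vx ψ κ)
  have h3 := InnerProductGeometry.angle_le_angle_add_angle (-dr ψ) (rt (dr ψ)) (vx ψ' κ' - vx ψ κ)
  rw [angle_dr_rt] at h2
  rw [angle_neg_dr_rt] at h3
  constructor <;> linarith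

theorem wedge_angle {ψ κ ψ' κ' ψ'' κ'' : ℝ} (w : Wedge ψ κ ψ' κ') (w' : Wedge ψ κ ψ'' κ'') :
    ∠ (vx ψ' κ') (vx ψ κ) (vx ψ'' κ'') ≤ Real.pi - 2 * κ := by
  have h1 := w.angle_le
  have h2 := w'.angle_le
  have h3 := InnerProductGeometry.angle_le_angle_add_angle (vx ψ' κ' - vx ψ κ) (rt (dr ψ))
    (vx ψ'' κ'' - vx ψ κ)
  rw [InnerProductGeometry.angle_comm (vx ψ' κ' - vx ψ κ) (rt (dr ψ))] at h3
  have h4 : ∠ (vx ψ' κ') (vx ψ κ) (vx ψ'' κ'') =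
      InnerProductGeometry.angle (vx ψ' κ' - vx ψ κ) (vx ψ'' κ'' - vx ψ κ) := rfl
  linarith

end Pool.Agent.MP_0af329_co.CF
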