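import Pool.Agent.MP_0af329_co.CF6

/-!
# Clusters: the number of large angles
-/

set_option autoImplicit false

namespace Pool.Agent.MP_0af329_co.CF

open Finset EuclideanGeometry
open Pool.Agent.MP_0af329_co.Cvx (ConvexPos)

variable {c m : ℕ}

/-- the index set with `w j` points in cluster `j` -/
def Yw (w : Fin c → ℕ) : Finset (Fin c × Fin m) := univ.filter fun x => (x.2 : ℕ) < w x.1

theorem card_Yw_eq (w : Fin c → ℕ) (hw : ∀ j, w j ≤ m) (j : Fin c) :
    ((Yw w : Finset (Fin c × Fin m)).filter fun x => x.1 = j).card = w j := by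
  have h1 : ((Yw w : Finset (Fin c × Fin m)).filter fun x => x.1 = j) =
      (univ.filter fun i : Fin m => (i : ℕ) < w j).image (fun i => (j, i)) := by
    ext ⟨a, i⟩
    simp only [Yw, mem_filter, mem_univ, true_and, mem_image, Prod.mk.injEq]
    constructor
    · rintro ⟨h1, rfl⟩
      exact ⟨i, h1, rfl, rfl⟩
    · rintro ⟨i', h1, rfl, rfl⟩
      exact ⟨h1, rfl⟩
  rw [h1, card_image_of_injective _ (fun a b h => by simpa using h), CG.card_lt _ _ (hw j)]

theorem card_Yw (w : Fin c → ℕ) (hw : ∀ j, w j ≤ m) :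
    (Yw w : Finset (Fin c × Fin m)).card = ∑ j, w j := by
  have h1 : (Yw w : Finset (Fin c × Fin m)).card =
      ∑ j : Fin c, ((Yw w : Finset (Fin c × Fin m)).filter fun x => x.1 = j).card :=
    card_eq_sum_card_fiberwise (fun x _ => mem_coe.2 (mem_univ _))
  rw [h1]
  exact sum_congr rfl fun j _ => card_Yw_eq w hw j

theorem card_Yw_ne (w : Fin c → ℕ) (hw : ∀ j, w j ≤ m) (j : Fin c) :
    ((Yw w : Finset (Fin c × Fin m)).filter fun x => x.1 ≠ j).card = (∑ i, w i) - w j := by
  have h1 := card_filter_add_card_filter_not (s := (Yw w : Finset (Fin c × Fin m)))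
    (fun x => x.1 = j)
  rw [card_Yw w hw, card_Yw_eq w hw] at h1
  have h2 : ((Yw w : Finset (Fin c × Fin m)).filter fun x => ¬ x.1 = j).card =
      (∑ i, w i) - w j := by omega
  exact h2

/-- the points of class `j` -/
def fw (w : Fin c → ℕ) (hw : ∀ j, w j ≤ m) (j : Fin c) (i : Fin (w j)) : Fin c × Fin m :=
  (j, Fin.castLE (hw j) i)

theorem exists_fw (w : Fin c → ℕ) (hw : ∀ j, w j ≤ m) {x : Fin c × Fin m} (hx : x ∈ Yw w) :
    ∃ i : Fin (w x.1), fw w hw x.1 i = x := by
  rw [Yw, mem_filter] at hx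
  exact ⟨⟨x.2, hx.2⟩, rfl⟩

open Classical in
/-- the large angles with two points in cluster `j` -/
noncomputable def Bj (p : Fin c × Fin m → Pt) (w : Fin c → ℕ) (hw : ∀ j, w j ≤ m) (α : ℝ)
    (j : Fin c) : Finset ((Fin (w j) × Fin (w j)) × (Fin c × Fin m)) :=
  ((univ : Finset (Fin (w j))).offDiag ×ˢ ((Yw w).filter fun x => x.1 ≠ j)).filter
    fun t => α < ∠ (p (fw w hw j t.1.1)) (p (fw w hw j t.1.2)) (p t.2)

theorem fw_ne (w : Fin c → ℕ) (hw : ∀ j, w j ≤ m) (j : Fin c) {a b : Fin (w j)} (h : a ≠ b) :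
    (fw w hw j a).2 ≠ (fw w hw j b).2 := by
  intro h'
  apply h
  have h1 : ((fw w hw j a).2 : ℕ) = ((fw w hw j b).2 : ℕ) := by rw [h']
  exact Fin.ext h1

theorem card_Bj_le (p : Fin c × Fin m → Pt) (w : Fin c → ℕ) (hw : ∀ j, w j ≤ m) (α : ℝ)
    (H3 : ∀ x y z, x.1 = y.1 → z.1 ≠ y.1 → x.2 ≠ y.2 →
      ¬ (α < ∠ (p x) (p y) (p z) ∧ α < ∠ (p y) (p x) (p z))) (j : Fin c) :
    (Bj p w hw α j).card ≤ (w j).choose 2 * ((∑ i, w i) - w j) := by
  classical
  have h1 : ((Bj p w hw α j).image fun t => ((t.1.2, t.1.1), t.2)).card = (Bj p w hw α j).card := by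
    refine card_image_of_injective _ ?_
    rintro ⟨⟨a, b⟩, z⟩ ⟨⟨a', b'⟩, z'⟩ h
    simp only [Prod.mk.injEq] at h ⊢
    exact ⟨⟨h.1.2, h.1.1⟩, h.2⟩
  have h2 : Disjoint (Bj p w hw α j) ((Bj p w hw α j).image fun t => ((t.1.2, t.1.1), t.2)) := by
    rw [disjoint_left]
    rintro ⟨⟨a, b⟩, z⟩ ht ht'
    rw [mem_image] at ht'
    obtain ⟨⟨⟨a', b'⟩, z'⟩, ht', he⟩ := ht'
    simp only [Prod.mk.injEq] at he
    obtain ⟨⟨rfl, rfl⟩, rfl⟩ := he
    rw [Bj, mem_filter, mem_product, mem_offDiag, mem_filter] at ht ht'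
    simp only at ht ht'
    exact H3 (fw w hw j b') (fw w hw j a') z' rfl ht.1.2.2 (fw_ne w hw j ht.1.1.2.2)
      ⟨ht.2, ht'.2⟩
  have h3 : (Bj p w hw α j) ∪ ((Bj p w hw α j).image fun t => ((t.1.2, t.1.1), t.2)) ⊆
      (univ : Finset (Fin (w j))).offDiag ×ˢ ((Yw w).filter fun x => x.1 ≠ j) := by
    intro t ht
    rw [mem_union, mem_image] at ht
    rcases ht with ht | ⟨t', ht', rfl⟩
    · rw [Bj, mem_filter] at ht
      exact ht.1
    · rw [Bj, mem_filter, mem_product, mem_offDiag] at ht'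
      rw [mem_product, mem_offDiag]
      exact ⟨⟨mem_univ _, mem_univ _, ht'.1.1.2.2.symm⟩, ht'.1.2⟩
  have h4 := card_le_card h3
  rw [card_union_of_disjoint h2, h1, card_product, offDiag_card, card_univ, Fintype.card_fin,
    card_Yw_ne w hw, CG.two_choose, mul_assoc] at h4
  omega

theorem cnt_clusters (p : Fin c × Fin m → Pt) (w : Fin c → ℕ) (hw : ∀ j, w j ≤ m) (α : ℝ)
    (b : Fin c → Prop) [DecidablePred b]
    (H1 : ∀ x y z, x.1 ≠ y.1 → z.1 ≠ y.1 → ∠ (p x) (p y) (p z) < α)
    (H2 : ∀ x y z, x.1 = y.1 → z.1 = y.1 → (x.2 < y.2 ∧ z.2 < y.2) ∨ (y.2 < x.2 ∧ y.2 < z.2) →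
      ∠ (p x) (p y) (p z) < α)
    (H3 : ∀ x y z, x.1 = y.1 → z.1 ≠ y.1 → x.2 ≠ y.2 →
      ¬ (α < ∠ (p x) (p y) (p z) ∧ α < ∠ (p y) (p x) (p z)))
    (H4 : ∀ x y z, x.1 = y.1 → z.1 ≠ y.1 → x.2 ≠ y.2 → ¬ b y.1 → ∠ (p x) (p y) (p z) < α) :
    cnt ((Yw w).image p) (Set.Ioi α) ≤ ∑ j, (2 * (w j).choose 3 +
      if b j then 2 * ((w j).choose 2 * ((∑ i, w i) - w j)) else 0) := by
  classical
  let C : Fin c → Finset (Pt × Pt × Pt) := fun j =>
    ((tr3 (w j)).filter fun t => Btw t.1 t.2.1 t.2.2).image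
      (fun t => (p (fw w hw j t.1), p (fw w hw j t.2.1), p (fw w hw j t.2.2)))
  let B : Fin c → Finset (Pt × Pt × Pt) := fun j =>
    (Bj p w hw α j).image (fun t => (p (fw w hw j t.1.1), p (fw w hw j t.1.2), p t.2))
  let B' : Fin c → Finset (Pt × Pt × Pt) := fun j =>
    (Bj p w hw α j).image (fun t => (p t.2, p (fw w hw j t.1.2), p (fw w hw j t.1.1)))
  have hsub : ((trip ((Yw w).image p)).filter fun t => ∠ t.1 t.2.1 t.2.2 ∈ Set.Ioi α) ⊆
      univ.biUnion fun j => C j ∪ (if b j then B j ∪ B' j else ∅) := by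
    intro t ht
    rw [Finset.mem_filter] at ht
    obtain ⟨x, y, z, hx, hy, hz, hxy, hyz, hxz, rfl⟩ := CG.exists_triple' p (Yw w) ht.1
    have ht2 : α < ∠ (p x) (p y) (p z) := ht.2
    rw [mem_biUnion]
    refine ⟨y.1, mem_univ _, ?_⟩
    obtain ⟨j, x'⟩ := x
    obtain ⟨j', y'⟩ := y
    obtain ⟨j'', z'⟩ := z
    obtain ⟨a, ha⟩ := exists_fw w hw hx
    obtain ⟨d, hd⟩ := exists_fw w hw hy
    obtain ⟨e, he⟩ := exists_fw w hw hz
    simp only at a d e ha hd he ⊢
    by_cases h4 : j = j'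
    · subst h4
      have hx'y' : x' ≠ y' := fun h => hxy (by rw [h])
      have had : a ≠ d := fun h => hxy (ha.symm.trans ((congrArg (fw w hw j) h).trans hd))
      by_cases h5 : j'' = j
      · subst h5
        rw [mem_union]
        left
        simp only [C]
        rw [mem_image]
        refine ⟨(a, d, e), ?_, by simp only [ha, hd, he]⟩
        have hde : d ≠ e := fun h => hyz (hd.symm.trans ((congrArg (fw w hw j'') h).trans he))
        have hae : a ≠ e := fun h => hxz (ha.symm.trans ((congrArg (fw w hw j'') h).trans he))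
        rw [mem_filter, tr3, mem_filter]
        refine ⟨⟨mem_univ _, had, hde, hae⟩, ?_⟩
        have e1 : (x' : ℕ) = (a : ℕ) := congrArg (fun s : Fin c × Fin m => (s.2 : ℕ)) ha.symm
        have e2 : (y' : ℕ) = (d : ℕ) := congrArg (fun s : Fin c × Fin m => (s.2 : ℕ)) hd.symm
        have e3 : (z' : ℕ) = (e : ℕ) := congrArg (fun s : Fin c × Fin m => (s.2 : ℕ)) he.symm
        have n1 : (a : ℕ) ≠ (d : ℕ) := fun h => had (Fin.ext h)
        have n2 : (d : ℕ) ≠ (e : ℕ) := fun h => hde (Fin.ext h)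
        by_contra hbt
        have h6 := H2 (j'', x') (j'', y') (j'', z') rfl rfl (by
          unfold Btw at hbt
          simp only [Fin.lt_def] at hbt ⊢
          omega)
        linarith
      · rw [mem_union]
        right
        by_cases hb : b j
        · rw [if_pos hb, mem_union]
          left
          simp only [B]
          rw [mem_image]
          refine ⟨((a, d), (j'', z')), ?_, by simp only [ha, hd]⟩
          rw [Bj, mem_filter, mem_product, mem_offDiag, mem_filter]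
          refine ⟨⟨⟨mem_univ _, mem_univ _, had⟩, hz, h5⟩, ?_⟩
          simp only [ha, hd]
          exact ht2
        · exfalso
          have := H4 (j, x') (j, y') (j'', z') rfl h5 hx'y' hb
          linarith
    · by_cases h5 : j'' = j'
      · subst h5
        have hz'y' : z' ≠ y' := fun h => hyz (by rw [h])
        have hed : e ≠ d := fun h => hyz (hd.symm.trans ((congrArg (fw w hw j'') h.symm).trans he))
        rw [mem_union]
        right
        rw [EuclideanGeometry.angle_comm] at ht2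
        by_cases hb : b j''
        · rw [if_pos hb, mem_union]
          right
          simp only [B']
          rw [mem_image]
          refine ⟨((e, d), (j, x')), ?_, by simp only [he, hd]⟩
          rw [Bj, mem_filter, mem_product, mem_offDiag, mem_filter]
          refine ⟨⟨⟨mem_univ _, mem_univ _, hed⟩, hx, h4⟩, ?_⟩
          simp only [he, hd]
          exact ht2
        · exfalso
          have := H4 (j'', z') (j'', y') (j, x') rfl h4 hz'y' hb
          linarith
      · exfalso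
        have := H1 (j, x') (j', y') (j'', z') h4 h5
        linarith
  have h1 : cnt ((Yw w).image p) (Set.Ioi α) =
      ((trip ((Yw w).image p)).filter fun t => ∠ t.1 t.2.1 t.2.2 ∈ Set.Ioi α).card := by
    rw [cnt]
    congr 1
  rw [h1]
  refine (card_le_card hsub).trans (card_biUnion_le.trans ?_)
  refine sum_le_sum fun j _ => ?_
  refine (card_union_le _ _).trans ?_
  refine Nat.add_le_add (card_image_le.trans (CG.card_btw_le _)) ?_
  split_ifs with hb
  · refine (card_union_le _ _).trans ?_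
    have h2 := card_Bj_le p w hw α H3 j
    have h3 : (B j).card ≤ (Bj p w hw α j).card := card_image_le
    have h4 : (B' j).card ≤ (Bj p w hw α j).card := card_image_le
    omega
  · exact le_of_eq card_empty

end Pool.Agent.MP_0af329_co.CF
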