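import Pool.Agent.MP_0af329_co.CF7

/-!
# The polygon with `h` double vertices and one single vertex
-/

set_option autoImplicit false

namespace Pool.Agent.MP_0af329_co.CF

open Finset EuclideanGeometry
open Pool.Agent.MP_0af329_co.Cvx (ConvexPos)

theorem cos_le_of {κ x : ℝ} (h0 : 0 ≤ κ) (h1 : κ ≤ |x|) (h2 : |x| ≤ 2 * Real.pi - κ) :
    Real.cos x ≤ Real.cos κ := by
  rw [← Real.cos_abs x]
  rcases le_or_gt |x| Real.pi with h3 | h3
  · exact Real.cos_le_cos_of_nonneg_of_le_pi h0 h3 h1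
  · rw [← Real.cos_two_pi_sub |x|]
    exact Real.cos_le_cos_of_nonneg_of_le_pi h0 (by linarith) (by linarith)

/-- the angle `2π/(2h+1)` -/
noncomputable def gm (h : ℕ) : ℝ := 2 * Real.pi / (2 * h + 1)

theorem gm_pos (h : ℕ) : 0 < gm h := by
  have := Real.pi_pos
  unfold gm
  positivity

theorem gm_mul (h : ℕ) : (2 * (h : ℝ) + 1) * gm h = 2 * Real.pi := by
  unfold gm
  field_simp

/-- directions of the vertices -/
noncomputable def ps (h : ℕ) (i : Fin (h + 1)) : ℝ :=
  if i = 0 then -(gm h / 2) else (2 * ((i : ℕ) : ℝ) - 1) * gm h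

/-- half of the exterior angles -/
noncomputable def ka (h : ℕ) (i : Fin (h + 1)) : ℝ := if i = 0 then gm h / 2 else gm h

theorem gm_lt (h : ℕ) (hh : 2 ≤ h) : gm h < Real.pi / 2 := by
  have h1 := gm_mul h
  have h2 : (2 : ℝ) ≤ h := by exact_mod_cast hh
  have h3 := gm_pos h
  have h4 := Real.pi_pos
  nlinarith

theorem one_le_of_ne {h : ℕ} {i : Fin (h + 1)} (hi : i ≠ 0) : (1 : ℝ) ≤ ((i : ℕ) : ℝ) := by
  have h1 : 1 ≤ (i : ℕ) := by
    have : (i : ℕ) ≠ 0 := fun h => hi (Fin.ext h)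
    omega
  exact_mod_cast h1

theorem le_h {h : ℕ} (i : Fin (h + 1)) : ((i : ℕ) : ℝ) ≤ h := by
  have h1 : (i : ℕ) ≤ h := by omega
  exact_mod_cast h1

theorem abs_bounds {g t lo hi : ℝ} (hg : 0 < g) (h1 : lo ≤ |t|) (h2 : |t| ≤ hi) :
    lo * g ≤ |t * g| ∧ |t * g| ≤ hi * g := by
  rw [abs_mul, abs_of_pos hg]
  exact ⟨mul_le_mul_of_nonneg_right h1 hg.le, mul_le_mul_of_nonneg_right h2 hg.le⟩

theorem cos_le_gm {h : ℕ} (lo : ℝ) (h0 : 0 ≤ lo) {t : ℝ} (h1 : lo ≤ |t|)
    (h2 : |t| ≤ 2 * (h : ℝ) + 1 - lo) : Real.cos (t * gm h) ≤ Real.cos (lo * gm h) := by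
  have h3 := abs_bounds (gm_pos h) h1 h2
  have h4 := gm_mul h
  refine cos_le_of (mul_nonneg h0 (gm_pos h).le) h3.1 ?_
  have h5 : (2 * (h : ℝ) + 1 - lo) * gm h = 2 * Real.pi - lo * gm h := by
    rw [sub_mul, h4]
  linarith [h3.2]

theorem vx_dp (ψ κ : ℝ) : dp (vx ψ κ) (vx ψ κ) = 1 / Real.cos κ ^ 2 := by
  unfold dp
  rw [vx0, vx1]
  have h1 : Real.cos ψ / Real.cos κ * (Real.cos ψ / Real.cos κ) +
      Real.sin ψ / Real.cos κ * (Real.sin ψ / Real.cos κ) =
      (Real.sin ψ ^ 2 + Real.cos ψ ^ 2) / Real.cos κ ^ 2 := by ring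
  rw [h1, Real.sin_sq_add_cos_sq]

theorem vx_ne_of_cos {ψ κ ψ' κ' : ℝ} (h1 : 0 < Real.cos κ) (h2 : Real.cos κ < Real.cos κ') :
    vx ψ κ ≠ vx ψ' κ' := by
  intro h
  have h3 := vx_dp ψ κ
  rw [h, vx_dp] at h3
  have h4 : Real.cos κ ^ 2 < Real.cos κ' ^ 2 := by nlinarith
  have h5 : 1 / Real.cos κ' ^ 2 < 1 / Real.cos κ ^ 2 :=
    one_div_lt_one_div_of_lt (by positivity) h4
  linarith

theorem vx_ne_of_angle {ψ ψ' κ : ℝ} (h1 : 0 < Real.cos κ) (h2 : ψ ≠ ψ')
    (h3 : |ψ - ψ'| < 2 * Real.pi) : vx ψ κ ≠ vx ψ' κ := by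
  intro h
  have e0 : Real.cos ψ / Real.cos κ = Real.cos ψ' / Real.cos κ := by
    have := congrArg (fun v : Pt => v 0) h
    simpa using this
  have e1 : Real.sin ψ / Real.cos κ = Real.sin ψ' / Real.cos κ := by
    have := congrArg (fun v : Pt => v 1) h
    simpa using this
  rw [div_left_inj' h1.ne'] at e0 e1
  have h4 : Real.cos (ψ - ψ') = 1 := by
    rw [Real.cos_sub, e0, e1]
    nlinarith [Real.sin_sq_add_cos_sq ψ']
  rw [abs_lt] at h3
  rw [Real.cos_eq_one_iff_of_lt_of_lt h3.1 h3.2] at h4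
  exact h2 (by linarith)

theorem wedge_ps (h : ℕ) (hh : 2 ≤ h) {i j : Fin (h + 1)} (hij : i ≠ j) :
    Wedge (ps h i) (ka h i) (ps h j) (ka h j) := by
  have hg := gm_pos h
  have hg2 := gm_lt h hh
  have hgm := gm_mul h
  have hpi := Real.pi_pos
  have hcg : 0 < Real.cos (gm h) := Real.cos_pos_of_mem_Ioo ⟨by linarith, hg2⟩
  have hcl : Real.cos (gm h) < Real.cos (gm h / 2) :=
    Real.cos_lt_cos_of_nonneg_of_le_pi (by linarith) (by linarith) (by linarith)
  have hkp : ∀ i : Fin (h + 1), 0 < ka h i := by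
    intro i
    unfold ka
    split_ifs <;> linarith
  have hkl : ∀ i : Fin (h + 1), ka h i < Real.pi / 2 := by
    intro i
    unfold ka
    split_ifs <;> linarith
  have e1 : gm h = 1 * gm h := (one_mul _).symm
  have e2 : gm h / 2 = 1 / 2 * gm h := by ring
  refine ⟨hkp i, hkl i, hkp j, hkl j, ?_, ?_, ?_⟩
  · unfold ps ka
    by_cases hi : i = 0
    · have hj : j ≠ 0 := fun h => hij (hi.trans h.symm)
      have hj1 := one_le_of_ne hj
      have hjh := le_h j
      rw [if_pos hi, if_pos hi, if_neg hj, if_neg hj]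
      have e3 : -(gm h / 2) + gm h / 2 - (2 * ((j : ℕ) : ℝ) - 1) * gm h =
          (-(2 * ((j : ℕ) : ℝ) - 1)) * gm h := by ring
      have h1 := cos_le_gm (h := h) 1 (by norm_num) (t := -(2 * ((j : ℕ) : ℝ) - 1)) (by
        rw [abs_neg, abs_of_pos (by linarith)]
        linarith) (by
        rw [abs_neg, abs_of_pos (by linarith)]
        linarith)
      rw [e3]
      rwa [one_mul] at h1
    · have hi1 := one_le_of_ne hi
      have hih := le_h i
      by_cases hj : j = 0
      · rw [if_neg hi, if_neg hi, if_pos hj, if_pos hj]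
        have e3 : (2 * ((i : ℕ) : ℝ) - 1) * gm h + gm h - -(gm h / 2) =
            (2 * ((i : ℕ) : ℝ) + 1 / 2) * gm h := by ring
        have h1 := cos_le_gm (h := h) (1 / 2) (by norm_num) (t := 2 * ((i : ℕ) : ℝ) + 1 / 2) (by
          rw [abs_of_pos (by linarith)]
          linarith) (by
          rw [abs_of_pos (by linarith)]
          linarith)
        rw [e3, e2]
        exact h1
      · have hj1 := one_le_of_ne hj
        have hjh := le_h j
        rw [if_neg hi, if_neg hi, if_neg hj, if_neg hj]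
        have e3 : (2 * ((i : ℕ) : ℝ) - 1) * gm h + gm h - (2 * ((j : ℕ) : ℝ) - 1) * gm h =
            (2 * ((i : ℕ) : ℝ) - 2 * ((j : ℕ) : ℝ) + 1) * gm h := by ring
        have h1 := cos_le_gm (h := h) 1 (by norm_num)
          (t := 2 * ((i : ℕ) : ℝ) - 2 * ((j : ℕ) : ℝ) + 1) (by
          rcases Nat.lt_or_ge (i : ℕ) (j : ℕ) with h2 | h2
          · have h3 : ((i : ℕ) : ℝ) + 1 ≤ ((j : ℕ) : ℝ) := by exact_mod_cast h2
            rw [abs_of_neg (by linarith)]
            linarith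
          · have h3 : ((j : ℕ) : ℝ) ≤ ((i : ℕ) : ℝ) := by exact_mod_cast h2
            rw [abs_of_pos (by linarith)]
            linarith) (by
          rw [abs_le]
          constructor <;> linarith)
        rw [e3]
        rwa [one_mul] at h1
  · unfold ps ka
    by_cases hi : i = 0
    · have hj : j ≠ 0 := fun h => hij (hi.trans h.symm)
      have hj1 := one_le_of_ne hj
      have hjh := le_h j
      rw [if_pos hi, if_pos hi, if_neg hj, if_neg hj]
      have e3 : -(gm h / 2) - gm h / 2 - (2 * ((j : ℕ) : ℝ) - 1) * gm h =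
          (-(2 * ((j : ℕ) : ℝ))) * gm h := by ring
      have h1 := cos_le_gm (h := h) 1 (by norm_num) (t := -(2 * ((j : ℕ) : ℝ))) (by
        rw [abs_neg, abs_of_pos (by linarith)]
        linarith) (by
        rw [abs_neg, abs_of_pos (by linarith)]
        linarith)
      rw [e3]
      rwa [one_mul] at h1
    · have hi1 := one_le_of_ne hi
      have hih := le_h i
      by_cases hj : j = 0
      · rw [if_neg hi, if_neg hi, if_pos hj, if_pos hj]
        have e3 : (2 * ((i : ℕ) : ℝ) - 1) * gm h - gm h - -(gm h / 2) =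
            (2 * ((i : ℕ) : ℝ) - 3 / 2) * gm h := by ring
        have h1 := cos_le_gm (h := h) (1 / 2) (by norm_num) (t := 2 * ((i : ℕ) : ℝ) - 3 / 2) (by
          rw [abs_of_pos (by linarith)]
          linarith) (by
          rw [abs_of_pos (by linarith)]
          linarith)
        rw [e3, e2]
        exact h1
      · have hj1 := one_le_of_ne hj
        have hjh := le_h j
        rw [if_neg hi, if_neg hi, if_neg hj, if_neg hj]
        have e3 : (2 * ((i : ℕ) : ℝ) - 1) * gm h - gm h - (2 * ((j : ℕ) : ℝ) - 1) * gm h =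
            (2 * ((i : ℕ) : ℝ) - 2 * ((j : ℕ) : ℝ) - 1) * gm h := by ring
        have h1 := cos_le_gm (h := h) 1 (by norm_num)
          (t := 2 * ((i : ℕ) : ℝ) - 2 * ((j : ℕ) : ℝ) - 1) (by
          rcases Nat.lt_or_ge (j : ℕ) (i : ℕ) with h2 | h2
          · have h3 : ((j : ℕ) : ℝ) + 1 ≤ ((i : ℕ) : ℝ) := by exact_mod_cast h2
            rw [abs_of_pos (by linarith)]
            linarith
          · have h3 : ((i : ℕ) : ℝ) ≤ ((j : ℕ) : ℝ) := by exact_mod_cast h2
            rw [abs_of_neg (by linarith)]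
            linarith) (by
          rw [abs_le]
          constructor <;> linarith)
        rw [e3]
        rwa [one_mul] at h1
  · unfold ps ka
    by_cases hi : i = 0
    · have hj : j ≠ 0 := fun h => hij (hi.trans h.symm)
      rw [if_pos hi, if_pos hi, if_neg hj, if_neg hj]
      exact (vx_ne_of_cos hcg hcl).symm
    · by_cases hj : j = 0
      · rw [if_neg hi, if_neg hi, if_pos hj, if_pos hj]
        exact vx_ne_of_cos hcg hcl
      · rw [if_neg hi, if_neg hi, if_neg hj, if_neg hj]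
        have hi1 := one_le_of_ne hi
        have hih := le_h i
        have hj1 := one_le_of_ne hj
        have hjh := le_h j
        have hne : ((i : ℕ) : ℝ) ≠ ((j : ℕ) : ℝ) := by
          intro h
          apply hij
          have : (i : ℕ) = (j : ℕ) := by exact_mod_cast h
          exact Fin.ext this
        refine vx_ne_of_angle hcg ?_ ?_
        · intro h
          have h1 := mul_right_cancel₀ hg.ne' h
          exact hne (by linarith)
        · have e3 : (2 * ((i : ℕ) : ℝ) - 1) * gm h - (2 * ((j : ℕ) : ℝ) - 1) * gm h =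
            (2 * ((i : ℕ) : ℝ) - 2 * ((j : ℕ) : ℝ)) * gm h := by ring
          rw [e3, abs_mul, abs_of_pos hg, ← hgm]
          refine mul_lt_mul_of_pos_right ?_ hg
          rw [abs_lt]
          constructor <;> linarith

/-- the configuration -/
theorem exists_poly (h : ℕ) (hh : 2 ≤ h) (m : ℕ) {α : ℝ} (hα : Real.pi - gm h < α) :
    ∃ p : Fin (h + 1) × Fin m → Pt, Function.Injective p ∧ ConvexPos (Finset.univ.image p) ∧
      (∀ x y z, x.1 ≠ y.1 → z.1 ≠ y.1 → ∠ (p x) (p y) (p z) < α) ∧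
      (∀ x y z, x.1 = y.1 → z.1 = y.1 → (x.2 < y.2 ∧ z.2 < y.2) ∨ (y.2 < x.2 ∧ y.2 < z.2) →
        ∠ (p x) (p y) (p z) < α) ∧
      (∀ x y z, x.1 = y.1 → z.1 ≠ y.1 → x.2 ≠ y.2 → y.1 ≠ 0 → ∠ (p x) (p y) (p z) < α) := by
  have hg := gm_pos h
  have hg2 := gm_lt h hh
  have hpi := Real.pi_pos
  obtain ⟨p, h1, h2, h3, h4, h5, h6⟩ := exists_clusters (fun i => vx (ps h i) (ka h i))
    (fun i => dr (ps h i)) m α (by linarith) (fun i => dr_sq _) (by
      intro i j hij
      have := (wedge_ps h hh hij).pos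
      unfold dp at this ⊢
      linarith) (by
      intro i j k hij hkj
      have h1 := wedge_angle (wedge_ps h hh hij.symm) (wedge_ps h hh hkj.symm)
      have h2 : gm h / 2 ≤ ka h j := by
        unfold ka
        split_ifs <;> linarith
      linarith)
  refine ⟨p, h1, h2, h3, h6, ?_⟩
  intro x y z hxy hzy hne hy
  have h7 := (wedge_ps h hh hzy.symm).angle_dr
  have h8 : ka h y.1 = gm h := by
    unfold ka
    rw [if_neg hy]
  rw [h8] at h7
  rcases lt_or_gt_of_ne hne with h9 | h9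
  · refine h5 x y z hxy hzy h9 ?_
    rw [h8]
    exact lt_of_le_of_lt h7.2 (by linarith)
  · refine h4 x y z hxy hzy h9 ?_
    rw [h8]
    exact lt_of_le_of_lt h7.1 (by linarith)

end Pool.Agent.MP_0af329_co.CF
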