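import Pool.Agent.MP_0af329_co.CF8

/-!
# `FC` jumps at `π - 2π/(2h+1)`
-/

set_option autoImplicit false

namespace Pool.Agent.MP_0af329_co

open Filter Topology Finset EuclideanGeometry
open Pool.Agent.MP_0af329_co.Cvx (ConvexPos minCntC)

theorem CF.choose3_le (m : ℕ) : (m.choose 3 : ℝ) ≤ (m : ℝ) ^ 3 / 6 := by
  have := Nat.choose_le_pow_div (α := ℝ) 3 m
  have h8 : ((Nat.factorial 3 : ℕ) : ℝ) = 6 := by norm_num [Nat.factorial]
  rwa [h8] at this

theorem CF.choose2_le (m : ℕ) : (m.choose 2 : ℝ) ≤ (m : ℝ) ^ 2 / 2 := by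
  have := Nat.choose_le_pow_div (α := ℝ) 2 m
  have h8 : ((Nat.factorial 2 : ℕ) : ℝ) = 2 := by norm_num [Nat.factorial]
  rwa [h8] at this

/-- the sizes of the clusters -/
def CF.wt (h m : ℕ) (j : Fin (h + 1)) : ℕ := if j = 0 then m else 2 * h * m

theorem CF.sum_wt (h m : ℕ) : ∑ j, CF.wt h m j = (2 * h ^ 2 + 1) * m := by
  rw [Fin.sum_univ_succ]
  have h1 : ∀ i : Fin h, CF.wt h m i.succ = 2 * h * m := fun i => if_neg (Fin.succ_ne_zero i)
  have h2 : CF.wt h m 0 = m := if_pos rfl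
  rw [sum_congr rfl fun i _ => h1 i, h2, sum_const, card_univ, Fintype.card_fin, smul_eq_mul]
  ring

/-- `FC ≤ (4h²+1)/(3(2h²+1)²)` after `π - 2π/(2h+1)`, for `h ≥ 2` -/
theorem FC_le_odd (h : ℕ) (hh : 2 ≤ h) {α : ℝ} (hα : Real.pi - 2 * Real.pi / (2 * h + 1) < α) :
    FC α ≤ (4 * (h : ℝ) ^ 2 + 1) / (3 * (2 * (h : ℝ) ^ 2 + 1) ^ 2) := by
  classical
  refine densC_le _ _ (2 * h ^ 2 + 1) (by positivity) fun m hm => ?_
  have hg2 := CF.gm_lt h hh
  obtain ⟨p, h1, h2, h3, h4, h5⟩ := CF.exists_poly h hh (2 * h * m) (α := α) (by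
    unfold CF.gm
    exact hα)
  have hw : ∀ j, CF.wt h m j ≤ 2 * h * m := by
    intro j
    unfold CF.wt
    split_ifs
    · exact Nat.le_mul_of_pos_left m (by omega)
    · exact le_rfl
  have hα2 : Real.pi / 2 < α := by
    have : CF.gm h = 2 * Real.pi / (2 * h + 1) := rfl
    rw [← this] at hα
    linarith
  have hcnt := CF.cnt_clusters p (CF.wt h m) hw α (fun j => j = 0) h3 h4 (by
    intro x y z hxy hzy hne hboth
    have hpxy : p x ≠ p y := fun h => hne (congrArg Prod.snd (h1 h))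
    have h6 := EuclideanGeometry.angle_add_angle_add_angle_eq_pi (p₁ := p x) (p₂ := p y) (p z)
      hpxy.symm
    have h7 := EuclideanGeometry.angle_nonneg (p y) (p z) (p x)
    rw [EuclideanGeometry.angle_comm (p z) (p x) (p y)] at h6
    linarith [hboth.1, hboth.2]) h5
  refine ⟨(CF.Yw (CF.wt h m)).image p, ?_, ?_, ?_⟩
  · rw [Finset.card_image_of_injective _ h1, CF.card_Yw _ hw, CF.sum_wt]
  · exact Cvx.ConvexPos.mono h2 (image_subset_image (subset_univ _))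
  · rw [CF.sum_wt, Fin.sum_univ_succ] at hcnt
    have e1 : ∀ i : Fin h, CF.wt h m i.succ = 2 * h * m := fun i => if_neg (Fin.succ_ne_zero i)
    have e2 : CF.wt h m 0 = m := if_pos rfl
    have e3 : (2 * h ^ 2 + 1) * m - m = 2 * h ^ 2 * m := by
      rw [add_mul, one_mul, Nat.add_sub_cancel]
    simp only [e1, e2, if_true, Fin.succ_ne_zero, if_false, add_zero, sum_const, card_univ,
      Fintype.card_fin, smul_eq_mul, e3] at hcnt
    have hc : (cnt ((CF.Yw (CF.wt h m)).image p) (Set.Ioi α) : ℝ) ≤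
        ((2 * m.choose 3 + 2 * (m.choose 2 * (2 * h ^ 2 * m)) +
          h * (2 * (2 * h * m).choose 3) : ℕ) : ℝ) := by
      exact_mod_cast hcnt
    push_cast at hc
    have c1 := CF.choose3_le m
    have c2 := CF.choose2_le m
    have c3 := CF.choose3_le (2 * h * m)
    push_cast at c3
    have c4 : (m.choose 2 : ℝ) * (2 * (h : ℝ) ^ 2 * m) ≤ (m : ℝ) ^ 2 / 2 * (2 * (h : ℝ) ^ 2 * m) :=
      mul_le_mul_of_nonneg_right c2 (by positivity)
    have c5 : (h : ℝ) * (2 * ((2 * h * m).choose 3 : ℝ)) ≤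
        (h : ℝ) * (2 * ((2 * (h : ℝ) * m) ^ 3 / 6)) :=
      mul_le_mul_of_nonneg_left (by linarith) (by positivity)
    have e4 : (4 * (h : ℝ) ^ 2 + 1) / (3 * (2 * (h : ℝ) ^ 2 + 1) ^ 2) *
        (((2 * h ^ 2 + 1 : ℕ) : ℝ) * m) ^ 3 =
        (4 * (h : ℝ) ^ 2 + 1) * (2 * (h : ℝ) ^ 2 + 1) / 3 * (m : ℝ) ^ 3 := by
      push_cast
      have : (0 : ℝ) < 2 * (h : ℝ) ^ 2 + 1 := by positivity
      field_simp
    rw [e4]
    nlinarith

/-- `FC` is discontinuous at `π - 2π/(2h+1)`, for `h ≥ 2` -/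
theorem not_continuousAt_FC_odd (h : ℕ) (hh : 2 ≤ h) :
    ¬ ContinuousAt FC (Real.pi - 2 * Real.pi / (2 * h + 1)) := by
  have hhR : (2 : ℝ) ≤ h := by exact_mod_cast hh
  refine not_continuousAt_FC (fun x hx => FC_le_odd h hh hx) ?_
  refine lt_of_lt_of_le ?_ (le_FC_odd' h hh le_rfl)
  rw [div_lt_div_iff₀ (by positivity) (by positivity)]
  nlinarith [pow_pos (lt_of_lt_of_le zero_lt_two hhR) 2, pow_pos (lt_of_lt_of_le zero_lt_two hhR) 4]

end Pool.Agent.MP_0af329_co
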