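import Mathlib

/-!
# Angles below `α` for points in convex position: double counting at one vertex

`L u v` is `1` if the angle between the `u`-th and the `v`-th point (seen from a fixed vertex, in
cyclic order, `0 < u ≤ v < n`) is large.
-/

set_option autoImplicit false

namespace Pool.Agent.MP_0af329_co.CG

open Finset

theorem sum_mul_range (F : ℕ → ℕ) (G M : ℕ) :
    ∑ g ∈ range G, ∑ i ∈ range M, F (g + i * G) = ∑ m ∈ range (M * G), F m := by
  induction M with
  | zero => simp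
  | succ M ih =>
    rw [Nat.succ_mul, sum_range_add, ← ih, ← sum_add_distrib]
    refine sum_congr rfl fun g _ => ?_
    rw [sum_range_succ, add_comm g (M * G)]

theorem sum_mul_Ico (F : ℕ → ℕ) (G M : ℕ) :
    ∑ g ∈ Ico 1 (G + 1), ∑ i ∈ range M, F (g + i * G) = ∑ m ∈ range (M * G), F (m + 1) := by
  rw [← sum_mul_range (fun m => F (m + 1)), sum_Ico_eq_sum_range]
  simp only [Nat.add_sub_cancel]
  refine sum_congr rfl fun g _ => sum_congr rfl fun i _ => ?_
  congr 1
  omega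

theorem vertex_fwd (L : ℕ → ℕ → ℕ) (n G : ℕ) (hG : 1 ≤ G)
    (h0 : ∀ u, 0 < u → u < n → L u u = 0) :
    ∑ g ∈ Ico 1 (G + 1), ∑ e ∈ Ioo g n, ∑ i ∈ range n,
      L (min (g + i * G) e) (min (g + i * G + G) e) =
    ∑ e ∈ Ico 1 n, ∑ d ∈ Ico 1 e, L d (min (d + G) e) := by
  have h1 : ∀ g ∈ Ico 1 (G + 1), ∑ e ∈ Ioo g n, ∑ i ∈ range n,
      L (min (g + i * G) e) (min (g + i * G + G) e) = ∑ e ∈ Ico 1 n, ∑ i ∈ range n,
      L (min (g + i * G) e) (min (g + i * G + G) e) := by
    intro g hg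
    rw [mem_Ico] at hg
    refine sum_subset ?_ ?_
    · intro e he
      rw [mem_Ioo] at he
      rw [mem_Ico]
      omega
    · intro e he he'
      rw [mem_Ico] at he
      rw [mem_Ioo] at he'
      refine sum_eq_zero fun i _ => ?_
      have h2 : e ≤ g + i * G := by
        have : e ≤ g := by omega
        exact this.trans (Nat.le_add_right _ _)
      rw [min_eq_right h2, min_eq_right (h2.trans (Nat.le_add_right _ _))]
      exact h0 e (by omega) he.2
  rw [sum_congr rfl h1, sum_comm]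
  refine sum_congr rfl fun e he => ?_
  rw [mem_Ico] at he
  rw [sum_mul_Ico (fun d => L (min d e) (min (d + G) e))]
  have h3 : ∑ d ∈ Ico 1 e, L d (min (d + G) e) =
      ∑ m ∈ range (e - 1), L (min (m + 1) e) (min (m + 1 + G) e) := by
    rw [sum_Ico_eq_sum_range]
    refine sum_congr rfl fun m hm => ?_
    rw [mem_range] at hm
    rw [add_comm 1 m, min_eq_left (by omega : m + 1 ≤ e)]
  rw [h3]
  symm
  refine sum_subset ?_ ?_
  · intro m hm
    rw [mem_range] at hm ⊢
    have : n * 1 ≤ n * G := Nat.mul_le_mul_left n hG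
    omega
  · intro m _ hm
    rw [mem_range] at hm
    have h2 : e ≤ m + 1 := by omega
    rw [min_eq_right h2, min_eq_right (h2.trans (Nat.le_add_right _ _))]
    exact h0 e (by omega) he.2

theorem vertex_bwd (L : ℕ → ℕ → ℕ) (n G : ℕ) (hG : 1 ≤ G)
    (h0 : ∀ u, 0 < u → u < n → L u u = 0) :
    ∑ g ∈ Ico 1 (G + 1), ∑ z ∈ Ico 1 (n - g), ∑ i ∈ range n,
      L (max z (n - (g + i * G) - G)) (max z (n - (g + i * G))) =
    ∑ z ∈ Ico 1 n, ∑ v ∈ Ioo z n, L (max z (v - G)) v := by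
  have h1 : ∀ g ∈ Ico 1 (G + 1), ∑ z ∈ Ico 1 (n - g), ∑ i ∈ range n,
      L (max z (n - (g + i * G) - G)) (max z (n - (g + i * G))) =
      ∑ z ∈ Ico 1 n, ∑ i ∈ range n,
      L (max z (n - (g + i * G) - G)) (max z (n - (g + i * G))) := by
    intro g hg
    rw [mem_Ico] at hg
    refine sum_subset ?_ ?_
    · intro e he
      rw [mem_Ico] at he ⊢
      omega
    · intro z hz hz'
      rw [mem_Ico] at hz hz'
      refine sum_eq_zero fun i _ => ?_
      have h2 : n - (g + i * G) ≤ z := by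
        have : n - g ≤ z := by omega
        exact (Nat.sub_le_sub_left (Nat.le_add_right _ _) _).trans this
      rw [max_eq_left h2, max_eq_left ((Nat.sub_le _ _).trans h2)]
      exact h0 z (by omega) hz.2
  rw [sum_congr rfl h1, sum_comm]
  refine sum_congr rfl fun z hz => ?_
  rw [mem_Ico] at hz
  rw [sum_mul_Ico (fun d => L (max z (n - d - G)) (max z (n - d)))]
  have h3 : ∑ v ∈ Ioo z n, L (max z (v - G)) v =
      ∑ m ∈ range (n - 1 - z), L (max z (n - (m + 1) - G)) (max z (n - (m + 1))) := by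
    have e0 : Ioo z n = Ico (z + 1) n := by
      ext v
      rw [mem_Ioo, mem_Ico]
      omega
    rw [← sum_range_reflect, e0, sum_Ico_eq_sum_range]
    have e1 : n - (z + 1) = n - 1 - z := by omega
    rw [e1]
    refine sum_congr rfl fun m hm => ?_
    rw [mem_range] at hm
    have e2 : z + 1 + m = n - (n - 1 - z - 1 - m + 1) := by omega
    rw [e2, max_eq_right (a := z) (b := n - (n - 1 - z - 1 - m + 1)) (by omega)]
  rw [h3]
  symm
  refine sum_subset ?_ ?_
  · intro m hm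
    rw [mem_range] at hm ⊢
    have : n * 1 ≤ n * G := Nat.mul_le_mul_left n hG
    omega
  · intro m _ hm
    rw [mem_range] at hm
    have h2 : n - (m + 1) ≤ z := by omega
    rw [max_eq_left h2, max_eq_left ((Nat.sub_le _ _).trans h2)]
    exact h0 z (by omega) hz.2

/-- The number of large corners of gap `j` at the vertex. -/
def gp (L : ℕ → ℕ → ℕ) (n j : ℕ) : ℕ := ∑ d ∈ Ico 1 (n - j), L d (d + j)

theorem vertex_mid (L : ℕ → ℕ → ℕ) (n G : ℕ) :
    ∑ g ∈ Ico 1 (G + 1), ∑ d ∈ Ico 1 (n - g), L d (d + g) =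
      ∑ j ∈ Ico 1 (G + 1), gp L n j := rfl

/-- pairs `d < e` by their difference -/
theorem sum_pairs (φ : ℕ → ℕ → ℕ) (n : ℕ) :
    ∑ d ∈ Ico 1 n, ∑ e ∈ Ioo d n, φ d e = ∑ j ∈ Ico 1 n, ∑ d ∈ Ico 1 (n - j), φ d (d + j) := by
  rw [sum_sigma', sum_sigma']
  refine sum_bij' (fun t _ => ⟨t.2 - t.1, t.1⟩) (fun t _ => ⟨t.2, t.2 + t.1⟩) ?_ ?_ ?_ ?_ ?_
  · rintro ⟨d, e⟩ h
    simp only [mem_sigma, mem_Ico, mem_Ioo] at h ⊢
    omega
  · rintro ⟨j, d⟩ h
    simp only [mem_sigma, mem_Ico, mem_Ioo] at h ⊢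
    omega
  · rintro ⟨d, e⟩ h
    simp only [mem_sigma, mem_Ico, mem_Ioo] at h
    have : d + (e - d) = e := by omega
    simp only [this]
  · rintro ⟨j, d⟩ h
    have : d + j - d = j := by omega
    simp only [this]
  · rintro ⟨d, e⟩ h
    simp only [mem_sigma, mem_Ico, mem_Ioo] at h
    have : d + (e - d) = e := by omega
    simp only [this]

theorem sum_halves (φ : ℕ → ℕ) (N : ℕ) :
    ∑ s ∈ range N, (∑ d ∈ Ico 1 (N - s), φ d + ∑ d ∈ Ico (1 + s) N, φ d) =
      N * ∑ d ∈ Ico 1 N, φ d := by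
  rw [sum_add_distrib]
  have h1 : ∑ s ∈ range N, ∑ d ∈ Ico 1 (N - s), φ d = ∑ s ∈ range N, ∑ d ∈ Ico 1 (s + 1), φ d := by
    rw [← sum_range_reflect]
    refine sum_congr rfl fun s hs => ?_
    rw [mem_range] at hs
    have : N - (N - 1 - s) = s + 1 := by omega
    rw [this]
  rw [h1, ← sum_add_distrib]
  have h2 : ∀ s ∈ range N, (∑ d ∈ Ico 1 (s + 1), φ d + ∑ d ∈ Ico (1 + s) N, φ d) =
      ∑ d ∈ Ico 1 N, φ d := by
    intro s hs
    rw [mem_range] at hs
    rw [add_comm 1 s]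
    exact sum_Ico_consecutive φ (by omega) (by omega)
  rw [sum_congr rfl h2, sum_const, card_range, smul_eq_mul]

theorem swap_pairs (φ : ℕ → ℕ → ℕ) (n : ℕ) :
    ∑ e ∈ Ico 1 n, ∑ d ∈ Ico 1 e, φ d e = ∑ d ∈ Ico 1 n, ∑ e ∈ Ioo d n, φ d e := by
  rw [sum_sigma', sum_sigma']
  refine sum_bij' (fun t _ => ⟨t.2, t.1⟩) (fun t _ => ⟨t.2, t.1⟩) ?_ ?_ ?_ ?_ ?_
  · rintro ⟨d, e⟩ h
    simp only [mem_sigma, mem_Ico, mem_Ioo] at h ⊢
    omega
  · rintro ⟨j, d⟩ h
    simp only [mem_sigma, mem_Ico, mem_Ioo] at h ⊢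
    omega
  · rintro ⟨d, e⟩ h
    rfl
  · rintro ⟨d, e⟩ h
    rfl
  · rintro ⟨d, e⟩ h
    rfl

theorem vertex_pairs (L : ℕ → ℕ → ℕ) (n G : ℕ) (hG : 1 ≤ G) (hGn : G < n) :
    ∑ e ∈ Ico 1 n, ∑ d ∈ Ico 1 e, L d (min (d + G) e) +
      ∑ z ∈ Ico 1 n, ∑ v ∈ Ioo z n, L (max z (v - G)) v =
    2 * ∑ j ∈ Ico 1 G, gp L n j + (n - G) * gp L n G := by
  rw [swap_pairs (fun d e => L d (min (d + G) e)), sum_pairs, sum_pairs, ← sum_add_distrib]
  have hs : Ico 1 n = Ico 1 G ∪ Ico G n := by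
    ext j
    simp only [mem_union, mem_Ico]
    omega
  have hd : Disjoint (Ico 1 G) (Ico G n) := by
    rw [disjoint_left]
    intro j h h'
    rw [mem_Ico] at h h'
    omega
  rw [hs, sum_union hd]
  congr 1
  · rw [mul_sum]
    refine sum_congr rfl fun j hj => ?_
    rw [mem_Ico] at hj
    rw [two_mul, gp]
    congr 1
    · refine sum_congr rfl fun d _ => ?_
      rw [min_eq_right (by omega)]
    · refine sum_congr rfl fun d _ => ?_
      rw [max_eq_left (by omega)]
  · rw [sum_Ico_eq_sum_range, gp, ← sum_halves (fun d => L d (d + G)) (n - G)]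
    refine sum_congr rfl fun s hs' => ?_
    rw [mem_range] at hs'
    congr 1
    · have e1 : n - (G + s) = n - G - s := by omega
      rw [e1]
      refine sum_congr rfl fun d _ => ?_
      rw [min_eq_left (by omega)]
    · have e1 : Ico (1 + s) (n - G) = (Ico 1 (n - (G + s))).image (fun d => d + s) := by
        ext d
        simp only [mem_image, mem_Ico]
        constructor
        · intro h
          exact ⟨d - s, by omega, by omega⟩
        · rintro ⟨a, h, rfl⟩
          omega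
      rw [e1, sum_image (fun a _ b _ h => by simpa using h)]
      refine sum_congr rfl fun d _ => ?_
      rw [max_eq_right (by omega)]
      have e2 : d + (G + s) - G = d + s := by omega
      have e3 : d + (G + s) = d + s + G := by omega
      rw [e2, e3]

end Pool.Agent.MP_0af329_co.CG
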