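import Pool.Agent.MP_0af329_co.Lim
import Pool.Agent.MP_0af329_co.Acute

/-! Row [ANG-EQ]: a given value of the angle occurs `O(n²)` times. For distinct `x, y` the points
`z` with `∠ x y z = a` lie on at most two rays from `y`, and every line through `y` contains at
most one other point of `S`. -/

namespace Pool.Agent.MP_0af329_co

open EuclideanGeometry Filter Topology

/-- Two points seen from `y` at the same angle from `x` and on the same side are on one line
through `y`. -/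
theorem eqang_collinear (x y z z' : Pt) (hxy : x ≠ y) (a : ℝ) (hz : ∠ x y z = a)
    (hz' : ∠ x y z' = a)
    (hs : (0 ≤ (x 0 - y 0) * (z 1 - y 1) - (x 1 - y 1) * (z 0 - y 0)) ↔
      (0 ≤ (x 0 - y 0) * (z' 1 - y 1) - (x 1 - y 1) * (z' 0 - y 0))) :
    Collinear ℝ ({z, y, z'} : Set Pt) := by
  have hcos : ∀ w : Pt, ∠ x y w = a → (x 0 - y 0) * (w 0 - y 0) + (x 1 - y 1) * (w 1 - y 1) =
      Real.cos a * (‖x - y‖ * ‖w - y‖) := by
    intro w hw
    have h1 : ∠ x y w = InnerProductGeometry.angle (x - y) (w - y) := rfl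
    have h2 := InnerProductGeometry.cos_angle_mul_norm_mul_norm (x - y) (w - y)
    rw [← h1, hw] at h2
    rw [h2, PiLp.inner_apply, Fin.sum_univ_two]
    simp only [RCLike.inner_apply, conj_trivial, PiLp.sub_apply]
    ring
  have hnorm : ∀ w : Pt, ‖w - y‖ ^ 2 = (w 0 - y 0) ^ 2 + (w 1 - y 1) ^ 2 := by
    intro w
    rw [EuclideanSpace.norm_sq_eq, Fin.sum_univ_two]
    simp [sq_abs]
  have hsin : ∀ w : Pt, ∠ x y w = a →
      ((x 0 - y 0) * (w 1 - y 1) - (x 1 - y 1) * (w 0 - y 0)) ^ 2 =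
      (|Real.sin a| * (‖x - y‖ * ‖w - y‖)) ^ 2 := by
    intro w hw
    have h1 := hcos w hw
    have h2 := hnorm w
    have h3 := hnorm x
    have h4 : (|Real.sin a|) ^ 2 = 1 - Real.cos a ^ 2 := by
      rw [sq_abs]; linarith [Real.sin_sq_add_cos_sq a]
    have h5 : (|Real.sin a| * (‖x - y‖ * ‖w - y‖)) ^ 2 =
        ‖x - y‖ ^ 2 * ‖w - y‖ ^ 2 - (Real.cos a * (‖x - y‖ * ‖w - y‖)) ^ 2 := by
      rw [mul_pow, h4]; ring
    rw [h5, ← h1, h2, h3]
    ring
  set P := (x 0 - y 0) * (z 1 - y 1) - (x 1 - y 1) * (z 0 - y 0) with hP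
  set Q := (x 0 - y 0) * (z' 1 - y 1) - (x 1 - y 1) * (z' 0 - y 0) with hQ
  have c1 := hcos z hz
  have c2 := hcos z' hz'
  have s1 := hsin z hz
  have s2 := hsin z' hz'
  rw [← hP] at s1
  rw [← hQ] at s2
  have n1 : 0 ≤ |Real.sin a| * (‖x - y‖ * ‖z - y‖) := by positivity
  have n2 : 0 ≤ |Real.sin a| * (‖x - y‖ * ‖z' - y‖) := by positivity
  have key : ‖z' - y‖ * P = ‖z - y‖ * Q := by
    rcases le_or_gt 0 P with h | h
    · have h' := hs.1 h
      have e1 : P = |Real.sin a| * (‖x - y‖ * ‖z - y‖) := (sq_eq_sq₀ h n1).1 s1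
      have e2 : Q = |Real.sin a| * (‖x - y‖ * ‖z' - y‖) := (sq_eq_sq₀ h' n2).1 s2
      rw [e1, e2]; ring
    · have h' : Q < 0 := by
        by_contra hq
        exact absurd (hs.2 (not_lt.1 hq)) (not_le.2 h)
      have e1 : -P = |Real.sin a| * (‖x - y‖ * ‖z - y‖) :=
        (sq_eq_sq₀ (by linarith) n1).1 (by rw [neg_sq]; exact s1)
      have e2 : -Q = |Real.sin a| * (‖x - y‖ * ‖z' - y‖) :=
        (sq_eq_sq₀ (by linarith) n2).1 (by rw [neg_sq]; exact s2)
      have e3 : P = -(|Real.sin a| * (‖x - y‖ * ‖z - y‖)) := by linarith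
      have e4 : Q = -(|Real.sin a| * (‖x - y‖ * ‖z' - y‖)) := by linarith
      rw [e3, e4]; ring
  have hx2 := hnorm x
  have hxpos : 0 < ‖x - y‖ := norm_pos_iff.2 (sub_ne_zero.2 hxy)
  -- the determinant of `z, y, z'`
  have hdet : ‖x - y‖ ^ 2 * ((z 0 - y 0) * (z' 1 - y 1) - (z 1 - y 1) * (z' 0 - y 0)) = 0 := by
    rw [hx2]
    have h6 : ((x 0 - y 0) ^ 2 + (x 1 - y 1) ^ 2) *
        ((z 0 - y 0) * (z' 1 - y 1) - (z 1 - y 1) * (z' 0 - y 0)) =
        ((x 0 - y 0) * (z 0 - y 0) + (x 1 - y 1) * (z 1 - y 1)) * Q -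
        ((x 0 - y 0) * (z' 0 - y 0) + (x 1 - y 1) * (z' 1 - y 1)) * P := by
      rw [hP, hQ]; ring
    rw [h6, c1, c2]
    linear_combination -(Real.cos a * ‖x - y‖) * key
  have hd : (z 0 - y 0) * (z' 1 - y 1) - (z 1 - y 1) * (z' 0 - y 0) = 0 :=
    (mul_eq_zero.1 hdet).resolve_left (pow_ne_zero 2 hxpos.ne')
  have hcol : Collinear ℝ ({y, z, z'} : Set Pt) := by
    apply acute_collinear
    rw [acute_det]
    linarith
  rw [Set.insert_comm]
  exact hcol

theorem eqang_fiber {S : Finset Pt} (hS : GenPos S) (a : ℝ) (x y : Pt) (_hx : x ∈ S) (hy : y ∈ S)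
    (hxy : x ≠ y) [DecidableEq Pt] [DecidablePred fun z => ∠ x y z = a] :
    (((S.erase y).erase x).filter fun z => ∠ x y z = a).card ≤ 2 := by
  classical
  by_contra hcon
  push Not at hcon
  have hb : (Finset.univ : Finset Bool).card <
      (((S.erase y).erase x).filter fun z => ∠ x y z = a).card := by
    rw [Finset.card_univ, Fintype.card_bool]
    exact hcon
  obtain ⟨z, hz, z', hz', hne, hf⟩ := Finset.exists_ne_map_eq_of_card_lt_of_maps_to
    (t := (Finset.univ : Finset Bool)) hb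
    (f := fun w : Pt => decide (0 ≤ (x 0 - y 0) * (w 1 - y 1) - (x 1 - y 1) * (w 0 - y 0)))
    (fun _ _ => Finset.mem_univ _)
  rw [Finset.mem_filter, Finset.mem_erase, Finset.mem_erase] at hz hz'
  have hs := decide_eq_decide.1 hf
  have hcol := eqang_collinear x y z z' hxy a hz.2 hz'.2 hs
  exact hS z hz.1.2.2 y hy z' hz'.1.2.2 hz.1.2.1 (Ne.symm hz'.1.2.1) hne hcol

theorem cnt_singleton_le {S : Finset Pt} (hS : GenPos S) (a : ℝ) :
    (cnt S {a} : ℝ) ≤ 2 * (S.card : ℝ) ^ 2 := by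
  classical
  rw [cnt_eq_sum, sum_trip_eq S (fun x y z => if ∠ x y z ∈ ({a} : Set ℝ) then (1 : ℝ) else 0)]
  calc ∑ y ∈ S, ∑ x ∈ S.erase y, ∑ z ∈ (S.erase y).erase x,
        (if ∠ x y z ∈ ({a} : Set ℝ) then (1 : ℝ) else 0)
      ≤ ∑ y ∈ S, ∑ x ∈ S.erase y, (2 : ℝ) := by
        refine Finset.sum_le_sum fun y hy => Finset.sum_le_sum fun x hx => ?_
        rw [Finset.mem_erase] at hx
        have h := eqang_fiber hS a x y hx.2 hy hx.1
        simp only [Set.mem_singleton_iff]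
        rw [← Finset.sum_filter, Finset.sum_const, nsmul_eq_mul, mul_one]
        exact_mod_cast h
    _ ≤ ∑ y ∈ S, ∑ x ∈ S, (2 : ℝ) := by
        refine Finset.sum_le_sum fun y hy => ?_
        exact Finset.sum_le_sum_of_subset_of_nonneg (Finset.erase_subset _ _)
          (fun _ _ _ => by norm_num)
    _ = 2 * (S.card : ℝ) ^ 2 := by
        rw [Finset.sum_const, Finset.sum_const, nsmul_eq_mul, nsmul_eq_mul]
        ring

/-- Adding one value to the set of counted angles does not change the density. -/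
theorem dens_union_singleton (A : Set ℝ) (a : ℝ) : dens (A ∪ {a}) = dens A := by
  classical
  refine le_antisymm ?_ (dens_mono Set.subset_union_left)
  have h1 : Tendsto (fun n : ℕ => ratio n A + 8 / (n : ℝ)) atTop (𝓝 (dens A + 0)) :=
    (tendsto_ratio A).add (tendsto_const_div_atTop_nhds_zero_nat 8)
  rw [add_zero] at h1
  refine le_of_tendsto_of_tendsto (tendsto_ratio (A ∪ {a})) h1 ?_
  filter_upwards [eventually_ge_atTop 4] with n hn
  obtain ⟨S, hSn, hS, hmin⟩ := exists_minCnt n A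
  have h2 : minCnt n (A ∪ {a}) ≤ cnt S (A ∪ {a}) := by
    have := minCnt_le hS (A ∪ {a})
    rwa [hSn] at this
  have h3 : cnt S (A ∪ {a}) ≤ cnt S A + cnt S {a} := by
    unfold cnt
    refine le_trans (Finset.card_le_card ?_) (Finset.card_union_le _ _)
    intro t ht
    have ht' := (@Finset.mem_filter _ _ (fun t : Pt × Pt × Pt =>
      Classical.propDecidable (∠ t.1 t.2.1 t.2.2 ∈ A ∪ {a})) _ _).1 ht
    refine Finset.mem_union.2 ?_
    rcases ht'.2 with h | h
    · exact Or.inl ((@Finset.mem_filter _ _ (fun t : Pt × Pt × Pt =>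
        Classical.propDecidable (∠ t.1 t.2.1 t.2.2 ∈ A)) _ _).2 ⟨ht'.1, h⟩)
    · exact Or.inr ((@Finset.mem_filter _ _ (fun t : Pt × Pt × Pt =>
        Classical.propDecidable (∠ t.1 t.2.1 t.2.2 ∈ ({a} : Set ℝ))) _ _).2 ⟨ht'.1, h⟩)
  have h4 := cnt_singleton_le hS a
  rw [hSn] at h4
  have hn4 : (4 : ℝ) ≤ n := by exact_mod_cast hn
  have h5 : (minCnt n (A ∪ {a}) : ℝ) ≤ minCnt n A + 2 * (n : ℝ) ^ 2 := by
    have h6 : (minCnt n (A ∪ {a}) : ℝ) ≤ (cnt S A : ℝ) + cnt S {a} := by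
      exact_mod_cast h2.trans h3
    rw [← hmin]
    linarith
  have hpos : 0 < (n : ℝ) * ((n : ℝ) - 1) * ((n : ℝ) - 2) :=
    mul_pos (mul_pos (by linarith) (by linarith)) (by linarith)
  rw [ratio, ratio, div_add_div _ _ hpos.ne' (by positivity), div_le_div_iff₀ hpos (by positivity)]
  have h7 : 2 * (n : ℝ) ^ 2 * n ≤ 8 * ((n : ℝ) * ((n : ℝ) - 1) * ((n : ℝ) - 2)) := by
    nlinarith [mul_nonneg (mul_nonneg (by linarith : (0 : ℝ) ≤ n) (by linarith : (0 : ℝ) ≤ n - 2))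
      (by linarith : (0 : ℝ) ≤ (n : ℝ) - 4), sq_nonneg ((n : ℝ) - 4)]
  nlinarith [mul_le_mul_of_nonneg_right h5 (by linarith : (0 : ℝ) ≤ n),
    mul_le_mul_of_nonneg_left h7 hpos.le]

theorem dens_Ici (a : ℝ) : dens (Set.Ici a) = dens (Set.Ioi a) := by
  rw [← Set.Ioi_union_left, dens_union_singleton]

theorem dens_Iic (a : ℝ) : dens (Set.Iic a) = dens (Set.Iio a) := by
  rw [← Set.Iio_union_right, dens_union_singleton]

end Pool.Agent.MP_0af329_co
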