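import Pool.Agent.MP_0af329_co.CG4
import Pool.Agent.MP_0af329_co.EqAng

/-!
# Angles below `α` for points in convex position: the lower bound
-/

set_option autoImplicit false

namespace Pool.Agent.MP_0af329_co.CG

open Finset EuclideanGeometry
open Pool.Agent.MP_0af329_co.Cvx (co CP ConvexPos)

variable {q : ℕ → Pt} {n : ℕ}

theorem q_eq (h : CP (fun i => co (q i)) n) (hn : 3 ≤ n) {v i j : ℕ} (hi : v ≤ i)
    (hj : v ≤ j) (hi' : i < v + n) (hj' : j < v + n) (he : q i = q j) : i = j := by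
  refine h.eq_of_eq hn hi hj hi' hj' ?_
  simp only [he]

open Classical in
theorem two_card_Sm_le (h : CP (fun i => co (q i)) n) (hn : 3 ≤ n) {S : Finset Pt}
    (hS : ∀ i, q i ∈ S) (A : Set ℝ) :
    2 * (Sm n fun x d e => ag q x d e ∈ A).card ≤ cnt S A := by
  have h1 : 2 * (Sm n fun x d e => ag q x d e ∈ A).card =
      ((Sm n fun x d e => ag q x d e ∈ A) ×ˢ (univ : Finset Bool)).card := by
    rw [card_product, card_univ, Fintype.card_bool, mul_comm]
  rw [h1]
  unfold cnt
  refine card_le_card_of_injOn (fun t : (ℕ × ℕ × ℕ) × Bool =>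
    if t.2 then (q (t.1.1 + t.1.2.2), q t.1.1, q (t.1.1 + t.1.2.1))
    else (q (t.1.1 + t.1.2.1), q t.1.1, q (t.1.1 + t.1.2.2))) ?_ ?_
  · rintro ⟨⟨x, d, e⟩, b⟩ ht
    rw [mem_coe, mem_product] at ht
    have ht1 := ht.1
    unfold Sm at ht1
    rw [mem_filter, mem_product, mem_product, mem_range, mem_range, mem_range] at ht1
    obtain ⟨⟨h3, h4, h5⟩, ⟨h6, h7⟩, h8⟩ := ht1
    simp only at h3 h4 h5 h6 h7 h8
    have n1 : q x ≠ q (x + d) := q_ne h hn (by omega) (by omega)
    have n2 : q x ≠ q (x + e) := q_ne h hn (by omega) (by omega)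
    have n3 : q (x + d) ≠ q (x + e) := q_ne h hn (by omega) (by omega)
    cases b
    · simp only [mem_coe, mem_filter, Bool.false_eq_true, if_false]
      exact ⟨mem_trip.2 ⟨⟨hS _, hS _, hS _⟩, n1.symm, n2, n3⟩, h8⟩
    · simp only [mem_coe, mem_filter, if_true]
      refine ⟨mem_trip.2 ⟨⟨hS _, hS _, hS _⟩, n2.symm, n1, n3.symm⟩, ?_⟩
      rw [EuclideanGeometry.angle_comm]
      exact h8
  · rintro ⟨⟨x, d, e⟩, b⟩ ht ⟨⟨x', d', e'⟩, b'⟩ ht' he
    rw [mem_coe, mem_product] at ht ht'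
    have ht1 := ht.1
    have ht1' := ht'.1
    unfold Sm at ht1 ht1'
    rw [mem_filter, mem_product, mem_product, mem_range, mem_range, mem_range] at ht1 ht1'
    obtain ⟨⟨h3, h4, h5⟩, ⟨h6, h7⟩, -⟩ := ht1
    obtain ⟨⟨h3', h4', h5'⟩, ⟨h6', h7'⟩, -⟩ := ht1'
    simp only at h3 h4 h5 h6 h7 h3' h4' h5' h6' h7'
    cases b <;> cases b' <;>
      simp only [Bool.false_eq_true, if_false, if_true, Prod.mk.injEq] at he <;>
      obtain ⟨e1, e2, e3⟩ := he <;>
      have e4 := q_eq h hn (v := 0) (Nat.zero_le _) (Nat.zero_le _) (by omega) (by omega) e2 <;>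
      subst e4 <;>
      have e5 := q_eq h hn (v := x) (Nat.le_add_right _ _) (Nat.le_add_right _ _) (by omega)
        (by omega) e1 <;>
      have e6 := q_eq h hn (v := x) (Nat.le_add_right _ _) (Nat.le_add_right _ _) (by omega)
        (by omega) e3
    · have e7 : d = d' := by omega
      have e8 : e = e' := by omega
      rw [e7, e8]
    · omega
    · omega
    · have e7 : d = d' := by omega
      have e8 : e = e' := by omega
      rw [e7, e8]

/-- `vb n k G`: the lower bound for the number of small angles -/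
noncomputable def vb (n k G : ℝ) : ℝ := n * (G * (n - 1) - G * (G + 1) / 2) - bd n k G

open Classical in
theorem cnt_Iio_ge {S : Finset Pt} (hc : ConvexPos S) (hg : GenPos S) {α : ℝ} (hα : 0 < α)
    {k : ℕ} (hk : Real.pi < ((k : ℝ) + 1) * α) (h3 : 3 ≤ S.card) (G : ℕ) (hG : G + 2 ≤ S.card) :
    2 * vb S.card k G ≤ cnt S (Set.Iio α) := by
  obtain ⟨q, h1, h2, -, -⟩ := Cvx.exists_CP S hg hc h3
  have C := chain_of_thr h1 h3 (thr_closed hα hk)
  have h4 := C.total (fun x u v => (thr_closed hα hk).one _) G hG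
  have h5 := two_card_Sm_le h1 h3 h2 (Set.Iio α)
  have h6 : (Sm S.card fun x d e => (if α ≤ ag q x d e then 1 else 0) = 0) =
      Sm S.card fun x d e => ag q x d e ∈ Set.Iio α := by
    refine Sm_congr _ fun x d e => ?_
    rw [Set.mem_Iio]
    split_ifs with h
    · simp [h]
    · simpa using h
  have h7 : ((Sm S.card fun x d e => ag q x d e ∈ Set.Iio α).card : ℝ) * 2 ≤
      (cnt S (Set.Iio α) : ℝ) := by
    have : (Sm S.card fun x d e => ag q x d e ∈ Set.Iio α).card * 2 ≤ cnt S (Set.Iio α) := by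
      omega
    exact_mod_cast this
  rw [← h6] at h7
  unfold vb
  linarith

open Classical in
theorem cnt_Iic_ge {S : Finset Pt} (hc : ConvexPos S) (hg : GenPos S) {α : ℝ} (hα : 0 < α)
    {k : ℕ} (hk : Real.pi ≤ ((k : ℝ) + 1) * α) (h3 : 3 ≤ S.card) (G : ℕ) (hG : G + 2 ≤ S.card) :
    2 * vb S.card k G ≤ cnt S (Set.Iic α) := by
  obtain ⟨q, h1, h2, -, -⟩ := Cvx.exists_CP S hg hc h3
  have C := chain_of_thr h1 h3 (thr_open hα hk)
  have h4 := C.total (fun x u v => (thr_open hα hk).one _) G hG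
  have h5 := two_card_Sm_le h1 h3 h2 (Set.Iic α)
  have h6 : (Sm S.card fun x d e => (if α < ag q x d e then 1 else 0) = 0) =
      Sm S.card fun x d e => ag q x d e ∈ Set.Iic α := by
    refine Sm_congr _ fun x d e => ?_
    rw [Set.mem_Iic]
    split_ifs with h
    · simp [h]
    · simpa using h
  have h7 : ((Sm S.card fun x d e => ag q x d e ∈ Set.Iic α).card : ℝ) * 2 ≤
      (cnt S (Set.Iic α) : ℝ) := by
    have : (Sm S.card fun x d e => ag q x d e ∈ Set.Iic α).card * 2 ≤ cnt S (Set.Iic α) := by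
      omega
    exact_mod_cast this
  rw [← h6] at h7
  unfold vb
  linarith

end Pool.Agent.MP_0af329_co.CG
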