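import Pool.Agent.MP_0af329_co.CG9
import Pool.Agent.MP_0af329_co.CG5

/-!
# The values of `G` for points in convex position
-/

set_option autoImplicit false

namespace Pool.Agent.MP_0af329_co

open Filter Topology Finset
open Pool.Agent.MP_0af329_co.Cvx (ConvexPos minCntC)

namespace CG

theorem ch2 (w : ℕ) : ((w.choose 2 : ℕ) : ℝ) = (w : ℝ) * ((w : ℝ) - 1) / 2 :=
  Nat.cast_choose_two ℝ w

theorem ch3 (w : ℕ) : ((w.choose 3 : ℕ) : ℝ) = (w : ℝ) * ((w : ℝ) - 1) * ((w : ℝ) - 2) / 6 := by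
  rcases Nat.lt_or_ge w 2 with h | h
  · interval_cases w <;> norm_num
  · exact Cvx.choose3 w h

theorem cl_cast {w n : ℕ} (h : w ≤ n) : ((cl w n : ℕ) : ℝ) =
    (w : ℝ) * ((w : ℝ) - 1) / 2 * ((n : ℝ) - w) + (w : ℝ) * ((w : ℝ) - 1) * ((w : ℝ) - 2) / 3 := by
  rw [cl]
  push_cast [Nat.cast_sub h]
  rw [ch2, ch3]
  ring

theorem Tk_cast {k : ℕ} (hk : 1 ≤ k) (n : ℕ) : ((Tk k n : ℕ) : ℝ) = vb n k ((n / k : ℕ) : ℝ) := by
  have hr : n % k < k := Nat.mod_lt _ (by omega)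
  have hn := Nat.div_add_mod n k
  set w := n / k with hw
  set r := n % k with hrr
  have hwn : w ≤ n := by
    rw [← hn]
    exact (Nat.le_mul_of_pos_left w (by omega)).trans (Nat.le_add_right _ _)
  have hnR : (n : ℝ) = (k : ℝ) * w + r := by exact_mod_cast hn.symm
  have h1 : ((r * cl (w + 1) n : ℕ) : ℝ) = (r : ℝ) * (((w : ℝ) + 1) * w / 2 * ((n : ℝ) - (w + 1)) +
      ((w : ℝ) + 1) * w * ((w : ℝ) - 1) / 3) := by
    rcases Nat.eq_zero_or_pos r with h0 | h0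
    · rw [h0]
      simp
    · have h2 : w + 1 ≤ n := by
        rw [← hn]
        have : w ≤ k * w := Nat.le_mul_of_pos_left w (by omega)
        omega
      push_cast
      rw [cl_cast h2]
      push_cast
      ring
  have h2 : (((k - r) * cl w n : ℕ) : ℝ) = ((k : ℝ) - r) * ((w : ℝ) * ((w : ℝ) - 1) / 2 *
      ((n : ℝ) - w) + (w : ℝ) * ((w : ℝ) - 1) * ((w : ℝ) - 2) / 3) := by
    push_cast [Nat.cast_sub hr.le]
    rw [cl_cast hwn]
  have h3 : Tk k n = r * cl (w + 1) n + (k - r) * cl w n := rfl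
  rw [h3, Nat.cast_add, h1, h2, vb, bd]
  rw [hnR]
  ring

theorem exists_G {k n : ℕ} (hk : 1 ≤ k) (hn : 3 ≤ n) :
    ∃ G : ℕ, G + 2 ≤ n ∧ vb n k (G : ℝ) = vb n k ((n / k : ℕ) : ℝ) := by
  rcases Nat.lt_or_ge k 2 with h | h
  · have h1 : k = 1 := by omega
    subst h1
    refine ⟨n - 2, by omega, ?_⟩
    rw [Nat.div_one, Nat.cast_sub (by omega)]
    unfold vb bd
    push_cast
    ring
  · refine ⟨n / k, ?_, rfl⟩
    have h1 : n / k ≤ n / 2 := Nat.div_le_div_left h (by norm_num)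
    omega

theorem vb_ge {k : ℕ} (hk : 1 ≤ k) (n : ℕ) :
    (1 / (k : ℝ) - 1 / (3 * (k : ℝ) ^ 2)) * (n : ℝ) ^ 3 - 5 * (n : ℝ) ^ 2 ≤
      2 * vb n k ((n / k : ℕ) : ℝ) := by
  have hk0 : (1 : ℝ) ≤ k := by exact_mod_cast hk
  obtain ⟨y, hy⟩ : ∃ y : ℝ, y = (n : ℝ) / k := ⟨_, rfl⟩
  have hny : (n : ℝ) = k * y := by
    rw [hy]
    field_simp
  obtain ⟨x, hx⟩ : ∃ x : ℝ, x = ((n / k : ℕ) : ℝ) := ⟨_, rfl⟩
  have hx0 : 0 ≤ x := by rw [hx]; exact Nat.cast_nonneg _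
  have hxy : x ≤ y := by
    rw [hx, hy]
    exact Nat.cast_div_le
  have hyx : y - x < 1 := by
    rw [hx, hy]
    have h1 : (n : ℝ) / k < ((n / k : ℕ) : ℝ) + 1 := by
      rw [div_lt_iff₀ (by linarith)]
      have h2 : n < (n / k + 1) * k := by
        have := Nat.div_add_mod n k
        have h3 := Nat.mod_lt n (show 0 < k by omega)
        calc n = k * (n / k) + n % k := this.symm
          _ < k * (n / k) + k := by omega
          _ = (n / k + 1) * k := by ring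
      exact_mod_cast h2
    linarith
  rw [← hx, hny]
  have hy0 : 0 ≤ y := hx0.trans hxy
  have e1 : 2 * vb (k * y) k x - ((1 / (k : ℝ) - 1 / (3 * (k : ℝ) ^ 2)) * ((k : ℝ) * y) ^ 3) =
      k * (-(k * y * (y - x) ^ 2) + (y - x) ^ 2 * (y + 2 * x) / 3 - (3 + k) * y * x + 2 * x ^ 2 +
        4 / 3 * x) := by
    unfold vb bd
    field_simp
    ring
  have e2 : k * y * (y - x) ^ 2 ≤ k * y ^ 2 := by
    have h1 : (y - x) ^ 2 ≤ y := by nlinarith
    calc k * y * (y - x) ^ 2 ≤ k * y * y := mul_le_mul_of_nonneg_left h1 (by positivity)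
      _ = k * y ^ 2 := by ring
  have e3 : 0 ≤ (y - x) ^ 2 * (y + 2 * x) / 3 := by positivity
  have e4 : (3 + (k : ℝ)) * y * x ≤ (3 + k) * y ^ 2 := by
    have : (3 + (k : ℝ)) * y * x ≤ (3 + k) * y * y := mul_le_mul_of_nonneg_left hxy (by positivity)
    linarith [this, sq y]
  have e5 : -(5 * (k : ℝ) * y ^ 2) ≤ -(k * y * (y - x) ^ 2) + (y - x) ^ 2 * (y + 2 * x) / 3 -
      (3 + k) * y * x + 2 * x ^ 2 + 4 / 3 * x := by
    have h1 : 0 ≤ x ^ 2 := sq_nonneg x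
    have h2 : 3 * y ^ 2 ≤ 3 * (k : ℝ) * y ^ 2 := by nlinarith [sq_nonneg y]
    nlinarith
  have e6 : (k : ℝ) * (-(5 * (k : ℝ) * y ^ 2)) ≤ k * (-(k * y * (y - x) ^ 2) +
      (y - x) ^ 2 * (y + 2 * x) / 3 - (3 + k) * y * x + 2 * x ^ 2 + 4 / 3 * x) :=
    mul_le_mul_of_nonneg_left e5 (by linarith)
  have e7 : 5 * ((k : ℝ) * y) ^ 2 = -((k : ℝ) * (-(5 * (k : ℝ) * y ^ 2))) := by ring
  linarith

theorem pi_lt {k : ℕ} {α : ℝ} (h : Real.pi / ((k : ℝ) + 1) < α) :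
    Real.pi < ((k : ℝ) + 1) * α := by
  have h1 : (0 : ℝ) < (k : ℝ) + 1 := by positivity
  rw [div_lt_iff₀ h1] at h
  linarith

theorem pi_le {k : ℕ} {α : ℝ} (h : Real.pi / ((k : ℝ) + 1) ≤ α) :
    Real.pi ≤ ((k : ℝ) + 1) * α := by
  have h1 : (0 : ℝ) < (k : ℝ) + 1 := by positivity
  rw [div_le_iff₀ h1] at h
  linarith

theorem Tk_small {k n : ℕ} (hk : 1 ≤ k) (hn : n < 3) : Tk k n = 0 := by
  have h1 := Tk_cast hk n
  rcases Nat.lt_or_ge n k with h | h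
  · have e1 : n / k = 0 := Nat.div_eq_of_lt h
    have e2 : n % k = n := Nat.mod_eq_of_lt h
    have c2 : Nat.choose 1 2 = 0 := rfl
    have c3 : Nat.choose 1 3 = 0 := rfl
    rw [Tk, e1, e2]
    simp [cl, c2, c3]
  · interval_cases n
    · omega
    · have : k = 1 := by omega
      subst this
      rfl
    · have : k = 1 ∨ k = 2 := by omega
      rcases this with rfl | rfl
      · rfl
      · rfl

/-- The exact lower bound. -/
theorem two_Tk_le {S : Finset Pt} (hS : ConvexPos S) {k : ℕ} (hk : 1 ≤ k) {α : ℝ}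
    (h : Real.pi / ((k : ℝ) + 1) < α) : 2 * Tk k S.card ≤ cnt S (Set.Iio α) := by
  rcases Nat.lt_or_ge S.card 3 with h3 | h3
  · rw [Tk_small hk h3]
    omega
  · have hα : 0 < α := lt_trans (by positivity) h
    obtain ⟨G, h4, h5⟩ := exists_G hk h3
    have h6 := cnt_Iio_ge hS (QU.genPos_of_convexPos hS) hα (pi_lt h) h3 G h4
    rw [h5, ← Tk_cast hk] at h6
    exact_mod_cast h6

theorem two_Tk_le' {S : Finset Pt} (hS : ConvexPos S) {k : ℕ} (hk : 1 ≤ k) {α : ℝ}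
    (h : Real.pi / ((k : ℝ) + 1) ≤ α) (h3 : 3 ≤ S.card) :
    2 * (Tk k S.card : ℝ) ≤ cnt S (Set.Iic α) := by
  have hα : 0 < α := lt_of_lt_of_le (by positivity) h
  obtain ⟨G, h4, h5⟩ := exists_G hk h3
  have h6 := cnt_Iic_ge hS (QU.genPos_of_convexPos hS) hα (pi_le h) h3 G h4
  rw [h5, ← Tk_cast hk] at h6
  exact h6

end CG

open CG

/-- The exact minimum. -/
theorem minCntC_Iio {k : ℕ} (hk : 1 ≤ k) (n : ℕ) {α : ℝ} (h : Real.pi / ((k : ℝ) + 1) < α)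
    (h' : α < Real.pi / k) : minCntC n (Set.Iio α) = 2 * Tk k n := by
  obtain ⟨S, h1, h2, h3⟩ := exists_small k n hk α h'
  obtain ⟨T, h4, h5, h6⟩ := exists_minCntC n (Set.Iio α)
  apply le_antisymm
  · have h7 := minCntC_le h2 (Set.Iio α)
    rw [h1] at h7
    exact h7.trans h3
  · rw [← h6, ← h4]
    exact two_Tk_le h5 hk h

theorem GC_le {k : ℕ} (hk : 1 ≤ k) {α : ℝ} (h' : α < Real.pi / k) :
    GC α ≤ 1 / (k : ℝ) - 1 / (3 * (k : ℝ) ^ 2) := by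
  refine densC_le _ _ k (by omega) fun m _ => ?_
  obtain ⟨S, h1, h2, h3⟩ := exists_small k (k * m) hk α h'
  refine ⟨S, h1, h2, ?_⟩
  have h4 : (cnt S (Set.Iio α) : ℝ) ≤ 2 * (Tk k (k * m) : ℝ) := by exact_mod_cast h3
  refine h4.trans ?_
  have hkm : k * m / k = m := Nat.mul_div_cancel_left m (by omega)
  rw [Tk_cast hk, hkm]
  have hk0 : (1 : ℝ) ≤ k := by exact_mod_cast hk
  have hm0 : (0 : ℝ) ≤ m := Nat.cast_nonneg m
  have e1 : (1 / (k : ℝ) - 1 / (3 * (k : ℝ) ^ 2)) * ((k : ℝ) * m) ^ 3 - 2 * vb ((k * m : ℕ) : ℝ) k m =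
      k * m * (((k : ℝ) + 1) * m - 4 / 3) := by
    unfold vb bd
    push_cast
    field_simp
    ring
  rcases Nat.eq_zero_or_pos m with h5 | h5
  · subst h5
    simp [vb, bd]
  · have h6 : (1 : ℝ) ≤ m := by exact_mod_cast h5
    have h7 : 0 ≤ (k : ℝ) * m * (((k : ℝ) + 1) * m - 4 / 3) := by
      refine mul_nonneg (by positivity) ?_
      nlinarith
    linarith

theorem le_GC {k : ℕ} (hk : 1 ≤ k) {α : ℝ} (h : Real.pi / ((k : ℝ) + 1) ≤ α) :
    1 / (k : ℝ) - 1 / (3 * (k : ℝ) ^ 2) ≤ GC α := by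
  refine le_densC _ _ 7 fun S hS h3 => ?_
  have h1 := two_Tk_le' hS hk h h3
  have h2 := cnt_singleton_le (QU.genPos_of_convexPos hS) α
  have h4 : (cnt S (Set.Iic α) : ℝ) ≤ cnt S (Set.Iio α) + cnt S {α} := by
    have h5 : cnt S (Set.Iic α) ≤ cnt S (Set.Iio α) + cnt S {α} := by
      classical
      unfold cnt
      refine le_trans (card_le_card ?_) (card_union_le _ _)
      intro t ht
      rw [mem_filter] at ht
      rw [mem_union, mem_filter, mem_filter]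
      rcases lt_or_eq_of_le (Set.mem_Iic.1 ht.2) with h5 | h5
      · exact Or.inl ⟨ht.1, h5⟩
      · exact Or.inr ⟨ht.1, h5⟩
    exact_mod_cast h5
  rw [Tk_cast hk] at h1
  have h6 := vb_ge hk S.card
  have hk0 : (1 : ℝ) ≤ k := by exact_mod_cast hk
  have h7 : 0 ≤ 1 / (k : ℝ) - 1 / (3 * (k : ℝ) ^ 2) := by
    have : 1 / (3 * (k : ℝ) ^ 2) ≤ 1 / (k : ℝ) := by
      apply one_div_le_one_div_of_le (by positivity)
      nlinarith
    linarith
  have h8 : (3 : ℝ) ≤ S.card := by exact_mod_cast h3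
  have h9 : (S.card : ℝ) * ((S.card : ℝ) - 1) * ((S.card : ℝ) - 2) ≤ (S.card : ℝ) ^ 3 := by
    nlinarith
  have h10 := mul_le_mul_of_nonneg_left h9 h7
  linarith

/-- The value of `G` for points in convex position. -/
theorem GC_eq {k : ℕ} (hk : 1 ≤ k) {α : ℝ} (h : Real.pi / ((k : ℝ) + 1) ≤ α)
    (h' : α < Real.pi / k) : GC α = 1 / (k : ℝ) - 1 / (3 * (k : ℝ) ^ 2) :=
  le_antisymm (GC_le hk h') (le_GC hk h)

end Pool.Agent.MP_0af329_co
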