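import Pool.Agent.MP_0af329_co.CG10

/-!
# The discontinuities of `G` for points in convex position
-/

set_option autoImplicit false

namespace Pool.Agent.MP_0af329_co

open Filter Topology

theorem exists_interval {α : ℝ} (h0 : 0 < α) (h1 : α < Real.pi) :
    ∃ k : ℕ, 1 ≤ k ∧ Real.pi / ((k : ℝ) + 1) ≤ α ∧ α < Real.pi / k := by
  have hpi := Real.pi_pos
  have h2 : 1 < Real.pi / α := by rwa [one_lt_div h0]
  have h3 : Real.pi / α ≤ (⌈Real.pi / α⌉₊ : ℝ) := Nat.le_ceil _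
  have h4 : (⌈Real.pi / α⌉₊ : ℝ) < Real.pi / α + 1 := Nat.ceil_lt_add_one (by positivity)
  set N := ⌈Real.pi / α⌉₊ with hN
  have h5 : 1 < N := by
    have : (1 : ℝ) < N := by linarith
    exact_mod_cast this
  obtain ⟨k, hk⟩ : ∃ k, N = k + 1 := ⟨N - 1, by omega⟩
  have hk1 : 1 ≤ k := by omega
  have hkR : (1 : ℝ) ≤ k := by exact_mod_cast hk1
  have hNk : (N : ℝ) = (k : ℝ) + 1 := by rw [hk]; push_cast; ring
  refine ⟨k, hk1, ?_, ?_⟩
  · rw [← hNk]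
    rw [div_le_iff₀ (by linarith)]
    rw [div_le_iff₀ h0] at h3
    linarith
  · rw [lt_div_iff₀ (by linarith)]
    have h6 : (k : ℝ) < Real.pi / α := by linarith
    rw [lt_div_iff₀ h0] at h6
    linarith

theorem cval_lt {k : ℕ} (hk : 1 ≤ k) :
    1 / ((k + 1 : ℕ) : ℝ) - 1 / (3 * ((k + 1 : ℕ) : ℝ) ^ 2) < 1 / (k : ℝ) - 1 / (3 * (k : ℝ) ^ 2) := by
  have hkR : (1 : ℝ) ≤ k := by exact_mod_cast hk
  push_cast
  have e : 1 / (k : ℝ) - 1 / (3 * (k : ℝ) ^ 2) -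
      (1 / ((k : ℝ) + 1) - 1 / (3 * ((k : ℝ) + 1) ^ 2)) =
      (3 * (k : ℝ) ^ 2 + k - 1) / (3 * (k : ℝ) ^ 2 * ((k : ℝ) + 1) ^ 2) := by
    field_simp
    ring
  have h : 0 < (3 * (k : ℝ) ^ 2 + k - 1) / (3 * (k : ℝ) ^ 2 * ((k : ℝ) + 1) ^ 2) := by
    apply div_pos
    · nlinarith
    · positivity
  linarith

/-- For `k ≥ 2`, `G` for convex position jumps at `π / k`. -/
theorem not_continuousAt_GC {k : ℕ} (hk : 2 ≤ k) : ¬ ContinuousAt GC (Real.pi / k) := by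
  intro hc
  obtain ⟨j, rfl⟩ : ∃ j, k = j + 1 := ⟨k - 1, by omega⟩
  have hj : 1 ≤ j := by omega
  have hjR : (1 : ℝ) ≤ j := by exact_mod_cast hj
  have hpi := Real.pi_pos
  have e0 : ((j + 1 : ℕ) : ℝ) = (j : ℝ) + 1 := by push_cast; ring
  have h1 : GC (Real.pi / ((j + 1 : ℕ) : ℝ)) = 1 / (j : ℝ) - 1 / (3 * (j : ℝ) ^ 2) := by
    apply GC_eq hj
    · rw [e0]
    · rw [e0]
      apply div_lt_div_of_pos_left hpi (by linarith) (by linarith)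
  have h2 : Tendsto GC (𝓝[<] (Real.pi / ((j + 1 : ℕ) : ℝ)))
      (𝓝 (GC (Real.pi / ((j + 1 : ℕ) : ℝ)))) := hc.tendsto.mono_left nhdsWithin_le_nhds
  have h3 : ∀ᶠ a in 𝓝[<] (Real.pi / ((j + 1 : ℕ) : ℝ)),
      GC a = 1 / ((j + 1 : ℕ) : ℝ) - 1 / (3 * ((j + 1 : ℕ) : ℝ) ^ 2) := by
    have h4 : Real.pi / (((j + 1 : ℕ) : ℝ) + 1) < Real.pi / ((j + 1 : ℕ) : ℝ) := by
      apply div_lt_div_of_pos_left hpi (by rw [e0]; linarith) (by linarith)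
    filter_upwards [Ioo_mem_nhdsLT h4] with a ha
    exact GC_eq (by omega) ha.1.le ha.2
  have h5 : Tendsto GC (𝓝[<] (Real.pi / ((j + 1 : ℕ) : ℝ)))
      (𝓝 (1 / ((j + 1 : ℕ) : ℝ) - 1 / (3 * ((j + 1 : ℕ) : ℝ) ^ 2))) :=
    tendsto_const_nhds.congr' (h3.mono fun a ha => ha.symm)
  have h6 := tendsto_nhds_unique h2 h5
  rw [h1] at h6
  have h7 := cval_lt hj
  linarith

/-- The discontinuities of `G` for convex position. -/
theorem GC_discontinuities :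
    {α : ℝ | 0 < α ∧ α < Real.pi ∧ ¬ ContinuousAt GC α} =
      {α : ℝ | ∃ k : ℕ, 2 ≤ k ∧ α = Real.pi / k} := by
  ext α
  constructor
  · rintro ⟨h0, h1, h2⟩
    obtain ⟨k, hk, h3, h4⟩ := exists_interval h0 h1
    refine ⟨k + 1, by omega, ?_⟩
    push_cast
    by_contra hne
    have h5 : Real.pi / ((k : ℝ) + 1) < α := lt_of_le_of_ne h3 (Ne.symm hne)
    apply h2
    have h6 : ∀ᶠ a in 𝓝 α, GC a = 1 / (k : ℝ) - 1 / (3 * (k : ℝ) ^ 2) := by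
      filter_upwards [Ioo_mem_nhds h5 h4] with a ha
      exact GC_eq hk ha.1.le ha.2
    have h7 : GC =ᶠ[𝓝 α] fun _ => 1 / (k : ℝ) - 1 / (3 * (k : ℝ) ^ 2) := h6
    exact (continuousAt_congr h7).2 continuousAt_const
  · rintro ⟨k, hk, rfl⟩
    have hpi := Real.pi_pos
    have hkR : (2 : ℝ) ≤ k := by exact_mod_cast hk
    refine ⟨div_pos hpi (by linarith), ?_, not_continuousAt_GC hk⟩
    rw [div_lt_iff₀ (by linarith)]
    nlinarith

end Pool.Agent.MP_0af329_co
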