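import Pool.Agent.MP_0af329_co.CG1

/-!
# Angles below `α` for points in convex position: the double counting
-/

set_option autoImplicit false

namespace Pool.Agent.MP_0af329_co.CG

open Finset

theorem sum_shift (f : ℕ → ℕ) (n : ℕ) (hf : ∀ x, f (x + n) = f x) (c : ℕ) :
    ∑ x ∈ range n, f (x + c) = ∑ x ∈ range n, f x := by
  induction c with
  | zero => rfl
  | succ c ih =>
    rw [← ih]
    have h1 := sum_range_succ' (fun x => f (x + c)) n
    have h2 := sum_range_succ (fun x => f (x + c)) n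
    have h3 : f (n + c) = f (0 + c) := by
      rw [add_comm n c, hf, zero_add]
    have h4 : ∑ x ∈ range n, f (x + (c + 1)) = ∑ x ∈ range n, f (x + 1 + c) :=
      sum_congr rfl fun x _ => by rw [add_right_comm, add_assoc]
    omega

/-- Large corners of a convex polygon with `n` vertices: `L x u v` for the corner at `x` between
`x + u` and `x + v`; at most `k` disjoint large corners in every triangle. -/
structure Chain (L : ℕ → ℕ → ℕ → ℕ) (n k : ℕ) : Prop where
  per : ∀ x u v, L (x + n) u v = L x u v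
  self : ∀ x u, 0 < u → u < n → L x u u = 0
  ch : ∀ x g e G, 0 < g → g < e → e < n → 1 ≤ G →
    (∑ i ∈ range n, L x (min (g + i * G) e) (min (g + i * G + G) e)) +
    (∑ i ∈ range n, L (x + g) (max (e - g) (n - (g + i * G) - G)) (max (e - g) (n - (g + i * G)))) +
    L (x + e) (n - e) (n - e + g) ≤ k

/-- the number of large corners of gap `j` -/
def W (L : ℕ → ℕ → ℕ → ℕ) (n j : ℕ) : ℕ := ∑ x ∈ range n, gp (L x) n j

theorem Ioo_sub (φ : ℕ → ℕ) (g n : ℕ) :
    ∑ e ∈ Ioo g n, φ (e - g) = ∑ z ∈ Ico 1 (n - g), φ z := by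
  refine sum_bij' (fun e _ => e - g) (fun z _ => z + g) ?_ ?_ ?_ ?_ ?_
  · intro e he
    rw [mem_Ioo] at he
    rw [mem_Ico]
    omega
  · intro z hz
    rw [mem_Ico] at hz
    rw [mem_Ioo]
    omega
  · intro e he
    rw [mem_Ioo] at he
    omega
  · intro z hz
    omega
  · intro e he
    rfl

theorem Ioo_refl (φ : ℕ → ℕ) (g n : ℕ) :
    ∑ e ∈ Ioo g n, φ (n - e) = ∑ z ∈ Ico 1 (n - g), φ z := by
  refine sum_bij' (fun e _ => n - e) (fun z _ => n - z) ?_ ?_ ?_ ?_ ?_
  · intro e he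
    rw [mem_Ioo] at he
    rw [mem_Ico]
    omega
  · intro z hz
    rw [mem_Ico] at hz
    rw [mem_Ioo]
    omega
  · intro e he
    rw [mem_Ioo] at he
    omega
  · intro z hz
    rw [mem_Ico] at hz
    omega
  · intro e he
    rfl

theorem Chain.main {L : ℕ → ℕ → ℕ → ℕ} {n k : ℕ} (C : Chain L n k) (G : ℕ) (hG : 1 ≤ G)
    (hGn : G < n) :
    3 * ∑ j ∈ Ico 1 G, W L n j + (n - G + 1) * W L n G ≤
      k * (n * ∑ g ∈ Ico 1 (G + 1), (n - 1 - g)) := by
  have H : ∑ x ∈ range n, ∑ g ∈ Ico 1 (G + 1), ∑ e ∈ Ioo g n,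
      ((∑ i ∈ range n, L x (min (g + i * G) e) (min (g + i * G + G) e)) +
      (∑ i ∈ range n,
        L (x + g) (max (e - g) (n - (g + i * G) - G)) (max (e - g) (n - (g + i * G)))) +
      L (x + e) (n - e) (n - e + g)) ≤ k * (n * ∑ g ∈ Ico 1 (G + 1), (n - 1 - g)) := by
    have h1 : ∀ x ∈ range n, ∑ g ∈ Ico 1 (G + 1), ∑ e ∈ Ioo g n,
        ((∑ i ∈ range n, L x (min (g + i * G) e) (min (g + i * G + G) e)) +
        (∑ i ∈ range n,
          L (x + g) (max (e - g) (n - (g + i * G) - G)) (max (e - g) (n - (g + i * G)))) +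
        L (x + e) (n - e) (n - e + g)) ≤ k * ∑ g ∈ Ico 1 (G + 1), (n - 1 - g) := by
      intro x _
      rw [mul_sum]
      refine sum_le_sum fun g hg => ?_
      rw [mem_Ico] at hg
      have h2 : ∀ e ∈ Ioo g n, ((∑ i ∈ range n, L x (min (g + i * G) e) (min (g + i * G + G) e)) +
          (∑ i ∈ range n,
            L (x + g) (max (e - g) (n - (g + i * G) - G)) (max (e - g) (n - (g + i * G)))) +
          L (x + e) (n - e) (n - e + g)) ≤ k := by
        intro e he
        rw [mem_Ioo] at he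
        exact C.ch x g e G (by omega) he.1 he.2 hG
      refine (sum_le_card_nsmul _ _ _ h2).trans (le_of_eq ?_)
      rw [Nat.card_Ioo, smul_eq_mul, mul_comm]
      congr 1
      omega
    refine (sum_le_card_nsmul _ _ _ h1).trans (le_of_eq ?_)
    rw [card_range, smul_eq_mul]
    ring
  simp only [sum_add_distrib] at H
  have T1 : ∑ x ∈ range n, ∑ g ∈ Ico 1 (G + 1), ∑ e ∈ Ioo g n,
      ∑ i ∈ range n, L x (min (g + i * G) e) (min (g + i * G + G) e) =
      ∑ x ∈ range n, ∑ e ∈ Ico 1 n, ∑ d ∈ Ico 1 e, L x d (min (d + G) e) :=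
    sum_congr rfl fun x _ => vertex_fwd (L x) n G hG (C.self x)
  have T2 : ∑ x ∈ range n, ∑ g ∈ Ico 1 (G + 1), ∑ e ∈ Ioo g n, ∑ i ∈ range n,
      L (x + g) (max (e - g) (n - (g + i * G) - G)) (max (e - g) (n - (g + i * G))) =
      ∑ x ∈ range n, ∑ z ∈ Ico 1 n, ∑ v ∈ Ioo z n, L x (max z (v - G)) v := by
    rw [← sum_congr rfl fun x _ => vertex_bwd (L x) n G hG (C.self x)]
    rw [sum_comm, sum_comm (s := range n)]
    refine sum_congr rfl fun g _ => ?_
    rw [sum_comm, sum_comm (s := range n), ← Ioo_sub]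
    refine sum_congr rfl fun e _ => ?_
    refine sum_shift (fun x => ∑ i ∈ range n,
      L x (max (e - g) (n - (g + i * G) - G)) (max (e - g) (n - (g + i * G)))) n ?_ g
    intro x
    exact sum_congr rfl fun i _ => C.per _ _ _
  have T3 : ∑ x ∈ range n, ∑ g ∈ Ico 1 (G + 1), ∑ e ∈ Ioo g n, L (x + e) (n - e) (n - e + g) =
      ∑ x ∈ range n, ∑ j ∈ Ico 1 (G + 1), gp (L x) n j := by
    rw [sum_comm, sum_comm (s := range n)]
    refine sum_congr rfl fun g _ => ?_
    unfold gp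
    rw [sum_comm, sum_comm (s := range n), ← Ioo_refl]
    refine sum_congr rfl fun e _ => ?_
    exact sum_shift (fun x => L x (n - e) (n - e + g)) n (fun x => C.per _ _ _) e
  rw [T1, T2, T3, ← sum_add_distrib,
    sum_congr rfl fun x _ => vertex_pairs (L x) n G hG hGn, ← sum_add_distrib] at H
  have E : ∑ x ∈ range n, (2 * ∑ j ∈ Ico 1 G, gp (L x) n j + (n - G) * gp (L x) n G +
      ∑ j ∈ Ico 1 (G + 1), gp (L x) n j) =
      3 * ∑ j ∈ Ico 1 G, W L n j + (n - G + 1) * W L n G := by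
    have e1 : ∑ j ∈ Ico 1 G, W L n j = ∑ x ∈ range n, ∑ j ∈ Ico 1 G, gp (L x) n j := by
      rw [sum_comm]
      rfl
    rw [e1, W, mul_sum, mul_sum, ← sum_add_distrib]
    refine sum_congr rfl fun x _ => ?_
    rw [sum_Ico_succ_top hG]
    ring
  rw [← E]
  exact H

end Pool.Agent.MP_0af329_co.CG
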