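import Pool.Agent.MP_0af329_co.CG2

/-!
# Angles below `α` for points in convex position: the bound for the number of small corners
-/

set_option autoImplicit false

namespace Pool.Agent.MP_0af329_co.CG

open Finset

theorem sum_gaps (n G : ℕ) (h : G + 1 ≤ n) :
    ((∑ g ∈ Ico 1 (G + 1), (n - 1 - g) : ℕ) : ℝ) =
      (G : ℝ) * ((n : ℝ) - 1) - (G : ℝ) * ((G : ℝ) + 1) / 2 := by
  induction G with
  | zero => simp
  | succ G ih =>
    rw [sum_Ico_succ_top (by omega), Nat.cast_add, ih (by omega)]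
    have e : ((n - 1 - (G + 1) : ℕ) : ℝ) = (n : ℝ) - 1 - ((G : ℝ) + 1) := by
      rw [Nat.cast_sub (by omega), Nat.cast_sub (by omega)]
      push_cast
      ring
    rw [e]
    push_cast
    ring

/-- at most `bd n k G` large corners of gap at most `G` -/
noncomputable def bd (n k G : ℝ) : ℝ := k * (n * G * (G + 1) / 2 - (G + 2) * (G + 1) * G / 3)

theorem Chain.bound {L : ℕ → ℕ → ℕ → ℕ} {n k : ℕ} (C : Chain L n k) (G : ℕ) (h : G + 2 ≤ n) :
    ((∑ j ∈ Ico 1 (G + 1), W L n j : ℕ) : ℝ) ≤ bd n k G := by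
  induction G with
  | zero => simp [bd]
  | succ G ih =>
    have h1 := C.main (G + 1) (by omega) (by omega)
    have h2 := ih (by omega)
    set S : ℕ := ∑ j ∈ Ico 1 (G + 1), W L n j with hS
    rw [sum_Ico_succ_top (by omega), ← hS]
    set w : ℕ := W L n (G + 1) with hw
    have h3 := sum_gaps n (G + 1) (by omega)
    set R : ℕ := ∑ g ∈ Ico 1 (G + 1 + 1), (n - 1 - g) with hR
    have h4 : ((3 * S + (n - (G + 1) + 1) * w : ℕ) : ℝ) ≤ ((k * (n * R) : ℕ) : ℝ) := by
      exact_mod_cast h1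
    push_cast at h4
    have e1 : ((n - (G + 1) : ℕ) : ℝ) = (n : ℝ) - ((G : ℝ) + 1) := by
      rw [Nat.cast_sub (by omega)]
      push_cast
      ring
    rw [e1, h3] at h4
    push_cast at h4 ⊢
    have h5 : (G : ℝ) + 1 + 2 ≤ n := by exact_mod_cast h
    have h6 : (0 : ℝ) < (n : ℝ) - G := by linarith
    have h7 : ((n : ℝ) - G - 3) * S ≤ ((n : ℝ) - G - 3) * bd n k G :=
      mul_le_mul_of_nonneg_left h2 (by linarith)
    have h8 : ((n : ℝ) - G) * ((S : ℝ) + w) ≤ ((n : ℝ) - G) * bd n k ((G : ℝ) + 1) := by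
      have e2 : ((n : ℝ) - G) * bd n k ((G : ℝ) + 1) = ((n : ℝ) - G - 3) * bd n k G +
          k * (n * (((G : ℝ) + 1) * ((n : ℝ) - 1) - ((G : ℝ) + 1) * ((G : ℝ) + 1 + 1) / 2)) := by
        unfold bd
        ring
      rw [e2]
      nlinarith
    exact le_of_mul_le_mul_left h8 h6

open Classical in
/-- corners with a property -/
noncomputable def Sm (n : ℕ) (P : ℕ → ℕ → ℕ → Prop) : Finset (ℕ × ℕ × ℕ) :=
  (range n ×ˢ range n ×ˢ range n).filter fun t => (0 < t.2.1 ∧ t.2.1 < t.2.2) ∧ P t.1 t.2.1 t.2.2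

theorem Sm_congr (n : ℕ) {P Q : ℕ → ℕ → ℕ → Prop} (h : ∀ x d e, P x d e ↔ Q x d e) :
    Sm n P = Sm n Q := by
  have : P = Q := by
    funext x d e
    exact propext (h x d e)
  rw [this]

open Classical in
theorem card_Sm (n : ℕ) (P : ℕ → ℕ → ℕ → Prop) :
    (Sm n P).card = ∑ x ∈ range n, ∑ j ∈ Ico 1 n, ∑ d ∈ Ico 1 (n - j),
      if P x d (d + j) then 1 else 0 := by
  unfold Sm
  rw [card_filter, sum_product]
  refine sum_congr rfl fun x _ => ?_
  rw [sum_product, ← sum_pairs (fun d e => if P x d e then 1 else 0)]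
  have h1 : Ico 1 n ⊆ range n := by
    intro d hd
    rw [mem_Ico] at hd
    rw [mem_range]
    exact hd.2
  rw [← sum_subset h1]
  · refine sum_congr rfl fun d hd => ?_
    rw [mem_Ico] at hd
    have h2 : Ioo d n ⊆ range n := by
      intro e he
      rw [mem_Ioo] at he
      rw [mem_range]
      exact he.2
    rw [← sum_subset h2]
    · refine sum_congr rfl fun e he => ?_
      rw [mem_Ioo] at he
      have h3 : 0 < d ∧ d < e := ⟨by omega, he.1⟩
      simp only [h3, and_self, true_and]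
    · intro e he he'
      rw [mem_range] at he
      rw [mem_Ioo] at he'
      have h3 : ¬ (0 < d ∧ d < e) := by omega
      simp only [h3, false_and, if_false]
  · intro d hd hd'
    rw [mem_range] at hd
    rw [mem_Ico] at hd'
    refine sum_eq_zero fun e _ => ?_
    have h3 : ¬ (0 < d ∧ d < e) := by omega
    simp only [h3, false_and, if_false]

theorem card_Sm' (n : ℕ) (P : ℕ → ℕ → ℕ → Prop) [∀ x d e, Decidable (P x d e)] :
    (Sm n P).card = ∑ x ∈ range n, ∑ j ∈ Ico 1 n, ∑ d ∈ Ico 1 (n - j),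
      if P x d (d + j) then 1 else 0 := by
  rw [card_Sm]
  refine sum_congr rfl fun x _ => sum_congr rfl fun j _ => sum_congr rfl fun d _ => ?_
  by_cases h : P x d (d + j)
  · simp [h]
  · simp [h]

theorem Chain.total {L : ℕ → ℕ → ℕ → ℕ} {n k : ℕ} (C : Chain L n k)
    (hL : ∀ x u v, L x u v ≤ 1) (G : ℕ) (h : G + 2 ≤ n) :
    (n : ℝ) * ((G : ℝ) * ((n : ℝ) - 1) - (G : ℝ) * ((G : ℝ) + 1) / 2) - bd n k G ≤
      ((Sm n fun x d e => L x d e = 0).card : ℝ) := by
  have h1 : n * ∑ g ∈ Ico 1 (G + 1), (n - 1 - g) ≤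
      (Sm n fun x d e => L x d e = 0).card + ∑ j ∈ Ico 1 (G + 1), W L n j := by
    have h2 : ∑ x ∈ range n, ∑ j ∈ Ico 1 (G + 1), ∑ d ∈ Ico 1 (n - j),
        (if L x d (d + j) = 0 then 1 else 0) ≤ (Sm n fun x d e => L x d e = 0).card := by
      rw [card_Sm']
      refine sum_le_sum fun x _ => ?_
      have hsub : Ico 1 (G + 1) ⊆ Ico 1 n := by
        intro j hj
        rw [mem_Ico] at hj ⊢
        omega
      exact sum_le_sum_of_subset (f := fun j => ∑ d ∈ Ico 1 (n - j),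
        if L x d (d + j) = 0 then 1 else 0) hsub
    have h3 : ∑ j ∈ Ico 1 (G + 1), W L n j =
        ∑ x ∈ range n, ∑ j ∈ Ico 1 (G + 1), ∑ d ∈ Ico 1 (n - j), L x d (d + j) := by
      rw [sum_comm]
      rfl
    rw [h3]
    refine le_trans ?_ (Nat.add_le_add_right h2 _)
    rw [← sum_add_distrib]
    have h4 : ∀ x ∈ range n, ∑ j ∈ Ico 1 (G + 1), ∑ d ∈ Ico 1 (n - j),
        (if L x d (d + j) = 0 then 1 else 0) + ∑ j ∈ Ico 1 (G + 1), ∑ d ∈ Ico 1 (n - j),
        L x d (d + j) = ∑ g ∈ Ico 1 (G + 1), (n - 1 - g) := by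
      intro x _
      rw [← sum_add_distrib]
      refine sum_congr rfl fun j hj => ?_
      rw [← sum_add_distrib]
      have h5 : ∀ d ∈ Ico 1 (n - j), ((if L x d (d + j) = 0 then 1 else 0) + L x d (d + j)) = 1 := by
        intro d _
        have h6 := hL x d (d + j)
        split_ifs with h7 <;> omega
      rw [sum_congr rfl h5, sum_const, Nat.card_Ico, smul_eq_mul, mul_one]
      omega
    rw [sum_congr rfl h4, sum_const, card_range, smul_eq_mul]
  have h2 := C.bound G h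
  have h3 := sum_gaps n G (by omega)
  set R : ℕ := ∑ g ∈ Ico 1 (G + 1), (n - 1 - g) with hR
  set S : ℕ := ∑ j ∈ Ico 1 (G + 1), W L n j with hS
  have h4 : ((n * R : ℕ) : ℝ) ≤ (((Sm n fun x d e => L x d e = 0).card + S : ℕ) : ℝ) := by
    exact_mod_cast h1
  push_cast at h4
  rw [h3] at h4
  linarith

end Pool.Agent.MP_0af329_co.CG
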