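import Pool.Agent.MP_0af329_co.Acute
import Pool.Agent.MP_0af329_co.EqAng

/-!
# Four points of the plane and the angle `π / 4`

`Cvx a b c d`: the segments `a c` and `b d` cross (convex position, cyclic order `a b c d`).
`Inn p a b c`: the point `p` is inside the triangle `a b c`.
-/

set_option autoImplicit false

namespace Pool.Agent.MP_0af329_co.Q5

open EuclideanGeometry

/-- The scalar product of `a - v` and `b - v`. -/
def dt (v a b : Pt) : ℝ := (a 0 - v 0) * (b 0 - v 0) + (a 1 - v 1) * (b 1 - v 1)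

/-- The determinant of `a - v` and `b - v`. -/
def cr (v a b : Pt) : ℝ := (a 0 - v 0) * (b 1 - v 1) - (a 1 - v 1) * (b 0 - v 0)

theorem inner_dt (v a b : Pt) : inner ℝ (a - v) (b - v) = dt v a b := by
  rw [dt]
  simp [PiLp.inner_apply, Fin.sum_univ_two]
  ring

theorem norm_sq_dt (v a : Pt) : ‖a - v‖ ^ 2 = dt v a a := by
  rw [← inner_dt, real_inner_self_eq_norm_sq]

theorem norm_mul_sq (v a b : Pt) : (‖a - v‖ * ‖b - v‖) ^ 2 = dt v a b ^ 2 + cr v a b ^ 2 := by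
  rw [mul_pow, norm_sq_dt, norm_sq_dt, dt, dt, dt, cr]
  ring

theorem cos_mul (v a b : Pt) : Real.cos (∠ a v b) * (‖a - v‖ * ‖b - v‖) = dt v a b := by
  rw [← inner_dt]
  exact InnerProductGeometry.cos_angle_mul_norm_mul_norm (a - v) (b - v)

theorem cr_lt_of_lt {v a b : Pt} (ha : a ≠ v) (hb : b ≠ v) (h : ∠ a v b < Real.pi / 4) :
    |cr v a b| < dt v a b := by
  have hN : 0 < ‖a - v‖ * ‖b - v‖ :=
    mul_pos (norm_pos_iff.2 (sub_ne_zero.2 ha)) (norm_pos_iff.2 (sub_ne_zero.2 hb))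
  have h1 : Real.cos (Real.pi / 4) < Real.cos (∠ a v b) :=
    Real.strictAntiOn_cos ⟨angle_nonneg _ _ _, angle_le_pi _ _ _⟩
      ⟨by positivity, by linarith [Real.pi_pos]⟩ h
  rw [Real.cos_pi_div_four] at h1
  have h2 := cos_mul v a b
  have h3 := norm_mul_sq v a b
  obtain ⟨N, hNe⟩ : ∃ N, N = ‖a - v‖ * ‖b - v‖ := ⟨_, rfl⟩
  rw [← hNe] at hN h2 h3
  have h4 : Real.sqrt 2 / 2 * N < dt v a b := by
    rw [← h2]; exact mul_lt_mul_of_pos_right h1 hN
  have h5 : Real.sqrt 2 ^ 2 = 2 := Real.sq_sqrt (by norm_num)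
  have h6 : 0 < Real.sqrt 2 / 2 * N := by positivity
  have h7 : (Real.sqrt 2 / 2 * N) ^ 2 < dt v a b ^ 2 := by
    exact pow_lt_pow_left₀ h4 h6.le (by norm_num)
  have h8 : (Real.sqrt 2 / 2 * N) ^ 2 = N ^ 2 / 2 := by
    rw [mul_pow, div_pow, h5]; ring
  rw [h8, h3] at h7
  refine abs_lt_of_sq_lt_sq ?_ (h6.trans h4).le
  linarith

theorem lt_cr_of_lt {v a b : Pt} (ha : a ≠ v) (hb : b ≠ v) (h : Real.pi / 4 < ∠ a v b) :
    dt v a b < |cr v a b| := by
  have hN : 0 < ‖a - v‖ * ‖b - v‖ :=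
    mul_pos (norm_pos_iff.2 (sub_ne_zero.2 ha)) (norm_pos_iff.2 (sub_ne_zero.2 hb))
  have h1 : Real.cos (∠ a v b) < Real.cos (Real.pi / 4) :=
    Real.strictAntiOn_cos ⟨by positivity, by linarith [Real.pi_pos]⟩
      ⟨angle_nonneg _ _ _, angle_le_pi _ _ _⟩ h
  rw [Real.cos_pi_div_four] at h1
  have h2 := cos_mul v a b
  have h3 := norm_mul_sq v a b
  obtain ⟨N, hNe⟩ : ∃ N, N = ‖a - v‖ * ‖b - v‖ := ⟨_, rfl⟩
  rw [← hNe] at hN h2 h3
  have h4 : dt v a b < Real.sqrt 2 / 2 * N := by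
    rw [← h2]; exact mul_lt_mul_of_pos_right h1 hN
  by_contra hcon
  rw [not_lt] at hcon
  have h5 : Real.sqrt 2 ^ 2 = 2 := Real.sq_sqrt (by norm_num)
  have h9 : 0 ≤ dt v a b := (abs_nonneg _).trans hcon
  have h7 : dt v a b ^ 2 < (Real.sqrt 2 / 2 * N) ^ 2 := pow_lt_pow_left₀ h4 h9 (by norm_num)
  have h8 : (Real.sqrt 2 / 2 * N) ^ 2 = N ^ 2 / 2 := by
    rw [mul_pow, div_pow, h5]; ring
  rw [h8, h3] at h7
  have h10 : cr v a b ^ 2 ≤ dt v a b ^ 2 := by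
    rw [← sq_abs (cr v a b)]
    exact pow_le_pow_left₀ (abs_nonneg _) hcon 2
  linarith

/-- A ray inside an angle splits it. -/
theorem angle_cone {v x w y : Pt} (hw : w ≠ v) {k α β : ℝ} (hk : 0 < k) (hα : 0 < α) (hβ : 0 < β)
    (h0 : k * (w 0 - v 0) = α * (x 0 - v 0) + β * (y 0 - v 0))
    (h1 : k * (w 1 - v 1) = α * (x 1 - v 1) + β * (y 1 - v 1)) :
    ∠ x v y = ∠ x v w + ∠ w v y := by
  have h : w - v ∈ Submodule.span NNReal ({x - v, y - v} : Set Pt) := by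
    rw [Submodule.mem_span_pair]
    refine ⟨(α / k).toNNReal, (β / k).toNNReal, ?_⟩
    rw [NNReal.smul_def, NNReal.smul_def, Real.coe_toNNReal _ (by positivity),
      Real.coe_toNNReal _ (by positivity)]
    ext i
    fin_cases i
    · simp only [Fin.zero_eta, PiLp.add_apply, PiLp.smul_apply, PiLp.sub_apply, smul_eq_mul]
      field_simp
      linarith
    · simp only [Fin.mk_one, PiLp.add_apply, PiLp.smul_apply, PiLp.sub_apply, smul_eq_mul]
      field_simp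
      linarith
  exact InnerProductGeometry.angle_eq_angle_add_add_angle_add_of_mem_span (sub_ne_zero.2 hw) h

/-- The segments `a c` and `b d` cross. -/
def Cvx (a b c d : Pt) : Prop := ∃ s t : ℝ, 0 < s ∧ s < 1 ∧ 0 < t ∧ t < 1 ∧
  (1 - s) * a 0 + s * c 0 = (1 - t) * b 0 + t * d 0 ∧
  (1 - s) * a 1 + s * c 1 = (1 - t) * b 1 + t * d 1

/-- `p` is inside the triangle `a b c`. -/
def Inn (p a b c : Pt) : Prop := ∃ α β γ : ℝ, 0 < α ∧ 0 < β ∧ 0 < γ ∧ α + β + γ = 1 ∧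
  p 0 = α * a 0 + β * b 0 + γ * c 0 ∧ p 1 = α * a 1 + β * b 1 + γ * c 1

theorem Cvx.rot {a b c d : Pt} (h : Cvx a b c d) : Cvx b c d a := by
  obtain ⟨s, t, h1, h2, h3, h4, h5, h6⟩ := h
  exact ⟨t, 1 - s, h3, h4, by linarith, by linarith, by linarith, by linarith⟩

theorem Cvx.rev {a b c d : Pt} (h : Cvx a b c d) : Cvx a d c b := by
  obtain ⟨s, t, h1, h2, h3, h4, h5, h6⟩ := h
  exact ⟨s, 1 - t, h1, h2, by linarith, by linarith, by linarith, by linarith⟩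

theorem Cvx.angle {a b c d : Pt} (h : Cvx a b c d) (hne : c ≠ a) : ∠ b a d = ∠ b a c + ∠ c a d := by
  obtain ⟨s, t, h1, h2, h3, h4, h5, h6⟩ := h
  refine angle_cone hne (k := s) (α := 1 - t) (β := t) h1 (by linarith) h3 ?_ ?_
  · linear_combination h5
  · linear_combination h6

theorem Inn.angle {p a b c : Pt} (h : Inn p a b c) (hne : p ≠ a) :
    ∠ b a c = ∠ b a p + ∠ p a c := by
  obtain ⟨α, β, γ, h1, h2, h3, h4, h5, h6⟩ := h
  refine angle_cone hne (k := 1) (α := β) (β := γ) one_pos h2 h3 ?_ ?_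
  · linear_combination h5 + a 0 * h4
  · linear_combination h6 + a 1 * h4

theorem Inn.rot {p a b c : Pt} (h : Inn p a b c) : Inn p b c a := by
  obtain ⟨α, β, γ, h1, h2, h3, h4, h5, h6⟩ := h
  exact ⟨β, γ, α, h2, h3, h1, by linarith, by linarith, by linarith⟩

end Pool.Agent.MP_0af329_co.Q5
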