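import Pool.Agent.MP_0af329_co.CG3
import Pool.Agent.MP_0af329_co.CvxFin
import Pool.Agent.MP_0af329_co.QGeo

/-!
# Angles of a convex polygon
-/

set_option autoImplicit false

namespace Pool.Agent.MP_0af329_co.CG

open Finset EuclideanGeometry
open Pool.Agent.MP_0af329_co.Cvx (co CP)

/-- the angle at `q x` between `q (x + u)` and `q (x + v)` -/
noncomputable def ag (q : ℕ → Pt) (x u v : ℕ) : ℝ := ∠ (q (x + u)) (q x) (q (x + v))

variable {q : ℕ → Pt} {n : ℕ}

theorem q_ne (h : CP (fun i => co (q i)) n) (hn : 3 ≤ n) {i j : ℕ} (hij : i < j)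
    (hj : j < i + n) : q i ≠ q j := by
  intro he
  refine h.inj hn hij hj ?_
  simp only [he]

theorem q_per (h : CP (fun i => co (q i)) n) (i : ℕ) : q (i + n) = q i := by
  have h1 := h.per i
  simp only [co, Prod.mk.injEq] at h1
  ext j
  fin_cases j
  · exact h1.1
  · exact h1.2

theorem ag_self (h : CP (fun i => co (q i)) n) (hn : 3 ≤ n) (x u : ℕ) (hu : 0 < u) (hun : u < n) :
    ag q x u u = 0 :=
  angle_self_of_ne (q_ne h hn (by omega) (by omega)).symm

theorem ag_nonneg (x u v : ℕ) : 0 ≤ ag q x u v := angle_nonneg _ _ _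

theorem ag_add_lt (h : CP (fun i => co (q i)) n) (hn : 3 ≤ n) {x u v w : ℕ} (hu : 0 < u)
    (huv : u < v) (hvw : v < w) (hw : w < n) : ag q x u w = ag q x u v + ag q x v w := by
  have h1 := h.pos x (x + u) (x + w) (by omega) (by omega) (by omega)
  have h2 := h.pos x (x + v) (x + w) (by omega) (by omega) (by omega)
  have h3 := h.pos x (x + u) (x + v) (by omega) (by omega) (by omega)
  refine Q5.angle_cone (q_ne h hn (i := x) (j := x + v) (by omega) (by omega)).symm h1 h2 h3 ?_ ?_
  · simp only [Cvx.cr, co]
    ring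
  · simp only [Cvx.cr, co]
    ring

theorem ag_add (h : CP (fun i => co (q i)) n) (hn : 3 ≤ n) {x u v w : ℕ} (hu : 0 < u)
    (huv : u ≤ v) (hvw : v ≤ w) (hw : w < n) : ag q x u w = ag q x u v + ag q x v w := by
  rcases Nat.eq_or_lt_of_le huv with h1 | h1
  · subst h1
    rw [ag_self h hn x u hu (by omega), zero_add]
  · rcases Nat.eq_or_lt_of_le hvw with h2 | h2
    · subst h2
      rw [ag_self h hn x v (by omega) hw, add_zero]
    · exact ag_add_lt h hn hu h1 h2 hw

theorem ag_tri (h : CP (fun i => co (q i)) n) (hn : 3 ≤ n) {x g e : ℕ} (hg : 0 < g) (hge : g < e)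
    (he : e < n) : ag q x g e + ag q (x + g) (e - g) (n - g) +
      ag q (x + e) (n - e) (n - e + g) = Real.pi := by
  have e1 : ag q (x + g) (e - g) (n - g) = ∠ (q (x + e)) (q (x + g)) (q x) := by
    unfold ag
    have a1 : x + g + (e - g) = x + e := by omega
    have a2 : x + g + (n - g) = x + n := by omega
    rw [a1, a2, q_per h]
  have e2 : ag q (x + e) (n - e) (n - e + g) = ∠ (q x) (q (x + e)) (q (x + g)) := by
    unfold ag
    have a1 : x + e + (n - e) = x + n := by omega
    have a2 : x + e + (n - e + g) = x + g + n := by omega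
    rw [a1, a2, q_per h, q_per h]
  rw [e1, e2]
  unfold ag
  have h1 : q x ≠ q (x + g) := q_ne h hn (by omega) (by omega)
  have h2 : q x ≠ q (x + e) := q_ne h hn (by omega) (by omega)
  have h3 := EuclideanGeometry.angle_add_angle_add_angle_eq_pi (p₁ := q (x + g)) (p₂ := q x)
    (q (x + e)) h1
  have h4 : ∠ (q x) (q (x + e)) (q (x + g)) = ∠ (q x) (q (x + e)) (q (x + g)) := rfl
  rw [EuclideanGeometry.angle_comm (q (x + e)) (q (x + g)) (q x)] at *
  linarith [EuclideanGeometry.angle_comm (q (x + e)) (q (x + g)) (q x)]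

theorem ag_per (h : CP (fun i => co (q i)) n) (x u v : ℕ) : ag q (x + n) u v = ag q x u v := by
  unfold ag
  rw [q_per h, Nat.add_right_comm x n u, Nat.add_right_comm x n v, q_per h, q_per h]

/-- A notion of large angles for which a chain of total length `π` has at most `k` large pieces. -/
structure Thr (Lf : ℝ → ℕ) (k : ℕ) : Prop where
  zero : Lf 0 = 0
  one : ∀ a, Lf a ≤ 1
  ex : ∃ R : ℕ → ℝ → Prop, R 0 0 ∧ (∀ c s c' s', R c s → R c' s' → R (c + c') (s + s')) ∧
    (∀ a, 0 ≤ a → R (Lf a) a) ∧ ∀ c, R c Real.pi → c ≤ k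

theorem chain_of_thr (h : CP (fun i => co (q i)) n) (hn : 3 ≤ n) {Lf : ℝ → ℕ} {k : ℕ}
    (T : Thr Lf k) : Chain (fun x u v => Lf (ag q x u v)) n k where
  per := fun x u v => by rw [ag_per h]
  self := fun x u h1 h2 => by rw [ag_self h hn x u h1 h2]; exact T.zero
  ch := by
    intro x g e G hg hge he hG
    obtain ⟨R, R0, Radd, R1, Rk⟩ := T.ex
    have F : ∀ M, R (∑ i ∈ range M, Lf (ag q x (min (g + i * G) e) (min (g + i * G + G) e)))
        (ag q x g (min (g + M * G) e)) := by
      intro M
      induction M with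
      | zero =>
        rw [zero_mul, add_zero, min_eq_left hge.le, ag_self h hn x g hg (by omega), range_zero,
          sum_empty]
        exact R0
      | succ M ih =>
        rw [sum_range_succ]
        have e1 : g + (M + 1) * G = g + M * G + G := by ring
        rw [e1, ag_add h hn hg (v := min (g + M * G) e) (le_min (Nat.le_add_right _ _) hge.le)
          (min_le_min_right _ (Nat.le_add_right _ _)) (lt_of_le_of_lt (min_le_right _ _) he)]
        exact Radd _ _ _ _ ih (R1 _ (ag_nonneg _ _ _))
    have B : ∀ M, R (∑ i ∈ range M, Lf (ag q (x + g) (max (e - g) (n - (g + i * G) - G))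
        (max (e - g) (n - (g + i * G))))) (ag q (x + g) (max (e - g) (n - (g + M * G))) (n - g)) := by
      intro M
      induction M with
      | zero =>
        rw [zero_mul, add_zero, max_eq_right (by omega), ag_self h hn (x + g) (n - g) (by omega)
          (by omega), range_zero, sum_empty]
        exact R0
      | succ M ih =>
        rw [sum_range_succ]
        have e1 : n - (g + (M + 1) * G) = n - (g + M * G) - G := by
          rw [Nat.sub_sub]
          congr 1
          ring
        rw [e1, ag_add h hn (v := max (e - g) (n - (g + M * G)))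
          (lt_of_lt_of_le (by omega : 0 < e - g) (le_max_left _ _))
          (max_le_max_left _ (Nat.sub_le _ _))
          (max_le (by omega) (Nat.sub_le_sub_left (Nat.le_add_right _ _) _)) (by omega)]
        rw [add_comm (ag q (x + g) _ _)]
        exact Radd _ _ _ _ ih (R1 _ (ag_nonneg _ _ _))
    have hnG : n ≤ n * G := Nat.le_mul_of_pos_right n hG
    have F1 := F n
    have B1 := B n
    rw [min_eq_right (by omega)] at F1
    rw [max_eq_left (by omega)] at B1
    refine Rk _ ?_
    rw [← ag_tri h hn (x := x) hg hge he]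
    exact Radd _ _ _ _ (Radd _ _ _ _ F1 B1) (R1 _ (ag_nonneg _ _ _))

open Classical in
theorem thr_closed {α : ℝ} (hα : 0 < α) {k : ℕ} (hk : Real.pi < ((k : ℝ) + 1) * α) :
    Thr (fun a => if α ≤ a then 1 else 0) k where
  zero := if_neg (not_le.2 hα)
  one := fun a => by split_ifs <;> omega
  ex := by
    refine ⟨fun c s => (c : ℝ) * α ≤ s, by simp, ?_, ?_, ?_⟩
    · intro c s c' s' h1 h2
      push_cast
      linarith
    · intro a ha
      split_ifs with h
      · simpa using h
      · simpa using ha
    · intro c h1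
      by_contra h2
      have h3 : (k : ℝ) + 1 ≤ c := by
        have : k + 1 ≤ c := by omega
        exact_mod_cast this
      have h4 : ((k : ℝ) + 1) * α ≤ c * α := mul_le_mul_of_nonneg_right h3 hα.le
      linarith

open Classical in
theorem thr_open {α : ℝ} (hα : 0 < α) {k : ℕ} (hk : Real.pi ≤ ((k : ℝ) + 1) * α) :
    Thr (fun a => if α < a then 1 else 0) k where
  zero := if_neg (not_lt.2 hα.le)
  one := fun a => by split_ifs <;> omega
  ex := by
    refine ⟨fun c s => (c : ℝ) * α < s ∨ (c = 0 ∧ 0 ≤ s), Or.inr ⟨rfl, le_refl _⟩, ?_, ?_, ?_⟩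
    · rintro c s c' s' (h1 | ⟨rfl, h1⟩) (h2 | ⟨rfl, h2⟩)
      · left
        push_cast
        linarith
      · left
        push_cast
        linarith
      · left
        push_cast
        linarith
      · right
        exact ⟨rfl, by linarith⟩
    · intro a ha
      split_ifs with h
      · left
        simpa using h
      · right
        exact ⟨rfl, ha⟩
    · rintro c (h1 | ⟨rfl, h1⟩)
      · by_contra h2
        have h3 : (k : ℝ) + 1 ≤ c := by
          have : k + 1 ≤ c := by omega
          exact_mod_cast this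
        have h4 : ((k : ℝ) + 1) * α ≤ c * α := mul_le_mul_of_nonneg_right h3 hα.le
        linarith
      · exact Nat.zero_le k

end Pool.Agent.MP_0af329_co.CG
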