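import Pool.Agent.MP_0af329_co.CG6

/-!
# Clusters on a circle: the exact number of small angles
-/

set_option autoImplicit false

namespace Pool.Agent.MP_0af329_co.CG

open Finset EuclideanGeometry
open Pool.Agent.MP_0af329_co.Cvx (ConvexPos)

/-- the contribution of a class of `w` points -/
def cl (w n : ℕ) : ℕ := w.choose 2 * (n - w) + 2 * w.choose 3

/-- The sum of `C(w,2) (n-w) + 2 C(w,3)` over `k` classes of sizes `w`, as equal as possible. -/
def Tk (k n : ℕ) : ℕ := n % k * cl (n / k + 1) n + (k - n % k) * cl (n / k) n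

theorem card_tr3_le' (m : ℕ) : (tr3 m).card ≤ 6 * m.choose 3 := by
  classical
  have h1 : (tr3 m).card ≤ ((univ : Finset (Fin m)).sigma fun x => (univ.erase x).sigma
      fun y => ((univ.erase x).erase y)).card := by
    refine card_le_card_of_injOn (fun t => ⟨t.1, t.2.1, t.2.2⟩) ?_ ?_
    · rintro ⟨x, y, z⟩ ht
      rw [mem_coe, tr3, mem_filter] at ht
      simp only [mem_coe, mem_sigma, mem_univ, mem_erase, true_and, and_true]
      exact ⟨ht.2.1.symm, ht.2.2.1.symm, ht.2.2.2.symm⟩
    · rintro ⟨x, y, z⟩ _ ⟨x', y', z'⟩ _ h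
      cases h
      rfl
  refine h1.trans (le_of_eq ?_)
  rw [card_sigma]
  have h2 : ∀ x ∈ (univ : Finset (Fin m)), ((univ.erase x).sigma
      fun y => ((univ.erase x).erase y)).card = (m - 1) * (m - 2) := by
    intro x _
    rw [card_sigma]
    have h3 : ∀ y ∈ (univ : Finset (Fin m)).erase x, (((univ : Finset (Fin m)).erase x).erase y).card =
        m - 2 := by
      intro y hy
      rw [card_erase_of_mem hy, card_erase_of_mem (mem_univ _), card_univ, Fintype.card_fin]
      omega
    rw [sum_congr rfl h3, sum_const, card_erase_of_mem (mem_univ _), card_univ, Fintype.card_fin,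
      smul_eq_mul]
  rw [sum_congr rfl h2, sum_const, card_univ, Fintype.card_fin, smul_eq_mul]
  have h4 := Nat.descFactorial_eq_factorial_mul_choose m 3
  have h5 : m.descFactorial 3 = m * ((m - 1) * (m - 2)) := by
    simp only [Nat.descFactorial_succ, Nat.descFactorial_zero, Nat.sub_zero]
    ring
  have h6 : Nat.factorial 3 = 6 := rfl
  rw [← h5, h4, h6]

theorem card_not_btw_le (m : ℕ) :
    ((tr3 m).filter fun t => ¬ Btw t.1 t.2.1 t.2.2).card ≤ 4 * m.choose 3 := by
  have h1 := three_mul_not_btw m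
  have h2 := card_tr3_le' m
  omega

theorem card_btw_le (m : ℕ) :
    ((tr3 m).filter fun t => Btw t.1 t.2.1 t.2.2).card ≤ 2 * m.choose 3 := by
  have h1 := three_mul_btw m
  have h2 := card_tr3_le' m
  omega

/-- the class sizes -/
def sz (k n : ℕ) (j : Fin k) : ℕ := if (j : ℕ) < n % k then n / k + 1 else n / k

theorem sz_lt (k n : ℕ) (j : Fin k) : sz k n j ≤ n / k + 1 := by
  unfold sz
  split_ifs <;> omega

theorem sum_sz {k n : ℕ} (hk : 1 ≤ k) (f : ℕ → ℕ) : ∑ j : Fin k, f (sz k n j) =
    n % k * f (n / k + 1) + (k - n % k) * f (n / k) := by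
  have hr : n % k < k := Nat.mod_lt _ (by omega)
  have h1 : ∑ j : Fin k, f (sz k n j) =
      ∑ j ∈ range k, f (if j < n % k then n / k + 1 else n / k) :=
    Fin.sum_univ_eq_sum_range (fun j => f (if j < n % k then n / k + 1 else n / k)) k
  rw [h1, ← Finset.sum_range_add_sum_Ico (fun j => f (if j < n % k then n / k + 1 else n / k))
    hr.le]
  congr 1
  · rw [sum_congr rfl (g := fun _ => f (n / k + 1)), sum_const, card_range, smul_eq_mul]
    intro j hj
    rw [mem_range] at hj
    rw [if_pos hj]
  · rw [sum_congr rfl (g := fun _ => f (n / k)), sum_const, Nat.card_Ico, smul_eq_mul]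
    intro j hj
    rw [mem_Ico] at hj
    rw [if_neg (by omega)]

theorem sum_sz_eq {k n : ℕ} (hk : 1 ≤ k) : ∑ j : Fin k, sz k n j = n := by
  have h1 := sum_sz (n := n) hk (fun w => w)
  rw [h1]
  have h2 : n % k < k := Nat.mod_lt _ (by omega)
  have h3 := Nat.div_add_mod n k
  obtain ⟨c, hc⟩ := Nat.exists_eq_add_of_le h2.le
  have h4 : k - n % k = c := by omega
  rw [h4]
  calc n % k * (n / k + 1) + c * (n / k) = (n % k + c) * (n / k) + n % k := by ring
    _ = k * (n / k) + n % k := by rw [← hc]
    _ = n := h3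

end Pool.Agent.MP_0af329_co.CG
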