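import Pool.Agent.MP_0af329_co.CG7
import Pool.Agent.MP_0af329_co.CvxFin

/-!
# Clusters on a circle: counting
-/

set_option autoImplicit false

namespace Pool.Agent.MP_0af329_co.CG

open Finset EuclideanGeometry
open Pool.Agent.MP_0af329_co.Cvx (ConvexPos)

/-- the index set: `sz k n j` points in class `j` -/
def X (k n : ℕ) : Finset (Fin k × Fin (n / k + 1)) := univ.filter fun x => (x.2 : ℕ) < sz k n x.1

theorem card_lt (m s : ℕ) (h : s ≤ m) : (univ.filter fun i : Fin m => (i : ℕ) < s).card = s := by
  have h1 : (univ.filter fun i : Fin m => (i : ℕ) < s) =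
      (univ : Finset (Fin s)).map (Fin.castLEEmb h) := by
    ext i
    simp only [mem_filter, mem_univ, true_and, mem_map]
    constructor
    · intro hi
      exact ⟨⟨i, hi⟩, by ext; rfl⟩
    · rintro ⟨a, rfl⟩
      exact a.2
  rw [h1, card_map, card_univ, Fintype.card_fin]

theorem card_X_eq {k n : ℕ} (j : Fin k) : ((X k n).filter fun x => x.1 = j).card = sz k n j := by
  have h1 : ((X k n).filter fun x => x.1 = j) =
      (univ.filter fun i : Fin (n / k + 1) => (i : ℕ) < sz k n j).image (fun i => (j, i)) := by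
    ext ⟨a, i⟩
    simp only [X, mem_filter, mem_univ, true_and, mem_image, Prod.mk.injEq]
    constructor
    · rintro ⟨h1, rfl⟩
      exact ⟨i, h1, rfl, rfl⟩
    · rintro ⟨i', h1, rfl, rfl⟩
      exact ⟨h1, rfl⟩
  rw [h1, card_image_of_injective _ (fun a b h => by simpa using h), card_lt _ _ (sz_lt k n j)]

theorem card_X {k n : ℕ} (hk : 1 ≤ k) : (X k n).card = n := by
  have h1 : (X k n).card = ∑ j : Fin k, ((X k n).filter fun x => x.1 = j).card :=
    card_eq_sum_card_fiberwise (fun x _ => mem_coe.2 (mem_univ _))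
  rw [h1, sum_congr rfl fun j _ => card_X_eq j, sum_sz_eq hk]

theorem card_X_ne {k n : ℕ} (hk : 1 ≤ k) (j : Fin k) :
    ((X k n).filter fun x => x.1 ≠ j).card = n - sz k n j := by
  have h1 := card_filter_add_card_filter_not (s := X k n) (fun x => x.1 = j)
  rw [card_X hk, card_X_eq] at h1
  have h2 : ((X k n).filter fun x => ¬ x.1 = j).card = n - sz k n j := by omega
  exact h2

/-- the points of class `j` -/
def fj (k n : ℕ) (j : Fin k) (i : Fin (sz k n j)) : Fin k × Fin (n / k + 1) :=
  (j, Fin.castLE (sz_lt k n j) i)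

theorem exists_fj {k n : ℕ} {x : Fin k × Fin (n / k + 1)} (hx : x ∈ X k n) :
    ∃ i : Fin (sz k n x.1), fj k n x.1 i = x := by
  rw [X, mem_filter] at hx
  exact ⟨⟨x.2, hx.2⟩, rfl⟩

theorem exists_triple' {k m : ℕ} (p : Fin k × Fin m → Pt) (Y : Finset (Fin k × Fin m))
    {t : Pt × Pt × Pt} (ht : t ∈ trip (Y.image p)) :
    ∃ x y z : Fin k × Fin m, x ∈ Y ∧ y ∈ Y ∧ z ∈ Y ∧ x ≠ y ∧ y ≠ z ∧ x ≠ z ∧
      t = (p x, p y, p z) := by
  classical
  obtain ⟨a, b, c⟩ := t
  rw [mem_trip] at ht
  simp only [Finset.mem_image] at ht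
  obtain ⟨⟨⟨x, hx, rfl⟩, ⟨y, hy, rfl⟩, ⟨z, hz, rfl⟩⟩, h1, h2, h3⟩ := ht
  exact ⟨x, y, z, hx, hy, hz, fun h => h1 (by rw [h]), fun h => h2 (by rw [h]),
    fun h => h3 (by rw [h]), rfl⟩

theorem two_choose (s : ℕ) : s * s - s = 2 * s.choose 2 := by
  have h1 : s.choose 2 = s * (s - 1) / 2 := Nat.choose_two_right s
  have h2 : 2 ∣ s * (s - 1) := (Nat.even_mul_pred_self s).two_dvd
  rw [h1, Nat.mul_div_cancel' h2, Nat.mul_sub, mul_one]

/-- For `α < π / k` some `n` points on a circle have at most (in fact exactly) `Tk k n` angles less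
than `α`. -/
theorem exists_small (k n : ℕ) (hk : 1 ≤ k) (α : ℝ) (hα : α < Real.pi / k) :
    ∃ S : Finset Pt, S.card = n ∧ ConvexPos S ∧ cnt S (Set.Iio α) ≤ 2 * Tk k n := by
  classical
  obtain ⟨p, hp, hg, h⟩ := exists_conf' k (n / k + 1) hk (Real.pi / k - α) (by linarith)
  have hkpi : Real.pi / k ≤ Real.pi :=
    div_le_self Real.pi_pos.le (by exact_mod_cast hk)
  refine ⟨(X k n).image p, ?_, ?_, ?_⟩
  · rw [Finset.card_image_of_injective _ hp, card_X hk]
  · refine Cvx.ConvexPos.mono hg ?_
    exact image_subset_image (subset_univ _)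
  let B : Fin k → Finset (Pt × Pt × Pt) := fun j =>
    (((univ : Finset (Fin (sz k n j))).offDiag ×ˢ ((X k n).filter fun x => x.1 ≠ j))).image
      (fun t => (p (fj k n j t.1.1), p t.2, p (fj k n j t.1.2)))
  let C : Fin k → Finset (Pt × Pt × Pt) := fun j =>
    ((tr3 (sz k n j)).filter fun t => ¬ Btw t.1 t.2.1 t.2.2).image
      (fun t => (p (fj k n j t.1), p (fj k n j t.2.1), p (fj k n j t.2.2)))
  have hsub : ((trip ((X k n).image p)).filter fun t => ∠ t.1 t.2.1 t.2.2 ∈ Set.Iio α) ⊆
      univ.biUnion fun j => B j ∪ C j := by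
    intro t ht
    rw [Finset.mem_filter] at ht
    obtain ⟨x, y, z, hx, hy, hz, hxy, hyz, hxz, rfl⟩ := exists_triple' p (X k n) ht.1
    have ht2 : ∠ (p x) (p y) (p z) < α := ht.2
    obtain ⟨h1, h2, h3⟩ := h _ _ _ hxy hyz hxz
    have h4 : x.1 = z.1 := by
      by_contra hne
      have := (h1 hne).1
      linarith
    rw [mem_biUnion]
    refine ⟨x.1, mem_univ _, ?_⟩
    obtain ⟨j, x'⟩ := x
    obtain ⟨j', z'⟩ := z
    simp only at h4
    subst h4
    obtain ⟨a, ha⟩ := exists_fj hx
    obtain ⟨c, hc⟩ := exists_fj hz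
    simp only at a c ha hc ⊢
    have hac : a ≠ c := by
      rintro rfl
      exact hxz (ha.symm.trans hc)
    rw [mem_union]
    by_cases h5 : y.1 = j
    · right
      obtain ⟨j'', y'⟩ := y
      simp only at h5
      subst h5
      obtain ⟨b, hb⟩ := exists_fj hy
      simp only at b hb
      simp only [C]
      rw [mem_image]
      refine ⟨(a, b, c), ?_, by simp only [ha, hb, hc]⟩
      rw [mem_filter, tr3, mem_filter]
      refine ⟨⟨mem_univ _, ?_, ?_, hac⟩, ?_⟩
      · intro hh
        have hh' : a = b := hh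
        exact hxy (ha.symm.trans ((congrArg (fj k n j'') hh').trans hb))
      · intro hh
        have hh' : b = c := hh
        exact hyz (hb.symm.trans ((congrArg (fj k n j'') hh').trans hc))
      · intro hbt
        have h6 := (h3 rfl rfl).1 (by
          have e1 : x' = Fin.castLE (sz_lt k n j'') a := by
            have := congrArg Prod.snd ha
            exact this.symm
          have e2 : y' = Fin.castLE (sz_lt k n j'') b := by
            have := congrArg Prod.snd hb
            exact this.symm
          have e3 : z' = Fin.castLE (sz_lt k n j'') c := by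
            have := congrArg Prod.snd hc
            exact this.symm
          rw [e1, e2, e3]
          exact hbt)
        linarith
    · left
      simp only [B]
      rw [mem_image]
      refine ⟨((a, c), y), ?_, by simp only [ha, hc]⟩
      rw [mem_product, mem_offDiag, mem_filter]
      exact ⟨⟨mem_univ _, mem_univ _, hac⟩, hy, h5⟩
  have hcard : cnt ((X k n).image p) (Set.Iio α) ≤ ∑ j : Fin k, 2 * cl (sz k n j) n := by
    have h1 : cnt ((X k n).image p) (Set.Iio α) =
        ((trip ((X k n).image p)).filter fun t => ∠ t.1 t.2.1 t.2.2 ∈ Set.Iio α).card := by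
      rw [cnt]
      congr 1
    rw [h1]
    refine (card_le_card hsub).trans (card_biUnion_le.trans ?_)
    refine sum_le_sum fun j _ => ?_
    refine (card_union_le _ _).trans ?_
    have h2 : (B j).card ≤ (sz k n j * sz k n j - sz k n j) * (n - sz k n j) := by
      refine card_image_le.trans (le_of_eq ?_)
      rw [card_product, offDiag_card, card_univ, Fintype.card_fin, card_X_ne hk]
    have h3 : (C j).card ≤ 4 * (sz k n j).choose 3 := card_image_le.trans (card_not_btw_le _)
    rw [two_choose] at h2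
    unfold cl
    have e1 : 2 * (sz k n j).choose 2 * (n - sz k n j) = 2 * ((sz k n j).choose 2 * (n - sz k n j)) := by
      ring
    rw [e1] at h2
    omega
  refine hcard.trans (le_of_eq ?_)
  rw [← mul_sum, sum_sz hk (fun w => cl w n)]
  rfl

/-- For `α > π - π / k` some `n` points on a circle have few angles greater than `α`. -/
theorem exists_large (k n : ℕ) (hk : 1 ≤ k) (α : ℝ) (hα : Real.pi - Real.pi / k < α) :
    ∃ S : Finset Pt, S.card = n ∧ ConvexPos S ∧ cnt S (Set.Ioi α) ≤
      2 * (n % k * (n / k + 1).choose 3 + (k - n % k) * (n / k).choose 3) := by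
  classical
  obtain ⟨p, hp, hg, h⟩ := exists_conf' k (n / k + 1) hk (α - (Real.pi - Real.pi / k)) (by linarith)
  have hkpi : Real.pi / k ≤ Real.pi :=
    div_le_self Real.pi_pos.le (by exact_mod_cast hk)
  refine ⟨(X k n).image p, ?_, ?_, ?_⟩
  · rw [Finset.card_image_of_injective _ hp, card_X hk]
  · refine Cvx.ConvexPos.mono hg ?_
    exact image_subset_image (subset_univ _)
  let C : Fin k → Finset (Pt × Pt × Pt) := fun j =>
    ((tr3 (sz k n j)).filter fun t => Btw t.1 t.2.1 t.2.2).image
      (fun t => (p (fj k n j t.1), p (fj k n j t.2.1), p (fj k n j t.2.2)))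
  have hsub : ((trip ((X k n).image p)).filter fun t => ∠ t.1 t.2.1 t.2.2 ∈ Set.Ioi α) ⊆
      univ.biUnion fun j => C j := by
    intro t ht
    rw [Finset.mem_filter] at ht
    obtain ⟨x, y, z, hx, hy, hz, hxy, hyz, hxz, rfl⟩ := exists_triple' p (X k n) ht.1
    have ht2 : α < ∠ (p x) (p y) (p z) := ht.2
    obtain ⟨h1, h2, h3⟩ := h _ _ _ hxy hyz hxz
    have h4 : x.1 = z.1 := by
      by_contra hne
      have := (h1 hne).2
      linarith
    have h5 : x.1 = y.1 := by
      by_contra hne
      have := h2 h4 hne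
      linarith
    rw [mem_biUnion]
    refine ⟨x.1, mem_univ _, ?_⟩
    obtain ⟨j, x'⟩ := x
    obtain ⟨j', z'⟩ := z
    obtain ⟨j'', y'⟩ := y
    simp only at h4 h5
    subst h4
    subst h5
    obtain ⟨a, ha⟩ := exists_fj hx
    obtain ⟨c, hc⟩ := exists_fj hz
    obtain ⟨b, hb⟩ := exists_fj hy
    simp only at a b c ha hb hc ⊢
    have hac : a ≠ c := by
      rintro rfl
      exact hxz (ha.symm.trans hc)
    simp only [C]
    rw [mem_image]
    refine ⟨(a, b, c), ?_, by simp only [ha, hb, hc]⟩
    rw [mem_filter, tr3, mem_filter]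
    refine ⟨⟨mem_univ _, ?_, ?_, hac⟩, ?_⟩
    · intro hh
      have hh' : a = b := hh
      exact hxy (ha.symm.trans ((congrArg (fj k n j) hh').trans hb))
    · intro hh
      have hh' : b = c := hh
      exact hyz (hb.symm.trans ((congrArg (fj k n j) hh').trans hc))
    · by_contra hbt
      have h6 := (h3 rfl rfl).2 (by
        have e1 : x' = Fin.castLE (sz_lt k n j) a := by
          have := congrArg Prod.snd ha
          exact this.symm
        have e2 : y' = Fin.castLE (sz_lt k n j) b := by
          have := congrArg Prod.snd hb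
          exact this.symm
        have e3 : z' = Fin.castLE (sz_lt k n j) c := by
          have := congrArg Prod.snd hc
          exact this.symm
        rw [e1, e2, e3]
        exact hbt)
      linarith
  have hcard : cnt ((X k n).image p) (Set.Ioi α) ≤ ∑ j : Fin k, 2 * (sz k n j).choose 3 := by
    have h1 : cnt ((X k n).image p) (Set.Ioi α) =
        ((trip ((X k n).image p)).filter fun t => ∠ t.1 t.2.1 t.2.2 ∈ Set.Ioi α).card := by
      rw [cnt]
      congr 1
    rw [h1]
    refine (card_le_card hsub).trans (card_biUnion_le.trans ?_)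
    exact sum_le_sum fun j _ => card_image_le.trans (card_btw_le _)
  refine hcard.trans (le_of_eq ?_)
  rw [← mul_sum, sum_sz hk (fun w => w.choose 3)]

end Pool.Agent.MP_0af329_co.CG
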