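import Pool.Agent.MP_0af329_co.CG8
import Pool.Agent.MP_0af329_co.EqAng

/-!
# The limits for points in convex position
-/

set_option autoImplicit false

namespace Pool.Agent.MP_0af329_co

open Filter Topology Finset
open Pool.Agent.MP_0af329_co.Cvx (ConvexPos minCntC)

/-- The smallest proportion of angles in `A`, over all `n`-point sets in convex position. -/
noncomputable def ratioC (n : ℕ) (A : Set ℝ) : ℝ :=
  (minCntC n A : ℝ) / ((n : ℝ) * ((n : ℝ) - 1) * ((n : ℝ) - 2))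

/-- The limit of `ratioC n A` (it exists, see `tendsto_ratioC`). -/
noncomputable def densC (A : Set ℝ) : ℝ := limUnder atTop fun n : ℕ => ratioC n A

/-- The analogue of `F` for points in convex position. -/
noncomputable def FC (α : ℝ) : ℝ := densC (Set.Ioi α)

/-- The analogue of `G` for points in convex position. -/
noncomputable def GC (α : ℝ) : ℝ := densC (Set.Iio α)

theorem minCntC_le {S : Finset Pt} (hS : ConvexPos S) (A : Set ℝ) :
    minCntC S.card A ≤ cnt S A :=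
  Nat.sInf_le ⟨S, rfl, QU.genPos_of_convexPos hS, hS, rfl⟩

theorem exists_minCntC (n : ℕ) (A : Set ℝ) :
    ∃ S : Finset Pt, S.card = n ∧ ConvexPos S ∧ cnt S A = minCntC n A := by
  have hne : {m | ∃ S : Finset Pt, S.card = n ∧ GenPos S ∧ ConvexPos S ∧ cnt S A = m}.Nonempty := by
    obtain ⟨S, h1, h2, -⟩ := CG.exists_small 1 n (le_refl _) 0 (by
      have := Real.pi_pos
      simpa using this)
    exact ⟨cnt S A, S, h1, QU.genPos_of_convexPos h2, h2, rfl⟩
  obtain ⟨S, h1, -, h2, h3⟩ := Nat.sInf_mem hne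
  exact ⟨S, h1, h2, h3⟩

theorem minCntC_succ (n : ℕ) (A : Set ℝ) :
    (n + 1) * minCntC n A + 3 * minCntC (n + 1) A ≤ (n + 1) * minCntC (n + 1) A := by
  classical
  obtain ⟨S, h1, h2, h3⟩ := exists_minCntC (n + 1) A
  have h := sum_cnt_erase S A
  rw [h1, h3] at h
  rw [← h]
  refine Nat.add_le_add_right ?_ _
  have h4 : ∀ p ∈ S, minCntC n A ≤ cnt (S.erase p) A := by
    intro p hp
    have h5 : (S.erase p).card = n := by rw [Finset.card_erase_of_mem hp, h1]; rfl
    have h6 := minCntC_le (Cvx.ConvexPos.mono h2 (Finset.erase_subset p S)) A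
    rwa [h5] at h6
  calc (n + 1) * minCntC n A = ∑ p ∈ S, minCntC n A := by
        rw [Finset.sum_const, h1, smul_eq_mul]
    _ ≤ ∑ p ∈ S, cnt (S.erase p) A := Finset.sum_le_sum h4

theorem ratioC_nonneg (n : ℕ) (A : Set ℝ) : 0 ≤ ratioC n A := by
  rw [ratioC]
  rcases Nat.lt_or_ge n 3 with h | h
  · interval_cases n <;> norm_num
  · exact div_nonneg (Nat.cast_nonneg _) (denom_pos h).le

theorem ratioC_mono (A : Set ℝ) : Monotone fun n : ℕ => ratioC n A := by
  refine monotone_nat_of_le_succ fun n => ?_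
  rcases Nat.lt_or_ge n 3 with h | h
  · have : ratioC n A = 0 := by
      rw [ratioC]
      interval_cases n <;> norm_num
    rw [this]
    exact ratioC_nonneg _ _
  · have h1 := minCntC_succ n A
    have h2 : ((n : ℝ) + 1) * minCntC n A + 3 * minCntC (n + 1) A ≤
        ((n : ℝ) + 1) * minCntC (n + 1) A := by exact_mod_cast h1
    have h3 := denom_pos h
    have h4 := denom_pos (Nat.le_succ_of_le h)
    rw [ratioC, ratioC, div_le_div_iff₀ h3 h4]
    push_cast
    have h5 : (3 : ℝ) ≤ n := by exact_mod_cast h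
    have h6 : 0 ≤ (n : ℝ) * ((n : ℝ) - 1) := mul_nonneg (by linarith) (by linarith)
    have h7 : ((n : ℝ) + 1) * minCntC n A ≤ ((n : ℝ) - 2) * minCntC (n + 1) A := by linarith
    calc (minCntC n A : ℝ) * (((n : ℝ) + 1) * ((n : ℝ) + 1 - 1) * ((n : ℝ) + 1 - 2))
        = ((n : ℝ) * ((n : ℝ) - 1)) * (((n : ℝ) + 1) * minCntC n A) := by ring
      _ ≤ ((n : ℝ) * ((n : ℝ) - 1)) * (((n : ℝ) - 2) * minCntC (n + 1) A) :=
          mul_le_mul_of_nonneg_left h7 h6
      _ = (minCntC (n + 1) A : ℝ) * ((n : ℝ) * ((n : ℝ) - 1) * ((n : ℝ) - 2)) := by ring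

theorem ratioC_le_one (n : ℕ) (A : Set ℝ) : ratioC n A ≤ 1 := by
  rcases Nat.lt_or_ge n 3 with h | h
  · have : ratioC n A = 0 := by
      rw [ratioC]
      interval_cases n <;> norm_num
    rw [this]
    exact zero_le_one
  · obtain ⟨S, h1, h2, h3⟩ := exists_minCntC n A
    have h4 : (cnt S A : ℝ) ≤ (trip S).card := by exact_mod_cast cnt_le_card_trip S A
    rw [card_trip, h1, h3] at h4
    rw [ratioC, div_le_one (denom_pos h)]
    exact h4

theorem tendsto_ratioC (A : Set ℝ) : Tendsto (fun n : ℕ => ratioC n A) atTop (𝓝 (densC A)) := by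
  have h1 : BddAbove (Set.range fun n : ℕ => ratioC n A) := by
    refine ⟨1, ?_⟩
    rintro _ ⟨n, rfl⟩
    exact ratioC_le_one n A
  have h2 := tendsto_atTop_ciSup (ratioC_mono A) h1
  have h3 : densC A = ⨆ n : ℕ, ratioC n A := h2.limUnder_eq
  rw [h3]
  exact h2

theorem minCntC_mono (n : ℕ) {A B : Set ℝ} (h : A ⊆ B) : minCntC n A ≤ minCntC n B := by
  obtain ⟨S, h1, h2, h3⟩ := exists_minCntC n B
  rw [← h3, ← h1]
  exact (minCntC_le h2 A).trans (cnt_mono S h)

theorem densC_mono {A B : Set ℝ} (h : A ⊆ B) : densC A ≤ densC B := by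
  refine le_of_tendsto_of_tendsto (tendsto_ratioC A) (tendsto_ratioC B) ?_
  filter_upwards [eventually_ge_atTop 3] with n hn
  rw [ratioC, ratioC]
  have h1 : (minCntC n A : ℝ) ≤ minCntC n B := by exact_mod_cast minCntC_mono n h
  exact div_le_div_of_nonneg_right h1 (denom_pos hn).le

theorem le_densC (A : Set ℝ) (c C : ℝ)
    (h : ∀ S : Finset Pt, ConvexPos S → 3 ≤ S.card →
      c * ((S.card : ℝ) * ((S.card : ℝ) - 1) * ((S.card : ℝ) - 2)) - C * (S.card : ℝ) ^ 2 ≤
        cnt S A) :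
    c ≤ densC A := by
  have h1 : Tendsto (fun n : ℕ => c - C * ((n : ℝ) ^ 2 /
      ((n : ℝ) * ((n : ℝ) - 1) * ((n : ℝ) - 2)))) atTop (𝓝 c) := by
    have := (tendsto_sq.const_mul C).const_sub c
    simpa using this
  refine le_of_tendsto_of_tendsto h1 (tendsto_ratioC A) ?_
  filter_upwards [eventually_ge_atTop 3] with n hn
  obtain ⟨S, h2, h3, h4⟩ := exists_minCntC n A
  have h5 := h S h3 (h2 ▸ hn)
  rw [h2, h4] at h5
  have h6 := denom_pos hn
  rw [ratioC, le_div_iff₀ h6, sub_mul, mul_assoc C, div_mul_cancel₀ _ h6.ne']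
  exact h5

theorem densC_le (A : Set ℝ) (c : ℝ) (k : ℕ) (hk : 0 < k)
    (h : ∀ m : ℕ, 1 ≤ m → ∃ S : Finset Pt, S.card = k * m ∧ ConvexPos S ∧
      (cnt S A : ℝ) ≤ c * ((k : ℝ) * m) ^ 3) :
    densC A ≤ c := by
  have hk' : Tendsto (fun m : ℕ => k * m) atTop atTop :=
    Filter.tendsto_id.const_mul_atTop' hk
  have h1 : Tendsto (fun m : ℕ => ratioC (k * m) A) atTop (𝓝 (densC A)) :=
    (tendsto_ratioC A).comp hk'
  have h2 : Tendsto (fun m : ℕ => c * (((k * m : ℕ) : ℝ) ^ 3 /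
      (((k * m : ℕ) : ℝ) * (((k * m : ℕ) : ℝ) - 1) * (((k * m : ℕ) : ℝ) - 2)))) atTop (𝓝 c) := by
    have := (tendsto_cube.comp hk').const_mul c
    simpa using this
  refine le_of_tendsto_of_tendsto h1 h2 ?_
  filter_upwards [eventually_ge_atTop 3] with m hm
  obtain ⟨S, h3, h4, h5⟩ := h m (le_trans (by norm_num) hm)
  have h6 := minCntC_le h4 A
  rw [h3] at h6
  have h7 : 3 ≤ k * m := le_trans hm (Nat.le_mul_of_pos_left m hk)
  have h8 := denom_pos h7
  rw [ratioC, ← mul_div_assoc]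
  refine div_le_div_of_nonneg_right ?_ h8.le
  have h9 : (minCntC (k * m) A : ℝ) ≤ cnt S A := by exact_mod_cast h6
  push_cast
  exact h9.trans h5

end Pool.Agent.MP_0af329_co
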