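import Pool.Agent.MP_0af329_co.Circ

/-!
# Certificates for `k = 3, …, 13`

The features are scaled by `10 ^ 4`.
-/

set_option autoImplicit false

namespace Pool.Agent.MP_0af329_co

/-- The quadratic form with integer features. -/
def evI (L : List (List ℤ)) (i j : ℕ) : ℤ := (L.map fun u => u.getD i 0 * u.getD j 0).sum

/-- `10 ^ 8` at `0`, and `0` elsewhere. -/
def zI (n : ℕ) : ℤ := if n = 0 then 100000000 else 0

/-- The inequality of an acyclic triple. -/
def ck1 (k : ℕ) (ln vn : ℤ) (E O : List (List ℤ)) (a b c : ℕ) : Bool :=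
  decide (30000 * vn + (evI E a c + evI O a c + (evI E a b - evI O a b) +
    (evI E c b + evI O c b)) ≤ zI a + zI b + zI c + 10000 * ln * ((a : ℤ) + b + c - k))

/-- The inequality of a cyclic triple. -/
def ck2 (k : ℕ) (ln vn : ℤ) (E O : List (List ℤ)) (a b c : ℕ) : Bool :=
  decide (30000 * vn + (evI E a c - evI O a c + (evI E b a - evI O b a) +
    (evI E c b - evI O c b)) ≤ zI a + zI b + zI c + 10000 * ln * ((a : ℤ) + b + c - k))

/-- The check of a certificate. -/
def chk (k : ℕ) (ln vn : ℤ) (E O : List (List ℤ)) : Bool :=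
  (O.all fun u => decide (u.getD 0 0 = 0)) &&
  ((List.range (k + 1)).all fun a => (List.range (k + 1)).all fun b =>
    ((List.range 3).all fun e => decide (k < a + b + e) || ck1 k ln vn E O a b (a + b + e)) &&
    ((List.range (k + 1)).all fun c => decide (a + b + c < 2 * k) ||
      decide (2 * k + 2 < a + b + c) || ck2 k ln vn E O a b c))

/-- Even features for `k = 3`. -/
def E3 : List (List ℤ) :=
   [[6557, -4690, 222, 4288],
    [0, 787, -2671, 4573]]

/-- Odd features for `k = 3`. -/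
def O3 : List (List ℤ) :=
   [[0, 4836, -5471, 0]]

/-- Even features for `k = 4`. -/
def E4 : List (List ℤ) :=
   [[7399, -4371, -871, 1417, 3910],
    [0, 2556, -5619, 2888, 1808],
    [0, 0, 875, -3481, 5050]]

/-- Odd features for `k = 4`. -/
def O4 : List (List ℤ) :=
   [[0, 6140, -2749, -3260, 0],
    [0, 0, 2307, -3666, 0]]

/-- Even features for `k = 5`. -/
def E5 : List (List ℤ) :=
   [[7960, -4053, -1173, 84, 1314, 4191],
    [0, 2549, -4466, 1289, 512, 794],
    [0, 0, 1683, -4467, 3116, 605],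
    [0, 0, 0, 660, -2868, 3668]]

/-- Odd features for `k = 5`. -/
def O5 : List (List ℤ) :=
   [[0, 7354, -1410, -1951, -3223, -974],
    [0, 0, 5233, -4676, -2589, 779],
    [0, 0, 0, 2858, -4657, -1298]]

/-- Even features for `k = 6`. -/
def E6 : List (List ℤ) :=
   [[8328, -3844, -1275, -409, 697, 1116, 4092],
    [0, 1146, -4707, 5531, 94, -2346, -592],
    [0, 0, 428, -1273, 1094, 1279, -2065],
    [0, 0, 0, 532, -1082, -1046, 2301]]

/-- Odd features for `k = 6`. -/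
def O6 : List (List ℤ) :=
   [[0, 8461, -255, -787, -3305, -2840, -1313],
    [0, 0, 6036, -3687, -1411, -2573, 303],
    [0, 0, 0, 3838, -5138, -389, 22],
    [0, 0, 0, 0, 4074, -6511, -1464],
    [0, 0, 0, 0, 0, 817, -1663]]

/-- Even features for `k = 7`. -/
def E7 : List (List ℤ) :=
   [[8560, -3621, -1446, -493, 226, 1333, 626, 3079],
    [0, 1933, -4466, 2852, 164, 860, -1969, 193],
    [0, 0, 2842, -3859, -1504, 1946, 1152, 442],
    [0, 0, 0, 2730, -5984, 2282, 733, 1418],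
    [0, 0, 0, 0, 1642, -3871, 48, 3142],
    [0, 0, 0, 0, 0, 658, -2503, 2113]]

/-- Odd features for `k = 7`. -/
def O7 : List (List ℤ) :=
   [[0, 8763, 582, -302, -1981, -3115, -2449, -1582],
    [0, 0, 6145, -2882, -972, -1213, -2652, 221],
    [0, 0, 0, 4959, -3670, -2302, -708, -319],
    [0, 0, 0, 0, 2012, -381, -4122, -1166],
    [0, 0, 0, 0, 0, 3543, -5964, -1772],
    [0, 0, 0, 0, 0, 0, 1233, -4077]]

/-- Even features for `k = 8`. -/
def E8 : List (List ℤ) :=
   [[8761, -3454, -1603, -364, -94, 737, 1224, 161, 2340],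
    [0, 3195, -5677, 594, 2885, 328, 405, -2604, 49],
    [0, 0, 1745, -5035, 4127, -605, 2035, -1896, -1208],
    [0, 0, 0, 1705, -2216, -2865, 5085, -878, -505],
    [0, 0, 0, 0, 1561, -2710, -87, -1428, 3800],
    [0, 0, 0, 0, 0, 462, -1155, 395, 447]]

/-- Odd features for `k = 8`. -/
def O8 : List (List ℤ) :=
   [[0, 8807, 1632, 97, -488, -2608, -3293, -2366, -2224],
    [0, 0, 5975, -1430, -1157, -1029, -1041, -2918, 320],
    [0, 0, 0, 5713, -3560, -1168, -783, -2317, -760],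
    [0, 0, 0, 0, 4547, -4740, -1350, 574, -753],
    [0, 0, 0, 0, 0, 3684, -2051, -5302, -1332],
    [0, 0, 0, 0, 0, 0, 3296, -5087, -2918],
    [0, 0, 0, 0, 0, 0, 0, 1683, -4738]]

/-- Even features for `k = 9`. -/
def E9 : List (List ℤ) :=
   [[8902, -3345, -1693, -481, -244, 663, 1020, 1405, -678, 1669],
    [0, 3499, -5549, 437, 1808, 416, -51, 1405, -2998, 280],
    [0, 0, 1962, -3776, 1536, 468, -1215, 3774, -3070, -151],
    [0, 0, 0, 3881, -4798, -938, -1587, 3420, 358, 1139],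
    [0, 0, 0, 0, 2329, -4827, 1523, 1646, -784, 537],
    [0, 0, 0, 0, 0, 1343, -1466, -2312, -63, 3368],
    [0, 0, 0, 0, 0, 0, 103, -264, 174, -2]]

/-- Odd features for `k = 9`. -/
def O9 : List (List ℤ) :=
   [[0, 8997, 2055, 375, 122, -1888, -2275, -2921, -1818, -3055],
    [0, 0, 6353, -1094, -1103, -818, -959, -641, -3007, 255],
    [0, 0, 0, 6047, -3234, -1144, -631, -412, -2771, -539],
    [0, 0, 0, 0, 4971, -2802, -3400, -83, -15, 705],
    [0, 0, 0, 0, 0, 4615, -4185, -419, -2969, -1905],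
    [0, 0, 0, 0, 0, 0, 4147, -2420, -5778, -1913],
    [0, 0, 0, 0, 0, 0, 0, 3062, -4614, -3167],
    [0, 0, 0, 0, 0, 0, 0, 0, 1887, -5360]]

/-- Even features for `k = 10`. -/
def E10 : List (List ℤ) :=
   [[9017, -3246, -1767, -604, -241, 384, 821, 1294, 1370, -1241, 950],
    [0, 3967, -5213, -251, 652, 819, 610, 190, 1598, -3241, 45],
    [0, 0, 2391, -3491, -248, 1178, 113, -127, 3349, -3467, -397],
    [0, 0, 0, 4415, -4829, -1390, -430, -402, 3141, 181, 746],
    [0, 0, 0, 0, 3341, -4832, -1129, 1052, 3152, -1371, 401],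
    [0, 0, 0, 0, 0, 2491, -5432, 2911, -393, -251, 1216],
    [0, 0, 0, 0, 0, 0, 1690, -2283, -1714, -697, 3733]]

/-- Odd features for `k = 10`. -/
def O10 : List (List ℤ) :=
   [[0, 9054, 2267, 668, 559, -977, -1677, -2393, -2826, -1831, -3326],
    [0, 0, 6795, -862, -965, -452, -1147, -814, -583, -2698, 18],
    [0, 0, 0, 6231, -2743, -1165, -597, -368, -558, -2897, -467],
    [0, 0, 0, 0, 5247, -2387, -1438, -2202, -22, -1149, 282],
    [0, 0, 0, 0, 0, 4890, -3409, -3267, 1671, -1864, -636],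
    [0, 0, 0, 0, 0, 0, 3263, -1687, -301, -5150, -2600],
    [0, 0, 0, 0, 0, 0, 0, 4399, -3069, -5101, -2004],
    [0, 0, 0, 0, 0, 0, 0, 0, 2406, -3234, -3364],
    [0, 0, 0, 0, 0, 0, 0, 0, 0, 2187, -5774]]

/-- Even features for `k = 11`. -/
def E11 : List (List ℤ) :=
   [[9105, -3185, -1825, -706, -304, 124, 773, 1166, 1539, 1434, -2034, 200],
    [0, 4365, -4992, -263, 534, 97, -318, -22, 922, 2557, -3402, -111],
    [0, 0, 2522, -2655, 34, 263, -1772, -444, 1470, 4389, -3634, -166],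
    [0, 0, 0, 5093, -4062, -2269, -1444, -454, 530, 2813, 936, 905],
    [0, 0, 0, 0, 4280, -4807, -1709, -520, 1520, 1108, 808, 586],
    [0, 0, 0, 0, 0, 2843, -4552, -342, 2302, -1052, 966, 403],
    [0, 0, 0, 0, 0, 0, 1630, -3715, 2850, -1814, -410, 1846],
    [0, 0, 0, 0, 0, 0, 0, 1798, -3050, -154, -1402, 3283],
    [0, 0, 0, 0, 0, 0, 0, 0, 0, 101, -133, 23],
    [0, 0, 0, 0, 0, 0, 0, 0, 0, 0, 181, -199]]

/-- Odd features for `k = 11`. -/
def O11 : List (List ℤ) :=
   [[0, 9072, 2392, 641, 528, -383, -1347, -1468, -1778, -2470, -1579, -4032],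
    [0, 0, 7158, -491, -570, -373, -1177, -1132, -784, -300, -2647, -22],
    [0, 0, 0, 6466, -2368, -1396, -518, -495, -162, -415, -2934, -480],
    [0, 0, 0, 0, 5666, -2515, -1149, -1112, -1611, 379, -1476, 188],
    [0, 0, 0, 0, 0, 5054, -2481, -2654, -1798, 1684, -1448, 98],
    [0, 0, 0, 0, 0, 0, 4515, -4206, -1182, 1551, -3169, -1660],
    [0, 0, 0, 0, 0, 0, 0, 3518, -1021, -404, -7255, -3633],
    [0, 0, 0, 0, 0, 0, 0, 0, 4058, -3466, -3701, -1671],
    [0, 0, 0, 0, 0, 0, 0, 0, 0, 775, 1228, -6818],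
    [0, 0, 0, 0, 0, 0, 0, 0, 0, 0, 322, -808]]

/-- Even features for `k = 12`. -/
def E12 : List (List ℤ) :=
   [[9181, -3123, -1872, -829, -292, -64, 566, 1028, 1396, 1603, 1361, -2675, -463],
    [0, 4757, -4717, -1227, 409, 1044, -677, -224, 114, 928, 2451, -3476, -19],
    [0, 0, 2861, -3366, 63, 1852, -2427, -902, 116, 1895, 3293, -3072, -338],
    [0, 0, 0, 4811, -3161, -1350, -2584, -1021, -66, 1593, 3069, 30, 583],
    [0, 0, 0, 0, 4946, -4633, -2136, -855, -174, 1768, 1199, 751, 661],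
    [0, 0, 0, 0, 0, 3033, -3555, -1261, 845, 305, -1622, 2495, 651],
    [0, 0, 0, 0, 0, 0, 2535, -5125, 1307, 1916, -445, -566, 762],
    [0, 0, 0, 0, 0, 0, 0, 1470, -1978, -161, -820, -1391, 3354],
    [0, 0, 0, 0, 0, 0, 0, 0, 2326, -5037, 2237, -690, 1395],
    [0, 0, 0, 0, 0, 0, 0, 0, 0, 154, -367, 311, -103]]

/-- Odd features for `k = 12`. -/
def O12 : List (List ℤ) :=
   [[0, 9052, 2417, 1050, 485, 334, -1243, -1374, -1356, -1603, -2378, -1112, -4439],
    [0, 0, 7457, -397, -221, -264, -966, -995, -952, -853, -102, -2749, 142],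
    [0, 0, 0, 6509, -1578, -1654, -472, -519, -433, -358, -143, -3034, -230],
    [0, 0, 0, 0, 6084, -2993, -718, -775, -659, -1229, 183, -1541, -74],
    [0, 0, 0, 0, 0, 5049, -1738, -1717, -2237, -596, 802, -1376, 468],
    [0, 0, 0, 0, 0, 0, 4864, -2789, -3141, -465, 1719, -1856, -973],
    [0, 0, 0, 0, 0, 0, 0, 3775, -3628, 446, 371, -4238, -2514],
    [0, 0, 0, 0, 0, 0, 0, 0, 3820, -669, -1207, -7875, -3897],
    [0, 0, 0, 0, 0, 0, 0, 0, 0, 3461, -4301, -1093, -756],
    [0, 0, 0, 0, 0, 0, 0, 0, 0, 0, 928, 1146, -7139],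
    [0, 0, 0, 0, 0, 0, 0, 0, 0, 0, 0, 369, -875]]

/-- Even features for `k = 13`. -/
def E13 : List (List ℤ) :=
   [[9247, -3084, -1883, -934, -365, -109, 398, 837, 1242, 1407, 1670, 1261, -3260, -1013],
    [0, 4887, -4522, -1506, 426, 946, -460, -421, 30, 195, 958, 2616, -3760, -49],
    [0, 0, 3280, -3674, 68, 1392, -1379, -1350, -113, 301, 2388, 2537, -2993, -558],
    [0, 0, 0, 4767, -2755, -1197, -2090, -1694, -253, 34, 2538, 2514, -455, 295],
    [0, 0, 0, 0, 5263, -4257, -2142, -1235, -265, -229, 2072, 1089, 537, 809],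
    [0, 0, 0, 0, 0, 3834, -3807, -1691, -380, 1099, -358, 8, 1970, 367],
    [0, 0, 0, 0, 0, 0, 3379, -4748, -1449, 1918, 1377, -386, 84, 368],
    [0, 0, 0, 0, 0, 0, 0, 2068, -4808, 2745, -214, 1012, -1246, 688],
    [0, 0, 0, 0, 0, 0, 0, 0, 1784, -1291, -3261, 1598, -1368, 2951],
    [0, 0, 0, 0, 0, 0, 0, 0, 0, 790, -2573, 2888, -674, -468],
    [0, 0, 0, 0, 0, 0, 0, 0, 0, 0, 232, -484, 295, -55],
    [0, 0, 0, 0, 0, 0, 0, 0, 0, 0, 0, 0, 222, -243]]

/-- Odd features for `k = 13`. -/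
def O13 : List (List ℤ) :=
   [[0, 9144, 2528, 1304, 575, 469, -852, -1177, -1258, -1202, -1430, -2364, -585, -5141],
    [0, 0, 7557, -127, -118, -169, -616, -862, -891, -838, -1033, 218, -3037, 314],
    [0, 0, 0, 6564, -1340, -1412, -464, -472, -519, -313, -579, 184, -3150, -63],
    [0, 0, 0, 0, 6273, -2711, -863, -556, -622, -354, -1146, -60, -1472, -243],
    [0, 0, 0, 0, 0, 5397, -1754, -1199, -1309, -2054, 392, 40, -1675, 697],
    [0, 0, 0, 0, 0, 0, 5257, -2185, -1835, -2691, -103, 1389, -1589, -647],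
    [0, 0, 0, 0, 0, 0, 0, 4426, -3316, -2774, 1645, 368, -2481, -1429],
    [0, 0, 0, 0, 0, 0, 0, 0, 3446, -2416, 914, -549, -6178, -3898],
    [0, 0, 0, 0, 0, 0, 0, 0, 0, 4169, -1329, -1514, -6591, -3666],
    [0, 0, 0, 0, 0, 0, 0, 0, 0, 0, 3235, -5016, 506, 160],
    [0, 0, 0, 0, 0, 0, 0, 0, 0, 0, 0, 1013, 979, -7002],
    [0, 0, 0, 0, 0, 0, 0, 0, 0, 0, 0, 0, 447, -1066]]

theorem chk3 : chk 3 2776 2924 E3 O3 = true := by decide +kernel
theorem chk4 : chk 4 1721 2230 E4 O4 = true := by decide +kernel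
theorem chk5 : chk 5 1119 1798 E5 O5 = true := by decide +kernel
theorem chk6 : chk 6 779 1506 E6 O6 = true := by decide +kernel
theorem chk7 : chk 7 591 1293 E7 O7 = true := by decide +kernel
theorem chk8 : chk 8 447 1132 E8 O8 = true := by decide +kernel
theorem chk9 : chk 9 356 1007 E9 O9 = true := by decide +kernel
theorem chk10 : chk 10 288 907 E10 O10 = true := by decide +kernel
theorem chk11 : chk 11 241 826 E11 O11 = true := by decide +kernel
theorem chk12 : chk 12 203 757 E12 O12 = true := by decide +kernel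
theorem chk13 : chk 13 173 699 E13 O13 = true := by decide +kernel

end Pool.Agent.MP_0af329_co
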