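import Pool.Agent.MP_0af329_co.Cls

/-!
# Lower bounds for `G` from three-point certificates on the circle of directions
-/

set_option autoImplicit false

namespace Pool.Agent.MP_0af329_co

open EuclideanGeometry

variable {k : ℕ} {β δ : ℝ}

/-- The signed class of a difference of two arguments. -/
noncomputable def sc (k : ℕ) (β δ D : ℝ) : ℤ :=
  if 0 ≤ D then (if D < Real.pi then (cl k β δ D : ℤ) else -(cl k β δ (2 * Real.pi - D) : ℤ))
  else (if -Real.pi < D then -(cl k β δ (-D) : ℤ) else (cl k β δ (2 * Real.pi + D) : ℤ))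

theorem sc_of_nonneg {D : ℝ} (h0 : 0 ≤ D) (h1 : D < Real.pi) : sc k β δ D = cl k β δ D := by
  rw [sc, if_pos h0, if_pos h1]

theorem sc_of_ge {D : ℝ} (h1 : Real.pi ≤ D) : sc k β δ D = -(cl k β δ (2 * Real.pi - D) : ℤ) := by
  rw [sc, if_pos (Real.pi_pos.le.trans h1), if_neg (not_lt.2 h1)]

theorem sc_neg (hβ : 0 < β) (hδ : 0 < δ) (hk : 1 ≤ k) (D : ℝ) : sc k β δ (-D) = -sc k β δ D := by
  have hpi := Real.pi_pos
  rcases lt_trichotomy D 0 with h | h | h
  · unfold sc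
    rw [if_pos (by linarith : (0:ℝ) ≤ -D), if_neg (not_le.2 h)]
    by_cases h1 : -Real.pi < D
    · rw [if_pos (by linarith : -D < Real.pi), if_pos h1, neg_neg]
    · rw [if_neg (by linarith : ¬ -D < Real.pi), if_neg h1]
      congr 3
      ring
  · subst h
    have h0 : cl k β δ 0 = 0 := (cl_eq_zero_iff hβ hk 0).2 (by linarith)
    rw [neg_zero, sc_of_nonneg le_rfl hpi, h0]
    rfl
  · unfold sc
    rw [if_neg (by linarith : ¬ (0:ℝ) ≤ -D), if_pos h.le]
    by_cases h1 : D < Real.pi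
    · rw [if_pos (by linarith : -Real.pi < -D), if_pos h1, neg_neg]
    · rw [if_neg (by linarith : ¬ -Real.pi < -D), if_neg h1, neg_neg]
      congr 2

/-- Distance on the circle. -/
noncomputable def cd (D : ℝ) : ℝ := if |D| ≤ Real.pi then |D| else 2 * Real.pi - |D|

theorem natAbs_sc (D : ℝ) : (sc k β δ D).natAbs = cl k β δ (cd D) := by
  unfold sc cd
  by_cases h0 : 0 ≤ D
  · rw [if_pos h0, abs_of_nonneg h0]
    rcases lt_trichotomy D Real.pi with h1 | h1 | h1
    · rw [if_pos h1, if_pos h1.le, Int.natAbs_natCast]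
    · rw [if_neg (by linarith), if_pos h1.le, Int.natAbs_neg, Int.natAbs_natCast, h1]
      congr 1
      ring
    · rw [if_neg (by linarith), if_neg (by linarith), Int.natAbs_neg, Int.natAbs_natCast]
  · have h0' : D < 0 := not_le.1 h0
    rw [if_neg h0, abs_of_neg h0']
    rcases lt_trichotomy (-Real.pi) D with h1 | h1 | h1
    · rw [if_pos h1, if_pos (by linarith), Int.natAbs_neg, Int.natAbs_natCast]
    · rw [if_neg (by linarith), if_pos (by linarith), Int.natAbs_natCast, ← h1]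
      congr 1
      ring
    · rw [if_neg (by linarith), if_neg (by linarith), Int.natAbs_natCast]
      congr 1
      ring

/-- The kernel. -/
noncomputable def Ph (k : ℕ) (lam : ℝ) (n : ℕ) : ℝ :=
  (if n = 0 then 1 else 0) + lam * (n - k / 3)

/-- The two families of inequalities of a certificate. -/
structure Good (k : ℕ) (lam V : ℝ) (L : List (ℤ → ℝ)) : Prop where
  t1 : ∀ a b c : ℕ, a + b ≤ c → c ≤ a + b + 2 → c ≤ k →
    3 * V + (Qr L a c + Qr L (-a) b + Qr L (-c) (-b)) ≤ Ph k lam a + Ph k lam b + Ph k lam c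
  t2 : ∀ a b c : ℕ, a ≤ k → b ≤ k → c ≤ k → 2 * k ≤ a + b + c → a + b + c ≤ 2 * k + 2 →
    3 * V + (Qr L a (-c) + Qr L b (-a) + Qr L c (-b)) ≤ Ph k lam a + Ph k lam b + Ph k lam c

/-- The conditions on the parameters. -/
structure Par (k : ℕ) (β δ : ℝ) : Prop where
  hk : 1 ≤ k
  hβ : 0 < β
  hδ : 0 < δ
  hδβ : δ < β / 4
  hpi : ((k : ℝ) + 1) * β + 2 * δ = Real.pi

/-- The expression of a triple of directions. -/
noncomputable def G3 (k : ℕ) (β δ lam V : ℝ) (L : List (ℤ → ℝ)) (p q r : ℝ) : ℝ :=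
  Ph k lam (sc k β δ (q - p)).natAbs + Ph k lam (sc k β δ (r - q)).natAbs +
    Ph k lam (sc k β δ (r - p)).natAbs -
    (3 * V + (Qr L (sc k β δ (q - p)) (sc k β δ (r - p)) +
      Qr L (sc k β δ (p - q)) (sc k β δ (r - q)) + Qr L (sc k β δ (p - r)) (sc k β δ (q - r))))

theorem G3_swap12 (P : Par k β δ) (lam V : ℝ) (L : List (ℤ → ℝ)) (p q r : ℝ) :
    G3 k β δ lam V L p q r = G3 k β δ lam V L q p r := by
  unfold G3
  have h : sc k β δ (q - p) = -sc k β δ (p - q) := by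
    rw [← sc_neg P.hβ P.hδ P.hk, neg_sub]
  rw [h, Int.natAbs_neg, Qr_comm L (sc k β δ (p - r))]
  ring

theorem G3_swap23 (P : Par k β δ) (lam V : ℝ) (L : List (ℤ → ℝ)) (p q r : ℝ) :
    G3 k β δ lam V L p q r = G3 k β δ lam V L p r q := by
  unfold G3
  have h : sc k β δ (r - q) = -sc k β δ (q - r) := by
    rw [← sc_neg P.hβ P.hδ P.hk, neg_sub]
  rw [h, Int.natAbs_neg, Qr_comm L (sc k β δ (q - p))]
  ring

theorem G3_sorted (P : Par k β δ) {lam V : ℝ} {L : List (ℤ → ℝ)} (g : Good k lam V L)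
    {p q r : ℝ} (hpq : p ≤ q) (hqr : q ≤ r) (hp : r - p < 2 * Real.pi)
    (h1 : q - p ≠ Real.pi) (h2 : r - q ≠ Real.pi) (h3 : r - p ≠ Real.pi) :
    0 ≤ G3 k β δ lam V L p q r := by
  have hpi := Real.pi_pos
  have n1 : sc k β δ (p - q) = -sc k β δ (q - p) := by
    rw [← sc_neg P.hβ P.hδ P.hk, neg_sub]
  have n2 : sc k β δ (p - r) = -sc k β δ (r - p) := by
    rw [← sc_neg P.hβ P.hδ P.hk, neg_sub]
  have n3 : sc k β δ (q - r) = -sc k β δ (r - q) := by
    rw [← sc_neg P.hβ P.hδ P.hk, neg_sub]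
  unfold G3
  rw [n1, n2, n3, sub_nonneg]
  rcases lt_or_gt_of_ne h3 with h3 | h3
  · -- all three in an open half-circle
    have s1 : sc k β δ (q - p) = cl k β δ (q - p) := sc_of_nonneg (by linarith) (by linarith)
    have s2 : sc k β δ (r - q) = cl k β δ (r - q) := sc_of_nonneg (by linarith) (by linarith)
    have s3 : sc k β δ (r - p) = cl k β δ (r - p) := sc_of_nonneg (by linarith) (by linarith)
    have e : r - p = (q - p) + (r - q) := by ring
    obtain ⟨c1, c2⟩ := cl_add (k := k) P.hβ P.hδ P.hδβ (s := q - p) (t := r - q) (by linarith)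
      (by linarith) (by rw [P.hpi]; linarith)
    rw [← e] at c1 c2
    have := g.t1 _ _ _ c1 c2 (cl_le _)
    rw [s1, s2, s3]
    simp only [Int.natAbs_natCast]
    linarith
  · have s3 : sc k β δ (r - p) = -(cl k β δ (2 * Real.pi - (r - p)) : ℤ) := sc_of_ge h3.le
    rcases lt_or_gt_of_ne h1 with h1 | h1
    · have s1 : sc k β δ (q - p) = cl k β δ (q - p) := sc_of_nonneg (by linarith) h1
      rcases lt_or_gt_of_ne h2 with h2 | h2
      · -- the three arcs are less than a half-circle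
        have s2 : sc k β δ (r - q) = cl k β δ (r - q) := sc_of_nonneg (by linarith) h2
        obtain ⟨c1, c2⟩ := cl_circle (k := k) P.hβ P.hδ P.hδβ (s := q - p) (t := r - q)
          (u := 2 * Real.pi - (r - p)) (by linarith) (by linarith) (by linarith)
          (by rw [P.hpi]; linarith) (by rw [P.hpi]; linarith) (by rw [P.hpi]; linarith)
          (by rw [P.hpi]; ring)
        have := g.t2 _ _ _ (cl_le _) (cl_le _) (cl_le _) c1 c2
        rw [s1, s2, s3, neg_neg]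
        simp only [Int.natAbs_natCast, Int.natAbs_neg]
        rw [Qr_comm L (-(cl k β δ (q - p) : ℤ))]
        linarith
      · -- the arc from `q` to `r` is long
        have s2 : sc k β δ (r - q) = -(cl k β δ (2 * Real.pi - (r - q)) : ℤ) := sc_of_ge h2.le
        have e : 2 * Real.pi - (r - q) = (2 * Real.pi - (r - p)) + (q - p) := by ring
        obtain ⟨c1, c2⟩ := cl_add (k := k) P.hβ P.hδ P.hδβ (s := 2 * Real.pi - (r - p))
          (t := q - p) (by linarith) (by linarith) (by rw [P.hpi]; linarith)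
        rw [← e] at c1 c2
        have := g.t1 _ _ _ c1 c2 (cl_le _)
        rw [s1, s2, s3, neg_neg, neg_neg]
        simp only [Int.natAbs_natCast, Int.natAbs_neg]
        rw [Qr_comm L (cl k β δ (q - p) : ℤ) (-(cl k β δ (2 * Real.pi - (r - p)) : ℤ)),
          Qr_comm L (-(cl k β δ (q - p) : ℤ)) (-(cl k β δ (2 * Real.pi - (r - q)) : ℤ))]
        linarith
    · -- the arc from `p` to `q` is long
      have s1 : sc k β δ (q - p) = -(cl k β δ (2 * Real.pi - (q - p)) : ℤ) := sc_of_ge h1.le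
      have s2 : sc k β δ (r - q) = cl k β δ (r - q) := sc_of_nonneg (by linarith) (by linarith)
      have e : 2 * Real.pi - (q - p) = (r - q) + (2 * Real.pi - (r - p)) := by ring
      obtain ⟨c1, c2⟩ := cl_add (k := k) P.hβ P.hδ P.hδβ (s := r - q)
        (t := 2 * Real.pi - (r - p)) (by linarith) (by linarith) (by rw [P.hpi]; linarith)
      rw [← e] at c1 c2
      have := g.t1 _ _ _ c1 c2 (cl_le _)
      rw [s1, s2, s3, neg_neg, neg_neg]
      simp only [Int.natAbs_natCast, Int.natAbs_neg]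
      rw [Qr_comm L (cl k β δ (2 * Real.pi - (q - p)) : ℤ) (cl k β δ (r - q) : ℤ),
        Qr_comm L (cl k β δ (2 * Real.pi - (r - p)) : ℤ) (-(cl k β δ (r - q) : ℤ))]
      linarith

theorem G3_nonneg (P : Par k β δ) {lam V : ℝ} {L : List (ℤ → ℝ)} (g : Good k lam V L)
    {p q r : ℝ} (hpq : |q - p| < 2 * Real.pi) (hqr : |r - q| < 2 * Real.pi)
    (hpr : |r - p| < 2 * Real.pi)
    (h1 : |q - p| ≠ Real.pi) (h2 : |r - q| ≠ Real.pi) (h3 : |r - p| ≠ Real.pi) :
    0 ≤ G3 k β δ lam V L p q r := by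
  rcases le_total p q with a | a <;> rcases le_total q r with b | b <;>
    rcases le_total p r with c | c
  · rw [abs_of_nonneg (by linarith)] at hpq hqr hpr h1 h2 h3
    exact G3_sorted P g a b hpr h1 h2 h3
  · have e1 : p = q := le_antisymm a (b.trans c)
    have e2 : q = r := le_antisymm b (c.trans a)
    subst e1; subst e2
    exact G3_sorted P g le_rfl le_rfl (by simpa using hpr) (by simpa using h1) (by simpa using h2)
      (by simpa using h3)
  · rw [G3_swap23 P]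
    rw [abs_of_nonneg (by linarith)] at hpq hpr h1 h3
    rw [abs_sub_comm, abs_of_nonneg (by linarith)] at hqr h2
    exact G3_sorted P g c b hpq h3 h2 h1
  · rw [G3_swap23 P, G3_swap12 P]
    rw [abs_of_nonneg (by linarith)] at hpq h1
    rw [abs_sub_comm, abs_of_nonneg (by linarith)] at hqr h2
    rw [abs_sub_comm, abs_of_nonneg (by linarith)] at hpr h3
    exact G3_sorted P g c a hqr h3 h1 h2
  · rw [G3_swap12 P]
    rw [abs_sub_comm, abs_of_nonneg (by linarith)] at hpq h1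
    rw [abs_of_nonneg (by linarith)] at hqr hpr h2 h3
    exact G3_sorted P g a c hqr h1 h3 h2
  · rw [G3_swap12 P, G3_swap23 P]
    rw [abs_sub_comm, abs_of_nonneg (by linarith)] at hpq h1
    rw [abs_of_nonneg (by linarith)] at hqr h2
    rw [abs_sub_comm, abs_of_nonneg (by linarith)] at hpr h3
    exact G3_sorted P g b c hpq h2 h3 h1
  · have e1 : q = p := le_antisymm a (c.trans b)
    have e2 : r = q := le_antisymm b (a.trans c)
    subst e1; subst e2
    exact G3_sorted P g le_rfl le_rfl (by simpa using hpr) (by simpa using h1) (by simpa using h2)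
      (by simpa using h3)
  · rw [G3_swap12 P, G3_swap23 P, G3_swap12 P]
    rw [abs_sub_comm, abs_of_nonneg (by linarith)] at hpq hqr hpr h1 h2 h3
    exact G3_sorted P g b a hpr h2 h1 h3

/-! ## Directions -/

/-- Every nonzero vector has an argument. -/
theorem exists_arg (v : Pt) (hv : v ≠ 0) : ∃ θ : ℝ, -Real.pi < θ ∧ θ ≤ Real.pi ∧
    v 0 = ‖v‖ * Real.cos θ ∧ v 1 = ‖v‖ * Real.sin θ := by
  set w : ℂ := ⟨v 0, v 1⟩ with hw
  have hn : ‖w‖ = ‖v‖ := by
    rw [EuclideanSpace.norm_eq, Fin.sum_univ_two, Complex.norm_eq_sqrt_sq_add_sq]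
    simp [hw]
  refine ⟨w.arg, Complex.neg_pi_lt_arg w, Complex.arg_le_pi w, ?_, ?_⟩
  · rw [← hn]
    exact (Complex.norm_mul_cos_arg w).symm
  · rw [← hn]
    exact (Complex.norm_mul_sin_arg w).symm

theorem angle_eq_cd {u v : Pt} (hu : u ≠ 0) (hv : v ≠ 0) {a b : ℝ}
    (ha : -Real.pi < a ∧ a ≤ Real.pi ∧ u 0 = ‖u‖ * Real.cos a ∧ u 1 = ‖u‖ * Real.sin a)
    (hb : -Real.pi < b ∧ b ≤ Real.pi ∧ v 0 = ‖v‖ * Real.cos b ∧ v 1 = ‖v‖ * Real.sin b) :
    InnerProductGeometry.angle u v = cd (b - a) := by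
  have hnu : ‖u‖ ≠ 0 := norm_ne_zero_iff.2 hu
  have hnv : ‖v‖ ≠ 0 := norm_ne_zero_iff.2 hv
  have h1 : inner ℝ u v = ‖u‖ * ‖v‖ * Real.cos (b - a) := by
    rw [PiLp.inner_apply, Fin.sum_univ_two, ha.2.2.1, ha.2.2.2, hb.2.2.1, hb.2.2.2, Real.cos_sub]
    simp only [RCLike.inner_apply, conj_trivial]
    ring
  have h2 : ‖u‖ * ‖v‖ * Real.cos (b - a) / (‖u‖ * ‖v‖) = Real.cos (b - a) := by
    field_simp
  rw [InnerProductGeometry.angle, h1, h2]
  have hpi := Real.pi_pos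
  have habs : |b - a| < 2 * Real.pi := by
    rw [abs_lt]
    constructor <;> linarith [ha.1, ha.2.1, hb.1, hb.2.1]
  have key : Real.arccos (Real.cos (b - a)) = cd (b - a) := by
    unfold cd
    by_cases h : |b - a| ≤ Real.pi
    · rw [if_pos h, ← Real.cos_abs, Real.arccos_cos (abs_nonneg _) h]
    · rw [if_neg h, ← Real.cos_abs, ← Real.cos_two_pi_sub, Real.arccos_cos (by linarith)
        (by linarith [not_le.1 h])]
  exact key

/-! ## The sum over the triples -/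

theorem abs_ne_pi {u v : Pt} (hu : u ≠ 0) (hv : v ≠ 0) {a b : ℝ}
    (ha : -Real.pi < a ∧ a ≤ Real.pi ∧ u 0 = ‖u‖ * Real.cos a ∧ u 1 = ‖u‖ * Real.sin a)
    (hb : -Real.pi < b ∧ b ≤ Real.pi ∧ v 0 = ‖v‖ * Real.cos b ∧ v 1 = ‖v‖ * Real.sin b)
    (h : InnerProductGeometry.angle u v < Real.pi) : |b - a| ≠ Real.pi := by
  intro h1
  rw [angle_eq_cd hu hv ha hb] at h
  unfold cd at h
  rw [h1, if_pos le_rfl] at h
  exact lt_irrefl _ h

/-- The bound at one vertex. -/
theorem vertex_bound (P : Par k β δ) {lam V : ℝ} {L : List (ℤ → ℝ)} (g : Good k lam V L)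
    {S : Finset Pt} (hS : GenPos S) {y : Pt} (hy : y ∈ S) [DecidableEq Pt] :
    V * ((S.card : ℝ) - 1) ^ 2 ≤
      (∑ x ∈ S.erase y, ∑ z ∈ (S.erase y).erase x, Ph k lam (cl k β δ (∠ x y z))) +
        ((S.card : ℝ) - 1) * Ph k lam 0 := by
  have hpi := Real.pi_pos
  have hex : ∀ x : Pt, ∃ θ : ℝ, x ≠ y → (-Real.pi < θ ∧ θ ≤ Real.pi ∧
      (x - y) 0 = ‖x - y‖ * Real.cos θ ∧ (x - y) 1 = ‖x - y‖ * Real.sin θ) := by
    intro x
    by_cases hx : x = y
    · exact ⟨0, fun h => absurd hx h⟩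
    · obtain ⟨θ, h⟩ := exists_arg (x - y) (sub_ne_zero.2 hx)
      exact ⟨θ, fun _ => h⟩
  choose d hd using hex
  set T := S.erase y with hT
  have hTy : ∀ x ∈ T, x ≠ y := fun x hx => Finset.ne_of_mem_erase hx
  have hTS : ∀ x ∈ T, x ∈ S := fun x hx => Finset.mem_of_mem_erase hx
  have hlt : ∀ x ∈ T, ∀ z ∈ T, |d z - d x| < 2 * Real.pi := by
    intro x hx z hz
    have h1 := hd x (hTy x hx)
    have h2 := hd z (hTy z hz)
    rw [abs_lt]
    constructor <;> linarith [h1.1, h1.2.1, h2.1, h2.2.1]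
  have hang : ∀ x ∈ T, ∀ z ∈ T, ∠ x y z = cd (d z - d x) := by
    intro x hx z hz
    exact angle_eq_cd (sub_ne_zero.2 (hTy x hx)) (sub_ne_zero.2 (hTy z hz)) (hd x (hTy x hx))
      (hd z (hTy z hz))
  have hne : ∀ x ∈ T, ∀ z ∈ T, |d z - d x| ≠ Real.pi := by
    intro x hx z hz
    by_cases hxz : x = z
    · subst hxz
      rw [sub_self, abs_zero]
      exact hpi.ne
    · exact abs_ne_pi (sub_ne_zero.2 (hTy x hx)) (sub_ne_zero.2 (hTy z hz)) (hd x (hTy x hx))
        (hd z (hTy z hz))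
        (angle_lt_pi_of_genPos hS (hTS x hx) hy (hTS z hz) (hTy x hx) (hTy z hz).symm hxz)
  have h3 := three_point L T (fun x z => sc k β δ (d z - d x))
    (fun x z => Ph k lam (sc k β δ (d z - d x)).natAbs) V (by
      intro x hx z hz w hw
      have := G3_nonneg P g (p := d x) (q := d z) (r := d w) (hlt x hx z hz) (hlt z hz w hw)
        (hlt x hx w hw) (hne x hx z hz) (hne z hz w hw) (hne x hx w hw)
      unfold G3 at this
      linarith)
  have hc : (T.card : ℝ) = (S.card : ℝ) - 1 := by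
    rw [hT, Finset.card_erase_of_mem hy, Nat.cast_sub (Finset.card_pos.mpr ⟨y, hy⟩)]
    simp
  rw [hc] at h3
  refine h3.trans (le_of_eq ?_)
  have h4 : ((S.card : ℝ) - 1) * Ph k lam 0 = ∑ x ∈ T, Ph k lam 0 := by
    rw [Finset.sum_const, nsmul_eq_mul, hc]
  rw [h4, ← Finset.sum_add_distrib]
  refine Finset.sum_congr rfl fun x hx => ?_
  rw [← Finset.sum_erase_add _ _ hx]
  congr 1
  · refine Finset.sum_congr rfl fun z hz => ?_
    rw [natAbs_sc, hang x hx z (Finset.mem_of_mem_erase hz)]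
  · have h0 : cl k β δ 0 = 0 := (cl_eq_zero_iff P.hβ P.hk 0).2 (by linarith [P.hβ, P.hδ])
    rw [natAbs_sc, sub_self, cd, abs_zero, if_pos hpi.le, h0]

/-- A certificate gives a lower bound for the density of the small angles. -/
theorem le_dens_of_good (P : Par k β δ) {lam V : ℝ} {L : List (ℤ → ℝ)} (g : Good k lam V L)
    (hlam : 0 ≤ lam) (hV : 0 ≤ V) : V ≤ dens (Set.Iio (β + δ)) := by
  classical
  refine le_dens _ _ 1 fun S hS hn => ?_
  have hn' : (3 : ℝ) ≤ S.card := by exact_mod_cast hn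
  -- the sum over the vertices
  have h1 : (S.card : ℝ) * (V * ((S.card : ℝ) - 1) ^ 2 - ((S.card : ℝ) - 1) * Ph k lam 0) ≤
      ∑ t ∈ trip S, Ph k lam (cl k β δ (∠ t.1 t.2.1 t.2.2)) := by
    rw [sum_trip_eq S (fun x y z => Ph k lam (cl k β δ (∠ x y z))), ← nsmul_eq_mul]
    refine Finset.card_nsmul_le_sum _ _ _ fun y hy => ?_
    have := vertex_bound P g hS hy
    linarith
  -- the triangles
  have r1 := sum_trip_rot S (fun x y z => Ph k lam (cl k β δ (∠ x y z)))
  have r2 := sum_trip_rot S (fun x y z => Ph k lam (cl k β δ (∠ y z x)))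
  have q0 := cnt_eq_sum S (Set.Iio (β + δ))
  have q1 := sum_trip_rot S (fun x y z => if ∠ x y z ∈ Set.Iio (β + δ) then (1 : ℝ) else 0)
  have q2 := sum_trip_rot S (fun x y z => if ∠ y z x ∈ Set.Iio (β + δ) then (1 : ℝ) else 0)
  have hP : ∀ t : ℝ, Ph k lam (cl k β δ t) = (if t ∈ Set.Iio (β + δ) then (1 : ℝ) else 0) +
      lam * ((cl k β δ t : ℝ) - k / 3) := by
    intro t
    unfold Ph
    congr 1
    by_cases h : t < β + δ
    · rw [if_pos ((cl_eq_zero_iff P.hβ P.hk t).2 h), if_pos (Set.mem_Iio.2 h)]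
    · rw [if_neg (fun h' => h ((cl_eq_zero_iff P.hβ P.hk t).1 h')),
        if_neg (fun h' => h (Set.mem_Iio.1 h'))]
  have h2 : ∑ t ∈ trip S, (Ph k lam (cl k β δ (∠ t.1 t.2.1 t.2.2)) +
      Ph k lam (cl k β δ (∠ t.2.1 t.2.2 t.1)) + Ph k lam (cl k β δ (∠ t.2.2 t.1 t.2.1))) ≤
      ∑ t ∈ trip S, ((if ∠ t.1 t.2.1 t.2.2 ∈ Set.Iio (β + δ) then (1 : ℝ) else 0) +
        (if ∠ t.2.1 t.2.2 t.1 ∈ Set.Iio (β + δ) then (1 : ℝ) else 0) +
        (if ∠ t.2.2 t.1 t.2.1 ∈ Set.Iio (β + δ) then (1 : ℝ) else 0)) := by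
    refine Finset.sum_le_sum ?_
    rintro ⟨x, y, z⟩ ht
    rw [mem_trip] at ht
    obtain ⟨⟨hx, hy, hz⟩, hxy, hyz, hxz⟩ := ht
    dsimp only
    have a1 := angle_pos_of_genPos hS hx hy hz hxy hyz hxz
    have a2 := angle_pos_of_genPos hS hy hz hx hyz hxz.symm hxy.symm
    have a3 := angle_pos_of_genPos hS hz hx hy hxz.symm hxy hyz.symm
    have hsum : ∠ x y z + ∠ y z x + ∠ z x y = (k + 1) * β + 2 * δ := by
      rw [P.hpi]
      exact angle_add_angle_add_angle_eq_pi z hxy.symm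
    have h3 := cl_triangle P.hβ P.hδ a1 a2 a3 hsum
    have h4 : ((cl k β δ (∠ x y z) : ℝ) + cl k β δ (∠ y z x) + cl k β δ (∠ z x y)) ≤ k := by
      exact_mod_cast h3
    rw [hP, hP, hP]
    nlinarith [mul_le_mul_of_nonneg_left h4 hlam]
  simp only [Finset.sum_add_distrib] at h2
  rw [← q1] at q2
  have r2' : ∑ t ∈ trip S, Ph k lam (cl k β δ (∠ t.2.2 t.1 t.2.1)) =
      ∑ t ∈ trip S, Ph k lam (cl k β δ (∠ t.1 t.2.1 t.2.2)) := (r1.trans r2).symm
  rw [r2', ← r1, ← q1] at h2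
  have q2' : ∑ t ∈ trip S, (if ∠ t.2.2 t.1 t.2.1 ∈ Set.Iio (β + δ) then (1 : ℝ) else 0) =
    ∑ t ∈ trip S, (if ∠ t.1 t.2.1 t.2.2 ∈ Set.Iio (β + δ) then (1 : ℝ) else 0) := q2.symm
  rw [q2', ← q0] at h2
  have hP0 : Ph k lam 0 ≤ 1 := by
    unfold Ph
    rw [if_pos rfl]
    have : 0 ≤ lam * ((k : ℝ) / 3) := by positivity
    push_cast
    linarith
  have h5 : (S.card : ℝ) * (((S.card : ℝ) - 1) * Ph k lam 0) ≤ (S.card : ℝ) ^ 2 := by
    have h6 : 0 ≤ (S.card : ℝ) * ((S.card : ℝ) - 1) := by nlinarith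
    nlinarith [mul_le_mul_of_nonneg_left hP0 h6]
  have h7 : V * ((S.card : ℝ) * ((S.card : ℝ) - 1) * ((S.card : ℝ) - 2)) ≤
      (S.card : ℝ) * (V * ((S.card : ℝ) - 1) ^ 2) := by
    have h8 : 0 ≤ V * ((S.card : ℝ) * ((S.card : ℝ) - 1)) := by
      apply mul_nonneg hV
      nlinarith
    nlinarith
  nlinarith

end Pool.Agent.MP_0af329_co
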