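import Pool.Agent.MP_0af329_co.Final

/-!
# Classes of angles and a three-point bound on the circle

Fix `k ≥ 1`, `β > 0`, `0 < δ < β / 4` with `(k + 1) β + 2 δ = π`.  The class of an angle
`t ∈ [0, π]` is the number `cl t` of `j ∈ {1, …, k}` with `j β + δ ≤ t`.
-/

set_option autoImplicit false

namespace Pool.Agent.MP_0af329_co

open EuclideanGeometry

/-! ## Quadratic forms given by lists of features -/

/-- The quadratic form with features `L`. -/
noncomputable def Qr (L : List (ℤ → ℝ)) (i j : ℤ) : ℝ := (L.map fun u => u i * u j).sum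

theorem Qr_comm (L : List (ℤ → ℝ)) (i j : ℤ) : Qr L i j = Qr L j i := by
  unfold Qr
  congr 1
  exact List.map_congr_left fun u _ => mul_comm _ _

theorem Qr_psd {ι : Type*} (L : List (ℤ → ℝ)) (T : Finset ι) (s : ι → ι → ℤ) :
    0 ≤ ∑ x ∈ T, ∑ z ∈ T, ∑ w ∈ T, Qr L (s x z) (s x w) := by
  refine Finset.sum_nonneg fun x _ => ?_
  induction L with
  | nil => simp [Qr]
  | cons u L ih =>
    have h : ∑ z ∈ T, ∑ w ∈ T, Qr (u :: L) (s x z) (s x w) =
        (∑ z ∈ T, u (s x z)) ^ 2 + ∑ z ∈ T, ∑ w ∈ T, Qr L (s x z) (s x w) := by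
      rw [sq, Finset.sum_mul_sum, ← Finset.sum_add_distrib]
      refine Finset.sum_congr rfl fun z _ => ?_
      rw [← Finset.sum_add_distrib]
      refine Finset.sum_congr rfl fun w _ => ?_
      simp [Qr]
    rw [h]
    positivity

/-- The three-point bound. -/
theorem three_point {ι : Type*} (L : List (ℤ → ℝ)) (T : Finset ι) (s : ι → ι → ℤ)
    (φ : ι → ι → ℝ) (V : ℝ)
    (h : ∀ x ∈ T, ∀ z ∈ T, ∀ w ∈ T, 3 * V + (Qr L (s x z) (s x w) + Qr L (s z x) (s z w) +
      Qr L (s w x) (s w z)) ≤ φ x z + φ z w + φ x w) :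
    V * (T.card : ℝ) ^ 2 ≤ ∑ x ∈ T, ∑ z ∈ T, φ x z := by
  classical
  rcases T.eq_empty_or_nonempty with rfl | hT
  · simp
  have hc : (0 : ℝ) < T.card := by exact_mod_cast hT.card_pos
  have h1 : ∑ x ∈ T, ∑ z ∈ T, ∑ w ∈ T, (3 * V + (Qr L (s x z) (s x w) + Qr L (s z x) (s z w) +
      Qr L (s w x) (s w z))) ≤ ∑ x ∈ T, ∑ z ∈ T, ∑ w ∈ T, (φ x z + φ z w + φ x w) :=
    Finset.sum_le_sum fun x hx => Finset.sum_le_sum fun z hz => Finset.sum_le_sum fun w hw =>
      h x hx z hz w hw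
  have hQ := Qr_psd L T s
  have e1 : ∑ x ∈ T, ∑ z ∈ T, ∑ w ∈ T, Qr L (s z x) (s z w) =
      ∑ x ∈ T, ∑ z ∈ T, ∑ w ∈ T, Qr L (s x z) (s x w) := Finset.sum_comm
  have e2 : ∑ x ∈ T, ∑ z ∈ T, ∑ w ∈ T, Qr L (s w x) (s w z) =
      ∑ x ∈ T, ∑ z ∈ T, ∑ w ∈ T, Qr L (s x z) (s x w) := by
    rw [← Finset.sum_congr rfl fun w _ => Finset.sum_congr rfl fun x _ => rfl]
    calc ∑ x ∈ T, ∑ z ∈ T, ∑ w ∈ T, Qr L (s w x) (s w z)
        = ∑ x ∈ T, ∑ w ∈ T, ∑ z ∈ T, Qr L (s w x) (s w z) :=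
          Finset.sum_congr rfl fun x _ => Finset.sum_comm
      _ = ∑ w ∈ T, ∑ x ∈ T, ∑ z ∈ T, Qr L (s w x) (s w z) := Finset.sum_comm
  have e3 : ∑ x ∈ T, ∑ z ∈ T, ∑ w ∈ T, φ x z = T.card * ∑ x ∈ T, ∑ z ∈ T, φ x z := by
    simp only [Finset.sum_const, nsmul_eq_mul, Finset.mul_sum]
  have e4 : ∑ x ∈ T, ∑ z ∈ T, ∑ w ∈ T, φ z w = T.card * ∑ x ∈ T, ∑ z ∈ T, φ x z := by
    rw [Finset.sum_const, nsmul_eq_mul]
  have e5 : ∑ x ∈ T, ∑ z ∈ T, ∑ w ∈ T, φ x w = T.card * ∑ x ∈ T, ∑ z ∈ T, φ x z := by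
    simp only [Finset.sum_const, nsmul_eq_mul, Finset.mul_sum]
  simp only [Finset.sum_add_distrib] at h1
  rw [e1, e2, e3, e4, e5] at h1
  have e6 : ∑ x ∈ T, ∑ z ∈ T, ∑ w ∈ T, 3 * V = 3 * V * (T.card : ℝ) ^ 3 := by
    simp only [Finset.sum_const, nsmul_eq_mul]
    ring
  rw [e6] at h1
  have h2 : V * (T.card : ℝ) ^ 2 * T.card ≤ (∑ x ∈ T, ∑ z ∈ T, φ x z) * T.card := by
    nlinarith
  exact le_of_mul_le_mul_right h2 hc

/-! ## Classes -/

/-- The class of an angle: the number of thresholds `j β + δ`, `1 ≤ j ≤ k`, that it reaches. -/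
noncomputable def cl (k : ℕ) (β δ t : ℝ) : ℕ := min k ⌊(t - δ) / β⌋₊

variable {k : ℕ} {β δ : ℝ}

theorem cl_le (t : ℝ) : cl k β δ t ≤ k := min_le_left _ _

theorem le_cl (hβ : 0 < β) {j : ℕ} (hj : j ≤ k) {t : ℝ} (h : (j : ℝ) * β + δ ≤ t) :
    j ≤ cl k β δ t := by
  refine le_min hj (Nat.le_floor ?_)
  rw [le_div_iff₀ hβ]
  linarith

theorem of_cl (hβ : 0 < β) {t : ℝ} (h : 1 ≤ cl k β δ t) : (cl k β δ t : ℝ) * β + δ ≤ t := by
  have h1 : cl k β δ t ≤ ⌊(t - δ) / β⌋₊ := min_le_right _ _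
  have h2 : cl k β δ t ≠ 0 := by omega
  have h3 := (Nat.le_floor_iff' h2).1 h1
  rw [le_div_iff₀ hβ] at h3
  linarith

theorem of_cl' (hβ : 0 < β) (hδ : 0 < δ) {t : ℝ} (ht : 0 ≤ t) : (cl k β δ t : ℝ) * β ≤ t := by
  rcases Nat.eq_zero_or_pos (cl k β δ t) with h | h
  · rw [h]; simpa using ht
  · have := of_cl hβ h
    linarith

theorem lt_of_cl (hβ : 0 < β) {t : ℝ} (ht : t < (k + 1) * β + δ) :
    t < (cl k β δ t + 1) * β + δ := by
  by_contra hcon
  push Not at hcon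
  by_cases hk : cl k β δ t = k
  · rw [hk] at hcon
    linarith
  · have h1 : cl k β δ t + 1 ≤ k := by
      have := cl_le (k := k) (β := β) (δ := δ) t
      omega
    have h2 := le_cl (k := k) (δ := δ) hβ h1 (t := t) (by push_cast; linarith)
    omega

theorem cl_mono (hβ : 0 < β) {s t : ℝ} (h : s ≤ t) : cl k β δ s ≤ cl k β δ t := by
  refine min_le_min le_rfl (Nat.floor_mono ?_)
  gcongr

theorem cl_eq_zero_iff (hβ : 0 < β) (hk : 1 ≤ k) (t : ℝ) : cl k β δ t = 0 ↔ t < β + δ := by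
  constructor
  · intro h
    by_contra hcon
    push Not at hcon
    have := le_cl (k := k) (δ := δ) hβ hk (t := t) (by push_cast; linarith)
    omega
  · intro h
    by_contra hcon
    have h1 : 1 ≤ cl k β δ t := by omega
    have h2 := of_cl hβ h1
    have h3 : (1 : ℝ) ≤ cl k β δ t := by exact_mod_cast h1
    nlinarith

/-- Two adjacent arcs of total length less than `π`. -/
theorem cl_add (hβ : 0 < β) (hδ : 0 < δ) (hδβ : δ < β / 4) {s t : ℝ} (hs : 0 ≤ s) (ht : 0 ≤ t)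
    (hst : s + t < (k + 1) * β + 2 * δ) :
    cl k β δ s + cl k β δ t ≤ cl k β δ (s + t) ∧
      cl k β δ (s + t) ≤ cl k β δ s + cl k β δ t + 2 := by
  constructor
  · rcases Nat.eq_zero_or_pos (cl k β δ s) with h1 | h1
    · rw [h1, zero_add]
      exact cl_mono hβ (by linarith)
    rcases Nat.eq_zero_or_pos (cl k β δ t) with h2 | h2
    · rw [h2, add_zero]
      exact cl_mono hβ (by linarith)
    have h3 := of_cl hβ h1
    have h4 := of_cl hβ h2
    refine le_cl hβ ?_ (by push_cast; linarith)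
    have h5 : ((cl k β δ s + cl k β δ t : ℕ) : ℝ) * β < ((k + 1 : ℕ) : ℝ) * β := by
      push_cast
      linarith
    have h6 : ((cl k β δ s + cl k β δ t : ℕ) : ℝ) < ((k + 1 : ℕ) : ℝ) :=
      lt_of_mul_lt_mul_right h5 hβ.le
    have h7 : cl k β δ s + cl k β δ t < k + 1 := by exact_mod_cast h6
    omega
  · by_contra hcon
    push Not at hcon
    have hc := cl_le (k := k) (β := β) (δ := δ) (s + t)
    have h1 : s < (cl k β δ s + 1) * β + δ := by
      apply lt_of_cl hβ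
      by_contra h
      push Not at h
      have := le_cl (k := k) (δ := δ) hβ le_rfl (t := s) (by nlinarith)
      omega
    have h2 : t < (cl k β δ t + 1) * β + δ := by
      apply lt_of_cl hβ
      by_contra h
      push Not at h
      have := le_cl (k := k) (δ := δ) hβ le_rfl (t := t) (by nlinarith)
      omega
    have h3 := of_cl (k := k) (β := β) (δ := δ) hβ (t := s + t) (by omega)
    have h4 : ((cl k β δ s + cl k β δ t + 3 : ℕ) : ℝ) ≤ (cl k β δ (s + t) : ℝ) := by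
      exact_mod_cast hcon
    push_cast at h4
    nlinarith

/-- Three arcs that make up the circle, each of length less than `π`. -/
theorem cl_circle (hβ : 0 < β) (hδ : 0 < δ) (hδβ : δ < β / 4) {s t u : ℝ}
    (hs : 0 ≤ s) (ht : 0 ≤ t) (hu : 0 ≤ u)
    (hs' : s < (k + 1) * β + 2 * δ) (ht' : t < (k + 1) * β + 2 * δ)
    (hu' : u < (k + 1) * β + 2 * δ) (h : s + t + u = 2 * ((k + 1) * β + 2 * δ)) :
    2 * k ≤ cl k β δ s + cl k β δ t + cl k β δ u ∧
      cl k β δ s + cl k β δ t + cl k β δ u ≤ 2 * k + 2 := by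
  have hcap : ∀ v : ℝ, v < (k + 1) * β + 2 * δ → (v < (cl k β δ v + 1) * β + δ) ∨
      (cl k β δ v = k ∧ v < (cl k β δ v + 1) * β + 2 * δ) := by
    intro v hv
    by_cases hv1 : v < (k + 1) * β + δ
    · exact Or.inl (lt_of_cl hβ hv1)
    · push Not at hv1
      have h1 := le_cl (k := k) (δ := δ) hβ le_rfl (t := v) (by nlinarith)
      have h2 := cl_le (k := k) (β := β) (δ := δ) v
      have h3 : cl k β δ v = k := le_antisymm h2 h1
      refine Or.inr ⟨h3, ?_⟩
      rw [h3]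
      exact hv
  constructor
  · have key : (2 * ((k : ℝ) + 1)) * β < (cl k β δ s + cl k β δ t + cl k β δ u + 3) * β →
        2 * k ≤ cl k β δ s + cl k β δ t + cl k β δ u := by
      intro hh
      have h1 := lt_of_mul_lt_mul_right hh hβ.le
      have h2 : 2 * (k + 1) < cl k β δ s + cl k β δ t + cl k β δ u + 3 := by
        exact_mod_cast h1
      omega
    rcases hcap s hs' with a | ⟨a, a'⟩ <;> rcases hcap t ht' with b | ⟨b, b'⟩ <;>
      rcases hcap u hu' with c | ⟨c, c'⟩ <;>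
      first
        | omega
        | (apply key; linarith)
  · have a := of_cl' (k := k) hβ hδ hs
    have b := of_cl' (k := k) hβ hδ ht
    have c := of_cl' (k := k) hβ hδ hu
    have h1 : ((cl k β δ s + cl k β δ t + cl k β δ u : ℕ) : ℝ) * β < ((2 * k + 3 : ℕ) : ℝ) * β := by
      push_cast
      linarith
    have h2 := lt_of_mul_lt_mul_right h1 hβ.le
    have h3 : cl k β δ s + cl k β δ t + cl k β δ u < 2 * k + 3 := by exact_mod_cast h2
    omega

/-- The classes of the angles of a triangle have sum at most `k`. -/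
theorem cl_triangle (hβ : 0 < β) (hδ : 0 < δ) {s t u : ℝ}
    (hs : 0 < s) (ht : 0 < t) (hu : 0 < u) (h : s + t + u = (k + 1) * β + 2 * δ) :
    cl k β δ s + cl k β δ t + cl k β δ u ≤ k := by
  have hs1 := cl_le (k := k) (β := β) (δ := δ) s
  have ht1 := cl_le (k := k) (β := β) (δ := δ) t
  have hu1 := cl_le (k := k) (β := β) (δ := δ) u
  have key : ((cl k β δ s + cl k β δ t + cl k β δ u : ℕ) : ℝ) * β < ((k + 1 : ℕ) : ℝ) * β →
      cl k β δ s + cl k β δ t + cl k β δ u ≤ k := by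
    intro hh
    have h1 := lt_of_mul_lt_mul_right hh hβ.le
    have h2 : cl k β δ s + cl k β δ t + cl k β δ u < k + 1 := by exact_mod_cast h1
    omega
  rcases Nat.eq_zero_or_pos (cl k β δ s) with a | a <;>
  rcases Nat.eq_zero_or_pos (cl k β δ t) with b | b <;>
  rcases Nat.eq_zero_or_pos (cl k β δ u) with c | c
  · omega
  · omega
  · omega
  · have b' := of_cl hβ b
    have c' := of_cl hβ c
    apply key
    rw [a]
    push_cast
    linarith
  · omega
  · have a' := of_cl hβ a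
    have c' := of_cl hβ c
    apply key
    rw [b]
    push_cast
    linarith
  · have a' := of_cl hβ a
    have b' := of_cl hβ b
    apply key
    rw [c]
    push_cast
    linarith
  · have a' := of_cl hβ a
    have b' := of_cl hβ b
    have c' := of_cl hβ c
    apply key
    push_cast
    linarith

end Pool.Agent.MP_0af329_co
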