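import Pool.Agent.MP_0af329_co.Basic

/-! Row [ANG-CONF]: `k` clusters on a circle.  With `P φ = (sin² φ, sin φ cos φ)` one has
`P ψ - P φ = sin (ψ - φ) • (sin (φ + ψ), cos (φ + ψ))`, so that the angle `∠ (P ψ) (P φ) (P χ)` is
`|ψ - χ|` or `π - |ψ - χ|` (the latter iff `φ` is between `ψ` and `χ`), for distinct
`φ, ψ, χ ∈ [0, π)`.  Take the angles `j π / k + δ' i`. -/

namespace Pool.Agent.MP_0af329_co

open EuclideanGeometry

namespace Conf

/-- unit vectors -/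
noncomputable def e (a : ℝ) : Pt := !₂[Real.sin a, Real.cos a]

/-- the points of the circle -/
noncomputable def P (a : ℝ) : Pt := !₂[Real.sin a ^ 2, Real.sin a * Real.cos a]

theorem inner_e (a b : ℝ) : inner ℝ (e a) (e b) = Real.cos (a - b) := by
  rw [PiLp.inner_apply, Fin.sum_univ_two, Real.cos_sub]
  simp [e]
  ring

theorem norm_e (a : ℝ) : ‖e a‖ = 1 := by
  have h : ‖e a‖ ^ 2 = 1 := by
    rw [← real_inner_self_eq_norm_sq, inner_e, sub_self, Real.cos_zero]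
  nlinarith [norm_nonneg (e a)]

theorem angle_e (a b : ℝ) (h : |a - b| ≤ Real.pi) :
    InnerProductGeometry.angle (e a) (e b) = |a - b| := by
  rw [InnerProductGeometry.angle, inner_e, norm_e, norm_e, mul_one, div_one, ← Real.cos_abs,
    Real.arccos_cos (abs_nonneg _) h]

theorem sub_P (φ ψ : ℝ) : P ψ - P φ = Real.sin (ψ - φ) • e (φ + ψ) := by
  have h1 := Real.sin_sq_add_cos_sq φ
  have h2 := Real.sin_sq_add_cos_sq ψ
  ext i
  fin_cases i
  · simp only [P, e, Real.sin_sub, Real.sin_add]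
    simp
    linear_combination (-(Real.sin ψ ^ 2)) * h1 + (Real.sin φ ^ 2) * h2
  · simp only [P, e, Real.sin_sub, Real.cos_add]
    simp
    linear_combination (-(Real.sin ψ * Real.cos ψ)) * h1 + (Real.sin φ * Real.cos φ) * h2

theorem sin_pos' {φ ψ : ℝ} (h0 : 0 ≤ φ) (h1 : ψ < Real.pi) (h : φ < ψ) :
    0 < Real.sin (ψ - φ) :=
  Real.sin_pos_of_pos_of_lt_pi (by linarith) (by linarith)

theorem sin_neg' {φ ψ : ℝ} (h0 : 0 ≤ ψ) (h1 : φ < Real.pi) (h : ψ < φ) :
    Real.sin (ψ - φ) < 0 := by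
  have := sin_pos' h0 h1 h
  rw [← neg_sub, Real.sin_neg]
  linarith

theorem e_ne (a : ℝ) : e a ≠ 0 := by
  intro h
  have := norm_e a
  rw [h, norm_zero] at this
  exact zero_ne_one this

theorem P_ne {φ ψ : ℝ} (h0 : 0 ≤ φ) (h0' : 0 ≤ ψ) (h1 : φ < Real.pi) (h1' : ψ < Real.pi)
    (h : φ ≠ ψ) : P φ ≠ P ψ := by
  intro hP
  have h2 := sub_P φ ψ
  rw [hP, sub_self] at h2
  rcases smul_eq_zero.1 h2.symm with h3 | h3
  · rcases lt_or_gt_of_ne h with h4 | h4
    · exact (sin_pos' h0 h1' h4).ne' h3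
    · exact (sin_neg' h0' h1 h4).ne h3
  · exact e_ne _ h3

/-- the angle formula -/
theorem angle_same {φ ψ χ : ℝ} (h0 : 0 ≤ φ) (h1 : φ < Real.pi) (g0 : 0 ≤ ψ) (g1 : ψ < Real.pi)
    (k0 : 0 ≤ χ) (k1 : χ < Real.pi) (h : (φ < ψ ∧ φ < χ) ∨ (ψ < φ ∧ χ < φ)) :
    ∠ (P ψ) (P φ) (P χ) = |ψ - χ| := by
  have hab : |(φ + ψ) - (φ + χ)| ≤ Real.pi := by
    rw [abs_le]; constructor <;> linarith
  have heq : |(φ + ψ) - (φ + χ)| = |ψ - χ| := by
    congr 1; ring
  rw [EuclideanGeometry.angle, vsub_eq_sub, vsub_eq_sub, sub_P, sub_P]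
  rcases h with ⟨h2, h3⟩ | ⟨h2, h3⟩
  · rw [InnerProductGeometry.angle_smul_left_of_pos _ _ (sin_pos' h0 g1 h2),
      InnerProductGeometry.angle_smul_right_of_pos _ _ (sin_pos' h0 k1 h3), angle_e _ _ hab, heq]
  · rw [InnerProductGeometry.angle_smul_left_of_neg _ _ (sin_neg' g0 h1 h2),
      InnerProductGeometry.angle_smul_right_of_neg _ _ (sin_neg' k0 h1 h3),
      InnerProductGeometry.angle_neg_neg, angle_e _ _ hab, heq]

theorem angle_opp {φ ψ χ : ℝ} (h0 : 0 ≤ φ) (h1 : φ < Real.pi) (g0 : 0 ≤ ψ) (g1 : ψ < Real.pi)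
    (k0 : 0 ≤ χ) (k1 : χ < Real.pi) (h : (ψ < φ ∧ φ < χ) ∨ (χ < φ ∧ φ < ψ)) :
    ∠ (P ψ) (P φ) (P χ) = Real.pi - |ψ - χ| := by
  have hab : |(φ + ψ) - (φ + χ)| ≤ Real.pi := by
    rw [abs_le]; constructor <;> linarith
  have heq : |(φ + ψ) - (φ + χ)| = |ψ - χ| := by
    congr 1; ring
  rw [EuclideanGeometry.angle, vsub_eq_sub, vsub_eq_sub, sub_P, sub_P]
  rcases h with ⟨h2, h3⟩ | ⟨h2, h3⟩
  · rw [InnerProductGeometry.angle_smul_left_of_neg _ _ (sin_neg' g0 h1 h2),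
      InnerProductGeometry.angle_smul_right_of_pos _ _ (sin_pos' h0 k1 h3),
      InnerProductGeometry.angle_neg_left, angle_e _ _ hab, heq]
  · rw [InnerProductGeometry.angle_smul_left_of_pos _ _ (sin_pos' h0 g1 h3),
      InnerProductGeometry.angle_smul_right_of_neg _ _ (sin_neg' k0 h1 h2),
      InnerProductGeometry.angle_neg_right, angle_e _ _ hab, heq]

/-- both cases -/
theorem angle_cases {φ ψ χ : ℝ} (h0 : 0 ≤ φ) (h1 : φ < Real.pi) (g0 : 0 ≤ ψ) (g1 : ψ < Real.pi)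
    (k0 : 0 ≤ χ) (k1 : χ < Real.pi) (h : ψ ≠ φ) (h' : χ ≠ φ) :
    ∠ (P ψ) (P φ) (P χ) = |ψ - χ| ∨ ∠ (P ψ) (P φ) (P χ) = Real.pi - |ψ - χ| := by
  rcases lt_or_gt_of_ne h with h2 | h2 <;> rcases lt_or_gt_of_ne h' with h3 | h3
  · exact Or.inl (angle_same h0 h1 g0 g1 k0 k1 (Or.inr ⟨h2, h3⟩))
  · exact Or.inr (angle_opp h0 h1 g0 g1 k0 k1 (Or.inl ⟨h2, h3⟩))
  · exact Or.inr (angle_opp h0 h1 g0 g1 k0 k1 (Or.inr ⟨h3, h2⟩))
  · exact Or.inl (angle_same h0 h1 g0 g1 k0 k1 (Or.inl ⟨h2, h3⟩))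

end Conf

open Conf in
/-- The configuration: clusters `j : Fin k`, points `i : Fin m` in each cluster. -/
theorem exists_conf (k m : ℕ) (hk : 1 ≤ k) (δ : ℝ) (hδ : 0 < δ) :
    ∃ p : Fin k × Fin m → Pt, Function.Injective p ∧ GenPos (Finset.univ.image p) ∧
      ∀ x y z : Fin k × Fin m, x ≠ y → y ≠ z → x ≠ z →
        (x.1 ≠ z.1 → Real.pi / k - δ < ∠ (p x) (p y) (p z) ∧
          ∠ (p x) (p y) (p z) < Real.pi - Real.pi / k + δ) ∧
        (x.1 = z.1 → x.1 ≠ y.1 → ∠ (p x) (p y) (p z) < δ) ∧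
        (x.1 = z.1 → x.1 = y.1 →
          ((x.2 < y.2 ∧ y.2 < z.2) ∨ (z.2 < y.2 ∧ y.2 < x.2) →
            Real.pi - δ < ∠ (p x) (p y) (p z)) ∧
          (¬ ((x.2 < y.2 ∧ y.2 < z.2) ∨ (z.2 < y.2 ∧ y.2 < x.2)) →
            ∠ (p x) (p y) (p z) < δ)) := by
  have hkR : (0 : ℝ) < k := by exact_mod_cast hk
  have hpi := Real.pi_pos
  set w : ℝ := Real.pi / k with hw
  have hwpos : 0 < w := div_pos hpi hkR
  have hkw : (k : ℝ) * w = Real.pi := by rw [hw]; field_simp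
  obtain ⟨η, hη0, hη1, hη2⟩ : ∃ η : ℝ, 0 < η ∧ η < δ ∧ η < w := by
    refine ⟨min δ w / 2, by positivity, ?_, ?_⟩
    · have := min_le_left δ w; have : 0 < min δ w := lt_min hδ hwpos; linarith [min_le_left δ w]
    · have : 0 < min δ w := lt_min hδ hwpos; linarith [min_le_right δ w]
  -- offsets
  let o : Fin m → ℝ := fun i => η * ((i : ℕ) : ℝ) / ((m : ℝ) + 1)
  have ho0 : ∀ i, 0 ≤ o i := fun i => by positivity
  have ho1 : ∀ i, o i < η := by
    intro i
    have h1 : ((i : ℕ) : ℝ) < (m : ℝ) + 1 := by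
      have : ((i : ℕ) : ℝ) < (m : ℝ) := by exact_mod_cast i.2
      linarith
    have h2 : (0 : ℝ) < (m : ℝ) + 1 := by positivity
    change η * ((i : ℕ) : ℝ) / ((m : ℝ) + 1) < η
    rw [div_lt_iff₀ h2]
    exact mul_lt_mul_of_pos_left h1 hη0
  have homono : ∀ i i', i < i' → o i < o i' := by
    intro i i' h
    have h1 : ((i : ℕ) : ℝ) < ((i' : ℕ) : ℝ) := by exact_mod_cast h
    change η * ((i : ℕ) : ℝ) / ((m : ℝ) + 1) < η * ((i' : ℕ) : ℝ) / ((m : ℝ) + 1)
    have h2 : (0 : ℝ) < (m : ℝ) + 1 := by positivity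
    exact div_lt_div_of_pos_right (mul_lt_mul_of_pos_left h1 hη0) h2
  let θ : Fin k × Fin m → ℝ := fun x => ((x.1 : ℕ) : ℝ) * w + o x.2
  have hθ0 : ∀ x, 0 ≤ θ x := fun x => by
    have := ho0 x.2
    change 0 ≤ ((x.1 : ℕ) : ℝ) * w + o x.2
    positivity
  have hj : ∀ j : Fin k, ((j : ℕ) : ℝ) + 1 ≤ k := fun j => by exact_mod_cast j.2
  have hθ1 : ∀ x, θ x < Real.pi := fun x => by
    have h1 := ho1 x.2
    have h2 := hj x.1
    change ((x.1 : ℕ) : ℝ) * w + o x.2 < Real.pi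
    nlinarith
  -- differences between clusters
  have hlt : ∀ x y : Fin k × Fin m, x.1 < y.1 → w - η < θ y - θ x ∧
      θ y - θ x < Real.pi - w + η := by
    intro x y h
    have h1 : ((x.1 : ℕ) : ℝ) + 1 ≤ ((y.1 : ℕ) : ℝ) := by exact_mod_cast h
    have h2 := ho1 x.2
    have h3 := ho0 y.2
    have h4 := ho0 x.2
    have h5 := ho1 y.2
    have h6 := hj y.1
    have h7 : (0 : ℝ) ≤ ((x.1 : ℕ) : ℝ) := by positivity
    change w - η < (((y.1 : ℕ) : ℝ) * w + o y.2) - (((x.1 : ℕ) : ℝ) * w + o x.2) ∧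
      (((y.1 : ℕ) : ℝ) * w + o y.2) - (((x.1 : ℕ) : ℝ) * w + o x.2) < Real.pi - w + η
    constructor
    · nlinarith
    · nlinarith
  have hθlt : ∀ x y : Fin k × Fin m, x.1 < y.1 → θ x < θ y := by
    intro x y h
    have := (hlt x y h).1
    linarith
  have hsame : ∀ x y : Fin k × Fin m, x.1 = y.1 → θ y - θ x = o y.2 - o x.2 := by
    intro x y h
    change (((y.1 : ℕ) : ℝ) * w + o y.2) - (((x.1 : ℕ) : ℝ) * w + o x.2) = o y.2 - o x.2
    rw [h]; ring
  have hθinj : ∀ x y : Fin k × Fin m, x ≠ y → θ x ≠ θ y := by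
    intro x y hxy h
    rcases lt_trichotomy x.1 y.1 with h1 | h1 | h1
    · exact (hθlt x y h1).ne h
    · have h2 := hsame x y h1
      rcases lt_trichotomy x.2 y.2 with h3 | h3 | h3
      · have := homono _ _ h3; linarith
      · exact hxy (Prod.ext h1 h3)
      · have := homono _ _ h3; linarith
    · exact (hθlt y x h1).ne' h
  have habs : ∀ x y : Fin k × Fin m, x.1 = y.1 → |θ x - θ y| < η := by
    intro x y h
    have h1 := hsame y x h.symm
    rw [h1, abs_lt]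
    have := ho0 x.2; have := ho1 x.2; have := ho0 y.2; have := ho1 y.2
    constructor <;> linarith
  have habs2 : ∀ x y : Fin k × Fin m, x.1 ≠ y.1 → w - η < |θ x - θ y| ∧
      |θ x - θ y| < Real.pi - w + η := by
    intro x y h
    rcases lt_or_gt_of_ne h with h1 | h1
    · have h2 := hlt x y h1
      have h3 := hθlt x y h1
      rw [abs_of_neg (by linarith), neg_sub]
      exact h2
    · have h2 := hlt y x h1
      have h3 := hθlt y x h1
      rw [abs_of_pos (by linarith)]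
      exact h2
  have hpos : ∀ x y : Fin k × Fin m, x ≠ y → 0 < |θ x - θ y| ∧ |θ x - θ y| < Real.pi := by
    intro x y h
    refine ⟨abs_pos.2 (sub_ne_zero.2 (hθinj x y h)), ?_⟩
    rw [abs_lt]
    have := hθ0 x; have := hθ1 x; have := hθ0 y; have := hθ1 y
    constructor <;> linarith
  have hcases : ∀ x y z : Fin k × Fin m, x ≠ y → y ≠ z →
      ∠ (P (θ x)) (P (θ y)) (P (θ z)) = |θ x - θ z| ∨
        ∠ (P (θ x)) (P (θ y)) (P (θ z)) = Real.pi - |θ x - θ z| := fun x y z h1 h2 =>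
    angle_cases (hθ0 y) (hθ1 y) (hθ0 x) (hθ1 x) (hθ0 z) (hθ1 z) (hθinj x y h1)
      (hθinj z y h2.symm)
  have hPne : ∀ x y : Fin k × Fin m, x ≠ y → P (θ x) ≠ P (θ y) := fun x y h =>
    P_ne (hθ0 x) (hθ0 y) (hθ1 x) (hθ1 y) (hθinj x y h)
  refine ⟨fun x => P (θ x), ?_, ?_, ?_⟩
  · intro x y h
    by_contra hne
    exact hPne x y hne h
  · intro a ha b hb c hc hab hbc hac hcol
    simp only [Finset.mem_image, Finset.mem_univ, true_and] at ha hb hc
    obtain ⟨x, rfl⟩ := ha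
    obtain ⟨y, rfl⟩ := hb
    obtain ⟨z, rfl⟩ := hc
    have hxy : x ≠ y := fun h => hab (by rw [h])
    have hyz : y ≠ z := fun h => hbc (by rw [h])
    have hxz : x ≠ z := fun h => hac (by rw [h])
    obtain ⟨h1, h2⟩ := hpos x z hxz
    rw [collinear_iff_eq_or_eq_or_angle_eq_zero_or_angle_eq_pi] at hcol
    rcases hcol with h | h | h | h
    · exact hab h
    · exact hbc h.symm
    · rcases hcases x y z hxy hyz with h3 | h3 <;> rw [h3] at h <;> linarith
    · rcases hcases x y z hxy hyz with h3 | h3 <;> rw [h3] at h <;> linarith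
  · intro x y z hxy hyz hxz
    refine ⟨?_, ?_, ?_⟩
    · intro h
      obtain ⟨h1, h2⟩ := habs2 x z h
      rcases hcases x y z hxy hyz with h3 | h3
      · change _ < ∠ (P (θ x)) (P (θ y)) (P (θ z)) ∧ ∠ (P (θ x)) (P (θ y)) (P (θ z)) < _
        rw [h3]
        constructor <;> linarith
      · change _ < ∠ (P (θ x)) (P (θ y)) (P (θ z)) ∧ ∠ (P (θ x)) (P (θ y)) (P (θ z)) < _
        rw [h3]
        constructor <;> linarith
    · intro h h'
      have h1 := habs x z h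
      have h2 : ∠ (P (θ x)) (P (θ y)) (P (θ z)) = |θ x - θ z| := by
        apply angle_same (hθ0 y) (hθ1 y) (hθ0 x) (hθ1 x) (hθ0 z) (hθ1 z)
        rcases lt_or_gt_of_ne h' with h3 | h3
        · exact Or.inr ⟨hθlt x y h3, hθlt z y (h ▸ h3)⟩
        · exact Or.inl ⟨hθlt y x h3, hθlt y z (h ▸ h3)⟩
      change ∠ (P (θ x)) (P (θ y)) (P (θ z)) < δ
      rw [h2]
      linarith
    · intro h h'
      have h1 := habs x z h
      have e1 := hsame x y h'
      have e2 := hsame y z (h'.symm.trans h)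
      constructor
      · intro hb
        have h2 : ∠ (P (θ x)) (P (θ y)) (P (θ z)) = Real.pi - |θ x - θ z| := by
          apply angle_opp (hθ0 y) (hθ1 y) (hθ0 x) (hθ1 x) (hθ0 z) (hθ1 z)
          rcases hb with ⟨h3, h4⟩ | ⟨h3, h4⟩
          · have := homono _ _ h3
            have := homono _ _ h4
            exact Or.inl ⟨by linarith, by linarith⟩
          · have := homono _ _ h3
            have := homono _ _ h4
            exact Or.inr ⟨by linarith, by linarith⟩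
        change _ < ∠ (P (θ x)) (P (θ y)) (P (θ z))
        rw [h2]
        linarith
      · intro hb
        have h2 : ∠ (P (θ x)) (P (θ y)) (P (θ z)) = |θ x - θ z| := by
          apply angle_same (hθ0 y) (hθ1 y) (hθ0 x) (hθ1 x) (hθ0 z) (hθ1 z)
          have hxy2 : x.2 ≠ y.2 := fun h3 => hxy (Prod.ext h' h3)
          have hyz2 : y.2 ≠ z.2 := fun h3 => hyz (Prod.ext (h'.symm.trans h) h3)
          rcases lt_or_gt_of_ne hxy2 with h3 | h3 <;> rcases lt_or_gt_of_ne hyz2 with h4 | h4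
          · exact absurd (Or.inl ⟨h3, h4⟩) hb
          · have := homono _ _ h3
            have := homono _ _ h4
            exact Or.inr ⟨by linarith, by linarith⟩
          · have := homono _ _ h3
            have := homono _ _ h4
            exact Or.inl ⟨by linarith, by linarith⟩
          · exact absurd (Or.inr ⟨h4, h3⟩) hb
        change ∠ (P (θ x)) (P (θ y)) (P (θ z)) < δ
        rw [h2]
        linarith

end Pool.Agent.MP_0af329_co
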