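import Pool.Agent.MP_0af329_co.Lim

/-! Row [ANG-COS]: the lower bound `F(α) ≥ 1/12 - |cos α|/3` for `π/2 < α < π`.

* For unit vectors `u_1, …, u_N` of the plane, `∑_{i,j} ⟪u_i, u_j⟫² ≥ N²/2` (the matrix
  `M = ∑ u_i u_iᵀ` is symmetric 2×2 with trace `N`, and the sum is `tr M² ≥ (tr M)²/2`).  So for
  every `y ∈ S`: `∑_{x ≠ z} cos² (∠ x y z) ≥ (n-1)²/2 - (n-1)` (ordered pairs of distinct points of
  `S.erase y`).
* For a triangle with angles `A, B, C`: `cos² A + cos² B + cos² C = 1 - 2 cos A cos B cos C`; this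
  is `≤ 1` if all angles are `≤ π/2`, `≤ 1 + 2 |cos α|` if the largest one is in `(π/2, α]`, and
  always `≤ 3`.
* Sum over all ordered triples and rotate (`sum_trip_rot`). -/

namespace Pool.Agent.MP_0af329_co

open EuclideanGeometry

/-- The frame bound for unit vectors of the plane. -/
theorem frame_bound {ι : Type*} (s : Finset ι) (a b : ι → ℝ)
    (h : ∀ i ∈ s, a i ^ 2 + b i ^ 2 = 1) :
    (s.card : ℝ) ^ 2 / 2 ≤ ∑ i ∈ s, ∑ j ∈ s, (a i * a j + b i * b j) ^ 2 := by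
  have h1 : ∑ i ∈ s, ∑ j ∈ s, (a i * a j + b i * b j) ^ 2 =
      (∑ i ∈ s, a i ^ 2) ^ 2 + 2 * (∑ i ∈ s, a i * b i) ^ 2 + (∑ i ∈ s, b i ^ 2) ^ 2 := by
    rw [sq (∑ i ∈ s, a i ^ 2), sq (∑ i ∈ s, a i * b i), sq (∑ i ∈ s, b i ^ 2),
      Finset.sum_mul_sum, Finset.sum_mul_sum, Finset.sum_mul_sum, Finset.mul_sum]
    simp only [Finset.mul_sum, ← Finset.sum_add_distrib]
    refine Finset.sum_congr rfl fun i _ => Finset.sum_congr rfl fun j _ => ?_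
    ring
  have h2 : (∑ i ∈ s, a i ^ 2) + (∑ i ∈ s, b i ^ 2) = s.card := by
    rw [← Finset.sum_add_distrib, Finset.sum_congr rfl h]
    simp
  rw [h1, ← h2]
  nlinarith [sq_nonneg (∑ i ∈ s, a i * b i),
    sq_nonneg ((∑ i ∈ s, a i ^ 2) - (∑ i ∈ s, b i ^ 2))]

theorem cos_angle_eq (x y z : Pt) : Real.cos (∠ x y z) =
    (x - y) 0 / ‖x - y‖ * ((z - y) 0 / ‖z - y‖) + (x - y) 1 / ‖x - y‖ * ((z - y) 1 / ‖z - y‖) := by
  rw [EuclideanGeometry.angle, InnerProductGeometry.cos_angle, PiLp.inner_apply, Fin.sum_univ_two]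
  simp only [vsub_eq_sub, RCLike.inner_apply, conj_trivial]
  ring

theorem unit_sq (v : Pt) (hv : v ≠ 0) : (v 0 / ‖v‖) ^ 2 + (v 1 / ‖v‖) ^ 2 = 1 := by
  have h1 : ‖v‖ ^ 2 = v 0 ^ 2 + v 1 ^ 2 := by
    rw [EuclideanSpace.norm_sq_eq, Fin.sum_univ_two]
    simp
  have h2 : ‖v‖ ≠ 0 := norm_ne_zero_iff.2 hv
  rw [div_pow, div_pow, ← add_div, ← h1]
  exact div_self (pow_ne_zero 2 h2)

theorem sum_cos_sq_ge (S : Finset Pt) :
    (S.card : ℝ) * (((S.card : ℝ) - 1) ^ 2 / 2 - ((S.card : ℝ) - 1)) ≤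
      ∑ t ∈ trip S, Real.cos (∠ t.1 t.2.1 t.2.2) ^ 2 := by
  classical
  rw [sum_trip_eq S (fun x y z => Real.cos (∠ x y z) ^ 2), ← nsmul_eq_mul]
  refine Finset.card_nsmul_le_sum _ _ _ fun y hy => ?_
  have hcard : ((S.erase y).card : ℝ) = (S.card : ℝ) - 1 := by
    rw [Finset.card_erase_of_mem hy, Nat.cast_sub (Finset.card_pos.mpr ⟨y, hy⟩)]
    simp
  have h1 := frame_bound (S.erase y) (fun x => (x - y) 0 / ‖x - y‖) (fun x => (x - y) 1 / ‖x - y‖)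
    fun x hx => unit_sq _ (sub_ne_zero.2 (Finset.ne_of_mem_erase hx))
  have h2 : ∑ x ∈ S.erase y, ∑ z ∈ S.erase y,
      ((x - y) 0 / ‖x - y‖ * ((z - y) 0 / ‖z - y‖) +
        (x - y) 1 / ‖x - y‖ * ((z - y) 1 / ‖z - y‖)) ^ 2 =
      (∑ x ∈ S.erase y, ∑ z ∈ (S.erase y).erase x, Real.cos (∠ x y z) ^ 2) +
        ((S.card : ℝ) - 1) := by
    rw [← hcard, ← nsmul_one, ← Finset.sum_const, ← Finset.sum_add_distrib]
    refine Finset.sum_congr rfl fun x hx => ?_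
    rw [← Finset.sum_erase_add _ _ hx]
    have h3 : Real.cos (∠ x y x) ^ 2 = 1 := by
      rw [angle_self_of_ne (Finset.ne_of_mem_erase hx), Real.cos_zero, one_pow]
    rw [← cos_angle_eq, h3]
    congr 1
    exact Finset.sum_congr rfl fun z _ => by rw [cos_angle_eq]
  rw [h2, hcard] at h1
  linarith

theorem cos_sq_triangle (x y z : Pt) (hxy : x ≠ y) (hyz : y ≠ z) (hxz : x ≠ z) :
    Real.cos (∠ x y z) ^ 2 + Real.cos (∠ y z x) ^ 2 + Real.cos (∠ z x y) ^ 2 =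
      1 - 2 * Real.cos (∠ x y z) * Real.cos (∠ y z x) * Real.cos (∠ z x y) := by
  have h := angle_add_angle_add_angle_eq_pi z hxy.symm
  have h1 : Real.cos (∠ z x y) = Real.sin (∠ x y z) * Real.sin (∠ y z x) -
      Real.cos (∠ x y z) * Real.cos (∠ y z x) := by
    have : ∠ z x y = Real.pi - (∠ x y z + ∠ y z x) := by linarith
    rw [this, Real.cos_pi_sub, Real.cos_add]
    ring
  have h2 := Real.sin_sq_add_cos_sq (∠ x y z)
  have h3 := Real.sin_sq_add_cos_sq (∠ y z x)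
  rw [h1]
  linear_combination (Real.sin (∠ y z x)) ^ 2 * h2 + (1 - Real.cos (∠ x y z) ^ 2) * h3

theorem abs_cos_le {α t : ℝ} (h1 : Real.pi / 2 < α) (h2 : α < Real.pi) (ht : Real.pi / 2 < t)
    (ht' : t ≤ α) : |Real.cos t| ≤ |Real.cos α| := by
  have h3 : Real.cos α ≤ Real.cos t :=
    Real.cos_le_cos_of_nonneg_of_le_pi (by linarith [Real.pi_pos]) h2.le ht'
  have h4 : Real.cos t ≤ 0 := Real.cos_nonpos_of_pi_div_two_le_of_le ht.le
    (by linarith [Real.pi_pos])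
  rw [abs_of_nonpos h4, abs_of_nonpos (h3.trans h4)]
  linarith

theorem prod_bound {a b c d : ℝ} (ha : |a| ≤ d) (hb : |b| ≤ 1) (hc : |c| ≤ 1) :
    -(a * b * c) ≤ d := by
  refine (neg_le_abs _).trans ?_
  rw [abs_mul, abs_mul]
  have h0 : 0 ≤ |a| := abs_nonneg a
  calc |a| * |b| * |c| ≤ |a| * |b| * 1 := by gcongr
    _ ≤ |a| * 1 * 1 := by gcongr
    _ = |a| := by ring
    _ ≤ d := ha

open Classical in
theorem triangle_bound (α : ℝ) (h1 : Real.pi / 2 < α) (h2 : α < Real.pi) (x y z : Pt)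
    (hxy : x ≠ y) (hyz : y ≠ z) (hxz : x ≠ z) :
    Real.cos (∠ x y z) ^ 2 + Real.cos (∠ y z x) ^ 2 + Real.cos (∠ z x y) ^ 2 ≤
      (1 + 2 * |Real.cos α|) + 2 * ((if ∠ x y z ∈ Set.Ioi α then (1 : ℝ) else 0) +
        (if ∠ y z x ∈ Set.Ioi α then (1 : ℝ) else 0) +
        (if ∠ z x y ∈ Set.Ioi α then (1 : ℝ) else 0)) := by
  have hle : ∀ t : ℝ, |Real.cos t| ≤ 1 := Real.abs_cos_le_one
  have hα : 0 ≤ |Real.cos α| := abs_nonneg _
  have e1 : (0 : ℝ) ≤ if ∠ x y z ∈ Set.Ioi α then (1 : ℝ) else 0 := by split_ifs <;> norm_num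
  have e2 : (0 : ℝ) ≤ if ∠ y z x ∈ Set.Ioi α then (1 : ℝ) else 0 := by split_ifs <;> norm_num
  have e3 : (0 : ℝ) ≤ if ∠ z x y ∈ Set.Ioi α then (1 : ℝ) else 0 := by split_ifs <;> norm_num
  have key := cos_sq_triangle x y z hxy hyz hxz
  have hsq : ∀ t : ℝ, Real.cos t ^ 2 ≤ 1 := fun t => by
    nlinarith [Real.sin_sq_add_cos_sq t, sq_nonneg (Real.sin t)]
  by_cases g1 : ∠ x y z ∈ Set.Ioi α
  · rw [if_pos g1]
    linarith [hsq (∠ x y z), hsq (∠ y z x), hsq (∠ z x y)]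
  by_cases g2 : ∠ y z x ∈ Set.Ioi α
  · rw [if_pos g2]
    linarith [hsq (∠ x y z), hsq (∠ y z x), hsq (∠ z x y)]
  by_cases g3 : ∠ z x y ∈ Set.Ioi α
  · rw [if_pos g3]
    linarith [hsq (∠ x y z), hsq (∠ y z x), hsq (∠ z x y)]
  rw [if_neg g1, if_neg g2, if_neg g3, key]
  rw [Set.mem_Ioi, not_lt] at g1 g2 g3
  by_cases k1 : Real.pi / 2 < ∠ x y z
  · have := prod_bound (abs_cos_le h1 h2 k1 g1) (hle (∠ y z x)) (hle (∠ z x y))
    linarith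
  by_cases k2 : Real.pi / 2 < ∠ y z x
  · have := prod_bound (abs_cos_le h1 h2 k2 g2) (hle (∠ x y z)) (hle (∠ z x y))
    linarith
  by_cases k3 : Real.pi / 2 < ∠ z x y
  · have := prod_bound (abs_cos_le h1 h2 k3 g3) (hle (∠ x y z)) (hle (∠ y z x))
    linarith
  rw [not_lt] at k1 k2 k3
  have c1 : 0 ≤ Real.cos (∠ x y z) :=
    Real.cos_nonneg_of_neg_pi_div_two_le_of_le (by linarith [angle_nonneg x y z, Real.pi_pos]) k1
  have c2 : 0 ≤ Real.cos (∠ y z x) :=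
    Real.cos_nonneg_of_neg_pi_div_two_le_of_le (by linarith [angle_nonneg y z x, Real.pi_pos]) k2
  have c3 : 0 ≤ Real.cos (∠ z x y) :=
    Real.cos_nonneg_of_neg_pi_div_two_le_of_le (by linarith [angle_nonneg z x y, Real.pi_pos]) k3
  have := mul_nonneg (mul_nonneg c1 c2) c3
  linarith

theorem le_dens_Ioi (α : ℝ) (h1 : Real.pi / 2 < α) (h2 : α < Real.pi) :
    1 / 12 - |Real.cos α| / 3 ≤ dens (Set.Ioi α) := by
  classical
  refine le_dens _ _ (1 / 4) fun S hS hn => ?_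
  have hs := sum_cos_sq_ge S
  have r1 := sum_trip_rot S (fun x y z => Real.cos (∠ x y z) ^ 2)
  have r2 := sum_trip_rot S (fun x y z => Real.cos (∠ y z x) ^ 2)
  have q0 := cnt_eq_sum S (Set.Ioi α)
  have q1 := sum_trip_rot S (fun x y z => if ∠ x y z ∈ Set.Ioi α then (1 : ℝ) else 0)
  have q2 := sum_trip_rot S (fun x y z => if ∠ y z x ∈ Set.Ioi α then (1 : ℝ) else 0)
  have hsum : ∑ t ∈ trip S, (Real.cos (∠ t.1 t.2.1 t.2.2) ^ 2 +
      Real.cos (∠ t.2.1 t.2.2 t.1) ^ 2 + Real.cos (∠ t.2.2 t.1 t.2.1) ^ 2) ≤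
      ∑ t ∈ trip S, ((1 + 2 * |Real.cos α|) +
        2 * ((if ∠ t.1 t.2.1 t.2.2 ∈ Set.Ioi α then (1 : ℝ) else 0) +
        (if ∠ t.2.1 t.2.2 t.1 ∈ Set.Ioi α then (1 : ℝ) else 0) +
        (if ∠ t.2.2 t.1 t.2.1 ∈ Set.Ioi α then (1 : ℝ) else 0))) := by
    refine Finset.sum_le_sum ?_
    rintro ⟨x, y, z⟩ ht
    rw [mem_trip] at ht
    exact triangle_bound α h1 h2 x y z ht.2.1 ht.2.2.1 ht.2.2.2
  simp only [Finset.sum_add_distrib, ← Finset.mul_sum, Finset.sum_const, nsmul_eq_mul,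
    card_trip] at hsum
  rw [← q1, ← q0] at q2
  rw [← q1, ← q0] at hsum
  rw [← r1] at r2
  rw [← r1] at hsum
  have r2' : ∑ t ∈ trip S, Real.cos (∠ t.2.2 t.1 t.2.1) ^ 2 =
    ∑ t ∈ trip S, Real.cos (∠ t.1 t.2.1 t.2.2) ^ 2 := r2.symm
  have q2' : ∑ t ∈ trip S, (if ∠ t.2.2 t.1 t.2.1 ∈ Set.Ioi α then (1 : ℝ) else 0) =
    (cnt S (Set.Ioi α) : ℝ) := q2.symm
  rw [r2', q2'] at hsum
  have hn' : (3 : ℝ) ≤ S.card := by exact_mod_cast hn
  nlinarith [hsum, hs, abs_nonneg (Real.cos α)]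

end Pool.Agent.MP_0af329_co
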