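import Pool.Agent.MP_0af329_co.Cvx0

/-!
Convex position: in a convex `k`-gon (`k = 4, 5, 6`) at most three ears are acute.
-/

set_option autoImplicit false

namespace Pool.Agent.MP_0af329_co.Cvx

/-- A cone inside an acute cone is acute (vectors `u, w, z, v` in this order). -/
theorem narrow_vec (u1 u2 v1 v2 w1 w2 z1 z2 : ℝ)
    (hC : 0 < u1 * v2 - u2 * v1) (hwv : 0 < w1 * v2 - w2 * v1) (huw : 0 ≤ u1 * w2 - u2 * w1)
    (hzv : 0 ≤ z1 * v2 - z2 * v1) (huz : 0 < u1 * z2 - u2 * z1) (hd : 0 < u1 * v1 + u2 * v2) :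
    0 < w1 * z1 + w2 * z2 := by
  have key : (u1 * v2 - u2 * v1) ^ 2 * (w1 * z1 + w2 * z2) =
      (w1 * v2 - w2 * v1) * (z1 * v2 - z2 * v1) * (u1 ^ 2 + u2 ^ 2) +
      (u1 * w2 - u2 * w1) * (u1 * z2 - u2 * z1) * (v1 ^ 2 + v2 ^ 2) +
      ((w1 * v2 - w2 * v1) * (u1 * z2 - u2 * z1) + (u1 * w2 - u2 * w1) * (z1 * v2 - z2 * v1)) *
        (u1 * v1 + u2 * v2) := by ring
  have h1 : 0 ≤ (w1 * v2 - w2 * v1) * (z1 * v2 - z2 * v1) * (u1 ^ 2 + u2 ^ 2) := by positivity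
  have h2 : 0 ≤ (u1 * w2 - u2 * w1) * (u1 * z2 - u2 * z1) * (v1 ^ 2 + v2 ^ 2) := by positivity
  have h3 : 0 < ((w1 * v2 - w2 * v1) * (u1 * z2 - u2 * z1) +
      (u1 * w2 - u2 * w1) * (z1 * v2 - z2 * v1)) * (u1 * v1 + u2 * v2) := by positivity
  have h4 : 0 < (u1 * v2 - u2 * v1) ^ 2 * (w1 * z1 + w2 * z2) := by rw [key]; linarith
  exact pos_of_mul_pos_right h4 (by positivity)

theorem narrow {q : ℕ → ℝ × ℝ} {n : ℕ} (h : CP q n) (v x w z y : ℕ) (h1 : v < x) (h2 : x ≤ w)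
    (h3 : w < z) (h4 : z ≤ y) (h5 : y < v + n) (hd : 0 < dt (q v) (q x) (q y)) :
    0 < dt (q v) (q w) (q z) := by
  have c1 := h.pos v x y h1 (by omega) h5
  have c2 := h.pos v w y (by omega) (by omega) h5
  have c3 : 0 ≤ cr (q v) (q x) (q w) := by
    rcases eq_or_lt_of_le h2 with e | e
    · rw [e]
      simp only [cr]
      exact le_of_eq (by ring)
    · exact (h.pos v x w h1 e (by omega)).le
  have c4 : 0 ≤ cr (q v) (q z) (q y) := by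
    rcases eq_or_lt_of_le h4 with e | e
    · rw [e]
      simp only [cr]
      exact le_of_eq (by ring)
    · exact (h.pos v z y (by omega) e h5).le
  have c5 := h.pos v x z h1 (by omega) (by omega)
  simp only [cr] at c1 c2 c3 c4 c5
  simp only [dt] at hd ⊢
  exact narrow_vec _ _ _ _ _ _ _ _ c1 c2 c3 c4 c5 hd

/-- Four consecutive turns, each by more than a right angle and less than a straight angle, do not
close up. -/
theorem four_vec (a1 a2 b1 b2 c1 c2 d1 d2 : ℝ)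
    (hab : 0 < a1 * b2 - a2 * b1) (hbc : 0 < b1 * c2 - b2 * c1) (hcd : 0 < c1 * d2 - c2 * d1)
    (hda : 0 < d1 * a2 - d2 * a1) (dab : a1 * b1 + a2 * b2 < 0) (dbc : b1 * c1 + b2 * c2 < 0)
    (dcd : c1 * d1 + c2 * d2 < 0) (dda : d1 * a1 + d2 * a2 < 0) : False := by
  have hL : 0 < a1 ^ 2 + a2 ^ 2 := by
    rcases eq_or_ne a1 0 with h | h
    · rcases eq_or_ne a2 0 with h' | h'
      · rw [h, h'] at hab
        simp at hab
      · positivity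
    · positivity
  -- a = -a·b, b = a×b, c = -a·d, d = d×a, x = a·c, y = a×c
  set x := a1 * c1 + a2 * c2 with hx
  set y := a1 * c2 - a2 * c1 with hy
  set p := -(a1 * b1 + a2 * b2) with hp
  set r := a1 * b2 - a2 * b1 with hr
  set s := -(d1 * a1 + d2 * a2) with hs
  set t := d1 * a2 - d2 * a1 with ht
  have hp0 : 0 < p := by linarith
  have hs0 : 0 < s := by linarith
  have i1 : (a1 ^ 2 + a2 ^ 2) * (b1 * c2 - b2 * c1) = - (p * y) - r * x := by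
    rw [hx, hy, hp, hr]; ring
  have i2 : (a1 ^ 2 + a2 ^ 2) * (b1 * c1 + b2 * c2) = - (p * x) + r * y := by
    rw [hx, hy, hp, hr]; ring
  have i3 : (a1 ^ 2 + a2 ^ 2) * (c1 * d2 - c2 * d1) = - (x * t) + y * s := by
    rw [hx, hy, hs, ht]; ring
  have i4 : (a1 ^ 2 + a2 ^ 2) * (c1 * d1 + c2 * d2) = - (x * s) - y * t := by
    rw [hx, hy, hs, ht]; ring
  have j1 := mul_pos hL hbc
  have j2 := mul_neg_of_pos_of_neg hL dbc
  have j3 := mul_pos hL hcd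
  have j4 := mul_neg_of_pos_of_neg hL dcd
  rw [i1] at j1
  rw [i2] at j2
  rw [i3] at j3
  rw [i4] at j4
  rcases le_or_gt 0 x with h | h
  · have k1 : p * y < 0 := by nlinarith
    have k2 : y < 0 := neg_of_mul_neg_right k1 hp0.le
    have k3 : 0 < y * s := by nlinarith
    have k4 : 0 < y := pos_of_mul_pos_left k3 hs0.le
    linarith
  · have k1 : r * y < 0 := by nlinarith
    have k2 : y < 0 := neg_of_mul_neg_right k1 hab.le
    nlinarith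

/-- The four interior angles of a convex quadrangle are not all acute. -/
theorem quad0 {q : ℕ → ℝ × ℝ} {n : ℕ} (h : CP q n) (w1 w2 w3 w4 : ℕ) (h12 : w1 < w2)
    (h23 : w2 < w3) (h34 : w3 < w4) (h41 : w4 < w1 + n)
    (d1 : 0 < dt (q w1) (q w2) (q w4)) (d2 : 0 < dt (q w2) (q w3) (q w1))
    (d3 : 0 < dt (q w3) (q w4) (q w2)) (d4 : 0 < dt (q w4) (q w1) (q w3)) : False := by
  have c1 := h.pos w1 w2 w3 h12 h23 (by omega)
  have c2 := h.pos w2 w3 w4 h23 h34 (by omega)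
  have c3 := h.pos w3 w4 (w1 + n) h34 h41 (by omega)
  have c4 := h.pos w4 (w1 + n) (w2 + n) h41 (by omega) (by omega)
  rw [h.per] at c3
  rw [h.per, h.per] at c4
  simp only [cr] at c1 c2 c3 c4
  simp only [dt] at d1 d2 d3 d4
  exact four_vec ((q w2).1 - (q w1).1) ((q w2).2 - (q w1).2) ((q w3).1 - (q w2).1)
    ((q w3).2 - (q w2).2) ((q w4).1 - (q w3).1) ((q w4).2 - (q w3).2) ((q w1).1 - (q w4).1)
    ((q w1).2 - (q w4).2) (by linarith) (by linarith) (by linarith) (by linarith) (by linarith)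
    (by linarith) (by linarith) (by linarith)

theorem quad {q : ℕ → ℝ × ℝ} {n : ℕ} (h : CP q n) (w1 w2 w3 w4 : ℕ) (h12 : w1 < w2)
    (h23 : w2 < w3) (h34 : w3 < w4) (h41 : w4 < w1 + n)
    (x1 y1 x2 y2 x3 y3 x4 y4 : ℕ)
    (hx1 : w1 < x1) (hx1' : x1 ≤ w2) (hy1 : w4 ≤ y1) (hy1' : y1 < w1 + n)
    (hx2 : w2 < x2) (hx2' : x2 ≤ w3) (hy2 : w1 + n ≤ y2) (hy2' : y2 < w2 + n)
    (hx3 : w3 < x3) (hx3' : x3 ≤ w4) (hy3 : w2 + n ≤ y3) (hy3' : y3 < w3 + n)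
    (hx4 : w4 < x4) (hx4' : x4 ≤ w1 + n) (hy4 : w3 + n ≤ y4) (hy4' : y4 < w4 + n) :
    ¬ (0 < dt (q w1) (q x1) (q y1) ∧ 0 < dt (q w2) (q x2) (q y2) ∧
      0 < dt (q w3) (q x3) (q y3) ∧ 0 < dt (q w4) (q x4) (q y4)) := by
  rintro ⟨d1, d2, d3, d4⟩
  have e1 := narrow h w1 x1 w2 w4 y1 hx1 hx1' (by omega) hy1 hy1' d1
  have e2 := narrow h w2 x2 w3 (w1 + n) y2 hx2 hx2' (by omega) hy2 hy2' d2
  have e3 := narrow h w3 x3 w4 (w2 + n) y3 hx3 hx3' (by omega) hy3 hy3' d3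
  have e4 := narrow h w4 x4 (w1 + n) (w3 + n) y4 hx4 hx4' (by omega) hy4 hy4' d4
  rw [h.per] at e2 e3
  rw [h.per, h.per] at e4
  exact quad0 h w1 w2 w3 w4 h12 h23 h34 h41 e1 e2 e3 e4

theorem X_le_one (q : ℕ → ℝ × ℝ) (n v a b : ℕ) : X q n v a b ≤ 1 := by
  unfold X
  split_ifs <;> omega

theorem X_eq_zero {q : ℕ → ℝ × ℝ} {n v a b : ℕ} (h : X q n v a b = 0) :
    0 < dt (q v) (q (v + b)) (q (v + n - a)) := by
  unfold X at h
  by_contra h'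
  rw [if_neg h'] at h
  exact one_ne_zero h

/-- Four ears (at `w1 < w2 < w3 < w4`, with gaps `a_i` before and `b_i` after) of one convex
polygon: at least one is not acute. -/
theorem four_ears {q : ℕ → ℝ × ℝ} {n : ℕ} (h : CP q n) (w1 w2 w3 w4 : ℕ) (h12 : w1 < w2)
    (h23 : w2 < w3) (h34 : w3 < w4) (h41 : w4 < w1 + n)
    (a1 b1 a2 b2 a3 b3 a4 b4 : ℕ)
    (p1 : 1 ≤ a1) (p2 : 1 ≤ b1) (p3 : 1 ≤ a2) (p4 : 1 ≤ b2) (p5 : 1 ≤ a3) (p6 : 1 ≤ b3)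
    (p7 : 1 ≤ a4) (p8 : 1 ≤ b4)
    (g1 : w1 + b1 ≤ w2) (g2 : w2 + b2 ≤ w3) (g3 : w3 + b3 ≤ w4) (g4 : w4 + b4 ≤ w1 + n)
    (k1 : w4 + a1 ≤ w1 + n) (k2 : w1 + a2 ≤ w2) (k3 : w2 + a3 ≤ w3) (k4 : w3 + a4 ≤ w4) :
    1 ≤ X q n w1 a1 b1 + X q n w2 a2 b2 + X q n w3 a3 b3 + X q n w4 a4 b4 := by
  by_contra hc
  have z1 : X q n w1 a1 b1 = 0 := by omega
  have z2 : X q n w2 a2 b2 = 0 := by omega
  have z3 : X q n w3 a3 b3 = 0 := by omega
  have z4 : X q n w4 a4 b4 = 0 := by omega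
  exact quad h w1 w2 w3 w4 h12 h23 h34 h41 (w1 + b1) (w1 + n - a1) (w2 + b2) (w2 + n - a2)
    (w3 + b3) (w3 + n - a3) (w4 + b4) (w4 + n - a4)
    (by omega) (by omega) (by omega) (by omega) (by omega) (by omega) (by omega) (by omega)
    (by omega) (by omega) (by omega) (by omega) (by omega) (by omega) (by omega) (by omega)
    ⟨X_eq_zero z1, X_eq_zero z2, X_eq_zero z3, X_eq_zero z4⟩

theorem poly4 {q : ℕ → ℝ × ℝ} {n : ℕ} (h : CP q n) (s a1 a2 a3 a4 : ℕ) (p1 : 1 ≤ a1)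
    (p2 : 1 ≤ a2) (p3 : 1 ≤ a3) (p4 : 1 ≤ a4) (hs : a1 + a2 + a3 + a4 = n) :
    1 ≤ X q n s a4 a1 + X q n (s + a1) a1 a2 + X q n (s + a1 + a2) a2 a3 +
      X q n (s + a1 + a2 + a3) a3 a4 := by
  apply four_ears h <;> omega

theorem poly5 {q : ℕ → ℝ × ℝ} {n : ℕ} (h : CP q n) (s a1 a2 a3 a4 a5 : ℕ) (p1 : 1 ≤ a1)
    (p2 : 1 ≤ a2) (p3 : 1 ≤ a3) (p4 : 1 ≤ a4) (p5 : 1 ≤ a5) (hs : a1 + a2 + a3 + a4 + a5 = n) :
    2 ≤ X q n s a5 a1 + X q n (s + a1) a1 a2 + X q n (s + a1 + a2) a2 a3 +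
      X q n (s + a1 + a2 + a3) a3 a4 + X q n (s + a1 + a2 + a3 + a4) a4 a5 := by
  have e1 := X_le_one q n s a5 a1
  have e2 := X_le_one q n (s + a1) a1 a2
  have e3 := X_le_one q n (s + a1 + a2) a2 a3
  have e4 := X_le_one q n (s + a1 + a2 + a3) a3 a4
  have e5 := X_le_one q n (s + a1 + a2 + a3 + a4) a4 a5
  have f1 : 1 ≤ X q n (s + a1) a1 a2 + X q n (s + a1 + a2) a2 a3 +
      X q n (s + a1 + a2 + a3) a3 a4 + X q n (s + a1 + a2 + a3 + a4) a4 a5 := by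
    apply four_ears h <;> omega
  have f2 : 1 ≤ X q n s a5 a1 + X q n (s + a1 + a2) a2 a3 +
      X q n (s + a1 + a2 + a3) a3 a4 + X q n (s + a1 + a2 + a3 + a4) a4 a5 := by
    apply four_ears h <;> omega
  have f3 : 1 ≤ X q n s a5 a1 + X q n (s + a1) a1 a2 +
      X q n (s + a1 + a2 + a3) a3 a4 + X q n (s + a1 + a2 + a3 + a4) a4 a5 := by
    apply four_ears h <;> omega
  have f4 : 1 ≤ X q n s a5 a1 + X q n (s + a1) a1 a2 + X q n (s + a1 + a2) a2 a3 +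
      X q n (s + a1 + a2 + a3 + a4) a4 a5 := by
    apply four_ears h <;> omega
  have f5 : 1 ≤ X q n s a5 a1 + X q n (s + a1) a1 a2 + X q n (s + a1 + a2) a2 a3 +
      X q n (s + a1 + a2 + a3) a3 a4 := by
    apply four_ears h <;> omega
  omega

theorem poly6 {q : ℕ → ℝ × ℝ} {n : ℕ} (h : CP q n) (s a1 a2 a3 a4 a5 a6 : ℕ) (p1 : 1 ≤ a1)
    (p2 : 1 ≤ a2) (p3 : 1 ≤ a3) (p4 : 1 ≤ a4) (p5 : 1 ≤ a5) (p6 : 1 ≤ a6)
    (hs : a1 + a2 + a3 + a4 + a5 + a6 = n) :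
    3 ≤ X q n s a6 a1 +
      X q n (s + a1) a1 a2 +
      X q n (s + a1 + a2) a2 a3 +
      X q n (s + a1 + a2 + a3) a3 a4 +
      X q n (s + a1 + a2 + a3 + a4) a4 a5 +
      X q n (s + a1 + a2 + a3 + a4 + a5) a5 a6 := by
  have e1 := X_le_one q n s a6 a1
  have e2 := X_le_one q n (s + a1) a1 a2
  have e3 := X_le_one q n (s + a1 + a2) a2 a3
  have e4 := X_le_one q n (s + a1 + a2 + a3) a3 a4
  have e5 := X_le_one q n (s + a1 + a2 + a3 + a4) a4 a5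
  have e6 := X_le_one q n (s + a1 + a2 + a3 + a4 + a5) a5 a6
  have f1 : 1 ≤ X q n s a6 a1 +
      X q n (s + a1) a1 a2 +
      X q n (s + a1 + a2) a2 a3 +
      X q n (s + a1 + a2 + a3) a3 a4 := by
    apply four_ears h <;> omega
  have f2 : 1 ≤ X q n s a6 a1 +
      X q n (s + a1) a1 a2 +
      X q n (s + a1 + a2) a2 a3 +
      X q n (s + a1 + a2 + a3 + a4) a4 a5 := by
    apply four_ears h <;> omega
  have f3 : 1 ≤ X q n s a6 a1 +
      X q n (s + a1) a1 a2 +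
      X q n (s + a1 + a2) a2 a3 +
      X q n (s + a1 + a2 + a3 + a4 + a5) a5 a6 := by
    apply four_ears h <;> omega
  have f4 : 1 ≤ X q n s a6 a1 +
      X q n (s + a1) a1 a2 +
      X q n (s + a1 + a2 + a3) a3 a4 +
      X q n (s + a1 + a2 + a3 + a4) a4 a5 := by
    apply four_ears h <;> omega
  have f5 : 1 ≤ X q n s a6 a1 +
      X q n (s + a1) a1 a2 +
      X q n (s + a1 + a2 + a3) a3 a4 +
      X q n (s + a1 + a2 + a3 + a4 + a5) a5 a6 := by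
    apply four_ears h <;> omega
  have f6 : 1 ≤ X q n s a6 a1 +
      X q n (s + a1) a1 a2 +
      X q n (s + a1 + a2 + a3 + a4) a4 a5 +
      X q n (s + a1 + a2 + a3 + a4 + a5) a5 a6 := by
    apply four_ears h <;> omega
  have f7 : 1 ≤ X q n s a6 a1 +
      X q n (s + a1 + a2) a2 a3 +
      X q n (s + a1 + a2 + a3) a3 a4 +
      X q n (s + a1 + a2 + a3 + a4) a4 a5 := by
    apply four_ears h <;> omega
  have f8 : 1 ≤ X q n s a6 a1 +
      X q n (s + a1 + a2) a2 a3 +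
      X q n (s + a1 + a2 + a3) a3 a4 +
      X q n (s + a1 + a2 + a3 + a4 + a5) a5 a6 := by
    apply four_ears h <;> omega
  have f9 : 1 ≤ X q n s a6 a1 +
      X q n (s + a1 + a2) a2 a3 +
      X q n (s + a1 + a2 + a3 + a4) a4 a5 +
      X q n (s + a1 + a2 + a3 + a4 + a5) a5 a6 := by
    apply four_ears h <;> omega
  have f10 : 1 ≤ X q n s a6 a1 +
      X q n (s + a1 + a2 + a3) a3 a4 +
      X q n (s + a1 + a2 + a3 + a4) a4 a5 +
      X q n (s + a1 + a2 + a3 + a4 + a5) a5 a6 := by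
    apply four_ears h <;> omega
  have f11 : 1 ≤ X q n (s + a1) a1 a2 +
      X q n (s + a1 + a2) a2 a3 +
      X q n (s + a1 + a2 + a3) a3 a4 +
      X q n (s + a1 + a2 + a3 + a4) a4 a5 := by
    apply four_ears h <;> omega
  have f12 : 1 ≤ X q n (s + a1) a1 a2 +
      X q n (s + a1 + a2) a2 a3 +
      X q n (s + a1 + a2 + a3) a3 a4 +
      X q n (s + a1 + a2 + a3 + a4 + a5) a5 a6 := by
    apply four_ears h <;> omega
  have f13 : 1 ≤ X q n (s + a1) a1 a2 +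
      X q n (s + a1 + a2) a2 a3 +
      X q n (s + a1 + a2 + a3 + a4) a4 a5 +
      X q n (s + a1 + a2 + a3 + a4 + a5) a5 a6 := by
    apply four_ears h <;> omega
  have f14 : 1 ≤ X q n (s + a1) a1 a2 +
      X q n (s + a1 + a2 + a3) a3 a4 +
      X q n (s + a1 + a2 + a3 + a4) a4 a5 +
      X q n (s + a1 + a2 + a3 + a4 + a5) a5 a6 := by
    apply four_ears h <;> omega
  have f15 : 1 ≤ X q n (s + a1 + a2) a2 a3 +
      X q n (s + a1 + a2 + a3) a3 a4 +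
      X q n (s + a1 + a2 + a3 + a4) a4 a5 +
      X q n (s + a1 + a2 + a3 + a4 + a5) a5 a6 := by
    apply four_ears h <;> omega
  omega

end Pool.Agent.MP_0af329_co.Cvx
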