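import Pool.Agent.MP_0af329_co.Cvx1
import Pool.Agent.MP_0af329_co.Cvx18

/-! The polygon inequalities for points in convex position. -/

set_option autoImplicit false

namespace Pool.Agent.MP_0af329_co.Cvx

theorem poly_of_CP {q : ℕ → ℝ × ℝ} {n : ℕ} (h : CP q n) : Poly q n where
  per := h.per
  p4 := by
    intro s a b c d ha hb hc hd hs
    have := poly4 h s a b c d ha hb hc hd hs
    simp only [add_assoc] at this ⊢
    exact this
  p5 := by
    intro s a b c d e ha hb hc hd he hs
    have := poly5 h s a b c d e ha hb hc hd he hs
    simp only [add_assoc] at this ⊢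
    exact this
  p6 := by
    intro s a b c d e f ha hb hc hd he hf hs
    have := poly6 h s a b c d e f ha hb hc hd he hf hs
    simp only [add_assoc] at this ⊢
    exact this

end Pool.Agent.MP_0af329_co.Cvx
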