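import Pool.Agent.MP_0af329_co.CvxFin
import Pool.Agent.MP_0af329_co.Cvx2
import Pool.Agent.MP_0af329_co.QU

/-! Points in convex position: the exact value at `π/2`. -/

set_option autoImplicit false

namespace Pool.Agent.MP_0af329_co.Cvx

open Filter Topology

theorem pt_co (x : Pt) : pt (co x) = x := by
  ext i
  fin_cases i
  · exact pt0 (co x)
  · exact pt1 (co x)

/-- The lower bound for every set in convex position. -/
theorem cnt_ge_convex (S : Finset Pt) (hS : GenPos S) (hc : ConvexPos S) :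
    4 / 27 * (S.card : ℝ) ^ 3 - 7 * (S.card : ℝ) ^ 2 ≤ cnt S (Set.Ioi (Real.pi / 2)) := by
  rcases Nat.lt_or_ge S.card 3 with h | h
  · have h1 : (S.card : ℝ) < 3 := by exact_mod_cast h
    have h2 : (0 : ℝ) ≤ S.card := Nat.cast_nonneg _
    have h3 : (0 : ℝ) ≤ cnt S (Set.Ioi (Real.pi / 2)) := Nat.cast_nonneg _
    nlinarith [mul_nonneg h2 h2]
  · obtain ⟨q, h1, h2, -, -⟩ := exists_CP S hS hc h
    refine cnt_ge h1 (fun q' h' => poly_of_CP h') fun i => ?_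
    rw [pt_co]
    exact h2 i

theorem exists_convex (m : ℕ) (hm : 1 ≤ m) : ∃ S : Finset Pt, S.card = 3 * m ∧ GenPos S ∧
    ConvexPos S ∧ (cnt S (Set.Ioi (Real.pi / 2)) : ℝ) ≤ 4 / 27 * (3 * (m : ℝ)) ^ 3 := by
  obtain ⟨S, h1, h2, h3, h4⟩ := QU.exists_convex_conf m hm
  exact ⟨S, h1, h2, h3, by linarith⟩

theorem tendsto_minCntC : Tendsto (fun n : ℕ => (minCntC n (Set.Ioi (Real.pi / 2)) : ℝ) /
    ((n : ℝ) * ((n : ℝ) - 1) * ((n : ℝ) - 2))) atTop (𝓝 (4 / 27)) :=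
  final (fun S h1 h2 _ => cnt_ge_convex S h1 h2) exists_convex

end Pool.Agent.MP_0af329_co.Cvx
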