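import Mathlib

/-!
# Angles in planar point sets: definitions

`cnt S A` is the number of ordered triples `(x, y, z)` of distinct points of `S` whose angle
`∠ x y z` at the middle point lies in `A`.  Every angle (vertex `y`, unordered pair `{x, z}`) is
counted exactly twice, and there are `n (n-1) (n-2) = 2 N` ordered triples, so
`cnt S (Ioi α) / (n (n-1) (n-2)) = f(S, α) / N` and `cnt S (Iio α) / (n (n-1) (n-2)) = g(S, α) / N`
in the notation of the problem.
-/

namespace Pool.Agent.MP_0af329_co

open Filter Topology

/-- The Euclidean plane. -/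
abbrev Pt := EuclideanSpace ℝ (Fin 2)

/-- No three distinct points of `S` are collinear. -/
def GenPos (S : Finset Pt) : Prop :=
  ∀ x ∈ S, ∀ y ∈ S, ∀ z ∈ S, x ≠ y → y ≠ z → x ≠ z → ¬ Collinear ℝ ({x, y, z} : Set Pt)

open Classical in
/-- The ordered triples of distinct points of `S`. -/
noncomputable def trip (S : Finset Pt) : Finset (Pt × Pt × Pt) :=
  (S ×ˢ S ×ˢ S).filter fun t => t.1 ≠ t.2.1 ∧ t.2.1 ≠ t.2.2 ∧ t.1 ≠ t.2.2

open Classical in
/-- The number of ordered triples `(x, y, z)` of distinct points of `S` with `∠ x y z ∈ A`. -/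
noncomputable def cnt (S : Finset Pt) (A : Set ℝ) : ℕ :=
  ((trip S).filter fun t => EuclideanGeometry.angle t.1 t.2.1 t.2.2 ∈ A).card

/-- The smallest value of `cnt S A` over all `n`-point sets `S` in general position. -/
noncomputable def minCnt (n : ℕ) (A : Set ℝ) : ℕ :=
  sInf {m | ∃ S : Finset Pt, S.card = n ∧ GenPos S ∧ cnt S A = m}

/-- The smallest proportion of angles in `A`, over all `n`-point sets in general position. -/
noncomputable def ratio (n : ℕ) (A : Set ℝ) : ℝ :=
  (minCnt n A : ℝ) / ((n : ℝ) * ((n : ℝ) - 1) * ((n : ℝ) - 2))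

/-- The limit of `ratio n A` (it exists, see `tendsto_ratio`). -/
noncomputable def dens (A : Set ℝ) : ℝ := limUnder atTop fun n : ℕ => ratio n A

/-- `F(α)`: the limiting smallest proportion of angles greater than `α`. -/
noncomputable def F (α : ℝ) : ℝ := dens (Set.Ioi α)

/-- `G(α)`: the limiting smallest proportion of angles less than `α`. -/
noncomputable def G (α : ℝ) : ℝ := dens (Set.Iio α)

end Pool.Agent.MP_0af329_co
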