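import Pool.Agent.MP_0af329_co.Basic

/-! Row [ANG-LINES]: `k + 1` lines through a point cannot be pairwise at an angle `> π/(k+1)`.
Let `θ y ∈ [0, π)` be the argument of `y - x` modulo `π`.  If `∠ y x z ∈ [α, π - α]` then
`|cos (θ y - θ z)| ≤ cos α`, so `α ≤ |θ y - θ z| ≤ π - α`.  Sort the `k + 1` values: the largest
minus the smallest is at least `k α`, and at most `π - α`; so `(k + 1) α ≤ π`. -/

namespace Pool.Agent.MP_0af329_co

open EuclideanGeometry

/-- Separated reals have a large spread. -/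
theorem lines_spread {ι : Type*} (t : Finset ι) (θ : ι → ℝ) (α : ℝ) (hα : 0 < α) (k : ℕ)
    (ht : t.card = k + 1) (hsep : ∀ y ∈ t, ∀ z ∈ t, y ≠ z → α ≤ |θ y - θ z|) :
    ∃ y ∈ t, ∃ z ∈ t, (k : ℝ) * α ≤ θ z - θ y := by
  classical
  have hne : t.Nonempty := by
    rw [← Finset.card_pos, ht]
    omega
  obtain ⟨y, hy, hmin⟩ := Finset.exists_min_image t θ hne
  refine ⟨y, hy, ?_⟩
  by_contra hcon
  push Not at hcon
  have hmaps : ∀ z ∈ t, ⌊(θ z - θ y) / α⌋₊ ∈ Finset.range k := by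
    intro z hz
    rw [Finset.mem_range]
    have h0 : 0 ≤ (θ z - θ y) / α := div_nonneg (by linarith [hmin z hz]) hα.le
    rw [Nat.floor_lt h0, div_lt_iff₀ hα]
    exact hcon z hz
  have hcard : (Finset.range k).card < t.card := by
    rw [Finset.card_range, ht]
    omega
  obtain ⟨u, hu, v, hv, huv, hf⟩ := Finset.exists_ne_map_eq_of_card_lt_of_maps_to hcard hmaps
  have hs := hsep u hu v hv huv
  have hu0 : 0 ≤ (θ u - θ y) / α := div_nonneg (by linarith [hmin u hu]) hα.le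
  have hv0 : 0 ≤ (θ v - θ y) / α := div_nonneg (by linarith [hmin v hv]) hα.le
  have u1 := Nat.floor_le hu0
  have u2 := Nat.lt_floor_add_one ((θ u - θ y) / α)
  have v1 := Nat.floor_le hv0
  have v2 := Nat.lt_floor_add_one ((θ v - θ y) / α)
  rw [hf] at u1 u2
  have h1 : |(θ u - θ y) / α - (θ v - θ y) / α| < 1 := by
    rw [abs_lt]
    constructor <;> linarith
  have h2 : (θ u - θ y) / α - (θ v - θ y) / α = (θ u - θ v) / α := by ring
  rw [h2, abs_div, abs_of_pos hα, div_lt_one hα] at h1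
  linarith

/-- Every nonzero vector is `± r (cos θ, sin θ)` with `θ ∈ [0, π)`. -/
theorem lines_dir (v : Pt) (hv : v ≠ 0) : ∃ θ r : ℝ, 0 ≤ θ ∧ θ < Real.pi ∧ r ≠ 0 ∧
    v 0 = r * Real.cos θ ∧ v 1 = r * Real.sin θ := by
  set w : ℂ := ⟨v 0, v 1⟩ with hw
  have hw0 : w ≠ 0 := by
    intro h
    apply hv
    have h1 : w.re = 0 := by rw [h]; rfl
    have h2 : w.im = 0 := by rw [h]; rfl
    ext i
    fin_cases i
    · exact h1
    · exact h2
  have hn : ‖w‖ ≠ 0 := norm_ne_zero_iff.2 hw0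
  have hre : v 0 = ‖w‖ * Real.cos w.arg := (Complex.norm_mul_cos_arg w).symm
  have him : v 1 = ‖w‖ * Real.sin w.arg := (Complex.norm_mul_sin_arg w).symm
  have hpi := Real.pi_pos
  rcases lt_or_ge w.arg 0 with h | h
  · refine ⟨w.arg + Real.pi, -‖w‖, ?_, by linarith, neg_ne_zero.2 hn, ?_, ?_⟩
    · linarith [Complex.neg_pi_lt_arg w]
    · rw [Real.cos_add_pi, hre]; ring
    · rw [Real.sin_add_pi, him]; ring
  · rcases lt_or_eq_of_le (Complex.arg_le_pi w) with h2 | h2
    · exact ⟨w.arg, ‖w‖, h, h2, hn, hre, him⟩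
    · refine ⟨0, -‖w‖, le_rfl, hpi, neg_ne_zero.2 hn, ?_, ?_⟩
      · rw [hre, h2]; simp
      · rw [him, h2]; simp

theorem not_lines (k : ℕ) (hk : 1 ≤ k) (α : ℝ) (hα : Real.pi / (k + 1) < α) (x : Pt)
    (t : Finset Pt) (hx : x ∉ t) (ht : t.card = k + 1) :
    ∃ y ∈ t, ∃ z ∈ t, y ≠ z ∧ ¬ (α ≤ ∠ y x z ∧ ∠ y x z ≤ Real.pi - α) := by
  classical
  by_contra hcon
  push Not at hcon
  have hpi := Real.pi_pos
  have hk0 : (0 : ℝ) < k + 1 := by positivity
  have hα0 : 0 < α := lt_trans (by positivity) hα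
  -- `α ≤ π`
  have hαpi : α ≤ Real.pi := by
    obtain ⟨y, hy, z, hz, hyz⟩ := Finset.one_lt_card.1 (show 1 < t.card by omega)
    have h := hcon y hy z hz hyz
    linarith [h.1, h.2]
  have hdir : ∀ y : Pt, ∃ θ r : ℝ, y ∈ t → (0 ≤ θ ∧ θ < Real.pi ∧ r ≠ 0 ∧
      (y - x) 0 = r * Real.cos θ ∧ (y - x) 1 = r * Real.sin θ) := by
    intro y
    by_cases hy : y ∈ t
    · have hne : y - x ≠ 0 := by
        intro h
        exact hx ((sub_eq_zero.1 h) ▸ hy)
      obtain ⟨θ, r, h⟩ := lines_dir (y - x) hne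
      exact ⟨θ, r, fun _ => h⟩
    · exact ⟨0, 0, fun h => absurd h hy⟩
  choose θ r hθ using hdir
  have hdiff : ∀ y ∈ t, ∀ z ∈ t, y ≠ z →
      α ≤ |θ y - θ z| ∧ |θ y - θ z| ≤ Real.pi - α := by
    intro y hy z hz hyz
    obtain ⟨y0, y1, yr, yc, ys⟩ := hθ y hy
    obtain ⟨z0, z1, zr, zc, zs⟩ := hθ z hz
    obtain ⟨ha1, ha2⟩ := hcon y hy z hz hyz
    have hcos : Real.cos (∠ y x z) =
        (r y * r z * Real.cos (θ y - θ z)) / (|r y| * |r z|) := by
      have hang : ∠ y x z = InnerProductGeometry.angle (y - x) (z - x) := rfl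
      rw [hang, InnerProductGeometry.cos_angle]
      have hin : inner ℝ (y - x) (z - x) = r y * r z * Real.cos (θ y - θ z) := by
        rw [PiLp.inner_apply, Fin.sum_univ_two, yc, ys, zc, zs, Real.cos_sub]
        simp only [RCLike.inner_apply, conj_trivial]
        ring
      have hny : ‖y - x‖ = |r y| := by
        rw [EuclideanSpace.norm_eq, Fin.sum_univ_two, yc, ys, ← Real.sqrt_sq_eq_abs]
        congr 1
        rw [Real.norm_eq_abs, Real.norm_eq_abs, sq_abs, sq_abs]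
        linear_combination (r y) ^ 2 * (Real.sin_sq_add_cos_sq (θ y))
      have hnz : ‖z - x‖ = |r z| := by
        rw [EuclideanSpace.norm_eq, Fin.sum_univ_two, zc, zs, ← Real.sqrt_sq_eq_abs]
        congr 1
        rw [Real.norm_eq_abs, Real.norm_eq_abs, sq_abs, sq_abs]
        linear_combination (r z) ^ 2 * (Real.sin_sq_add_cos_sq (θ z))
      rw [hin, hny, hnz]
    have habs : |Real.cos (∠ y x z)| = |Real.cos (θ y - θ z)| := by
      rw [hcos, abs_div, abs_mul, abs_mul, abs_mul, abs_abs, abs_abs]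
      have h1 : |r y| ≠ 0 := abs_ne_zero.2 yr
      have h2 : |r z| ≠ 0 := abs_ne_zero.2 zr
      field_simp
    have hc1 : Real.cos (∠ y x z) ≤ Real.cos α :=
      Real.cos_le_cos_of_nonneg_of_le_pi hα0.le (by linarith) ha1
    have hc2 : -Real.cos α ≤ Real.cos (∠ y x z) := by
      rw [← Real.cos_pi_sub]
      exact Real.cos_le_cos_of_nonneg_of_le_pi (angle_nonneg _ _ _) (by linarith) ha2
    have hc3 : |Real.cos (θ y - θ z)| ≤ Real.cos α := by
      rw [← habs, abs_le]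
      exact ⟨hc2, hc1⟩
    rw [← Real.cos_abs (θ y - θ z)] at hc3
    set δ := |θ y - θ z| with hδ
    have hδ0 : 0 ≤ δ := abs_nonneg _
    have hδpi : δ < Real.pi := by
      rw [hδ, abs_lt]
      constructor <;> linarith
    rw [abs_le] at hc3
    constructor
    · by_contra h
      push Not at h
      have := Real.cos_lt_cos_of_nonneg_of_le_pi hδ0 hαpi h
      linarith [hc3.2]
    · by_contra h
      push Not at h
      have h3 := Real.cos_lt_cos_of_nonneg_of_le_pi (by linarith : 0 ≤ Real.pi - α) hδpi.le h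
      rw [Real.cos_pi_sub] at h3
      linarith [hc3.1]
  obtain ⟨y, hy, z, hz, hyz⟩ := lines_spread t θ α hα0 k ht
    (fun y hy z hz hne => (hdiff y hy z hz hne).1)
  have hne : y ≠ z := by
    rintro rfl
    rw [sub_self] at hyz
    have h1 : (0 : ℝ) < k := by exact_mod_cast hk
    nlinarith [mul_pos h1 hα0]
  have h2 := (hdiff y hy z hz hne).2
  have h3 : θ z - θ y ≤ |θ y - θ z| := by
    rw [abs_sub_comm]
    exact le_abs_self _
  have h4 : Real.pi < α * (k + 1) := (div_lt_iff₀ hk0).1 hα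
  nlinarith

end Pool.Agent.MP_0af329_co
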