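import Pool.Agent.MP_0af329_co.Basic

/-! Row [ANG-TUR]: Turán's theorem at every vertex. -/

namespace Pool.Agent.MP_0af329_co

open EuclideanGeometry

/-- Turán's bound, in the form of ordered pairs. -/
theorem turan_pairs {V : Type*} [Fintype V] [DecidableEq V] (k : ℕ) (hk : 1 ≤ k)
    (G : SimpleGraph V) [DecidableRel G.Adj] (hG : G.CliqueFree (k + 1)) :
    (((Finset.univ : Finset (V × V)).filter fun p => G.Adj p.1 p.2).card : ℝ) ≤
      (1 - 1 / (k : ℝ)) * (Fintype.card V : ℝ) ^ 2 := by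
  have h1 : ((Finset.univ : Finset (V × V)).filter fun p => G.Adj p.1 p.2).card =
      2 * G.edgeFinset.card := by
    rw [← SimpleGraph.sum_degrees_eq_twice_card_edges]
    rw [← Finset.univ_product_univ, Finset.card_filter, Finset.sum_product]
    refine Finset.sum_congr rfl fun v _ => ?_
    rw [← Finset.card_filter, ← SimpleGraph.card_neighborFinset_eq_degree]
    congr 1
    ext w
    simp
  obtain ⟨H, _, maxH⟩ := SimpleGraph.exists_isTuranMaximal (V := V) (r := k) (by omega)
  have h2 : G.edgeFinset.card ≤ H.edgeFinset.card := maxH.2 hG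
  have h3 : H.edgeFinset.card = (SimpleGraph.turanGraph (Fintype.card V) k).edgeFinset.card :=
    ((SimpleGraph.isTuranMaximal_iff_nonempty_iso_turanGraph (by omega)).mp maxH).some.card_edgeFinset_eq
  have h4 := SimpleGraph.mul_card_edgeFinset_turanGraph_le (n := Fintype.card V) (r := k)
  have hk0 : (0 : ℝ) < k := by exact_mod_cast hk
  rw [h1]
  rw [← h3] at h4
  have h5 : 2 * k * G.edgeFinset.card ≤ (k - 1) * Fintype.card V ^ 2 :=
    (Nat.mul_le_mul_left _ h2).trans h4
  have h6 : (2 * (k : ℝ) * G.edgeFinset.card) ≤ ((k : ℝ) - 1) * (Fintype.card V : ℝ) ^ 2 := by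
    have := (Nat.cast_le (α := ℝ)).2 h5
    push_cast [Nat.cast_sub hk] at this
    exact this
  have e : (1 - 1 / (k : ℝ)) * (Fintype.card V : ℝ) ^ 2 =
      (((k : ℝ) - 1) * (Fintype.card V : ℝ) ^ 2) / k := by
    field_simp
  rw [e, le_div_iff₀ hk0]
  push_cast
  linarith

open Classical in
theorem card_filter_le_turan (k : ℕ) (hk : 1 ≤ k) (S : Finset Pt) (R : Pt → Pt → Pt → Prop)
    (hsymm : ∀ x y z, R x y z → R x z y)
    (hR : ∀ x ∈ S, ∀ t ⊆ S.erase x, t.card = k + 1 → ∃ y ∈ t, ∃ z ∈ t, y ≠ z ∧ ¬ R x y z) :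
    (((trip S).filter fun t => R t.2.1 t.1 t.2.2).card : ℝ) ≤
      (1 - 1 / (k : ℝ)) * (S.card : ℝ) * ((S.card : ℝ) - 1) ^ 2 := by
  rw [Finset.card_filter]
  push_cast
  rw [sum_trip_eq S (fun x y z => if R y x z then (1 : ℝ) else 0)]
  have key : ∀ y ∈ S, ∑ x ∈ S.erase y, ∑ z ∈ (S.erase y).erase x,
      (if R y x z then (1 : ℝ) else 0) ≤ (1 - 1 / (k : ℝ)) * ((S.card : ℝ) - 1) ^ 2 := by
    intro y hy
    let Γ : SimpleGraph (S.erase y) :=
      { Adj := fun a b => a ≠ b ∧ R y a b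
        symm := ⟨fun a b h => ⟨h.1.symm, hsymm _ _ _ h.2⟩⟩
        loopless := ⟨fun a h => h.1 rfl⟩ }
    have hΓ : Γ.CliqueFree (k + 1) := by
      intro s hs
      obtain ⟨a, ha, b, hb, hab, hn⟩ := hR y hy (s.map (Function.Embedding.subtype _))
        (by
          intro v hv
          rw [Finset.mem_map] at hv
          obtain ⟨w, _, rfl⟩ := hv
          exact w.2)
        (by rw [Finset.card_map]; exact hs.2)
      rw [Finset.mem_map] at ha hb
      obtain ⟨a', ha', rfl⟩ := ha
      obtain ⟨b', hb', rfl⟩ := hb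
      have h := hs.1 ha' hb' (fun h => hab (by rw [h]))
      exact hn h.2
    have h1 := turan_pairs k hk Γ hΓ
    have h2 : (Fintype.card (S.erase y) : ℝ) = (S.card : ℝ) - 1 := by
      rw [Fintype.card_coe, Finset.card_erase_of_mem hy,
        Nat.cast_sub (Finset.card_pos.mpr ⟨y, hy⟩)]
      simp
    rw [h2] at h1
    refine le_trans (le_of_eq ?_) h1
    rw [Finset.card_filter, ← Finset.univ_product_univ, Finset.sum_product]
    push_cast
    rw [← Finset.sum_coe_sort (S.erase y)]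
    refine Finset.sum_congr rfl fun a _ => ?_
    have e1 : (∑ z ∈ (S.erase y).erase (a : Pt), if R y a z then (1 : ℝ) else 0) =
        ∑ z ∈ S.erase y, if ((a : Pt) ≠ z ∧ R y a z) then (1 : ℝ) else 0 := by
      rw [← Finset.sum_erase (S.erase y) (a := (a : Pt)) (by simp)]
      refine Finset.sum_congr rfl fun z hz => ?_
      have hz' : (a : Pt) ≠ z := (Finset.ne_of_mem_erase hz).symm
      simp [hz']
    rw [e1, ← Finset.sum_coe_sort (S.erase y)]
    refine Finset.sum_congr rfl fun b _ => ?_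
    by_cases hab : a = b
    · subst hab; simp [Γ]
    · have h' : (a : Pt) ≠ (b : Pt) := fun h => hab (Subtype.ext h)
      simp [Γ, hab]
  calc _ ≤ ∑ y ∈ S, (1 - 1 / (k : ℝ)) * ((S.card : ℝ) - 1) ^ 2 := Finset.sum_le_sum key
    _ = _ := by rw [Finset.sum_const, nsmul_eq_mul]; ring

end Pool.Agent.MP_0af329_co
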