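import Pool.Agent.MP_0af329_co.Basic

/-! Row [ANG-VEC]: three vectors. -/

namespace Pool.Agent.MP_0af329_co

open EuclideanGeometry

theorem vec_aux {a b c : ℝ} (ha : 0 < a) (hb : 0 < b) (hc : 0 < c) (ha2 : a ^ 2 < 1 / 2)
    (hb2 : b ^ 2 < 1 / 2) (hc2 : c ^ 2 < 1 / 2) :
    0 < 1 + 2 * a * b * c - a ^ 2 - b ^ 2 - c ^ 2 := by
  by_cases h1 : c ≤ 2 * a * b
  · nlinarith [mul_nonneg hc.le (sub_nonneg.2 h1)]
  by_cases h2 : a ≤ 2 * b * c
  · nlinarith [mul_nonneg ha.le (sub_nonneg.2 h2)]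
  by_cases h3 : b ≤ 2 * a * c
  · nlinarith [mul_nonneg hb.le (sub_nonneg.2 h3)]
  push Not at h1 h2 h3
  have k1 : a ^ 2 < 1 / 4 := by
    by_contra h
    push Not at h
    have : 2 * a * b > 2 * a * (2 * a * c) := by
      apply mul_lt_mul_of_pos_left h3 (by positivity)
    nlinarith
  have k2 : b ^ 2 < 1 / 4 := by
    by_contra h
    push Not at h
    have : 2 * b * a > 2 * b * (2 * b * c) := by
      apply mul_lt_mul_of_pos_left h2 (by positivity)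
    nlinarith
  have k3 : c ^ 2 < 1 / 4 := by
    by_contra h
    push Not at h
    have : 2 * c * b > 2 * c * (2 * a * c) := by
      apply mul_lt_mul_of_pos_left h3 (by positivity)
    nlinarith
  have : 0 < a * b * c := by positivity
  nlinarith

/-- The Gram determinant of three vectors of the plane vanishes. -/
theorem gram_three (u v w : Pt) :
    ‖u‖ ^ 2 * ‖v‖ ^ 2 * ‖w‖ ^ 2 + 2 * inner ℝ u v * inner ℝ v w * inner ℝ u w -
      ‖u‖ ^ 2 * (inner ℝ v w) ^ 2 - ‖v‖ ^ 2 * (inner ℝ u w) ^ 2 - ‖w‖ ^ 2 * (inner ℝ u v) ^ 2 =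
      0 := by
  simp only [EuclideanSpace.norm_sq_eq, PiLp.inner_apply, Fin.sum_univ_two, Real.norm_eq_abs,
    sq_abs, RCLike.inner_apply, conj_trivial]
  ring

/-- Three vectors of the plane do not have all pairwise angles in `(π/4, π/2)`. -/
theorem not_three_fat (x y z w : Pt)
    (h1 : Real.pi / 4 < ∠ y x z) (h1' : ∠ y x z < Real.pi / 2)
    (h2 : Real.pi / 4 < ∠ z x w) (h2' : ∠ z x w < Real.pi / 2)
    (h3 : Real.pi / 4 < ∠ y x w) (h3' : ∠ y x w < Real.pi / 2) : False := by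
  have hpi := Real.pi_pos
  have key : ∀ t : ℝ, Real.pi / 4 < t → t < Real.pi / 2 → 0 < Real.cos t ∧
      Real.cos t ^ 2 < 1 / 2 := by
    intro t ht1 ht2
    have h0 : 0 < Real.cos t := Real.cos_pos_of_mem_Ioo ⟨by linarith, ht2⟩
    refine ⟨h0, ?_⟩
    have h4 : Real.cos t < Real.cos (Real.pi / 4) :=
      Real.cos_lt_cos_of_nonneg_of_le_pi (by linarith) (by linarith) ht1
    rw [Real.cos_pi_div_four] at h4
    have h5 : Real.cos t ^ 2 < (√2 / 2) ^ 2 := by gcongr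
    have h6 : (√2 / 2 : ℝ) ^ 2 = 1 / 2 := by
      rw [div_pow, Real.sq_sqrt (by norm_num)]; norm_num
    linarith
  obtain ⟨ha, ha2⟩ := key _ h1 h1'
  obtain ⟨hb, hb2⟩ := key _ h2 h2'
  obtain ⟨hc, hc2⟩ := key _ h3 h3'
  have hpos := vec_aux ha hb hc ha2 hb2 hc2
  have hg := gram_three (y -ᵥ x) (z -ᵥ x) (w -ᵥ x)
  have e1 := InnerProductGeometry.cos_angle_mul_norm_mul_norm (y -ᵥ x) (z -ᵥ x)
  have e2 := InnerProductGeometry.cos_angle_mul_norm_mul_norm (z -ᵥ x) (w -ᵥ x)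
  have e3 := InnerProductGeometry.cos_angle_mul_norm_mul_norm (y -ᵥ x) (w -ᵥ x)
  have hyx : y ≠ x := by
    rintro rfl; rw [angle_self_left] at h1'; exact lt_irrefl _ h1'
  have hzx : z ≠ x := by
    rintro rfl; rw [angle_self_right] at h1'; exact lt_irrefl _ h1'
  have hwx : w ≠ x := by
    rintro rfl; rw [angle_self_right] at h3'; exact lt_irrefl _ h3'
  have n1 : 0 < ‖y -ᵥ x‖ := norm_pos_iff.2 (vsub_ne_zero.2 hyx)
  have n2 : 0 < ‖z -ᵥ x‖ := norm_pos_iff.2 (vsub_ne_zero.2 hzx)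
  have n3 : 0 < ‖w -ᵥ x‖ := norm_pos_iff.2 (vsub_ne_zero.2 hwx)
  rw [← e1, ← e2, ← e3] at hg
  have a1 : InnerProductGeometry.angle (y -ᵥ x) (z -ᵥ x) = ∠ y x z := rfl
  have a2 : InnerProductGeometry.angle (z -ᵥ x) (w -ᵥ x) = ∠ z x w := rfl
  have a3 : InnerProductGeometry.angle (y -ᵥ x) (w -ᵥ x) = ∠ y x w := rfl
  rw [a1, a2, a3] at hg
  set A := Real.cos (∠ y x z)
  set B := Real.cos (∠ z x w)
  set C := Real.cos (∠ y x w)
  set U := ‖y -ᵥ x‖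
  set V := ‖z -ᵥ x‖
  set W := ‖w -ᵥ x‖
  have : U ^ 2 * V ^ 2 * W ^ 2 * (1 + 2 * A * B * C - A ^ 2 - B ^ 2 - C ^ 2) = 0 := by
    linear_combination hg
  have hp : 0 < U ^ 2 * V ^ 2 * W ^ 2 * (1 + 2 * A * B * C - A ^ 2 - B ^ 2 - C ^ 2) := by
    positivity
  linarith

end Pool.Agent.MP_0af329_co
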