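import Pool.Agent.MP_0af329_co.Lim
import Pool.Agent.MP_0af329_co.Lines
import Pool.Agent.MP_0af329_co.Tur
import Pool.Agent.MP_0af329_co.Vec

/-! Row [ANG-LOW]: lower bounds for `G`. -/

namespace Pool.Agent.MP_0af329_co

open EuclideanGeometry

/-- Angles in the middle range. -/
theorem cnt_Icc_le (k : ℕ) (hk : 1 ≤ k) (α : ℝ) (hα : Real.pi / (k + 1) < α) (S : Finset Pt) :
    (cnt S (Set.Icc α (Real.pi - α)) : ℝ) ≤
      (1 - 1 / (k : ℝ)) * (S.card : ℝ) * ((S.card : ℝ) - 1) ^ 2 := by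
  classical
  have h := card_filter_le_turan k hk S
    (fun x y z => α ≤ ∠ y x z ∧ ∠ y x z ≤ Real.pi - α)
    (fun x y z h => by rw [angle_comm z x y]; exact h)
    (fun x hx t ht hc => not_lines k hk α hα x t (fun hxt => by
      have := ht hxt
      simp at this) hc)
  refine le_trans (le_of_eq ?_) h
  unfold cnt
  norm_cast

/-- the indicator of a condition, as a real number -/
private noncomputable def ind (p : Prop) : ℝ := open Classical in if p then 1 else 0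

private theorem ind_true {p : Prop} (h : p) : ind p = 1 := by unfold ind; rw [if_pos h]
private theorem ind_false {p : Prop} (h : ¬ p) : ind p = 0 := by unfold ind; rw [if_neg h]

private theorem cnt_ind (S : Finset Pt) (A : Set ℝ) :
    (cnt S A : ℝ) = ∑ t ∈ trip S, ind (∠ t.1 t.2.1 t.2.2 ∈ A) := by
  classical
  rw [cnt_eq_sum]
  refine Finset.sum_congr rfl fun t _ => ?_
  unfold ind
  congr

private theorem three_cnt (S : Finset Pt) (A : Set ℝ) :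
    3 * (cnt S A : ℝ) = ∑ t ∈ trip S, (ind (∠ t.1 t.2.1 t.2.2 ∈ A) + ind (∠ t.2.1 t.2.2 t.1 ∈ A) +
      ind (∠ t.2.2 t.1 t.2.1 ∈ A)) := by
  have h1 := sum_trip_rot S (fun x y z => ind (∠ x y z ∈ A))
  have h2 := sum_trip_rot S (fun x y z => ind (∠ y z x ∈ A))
  rw [Finset.sum_add_distrib, Finset.sum_add_distrib, ← h2, ← h1, cnt_ind]
  ring

private theorem ang_sum {S : Finset Pt} {t : Pt × Pt × Pt} (ht : t ∈ trip S) :
    ∠ t.1 t.2.1 t.2.2 + ∠ t.2.1 t.2.2 t.1 + ∠ t.2.2 t.1 t.2.1 = Real.pi := by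
  obtain ⟨x, y, z⟩ := t
  rw [mem_trip] at ht
  exact angle_add_angle_add_angle_eq_pi z ht.2.1.symm

private theorem tri1 (α a b c : ℝ) (hs : a + b + c = Real.pi) (ha : 0 ≤ a) (hb : 0 ≤ b)
    (hc : 0 ≤ c) :
    2 * (3 - (ind (a ∈ Set.Icc α (Real.pi - α)) + ind (b ∈ Set.Icc α (Real.pi - α)) +
      ind (c ∈ Set.Icc α (Real.pi - α)))) ≤
    3 * (ind (a ∈ Set.Iio α) + ind (b ∈ Set.Iio α) + ind (c ∈ Set.Iio α)) := by
  have key : ∀ a : ℝ, (a < α ∧ ind (a ∈ Set.Icc α (Real.pi - α)) = 0 ∧ ind (a ∈ Set.Iio α) = 1) ∨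
      (α ≤ a ∧ a ≤ Real.pi - α ∧ ind (a ∈ Set.Icc α (Real.pi - α)) = 1 ∧ ind (a ∈ Set.Iio α) = 0) ∨
      (α ≤ a ∧ Real.pi - α < a ∧ ind (a ∈ Set.Icc α (Real.pi - α)) = 0 ∧
        ind (a ∈ Set.Iio α) = 0) := by
    intro a
    rcases lt_or_ge a α with h | h
    · exact Or.inl ⟨h, ind_false (fun h' => absurd h'.1 (not_le.2 h)), ind_true h⟩
    · rcases le_or_gt a (Real.pi - α) with h' | h'
      · exact Or.inr (Or.inl ⟨h, h', ind_true ⟨h, h'⟩, ind_false (not_lt.2 h)⟩)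
      · exact Or.inr (Or.inr ⟨h, h', ind_false (fun h'' => absurd h''.2 (not_le.2 h')),
          ind_false (not_lt.2 h)⟩)
  rcases key a with ⟨a1, a2, a3⟩ | ⟨a1, a1', a2, a3⟩ | ⟨a1, a1', a2, a3⟩ <;>
  rcases key b with ⟨b1, b2, b3⟩ | ⟨b1, b1', b2, b3⟩ | ⟨b1, b1', b2, b3⟩ <;>
  rcases key c with ⟨c1, c2, c3⟩ | ⟨c1, c1', c2, c3⟩ | ⟨c1, c1', c2, c3⟩ <;>
  rw [a2, a3, b2, b3, c2, c3] <;> first | (norm_num; done) | (exfalso; linarith)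

private theorem tri2 (α a b c : ℝ) (hs : a + b + c = Real.pi) (ha : 0 ≤ a) (hb : 0 ≤ b)
    (hc : 0 ≤ c) :
    (3 - (ind (a ∈ Set.Iio α) + ind (b ∈ Set.Iio α) + ind (c ∈ Set.Iio α))) ≤
    1 + (ind (a ∈ Set.Icc α (Real.pi - α)) + ind (b ∈ Set.Icc α (Real.pi - α)) +
      ind (c ∈ Set.Icc α (Real.pi - α))) / 2 + ind (α ≤ a ∧ α ≤ b ∧ α ≤ c) / 2 := by
  have key : ∀ a : ℝ, (a < α ∧ ind (a ∈ Set.Icc α (Real.pi - α)) = 0 ∧ ind (a ∈ Set.Iio α) = 1) ∨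
      (α ≤ a ∧ a ≤ Real.pi - α ∧ ind (a ∈ Set.Icc α (Real.pi - α)) = 1 ∧ ind (a ∈ Set.Iio α) = 0) ∨
      (α ≤ a ∧ Real.pi - α < a ∧ ind (a ∈ Set.Icc α (Real.pi - α)) = 0 ∧
        ind (a ∈ Set.Iio α) = 0) := by
    intro a
    rcases lt_or_ge a α with h | h
    · exact Or.inl ⟨h, ind_false (fun h' => absurd h'.1 (not_le.2 h)), ind_true h⟩
    · rcases le_or_gt a (Real.pi - α) with h' | h'
      · exact Or.inr (Or.inl ⟨h, h', ind_true ⟨h, h'⟩, ind_false (not_lt.2 h)⟩)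
      · exact Or.inr (Or.inr ⟨h, h', ind_false (fun h'' => absurd h''.2 (not_le.2 h')),
          ind_false (not_lt.2 h)⟩)
  have hall : (α ≤ a ∧ α ≤ b ∧ α ≤ c → ind (α ≤ a ∧ α ≤ b ∧ α ≤ c) = 1) ∧
      0 ≤ ind (α ≤ a ∧ α ≤ b ∧ α ≤ c) := by
    refine ⟨fun h => ind_true h, ?_⟩
    unfold ind; split_ifs <;> norm_num
  rcases key a with ⟨a1, a2, a3⟩ | ⟨a1, a1', a2, a3⟩ | ⟨a1, a1', a2, a3⟩ <;>
  rcases key b with ⟨b1, b2, b3⟩ | ⟨b1, b1', b2, b3⟩ | ⟨b1, b1', b2, b3⟩ <;>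
  rcases key c with ⟨c1, c2, c3⟩ | ⟨c1, c1', c2, c3⟩ | ⟨c1, c1', c2, c3⟩ <;>
  rw [a2, a3, b2, b3, c2, c3] <;>
  first
    | linarith [hall.2]
    | (rw [hall.1 ⟨a1, b1, c1⟩]; norm_num)

/-- In every triangle `3 · #{angles < α} ≥ 2 · #{angles ∉ [α, π - α]}`. -/
theorem le_dens_Iio_general (k : ℕ) (hk : 1 ≤ k) (α : ℝ) (hα : Real.pi / (k + 1) < α)
    (hα' : α < Real.pi) : 2 / (3 * (k : ℝ)) ≤ dens (Set.Iio α) := by
  refine le_dens _ _ 1 ?_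
  intro S hS hcard
  have hk0 : (0:ℝ) < k := by exact_mod_cast hk
  have h1 := cnt_Icc_le k hk α hα S
  have h2 : 2 * (3 * ((trip S).card : ℝ) - 3 * (cnt S (Set.Icc α (Real.pi - α)) : ℝ)) ≤
      3 * (3 * (cnt S (Set.Iio α) : ℝ)) := by
    rw [three_cnt, three_cnt, Finset.mul_sum]
    have h3 : 2 * (3 * ((trip S).card : ℝ) - ∑ t ∈ trip S,
        (ind (∠ t.1 t.2.1 t.2.2 ∈ Set.Icc α (Real.pi - α)) +
        ind (∠ t.2.1 t.2.2 t.1 ∈ Set.Icc α (Real.pi - α)) +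
        ind (∠ t.2.2 t.1 t.2.1 ∈ Set.Icc α (Real.pi - α)))) = ∑ t ∈ trip S,
        2 * (3 - (ind (∠ t.1 t.2.1 t.2.2 ∈ Set.Icc α (Real.pi - α)) +
        ind (∠ t.2.1 t.2.2 t.1 ∈ Set.Icc α (Real.pi - α)) +
        ind (∠ t.2.2 t.1 t.2.1 ∈ Set.Icc α (Real.pi - α)))) := by
      rw [← Finset.mul_sum, Finset.sum_sub_distrib, Finset.sum_const, nsmul_eq_mul]
      ring
    rw [h3]
    refine Finset.sum_le_sum fun t ht => ?_
    exact tri1 α _ _ _ (ang_sum ht) (angle_nonneg _ _ _) (angle_nonneg _ _ _)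
      (angle_nonneg _ _ _)
  rw [card_trip] at h2
  have hn3 : (3:ℝ) ≤ (S.card : ℝ) := by exact_mod_cast hcard
  set n : ℝ := (S.card : ℝ) with hn
  set X : ℝ := (cnt S (Set.Icc α (Real.pi - α)) : ℝ)
  set Y : ℝ := (cnt S (Set.Iio α) : ℝ)
  have hinv : 0 < 1 / (k:ℝ) := by positivity
  have hinv1 : 1 / (k:ℝ) ≤ 1 := by
    rw [div_le_one hk0]; exact_mod_cast hk
  have e1 : 2 / (3 * (k:ℝ)) = (2/3) * (1 / (k:ℝ)) := by field_simp
  rw [e1]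
  set q : ℝ := 1 / (k:ℝ)
  have h5 : (1 - q) * n * (n - 1) ^ 2 = (1 - q) * (n * (n-1) * (n-2)) + (1 - q) * (n * (n - 1)) := by
    ring
  rw [h5] at h1
  have h6 : (1 - q) * (n * (n - 1)) ≤ n ^ 2 := by nlinarith
  nlinarith

/-- the triangles all of whose angles are `≥ α` -/
private theorem all_le {α : ℝ} (hα : Real.pi / 4 < α) (S : Finset Pt) :
    ∑ t ∈ trip S, ind (α ≤ ∠ t.1 t.2.1 t.2.2 ∧ α ≤ ∠ t.2.1 t.2.2 t.1 ∧ α ≤ ∠ t.2.2 t.1 t.2.1) ≤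
      (1 / 2) * (S.card : ℝ) * ((S.card : ℝ) - 1) ^ 2 := by
  classical
  have h := card_filter_le_turan 2 (by norm_num) S
    (fun x y z => Real.pi / 4 < ∠ y x z ∧ ∠ y x z < Real.pi / 2)
    (fun x y z h => by rw [angle_comm z x y]; exact h) (by
      intro x hx t ht hc
      by_contra hno
      push Not at hno
      obtain ⟨y, z, w, hyz, hyw, hzw, rfl⟩ := Finset.card_eq_three.1 hc
      have h1 := hno y (by simp) z (by simp) hyz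
      have h2 := hno z (by simp) w (by simp) hzw
      have h3 := hno y (by simp) w (by simp) hyw
      exact not_three_fat x y z w h1.1 h1.2 h2.1 h2.2 h3.1 h3.2)
  have e2 : (1 - 1 / ((2:ℕ):ℝ)) = 1 / 2 := by norm_num
  rw [e2] at h
  refine le_trans ?_ h
  rw [Finset.card_filter]
  push_cast
  refine Finset.sum_le_sum fun t ht => ?_
  have hs := ang_sum ht
  by_cases hall : α ≤ ∠ t.1 t.2.1 t.2.2 ∧ α ≤ ∠ t.2.1 t.2.2 t.1 ∧ α ≤ ∠ t.2.2 t.1 t.2.1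
  · rw [ind_true hall, if_pos]
    exact ⟨lt_of_lt_of_le hα hall.1, by linarith [hall.2.1, hall.2.2]⟩
  · rw [ind_false hall]
    split_ifs <;> norm_num

private theorem main2 {α : ℝ} {S : Finset Pt} :
    3 * ((trip S).card : ℝ) - 3 * (cnt S (Set.Iio α) : ℝ) ≤
      (trip S).card + 3 * (cnt S (Set.Icc α (Real.pi - α)) : ℝ) / 2 +
      (∑ t ∈ trip S, ind (α ≤ ∠ t.1 t.2.1 t.2.2 ∧ α ≤ ∠ t.2.1 t.2.2 t.1 ∧
        α ≤ ∠ t.2.2 t.1 t.2.1)) / 2 := by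
  rw [three_cnt, three_cnt]
  have h3 : 3 * ((trip S).card : ℝ) - ∑ t ∈ trip S, (ind (∠ t.1 t.2.1 t.2.2 ∈ Set.Iio α) +
      ind (∠ t.2.1 t.2.2 t.1 ∈ Set.Iio α) + ind (∠ t.2.2 t.1 t.2.1 ∈ Set.Iio α)) =
      ∑ t ∈ trip S, (3 - (ind (∠ t.1 t.2.1 t.2.2 ∈ Set.Iio α) +
      ind (∠ t.2.1 t.2.2 t.1 ∈ Set.Iio α) + ind (∠ t.2.2 t.1 t.2.1 ∈ Set.Iio α))) := by
    rw [Finset.sum_sub_distrib, Finset.sum_const, nsmul_eq_mul]
    ring
  have h4 : ((trip S).card : ℝ) + (∑ t ∈ trip S,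
        (ind (∠ t.1 t.2.1 t.2.2 ∈ Set.Icc α (Real.pi - α)) +
        ind (∠ t.2.1 t.2.2 t.1 ∈ Set.Icc α (Real.pi - α)) +
        ind (∠ t.2.2 t.1 t.2.1 ∈ Set.Icc α (Real.pi - α)))) / 2 +
      (∑ t ∈ trip S, ind (α ≤ ∠ t.1 t.2.1 t.2.2 ∧ α ≤ ∠ t.2.1 t.2.2 t.1 ∧
        α ≤ ∠ t.2.2 t.1 t.2.1)) / 2 = ∑ t ∈ trip S,
      (1 + (ind (∠ t.1 t.2.1 t.2.2 ∈ Set.Icc α (Real.pi - α)) +
        ind (∠ t.2.1 t.2.2 t.1 ∈ Set.Icc α (Real.pi - α)) +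
        ind (∠ t.2.2 t.1 t.2.1 ∈ Set.Icc α (Real.pi - α))) / 2 +
      ind (α ≤ ∠ t.1 t.2.1 t.2.2 ∧ α ≤ ∠ t.2.1 t.2.2 t.1 ∧ α ≤ ∠ t.2.2 t.1 t.2.1) / 2) := by
    simp only [Finset.sum_add_distrib, ← Finset.sum_div, Finset.sum_const, nsmul_eq_mul, mul_one]
  rw [h3, h4]
  exact Finset.sum_le_sum fun t ht =>
    tri2 α _ _ _ (ang_sum ht) (angle_nonneg _ _ _) (angle_nonneg _ _ _) (angle_nonneg _ _ _)

/-- For `π/4 < α ≤ π/2` in every triangle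
`#{angles ≥ α} ≤ 1 + #{angles ∈ [α, π - α]} / 2 + [all angles ≥ α] / 2`. -/
theorem le_dens_Iio_quarter (α : ℝ) (hα : Real.pi / 4 < α) (hα' : α ≤ Real.pi / 3) :
    1 / 4 ≤ dens (Set.Iio α) := by
  refine le_dens _ _ 1 ?_
  intro S hS hcard
  have h1 := cnt_Icc_le 3 (by norm_num) α (by push_cast; norm_num; exact hα) S
  have h2 := all_le hα S
  have h3 := main2 (α := α) (S := S)
  rw [card_trip] at h3
  push_cast at h1
  have hn3 : (3:ℝ) ≤ (S.card : ℝ) := by exact_mod_cast hcard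
  set n : ℝ := (S.card : ℝ) with hn
  set X : ℝ := (cnt S (Set.Icc α (Real.pi - α)) : ℝ)
  set Y : ℝ := (cnt S (Set.Iio α) : ℝ)
  have h5 : n * (n - 1) ^ 2 = (n * (n-1) * (n-2)) + (n * (n - 1)) := by
    ring
  have h6 : n * (n - 1) ≤ n ^ 2 := by nlinarith
  have h7 : 0 ≤ n ^ 2 := sq_nonneg n
  rw [mul_assoc, h5] at h1 h2
  linarith

theorem le_dens_Iio_third (α : ℝ) (hα : Real.pi / 3 < α) (hα' : α ≤ Real.pi / 2) :
    5 / 12 ≤ dens (Set.Iio α) := by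
  refine le_dens _ _ 1 ?_
  intro S hS hcard
  have h1 := cnt_Icc_le 2 (by norm_num) α (by push_cast; norm_num; exact hα) S
  have h2 : ∑ t ∈ trip S, ind (α ≤ ∠ t.1 t.2.1 t.2.2 ∧ α ≤ ∠ t.2.1 t.2.2 t.1 ∧
      α ≤ ∠ t.2.2 t.1 t.2.1) = 0 := by
    refine Finset.sum_eq_zero fun t ht => ind_false ?_
    rintro ⟨a1, a2, a3⟩
    have := ang_sum ht
    linarith
  have h3 := main2 (α := α) (S := S)
  rw [card_trip, h2] at h3
  push_cast at h1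
  have hn3 : (3:ℝ) ≤ (S.card : ℝ) := by exact_mod_cast hcard
  set n : ℝ := (S.card : ℝ) with hn
  set X : ℝ := (cnt S (Set.Icc α (Real.pi - α)) : ℝ)
  set Y : ℝ := (cnt S (Set.Iio α) : ℝ)
  have h5 : n * (n - 1) ^ 2 = (n * (n-1) * (n-2)) + (n * (n - 1)) := by
    ring
  have h6 : n * (n - 1) ≤ n ^ 2 := by nlinarith
  have h7 : 0 ≤ n ^ 2 := sq_nonneg n
  rw [mul_assoc, h5] at h1
  linarith

end Pool.Agent.MP_0af329_co
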