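import Pool.Agent.MP_0af329_co.Acute
import Pool.Agent.MP_0af329_co.EqAng

/-! Row [ANG-TEN]: `F(π/2) ≥ 1/10`.  Among five points in general position every four contain a
non-acute triangle (`exists_not_acute`); each triple is in two of the five 4-sets, so at least
three triangles are not acute and `cnt S (Ici (π/2)) ≥ 6`, so `ratio 5 (Ici (π/2)) ≥ 6/60`. -/

namespace Pool.Agent.MP_0af329_co

open EuclideanGeometry

/-- The number of indices missed by three distinct indices of `Fin 5`. -/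
private theorem card_missed (a b c : Fin 5) (hab : a ≠ b) (hbc : b ≠ c) (hac : a ≠ c) :
    (Finset.univ.filter fun m : Fin 5 => m ≠ a ∧ m ≠ b ∧ m ≠ c).card = 2 := by
  revert a b c
  decide

theorem six_le_cnt {S : Finset Pt} (hS : GenPos S) (h5 : S.card = 5) :
    6 ≤ cnt S (Set.Ici (Real.pi / 2)) := by
  classical
  -- enumerate the points
  let e : Fin 5 ≃ S := (S.equivFinOfCardEq h5).symm
  let p : Fin 5 → Pt := fun i => (e i : Pt)
  have hpinj : Function.Injective p := fun i j h => e.injective (Subtype.ext h)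
  have hpS : ∀ i, p i ∈ S := fun i => (e i).2
  let P : Fin 5 × Fin 5 × Fin 5 → Prop := fun t =>
    t.1 ≠ t.2.1 ∧ t.2.1 ≠ t.2.2 ∧ t.1 ≠ t.2.2 ∧ Real.pi / 2 ≤ ∠ (p t.1) (p t.2.1) (p t.2.2)
  let B1 : Finset (Fin 5 × Fin 5 × Fin 5) := Finset.univ.filter fun t => t.1 < t.2.2 ∧ P t
  -- every index is missed by a triple of `B1`
  have hmiss : ∀ m : Fin 5, 1 ≤ (B1.filter fun t => m ≠ t.1 ∧ m ≠ t.2.1 ∧ m ≠ t.2.2).card := by
    intro m
    obtain ⟨i, j, k, hij, hjk, hik, hang⟩ := exists_not_acute (fun i => p (m.succAbove i)) (by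
      intro i j k hij hjk hik
      refine hS _ (hpS _) _ (hpS _) _ (hpS _) ?_ ?_ ?_
      · exact fun h => hij (Fin.succAbove_right_injective (hpinj h))
      · exact fun h => hjk (Fin.succAbove_right_injective (hpinj h))
      · exact fun h => hik (Fin.succAbove_right_injective (hpinj h)))
    have hij' : m.succAbove i ≠ m.succAbove j := fun h => hij (Fin.succAbove_right_injective h)
    have hjk' : m.succAbove j ≠ m.succAbove k := fun h => hjk (Fin.succAbove_right_injective h)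
    have hik' : m.succAbove i ≠ m.succAbove k := fun h => hik (Fin.succAbove_right_injective h)
    have hmi := (Fin.succAbove_ne m i).symm
    have hmj := (Fin.succAbove_ne m j).symm
    have hmk := (Fin.succAbove_ne m k).symm
    rw [Nat.succ_le_iff, Finset.card_pos]
    rcases lt_or_gt_of_ne hik' with h | h
    · refine ⟨(m.succAbove i, m.succAbove j, m.succAbove k), ?_⟩
      simp only [B1, P, Finset.mem_filter, Finset.mem_univ, true_and]
      exact ⟨⟨h, hij', hjk', hik', hang⟩, hmi, hmj, hmk⟩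
    · refine ⟨(m.succAbove k, m.succAbove j, m.succAbove i), ?_⟩
      simp only [B1, P, Finset.mem_filter, Finset.mem_univ, true_and]
      refine ⟨⟨h, hjk'.symm, hij'.symm, hik'.symm, ?_⟩, hmk, hmj, hmi⟩
      rw [angle_comm]
      exact hang
  -- double counting
  have hdc : ∑ m : Fin 5, (B1.filter fun t => m ≠ t.1 ∧ m ≠ t.2.1 ∧ m ≠ t.2.2).card =
      ∑ t ∈ B1, (Finset.univ.filter fun m : Fin 5 => m ≠ t.1 ∧ m ≠ t.2.1 ∧ m ≠ t.2.2).card := by
    simp_rw [Finset.card_filter]
    rw [Finset.sum_comm]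
  have h2 : ∑ t ∈ B1, (Finset.univ.filter fun m : Fin 5 => m ≠ t.1 ∧ m ≠ t.2.1 ∧ m ≠ t.2.2).card =
      B1.card * 2 := by
    rw [Finset.sum_congr rfl (g := fun _ => 2), Finset.sum_const, smul_eq_mul]
    intro t ht
    simp only [B1, P, Finset.mem_filter, Finset.mem_univ, true_and] at ht
    exact card_missed _ _ _ ht.2.1 ht.2.2.1 ht.2.2.2.1
  have h3 : 5 ≤ ∑ m : Fin 5, (B1.filter fun t => m ≠ t.1 ∧ m ≠ t.2.1 ∧ m ≠ t.2.2).card := by
    calc 5 = ∑ _m : Fin 5, 1 := by simp
      _ ≤ _ := Finset.sum_le_sum fun m _ => hmiss m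
  have hB1 : 3 ≤ B1.card := by omega
  -- two ordered triples for each element of `B1`
  let f : Fin 5 × Fin 5 × Fin 5 → Pt × Pt × Pt := fun t => (p t.1, p t.2.1, p t.2.2)
  let g : Fin 5 × Fin 5 × Fin 5 → Pt × Pt × Pt := fun t => (p t.2.2, p t.2.1, p t.1)
  have hf : Function.Injective f := by
    rintro ⟨a, b, c⟩ ⟨a', b', c'⟩ h
    simp only [f, Prod.mk.injEq] at h
    rw [hpinj h.1, hpinj h.2.1, hpinj h.2.2]
  have hg : Function.Injective g := by
    rintro ⟨a, b, c⟩ ⟨a', b', c'⟩ h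
    simp only [g, Prod.mk.injEq] at h
    rw [hpinj h.1, hpinj h.2.1, hpinj h.2.2]
  have hsub : B1.image f ∪ B1.image g ⊆
      (trip S).filter fun t => ∠ t.1 t.2.1 t.2.2 ∈ Set.Ici (Real.pi / 2) := by
    intro t ht
    rw [Finset.mem_union, Finset.mem_image, Finset.mem_image] at ht
    rw [Finset.mem_filter]
    rcases ht with ⟨⟨a, b, c⟩, hs, rfl⟩ | ⟨⟨a, b, c⟩, hs, rfl⟩
    · simp only [B1, P, Finset.mem_filter, Finset.mem_univ, true_and] at hs
      refine ⟨mem_trip.mpr ⟨⟨hpS _, hpS _, hpS _⟩, ?_, ?_, ?_⟩, hs.2.2.2.2⟩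
      · exact fun h => hs.2.1 (hpinj h)
      · exact fun h => hs.2.2.1 (hpinj h)
      · exact fun h => hs.2.2.2.1 (hpinj h)
    · simp only [B1, P, Finset.mem_filter, Finset.mem_univ, true_and] at hs
      refine ⟨mem_trip.mpr ⟨⟨hpS _, hpS _, hpS _⟩, ?_, ?_, ?_⟩, ?_⟩
      · exact fun h => hs.2.2.1 (hpinj h).symm
      · exact fun h => hs.2.1 (hpinj h).symm
      · exact fun h => hs.2.2.2.1 (hpinj h).symm
      · show Real.pi / 2 ≤ ∠ (p c) (p b) (p a)
        rw [angle_comm]
        exact hs.2.2.2.2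
  have hdisj : Disjoint (B1.image f) (B1.image g) := by
    rw [Finset.disjoint_left]
    intro t ht ht'
    rw [Finset.mem_image] at ht ht'
    obtain ⟨⟨a, b, c⟩, hs, rfl⟩ := ht
    obtain ⟨⟨a', b', c'⟩, hs', h⟩ := ht'
    simp only [f, g, Prod.mk.injEq] at h
    simp only [B1, P, Finset.mem_filter, Finset.mem_univ, true_and] at hs hs'
    have h1 := hpinj h.1
    have h2 := hpinj h.2.2
    have h3 := hs.1
    have h4 := hs'.1
    rw [← h1, ← h2] at h3
    exact absurd h3 (not_lt.mpr h4.le)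
  have hcard := Finset.card_le_card hsub
  rw [Finset.card_union_of_disjoint hdisj, Finset.card_image_of_injective _ hf,
    Finset.card_image_of_injective _ hg] at hcard
  have hcnt : cnt S (Set.Ici (Real.pi / 2)) =
      ((trip S).filter fun t => ∠ t.1 t.2.1 t.2.2 ∈ Set.Ici (Real.pi / 2)).card := by
    rw [cnt]
    congr
  rw [hcnt]
  omega

theorem tenth_le_dens : 1 / 10 ≤ dens (Set.Ioi (Real.pi / 2)) := by
  rw [← dens_Ici]
  refine le_trans ?_ (ratio_le_dens (Set.Ici (Real.pi / 2)) (n := 5) (by norm_num))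
  obtain ⟨S, hc, hS, hm⟩ := exists_minCnt 5 (Set.Ici (Real.pi / 2))
  have h6 := six_le_cnt hS hc
  rw [hm] at h6
  have h6' : (6 : ℝ) ≤ (minCnt 5 (Set.Ici (Real.pi / 2)) : ℝ) := by exact_mod_cast h6
  rw [ratio, le_div_iff₀ (by norm_num)]
  push_cast
  linarith

end Pool.Agent.MP_0af329_co
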