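import Pool.Agent.MP_0af329_co.Upper
import Pool.Agent.MP_0af329_co.Low
import Pool.Agent.MP_0af329_co.Ten
import Pool.Agent.MP_0af329_co.CosSq
import Pool.Agent.MP_0af329_co.Blow

/-! Assembly. -/

namespace Pool.Agent.MP_0af329_co

open EuclideanGeometry Filter Topology

theorem G_mono : Monotone G := fun _ _ h => dens_mono (Set.Iio_subset_Iio h)

theorem F_anti : Antitone F := fun _ _ h => dens_mono (Set.Ioi_subset_Ioi h)

/-- A lower bound to the right of `α` also holds at `α`. -/
theorem le_G_of_right {α β c : ℝ} (hαβ : α < β) (h : ∀ x, α < x → x ≤ β → c ≤ G x) : c ≤ G α := by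
  have h1 : Tendsto G (𝓝[>] α) (𝓝 (G α)) :=
    (G_right α).mono_left (nhdsWithin_mono _ Set.Ioi_subset_Ici_self)
  refine ge_of_tendsto h1 ?_
  filter_upwards [Ioc_mem_nhdsGT hαβ] with x hx
  exact h x hx.1 hx.2

theorem G_le (k : ℕ) (hk : 1 ≤ k) (α : ℝ) (hα : α < Real.pi / k) :
    G α ≤ 1 / k - 1 / (3 * (k : ℝ) ^ 2) := dens_Iio_le k hk α hα

theorem F_le (k : ℕ) (hk : 1 ≤ k) (α : ℝ) (hα : Real.pi - Real.pi / k < α) :
    F α ≤ 1 / (3 * (k : ℝ) ^ 2) := dens_Ioi_le k hk α hα

theorem le_G_general (k : ℕ) (hk : 1 ≤ k) (α : ℝ) (hα : Real.pi / (k + 1) ≤ α)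
    (hα' : α < Real.pi) : 2 / (3 * (k : ℝ)) ≤ G α := by
  refine le_G_of_right (β := (α + Real.pi) / 2) (by linarith) fun x hx hx' => ?_
  exact le_dens_Iio_general k hk x (by linarith) (by linarith)

theorem G_third (α : ℝ) (h1 : Real.pi / 3 ≤ α) (h2 : α < Real.pi / 2) : G α = 5 / 12 := by
  apply le_antisymm
  · have := G_le 2 (by norm_num) α (by push_cast; linarith)
    norm_num at this
    linarith
  · exact le_G_of_right h2 fun x hx hx' => le_dens_Iio_third x (by linarith) hx'

theorem G_half (α : ℝ) (h1 : Real.pi / 2 ≤ α) (h2 : α < Real.pi) : G α = 2 / 3 := by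
  apply le_antisymm
  · have := G_le 1 le_rfl α (by simpa using h2)
    norm_num at this
    linarith
  · have := le_G_general 1 le_rfl α (by norm_num; linarith) h2
    norm_num at this
    linarith

theorem G_quarter (α : ℝ) (h1 : Real.pi / 4 ≤ α) (h2 : α < Real.pi / 3) : 1 / 4 ≤ G α :=
  le_G_of_right h2 fun x hx hx' => le_dens_Iio_quarter x (by linarith) hx'

/-- A jump from the left forces discontinuity. -/
theorem not_continuousAt_G_of_left {α c : ℝ} (h : ∀ x, x < α → G x ≤ c) (hc : c < G α) :
    ¬ ContinuousAt G α := by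
  intro hcont
  have h1 : Tendsto G (𝓝[<] α) (𝓝 (G α)) := hcont.mono_left nhdsWithin_le_nhds
  have h2 : G α ≤ c := by
    refine le_of_tendsto h1 ?_
    filter_upwards [self_mem_nhdsWithin] with x hx
    exact h x hx
  linarith

theorem not_continuousAt_G_quarter : ¬ ContinuousAt G (Real.pi / 4) := by
  have hpi := Real.pi_pos
  refine not_continuousAt_G_of_left (c := 11 / 48) (fun x hx => ?_) ?_
  · have := G_le 4 (by norm_num) x (by push_cast; linarith)
    norm_num at this
    linarith
  · have := G_quarter (Real.pi / 4) le_rfl (by linarith)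
    linarith

theorem not_continuousAt_G_third : ¬ ContinuousAt G (Real.pi / 3) := by
  have hpi := Real.pi_pos
  refine not_continuousAt_G_of_left (c := 8 / 27) (fun x hx => ?_) ?_
  · have := G_le 3 (by norm_num) x (by push_cast; linarith)
    norm_num at this
    linarith
  · have := G_third (Real.pi / 3) le_rfl (by linarith)
    linarith

theorem not_continuousAt_G_half : ¬ ContinuousAt G (Real.pi / 2) := by
  have hpi := Real.pi_pos
  refine not_continuousAt_G_of_left (c := 5 / 12) (fun x hx => ?_) ?_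
  · have := G_le 2 (by norm_num) x (by push_cast; linarith)
    norm_num at this
    linarith
  · have := G_half (Real.pi / 2) le_rfl (by linarith)
    linarith

theorem discont_G (α : ℝ) (h1 : Real.pi / 3 ≤ α) (h2 : α < Real.pi) :
    ¬ ContinuousAt G α ↔ α = Real.pi / 3 ∨ α = Real.pi / 2 := by
  have hpi := Real.pi_pos
  constructor
  · intro h
    by_contra hne
    push Not at hne
    apply h
    rcases lt_or_gt_of_ne hne.2 with h3 | h3
    · have h4 : Real.pi / 3 < α := lt_of_le_of_ne h1 (Ne.symm hne.1)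
      have h5 : G =ᶠ[𝓝 α] fun _ => (5 / 12 : ℝ) := by
        filter_upwards [Ioo_mem_nhds h4 h3] with x hx
        exact G_third x hx.1.le hx.2
      exact (continuousAt_const (y := (5 / 12 : ℝ))).congr h5.symm
    · have h5 : G =ᶠ[𝓝 α] fun _ => (2 / 3 : ℝ) := by
        filter_upwards [Ioo_mem_nhds h3 h2] with x hx
        exact G_half x hx.1.le hx.2
      exact (continuousAt_const (y := (2 / 3 : ℝ))).congr h5.symm
  · rintro (rfl | rfl)
    · exact not_continuousAt_G_third
    · exact not_continuousAt_G_half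

theorem tendsto_F_half : Tendsto F (𝓝[>] (Real.pi / 2)) (𝓝 (1 / 12)) := by
  have hpi := Real.pi_pos
  have h1 : Tendsto (fun α : ℝ => 1 / 12 - |Real.cos α| / 3) (𝓝[>] (Real.pi / 2))
      (𝓝 (1 / 12)) := by
    have : Tendsto (fun α : ℝ => 1 / 12 - |Real.cos α| / 3) (𝓝 (Real.pi / 2))
        (𝓝 (1 / 12 - |Real.cos (Real.pi / 2)| / 3)) :=
      (Continuous.tendsto (by fun_prop) _)
    rw [Real.cos_pi_div_two] at this
    norm_num at this
    exact (by simpa using this.mono_left nhdsWithin_le_nhds)
  refine tendsto_of_tendsto_of_tendsto_of_le_of_le' h1 tendsto_const_nhds ?_ ?_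
  · filter_upwards [Ioo_mem_nhdsGT (show Real.pi / 2 < Real.pi by linarith)] with x hx
    exact le_dens_Ioi x hx.1 hx.2
  · filter_upwards [self_mem_nhdsWithin] with x hx
    have hx' : Real.pi / 2 < x := hx
    have := F_le 2 (by norm_num) x (by push_cast; linarith)
    norm_num at this
    linarith

theorem not_continuousAt_F_half : ¬ ContinuousAt F (Real.pi / 2) := by
  intro hcont
  have h1 : Tendsto F (𝓝[>] (Real.pi / 2)) (𝓝 (F (Real.pi / 2))) :=
    hcont.mono_left nhdsWithin_le_nhds
  have h2 := tendsto_nhds_unique h1 tendsto_F_half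
  have h3 : 1 / 10 ≤ F (Real.pi / 2) := tenth_le_dens
  linarith

end Pool.Agent.MP_0af329_co
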