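import Pool.Agent.MP_0af329_co.JDefs

set_option autoImplicit false

namespace Pool.Agent.MP_0af329_co.JF

open Finset

private noncomputable def sgh (r u : ℝ) : ℝ := if u ≤ r then -1 else 1

private lemma sgh_meas (r : ℝ) : Measurable (sgh r) := by
  unfold sgh
  exact Measurable.ite measurableSet_Iic measurable_const measurable_const

private lemma sgh_bd (r u : ℝ) : |sgh r u| ≤ 1 := by
  unfold sgh; split_ifs <;> simp

private lemma ii_mul (r t a b : ℝ) : IntervalIntegrable (fun u => sgh r u * sgh t u) MeasureTheory.volume a b := by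
  rw [intervalIntegrable_iff]
  refine MeasureTheory.Measure.integrableOn_of_bounded (M := 1) (by simp [Set.uIoc]) ?_ ?_
  · exact ((sgh_meas r).mul (sgh_meas t)).aestronglyMeasurable
  · refine Filter.Eventually.of_forall (fun u => ?_)
    rw [Real.norm_eq_abs, abs_mul]
    exact mul_le_one₀ (sgh_bd r u) (abs_nonneg _) (sgh_bd t u)

private lemma ii_id (r a b : ℝ) : IntervalIntegrable (fun u => u * sgh r u) MeasureTheory.volume a b := by
  have h1 : IntervalIntegrable (fun u => sgh r u) MeasureTheory.volume a b := by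
    rw [intervalIntegrable_iff]
    refine MeasureTheory.Measure.integrableOn_of_bounded (M := 1) (by simp [Set.uIoc]) ?_ ?_
    · exact (sgh_meas r).aestronglyMeasurable
    · refine Filter.Eventually.of_forall (fun u => ?_)
      rw [Real.norm_eq_abs]
      exact sgh_bd r u
  exact h1.continuousOn_mul continuousOn_id

private lemma ii_sum {ι : Type} (V : Finset ι) (f : ι → ℝ → ℝ) (a b : ℝ)
    (h : ∀ i ∈ V, IntervalIntegrable (f i) MeasureTheory.volume a b) :
    IntervalIntegrable (fun u => ∑ i ∈ V, f i u) MeasureTheory.volume a b := by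
  have h2 := IntervalIntegrable.sum V h
  have h3 : (fun u => ∑ i ∈ V, f i u) = ∑ i ∈ V, f i := by
    funext u
    simp [Finset.sum_apply]
  rw [h3]
  exact h2

private lemma int_id (r : ℝ) (h1 : -1 ≤ r) (h2 : r ≤ 1) : ∫ u in (-1:ℝ)..1, u * sgh r u = 1 - r ^ 2 := by
  rw [← intervalIntegral.integral_add_adjacent_intervals (ii_id r (-1) r) (ii_id r r 1)]
  have e1 : ∫ u in (-1:ℝ)..r, u * sgh r u = ∫ u in (-1:ℝ)..r, -u := by
    apply intervalIntegral.integral_congr_ae
    refine Filter.Eventually.of_forall (fun u hu => ?_)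
    rw [Set.uIoc_of_le h1] at hu
    simp [sgh, hu.2]
  have e2 : ∫ u in r..1, u * sgh r u = ∫ u in r..1, u := by
    apply intervalIntegral.integral_congr_ae
    refine Filter.Eventually.of_forall (fun u hu => ?_)
    rw [Set.uIoc_of_le h2] at hu
    simp [sgh, not_le.mpr hu.1]
  rw [e1, e2, intervalIntegral.integral_neg, integral_id, integral_id]
  ring

private lemma int_mul' (r t : ℝ) (h1 : -1 ≤ r) (h2 : r ≤ t) (h3 : t ≤ 1) :
    ∫ u in (-1:ℝ)..1, sgh r u * sgh t u = 2 - 2 * (t - r) := by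
  rw [← intervalIntegral.integral_add_adjacent_intervals (ii_mul r t (-1) r) (ii_mul r t r 1),
    ← intervalIntegral.integral_add_adjacent_intervals (ii_mul r t r t) (ii_mul r t t 1)]
  have e1 : ∫ u in (-1:ℝ)..r, sgh r u * sgh t u = ∫ u in (-1:ℝ)..r, (1:ℝ) := by
    apply intervalIntegral.integral_congr_ae
    refine Filter.Eventually.of_forall (fun u hu => ?_)
    rw [Set.uIoc_of_le h1] at hu
    simp [sgh, hu.2, hu.2.trans h2]
  have e2 : ∫ u in r..t, sgh r u * sgh t u = ∫ u in r..t, (-1:ℝ) := by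
    apply intervalIntegral.integral_congr_ae
    refine Filter.Eventually.of_forall (fun u hu => ?_)
    rw [Set.uIoc_of_le h2] at hu
    simp [sgh, not_le.mpr hu.1, hu.2]
  have e3 : ∫ u in t..1, sgh r u * sgh t u = ∫ u in t..1, (1:ℝ) := by
    apply intervalIntegral.integral_congr_ae
    refine Filter.Eventually.of_forall (fun u hu => ?_)
    rw [Set.uIoc_of_le h3] at hu
    simp [sgh, not_le.mpr hu.1, not_le.mpr (lt_of_le_of_lt h2 hu.1)]
  rw [e1, e2, e3]
  simp only [intervalIntegral.integral_const, smul_eq_mul]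
  ring

private lemma int_mul (r t : ℝ) (h1 : -1 ≤ r) (h2 : r ≤ 1) (h3 : -1 ≤ t) (h4 : t ≤ 1) :
    ∫ u in (-1:ℝ)..1, sgh r u * sgh t u = 2 * (1 - |r - t|) := by
  rcases le_total r t with h | h
  · rw [int_mul' r t h1 h h4, abs_of_nonpos (by linarith)]; ring
  · have : (fun u => sgh r u * sgh t u) = fun u => sgh t u * sgh r u := by
      funext u; ring
    rw [this, int_mul' t r h3 h h2, abs_of_nonneg (by linarith)]; ring

/-- ROW F17-A1.  Positive definiteness on `[-1,1]`.
PROOF.  The right-hand side is `1/2 ∫_{-1}^{1} (∑_i w_i sgn(u - r_i) - μ u)² du`.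
With `h_r(u) = if u < r then -1 else 1`: `∫_{-1}^{1} h_r h_t = 2 - 2|r - t|` (split at the two
points), `∫_{-1}^{1} u h_r(u) du = 1 - r²` (split at `r`), `∫_{-1}^{1} u² du = 2/3`.  Expand the square
of the finite sum (`Finset.sum_mul_sum`), integrate termwise (everything is interval integrable:
bounded measurable / monotone), and use `intervalIntegral.integral_nonneg`.
(Alternative without integrals: reduce to sorted points; the integral proof is shorter.) -/
theorem pd_ineq {ι : Type} (V : Finset ι) (w r : ι → ℝ) (hr : ∀ i ∈ V, -1 ≤ r i ∧ r i ≤ 1)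
    (μ : ℝ) :
    0 ≤ (∑ i ∈ V, ∑ j ∈ V, w i * w j * (1 - |r i - r j|)) - μ * (∑ i ∈ V, w i * (1 - r i ^ 2)) +
      μ ^ 2 / 3 := by
  have hpos : 0 ≤ ∫ u in (-1:ℝ)..1, (∑ i ∈ V, w i * sgh (r i) u - μ * u) ^ 2 :=
    intervalIntegral.integral_nonneg (by norm_num) (fun u _ => sq_nonneg _)
  have hexp : ∀ u : ℝ, (∑ i ∈ V, w i * sgh (r i) u - μ * u) ^ 2 =
      (∑ i ∈ V, ∑ j ∈ V, (w i * w j) * (sgh (r i) u * sgh (r j) u)
        - (2 * μ) * ∑ i ∈ V, w i * (u * sgh (r i) u)) + μ ^ 2 * u ^ 2 := by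
    intro u
    have e1 : ∑ i ∈ V, ∑ j ∈ V, (w i * w j) * (sgh (r i) u * sgh (r j) u)
        = (∑ i ∈ V, w i * sgh (r i) u) * (∑ i ∈ V, w i * sgh (r i) u) := by
      rw [Finset.sum_mul_sum]
      refine Finset.sum_congr rfl (fun i _ => Finset.sum_congr rfl (fun j _ => ?_))
      ring
    have e2 : ∑ i ∈ V, w i * (u * sgh (r i) u) = u * ∑ i ∈ V, w i * sgh (r i) u := by
      rw [Finset.mul_sum]
      refine Finset.sum_congr rfl (fun i _ => ?_)
      ring
    rw [e1, e2]; ring
  have hi1 : IntervalIntegrable (fun u => ∑ i ∈ V, ∑ j ∈ V, (w i * w j) * (sgh (r i) u * sgh (r j) u))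
      MeasureTheory.volume (-1) 1 := by
    refine ii_sum V _ _ _ (fun i _ => ?_)
    refine ii_sum V _ _ _ (fun j _ => ?_)
    exact (ii_mul (r i) (r j) (-1) 1).const_mul _
  have hi2 : IntervalIntegrable (fun u => (2 * μ) * ∑ i ∈ V, w i * (u * sgh (r i) u))
      MeasureTheory.volume (-1) 1 := by
    refine IntervalIntegrable.const_mul ?_ _
    refine ii_sum V _ _ _ (fun i _ => ?_)
    exact (ii_id (r i) (-1) 1).const_mul _
  have hi3 : IntervalIntegrable (fun u : ℝ => μ ^ 2 * u ^ 2) MeasureTheory.volume (-1) 1 :=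
    (by fun_prop : Continuous (fun u : ℝ => μ ^ 2 * u ^ 2)).intervalIntegrable _ _
  have hI : ∫ u in (-1:ℝ)..1, (∑ i ∈ V, w i * sgh (r i) u - μ * u) ^ 2 =
      (∑ i ∈ V, ∑ j ∈ V, (w i * w j) * (2 * (1 - |r i - r j|))
        - (2 * μ) * ∑ i ∈ V, w i * (1 - r i ^ 2)) + μ ^ 2 * (2 / 3) := by
    have e0 : (fun u : ℝ => (∑ i ∈ V, w i * sgh (r i) u - μ * u) ^ 2) = fun u =>
      (∑ i ∈ V, ∑ j ∈ V, (w i * w j) * (sgh (r i) u * sgh (r j) u)
        - (2 * μ) * ∑ i ∈ V, w i * (u * sgh (r i) u)) + μ ^ 2 * u ^ 2 := funext hexp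
    rw [e0, intervalIntegral.integral_add (hi1.sub hi2) hi3, intervalIntegral.integral_sub hi1 hi2]
    congr 1
    · congr 1
      · rw [intervalIntegral.integral_finsetSum]
        · refine Finset.sum_congr rfl (fun i hi => ?_)
          rw [intervalIntegral.integral_finsetSum]
          · refine Finset.sum_congr rfl (fun j hj => ?_)
            rw [intervalIntegral.integral_const_mul,
              int_mul (r i) (r j) (hr i hi).1 (hr i hi).2 (hr j hj).1 (hr j hj).2]
          · intro j _
            exact (ii_mul (r i) (r j) (-1) 1).const_mul _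
        · intro i _
          refine ii_sum V _ _ _ (fun j _ => ?_)
          exact (ii_mul (r i) (r j) (-1) 1).const_mul _
      · rw [intervalIntegral.integral_const_mul, intervalIntegral.integral_finsetSum]
        · congr 1
          refine Finset.sum_congr rfl (fun i hi => ?_)
          rw [intervalIntegral.integral_const_mul, int_id (r i) (hr i hi).1 (hr i hi).2]
        · intro i _
          exact (ii_id (r i) (-1) 1).const_mul _
    · rw [intervalIntegral.integral_const_mul, integral_pow]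
      norm_num
  rw [hI] at hpos
  have e4 : ∑ i ∈ V, ∑ j ∈ V, (w i * w j) * (2 * (1 - |r i - r j|))
      = 2 * ∑ i ∈ V, ∑ j ∈ V, w i * w j * (1 - |r i - r j|) := by
    rw [Finset.mul_sum]
    refine Finset.sum_congr rfl (fun i _ => ?_)
    rw [Finset.mul_sum]
    refine Finset.sum_congr rfl (fun j _ => ?_)
    ring
  rw [e4] at hpos
  linarith

end Pool.Agent.MP_0af329_co.JF
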