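import Pool.Agent.MP_0af329_co.JA1

set_option autoImplicit false

namespace Pool.Agent.MP_0af329_co.JF

open Finset

/-! ROW F17-A2 (seven small lemmas + `pd_kap`). -/

theorem rd_mem (s : ℝ) : -1 ≤ rd s ∧ rd s < 1 := by
  have h1 := Int.floor_le ((s + 1) / 2)
  have h2 := Int.lt_floor_add_one ((s + 1) / 2)
  unfold rd md
  constructor <;> linarith

theorem sgd_cases (s : ℝ) : sgd s = 1 ∨ sgd s = -1 := by
  unfold sgd
  by_cases h : Even (md s)
  · left
    rw [if_pos h]
  · right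
    rw [if_neg h]

private theorem A2_split (s : ℝ) : s = 2 * (md s : ℝ) + rd s := by
  unfold rd
  ring

/-- `kap s t = 1 - dist(s - t, 4ℤ)`.  PROOF: `s = 2 m + r`, `t = 2 m' + r'`, `|r - r'| ≤ 2`.  If
`m - m' = 2 j`: `kap = 1 - |r - r'|` and `s - t - 4 j = r - r'`.  If `m - m' = 2 j + 1`:
`kap = -(1 - |r - r'|) = 1 - (2 - |r - r'|)`, and `s - t = 4 j + 2 + (r - r')`; take the integer `j`
if `r ≤ r'` and `j + 1` if `r > r'`. -/
theorem kap_dist (s t : ℝ) : ∃ m : ℤ, kap s t = 1 - |s - t - 4 * (m : ℝ)| := by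
  have hs := A2_split s
  have ht := A2_split t
  have hs' := rd_mem s
  have ht' := rd_mem t
  by_cases h : Even (md s - md t)
  · obtain ⟨j, hj⟩ := h
    refine ⟨j, ?_⟩
    have hprod : sgd s * sgd t = 1 := by
      have hpar : Even (md s) ↔ Even (md t) := by
        rw [← Int.even_sub]
        exact ⟨j, hj⟩
      unfold sgd
      by_cases h1 : Even (md s)
      · rw [if_pos h1, if_pos (hpar.1 h1)]
        norm_num
      · rw [if_neg h1, if_neg (fun h2 => h1 (hpar.2 h2))]
        norm_num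
    have hj' : (md s : ℝ) - (md t : ℝ) = (j : ℝ) + (j : ℝ) := by exact_mod_cast hj
    have he : s - t - 4 * (j : ℝ) = rd s - rd t := by linarith
    unfold kap
    rw [hprod, he, one_mul]
  · have hodd : Odd (md s - md t) := Int.not_even_iff_odd.1 h
    obtain ⟨j, hj⟩ := hodd
    have hprod : sgd s * sgd t = -1 := by
      have hpar : ¬ (Even (md s) ↔ Even (md t)) := by
        rw [← Int.even_sub]
        exact h
      unfold sgd
      by_cases h1 : Even (md s)
      · by_cases h2 : Even (md t)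
        · exact absurd ⟨fun _ => h2, fun _ => h1⟩ hpar
        · rw [if_pos h1, if_neg h2]
          norm_num
      · by_cases h2 : Even (md t)
        · rw [if_neg h1, if_pos h2]
          norm_num
        · exact absurd ⟨fun h3 => absurd h3 h1, fun h3 => absurd h3 h2⟩ hpar
    have hj' : (md s : ℝ) - (md t : ℝ) = 2 * (j : ℝ) + 1 := by exact_mod_cast hj
    rcases le_total (rd s) (rd t) with hle | hle
    · refine ⟨j, ?_⟩
      have he : s - t - 4 * (j : ℝ) = 2 - (rd t - rd s) := by linarith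
      unfold kap
      rw [hprod, he, abs_of_nonneg (by linarith : 0 ≤ 2 - (rd t - rd s)), abs_of_nonpos (by linarith : rd s - rd t ≤ 0)]
      ring
    · refine ⟨j + 1, ?_⟩
      have he : s - t - 4 * (((j + 1 : ℤ)) : ℝ) = -(2 - (rd s - rd t)) := by
        push_cast
        linarith
      unfold kap
      rw [hprod, he, abs_neg, abs_of_nonneg (by linarith : 0 ≤ 2 - (rd s - rd t)), abs_of_nonneg (by linarith : 0 ≤ rd s - rd t)]
      ring

private theorem A2_md (s : ℝ) (m : ℤ) (h1 : -1 ≤ s - 2 * (m : ℝ)) (h2 : s - 2 * (m : ℝ) < 1) : md s = m := by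
  unfold md
  rw [Int.floor_eq_iff]
  constructor <;> linarith

private theorem A2_phi (s : ℝ) (m : ℤ) (h : |s - 2 * (m : ℝ)| ≤ 1) :
    phi s = (if Even m then (1 : ℝ) else -1) * (1 - (s - 2 * (m : ℝ)) ^ 2) / 2 := by
  obtain ⟨h1, h2⟩ := abs_le.1 h
  rcases lt_or_eq_of_le h2 with h3 | h3
  · have hm := A2_md s m h1 h3
    unfold phi sgd rd
    rw [hm]
  · have hm : md s = m + 1 := by
      refine A2_md s (m + 1) ?_ ?_
      · push_cast
        linarith
      · push_cast
        linarith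
    have hr : rd s = -1 := by
      unfold rd
      rw [hm]
      push_cast
      linarith
    unfold phi
    rw [hr, h3]
    norm_num

theorem phi_add_two (s : ℝ) : phi (s + 2) = - phi s := by
  have h := rd_mem s
  have hsp := A2_split s
  have h0 : |s - 2 * ((md s : ℤ) : ℝ)| ≤ 1 := by
    rw [abs_le]
    constructor <;> linarith
  have h1 : |s + 2 - 2 * (((md s + 1 : ℤ)) : ℝ)| ≤ 1 := by
    push_cast
    rw [abs_le] at h0 ⊢
    constructor <;> linarith
  rw [A2_phi s (md s) h0, A2_phi (s + 2) (md s + 1) h1]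
  by_cases he : Even (md s)
  · have hne : ¬ Even (md s + 1) := by
      rw [Int.even_add_one]
      exact fun h3 => h3 he
    rw [if_pos he, if_neg hne]
    push_cast
    ring
  · have hne : Even (md s + 1) := by
      rw [Int.even_add_one]
      exact he
    rw [if_neg he, if_pos hne]
    push_cast
    ring

/-- careful at odd integers (where `phi = 0`); e.g. use that `phi s = sgn * (1 - (s - 2m)²)/2`
for every integer `m` with `|s - 2m| ≤ 1` -/
theorem phi_neg (s : ℝ) : phi (-s) = phi s := by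
  have h := rd_mem s
  have hsp := A2_split s
  have h0 : |s - 2 * ((md s : ℤ) : ℝ)| ≤ 1 := by
    rw [abs_le]
    constructor <;> linarith
  have h1 : |-s - 2 * (((-md s : ℤ)) : ℝ)| ≤ 1 := by
    push_cast
    rw [abs_le] at h0 ⊢
    constructor <;> linarith
  rw [A2_phi s (md s) h0, A2_phi (-s) (-md s) h1]
  by_cases he : Even (md s)
  · rw [if_pos he, if_pos (even_neg.2 he)]
    push_cast
    ring
  · rw [if_neg he, if_neg (fun h3 => he (even_neg.1 h3))]
    push_cast
    ring

theorem phi_of_abs_le {s : ℝ} (h : |s| ≤ 1) : phi s = (1 - s ^ 2) / 2 := by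
  have h0 : |s - 2 * ((0 : ℤ) : ℝ)| ≤ 1 := by
    rw [Int.cast_zero, mul_zero, sub_zero]
    exact h
  rw [A2_phi s 0 h0, if_pos (by decide : Even (0 : ℤ))]
  push_cast
  ring

theorem phi_of_abs_ge {s : ℝ} (h1 : 1 ≤ |s|) (h3 : |s| ≤ 3) :
    phi s = (1 - s ^ 2) / 2 + (|s| - 1) ^ 2 := by
  rcases le_total 0 s with hs | hs
  · rw [abs_of_nonneg hs] at h1 h3 ⊢
    have h0 : |s - 2 * ((1 : ℤ) : ℝ)| ≤ 1 := by
      push_cast
      rw [abs_le]
      constructor <;> linarith
    rw [A2_phi s 1 h0, if_neg (by decide : ¬ Even (1 : ℤ))]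
    push_cast
    ring
  · rw [abs_of_nonpos hs] at h1 h3 ⊢
    have h0 : |s - 2 * ((-1 : ℤ) : ℝ)| ≤ 1 := by
      push_cast
      rw [abs_le]
      constructor <;> linarith
    rw [A2_phi s (-1) h0, if_neg (by decide : ¬ Even (-1 : ℤ))]
    push_cast
    ring

/-- From `pd_ineq` with `w i = sgd (s i)`, `r i = rd (s i)`. -/
theorem pd_kap {ι : Type} (V : Finset ι) (s : ι → ℝ) (μ : ℝ) :
    2 * μ * (∑ i ∈ V, phi (s i)) - μ ^ 2 / 3 ≤ ∑ i ∈ V, ∑ j ∈ V, kap (s i) (s j) := by
  have h := pd_ineq V (fun i => sgd (s i)) (fun i => rd (s i))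
    (fun i _ => ⟨(rd_mem (s i)).1, (rd_mem (s i)).2.le⟩) μ
  have h1 : ∑ i ∈ V, ∑ j ∈ V, kap (s i) (s j) = ∑ i ∈ V, ∑ j ∈ V, sgd (s i) * sgd (s j) * (1 - |rd (s i) - rd (s j)|) := rfl
  have h2 : 2 * μ * (∑ i ∈ V, phi (s i)) = μ * (∑ i ∈ V, sgd (s i) * (1 - rd (s i) ^ 2)) := by
    rw [mul_assoc, mul_comm 2, mul_assoc, Finset.sum_mul]
    refine congrArg _ (Finset.sum_congr rfl (fun i _ => ?_))
    unfold phi
    ring
  rw [h1, h2]
  linarith

end Pool.Agent.MP_0af329_co.JF
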