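import Pool.Agent.MP_0af329_co.JA2

set_option autoImplicit false

namespace Pool.Agent.MP_0af329_co.JF

open Finset

/-! ROW F17-A3: sums over signs. -/
section
variable {ι : Type} [DecidableEq ι]

theorem SS_empty (x : ι → ℝ) (F : ℝ → ℝ) (s : ℝ) : SS ∅ x F s = F s := by
  simp [SS, sS]

/-- `Finset.sum_powerset_insert`, and `sS (insert a I) T x` for `a ∉ T`, `a ∈ T`. -/
theorem SS_insert {a : ι} {I : Finset ι} (ha : a ∉ I) (x : ι → ℝ) (F : ℝ → ℝ) (s : ℝ) :
    SS (insert a I) x F s = SS I x F (s + x a) + SS I x F (s - x a) := by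
  have h1 : ∀ T ∈ I.powerset, sS (insert a I) T x = - x a + sS I T x := by
    intro T hT
    have haT : a ∉ T := fun h => ha (Finset.mem_powerset.mp hT h)
    rw [sS, Finset.sum_insert ha, if_neg haT, sS]
  have h2 : ∀ T ∈ I.powerset, sS (insert a I) (insert a T) x = x a + sS I T x := by
    intro T _
    rw [sS, Finset.sum_insert ha, if_pos (Finset.mem_insert_self a T), sS]
    congr 1
    refine Finset.sum_congr rfl fun i hi => ?_
    have hia : i ≠ a := fun h => ha (h ▸ hi)
    simp [Finset.mem_insert, hia]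
  rw [SS, Finset.sum_powerset_insert ha, add_comm, SS, SS]
  congr 1
  · refine Finset.sum_congr rfl fun T hT => ?_
    rw [h2 T hT, add_assoc]
  · refine Finset.sum_congr rfl fun T hT => ?_
    rw [h1 T hT, sub_eq_add_neg, add_assoc]

/-- induction on `J` with `SS_insert` -/
theorem SS_union {I J : Finset ι} (h : Disjoint I J) (x : ι → ℝ) (F : ℝ → ℝ) (s : ℝ) :
    SS (I ∪ J) x F s = SS J x (SS I x F) s := by
  induction J using Finset.induction_on generalizing s with
  | empty => rw [Finset.union_empty, SS_empty]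
  | insert a J ha ih =>
    rw [Finset.disjoint_insert_right] at h
    have ha' : a ∉ I ∪ J := by
      rw [Finset.mem_union]
      rintro (h1 | h1)
      · exact h.1 h1
      · exact ha h1
    rw [Finset.union_insert, SS_insert ha', SS_insert ha, ih h.2, ih h.2]

theorem SS_congr {I : Finset ι} {x y : ι → ℝ} (h : ∀ i ∈ I, x i = y i) (F : ℝ → ℝ) (s : ℝ) :
    SS I x F s = SS I y F s := by
  rw [SS, SS]
  refine Finset.sum_congr rfl fun T _ => ?_
  congr 2
  rw [sS, sS]
  exact Finset.sum_congr rfl fun i hi => by rw [h i hi]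

/-- all coordinates zero -/
theorem SS_zero {I : Finset ι} (x : ι → ℝ) (h : ∀ i ∈ I, x i = 0) (F : ℝ → ℝ) (s : ℝ) :
    SS I x F s = 2 ^ I.card * F s := by
  have h1 : ∀ T ∈ I.powerset, F (s + sS I T x) = F s := by
    intro T _
    have : sS I T x = 0 := by
      rw [sS]
      refine Finset.sum_eq_zero fun i hi => ?_
      rw [h i hi]
      simp
    rw [this, add_zero]
  rw [SS, Finset.sum_congr rfl h1, Finset.sum_const, Finset.card_powerset, nsmul_eq_mul]
  push_cast
  ring

/-- All coordinates `±1/2`: one induction on `I` for both parities together, using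
`phi (s + 1) + phi (s - 1) = 0` (from `phi_add_two`). -/
theorem SS_bits {I : Finset ι} (x : ι → ℝ) (h : ∀ i ∈ I, |x i| = 1 / 2) :
    (∀ m : ℕ, I.card = 2 * m → ∀ s : ℝ, SS I x phi s = 2 ^ m * phi s) ∧
    (∀ m : ℕ, I.card = 2 * m + 1 → ∀ s : ℝ,
      SS I x phi s = 2 ^ m * (phi (s + 1 / 2) + phi (s - 1 / 2))) := by
  have hphi : ∀ s : ℝ, phi (s + 1) + phi (s - 1) = 0 := by
    intro s
    have := phi_add_two (s - 1)
    rw [show s - 1 + 2 = s + 1 by ring] at this
    linarith
  induction I using Finset.induction_on with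
  | empty =>
    refine ⟨fun m hm s => ?_, fun m hm s => ?_⟩
    · rw [Finset.card_empty] at hm
      obtain rfl : m = 0 := by omega
      rw [SS_empty]
      ring
    · rw [Finset.card_empty] at hm
      omega
  | insert a I ha ih =>
    obtain ⟨ih1, ih2⟩ := ih fun i hi => h i (Finset.mem_insert_of_mem hi)
    have hxa := h a (Finset.mem_insert_self a I)
    have hsym : ∀ s : ℝ, SS (insert a I) x phi s = SS I x phi (s + 1 / 2) + SS I x phi (s - 1 / 2) := by
      intro s
      rw [SS_insert ha]
      rcases abs_eq (by norm_num : (0 : ℝ) ≤ 1 / 2) |>.mp hxa with h1 | h1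
      · rw [h1]
      · rw [h1, sub_neg_eq_add, add_comm]
        rfl
    rw [Finset.card_insert_of_notMem ha]
    refine ⟨fun m hm s => ?_, fun m hm s => ?_⟩
    · obtain ⟨n, rfl⟩ : ∃ n, m = n + 1 := ⟨m - 1, by omega⟩
      have hc : I.card = 2 * n + 1 := by omega
      rw [hsym, ih2 n hc, ih2 n hc]
      have e1 : s + 1 / 2 + 1 / 2 = s + 1 := by ring
      have e2 : s + 1 / 2 - 1 / 2 = s := by ring
      have e3 : s - 1 / 2 + 1 / 2 = s := by ring
      have e4 : s - 1 / 2 - 1 / 2 = s - 1 := by ring
      rw [e1, e2, e3, e4]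
      have := hphi s
      have e5 : phi (s + 1) = - phi (s - 1) := by linarith
      rw [e5]
      ring
    · have hc : I.card = 2 * m := by omega
      rw [hsym, ih1 m hc, ih1 m hc]
      ring

end

end Pool.Agent.MP_0af329_co.JF
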