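import Pool.Agent.MP_0af329_co.JA3

set_option autoImplicit false

namespace Pool.Agent.MP_0af329_co.JF

open Finset

/-- ROW F17-A4a (the real inequality behind A4).
PROOF.  `u := a + b - 1/2 ... ` see the blueprint; with `v = a + b + c - 1`, `α = 1/2 - a` etc. (`0 ≤ α ≤ β ≤ γ ≤ η`):
if `v ≥ d`: both maxima are active, `(v+d)² + (v-d)² = 2v² + 2d²` and
`v² - (a² + b² + c² - 1/2) = 2(αβ + βγ + γα) ≥ 0`.  If `|v| < d`: only the first is active and
`(v+d)²/2 = v² + d² - (d-v)²/2`, `0 ≤ d - v = α + β + γ - η ≤ α + β`, so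
`(d-v)²/2 ≤ (α+β)²/2 ≤ 2(αβ + βγ + γα)`.  If `v ≤ -d`: `a+b+c+d ≤ 1`, so
`a²+b²+c²+d² ≤ (a+b+c+d)/2 ≤ 1/2`. -/
theorem four_real {a b c d : ℝ} (hd : 0 ≤ d) (hcd : d ≤ c) (hbc : c ≤ b) (hab : b ≤ a)
    (ha : a ≤ 1 / 2) :
    2 * (a ^ 2 + b ^ 2 + c ^ 2 + d ^ 2) - 1 ≤
      (max (a + b + c + d - 1) 0) ^ 2 + (max (a + b + c - d - 1) 0) ^ 2 := by
  obtain ⟨α, hα⟩ : ∃ α, α = 1 / 2 - a := ⟨_, rfl⟩
  obtain ⟨β, hβ⟩ : ∃ β, β = 1 / 2 - b := ⟨_, rfl⟩
  obtain ⟨γ, hγ⟩ : ∃ γ, γ = 1 / 2 - c := ⟨_, rfl⟩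
  obtain ⟨η, hη⟩ : ∃ η, η = 1 / 2 - d := ⟨_, rfl⟩
  have e1 : a = 1 / 2 - α := by linarith
  have e2 : b = 1 / 2 - β := by linarith
  have e3 : c = 1 / 2 - γ := by linarith
  have e4 : d = 1 / 2 - η := by linarith
  have h1 : 0 ≤ α := by linarith
  have h2 : α ≤ β := by linarith
  have h3 : β ≤ γ := by linarith
  have h4 : γ ≤ η := by linarith
  have h5 : η ≤ 1 / 2 := by linarith
  have key : 2 * (a ^ 2 + b ^ 2 + c ^ 2 + d ^ 2) - 1 =
      (a + b + c + d - 1) ^ 2 + (a + b + c - d - 1) ^ 2 - 4 * (α * β + β * γ + γ * α) := by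
    rw [e1, e2, e3, e4]
    ring
  have hp : 0 ≤ α * β + β * γ + γ * α := by
    have : 0 ≤ β := h1.trans h2
    have : 0 ≤ γ := this.trans h3
    positivity
  rcases le_total 0 (a + b + c - d - 1) with hv | hv
  · rw [max_eq_left hv, max_eq_left (by linarith), key]
    linarith
  · rw [max_eq_right hv]
    rcases le_total 0 (a + b + c + d - 1) with hw | hw
    · rw [max_eq_left hw, key]
      have h6 : (a + b + c - d - 1) ^ 2 ≤ (α + β) ^ 2 := by
        have h7 : -(a + b + c - d - 1) ≤ α + β := by linarith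
        have h8 : 0 ≤ -(a + b + c - d - 1) := by linarith
        have := mul_self_le_mul_self h8 h7
        nlinarith
      have h9 : (α + β) ^ 2 ≤ 4 * (α * β + β * γ + γ * α) := by
        have h10 : 0 ≤ (α + β) * (γ - β) := mul_nonneg (by linarith) (by linarith)
        nlinarith [mul_nonneg h1 (h1.trans h2), sq_nonneg (α - β), sq_nonneg (α + β),
          mul_nonneg (add_nonneg h1 (h1.trans h2)) (sub_nonneg.2 (h2.trans h3))]
      linarith
    · rw [max_eq_right hw]
      have a1 : a ^ 2 ≤ a / 2 := by nlinarith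
      have a2 : b ^ 2 ≤ b / 2 := by nlinarith
      have a3 : c ^ 2 ≤ c / 2 := by nlinarith
      have a4 : d ^ 2 ≤ d / 2 := by nlinarith
      linarith

/-- ROW F17-A4b.  The sum over the 16 signs, for ordered nonnegative coordinates.
PROOF.  `phi` is even (`phi_neg`), so the 16 terms are twice the 8 terms with `+a`.  All `|s| ≤ 2`.
`phi s = (1 - s²)/2 + (max (|s| - 1) 0)²` for `|s| ≤ 2` (`phi_of_abs_le`, `phi_of_abs_ge`), in
particular `phi s ≥ (1 - s²)/2`; use the exact value for `s = a+b+c±d` and the lower bound for the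
other six; `∑ s² = 8 (a²+b²+c²+d²)` over the eight; then `four_real`. -/
theorem four_signs {a b c d : ℝ} (hd : 0 ≤ d) (hcd : d ≤ c) (hbc : c ≤ b) (hab : b ≤ a)
    (ha : a ≤ 1 / 2) :
    6 - 4 * (a ^ 2 + b ^ 2 + c ^ 2 + d ^ 2) ≤
      2 * (phi (a + b + c + d) + phi (a + b + c - d) + phi (a + b - c + d) + phi (a + b - c - d) +
        phi (a - b + c + d) + phi (a - b + c - d) + phi (a - b - c + d) + phi (a - b - c - d)) := by
  have hlow : ∀ s : ℝ, |s| ≤ 2 → (1 - s ^ 2) / 2 ≤ phi s := by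
    intro s hs
    rcases le_total |s| 1 with h | h
    · rw [phi_of_abs_le h]
    · rw [phi_of_abs_ge h (by linarith)]
      nlinarith [sq_nonneg (|s| - 1)]
  have hmax : ∀ s : ℝ, 0 ≤ s → s ≤ 2 → (1 - s ^ 2) / 2 + (max (s - 1) 0) ^ 2 ≤ phi s := by
    intro s h0 hs
    rcases le_total s 1 with h | h
    · rw [max_eq_right (by linarith), phi_of_abs_le (by rw [abs_of_nonneg h0]; exact h)]
      linarith
    · rw [max_eq_left (by linarith),
        phi_of_abs_ge (by rw [abs_of_nonneg h0]; exact h) (by rw [abs_of_nonneg h0]; linarith),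
        abs_of_nonneg h0]
  have r := four_real hd hcd hbc hab ha
  have s1 := hmax (a + b + c + d) (by linarith) (by linarith)
  have s2 := hmax (a + b + c - d) (by linarith) (by linarith)
  have s3 := hlow (a + b - c + d) (by rw [abs_le]; constructor <;> linarith)
  have s4 := hlow (a + b - c - d) (by rw [abs_le]; constructor <;> linarith)
  have s5 := hlow (a - b + c + d) (by rw [abs_le]; constructor <;> linarith)
  have s6 := hlow (a - b + c - d) (by rw [abs_le]; constructor <;> linarith)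
  have s7 := hlow (a - b - c + d) (by rw [abs_le]; constructor <;> linarith)
  have s8 := hlow (a - b - c - d) (by rw [abs_le]; constructor <;> linarith)
  linarith [r, s1, s2, s3, s4, s5, s6, s7, s8]


private theorem SS_abs {ι : Type} [DecidableEq ι] (I : Finset ι) (x : ι → ℝ) (F : ℝ → ℝ) :
    ∀ s : ℝ, SS I x F s = SS I (fun i => |x i|) F s := by
  induction I using Finset.induction_on with
  | empty => intro s; rw [SS_empty, SS_empty]
  | insert a I ha ih =>
    intro s
    rw [SS_insert ha, SS_insert ha, ih, ih]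
    rcases abs_cases (x a) with ⟨h, _⟩ | ⟨h, _⟩
    · simp only [h]
    · simp only [h]
      rw [sub_neg_eq_add, ← sub_eq_add_neg, add_comm]

private theorem four_sorted {ι : Type} [DecidableEq ι] {I : Finset ι} (hI : I.card = 4)
    (f : ι → ℝ) : ∃ i j k l : ι, i ∉ insert j (insert k (insert l (∅ : Finset ι))) ∧
      j ∉ insert k (insert l (∅ : Finset ι)) ∧ k ∉ insert l (∅ : Finset ι) ∧
      I = insert i (insert j (insert k (insert l ∅))) ∧ f l ≤ f k ∧ f k ≤ f j ∧ f j ≤ f i := by
  obtain ⟨i, hi, hmi⟩ := exists_max_image I f (card_pos.1 (by omega))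
  have c1 : (I.erase i).card = 3 := by rw [card_erase_of_mem hi]; omega
  obtain ⟨j, hj, hmj⟩ := exists_max_image (I.erase i) f (card_pos.1 (by omega))
  have c2 : ((I.erase i).erase j).card = 2 := by rw [card_erase_of_mem hj]; omega
  obtain ⟨k, hk, hmk⟩ := exists_max_image ((I.erase i).erase j) f (card_pos.1 (by omega))
  have c3 : (((I.erase i).erase j).erase k).card = 1 := by rw [card_erase_of_mem hk]; omega
  obtain ⟨l, hl⟩ := card_eq_one.1 c3
  have hl' : l ∈ ((I.erase i).erase j).erase k := by rw [hl]; exact mem_singleton_self l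
  have e3 : (I.erase i).erase j = insert k (insert l ∅) := by
    rw [← insert_erase hk, hl, insert_empty_eq]
  have e2 : I.erase i = insert j (insert k (insert l ∅)) := by rw [← insert_erase hj, e3]
  have e1 : I = insert i (insert j (insert k (insert l ∅))) := by rw [← e2, insert_erase hi]
  refine ⟨i, j, k, l, ?_, ?_, ?_, e1, ?_, ?_, ?_⟩
  · rw [← e2]; exact notMem_erase i I
  · rw [← e3]; exact notMem_erase j _
  · rw [insert_empty_eq, ← hl]; exact notMem_erase k _
  · exact hmk l (mem_of_mem_erase hl')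
  · exact hmj k (mem_of_mem_erase hk)
  · exact hmi j (mem_of_mem_erase hj)

/-- ROW F17-A4c.  PROOF.  `SS` depends only on `|x i|` (swap the two terms of `SS_insert`) and on
nothing else, so one may replace `x` by `|x|` and sort the four elements of `I`
(`∃ i j k l, I = {i,j,k,l}`, pairwise distinct, `|x l| ≤ |x k| ≤ |x j| ≤ |x i|`); unfold with `SS_insert`
and apply `four_signs` (and `phi_neg`). -/
theorem SS_four {ι : Type} [DecidableEq ι] {I : Finset ι} (hI : I.card = 4) (x : ι → ℝ)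
    (h : ∀ i ∈ I, |x i| ≤ 1 / 2) :
    6 - 4 * ∑ i ∈ I, x i ^ 2 ≤ SS I x phi 0 := by
  obtain ⟨i, j, k, l, hi, hj, hk, hIe, h1, h2, h3⟩ := four_sorted hI fun i => |x i|
  have hil : |x i| ≤ 1 / 2 := h i (by rw [hIe]; exact mem_insert_self _ _)
  have hs := four_signs (abs_nonneg (x l)) h1 h2 h3 hil
  have hl0 : l ∉ (∅ : Finset ι) := notMem_empty l
  have hsum : ∑ i ∈ I, x i ^ 2 = |x i| ^ 2 + |x j| ^ 2 + |x k| ^ 2 + |x l| ^ 2 := by
    rw [hIe, sum_insert hi, sum_insert hj, sum_insert hk, sum_insert hl0, sum_empty]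
    simp only [sq_abs]
    ring
  have hSS : SS I x phi 0 = SS I (fun i => |x i|) phi 0 := SS_abs I x phi 0
  rw [hSS, hsum, hIe, SS_insert hi]
  simp only [SS_insert hj, SS_insert hk, SS_insert hl0, SS_empty]
  generalize |x i| = a at *
  generalize |x j| = b at *
  generalize |x k| = c at *
  generalize |x l| = d at *
  have n1 : phi (0 - a - b - c - d) = phi (a + b + c + d) := by
    rw [← phi_neg]; congr 1; ring
  have n2 : phi (0 - a - b - c + d) = phi (a + b + c - d) := by
    rw [← phi_neg]; congr 1; ring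
  have n3 : phi (0 - a - b + c - d) = phi (a + b - c + d) := by
    rw [← phi_neg]; congr 1; ring
  have n4 : phi (0 - a - b + c + d) = phi (a + b - c - d) := by
    rw [← phi_neg]; congr 1; ring
  have n5 : phi (0 - a + b - c - d) = phi (a - b + c + d) := by
    rw [← phi_neg]; congr 1; ring
  have n6 : phi (0 - a + b - c + d) = phi (a - b + c - d) := by
    rw [← phi_neg]; congr 1; ring
  have n7 : phi (0 - a + b + c - d) = phi (a - b - c + d) := by
    rw [← phi_neg]; congr 1; ring
  have n8 : phi (0 - a + b + c + d) = phi (a - b - c - d) := by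
    rw [← phi_neg]; congr 1; ring
  rw [n1, n2, n3, n4, n5, n6, n7, n8, zero_add]
  linarith

end Pool.Agent.MP_0af329_co.JF
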