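import Pool.Agent.MP_0af329_co.JA4

set_option autoImplicit false

namespace Pool.Agent.MP_0af329_co.JF

open Finset

private theorem SS_smul {ι : Type} [DecidableEq ι] (I : Finset ι) (x : ι → ℝ) (F : ℝ → ℝ)
    (c s : ℝ) : SS I x (fun t => c * F t) s = c * SS I x F s := by
  unfold SS
  rw [Finset.mul_sum]

/-- The value of one coordinate. -/
private noncomputable def bitp (a b : ℝ) : ℝ := if b ≤ a then 0 else 1

private theorem bitp_cases (a b : ℝ) : bitp a b = 0 ∨ bitp a b = 1 := by
  unfold bitp; split_ifs <;> simp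

private theorem bitp_le {a b : ℝ} (ha : 0 ≤ a) (hb : 0 ≤ b) (h : ¬ (a < 1 ∧ b < 1)) :
    bitp a b * a + (1 - bitp a b) * b - a * b ≤ 0 := by
  unfold bitp
  split_ifs with h1
  · have : 1 ≤ a := by
      by_contra h2
      exact h ⟨by linarith, by linarith⟩
    nlinarith
  · have : 1 ≤ b := by
      by_contra h2
      exact h ⟨by linarith, by linarith⟩
    nlinarith

private theorem quot_mem {a b : ℝ} (ha : 0 ≤ a) (hb : 0 ≤ b) :
    0 ≤ b / (a + b) ∧ b / (a + b) ≤ 1 :=
  ⟨div_nonneg hb (by linarith), div_le_one_of_le₀ (by linarith) (by linarith)⟩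

private theorem quot_le {a b : ℝ} (ha : 0 ≤ a) (hb : 0 ≤ b) :
    b / (a + b) * a + (1 - b / (a + b)) * b - a * b ≤ b / (a + b) * (1 - b / (a + b)) := by
  rcases eq_or_lt_of_le (by linarith : 0 ≤ a + b) with h | h
  · have h1 : a = 0 := by linarith
    have h2 : b = 0 := by linarith
    subst h1; subst h2; simp
  · set p := b / (a + b) with hp
    have hb' : b = p * (a + b) := by rw [hp]; field_simp
    have ha' : a = (1 - p) * (a + b) := by linarith
    obtain ⟨hp0, hp1⟩ := quot_mem ha hb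
    rw [← hp] at hp0 hp1
    set s := a + b with hs
    have h3 : p * a + (1 - p) * b - a * b = p * (1 - p) * (s * (2 - s)) := by
      rw [ha', hb']
      ring
    rw [h3]
    have h4 : s * (2 - s) ≤ 1 := by nlinarith [sq_nonneg (s - 1)]
    have h5 : 0 ≤ p * (1 - p) := mul_nonneg hp0 (by linarith)
    nlinarith

private theorem two_pow_ge (k : ℕ) (hk : 3 ≤ k) : (2 * k + 1 : ℝ) ≤ 2 ^ k := by
  induction k, hk using Nat.le_induction with
  | base => norm_num
  | succ n hn ih =>
    rw [pow_succ]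
    push_cast
    have : (3 : ℝ) ≤ n := by exact_mod_cast hn
    linarith

private theorem three_pow_ge (k : ℕ) (hk : 2 ≤ k) : (4 * k + 4 : ℝ) ≤ 3 * 2 ^ k := by
  induction k, hk using Nat.le_induction with
  | base => norm_num
  | succ n hn ih =>
    rw [pow_succ]
    push_cast
    have : (2 : ℝ) ≤ n := by exact_mod_cast hn
    linarith

/-- ROW F17-A5.  The pointwise inequality.
PROOF.  Put `J = {i : α i < 1 ∧ β i < 1}`, `r = |J|`, `c i = p i α i + (1 - p i) β i - α i β i`.
For `i ∉ J` take the bit `p i = 0` if `β i ≤ α i` and `p i = 1` otherwise; then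
`c i = min (1 - max) ≤ 0` because `max (α i) (β i) ≥ 1`.
CASE `r ≤ 4`.  For `i ∈ J` take `p i = β i / (α i + β i)` (and `p i = 0` if `α i + β i = 0`).  Then
`c i = α β (2/(α+β) - 1) = p (1-p) (α+β) (2 - (α+β)) ≤ p i (1 - p i)`.  Choose `J' ⊇ J` with `|J'| = 4`
(`Finset.exists_superset_card_eq`, `2 M ≥ 4`).  The complement of `J'` has `2 (M - 2)` elements,
all with `|p i - 1/2| = 1/2`; by `SS_union` and `SS_bits`, `SS univ x phi 0 = 2^(M-2) SS J' x phi 0`
(write `univ = J'ᶜ ∪ J'`; `SS_union` gives `SS J' x (SS J'ᶜ x phi) 0`), and `SS_four` gives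
`SS univ x phi 0 / 2^M ≥ (6 - 4 ∑_{J'} x²)/4 = 3/2 - ∑_{J'} (p - 1/2)² = 1/2 + ∑_{J'} p (1-p)`.
CASE `r ≥ 5`.  For `i ∈ J` take `p i = 1/2`; `c i ≤ 1/2` since `1/2 - c i = ((1-α)(1-β) + αβ)/2`.  So
`∑ c i ≤ r/2`.  With `SS_zero` on `J`: `SS univ x phi 0 = 2^r SS Jᶜ x phi 0`; if `2M - r = 2m` it is
`2^r 2^m phi 0 = 2^(r+m)/2`, so the quotient by `2^M` is `2^(r/2)/2` (`r = 2(M-m)`, `r ≥ 6`), and
`2^(r/2)/2 - 1/2 ≥ r/2`; if `2M - r = 2m+1` it is `2^r 2^m (phi(1/2) + phi(-1/2)) = 2^r 2^m 3/4`,
quotient `(3/4) 2^(r+m-M)`, `r = 2(M-m) - 1`, so it is `(3/4) 2^((r-1)/2)`, and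
`(3/4) 2^((r-1)/2) - 1/2 ≥ r/2` for `r ≥ 5` (equality at `r = 5`). -/
theorem exists_price (M : ℕ) (hM : 2 ≤ M) (α β : Fin (2 * M) → ℝ) (hα : ∀ i, 0 ≤ α i)
    (hβ : ∀ i, 0 ≤ β i) :
    ∃ p : Fin (2 * M) → ℝ, (∀ i, 0 ≤ p i ∧ p i ≤ 1) ∧
      ∑ i, (p i * α i + (1 - p i) * β i - α i * β i) ≤
        SS univ (fun i => p i - 1 / 2) phi 0 / 2 ^ M - 1 / 2 := by
  classical
  set J : Finset (Fin (2 * M)) := univ.filter fun i => α i < 1 ∧ β i < 1 with hJ
  have memJ : ∀ i, i ∈ J ↔ (α i < 1 ∧ β i < 1) := fun i => by simp [hJ]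
  rcases Nat.lt_or_ge 4 J.card with hr | hr
  · -- five or more coordinates
    set p : Fin (2 * M) → ℝ := fun i => if i ∈ J then 1 / 2 else bitp (α i) (β i) with hp
    have pin : ∀ i ∈ J, p i = 1 / 2 := fun i hi => by simp only [hp, if_pos hi]
    have pout : ∀ i, i ∉ J → p i = bitp (α i) (β i) := fun i hi => by simp only [hp, if_neg hi]
    refine ⟨p, ?_, ?_⟩
    · intro i
      by_cases hi : i ∈ J
      · rw [pin i hi]; norm_num
      · rw [pout i hi]
        rcases bitp_cases (α i) (β i) with h | h <;> rw [h] <;> norm_num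
    · have h1 : ∑ i, (p i * α i + (1 - p i) * β i - α i * β i) ≤ (J.card : ℝ) / 2 := by
        have h2 : ∑ i, (p i * α i + (1 - p i) * β i - α i * β i) ≤
            ∑ i, if i ∈ J then (1 / 2 : ℝ) else 0 := by
          apply Finset.sum_le_sum
          intro i _
          by_cases hi : i ∈ J
          · rw [if_pos hi, pin i hi]
            obtain ⟨h3, h4⟩ := (memJ i).1 hi
            nlinarith [mul_nonneg (hα i) (hβ i),
              mul_nonneg (sub_nonneg.2 h3.le) (sub_nonneg.2 h4.le)]
          · rw [if_neg hi, pout i hi]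
            exact bitp_le (hα i) (hβ i) (fun h => hi ((memJ i).2 h))
        refine h2.trans ?_
        rw [Finset.sum_ite_mem, Finset.univ_inter, Finset.sum_const, nsmul_eq_mul]
        linarith
      have hx : ∀ i ∈ Jᶜ, |p i - 1 / 2| = 1 / 2 := by
        intro i hi
        rw [pout i (Finset.mem_compl.1 hi)]
        rcases bitp_cases (α i) (β i) with h | h <;> rw [h] <;> norm_num [abs_of_pos, abs_of_neg]
      have hfun : SS J (fun i => p i - 1 / 2) phi = fun t => 2 ^ J.card * phi t := by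
        funext t
        exact SS_zero _ (fun i hi => by rw [pin i hi]; ring) phi t
      have hSS : SS univ (fun i => p i - 1 / 2) phi 0 =
          2 ^ J.card * SS Jᶜ (fun i => p i - 1 / 2) phi 0 := by
        have := SS_union (disjoint_compl_right : Disjoint J Jᶜ) (fun i => p i - 1 / 2) phi 0
        rw [Finset.union_compl] at this
        rw [this, hfun, SS_smul]
      have hcard : J.card + Jᶜ.card = 2 * M := by
        rw [Finset.card_add_card_compl, Fintype.card_fin]
      obtain ⟨he, ho⟩ := SS_bits (I := Jᶜ) (fun i => p i - 1 / 2) hx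
      refine h1.trans ?_
      rw [hSS]
      have phi0 : phi 0 = 1 / 2 := by
        rw [phi_of_abs_le (by norm_num)]; norm_num
      have phih : phi (0 + 1 / 2) = 3 / 8 := by
        rw [phi_of_abs_le (by norm_num [abs_of_pos])]; norm_num
      have phih' : phi (0 - 1 / 2) = 3 / 8 := by
        rw [phi_of_abs_le (by rw [zero_sub, abs_neg]; norm_num [abs_of_pos])]; norm_num
      rcases Nat.even_or_odd' Jᶜ.card with ⟨m, hm | hm⟩
      · obtain ⟨k, hk⟩ : ∃ k, J.card = 2 * k := ⟨M - m, by omega⟩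
        rw [he m hm 0, phi0, hk]
        have hM' : M = m + k := by omega
        have hk3 : 3 ≤ k := by omega
        have h5 := two_pow_ge k hk3
        have h6 : (2 : ℝ) ^ (2 * k) * (2 ^ m * (1 / 2)) / 2 ^ M = 2 ^ k / 2 := by
          rw [hM', two_mul, pow_add, pow_add]
          have : (2 : ℝ) ^ m ≠ 0 := by positivity
          have : (2 : ℝ) ^ k ≠ 0 := by positivity
          field_simp
        rw [h6]
        push_cast
        linarith
      · obtain ⟨k, hk⟩ : ∃ k, J.card = 2 * k + 1 := ⟨M - m - 1, by omega⟩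
        rw [ho m hm 0, phih, phih', hk]
        have hM' : M = m + k + 1 := by omega
        have hk3 : 2 ≤ k := by omega
        have h5 := three_pow_ge k hk3
        have h6 : (2 : ℝ) ^ (2 * k + 1) * (2 ^ m * (3 / 8 + 3 / 8)) / 2 ^ M = 3 / 4 * 2 ^ k := by
          rw [hM', two_mul, pow_add, pow_add, pow_add, pow_add]
          have : (2 : ℝ) ^ m ≠ 0 := by positivity
          have : (2 : ℝ) ^ k ≠ 0 := by positivity
          field_simp
          norm_num
        rw [h6]
        push_cast
        linarith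
  · -- at most four coordinates
    obtain ⟨J', hJJ, hJ'c⟩ : ∃ J' : Finset (Fin (2 * M)), J ⊆ J' ∧ J'.card = 4 :=
      Finset.exists_superset_card_eq hr (by rw [Fintype.card_fin]; omega)
    set p : Fin (2 * M) → ℝ := fun i =>
      if i ∈ J then β i / (α i + β i) else bitp (α i) (β i) with hp
    have pin : ∀ i ∈ J, p i = β i / (α i + β i) := fun i hi => by simp only [hp, if_pos hi]
    have pout : ∀ i, i ∉ J → p i = bitp (α i) (β i) := fun i hi => by simp only [hp, if_neg hi]
    have pmem : ∀ i, 0 ≤ p i ∧ p i ≤ 1 := by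
      intro i
      by_cases hi : i ∈ J
      · rw [pin i hi]
        exact quot_mem (hα i) (hβ i)
      · rw [pout i hi]
        rcases bitp_cases (α i) (β i) with h | h <;> rw [h] <;> norm_num
    refine ⟨p, pmem, ?_⟩
    have hx : ∀ i ∈ J'ᶜ, |p i - 1 / 2| = 1 / 2 := by
      intro i hi
      rw [pout i (fun h => Finset.mem_compl.1 hi (hJJ h))]
      rcases bitp_cases (α i) (β i) with h | h <;> rw [h] <;> norm_num [abs_of_pos, abs_of_neg]
    have hcard : J'ᶜ.card = 2 * (M - 2) := by
      have := Finset.card_add_card_compl J'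
      rw [Fintype.card_fin] at this
      omega
    obtain ⟨he, -⟩ := SS_bits (I := J'ᶜ) (fun i => p i - 1 / 2) hx
    have hfun : SS J'ᶜ (fun i => p i - 1 / 2) phi = fun t => 2 ^ (M - 2) * phi t := by
      funext t
      exact he (M - 2) hcard t
    have hSS : SS univ (fun i => p i - 1 / 2) phi 0 =
        2 ^ (M - 2) * SS J' (fun i => p i - 1 / 2) phi 0 := by
      have := SS_union (disjoint_compl_left : Disjoint J'ᶜ J') (fun i => p i - 1 / 2) phi 0
      rw [Finset.union_comm, Finset.union_compl] at this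
      rw [this, hfun, SS_smul]
    have hfour := SS_four hJ'c (fun i => p i - 1 / 2) (fun i _ => by
      obtain ⟨h1, h2⟩ := pmem i
      rw [abs_le]; constructor <;> linarith)
    have hsq : ∑ i ∈ J', (p i - 1 / 2) ^ 2 = 1 - ∑ i ∈ J', p i * (1 - p i) := by
      have : ∀ i ∈ J', (p i - 1 / 2) ^ 2 = 1 / 4 - p i * (1 - p i) := fun i _ => by ring
      rw [Finset.sum_congr rfl this, Finset.sum_sub_distrib, Finset.sum_const, hJ'c]
      norm_num
    have hle : ∑ i, (p i * α i + (1 - p i) * β i - α i * β i) ≤ ∑ i ∈ J', p i * (1 - p i) := by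
      have h2 : ∑ i, (p i * α i + (1 - p i) * β i - α i * β i) ≤
          ∑ i, if i ∈ J' then p i * (1 - p i) else 0 := by
        apply Finset.sum_le_sum
        intro i _
        by_cases hi : i ∈ J
        · rw [if_pos (hJJ hi), pin i hi]
          exact quot_le (hα i) (hβ i)
        · have h3 := bitp_le (hα i) (hβ i) (fun h => hi ((memJ i).2 h))
          rw [← pout i hi] at h3
          refine h3.trans ?_
          split_ifs
          · exact mul_nonneg (pmem i).1 (by linarith [(pmem i).2])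
          · exact le_refl _
      refine h2.trans ?_
      rw [Finset.sum_ite_mem, Finset.univ_inter]
    refine hle.trans ?_
    rw [hSS]
    have h7 : (2 : ℝ) ^ M = 2 ^ (M - 2) * 4 := by
      have : M = (M - 2) + 2 := by omega
      conv_lhs => rw [this]
      rw [pow_add]; norm_num
    have h8 : (2 : ℝ) ^ (M - 2) * SS J' (fun i => p i - 1 / 2) phi 0 / 2 ^ M =
        SS J' (fun i => p i - 1 / 2) phi 0 / 4 := by
      rw [h7]
      exact mul_div_mul_left _ _ (by positivity)
    rw [h8]
    rw [hsq] at hfour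
    linarith

end Pool.Agent.MP_0af329_co.JF
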