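import Pool.Agent.MP_0af329_co.JA2

set_option autoImplicit false

namespace Pool.Agent.MP_0af329_co.JF

open Finset

private theorem pair_bound (A B a b : ℝ) (h : |a - b| ≤ 1) :
    kap (A - a) (B - b) + kap (A + a) (B + b) ≤ 2 * (1 - |a - b|) := by
  obtain ⟨m, hm⟩ := kap_dist (A - a) (B - b)
  obtain ⟨n, hn⟩ := kap_dist (A + a) (B + b)
  rw [hm, hn]
  have h1 : |2 * (a - b) - 4 * ((n : ℝ) - (m : ℝ))| ≤
      |A - a - (B - b) - 4 * (m : ℝ)| + |A + a - (B + b) - 4 * (n : ℝ)| := by
    have e : 2 * (a - b) - 4 * ((n : ℝ) - (m : ℝ)) =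
        (A + a - (B + b) - 4 * (n : ℝ)) - (A - a - (B - b) - 4 * (m : ℝ)) := by ring
    rw [e]
    have := abs_sub (A + a - (B + b) - 4 * (n : ℝ)) (A - a - (B - b) - 4 * (m : ℝ))
    linarith
  have h2 : 2 * |a - b| ≤ |2 * (a - b) - 4 * ((n : ℝ) - (m : ℝ))| := by
    by_cases hd : n = m
    · subst hd
      have e : 2 * (a - b) - 4 * ((n : ℝ) - (n : ℝ)) = 2 * (a - b) := by ring
      rw [e, abs_mul, abs_of_pos (by norm_num : (0 : ℝ) < 2)]
    · have hd1 : (1 : ℝ) ≤ |(n : ℝ) - (m : ℝ)| := by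
        have hz : (1 : ℤ) ≤ |n - m| := Int.one_le_abs (sub_ne_zero.mpr hd)
        exact_mod_cast hz
      have h3 : |4 * ((n : ℝ) - (m : ℝ))| - |2 * (a - b)| ≤
          |2 * (a - b) - 4 * ((n : ℝ) - (m : ℝ))| := by
        rw [abs_sub_comm]
        exact abs_sub_abs_le_abs_sub _ _
      rw [abs_mul, abs_mul, abs_of_pos (by norm_num : (0 : ℝ) < 2),
        abs_of_pos (by norm_num : (0 : ℝ) < 4)] at h3
      linarith
  linarith

private theorem sS_split (K : ℕ) (i : Fin K) (T : Finset (Fin K)) (x : Fin K → ℝ) :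
    sS univ T x = (∑ j ∈ univ.erase i, if j ∈ T then x j else - x j) +
      (if i ∈ T then x i else - x i) := by
  unfold sS
  rw [Finset.sum_erase_add _ _ (mem_univ i)]

/-- ROW F17-A6.  The kernel bound. -/
theorem sum_kap_le (K : ℕ) (p q : Fin K → ℝ) (hp : ∀ i, 0 ≤ p i ∧ p i ≤ 1)
    (hq : ∀ i, 0 ≤ q i ∧ q i ≤ 1) (i : Fin K) :
    ∑ T ∈ (univ : Finset (Fin K)).powerset,
      kap (sS univ T fun i => p i - 1 / 2) (sS univ T fun i => q i - 1 / 2) ≤
      2 ^ K * (1 - |p i - q i|) := by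
  have hK : 0 < K := lt_of_le_of_lt (Nat.zero_le _) i.isLt
  set F : Finset (Fin K) → ℝ := fun T =>
    kap (sS univ T fun i => p i - 1 / 2) (sS univ T fun i => q i - 1 / 2) with hF
  have hpow : (univ : Finset (Fin K)).powerset = (insert i (univ.erase i)).powerset := by
    rw [Finset.insert_erase (mem_univ i)]
  have hsum : ∑ T ∈ (univ : Finset (Fin K)).powerset, F T =
      ∑ T ∈ (univ.erase i).powerset, (F T + F (insert i T)) := by
    rw [hpow, Finset.sum_powerset_insert (Finset.notMem_erase i _), ← Finset.sum_add_distrib]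
  have hpt : ∀ T ∈ (univ.erase i).powerset, F T + F (insert i T) ≤ 2 * (1 - |p i - q i|) := by
    intro T hT
    have hiT : i ∉ T := fun h => Finset.notMem_erase i univ (Finset.mem_powerset.mp hT h)
    have e1 : ∀ x : Fin K → ℝ, sS univ (insert i T) x =
        (∑ j ∈ univ.erase i, if j ∈ T then x j else - x j) + x i := by
      intro x
      rw [sS_split K i (insert i T) x, if_pos (Finset.mem_insert_self i T)]
      congr 1
      refine Finset.sum_congr rfl fun j hj => ?_
      have hji : j ≠ i := (Finset.mem_erase.mp hj).1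
      simp [Finset.mem_insert, hji]
    have e2 : ∀ x : Fin K → ℝ, sS univ T x =
        (∑ j ∈ univ.erase i, if j ∈ T then x j else - x j) - x i := by
      intro x
      rw [sS_split K i T x, if_neg hiT]
      ring
    simp only [hF]
    rw [e1, e1, e2, e2]
    have hab : |(p i - 1 / 2) - (q i - 1 / 2)| ≤ 1 := by
      rw [abs_le]
      constructor <;> linarith [(hp i).1, (hp i).2, (hq i).1, (hq i).2]
    have hb := pair_bound (∑ j ∈ univ.erase i, if j ∈ T then (p j - 1 / 2) else -(p j - 1 / 2))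
      (∑ j ∈ univ.erase i, if j ∈ T then (q j - 1 / 2) else -(q j - 1 / 2))
      (p i - 1 / 2) (q i - 1 / 2) hab
    have e3 : (p i - 1 / 2) - (q i - 1 / 2) = p i - q i := by ring
    rw [e3] at hb
    exact hb
  rw [hsum]
  calc ∑ T ∈ (univ.erase i).powerset, (F T + F (insert i T))
      ≤ ∑ _T ∈ (univ.erase i).powerset, 2 * (1 - |p i - q i|) := Finset.sum_le_sum hpt
    _ = 2 ^ K * (1 - |p i - q i|) := by
        rw [Finset.sum_const, Finset.card_powerset, Finset.card_erase_of_mem (mem_univ i),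
          Finset.card_univ, Fintype.card_fin, nsmul_eq_mul]
        obtain ⟨k, rfl⟩ : ∃ k, K = k + 1 := ⟨K - 1, by omega⟩
        push_cast
        rw [pow_succ]
        ring

end Pool.Agent.MP_0af329_co.JF
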