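import Pool.Agent.MP_0af329_co.JA5
import Pool.Agent.MP_0af329_co.JA6

set_option autoImplicit false

namespace Pool.Agent.MP_0af329_co.JF

open Finset

/-- The averaged kernel is at most one. -/
theorem sum_kap_le_one (K : ℕ) (hK : 0 < K) (p q : Fin K → ℝ) (hp : ∀ i, 0 ≤ p i ∧ p i ≤ 1)
    (hq : ∀ i, 0 ≤ q i ∧ q i ≤ 1) :
    ∑ T ∈ (univ : Finset (Fin K)).powerset,
      kap (sS univ T fun i => p i - 1 / 2) (sS univ T fun i => q i - 1 / 2) ≤ 2 ^ K := by
  have h := sum_kap_le K p q hp hq ⟨0, hK⟩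
  have h2 : (0 : ℝ) ≤ |p ⟨0, hK⟩ - q ⟨0, hK⟩| := abs_nonneg _
  have h3 : (0 : ℝ) < 2 ^ K := by positivity
  nlinarith

/-- The price of a vertex, the double counting: twice the total price dominates the kernel sum. -/
theorem two_mul_price_ge {V : Type} [Fintype V] {K : ℕ} (hK : 0 < K) (R : Fin K → V → V → Prop)
    (p : V → Fin K → ℝ) (hp : ∀ x i, 0 ≤ p x i ∧ p x i ≤ 1) :
    ∑ x, ∑ y, (∑ T ∈ (univ : Finset (Fin K)).powerset,
      kap (sS univ T fun i => p x i - 1 / 2) (sS univ T fun i => p y i - 1 / 2)) ≤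
    2 ^ K * (2 * ∑ x, ∑ i, (p x i * outd R i x + (1 - p x i) * ind R i x) +
      Fintype.card V + miss R) := by
  classical
  set k : V → V → ℝ := fun x y => ∑ T ∈ (univ : Finset (Fin K)).powerset,
      kap (sS univ T fun i => p x i - 1 / 2) (sS univ T fun i => p y i - 1 / 2) with hk
  -- the price as a sum over pairs
  have hA1 : ∑ x, ∑ i, (p x i * outd R i x + (1 - p x i) * ind R i x) =
      ∑ x, ∑ y, ∑ i, (if R i x y then (p x i + 1 - p y i) else 0) := by
    have e1 : ∑ x, ∑ i, (p x i * outd R i x) =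
        ∑ x, ∑ y, ∑ i, (if R i x y then p x i else 0) := by
      refine Finset.sum_congr rfl fun x _ => ?_
      rw [Finset.sum_comm]
      refine Finset.sum_congr rfl fun i _ => ?_
      rw [← Finset.sum_filter, Finset.sum_const, nsmul_eq_mul, mul_comm]
      congr 1
    have e2 : ∑ x, ∑ i, ((1 - p x i) * ind R i x) =
        ∑ x, ∑ y, ∑ i, (if R i x y then (1 - p y i) else 0) := by
      rw [Finset.sum_comm (s := (univ : Finset V)) (t := (univ : Finset V))]
      refine Finset.sum_congr rfl fun x _ => ?_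
      rw [Finset.sum_comm]
      refine Finset.sum_congr rfl fun i _ => ?_
      rw [← Finset.sum_filter, Finset.sum_const, nsmul_eq_mul, mul_comm]
      congr 1
    simp only [Finset.sum_add_distrib]
    rw [e1, e2, ← Finset.sum_add_distrib]
    refine Finset.sum_congr rfl fun x _ => ?_
    rw [← Finset.sum_add_distrib]
    refine Finset.sum_congr rfl fun y _ => ?_
    rw [← Finset.sum_add_distrib]
    refine Finset.sum_congr rfl fun i _ => ?_
    by_cases h : R i x y
    · simp only [h, if_true]; ring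
    · simp only [h, if_false]; ring
  have hA2 : 2 * ∑ x, ∑ i, (p x i * outd R i x + (1 - p x i) * ind R i x) =
      ∑ x, ∑ y, ∑ i, ((if R i x y then (p x i + 1 - p y i) else 0) +
        (if R i y x then (p y i + 1 - p x i) else 0)) := by
    simp only [Finset.sum_add_distrib]
    rw [Finset.sum_comm (s := (univ : Finset V)) (t := (univ : Finset V))
      (f := fun x y => ∑ i, if R i y x then p y i + 1 - p x i else 0), ← hA1]
    simp only [Finset.sum_add_distrib]
    ring
  -- the number of bad pairs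
  have hbad : ∑ x, ∑ y, (if x = y ∨ (∀ i, ¬ R i x y ∧ ¬ R i y x) then (1 : ℝ) else 0) ≤
      Fintype.card V + miss R := by
    have e3 : ∀ x y : V, (if x = y ∨ (∀ i, ¬ R i x y ∧ ¬ R i y x) then (1 : ℝ) else 0) =
        (if x = y then 1 else 0) +
        (if x ≠ y ∧ (∀ i, ¬ R i x y ∧ ¬ R i y x) then 1 else 0) := by
      intro x y
      by_cases h : x = y
      · simp [h]
      · simp [h]
    simp only [e3, Finset.sum_add_distrib]
    have e4 : ∑ x : V, ∑ y : V, (if x = y then (1 : ℝ) else 0) = Fintype.card V := by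
      simp
    rw [e4]
    have e5 : ∑ x : V, ∑ y : V,
        (if x ≠ y ∧ (∀ i, ¬ R i x y ∧ ¬ R i y x) then (1 : ℝ) else 0) = miss R := by
      rw [← Finset.sum_product']
      unfold miss
      rw [Finset.card_filter]
      push_cast
      refine Finset.sum_congr (by simp) fun t _ => ?_
      congr
    rw [e5]
  have hpos : (0 : ℝ) < 2 ^ K := by positivity
  -- the pairwise bound
  have hpair : ∀ x y : V, k x y ≤ 2 ^ K *
      ((∑ i, ((if R i x y then (p x i + 1 - p y i) else 0) +
        (if R i y x then (p y i + 1 - p x i) else 0))) +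
        (if x = y ∨ (∀ i, ¬ R i x y ∧ ¬ R i y x) then (1 : ℝ) else 0)) := by
    intro x y
    have hterm : ∀ i, 0 ≤ ((if R i x y then (p x i + 1 - p y i) else 0) +
        (if R i y x then (p y i + 1 - p x i) else 0)) := by
      intro i
      have h1 := hp x i
      have h2 := hp y i
      have h3 : 0 ≤ (if R i x y then (p x i + 1 - p y i) else 0) := by
        split_ifs
        · linarith [h1.1, h2.2]
        · exact le_refl _
      have h4 : 0 ≤ (if R i y x then (p y i + 1 - p x i) else 0) := by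
        split_ifs
        · linarith [h1.2, h2.1]
        · exact le_refl _
      linarith
    by_cases hb : x = y ∨ (∀ i, ¬ R i x y ∧ ¬ R i y x)
    · rw [if_pos hb]
      have h1 : k x y ≤ 2 ^ K := sum_kap_le_one K hK (p x) (p y) (hp x) (hp y)
      have h2 : 0 ≤ ∑ i, ((if R i x y then (p x i + 1 - p y i) else 0) +
        (if R i y x then (p y i + 1 - p x i) else 0)) := Finset.sum_nonneg fun i _ => hterm i
      nlinarith
    · rw [if_neg hb, add_zero]
      push Not at hb
      obtain ⟨-, i, hi⟩ := hb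
      have h1 : k x y ≤ 2 ^ K * (1 - |p x i - p y i|) :=
        sum_kap_le K (p x) (p y) (hp x) (hp y) i
      have h2 : ((if R i x y then (p x i + 1 - p y i) else 0) +
        (if R i y x then (p y i + 1 - p x i) else 0)) ≤
          ∑ i, ((if R i x y then (p x i + 1 - p y i) else 0) +
        (if R i y x then (p y i + 1 - p x i) else 0)) :=
        Finset.single_le_sum (f := fun i => ((if R i x y then (p x i + 1 - p y i) else 0) +
        (if R i y x then (p y i + 1 - p x i) else 0))) (fun i _ => hterm i) (Finset.mem_univ i)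
      have h3 : 1 - |p x i - p y i| ≤ ((if R i x y then (p x i + 1 - p y i) else 0) +
        (if R i y x then (p y i + 1 - p x i) else 0)) := by
        have g1 := hp x i
        have g2 := hp y i
        have g3 := neg_abs_le (p x i - p y i)
        have g4 := le_abs_self (p x i - p y i)
        by_cases hxy : R i x y
        · rw [if_pos hxy]
          have : 0 ≤ (if R i y x then (p y i + 1 - p x i) else 0) := by
            split_ifs
            · linarith [g1.2, g2.1]
            · exact le_refl _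
          linarith
        · rw [if_neg hxy, if_pos (hi hxy)]
          linarith
      have h4 : 2 ^ K * (1 - |p x i - p y i|) ≤ 2 ^ K *
        ∑ i, ((if R i x y then (p x i + 1 - p y i) else 0) +
        (if R i y x then (p y i + 1 - p x i) else 0)) :=
        mul_le_mul_of_nonneg_left (le_trans h3 h2) hpos.le
      linarith
  calc ∑ x, ∑ y, k x y ≤ ∑ x, ∑ y, 2 ^ K *
      ((∑ i, ((if R i x y then (p x i + 1 - p y i) else 0) +
        (if R i y x then (p y i + 1 - p x i) else 0))) +
        (if x = y ∨ (∀ i, ¬ R i x y ∧ ¬ R i y x) then (1 : ℝ) else 0)) :=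
        Finset.sum_le_sum fun x _ => Finset.sum_le_sum fun y _ => hpair x y
    _ = 2 ^ K * (2 * ∑ x, ∑ i, (p x i * outd R i x + (1 - p x i) * ind R i x) +
        ∑ x, ∑ y, (if x = y ∨ (∀ i, ¬ R i x y ∧ ¬ R i y x) then (1 : ℝ) else 0)) := by
        rw [hA2]
        simp only [← Finset.mul_sum, Finset.sum_add_distrib]
    _ ≤ 2 ^ K * (2 * ∑ x, ∑ i, (p x i * outd R i x + (1 - p x i) * ind R i x) +
        Fintype.card V + miss R) := by
        apply mul_le_mul_of_nonneg_left _ hpos.le
        linarith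

/-- The main combinatorial theorem for `2 M ≥ 4` colours. -/
theorem paths_even {V : Type} [Fintype V] (M : ℕ) (hM : 2 ≤ M)
    (R : Fin (2 * M) → V → V → Prop) :
    (Fintype.card V : ℝ) ^ 3 / (6 * 4 ^ (2 * M - 1)) -
      (Fintype.card V : ℝ) * (Fintype.card V + miss R) / (2 * 2 ^ (2 * M - 1)) ≤ pth R := by
  classical
  set n : ℝ := (Fintype.card V : ℝ) with hn
  have hpth : 0 ≤ pth R := by
    unfold pth
    exact Finset.sum_nonneg fun v _ => Finset.sum_nonneg fun i _ => by positivity
  rcases Nat.eq_zero_or_pos (Fintype.card V) with h0 | h0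
  · have : n = 0 := by rw [hn, h0]; simp
    rw [this]
    simpa using hpth
  have hnpos : 0 < n := by rw [hn]; exact_mod_cast h0
  set δ : ℝ := 1 / 2 ^ (2 * M - 1) with hδ
  have hδpos : 0 < δ := by rw [hδ]; positivity
  have hδn : 0 < δ * n := mul_pos hδpos hnpos
  -- the prices
  have hex : ∀ x : V, ∃ p : Fin (2 * M) → ℝ, (∀ i, 0 ≤ p i ∧ p i ≤ 1) ∧
      ∑ i, (p i * (outd R i x / (δ * n)) + (1 - p i) * (ind R i x / (δ * n)) -
        (outd R i x / (δ * n)) * (ind R i x / (δ * n))) ≤
        SS univ (fun i => p i - 1 / 2) phi 0 / 2 ^ M - 1 / 2 := fun x =>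
    exists_price M hM (fun i => outd R i x / (δ * n)) (fun i => ind R i x / (δ * n))
      (fun i => by positivity) (fun i => by positivity)
  choose p hp hprice using hex
  set Ψ : V → ℝ := fun x => SS univ (fun i => p x i - 1 / 2) phi 0 / 2 ^ M with hΨ
  set A : ℝ := ∑ x, ∑ i, (p x i * outd R i x + (1 - p x i) * ind R i x) with hA
  -- (3)
  have h3 : δ * n * A - pth R ≤ (δ * n) ^ 2 * (∑ x, Ψ x - n / 2) := by
    have e1 : ∀ x, δ * n * (∑ i, (p x i * outd R i x + (1 - p x i) * ind R i x)) -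
        ∑ i, (ind R i x : ℝ) * outd R i x ≤ (δ * n) ^ 2 * (Ψ x - 1 / 2) := by
      intro x
      have h := mul_le_mul_of_nonneg_left (hprice x) (sq_nonneg (δ * n))
      refine le_trans (le_of_eq ?_) h
      rw [Finset.mul_sum, Finset.mul_sum, ← Finset.sum_sub_distrib]
      refine Finset.sum_congr rfl fun i _ => ?_
      field_simp
    have e2 := Finset.sum_le_sum fun x (_ : x ∈ (univ : Finset V)) => e1 x
    have e3 : ∑ x, (δ * n * (∑ i, (p x i * outd R i x + (1 - p x i) * ind R i x)) -
        ∑ i, (ind R i x : ℝ) * outd R i x) = δ * n * A - pth R := by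
      rw [Finset.sum_sub_distrib, ← Finset.mul_sum]
      rfl
    have e4 : ∑ x, ((δ * n) ^ 2 * (Ψ x - 1 / 2)) = (δ * n) ^ 2 * (∑ x, Ψ x - n / 2) := by
      rw [← Finset.mul_sum, Finset.sum_sub_distrib]
      congr 2
      rw [Finset.sum_const, nsmul_eq_mul, Finset.card_univ]
      ring
    rw [e3, e4] at e2
    exact e2
  -- (1)
  have h1 := two_mul_price_ge (by omega : 0 < 2 * M) R p hp
  -- (2)
  have h2 : 2 ^ (2 * M) * (2 * δ * n * ∑ x, Ψ x - 2 * δ * n ^ 2 / 3) ≤
      ∑ x, ∑ y, (∑ T ∈ (univ : Finset (Fin (2 * M))).powerset,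
      kap (sS univ T fun i => p x i - 1 / 2) (sS univ T fun i => p y i - 1 / 2)) := by
    have e1 := Finset.sum_le_sum fun T (_ : T ∈ (univ : Finset (Fin (2 * M))).powerset) =>
      pd_kap (univ : Finset V) (fun x => sS univ T fun i => p x i - 1 / 2) (n / 2 ^ (M - 1))
    have e2 : ∑ T ∈ (univ : Finset (Fin (2 * M))).powerset, ∑ x : V, ∑ y : V,
        kap (sS univ T fun i => p x i - 1 / 2) (sS univ T fun i => p y i - 1 / 2) =
        ∑ x, ∑ y, (∑ T ∈ (univ : Finset (Fin (2 * M))).powerset,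
        kap (sS univ T fun i => p x i - 1 / 2) (sS univ T fun i => p y i - 1 / 2)) := by
      rw [Finset.sum_comm]
      refine Finset.sum_congr rfl fun x _ => ?_
      rw [Finset.sum_comm]
    rw [e2] at e1
    refine le_trans (le_of_eq ?_) e1
    rw [Finset.sum_sub_distrib, Finset.sum_const, Finset.card_powerset, Finset.card_univ,
      Fintype.card_fin, nsmul_eq_mul, ← Finset.mul_sum, Finset.sum_comm]
    have e3 : ∀ x, ∑ T ∈ (univ : Finset (Fin (2 * M))).powerset,
        phi (sS univ T fun i => p x i - 1 / 2) = 2 ^ M * Ψ x := by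
      intro x
      simp only [hΨ]
      rw [mul_div_cancel₀ _ (by positivity : (2 : ℝ) ^ M ≠ 0)]
      unfold SS
      refine Finset.sum_congr rfl fun T _ => ?_
      rw [zero_add]
    simp only [e3]
    rw [← Finset.mul_sum]
    obtain ⟨m, rfl⟩ : ∃ m, M = m + 1 := ⟨M - 1, by omega⟩
    have e4 : (2 : ℝ) ^ (2 * (m + 1)) = 4 * (2 ^ m) ^ 2 := by
      rw [← pow_mul, mul_comm m 2, show 2 * (m + 1) = 2 * m + 2 by ring, pow_add]; ring
    have e5 : δ = 1 / (2 * (2 ^ m) ^ 2) := by
      rw [hδ]
      congr 1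
      rw [← pow_mul, mul_comm m 2, show 2 * (m + 1) - 1 = 2 * m + 1 by omega, pow_succ]; ring
    have e6 : (((2 ^ (2 * (m + 1)) : ℕ)) : ℝ) = 4 * (2 ^ m) ^ 2 := by
      rw [← e4]; push_cast; rfl
    rw [e6, e4, e5, show m + 1 - 1 = m by omega, pow_succ (2 : ℝ) m]
    have hm : (2 : ℝ) ^ m ≠ 0 := by positivity
    field_simp
    ring
  have h12 := le_trans h2 h1
  have hK : (0 : ℝ) < 2 ^ (2 * M) := by positivity
  have h12' : 2 * δ * n * ∑ x, Ψ x - 2 * δ * n ^ 2 / 3 ≤ 2 * A + n + miss R :=
    le_of_mul_le_mul_left h12 hK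
  have hfin : (Fintype.card V : ℝ) ^ 3 / (6 * 4 ^ (2 * M - 1)) -
      (Fintype.card V : ℝ) * (Fintype.card V + miss R) / (2 * 2 ^ (2 * M - 1)) =
      δ ^ 2 * n ^ 3 / 6 - δ * n * (n + miss R) / 2 := by
    have e7 : (4 : ℝ) ^ (2 * M - 1) = (2 ^ (2 * M - 1)) ^ 2 := by
      rw [show (4 : ℝ) = 2 ^ 2 by norm_num, ← pow_mul, ← pow_mul, mul_comm 2 (2 * M - 1)]
    rw [e7, hδ, ← hn]
    have hm : (2 : ℝ) ^ (2 * M - 1) ≠ 0 := by positivity
    field_simp
  rw [← hn] at hfin
  rw [hfin]
  have h5 := mul_le_mul_of_nonneg_left h12' (by positivity : 0 ≤ δ * n / 2)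
  nlinarith [h3, h5]

end Pool.Agent.MP_0af329_co.JF
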