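import Pool.Agent.MP_0af329_co.JA7

set_option autoImplicit false

namespace Pool.Agent.MP_0af329_co.JF

open Finset

section dbl

variable {V : Type} {K : ℕ}

/-- the doubled relation -/
private def dR (R : Fin K → V → V → Prop) (i : Fin (K + 1)) (x y : V × Bool) : Prop :=
  (∃ j : Fin K, j.castSucc = i ∧ x.2 = y.2 ∧ R j x.1 y.1) ∨
    (i = Fin.last K ∧ x.2 = false ∧ y.2 = true)

private theorem dR_cast (R : Fin K → V → V → Prop) (j : Fin K) (x y : V × Bool) :
    dR R j.castSucc x y ↔ x.2 = y.2 ∧ R j x.1 y.1 := by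
  constructor
  · rintro (⟨j', h1, h2, h3⟩ | ⟨h1, -⟩)
    · rw [Fin.castSucc_inj] at h1
      rw [← h1]
      exact ⟨h2, h3⟩
    · exact absurd h1 (Fin.castSucc_lt_last j).ne
  · rintro ⟨h1, h2⟩
    exact Or.inl ⟨j, rfl, h1, h2⟩

private theorem dR_last (R : Fin K → V → V → Prop) (x y : V × Bool) :
    dR R (Fin.last K) x y ↔ x.2 = false ∧ y.2 = true := by
  constructor
  · rintro (⟨j', h1, -⟩ | ⟨-, h1⟩)
    · exact absurd h1 (Fin.castSucc_lt_last j').ne
    · exact h1
  · intro h
    exact Or.inr ⟨rfl, h⟩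

private theorem outd_cast [Fintype V] (R : Fin K → V → V → Prop) (j : Fin K) (v : V) (b : Bool) :
    outd (dR R) j.castSucc (v, b) = outd R j v := by
  classical
  unfold outd
  refine Finset.card_nbij' (fun y => y.1) (fun y => (y, b)) ?_ ?_ ?_ ?_
  · intro y hy
    simp only [coe_filter, mem_univ, true_and, Set.mem_ofPred_eq, dR_cast] at hy ⊢
    exact hy.2
  · intro y hy
    simp only [coe_filter, mem_univ, true_and, Set.mem_ofPred_eq, dR_cast] at hy ⊢
    exact hy
  · intro y hy
    simp only [coe_filter, mem_univ, true_and, Set.mem_ofPred_eq, dR_cast] at hy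
    exact Prod.ext rfl hy.1
  · intro y _
    rfl

private theorem ind_cast [Fintype V] (R : Fin K → V → V → Prop) (j : Fin K) (v : V) (b : Bool) :
    ind (dR R) j.castSucc (v, b) = ind R j v := by
  classical
  unfold ind
  refine Finset.card_nbij' (fun y => y.1) (fun y => (y, b)) ?_ ?_ ?_ ?_
  · intro y hy
    simp only [coe_filter, mem_univ, true_and, Set.mem_ofPred_eq, dR_cast] at hy ⊢
    exact hy.2
  · intro y hy
    simp only [coe_filter, mem_univ, true_and, Set.mem_ofPred_eq, dR_cast] at hy ⊢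
    exact hy
  · intro y hy
    simp only [coe_filter, mem_univ, true_and, Set.mem_ofPred_eq, dR_cast] at hy
    exact Prod.ext rfl hy.1.symm
  · intro y _
    rfl

private theorem last_zero [Fintype V] (R : Fin K → V → V → Prop) (v : V × Bool) :
    (ind (dR R) (Fin.last K) v : ℝ) * outd (dR R) (Fin.last K) v = 0 := by
  classical
  unfold ind outd
  rcases hb : v.2 with _ | _
  · have h : (univ.filter fun y => dR R (Fin.last K) y v) = ∅ := by
      rw [Finset.filter_eq_empty_iff]
      intro y _ h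
      rw [dR_last] at h
      rw [hb] at h
      exact absurd h.2 (by simp)
    have h2 : (univ.filter fun y => dR R (Fin.last K) y v).card = 0 := by rw [h]; rfl
    rw [h2]
    simp
  · have h : (univ.filter fun y => dR R (Fin.last K) v y) = ∅ := by
      rw [Finset.filter_eq_empty_iff]
      intro y _ h
      rw [dR_last] at h
      rw [hb] at h
      exact absurd h.1 (by simp)
    have h2 : (univ.filter fun y => dR R (Fin.last K) v y).card = 0 := by rw [h]; rfl
    rw [h2]
    simp

private theorem pth_dR [Fintype V] (R : Fin K → V → V → Prop) : pth (dR R) = 2 * pth R := by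
  unfold pth
  have h1 : ∀ v : V × Bool, ∑ i, (ind (dR R) i v : ℝ) * outd (dR R) i v =
      ∑ i, (ind R i v.1 : ℝ) * outd R i v.1 := by
    intro v
    rw [Fin.sum_univ_castSucc, last_zero, add_zero]
    refine Finset.sum_congr rfl ?_
    intro i _
    obtain ⟨v, b⟩ := v
    rw [ind_cast, outd_cast]
  rw [Finset.sum_congr rfl (fun v _ => h1 v), Fintype.sum_prod_type, Finset.mul_sum]
  refine Finset.sum_congr rfl ?_
  intro v _
  rw [Fintype.sum_bool]
  ring

private theorem miss_dR [Fintype V] (R : Fin K → V → V → Prop) : miss (dR R) = 2 * miss R := by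
  classical
  have h1 : miss R * 2 = ((univ.filter fun t : V × V => t.1 ≠ t.2 ∧
      ∀ i, ¬ R i t.1 t.2 ∧ ¬ R i t.2 t.1) ×ˢ (univ : Finset Bool)).card := by
    rw [Finset.card_product, Finset.card_univ, Fintype.card_bool]
    rfl
  rw [mul_comm, h1]
  unfold miss
  refine Finset.card_nbij' (fun t => ((t.1.1, t.2.1), t.1.2))
    (fun t => ((t.1.1, t.2), (t.1.2, t.2))) ?_ ?_ ?_ ?_
  · rintro ⟨⟨x, b⟩, ⟨y, c⟩⟩ ht
    simp only [coe_filter, mem_univ, true_and, Set.mem_ofPred_eq] at ht
    obtain ⟨h2, h3⟩ := ht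
    have hbc : b = c := by
      have h4 := h3 (Fin.last K)
      rw [dR_last, dR_last] at h4
      revert h4
      cases b <;> cases c <;> simp
    subst hbc
    rw [Finset.mem_coe, Finset.mem_product, Finset.mem_filter]
    refine ⟨⟨Finset.mem_univ _, ?_, ?_⟩, Finset.mem_univ _⟩
    · intro h
      exact h2 (Prod.ext h rfl)
    · intro i
      have h4 := h3 i.castSucc
      rw [dR_cast, dR_cast] at h4
      exact ⟨fun h => h4.1 ⟨rfl, h⟩, fun h => h4.2 ⟨rfl, h⟩⟩
  · rintro ⟨⟨x, y⟩, b⟩ ht
    rw [Finset.mem_coe, Finset.mem_product, Finset.mem_filter] at ht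
    obtain ⟨⟨-, h2, h3⟩, -⟩ := ht
    simp only [coe_filter, mem_univ, true_and, Set.mem_ofPred_eq]
    refine ⟨?_, ?_⟩
    · intro h
      exact h2 (congrArg (fun z : V × Bool => z.1) h)
    · intro i
      refine Fin.lastCases ?_ ?_ i
      · rw [dR_last, dR_last]
        show ¬ (b = false ∧ b = true) ∧ ¬ (b = false ∧ b = true)
        cases b <;> simp
      · intro j
        rw [dR_cast, dR_cast]
        exact ⟨fun h => (h3 j).1 h.2, fun h => (h3 j).2 h.2⟩
  · rintro ⟨⟨x, b⟩, ⟨y, c⟩⟩ ht
    simp only [coe_filter, mem_univ, true_and, Set.mem_ofPred_eq] at ht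
    obtain ⟨h2, h3⟩ := ht
    have hbc : b = c := by
      have h4 := h3 (Fin.last K)
      rw [dR_last, dR_last] at h4
      revert h4
      cases b <;> cases c <;> simp
    subst hbc
    rfl
  · rintro ⟨⟨x, y⟩, b⟩ _
    rfl

end dbl

/-- ROW F17-A8a.  Doubling: `V × Bool`, a new colour `K` (the last one) from `(x, false)` to
`(y, true)` for ALL `x, y`.  No vertex has both in- and out-edges of the new colour, so
`pth R' = 2 pth R`, and `miss R' = 2 miss R` (pairs in the same copy). -/
theorem double {V : Type} [Fintype V] {K : ℕ} (R : Fin K → V → V → Prop) :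
    ∃ R' : Fin (K + 1) → V × Bool → V × Bool → Prop,
      pth R' = 2 * pth R ∧ miss R' = 2 * miss R :=
  ⟨dR R, pth_dR R, miss_dR R⟩

/-- ROW F17-A8b.  From `paths_even` and `double` by downward induction: if the inequality holds for
`K + 1` colours (and all vertex sets) then it holds for `K` colours (the formula is invariant:
`(2n)³/(6·4^K) = 2 n³/(6·4^(K-1))`, `2n(2n + 2 miss)/(2·2^K) = 2 n (n + miss)/(2·2^(K-1))`). -/
theorem paths {V : Type} [Fintype V] (K : ℕ) (hK : 1 ≤ K) (R : Fin K → V → V → Prop) :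
    (Fintype.card V : ℝ) ^ 3 / (6 * 4 ^ (K - 1)) -
      (Fintype.card V : ℝ) * (Fintype.card V + miss R) / (2 * 2 ^ (K - 1)) ≤ pth R := by
  have main : ∀ n : ℕ, ∀ K : ℕ, 1 ≤ K → (K + n) = 2 * ((K + n) / 2) → 2 ≤ (K + n) / 2 →
      ∀ (V : Type) [Fintype V] (R : Fin K → V → V → Prop),
      (Fintype.card V : ℝ) ^ 3 / (6 * 4 ^ (K - 1)) -
        (Fintype.card V : ℝ) * (Fintype.card V + miss R) / (2 * 2 ^ (K - 1)) ≤ pth R := by
    intro n
    induction n with
    | zero =>
      intro K hK h1 h2 V _ R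
      rw [add_zero] at h1 h2
      obtain ⟨M, hM⟩ : ∃ M, M = K / 2 := ⟨_, rfl⟩
      rw [← hM] at h1 h2
      subst h1
      exact paths_even M h2 R
    | succ n ih =>
      intro K hK h1 h2 V _ R
      obtain ⟨R', h3, h4⟩ := double R
      have h5 := ih (K + 1) (by omega) (by rw [show K + 1 + n = K + (n + 1) by ring]; exact h1)
        (by rw [show K + 1 + n = K + (n + 1) by ring]; exact h2) (V × Bool) R'
      rw [h3, h4, Fintype.card_prod, Fintype.card_bool] at h5
      obtain ⟨k, rfl⟩ : ∃ k, K = k + 1 := ⟨K - 1, by omega⟩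
      simp only [Nat.add_sub_cancel] at h5 ⊢
      push_cast at h5
      have e1 : ((Fintype.card V : ℝ) * 2) ^ 3 / (6 * 4 ^ (k + 1)) =
          2 * ((Fintype.card V : ℝ) ^ 3 / (6 * 4 ^ k)) := by
        rw [pow_succ (4 : ℝ) k]
        field_simp
        ring
      have e2 : (Fintype.card V : ℝ) * 2 * ((Fintype.card V : ℝ) * 2 + 2 * (miss R : ℝ)) /
          (2 * 2 ^ (k + 1)) =
          2 * ((Fintype.card V : ℝ) * ((Fintype.card V : ℝ) + miss R) / (2 * 2 ^ k)) := by
        rw [pow_succ (2 : ℝ) k]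
        field_simp
      rw [e1, e2] at h5
      linarith
  exact main (K + 2) K hK (by omega) (by omega) V R

end Pool.Agent.MP_0af329_co.JF
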