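import Pool.Agent.MP_0af329_co.Basic

set_option autoImplicit false

namespace Pool.Agent.MP_0af329_co.JF

open Finset EuclideanGeometry

/-- unit vectors -/
private noncomputable def ue (a : ℝ) : Pt := !₂[Real.cos a, Real.sin a]

private theorem inner_ue (a b : ℝ) : inner ℝ (ue a) (ue b) = Real.cos (a - b) := by
  rw [PiLp.inner_apply, Fin.sum_univ_two, Real.cos_sub]
  simp [ue]
  ring

private theorem norm_ue (a : ℝ) : ‖ue a‖ = 1 := by
  have h : ‖ue a‖ ^ 2 = 1 := by
    rw [← real_inner_self_eq_norm_sq, inner_ue, sub_self, Real.cos_zero]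
  nlinarith [norm_nonneg (ue a)]

private theorem angle_ue (a b : ℝ) (h : |a - b| ≤ Real.pi) :
    InnerProductGeometry.angle (ue a) (ue b) = |a - b| := by
  rw [InnerProductGeometry.angle, inner_ue, norm_ue, norm_ue, mul_one, div_one, ← Real.cos_abs,
    Real.arccos_cos (abs_nonneg _) h]

/-- the upper half plane with the positive half axis -/
private def HP (v : Pt) : Prop := 0 < v 1 ∨ (v 1 = 0 ∧ 0 < v 0)

private theorem HP_neg {v : Pt} (hv : v ≠ 0) : HP (-v) ↔ ¬ HP v := by
  have h0 : v 1 = 0 → v 0 ≠ 0 := by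
    intro h1 h2
    apply hv
    ext i
    fin_cases i
    · simpa using h2
    · simpa using h1
  unfold HP
  simp only [PiLp.neg_apply, not_or, not_and, not_lt]
  constructor
  · rintro (h | ⟨h1, h2⟩)
    · exact ⟨by linarith, fun h3 => by linarith⟩
    · exact ⟨by linarith, fun _ => by linarith⟩
  · rintro ⟨h1, h2⟩
    rcases h1.lt_or_eq with h3 | h3
    · left
      linarith
    · right
      refine ⟨by linarith, ?_⟩
      have h4 := h2 h3
      have h5 := h0 h3
      have : v 0 < 0 := lt_of_le_of_ne h4 h5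
      linarith

open Classical in
/-- the representative of the line of `v` in the half plane -/
private noncomputable def rp (v : Pt) : Pt := if HP v then v else -v

/-- the angle of the line of `v` -/
private noncomputable def an (v : Pt) : ℝ := Real.arccos (rp v 0 / ‖rp v‖)

private theorem rp_neg {v : Pt} (hv : v ≠ 0) : rp (-v) = rp v := by
  unfold rp
  rw [neg_neg]
  by_cases h : HP v
  · rw [if_pos h, if_neg (fun h' => (HP_neg hv).mp h' h)]
  · rw [if_neg h, if_pos ((HP_neg hv).mpr h)]

private theorem HP_rp {v : Pt} (hv : v ≠ 0) : HP (rp v) := by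
  unfold rp
  by_cases h : HP v
  · rwa [if_pos h]
  · rw [if_neg h]
    exact (HP_neg hv).mpr h

private theorem rp_ne {v : Pt} (hv : v ≠ 0) : rp v ≠ 0 := by
  unfold rp
  by_cases h : HP v
  · rwa [if_pos h]
  · rw [if_neg h]
    exact neg_ne_zero.mpr hv

private theorem sq_sum (u : Pt) : u 0 ^ 2 + u 1 ^ 2 = ‖u‖ ^ 2 := by
  rw [EuclideanSpace.norm_sq_eq, Fin.sum_univ_two]
  simp

private theorem an_spec {v : Pt} (hv : v ≠ 0) :
    0 ≤ an v ∧ an v < Real.pi ∧ rp v = ‖rp v‖ • ue (an v) := by
  have hu := HP_rp hv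
  have hn := norm_pos_iff.mpr (rp_ne hv)
  have hsq := sq_sum (rp v)
  set u := rp v with hudef
  have h1 : 0 ≤ u 1 := by
    rcases hu with h | h
    · exact h.le
    · exact h.1.ge
  have hle : |u 0 / ‖u‖| ≤ 1 := by
    rw [abs_div, abs_norm, div_le_one hn]
    apply abs_le_of_sq_le_sq _ hn.le
    nlinarith [sq_nonneg (u 1)]
  obtain ⟨hl, hr⟩ := abs_le.mp hle
  have hcos : Real.cos (an v) = u 0 / ‖u‖ := Real.cos_arccos hl hr
  have hsin : Real.sin (an v) = u 1 / ‖u‖ := by
    unfold an
    rw [← hudef, Real.sin_arccos]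
    have e1 : 1 - (u 0 / ‖u‖) ^ 2 = (u 1 / ‖u‖) ^ 2 := by
      field_simp
      linarith
    rw [e1, Real.sqrt_sq (by positivity)]
  refine ⟨Real.arccos_nonneg _, lt_of_le_of_ne (Real.arccos_le_pi _) fun hpi => ?_, ?_⟩
  · have hpi' : an v = Real.pi := hpi
    rw [hpi', Real.sin_pi] at hsin
    rw [hpi', Real.cos_pi] at hcos
    have h3 : u 1 = 0 := by
      have := hsin.symm
      rcases div_eq_zero_iff.mp this with h | h
      · exact h
      · exact absurd h hn.ne'
    have h4 : u 0 < 0 := by
      rw [eq_div_iff hn.ne'] at hcos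
      linarith
    rcases hu with h | h
    · linarith
    · linarith [h.2]
  · ext i
    fin_cases i
    · simp [ue, hcos]
      field_simp
    · simp [ue, hsin]
      field_simp

private theorem angle_rp {v w : Pt} (hv : v ≠ 0) (hw : w ≠ 0) :
    InnerProductGeometry.angle (rp v) (rp w) = |an v - an w| := by
  obtain ⟨a1, a2, a3⟩ := an_spec hv
  obtain ⟨b1, b2, b3⟩ := an_spec hw
  rw [a3, b3, InnerProductGeometry.angle_smul_left_of_pos _ _ (norm_pos_iff.mpr (rp_ne hv)),
    InnerProductGeometry.angle_smul_right_of_pos _ _ (norm_pos_iff.mpr (rp_ne hw)), angle_ue]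
  rw [abs_le]
  constructor <;> linarith

/-- ROW F17-B0.  Directions modulo `π` and their signs.
PROOF.  For `v ≠ 0` in the plane (as a complex number `v 0 + v 1 I`) let `ψ ∈ [0, π)` and `σ` be such that
`v = ± |v| (cos ψ, sin ψ)` with `+` iff `σ = true`: `ψ = arg v`, `σ = true` if `0 ≤ arg v < π`; `ψ = 0`, `σ = false`
if `arg v = π`; `ψ = arg v + π`, `σ = false` if `arg v < 0`.  (One may avoid `Complex.arg`: it is enough
to prove existence of `(ψ, σ)` for every `v ≠ 0` and uniqueness, and to choose.)  Use `v = y - x` for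
`ψ x y`, `σ x y`.  For `-v` the same `ψ` and the opposite sign.  The angle at `y` between
`s |v| e(ψ)` and `s' |w| e(ψ')` is `|ψ - ψ'|` if `s = s'` and `π - |ψ - ψ'|` otherwise
(`InnerProductGeometry.angle_smul_left_of_pos` ..., `angle_neg_left`, inner product
`cos (ψ - ψ')`, `Real.arccos_cos`; see `Conf.angle_e` in Conf.lean for the same computation). -/
theorem exists_dirs : ∃ (ψ : Pt → Pt → ℝ) (σ : Pt → Pt → Bool),
    (∀ x y, x ≠ y → 0 ≤ ψ x y ∧ ψ x y < Real.pi ∧ ψ y x = ψ x y ∧ σ y x = !(σ x y)) ∧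
    (∀ x y z, x ≠ y → z ≠ y → ∠ x y z =
      if σ y x = σ y z then |ψ y x - ψ y z| else Real.pi - |ψ y x - ψ y z|) := by
  classical
  refine ⟨fun x y => an (y - x), fun x y => decide (HP (y - x)), fun x y hxy => ?_, fun x y z hxy hzy => ?_⟩
  · have hv : y - x ≠ 0 := sub_ne_zero.mpr hxy.symm
    obtain ⟨a1, a2, -⟩ := an_spec hv
    refine ⟨a1, a2, ?_, ?_⟩
    · show an (x - y) = an (y - x)
      unfold an
      rw [← neg_sub y x, rp_neg hv]
    · show decide (HP (x - y)) = !(decide (HP (y - x)))
      rw [← neg_sub y x, ← decide_not]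
      exact decide_eq_decide.mpr (HP_neg hv)
  · have hv : x - y ≠ 0 := sub_ne_zero.mpr hxy
    have hw : z - y ≠ 0 := sub_ne_zero.mpr hzy
    have hang := angle_rp hv hw
    show InnerProductGeometry.angle (x -ᵥ y) (z -ᵥ y) = _
    rw [vsub_eq_sub, vsub_eq_sub]
    by_cases h1 : HP (x - y) <;> by_cases h2 : HP (z - y)
    · have e1 : rp (x - y) = x - y := if_pos h1
      have e2 : rp (z - y) = z - y := if_pos h2
      rw [e1, e2] at hang
      rw [if_pos (by simp [h1, h2]), hang]
    · have e1 : rp (x - y) = x - y := if_pos h1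
      have e2 : rp (z - y) = -(z - y) := if_neg h2
      rw [e1, e2, InnerProductGeometry.angle_neg_right] at hang
      rw [if_neg (by simp [h1, h2])]
      linarith
    · have e1 : rp (x - y) = -(x - y) := if_neg h1
      have e2 : rp (z - y) = z - y := if_pos h2
      rw [e1, e2, InnerProductGeometry.angle_neg_left] at hang
      rw [if_neg (by simp [h1, h2])]
      linarith
    · have e1 : rp (x - y) = -(x - y) := if_neg h1
      have e2 : rp (z - y) = -(z - y) := if_neg h2
      rw [e1, e2, InnerProductGeometry.angle_neg_neg] at hang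
      rw [if_pos (by simp [h1, h2]), hang]

end Pool.Agent.MP_0af329_co.JF
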