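import Mathlib

/-!
# Monochromatic directed paths in coloured oriented complete graphs: definitions

`rd s ∈ [-1, 1)` is `s` reduced modulo `2`, `sgd s = ±1` the parity of the reduction, `phi` the
parabola wave, `kap` the triangle wave of the difference, `SS` the sum over all choices of signs.
-/

set_option autoImplicit false

namespace Pool.Agent.MP_0af329_co.JF

open Finset

/-- The integer `m` with `s - 2 m ∈ [-1, 1)`. -/
noncomputable def md (s : ℝ) : ℤ := ⌊(s + 1) / 2⌋

/-- The reduction of `s` modulo `2` to `[-1, 1)`. -/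
noncomputable def rd (s : ℝ) : ℝ := s - 2 * (md s : ℝ)

/-- The sign `(-1)^m`. -/
noncomputable def sgd (s : ℝ) : ℝ := if Even (md s) then 1 else -1

/-- The parabola wave: `phi s = (1 - s²)/2` on `[-1, 1]`, `phi (s + 2) = - phi s`. -/
noncomputable def phi (s : ℝ) : ℝ := sgd s * (1 - rd s ^ 2) / 2

/-- The triangle wave of `s - t`. -/
noncomputable def kap (s t : ℝ) : ℝ := sgd s * sgd t * (1 - |rd s - rd t|)

section
variable {ι : Type} [DecidableEq ι]

/-- The signed sum of `x` over `I`: sign `+` on `T`, sign `-` off `T`. -/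
noncomputable def sS (I T : Finset ι) (x : ι → ℝ) : ℝ := ∑ i ∈ I, if i ∈ T then x i else - x i

/-- The sum of `F (s + signed sum)` over all choices of signs on `I`. -/
noncomputable def SS (I : Finset ι) (x : ι → ℝ) (F : ℝ → ℝ) (s : ℝ) : ℝ :=
  ∑ T ∈ I.powerset, F (s + sS I T x)

end

/-! `R i x y` means: there is an edge of colour `i` from `x` to `y`. -/

open Classical in
/-- The number of ordered pairs of distinct vertices which are not joined. -/
noncomputable def miss {V : Type} [Fintype V] {K : ℕ} (R : Fin K → V → V → Prop) : ℕ :=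
  (univ.filter fun t : V × V => t.1 ≠ t.2 ∧ ∀ i, ¬ R i t.1 t.2 ∧ ¬ R i t.2 t.1).card

open Classical in
/-- The out-degree in colour `i`. -/
noncomputable def outd {V : Type} [Fintype V] {K : ℕ} (R : Fin K → V → V → Prop) (i : Fin K)
    (x : V) : ℕ := (univ.filter fun y => R i x y).card

open Classical in
/-- The in-degree in colour `i`. -/
noncomputable def ind {V : Type} [Fintype V] {K : ℕ} (R : Fin K → V → V → Prop) (i : Fin K)
    (x : V) : ℕ := (univ.filter fun y => R i y x).card

/-- The number of monochromatic directed paths `x → v → z`. -/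
noncomputable def pth {V : Type} [Fintype V] {K : ℕ} (R : Fin K → V → V → Prop) : ℝ :=
  ∑ v, ∑ i, (ind R i v : ℝ) * outd R i v

end Pool.Agent.MP_0af329_co.JF
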