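import Pool.Agent.MP_0af329_co.JB0
import Pool.Agent.MP_0af329_co.JDefs

set_option autoImplicit false

namespace Pool.Agent.MP_0af329_co.JF

open Finset EuclideanGeometry

/-- The shifted cell index. -/
private def gsh (N j f : ℕ) : ℕ := if j ≤ f then f - j else f + 2 * N - j

private theorem gsh_opp (N J j f f' : ℕ) (hj : j < J) (hJN : J ≤ N) (hf : f < 2 * N)
    (hf' : f' < 2 * N) (h : f' = f + N ∨ f = f' + N) :
    (gsh N j f < N ↔ ¬ gsh N j f' < N) := by
  unfold gsh; split_ifs <;> omega

private theorem miss_dvd (k J j f f' : ℕ) (hj : j < J) (hk : 1 ≤ k) (hf : f < 2 * (k * J))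
    (hf' : f' < 2 * (k * J)) (h : f' = f + k * J ∨ f = f' + k * J)
    (hm : ∀ i < k, ¬ (i * J ≤ gsh (k * J) j f ∧ gsh (k * J) j f + 1 < i * J + J) ∧
      ¬ (i * J ≤ gsh (k * J) j f' ∧ gsh (k * J) j f' + 1 < i * J + J)) :
    (J : ℤ) ∣ (f : ℤ) + 1 - j := by
  have hJN : J ≤ k * J := Nat.le_mul_of_pos_left J hk
  have hJ : 0 < J := by omega
  have key : ∀ e : ℕ, gsh (k * J) j e < k * J →
      (∀ i < k, ¬ (i * J ≤ gsh (k * J) j e ∧ gsh (k * J) j e + 1 < i * J + J)) →
      (J : ℤ) ∣ (e : ℤ) + 1 - j := by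
    intro e he hi
    have h1 : gsh (k * J) j e / J < k := by rw [Nat.div_lt_iff_lt_mul hJ]; exact he
    have h2 := Nat.div_add_mod' (gsh (k * J) j e) J
    have h3 := Nat.mod_lt (gsh (k * J) j e) hJ
    have h4 := hi _ h1
    have h5 : gsh (k * J) j e + 1 = gsh (k * J) j e / J * J + J := by
      generalize gsh (k * J) j e / J * J = A at *
      generalize gsh (k * J) j e % J = B at *
      omega
    have h6 : (gsh (k * J) j e : ℤ) + 1 = ((gsh (k * J) j e / J : ℕ) : ℤ) * J + J := by
      exact_mod_cast h5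
    by_cases hje : j ≤ e
    · have h7 : (gsh (k * J) j e : ℤ) = (e : ℤ) - j := by
        unfold gsh; rw [if_pos hje]; omega
      refine ⟨((gsh (k * J) j e / J : ℕ) : ℤ) + 1, ?_⟩
      linear_combination h6 - h7
    · have h7 : (gsh (k * J) j e : ℤ) = (e : ℤ) + 2 * (k * J) - j := by
        have h8 : gsh (k * J) j e + j = e + 2 * (k * J) := by
          unfold gsh; rw [if_neg hje]
          generalize k * J = N at *
          omega
        have h9 : (gsh (k * J) j e : ℤ) + j = (e : ℤ) + 2 * (k * J) := by exact_mod_cast h8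
        linarith
      refine ⟨((gsh (k * J) j e / J : ℕ) : ℤ) + 1 - 2 * k, ?_⟩
      linear_combination h6 - h7
  by_cases hc : gsh (k * J) j f < k * J
  · exact key f hc fun i hi => (hm i hi).1
  · have hc' : gsh (k * J) j f' < k * J := by
      have := gsh_opp (k * J) J j f f' hj hJN hf hf' h
      tauto
    obtain ⟨q, hq⟩ := key f' hc' fun i hi => (hm i hi).2
    rcases h with h | h
    · have h' : (f' : ℤ) = f + k * J := by exact_mod_cast h
      exact ⟨q - k, by linear_combination hq - h'⟩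
    · have h' : (f : ℤ) = f' + k * J := by exact_mod_cast h
      exact ⟨q + k, by linear_combination hq + h'⟩

/-- ROW F17-B1.  Sectors: `N = k J` cells of width `w = π/(kJ)` per half turn; a sector is `J` consecutive
cells, the last one is a gap.
PROOF.  `ψ, σ` from `exists_dirs`.  `full x y := ⌊ψ x y / w⌋₊ + (if σ x y then 0 else N) ∈ [0, 2N)`, so
`full y x ≡ full x y + N (mod 2N)`.  For `j < J` put `g_j x y = (full x y + (2N - j)) % (2N)` and
`R_j i x y :↔ x ≠ y ∧ i J ≤ g_j x y ∧ g_j x y < i J + (J - 1)` (`i < k`).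
Orientation: `g_j y x ≡ g_j x y + N`, so exactly one of `g_j x y, g_j y x` is `< N`; if `R_j i x y` then
`g_j x y < N`, hence not `R_j i' y x`.  Different `i` have disjoint ranges.
A pair `x ≠ y` is not joined iff `g_j x y % J = J - 1` (note `J ∣ N`, so this is symmetric), i.e.
`(full x y + 2N - j) % J = J - 1`: this happens for exactly one `j < J`.  So `∑_j miss R_j ≤ |S|²`
(swap sums), and some `j` has `J miss R_j ≤ |S|²`.
Angle: `R_j i x y`, `R_j i y z` with `a = full x y`, `b = full y z`: `a, b` differ modulo `2N` by at most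
`J - 2`.  If `σ x y = σ y z` (so `σ y x ≠ σ y z`) then `|a - b| ≤ J - 2`, `|ψ y x - ψ y z| < (J-1) w` and the angle is
`π - |..| > π - (J-1) w = π - π/k + π/(kJ)`.  If `σ x y ≠ σ y z` then `|a - b| ≥ 2N - (J - 2)`, hence
`|ψ y x - ψ y z| > π - (J-1) w` and the angle is `|..|`.  (`J ≤ N`.)  `x ≠ z` by the orientation. -/
theorem exists_sectors (S : Finset Pt) (k J : ℕ) (hk : 1 ≤ k) (hJ : 1 ≤ J) :
    ∃ R : Fin k → S → S → Prop,
      (∀ i x y z, R i x y → R i y z → x ≠ z ∧
        Real.pi - Real.pi / k + Real.pi / (k * J) < ∠ (x : Pt) (y : Pt) (z : Pt)) ∧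
      (∀ i j x y, R i x y → ¬ R j y x) ∧ (∀ i x y, R i x y → x ≠ y) ∧
      (∀ i j x y, R i x y → R j x y → i = j) ∧
      (miss R : ℝ) * J ≤ (S.card : ℝ) ^ 2 := by
  classical
  obtain ⟨ψ, σ, hψ, hang⟩ := exists_dirs
  have hpi := Real.pi_pos
  set w : ℝ := Real.pi / (k * J : ℕ) with hw
  have hkJ : 0 < k * J := Nat.mul_pos (by omega) (by omega)
  have hJN : J ≤ k * J := Nat.le_mul_of_pos_left J hk
  have hN0 : (0 : ℝ) < ((k * J : ℕ) : ℝ) := by exact_mod_cast hkJ
  have hw0 : 0 < w := div_pos hpi hN0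
  have hNw : ((k * J : ℕ) : ℝ) * w = Real.pi := by rw [hw]; field_simp
  set c : Pt → Pt → ℕ := fun x y => ⌊ψ x y / w⌋₊ with hc
  set full : Pt → Pt → ℕ := fun x y => c x y + if σ x y then 0 else k * J with hfull
  have hc1 : ∀ x y, x ≠ y → (c x y : ℝ) * w ≤ ψ x y ∧ ψ x y < ((c x y : ℝ) + 1) * w := by
    intro x y hxy
    have h0 : 0 ≤ ψ x y / w := div_nonneg (hψ x y hxy).1 hw0.le
    constructor
    · have := Nat.floor_le h0
      rwa [le_div_iff₀ hw0] at this
    · have := Nat.lt_floor_add_one (ψ x y / w)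
      rwa [div_lt_iff₀ hw0] at this
  have hc2 : ∀ x y, x ≠ y → c x y < k * J := by
    intro x y hxy
    have h1 := (hc1 x y hxy).1
    have h2 := (hψ x y hxy).2.1
    have h3 : (c x y : ℝ) * w < ((k * J : ℕ) : ℝ) * w := by rw [hNw]; linarith
    exact_mod_cast lt_of_mul_lt_mul_right h3 hw0.le
  have hf1 : ∀ x y, x ≠ y → full x y < 2 * (k * J) := by
    intro x y hxy
    have := hc2 x y hxy
    simp only [hfull]
    split_ifs <;> omega
  have hcs : ∀ x y, x ≠ y → c y x = c x y := by
    intro x y hxy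
    simp only [hc]
    rw [(hψ x y hxy).2.2.1]
  have hf2 : ∀ x y, x ≠ y → full y x = full x y + k * J ∨ full x y = full y x + k * J := by
    intro x y hxy
    have h1 := hcs x y hxy
    have h2 := (hψ x y hxy).2.2.2
    simp only [hfull]
    rw [h1, h2]
    cases σ x y <;> simp
  set R : ℕ → Fin k → S → S → Prop := fun j i x y => (x : Pt) ≠ y ∧
    (i : ℕ) * J ≤ gsh (k * J) j (full x y) ∧ gsh (k * J) j (full x y) + 1 < (i : ℕ) * J + J with hR
  have hmul : ∀ i : Fin k, (i : ℕ) * J + J ≤ k * J := by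
    intro i
    have := Nat.mul_le_mul_right J (i.2 : (i : ℕ) + 1 ≤ k)
    rwa [Nat.succ_mul] at this
  have hlt : ∀ j i x y, R j i x y → gsh (k * J) j (full x y) < k * J := by
    intro j i x y h
    have := hmul i
    have := h.2.2
    omega
  have hor : ∀ j, j < J → ∀ i i' x y, R j i x y → ¬ R j i' y x := by
    intro j hj i i' x y h h'
    have h1 := gsh_opp (k * J) J j (full x y) (full y x) hj hJN (hf1 x y h.1) (hf1 y x h'.1)
      (hf2 x y h.1)
    exact (h1.1 (hlt j i x y h)) (hlt j i' y x h')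
  have huniq : ∀ j i i' x y, R j i x y → R j i' x y → i = i' := by
    intro j i i' x y h h'
    have key : ∀ a b : ℕ, a < b → a * J + J ≤ b * J := by
      intro a b hab
      have := Nat.mul_le_mul_right J (hab : a + 1 ≤ b)
      rwa [Nat.succ_mul] at this
    have h1 := h.2
    have h2 := h'.2
    apply Fin.ext
    rcases lt_trichotomy (i : ℕ) (i' : ℕ) with hlt | heq | hgt
    · have := key _ _ hlt; omega
    · exact heq
    · have := key _ _ hgt; omega
  -- pigeonhole
  have hsum : ∑ j ∈ range J, miss (R j) ≤ S.card ^ 2 := by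
    have e1 : ∀ j, miss (R j) = ∑ t : S × S, if (t.1 ≠ t.2 ∧ ∀ i, ¬ R j i t.1 t.2 ∧ ¬ R j i t.2 t.1)
        then 1 else 0 := by
      intro j
      unfold miss
      rw [Finset.card_filter]
      refine Finset.sum_congr rfl fun t _ => ?_
      congr
    rw [Finset.sum_congr rfl fun j _ => e1 j, Finset.sum_comm]
    have e2 : ∀ t : S × S, (∑ j ∈ range J,
        if (t.1 ≠ t.2 ∧ ∀ i, ¬ R j i t.1 t.2 ∧ ¬ R j i t.2 t.1) then 1 else 0) ≤ 1 := by
      intro t
      rw [← Finset.card_filter, Finset.card_le_one]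
      intro j1 hj1 j2 hj2
      rw [Finset.mem_filter, Finset.mem_range] at hj1 hj2
      have hne : (t.1 : Pt) ≠ t.2 := fun h => hj1.2.1 (Subtype.ext h)
      have conv : ∀ j, (∀ i, ¬ R j i t.1 t.2 ∧ ¬ R j i t.2 t.1) → ∀ i < k,
          ¬ (i * J ≤ gsh (k * J) j (full t.1 t.2) ∧
            gsh (k * J) j (full t.1 t.2) + 1 < i * J + J) ∧
          ¬ (i * J ≤ gsh (k * J) j (full t.2 t.1) ∧
            gsh (k * J) j (full t.2 t.1) + 1 < i * J + J) := by
        intro j hj i hi
        refine ⟨fun h => (hj ⟨i, hi⟩).1 ⟨hne, h⟩, fun h => (hj ⟨i, hi⟩).2 ⟨hne.symm, h⟩⟩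
      have d1 := miss_dvd k J j1 (full t.1 t.2) (full t.2 t.1) hj1.1 hk (hf1 _ _ hne)
        (hf1 _ _ hne.symm) (hf2 _ _ hne) (conv j1 hj1.2.2)
      have d2 := miss_dvd k J j2 (full t.1 t.2) (full t.2 t.1) hj2.1 hk (hf1 _ _ hne)
        (hf1 _ _ hne.symm) (hf2 _ _ hne) (conv j2 hj2.2.2)
      have d3 := dvd_sub d2 d1
      have d4 : ((full t.1 t.2 : ℤ) + 1 - j2 - ((full t.1 t.2 : ℤ) + 1 - j1)) = (j1 : ℤ) - j2 := by
        ring
      rw [d4] at d3
      have d5 := Int.eq_zero_of_abs_lt_dvd d3 (by rw [abs_lt]; constructor <;> omega)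
      omega
    calc _ ≤ ∑ t : S × S, 1 := Finset.sum_le_sum fun t _ => e2 t
      _ = S.card ^ 2 := by
        rw [Finset.sum_const, Finset.card_univ, Fintype.card_prod, Fintype.card_coe]
        simp [sq]
  obtain ⟨j, hj, hjm⟩ : ∃ j ∈ range J, miss (R j) * J ≤ S.card ^ 2 := by
    by_contra hcon
    push Not at hcon
    have h1 : ∑ j ∈ range J, S.card ^ 2 < ∑ j ∈ range J, miss (R j) * J :=
      Finset.sum_lt_sum_of_nonempty ⟨0, Finset.mem_range.2 (by omega)⟩ hcon
    rw [Finset.sum_const, Finset.card_range, ← Finset.sum_mul, smul_eq_mul, mul_comm] at h1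
    exact absurd (Nat.mul_le_mul_right J hsum) (not_le.2 h1)
  rw [Finset.mem_range] at hj
  refine ⟨R j, ?_, hor j hj, fun i x y h => fun he => h.1 (congrArg _ he), huniq j, ?_⟩
  · intro i x y z h h'
    have hxz : x ≠ z := by
      rintro rfl
      exact hor j hj i i x y h h'
    refine ⟨hxz, ?_⟩
    have hxy := h.1
    have hyz := h'.1
    have a1 := hc1 _ _ hxy.symm
    have a2 := hc1 _ _ hyz
    have b1 := hc2 _ _ hxy.symm
    have b2 := hc2 _ _ hyz
    have cs := hcs _ _ hxy
    have s1 := (hψ _ _ hxy).2.2.2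
    have hJr : ((J : ℝ) - 1) * w = Real.pi / k - Real.pi / (k * J) := by
      have hk0 : (k : ℝ) ≠ 0 := by positivity
      have hJ0 : (J : ℝ) ≠ 0 := by positivity
      rw [hw]; push_cast; field_simp
    rw [hang _ _ _ hxy hyz.symm]
    have g1 := h.2
    have g2 := h'.2
    by_cases hs : σ (y : Pt) x = σ (y : Pt) z
    · rw [if_pos hs]
      have hs' : σ (x : Pt) y ≠ σ (y : Pt) z := by
        rw [← hs, s1]; cases σ (x : Pt) y <;> simp
      -- |α - β| ≥ N - (J - 2)
      have hab : c (y : Pt) x + k * J ≤ c (y : Pt) z + (J - 2) ∨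
          c (y : Pt) z + k * J ≤ c (y : Pt) x + (J - 2) := by
        rw [cs]
        rw [cs] at b1
        simp only [hfull, gsh] at g1 g2
        generalize c (x : Pt) y = α at *
        generalize c (y : Pt) z = β at *
        generalize k * J = N at *
        generalize (i : ℕ) * J = A at *
        revert g1 g2 hs'
        cases σ (x : Pt) y <;> cases σ (y : Pt) z <;> simp <;> split_ifs <;> omega
      have hJ2 : 2 ≤ J := by omega
      have key : ((k * J : ℕ) : ℝ) * w - (J - 1) * w < |ψ (y : Pt) x - ψ (y : Pt) z| := by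
        rcases hab with hab | hab
        · have e1 : (c (y : Pt) x : ℝ) + ((k * J : ℕ) : ℝ) ≤ c (y : Pt) z + (J - 2) := by
            have : c (y : Pt) x + k * J + 2 ≤ c (y : Pt) z + J := by omega
            have := (Nat.cast_le (α := ℝ)).2 this
            push_cast at this ⊢
            linarith
          have e2 := mul_le_mul_of_nonneg_right e1 hw0.le
          refine lt_of_lt_of_le ?_ (neg_le_abs _)
          nlinarith
        · have e1 : (c (y : Pt) z : ℝ) + ((k * J : ℕ) : ℝ) ≤ c (y : Pt) x + (J - 2) := by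
            have : c (y : Pt) z + k * J + 2 ≤ c (y : Pt) x + J := by omega
            have := (Nat.cast_le (α := ℝ)).2 this
            push_cast at this ⊢
            linarith
          have e2 := mul_le_mul_of_nonneg_right e1 hw0.le
          refine lt_of_lt_of_le ?_ (le_abs_self _)
          nlinarith
      rw [hNw, hJr] at key
      linarith
    · rw [if_neg hs]
      have hs' : σ (x : Pt) y = σ (y : Pt) z := by
        revert hs; rw [s1]; cases σ (x : Pt) y <;> cases σ (y : Pt) z <;> simp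
      have hab : c (y : Pt) x ≤ c (y : Pt) z + (J - 2) ∧
          c (y : Pt) z ≤ c (y : Pt) x + (J - 2) := by
        rw [cs]
        rw [cs] at b1
        simp only [hfull, gsh] at g1 g2
        generalize c (x : Pt) y = α at *
        generalize c (y : Pt) z = β at *
        generalize k * J = N at *
        generalize (i : ℕ) * J = A at *
        revert g1 g2 hs'
        cases σ (x : Pt) y <;> cases σ (y : Pt) z <;> simp <;> split_ifs <;> omega
      have hJ2 : 2 ≤ J := by omega
      have key : |ψ (y : Pt) x - ψ (y : Pt) z| < ((J : ℝ) - 1) * w := by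
        have e1 : (c (y : Pt) x : ℝ) ≤ c (y : Pt) z + (J - 2) := by
          have : c (y : Pt) x + 2 ≤ c (y : Pt) z + J := by omega
          have := (Nat.cast_le (α := ℝ)).2 this
          push_cast at this ⊢
          linarith
        have e1' : (c (y : Pt) z : ℝ) ≤ c (y : Pt) x + (J - 2) := by
          have : c (y : Pt) z + 2 ≤ c (y : Pt) x + J := by omega
          have := (Nat.cast_le (α := ℝ)).2 this
          push_cast at this ⊢
          linarith
        have e2 := mul_le_mul_of_nonneg_right e1 hw0.le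
        have e2' := mul_le_mul_of_nonneg_right e1' hw0.le
        rw [abs_lt]
        constructor <;> nlinarith
      rw [hJr] at key
      linarith
  · exact_mod_cast hjm

end Pool.Agent.MP_0af329_co.JF
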