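import Pool.Agent.MP_0af329_co.Upper
import Pool.Agent.MP_0af329_co.Clus
import Pool.Agent.MP_0af329_co.Final

set_option autoImplicit false

namespace Pool.Agent.MP_0af329_co.JF

open Finset EuclideanGeometry Filter Topology

/-- the unit vector of direction `t` -/
noncomputable def uv (t : ℝ) : Pt := !₂[Real.cos t, Real.sin t]

/-- The Erdős-Szekeres points: `m` collinear points, doubled `k - 1` times:
`t u(0) + ∑_{i < k-1} b_i L^(i+1) u((i+1)π/k)`. -/
noncomputable def esz (k m : ℕ) (L : ℝ) (x : (Fin (k - 1) → Bool) × Fin m) : Pt :=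
  ((x.2 : ℕ) : ℝ) • uv 0 +
    ∑ i : Fin (k - 1), (if x.1 i then L ^ ((i : ℕ) + 1) else 0) •
      uv ((((i : ℕ) : ℝ) + 1) * Real.pi / k)

/-- the same-cluster case -/
theorem esz_diff_same (k m : ℕ) (x y : (Fin (k - 1) → Bool) × Fin m) (h : x.1 = y.1) (L : ℝ) :
    esz k m L x - esz k m L y = (((x.2 : ℕ) : ℝ) - ((y.2 : ℕ) : ℝ)) • uv 0 := by
  unfold esz
  rw [h, sub_smul]
  abel

/-- ROW F17-C1a (corrected: a positive number `r`).  For `x ≠ y` the difference divided by the right power of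
`L` tends to `± r u(jπ/k)`, `r > 0`,
`j = 0` (same `b`, sign of `x.2 - y.2`) or `j = i + 1` with `i` the largest index with `x.1 i ≠ y.1 i`
(sign `+` iff `x.1 i`). -/
theorem esz_diff (k m : ℕ) (hk : 1 ≤ k) (x y : (Fin (k - 1) → Bool) × Fin m) (hxy : x ≠ y) :
    ∃ (j : Fin k) (s r : ℝ) (e : ℕ), 0 < r ∧ (s = 1 ∨ s = -1) ∧
      Tendsto (fun L : ℝ => (1 / L ^ e) • (esz k m L x - esz k m L y)) atTop
        (𝓝 ((s * r) • uv ((j : ℕ) * Real.pi / k))) ∧
      ((j : ℕ) = 0 → x.1 = y.1 ∧ (s = 1 ↔ y.2 < x.2)) ∧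
      (∀ h : (j : ℕ) ≠ 0, ∃ i : Fin (k - 1), (i : ℕ) + 1 = j ∧ x.1 i ≠ y.1 i ∧
        (s = 1 ↔ x.1 i = true)) := by
  by_cases h : x.1 = y.1
  · have h2 : x.2 ≠ y.2 := fun h2 => hxy (Prod.ext h h2)
    have h2' : ((x.2 : ℕ) : ℝ) ≠ ((y.2 : ℕ) : ℝ) := by
      intro h3
      apply h2
      exact Fin.ext (by exact_mod_cast h3)
    have key : ∀ s r : ℝ, s * r = ((x.2 : ℕ) : ℝ) - ((y.2 : ℕ) : ℝ) →
        Tendsto (fun L : ℝ => (1 / L ^ 0) • (esz k m L x - esz k m L y)) atTop
        (𝓝 ((s * r) • uv ((((⟨0, hk⟩ : Fin k) : ℕ) : ℝ) * Real.pi / k))) := by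
      intro s r hsr
      have e1 : (fun L : ℝ => (1 / L ^ 0) • (esz k m L x - esz k m L y)) = fun _ => (((x.2 : ℕ) : ℝ) - ((y.2 : ℕ) : ℝ)) • uv 0 := by
        funext L
        rw [esz_diff_same k m x y h]
        simp
      rw [e1, hsr]
      have e2 : ((((⟨0, hk⟩ : Fin k) : ℕ) : ℝ) * Real.pi / k) = 0 := by simp
      rw [e2]
      exact tendsto_const_nhds
    rcases lt_or_gt_of_ne h2 with h3 | h3
    · have h4 : ((x.2 : ℕ) : ℝ) < ((y.2 : ℕ) : ℝ) := by exact_mod_cast h3
      refine ⟨⟨0, hk⟩, -1, ((y.2 : ℕ) : ℝ) - ((x.2 : ℕ) : ℝ), 0, by linarith, Or.inr rfl, key _ _ (by ring), ?_, ?_⟩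
      · intro _
        refine ⟨h, ?_⟩
        constructor
        · intro h5
          norm_num at h5
        · intro h5
          exact absurd h5 (not_lt.2 h3.le)
      · intro h5
        exact absurd rfl h5
    · have h4 : ((y.2 : ℕ) : ℝ) < ((x.2 : ℕ) : ℝ) := by exact_mod_cast h3
      refine ⟨⟨0, hk⟩, 1, ((x.2 : ℕ) : ℝ) - ((y.2 : ℕ) : ℝ), 0, by linarith, Or.inl rfl, key _ _ (by ring), ?_, ?_⟩
      · intro _
        refine ⟨h, ?_⟩
        constructor
        · intro _
          exact h3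
        · intro _
          rfl
      · intro h5
        exact absurd rfl h5
  · -- the largest index where the two sequences differ
    have hne : (univ.filter (fun i : Fin (k - 1) => x.1 i ≠ y.1 i)).Nonempty := by
      by_contra h3
      rw [not_nonempty_iff_eq_empty, filter_eq_empty_iff] at h3
      apply h
      funext i
      have := h3 (mem_univ i)
      push Not at this
      exact this
    obtain ⟨i, hi⟩ : ∃ i, i = (univ.filter (fun i : Fin (k - 1) => x.1 i ≠ y.1 i)).max' hne := ⟨_, rfl⟩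
    have hi1 : x.1 i ≠ y.1 i := by
      have := max'_mem _ hne
      rw [← hi, mem_filter] at this
      exact this.2
    have hi2 : ∀ i' : Fin (k - 1), i < i' → x.1 i' = y.1 i' := by
      intro i' hi'
      by_contra h4
      have : i' ≤ i := by
        rw [hi]
        exact le_max' _ _ (by rw [mem_filter]; exact ⟨mem_univ _, h4⟩)
      exact absurd hi' (not_lt.2 this)
    have hik : (i : ℕ) + 1 < k := by
      have := i.2
      omega
    obtain ⟨s, hs⟩ : ∃ s : ℝ, s = if x.1 i = true then 1 else -1 := ⟨_, rfl⟩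
    refine ⟨⟨(i : ℕ) + 1, hik⟩, s, 1, (i : ℕ) + 1, one_pos, ?_, ?_, ?_, ?_⟩
    · rw [hs]
      split_ifs
      · exact Or.inl rfl
      · exact Or.inr rfl
    · have e1 : (fun L : ℝ => (1 / L ^ ((i : ℕ) + 1)) • (esz k m L x - esz k m L y)) =
          fun L : ℝ => ((1 / L ^ ((i : ℕ) + 1)) * (((x.2 : ℕ) : ℝ) - ((y.2 : ℕ) : ℝ))) • uv 0 +
            ∑ i' : Fin (k - 1), ((1 / L ^ ((i : ℕ) + 1)) * ((if x.1 i' then L ^ ((i' : ℕ) + 1) else 0) - (if y.1 i' then L ^ ((i' : ℕ) + 1) else 0))) •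
              uv ((((i' : ℕ) : ℝ) + 1) * Real.pi / k) := by
        funext L
        unfold esz
        have e2 : ∀ i' : Fin (k - 1), ((1 / L ^ ((i : ℕ) + 1)) * ((if x.1 i' then L ^ ((i' : ℕ) + 1) else 0) - (if y.1 i' then L ^ ((i' : ℕ) + 1) else 0))) •
              uv ((((i' : ℕ) : ℝ) + 1) * Real.pi / k) = (1 / L ^ ((i : ℕ) + 1)) • ((if x.1 i' then L ^ ((i' : ℕ) + 1) else 0) • uv ((((i' : ℕ) : ℝ) + 1) * Real.pi / k)) -
               (1 / L ^ ((i : ℕ) + 1)) • ((if y.1 i' then L ^ ((i' : ℕ) + 1) else 0) • uv ((((i' : ℕ) : ℝ) + 1) * Real.pi / k)) := by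
          intro i'
          rw [mul_sub, sub_smul, mul_smul, mul_smul]
        rw [sum_congr rfl (fun i' _ => e2 i'), sum_sub_distrib, ← smul_sum, ← smul_sum, mul_sub, sub_smul, mul_smul, mul_smul, smul_sub, smul_add, smul_add]
        abel
      rw [e1]
      have hpow : ∀ a : ℕ, a < (i : ℕ) + 1 → Tendsto (fun L : ℝ => (1 / L ^ ((i : ℕ) + 1)) * L ^ a) atTop (𝓝 0) := by
        intro a ha
        have e3 : (fun L : ℝ => (1 / L ^ ((i : ℕ) + 1)) * L ^ a) =ᶠ[atTop] fun L : ℝ => (L ^ ((i : ℕ) + 1 - a))⁻¹ := by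
          filter_upwards [eventually_gt_atTop (0 : ℝ)] with L hL
          have : L ^ ((i : ℕ) + 1) = L ^ ((i : ℕ) + 1 - a) * L ^ a := by
            rw [← pow_add]
            congr 1
            omega
          rw [this]
          field_simp
        rw [tendsto_congr' e3]
        apply Tendsto.inv_tendsto_atTop
        exact tendsto_pow_atTop (by omega)
      have h0 : Tendsto (fun L : ℝ => ((1 / L ^ ((i : ℕ) + 1)) * (((x.2 : ℕ) : ℝ) - ((y.2 : ℕ) : ℝ))) • uv 0) atTop (𝓝 0) := by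
        have := hpow 0 (by omega)
        have h1 : Tendsto (fun L : ℝ => (1 / L ^ ((i : ℕ) + 1)) * (((x.2 : ℕ) : ℝ) - ((y.2 : ℕ) : ℝ))) atTop (𝓝 (0 * (((x.2 : ℕ) : ℝ) - ((y.2 : ℕ) : ℝ)))) := by
          apply Tendsto.mul_const
          simpa using this
        rw [zero_mul] at h1
        have h2 := h1.smul_const (uv 0)
        rw [zero_smul] at h2
        exact h2
      have hsum : Tendsto (fun L : ℝ => ∑ i' : Fin (k - 1), ((1 / L ^ ((i : ℕ) + 1)) * ((if x.1 i' then L ^ ((i' : ℕ) + 1) else 0) - (if y.1 i' then L ^ ((i' : ℕ) + 1) else 0))) •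
              uv ((((i' : ℕ) : ℝ) + 1) * Real.pi / k)) atTop (𝓝 (∑ i' : Fin (k - 1), if i' = i then s • uv ((((i' : ℕ) : ℝ) + 1) * Real.pi / k) else 0)) := by
        apply tendsto_finsetSum
        intro i' _
        rcases lt_trichotomy i' i with h3 | h3 | h3
        · rw [if_neg (ne_of_lt h3)]
          have h4 := hpow ((i' : ℕ) + 1) (by
            have : (i' : ℕ) < (i : ℕ) := h3
            omega)
          have h5 : Tendsto (fun L : ℝ => (1 / L ^ ((i : ℕ) + 1)) * ((if x.1 i' then L ^ ((i' : ℕ) + 1) else 0) - (if y.1 i' then L ^ ((i' : ℕ) + 1) else 0))) atTop (𝓝 0) := by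
            have e4 : (fun L : ℝ => (1 / L ^ ((i : ℕ) + 1)) * ((if x.1 i' then L ^ ((i' : ℕ) + 1) else 0) - (if y.1 i' then L ^ ((i' : ℕ) + 1) else 0))) =
                fun L : ℝ => ((if x.1 i' then (1:ℝ) else 0) - (if y.1 i' then (1:ℝ) else 0)) * ((1 / L ^ ((i : ℕ) + 1)) * L ^ ((i' : ℕ) + 1)) := by
              funext L
              split_ifs <;> ring
            rw [e4]
            have := h4.const_mul ((if x.1 i' then (1:ℝ) else 0) - (if y.1 i' then (1:ℝ) else 0))
            rw [mul_zero] at this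
            exact this
          have h6 := h5.smul_const (uv ((((i' : ℕ) : ℝ) + 1) * Real.pi / k))
          rw [zero_smul] at h6
          exact h6
        · rw [if_pos h3, h3]
          have h5 : Tendsto (fun L : ℝ => (1 / L ^ ((i : ℕ) + 1)) * ((if x.1 i then L ^ ((i : ℕ) + 1) else 0) - (if y.1 i then L ^ ((i : ℕ) + 1) else 0))) atTop (𝓝 s) := by
            have e4 : (fun L : ℝ => (1 / L ^ ((i : ℕ) + 1)) * ((if x.1 i then L ^ ((i : ℕ) + 1) else 0) - (if y.1 i then L ^ ((i : ℕ) + 1) else 0))) =ᶠ[atTop]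
                fun _ : ℝ => s := by
              filter_upwards [eventually_gt_atTop (0 : ℝ)] with L hL
              have hL' : L ^ ((i : ℕ) + 1) ≠ 0 := by positivity
              rw [hs]
              cases hx : x.1 i <;> cases hy : y.1 i
              · exact absurd (hx.trans hy.symm) hi1
              · simp [hL']
              · simp [hL']
              · exact absurd (hx.trans hy.symm) hi1
            rw [tendsto_congr' e4]
            exact tendsto_const_nhds
          exact h5.smul_const _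
        · rw [if_neg (ne_of_gt h3), hi2 i' h3]
          simp
      have hlim := h0.add hsum
      rw [zero_add, sum_ite_eq' univ i, if_pos (mem_univ _)] at hlim
      rw [mul_one]
      have e5 : ((((⟨(i : ℕ) + 1, hik⟩ : Fin k) : ℕ) : ℝ) * Real.pi / k) = (((i : ℕ) : ℝ) + 1) * Real.pi / k := by
        push_cast
        rfl
      rw [e5]
      exact hlim
    · intro h5
      simp at h5
    · intro _
      refine ⟨i, rfl, hi1, ?_⟩
      rw [hs]
      split_ifs with h6
      · exact ⟨fun _ => h6, fun _ => rfl⟩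
      · constructor
        · intro h7
          norm_num at h7
        · intro h7
          exact absurd h7 h6

/-- the unit vectors -/
theorem inner_uv (a b : ℝ) : inner ℝ (uv a) (uv b) = Real.cos (a - b) := by
  unfold uv
  rw [Real.cos_sub, EuclideanSpace.inner_eq_star_dotProduct]
  simp [dotProduct, Fin.sum_univ_two]
  ring

theorem norm_uv (a : ℝ) : ‖uv a‖ = 1 := by
  have h := inner_uv a a
  rw [real_inner_self_eq_norm_sq, sub_self, Real.cos_zero] at h
  have h1 : 0 ≤ ‖uv a‖ := norm_nonneg _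
  nlinarith

theorem angle_uv (a b : ℝ) (h : |a - b| ≤ Real.pi) : InnerProductGeometry.angle (uv a) (uv b) = |a - b| := by
  unfold InnerProductGeometry.angle
  rw [inner_uv, norm_uv, norm_uv, mul_one, div_one, ← Real.cos_abs, Real.arccos_cos (abs_nonneg _) h]

theorem uv_ne (a : ℝ) : uv a ≠ 0 := by
  intro h
  have := norm_uv a
  rw [h, norm_zero] at this
  exact zero_ne_one this

theorem angle_lim {V : Type*} [NormedAddCommGroup V] [InnerProductSpace ℝ V] {f g : ℝ → V} {v w : V} (hv : v ≠ 0) (hw : w ≠ 0)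
    (hf : Tendsto f atTop (𝓝 v)) (hg : Tendsto g atTop (𝓝 w)) :
    Tendsto (fun L => InnerProductGeometry.angle (f L) (g L)) atTop (𝓝 (InnerProductGeometry.angle v w)) := by
  have hc := InnerProductGeometry.continuousAt_angle (x := (v, w)) hv hw
  have h := Filter.Tendsto.comp (g := fun y : V × V => InnerProductGeometry.angle y.1 y.2) (f := fun L => (f L, g L))
    hc.tendsto (hf.prodMk_nhds hg)
  exact h

theorem angle_same (s s' r r' α β : ℝ) (hr : 0 < r) (hr' : 0 < r') (hs : s = 1 ∨ s = -1) (hss : s = s') (h : |α - β| ≤ Real.pi) :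
    InnerProductGeometry.angle ((s * r) • uv α) ((s' * r') • uv β) = |α - β| := by
  rw [mul_comm s r, mul_comm s' r', mul_smul, mul_smul, InnerProductGeometry.angle_smul_left_of_pos _ _ hr,
    InnerProductGeometry.angle_smul_right_of_pos _ _ hr', ← hss]
  rcases hs with h1 | h1
  · rw [h1, one_smul, one_smul]
    exact angle_uv _ _ h
  · rw [h1, neg_one_smul, neg_one_smul, InnerProductGeometry.angle_neg_neg]
    exact angle_uv _ _ h

theorem angle_diff (s s' r r' α β : ℝ) (hr : 0 < r) (hr' : 0 < r') (hs : s = 1 ∨ s = -1) (hs' : s' = 1 ∨ s' = -1) (hss : s ≠ s')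
    (h : |α - β| ≤ Real.pi) :
    InnerProductGeometry.angle ((s * r) • uv α) ((s' * r') • uv β) = Real.pi - |α - β| := by
  rw [mul_comm s r, mul_comm s' r', mul_smul, mul_smul, InnerProductGeometry.angle_smul_left_of_pos _ _ hr,
    InnerProductGeometry.angle_smul_right_of_pos _ _ hr']
  rcases hs with h1 | h1 <;> rcases hs' with h2 | h2
  · exact absurd (h1.trans h2.symm) hss
  · rw [h1, h2, one_smul, neg_one_smul, InnerProductGeometry.angle_neg_right, angle_uv _ _ h]
  · rw [h1, h2, one_smul, neg_one_smul, InnerProductGeometry.angle_neg_left, angle_uv _ _ h]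
  · exact absurd (h1.trans h2.symm) hss

/-- the limit angle is small, cell by cell -/
theorem angle_cases (k : ℕ) (hk : 1 ≤ k) (a : ℝ) (ha : Real.pi - Real.pi / k < a) (j j' : ℕ) (hj : j < k) (hj' : j' < k)
    (s s' r r' : ℝ) (hr : 0 < r) (hr' : 0 < r') (hs : s = 1 ∨ s = -1) (hs' : s' = 1 ∨ s' = -1) (hjs : j = j' → s = s') :
    InnerProductGeometry.angle ((s * r) • uv ((j : ℝ) * Real.pi / k)) ((s' * r') • uv ((j' : ℝ) * Real.pi / k)) < a := by
  have hkR : (1 : ℝ) ≤ (k : ℝ) := by exact_mod_cast hk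
  have hpi := Real.pi_pos
  have hpk : 0 < Real.pi / k := by positivity
  have hpk1 : k * (Real.pi / k) = Real.pi := by field_simp
  have hjk : (j : ℝ) ≤ k - 1 := by
    have h2 : j + 1 ≤ k := hj
    have : (j : ℝ) + 1 ≤ k := by exact_mod_cast h2
    linarith
  have hjk' : (j' : ℝ) ≤ k - 1 := by
    have h2 : j' + 1 ≤ k := hj'
    have : (j' : ℝ) + 1 ≤ k := by exact_mod_cast h2
    linarith
  have hj0 : (0 : ℝ) ≤ (j : ℝ) := by positivity
  have hj0' : (0 : ℝ) ≤ (j' : ℝ) := by positivity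
  have hd' : |(j : ℝ) * Real.pi / k - (j' : ℝ) * Real.pi / k| = |(j : ℝ) - (j' : ℝ)| * (Real.pi / k) := by
    have e : (j : ℝ) * Real.pi / k - (j' : ℝ) * Real.pi / k = ((j : ℝ) - (j' : ℝ)) * (Real.pi / k) := by ring
    rw [e, abs_mul, abs_of_pos hpk]
  have hda : |(j : ℝ) - (j' : ℝ)| ≤ k - 1 := by
    rw [abs_le]
    constructor <;> linarith
  have hdle : |(j : ℝ) * Real.pi / k - (j' : ℝ) * Real.pi / k| ≤ Real.pi - Real.pi / k := by
    rw [hd']
    have := mul_le_mul_of_nonneg_right hda hpk.le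
    linarith
  have hdpi : |(j : ℝ) * Real.pi / k - (j' : ℝ) * Real.pi / k| ≤ Real.pi := by linarith
  by_cases hss : s = s'
  · rw [angle_same s s' r r' _ _ hr hr' hs hss hdpi]
    linarith
  · rw [angle_diff s s' r r' _ _ hr hr' hs hs' hss hdpi]
    have hjj : j ≠ j' := fun h => hss (hjs h)
    have h2 : (1 : ℝ) ≤ |(j : ℝ) - (j' : ℝ)| := by
      rcases lt_or_gt_of_ne hjj with h4 | h4
      · have : (j : ℝ) + 1 ≤ (j' : ℝ) := by exact_mod_cast h4
        rw [abs_sub_comm]
        exact le_trans (by linarith) (le_abs_self _)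
      · have : (j' : ℝ) + 1 ≤ (j : ℝ) := by exact_mod_cast h4
        exact le_trans (by linarith) (le_abs_self _)
    have := mul_le_mul_of_nonneg_right h2 hpk.le
    rw [hd']
    linarith

/-- the sign bookkeeping of the three points -/
theorem sign_cases (k m : ℕ) (x y z : (Fin (k - 1) → Bool) × Fin m) (hxy : x ≠ y) (hzy : z ≠ y)
    (hne : ¬ (x.1 = y.1 ∧ z.1 = y.1 ∧ ((x.2 < y.2 ∧ y.2 < z.2) ∨ (z.2 < y.2 ∧ y.2 < x.2))))
    (j j' : ℕ) (s s' : ℝ) (hs : s = 1 ∨ s = -1) (hs' : s' = 1 ∨ s' = -1)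
    (h0 : j = 0 → x.1 = y.1 ∧ (s = 1 ↔ y.2 < x.2)) (h0' : j' = 0 → z.1 = y.1 ∧ (s' = 1 ↔ y.2 < z.2))
    (h1 : j ≠ 0 → ∃ i : Fin (k - 1), (i : ℕ) + 1 = j ∧ x.1 i ≠ y.1 i ∧ (s = 1 ↔ x.1 i = true))
    (h1' : j' ≠ 0 → ∃ i : Fin (k - 1), (i : ℕ) + 1 = j' ∧ z.1 i ≠ y.1 i ∧ (s' = 1 ↔ z.1 i = true))
    (hjj : j = j') : s = s' := by
  have key : (s = 1 ↔ s' = 1) := by
    by_cases hj : j = 0
    · obtain ⟨g1, g2⟩ := h0 hj
      obtain ⟨g1', g2'⟩ := h0' (hjj.symm.trans hj)
      have n1 : x.2 ≠ y.2 := fun h => hxy (Prod.ext g1 h)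
      have n2 : z.2 ≠ y.2 := fun h => hzy (Prod.ext g1' h)
      rw [g2, g2']
      constructor
      · intro h3
        rcases lt_or_gt_of_ne n2 with h4 | h4
        · exact absurd ⟨g1, g1', Or.inr ⟨h4, h3⟩⟩ hne
        · exact h4
      · intro h3
        rcases lt_or_gt_of_ne n1 with h4 | h4
        · exact absurd ⟨g1, g1', Or.inl ⟨h4, h3⟩⟩ hne
        · exact h4
    · obtain ⟨i, g1, g2, g3⟩ := h1 hj
      obtain ⟨i', g1', g2', g3'⟩ := h1' (fun h => hj (hjj.trans h))
      have hii : i = i' := by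
        apply Fin.ext
        omega
      subst hii
      rw [g3, g3']
      revert g2 g2'
      cases x.1 i <;> cases z.1 i <;> cases y.1 i <;> simp
  rcases hs with h | h <;> rcases hs' with h' | h'
  · rw [h, h']
  · have := key.1 h
    rw [h'] at this
    norm_num at this
  · have := key.2 h'
    rw [h] at this
    norm_num at this
  · rw [h, h']

/-- ROW F17-C1b.  For distinct `x, y, z`, unless they are in the same cluster with `y` between `x` and
`z`, eventually `∠ < a`.  PROOF.  By `esz_diff` for `(x, y)` and `(z, y)`, `angle_smul_left_of_pos` and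
continuity of `InnerProductGeometry.angle` at nonzero vectors the angle tends to the angle
between `s u(jπ/k)` and `s' u(j'π/k)`.  If `j ≠ j'` this is `|j - j'|π/k` or `π - |j - j'|π/k`, at most
`π - π/k < a`; if `j = j'`, `s = s'` it is `0 < a`; if `j = j'`, `s = - s'`: for `j ≥ 1` impossible (`y.1 i` would
be both false and true), for `j = 0` the excluded case. -/
theorem esz_angle (k m : ℕ) (hk : 1 ≤ k) (a : ℝ) (ha : Real.pi - Real.pi / k < a)
    (x y z : (Fin (k - 1) → Bool) × Fin m) (hxy : x ≠ y) (hzy : z ≠ y)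
    (hne : ¬ (x.1 = y.1 ∧ z.1 = y.1 ∧ ((x.2 < y.2 ∧ y.2 < z.2) ∨ (z.2 < y.2 ∧ y.2 < x.2)))) :
    ∀ᶠ L : ℝ in atTop, ∠ (esz k m L x) (esz k m L y) (esz k m L z) < a := by
  obtain ⟨j, s, r, e, hr, hs, hlim, h0, h1⟩ := esz_diff k m hk x y hxy
  obtain ⟨j', s', r', e', hr', hs', hlim', h0', h1'⟩ := esz_diff k m hk z y hzy
  have hs0 : s ≠ 0 := by rcases hs with h | h <;> rw [h] <;> norm_num
  have hs0' : s' ≠ 0 := by rcases hs' with h | h <;> rw [h] <;> norm_num
  have hT := angle_lim (smul_ne_zero (mul_ne_zero hs0 hr.ne') (uv_ne _)) (smul_ne_zero (mul_ne_zero hs0' hr'.ne') (uv_ne _)) hlim hlim'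
  have hlt := angle_cases k hk a ha j j' j.2 j'.2 s s' r r' hr hr' hs hs'
    (sign_cases k m x y z hxy hzy hne j j' s s' hs hs' h0 h0' h1 h1')
  have hev := hT.eventually_lt_const hlt
  filter_upwards [hev, eventually_gt_atTop (0 : ℝ)] with L hL1 hL
  rw [InnerProductGeometry.angle_smul_left_of_pos _ _ (by positivity), InnerProductGeometry.angle_smul_right_of_pos _ _ (by positivity)] at hL1
  exact hL1

theorem C1c_uv_ne (t : ℝ) : uv t ≠ 0 := by
  intro h
  have h0 : uv t 0 = 0 := by rw [h]; rfl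
  have h1 : uv t 1 = 0 := by rw [h]; rfl
  have e0 : uv t 0 = Real.cos t := by simp [uv]
  have e1 : uv t 1 = Real.sin t := by simp [uv]
  rw [e0] at h0
  rw [e1] at h1
  have := Real.cos_sq_add_sin_sq t
  rw [h0, h1] at this
  norm_num at this

theorem C1c_inj (k m : ℕ) (hk : 1 ≤ k) (x y : (Fin (k - 1) → Bool) × Fin m) (hxy : x ≠ y) :
    ∀ᶠ L : ℝ in atTop, esz k m L x ≠ esz k m L y := by
  obtain ⟨j, s, r, e, hr, hs, hlim, -, -⟩ := esz_diff k m hk x y hxy
  have hne : (s * r) • uv ((j : ℕ) * Real.pi / k) ≠ 0 := by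
    apply smul_ne_zero
    · apply mul_ne_zero _ hr.ne'
      rcases hs with h | h <;> rw [h] <;> norm_num
    · exact C1c_uv_ne _
  have h1 := hlim.eventually_ne hne
  filter_upwards [h1] with L hL heq
  apply hL
  rw [heq, sub_self, smul_zero]

/-- ROW F17-C1c.  PROOF.  `dens_le` (Lim.lean) with `2^(k-1)` clusters: choose `L` with `esz_angle` for all
triples and `esz` injective (eventually, from `esz_diff`: the limit is not `0`), then move the points into general position
(`exists_eps`, `exists_cluster` of Clus.lean, with `U = Iio a`); as in Upper.lean (`tr3`,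
`three_mul_btw`, `card_tr3_le`) at most `2^(k-1) * m^3 / 3` ordered triples have angle `≥ a`, and
`2^(k-1) m³/3 = (1/(3·4^(k-1))) (2^(k-1) m)³`. -/
theorem F_le_four (k : ℕ) (hk : 1 ≤ k) (a : ℝ) (ha : Real.pi - Real.pi / k < a) :
    F a ≤ 1 / (3 * 4 ^ (k - 1)) := by
  classical
  refine dens_le _ _ (2 ^ (k - 1)) (by positivity) fun m _ => ?_
  -- choice of `L`
  have hev : ∀ᶠ L : ℝ in atTop, (∀ x y : (Fin (k - 1) → Bool) × Fin m, x ≠ y →
      esz k m L x ≠ esz k m L y) ∧
      ∀ x y z : (Fin (k - 1) → Bool) × Fin m, x ≠ y → z ≠ y →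
      ¬ (x.1 = y.1 ∧ z.1 = y.1 ∧ ((x.2 < y.2 ∧ y.2 < z.2) ∨ (z.2 < y.2 ∧ y.2 < x.2))) →
      ∠ (esz k m L x) (esz k m L y) (esz k m L z) < a := by
    apply Filter.Eventually.and
    · rw [Filter.eventually_all]
      intro x
      rw [Filter.eventually_all]
      intro y
      by_cases hxy : x = y
      · exact Filter.Eventually.of_forall fun L h => absurd hxy h
      · filter_upwards [C1c_inj k m hk x y hxy] with L hL _
        exact hL
    · rw [Filter.eventually_all]
      intro x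
      rw [Filter.eventually_all]
      intro y
      rw [Filter.eventually_all]
      intro z
      by_cases hxy : x = y
      · exact Filter.Eventually.of_forall fun L h => absurd hxy h
      by_cases hzy : z = y
      · exact Filter.Eventually.of_forall fun L _ h => absurd hzy h
      by_cases hne : ¬ (x.1 = y.1 ∧ z.1 = y.1 ∧ ((x.2 < y.2 ∧ y.2 < z.2) ∨ (z.2 < y.2 ∧ y.2 < x.2)))
      · filter_upwards [esz_angle k m hk a ha x y z hxy hzy hne] with L hL _ _ _
        exact hL
      · exact Filter.Eventually.of_forall fun L _ _ h => absurd h hne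
  obtain ⟨L, hinj, hang⟩ := hev.exists
  obtain ⟨ε, hε, hpert⟩ := exists_eps (Finset.univ.image (esz k m L)) (Set.Iio a) isOpen_Iio
  have hcardι : Fintype.card ((Fin (k - 1) → Bool) × Fin m) = 2 ^ (k - 1) * m := by
    rw [Fintype.card_prod, Fintype.card_fun, Fintype.card_bool, Fintype.card_fin, Fintype.card_fin]
  obtain ⟨q, hq, hgen, hd⟩ := exists_cluster
    (fun i => esz k m L ((Fintype.equivFin ((Fin (k - 1) → Bool) × Fin m)).symm i)) ε hε
  set eq := Fintype.equivFin ((Fin (k - 1) → Bool) × Fin m) with heq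
  set p : (Fin (k - 1) → Bool) × Fin m → Pt := fun x => q (eq x) with hp
  have hpinj : Function.Injective p := hq.comp eq.injective
  have himg : (Finset.univ.image q : Finset Pt) = Finset.univ.image p := by
    ext t
    simp only [Finset.mem_image, Finset.mem_univ, true_and]
    constructor
    · rintro ⟨i, rfl⟩
      exact ⟨eq.symm i, by simp [hp]⟩
    · rintro ⟨x, rfl⟩
      exact ⟨eq x, rfl⟩
  rw [himg] at hgen
  have hdp : ∀ x, dist (p x) (esz k m L x) < ε := by
    intro x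
    have := hd (eq x)
    simpa [hp] using this
  refine ⟨Finset.univ.image p, ?_, hgen, ?_⟩
  · rw [Finset.card_image_of_injective _ hpinj, Finset.card_univ, hcardι]
  let I2 : Finset ((Fin (k - 1) → Bool) × (Fin m × Fin m × Fin m)) :=
    Finset.univ ×ˢ ((tr3 m).filter fun t => Btw t.1 t.2.1 t.2.2)
  have hsub : ((trip (Finset.univ.image p)).filter fun t =>
      ∠ t.1 t.2.1 t.2.2 ∈ Set.Ioi a) ⊆
      I2.image (fun s => (p (s.1, s.2.1), p (s.1, s.2.2.1), p (s.1, s.2.2.2))) := by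
    intro t ht
    rw [Finset.mem_filter] at ht
    obtain ⟨ht1, ht2⟩ := ht
    obtain ⟨t1, t2, t3⟩ := t
    rw [mem_trip] at ht1
    simp only [Finset.mem_image, Finset.mem_univ, true_and] at ht1
    obtain ⟨⟨⟨⟨x1, x2⟩, rfl⟩, ⟨⟨y1, y2⟩, rfl⟩, ⟨⟨z1, z2⟩, rfl⟩⟩, hxy, hyz, hxz⟩ := ht1
    have hxy' : ((x1, x2) : (Fin (k - 1) → Bool) × Fin m) ≠ (y1, y2) := fun h => hxy (by rw [h])
    have hyz' : ((y1, y2) : (Fin (k - 1) → Bool) × Fin m) ≠ (z1, z2) := fun h => hyz (by rw [h])
    have hxz' : ((x1, x2) : (Fin (k - 1) → Bool) × Fin m) ≠ (z1, z2) := fun h => hxz (by rw [h])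
    have ht2' : a < ∠ (p (x1, x2)) (p (y1, y2)) (p (z1, z2)) := ht2
    by_cases hex : x1 = y1 ∧ z1 = y1 ∧ ((x2 < y2 ∧ y2 < z2) ∨ (z2 < y2 ∧ y2 < x2))
    · obtain ⟨rfl, rfl, hb⟩ := hex
      rw [Finset.mem_image]
      refine ⟨(z1, (x2, y2, z2)), ?_, rfl⟩
      simp only [I2, Finset.mem_product, Finset.mem_univ, true_and, Finset.mem_filter, tr3]
      exact ⟨⟨fun h => hxy' (by rw [h]), fun h => hyz' (by rw [h]), fun h => hxz' (by rw [h])⟩, hb⟩
    · exfalso
      have h1 := hang (x1, x2) (y1, y2) (z1, z2) hxy' hyz'.symm hex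
      have h2 := hpert (esz k m L (x1, x2)) (Finset.mem_image_of_mem _ (Finset.mem_univ _))
        (esz k m L (y1, y2)) (Finset.mem_image_of_mem _ (Finset.mem_univ _))
        (esz k m L (z1, z2)) (Finset.mem_image_of_mem _ (Finset.mem_univ _))
        (hinj _ _ hxy') (hinj _ _ hyz') (hinj _ _ hxz') h1 _ _ _ (hdp _) (hdp _) (hdp _)
      have h3 : ∠ (p (x1, x2)) (p (y1, y2)) (p (z1, z2)) < a := h2
      linarith
  have hcard : cnt (Finset.univ.image p) (Set.Ioi a) ≤ I2.card := by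
    have h1 : cnt (Finset.univ.image p) (Set.Ioi a) =
        ((trip (Finset.univ.image p)).filter fun t => ∠ t.1 t.2.1 t.2.2 ∈ Set.Ioi a).card := by
      rw [cnt]
      congr 1
    rw [h1]
    exact (Finset.card_le_card hsub).trans Finset.card_image_le
  have hI2 : 3 * (I2.card : ℝ) ≤ 2 ^ (k - 1) * (m : ℝ) ^ 3 := by
    have h1 : 3 * I2.card = 2 ^ (k - 1) * (tr3 m).card := by
      simp only [I2, Finset.card_product, Finset.card_univ, Fintype.card_fun, Fintype.card_bool,
        Fintype.card_fin]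
      rw [← three_mul_btw]
      ring
    have h2 := card_tr3_le m
    have h3 : 3 * I2.card ≤ 2 ^ (k - 1) * m ^ 3 := by
      rw [h1]
      exact Nat.mul_le_mul_left _ h2
    have h4 : ((3 * I2.card : ℕ) : ℝ) ≤ ((2 ^ (k - 1) * m ^ 3 : ℕ) : ℝ) := by exact_mod_cast h3
    push_cast at h4
    linarith
  have h1 : (cnt (Finset.univ.image p) (Set.Ioi a) : ℝ) ≤ I2.card := by
    exact_mod_cast hcard
  have h2 : (1 / (3 * (4 : ℝ) ^ (k - 1))) * (((2 ^ (k - 1) : ℕ) : ℝ) * m) ^ 3 =
      2 ^ (k - 1) * (m : ℝ) ^ 3 / 3 := by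
    have h4 : (4 : ℝ) ^ (k - 1) = 2 ^ (k - 1) * 2 ^ (k - 1) := by
      rw [← mul_pow]; norm_num
    rw [h4]
    push_cast
    field_simp
  rw [h2]
  linarith

end Pool.Agent.MP_0af329_co.JF
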