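import Pool.Agent.MP_0af329_co.JA8
import Pool.Agent.MP_0af329_co.JB1
import Pool.Agent.MP_0af329_co.JC1
import Pool.Agent.MP_0af329_co.Final

set_option autoImplicit false

namespace Pool.Agent.MP_0af329_co.JF

open Finset EuclideanGeometry Filter Topology

open Classical in
private theorem pth_eq_card {V : Type} [Fintype V] {K : ℕ} (R : Fin K → V → V → Prop) :
    pth R = ((univ.filter fun w : V × Fin K × V × V =>
      R w.2.1 w.2.2.1 w.1 ∧ R w.2.1 w.1 w.2.2.2).card : ℝ) := by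
  rw [Finset.card_filter]
  push_cast
  rw [Fintype.sum_prod_type]
  unfold pth
  refine Finset.sum_congr rfl fun v _ => ?_
  rw [Fintype.sum_prod_type]
  refine Finset.sum_congr rfl fun i _ => ?_
  rw [Fintype.sum_prod_type]
  unfold ind outd
  rw [Finset.card_filter, Finset.card_filter]
  push_cast
  rw [Finset.sum_mul_sum]
  refine Finset.sum_congr rfl fun x _ => Finset.sum_congr rfl fun z _ => ?_
  by_cases h1 : R i x v <;> by_cases h2 : R i v z <;> simp [h1, h2]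

/-- ROW F17-B2a.  The paths give big angles, each counted twice.
PROOF.  `pth R` is the number of triples `(x, v, z)` with `∃ i, R i x v ∧ R i v z` (unique `i`); the map
`(x, v, z) ↦ (x, v, z)` and the reversed triples `(z, v, x)` are disjoint (orientation) subsets of
the set counted by `cnt`. -/
theorem two_mul_pth_le_cnt (S : Finset Pt) (k : ℕ) (a : ℝ) (R : Fin k → S → S → Prop)
    (h1 : ∀ i x y z, R i x y → R i y z → x ≠ z ∧ a < ∠ (x : Pt) (y : Pt) (z : Pt))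
    (h2 : ∀ i j x y, R i x y → ¬ R j y x) (h3 : ∀ i x y, R i x y → x ≠ y)
    (h4 : ∀ i j x y, R i x y → R j x y → i = j) :
    2 * pth R ≤ cnt S (Set.Ioi a) := by
  classical
  rw [pth_eq_card]
  set W := (univ.filter fun w : S × Fin k × S × S =>
      R w.2.1 w.2.2.1 w.1 ∧ R w.2.1 w.1 w.2.2.2) with hW
  have hmem : ∀ w, w ∈ W ↔ (R w.2.1 w.2.2.1 w.1 ∧ R w.2.1 w.1 w.2.2.2) := by
    intro w
    simp [hW]
  let f : S × Fin k × S × S → Pt × Pt × Pt := fun w => ((w.2.2.1 : Pt), (w.1 : Pt), (w.2.2.2 : Pt))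
  let g : S × Fin k × S × S → Pt × Pt × Pt := fun w => ((w.2.2.2 : Pt), (w.1 : Pt), (w.2.2.1 : Pt))
  have hf : Set.InjOn f W := by
    rintro ⟨v, i, x, z⟩ hw ⟨v', i', x', z'⟩ hw' h
    rw [Finset.mem_coe, hmem] at hw hw'
    simp only [f, Prod.mk.injEq] at h
    obtain ⟨e1, e2, e3⟩ := h
    have e1' := Subtype.ext e1
    have e2' := Subtype.ext e2
    have e3' := Subtype.ext e3
    simp only at e1' e2' e3' hw hw'
    subst e1' e2' e3'
    have := h4 _ _ _ _ hw.1 hw'.1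
    subst this
    rfl
  have hg : Set.InjOn g W := by
    rintro ⟨v, i, x, z⟩ hw ⟨v', i', x', z'⟩ hw' h
    rw [Finset.mem_coe, hmem] at hw hw'
    simp only [g, Prod.mk.injEq] at h
    obtain ⟨e1, e2, e3⟩ := h
    have e1' := Subtype.ext e1
    have e2' := Subtype.ext e2
    have e3' := Subtype.ext e3
    simp only at e1' e2' e3' hw hw'
    subst e1' e2' e3'
    have := h4 _ _ _ _ hw.1 hw'.1
    subst this
    rfl
  have hd : Disjoint (W.image f) (W.image g) := by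
    rw [Finset.disjoint_left]
    intro t ht ht'
    rw [Finset.mem_image] at ht ht'
    obtain ⟨⟨v, i, x, z⟩, hw, rfl⟩ := ht
    obtain ⟨⟨v', i', x', z'⟩, hw', h⟩ := ht'
    rw [hmem] at hw hw'
    simp only [f, g, Prod.mk.injEq] at h
    obtain ⟨e1, e2, e3⟩ := h
    have e1' := Subtype.ext e1
    have e2' := Subtype.ext e2
    simp only at e1' e2' hw hw'
    subst e1' e2'
    exact h2 _ _ _ _ hw.1 hw'.2
  have hsub : W.image f ∪ W.image g ⊆
      (trip S).filter fun t => EuclideanGeometry.angle t.1 t.2.1 t.2.2 ∈ Set.Ioi a := by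
    intro t ht
    rw [Finset.mem_union, Finset.mem_image, Finset.mem_image] at ht
    rcases ht with ⟨⟨v, i, x, z⟩, hw, rfl⟩ | ⟨⟨v, i, x, z⟩, hw, rfl⟩
    · rw [hmem] at hw
      obtain ⟨n1, n2⟩ := h1 _ _ _ _ hw.1 hw.2
      have n3 := h3 _ _ _ hw.1
      have n4 := h3 _ _ _ hw.2
      rw [Finset.mem_filter]
      refine ⟨mem_trip.2 ⟨⟨x.2, v.2, z.2⟩, fun h => n3 (Subtype.ext h),
        fun h => n4 (Subtype.ext h), fun h => n1 (Subtype.ext h)⟩, n2⟩
    · rw [hmem] at hw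
      obtain ⟨n1, n2⟩ := h1 _ _ _ _ hw.1 hw.2
      have n3 := h3 _ _ _ hw.1
      have n4 := h3 _ _ _ hw.2
      rw [Finset.mem_filter]
      refine ⟨mem_trip.2 ⟨⟨z.2, v.2, x.2⟩, fun h => n4 (Subtype.ext h.symm),
        fun h => n3 (Subtype.ext h.symm), fun h => n1 (Subtype.ext h.symm)⟩, ?_⟩
      rw [Set.mem_Ioi]
      change a < ∠ (z : Pt) (v : Pt) (x : Pt)
      rw [EuclideanGeometry.angle_comm]
      exact n2
  have hc := Finset.card_le_card hsub
  rw [Finset.card_union_of_disjoint hd, Finset.card_image_of_injOn hf,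
    Finset.card_image_of_injOn hg] at hc
  have : W.card + W.card ≤ cnt S (Set.Ioi a) := by
    unfold cnt
    refine hc.trans (le_of_eq ?_)
    congr
  have h' : ((W.card + W.card : ℕ) : ℝ) ≤ (cnt S (Set.Ioi a) : ℝ) := by exact_mod_cast this
  push_cast at h'
  linarith



/-- ROW F17-B2b.  `le_dens` (Lim.lean) with `paths`, `exists_sectors`, `two_mul_pth_le_cnt`:
`cnt ≥ 2 pth ≥ n³/(3·4^(k-1)) - n (n + n²/J)/2^(k-1)`. -/
theorem le_F_right (k J : ℕ) (hk : 1 ≤ k) (hJ : 1 ≤ J) :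
    1 / (3 * 4 ^ (k - 1)) - 1 / (2 ^ (k - 1) * J) ≤
      F (Real.pi - Real.pi / k + Real.pi / (k * J)) := by
  have hJ0 : (0 : ℝ) < J := by exact_mod_cast hJ
  have h4 : (0 : ℝ) < 4 ^ (k - 1) := by positivity
  have h2 : (0 : ℝ) < 2 ^ (k - 1) := by positivity
  refine le_dens _ _ (1 / 2 ^ (k - 1) + 3 * (1 / (2 ^ (k - 1) * J))) ?_
  intro S _ hS
  obtain ⟨R, r1, r2, r3, r4, r5⟩ := exists_sectors S k J hk hJ
  have hc := two_mul_pth_le_cnt S k _ R r1 r2 r3 r4
  have hp := paths k hk R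
  rw [Fintype.card_coe] at hp
  have hn : (3 : ℝ) ≤ S.card := by exact_mod_cast hS
  generalize hnn : (S.card : ℝ) = n at *
  generalize (miss R : ℝ) = m at *
  generalize pth R = p at *
  generalize ((cnt S (Set.Ioi (Real.pi - Real.pi / k + Real.pi / (k * J))) : ℕ) : ℝ) = q at *
  have hm : m ≤ n ^ 2 / J := by
    rw [le_div_iff₀ hJ0]
    exact r5
  have hA : 0 < 1 / (3 * (4 : ℝ) ^ (k - 1)) := by positivity
  have hB : 0 < 1 / (2 : ℝ) ^ (k - 1) := by positivity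
  have hD : 0 < 1 / ((2 : ℝ) ^ (k - 1) * J) := by positivity
  have e1 : 2 * (n ^ 3 / (6 * 4 ^ (k - 1))) = 1 / (3 * (4 : ℝ) ^ (k - 1)) * n ^ 3 := by
    field_simp
    ring
  have e2 : 2 * (n * (n + m) / (2 * 2 ^ (k - 1))) = 1 / (2 : ℝ) ^ (k - 1) * (n * (n + m)) := by
    field_simp
  have e3 : 1 / (2 : ℝ) ^ (k - 1) * (n * (n ^ 2 / J)) =
      1 / ((2 : ℝ) ^ (k - 1) * J) * n ^ 3 := by
    field_simp
  have h5 : 1 / (2 : ℝ) ^ (k - 1) * (n * (n + m)) ≤
      1 / (2 : ℝ) ^ (k - 1) * n ^ 2 + 1 / ((2 : ℝ) ^ (k - 1) * J) * n ^ 3 := by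
    rw [← e3, ← mul_add]
    refine mul_le_mul_of_nonneg_left ?_ hB.le
    have : n * m ≤ n * (n ^ 2 / J) := mul_le_mul_of_nonneg_left hm (by linarith)
    nlinarith
  have h6 : 1 / (3 * (4 : ℝ) ^ (k - 1)) * n ^ 3 - 1 / (2 : ℝ) ^ (k - 1) * n ^ 2 -
      1 / ((2 : ℝ) ^ (k - 1) * J) * n ^ 3 ≤ q := by linarith
  generalize 1 / (3 * (4 : ℝ) ^ (k - 1)) = A at *
  generalize 1 / (2 : ℝ) ^ (k - 1) = B at *
  generalize 1 / ((2 : ℝ) ^ (k - 1) * J) = D at *
  have h7 : 0 ≤ A * (3 * n ^ 2 - 2 * n) := mul_nonneg hA.le (by nlinarith)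
  have h8 : 0 ≤ D * (2 * n) := mul_nonneg hD.le (by linarith)
  nlinarith

/-- ROW F17-B2c.  `F_anti` (Final.lean) and `J → ∞` in `le_F_right`. -/
theorem le_F (k : ℕ) (hk : 1 ≤ k) (a : ℝ) (ha : a ≤ Real.pi - Real.pi / k) :
    1 / (3 * 4 ^ (k - 1)) ≤ F a := by
  have h1 : Tendsto (fun J : ℕ => 1 / (3 * 4 ^ (k - 1)) - (1 / 2 ^ (k - 1)) / (J : ℝ)) atTop
      (𝓝 (1 / (3 * 4 ^ (k - 1)))) := by
    have := (tendsto_const_div_atTop_nhds_zero_nat (1 / 2 ^ (k - 1) : ℝ)).const_sub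
      (1 / (3 * 4 ^ (k - 1)))
    simpa using this
  refine le_of_tendsto h1 ?_
  filter_upwards [eventually_ge_atTop 1] with J hJ
  have h2 := le_F_right k J hk hJ
  rw [div_div]
  refine h2.trans (F_anti ?_)
  have : 0 ≤ Real.pi / (k * J) := by positivity
  linarith

/-- ROW F17-B2d.  From `le_F_right`, `F_anti` and `F_le_four` (JC1). -/
theorem tendsto_F_right (k : ℕ) (hk : 1 ≤ k) :
    Tendsto F (𝓝[>] (Real.pi - Real.pi / k)) (𝓝 (1 / (3 * 4 ^ (k - 1)))) := by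
  rw [tendsto_order]
  constructor
  · intro b hb
    have h1 : Tendsto (fun J : ℕ => 1 / (3 * 4 ^ (k - 1)) - (1 / 2 ^ (k - 1)) / (J : ℝ)) atTop
        (𝓝 (1 / (3 * 4 ^ (k - 1)))) := by
      have := (tendsto_const_div_atTop_nhds_zero_nat (1 / 2 ^ (k - 1) : ℝ)).const_sub
        (1 / (3 * 4 ^ (k - 1)))
      simpa using this
    obtain ⟨J, hJ, hJ1⟩ := ((h1.eventually (eventually_gt_nhds hb)).and
      (eventually_ge_atTop 1)).exists
    have h2 := le_F_right k J hk hJ1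
    rw [div_div] at hJ
    have hkr : (0 : ℝ) < k := by exact_mod_cast hk
    have hJr : (0 : ℝ) < J := by exact_mod_cast hJ1
    have h3 : Real.pi - Real.pi / k < Real.pi - Real.pi / k + Real.pi / (k * J) := by
      have : 0 < Real.pi / (k * J) := div_pos Real.pi_pos (mul_pos hkr hJr)
      linarith
    filter_upwards [Ioc_mem_nhdsGT h3] with x hx
    exact lt_of_lt_of_le hJ (h2.trans (F_anti hx.2))
  · intro b hb
    filter_upwards [self_mem_nhdsWithin] with x hx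
    exact lt_of_le_of_lt (F_le_four k hk x hx) hb

end Pool.Agent.MP_0af329_co.JF
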