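import Pool.Agent.MP_0af329_co.JA8

set_option autoImplicit false

namespace Pool.Agent.MP_0af329_co.JF

open Finset

/-- The perturbed system on `V ⊕ Fin u`. -/
private def pert {V : Type} {K : ℕ} (R : Fin K → V → V → Prop) (s : Fin K → Bool) (u : ℕ)
    (rich : Finset V) (c : V → Fin K) : Fin K → V ⊕ Fin u → V ⊕ Fin u → Prop
  | i, .inl x, .inl y => R i x y
  | i, .inr _, .inl v => v ∉ rich ∧ i = c v ∧ s i = true
  | i, .inl v, .inr _ => v ∉ rich ∧ i = c v ∧ s i = false
  | _, .inr _, .inr _ => False

open Classical in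
private theorem outd_eq {V : Type} [Fintype V] {K : ℕ} (R : Fin K → V → V → Prop) (i : Fin K)
    (x : V) : outd R i x = ∑ y, if R i x y then 1 else 0 := by
  unfold outd; rw [Finset.card_filter]

open Classical in
private theorem ind_eq {V : Type} [Fintype V] {K : ℕ} (R : Fin K → V → V → Prop) (i : Fin K)
    (x : V) : ind R i x = ∑ y, if R i y x then 1 else 0 := by
  unfold ind; rw [Finset.card_filter]

open Classical in
private noncomputable def chi (p : Prop) : ℕ := if p then 1 else 0

private theorem chi_pos {p : Prop} (h : p) : chi p = 1 := if_pos h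

private theorem chi_neg {p : Prop} (h : ¬ p) : chi p = 0 := if_neg h

private theorem chi_le (p : Prop) : chi p ≤ 1 := by
  by_cases h : p
  · rw [chi_pos h]
  · rw [chi_neg h]; exact Nat.zero_le _

private theorem miss_eq {V : Type} [Fintype V] {K : ℕ} (R : Fin K → V → V → Prop) :
    miss R = ∑ x, ∑ y, chi (x ≠ y ∧ ∀ i, ¬ R i x y ∧ ¬ R i y x) := by
  unfold miss; rw [Finset.card_filter, Fintype.sum_prod_type]
  refine Finset.sum_congr rfl fun x _ => Finset.sum_congr rfl fun y _ => ?_
  by_cases h : x ≠ y ∧ ∀ i, ¬ R i x y ∧ ¬ R i y x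
  · rw [chi_pos h, if_pos h]
  · rw [chi_neg h, if_neg h]

private theorem sum_chi_mem {V : Type} [Fintype V] (rich : Finset V) :
    ∑ v : V, chi (v ∈ rich) = rich.card := by
  classical
  have h : ∀ v : V, chi (v ∈ rich) = if v ∈ rich then 1 else 0 := by
    intro v
    by_cases hv : v ∈ rich
    · rw [chi_pos hv, if_pos hv]
    · rw [chi_neg hv, if_neg hv]
  simp_rw [h]
  simp

section
variable {V : Type} [Fintype V] {K : ℕ} (R : Fin K → V → V → Prop) (s : Fin K → Bool) (u : ℕ)
    (rich : Finset V) (c : V → Fin K)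

open Classical in
private theorem outd_inl (i : Fin K) (v : V) :
    outd (pert R s u rich c) i (.inl v) =
      outd R i v + (if v ∉ rich ∧ i = c v ∧ s i = false then u else 0) := by
  rw [outd_eq, outd_eq, Fintype.sum_sum_type]
  congr 1
  simp only [pert]
  split_ifs <;> simp

open Classical in
private theorem ind_inl (i : Fin K) (v : V) :
    ind (pert R s u rich c) i (.inl v) =
      ind R i v + (if v ∉ rich ∧ i = c v ∧ s i = true then u else 0) := by
  rw [ind_eq, ind_eq, Fintype.sum_sum_type]
  congr 1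
  simp only [pert]
  split_ifs <;> simp

private theorem prod_inr (i : Fin K) (w : Fin u) :
    (ind (pert R s u rich c) i (.inr w) : ℝ) * outd (pert R s u rich c) i (.inr w) = 0 := by
  classical
  rw [ind_eq, outd_eq, Fintype.sum_sum_type, Fintype.sum_sum_type]
  simp only [pert]
  by_cases h : s i = true
  · simp [h]
  · simp [h]

private theorem pth_le (t : ℕ)
    (hc : ∀ v, v ∉ rich → (if s (c v) then outd R (c v) v else ind R (c v) v) < t) :
    pth (pert R s u rich c) ≤ pth R + t * Fintype.card V * u := by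
  classical
  unfold pth
  rw [Fintype.sum_sum_type]
  have h2 : ∑ w : Fin u, ∑ i, (ind (pert R s u rich c) i (.inr w) : ℝ) *
      outd (pert R s u rich c) i (.inr w) = 0 := by
    refine Finset.sum_eq_zero fun w _ => Finset.sum_eq_zero fun i _ => prod_inr R s u rich c i w
  rw [h2, add_zero]
  have h3 : (t : ℝ) * Fintype.card V * u = ∑ _v : V, (t : ℝ) * u := by
    rw [Finset.sum_const, Finset.card_univ, nsmul_eq_mul]; ring
  rw [h3, ← Finset.sum_add_distrib]
  refine Finset.sum_le_sum fun v _ => ?_
  have h4 : ∀ i, (ind (pert R s u rich c) i (.inl v) : ℝ) * outd (pert R s u rich c) i (.inl v) ≤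
      (ind R i v : ℝ) * outd R i v + (if i = c v then (t : ℝ) * u else 0) := by
    intro i
    rw [outd_inl, ind_inl]
    by_cases hr : v ∈ rich
    · simp only [hr, not_true_eq_false, false_and, if_false, add_zero]
      have : (0 : ℝ) ≤ (if i = c v then (t : ℝ) * u else 0) := by split_ifs <;> positivity
      linarith
    · by_cases hi : i = c v
      · subst hi
        have hcv := hc v hr
        by_cases hs : s (c v) = true
        · simp only [hs, if_true] at hcv
          have h5 : (outd R (c v) v : ℝ) ≤ t := by exact_mod_cast hcv.le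
          simp only [hr, hs, not_false_eq_true, true_and, if_true, Bool.true_eq_false, if_false,
            add_zero, Nat.cast_add]
          have h6 : (0 : ℝ) ≤ u := by positivity
          nlinarith [mul_le_mul_of_nonneg_left h5 h6]
        · have hs' : s (c v) = false := by simpa using hs
          simp only [hs', Bool.false_eq_true, if_false] at hcv
          have h5 : (ind R (c v) v : ℝ) ≤ t := by exact_mod_cast hcv.le
          simp only [hr, hs', not_false_eq_true, true_and, if_true, Bool.false_eq_true, if_false,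
            add_zero, Nat.cast_add]
          have h6 : (0 : ℝ) ≤ u := by positivity
          nlinarith [mul_le_mul_of_nonneg_left h5 h6]
      · simp [hi]
  calc _ ≤ ∑ i, ((ind R i v : ℝ) * outd R i v + (if i = c v then (t : ℝ) * u else 0)) :=
        Finset.sum_le_sum fun i _ => h4 i
    _ = _ := by
        rw [Finset.sum_add_distrib, Finset.sum_ite_eq' Finset.univ (c v) (fun _ => (t : ℝ) * u)]
        simp

private theorem miss_le : miss (pert R s u rich c) ≤ miss R + 2 * u * rich.card + u ^ 2 := by
  rw [miss_eq, miss_eq, Fintype.sum_sum_type]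
  simp_rw [Fintype.sum_sum_type]
  have e1 : ∀ v : V, ∀ w : Fin u,
      chi ((Sum.inl v : V ⊕ Fin u) ≠ Sum.inr w ∧ ∀ i, ¬ pert R s u rich c i (.inl v) (.inr w) ∧
        ¬ pert R s u rich c i (.inr w) (.inl v)) ≤ chi (v ∈ rich) := by
    intro v w
    by_cases hv : v ∈ rich
    · rw [chi_pos hv]; exact chi_le _
    · rw [chi_neg hv, chi_neg]
      rintro ⟨_, h⟩
      obtain ⟨h1, h2⟩ := h (c v)
      simp only [pert, hv, not_false_eq_true, true_and] at h1 h2
      cases hs : s (c v) <;> simp_all
  have e2 : ∀ v : V, ∀ w : Fin u,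
      chi ((Sum.inr w : V ⊕ Fin u) ≠ Sum.inl v ∧ ∀ i, ¬ pert R s u rich c i (.inr w) (.inl v) ∧
        ¬ pert R s u rich c i (.inl v) (.inr w)) ≤ chi (v ∈ rich) := by
    intro v w
    by_cases hv : v ∈ rich
    · rw [chi_pos hv]; exact chi_le _
    · rw [chi_neg hv, chi_neg]
      rintro ⟨_, h⟩
      obtain ⟨h1, h2⟩ := h (c v)
      simp only [pert, hv, not_false_eq_true, true_and] at h1 h2
      cases hs : s (c v) <;> simp_all
  have s1 : ∑ v : V, ∑ w : Fin u,
      chi ((Sum.inl v : V ⊕ Fin u) ≠ Sum.inr w ∧ ∀ i, ¬ pert R s u rich c i (.inl v) (.inr w) ∧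
        ¬ pert R s u rich c i (.inr w) (.inl v)) ≤ u * rich.card := by
    calc _ ≤ ∑ v : V, ∑ _w : Fin u, chi (v ∈ rich) :=
          Finset.sum_le_sum fun v _ => Finset.sum_le_sum fun w _ => e1 v w
      _ = u * rich.card := by
          simp only [Finset.sum_const, Finset.card_univ, Fintype.card_fin, smul_eq_mul]
          rw [← Finset.mul_sum, sum_chi_mem]
  have s2 : ∑ w : Fin u, ∑ v : V,
      chi ((Sum.inr w : V ⊕ Fin u) ≠ Sum.inl v ∧ ∀ i, ¬ pert R s u rich c i (.inr w) (.inl v) ∧
        ¬ pert R s u rich c i (.inl v) (.inr w)) ≤ u * rich.card := by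
    rw [Finset.sum_comm]
    calc _ ≤ ∑ v : V, ∑ _w : Fin u, chi (v ∈ rich) :=
          Finset.sum_le_sum fun v _ => Finset.sum_le_sum fun w _ => e2 v w
      _ = u * rich.card := by
          simp only [Finset.sum_const, Finset.card_univ, Fintype.card_fin, smul_eq_mul]
          rw [← Finset.mul_sum, sum_chi_mem]
  have s3 : ∑ w : Fin u, ∑ w' : Fin u,
      chi ((Sum.inr w : V ⊕ Fin u) ≠ Sum.inr w' ∧ ∀ i, ¬ pert R s u rich c i (.inr w) (.inr w') ∧
        ¬ pert R s u rich c i (.inr w') (.inr w)) ≤ u ^ 2 := by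
    calc _ ≤ ∑ _w : Fin u, ∑ _w' : Fin u, 1 :=
          Finset.sum_le_sum fun v _ => Finset.sum_le_sum fun w _ => chi_le _
      _ = u ^ 2 := by simp [sq]
  have s0 : ∑ x : V, ∑ y : V,
      chi ((Sum.inl x : V ⊕ Fin u) ≠ Sum.inl y ∧ ∀ i, ¬ pert R s u rich c i (.inl x) (.inl y) ∧
        ¬ pert R s u rich c i (.inl y) (.inl x)) =
      ∑ x : V, ∑ y : V, chi (x ≠ y ∧ ∀ i, ¬ R i x y ∧ ¬ R i y x) := by
    refine Finset.sum_congr rfl fun x _ => Finset.sum_congr rfl fun y _ => ?_
    simp only [pert, ne_eq, Sum.inl.injEq]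
  rw [Finset.sum_add_distrib, Finset.sum_add_distrib, s0]
  linarith [s1, s2, s3]

end

/-- ROW F17-D1.  Adding `u` new vertices.  `rich` = vertices with degree at least `t` on the prescribed
side (`out` if `s i`, `in` otherwise) in EVERY colour.
PROOF.  On `V ⊕ Fin u`: keep `R` on `V`; for a vertex `v` which is not rich choose a colour `i v` with
small degree; if `s (i v)` (small out-degree) add the edges `(inr w) → (inl v)` of colour `i v` for all
`w`, otherwise the edges `(inl v) → (inr w)`; no other edges.  New degrees at `inl v`: the side which is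
not small grows by `u` in the colour `i v`, so `∑_i ind outd` grows by at most `t u`; at `inr w` every
product is `0` (in colour `i` all edges have the same orientation, given by `s i`).  So
`pth R' ≤ pth R + t n u`.  `miss R' ≤ miss R + 2 u |rich| + u²`.  Apply `paths` to `R'`. -/
theorem perturb {V : Type} [Fintype V] (K : ℕ) (hK : 1 ≤ K) (R : Fin K → V → V → Prop)
    (s : Fin K → Bool) (t u : ℕ) (rich : Finset V)
    (hrich : ∀ v, v ∉ rich → ∃ i, (if s i then outd R i v else ind R i v) < t) :
    ((Fintype.card V : ℝ) + u) ^ 3 / (6 * 4 ^ (K - 1)) -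
      ((Fintype.card V : ℝ) + u) * (Fintype.card V + u + miss R + 2 * u * rich.card + u ^ 2) /
        (2 * 2 ^ (K - 1)) ≤ pth R + t * Fintype.card V * u := by
  classical
  have hex : ∀ v : V, ∃ i : Fin K, v ∉ rich → (if s i then outd R i v else ind R i v) < t := by
    intro v
    by_cases hv : v ∈ rich
    · exact ⟨⟨0, hK⟩, fun h => absurd hv h⟩
    · obtain ⟨i, hi⟩ := hrich v hv
      exact ⟨i, fun _ => hi⟩
  choose c hc using hex
  have h1 := paths K hK (pert R s u rich c)
  have h2 := pth_le R s u rich c t hc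
  have h3 : (miss (pert R s u rich c) : ℝ) ≤ miss R + 2 * u * rich.card + u ^ 2 := by
    exact_mod_cast miss_le R s u rich c
  have h4 : (Fintype.card (V ⊕ Fin u) : ℝ) = Fintype.card V + u := by
    rw [Fintype.card_sum, Fintype.card_fin, Nat.cast_add]
  rw [h4] at h1
  refine le_trans ?_ (le_trans h1 h2)
  apply sub_le_sub_left
  apply div_le_div_of_nonneg_right _ (by positivity)
  apply mul_le_mul_of_nonneg_left _ (by positivity)
  linarith

end Pool.Agent.MP_0af329_co.JF
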