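import Pool.Agent.MP_0af329_co.JDefs

set_option autoImplicit false

namespace Pool.Agent.MP_0af329_co.JF

open Finset

/-- ROW F17-D2a.  Medians. -/
theorem exists_median {X : Type} [DecidableEq X] (Y : Finset X) (hY : Y.Nonempty) (f : X → ℝ) :
    ∃ m : ℝ, Y.card ≤ 2 * (Y.filter fun y => f y ≤ m).card ∧
      Y.card ≤ 2 * (Y.filter fun y => m ≤ f y).card := by
  classical
  set S : Finset ℝ := (Y.image f).filter (fun v => Y.card ≤ 2 * (Y.filter fun y => f y ≤ v).card) with hS
  have hSne : S.Nonempty := by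
    obtain ⟨y0, hy0, hmax⟩ := Finset.exists_max_image Y f hY
    refine ⟨f y0, ?_⟩
    rw [hS, Finset.mem_filter]
    refine ⟨Finset.mem_image_of_mem f hy0, ?_⟩
    rw [Finset.filter_true_of_mem hmax]
    omega
  set m := S.min' hSne with hm
  have hmS : m ∈ S := Finset.min'_mem S hSne
  refine ⟨m, ?_, ?_⟩
  · rw [hS, Finset.mem_filter] at hmS
    exact hmS.2
  · by_contra hcon
    rw [not_le] at hcon
    have hsplit := Finset.card_filter_add_card_filter_not (s := Y) (fun y => m ≤ f y)
    have hpos : 0 < (Y.filter fun y => ¬ m ≤ f y).card := by omega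
    obtain ⟨y1, hy1, hmax⟩ := Finset.exists_max_image (Y.filter fun y => ¬ m ≤ f y) f
      (Finset.card_pos.mp hpos)
    rw [Finset.mem_filter] at hy1
    have hsub : (Y.filter fun y => ¬ m ≤ f y) ⊆ (Y.filter fun y => f y ≤ f y1) := by
      intro y hy
      rw [Finset.mem_filter]
      exact ⟨(Finset.mem_filter.mp hy).1, hmax y hy⟩
    have hle := Finset.card_le_card hsub
    have hin : f y1 ∈ S := by
      rw [hS, Finset.mem_filter]
      exact ⟨Finset.mem_image_of_mem f hy1.1, by omega⟩
    exact hy1.2 (Finset.min'_le S _ hin)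

/-- ROW F17-D2b.  PROOF.  `t ≤ 2` is trivial (the left-hand sides are `≤ 0`).  Take medians `m_i` of `f` on `Y_i`.  If
`m_{i+1} - m_i < w` for some `i`, all pairs of `{f ≥ m_i} × {f ≤ m_{i+1}}` count (at least `t²/4`).
Otherwise `m_{k-1} ≥ m_0 + (k-1) w` and all pairs of `{y ∈ Y_0 : f y < m_0} × {y' ∈ Y_{k-1} : f y' ≥ m_{k-1}}`
count; the first set has at least `t/2 - 1` elements because `f` is injective on `Y_0`. -/
theorem median_chain {X : Type} [DecidableEq X] (k : ℕ) (hk : 2 ≤ k) (Y : Fin k → Finset X)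
    (f : X → ℝ) (t : ℕ) (ht : ∀ i, t ≤ (Y i).card)
    (hinj : ∀ i : Fin k, (i : ℕ) = 0 → Set.InjOn f (Y i)) (w : ℝ) :
    (∃ i j : Fin k, (i : ℕ) + 1 = j ∧ (t : ℝ) * ((t : ℝ) - 2) / 4 ≤
      (((Y i) ×ˢ (Y j)).filter fun p => f p.2 - f p.1 < w).card) ∨
    (∃ i j : Fin k, (i : ℕ) = 0 ∧ (j : ℕ) = k - 1 ∧ (t : ℝ) * ((t : ℝ) - 2) / 4 ≤
      (((Y i) ×ˢ (Y j)).filter fun p => ((k : ℝ) - 1) * w < f p.2 - f p.1).card) := by
  have h01 : ∃ i j : Fin k, (i : ℕ) + 1 = j := ⟨⟨0, by omega⟩, ⟨1, by omega⟩, rfl⟩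
  rcases Nat.lt_or_ge t 3 with ht3 | ht3
  · obtain ⟨i, j, hij⟩ := h01
    left
    refine ⟨i, j, hij, le_trans ?_ (Nat.cast_nonneg _)⟩
    have h0 : (0 : ℝ) ≤ t := Nat.cast_nonneg t
    have h2 : (t : ℝ) ≤ 2 := by exact_mod_cast (by omega : t ≤ 2)
    nlinarith
  · have hne : ∀ i, (Y i).Nonempty := fun i => by
      rw [← Finset.card_pos]
      have := ht i
      omega
    choose m hm1 hm2 using fun i => exists_median (Y i) (hne i) f
    have ht0 : (3 : ℝ) ≤ t := by exact_mod_cast ht3
    have hA : ∀ i, (t : ℝ) / 2 ≤ ((Y i).filter fun y => f y ≤ m i).card := by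
      intro i
      have h1 : t ≤ 2 * ((Y i).filter fun y => f y ≤ m i).card := (ht i).trans (hm1 i)
      have h2 : (t : ℝ) ≤ 2 * (((Y i).filter fun y => f y ≤ m i).card : ℝ) := by exact_mod_cast h1
      linarith
    have hB : ∀ i, (t : ℝ) / 2 ≤ ((Y i).filter fun y => m i ≤ f y).card := by
      intro i
      have h1 : t ≤ 2 * ((Y i).filter fun y => m i ≤ f y).card := (ht i).trans (hm2 i)
      have h2 : (t : ℝ) ≤ 2 * (((Y i).filter fun y => m i ≤ f y).card : ℝ) := by exact_mod_cast h1
      linarith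
    by_cases hcase : ∃ i j : Fin k, (i : ℕ) + 1 = j ∧ m j - m i < w
    · obtain ⟨i, j, hij, hlt⟩ := hcase
      left
      refine ⟨i, j, hij, ?_⟩
      have hsub : ((Y i).filter fun y => m i ≤ f y) ×ˢ ((Y j).filter fun y => f y ≤ m j) ⊆
          ((Y i) ×ˢ (Y j)).filter fun p => f p.2 - f p.1 < w := by
        intro p hp
        rw [Finset.mem_product, Finset.mem_filter, Finset.mem_filter] at hp
        rw [Finset.mem_filter, Finset.mem_product]
        refine ⟨⟨hp.1.1, hp.2.1⟩, ?_⟩
        have h1 := hp.1.2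
        have h2 := hp.2.2
        linarith
      have hcard := Finset.card_le_card hsub
      rw [Finset.card_product] at hcard
      have hcard' : (((Y i).filter fun y => m i ≤ f y).card : ℝ) * (((Y j).filter fun y => f y ≤ m j).card : ℝ) ≤
          ((((Y i) ×ˢ (Y j)).filter fun p => f p.2 - f p.1 < w).card : ℝ) := by exact_mod_cast hcard
      have h3 := mul_le_mul (hB i) (hA j) (by positivity) (Nat.cast_nonneg _)
      refine le_trans ?_ (h3.trans hcard')
      nlinarith
    · push Not at hcase
      right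
      have hchain : ∀ n : ℕ, ∀ hn : n < k, m ⟨0, by omega⟩ + n * w ≤ m ⟨n, hn⟩ := by
        intro n
        induction n with
        | zero =>
          intro hn
          rw [Nat.cast_zero, zero_mul, add_zero]
        | succ n ih =>
          intro hn
          have h1 := ih (by omega)
          have h2 := hcase ⟨n, by omega⟩ ⟨n + 1, hn⟩ rfl
          push_cast
          linarith
      have hlast := hchain (k - 1) (by omega)
      have hk1 : ((k - 1 : ℕ) : ℝ) = (k : ℝ) - 1 := by
        rw [Nat.cast_sub (by omega), Nat.cast_one]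
      rw [hk1] at hlast
      refine ⟨⟨0, by omega⟩, ⟨k - 1, by omega⟩, rfl, rfl, ?_⟩
      set i0 : Fin k := ⟨0, by omega⟩ with hi0
      set j0 : Fin k := ⟨k - 1, by omega⟩ with hj0
      have hinj0 : Set.InjOn f (Y i0) := hinj i0 rfl
      have hone : (((Y i0).filter fun y => f y ≤ m i0).filter fun y => ¬ f y < m i0).card ≤ 1 := by
        rw [Finset.card_le_one]
        intro a ha b hb
        rw [Finset.mem_filter, Finset.mem_filter] at ha hb
        have ea : f a = m i0 := le_antisymm ha.1.2 (not_lt.mp ha.2)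
        have eb : f b = m i0 := le_antisymm hb.1.2 (not_lt.mp hb.2)
        exact hinj0 ha.1.1 hb.1.1 (ea.trans eb.symm)
      have hsplit := Finset.card_filter_add_card_filter_not
        (s := (Y i0).filter fun y => f y ≤ m i0) (fun y => f y < m i0)
      have hle : ((Y i0).filter fun y => f y ≤ m i0).card ≤
          (((Y i0).filter fun y => f y ≤ m i0).filter fun y => f y < m i0).card + 1 := by omega
      have hC : (t : ℝ) / 2 - 1 ≤ (((Y i0).filter fun y => f y ≤ m i0).filter fun y => f y < m i0).card := by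
        have h1 := hA i0
        have h2 : (((Y i0).filter fun y => f y ≤ m i0).card : ℝ) ≤
          (((Y i0).filter fun y => f y ≤ m i0).filter fun y => f y < m i0).card + 1 := by exact_mod_cast hle
        linarith
      have hsub : (((Y i0).filter fun y => f y ≤ m i0).filter fun y => f y < m i0) ×ˢ
          ((Y j0).filter fun y => m j0 ≤ f y) ⊆
          ((Y i0) ×ˢ (Y j0)).filter fun p => ((k : ℝ) - 1) * w < f p.2 - f p.1 := by
        intro p hp
        rw [Finset.mem_product, Finset.mem_filter, Finset.mem_filter, Finset.mem_filter] at hp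
        rw [Finset.mem_filter, Finset.mem_product]
        refine ⟨⟨hp.1.1.1, hp.2.1⟩, ?_⟩
        have h1 := hp.1.2
        have h2 := hp.2.2
        linarith
      have hcard := Finset.card_le_card hsub
      rw [Finset.card_product] at hcard
      have hcard' : ((((Y i0).filter fun y => f y ≤ m i0).filter fun y => f y < m i0).card : ℝ) *
          (((Y j0).filter fun y => m j0 ≤ f y).card : ℝ) ≤
          ((((Y i0) ×ˢ (Y j0)).filter fun p => ((k : ℝ) - 1) * w < f p.2 - f p.1).card : ℝ) := by
        exact_mod_cast hcard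
      have h3 := mul_le_mul hC (hB j0) (by positivity) (Nat.cast_nonneg _)
      refine le_trans (le_of_eq ?_) (h3.trans hcard')
      ring

end Pool.Agent.MP_0af329_co.JF
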