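import Pool.Agent.MP_0af329_co.JD1
import Pool.Agent.MP_0af329_co.JD2
import Pool.Agent.MP_0af329_co.JB0
import Pool.Agent.MP_0af329_co.Final

set_option autoImplicit false

namespace Pool.Agent.MP_0af329_co.JF

open Finset EuclideanGeometry Filter Topology

private theorem sum_cntv_le (S : Finset Pt) (a : ℝ) (T : S → Finset (S × S))
    (hT : ∀ v, ∀ p ∈ T v, p.1 ≠ v ∧ p.2 ≠ v ∧ p.1 ≠ p.2 ∧
      a < ∠ (p.1 : Pt) (v : Pt) (p.2 : Pt)) :
    ∑ v : S, ((T v).card : ℝ) ≤ cnt S (Set.Ioi a) := by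
  classical
  have h1 : ∑ v : S, (T v).card = (univ.sigma T).card := (Finset.card_sigma _ _).symm
  have h2 : (univ.sigma T).card ≤ cnt S (Set.Ioi a) := by
    unfold cnt
    refine Finset.card_le_card_of_injOn
      (fun s : (Σ _ : S, S × S) => ((s.2.1 : Pt), (s.1 : Pt), (s.2.2 : Pt))) ?_ ?_
    · rintro ⟨v, p⟩ hp
      have hp' := hT v p (Finset.mem_sigma.1 hp).2
      have h : ((p.1 : Pt), (v : Pt), (p.2 : Pt)) ∈ trip S := by
        rw [mem_trip]
        refine ⟨⟨p.1.2, v.2, p.2.2⟩, fun h => hp'.1 (Subtype.ext h),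
          fun h => hp'.2.1 (Subtype.ext h.symm), fun h => hp'.2.2.1 (Subtype.ext h)⟩
      exact Finset.mem_filter.2 ⟨h, hp'.2.2.2⟩
    · rintro ⟨v, x, z⟩ _ ⟨v', x', z'⟩ _ h
      simp only [Prod.mk.injEq] at h
      obtain ⟨h1, h2, h3⟩ := h
      obtain rfl := Subtype.ext h2
      obtain rfl := Subtype.ext h1
      obtain rfl := Subtype.ext h3
      rfl
  rw [← h1] at h2
  exact_mod_cast h2

private theorem miss_eq_zero {V : Type} [Fintype V] {K : ℕ} (R : Fin K → V → V → Prop)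
    (h : ∀ x y, x ≠ y → ∃ i, R i x y ∨ R i y x) : miss R = 0 := by
  classical
  unfold miss
  rw [Finset.card_eq_zero]
  apply Finset.eq_empty_of_forall_notMem
  rintro ⟨x, y⟩ hmem
  have h1 := Finset.mem_filter.1 hmem
  obtain ⟨i, hi⟩ := h x y h1.2.1
  have h2 := h1.2.2 i
  tauto

/-- The count for one point set. -/
private theorem cnt_ge (k : ℕ) (hk : 3 ≤ k) (hodd : Odd k) (S : Finset Pt) (hS : GenPos S)
    (m u : ℕ) :
    ∃ (P : ℝ) (r : ℕ),
      (S.card : ℝ) ^ 3 / (6 * 4 ^ (k - 1)) - (S.card : ℝ) * S.card / (2 * 2 ^ (k - 1)) ≤ P ∧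
      ((S.card : ℝ) + u) ^ 3 / (6 * 4 ^ (k - 1)) -
        ((S.card : ℝ) + u) * (S.card + u + 2 * u * r + u ^ 2) / (2 * 2 ^ (k - 1)) ≤
          P + m * S.card * u ∧
      2 * P + r * ((m : ℝ) * ((m : ℝ) - 2) / 2) ≤ cnt S (Set.Ioi (Real.pi - Real.pi / k)) := by
  classical
  obtain ⟨ψ, σ, hψ, hang⟩ := exists_dirs
  have hpi := Real.pi_pos
  have hk0 : (0 : ℝ) < k := by positivity
  set w : ℝ := Real.pi / k with hw
  have hw0 : 0 < w := div_pos hpi hk0
  have hkw : (k : ℝ) * w = Real.pi := by rw [hw]; field_simp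
  have ha : Real.pi - w = ((k : ℝ) - 1) * w := by linarith
  set R : Fin k → S → S → Prop := fun i x y => (x : Pt) ≠ y ∧ σ x y = true ∧
    ((i : ℕ) : ℝ) * w ≤ ψ x y ∧ ψ x y < (((i : ℕ) : ℝ) + 1) * w with hR
  set co : S → S → ℕ := fun x y => ⌊ψ x y / w⌋₊ with hco
  have hcoR : ∀ x y : S, (x : Pt) ≠ y → ∀ i : ℕ, ((i : ℝ) * w ≤ ψ x y ∧
      ψ x y < ((i : ℝ) + 1) * w) → co x y = i := by
    intro x y hxy i hi
    simp only [hco]
    rw [Nat.floor_eq_iff (div_nonneg (hψ x y hxy).1 hw0.le), le_div_iff₀ hw0, div_lt_iff₀ hw0]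
    exact hi
  have hcosym : ∀ x y : S, (x : Pt) ≠ y → co y x = co x y := by
    intro x y hxy
    simp only [hco]
    rw [(hψ x y hxy).2.2.1]
  have hor : ∀ i j x y, R i x y → ¬ R j y x := by
    intro i j x y h h'
    have h1 := (hψ x y h.1).2.2.2
    rw [h'.2.1, h.2.1] at h1
    simp at h1
  have huniq : ∀ i j x y, R i x y → R j x y → i = j := by
    intro i j x y h h'
    apply Fin.ext
    rw [← hcoR x y h.1 i h.2.2, ← hcoR x y h.1 j h'.2.2]
  have hmiss : miss R = 0 := by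
    apply miss_eq_zero
    intro x y hxy
    have hne : (x : Pt) ≠ y := fun h => hxy (Subtype.ext h)
    have h1 := hψ x y hne
    have h0 : 0 ≤ ψ x y / w := div_nonneg h1.1 hw0.le
    have hlt : ⌊ψ x y / w⌋₊ < k := by
      rw [Nat.floor_lt h0, div_lt_iff₀ hw0, hkw]
      exact h1.2.1
    have h2 : ((⌊ψ x y / w⌋₊ : ℕ) : ℝ) * w ≤ ψ x y ∧
        ψ x y < (((⌊ψ x y / w⌋₊ : ℕ) : ℝ) + 1) * w := by
      constructor
      · have := Nat.floor_le h0
        rwa [le_div_iff₀ hw0] at this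
      · have := Nat.lt_floor_add_one (ψ x y / w)
        rwa [div_lt_iff₀ hw0] at this
    cases hs : σ x y
    · refine ⟨⟨_, hlt⟩, Or.inr ⟨hne.symm, ?_, ?_⟩⟩
      · rw [h1.2.2.2, hs]; rfl
      · rw [h1.2.2.1]; exact h2
    · exact ⟨⟨_, hlt⟩, Or.inl ⟨hne, hs, h2⟩⟩
  have houtd : ∀ i v, outd R i v = (univ.filter fun y => R i v y).card := by
    intro i v
    unfold outd
    congr
  have hindd : ∀ i v, ind R i v = (univ.filter fun y => R i y v).card := by
    intro i v
    unfold ind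
    congr
  -- data seen from `v`
  have hout : ∀ i v y, R i v y → y ≠ v ∧ σ (v : Pt) y = true ∧ co v y = i ∧
      ((i : ℕ) : ℝ) * w ≤ ψ v y ∧ ψ v y < (((i : ℕ) : ℝ) + 1) * w := by
    intro i v y h
    exact ⟨fun he => h.1 (by rw [he]), h.2.1, hcoR v y h.1 i h.2.2, h.2.2⟩
  have hin : ∀ i v y, R i y v → y ≠ v ∧ σ (v : Pt) y = false ∧ co v y = i ∧
      ((i : ℕ) : ℝ) * w ≤ ψ v y ∧ ψ v y < (((i : ℕ) : ℝ) + 1) * w := by
    intro i v y h
    have h1 := hψ y v h.1
    refine ⟨fun he => h.1 (by rw [he]), ?_, ?_, ?_⟩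
    · rw [h1.2.2.2, h.2.1]; rfl
    · rw [hcosym y v h.1]; exact hcoR y v h.1 i h.2.2
    · rw [h1.2.2.1]; exact h.2.2
  have hneg : ∀ v x z : S, x ≠ v → z ≠ v → σ (v : Pt) x ≠ σ (v : Pt) z →
      |ψ v x - ψ v z| < w → Real.pi - w < ∠ (x : Pt) (v : Pt) (z : Pt) := by
    intro v x z hx hz hs hlt
    rw [hang x v z (fun h => hx (Subtype.ext h)) (fun h => hz (Subtype.ext h)), if_neg hs]
    linarith
  set s : Fin k → Bool := fun i => decide (Even (i : ℕ)) with hs
  set rich : Finset S := univ.filter fun v => ∀ i, m ≤ (if s i then outd R i v else ind R i v)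
    with hrich
  refine ⟨pth R, rich.card, ?_, ?_, ?_⟩
  · have := paths k (by omega) R
    rw [hmiss, Fintype.card_coe] at this
    simpa using this
  · have := perturb k (by omega) R s m u rich (by
      intro v hv
      rw [hrich, Finset.mem_filter] at hv
      push Not at hv
      exact hv (Finset.mem_univ _))
    rw [hmiss, Fintype.card_coe] at this
    simpa using this
  · -- the three families of pairs at `v`
    set A : S → Finset (S × S) := fun v => univ.biUnion fun i : Fin k =>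
      (univ.filter fun y => R i y v) ×ˢ (univ.filter fun y => R i v y) with hA
    set A' : S → Finset (S × S) := fun v => univ.biUnion fun i : Fin k =>
      (univ.filter fun y => R i v y) ×ˢ (univ.filter fun y => R i y v) with hA'
    set G : S → S × S → Prop := fun v p => p.1 ≠ v ∧ p.2 ≠ v ∧ p.1 ≠ p.2 ∧
      Real.pi - w < ∠ (p.1 : Pt) (v : Pt) (p.2 : Pt) with hG
    set E : S → Finset (S × S) := fun v => univ.filter fun p => G v p ∧ co v p.1 < co v p.2
      with hE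
    set E' : S → Finset (S × S) := fun v => univ.filter fun p => G v p ∧ co v p.2 < co v p.1
      with hE'
    have hAm : ∀ v p, p ∈ A v ↔ ∃ i, R i p.1 v ∧ R i v p.2 := by
      intro v p
      simp [hA]
    have hAm' : ∀ v p, p ∈ A' v ↔ ∃ i, R i v p.1 ∧ R i p.2 v := by
      intro v p
      simp [hA']
    have hAG : ∀ v, ∀ p ∈ A v, G v p ∧ co v p.1 = co v p.2 := by
      intro v p hp
      obtain ⟨i, h1, h2⟩ := (hAm v p).1 hp
      have a1 := hin i v _ h1
      have a2 := hout i v _ h2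
      refine ⟨⟨a1.1, a2.1, ?_, hneg v _ _ a1.1 a2.1 (by rw [a1.2.1, a2.2.1]; simp) ?_⟩, ?_⟩
      · intro he
        rw [← he] at h2
        exact hor i i _ _ h1 h2
      · rw [abs_lt]; constructor <;> linarith [a1.2.2.2.1, a1.2.2.2.2, a2.2.2.2.1, a2.2.2.2.2]
      · rw [a1.2.2.1, a2.2.2.1]
    have hAG' : ∀ v, ∀ p ∈ A' v, G v p ∧ co v p.1 = co v p.2 := by
      intro v p hp
      obtain ⟨i, h1, h2⟩ := (hAm' v p).1 hp
      have a1 := hout i v _ h1
      have a2 := hin i v _ h2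
      refine ⟨⟨a1.1, a2.1, ?_, hneg v _ _ a1.1 a2.1 (by rw [a1.2.1, a2.2.1]; simp) ?_⟩, ?_⟩
      · intro he
        rw [← he] at h2
        exact hor i i _ _ h1 h2
      · rw [abs_lt]; constructor <;> linarith [a1.2.2.2.1, a1.2.2.2.2, a2.2.2.2.1, a2.2.2.2.2]
      · rw [a1.2.2.1, a2.2.2.1]
    have hcardA : ∀ v, (A v).card = ∑ i, ind R i v * outd R i v := by
      intro v
      simp only [hA]
      rw [Finset.card_biUnion]
      · refine Finset.sum_congr rfl fun i _ => ?_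
        rw [Finset.card_product, houtd, hindd]
      · intro i _ j _ hij
        rw [Function.onFun, Finset.disjoint_left]
        intro p hp hp'
        rw [Finset.mem_product, Finset.mem_filter, Finset.mem_filter] at hp hp'
        exact hij (huniq i j _ _ hp.1.2 hp'.1.2)
    have hcardA' : ∀ v, (A' v).card = ∑ i, ind R i v * outd R i v := by
      intro v
      simp only [hA']
      rw [Finset.card_biUnion]
      · refine Finset.sum_congr rfl fun i _ => ?_
        rw [Finset.card_product, houtd, hindd, mul_comm]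
      · intro i _ j _ hij
        rw [Function.onFun, Finset.disjoint_left]
        intro p hp hp'
        rw [Finset.mem_product, Finset.mem_filter, Finset.mem_filter] at hp hp'
        exact hij (huniq i j _ _ hp.1.2 hp'.1.2)
    have hEE' : ∀ v, (E' v).card = (E v).card := by
      intro v
      refine Finset.card_bij' (fun p _ => (p.2, p.1)) (fun p _ => (p.2, p.1)) ?_ ?_ ?_ ?_
      · rintro ⟨x, z⟩ h
        simp only [hE, hE', hG, Finset.mem_filter, Finset.mem_univ, true_and] at h ⊢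
        refine ⟨⟨h.1.2.1, h.1.1, h.1.2.2.1.symm, ?_⟩, h.2⟩
        rw [EuclideanGeometry.angle_comm]; exact h.1.2.2.2
      · rintro ⟨x, z⟩ h
        simp only [hE, hE', hG, Finset.mem_filter, Finset.mem_univ, true_and] at h ⊢
        refine ⟨⟨h.1.2.1, h.1.1, h.1.2.2.1.symm, ?_⟩, h.2⟩
        rw [EuclideanGeometry.angle_comm]; exact h.1.2.2.2
      · rintro ⟨x, z⟩ _; rfl
      · rintro ⟨x, z⟩ _; rfl
    have hrichE : ∀ v ∈ rich, (m : ℝ) * ((m : ℝ) - 2) / 4 ≤ (E v).card := by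
      intro v hv
      rw [hrich, Finset.mem_filter] at hv
      set Y : Fin k → Finset S := fun i =>
        if s i then univ.filter fun y => R i v y else univ.filter fun y => R i y v with hY
      have hYc : ∀ i, m ≤ (Y i).card := by
        intro i
        have := hv.2 i
        simp only [hY]
        split_ifs with h
        · rw [if_pos h, houtd] at this; exact this
        · rw [if_neg h, hindd] at this; exact this
      have hYe : ∀ i : Fin k, Even (i : ℕ) → ∀ y ∈ Y i, y ≠ v ∧ σ (v : Pt) y = true ∧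
          co v y = i ∧ ((i : ℕ) : ℝ) * w ≤ ψ v y ∧ ψ v y < (((i : ℕ) : ℝ) + 1) * w := by
        intro i hi y hy
        simp only [hY, hs, hi, decide_true, if_true, Finset.mem_filter] at hy
        exact hout i v y hy.2
      have hYo : ∀ i : Fin k, ¬ Even (i : ℕ) → ∀ y ∈ Y i, y ≠ v ∧ σ (v : Pt) y = false ∧
          co v y = i ∧ ((i : ℕ) : ℝ) * w ≤ ψ v y ∧ ψ v y < (((i : ℕ) : ℝ) + 1) * w := by
        intro i hi y hy
        simp [hY, hs, hi] at hy
        exact hin i v y hy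
      have hinj : ∀ i : Fin k, (i : ℕ) = 0 → Set.InjOn (fun y : S => ψ v y) (Y i) := by
        intro i hi y hy y' hy' he
        have b1 := hYe i (by rw [hi]; exact Even.zero) y hy
        have b2 := hYe i (by rw [hi]; exact Even.zero) y' hy'
        by_contra hne
        have h1 := hang y v y' (fun h => b1.1 (Subtype.ext h)) (fun h => b2.1 (Subtype.ext h))
        have he' : ψ (v : Pt) y = ψ (v : Pt) y' := he
        rw [b1.2.1, b2.2.1, if_pos rfl, he', sub_self, abs_zero] at h1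
        have h2 := angle_pos_of_genPos hS y.2 v.2 y'.2 (fun h => b1.1 (Subtype.ext h))
          (fun h => b2.1 (Subtype.ext h.symm)) (fun h => hne (Subtype.ext h))
        linarith
      rcases median_chain k (by omega) Y (fun y : S => ψ v y) m hYc hinj w with
        ⟨i, j, hij, hc⟩ | ⟨i, j, hi0, hjk, hc⟩
      · refine hc.trans ?_
        have hsub : ((Y i ×ˢ Y j).filter fun p => ψ (v : Pt) p.2 - ψ (v : Pt) p.1 < w) ⊆
            E v := by
          intro p hp
          rw [Finset.mem_filter, Finset.mem_product] at hp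
          obtain ⟨⟨hp1, hp2⟩, hp3⟩ := hp
          have hpar : (p.1 ≠ v ∧ co v p.1 = i ∧ ((i : ℕ) : ℝ) * w ≤ ψ v p.1 ∧
              ψ v p.1 < (((i : ℕ) : ℝ) + 1) * w) ∧
              (p.2 ≠ v ∧ co v p.2 = j ∧ ((j : ℕ) : ℝ) * w ≤ ψ v p.2 ∧
              ψ v p.2 < (((j : ℕ) : ℝ) + 1) * w) ∧ σ (v : Pt) p.1 ≠ σ (v : Pt) p.2 := by
            by_cases he : Even (i : ℕ)
            · have ho : ¬ Even (j : ℕ) := by
                rw [← hij]; intro h; exact (Nat.even_add_one.1 h) he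
              have b1 := hYe i he _ hp1
              have b2 := hYo j ho _ hp2
              exact ⟨⟨b1.1, b1.2.2⟩, ⟨b2.1, b2.2.2⟩, by rw [b1.2.1, b2.2.1]; simp⟩
            · have ho : Even (j : ℕ) := by
                rw [← hij]; exact Nat.even_add_one.2 he
              have b1 := hYo i he _ hp1
              have b2 := hYe j ho _ hp2
              exact ⟨⟨b1.1, b1.2.2⟩, ⟨b2.1, b2.2.2⟩, by rw [b1.2.1, b2.2.1]; simp⟩
          obtain ⟨⟨c1, c2, c3, c4⟩, ⟨d1, d2, d3, d4⟩, hss⟩ := hpar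
          have hji : ((j : ℕ) : ℝ) = ((i : ℕ) : ℝ) + 1 := by exact_mod_cast hij.symm
          simp only [hE, hG, Finset.mem_filter, Finset.mem_univ, true_and]
          refine ⟨⟨c1, d1, ?_, hneg v _ _ c1 d1 hss ?_⟩, ?_⟩
          · intro he
            rw [he] at hss
            exact hss rfl
          · rw [hji] at d3
            rw [abs_lt]; constructor <;> linarith
          · rw [c2, d2]; omega
        exact_mod_cast Finset.card_le_card hsub
      · refine hc.trans ?_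
        have hsub : ((Y i ×ˢ Y j).filter fun p =>
            ((k : ℝ) - 1) * w < ψ (v : Pt) p.2 - ψ (v : Pt) p.1) ⊆ E v := by
          intro p hp
          rw [Finset.mem_filter, Finset.mem_product] at hp
          obtain ⟨⟨hp1, hp2⟩, hp3⟩ := hp
          have hej : Even (j : ℕ) := by
            rw [hjk]
            exact Nat.Odd.sub_odd hodd odd_one
          have b1 := hYe i (by rw [hi0]; exact Even.zero) _ hp1
          have b2 := hYe j hej _ hp2
          have hlt : Real.pi - w < |ψ (v : Pt) p.1 - ψ (v : Pt) p.2| := by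
            rw [ha, abs_sub_comm]
            exact lt_of_lt_of_le hp3 (le_abs_self _)
          simp only [hE, hG, Finset.mem_filter, Finset.mem_univ, true_and]
          have hcol : co v p.1 < co v p.2 := by
            rw [b1.2.2.1, b2.2.2.1]; omega
          refine ⟨⟨b1.1, b2.1, ?_, ?_⟩, hcol⟩
          · intro he
            rw [he] at hcol
            exact lt_irrefl _ hcol
          · rw [hang p.1 v p.2 (fun h => b1.1 (Subtype.ext h)) (fun h => b2.1 (Subtype.ext h)),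
              b1.2.1, b2.2.1, if_pos rfl]
            exact hlt
        exact_mod_cast Finset.card_le_card hsub
    -- the union
    have hT := sum_cntv_le S (Real.pi - w) (fun v => (A v ∪ A' v) ∪ (E v ∪ E' v)) (by
      intro v p hp
      rw [Finset.mem_union, Finset.mem_union, Finset.mem_union] at hp
      rcases hp with (hp | hp) | (hp | hp)
      · exact (hAG v p hp).1
      · exact (hAG' v p hp).1
      · exact (Finset.mem_filter.1 hp).2.1
      · exact (Finset.mem_filter.1 hp).2.1)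
    refine le_trans ?_ hT
    have hcard : ∀ v, (((A v ∪ A' v) ∪ (E v ∪ E' v)).card : ℝ) =
        2 * (∑ i, (ind R i v : ℝ) * outd R i v) + 2 * (E v).card := by
      intro v
      rw [Finset.card_union_of_disjoint, Finset.card_union_of_disjoint,
        Finset.card_union_of_disjoint, hcardA, hcardA', hEE']
      · push_cast; ring
      · rw [Finset.disjoint_left]
        intro p hp hp'
        have h1 := (Finset.mem_filter.1 hp).2.2
        have h2 := (Finset.mem_filter.1 hp').2.2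
        omega
      · rw [Finset.disjoint_left]
        intro p hp hp'
        obtain ⟨i, h1, h2⟩ := (hAm v p).1 hp
        obtain ⟨j, h3, h4⟩ := (hAm' v p).1 hp'
        exact hor i j _ _ h1 h3
      · rw [Finset.disjoint_left]
        intro p hp hp'
        have h0 : co v p.1 = co v p.2 := by
          rcases Finset.mem_union.1 hp with h | h
          · exact (hAG v p h).2
          · exact (hAG' v p h).2
        rcases Finset.mem_union.1 hp' with h | h
        · have h1 := (Finset.mem_filter.1 h).2.2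
          omega
        · have h1 := (Finset.mem_filter.1 h).2.2
          omega
    rw [Finset.sum_congr rfl fun v _ => hcard v, Finset.sum_add_distrib, ← Finset.mul_sum,
      ← Finset.mul_sum]
    have h1 : ∑ v : S, ((E v).card : ℝ) ≥ rich.card * ((m : ℝ) * ((m : ℝ) - 2) / 4) := by
      calc (rich.card : ℝ) * ((m : ℝ) * ((m : ℝ) - 2) / 4)
          = ∑ v ∈ rich, ((m : ℝ) * ((m : ℝ) - 2) / 4) := by
            rw [Finset.sum_const, nsmul_eq_mul]
        _ ≤ ∑ v ∈ rich, ((E v).card : ℝ) := Finset.sum_le_sum hrichE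
        _ ≤ ∑ v : S, ((E v).card : ℝ) :=
            Finset.sum_le_sum_of_subset_of_nonneg (Finset.subset_univ _)
              fun _ _ _ => Nat.cast_nonneg _
    unfold pth
    linarith

/-- ROW F17-D3.  For odd `k ≥ 3` the value at `π - π/k` is strictly above `4^(1-k)/3`.
PROOF.  Let `d = 2^(k-1)`, `w = π/k`, `n = 16 d² m`, `S` an `n`-point set in general position with
`cnt S (Ioi a) = minCnt n (Ioi a)`, `a = π - π/k`; `ψ, σ` from `exists_dirs`.
`R i x y :↔ x ≠ y ∧ σ x y = true ∧ i w ≤ ψ x y ∧ ψ x y < (i+1) w` on `V = S`.  `miss R = 0`, and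
`R i x v`, `R i v z` imply `∠ x v z = π - |ψ x v - ψ v z| > a`.
Call `v` rich if for all `i < k` the set `Y_i(v)` (`= {y : R i v y}` for even `i`, `= {y : R i y v}` for odd `i`)
has at least `t = m` elements.  For rich `v` apply `median_chain` with `f = ψ v` (injective on `S \ {v}`
by general position: if `ψ v y = ψ v y'` the angle `∠ y v y'` is `0` or `π`, so collinear): for `y ∈ Y_i`,
`y' ∈ Y_{i+1}`, `ψ v y' - ψ v y < w`: the signs differ and `0 < ψ v y' - ψ v y`, so `∠ y v y' = π - (ψ v y' - ψ v y) > a`; for `y ∈ Y_0`,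
`y' ∈ Y_{k-1}` (`k - 1` even!) with `ψ v y' - ψ v y > (k-1) w = a`: the signs agree and the angle is `ψ v y' - ψ v y > a`.
So every rich `v` is the vertex of at least `m (m-2)/4` pairs `(y, y')` with colour(v,y) < colour(v,y') and
angle `> a`.  Splitting the triples `(x, v, z)` counted by `cnt` according to colour(v,x) =, <, > colour(v,z):
`cnt ≥ 2 pth R + 2 |rich| m (m-2)/4`.
If `|rich| ≥ d m`: `cnt ≥ n³/(3 d²) - n²/d + d m² (m-2)/2` (by `paths`).
If `|rich| ≤ d m`: `perturb` with `t = m`, `u = 4 d m` and `s i = (i even)`: `pth R ≥ (n+u)³/(6d²) - (n+u)(n+u+2u·dm+u²)/(2d) - m n u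
  = n³/(6d²) + (256 d³ + 80 d² + 32 d/3) m³ - O(m²)`.
In both cases `cnt ≥ n³ (1/(3d²) + 1/(8192 d⁵)) - C m²` with `C = C(k)`; divide by `n(n-1)(n-2)`, let
`m → ∞` along `n = 16 d² m` (`tendsto_ratio`).  (`d m³/2 = n³/(8192 d⁵)`.) -/
theorem F_odd (k : ℕ) (hk : 3 ≤ k) (hodd : Odd k) :
    1 / (3 * 4 ^ (k - 1)) + 1 / (8192 * 32 ^ (k - 1)) ≤ F (Real.pi - Real.pi / k) := by
  set d : ℕ := 2 ^ (k - 1) with hd
  have hd1 : 1 ≤ d := Nat.one_le_two_pow
  have hd1' : (1 : ℝ) ≤ d := by exact_mod_cast hd1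
  have h2 : (2 : ℝ) ^ (k - 1) = d := by rw [hd]; push_cast; rfl
  have h4 : (4 : ℝ) ^ (k - 1) = (d : ℝ) ^ 2 := by
    rw [← h2, ← pow_mul, mul_comm, pow_mul]; norm_num
  have h32 : (32 : ℝ) ^ (k - 1) = (d : ℝ) ^ 5 := by
    rw [← h2, ← pow_mul, mul_comm, pow_mul]; norm_num
  rw [h4, h32]
  set c : ℝ := 1 / (3 * (d : ℝ) ^ 2) + 1 / (8192 * (d : ℝ) ^ 5) with hc
  set C : ℝ := (16 * (d : ℝ) ^ 2 + 4 * d) ^ 2 / d + 256 * (d : ℝ) ^ 3 + d with hC
  have hC0 : 0 ≤ C := by positivity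
  have hc0 : 0 ≤ c := by positivity
  have key : ∀ m : ℕ, 2 ≤ m → ∀ S : Finset Pt, GenPos S → S.card = 16 * d ^ 2 * m →
      c * (S.card : ℝ) ^ 3 - C * (S.card : ℝ) ^ 2 ≤
        cnt S (Set.Ioi (Real.pi - Real.pi / k)) := by
    intro m hm S hS hSc
    have hm' : (2 : ℝ) ≤ m := by exact_mod_cast hm
    have hn : (S.card : ℝ) = 16 * (d : ℝ) ^ 2 * m := by rw [hSc]; push_cast; ring
    obtain ⟨P, r, hP1, hP2, hP3⟩ := cnt_ge k hk hodd S hS m (4 * d * m)
    rw [h4, h2, hn] at hP1 hP2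
    push_cast at hP2
    have hmn : (m : ℝ) ^ 2 ≤ (16 * (d : ℝ) ^ 2 * m) ^ 2 := by
      have : (m : ℝ) ≤ 16 * (d : ℝ) ^ 2 * m := by
        have h1 : (1 : ℝ) ≤ 16 * (d : ℝ) ^ 2 := by nlinarith
        nlinarith
      exact pow_le_pow_left₀ (by linarith) this 2
    have hCm : C * (m : ℝ) ^ 2 ≤ C * (16 * (d : ℝ) ^ 2 * m) ^ 2 :=
      mul_le_mul_of_nonneg_left hmn hC0
    have hd0 : (d : ℝ) ≠ 0 := by positivity
    have hcn : c * (16 * (d : ℝ) ^ 2 * m) ^ 3 =
        (16 * (d : ℝ) ^ 2 * m) ^ 3 / (3 * (d : ℝ) ^ 2) + d * (m : ℝ) ^ 3 / 2 := by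
      rw [hc]; field_simp; ring
    have hmm : 0 ≤ (m : ℝ) * ((m : ℝ) - 2) / 2 :=
      div_nonneg (mul_nonneg (by linarith) (by linarith)) (by norm_num)
    rw [hn]
    refine le_trans ?_ hP3
    rw [hcn]
    rcases le_total (d * m) r with hr | hr
    · have hr' : (d : ℝ) * m ≤ r := by exact_mod_cast hr
      have e1 : (d : ℝ) * m * ((m : ℝ) * ((m : ℝ) - 2) / 2) ≤
          r * ((m : ℝ) * ((m : ℝ) - 2) / 2) := mul_le_mul_of_nonneg_right hr' hmm
      have e2 : (16 * (d : ℝ) ^ 2 * m) ^ 3 / (3 * (d : ℝ) ^ 2) - 256 * (d : ℝ) ^ 3 * m ^ 2 ≤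
          2 * P := by
        have : (16 * (d : ℝ) ^ 2 * m) ^ 3 / (3 * (d : ℝ) ^ 2) - 256 * (d : ℝ) ^ 3 * m ^ 2 =
            2 * ((16 * (d : ℝ) ^ 2 * m) ^ 3 / (6 * (d : ℝ) ^ 2) -
              16 * (d : ℝ) ^ 2 * m * (16 * (d : ℝ) ^ 2 * m) / (2 * d)) := by
          field_simp; ring
        rw [this]; linarith
      have e3 : 256 * (d : ℝ) ^ 3 * m ^ 2 + d * m ^ 2 ≤ C * (m : ℝ) ^ 2 := by
        rw [hC]
        have : 0 ≤ (16 * (d : ℝ) ^ 2 + 4 * d) ^ 2 / d * (m : ℝ) ^ 2 := by positivity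
        nlinarith
      nlinarith
    · have hr' : (r : ℝ) ≤ (d : ℝ) * m := by exact_mod_cast hr
      have e1 : 0 ≤ r * ((m : ℝ) * ((m : ℝ) - 2) / 2) := mul_nonneg (Nat.cast_nonneg _) hmm
      have e2 : (16 * (d : ℝ) ^ 2 * m + 4 * d * m) * (16 * (d : ℝ) ^ 2 * m + 4 * d * m +
          2 * (4 * d * m) * r + (4 * d * m) ^ 2) / (2 * d) ≤
          (16 * (d : ℝ) ^ 2 * m + 4 * d * m) * (16 * (d : ℝ) ^ 2 * m + 4 * d * m +
          2 * (4 * d * m) * (d * m) + (4 * d * m) ^ 2) / (2 * d) := by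
        gcongr
      have e3 : 2 * ((16 * (d : ℝ) ^ 2 * m + 4 * d * m) ^ 3 / (6 * (d : ℝ) ^ 2) -
          (16 * (d : ℝ) ^ 2 * m + 4 * d * m) * (16 * (d : ℝ) ^ 2 * m + 4 * d * m +
          2 * (4 * d * m) * (d * m) + (4 * d * m) ^ 2) / (2 * d) -
          m * (16 * (d : ℝ) ^ 2 * m) * (4 * d * m)) =
          (16 * (d : ℝ) ^ 2 * m) ^ 3 / (3 * (d : ℝ) ^ 2) +
            (512 * (d : ℝ) ^ 3 + 160 * (d : ℝ) ^ 2 + 64 / 3 * d) * (m : ℝ) ^ 3 -
            (16 * (d : ℝ) ^ 2 + 4 * d) ^ 2 / d * (m : ℝ) ^ 2 := by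
        field_simp; ring
      have e4 : (d : ℝ) * (m : ℝ) ^ 3 / 2 ≤
          (512 * (d : ℝ) ^ 3 + 160 * (d : ℝ) ^ 2 + 64 / 3 * d) * (m : ℝ) ^ 3 := by
        have h5 : 0 ≤ (m : ℝ) ^ 3 := by positivity
        have h6 : (d : ℝ) / 2 ≤ 512 * (d : ℝ) ^ 3 + 160 * (d : ℝ) ^ 2 + 64 / 3 * d := by
          have : 0 ≤ (d : ℝ) ^ 3 := by positivity
          have : 0 ≤ (d : ℝ) ^ 2 := by positivity
          linarith
        calc (d : ℝ) * (m : ℝ) ^ 3 / 2 = (d : ℝ) / 2 * (m : ℝ) ^ 3 := by ring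
          _ ≤ _ := mul_le_mul_of_nonneg_right h6 h5
      have e5 : (16 * (d : ℝ) ^ 2 + 4 * d) ^ 2 / d * (m : ℝ) ^ 2 ≤ C * (m : ℝ) ^ 2 := by
        rw [hC]
        have : 0 ≤ (256 * (d : ℝ) ^ 3 + d) * (m : ℝ) ^ 2 := by positivity
        nlinarith
      linarith
  have hk' : Tendsto (fun m : ℕ => 16 * d ^ 2 * m) atTop atTop :=
    Filter.tendsto_id.const_mul_atTop' (by positivity)
  have h1 : Tendsto (fun m : ℕ => ratio (16 * d ^ 2 * m) (Set.Ioi (Real.pi - Real.pi / k))) atTop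
      (𝓝 (dens (Set.Ioi (Real.pi - Real.pi / k)))) := (tendsto_ratio _).comp hk'
  have h3 : Tendsto (fun m : ℕ => c - C * (((16 * d ^ 2 * m : ℕ) : ℝ) ^ 2 /
      (((16 * d ^ 2 * m : ℕ) : ℝ) * (((16 * d ^ 2 * m : ℕ) : ℝ) - 1) *
        (((16 * d ^ 2 * m : ℕ) : ℝ) - 2)))) atTop (𝓝 c) := by
    have := ((tendsto_sq.comp hk').const_mul C).const_sub c
    simpa using this
  refine le_of_tendsto_of_tendsto h3 h1 ?_
  filter_upwards [eventually_ge_atTop 2] with m hm
  obtain ⟨S, g1, g2, g3⟩ := exists_minCnt (16 * d ^ 2 * m) (Set.Ioi (Real.pi - Real.pi / k))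
  have g4 := key m hm S g2 g1
  rw [g1, g3] at g4
  have hn3 : 3 ≤ 16 * d ^ 2 * m := by
    have : 1 ≤ d ^ 2 := Nat.one_le_pow _ _ hd1
    nlinarith
  have g5 := denom_pos hn3
  rw [ratio, le_div_iff₀ g5, sub_mul, mul_assoc C, div_mul_cancel₀ _ g5.ne']
  have g6 : (3 : ℝ) ≤ ((16 * d ^ 2 * m : ℕ) : ℝ) := by exact_mod_cast hn3
  have g7 : ((16 * d ^ 2 * m : ℕ) : ℝ) * (((16 * d ^ 2 * m : ℕ) : ℝ) - 1) *
      (((16 * d ^ 2 * m : ℕ) : ℝ) - 2) ≤ ((16 * d ^ 2 * m : ℕ) : ℝ) ^ 3 := by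
    nlinarith
  have g8 := mul_le_mul_of_nonneg_left g7 hc0
  linarith

end Pool.Agent.MP_0af329_co.JF
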