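import Pool.Agent.MP_0af329_co.JB2
import Pool.Agent.MP_0af329_co.JC1
import Pool.Agent.MP_0af329_co.JD3
import Pool.Agent.MP_0af329_co.Final

/-! Assembly: the jumps of `F`. -/

set_option autoImplicit false

namespace Pool.Agent.MP_0af329_co.JF

open EuclideanGeometry Filter Topology

theorem pi_sub_pi_div_two : Real.pi - Real.pi / (2 : ℕ) = Real.pi / 2 := by
  push_cast
  ring

/-- A value strictly above the right limit forces a discontinuity. -/
theorem not_continuousAt_of_gt (k : ℕ) (hk : 1 ≤ k)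
    (h : 1 / (3 * 4 ^ (k - 1)) < F (Real.pi - Real.pi / k)) :
    ¬ ContinuousAt F (Real.pi - Real.pi / k) := by
  intro hc
  have h1 : Tendsto F (𝓝[>] (Real.pi - Real.pi / k)) (𝓝 (F (Real.pi - Real.pi / k))) :=
    hc.tendsto.mono_left nhdsWithin_le_nhds
  have h2 := tendsto_nhds_unique h1 (tendsto_F_right k hk)
  linarith

theorem not_continuousAt_F_odd (k : ℕ) (hk : 3 ≤ k) (hodd : Odd k) :
    ¬ ContinuousAt F (Real.pi - Real.pi / k) := by
  apply not_continuousAt_of_gt k (by omega)
  have h1 := F_odd k hk hodd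
  have h2 : (0 : ℝ) < 1 / (8192 * 32 ^ (k - 1)) := by positivity
  linarith

end Pool.Agent.MP_0af329_co.JF
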