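import Pool.Agent.MP_0af329_co.JHDefs
import Pool.Agent.MP_0af329_co.JB0

set_option autoImplicit false

namespace Pool.Agent.MP_0af329_co.JF

open Finset EuclideanGeometry

/-- ROW F18-H2a.  From `exists_dirs` (see the beginning of the proof of `cnt_ge` in JD3.lean):
`psi = ψ`, `sig = σ` restricted to `S`, `co x y = ⌊ψ x y / (π/k)⌋` (for `x = y` anything, e.g. `0`).
`inj`: if `ψ v y = ψ v z` the angle is `0` or `π`, so `y, v, z` are collinear
(`EuclideanGeometry.collinear_iff_eq_or_eq_or_angle_eq_zero_or_angle_eq_pi`), against `GenPos S` unless `y = z`. -/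
theorem exists_Dirs (S : Finset Pt) (hS : GenPos S) (k : ℕ) (hk : 1 ≤ k) : Nonempty (Dirs S k) := by
  classical
  obtain ⟨ψ, σ, hψ, hang⟩ := exists_dirs
  have hpi := Real.pi_pos
  have hk0 : (0 : ℝ) < k := by exact_mod_cast hk
  obtain ⟨w, hw⟩ : ∃ w : ℝ, w = Real.pi / k := ⟨_, rfl⟩
  have hw0 : 0 < w := by rw [hw]; exact div_pos hpi hk0
  have hkw : (k : ℝ) * w = Real.pi := by rw [hw]; field_simp
  have hne : ∀ x y : S, x ≠ y → (x : Pt) ≠ y := fun x y h h' => h (Subtype.ext h')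
  have hlt : ∀ x y : S, x ≠ y → ⌊ψ x y / w⌋₊ < k := by
    intro x y h
    have h1 := hψ x y (hne x y h)
    have h0 : 0 ≤ ψ x y / w := div_nonneg h1.1 hw0.le
    rw [Nat.floor_lt h0, div_lt_iff₀ hw0, hkw]
    exact h1.2.1
  obtain ⟨co, hco⟩ : ∃ co : S → S → Fin k, ∀ x y, x ≠ y → ((co x y : Fin k) : ℕ) = ⌊ψ x y / w⌋₊ := by
    refine ⟨fun x y => if h : x ≠ y then ⟨⌊ψ x y / w⌋₊, hlt x y h⟩ else ⟨0, hk⟩, ?_⟩
    intro x y h
    show ((if h : x ≠ y then (⟨⌊ψ x y / w⌋₊, hlt x y h⟩ : Fin k) else ⟨0, hk⟩ : Fin k) : ℕ) = _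
    rw [dif_pos h]
  refine ⟨⟨fun x y => ψ x y, fun x y => σ x y, co, ?_, ?_, ?_, ?_, ?_, ?_⟩⟩
  · intro x y h
    have h1 := hψ x y (hne x y h)
    have h0 : 0 ≤ ψ x y / w := div_nonneg h1.1 hw0.le
    rw [hco x y h, ← hw]
    constructor
    · have h2 := Nat.floor_le h0
      rwa [le_div_iff₀ hw0] at h2
    · have h2 := Nat.lt_floor_add_one (ψ x y / w)
      rwa [div_lt_iff₀ hw0] at h2
  · intro x y h
    exact (hψ x y (hne x y h)).2.2.1
  · intro x y h
    exact (hψ x y (hne x y h)).2.2.2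
  · intro x y h
    apply Fin.ext
    rw [hco x y h, hco y x h.symm, (hψ x y (hne x y h)).2.2.1]
  · intro v y z hy hz
    exact hang y v z (hne y v hy) (hne z v hz)
  · intro v y z hy hz heq
    by_contra hyz
    have h1 := hang y v z (hne y v hy) (hne z v hz)
    have heq' : ψ v y = ψ v z := heq
    rw [heq', sub_self, abs_zero, sub_zero] at h1
    apply hS y y.2 v v.2 z z.2 (hne y v hy) (hne v z hz.symm) (hne y z hyz)
    rw [collinear_iff_eq_or_eq_or_angle_eq_zero_or_angle_eq_pi]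
    by_cases hs : σ (v : Pt) y = σ v z
    · rw [if_pos hs] at h1
      exact Or.inr (Or.inr (Or.inl h1))
    · rw [if_neg hs] at h1
      exact Or.inr (Or.inr (Or.inr h1))

end Pool.Agent.MP_0af329_co.JF
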