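import Pool.Agent.MP_0af329_co.JHDefs

set_option autoImplicit false

namespace Pool.Agent.MP_0af329_co.JF

open Finset EuclideanGeometry

private theorem H2b_miss {V : Type} [Fintype V] {K : ℕ} (R : Fin K → V → V → Prop)
    (h : ∀ x y, x ≠ y → ∃ i, R i x y ∨ R i y x) : miss R = 0 := by
  classical
  unfold miss
  rw [Finset.card_eq_zero]
  apply Finset.eq_empty_of_forall_notMem
  rintro ⟨x, y⟩ hmem
  have h1 := Finset.mem_filter.1 hmem
  obtain ⟨i, hi⟩ := h x y h1.2.1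
  have h2 := h1.2.2 i
  tauto

/-- ROW F18-H2b. -/
theorem Dirs.joined {S : Finset Pt} {k : ℕ} (d : Dirs S k) (x y : S) (h : x ≠ y) :
    ∃ i, d.R i x y ∨ d.R i y x := by
  cases hs : d.sig x y
  · refine ⟨d.co y x, Or.inr ⟨h.symm, ?_, rfl⟩⟩
    rw [d.sig_symm x y h, hs]
    rfl
  · exact ⟨d.co x y, Or.inl ⟨h, hs, rfl⟩⟩

/-- ROW F18-H2b. -/
theorem Dirs.miss_eq {S : Finset Pt} {k : ℕ} (d : Dirs S k) : miss d.R = 0 :=
  H2b_miss d.R fun x y h => d.joined x y h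

end Pool.Agent.MP_0af329_co.JF
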