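import Pool.Agent.MP_0af329_co.JHDefs
import Pool.Agent.MP_0af329_co.JH2b
import Pool.Agent.MP_0af329_co.Final

set_option autoImplicit false

namespace Pool.Agent.MP_0af329_co.JF

open Finset EuclideanGeometry

open Classical in
private theorem pth_eq_card' {V : Type} [Fintype V] {K : ℕ} (R : Fin K → V → V → Prop) :
    pth R = ((univ.filter fun w : V × Fin K × V × V =>
      R w.2.1 w.2.2.1 w.1 ∧ R w.2.1 w.1 w.2.2.2).card : ℝ) := by
  rw [Finset.card_filter]
  push_cast
  rw [Fintype.sum_prod_type]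
  unfold pth
  refine Finset.sum_congr rfl fun v _ => ?_
  rw [Fintype.sum_prod_type]
  refine Finset.sum_congr rfl fun i _ => ?_
  rw [Fintype.sum_prod_type]
  unfold ind outd
  rw [Finset.card_filter, Finset.card_filter]
  push_cast
  rw [Finset.sum_mul_sum]
  refine Finset.sum_congr rfl fun x _ => Finset.sum_congr rfl fun z _ => ?_
  by_cases h1 : R i x v <;> by_cases h2 : R i v z <;> simp [h1, h2]

open Classical in
/-- ROW F18-H2c.  The big angles: paths (counted twice) and extra ones.  PROOF.  As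
`two_mul_pth_le_cnt` (JB2.lean) and `sum_cntv_le` (JD3.lean): the triples `(x, v, z)` with `R i x v ∧ R i v z`,
the reversed ones, and the extra ones are pairwise disjoint subsets of the set counted by `cnt` (for a
path the signs `sig v x = false`, `sig v z = true` differ and `|psi v x - psi v z| < π/k`). -/
theorem Dirs.cnt_ge {S : Finset Pt} {k : ℕ} (hk : 1 ≤ k) (d : Dirs S k) :
    2 * pth d.R + ((univ.filter fun t : S × S × S => d.xt t.1 t.2.1 t.2.2).card : ℝ) ≤
      cnt S (Set.Ioi (Real.pi - Real.pi / k)) := by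
  have hpi := Real.pi_pos
  have hk0 : (0 : ℝ) < k := by exact_mod_cast hk
  have hw0 : 0 < Real.pi / k := div_pos hpi hk0
  have hwk : Real.pi / k ≤ Real.pi := div_le_self hpi.le (by exact_mod_cast hk)
  rw [pth_eq_card']
  set W := (univ.filter fun w : S × Fin k × S × S =>
      d.R w.2.1 w.2.2.1 w.1 ∧ d.R w.2.1 w.1 w.2.2.2) with hW
  set E := (univ.filter fun t : S × S × S => d.xt t.1 t.2.1 t.2.2) with hE
  have hmem : ∀ w, w ∈ W ↔ (d.R w.2.1 w.2.2.1 w.1 ∧ d.R w.2.1 w.1 w.2.2.2) := by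
    intro w
    simp [hW]
  have hmemE : ∀ t, t ∈ E ↔ d.xt t.1 t.2.1 t.2.2 := by
    intro t
    simp [hE]
  -- paths
  have hpath : ∀ i x v z, d.R i x v → d.R i v z → x ≠ v ∧ z ≠ v ∧ d.co v x = i ∧ d.co v z = i ∧
      d.sig v x = false ∧ d.sig v z = true ∧ x ≠ z ∧
      Real.pi - Real.pi / k < ∠ (x : Pt) (v : Pt) (z : Pt) := by
    intro i x v z h1 h2
    have n1 : x ≠ v := h1.1
    have n2 : z ≠ v := fun h => h2.1 h.symm
    have c1 : d.co v x = i := by rw [d.co_symm x v n1]; exact h1.2.2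
    have s1 : d.sig v x = false := by rw [d.sig_symm x v n1, h1.2.1]; rfl
    have s2 : d.sig v z = true := h2.2.1
    have n3 : x ≠ z := by
      intro h
      rw [h] at s1
      rw [s1] at s2
      exact Bool.false_ne_true s2
    refine ⟨n1, n2, c1, h2.2.2, s1, s2, n3, ?_⟩
    rw [d.ang v x z n1 n2, s1, s2, if_neg Bool.false_ne_true]
    have g1 := d.cell v x n1.symm
    have g2 := d.cell v z n2.symm
    rw [c1] at g1
    rw [h2.2.2] at g2
    have : |d.psi v x - d.psi v z| < Real.pi / k := by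
      rw [abs_lt]
      constructor <;> nlinarith
    linarith
  let f : S × Fin k × S × S → Pt × Pt × Pt := fun w => ((w.2.2.1 : Pt), (w.1 : Pt), (w.2.2.2 : Pt))
  let g : S × Fin k × S × S → Pt × Pt × Pt := fun w => ((w.2.2.2 : Pt), (w.1 : Pt), (w.2.2.1 : Pt))
  let q : S × S × S → Pt × Pt × Pt := fun t => ((t.1 : Pt), (t.2.1 : Pt), (t.2.2 : Pt))
  have hf : Set.InjOn f W := by
    rintro ⟨v, i, x, z⟩ hw ⟨v', i', x', z'⟩ hw' h
    rw [Finset.mem_coe, hmem] at hw hw'
    simp only [f, Prod.mk.injEq] at h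
    obtain ⟨e1, e2, e3⟩ := h
    have e1' := Subtype.ext e1
    have e2' := Subtype.ext e2
    have e3' := Subtype.ext e3
    simp only at e1' e2' e3' hw hw'
    subst e1' e2' e3'
    have := hw.1.2.2.symm.trans hw'.1.2.2
    subst this
    rfl
  have hg : Set.InjOn g W := by
    rintro ⟨v, i, x, z⟩ hw ⟨v', i', x', z'⟩ hw' h
    rw [Finset.mem_coe, hmem] at hw hw'
    simp only [g, Prod.mk.injEq] at h
    obtain ⟨e1, e2, e3⟩ := h
    have e1' := Subtype.ext e1
    have e2' := Subtype.ext e2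
    have e3' := Subtype.ext e3
    simp only at e1' e2' e3' hw hw'
    subst e1' e2' e3'
    have := hw.1.2.2.symm.trans hw'.1.2.2
    subst this
    rfl
  have hq : Set.InjOn q E := by
    rintro ⟨y, v, z⟩ _ ⟨y', v', z'⟩ _ h
    simp only [q, Prod.mk.injEq] at h
    obtain ⟨e1, e2, e3⟩ := h
    have e1' := Subtype.ext e1
    have e2' := Subtype.ext e2
    have e3' := Subtype.ext e3
    subst e1' e2' e3'
    rfl
  have hd : Disjoint (W.image f) (W.image g) := by
    rw [Finset.disjoint_left]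
    intro t ht ht'
    rw [Finset.mem_image] at ht ht'
    obtain ⟨⟨v, i, x, z⟩, hw, rfl⟩ := ht
    obtain ⟨⟨v', i', x', z'⟩, hw', h⟩ := ht'
    rw [hmem] at hw hw'
    simp only [f, g, Prod.mk.injEq] at h
    obtain ⟨e1, e2, e3⟩ := h
    have e1' := Subtype.ext e1
    have e2' := Subtype.ext e2
    simp only at e1' e2' hw hw'
    subst e1' e2'
    have t1 := (hpath i _ _ _ hw.1 hw.2).2.2.2.2.1
    have t2 := hw'.2.2.1
    rw [t1] at t2
    exact Bool.false_ne_true t2
  have hd2 : Disjoint (W.image f ∪ W.image g) (E.image q) := by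
    rw [Finset.disjoint_left]
    intro t ht ht'
    rw [Finset.mem_union, Finset.mem_image, Finset.mem_image] at ht
    rw [Finset.mem_image] at ht'
    obtain ⟨⟨y, v, z⟩, he, rfl⟩ := ht'
    rw [hmemE] at he
    have hne := he.2.2.1
    simp only at hne
    rcases ht with ⟨⟨v', i, x, z'⟩, hw, h⟩ | ⟨⟨v', i, x, z'⟩, hw, h⟩
    · rw [hmem] at hw
      simp only [f, q, Prod.mk.injEq] at h
      obtain ⟨e1, e2, e3⟩ := h
      have e1' := Subtype.ext e1
      have e2' := Subtype.ext e2
      have e3' := Subtype.ext e3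
      simp only at e1' e2' e3' hw
      subst e1' e2' e3'
      have t1 := hpath i _ _ _ hw.1 hw.2
      exact hne (t1.2.2.1.trans t1.2.2.2.1.symm)
    · rw [hmem] at hw
      simp only [g, q, Prod.mk.injEq] at h
      obtain ⟨e1, e2, e3⟩ := h
      have e1' := Subtype.ext e1
      have e2' := Subtype.ext e2
      have e3' := Subtype.ext e3
      simp only at e1' e2' e3' hw
      subst e1' e2' e3'
      have t1 := hpath i _ _ _ hw.1 hw.2
      exact hne (t1.2.2.2.1.trans t1.2.2.1.symm)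
  have hsub : (W.image f ∪ W.image g) ∪ E.image q ⊆
      (trip S).filter fun t => EuclideanGeometry.angle t.1 t.2.1 t.2.2 ∈
        Set.Ioi (Real.pi - Real.pi / k) := by
    intro t ht
    rw [Finset.mem_union, Finset.mem_union, Finset.mem_image, Finset.mem_image,
      Finset.mem_image] at ht
    rcases ht with (⟨⟨v, i, x, z⟩, hw, rfl⟩ | ⟨⟨v, i, x, z⟩, hw, rfl⟩) | ⟨⟨y, v, z⟩, he, rfl⟩
    · rw [hmem] at hw
      obtain ⟨n1, n2, -, -, -, -, n3, n4⟩ := hpath _ _ _ _ hw.1 hw.2
      rw [Finset.mem_filter]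
      exact ⟨mem_trip.2 ⟨⟨x.2, v.2, z.2⟩, fun h => n1 (Subtype.ext h),
        fun h => n2 (Subtype.ext h.symm), fun h => n3 (Subtype.ext h)⟩, n4⟩
    · rw [hmem] at hw
      obtain ⟨n1, n2, -, -, -, -, n3, n4⟩ := hpath _ _ _ _ hw.1 hw.2
      rw [Finset.mem_filter]
      refine ⟨mem_trip.2 ⟨⟨z.2, v.2, x.2⟩, fun h => n2 (Subtype.ext h),
        fun h => n1 (Subtype.ext h.symm), fun h => n3 (Subtype.ext h.symm)⟩, ?_⟩
      rw [Set.mem_Ioi]
      change Real.pi - Real.pi / k < ∠ (z : Pt) (v : Pt) (x : Pt)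
      rw [EuclideanGeometry.angle_comm]
      exact n4
    · rw [hmemE] at he
      obtain ⟨n1, n2, n3, n4⟩ := he
      simp only at n1 n2 n3 n4
      rw [Finset.mem_filter]
      exact ⟨mem_trip.2 ⟨⟨y.2, v.2, z.2⟩, fun h => n1 (Subtype.ext h),
        fun h => n2 (Subtype.ext h.symm), fun h => n3 (by
          have h' : y = z := Subtype.ext h
          rw [h'])⟩, n4⟩
  have hc := Finset.card_le_card hsub
  rw [Finset.card_union_of_disjoint hd2, Finset.card_union_of_disjoint hd,
    Finset.card_image_of_injOn hf, Finset.card_image_of_injOn hg,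
    Finset.card_image_of_injOn hq] at hc
  have : W.card + W.card + E.card ≤ cnt S (Set.Ioi (Real.pi - Real.pi / k)) := by
    unfold cnt
    refine hc.trans (le_of_eq ?_)
    congr
  have h' : ((W.card + W.card + E.card : ℕ) : ℝ) ≤
      (cnt S (Set.Ioi (Real.pi - Real.pi / k)) : ℝ) := by exact_mod_cast this
  push_cast at h'
  linarith

end Pool.Agent.MP_0af329_co.JF
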