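import Pool.Agent.MP_0af329_co.JH4c

set_option autoImplicit false

namespace Pool.Agent.MP_0af329_co.JF

open Finset EuclideanGeometry

/-- ROW F18-H4d.  `eo` is antitone and has period `2K` (`cb_period`), so it is constant. -/
theorem eo_const {S : Finset Pt} {K : ℕ} (hK : 4 ≤ K) (hev : Even K) {d : Dirs S K}
    {X : (Fin K → Bool) → S} (hX : Trans d X) (m : ℕ) :
    eo (by omega) d X m = eo (by omega) d X 0 := by
  have hK0 : 0 < K := by omega
  have hanti : Antitone (fun m => eo hK0 d X m) := antitone_nat_of_succ_le (fun m => eo_anti hK hev hX m)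
  have hper : ∀ t, eo hK0 d X (2 * K * t) = eo hK0 d X 0 := by
    intro t
    induction t with
    | zero => rfl
    | succ t ih =>
      rw [← ih]
      have h1 : 2 * K * (t + 1) = 2 * K * t + 2 * K := by ring
      rw [h1]
      unfold eo
      rw [cb_period K _ hK0]
      congr 1
      apply Fin.ext
      show (2 * K * t + 2 * K) % K = (2 * K * t) % K
      rw [Nat.add_mul_mod_self_right]
  apply le_antisymm
  · exact hanti (Nat.zero_le m)
  · have h2 : m ≤ 2 * K * m := Nat.le_mul_of_pos_left m (by omega)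
    have h3 := hanti h2
    have h4 : eo hK0 d X (2 * K * m) ≤ eo hK0 d X m := h3
    rw [hper m] at h4
    exact h4

/-- the next corner of the walk -/
theorem cb_upd (K m : ℕ) (hK0 : 0 < K) :
    Function.update (cb K m) ⟨m % K, Nat.mod_lt _ hK0⟩ (!(cb K m ⟨m % K, Nat.mod_lt _ hK0⟩)) = cb K (m + 1) := by
  funext i
  rw [cb_succ K m hK0 i]
  by_cases h : i = ⟨m % K, Nat.mod_lt _ hK0⟩
  · rw [h, Function.update_self, if_pos rfl]
  · rw [Function.update_of_ne h, if_neg]
    intro h'
    exact h (Fin.ext h'.symm)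

/-- ROW F18-H4d.  Two transversals which agree outside the corner `cb 0` agree there.  PROOF.  By
`eo_const` and `cb_ne` the edge `2` (from `cb 2` to `cb 3`, both `≠ cb 0`) has the same offset for `X` and `X'`,
so the edge `0` too: `psi (X (cb 0)) (X (cb 1))` and `psi (X' (cb 0)) (X' (cb 1))` are equal, `X (cb 1) = X' (cb 1) = v`;
`psi_symm` and `d.inj v`. -/
theorem Trans.unique {S : Finset Pt} {K : ℕ} (hK : 4 ≤ K) (hev : Even K) {d : Dirs S K}
    {X X' : (Fin K → Bool) → S} (hX : Trans d X) (hX' : Trans d X')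
    (h : ∀ q, q ≠ cb K 0 → X q = X' q) : X (cb K 0) = X' (cb K 0) := by
  have hK0 : 0 < K := by omega
  obtain ⟨n1, n2, n3⟩ := cb_ne K hK
  have e2 : eo hK0 d X 2 = eo hK0 d X' 2 := by
    unfold eo off
    rw [cb_upd K 2 hK0, h _ n2, h _ n3]
  have e0 : eo hK0 d X 0 = eo hK0 d X' 0 := by
    rw [← eo_const hK hev hX 2, ← eo_const hK hev hX' 2]
    exact e2
  unfold eo off at e0
  rw [cb_upd K 0 hK0] at e0
  have h1 : X (cb K (0 + 1)) = X' (cb K (0 + 1)) := h _ n1
  have e3 : d.psi (X (cb K 0)) (X (cb K (0 + 1))) = d.psi (X' (cb K 0)) (X' (cb K (0 + 1))) := by linarith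
  rw [← h1] at e3
  have m1 : X (cb K 0) ≠ X (cb K (0 + 1)) := (hX.1 _ _ n1.symm).1
  have m2 : X' (cb K 0) ≠ X (cb K (0 + 1)) := by
    rw [h1]
    exact (hX'.1 _ _ n1.symm).1
  rw [← d.psi_symm _ _ m1, ← d.psi_symm _ _ m2] at e3
  exact d.inj _ _ _ m1 m2 e3

end Pool.Agent.MP_0af329_co.JF
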