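import Pool.Agent.MP_0af329_co.JH1c
import Pool.Agent.MP_0af329_co.JH4e

set_option autoImplicit false

namespace Pool.Agent.MP_0af329_co.JF

open Finset EuclideanGeometry

open Classical in
/-- ROW F18-H5.  Sets of positive density at all corners, almost all pairs correct, force many extra
big angles.  PROOF.  Suppose not.  `exists_tuple` with `I = Option (Fin K → Bool)`, class `cl none = cb K 0`,
`cl (some q) = q`, `D i = C (cl i)`, `P i j x y` := `x = y ∨ (cl i ≠ cl j ∧ ¬ gd d.R (cl i) (cl j) x y)`,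
`Q i j l x y z := d.xt x y z`.  Bounds: `#{(x, y) : x = y} ≤ n`, `≤ (1/(a² n)) |D i||D j|`; bad pairs
`≤ e₁ n² ≤ (e₁/a²) |D i||D j|`; extra triples `≤ e₁ n³ ≤ (e₁/a³) |D i||D j||D l|`.  With `m = 2^K + 1 = |I|` choose
`e₁ ≤ a³/(4 (m² + m³))` and `N ≥ 4 (m² + m³)/a²`.  Then `X = Y ∘ some` and `X'` (with `Y none` at `cb K 0`) are
`Trans`, agree outside `cb K 0`, so `Y none = Y (some (cb K 0))` by `Trans.unique`, against `P none (some _)`. -/
theorem many_extra (K : ℕ) (hK : 4 ≤ K) (hev : Even K) (a : ℝ) (ha : 0 < a) :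
    ∃ (e : ℝ) (N : ℕ), 0 < e ∧ ∀ (S : Finset Pt) (d : Dirs S K) (C : (Fin K → Bool) → Finset S),
      N ≤ S.card → (∀ q, a * (S.card : ℝ) ≤ (C q).card) →
      (∀ q q', q ≠ q' → ((((C q) ×ˢ (C q')).filter fun t => ¬ gd d.R q q' t.1 t.2).card : ℝ) ≤
          e * (S.card : ℝ) ^ 2) →
      e * (S.card : ℝ) ^ 3 ≤ ((univ.filter fun t : S × S × S => d.xt t.1 t.2.1 t.2.2).card : ℝ) := by
  classical
  obtain ⟨W, hW⟩ : ∃ W : ℝ, W = ((Fintype.card (Option (Fin K → Bool)) : ℝ) ^ 2 +
    (Fintype.card (Option (Fin K → Bool)) : ℝ) ^ 3) := ⟨_, rfl⟩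
  have hWpos : 0 < W := by
    have h1 : 0 < Fintype.card (Option (Fin K → Bool)) := Fintype.card_pos
    have h2 : (0 : ℝ) < (Fintype.card (Option (Fin K → Bool)) : ℝ) := by exact_mod_cast h1
    rw [hW]
    positivity
  obtain ⟨e, he, he2, he3⟩ : ∃ e : ℝ, 0 < e ∧ e ≤ a ^ 2 / (4 * W) ∧ e ≤ a ^ 3 / (2 * W) :=
    ⟨min (a ^ 2 / (4 * W)) (a ^ 3 / (2 * W)), lt_min (by positivity) (by positivity),
      min_le_left _ _, min_le_right _ _⟩
  obtain ⟨N, hN⟩ := exists_nat_gt (4 * W / a)
  refine ⟨e, N + 1, he, ?_⟩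
  intro S d C hcard hC hbad
  by_contra hcon
  push Not at hcon
  obtain ⟨n, hn⟩ : ∃ n : ℝ, n = (S.card : ℝ) := ⟨_, rfl⟩
  rw [← hn] at hC hcon
  have hnN : (N : ℝ) < n := by
    rw [hn]
    have : N < S.card := by omega
    exact_mod_cast this
  have hn0 : 0 < n := lt_of_le_of_lt (Nat.cast_nonneg N) hnN
  have hna : 4 * W < a * n := by
    have h1 : 4 * W / a < n := hN.trans hnN
    rw [div_lt_iff₀ ha] at h1
    linarith
  have han : 0 < a * n := by positivity
  set cl : Option (Fin K → Bool) → (Fin K → Bool) := fun o => o.getD (cb K 0) with hcl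
  set D : Option (Fin K → Bool) → Finset S := fun o => C (cl o) with hD
  have hDn : ∀ i, a * n ≤ ((D i).card : ℝ) := fun i => hC (cl i)
  have hDpos : ∀ i, (0 : ℝ) < ((D i).card : ℝ) := fun i => lt_of_lt_of_le han (hDn i)
  have hDne : ∀ i, (D i).Nonempty := by
    intro i
    have h1 := hDpos i
    rw [← Finset.card_pos]
    exact_mod_cast h1
  have hsq : ∀ i j, (a * n) ^ 2 ≤ ((D i).card : ℝ) * (D j).card := by
    intro i j
    rw [sq]
    exact mul_le_mul (hDn i) (hDn j) han.le (hDpos i).le
  have hcu : ∀ i j l, (a * n) ^ 3 ≤ ((D i).card : ℝ) * ((D j).card * (D l).card) := by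
    intro i j l
    have h1 : (a * n) ^ 3 = (a * n) * (a * n) ^ 2 := by ring
    rw [h1]
    exact mul_le_mul (hDn i) (hsq j l) (by positivity) (hDpos i).le
  obtain ⟨Y, hY1, hY2, hY3⟩ := exists_tuple D hDne
    (fun i j x y => x = y ∨ (cl i ≠ cl j ∧ ¬ gd d.R (cl i) (cl j) x y))
    (fun _ _ _ x y z => d.xt x y z) (1 / (2 * W))
    (by
      intro i j hij
      have h1 : (((D i ×ˢ D j).filter fun t => t.1 = t.2).card : ℝ) ≤ (D i).card := by
        have h2 : ((D i ×ˢ D j).filter fun t => t.1 = t.2).card ≤ (D i).card := by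
          refine Finset.card_le_card_of_injOn (fun t => t.1) ?_ ?_
          · intro t ht
            have ht' := (Finset.mem_filter.1 ht).1
            exact (Finset.mem_product.1 ht').1
          · rintro ⟨x, y⟩ hx ⟨x', y'⟩ hx' h
            have h3 := (Finset.mem_filter.1 hx).2
            have h4 := (Finset.mem_filter.1 hx').2
            simp only at h h3 h4
            subst h3
            subst h4
            rw [h]
        exact_mod_cast h2
      have h2 : (((D i ×ˢ D j).filter fun t => cl i ≠ cl j ∧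
          ¬ gd d.R (cl i) (cl j) t.1 t.2).card : ℝ) ≤ e * n ^ 2 := by
        by_cases hc : cl i = cl j
        · have h3 : ((D i ×ˢ D j).filter fun t => cl i ≠ cl j ∧
              ¬ gd d.R (cl i) (cl j) t.1 t.2) = ∅ := by
            apply Finset.filter_false_of_mem
            intro t _ h
            exact h.1 hc
          rw [h3, Finset.card_empty, Nat.cast_zero]
          positivity
        · have h3 := hbad (cl i) (cl j) hc
          rw [← hn] at h3
          refine le_trans ?_ h3
          have h4 : ((D i ×ˢ D j).filter fun t => cl i ≠ cl j ∧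
              ¬ gd d.R (cl i) (cl j) t.1 t.2) ⊆
              ((C (cl i)) ×ˢ (C (cl j))).filter fun t => ¬ gd d.R (cl i) (cl j) t.1 t.2 := by
            intro t ht
            have h5 := Finset.mem_filter.1 ht
            exact Finset.mem_filter.2 ⟨h5.1, h5.2.2⟩
          exact_mod_cast Finset.card_le_card h4
      have h3 : (((D i ×ˢ D j).filter fun t => t.1 = t.2 ∨ (cl i ≠ cl j ∧
          ¬ gd d.R (cl i) (cl j) t.1 t.2)).card : ℝ) ≤ (D i).card + e * n ^ 2 := by
        rw [Finset.filter_or]
        have h4 := Finset.card_union_le ((D i ×ˢ D j).filter fun t => t.1 = t.2)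
          ((D i ×ˢ D j).filter fun t => cl i ≠ cl j ∧ ¬ gd d.R (cl i) (cl j) t.1 t.2)
        have h5 : ((((D i ×ˢ D j).filter fun t => t.1 = t.2) ∪
          ((D i ×ˢ D j).filter fun t => cl i ≠ cl j ∧
            ¬ gd d.R (cl i) (cl j) t.1 t.2)).card : ℝ) ≤
          (((D i ×ˢ D j).filter fun t => t.1 = t.2).card : ℝ) +
          (((D i ×ˢ D j).filter fun t => cl i ≠ cl j ∧
            ¬ gd d.R (cl i) (cl j) t.1 t.2).card : ℝ) := by exact_mod_cast h4
        linarith
      refine le_trans (le_of_eq (by congr)) (h3.trans ?_)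
      have h6 : ((D i).card : ℝ) ≤ 1 / (4 * W) * ((D i).card * (D j).card) := by
        have h7 : 4 * W ≤ (D j).card := hna.le.trans (hDn j)
        have h8 : ((D i).card : ℝ) * (4 * W) ≤ (D i).card * (D j).card :=
          mul_le_mul_of_nonneg_left h7 (hDpos i).le
        rw [div_mul_eq_mul_div, one_mul, le_div_iff₀ (by positivity)]
        exact h8
      have h9 : e * n ^ 2 ≤ 1 / (4 * W) * ((D i).card * (D j).card) := by
        have h10 : e * n ^ 2 ≤ a ^ 2 / (4 * W) * n ^ 2 :=
          mul_le_mul_of_nonneg_right he2 (by positivity)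
        have h11 : a ^ 2 / (4 * W) * n ^ 2 = 1 / (4 * W) * (a * n) ^ 2 := by ring
        rw [h11] at h10
        exact h10.trans (mul_le_mul_of_nonneg_left (hsq i j) (by positivity))
      have h12 : 1 / (4 * W) + 1 / (4 * W) = 1 / (2 * W) := by
        field_simp
        norm_num
      rw [← h12, add_mul]
      exact add_le_add h6 h9)
    (by
      intro i j l _ _ _
      have h1 : (((D i ×ˢ D j ×ˢ D l).filter fun t => d.xt t.1 t.2.1 t.2.2).card : ℝ) ≤
          ((univ.filter fun t : S × S × S => d.xt t.1 t.2.1 t.2.2).card : ℝ) := by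
        have h2 : ((D i ×ˢ D j ×ˢ D l).filter fun t => d.xt t.1 t.2.1 t.2.2) ⊆
            (univ.filter fun t : S × S × S => d.xt t.1 t.2.1 t.2.2) :=
          Finset.filter_subset_filter _ (Finset.subset_univ _)
        exact_mod_cast Finset.card_le_card h2
      have h3 : e * n ^ 3 ≤ 1 / (2 * W) * ((D i).card * ((D j).card * (D l).card)) := by
        have h10 : e * n ^ 3 ≤ a ^ 3 / (2 * W) * n ^ 3 :=
          mul_le_mul_of_nonneg_right he3 (by positivity)
        have h11 : a ^ 3 / (2 * W) * n ^ 3 = 1 / (2 * W) * (a * n) ^ 3 := by ring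
        rw [h11] at h10
        exact h10.trans (mul_le_mul_of_nonneg_left (hcu i j l) (by positivity))
      exact (h1.trans hcon.le).trans h3)
    (by
      rw [← hW]
      have : W * (1 / (2 * W)) = 1 / 2 := by
        field_simp
      rw [this]
      norm_num)
  have htr : ∀ idx : (Fin K → Bool) → Option (Fin K → Bool), (∀ q, cl (idx q) = q) →
      Trans d (fun q => Y (idx q)) := by
    intro idx hidx
    have hinj : ∀ q q', q ≠ q' → idx q ≠ idx q' := by
      intro q q' h h'
      exact h (by rw [← hidx q, ← hidx q', h'])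
    refine ⟨fun q q' h => ?_, fun q q' q'' h h' => ?_⟩
    · have h1 := hY2 (idx q) (idx q') (hinj q q' h)
      simp only [hidx] at h1
      push Not at h1
      exact ⟨h1.1, h1.2 h⟩
    · by_cases h'' : q = q''
      · subst h''
        intro hx
        exact hx.2.2.1 rfl
      · exact hY3 (idx q) (idx q') (idx q'') (hinj q q' h) (hinj q q'' h'')
          (hinj q' q'' h'.symm)
  have hX := htr (fun q => some q) (fun q => rfl)
  have hX' := htr (fun q => if q = cb K 0 then none else some q) (fun q => by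
    by_cases h : q = cb K 0
    · simp only [if_pos h, hcl, Option.getD_none]
      exact h.symm
    · simp only [if_neg h, hcl, Option.getD_some])
  have huni := Trans.unique hK hev hX hX' (fun q hq => by simp only [if_neg hq])
  simp only [if_true] at huni
  exact hY2 none (some (cb K 0)) (by simp) (Or.inl huni.symm)

end Pool.Agent.MP_0af329_co.JF
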