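import Pool.Agent.MP_0af329_co.JG9b
import Pool.Agent.MP_0af329_co.JH5
import Pool.Agent.MP_0af329_co.JH2a
import Pool.Agent.MP_0af329_co.JH2c
import Pool.Agent.MP_0af329_co.JA8
import Pool.Agent.MP_0af329_co.Final

set_option autoImplicit false

namespace Pool.Agent.MP_0af329_co.JF

open Finset EuclideanGeometry Filter Topology

/-- ROW F18-H6.  For even `k ≥ 4` the value at `π - π/k` is strictly above the right limit.
PROOF.  Let `k = 2M`.  `many_extra` with `a = 1/(20·4^M)` gives `e₁, N₁`; `exists_sets` with `e = e₁` gives `ε, N₂`.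
Claim `F ≥ 1/(3·4^(k-1)) + η` with `η = min (e₁/2) ε` (or so): for `n ≥ N`, `S` optimal (`exists_minCnt`), `d` from
`exists_Dirs`.  If `pth d.R ≤ (1/(6·4^(k-1)) + ε) n³` then the extra angles are at least `e₁ n³` and `paths` gives
`cnt ≥ 2 pth + e₁ n³ ≥ n³/(3·4^(k-1)) - n²/2^(k-1) + e₁ n³`; otherwise `cnt ≥ 2 pth ≥ n³/(3·4^(k-1)) + 2 ε n³`.
Divide by `n(n-1)(n-2)` and pass to the limit (`le_dens`, or `tendsto_ratio`). -/
theorem F_even (k : ℕ) (hk : 4 ≤ k) (hev : Even k) :
    1 / (3 * 4 ^ (k - 1)) < F (Real.pi - Real.pi / k) := by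
  classical
  obtain ⟨M, rfl⟩ : ∃ M, k = 2 * M := by
    obtain ⟨M, hM⟩ := hev
    exact ⟨M, by omega⟩
  have hM : 2 ≤ M := by omega
  obtain ⟨e, N1, he, hme⟩ := many_extra (2 * M) hk hev (1 / (20 * 4 ^ M)) (by positivity)
  obtain ⟨ε, N2, hε, hes⟩ := exists_sets M hM e he
  have hη : 0 < min e (2 * ε) := lt_min he (by positivity)
  obtain ⟨c, hc⟩ : ∃ c : ℝ, c = 1 / (3 * 4 ^ (2 * M - 1)) + min e (2 * ε) := ⟨_, rfl⟩
  have hc0 : 0 < c := by rw [hc]; positivity
  have key : c ≤ dens (Set.Ioi (Real.pi - Real.pi / (2 * M : ℕ))) := by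
    refine le_dens _ c (c * ((N1 : ℝ) + N2) + 1 / 2 ^ (2 * M - 1)) ?_
    intro S hS hS3
    have hn3 : (3 : ℝ) ≤ S.card := by exact_mod_cast hS3
    obtain ⟨n, hn⟩ : ∃ n : ℝ, n = (S.card : ℝ) := ⟨_, rfl⟩
    rw [← hn] at hn3 ⊢
    have hn0 : 0 < n := by linarith
    have hcub : n * (n - 1) * (n - 2) ≤ n ^ 3 := by nlinarith
    have hcub' : c * (n * (n - 1) * (n - 2)) ≤ c * n ^ 3 := mul_le_mul_of_nonneg_left hcub hc0.le
    have h2pos : (0 : ℝ) < 1 / 2 ^ (2 * M - 1) := by positivity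
    have hcnt0 : (0 : ℝ) ≤ cnt S (Set.Ioi (Real.pi - Real.pi / (2 * M : ℕ))) := Nat.cast_nonneg _
    rcases Nat.lt_or_ge S.card (N1 + N2) with hlt | hge
    · have h1 : n ≤ (N1 : ℝ) + N2 := by
        rw [hn]
        exact_mod_cast hlt.le
      have h2 : c * n ^ 3 ≤ c * ((N1 : ℝ) + N2) * n ^ 2 := by
        have : c * n ^ 2 * n ≤ c * n ^ 2 * ((N1 : ℝ) + N2) :=
          mul_le_mul_of_nonneg_left h1 (by positivity)
        nlinarith
      have h3 : 0 ≤ 1 / 2 ^ (2 * M - 1) * n ^ 2 := by positivity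
      nlinarith
    · obtain ⟨d⟩ := exists_Dirs S hS (2 * M) (by omega)
      have hcnt := d.cnt_ge (by omega)
      have hcard : Fintype.card S = S.card := Fintype.card_coe S
      have hpaths := paths (2 * M) (by omega) d.R
      rw [d.miss_eq, hcard, ← hn] at hpaths
      have hge1 : 0 ≤ c * ((N1 : ℝ) + N2) * n ^ 2 := by positivity
      have h5 : n * (n + ((0 : ℕ) : ℝ)) / (2 * 2 ^ (2 * M - 1)) =
          1 / 2 * (1 / 2 ^ (2 * M - 1) * n ^ 2) := by
        have h2ne : (2 : ℝ) ^ (2 * M - 1) ≠ 0 := by positivity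
        rw [Nat.cast_zero, add_zero]
        generalize (2 : ℝ) ^ (2 * M - 1) = D at h2ne
        field_simp
      rw [h5] at hpaths
      have h4ne : (4 : ℝ) ^ (2 * M - 1) ≠ 0 := by positivity
      have h6 : n ^ 3 / (6 * 4 ^ (2 * M - 1)) = 1 / 2 * (1 / (3 * 4 ^ (2 * M - 1)) * n ^ 3) := by
        generalize (4 : ℝ) ^ (2 * M - 1) = D at h4ne
        field_simp
        norm_num
      rw [h6] at hpaths
      have hcn : c * n ^ 3 = 1 / (3 * 4 ^ (2 * M - 1)) * n ^ 3 + min e (2 * ε) * n ^ 3 := by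
        rw [hc]; ring
      have hn3pos : 0 < n ^ 3 := by positivity
      by_cases hp : pth d.R ≤ (1 / (6 * 4 ^ (2 * M - 1)) + ε) * n ^ 3
      · obtain ⟨C, hC1, hC2⟩ := hes S d.R (by rw [hcard]; omega) (fun x y h => d.joined x y h)
          (by rw [hcard, ← hn]; exact hp)
        have hex := hme S d C (by omega) (fun q => by
            have := hC1 q
            rw [hcard] at this
            refine le_trans (le_of_eq ?_) this
            ring) (fun q q' hq => by
            have := hC2 q q' hq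
            rw [hcard] at this
            exact this)
        rw [← hn] at hex
        have h7 : min e (2 * ε) * n ^ 3 ≤ e * n ^ 3 :=
          mul_le_mul_of_nonneg_right (min_le_left _ _) hn3pos.le
        nlinarith
      · push Not at hp
        have h7 : min e (2 * ε) * n ^ 3 ≤ 2 * ε * n ^ 3 :=
          mul_le_mul_of_nonneg_right (min_le_right _ _) hn3pos.le
        have h8 : (1 / (6 * 4 ^ (2 * M - 1)) + ε) * n ^ 3 =
            1 / 2 * (1 / (3 * 4 ^ (2 * M - 1)) * n ^ 3) + ε * n ^ 3 := by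
          rw [add_mul]
          congr 1
          generalize (4 : ℝ) ^ (2 * M - 1) = D at h4ne
          field_simp
          norm_num
        rw [h8] at hp
        have h9 : (0 : ℝ) ≤ ((univ.filter fun t : S × S × S => d.xt t.1 t.2.1 t.2.2).card : ℝ) :=
          Nat.cast_nonneg _
        have h10 : 0 ≤ 1 / 2 ^ (2 * M - 1) * n ^ 2 := by positivity
        nlinarith
  have : F (Real.pi - Real.pi / (2 * M : ℕ)) =
      dens (Set.Ioi (Real.pi - Real.pi / (2 * M : ℕ))) := rfl
  rw [this]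
  linarith

end Pool.Agent.MP_0af329_co.JF
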