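import Pool.Agent.MP_0af329_co.JE
import Pool.Agent.MP_0af329_co.JH6

/-! Assembly: the jumps of `F` at `π - π/k` for all `k ≥ 2`. -/

set_option autoImplicit false

namespace Pool.Agent.MP_0af329_co.JF

open EuclideanGeometry Filter Topology

/-- The value at `π - π/k` is strictly above the right limit, for every `k ≥ 2`. -/
theorem F_gt (k : ℕ) (hk : 2 ≤ k) : 1 / (3 * 4 ^ (k - 1)) < F (Real.pi - Real.pi / k) := by
  rcases Nat.even_or_odd k with hev | hodd
  · rcases Nat.lt_or_ge k 4 with h | h
    · have h2 : k = 2 := by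
        obtain ⟨m, hm⟩ := hev
        omega
      subst h2
      rw [pi_sub_pi_div_two]
      have h1 : 1 / 10 ≤ F (Real.pi / 2) := tenth_le_dens
      norm_num
      linarith
    · exact F_even k h hev
  · have h3 : 3 ≤ k := by
      obtain ⟨m, hm⟩ := hodd
      omega
    have h1 := F_odd k h3 hodd
    have h2 : (0 : ℝ) < 1 / (8192 * 32 ^ (k - 1)) := by positivity
    linarith

end Pool.Agent.MP_0af329_co.JF
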