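import Pool.Agent.MP_0af329_co.JGDefs
import Pool.Agent.MP_0af329_co.JA2

set_option autoImplicit false

namespace Pool.Agent.MP_0af329_co.JF

open Finset

theorem le_tri (s : ℝ) (m : ℤ) : 1 - |s - 4 * (m : ℝ)| ≤ tri s := by
  have h := round_le (s / 4) m
  have h1 : |s - 4 * (round (s / 4) : ℝ)| = 4 * |s / 4 - (round (s / 4) : ℝ)| := by
    rw [show s - 4 * (round (s / 4) : ℝ) = 4 * (s / 4 - (round (s / 4) : ℝ)) by ring, abs_mul]
    norm_num
  have h2 : |s - 4 * (m : ℝ)| = 4 * |s / 4 - (m : ℝ)| := by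
    rw [show s - 4 * (m : ℝ) = 4 * (s / 4 - (m : ℝ)) by ring, abs_mul]
    norm_num
  unfold tri
  rw [h1, h2]
  linarith

theorem tri_red (s : ℝ) : |s - 4 * (round (s / 4) : ℝ)| ≤ 2 := by
  have h := abs_sub_round (s / 4)
  have h1 : |s - 4 * (round (s / 4) : ℝ)| = 4 * |s / 4 - (round (s / 4) : ℝ)| := by
    rw [show s - 4 * (round (s / 4) : ℝ) = 4 * (s / 4 - (round (s / 4) : ℝ)) by ring, abs_mul]
    norm_num
  rw [h1]
  linarith

theorem tri_eq {s : ℝ} (m : ℤ) (h : |s - 4 * (m : ℝ)| ≤ 2) : tri s = 1 - |s - 4 * (m : ℝ)| := by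
  apply le_antisymm _ (le_tri s m)
  unfold tri
  by_cases hm : round (s / 4) = m
  · rw [hm]
  · have h1 : (1 : ℝ) ≤ |((round (s / 4) : ℤ) : ℝ) - (m : ℝ)| := by
      have h2 : (1 : ℤ) ≤ |round (s / 4) - m| := Int.one_le_abs (sub_ne_zero.2 hm)
      exact_mod_cast h2
    have h3 : |4 * ((round (s / 4) : ℤ) : ℝ) - 4 * (m : ℝ)| =
        4 * |((round (s / 4) : ℤ) : ℝ) - (m : ℝ)| := by
      rw [← mul_sub, abs_mul]
      norm_num
    have h4 : |4 * ((round (s / 4) : ℤ) : ℝ) - 4 * (m : ℝ)| ≤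
        |s - 4 * (m : ℝ)| + |s - 4 * (round (s / 4) : ℝ)| := by
      have := abs_sub (s - 4 * (m : ℝ)) (s - 4 * (round (s / 4) : ℝ))
      refine le_trans (le_of_eq ?_) this
      congr 1
      ring
    linarith

theorem tri_of_abs_le {s : ℝ} (h : |s| ≤ 2) : tri s = 1 - |s| := by
  have := tri_eq (s := s) 0 (by simpa using h)
  simpa using this

theorem tri_neg (s : ℝ) : tri (-s) = tri s := by
  have h := tri_red s
  have e : -s - 4 * ((-round (s / 4) : ℤ) : ℝ) = -(s - 4 * (round (s / 4) : ℝ)) := by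
    push_cast; ring
  rw [tri_eq (s := -s) (-round (s / 4)) (by rw [e, abs_neg]; exact h), e, abs_neg]
  rfl

theorem tri_add_two (s : ℝ) : tri (s + 2) = - tri s := by
  have h := tri_red s
  obtain ⟨u, hu⟩ : ∃ u : ℝ, u = s - 4 * (round (s / 4) : ℝ) := ⟨_, rfl⟩
  have hs : tri s = 1 - |u| := by unfold tri; rw [hu]
  rw [← hu] at h
  rw [hs]
  obtain ⟨h1, h2⟩ := abs_le.1 h
  rcases le_total 0 u with h0 | h0
  · have e : s + 2 - 4 * ((round (s / 4) + 1 : ℤ) : ℝ) = u - 2 := by
      rw [hu]; push_cast; ring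
    rw [tri_eq (s := s + 2) (round (s / 4) + 1) (by rw [e, abs_le]; constructor <;> linarith), e,
      abs_of_nonneg h0, abs_of_nonpos (by linarith)]
    ring
  · have e : s + 2 - 4 * ((round (s / 4) : ℤ) : ℝ) = u + 2 := by
      rw [hu]; ring
    rw [tri_eq (s := s + 2) (round (s / 4)) (by rw [e, abs_le]; constructor <;> linarith), e,
      abs_of_nonpos h0, abs_of_nonneg (by linarith)]
    ring

theorem abs_tri_le (s : ℝ) : |tri s| ≤ 1 := by
  have h := tri_red s
  have h0 := abs_nonneg (s - 4 * (round (s / 4) : ℝ))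
  unfold tri
  rw [abs_le]
  constructor <;> linarith

theorem tri_lip (s t : ℝ) : |tri s - tri t| ≤ |s - t| := by
  have key : ∀ s t : ℝ, tri t - |s - t| ≤ tri s := by
    intro s t
    refine le_trans ?_ (le_tri s (round (t / 4)))
    have h1 : |s - 4 * (round (t / 4) : ℝ)| ≤ |s - t| + |t - 4 * (round (t / 4) : ℝ)| := by
      have := abs_add_le (s - t) (t - 4 * (round (t / 4) : ℝ))
      refine le_trans (le_of_eq ?_) this
      congr 1
      ring
    have h2 : tri t = 1 - |t - 4 * (round (t / 4) : ℝ)| := rfl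
    rw [h2]
    linarith
  have h1 := key s t
  have h2 := key t s
  rw [abs_sub_comm t s] at h2
  rw [abs_le]
  constructor <;> linarith

theorem kap_eq_tri (s t : ℝ) : kap s t = tri (s - t) := by
  have hs := rd_mem s
  have ht := rd_mem t
  obtain ⟨D, hD⟩ : ∃ D : ℝ, D = rd s - rd t := ⟨_, rfl⟩
  have hst : s - t = D + 2 * ((md s : ℝ) - md t) := by rw [hD]; unfold rd; ring
  have hD1 : -2 ≤ D ∧ D ≤ 2 := by rw [hD]; constructor <;> linarith [hs.1, hs.2, ht.1, ht.2]
  unfold kap
  rw [← hD]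
  rcases Int.even_or_odd' (md s - md t) with ⟨j, hj | hj⟩
  · have hpar : sgd s * sgd t = 1 := by
      have : Even (md s) ↔ Even (md t) := by
        rw [← Int.even_sub, hj]
        exact even_two_mul j
      unfold sgd
      by_cases h : Even (md s)
      · rw [if_pos h, if_pos (this.1 h)]; norm_num
      · rw [if_neg h, if_neg (fun h' => h (this.2 h'))]; norm_num
    have hj' : ((md s : ℝ) - md t) = 2 * j := by exact_mod_cast hj
    have e : s - t - 4 * (j : ℝ) = D := by rw [hst, hj']; ring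
    rw [tri_eq (s := s - t) j (by rw [e, abs_le]; exact hD1), e, hpar]
    ring
  · have hpar : sgd s * sgd t = -1 := by
      have : ¬ (Even (md s) ↔ Even (md t)) := by
        rw [← Int.even_sub, hj, Int.even_add_one, not_not]
        exact even_two_mul j
      unfold sgd
      by_cases h : Even (md s)
      · have h' : ¬ Even (md t) := fun h' => this ⟨fun _ => h', fun _ => h⟩
        rw [if_pos h, if_neg h']; norm_num
      · have h' : Even (md t) := by
          by_contra h'
          exact this ⟨fun h'' => absurd h'' h, fun h'' => absurd h'' h'⟩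
        rw [if_neg h, if_pos h']; norm_num
    have hj' : ((md s : ℝ) - md t) = 2 * j + 1 := by exact_mod_cast hj
    rw [hpar]
    rcases le_total D 0 with h0 | h0
    · have e : s - t - 4 * (j : ℝ) = D + 2 := by rw [hst, hj']; ring
      rw [tri_eq (s := s - t) j (by rw [e, abs_le]; constructor <;> linarith [hD1.1]), e,
        abs_of_nonpos h0, abs_of_nonneg (by linarith [hD1.1])]
      ring
    · have e : s - t - 4 * ((j + 1 : ℤ) : ℝ) = D - 2 := by rw [hst, hj']; push_cast; ring
      rw [tri_eq (s := s - t) (j + 1) (by rw [e, abs_le]; constructor <;> linarith [hD1.2]), e,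
        abs_of_nonneg h0, abs_of_nonpos (by linarith [hD1.2])]
      ring

end Pool.Agent.MP_0af329_co.JF
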