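import Pool.Agent.MP_0af329_co.JG1
import Pool.Agent.MP_0af329_co.JA3

set_option autoImplicit false

namespace Pool.Agent.MP_0af329_co.JF

open Finset

/-- ROW F18-G2a.  `kap_eq_tri` and `sS univ T (p - 1/2) - sS univ T (q - 1/2) = sS univ T (p - q)`. -/
theorem kk_eq {K : ℕ} (p q : Fin K → ℝ) :
    kk p q = SS univ (fun i => p i - q i) tri 0 / 2 ^ K := by
  unfold kk SS
  congr 1
  refine Finset.sum_congr rfl fun T _ => ?_
  rw [kap_eq_tri, zero_add]
  congr 1
  unfold sS
  rw [← Finset.sum_sub_distrib]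
  refine Finset.sum_congr rfl fun i _ => ?_
  by_cases h : i ∈ T
  · simp only [if_pos h]
    ring
  · simp only [if_neg h]
    ring

end Pool.Agent.MP_0af329_co.JF
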