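import Pool.Agent.MP_0af329_co.JG1
import Pool.Agent.MP_0af329_co.JG2a
import Pool.Agent.MP_0af329_co.JA6

set_option autoImplicit false

namespace Pool.Agent.MP_0af329_co.JF

open Finset

/-- ROW F18-G2b.  From `sum_kap_le`. -/
theorem kk_le {K : ℕ} (p q : Fin K → ℝ) (hp : ∀ i, 0 ≤ p i ∧ p i ≤ 1)
    (hq : ∀ i, 0 ≤ q i ∧ q i ≤ 1) (i : Fin K) : kk p q ≤ 1 - |p i - q i| := by
  unfold kk
  rw [div_le_iff₀ (by positivity), mul_comm]
  exact sum_kap_le K p q hp hq i

/-- ROW F18-G2b. -/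
theorem abs_kk_le {K : ℕ} (p q : Fin K → ℝ) : |kk p q| ≤ 1 := by
  unfold kk
  rw [abs_div, abs_of_pos (by positivity : (0 : ℝ) < 2 ^ K), div_le_iff₀ (by positivity), one_mul]
  refine (Finset.abs_sum_le_sum_abs _ _).trans ?_
  refine (Finset.sum_le_sum (g := fun _ => (1 : ℝ)) fun T _ => ?_).trans ?_
  · rw [kap_eq_tri]
    exact abs_tri_le _
  · rw [Finset.sum_const, Finset.card_powerset, Finset.card_univ, Fintype.card_fin, nsmul_eq_mul,
      mul_one]
    push_cast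
    exact le_refl _

private theorem JG2b_sS {K : ℕ} (T : Finset (Fin K)) (p q : Fin K → ℝ) :
    |sS univ T (fun i => p i - 1 / 2) - sS univ T (fun i => q i - 1 / 2)| ≤ ∑ i, |p i - q i| := by
  unfold sS
  rw [← Finset.sum_sub_distrib]
  refine (Finset.abs_sum_le_sum_abs _ _).trans (Finset.sum_le_sum fun i _ => ?_)
  split_ifs
  · rw [show p i - 1 / 2 - (q i - 1 / 2) = p i - q i by ring]
  · rw [show -(p i - 1 / 2) - -(q i - 1 / 2) = -(p i - q i) by ring, abs_neg]

/-- ROW F18-G2b.  `tri` is `1`-Lipschitz; `|sS univ T (p - r) - sS univ T (q - r)| ≤ ∑ |p i - q i|`. -/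
theorem kk_lip {K : ℕ} (p q r : Fin K → ℝ) : |kk p r - kk q r| ≤ ∑ i, |p i - q i| := by
  unfold kk
  rw [← sub_div, abs_div, abs_of_pos (by positivity : (0 : ℝ) < 2 ^ K), div_le_iff₀ (by positivity),
    ← Finset.sum_sub_distrib]
  refine (Finset.abs_sum_le_sum_abs _ _).trans ?_
  refine (Finset.sum_le_sum (g := fun _ => ∑ i, |p i - q i|) fun T _ => ?_).trans ?_
  · rw [kap_eq_tri, kap_eq_tri]
    refine (tri_lip _ _).trans ?_
    rw [sub_sub_sub_cancel_right]
    exact JG2b_sS T p q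
  · rw [Finset.sum_const, Finset.card_powerset, Finset.card_univ, Fintype.card_fin, nsmul_eq_mul]
    push_cast
    rw [mul_comm]

end Pool.Agent.MP_0af329_co.JF
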