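import Pool.Agent.MP_0af329_co.JG1
import Pool.Agent.MP_0af329_co.JG2a
import Pool.Agent.MP_0af329_co.JA3

set_option autoImplicit false

namespace Pool.Agent.MP_0af329_co.JF

open Finset

/-- ROW F18-G2c.  If some coordinates differ by exactly `1` the kernel vanishes:
`univ = insert i (univ.erase i)`, `SS_insert`: `SS (erase) tri (0 + d) + SS (erase) tri (0 - d)` with `|d| = 1`
and termwise `tri (s + 1) + tri (s - 1) = 0` by `tri_add_two`. -/
theorem kk_full {K : ℕ} (p q : Fin K → ℝ) (i : Fin K) (h : |p i - q i| = 1) : kk p q = 0 := by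
  have hi : i ∉ (univ : Finset (Fin K)).erase i := Finset.notMem_erase i univ
  have hu : insert i ((univ : Finset (Fin K)).erase i) = univ := Finset.insert_erase (mem_univ i)
  have key : SS ((univ : Finset (Fin K)).erase i) (fun j => p j - q j) tri 1 +
      SS ((univ : Finset (Fin K)).erase i) (fun j => p j - q j) tri (-1) = 0 := by
    rw [SS, SS, ← Finset.sum_add_distrib]
    refine Finset.sum_eq_zero fun T _ => ?_
    have := tri_add_two (-1 + sS ((univ : Finset (Fin K)).erase i) T fun j => p j - q j)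
    rw [show -1 + (sS ((univ : Finset (Fin K)).erase i) T fun j => p j - q j) + 2 =
      1 + sS ((univ : Finset (Fin K)).erase i) T fun j => p j - q j by ring] at this
    rw [this]
    ring
  have h0 : SS univ (fun j => p j - q j) tri 0 = 0 := by
    conv_lhs => rw [← hu]
    rw [SS_insert hi]
    rcases (abs_eq (by norm_num : (0 : ℝ) ≤ 1)).mp h with h1 | h1
    · rw [h1, zero_add, zero_sub]
      exact key
    · rw [h1, zero_add, zero_sub, neg_neg, add_comm]
      exact key
  rw [kk_eq, h0, zero_div]

/-- ROW F18-G2c.  If `p` and `q` agree outside two coordinates `a ≠ b`: write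
`univ = (univ \ {a, b}) ∪ {a, b}`, `SS_union`, `SS_zero`, and the four values
`tri (±x ± y) = 1 - |±x ± y|` with `|x|, |y| ≤ 1`; `|x + y| + |x - y| = 2 max |x| |y|`. -/
theorem kk_two {K : ℕ} (p q : Fin K → ℝ) (a b : Fin K) (hab : a ≠ b)
    (h : ∀ i, i ≠ a → i ≠ b → p i = q i) (ha : |p a - q a| ≤ 1) (hb : |p b - q b| ≤ 1) :
    kk p q = 1 - max |p a - q a| |p b - q b| := by
  have hb' : b ∉ ((univ : Finset (Fin K)).erase a).erase b := Finset.notMem_erase b _
  have hub : insert b (((univ : Finset (Fin K)).erase a).erase b) = univ.erase a :=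
    Finset.insert_erase (Finset.mem_erase.mpr ⟨hab.symm, mem_univ b⟩)
  have ha' : a ∉ insert b (((univ : Finset (Fin K)).erase a).erase b) := by
    rw [hub]
    exact Finset.notMem_erase a univ
  have hu : insert a (insert b (((univ : Finset (Fin K)).erase a).erase b)) = univ := by
    rw [hub]
    exact Finset.insert_erase (mem_univ a)
  have hcard : ((univ : Finset (Fin K)).card) = (((univ : Finset (Fin K)).erase a).erase b).card + 2 := by
    conv_lhs => rw [← hu]
    rw [Finset.card_insert_of_notMem ha', Finset.card_insert_of_notMem hb']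
  rw [Finset.card_univ, Fintype.card_fin] at hcard
  have hz : ∀ s : ℝ, SS (((univ : Finset (Fin K)).erase a).erase b) (fun i => p i - q i) tri s =
      2 ^ (((univ : Finset (Fin K)).erase a).erase b).card * tri s := fun s =>
    SS_zero _ (fun i hi => by
      have h1 := Finset.ne_of_mem_erase hi
      have h2 := Finset.ne_of_mem_erase (Finset.mem_of_mem_erase hi)
      rw [h i h2 h1, sub_self]) tri s
  have hS : SS univ (fun i => p i - q i) tri 0 =
      2 ^ (((univ : Finset (Fin K)).erase a).erase b).card *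
        (tri (0 + (p a - q a) + (p b - q b)) + tri (0 + (p a - q a) - (p b - q b)) +
        (tri (0 - (p a - q a) + (p b - q b)) + tri (0 - (p a - q a) - (p b - q b)))) := by
    conv_lhs => rw [← hu]
    rw [SS_insert ha', SS_insert hb', SS_insert hb', hz, hz, hz, hz]
    ring
  obtain ⟨a1, a2⟩ := abs_le.mp ha
  obtain ⟨b1, b2⟩ := abs_le.mp hb
  rw [kk_eq, hS, tri_of_abs_le (abs_le.mpr ⟨by linarith, by linarith⟩),
    tri_of_abs_le (abs_le.mpr ⟨by linarith, by linarith⟩),
    tri_of_abs_le (abs_le.mpr ⟨by linarith, by linarith⟩),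
    tri_of_abs_le (abs_le.mpr ⟨by linarith, by linarith⟩)]
  have hK : (2 : ℝ) ^ K = 2 ^ (((univ : Finset (Fin K)).erase a).erase b).card * 4 := by
    conv_lhs => rw [hcard]
    rw [pow_add]
    norm_num
  have e1 : |0 + (p a - q a) + (p b - q b)| = |(p a - q a) + (p b - q b)| := by
    congr 1
    ring
  have e2 : |0 + (p a - q a) - (p b - q b)| = |(p a - q a) - (p b - q b)| := by
    congr 1
    ring
  have e3 : |0 - (p a - q a) + (p b - q b)| = |(p a - q a) - (p b - q b)| := by
    rw [← abs_neg]
    congr 1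
    ring
  have e4 : |0 - (p a - q a) - (p b - q b)| = |(p a - q a) + (p b - q b)| := by
    rw [← abs_neg]
    congr 1
    ring
  rw [e1, e2, e3, e4]
  have hmax : |(p a - q a) + (p b - q b)| + |(p a - q a) - (p b - q b)| =
      2 * max |p a - q a| |p b - q b| := by
    generalize p a - q a = x
    generalize p b - q b = y
    rcases abs_cases (x + y) with ⟨h1, h1'⟩ | ⟨h1, h1'⟩ <;>
    rcases abs_cases (x - y) with ⟨h2, h2'⟩ | ⟨h2, h2'⟩ <;>
    rcases abs_cases x with ⟨h3, h3'⟩ | ⟨h3, h3'⟩ <;>
    rcases abs_cases y with ⟨h4, h4'⟩ | ⟨h4, h4'⟩ <;>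
    rcases max_cases |x| |y| with ⟨h5, h5'⟩ | ⟨h5, h5'⟩ <;>
    rw [h5] <;> rw [h1, h2] <;> linarith
  rw [hK]
  have hpos : (2 : ℝ) ^ (((univ : Finset (Fin K)).erase a).erase b).card ≠ 0 := by positivity
  field_simp
  linarith

/-- ROW F18-G2c.  If `p` and `q` agree outside one coordinate. -/
theorem kk_one {K : ℕ} (p q : Fin K → ℝ) (a : Fin K)
    (h : ∀ i, i ≠ a → p i = q i) (ha : |p a - q a| ≤ 1) : kk p q = 1 - |p a - q a| := by
  have ha' : a ∉ (univ : Finset (Fin K)).erase a := Finset.notMem_erase a univ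
  have hu : insert a ((univ : Finset (Fin K)).erase a) = univ := Finset.insert_erase (mem_univ a)
  have hcard : ((univ : Finset (Fin K)).card) = ((univ : Finset (Fin K)).erase a).card + 1 := by
    conv_lhs => rw [← hu]
    rw [Finset.card_insert_of_notMem ha']
  rw [Finset.card_univ, Fintype.card_fin] at hcard
  have hz : ∀ s : ℝ, SS ((univ : Finset (Fin K)).erase a) (fun i => p i - q i) tri s =
      2 ^ ((univ : Finset (Fin K)).erase a).card * tri s := fun s =>
    SS_zero _ (fun i hi => by
      rw [h i (Finset.ne_of_mem_erase hi), sub_self]) tri s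
  have hS : SS univ (fun i => p i - q i) tri 0 =
      2 ^ ((univ : Finset (Fin K)).erase a).card *
        (tri (0 + (p a - q a)) + tri (0 - (p a - q a))) := by
    conv_lhs => rw [← hu]
    rw [SS_insert ha', hz, hz]
    ring
  have hK : (2 : ℝ) ^ K = 2 ^ ((univ : Finset (Fin K)).erase a).card * 2 := by
    conv_lhs => rw [hcard]
    rw [pow_add]
    norm_num
  have hpos : (2 : ℝ) ^ ((univ : Finset (Fin K)).erase a).card ≠ 0 := by positivity
  rw [kk_eq, hS, zero_add, zero_sub, tri_neg, tri_of_abs_le (by linarith), hK]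
  field_simp
  ring

end Pool.Agent.MP_0af329_co.JF
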