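import Pool.Agent.MP_0af329_co.JG2b
import Pool.Agent.MP_0af329_co.JA2

set_option autoImplicit false

namespace Pool.Agent.MP_0af329_co.JF

open Finset

/-- The inequality for one choice of signs. -/
private theorem G3a_one {V : Type} [Fintype V] (s : V → ℝ) (t l μ : ℝ) :
    0 ≤ ∑ x, ∑ y, kap (s x) (s y) + 2 * l * ∑ x, kap (s x) t + l ^ 2 -
      2 * μ * (∑ x, phi (s x) + l * phi t) + μ ^ 2 / 3 := by
  have h := pd_ineq (univ : Finset (Option V))
    (fun o => Option.elim o (l * sgd t) fun x => sgd (s x))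
    (fun o => Option.elim o (rd t) fun x => rd (s x))
    (by
      intro o _
      rcases o with _ | x
      · exact ⟨(rd_mem t).1, (rd_mem t).2.le⟩
      · exact ⟨(rd_mem (s x)).1, (rd_mem (s x)).2.le⟩) μ
  simp only [Fintype.sum_option, Option.elim_none, Option.elim_some] at h
  have hsq : sgd t * sgd t = 1 := by
    rcases sgd_cases t with h1 | h1 <;> rw [h1] <;> norm_num
  have e0 : l * sgd t * (l * sgd t) * (1 - |rd t - rd t|) = l ^ 2 := by
    rw [sub_self, abs_zero]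
    have : l * sgd t * (l * sgd t) * (1 - 0) = l ^ 2 * (sgd t * sgd t) := by ring
    rw [this, hsq, mul_one]
  have e1 : ∑ x, l * sgd t * sgd (s x) * (1 - |rd t - rd (s x)|) = l * ∑ x, kap (s x) t := by
    rw [Finset.mul_sum]
    refine Finset.sum_congr rfl fun x _ => ?_
    unfold kap
    rw [abs_sub_comm (rd t)]
    ring
  have e2 : ∑ x, (sgd (s x) * (l * sgd t) * (1 - |rd (s x) - rd t|) +
      ∑ y, sgd (s x) * sgd (s y) * (1 - |rd (s x) - rd (s y)|)) =
      l * ∑ x, kap (s x) t + ∑ x, ∑ y, kap (s x) (s y) := by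
    rw [Finset.sum_add_distrib, Finset.mul_sum]
    congr 1
    refine Finset.sum_congr rfl fun x _ => ?_
    unfold kap
    ring
  have e3 : l * sgd t * (1 - rd t ^ 2) + ∑ x, sgd (s x) * (1 - rd (s x) ^ 2) =
      2 * (∑ x, phi (s x) + l * phi t) := by
    have : ∑ x, sgd (s x) * (1 - rd (s x) ^ 2) = 2 * ∑ x, phi (s x) := by
      rw [Finset.mul_sum]
      refine Finset.sum_congr rfl fun x _ => ?_
      unfold phi
      ring
    rw [this]
    unfold phi
    ring
  rw [e0, e1, e2, e3] at h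
  linarith

/-- ROW F18-G3a.  The test inequality.
PROOF.  For `T ⊆ univ` let `s x = sS univ T (p x - 1/2)`, `t = sS univ T (q - 1/2)`.  `pd_ineq` on `Option V`
with `w (some x) = sgd (s x)`, `r (some x) = rd (s x)`, `w none = l * sgd t`, `r none = rd t`, `μ = n / 2^(M-1)`:
`0 ≤ ∑_{x,y} kap (s x) (s y) + 2 l ∑_x kap (s x) t + l² - 2 μ (∑_x phi (s x) + l phi t) + μ²/3`.
Sum over all `T` and divide by `2^(2M)`:
`0 ≤ L2 M p + 2 l (∑_x kk (p x) q - n HH M q) + l²`; take `l = -(∑_x kk (p x) q - n HH M q)`.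
(`μ * SS univ (q - 1/2) phi 0 / 4^M = n HH M q`, `μ²/3 = 4 n²/(3·4^M)`.) -/
theorem test_ineq {V : Type} [Fintype V] (M : ℕ) (hM : 1 ≤ M) (p : V → Fin (2 * M) → ℝ)
    (q : Fin (2 * M) → ℝ) :
    (∑ x, kk (p x) q - Fintype.card V * HH M q) ^ 2 ≤ L2 M p := by
  set n : ℝ := (Fintype.card V : ℝ) with hn
  set μ : ℝ := 2 * n / 2 ^ M with hμ
  set D : ℝ := ∑ x, kk (p x) q - n * HH M q with hD
  set P : Finset (Finset (Fin (2 * M))) := (univ : Finset (Fin (2 * M))).powerset with hP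
  have hcard : (P.card : ℝ) = 4 ^ M := by
    rw [hP, Finset.card_powerset, Finset.card_univ, Fintype.card_fin]
    push_cast
    rw [pow_mul]
    norm_num
  have h4 : (0 : ℝ) < 4 ^ M := by positivity
  have h22 : (2 : ℝ) ^ (2 * M) = 4 ^ M := by
    rw [pow_mul]
    norm_num
  have h8 : (8 : ℝ) ^ M = 2 ^ M * 4 ^ M := by
    rw [← mul_pow]
    norm_num
  have h2 : (0 : ℝ) < 2 ^ M := by positivity
  have h44 : (4 : ℝ) ^ M = 2 ^ M * 2 ^ M := by
    rw [← mul_pow]
    norm_num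
  -- the sum over all signs
  have hsum : 0 ≤ ∑ T ∈ P, (∑ x, ∑ y, kap (sS univ T fun i => p x i - 1 / 2)
        (sS univ T fun i => p y i - 1 / 2) +
      2 * (-D) * ∑ x, kap (sS univ T fun i => p x i - 1 / 2) (sS univ T fun i => q i - 1 / 2) +
      (-D) ^ 2 - 2 * μ * (∑ x, phi (sS univ T fun i => p x i - 1 / 2) +
        (-D) * phi (sS univ T fun i => q i - 1 / 2)) + μ ^ 2 / 3) :=
    Finset.sum_nonneg fun T _ => G3a_one _ _ _ _
  simp only [Finset.sum_add_distrib, Finset.sum_sub_distrib, ← Finset.mul_sum,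
    Finset.sum_const, nsmul_eq_mul, hcard] at hsum
  have hX4 : ∀ X : ℝ, 4 ^ M * (X / 4 ^ M) = X := by
    intro X
    field_simp
  have eA : ∑ T ∈ P, ∑ x, ∑ y, kap (sS univ T fun i => p x i - 1 / 2)
      (sS univ T fun i => p y i - 1 / 2) = 4 ^ M * ∑ x, ∑ y, kk (p x) (p y) := by
    rw [Finset.sum_comm, Finset.mul_sum]
    refine Finset.sum_congr rfl fun x _ => ?_
    rw [Finset.sum_comm, Finset.mul_sum]
    refine Finset.sum_congr rfl fun y _ => ?_
    unfold kk
    rw [h22, hX4]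
  have eB : ∑ T ∈ P, ∑ x, kap (sS univ T fun i => p x i - 1 / 2)
      (sS univ T fun i => q i - 1 / 2) = 4 ^ M * ∑ x, kk (p x) q := by
    rw [Finset.sum_comm, Finset.mul_sum]
    refine Finset.sum_congr rfl fun x _ => ?_
    unfold kk
    rw [h22, hX4]
  have hHH : ∀ r : Fin (2 * M) → ℝ, ∑ T ∈ P, phi (sS univ T fun i => r i - 1 / 2) =
      8 ^ M / 2 * HH M r := by
    intro r
    have h80 : (8 : ℝ) ^ M ≠ 0 := by positivity
    have hX : ∀ X : ℝ, 8 ^ M / 2 * (2 * X / 8 ^ M) = X := by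
      intro X
      field_simp
    unfold HH SS
    rw [hX]
    simp only [zero_add]
    rfl
  have eC : ∑ T ∈ P, ∑ x, phi (sS univ T fun i => p x i - 1 / 2) =
      8 ^ M / 2 * ∑ x, HH M (p x) := by
    rw [Finset.sum_comm, Finset.mul_sum]
    exact Finset.sum_congr rfl fun x _ => hHH (p x)
  rw [eA, eB, eC, hHH q] at hsum
  have hL : 4 ^ M * (L2 M p - D ^ 2) = 4 ^ M * ∑ x, ∑ y, kk (p x) (p y) +
      2 * -D * (4 ^ M * ∑ x, kk (p x) q) + 4 ^ M * (-D) ^ 2 -
      2 * μ * (8 ^ M / 2 * ∑ x, HH M (p x) + -D * (8 ^ M / 2 * HH M q)) +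
      4 ^ M * (μ ^ 2 / 3) := by
    have hk : ∑ x, kk (p x) q = D + n * HH M q := by rw [hD]; ring
    rw [hk]
    unfold L2
    rw [← hn, hμ, h8]
    rw [h44]
    field_simp
    ring
  rw [← hL] at hsum
  have := (mul_nonneg_iff_of_pos_left h4).1 hsum
  linarith

end Pool.Agent.MP_0af329_co.JF
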