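import Pool.Agent.MP_0af329_co.JG2a
import Pool.Agent.MP_0af329_co.JA3

set_option autoImplicit false

namespace Pool.Agent.MP_0af329_co.JF

open Finset

/-- ROW F18-G3b.  Values of `HH` on the edges of the cube (and at the corners).
PROOF.  `SS_union` with `univ = (univ.erase a) ∪ {a}` and `SS_bits` on `univ.erase a` (`2M - 1 = 2(M-1)+1`
coordinates `±1/2`): the sum is `2^(M-1) * 2 * (phi (q a) + phi (1 - q a))` (as `phi (-s) = phi s`), and
`phi (q a) + phi (1 - q a) = (1 + 2 q a - 2 (q a)²)/2`. -/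
theorem HH_edge (M : ℕ) (hM : 1 ≤ M) (q : Fin (2 * M) → ℝ) (a : Fin (2 * M))
    (h : ∀ i, i ≠ a → q i = 0 ∨ q i = 1) (h0 : 0 ≤ q a) (h1 : q a ≤ 1) :
    HH M q = (1 + 2 * q a - 2 * q a ^ 2) / 4 ^ M := by
  obtain ⟨N, rfl⟩ : ∃ N, M = N + 1 := ⟨M - 1, by omega⟩
  have hb : ∀ i ∈ (univ : Finset (Fin (2 * (N + 1)))).erase a, |(fun i => q i - 1 / 2) i| = 1 / 2 := by
    intro i hi
    rcases h i (Finset.ne_of_mem_erase hi) with h2 | h2
    · simp only [h2]
      rw [zero_sub, abs_neg, abs_of_pos (by norm_num : (0 : ℝ) < 1 / 2)]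
    · simp only [h2]
      rw [show (1 : ℝ) - 1 / 2 = 1 / 2 by norm_num, abs_of_pos (by norm_num : (0 : ℝ) < 1 / 2)]
  have hc : ((univ : Finset (Fin (2 * (N + 1)))).erase a).card = 2 * N + 1 := by
    rw [Finset.card_erase_of_mem (Finset.mem_univ a), Finset.card_univ, Fintype.card_fin]
    omega
  have h2 := (SS_bits (fun i => q i - 1 / 2) hb).2 N hc
  have h3 : SS (univ : Finset (Fin (2 * (N + 1)))) (fun i => q i - 1 / 2) phi 0 =
      2 ^ N * (1 + 2 * q a - 2 * q a ^ 2) := by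
    rw [← Finset.insert_erase (Finset.mem_univ a), SS_insert (Finset.notMem_erase a _), h2, h2,
      show (0 : ℝ) + (q a - 1 / 2) + 1 / 2 = q a by ring,
      show (0 : ℝ) + (q a - 1 / 2) - 1 / 2 = q a - 1 by ring,
      show (0 : ℝ) - (q a - 1 / 2) + 1 / 2 = 1 - q a by ring,
      show (0 : ℝ) - (q a - 1 / 2) - 1 / 2 = - q a by ring,
      phi_of_abs_le (by rw [abs_le]; constructor <;> linarith : |q a| ≤ 1),
      phi_of_abs_le (by rw [abs_le]; constructor <;> linarith : |q a - 1| ≤ 1),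
      phi_of_abs_le (by rw [abs_le]; constructor <;> linarith : |1 - q a| ≤ 1),
      phi_of_abs_le (by rw [abs_le]; constructor <;> linarith : |- q a| ≤ 1)]
    ring
  rw [HH, h3, show (8 : ℝ) ^ (N + 1) = 2 ^ (N + 1) * 4 ^ (N + 1) by rw [← mul_pow]; norm_num]
  rw [pow_succ (2 : ℝ) N]
  have h4 : (2 : ℝ) ^ N ≠ 0 := by positivity
  have h5 : (4 : ℝ) ^ (N + 1) ≠ 0 := by positivity
  field_simp

/-- ROW F18-G3b.  `SS_zero`. -/
theorem HH_center (M : ℕ) : HH M (fun _ => 1 / 2) = 1 / 2 ^ M := by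
  have h1 : SS (univ : Finset (Fin (2 * M))) (fun _ => (1 / 2 : ℝ) - 1 / 2) phi 0 = 4 ^ M / 2 := by
    rw [SS_zero _ (fun i _ => by norm_num), Finset.card_univ, Fintype.card_fin,
      phi_of_abs_le (by rw [abs_zero]; norm_num : |(0 : ℝ)| ≤ 1), pow_mul]
    norm_num
    ring
  rw [HH, h1, show (8 : ℝ) ^ M = 2 ^ M * 4 ^ M by rw [← mul_pow]; norm_num]
  have h4 : (2 : ℝ) ^ M ≠ 0 := by positivity
  have h5 : (4 : ℝ) ^ M ≠ 0 := by positivity
  field_simp

end Pool.Agent.MP_0af329_co.JF
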