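import Pool.Agent.MP_0af329_co.JG1
import Pool.Agent.MP_0af329_co.JA3

set_option autoImplicit false

namespace Pool.Agent.MP_0af329_co.JF

open Finset

private theorem JG4a_bits {ι : Type} [DecidableEq ι] {I : Finset ι} (x : ι → ℝ)
    (h : ∀ i ∈ I, |x i| = 1 / 2) :
    (∀ m : ℕ, I.card = 2 * m → ∀ s : ℝ, SS I x tri s = 2 ^ m * tri s) ∧
    (∀ m : ℕ, I.card = 2 * m + 1 → ∀ s : ℝ,
      SS I x tri s = 2 ^ m * (tri (s + 1 / 2) + tri (s - 1 / 2))) := by
  have htri : ∀ s : ℝ, tri (s + 1) + tri (s - 1) = 0 := by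
    intro s
    have := tri_add_two (s - 1)
    rw [show s - 1 + 2 = s + 1 by ring] at this
    linarith
  induction I using Finset.induction_on with
  | empty =>
    refine ⟨fun m hm s => ?_, fun m hm s => ?_⟩
    · rw [Finset.card_empty] at hm
      obtain rfl : m = 0 := by omega
      rw [SS_empty]
      ring
    · rw [Finset.card_empty] at hm
      omega
  | insert a I ha ih =>
    obtain ⟨ih1, ih2⟩ := ih fun i hi => h i (Finset.mem_insert_of_mem hi)
    have hxa := h a (Finset.mem_insert_self a I)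
    have hsym : ∀ s : ℝ, SS (insert a I) x tri s = SS I x tri (s + 1 / 2) + SS I x tri (s - 1 / 2) := by
      intro s
      rw [SS_insert ha]
      rcases abs_eq (by norm_num : (0 : ℝ) ≤ 1 / 2) |>.mp hxa with h1 | h1
      · rw [h1]
      · rw [h1, sub_neg_eq_add, add_comm]
        rfl
    rw [Finset.card_insert_of_notMem ha]
    refine ⟨fun m hm s => ?_, fun m hm s => ?_⟩
    · obtain ⟨n, rfl⟩ : ∃ n, m = n + 1 := ⟨m - 1, by omega⟩
      have hc : I.card = 2 * n + 1 := by omega
      rw [hsym, ih2 n hc, ih2 n hc]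
      have e1 : s + 1 / 2 + 1 / 2 = s + 1 := by ring
      have e2 : s + 1 / 2 - 1 / 2 = s := by ring
      have e3 : s - 1 / 2 + 1 / 2 = s := by ring
      have e4 : s - 1 / 2 - 1 / 2 = s - 1 := by ring
      rw [e1, e2, e3, e4]
      have := htri s
      have e5 : tri (s + 1) = - tri (s - 1) := by linarith
      rw [e5]
      ring
    · have hc : I.card = 2 * m := by omega
      rw [hsym, ih1 m hc, ih1 m hc]
      ring

/-- ROW F18-G4a.  Two bits: `tri (s+1) + 2 tri s + tri (s-1) = 2 tri s`, as in `SS_bits` for `phi`.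
(induction on `I`; prove both parities together:
`SS I x tri s = 2^m tri s` for `|I| = 2m` and `2^m (tri (s + 1/2) + tri (s - 1/2))` for `|I| = 2m+1`). -/
theorem SS_bits_tri {ι : Type} [DecidableEq ι] {I : Finset ι} (x : ι → ℝ)
    (h : ∀ i ∈ I, |x i| = 1 / 2) (m : ℕ) (hm : I.card = 2 * m) (s : ℝ) :
    SS I x tri s = 2 ^ m * tri s :=
  (JG4a_bits x h).1 m hm s

end Pool.Agent.MP_0af329_co.JF
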