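import Pool.Agent.MP_0af329_co.JG1
import Pool.Agent.MP_0af329_co.JA3
import Pool.Agent.MP_0af329_co.JA4

set_option autoImplicit false

namespace Pool.Agent.MP_0af329_co.JF

open Finset

/-- `|y + u| + |y - u|` is monotone in `y ≥ 0`. -/
private theorem g4_mono {y u : ℝ} (hy : 0 ≤ y) (hy' : y ≤ 1 / 2) :
    |y + u| + |y - u| ≤ |1 / 2 + u| + |1 / 2 - u| := by
  rcases abs_cases (y + u) with ⟨h1, _⟩ | ⟨h1, _⟩ <;>
  rcases abs_cases (y - u) with ⟨h2, _⟩ | ⟨h2, _⟩ <;>
  rcases abs_cases (1 / 2 + u) with ⟨h3, _⟩ | ⟨h3, _⟩ <;>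
  rcases abs_cases (1 / 2 - u) with ⟨h4, _⟩ | ⟨h4, _⟩ <;>
  linarith

/-- The four terms with `A = 1/2`. -/
private theorem g4_four {y s : ℝ} (hy : 0 ≤ y) (hy' : y ≤ 1 / 2) (hs : |s| ≤ 1) :
    |1 / 2 + (y + s)| + |1 / 2 - (y + s)| + (|1 / 2 + (y - s)| + |1 / 2 - (y - s)|) ≤
      2 + 2 * |s| := by
  have h1 := g4_mono (u := 1 / 2 + s) hy hy'
  have h2 := g4_mono (u := 1 / 2 - s) hy hy'
  rw [show y + (1 / 2 + s) = 1 / 2 + (y + s) by ring,
    show y - (1 / 2 + s) = -(1 / 2 - (y - s)) by ring, abs_neg,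
    show (1 : ℝ) / 2 + (1 / 2 + s) = 1 + s by ring,
    show (1 : ℝ) / 2 - (1 / 2 + s) = -s by ring, abs_neg] at h1
  rw [show y + (1 / 2 - s) = 1 / 2 + (y - s) by ring,
    show y - (1 / 2 - s) = -(1 / 2 - (y + s)) by ring, abs_neg,
    show (1 : ℝ) / 2 + (1 / 2 - s) = 1 - s by ring,
    show (1 : ℝ) / 2 - (1 / 2 - s) = s by ring] at h2
  have hs' := abs_le.1 hs
  rw [abs_of_nonneg (by linarith : (0 : ℝ) ≤ 1 + s)] at h1
  rw [abs_of_nonneg (by linarith : (0 : ℝ) ≤ 1 - s)] at h2
  linarith

/-- The real inequality. -/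
private theorem g4_key {A B C D m : ℝ} (hA : 0 ≤ A) (hB : 0 ≤ B) (hC : 0 ≤ C) (hD : 0 ≤ D)
    (hA' : A ≤ 1 / 2) (hB' : B ≤ 1 / 2) (hC' : C ≤ 1 / 2) (hD' : D ≤ 1 / 2)
    (hCm : C ≤ m) (hDm : D ≤ m) :
    |A + (B + (C + D))| + |A - (B + (C + D))| + (|A + (B - (C + D))| + |A - (B - (C + D))|) +
      (|A + (B + (C - D))| + |A - (B + (C - D))| + (|A + (B - (C - D))| + |A - (B - (C - D))|)) ≤
      4 + 4 * m := by
  have m1 := g4_mono (u := B + (C + D)) hA hA'
  have m2 := g4_mono (u := B - (C + D)) hA hA'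
  have m3 := g4_mono (u := B + (C - D)) hA hA'
  have m4 := g4_mono (u := B - (C - D)) hA hA'
  have f1 := g4_four (s := C + D) hB hB' (by rw [abs_le]; constructor <;> linarith)
  have f2 := g4_four (s := C - D) hB hB' (by rw [abs_le]; constructor <;> linarith)
  have g : |C + D| + |C - D| ≤ 2 * m := by
    rcases abs_cases (C + D) with ⟨h1, _⟩ | ⟨h1, _⟩ <;>
    rcases abs_cases (C - D) with ⟨h2, _⟩ | ⟨h2, _⟩ <;>
    linarith
  linarith

private theorem g4_abs {ι : Type} [DecidableEq ι] (I : Finset ι) (x : ι → ℝ) (F : ℝ → ℝ) :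
    ∀ s : ℝ, SS I x F s = SS I (fun i => |x i|) F s := by
  induction I using Finset.induction_on with
  | empty => intro s; rw [SS_empty, SS_empty]
  | insert a I ha ih =>
    intro s
    rw [SS_insert ha, SS_insert ha, ih, ih]
    rcases abs_cases (x a) with ⟨h, _⟩ | ⟨h, _⟩
    · simp only [h]
    · simp only [h]
      rw [sub_neg_eq_add, ← sub_eq_add_neg, add_comm]

/-- ROW F18-G4b.  Four coordinates.  PROOF.  `I = {a, b, i, j}`; `|signed sum| ≤ 2`, so `tri = 1 - |·|` and
`SS I x tri 0 = 16 - ∑_{16 signs} |±x_a ± x_b ± x_i ± x_j|`.  As `|u + y| + |u - y| = 2 max |u| |y|` is monotone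
in `|y|`, replace `|x_a|, |x_b|` by `1/2`; with `s = ±x_i ± x_j`, `|s| ≤ 1`: `|s+1| + 2|s| + |s-1| = 2 + 2|s|`, and
`∑_{4 signs} |±x_i ± x_j| = 4 max |x_i| |x_j| ≤ 4 m`: the total is at most `8 + 8 m`. -/
theorem SS_four_tri {ι : Type} [DecidableEq ι] {I : Finset ι} (hI : I.card = 4) (x : ι → ℝ)
    (hx : ∀ i ∈ I, |x i| ≤ 1 / 2) (i j : ι) (hi : i ∈ I) (hj : j ∈ I) (hij : i ≠ j) (m : ℝ)
    (him : |x i| ≤ m) (hjm : |x j| ≤ m) :
    8 - 8 * m ≤ SS I x tri 0 := by
  -- the other two elements
  have c1 : (I.erase i).card = 3 := by rw [card_erase_of_mem hi]; omega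
  have hj' : j ∈ I.erase i := mem_erase.2 ⟨hij.symm, hj⟩
  have c2 : ((I.erase i).erase j).card = 2 := by rw [card_erase_of_mem hj']; omega
  obtain ⟨a, b, hab, he⟩ := card_eq_two.1 c2
  have e2 : I.erase i = insert j {a, b} := by rw [← insert_erase hj', he]
  have e1 : I = insert i (insert j {a, b}) := by rw [← e2, insert_erase hi]
  have ha : a ∈ (I.erase i).erase j := by rw [he]; exact mem_insert_self a {b}
  have hb : b ∈ (I.erase i).erase j := by rw [he]; exact mem_insert_of_mem (mem_singleton_self b)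
  have haI : a ∈ I := mem_of_mem_erase (mem_of_mem_erase ha)
  have hbI : b ∈ I := mem_of_mem_erase (mem_of_mem_erase hb)
  have haj : a ≠ j := ne_of_mem_erase ha
  have hbj : b ≠ j := ne_of_mem_erase hb
  have hai : a ≠ i := ne_of_mem_erase (mem_of_mem_erase ha)
  have hbi : b ≠ i := ne_of_mem_erase (mem_of_mem_erase hb)
  have e3 : I = insert a (insert b (insert i (insert j ∅))) := by
    rw [e1]
    ext z
    simp only [mem_insert, mem_singleton, notMem_empty, or_false]
    tauto
  have n1 : a ∉ insert b (insert i (insert j (∅ : Finset ι))) := by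
    simp [hab, haj, hai]
  have n2 : b ∉ insert i (insert j (∅ : Finset ι)) := by
    simp [hbj, hbi]
  have n3 : i ∉ insert j (∅ : Finset ι) := by
    simp [hij]
  have n4 : j ∉ (∅ : Finset ι) := notMem_empty j
  have hA := hx a haI
  have hB := hx b hbI
  have hC := hx i hi
  have hD := hx j hj
  rw [g4_abs I x tri 0, e3, SS_insert n1]
  simp only [SS_insert n2, SS_insert n3, SS_insert n4, SS_empty]
  have pA := abs_nonneg (x a)
  have pB := abs_nonneg (x b)
  have pC := abs_nonneg (x i)
  have pD := abs_nonneg (x j)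
  generalize |x a| = A at *
  generalize |x b| = B at *
  generalize |x i| = C at *
  generalize |x j| = D at *
  have key := g4_key pA pB pC pD hA hB hC hD him hjm
  have t1 : tri (0 + A + B + C + D) = 1 - |A + (B + (C + D))| := by
    rw [show 0 + A + B + C + D = A + (B + (C + D)) by ring]
    exact tri_of_abs_le (by rw [abs_le]; constructor <;> linarith)
  have t2 : tri (0 + A + B + C - D) = 1 - |A + (B + (C - D))| := by
    rw [show 0 + A + B + C - D = A + (B + (C - D)) by ring]
    exact tri_of_abs_le (by rw [abs_le]; constructor <;> linarith)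
  have t3 : tri (0 + A + B - C + D) = 1 - |A + (B - (C - D))| := by
    rw [show 0 + A + B - C + D = A + (B - (C - D)) by ring]
    exact tri_of_abs_le (by rw [abs_le]; constructor <;> linarith)
  have t4 : tri (0 + A + B - C - D) = 1 - |A + (B - (C + D))| := by
    rw [show 0 + A + B - C - D = A + (B - (C + D)) by ring]
    exact tri_of_abs_le (by rw [abs_le]; constructor <;> linarith)
  have t5 : tri (0 + A - B + C + D) = 1 - |A - (B - (C + D))| := by
    rw [show 0 + A - B + C + D = A - (B - (C + D)) by ring]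
    exact tri_of_abs_le (by rw [abs_le]; constructor <;> linarith)
  have t6 : tri (0 + A - B + C - D) = 1 - |A - (B - (C - D))| := by
    rw [show 0 + A - B + C - D = A - (B - (C - D)) by ring]
    exact tri_of_abs_le (by rw [abs_le]; constructor <;> linarith)
  have t7 : tri (0 + A - B - C + D) = 1 - |A - (B + (C - D))| := by
    rw [show 0 + A - B - C + D = A - (B + (C - D)) by ring]
    exact tri_of_abs_le (by rw [abs_le]; constructor <;> linarith)
  have t8 : tri (0 + A - B - C - D) = 1 - |A - (B + (C + D))| := by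
    rw [show 0 + A - B - C - D = A - (B + (C + D)) by ring]
    exact tri_of_abs_le (by rw [abs_le]; constructor <;> linarith)
  have s1 : tri (0 - A + B + C + D) = 1 - |A - (B + (C + D))| := by
    rw [show 0 - A + B + C + D = -(A - (B + (C + D))) by ring, tri_neg]
    exact tri_of_abs_le (by rw [abs_le]; constructor <;> linarith)
  have s2 : tri (0 - A + B + C - D) = 1 - |A - (B + (C - D))| := by
    rw [show 0 - A + B + C - D = -(A - (B + (C - D))) by ring, tri_neg]
    exact tri_of_abs_le (by rw [abs_le]; constructor <;> linarith)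
  have s3 : tri (0 - A + B - C + D) = 1 - |A - (B - (C - D))| := by
    rw [show 0 - A + B - C + D = -(A - (B - (C - D))) by ring, tri_neg]
    exact tri_of_abs_le (by rw [abs_le]; constructor <;> linarith)
  have s4 : tri (0 - A + B - C - D) = 1 - |A - (B - (C + D))| := by
    rw [show 0 - A + B - C - D = -(A - (B - (C + D))) by ring, tri_neg]
    exact tri_of_abs_le (by rw [abs_le]; constructor <;> linarith)
  have s5 : tri (0 - A - B + C + D) = 1 - |A + (B - (C + D))| := by
    rw [show 0 - A - B + C + D = -(A + (B - (C + D))) by ring, tri_neg]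
    exact tri_of_abs_le (by rw [abs_le]; constructor <;> linarith)
  have s6 : tri (0 - A - B + C - D) = 1 - |A + (B - (C - D))| := by
    rw [show 0 - A - B + C - D = -(A + (B - (C - D))) by ring, tri_neg]
    exact tri_of_abs_le (by rw [abs_le]; constructor <;> linarith)
  have s7 : tri (0 - A - B - C + D) = 1 - |A + (B + (C - D))| := by
    rw [show 0 - A - B - C + D = -(A + (B + (C - D))) by ring, tri_neg]
    exact tri_of_abs_le (by rw [abs_le]; constructor <;> linarith)
  have s8 : tri (0 - A - B - C - D) = 1 - |A + (B + (C + D))| := by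
    rw [show 0 - A - B - C - D = -(A + (B + (C + D))) by ring, tri_neg]
    exact tri_of_abs_le (by rw [abs_le]; constructor <;> linarith)
  rw [t1, t2, t3, t4, t5, t6, t7, t8, s1, s2, s3, s4, s5, s6, s7, s8]
  linarith

end Pool.Agent.MP_0af329_co.JF
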