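import Pool.Agent.MP_0af329_co.JG4a
import Pool.Agent.MP_0af329_co.JG4b
import Pool.Agent.MP_0af329_co.JG2a

set_option autoImplicit false

namespace Pool.Agent.MP_0af329_co.JF

open Finset

/-- The common computation. -/
private theorem G4c_aux (M : ℕ) (hM : 2 ≤ M) (p : Fin (2 * M) → ℝ) (hp : ∀ i, 0 ≤ p i ∧ p i ≤ 1)
    (J : Finset (Fin (2 * M))) (hJ : J.card = 4) (hb : ∀ i, i ∉ J → p i = 0 ∨ p i = 1)
    (m : ℝ) (i j : Fin (2 * M)) (hiJ : i ∈ J) (hjJ : j ∈ J) (hij : i ≠ j)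
    (hi : |p i - 1 / 2| ≤ m) (hj : |p j - 1 / 2| ≤ m) :
    (2 - 2 * m) / 2 ^ M ≤ kk p (fun _ => 1 / 2) := by
  have hu : (univ : Finset (Fin (2 * M))) = Jᶜ ∪ J := by
    rw [Finset.union_comm, Finset.union_compl]
  have hd : Disjoint Jᶜ J := disjoint_compl_left
  have hc : Jᶜ.card = 2 * (M - 2) := by
    rw [Finset.card_compl, Fintype.card_fin, hJ]
    omega
  have hbits : ∀ i ∈ Jᶜ, |p i - 1 / 2| = 1 / 2 := by
    intro i hi
    rcases hb i (Finset.mem_compl.1 hi) with h | h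
    · rw [h]; norm_num
    · rw [h]; norm_num
  have h1 : SS Jᶜ (fun i => p i - 1 / 2) tri = fun s => 2 ^ (M - 2) * tri s := by
    funext s
    exact SS_bits_tri _ hbits (M - 2) hc s
  have h2 : SS univ (fun i => p i - 1 / 2) tri 0 = 2 ^ (M - 2) * SS J (fun i => p i - 1 / 2) tri 0 := by
    rw [hu, SS_union hd, h1]
    unfold SS
    rw [Finset.mul_sum]
  have h3 : 8 - 8 * m ≤ SS J (fun i => p i - 1 / 2) tri 0 := by
    refine SS_four_tri hJ _ (fun k _ => ?_) i j hiJ hjJ hij m hi hj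
    have := hp k
    rw [abs_le]
    constructor <;> linarith [this.1, this.2]
  rw [kk_eq, h2]
  obtain ⟨n, rfl⟩ : ∃ n, M = n + 2 := ⟨M - 2, by omega⟩
  have h4 : n + 2 - 2 = n := by omega
  rw [h4, div_le_div_iff₀ (by positivity) (by positivity)]
  have h5 : (0 : ℝ) < 2 ^ n := by positivity
  have e1 : (2 : ℝ) ^ (2 * (n + 2)) = 2 ^ n * 2 ^ n * 16 := by
    rw [show 2 * (n + 2) = n + n + 4 by ring, pow_add, pow_add]
    norm_num
  have e2 : (2 : ℝ) ^ (n + 2) = 2 ^ n * 4 := by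
    rw [pow_add]
    norm_num
  rw [e1, e2]
  have h6 : 2 ^ n * 2 ^ n * 4 * (8 - 8 * m) ≤
      2 ^ n * 2 ^ n * 4 * SS J (fun i => p i - 1 / 2) tri 0 :=
    mul_le_mul_of_nonneg_left h3 (by positivity)
  nlinarith [h6]

/-- ROW F18-G4c.  `kk_eq`, `SS_union` with `univ = J'ᶜ ∪ J'`, `SS_bits_tri` on `J'ᶜ` (`2(M-2)` elements),
`SS_four_tri` with `m = 1/2`. -/
theorem kk_center_ge (M : ℕ) (hM : 2 ≤ M) (p : Fin (2 * M) → ℝ) (hp : ∀ i, 0 ≤ p i ∧ p i ≤ 1)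
    (J : Finset (Fin (2 * M))) (hJ : J.card = 4) (hb : ∀ i, i ∉ J → p i = 0 ∨ p i = 1) :
    1 / 2 ^ M ≤ kk p (fun _ => 1 / 2) := by
  obtain ⟨i, hi, j, hj, hij⟩ := Finset.one_lt_card.1 (by omega : 1 < J.card)
  have hb2 : ∀ k, |p k - 1 / 2| ≤ 1 / 2 := by
    intro k
    have := hp k
    rw [abs_le]
    constructor <;> linarith [this.1, this.2]
  have h := G4c_aux M hM p hp J hJ hb (1 / 2) i j hi hj hij (hb2 i) (hb2 j)
  have e : (2 - 2 * (1 / 2) : ℝ) = 1 := by norm_num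
  rwa [e] at h

/-- ROW F18-G4c.  The same with `m = 1/2 - c`; if `i ∉ J` then `|p i - 1/2| = 1/2`, so `c ≤ 0` and
`kk_center_ge` is enough. -/
theorem kk_center_gap (M : ℕ) (hM : 2 ≤ M) (p : Fin (2 * M) → ℝ) (hp : ∀ i, 0 ≤ p i ∧ p i ≤ 1)
    (J : Finset (Fin (2 * M))) (hJ : J.card = 4) (hb : ∀ i, i ∉ J → p i = 0 ∨ p i = 1)
    (c : ℝ) (i j : Fin (2 * M)) (hij : i ≠ j) (hi : |p i - 1 / 2| ≤ 1 / 2 - c)
    (hj : |p j - 1 / 2| ≤ 1 / 2 - c) :
    (1 + 2 * c) / 2 ^ M ≤ kk p (fun _ => 1 / 2) := by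
  by_cases hiJ : i ∈ J
  · by_cases hjJ : j ∈ J
    · have h := G4c_aux M hM p hp J hJ hb (1 / 2 - c) i j hiJ hjJ hij hi hj
      have e : (2 - 2 * (1 / 2 - c) : ℝ) = 1 + 2 * c := by ring
      rwa [e] at h
    · have hc : c ≤ 0 := by
        rcases hb j hjJ with h | h
        · rw [h] at hj; norm_num at hj; linarith
        · rw [h] at hj; norm_num at hj; linarith
      refine le_trans ?_ (kk_center_ge M hM p hp J hJ hb)
      gcongr
      linarith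
  · have hc : c ≤ 0 := by
      rcases hb i hiJ with h | h
      · rw [h] at hi; norm_num at hi; linarith
      · rw [h] at hi; norm_num at hi; linarith
    refine le_trans ?_ (kk_center_ge M hM p hp J hJ hb)
    gcongr
    linarith

end Pool.Agent.MP_0af329_co.JF
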