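import Pool.Agent.MP_0af329_co.JG2c

set_option autoImplicit false

namespace Pool.Agent.MP_0af329_co.JF

open Finset

/-- Off the coordinate `a` the point `ep q a t` agrees with `q`. -/
private theorem g5_ep_ne {K : ℕ} (q : Fin K → ℝ) (a : Fin K) (t : ℝ) (i : Fin K) (hi : i ≠ a) :
    ep q a t i = q i := by
  rw [ep, if_neg hi]

/-- The distance of the coordinate `a`. -/
private theorem g5_ep_a {K : ℕ} (q : Fin K → ℝ) (a : Fin K) (t : ℝ) (hq : q a = 0 ∨ q a = 1)
    (x : ℝ) (h0 : 0 ≤ x) (h1 : x ≤ 1) : |x - ep q a t a| = |(|x - q a|) - t| := by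
  rw [ep, if_pos rfl]
  rcases hq with h | h
  · rw [h, sub_zero, abs_of_nonneg h0]
    congr 1
    ring
  · rw [h, abs_sub_comm x 1, abs_of_nonneg (by linarith : (0 : ℝ) ≤ 1 - x), abs_sub_comm]
    congr 1
    ring

/-- The kernel if `p` and `q` agree off `a` and `b`, `a ≠ b`. -/
private theorem g5_two {K : ℕ} (q : Fin K → ℝ) (a : Fin K) (hq : ∀ i, q i = 0 ∨ q i = 1)
    (p : Fin K → ℝ) (b : Fin K) (hb0 : 0 ≤ p b) (hb1 : p b ≤ 1) (ha0 : 0 ≤ p a) (ha1 : p a ≤ 1)
    (hab : a ≠ b) (h : ∀ i, i ≠ a → i ≠ b → p i = q i) (t : ℝ) (ht0 : 0 ≤ t) (ht1 : t ≤ 1) :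
    kk p (ep q a t) = 1 - max |(|p a - q a|) - t| |p b - q b| := by
  have h1 := g5_ep_a q a t (hq a) (p a) ha0 ha1
  have h2 : ep q a t b = q b := g5_ep_ne q a t b (Ne.symm hab)
  have h3 : |p b - q b| ≤ 1 := by
    rcases hq b with h | h <;> rw [h, abs_le] <;> constructor <;> linarith
  have h4 : 0 ≤ |p a - q a| ∧ |p a - q a| ≤ 1 := by
    refine ⟨abs_nonneg _, ?_⟩
    rcases hq a with h | h <;> rw [h, abs_le] <;> constructor <;> linarith
  have h5 : |(|p a - q a|) - t| ≤ 1 := by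
    rw [abs_le]; constructor <;> linarith [h4.1, h4.2]
  have h6 := kk_two p (ep q a t) a b hab
    (fun i hi hi' => by rw [g5_ep_ne q a t i hi]; exact h i hi hi') (by rw [h1]; exact h5)
    (by rw [h2]; exact h3)
  rw [h6, h1, h2]

/-- The kernel if `p` and `q` agree off `a`. -/
private theorem g5_one {K : ℕ} (q : Fin K → ℝ) (a : Fin K) (hq : ∀ i, q i = 0 ∨ q i = 1)
    (p : Fin K → ℝ) (ha0 : 0 ≤ p a) (ha1 : p a ≤ 1)
    (h : ∀ i, i ≠ a → p i = q i) (t : ℝ) (ht0 : 0 ≤ t) (ht1 : t ≤ 1) :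
    kk p (ep q a t) = 1 - |(|p a - q a|) - t| := by
  have h1 := g5_ep_a q a t (hq a) (p a) ha0 ha1
  have h4 : 0 ≤ |p a - q a| ∧ |p a - q a| ≤ 1 := by
    refine ⟨abs_nonneg _, ?_⟩
    rcases hq a with h | h <;> rw [h, abs_le] <;> constructor <;> linarith
  have h5 : |(|p a - q a|) - t| ≤ 1 := by
    rw [abs_le]; constructor <;> linarith [h4.1, h4.2]
  have h6 := kk_one p (ep q a t) a
    (fun i hi => by rw [g5_ep_ne q a t i hi]; exact h i hi) (by rw [h1]; exact h5)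
  rw [h6, h1]

/-- Numerical case `b = a`. -/
private theorem g5_num1 (x : ℝ) (h0 : 0 ≤ x) (h1 : x ≤ 1) :
    (1 - |x - 0|) + (1 - |x - 1|) - 28 * (1 - |x - 13 / 40|) + 27 * (1 - |x - 3 / 10|) ≤ 1 ∧
    (13 / 40 < x → (1 - |x - 0|) + (1 - |x - 1|) - 28 * (1 - |x - 13 / 40|) +
      27 * (1 - |x - 3 / 10|) ≤ 0) := by
  have e1 : |x - 0| = x := by rw [sub_zero, abs_of_nonneg h0]
  have e2 : |x - 1| = 1 - x := by rw [abs_of_nonpos (by linarith)]; ring
  rw [e1, e2]
  constructor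
  · rcases le_total x (3 / 10) with h | h
    · rw [abs_of_nonpos (by linarith : x - 13 / 40 ≤ 0), abs_of_nonpos (by linarith : x - 3 / 10 ≤ 0)]
      linarith
    · rw [abs_of_nonneg (by linarith : 0 ≤ x - 3 / 10)]
      rcases le_total x (13 / 40) with h' | h'
      · rw [abs_of_nonpos (by linarith : x - 13 / 40 ≤ 0)]
        linarith
      · rw [abs_of_nonneg (by linarith : 0 ≤ x - 13 / 40)]
        linarith
  · intro h
    rw [abs_of_nonneg (by linarith : 0 ≤ x - 3 / 10), abs_of_nonneg (by linarith : 0 ≤ x - 13 / 40)]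
    linarith

/-- Numerical case `b ≠ a`, `p a = q a`. -/
private theorem g5_num2 (x : ℝ) (h0 : 0 ≤ x) (h1 : x ≤ 1) :
    (1 - max |(0 : ℝ) - 0| x) + (1 - max |(0 : ℝ) - 1| x) - 28 * (1 - max |(0 : ℝ) - 13 / 40| x) +
      27 * (1 - max |(0 : ℝ) - 3 / 10| x) ≤ 1 ∧
    (13 / 40 < x → (1 - max |(0 : ℝ) - 0| x) + (1 - max |(0 : ℝ) - 1| x) -
      28 * (1 - max |(0 : ℝ) - 13 / 40| x) + 27 * (1 - max |(0 : ℝ) - 3 / 10| x) ≤ 0) := by
  have e0 : |(0 : ℝ) - 0| = 0 := by norm_num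
  have e1 : |(0 : ℝ) - 1| = 1 := by norm_num
  have e2 : |(0 : ℝ) - 13 / 40| = 13 / 40 := by
    rw [zero_sub, abs_neg, abs_of_pos (by norm_num)]
  have e3 : |(0 : ℝ) - 3 / 10| = 3 / 10 := by
    rw [zero_sub, abs_neg, abs_of_pos (by norm_num)]
  rw [e0, e1, e2, e3, max_eq_right h0, max_eq_left h1]
  constructor
  · rcases le_total x (3 / 10) with h | h
    · rw [max_eq_left (by linarith : x ≤ 13 / 40), max_eq_left h]
      linarith
    · rw [max_eq_right h]
      rcases le_total x (13 / 40) with h' | h'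
      · rw [max_eq_left h']
        linarith
      · rw [max_eq_right h']
        linarith
  · intro h
    rw [max_eq_right (by linarith : (3 / 10 : ℝ) ≤ x), max_eq_right h.le]
    linarith

/-- Numerical case `b ≠ a`, `|p a - q a| = 1`. -/
private theorem g5_num3 (x : ℝ) (h0 : 0 ≤ x) (h1 : x ≤ 1) :
    (1 - max |(1 : ℝ) - 0| x) + (1 - max |(1 : ℝ) - 1| x) - 28 * (1 - max |(1 : ℝ) - 13 / 40| x) +
      27 * (1 - max |(1 : ℝ) - 3 / 10| x) ≤ 0 := by
  have e0 : |(1 : ℝ) - 0| = 1 := by norm_num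
  have e1 : |(1 : ℝ) - 1| = 0 := by norm_num
  have e2 : |(1 : ℝ) - 13 / 40| = 27 / 40 := by
    rw [show (1 : ℝ) - 13 / 40 = 27 / 40 by norm_num, abs_of_pos (by norm_num)]
  have e3 : |(1 : ℝ) - 3 / 10| = 7 / 10 := by
    rw [show (1 : ℝ) - 3 / 10 = 7 / 10 by norm_num, abs_of_pos (by norm_num)]
  rw [e0, e1, e2, e3, max_eq_right h0, max_eq_left h1]
  rcases le_total x (27 / 40) with h | h
  · rw [max_eq_left h, max_eq_left (by linarith : x ≤ 7 / 10)]
    linarith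
  · rw [max_eq_right h]
    rcases le_total x (7 / 10) with h' | h'
    · rw [max_eq_left h']
      linarith
    · rw [max_eq_right h']
      linarith

/-- ROW F18-G5a.  On the edges of the cube the test function is `≤ 1` and is `≤ 0` unless `p` is close to
the corner `q`.  PROOF.  `q` has coordinates `0, 1`; `p` too, except for the coordinate `b`.  If `p i ≠ q i` for
some `i ∉ {a, b}`, then `|p i - ep q a t i| = 1` and all four values are `0` (`kk_full`).
Otherwise `p = q` outside `{a, b}`.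
CASE `b ≠ a`, `p a = q a`, `x = |p b - q b|`: `kk p (ep q a t) = 1 - max x t` (`kk_two`), the value is
`(1 - x) + 0 - 28 (1 - max x (13/40)) + 27 (1 - max x (3/10))` which is `0` for `x ≥ 13/40`, `28 (13/40 - x) ≤ 28/40`
for `3/10 ≤ x ≤ 13/40` and `1 - x` for `x ≤ 3/10`.
CASE `b ≠ a`, `|p a - q a| = 1`, `x = |p b - q b|`: `kk p (ep q a t) = 1 - max x (1 - t)`; the value is
`0 + (1 - x) - 28 (1 - max x (27/40)) + 27 (1 - max x (7/10))`: `0` for `x ≥ 7/10`, `-27 (7/10 - x)` for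
`27/40 ≤ x ≤ 7/10`, `-x` for `x ≤ 27/40`: always `≤ 0`.
CASE `b = a`, `x = |p a - q a|`: `kk p (ep q a t) = 1 - |x - t|` (`kk_one`); the value is
`(1 - x) + x - 28 (1 - |x - 13/40|) + 27 (1 - |x - 3/10|) = 28 |x - 13/40| - 27 |x - 3/10|`, which is
`x - 1 ≤ 0` for `x ≥ 13/40` and at most `1 - x` for `x ≤ 13/40`. -/
theorem PhT_le {K : ℕ} (q : Fin K → ℝ) (a : Fin K) (hq : ∀ i, q i = 0 ∨ q i = 1)
    (p : Fin K → ℝ) (b : Fin K) (hp : ∀ i, i ≠ b → p i = 0 ∨ p i = 1) (h0 : 0 ≤ p b)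
    (h1 : p b ≤ 1) :
    PhT q a p ≤ 1 ∧ ((∃ i, 13 / 40 < |p i - q i|) → PhT q a p ≤ 0) := by
  by_cases hex : ∃ i, i ≠ a ∧ i ≠ b ∧ p i ≠ q i
  · obtain ⟨i, hia, hib, hi⟩ := hex
    have hd : |p i - q i| = 1 := by
      rcases hp i hib with h2 | h2 <;> rcases hq i with h3 | h3 <;> rw [h2, h3] at hi ⊢
      · exact absurd rfl hi
      · norm_num
      · norm_num
      · exact absurd rfl hi
    have hz : ∀ t : ℝ, kk p (ep q a t) = 0 := fun t =>
      kk_full p (ep q a t) i (by rw [g5_ep_ne q a t i hia]; exact hd)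
    have hP : PhT q a p = 0 := by
      rw [PhT, hz, hz, hz, hz]
      norm_num
    rw [hP]
    exact ⟨by norm_num, fun _ => le_refl _⟩
  push Not at hex
  have hb2 : 0 ≤ |p b - q b| ∧ |p b - q b| ≤ 1 := by
    refine ⟨abs_nonneg _, ?_⟩
    rcases hq b with h | h <;> rw [h, abs_le] <;> constructor <;> linarith
  by_cases hab : a = b
  · subst hab
    have hk : ∀ t : ℝ, 0 ≤ t → t ≤ 1 → kk p (ep q a t) = 1 - |(|p a - q a|) - t| := fun t ht0 ht1 =>
      g5_one q a hq p h0 h1 (fun i hi => hex i hi hi) t ht0 ht1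
    have hn := g5_num1 |p a - q a| hb2.1 hb2.2
    rw [PhT, hk 0 (by norm_num) (by norm_num), hk 1 (by norm_num) (by norm_num),
      hk (13 / 40) (by norm_num) (by norm_num), hk (3 / 10) (by norm_num) (by norm_num)]
    refine ⟨hn.1, ?_⟩
    rintro ⟨i, hi⟩
    by_cases hia : i = a
    · rw [hia] at hi
      exact hn.2 hi
    · rw [hex i hia hia, sub_self, abs_zero] at hi
      norm_num at hi
  · have hpa := hp a hab
    have ha0 : 0 ≤ p a := by rcases hpa with h | h <;> rw [h]; norm_num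
    have ha1 : p a ≤ 1 := by rcases hpa with h | h <;> rw [h]; norm_num
    have hk : ∀ t : ℝ, 0 ≤ t → t ≤ 1 →
        kk p (ep q a t) = 1 - max |(|p a - q a|) - t| |p b - q b| := fun t ht0 ht1 =>
      g5_two q a hq p b h0 h1 ha0 ha1 hab hex t ht0 ht1
    rw [PhT, hk 0 (by norm_num) (by norm_num), hk 1 (by norm_num) (by norm_num),
      hk (13 / 40) (by norm_num) (by norm_num), hk (3 / 10) (by norm_num) (by norm_num)]
    have hd : |p a - q a| = 0 ∨ |p a - q a| = 1 := by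
      rcases hpa with h2 | h2 <;> rcases hq a with h3 | h3 <;> rw [h2, h3] <;> norm_num
    rcases hd with hd | hd
    · rw [hd]
      have hn := g5_num2 |p b - q b| hb2.1 hb2.2
      refine ⟨hn.1, ?_⟩
      rintro ⟨i, hi⟩
      by_cases hia : i = a
      · rw [hia, hd] at hi
        norm_num at hi
      · by_cases hib : i = b
        · rw [hib] at hi
          exact hn.2 hi
        · rw [hex i hia hib, sub_self, abs_zero] at hi
          norm_num at hi
    · rw [hd]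
      have hn := g5_num3 |p b - q b| hb2.1 hb2.2
      exact ⟨by linarith, fun _ => hn⟩

end Pool.Agent.MP_0af329_co.JF
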