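import Pool.Agent.MP_0af329_co.JG2b

set_option autoImplicit false

namespace Pool.Agent.MP_0af329_co.JF

open Finset

/-- ROW F18-G5b.  `kk_lip` four times. -/
theorem PhT_lip {K : ℕ} (q : Fin K → ℝ) (a : Fin K) (p p' : Fin K → ℝ) :
    |PhT q a p - PhT q a p'| ≤ 57 * ∑ i, |p i - p' i| := by
  unfold PhT
  have h0 := abs_le.1 (kk_lip p p' (ep q a 0))
  have h1 := abs_le.1 (kk_lip p p' (ep q a 1))
  have h2 := abs_le.1 (kk_lip p p' (ep q a (13 / 40)))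
  have h3 := abs_le.1 (kk_lip p p' (ep q a (3 / 10)))
  rw [abs_le]
  constructor <;> linarith [h0.1, h0.2, h1.1, h1.2, h2.1, h2.2, h3.1, h3.2]

/-- ROW F18-G5b.  `abs_kk_le` four times. -/
theorem abs_PhT_le {K : ℕ} (q : Fin K → ℝ) (a : Fin K) (p : Fin K → ℝ) : |PhT q a p| ≤ 57 := by
  unfold PhT
  have h0 := abs_le.1 (abs_kk_le p (ep q a 0))
  have h1 := abs_le.1 (abs_kk_le p (ep q a 1))
  have h2 := abs_le.1 (abs_kk_le p (ep q a (13 / 40)))
  have h3 := abs_le.1 (abs_kk_le p (ep q a (3 / 10)))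
  rw [abs_le]
  constructor <;> linarith [h0.1, h0.2, h1.1, h1.2, h2.1, h2.2, h3.1, h3.2]

end Pool.Agent.MP_0af329_co.JF
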