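import Pool.Agent.MP_0af329_co.JG3a
import Pool.Agent.MP_0af329_co.JG3b

set_option autoImplicit false

namespace Pool.Agent.MP_0af329_co.JF

open Finset

/-- `HH_edge` at the test points. -/
private theorem g5c_HH (M : ℕ) (hM : 1 ≤ M) (q : Fin (2 * M) → ℝ) (a : Fin (2 * M))
    (hq : ∀ i, q i = 0 ∨ q i = 1) (t : ℝ) (h0 : 0 ≤ t) (h1 : t ≤ 1) :
    HH M (ep q a t) = (1 + 2 * t - 2 * t ^ 2) / 4 ^ M := by
  have ha : ep q a t a = q a + t * (1 - 2 * q a) := by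
    unfold ep
    rw [if_pos rfl]
  have hne : ∀ i, i ≠ a → ep q a t i = 0 ∨ ep q a t i = 1 := by
    intro i hi
    unfold ep
    rw [if_neg hi]
    exact hq i
  rcases hq a with h | h
  · rw [h] at ha
    rw [HH_edge M hM _ a hne (by rw [ha]; linarith) (by rw [ha]; linarith), ha]
    ring
  · rw [h] at ha
    rw [HH_edge M hM _ a hne (by rw [ha]; linarith) (by rw [ha]; linarith), ha]
    ring

/-- ROW F18-G5c.  `test_ineq` at the four test points, `HH_edge` (applied to `ep q a t`, whose `a`-th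
coordinate `y` is `t` or `1 - t`, so `1 + 2y - 2y² = 1 + 2t - 2t²`):
`1 + 1 - 28 (1 + 2u - 2u²) + 27 (1 + 2u' - 2u'²) = 11/200`. -/
theorem sum_PhT_ge {V : Type} [Fintype V] (M : ℕ) (hM : 1 ≤ M) (p : V → Fin (2 * M) → ℝ)
    (q : Fin (2 * M) → ℝ) (a : Fin (2 * M)) (hq : ∀ i, q i = 0 ∨ q i = 1) (l : ℝ) (hl : 0 ≤ l)
    (hL : L2 M p ≤ l ^ 2) :
    11 / 200 * (Fintype.card V : ℝ) / 4 ^ M - 57 * l ≤ ∑ x, PhT q a (p x) := by
  have key : ∀ r : Fin (2 * M) → ℝ, -l ≤ ∑ x, kk (p x) r - Fintype.card V * HH M r ∧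
      ∑ x, kk (p x) r - Fintype.card V * HH M r ≤ l := fun r =>
    abs_le.1 (abs_le_of_sq_le_sq ((test_ineq M hM p r).trans hL) hl)
  have k0 := key (ep q a 0)
  have k1 := key (ep q a 1)
  have k2 := key (ep q a (13 / 40))
  have k3 := key (ep q a (3 / 10))
  rw [g5c_HH M hM q a hq 0 (by norm_num) (by norm_num)] at k0
  rw [g5c_HH M hM q a hq 1 (by norm_num) (by norm_num)] at k1
  rw [g5c_HH M hM q a hq (13 / 40) (by norm_num) (by norm_num)] at k2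
  rw [g5c_HH M hM q a hq (3 / 10) (by norm_num) (by norm_num)] at k3
  have e : ∑ x, PhT q a (p x) = ∑ x, kk (p x) (ep q a 0) + ∑ x, kk (p x) (ep q a 1) -
      28 * ∑ x, kk (p x) (ep q a (13 / 40)) + 27 * ∑ x, kk (p x) (ep q a (3 / 10)) := by
    simp only [PhT, sum_add_distrib, sum_sub_distrib, mul_sum]
  rw [e]
  have e2 : 11 / 200 * (Fintype.card V : ℝ) / 4 ^ M =
      (Fintype.card V : ℝ) * ((1 + 2 * 0 - 2 * 0 ^ 2) / 4 ^ M) +
      (Fintype.card V : ℝ) * ((1 + 2 * 1 - 2 * 1 ^ 2) / 4 ^ M) -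
      28 * ((Fintype.card V : ℝ) * ((1 + 2 * (13 / 40) - 2 * (13 / 40) ^ 2) / 4 ^ M)) +
      27 * ((Fintype.card V : ℝ) * ((1 + 2 * (3 / 10) - 2 * (3 / 10) ^ 2) / 4 ^ M)) := by
    ring
  rw [e2]
  linarith [k0.1, k1.1, k2.2, k3.1]

end Pool.Agent.MP_0af329_co.JF
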