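import Pool.Agent.MP_0af329_co.JGDefs
import Pool.Agent.MP_0af329_co.JA5

set_option autoImplicit false

namespace Pool.Agent.MP_0af329_co.JF

open Finset

private theorem SS_smul {ι : Type} [DecidableEq ι] (I : Finset ι) (x : ι → ℝ) (F : ℝ → ℝ)
    (c s : ℝ) : SS I x (fun t => c * F t) s = c * SS I x F s := by
  unfold SS
  rw [Finset.mul_sum]

/-- The value of one coordinate. -/
private noncomputable def bitp (a b : ℝ) : ℝ := if b ≤ a then 0 else 1

private theorem bitp_cases (a b : ℝ) : bitp a b = 0 ∨ bitp a b = 1 := by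
  unfold bitp; split_ifs <;> simp

private theorem bitp_le {a b : ℝ} (ha : 0 ≤ a) (hb : 0 ≤ b) (h : ¬ (a < 1 ∧ b < 1)) :
    bitp a b * a + (1 - bitp a b) * b - a * b ≤ 0 := by
  unfold bitp
  split_ifs with h1
  · have : 1 ≤ a := by
      by_contra h2
      exact h ⟨by linarith, by linarith⟩
    nlinarith
  · have : 1 ≤ b := by
      by_contra h2
      exact h ⟨by linarith, by linarith⟩
    nlinarith

private theorem quot_mem {a b : ℝ} (ha : 0 ≤ a) (hb : 0 ≤ b) :
    0 ≤ b / (a + b) ∧ b / (a + b) ≤ 1 :=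
  ⟨div_nonneg hb (by linarith), div_le_one_of_le₀ (by linarith) (by linarith)⟩

private theorem quot_le {a b : ℝ} (ha : 0 ≤ a) (hb : 0 ≤ b) :
    b / (a + b) * a + (1 - b / (a + b)) * b - a * b ≤ b / (a + b) * (1 - b / (a + b)) := by
  rcases eq_or_lt_of_le (by linarith : 0 ≤ a + b) with h | h
  · have h1 : a = 0 := by linarith
    have h2 : b = 0 := by linarith
    subst h1; subst h2; simp
  · set p := b / (a + b) with hp
    have hb' : b = p * (a + b) := by rw [hp]; field_simp
    have ha' : a = (1 - p) * (a + b) := by linarith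
    obtain ⟨hp0, hp1⟩ := quot_mem ha hb
    rw [← hp] at hp0 hp1
    set s := a + b with hs
    have h3 : p * a + (1 - p) * b - a * b = p * (1 - p) * (s * (2 - s)) := by
      rw [ha', hb']
      ring
    rw [h3]
    have h4 : s * (2 - s) ≤ 1 := by nlinarith [sq_nonneg (s - 1)]
    have h5 : 0 ≤ p * (1 - p) := mul_nonneg hp0 (by linarith)
    nlinarith

private theorem two_pow_ge (k : ℕ) (hk : 3 ≤ k) : (2 * k + 1 : ℝ) ≤ 2 ^ k := by
  induction k, hk using Nat.le_induction with
  | base => norm_num
  | succ n hn ih =>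
    rw [pow_succ]
    push_cast
    have : (3 : ℝ) ≤ n := by exact_mod_cast hn
    linarith

private theorem three_pow_ge (k : ℕ) (hk : 2 ≤ k) : (4 * k + 4 : ℝ) ≤ 3 * 2 ^ k := by
  induction k, hk using Nat.le_induction with
  | base => norm_num
  | succ n hn ih =>
    rw [pow_succ]
    push_cast
    have : (2 : ℝ) ≤ n := by exact_mod_cast hn
    linarith

open Classical in
/-- ROW F18-G6a.  A bonus when five or more colours are far from being one-sided.
PROOF.  If at most four coordinates have `α i < 1 - c ∧ β i < 1 - c` use `exists_price`.  Otherwise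
`J = {i : α i < 1 ∧ β i < 1}` has at least five elements; repeat the case `4 < J.card` of `exists_price` with
`c i = 1/2 - ((1-α)(1-β) + αβ)/2` and `((1-α)(1-β) + αβ)/2 ≥ c²/2` for at least five `i`. -/
theorem exists_price_bonus (M : ℕ) (hM : 2 ≤ M) (c : ℝ) (hc : 0 < c) (hc1 : c < 1)
    (α β : Fin (2 * M) → ℝ) (hα : ∀ i, 0 ≤ α i) (hβ : ∀ i, 0 ≤ β i) :
    ∃ p : Fin (2 * M) → ℝ, (∀ i, 0 ≤ p i ∧ p i ≤ 1) ∧
      ∑ i, (p i * α i + (1 - p i) * β i - α i * β i) ≤
        SS univ (fun i => p i - 1 / 2) phi 0 / 2 ^ M - 1 / 2 -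
          (if 4 < (univ.filter fun i => α i < 1 - c ∧ β i < 1 - c).card then c ^ 2 else 0) := by
  by_cases h5 : 4 < (univ.filter fun i => α i < 1 - c ∧ β i < 1 - c).card
  · rw [if_pos h5]
    set J5 : Finset (Fin (2 * M)) := univ.filter fun i => α i < 1 - c ∧ β i < 1 - c with hJ5
    have memJ5 : ∀ i, i ∈ J5 ↔ (α i < 1 - c ∧ β i < 1 - c) := fun i => by simp [hJ5]
    set J : Finset (Fin (2 * M)) := univ.filter fun i => α i < 1 ∧ β i < 1 with hJ
    have memJ : ∀ i, i ∈ J ↔ (α i < 1 ∧ β i < 1) := fun i => by simp [hJ]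
    have hsub : J5 ⊆ J := by
      intro i hi
      obtain ⟨h1, h2⟩ := (memJ5 i).1 hi
      exact (memJ i).2 ⟨by linarith, by linarith⟩
    have hr : 4 < J.card := lt_of_lt_of_le h5 (Finset.card_le_card hsub)
    set p : Fin (2 * M) → ℝ := fun i => if i ∈ J then 1 / 2 else bitp (α i) (β i) with hp
    have pin : ∀ i ∈ J, p i = 1 / 2 := fun i hi => by simp only [hp, if_pos hi]
    have pout : ∀ i, i ∉ J → p i = bitp (α i) (β i) := fun i hi => by simp only [hp, if_neg hi]
    refine ⟨p, ?_, ?_⟩
    · intro i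
      by_cases hi : i ∈ J
      · rw [pin i hi]; norm_num
      · rw [pout i hi]
        rcases bitp_cases (α i) (β i) with h | h <;> rw [h] <;> norm_num
    · have h1 : ∑ i, (p i * α i + (1 - p i) * β i - α i * β i) ≤ (J.card : ℝ) / 2 - c ^ 2 := by
        have h2 : ∑ i, (p i * α i + (1 - p i) * β i - α i * β i) ≤
            ∑ i, ((if i ∈ J then (1 / 2 : ℝ) else 0) - if i ∈ J5 then c ^ 2 / 2 else 0) := by
          apply Finset.sum_le_sum
          intro i _
          by_cases hi : i ∈ J
          · rw [if_pos hi, pin i hi]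
            obtain ⟨h3, h4⟩ := (memJ i).1 hi
            by_cases hi5 : i ∈ J5
            · rw [if_pos hi5]
              obtain ⟨h6, h7⟩ := (memJ5 i).1 hi5
              nlinarith [mul_nonneg (hα i) (hβ i),
                mul_nonneg (by linarith : 0 ≤ 1 - α i - c) (by linarith : 0 ≤ 1 - β i - c)]
            · rw [if_neg hi5]
              nlinarith [mul_nonneg (hα i) (hβ i),
                mul_nonneg (sub_nonneg.2 h3.le) (sub_nonneg.2 h4.le)]
          · rw [if_neg hi, pout i hi, if_neg (fun h => hi (hsub h)), sub_zero]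
            exact bitp_le (hα i) (hβ i) (fun h => hi ((memJ i).2 h))
        refine h2.trans ?_
        rw [Finset.sum_sub_distrib, Finset.sum_ite_mem, Finset.univ_inter, Finset.sum_const,
          nsmul_eq_mul, Finset.sum_ite_mem, Finset.univ_inter, Finset.sum_const, nsmul_eq_mul]
        have h8 : (5 : ℝ) ≤ J5.card := by exact_mod_cast h5
        nlinarith [sq_nonneg c]
      have hx : ∀ i ∈ Jᶜ, |p i - 1 / 2| = 1 / 2 := by
        intro i hi
        rw [pout i (Finset.mem_compl.1 hi)]
        rcases bitp_cases (α i) (β i) with h | h <;> rw [h] <;> norm_num [abs_of_pos, abs_of_neg]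
      have hfun : SS J (fun i => p i - 1 / 2) phi = fun t => 2 ^ J.card * phi t := by
        funext t
        exact SS_zero _ (fun i hi => by rw [pin i hi]; ring) phi t
      have hSS : SS univ (fun i => p i - 1 / 2) phi 0 =
          2 ^ J.card * SS Jᶜ (fun i => p i - 1 / 2) phi 0 := by
        have := SS_union (disjoint_compl_right : Disjoint J Jᶜ) (fun i => p i - 1 / 2) phi 0
        rw [Finset.union_compl] at this
        rw [this, hfun, SS_smul]
      have hcard : J.card + Jᶜ.card = 2 * M := by
        rw [Finset.card_add_card_compl, Fintype.card_fin]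
      obtain ⟨he, ho⟩ := SS_bits (I := Jᶜ) (fun i => p i - 1 / 2) hx
      refine h1.trans ?_
      rw [hSS]
      have phi0 : phi 0 = 1 / 2 := by
        rw [phi_of_abs_le (by norm_num)]; norm_num
      have phih : phi (0 + 1 / 2) = 3 / 8 := by
        rw [phi_of_abs_le (by norm_num [abs_of_pos])]; norm_num
      have phih' : phi (0 - 1 / 2) = 3 / 8 := by
        rw [phi_of_abs_le (by rw [zero_sub, abs_neg]; norm_num [abs_of_pos])]; norm_num
      rcases Nat.even_or_odd' Jᶜ.card with ⟨m, hm | hm⟩
      · obtain ⟨k, hk⟩ : ∃ k, J.card = 2 * k := ⟨M - m, by omega⟩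
        rw [he m hm 0, phi0, hk]
        have hM' : M = m + k := by omega
        have hk3 : 3 ≤ k := by omega
        have h5 := two_pow_ge k hk3
        have h6 : (2 : ℝ) ^ (2 * k) * (2 ^ m * (1 / 2)) / 2 ^ M = 2 ^ k / 2 := by
          rw [hM', two_mul, pow_add, pow_add]
          have : (2 : ℝ) ^ m ≠ 0 := by positivity
          have : (2 : ℝ) ^ k ≠ 0 := by positivity
          field_simp
        rw [h6]
        push_cast
        linarith
      · obtain ⟨k, hk⟩ : ∃ k, J.card = 2 * k + 1 := ⟨M - m - 1, by omega⟩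
        rw [ho m hm 0, phih, phih', hk]
        have hM' : M = m + k + 1 := by omega
        have hk3 : 2 ≤ k := by omega
        have h5 := three_pow_ge k hk3
        have h6 : (2 : ℝ) ^ (2 * k + 1) * (2 ^ m * (3 / 8 + 3 / 8)) / 2 ^ M = 3 / 4 * 2 ^ k := by
          rw [hM', two_mul, pow_add, pow_add, pow_add, pow_add]
          have : (2 : ℝ) ^ m ≠ 0 := by positivity
          have : (2 : ℝ) ^ k ≠ 0 := by positivity
          field_simp
          norm_num
        rw [h6]
        push_cast
        linarith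
  · obtain ⟨p, h1, h2⟩ := exists_price M hM α β hα hβ
    refine ⟨p, h1, ?_⟩
    rw [if_neg h5, sub_zero]
    exact h2

end Pool.Agent.MP_0af329_co.JF
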