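import Pool.Agent.MP_0af329_co.JGDefs
import Pool.Agent.MP_0af329_co.JA5

set_option autoImplicit false

namespace Pool.Agent.MP_0af329_co.JF

open Finset

private theorem SS_smul {ι : Type} [DecidableEq ι] (I : Finset ι) (x : ι → ℝ) (F : ℝ → ℝ)
    (c s : ℝ) : SS I x (fun t => c * F t) s = c * SS I x F s := by
  unfold SS
  rw [Finset.mul_sum]

/-- The value of one coordinate. -/
private noncomputable def bitp (a b : ℝ) : ℝ := if b ≤ a then 0 else 1

private theorem bitp_cases (a b : ℝ) : bitp a b = 0 ∨ bitp a b = 1 := by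
  unfold bitp; split_ifs <;> simp

private theorem bitp_le {a b c : ℝ} (ha : 0 ≤ a) (hb : 0 ≤ b) (hc : 0 < c)
    (h : ¬ (a < 1 - c ∧ b < 1 - c)) :
    bitp a b * a + (1 - bitp a b) * b - a * b ≤ c := by
  unfold bitp
  split_ifs with h1
  · have h2 : 1 - c ≤ a := by
      by_contra h2
      exact h ⟨by linarith, by linarith⟩
    rcases le_or_gt 1 a with h3 | h3
    · nlinarith
    · nlinarith [mul_le_mul_of_nonneg_left (by linarith : 1 - a ≤ c) hb,
        mul_le_mul_of_nonneg_right (by linarith : b ≤ 1) hc.le]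
  · have h2 : 1 - c ≤ b := by
      by_contra h2
      exact h ⟨by linarith, by linarith⟩
    rcases le_or_gt 1 b with h3 | h3
    · nlinarith
    · nlinarith [mul_le_mul_of_nonneg_left (by linarith : 1 - b ≤ c) ha,
        mul_le_mul_of_nonneg_right (by linarith : a ≤ 1) hc.le]

private theorem quot_mem {a b : ℝ} (ha : 0 ≤ a) (hb : 0 ≤ b) :
    0 ≤ b / (a + b) ∧ b / (a + b) ≤ 1 :=
  ⟨div_nonneg hb (by linarith), div_le_one_of_le₀ (by linarith) (by linarith)⟩

private theorem quot_le {a b : ℝ} (ha : 0 ≤ a) (hb : 0 ≤ b) :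
    b / (a + b) * a + (1 - b / (a + b)) * b - a * b ≤ b / (a + b) * (1 - b / (a + b)) := by
  rcases eq_or_lt_of_le (by linarith : 0 ≤ a + b) with h | h
  · have h1 : a = 0 := by linarith
    have h2 : b = 0 := by linarith
    subst h1; subst h2; simp
  · set p := b / (a + b) with hp
    have hb' : b = p * (a + b) := by rw [hp]; field_simp
    have ha' : a = (1 - p) * (a + b) := by linarith
    obtain ⟨hp0, hp1⟩ := quot_mem ha hb
    rw [← hp] at hp0 hp1
    set s := a + b with hs
    have h3 : p * a + (1 - p) * b - a * b = p * (1 - p) * (s * (2 - s)) := by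
      rw [ha', hb']
      ring
    rw [h3]
    have h4 : s * (2 - s) ≤ 1 := by nlinarith [sq_nonneg (s - 1)]
    have h5 : 0 ≤ p * (1 - p) := mul_nonneg hp0 (by linarith)
    nlinarith

open Classical in
/-- ROW F18-G6b.  A price vector with at most four coordinates which are not bits, with a small error.
PROOF.  As the case `J.card ≤ 4` of `exists_price` with `J = {i : α i < 1 - c ∧ β i < 1 - c}`: for `i ∉ J` the
bit has `p α + (1 - p) β - α β = min (1 - max) ≤ c` (`≤ 0` if `max ≥ 1`, and `≤ 1 - max ≤ c` otherwise, as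
then `min ≤ max < 1`). -/
theorem exists_price_bits (M : ℕ) (hM : 2 ≤ M) (c : ℝ) (hc : 0 < c) (hc1 : c < 1)
    (α β : Fin (2 * M) → ℝ) (hα : ∀ i, 0 ≤ α i) (hβ : ∀ i, 0 ≤ β i)
    (hJ : (univ.filter fun i => α i < 1 - c ∧ β i < 1 - c).card ≤ 4) :
    ∃ p : Fin (2 * M) → ℝ, (∀ i, 0 ≤ p i ∧ p i ≤ 1) ∧
      (∃ J : Finset (Fin (2 * M)), J.card = 4 ∧ ∀ i, i ∉ J → p i = 0 ∨ p i = 1) ∧
      ∑ i, (p i * α i + (1 - p i) * β i - α i * β i) ≤
        SS univ (fun i => p i - 1 / 2) phi 0 / 2 ^ M - 1 / 2 + 2 * M * c := by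
  set J : Finset (Fin (2 * M)) := univ.filter fun i => α i < 1 - c ∧ β i < 1 - c with hJdef
  have memJ : ∀ i, i ∈ J ↔ (α i < 1 - c ∧ β i < 1 - c) := fun i => by simp [hJdef]
  obtain ⟨J', hJJ, hJ'c⟩ : ∃ J' : Finset (Fin (2 * M)), J ⊆ J' ∧ J'.card = 4 :=
    Finset.exists_superset_card_eq hJ (by rw [Fintype.card_fin]; omega)
  set p : Fin (2 * M) → ℝ := fun i =>
    if i ∈ J then β i / (α i + β i) else bitp (α i) (β i) with hp
  have pin : ∀ i ∈ J, p i = β i / (α i + β i) := fun i hi => by simp only [hp, if_pos hi]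
  have pout : ∀ i, i ∉ J → p i = bitp (α i) (β i) := fun i hi => by simp only [hp, if_neg hi]
  have pmem : ∀ i, 0 ≤ p i ∧ p i ≤ 1 := by
    intro i
    by_cases hi : i ∈ J
    · rw [pin i hi]
      exact quot_mem (hα i) (hβ i)
    · rw [pout i hi]
      rcases bitp_cases (α i) (β i) with h | h <;> rw [h] <;> norm_num
  refine ⟨p, pmem, ⟨J', hJ'c, fun i hi => ?_⟩, ?_⟩
  · rw [pout i (fun h => hi (hJJ h))]
    exact bitp_cases _ _
  have hx : ∀ i ∈ J'ᶜ, |p i - 1 / 2| = 1 / 2 := by
    intro i hi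
    rw [pout i (fun h => Finset.mem_compl.1 hi (hJJ h))]
    rcases bitp_cases (α i) (β i) with h | h <;> rw [h] <;> norm_num [abs_of_pos, abs_of_neg]
  have hcard : J'ᶜ.card = 2 * (M - 2) := by
    have := Finset.card_add_card_compl J'
    rw [Fintype.card_fin] at this
    omega
  obtain ⟨he, -⟩ := SS_bits (I := J'ᶜ) (fun i => p i - 1 / 2) hx
  have hfun : SS J'ᶜ (fun i => p i - 1 / 2) phi = fun t => 2 ^ (M - 2) * phi t := by
    funext t
    exact he (M - 2) hcard t
  have hSS : SS univ (fun i => p i - 1 / 2) phi 0 =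
      2 ^ (M - 2) * SS J' (fun i => p i - 1 / 2) phi 0 := by
    have := SS_union (disjoint_compl_left : Disjoint J'ᶜ J') (fun i => p i - 1 / 2) phi 0
    rw [Finset.union_comm, Finset.union_compl] at this
    rw [this, hfun, SS_smul]
  have hfour := SS_four hJ'c (fun i => p i - 1 / 2) (fun i _ => by
    obtain ⟨h1, h2⟩ := pmem i
    rw [abs_le]; constructor <;> linarith)
  have hsq : ∑ i ∈ J', (p i - 1 / 2) ^ 2 = 1 - ∑ i ∈ J', p i * (1 - p i) := by
    have : ∀ i ∈ J', (p i - 1 / 2) ^ 2 = 1 / 4 - p i * (1 - p i) := fun i _ => by ring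
    rw [Finset.sum_congr rfl this, Finset.sum_sub_distrib, Finset.sum_const, hJ'c]
    norm_num
  have hle : ∑ i, (p i * α i + (1 - p i) * β i - α i * β i) ≤
      ∑ i ∈ J', p i * (1 - p i) + 2 * M * c := by
    have h2 : ∑ i, (p i * α i + (1 - p i) * β i - α i * β i) ≤
        ∑ i, ((if i ∈ J' then p i * (1 - p i) else 0) + c) := by
      apply Finset.sum_le_sum
      intro i _
      by_cases hi : i ∈ J
      · rw [if_pos (hJJ hi), pin i hi]
        linarith [quot_le (hα i) (hβ i)]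
      · have h3 := bitp_le (hα i) (hβ i) hc (fun h => hi ((memJ i).2 h))
        rw [← pout i hi] at h3
        refine h3.trans ?_
        split_ifs
        · have := mul_nonneg (pmem i).1 (by linarith [(pmem i).2] : 0 ≤ 1 - p i)
          linarith
        · linarith
    refine h2.trans (le_of_eq ?_)
    rw [Finset.sum_add_distrib, Finset.sum_ite_mem, Finset.univ_inter, Finset.sum_const,
      Finset.card_univ, Fintype.card_fin, nsmul_eq_mul]
    push_cast
    ring
  refine hle.trans ?_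
  rw [hSS]
  have h7 : (2 : ℝ) ^ M = 2 ^ (M - 2) * 4 := by
    have : M = (M - 2) + 2 := by omega
    conv_lhs => rw [this]
    rw [pow_add]; norm_num
  have h8 : (2 : ℝ) ^ (M - 2) * SS J' (fun i => p i - 1 / 2) phi 0 / 2 ^ M =
      SS J' (fun i => p i - 1 / 2) phi 0 / 4 := by
    rw [h7]
    exact mul_div_mul_left _ _ (by positivity)
  rw [h8]
  rw [hsq] at hfour
  linarith

end Pool.Agent.MP_0af329_co.JF
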