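import Pool.Agent.MP_0af329_co.JG2b
import Pool.Agent.MP_0af329_co.JA7

set_option autoImplicit false

namespace Pool.Agent.MP_0af329_co.JF

open Finset

/-- ROW F18-G6c.  The pair inequality (see `hpair` in the proof of `two_mul_price_ge` in JA7.lean). -/
theorem pair_nonneg {V : Type} {K : ℕ} (hK : 0 < K) (R : Fin K → V → V → Prop)
    (p : V → Fin K → ℝ) (hp : ∀ x i, 0 ≤ p x i ∧ p x i ≤ 1) (x y : V) :
    0 ≤ pc R p x y + bd R x y - kk (p x) (p y) := by
  classical
  unfold pc bd
  have hterm : ∀ i, 0 ≤ ((if R i x y then (p x i + 1 - p y i) else 0) +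
      (if R i y x then (p y i + 1 - p x i) else 0)) := by
    intro i
    have h1 := hp x i
    have h2 := hp y i
    have h3 : 0 ≤ (if R i x y then (p x i + 1 - p y i) else 0) := by
      split_ifs
      · linarith [h1.1, h2.2]
      · exact le_refl _
    have h4 : 0 ≤ (if R i y x then (p y i + 1 - p x i) else 0) := by
      split_ifs
      · linarith [h1.2, h2.1]
      · exact le_refl _
    linarith
  by_cases hb : x = y ∨ (∀ i, ¬ R i x y ∧ ¬ R i y x)
  · rw [if_pos hb]
    have h1 : kk (p x) (p y) ≤ 1 := le_trans (le_abs_self _) (abs_kk_le _ _)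
    have h2 : 0 ≤ ∑ i, ((if R i x y then (p x i + 1 - p y i) else 0) +
      (if R i y x then (p y i + 1 - p x i) else 0)) := Finset.sum_nonneg fun i _ => hterm i
    have h3 := h2
    linarith
  · rw [if_neg hb, add_zero]
    push Not at hb
    obtain ⟨-, i, hi⟩ := hb
    have h1 : kk (p x) (p y) ≤ 1 - |p x i - p y i| := kk_le (p x) (p y) (hp x) (hp y) i
    have h2 : ((if R i x y then (p x i + 1 - p y i) else 0) +
      (if R i y x then (p y i + 1 - p x i) else 0)) ≤
        ∑ i, ((if R i x y then (p x i + 1 - p y i) else 0) +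
      (if R i y x then (p y i + 1 - p x i) else 0)) :=
      Finset.single_le_sum (f := fun i => ((if R i x y then (p x i + 1 - p y i) else 0) +
      (if R i y x then (p y i + 1 - p x i) else 0))) (fun i _ => hterm i) (Finset.mem_univ i)
    have h3 : 1 - |p x i - p y i| ≤ ((if R i x y then (p x i + 1 - p y i) else 0) +
      (if R i y x then (p y i + 1 - p x i) else 0)) := by
      have g1 := hp x i
      have g2 := hp y i
      have g3 := neg_abs_le (p x i - p y i)
      have g4 := le_abs_self (p x i - p y i)
      by_cases hxy : R i x y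
      · rw [if_pos hxy]
        have : 0 ≤ (if R i y x then (p y i + 1 - p x i) else 0) := by
          split_ifs
          · linarith [g1.2, g2.1]
          · exact le_refl _
        linarith
      · rw [if_neg hxy, if_pos (hi hxy)]
        linarith
    linarith

end Pool.Agent.MP_0af329_co.JF
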