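import Pool.Agent.MP_0af329_co.JG2b
import Pool.Agent.MP_0af329_co.JA7

set_option autoImplicit false

namespace Pool.Agent.MP_0af329_co.JF

open Finset

/-- twice the total price is the sum of the prices of the pairs -/
private theorem sum_pc {V : Type} [Fintype V] {K : ℕ} (R : Fin K → V → V → Prop)
    (p : V → Fin K → ℝ) :
    ∑ x, ∑ y, pc R p x y =
      2 * ∑ x, ∑ i, (p x i * outd R i x + (1 - p x i) * ind R i x) := by
  classical
  -- the price as a sum over pairs
  have hA1 : ∑ x, ∑ i, (p x i * outd R i x + (1 - p x i) * ind R i x) =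
      ∑ x, ∑ y, ∑ i, (if R i x y then (p x i + 1 - p y i) else 0) := by
    have e1 : ∑ x, ∑ i, (p x i * outd R i x) =
        ∑ x, ∑ y, ∑ i, (if R i x y then p x i else 0) := by
      refine Finset.sum_congr rfl fun x _ => ?_
      rw [Finset.sum_comm]
      refine Finset.sum_congr rfl fun i _ => ?_
      rw [← Finset.sum_filter, Finset.sum_const, nsmul_eq_mul, mul_comm]
      congr 1
    have e2 : ∑ x, ∑ i, ((1 - p x i) * ind R i x) =
        ∑ x, ∑ y, ∑ i, (if R i x y then (1 - p y i) else 0) := by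
      rw [Finset.sum_comm (s := (univ : Finset V)) (t := (univ : Finset V))]
      refine Finset.sum_congr rfl fun x _ => ?_
      rw [Finset.sum_comm]
      refine Finset.sum_congr rfl fun i _ => ?_
      rw [← Finset.sum_filter, Finset.sum_const, nsmul_eq_mul, mul_comm]
      congr 1
    simp only [Finset.sum_add_distrib]
    rw [e1, e2, ← Finset.sum_add_distrib]
    refine Finset.sum_congr rfl fun x _ => ?_
    rw [← Finset.sum_add_distrib]
    refine Finset.sum_congr rfl fun y _ => ?_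
    rw [← Finset.sum_add_distrib]
    refine Finset.sum_congr rfl fun i _ => ?_
    by_cases h : R i x y
    · simp only [h, if_true]; ring
    · simp only [h, if_false]; ring
  have hA2 : 2 * ∑ x, ∑ i, (p x i * outd R i x + (1 - p x i) * ind R i x) =
      ∑ x, ∑ y, ∑ i, ((if R i x y then (p x i + 1 - p y i) else 0) +
        (if R i y x then (p y i + 1 - p x i) else 0)) := by
    simp only [Finset.sum_add_distrib]
    rw [Finset.sum_comm (s := (univ : Finset V)) (t := (univ : Finset V))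
      (f := fun x y => ∑ i, if R i y x then p y i + 1 - p x i else 0), ← hA1]
    simp only [Finset.sum_add_distrib]
    ring
  rw [hA2]
  unfold pc
  refine Finset.sum_congr rfl fun x _ => Finset.sum_congr rfl fun y _ =>
    Finset.sum_congr rfl fun i _ => ?_
  congr 1

/-- the number of pairs which are equal or not joined -/
private theorem sum_bd {V : Type} [Fintype V] {K : ℕ} (R : Fin K → V → V → Prop) :
    ∑ x, ∑ y, bd R x y = Fintype.card V + miss R := by
  classical
  have hbad : ∑ x, ∑ y, (if x = y ∨ (∀ i, ¬ R i x y ∧ ¬ R i y x) then (1 : ℝ) else 0) =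
      Fintype.card V + miss R := by
    have e3 : ∀ x y : V, (if x = y ∨ (∀ i, ¬ R i x y ∧ ¬ R i y x) then (1 : ℝ) else 0) =
        (if x = y then 1 else 0) +
        (if x ≠ y ∧ (∀ i, ¬ R i x y ∧ ¬ R i y x) then 1 else 0) := by
      intro x y
      by_cases h : x = y
      · simp [h]
      · simp [h]
    simp only [e3, Finset.sum_add_distrib]
    have e4 : ∑ x : V, ∑ y : V, (if x = y then (1 : ℝ) else 0) = Fintype.card V := by
      simp
    rw [e4]
    have e5 : ∑ x : V, ∑ y : V,
        (if x ≠ y ∧ (∀ i, ¬ R i x y ∧ ¬ R i y x) then (1 : ℝ) else 0) = miss R := by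
      rw [← Finset.sum_product']
      unfold miss
      rw [Finset.card_filter]
      push_cast
      refine Finset.sum_congr (by simp) fun t _ => ?_
      congr
    rw [e5]
  rw [← hbad]
  unfold bd
  refine Finset.sum_congr rfl fun x _ => Finset.sum_congr rfl fun y _ => ?_
  congr

/-- ROW F18-G6d.  The main inequality with all losses.  PROOF.  As `paths_even` in JA7.lean, with
`δ = 1/2^(2M-1) = 2/4^M`, `Ψ x = SS univ (p x - 1/2) phi 0 / 2^M = 4^M HH M (p x) / 2`:
`∑_x ∑_y pc R p x y = 2 ∑_x ∑_i (p x i outd R i x + (1 - p x i) ind R i x)`, `∑_x ∑_y bd R x y = n + miss R`,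
so `δ n ∑_x ∑_i (…) = (δ n/2)(L1 + ∑ kk - n - miss)`, `∑ kk = L2 + 2 δ n ∑ Ψ - 2 δ n²/3`, and the price
inequality times `δ² n²`, summed over `x`. -/
theorem chain_loss {V : Type} [Fintype V] (M : ℕ) (hM : 2 ≤ M) (hV : 0 < Fintype.card V)
    (R : Fin (2 * M) → V → V → Prop) (p : V → Fin (2 * M) → ℝ) (e : V → ℝ)
    (hprice : ∀ x, ∑ i, (p x i * (outd R i x / (Fintype.card V / 2 ^ (2 * M - 1))) +
        (1 - p x i) * (ind R i x / (Fintype.card V / 2 ^ (2 * M - 1))) -
        (outd R i x / (Fintype.card V / 2 ^ (2 * M - 1))) *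
          (ind R i x / (Fintype.card V / 2 ^ (2 * M - 1)))) ≤
        SS univ (fun i => p x i - 1 / 2) phi 0 / 2 ^ M - 1 / 2 + e x) :
    (Fintype.card V : ℝ) ^ 3 / (6 * 4 ^ (2 * M - 1)) -
      (Fintype.card V : ℝ) * (Fintype.card V + miss R) / (2 * 2 ^ (2 * M - 1)) -
      (Fintype.card V : ℝ) ^ 2 / 4 ^ (2 * M - 1) * ∑ x, e x +
      (Fintype.card V : ℝ) / (2 * 2 ^ (2 * M - 1)) * (L1 R p + L2 M p) ≤ pth R := by
  set n : ℝ := (Fintype.card V : ℝ) with hn
  have hnpos : 0 < n := by rw [hn]; exact_mod_cast hV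
  set P : ℝ := 2 ^ (2 * M - 1) with hP
  have hPpos : 0 < P := by rw [hP]; positivity
  set D : ℝ := n / P with hD
  have hDpos : 0 < D := div_pos hnpos hPpos
  set Ψ : V → ℝ := fun x => SS univ (fun i => p x i - 1 / 2) phi 0 / 2 ^ M with hΨ
  set A : ℝ := ∑ x, ∑ i, (p x i * outd R i x + (1 - p x i) * ind R i x) with hA
  have h3 : D * A - pth R ≤ D ^ 2 * (∑ x, Ψ x - n / 2 + ∑ x, e x) := by
    have e1 : ∀ x, D * (∑ i, (p x i * outd R i x + (1 - p x i) * ind R i x)) -
        ∑ i, (ind R i x : ℝ) * outd R i x ≤ D ^ 2 * (Ψ x - 1 / 2 + e x) := by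
      intro x
      have h := mul_le_mul_of_nonneg_left (hprice x) (sq_nonneg D)
      refine le_trans (le_of_eq ?_) h
      rw [Finset.mul_sum, Finset.mul_sum, ← Finset.sum_sub_distrib]
      refine Finset.sum_congr rfl fun i _ => ?_
      field_simp
    have e2 := Finset.sum_le_sum fun x (_ : x ∈ (univ : Finset V)) => e1 x
    have e3 : ∑ x, (D * (∑ i, (p x i * outd R i x + (1 - p x i) * ind R i x)) -
        ∑ i, (ind R i x : ℝ) * outd R i x) = D * A - pth R := by
      rw [Finset.sum_sub_distrib, ← Finset.mul_sum]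
      rfl
    have e4 : ∑ x, (D ^ 2 * (Ψ x - 1 / 2 + e x)) = D ^ 2 * (∑ x, Ψ x - n / 2 + ∑ x, e x) := by
      rw [← Finset.mul_sum, Finset.sum_add_distrib, Finset.sum_sub_distrib]
      congr 3
      rw [Finset.sum_const, nsmul_eq_mul, Finset.card_univ]
      ring
    rw [e3, e4] at e2
    exact e2
  have hL : L1 R p + L2 M p = 2 * A + n + miss R - 2 * n * ∑ x, HH M (p x) +
      4 * n ^ 2 / (3 * 4 ^ M) := by
    unfold L1 L2
    simp only [Finset.sum_add_distrib, Finset.sum_sub_distrib]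
    rw [sum_pc, sum_bd]
    ring
  have h4P : (4 : ℝ) ^ M = 2 * P := by
    rw [hP, ← pow_succ', show 2 * M - 1 + 1 = 2 * M by omega, pow_mul]; norm_num
  have hPP : (4 : ℝ) ^ (2 * M - 1) = P ^ 2 := by
    rw [hP, show (4 : ℝ) = 2 ^ 2 by norm_num, ← pow_mul, ← pow_mul, mul_comm 2 (2 * M - 1)]
  have hHH : ∀ x, HH M (p x) = Ψ x / P := by
    intro x
    simp only [HH, hΨ]
    rw [show (8 : ℝ) ^ M = 4 ^ M * 2 ^ M by rw [← mul_pow]; norm_num, h4P]
    have : (2 : ℝ) ^ M ≠ 0 := by positivity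
    field_simp
  have hsum : ∑ x, HH M (p x) = (∑ x, Ψ x) / P := by
    rw [Finset.sum_div]
    exact Finset.sum_congr rfl fun x _ => hHH x
  rw [hL, hsum, h4P, hPP]
  have hnD : n = D * P := by rw [hD]; field_simp
  have key : n ^ 3 / (6 * P ^ 2) - n * (n + miss R) / (2 * P) - n ^ 2 / P ^ 2 * ∑ x, e x +
      n / (2 * P) * (2 * A + n + miss R - 2 * n * ((∑ x, Ψ x) / P) + 4 * n ^ 2 / (3 * (2 * P))) =
      D * A - D ^ 2 * (∑ x, Ψ x - n / 2 + ∑ x, e x) := by
    rw [hD]
    field_simp
    ring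
  rw [key]
  linarith

end Pool.Agent.MP_0af329_co.JF
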