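import Pool.Agent.MP_0af329_co.JG3a
import Pool.Agent.MP_0af329_co.JG6a
import Pool.Agent.MP_0af329_co.JG6b
import Pool.Agent.MP_0af329_co.JG6c
import Pool.Agent.MP_0af329_co.JG6d

set_option autoImplicit false

namespace Pool.Agent.MP_0af329_co.JF

open Finset

/-- ROW F18-G7.  Price vectors with small losses in a nearly extremal colouring.
PROOF.  `D = 2^(2M-1)`; choose `c ∈ (0, 1)` with `4 M c / D ≤ e/3` and `c ≤ 1/2`, then `ε` with
`ε D² / c² + … ≤ e`; concretely: let `B = {x : more than four i with α i < 1 - c ∧ β i < 1 - c}`,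
`α i = outd R i x / (n/D)`, `β i = ind R i x / (n/D)`.
STEP 1: `exists_price_bonus` for all `x`, `chain_loss` with `e x = - c²` on `B` and `0` off `B`, and
`0 ≤ L1`, `0 ≤ L2` (`pair_nonneg`; `test_ineq` gives `0 ≤ L2`): `n²/D² · c² |B| ≤ ε n³ + n²/(2D)`, so
`|B| ≤ (ε D²/c²) n + D/(2c²)`, which is `≤ e n` for small `ε` and large `n`.
STEP 2: take the vectors of `exists_price_bits` for `x ∉ B` and of `exists_price` for `x ∈ B`; `chain_loss` with
`e x = 2 M c` (or `0`) gives `n/(2D) (L1 + L2) ≤ ε n³ + n²/(2D) + n²/D² · 2 M c n`, so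
`L1 + L2 ≤ 2 D ε n² + n + (4 M c/D) n² ≤ e n²`. -/
theorem exists_prices (M : ℕ) (hM : 2 ≤ M) (e : ℝ) (he : 0 < e) :
    ∃ (ε : ℝ) (N : ℕ), 0 < ε ∧ ∀ (V : Type) [Fintype V] (R : Fin (2 * M) → V → V → Prop),
      N ≤ Fintype.card V → miss R = 0 →
      pth R ≤ (1 / (6 * 4 ^ (2 * M - 1)) + ε) * (Fintype.card V : ℝ) ^ 3 →
      ∃ (p : V → Fin (2 * M) → ℝ) (B : Finset V), (∀ x i, 0 ≤ p x i ∧ p x i ≤ 1) ∧
        (B.card : ℝ) ≤ e * Fintype.card V ∧
        (∀ x, x ∉ B → ∃ J : Finset (Fin (2 * M)), J.card = 4 ∧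
          ∀ i, i ∉ J → p x i = 0 ∨ p x i = 1) ∧
        L1 R p ≤ e * (Fintype.card V : ℝ) ^ 2 ∧ L2 M p ≤ e * (Fintype.card V : ℝ) ^ 2 := by
  classical
  obtain ⟨D, hDdef⟩ : ∃ D : ℝ, D = 2 ^ (2 * M - 1) := ⟨_, rfl⟩
  have hD : 0 < D := by rw [hDdef]; positivity
  have hD4 : (4 : ℝ) ^ (2 * M - 1) = D ^ 2 := by
    rw [hDdef, show (4 : ℝ) = 2 ^ 2 by norm_num, ← pow_mul, ← pow_mul, mul_comm 2 (2 * M - 1)]
  have hMpos : (0 : ℝ) < M := by
    have : 0 < M := by omega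
    exact_mod_cast this
  obtain ⟨c, hc, hc1, hcM⟩ : ∃ c : ℝ, 0 < c ∧ c < 1 ∧ 4 * M * c ≤ e / 3 * D := by
    refine ⟨min (1 / 2) (e * D / (12 * M)), lt_min (by norm_num) (by positivity),
      lt_of_le_of_lt (min_le_left _ _) (by norm_num), ?_⟩
    have h1 : min (1 / 2) (e * D / (12 * M)) ≤ e * D / (12 * M) := min_le_right _ _
    calc 4 * M * min (1 / 2) (e * D / (12 * M)) ≤ 4 * M * (e * D / (12 * M)) :=
          mul_le_mul_of_nonneg_left h1 (by positivity)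
      _ = e / 3 * D := by field_simp; norm_num
  have hc2 : 0 < c ^ 2 := by positivity
  obtain ⟨ε, hε, hε1, hε2⟩ : ∃ ε : ℝ, 0 < ε ∧ ε * D ^ 2 ≤ e / 2 * c ^ 2 ∧ 2 * D * ε ≤ e / 3 := by
    refine ⟨min (e * c ^ 2 / (2 * D ^ 2)) (e / (6 * D)), lt_min (by positivity) (by positivity),
      ?_, ?_⟩
    · calc min (e * c ^ 2 / (2 * D ^ 2)) (e / (6 * D)) * D ^ 2 ≤
            e * c ^ 2 / (2 * D ^ 2) * D ^ 2 :=
            mul_le_mul_of_nonneg_right (min_le_left _ _) (by positivity)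
        _ = e / 2 * c ^ 2 := by field_simp
    · calc 2 * D * min (e * c ^ 2 / (2 * D ^ 2)) (e / (6 * D)) ≤ 2 * D * (e / (6 * D)) :=
            mul_le_mul_of_nonneg_left (min_le_right _ _) (by positivity)
        _ = e / 3 := by field_simp; norm_num
  obtain ⟨N, hN⟩ := exists_nat_gt (max (D / (e * c ^ 2)) (3 / e))
  refine ⟨ε, N + 1, hε, ?_⟩
  intro V _ R hcard hmiss hpth
  have hV : 0 < Fintype.card V := by omega
  obtain ⟨n, hn⟩ : ∃ n : ℝ, n = (Fintype.card V : ℝ) := ⟨_, rfl⟩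
  have hn0 : 0 < n := by rw [hn]; exact_mod_cast hV
  have hnN : (N : ℝ) < n := by
    rw [hn]
    have : N < Fintype.card V := by omega
    exact_mod_cast this
  have hn1 : D / (e * c ^ 2) < n := lt_of_le_of_lt (le_max_left _ _) (hN.trans hnN)
  have hn2 : 3 / e < n := lt_of_le_of_lt (le_max_right _ _) (hN.trans hnN)
  rw [div_lt_iff₀ (by positivity)] at hn1
  rw [div_lt_iff₀ he] at hn2
  have hL2 : ∀ p : V → Fin (2 * M) → ℝ, 0 ≤ L2 M p := fun p =>
    le_trans (sq_nonneg _) (test_ineq M (by omega) p (fun _ => 0))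
  have hL1 : ∀ p : V → Fin (2 * M) → ℝ, (∀ x i, 0 ≤ p x i ∧ p x i ≤ 1) → 0 ≤ L1 R p := by
    intro p hp
    exact Finset.sum_nonneg fun x _ => Finset.sum_nonneg fun y _ =>
      pair_nonneg (by omega) R p hp x y
  rw [hD4, ← hn] at hpth
  set α : V → Fin (2 * M) → ℝ :=
    fun x i => (outd R i x : ℝ) / ((Fintype.card V : ℝ) / 2 ^ (2 * M - 1)) with hα
  set β : V → Fin (2 * M) → ℝ :=
    fun x i => (ind R i x : ℝ) / ((Fintype.card V : ℝ) / 2 ^ (2 * M - 1)) with hβ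
  have hα0 : ∀ x i, 0 ≤ α x i := fun x i => by simp only [hα]; positivity
  have hβ0 : ∀ x i, 0 ≤ β x i := fun x i => by simp only [hβ]; positivity
  set B : Finset V := univ.filter fun x =>
    4 < (univ.filter fun i => α x i < 1 - c ∧ β x i < 1 - c).card with hB
  -- step 1
  have hBcard : (B.card : ℝ) ≤ e * n := by
    have hex := fun x => exists_price_bonus M hM c hc hc1 (α x) (β x) (hα0 x) (hβ0 x)
    choose p hp hprice using hex
    have h1 := chain_loss M hM hV R p (fun x => -(if 4 < (univ.filter fun i => α x i < 1 - c ∧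
      β x i < 1 - c).card then c ^ 2 else 0)) (fun x => by
        refine le_trans (hprice x) (le_of_eq ?_)
        rw [← sub_eq_add_neg])
    have h2 : ∑ x, -(if 4 < (univ.filter fun i => α x i < 1 - c ∧
        β x i < 1 - c).card then c ^ 2 else 0) = - (c ^ 2 * B.card) := by
      rw [Finset.sum_neg_distrib, ← Finset.sum_filter, Finset.sum_const, nsmul_eq_mul, mul_comm]
    rw [h2, hmiss, hD4, ← hDdef, ← hn] at h1
    have h3 : 0 ≤ n / (2 * D) * (L1 R p + L2 M p) :=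
      mul_nonneg (by positivity) (add_nonneg (hL1 p hp) (hL2 p))
    have h4 : n ^ 2 / D ^ 2 * (c ^ 2 * B.card) ≤ ε * n ^ 3 + n ^ 2 / (2 * D) := by
      have h5 : n * (n + ((0 : ℕ) : ℝ)) / (2 * D) = n ^ 2 / (2 * D) := by push_cast; ring
      rw [h5] at h1
      have h6 : (1 / (6 * D ^ 2) + ε) * n ^ 3 = n ^ 3 / (6 * D ^ 2) + ε * n ^ 3 := by ring
      rw [h6] at hpth
      linarith
    have h7 : c ^ 2 * B.card ≤ ε * D ^ 2 * n + D / 2 := by
      have h8 : n ^ 2 / D ^ 2 * (c ^ 2 * B.card) * (D ^ 2 / n ^ 2) = c ^ 2 * B.card := by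
        field_simp
      have h9 : (ε * n ^ 3 + n ^ 2 / (2 * D)) * (D ^ 2 / n ^ 2) = ε * D ^ 2 * n + D / 2 := by
        field_simp
      rw [← h8, ← h9]
      exact mul_le_mul_of_nonneg_right h4 (by positivity)
    have h10 : ε * D ^ 2 * n ≤ e / 2 * c ^ 2 * n := mul_le_mul_of_nonneg_right hε1 hn0.le
    have h11 : c ^ 2 * B.card ≤ c ^ 2 * (e * n) := by nlinarith
    exact le_of_mul_le_mul_left h11 hc2
  -- step 2
  have hex : ∀ x, ∃ p : Fin (2 * M) → ℝ, (∀ i, 0 ≤ p i ∧ p i ≤ 1) ∧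
      (x ∉ B → ∃ J : Finset (Fin (2 * M)), J.card = 4 ∧ ∀ i, i ∉ J → p i = 0 ∨ p i = 1) ∧
      ∑ i, (p i * α x i + (1 - p i) * β x i - α x i * β x i) ≤
        SS univ (fun i => p i - 1 / 2) phi 0 / 2 ^ M - 1 / 2 + 2 * M * c := by
    intro x
    by_cases hx : x ∈ B
    · obtain ⟨p, hp, h⟩ := exists_price M hM (α x) (β x) (hα0 x) (hβ0 x)
      exact ⟨p, hp, fun h' => absurd hx h', le_trans h (by
        have : 0 ≤ 2 * M * c := by positivity
        linarith)⟩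
    · have hx' : (univ.filter fun i => α x i < 1 - c ∧ β x i < 1 - c).card ≤ 4 := by
        by_contra h
        exact hx (Finset.mem_filter.2 ⟨Finset.mem_univ _, not_le.1 h⟩)
      obtain ⟨p, hp, hJ, h⟩ := exists_price_bits M hM c hc hc1 (α x) (β x) (hα0 x) (hβ0 x) hx'
      exact ⟨p, hp, fun _ => hJ, h⟩
  choose p hp hJ hprice using hex
  have h1 := chain_loss M hM hV R p (fun _ => 2 * M * c) hprice
  rw [Finset.sum_const, Finset.card_univ, nsmul_eq_mul, hmiss, hD4, ← hDdef, ← hn] at h1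
  have h2 : L1 R p + L2 M p ≤ e * n ^ 2 := by
    have h5 : n * (n + ((0 : ℕ) : ℝ)) / (2 * D) = n ^ 2 / (2 * D) := by push_cast; ring
    rw [h5] at h1
    have h6 : (1 / (6 * D ^ 2) + ε) * n ^ 3 = n ^ 3 / (6 * D ^ 2) + ε * n ^ 3 := by ring
    rw [h6] at hpth
    have h3 : n / (2 * D) * (L1 R p + L2 M p) ≤
        ε * n ^ 3 + n ^ 2 / (2 * D) + n ^ 2 / D ^ 2 * (n * (2 * M * c)) := by linarith
    have h4 : L1 R p + L2 M p ≤ 2 * D * ε * n ^ 2 + n + 4 * M * c / D * n ^ 2 := by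
      have h8 : n / (2 * D) * (L1 R p + L2 M p) * (2 * D / n) = L1 R p + L2 M p := by
        field_simp
      have h9 : (ε * n ^ 3 + n ^ 2 / (2 * D) + n ^ 2 / D ^ 2 * (n * (2 * M * c))) * (2 * D / n) =
          2 * D * ε * n ^ 2 + n + 4 * M * c / D * n ^ 2 := by
        field_simp
        ring
      rw [← h8, ← h9]
      exact mul_le_mul_of_nonneg_right h3 (by positivity)
    have h10 : 4 * M * c / D ≤ e / 3 := by
      rw [div_le_iff₀ hD]
      exact hcM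
    have h11 : 0 < n ^ 2 := by positivity
    nlinarith
  refine ⟨p, B, hp, ?_, hJ, ?_, ?_⟩
  · rw [← hn]; exact hBcard
  · rw [← hn]
    have := hL2 p
    linarith
  · rw [← hn]
    have := hL1 p hp
    linarith

end Pool.Agent.MP_0af329_co.JF
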