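import Pool.Agent.MP_0af329_co.JG3a
import Pool.Agent.MP_0af329_co.JG3b
import Pool.Agent.MP_0af329_co.JG4c
import Pool.Agent.MP_0af329_co.JG2b

set_option autoImplicit false

namespace Pool.Agent.MP_0af329_co.JF

open Finset

/-- ROW F18-G8a.  Few vectors are far from the edges of the cube.
PROOF.  `test_ineq` with the centre `q = 1/2` and `HH_center`: `∑_x kk (p x) (1/2) ≤ n/2^M + l`.
`kk_center_gap` for `x ∈ tw p c \ B`, `kk_center_ge` for the other `x ∉ B`, `abs_kk_le` (`≥ -1`) for `x ∈ B`: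
`∑_x kk (p x) (1/2) ≥ (n - |B|)/2^M + (2c/2^M) |tw p c \ B| - |B|`. -/
theorem card_tw_le {V : Type} [Fintype V] [DecidableEq V] (M : ℕ) (hM : 2 ≤ M)
    (p : V → Fin (2 * M) → ℝ)
    (hp : ∀ x i, 0 ≤ p x i ∧ p x i ≤ 1) (B : Finset V)
    (hB : ∀ x, x ∉ B → ∃ J : Finset (Fin (2 * M)), J.card = 4 ∧
      ∀ i, i ∉ J → p x i = 0 ∨ p x i = 1)
    (c : ℝ) (hc : 0 < c) (l : ℝ) (hl : 0 ≤ l) (hL : L2 M p ≤ l ^ 2) :
    2 * c / 2 ^ M * ((tw p c \ B).card : ℝ) ≤ l + 2 * B.card := by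
  have h1 := test_ineq M (by omega) p (fun _ => 1 / 2)
  rw [HH_center] at h1
  obtain ⟨g, hg⟩ : ∃ g : ℝ, g = 1 / 2 ^ M := ⟨_, rfl⟩
  have hg0 : 0 < g := by rw [hg]; positivity
  have hg1 : g ≤ 1 := by
    rw [hg, div_le_one (by positivity)]
    exact one_le_pow₀ (by norm_num)
  rw [← hg] at h1
  have h2 : ∑ x, kk (p x) (fun _ => 1 / 2) - Fintype.card V * g ≤ l :=
    le_trans (le_abs_self _) (abs_le_of_sq_le_sq (le_trans h1 hL) hl)
  have h3 : ∀ x, g + (if x ∈ tw p c \ B then 2 * c * g else 0) - (if x ∈ B then 2 else 0) ≤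
      kk (p x) (fun _ => 1 / 2) := by
    intro x
    have hK := (abs_le.1 (abs_kk_le (p x) (fun _ => 1 / 2))).1
    by_cases hxB : x ∈ B
    · rw [if_pos hxB, if_neg (by rw [mem_sdiff]; exact fun h => h.2 hxB)]
      linarith
    · rw [if_neg hxB]
      obtain ⟨J, hJ, hb⟩ := hB x hxB
      by_cases hxt : x ∈ tw p c
      · rw [if_pos (mem_sdiff.2 ⟨hxt, hxB⟩)]
        obtain ⟨i, j, hij, hi, hj⟩ := (mem_filter.1 hxt).2
        have h4 := kk_center_gap M hM (p x) (hp x) J hJ hb c i j hij hi hj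
        have h5 : (1 + 2 * c) / 2 ^ M = g + 2 * c * g := by rw [hg]; ring
        rw [h5] at h4
        linarith
      · rw [if_neg (by rw [mem_sdiff]; exact fun h => hxt h.1)]
        have h4 := kk_center_ge M hM (p x) (hp x) J hJ hb
        rw [← hg] at h4
        linarith
  have h4 := sum_le_sum (fun x (_ : x ∈ (univ : Finset V)) => h3 x)
  rw [sum_sub_distrib, sum_add_distrib, sum_ite_mem, sum_ite_mem, univ_inter, univ_inter,
    sum_const, sum_const, sum_const, nsmul_eq_mul, nsmul_eq_mul, nsmul_eq_mul, card_univ] at h4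
  have h5 : 2 * c / 2 ^ M * ((tw p c \ B).card : ℝ) = ((tw p c \ B).card : ℝ) * (2 * c * g) := by
    rw [hg]; ring
  rw [h5]
  linarith

end Pool.Agent.MP_0af329_co.JF
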