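import Pool.Agent.MP_0af329_co.JG5a
import Pool.Agent.MP_0af329_co.JG5b
import Pool.Agent.MP_0af329_co.JG5c

set_option autoImplicit false

namespace Pool.Agent.MP_0af329_co.JF

open Finset

/-- The pointwise bound for the vertices which have at most one coordinate in `[c, 1 - c]`. -/
private theorem PhT_point {K : ℕ} (q : Fin K → ℝ) (a : Fin K) (hq : ∀ i, q i = 0 ∨ q i = 1)
    (p : Fin K → ℝ) (hp : ∀ i, 0 ≤ p i ∧ p i ≤ 1) (c : ℝ) (hc : 0 < c) (hc1 : c ≤ 1 / 200)
    (htw : ¬ ∃ i j, i ≠ j ∧ |p i - 1 / 2| ≤ 1 / 2 - c ∧ |p j - 1 / 2| ≤ 1 / 2 - c) :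
    PhT q a p ≤ 1 + 57 * (K * c) ∧
      ((∃ i, 33 / 100 < |p i - q i|) → PhT q a p ≤ 57 * (K * c)) := by
  classical
  -- the exceptional coordinate
  have hb : ∃ b : Fin K, ∀ i, i ≠ b → 1 / 2 - c < |p i - 1 / 2| := by
    by_cases h : ∃ b, |p b - 1 / 2| ≤ 1 / 2 - c
    · obtain ⟨b, hb⟩ := h
      refine ⟨b, fun i hi => ?_⟩
      by_contra hcon
      push Not at hcon
      exact htw ⟨i, b, hi, hcon, hb⟩
    · push Not at h
      exact ⟨a, fun i _ => h i⟩
  obtain ⟨b, hb⟩ := hb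
  -- the rounded vector
  let p' : Fin K → ℝ := fun i => if i = b then p b else if p i < 1 / 2 then 0 else 1
  have hpb : p' b = p b := if_pos rfl
  have hpi : ∀ i, i ≠ b → p' i = 0 ∨ p' i = 1 := by
    intro i hi
    by_cases h : p i < 1 / 2
    · left
      simp only [p', if_neg hi, if_pos h]
    · right
      simp only [p', if_neg hi, if_neg h]
  have hd : ∀ i, |p i - p' i| ≤ c := by
    intro i
    by_cases hi : i = b
    · rw [hi, hpb, sub_self, abs_zero]
      exact hc.le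
    · have h1 := hb i hi
      by_cases h : p i < 1 / 2
      · have h2 : p' i = 0 := by simp only [p', if_neg hi, if_pos h]
        rw [h2, sub_zero, abs_of_nonneg (hp i).1]
        rw [abs_of_neg (by linarith)] at h1
        linarith
      · have h2 : p' i = 1 := by simp only [p', if_neg hi, if_neg h]
        push Not at h
        rw [h2, abs_of_nonpos (by linarith [(hp i).2])]
        rw [abs_of_nonneg (by linarith)] at h1
        linarith
  have hsum : ∑ i, |p i - p' i| ≤ K * c := by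
    calc ∑ i, |p i - p' i| ≤ ∑ _i : Fin K, c := sum_le_sum fun i _ => hd i
      _ = K * c := by rw [sum_const, card_univ, Fintype.card_fin, nsmul_eq_mul]
  have hlip := PhT_lip q a p p'
  have h3 := (abs_le.1 (hlip.trans (mul_le_mul_of_nonneg_left hsum (by norm_num)))).2
  obtain ⟨h4, h5⟩ := PhT_le q a hq p' b hpi (by rw [hpb]; exact (hp b).1)
    (by rw [hpb]; exact (hp b).2)
  refine ⟨by linarith, ?_⟩
  rintro ⟨i, hi⟩
  have h6 : PhT q a p' ≤ 0 := by
    apply h5
    refine ⟨i, ?_⟩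
    have h7 : |p i - q i| ≤ |p i - p' i| + |p' i - q i| := abs_sub_le _ _ _
    have h8 := hd i
    linarith
  linarith

/-- ROW F18-G8b.  The mass of a corner.  PROOF.  `sum_PhT_ge` (any direction `a`).  If `x ∉ B ∪ tw p c` there is
`b` such that all `i ≠ b` have `p x i < c` or `p x i > 1 - c`; let `p'` be `p x` rounded to `0, 1` in these
coordinates (`p' b = p x b`): `∑_i |p x i - p' i| ≤ 2 M c`, so `PhT q a (p x) ≤ PhT q a p' + 114 M c` by `PhT_lip`, and by
`PhT_le`: `PhT q a p' ≤ 1`, and `≤ 0` if `x ∉ cor p q` (some `|p x i - q i| > 33/100`, so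
`|p' i - q i| > 33/100 - c ≥ 13/40`).  If `x ∈ B ∪ tw p c` use `PhT ≤ 57` (`abs_PhT_le`). -/
theorem card_cor_ge {V : Type} [Fintype V] [DecidableEq V] (M : ℕ) (hM : 2 ≤ M)
    (p : V → Fin (2 * M) → ℝ)
    (hp : ∀ x i, 0 ≤ p x i ∧ p x i ≤ 1) (B : Finset V)
    (c : ℝ) (hc : 0 < c) (hc1 : c ≤ 1 / 200) (l : ℝ) (hl : 0 ≤ l) (hL : L2 M p ≤ l ^ 2)
    (q : Fin (2 * M) → ℝ) (hq : ∀ i, q i = 0 ∨ q i = 1) :
    11 / 200 * (Fintype.card V : ℝ) / 4 ^ M - 57 * l ≤
      (cor p q).card + 114 * M * c * Fintype.card V +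
        57 * (B.card + ((tw p c \ B).card : ℝ)) := by
  classical
  have h0 : 0 < 2 * M := by omega
  let a : Fin (2 * M) := ⟨0, h0⟩
  refine (sum_PhT_ge M (by omega) p q a hq l hl hL).trans ?_
  have hMc : 0 ≤ 114 * (M : ℝ) * c := by positivity
  have hpt : ∀ x, PhT q a (p x) ≤ (if x ∈ cor p q then (1 : ℝ) else 0) + 114 * M * c +
      (57 * (if x ∈ B then (1 : ℝ) else 0) + 57 * (if x ∈ tw p c \ B then (1 : ℝ) else 0)) := by
    intro x
    have hi0 : (0 : ℝ) ≤ if x ∈ cor p q then (1 : ℝ) else 0 := by split_ifs <;> norm_num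
    have h57 : PhT q a (p x) ≤ 57 := (abs_le.1 (abs_PhT_le q a (p x))).2
    by_cases hB : x ∈ B
    · have h1 : x ∉ tw p c \ B := fun h => (mem_sdiff.1 h).2 hB
      rw [if_pos hB, if_neg h1]
      linarith
    · by_cases ht : x ∈ tw p c
      · have h1 : x ∈ tw p c \ B := mem_sdiff.2 ⟨ht, hB⟩
        rw [if_neg hB, if_pos h1]
        linarith
      · have h1 : x ∉ tw p c \ B := fun h => ht (mem_sdiff.1 h).1
        rw [if_neg hB, if_neg h1]
        have h2 : ¬ ∃ i j, i ≠ j ∧ |p x i - 1 / 2| ≤ 1 / 2 - c ∧ |p x j - 1 / 2| ≤ 1 / 2 - c := by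
          intro h
          exact ht (mem_filter.2 ⟨mem_univ _, h⟩)
        obtain ⟨h3, h4⟩ := PhT_point q a hq (p x) (hp x) c hc hc1 h2
        have e : (57 : ℝ) * (((2 * M : ℕ) : ℝ) * c) = 114 * M * c := by
          push_cast
          ring
        rw [e] at h3 h4
        by_cases hx : x ∈ cor p q
        · rw [if_pos hx]
          linarith
        · rw [if_neg hx]
          have h5 : ∃ i, 33 / 100 < |p x i - q i| := by
            by_contra hcon
            push Not at hcon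
            exact hx (mem_filter.2 ⟨mem_univ _, hcon⟩)
          linarith [h4 h5]
  have hcount : ∀ S : Finset V, ∑ x, (if x ∈ S then (1 : ℝ) else 0) = S.card := by
    intro S
    rw [sum_ite_mem, univ_inter, sum_const, nsmul_eq_mul, mul_one]
  calc ∑ x, PhT q a (p x) ≤ ∑ x, ((if x ∈ cor p q then (1 : ℝ) else 0) + 114 * M * c +
      (57 * (if x ∈ B then (1 : ℝ) else 0) + 57 * (if x ∈ tw p c \ B then (1 : ℝ) else 0))) :=
        sum_le_sum fun x _ => hpt x
    _ = (cor p q).card + 114 * M * c * Fintype.card V +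
        57 * (B.card + ((tw p c \ B).card : ℝ)) := by
      have e1 : ∑ x : V, (57 : ℝ) * (if x ∈ B then (1 : ℝ) else 0) = 57 * B.card := by
        rw [← mul_sum, hcount]
      have e2 : ∑ x : V, (57 : ℝ) * (if x ∈ tw p c \ B then (1 : ℝ) else 0) =
          57 * (tw p c \ B).card := by
        rw [← mul_sum, hcount]
      rw [sum_add_distrib, sum_add_distrib, sum_add_distrib, e1, e2, hcount, sum_const, card_univ,
        nsmul_eq_mul]
      ring

end Pool.Agent.MP_0af329_co.JF
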