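import Pool.Agent.MP_0af329_co.JG7
import Pool.Agent.MP_0af329_co.JG8a
import Pool.Agent.MP_0af329_co.JG8b

set_option autoImplicit false

namespace Pool.Agent.MP_0af329_co.JF

open Finset

/-- ROW F18-G8c.  The choice of the constants, from `exists_prices`, `card_tw_le`, `card_cor_ge`.
`c = 1/(10^5 · M · 4^M)` (so `114 M c ≤ (1/800)/4^M`), then `e' ≤ e` so small that
`57 √e' + 57 (e' + 2^M (√e' + 2 e')/(2c)) ≤ (1/400)/4^M` (`l = √e' n`). -/
theorem exists_corners (M : ℕ) (hM : 2 ≤ M) (e : ℝ) (he : 0 < e) :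
    ∃ (ε : ℝ) (N : ℕ), 0 < ε ∧ ∀ (V : Type) [Fintype V] (R : Fin (2 * M) → V → V → Prop),
      N ≤ Fintype.card V → miss R = 0 →
      pth R ≤ (1 / (6 * 4 ^ (2 * M - 1)) + ε) * (Fintype.card V : ℝ) ^ 3 →
      ∃ p : V → Fin (2 * M) → ℝ, (∀ x i, 0 ≤ p x i ∧ p x i ≤ 1) ∧
        (∀ q : Fin (2 * M) → ℝ, (∀ i, q i = 0 ∨ q i = 1) →
          (Fintype.card V : ℝ) / (20 * 4 ^ M) ≤ (cor p q).card) ∧
        L1 R p ≤ e * (Fintype.card V : ℝ) ^ 2 := by
  classical
  have hM' : (2 : ℝ) ≤ M := by exact_mod_cast hM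
  set X : ℝ := 4 ^ M with hX
  have hX1 : 1 ≤ X := one_le_pow₀ (by norm_num)
  set Y : ℝ := 2 ^ M with hY
  have hY1 : 1 ≤ Y := one_le_pow₀ (by norm_num)
  set c : ℝ := 1 / (100000 * M * X) with hc
  have hcpos : 0 < c := by rw [hc]; positivity
  have hMX : 2 ≤ (M : ℝ) * X := by nlinarith
  have hc200 : c ≤ 1 / 200 := by
    rw [hc]
    apply one_div_le_one_div_of_le (by norm_num)
    nlinarith
  have h114 : 114 * M * c = 114 / 100000 / X := by
    rw [hc]
    field_simp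
  -- the small parameter `e' = s ^ 2`
  obtain ⟨s, hs, hs1, hse, hsmall⟩ : ∃ s : ℝ, 0 < s ∧ s ≤ 1 ∧ s ^ 2 ≤ e ∧
      57 * s + 57 * (s + 3 * s * Y / (2 * c)) ≤ 1 / 400 / X := by
    set W : ℝ := 114 + 57 * (3 * Y / (2 * c)) with hW
    have hWpos : 0 < W := by rw [hW]; positivity
    refine ⟨min 1 (min e (1 / 400 / X / W)), by positivity, min_le_left _ _, ?_, ?_⟩
    · set s := min 1 (min e (1 / 400 / X / W)) with hs
      have h1 : s ≤ 1 := min_le_left _ _
      have h2 : s ≤ e := (min_le_right _ _).trans (min_le_left _ _)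
      have h0 : 0 < s := by rw [hs]; positivity
      nlinarith
    · set s := min 1 (min e (1 / 400 / X / W)) with hs
      have h3 : s ≤ 1 / 400 / X / W := (min_le_right _ _).trans (min_le_right _ _)
      have h4 : s * W ≤ 1 / 400 / X := by
        rwa [le_div_iff₀ hWpos] at h3
      have h5 : 57 * s + 57 * (s + 3 * s * Y / (2 * c)) = s * W := by rw [hW]; ring
      rw [h5]
      exact h4
  obtain ⟨ε, N, hε, h⟩ := exists_prices M hM (s ^ 2) (by positivity)
  refine ⟨ε, N, hε, ?_⟩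
  intro V _ R hN hmiss hpth
  obtain ⟨p, B, hp, hBc, hB, hL1, hL2⟩ := h V R hN hmiss hpth
  set n : ℝ := (Fintype.card V : ℝ) with hn
  have hn0 : 0 ≤ n := by rw [hn]; positivity
  refine ⟨p, hp, ?_, hL1.trans (mul_le_mul_of_nonneg_right hse (by positivity))⟩
  intro q hq
  have hL2' : L2 M p ≤ (s * n) ^ 2 := hL2.trans (le_of_eq (by ring))
  have h1 := card_tw_le M hM p hp B hB c hcpos (s * n) (by positivity) hL2'
  have h2 := card_cor_ge M hM p hp B c hcpos hc200 (s * n) (by positivity) hL2' q hq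
  rw [← hY] at h1
  rw [← hX, ← hn, h114] at h2
  have hB' : (B.card : ℝ) ≤ s * n := hBc.trans (mul_le_mul_of_nonneg_right (by nlinarith) hn0)
  have h3 : ((tw p c \ B).card : ℝ) ≤ 3 * s * Y / (2 * c) * n := by
    have h4 : 2 * c / Y * ((tw p c \ B).card : ℝ) ≤ 3 * s * n := by linarith
    have h5 : ((tw p c \ B).card : ℝ) = Y / (2 * c) * (2 * c / Y * ((tw p c \ B).card : ℝ)) := by
      field_simp
    rw [h5]
    refine (mul_le_mul_of_nonneg_left h4 (by positivity)).trans (le_of_eq ?_)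
    ring
  have h6 := mul_le_mul_of_nonneg_right hsmall hn0
  have h7 : n / (20 * X) = 1 / 20 / X * n := by field_simp
  have h8 : 11 / 200 * n / X = 11 / 200 / X * n := by ring
  rw [h7]
  rw [h8] at h2
  have h9 : 0 ≤ n / X := by positivity
  have e1 : 1 / 20 / X * n = 1 / 20 * (n / X) := by ring
  have e2 : 11 / 200 / X * n = 11 / 200 * (n / X) := by ring
  have e3 : 114 / 100000 / X * n = 114 / 100000 * (n / X) := by ring
  have e4 : 1 / 400 / X * n = 1 / 400 * (n / X) := by ring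
  rw [e1]
  rw [e2, e3] at h2
  rw [e4] at h6
  nlinarith

end Pool.Agent.MP_0af329_co.JF
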