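import Pool.Agent.MP_0af329_co.JG2b
import Pool.Agent.MP_0af329_co.JG6c

set_option autoImplicit false

namespace Pool.Agent.MP_0af329_co.JF

open Finset

/-- ROW F18-G9a.  An incorrect pair of two different corners has loss at least `1/100`.
PROOF.  `q i₀ ≠ q' i₀`: `kk ≤ 1 - |p x i₀ - p y i₀| ≤ 66/100` (`kk_le`).  `x ≠ y`, so they are joined: `R i x y` or
`R i y x` for some `i`, and this edge is not correct: if `q i = q' i` its term in `pc` is at least
`1 - |p x i - p y i| ≥ 67/100`; if `q i ≠ q' i` it has the wrong orientation and its term is `≥ 134/100`.  The other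
terms of `pc` are `≥ 0` and `bd = 0` (or `bd ≥ 0`). -/
theorem loss_of_not_gd {V : Type} {K : ℕ} (R : Fin K → V → V → Prop)
    (hj : ∀ x y, x ≠ y → ∃ i, R i x y ∨ R i y x)
    (p : V → Fin K → ℝ) (hp : ∀ x i, 0 ≤ p x i ∧ p x i ≤ 1) (q q' : Fin K → Bool) (hq : q ≠ q')
    (x y : V) (hx : ∀ i, |p x i - cr q i| ≤ 33 / 100) (hy : ∀ i, |p y i - cr q' i| ≤ 33 / 100)
    (h : ¬ gd R q q' x y) : 1 / 100 ≤ pc R p x y + bd R x y - kk (p x) (p y) := by
  classical
  have hx' : ∀ i, -(33 / 100) ≤ p x i - cr q i ∧ p x i - cr q i ≤ 33 / 100 := fun i => abs_le.1 (hx i)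
  have hy' : ∀ i, -(33 / 100) ≤ p y i - cr q' i ∧ p y i - cr q' i ≤ 33 / 100 := fun i => abs_le.1 (hy i)
  have hcr : ∀ (r : Fin K → Bool) i, cr r i = if r i then 1 else 0 := fun r i => rfl
  -- the two corners differ
  obtain ⟨i₀, hi₀⟩ : ∃ i, q i ≠ q' i := by
    by_contra hcon
    push Not at hcon
    exact hq (funext hcon)
  have hkk : kk (p x) (p y) ≤ 66 / 100 := by
    have h1 := kk_le (p x) (p y) (hp x) (hp y) i₀
    have h2 : 34 / 100 ≤ |p x i₀ - p y i₀| := by
      have h3 := hx' i₀
      have h4 := hy' i₀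
      rw [hcr] at h3 h4
      cases hq1 : q i₀ <;> cases hq2 : q' i₀ <;> rw [hq1] at h3 hi₀ <;> rw [hq2] at h4 hi₀
      · exact absurd rfl hi₀
      · simp only [Bool.false_eq_true, if_false, if_true] at h3 h4
        rw [abs_sub_comm]
        exact le_trans (by linarith [h3.2, h4.1]) (le_abs_self _)
      · simp only [Bool.false_eq_true, if_false, if_true] at h3 h4
        exact le_trans (by linarith [h3.1, h4.2]) (le_abs_self _)
      · exact absurd rfl hi₀
    linarith
  have hxy : x ≠ y := by
    rintro rfl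
    have h3 := hx' i₀
    have h4 := hy' i₀
    rw [hcr] at h3 h4
    cases hq1 : q i₀ <;> cases hq2 : q' i₀ <;> rw [hq1] at h3 hi₀ <;> rw [hq2] at h4 hi₀
    · exact absurd rfl hi₀
    · simp only [Bool.false_eq_true, if_false, if_true] at h3 h4
      linarith [h3.2, h4.1]
    · simp only [Bool.false_eq_true, if_false, if_true] at h3 h4
      linarith [h3.1, h4.2]
    · exact absurd rfl hi₀
  have hbd : 0 ≤ bd R x y := by
    unfold bd
    split_ifs <;> norm_num
  obtain ⟨i, hi⟩ := hj x y hxy
  -- the price of the colour `i`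
  have hterm : ∀ j, 0 ≤ ((if R j x y then (p x j + 1 - p y j) else 0) +
      (if R j y x then (p y j + 1 - p x j) else 0)) := by
    intro j
    have h1 := hp x j
    have h2 := hp y j
    have h3 : 0 ≤ (if R j x y then (p x j + 1 - p y j) else 0) := by
      split_ifs
      · linarith [h1.1, h2.2]
      · exact le_refl _
    have h4 : 0 ≤ (if R j y x then (p y j + 1 - p x j) else 0) := by
      split_ifs
      · linarith [h1.2, h2.1]
      · exact le_refl _
    linarith
  have hpc : ((if R i x y then (p x i + 1 - p y i) else 0) +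
      (if R i y x then (p y i + 1 - p x i) else 0)) ≤ pc R p x y := by
    unfold pc
    exact Finset.single_le_sum (f := fun i => ((if R i x y then (p x i + 1 - p y i) else 0) +
      (if R i y x then (p y i + 1 - p x i) else 0))) (fun j _ => hterm j) (Finset.mem_univ i)
  have hmain : 67 / 100 ≤ ((if R i x y then (p x i + 1 - p y i) else 0) +
      (if R i y x then (p y i + 1 - p x i) else 0)) := by
    have hpx := hp x i
    have hpy := hp y i
    have h3 := hx' i
    have h4 := hy' i
    have hg : ¬ (q i ≠ q' i ∧ (if q i then R i y x else R i x y)) := fun hh => h ⟨i, hh⟩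
    have hn1 : 0 ≤ (if R i x y then (p x i + 1 - p y i) else 0) := by
      split_ifs
      · linarith [hpx.1, hpy.2]
      · exact le_refl _
    have hn2 : 0 ≤ (if R i y x then (p y i + 1 - p x i) else 0) := by
      split_ifs
      · linarith [hpx.2, hpy.1]
      · exact le_refl _
    rw [hcr] at h3 h4
    cases hq1 : q i <;> cases hq2 : q' i <;> rw [hq1] at h3 hg <;> rw [hq2] at h4 hg <;>
      simp only [Bool.false_eq_true, if_false, if_true, ne_eq, not_true_eq_false, false_and,
        not_false_eq_true, true_and, reduceCtorEq] at h3 h4 hg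
    · rcases hi with hi | hi
      · rw [if_pos hi] at hn1 ⊢
        linarith [h3.1, h4.2, hpx.1]
      · rw [if_pos hi] at hn2 ⊢
        linarith [h3.2, h4.1, hpy.1]
    · rcases hi with hi | hi
      · exact absurd hi hg
      · rw [if_pos hi] at hn2 ⊢
        linarith [h3.2, h4.1]
    · rcases hi with hi | hi
      · rw [if_pos hi] at hn1 ⊢
        linarith [h3.1, h4.2]
      · exact absurd hi hg
    · rcases hi with hi | hi
      · rw [if_pos hi] at hn1 ⊢
        linarith [h3.1, h4.2, hpy.2]
      · rw [if_pos hi] at hn2 ⊢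
        linarith [h3.2, h4.1, hpx.2]
  linarith

end Pool.Agent.MP_0af329_co.JF
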