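import Pool.Agent.MP_0af329_co.JG8c
import Pool.Agent.MP_0af329_co.JG9a
import Pool.Agent.MP_0af329_co.JG6c

set_option autoImplicit false

namespace Pool.Agent.MP_0af329_co.JF

open Finset

open Classical in
/-- ROW F18-G9b.  `exists_corners` with `e/100`, `C q = cor p (cr q)`, and `loss_of_not_gd`, `pair_nonneg`:
`(1/100) #bad ≤ L1 R p ≤ (e/100) n²`. -/
theorem exists_sets (M : ℕ) (hM : 2 ≤ M) (e : ℝ) (he : 0 < e) :
    ∃ (ε : ℝ) (N : ℕ), 0 < ε ∧ ∀ (V : Type) [Fintype V] (R : Fin (2 * M) → V → V → Prop),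
      N ≤ Fintype.card V → (∀ x y, x ≠ y → ∃ i, R i x y ∨ R i y x) →
      pth R ≤ (1 / (6 * 4 ^ (2 * M - 1)) + ε) * (Fintype.card V : ℝ) ^ 3 →
      ∃ C : (Fin (2 * M) → Bool) → Finset V,
        (∀ q, (Fintype.card V : ℝ) / (20 * 4 ^ M) ≤ (C q).card) ∧
        (∀ q q', q ≠ q' → ((((C q) ×ˢ (C q')).filter fun t => ¬ gd R q q' t.1 t.2).card : ℝ) ≤
          e * (Fintype.card V : ℝ) ^ 2) := by
  obtain ⟨ε, N, hε, h⟩ := exists_corners M hM (e / 100) (by positivity)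
  refine ⟨ε, N, hε, ?_⟩
  intro V _ R hN hj hpth
  have hmiss : miss R = 0 := by
    unfold miss
    rw [Finset.card_eq_zero, Finset.filter_eq_empty_iff]
    rintro t - ⟨hne, hno⟩
    obtain ⟨i, hi⟩ := hj t.1 t.2 hne
    rcases hi with hi | hi
    · exact (hno i).1 hi
    · exact (hno i).2 hi
  obtain ⟨p, hp, hcor, hL1⟩ := h V R hN hmiss hpth
  refine ⟨fun q => cor p (cr q), fun q => hcor (cr q) (fun i => ?_), ?_⟩
  · unfold cr
    split_ifs
    · exact Or.inr rfl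
    · exact Or.inl rfl
  · intro q q' hqq
    set S := ((cor p (cr q)) ×ˢ (cor p (cr q'))).filter fun t => ¬ gd R q q' t.1 t.2 with hS
    have hnn : ∀ x y, 0 ≤ pc R p x y + bd R x y - kk (p x) (p y) := fun x y =>
      pair_nonneg (by omega) R p hp x y
    have h1 : (1 / 100 : ℝ) * S.card ≤ L1 R p := by
      have h2 : ∑ t ∈ S, (1 / 100 : ℝ) ≤
          ∑ t ∈ S, (pc R p t.1 t.2 + bd R t.1 t.2 - kk (p t.1) (p t.2)) := by
        refine Finset.sum_le_sum fun t ht => ?_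
        rw [hS, Finset.mem_filter, Finset.mem_product] at ht
        obtain ⟨⟨hx, hy⟩, hgd⟩ := ht
        unfold cor at hx hy
        rw [Finset.mem_filter] at hx hy
        exact loss_of_not_gd R hj p hp q q' hqq t.1 t.2 hx.2 hy.2 hgd
      have h3 : ∑ t ∈ S, (pc R p t.1 t.2 + bd R t.1 t.2 - kk (p t.1) (p t.2)) ≤
          ∑ t : V × V, (pc R p t.1 t.2 + bd R t.1 t.2 - kk (p t.1) (p t.2)) :=
        Finset.sum_le_sum_of_subset_of_nonneg (Finset.subset_univ _) fun t _ _ => hnn t.1 t.2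
      have h4 : ∑ t : V × V, (pc R p t.1 t.2 + bd R t.1 t.2 - kk (p t.1) (p t.2)) = L1 R p := by
        unfold L1
        rw [Fintype.sum_prod_type]
      rw [Finset.sum_const, nsmul_eq_mul] at h2
      rw [h4] at h3
      linarith
    have h5 : (1 / 100 : ℝ) * S.card ≤ e / 100 * (Fintype.card V : ℝ) ^ 2 := h1.trans hL1
    linarith

end Pool.Agent.MP_0af329_co.JF
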