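import Pool.Agent.MP_0af329_co.JDefs

set_option autoImplicit false

namespace Pool.Agent.MP_0af329_co.JF

open Finset

/-- The triangle wave of period `4`: `tri s = 1 - dist(s, 4ℤ)`. -/
noncomputable def tri (s : ℝ) : ℝ := 1 - |s - 4 * (round (s / 4) : ℝ)|

/-- The averaged kernel of two points of the cube. -/
noncomputable def kk {K : ℕ} (p q : Fin K → ℝ) : ℝ :=
  (∑ T ∈ (univ : Finset (Fin K)).powerset,
    kap (sS univ T fun i => p i - 1 / 2) (sS univ T fun i => q i - 1 / 2)) / 2 ^ K

/-- The expected value of `kk (p x) q` in the extremal case. -/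
noncomputable def HH (M : ℕ) (q : Fin (2 * M) → ℝ) : ℝ :=
  2 * SS univ (fun i => q i - 1 / 2) phi 0 / 8 ^ M

/-- The loss in the positive-definiteness inequality. -/
noncomputable def L2 {V : Type} [Fintype V] (M : ℕ) (p : V → Fin (2 * M) → ℝ) : ℝ :=
  ∑ x, ∑ y, kk (p x) (p y) - 2 * Fintype.card V * ∑ x, HH M (p x) +
    4 * (Fintype.card V : ℝ) ^ 2 / (3 * 4 ^ M)

/-- The point at distance `t` from the corner `q` on the edge of direction `a`. -/
noncomputable def ep {K : ℕ} (q : Fin K → ℝ) (a : Fin K) (t : ℝ) : Fin K → ℝ :=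
  fun i => if i = a then q i + t * (1 - 2 * q i) else q i

/-- The test function of the corner `q` (with `u = 13/40`, `u' = 3/10`). -/
noncomputable def PhT {K : ℕ} (q : Fin K → ℝ) (a : Fin K) (p : Fin K → ℝ) : ℝ :=
  kk p (ep q a 0) + kk p (ep q a 1) - 28 * kk p (ep q a (13 / 40)) + 27 * kk p (ep q a (3 / 10))

open Classical in
/-- The price of the pair `x, y` in both directions. -/
noncomputable def pc {V : Type} {K : ℕ} (R : Fin K → V → V → Prop) (p : V → Fin K → ℝ) (x y : V) :
    ℝ := ∑ i, ((if R i x y then (p x i + 1 - p y i) else 0) +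
      (if R i y x then (p y i + 1 - p x i) else 0))

open Classical in
/-- `1` if `x = y` or `x, y` are not joined. -/
noncomputable def bd {V : Type} {K : ℕ} (R : Fin K → V → V → Prop) (x y : V) : ℝ :=
  if x = y ∨ (∀ i, ¬ R i x y ∧ ¬ R i y x) then 1 else 0

/-- The loss in the pair inequality. -/
noncomputable def L1 {V : Type} [Fintype V] {K : ℕ} (R : Fin K → V → V → Prop)
    (p : V → Fin K → ℝ) : ℝ := ∑ x, ∑ y, (pc R p x y + bd R x y - kk (p x) (p y))

open Classical in
/-- The vertices whose vector is close to the corner `q`. -/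
noncomputable def cor {V : Type} [Fintype V] {K : ℕ} (p : V → Fin K → ℝ) (q : Fin K → ℝ) :
    Finset V := univ.filter fun x => ∀ i, |p x i - q i| ≤ 33 / 100

open Classical in
/-- The vertices with two coordinates in `[c, 1 - c]`. -/
noncomputable def tw {V : Type} [Fintype V] {K : ℕ} (p : V → Fin K → ℝ) (c : ℝ) : Finset V :=
  univ.filter fun x => ∃ i j, i ≠ j ∧ |p x i - 1 / 2| ≤ 1 / 2 - c ∧ |p x j - 1 / 2| ≤ 1 / 2 - c

/-- The edge between `x` (corner `q`) and `y` (corner `q'`) is correct: it has a colour `i` with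
`q i ≠ q' i` and goes from the side `false` to the side `true`. -/
def gd {V : Type} {K : ℕ} (R : Fin K → V → V → Prop) (q q' : Fin K → Bool) (x y : V) : Prop :=
  ∃ i, q i ≠ q' i ∧ (if q i then R i y x else R i x y)

/-- The corner of the cube. -/
def cr {K : ℕ} (q : Fin K → Bool) : Fin K → ℝ := fun i => if q i then 1 else 0

end Pool.Agent.MP_0af329_co.JF
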