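import Mathlib

set_option autoImplicit false
set_option linter.unusedSectionVars false

namespace Pool.Agent.MP_0af329_co.JF

open Finset

section
variable {I V : Type} [Fintype I] [DecidableEq I] [Fintype V] [DecidableEq V]

omit [Fintype V] in
/-- One prescribed coordinate, as a product. -/
private theorem h1_filter (D : I → Finset V) (i : I) (a : V) (ha : a ∈ D i) :
    ((Fintype.piFinset D).filter fun Y => Y i = a) =
      Fintype.piFinset (Function.update D i {a}) := by
  ext Y
  simp only [mem_filter, Fintype.mem_piFinset]
  constructor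
  · rintro ⟨h1, h2⟩ l
    by_cases hl : l = i
    · subst hl
      rw [Function.update_self, h2]
      exact mem_singleton_self a
    · rw [Function.update_of_ne hl]
      exact h1 l
  · intro h
    have hi : Y i = a := by
      have := h i
      rw [Function.update_self] at this
      exact mem_singleton.1 this
    refine ⟨fun l => ?_, hi⟩
    by_cases hl : l = i
    · subst hl
      rw [hi]
      exact ha
    · have := h l
      rwa [Function.update_of_ne hl] at this

omit [Fintype V] [DecidableEq V] in
/-- The number of tuples with one prescribed coordinate. -/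
private theorem h1_card (D : I → Finset V) (i : I) (a : V) :
    (Fintype.piFinset (Function.update D i {a})).card * (D i).card =
      (Fintype.piFinset D).card := by
  rw [Fintype.card_piFinset, Fintype.card_piFinset, ← mul_prod_erase univ _ (mem_univ i),
    ← mul_prod_erase univ (fun l => (D l).card) (mem_univ i), Function.update_self, card_singleton,
    one_mul, mul_comm]
  congr 1
  refine prod_congr rfl fun l hl => ?_
  rw [Function.update_of_ne (ne_of_mem_erase hl)]

omit [Fintype V] in
/-- The number of tuples with two prescribed coordinates. -/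
private theorem h1_card2 (D : I → Finset V) (i j : I) (hij : i ≠ j) (a b : V) (ha : a ∈ D i)
    (hb : b ∈ D j) :
    ((Fintype.piFinset D).filter fun Y => Y i = a ∧ Y j = b).card * ((D i).card * (D j).card) =
      (Fintype.piFinset D).card := by
  have h1 : (Function.update D i {a}) j = D j := Function.update_of_ne hij.symm _ _
  rw [← filter_filter, h1_filter D i a ha, h1_filter _ j b (by rw [h1]; exact hb),
    mul_comm (D i).card, ← mul_assoc, ← h1, h1_card, h1_card]

omit [Fintype V] in
/-- The number of tuples with three prescribed coordinates. -/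
private theorem h1_card3 (D : I → Finset V) (i j l : I) (hij : i ≠ j) (hil : i ≠ l) (hjl : j ≠ l)
    (a b c : V) (ha : a ∈ D i) (hb : b ∈ D j) (hc : c ∈ D l) :
    ((Fintype.piFinset D).filter fun Y => Y i = a ∧ Y j = b ∧ Y l = c).card *
        ((D i).card * ((D j).card * (D l).card)) = (Fintype.piFinset D).card := by
  have h1 : (Function.update D i {a}) j = D j := Function.update_of_ne hij.symm _ _
  have h2 : (Function.update D i {a}) l = D l := Function.update_of_ne hil.symm _ _
  rw [← filter_filter, h1_filter D i a ha, mul_comm (D i).card, ← mul_assoc]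
  rw [← h1, ← h2, h1_card2 _ j l hjl b c (by rw [h1]; exact hb) (by rw [h2]; exact hc), h1_card]

omit [Fintype V] [DecidableEq V] in
/-- Counting by the values of `f`. -/
private theorem h1_fib {W X : Type} [DecidableEq W] (s : Finset X) (f : X → W) (t : Finset W)
    (hf : ∀ x ∈ s, f x ∈ t) (N M : ℕ)
    (h : ∀ w ∈ t, (s.filter fun x => f x = w).card * N = M) (P : W → Prop) [DecidablePred P] :
    (s.filter fun x => P (f x)).card * N = (t.filter P).card * M := by
  rw [card_eq_sum_card_fiberwise (f := f) (t := t.filter P) (fun x hx => by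
    rw [mem_coe, mem_filter] at hx ⊢
    exact ⟨hf x hx.1, hx.2⟩), sum_mul, ← smul_eq_mul, ← sum_const]
  refine sum_congr rfl fun w hw => ?_
  rw [mem_filter] at hw
  rw [← h w hw.1]
  congr 2
  ext x
  simp only [mem_filter]
  constructor
  · rintro ⟨⟨h1, -⟩, h2⟩
    exact ⟨h1, h2⟩
  · rintro ⟨h1, h2⟩
    exact ⟨⟨h1, by rw [h2]; exact hw.2⟩, h2⟩

/-- ROW F18-H1a.  The number of tuples with two prescribed coordinates in a given relation.
PROOF.  `#{Y ∈ piFinset D : Y i = a ∧ Y j = b}` is the cardinality of
`Fintype.piFinset (Function.update (Function.update D i {a}) j {b})` (for `a ∈ D i`, `b ∈ D j`), i.e.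
`∏_{l ≠ i, j} |D l|` (`Fintype.card_piFinset`); sum over all `(a, b)` in the relation. -/
theorem card_two (D : I → Finset V) (i j : I) (hij : i ≠ j) (P : V → V → Prop)
    [DecidableRel P] :
    ((Fintype.piFinset D).filter fun Y => P (Y i) (Y j)).card * ((D i).card * (D j).card) =
      ((D i ×ˢ D j).filter fun t => P t.1 t.2).card * (Fintype.piFinset D).card := by
  refine h1_fib (Fintype.piFinset D) (fun Y => (Y i, Y j)) (D i ×ˢ D j) (fun Y hY => ?_) _ _
    (fun w hw => ?_) (fun t : V × V => P t.1 t.2)
  · rw [Fintype.mem_piFinset] at hY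
    exact mem_product.2 ⟨hY i, hY j⟩
  · rw [mem_product] at hw
    rw [← h1_card2 D i j hij w.1 w.2 hw.1 hw.2]
    congr 2
    ext Y
    simp only [mem_filter, Prod.ext_iff]

/-- ROW F18-H1b.  Three prescribed coordinates. -/
theorem card_three (D : I → Finset V) (i j l : I) (hij : i ≠ j) (hil : i ≠ l) (hjl : j ≠ l)
    (P : V → V → V → Prop) [∀ a b c, Decidable (P a b c)] :
    ((Fintype.piFinset D).filter fun Y => P (Y i) (Y j) (Y l)).card *
        ((D i).card * ((D j).card * (D l).card)) =
      ((D i ×ˢ D j ×ˢ D l).filter fun t => P t.1 t.2.1 t.2.2).card *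
        (Fintype.piFinset D).card := by
  refine h1_fib (Fintype.piFinset D) (fun Y => (Y i, Y j, Y l)) (D i ×ˢ D j ×ˢ D l)
    (fun Y hY => ?_) _ _ (fun w hw => ?_) (fun t : V × V × V => P t.1 t.2.1 t.2.2)
  · rw [Fintype.mem_piFinset] at hY
    exact mem_product.2 ⟨hY i, mem_product.2 ⟨hY j, hY l⟩⟩
  · rw [mem_product, mem_product] at hw
    rw [← h1_card3 D i j l hij hil hjl w.1 w.2.1 w.2.2 hw.1 hw.2.1 hw.2.2]
    congr 2
    ext Y
    simp only [mem_filter, Prod.ext_iff]

end

end Pool.Agent.MP_0af329_co.JF
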