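import Pool.Agent.MP_0af329_co.JH1a

set_option autoImplicit false

namespace Pool.Agent.MP_0af329_co.JF

open Finset

section
variable {I V : Type} [Fintype I] [DecidableEq I] [Fintype V] [DecidableEq V]

open Classical in
/-- ROW F18-H1c.  The union bound.  PROOF.  Otherwise every `Y ∈ piFinset D` (nonempty) lies in one of the
sets `{P i j (Y i) (Y j)}` (`i ≠ j`) or `{Q i j l (Y i) (Y j) (Y l)}` (distinct), each of which has at most
`e * |piFinset D|` elements (`card_two`, `card_three`), and there are at most `|I|² + |I|³` of them. -/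
theorem exists_tuple (D : I → Finset V) (hD : ∀ i, (D i).Nonempty)
    (P : I → I → V → V → Prop) (Q : I → I → I → V → V → V → Prop) (e : ℝ)
    (hP : ∀ i j, i ≠ j → (((D i ×ˢ D j).filter fun t => P i j t.1 t.2).card : ℝ) ≤
      e * ((D i).card * (D j).card))
    (hQ : ∀ i j l, i ≠ j → i ≠ l → j ≠ l →
      (((D i ×ˢ D j ×ˢ D l).filter fun t => Q i j l t.1 t.2.1 t.2.2).card : ℝ) ≤
      e * ((D i).card * ((D j).card * (D l).card)))
    (he : ((Fintype.card I : ℝ) ^ 2 + (Fintype.card I : ℝ) ^ 3) * e < 1) :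
    ∃ Y : I → V, (∀ i, Y i ∈ D i) ∧ (∀ i j, i ≠ j → ¬ P i j (Y i) (Y j)) ∧
      (∀ i j l, i ≠ j → i ≠ l → j ≠ l → ¬ Q i j l (Y i) (Y j) (Y l)) := by
  by_contra hcon
  have hpos : ∀ i, (0 : ℝ) < (D i).card := fun i => by
    exact_mod_cast Finset.card_pos.2 (hD i)
  set A := Fintype.piFinset D with hA
  have hAne : A.Nonempty := by
    choose f hf using hD
    exact ⟨f, Fintype.mem_piFinset.2 hf⟩
  have hN : (0 : ℝ) < A.card := by exact_mod_cast Finset.card_pos.2 hAne
  set e' : ℝ := max e 0 with he'
  have he0 : 0 ≤ e' := le_max_right _ _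
  have hee : e ≤ e' := le_max_left _ _
  have he1 : ((Fintype.card I : ℝ) ^ 2 + (Fintype.card I : ℝ) ^ 3) * e' < 1 := by
    rcases le_total e 0 with h | h
    · rw [he', max_eq_right h, mul_zero]
      exact one_pos
    · rw [he', max_eq_left h]
      exact he
  -- the bad sets
  set B2 : I × I → Finset (I → V) := fun q =>
    if q.1 ≠ q.2 then A.filter (fun Y => P q.1 q.2 (Y q.1) (Y q.2)) else ∅ with hB2
  set B3 : I × I × I → Finset (I → V) := fun q =>
    if q.1 ≠ q.2.1 ∧ q.1 ≠ q.2.2 ∧ q.2.1 ≠ q.2.2 then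
      A.filter (fun Y => Q q.1 q.2.1 q.2.2 (Y q.1) (Y q.2.1) (Y q.2.2)) else ∅ with hB3
  have c2 : ∀ q, ((B2 q).card : ℝ) ≤ e' * A.card := by
    rintro ⟨i, j⟩
    simp only [hB2]
    split_ifs with h
    · have h1 := card_two D i j h (fun a b => P i j a b)
      have h2 : (((A.filter fun Y => P i j (Y i) (Y j)).card : ℝ) * ((D i).card * (D j).card)) =
          (((D i ×ˢ D j).filter fun t => P i j t.1 t.2).card : ℝ) * A.card := by
        exact_mod_cast h1
      have h3 := hP i j h
      have h4 : (0 : ℝ) < (D i).card * (D j).card := mul_pos (hpos i) (hpos j)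
      have h5 : ((A.filter fun Y => P i j (Y i) (Y j)).card : ℝ) * ((D i).card * (D j).card) ≤
          (e' * A.card) * ((D i).card * (D j).card) := by
        rw [h2]
        calc (((D i ×ˢ D j).filter fun t => P i j t.1 t.2).card : ℝ) * A.card
            ≤ (e * ((D i).card * (D j).card)) * A.card :=
              mul_le_mul_of_nonneg_right h3 hN.le
          _ ≤ (e' * ((D i).card * (D j).card)) * A.card := by gcongr
          _ = (e' * A.card) * ((D i).card * (D j).card) := by ring
      exact le_of_mul_le_mul_right h5 h4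
    · rw [Finset.card_empty, Nat.cast_zero]
      positivity
  have c3 : ∀ q, ((B3 q).card : ℝ) ≤ e' * A.card := by
    rintro ⟨i, j, l⟩
    simp only [hB3]
    split_ifs with h
    · have h1 := card_three D i j l h.1 h.2.1 h.2.2 (fun a b c => Q i j l a b c)
      have h2 : (((A.filter fun Y => Q i j l (Y i) (Y j) (Y l)).card : ℝ) *
          ((D i).card * ((D j).card * (D l).card))) =
          (((D i ×ˢ D j ×ˢ D l).filter fun t => Q i j l t.1 t.2.1 t.2.2).card : ℝ) * A.card := by
        exact_mod_cast h1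
      have h3 := hQ i j l h.1 h.2.1 h.2.2
      have h4 : (0 : ℝ) < (D i).card * ((D j).card * (D l).card) :=
        mul_pos (hpos i) (mul_pos (hpos j) (hpos l))
      have h5 : ((A.filter fun Y => Q i j l (Y i) (Y j) (Y l)).card : ℝ) *
          ((D i).card * ((D j).card * (D l).card)) ≤
          (e' * A.card) * ((D i).card * ((D j).card * (D l).card)) := by
        rw [h2]
        calc (((D i ×ˢ D j ×ˢ D l).filter fun t => Q i j l t.1 t.2.1 t.2.2).card : ℝ) * A.card
            ≤ (e * ((D i).card * ((D j).card * (D l).card))) * A.card :=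
              mul_le_mul_of_nonneg_right h3 hN.le
          _ ≤ (e' * ((D i).card * ((D j).card * (D l).card))) * A.card := by gcongr
          _ = (e' * A.card) * ((D i).card * ((D j).card * (D l).card)) := by ring
      exact le_of_mul_le_mul_right h5 h4
    · rw [Finset.card_empty, Nat.cast_zero]
      positivity
  have hcov : A ⊆ (Finset.univ.biUnion B2) ∪ (Finset.univ.biUnion B3) := by
    intro Y hY
    have hYD : ∀ i, Y i ∈ D i := Fintype.mem_piFinset.1 hY
    by_contra hnot
    apply hcon
    refine ⟨Y, hYD, ?_, ?_⟩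
    · intro i j hij hp
      apply hnot
      rw [Finset.mem_union]
      left
      rw [Finset.mem_biUnion]
      refine ⟨(i, j), Finset.mem_univ _, ?_⟩
      simp only [hB2]
      rw [if_pos hij, Finset.mem_filter]
      exact ⟨hY, hp⟩
    · intro i j l hij hil hjl hq
      apply hnot
      rw [Finset.mem_union]
      right
      rw [Finset.mem_biUnion]
      refine ⟨(i, j, l), Finset.mem_univ _, ?_⟩
      simp only [hB3]
      rw [if_pos ⟨hij, hil, hjl⟩, Finset.mem_filter]
      exact ⟨hY, hq⟩
  have hcard : A.card ≤ ∑ q, (B2 q).card + ∑ q, (B3 q).card :=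
    (Finset.card_le_card hcov).trans ((Finset.card_union_le _ _).trans
      (Nat.add_le_add Finset.card_biUnion_le Finset.card_biUnion_le))
  have hcard' : (A.card : ℝ) ≤ ∑ q, ((B2 q).card : ℝ) + ∑ q, ((B3 q).card : ℝ) := by
    exact_mod_cast hcard
  have s2 : ∑ q, ((B2 q).card : ℝ) ≤ (Fintype.card I : ℝ) ^ 2 * (e' * A.card) := by
    refine (Finset.sum_le_sum fun q _ => c2 q).trans (le_of_eq ?_)
    rw [Finset.sum_const, nsmul_eq_mul, Finset.card_univ, Fintype.card_prod]
    push_cast
    ring
  have s3 : ∑ q, ((B3 q).card : ℝ) ≤ (Fintype.card I : ℝ) ^ 3 * (e' * A.card) := by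
    refine (Finset.sum_le_sum fun q _ => c3 q).trans (le_of_eq ?_)
    rw [Finset.sum_const, nsmul_eq_mul, Finset.card_univ, Fintype.card_prod, Fintype.card_prod]
    push_cast
    ring
  have hfin : (A.card : ℝ) ≤
      (((Fintype.card I : ℝ) ^ 2 + (Fintype.card I : ℝ) ^ 3) * e') * A.card := by
    refine hcard'.trans ((add_le_add s2 s3).trans (le_of_eq ?_))
    ring
  have : (((Fintype.card I : ℝ) ^ 2 + (Fintype.card I : ℝ) ^ 3) * e') * A.card < 1 * A.card :=
    mul_lt_mul_of_pos_right he1 hN
  linarith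

end

end Pool.Agent.MP_0af329_co.JF
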