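import Pool.Agent.MP_0af329_co.JHDefs

set_option autoImplicit false

namespace Pool.Agent.MP_0af329_co.JF

theorem cb_dvd (K m : ℕ) (i : ℕ) (hi : i < K) : K ∣ m + K - i ↔ m % K = i := by
  constructor
  · rintro ⟨t, ht⟩
    have ht1 : 1 ≤ t := by
      rcases Nat.eq_zero_or_pos t with h | h
      · rw [h] at ht
        omega
      · exact h
    obtain ⟨s, rfl⟩ : ∃ s, t = s + 1 := ⟨t - 1, by omega⟩
    have h2 : m = K * s + i := by
      rw [mul_add] at ht
      omega
    rw [h2, Nat.mul_add_mod, Nat.mod_eq_of_lt hi]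
  · intro h
    refine ⟨m / K + 1, ?_⟩
    have h1 := Nat.div_add_mod m K
    rw [mul_add]
    omega

theorem cb_floor (K m : ℕ) (i : ℕ) (hi : i < K) :
    (m + 1 + K - 1 - i) / K = (m + K - 1 - i) / K + if m % K = i then 1 else 0 := by
  have h1 : m + 1 + K - 1 - i = (m + K - 1 - i) + 1 := by omega
  have h2 : (m + K - 1 - i) + 1 = m + K - i := by omega
  rw [h1, Nat.succ_div, h2]
  congr 1
  by_cases h : m % K = i
  · rw [if_pos h, if_pos ((cb_dvd K m i hi).2 h)]
  · rw [if_neg h, if_neg (fun h' => h ((cb_dvd K m i hi).1 h'))]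

theorem cb_succ (K m : ℕ) (hK : 0 < K) (i : Fin K) :
    cb K (m + 1) i = if m % K = i then !(cb K m i) else cb K m i := by
  unfold cb
  rw [cb_floor K m i i.2]
  by_cases h : m % K = (i : ℕ)
  · rw [if_pos h, if_pos h]
    rcases Nat.mod_two_eq_zero_or_one ((i : ℕ) + (m + K - 1 - i) / K) with h1 | h1
    · have h2 : ((i : ℕ) + ((m + K - 1 - i) / K + 1)) % 2 = 1 := by omega
      simp [h1, h2]
    · have h2 : ((i : ℕ) + ((m + K - 1 - i) / K + 1)) % 2 = 0 := by omega
      simp [h1, h2]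
  · rw [if_neg h, if_neg h, add_zero]

theorem cb_period (K m : ℕ) (hK : 0 < K) : cb K (m + 2 * K) = cb K m := by
  funext i
  unfold cb
  have hi := i.2
  have h1 : m + 2 * K + K - 1 - (i : ℕ) = (m + K - 1 - i) + K * 2 := by omega
  rw [h1, Nat.add_mul_div_left _ _ hK]
  congr 1
  apply propext
  constructor <;> intro h <;> omega

/-- Consecutive bits of `cb (m+1)` differ, except possibly at the position `m % K`.  (Both floors
`(m + K - c) / K` and `(m + K - c - 1) / K` are equal unless `K ∣ m + K - c`.) -/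
theorem cb_chain (K m : ℕ) (c c' : Fin K) (hc : (c : ℕ) + 1 = c') (h : (c : ℕ) ≠ m % K) :
    cb K (m + 1) c ≠ cb K (m + 1) c' := by
  unfold cb
  have hc2 := c.2
  have hc2' := c'.2
  rw [← hc] at hc2' ⊢
  have h1 := cb_floor K m c c.2
  rw [if_neg (fun h' => h h'.symm), add_zero] at h1
  have h2 : m + 1 + K - 1 - ((c : ℕ) + 1) = m + K - 1 - c := by omega
  rw [h1, h2]
  rcases Nat.mod_two_eq_zero_or_one ((c : ℕ) + (m + K - 1 - c) / K) with h3 | h3
  · have h4 : ((c : ℕ) + 1 + (m + K - 1 - c) / K) % 2 = 1 := by omega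
    simp [h3, h4]
  · have h4 : ((c : ℕ) + 1 + (m + K - 1 - c) / K) % 2 = 0 := by omega
    simp [h3, h4]

/-- For even `K`: the last bit and the first bit of `cb (m+1)` agree unless `K - 1 = m % K`. -/
theorem cb_wrap (K m : ℕ) (hK : Even K) (c c' : Fin K) (hc : (c : ℕ) = K - 1) (hc' : (c' : ℕ) = 0)
    (h : (c : ℕ) ≠ m % K) : cb K (m + 1) c = cb K (m + 1) c' := by
  unfold cb
  have hc2 := c.2
  obtain ⟨r, hr⟩ := hK
  have h1 := cb_floor K m c c.2
  rw [if_neg (fun h' => h h'.symm), add_zero] at h1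
  rw [h1, hc, hc']
  have h2 : m + K - 1 - (K - 1) = m := by omega
  have h3 : m + 1 + K - 1 - 0 = m + K := by omega
  rw [h2, h3, Nat.add_div_right _ (by omega)]
  congr 1
  apply propext
  constructor <;> intro h4 <;> omega

/-- `cb 2` and `cb 3` differ from `cb 0`, and `cb 1` differs from `cb 0` (`K ≥ 3`). -/
theorem cb_ne (K : ℕ) (hK : 4 ≤ K) :
    cb K 1 ≠ cb K 0 ∧ cb K 2 ≠ cb K 0 ∧ cb K 3 ≠ cb K 0 := by
  have h0 : cb K 0 ⟨0, by omega⟩ = false := by
    unfold cb
    have : (0 + K - 1 - 0) / K = 0 := Nat.div_eq_of_lt (by omega)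
    simp only [this]
    simp
  have h1 : ∀ m, 1 ≤ m → m ≤ 3 → cb K m ⟨0, by omega⟩ = true := by
    intro m hm1 hm3
    unfold cb
    have : (m + K - 1 - 0) / K = 1 := by
      rw [Nat.div_eq_iff (by omega)]
      omega
    simp only [this]
    simp
  have h2 : ∀ m, 1 ≤ m → m ≤ 3 → cb K m ≠ cb K 0 := by
    intro m hm1 hm3 h
    have := congrFun h ⟨0, by omega⟩
    rw [h0, h1 m hm1 hm3] at this
    exact absurd this (by simp)
  exact ⟨h2 1 (by omega) (by omega), h2 2 (by omega) (by omega), h2 3 (by omega) (by omega)⟩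

end Pool.Agent.MP_0af329_co.JF
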