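import Pool.Agent.MP_0af329_co.JHDefs

set_option autoImplicit false

namespace Pool.Agent.MP_0af329_co.JF

open Finset EuclideanGeometry

/-- ROW F18-H4a.  The edge of direction `i` at the corner `q`.  PROOF.  `q` and `update q i (!q i)` differ
only in `i`, so the correct edge has colour `i` and leaves the side `false`. -/
theorem Trans.edge {S : Finset Pt} {K : ℕ} {d : Dirs S K} {X : (Fin K → Bool) → S}
    (hX : Trans d X) (q : Fin K → Bool) (i : Fin K) :
    d.co (X q) (X (Function.update q i (!(q i)))) = i ∧
      d.sig (X q) (X (Function.update q i (!(q i)))) = !(q i) := by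
  have hne : q ≠ Function.update q i (!(q i)) := by
    intro h
    have := congrFun h i
    rw [Function.update_self] at this
    cases hq : q i <;> rw [hq] at this <;> simp at this
  obtain ⟨j, hj, hR⟩ := (hX.1 q _ hne).2
  have hji : j = i := by
    by_contra h
    rw [Function.update_of_ne h] at hj
    exact hj rfl
  rw [hji] at hR
  cases hq : q i
  · rw [hq] at hR
    obtain ⟨h1, h2, h3⟩ := hR
    rw [hq] at *
    exact ⟨h3, h2⟩
  · rw [hq] at hR
    obtain ⟨h1, h2, h3⟩ := hR
    rw [hq] at *
    refine ⟨?_, ?_⟩
    · rw [d.co_symm _ _ h1]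
      exact h3
    · rw [d.sig_symm _ _ h1, h2]

end Pool.Agent.MP_0af329_co.JF
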