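import Pool.Agent.MP_0af329_co.JH4a

set_option autoImplicit false

namespace Pool.Agent.MP_0af329_co.JF

open Finset EuclideanGeometry

theorem upd_ne {K : ℕ} (q : Fin K → Bool) (i : Fin K) : q ≠ Function.update q i (!(q i)) := by
  intro h
  have := congrFun h i
  rw [Function.update_self] at this
  cases hq : q i <;> rw [hq] at this <;> simp at this

theorem Trans_upd_ne {S : Finset Pt} {K : ℕ} {d : Dirs S K} {X : (Fin K → Bool) → S}
    (hX : Trans d X) (q : Fin K → Bool) (i : Fin K) : X q ≠ X (Function.update q i (!(q i))) :=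
  (hX.1 _ _ (upd_ne q i)).1

/-- ROW F18-H4b.  Two consecutive colours with different bits: the angle at `X q` between the two edges is
`π - (psi' - psi)` (signs differ, `psi < psi'` by the cells), the colours differ, so (no extra big angle)
`psi' - psi ≥ π/K`. -/
theorem off_le_succ {S : Finset Pt} {K : ℕ} {d : Dirs S K} {X : (Fin K → Bool) → S}
    (hX : Trans d X) (q : Fin K → Bool) (c c' : Fin K) (hc : (c : ℕ) + 1 = c') (h : q c ≠ q c') :
    off d X q c ≤ off d X q c' := by
  obtain ⟨e1, e2⟩ := hX.edge q c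
  obtain ⟨e1', e2'⟩ := hX.edge q c'
  have hy := Trans_upd_ne hX q c
  have hz := Trans_upd_ne hX q c'
  have hno := hX.2 _ q _ (upd_ne q c).symm (upd_ne q c').symm
  have hc1 := d.cell _ _ hy
  have hc1' := d.cell _ _ hz
  unfold off
  generalize X q = v at e1 e2 e1' e2' hy hz hno hc1 hc1' ⊢
  generalize X (Function.update q c (!(q c))) = y at e1 e2 hy hno hc1 ⊢
  generalize X (Function.update q c' (!(q c'))) = z at e1' e2' hz hno hc1' ⊢
  rw [e1] at hc1
  rw [e1'] at hc1'
  have hang := d.ang v y z hy.symm hz.symm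
  rw [e2, e2'] at hang
  have hsg : (!(q c)) ≠ (!(q c')) := by
    intro h'
    apply h
    cases h1 : q c <;> cases h2 : q c' <;> rw [h1, h2] at h' <;> simp_all
  rw [if_neg hsg] at hang
  have hco : d.co v y ≠ d.co v z := by
    rw [e1, e1']
    intro h'
    rw [h'] at hc
    omega
  have hle : ∠ (y : Pt) (v : Pt) (z : Pt) ≤ Real.pi - Real.pi / K := by
    by_contra h'
    push Not at h'
    exact hno ⟨hy.symm, hz.symm, hco, h'⟩
  have hcR : ((c' : ℕ) : ℝ) = ((c : ℕ) : ℝ) + 1 := by rw [← hc]; push_cast; ring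
  rw [hcR] at hc1' ⊢
  have hlt : d.psi v y < d.psi v z := lt_of_lt_of_le hc1.2 hc1'.1
  rw [abs_of_neg (by linarith)] at hang
  have : Real.pi / K ≤ d.psi v z - d.psi v y := by linarith
  linarith

/-- ROW F18-H4b.  The last and the first colour with equal bits: the angle is
`psi_{K-1} - psi_0 ≤ π - π/K = (K-1) π/K`. -/
theorem off_le_wrap {S : Finset Pt} {K : ℕ} (hK : 2 ≤ K) {d : Dirs S K}
    {X : (Fin K → Bool) → S} (hX : Trans d X) (q : Fin K → Bool) (c c' : Fin K)
    (hc : (c : ℕ) = K - 1) (hc' : (c' : ℕ) = 0) (h : q c = q c') :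
    off d X q c ≤ off d X q c' := by
  obtain ⟨e1, e2⟩ := hX.edge q c
  obtain ⟨e1', e2'⟩ := hX.edge q c'
  have hy := Trans_upd_ne hX q c
  have hz := Trans_upd_ne hX q c'
  have hno := hX.2 _ q _ (upd_ne q c).symm (upd_ne q c').symm
  have hc1 := d.cell _ _ hy
  have hc1' := d.cell _ _ hz
  unfold off
  generalize X q = v at e1 e2 e1' e2' hy hz hno hc1 hc1' ⊢
  generalize X (Function.update q c (!(q c))) = y at e1 e2 hy hno hc1 ⊢
  generalize X (Function.update q c' (!(q c'))) = z at e1' e2' hz hno hc1' ⊢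
  rw [e1] at hc1
  rw [e1'] at hc1'
  have hang := d.ang v y z hy.symm hz.symm
  rw [e2, e2', h, if_pos rfl] at hang
  have hco : d.co v y ≠ d.co v z := by
    rw [e1, e1']
    intro h'
    rw [h'] at hc
    omega
  have hle : ∠ (y : Pt) (v : Pt) (z : Pt) ≤ Real.pi - Real.pi / K := by
    by_contra h'
    push Not at h'
    exact hno ⟨hy.symm, hz.symm, hco, h'⟩
  have hK2 : (2 : ℝ) ≤ (K : ℝ) := by exact_mod_cast hK
  have hK0 : (0 : ℝ) < (K : ℝ) := by linarith
  have hpi := Real.pi_pos
  have hth : 0 < Real.pi / K := by positivity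
  have hKth : (K : ℝ) * (Real.pi / K) = Real.pi := by field_simp
  have hcR : ((c : ℕ) : ℝ) = (K : ℝ) - 1 := by rw [hc, Nat.cast_sub (by omega)]; push_cast; ring
  have hcR' : ((c' : ℕ) : ℝ) = 0 := by rw [hc']; push_cast; ring
  rw [hcR] at hc1 ⊢
  rw [hcR'] at hc1' ⊢
  have hlt : d.psi v z < d.psi v y := by
    refine lt_of_lt_of_le hc1'.2 (le_trans ?_ hc1.1)
    have := mul_le_mul_of_nonneg_right (show (0 : ℝ) + 1 ≤ (K : ℝ) - 1 by linarith) hth.le
    exact this
  rw [abs_of_pos (by linarith)] at hang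
  have h5 : ((K : ℝ) - 1) * (Real.pi / K) = Real.pi - Real.pi / K := by
    rw [sub_mul, hKth, one_mul]
  rw [h5]
  linarith

end Pool.Agent.MP_0af329_co.JF
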