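import Pool.Agent.MP_0af329_co.JH3
import Pool.Agent.MP_0af329_co.JH4b

set_option autoImplicit false

namespace Pool.Agent.MP_0af329_co.JF

open Finset EuclideanGeometry

/-- ROW F18-H4c.  PROOF.  The edge `m` joins `X (cb m)` and `X (cb (m+1))`, `cb (m+1) = update (cb m) (m % K) (!…)`
(`cb_succ`), so `eo m = off (cb (m+1)) (m % K)` (`psi_symm`).  At the corner `cb (m+1)`, for `j = 1, …, K - 1`:
`off (cb (m+1)) ((m+j) % K) ≤ off (cb (m+1)) ((m+j+1) % K)` by `off_le_succ`/`cb_chain` or `off_le_wrap`/`cb_wrap`.  The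
chain goes from `(m+1) % K` (`eo (m+1)`) to `(m+K) % K = m % K` (`eo m`). -/
theorem eo_anti {S : Finset Pt} {K : ℕ} (hK : 4 ≤ K) (hev : Even K) {d : Dirs S K}
    {X : (Fin K → Bool) → S} (hX : Trans d X) (m : ℕ) :
    eo (by omega) d X (m + 1) ≤ eo (by omega) d X m := by
  have hK0 : 0 < K := by omega
  -- the corner `cb (m+1)`
  have hupd : Function.update (cb K m) ⟨m % K, Nat.mod_lt _ hK0⟩ (!(cb K m ⟨m % K, Nat.mod_lt _ hK0⟩)) = cb K (m + 1) := by
    funext i
    rw [cb_succ K m hK0 i]
    by_cases h : i = ⟨m % K, Nat.mod_lt _ hK0⟩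
    · rw [h, Function.update_self, if_pos rfl]
    · rw [Function.update_of_ne h, if_neg]
      intro h'
      exact h (Fin.ext h'.symm)
  have hupd2 : Function.update (cb K (m + 1)) ⟨m % K, Nat.mod_lt _ hK0⟩ (!(cb K (m + 1) ⟨m % K, Nat.mod_lt _ hK0⟩)) = cb K m := by
    rw [← hupd]
    funext i
    by_cases h : i = ⟨m % K, Nat.mod_lt _ hK0⟩
    · rw [h, Function.update_self, Function.update_self, Bool.not_not]
    · rw [Function.update_of_ne h, Function.update_of_ne h]
  have heo : eo hK0 d X m = off d X (cb K (m + 1)) ⟨m % K, Nat.mod_lt _ hK0⟩ := by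
    unfold eo off
    rw [hupd, hupd2]
    have hne : X (cb K m) ≠ X (cb K (m + 1)) := by
      have := Trans_upd_ne hX (cb K m) ⟨m % K, Nat.mod_lt _ hK0⟩
      rwa [hupd] at this
    rw [d.psi_symm _ _ hne]
  have hstep : ∀ j, 1 ≤ j → j < K → off d X (cb K (m + 1)) ⟨(m + j) % K, Nat.mod_lt _ hK0⟩ ≤
      off d X (cb K (m + 1)) ⟨(m + j + 1) % K, Nat.mod_lt _ hK0⟩ := by
    intro j hj1 hj2
    have hcne : (m + j) % K ≠ m % K := by
      intro h
      have h1 : (m + j) ≡ m + 0 [MOD K] := h
      have h2 : j ≡ 0 [MOD K] := Nat.ModEq.add_left_cancel' m h1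
      have h3 : j % K = 0 := by
        have : j % K = 0 % K := h2
        simpa using this
      rw [Nat.mod_eq_of_lt hj2] at h3
      omega
    have hlt := Nat.mod_lt (m + j) hK0
    by_cases hw : (m + j) % K = K - 1
    · have h0 : (m + j + 1) % K = 0 := by
        rw [Nat.add_mod, hw, Nat.mod_eq_of_lt (show 1 < K by omega)]
        have : K - 1 + 1 = K := by omega
        rw [this, Nat.mod_self]
      apply off_le_wrap (by omega) hX
      · exact hw
      · exact h0
      · exact cb_wrap K m hev _ _ hw h0 hcne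
    · have h0 : (m + j) % K + 1 = (m + j + 1) % K := by
        have h5 : (m + j + 1) % K = ((m + j) % K + 1) % K := by
          conv_lhs => rw [Nat.add_mod]
          rw [Nat.mod_eq_of_lt (show 1 < K by omega)]
        rw [h5, Nat.mod_eq_of_lt (show (m + j) % K + 1 < K by omega)]
      apply off_le_succ hX
      · exact h0
      · exact cb_chain K m _ _ h0 hcne
  have hchain : ∀ j, 1 ≤ j → j ≤ K → off d X (cb K (m + 1)) ⟨(m + 1) % K, Nat.mod_lt _ hK0⟩ ≤
      off d X (cb K (m + 1)) ⟨(m + j) % K, Nat.mod_lt _ hK0⟩ := by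
    intro j hj
    induction j, hj using Nat.le_induction with
    | base => intro _; exact le_rfl
    | succ j hj ih =>
      intro hjK
      exact (ih (by omega)).trans (hstep j hj (by omega))
  have h1 := hchain K (by omega) le_rfl
  rw [heo]
  refine le_trans (le_of_eq ?_) (h1.trans (le_of_eq ?_))
  · rfl
  · congr 1
    apply Fin.ext
    show (m + K) % K = m % K
    rw [Nat.add_mod_right]

end Pool.Agent.MP_0af329_co.JF
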