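import Pool.Agent.MP_0af329_co.JGDefs
import Pool.Agent.MP_0af329_co.Basic

set_option autoImplicit false

namespace Pool.Agent.MP_0af329_co.JF

open Finset EuclideanGeometry

/-- The data of the directions of a point set, with `k` cells of size `π/k`. -/
structure Dirs (S : Finset Pt) (k : ℕ) where
  psi : S → S → ℝ
  sig : S → S → Bool
  co : S → S → Fin k
  cell : ∀ x y, x ≠ y → ((co x y : ℕ) : ℝ) * (Real.pi / k) ≤ psi x y ∧
    psi x y < (((co x y : ℕ) : ℝ) + 1) * (Real.pi / k)
  psi_symm : ∀ x y, x ≠ y → psi y x = psi x y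
  sig_symm : ∀ x y, x ≠ y → sig y x = !(sig x y)
  co_symm : ∀ x y, x ≠ y → co y x = co x y
  ang : ∀ v y z : S, y ≠ v → z ≠ v → ∠ (y : Pt) (v : Pt) (z : Pt) =
    if sig v y = sig v z then |psi v y - psi v z| else Real.pi - |psi v y - psi v z|
  inj : ∀ v y z, y ≠ v → z ≠ v → psi v y = psi v z → y = z

/-- The coloured oriented graph of the directions. -/
def Dirs.R {S : Finset Pt} {k : ℕ} (d : Dirs S k) : Fin k → S → S → Prop :=
  fun i x y => x ≠ y ∧ d.sig x y = true ∧ d.co x y = i

/-- The extra big angles: ordered triples `(y, v, z)` with angle `> π - π/k` at `v`, the edges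
`v y`, `v z` having different colours. -/
def Dirs.xt {S : Finset Pt} {k : ℕ} (d : Dirs S k) (y v z : S) : Prop :=
  y ≠ v ∧ z ≠ v ∧ d.co v y ≠ d.co v z ∧ Real.pi - Real.pi / k < ∠ (y : Pt) (v : Pt) (z : Pt)

/-- The `m`-th vertex of the walk: the bit `i` is `i % 2`, flipped once for every `j < m` with `j % K = i`
(there are `(m + K - 1 - i) / K` of them). -/
def cb (K m : ℕ) (i : Fin K) : Bool := decide (((i : ℕ) + (m + K - 1 - i) / K) % 2 = 1)

/-- A transversal of the corners of the cube without an extra big angle. -/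
def Trans {S : Finset Pt} {K : ℕ} (d : Dirs S K) (X : (Fin K → Bool) → S) : Prop :=
  (∀ q q', q ≠ q' → X q ≠ X q' ∧ gd d.R q q' (X q) (X q')) ∧
  (∀ q q' q'', q ≠ q' → q'' ≠ q' → ¬ d.xt (X q) (X q') (X q''))

/-- The offset of the edge of direction `i` at the corner `q`. -/
noncomputable def off {S : Finset Pt} {K : ℕ} (d : Dirs S K) (X : (Fin K → Bool) → S)
    (q : Fin K → Bool) (i : Fin K) : ℝ :=
  d.psi (X q) (X (Function.update q i (!(q i)))) - ((i : ℕ) : ℝ) * (Real.pi / K)

/-- The offset of the `m`-th edge of the closed walk. -/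
noncomputable def eo {S : Finset Pt} {K : ℕ} (hK : 0 < K) (d : Dirs S K)
    (X : (Fin K → Bool) → S) (m : ℕ) : ℝ :=
  off d X (cb K m) ⟨m % K, Nat.mod_lt _ hK⟩

end Pool.Agent.MP_0af329_co.JF
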