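import Pool.Agent.MP_0af329_co.JPDefs

set_option autoImplicit false

namespace Pool.Agent.MP_0af329_co.JP

open Finset EuclideanGeometry Filter Topology

theorem pa1_swap {α : Type} (S : Finset α) (G : α → α → α → ℝ) :
    ∑ x ∈ S, ∑ y ∈ S, ∑ z ∈ S, G y x z = ∑ x ∈ S, ∑ y ∈ S, ∑ z ∈ S, G x y z :=
  Finset.sum_comm

theorem pa1_swap' {α : Type} (S : Finset α) (G : α → α → α → ℝ) :
    ∑ x ∈ S, ∑ y ∈ S, ∑ z ∈ S, G x z y = ∑ x ∈ S, ∑ y ∈ S, ∑ z ∈ S, G x y z :=
  Finset.sum_congr rfl (fun _ _ => Finset.sum_comm)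

theorem pa1_dist {α : Type} [DecidableEq α] (S : Finset α) :
    ∑ x ∈ S, ∑ y ∈ S, ∑ z ∈ S, ((1 : ℝ) - (if x = y then 1 else 0) - (if y = z then 1 else 0)
      - (if x = z then 1 else 0) + 2 * ((if x = y then 1 else 0) * (if y = z then 1 else 0))) =
      (S.card : ℝ) * (S.card - 1) * (S.card - 2) := by
  have h1 : ∀ x ∈ S, ∀ y ∈ S, ∑ z ∈ S, ((1 : ℝ) - (if x = y then 1 else 0) -
      (if y = z then 1 else 0) - (if x = z then 1 else 0) +
      2 * ((if x = y then 1 else 0) * (if y = z then 1 else 0))) =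
      (S.card : ℝ) - (if x = y then 1 else 0) * S.card - 1 - 1 +
        2 * (if x = y then 1 else 0) := by
    intro x hx y hy
    rw [Finset.sum_add_distrib, Finset.sum_sub_distrib, Finset.sum_sub_distrib,
      Finset.sum_sub_distrib, Finset.sum_const, Finset.sum_const, ← Finset.mul_sum,
      ← Finset.mul_sum, Finset.sum_ite_eq, Finset.sum_ite_eq, if_pos hx, if_pos hy]
    simp only [nsmul_eq_mul]
    ring
  have h2 : ∀ x ∈ S, ∑ y ∈ S, ((S.card : ℝ) - (if x = y then 1 else 0) * S.card - 1 - 1 +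
        2 * (if x = y then 1 else 0)) = (S.card : ℝ) * (S.card - 2) - S.card + 2 := by
    intro x hx
    rw [Finset.sum_add_distrib, Finset.sum_sub_distrib, Finset.sum_sub_distrib,
      Finset.sum_sub_distrib, ← Finset.sum_mul, ← Finset.mul_sum, Finset.sum_ite_eq, if_pos hx]
    simp only [Finset.sum_const, nsmul_eq_mul]
    ring
  rw [Finset.sum_congr rfl (fun x hx => (Finset.sum_congr rfl (h1 x hx)).trans (h2 x hx)),
    Finset.sum_const, nsmul_eq_mul]
  ring

open Classical in
/-- ROW F20-A1.  PROOF.  Let `P` be the number of ordered triples `(x, y, z)` of distinct elements of `S` with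
`T x y` and `T y z`; for fixed `y` these are the pairs `(x, z)` with `¬ T y x`, `T y z` (so `x ≠ z`), hence `P` is
the right side.  For every ordered triple of distinct elements at least one of its six orderings has the
property (a tournament on three points has a directed path of length 2), so `6 P ≥ n (n-1) (n-2)`.
(Induction over `S` also works: adding a vertex.) -/
theorem paths_ge {α : Type} (S : Finset α) (T : α → α → Prop)
    (hT : ∀ y ∈ S, ∀ z ∈ S, y ≠ z → (T y z ↔ ¬ T z y)) :
    (S.card : ℝ) * (S.card - 1) * (S.card - 2) / 6 ≤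
      ∑ y ∈ S, ((S.filter fun z => z ≠ y ∧ T y z).card : ℝ) *
        (S.filter fun z => z ≠ y ∧ ¬ T y z).card := by
  obtain ⟨a, ha⟩ : ∃ a : α → α → ℝ, a = fun y z => if z ≠ y ∧ T y z then (1 : ℝ) else 0 :=
    ⟨_, rfl⟩
  have haT : ∀ y z, z ≠ y → T y z → a y z = 1 := by
    intro y z h1 h2
    rw [ha]
    exact if_pos ⟨h1, h2⟩
  have haF : ∀ y z, ¬ T y z → a y z = 0 := by
    intro y z h1
    rw [ha]
    exact if_neg (fun h => h1 h.2)
  have haE : ∀ y, a y y = 0 := by
    intro y
    rw [ha]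
    exact if_neg (fun h => h.1 rfl)
  have hb : ∀ y ∈ S, ∀ x ∈ S, (if x ≠ y ∧ ¬ T y x then (1 : ℝ) else 0) = a x y := by
    intro y hy x hx
    by_cases hxy : x = y
    · subst hxy
      rw [haE, if_neg (fun h => h.1 rfl)]
    · by_cases hT1 : T y x
      · rw [if_neg (fun h => h.2 hT1), haF x y ((hT y hy x hx (Ne.symm hxy)).1 hT1)]
      · rw [if_pos ⟨hxy, hT1⟩]
        have : T x y := by
          by_contra hc
          exact hT1 ((hT y hy x hx (Ne.symm hxy)).2 hc)
        rw [haT x y (Ne.symm hxy) this]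
  have hsum : ∀ x ∈ S, ∀ y ∈ S, x ≠ y → (a x y = 1 ∧ a y x = 0) ∨ (a x y = 0 ∧ a y x = 1) := by
    intro x hx y hy hxy
    by_cases hT1 : T x y
    · left
      exact ⟨haT x y (Ne.symm hxy) hT1, haF y x ((hT x hx y hy hxy).1 hT1)⟩
    · right
      refine ⟨haF x y hT1, haT y x hxy ?_⟩
      by_contra hc
      exact hT1 ((hT x hx y hy hxy).2 hc)
  have hnn : ∀ x y, 0 ≤ a x y := by
    intro x y
    rw [ha]
    dsimp only
    split_ifs
    · exact zero_le_one
    · exact le_rfl
  have hR : (∑ y ∈ S, ((S.filter fun z => z ≠ y ∧ T y z).card : ℝ) *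
        (S.filter fun z => z ≠ y ∧ ¬ T y z).card) =
      ∑ x ∈ S, ∑ y ∈ S, ∑ z ∈ S, a x y * a y z := by
    have h1 : ∀ y ∈ S, ((S.filter fun z => z ≠ y ∧ T y z).card : ℝ) *
        (S.filter fun z => z ≠ y ∧ ¬ T y z).card = ∑ x ∈ S, ∑ z ∈ S, a x y * a y z := by
      intro y hy
      rw [← Finset.sum_boole, ← Finset.sum_boole, Finset.sum_congr rfl (hb y hy), mul_comm,
        Finset.sum_mul_sum]
      refine Finset.sum_congr rfl (fun x _ => Finset.sum_congr rfl (fun z _ => ?_))
      rw [ha]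
    rw [Finset.sum_congr rfl h1]
    exact Finset.sum_comm
  rw [hR]
  obtain ⟨P, hP⟩ : ∃ P : ℝ, P = ∑ x ∈ S, ∑ y ∈ S, ∑ z ∈ S, a x y * a y z := ⟨_, rfl⟩
  have e1 : ∑ x ∈ S, ∑ y ∈ S, ∑ z ∈ S, a y x * a x z = P :=
    (pa1_swap S (fun x y z => a x y * a y z)).trans hP.symm
  have e2 : ∑ x ∈ S, ∑ y ∈ S, ∑ z ∈ S, a x z * a z y = P :=
    (pa1_swap' S (fun x y z => a x y * a y z)).trans hP.symm
  have e3 : ∑ x ∈ S, ∑ y ∈ S, ∑ z ∈ S, a z x * a x y = P :=
    (pa1_swap' S (fun x y z => a y x * a x z)).trans e1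
  have e4 : ∑ x ∈ S, ∑ y ∈ S, ∑ z ∈ S, a y z * a z x = P :=
    (pa1_swap S (fun x y z => a x z * a z y)).trans e2
  have e5 : ∑ x ∈ S, ∑ y ∈ S, ∑ z ∈ S, a z y * a y x = P :=
    (pa1_swap' S (fun x y z => a y z * a z x)).trans e4
  rw [← hP]
  have h6 : (S.card : ℝ) * (S.card - 1) * (S.card - 2) ≤ 6 * P := by
    rw [← pa1_dist S]
    have h7 : 6 * P = ∑ x ∈ S, ∑ y ∈ S, ∑ z ∈ S, (a x y * a y z + a y x * a x z +
        a x z * a z y + a z x * a x y + a y z * a z x + a z y * a y x) := by
      simp only [Finset.sum_add_distrib]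
      rw [e1, e2, e3, e4, e5, ← hP]
      ring
    rw [h7]
    refine Finset.sum_le_sum (fun x hx => Finset.sum_le_sum (fun y hy =>
      Finset.sum_le_sum (fun z hz => ?_)))
    by_cases hxy : x = y
    · have n1 := hnn x y
      have n2 := hnn y z
      have n3 := hnn z x
      have n4 := hnn y x
      have n5 := hnn x z
      have n6 := hnn z y
      have : (0 : ℝ) ≤ a x y * a y z + a y x * a x z +
        a x z * a z y + a z x * a x y + a y z * a z x + a z y * a y x := by positivity
      refine le_trans ?_ this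
      by_cases hyz : y = z
      · subst hxy
        subst hyz
        simp
        norm_num
      · subst hxy
        simp [hyz]
    · by_cases hyz : y = z
      · have n1 := hnn x y
        have n2 := hnn y z
        have n3 := hnn z x
        have n4 := hnn y x
        have n5 := hnn x z
        have n6 := hnn z y
        have : (0 : ℝ) ≤ a x y * a y z + a y x * a x z +
          a x z * a z y + a z x * a x y + a y z * a z x + a z y * a y x := by positivity
        refine le_trans ?_ this
        subst hyz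
        simp [hxy]
      · by_cases hxz : x = z
        · have n1 := hnn x y
          have n2 := hnn y z
          have n3 := hnn z x
          have n4 := hnn y x
          have n5 := hnn x z
          have n6 := hnn z y
          have : (0 : ℝ) ≤ a x y * a y z + a y x * a x z +
            a x z * a z y + a z x * a x y + a y z * a z x + a z y * a y x := by positivity
          refine le_trans ?_ this
          subst hxz
          simp [hxy, hyz]
        · rcases hsum x hx y hy hxy with ⟨p1, p2⟩ | ⟨p1, p2⟩ <;>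
          rcases hsum y hy z hz hyz with ⟨q1, q2⟩ | ⟨q1, q2⟩ <;>
          rcases hsum x hx z hz hxz with ⟨r1, r2⟩ | ⟨r1, r2⟩ <;>
          rw [p1, p2, q1, q2, r1, r2, if_neg hxy, if_neg hyz, if_neg hxz] <;> norm_num
  linarith

end Pool.Agent.MP_0af329_co.JP
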