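import Pool.Agent.MP_0af329_co.JPA1

set_option autoImplicit false

namespace Pool.Agent.MP_0af329_co.JP

open Finset EuclideanGeometry Filter Topology

private theorem a2_card {α : Type} (S : Finset α) (q : α → α → Fin 4) (y : α) (P : Fin 4 → Prop)
    [D' : DecidablePred P] (D : DecidablePred fun z => z ≠ y ∧ P (q y z)) :
    (@Finset.filter α (fun z => z ≠ y ∧ P (q y z)) D S).card =
      ∑ j : Fin 4, if P j then An S q y j else 0 := by
  unfold An
  simp only [Finset.card_filter]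
  have h1 : ∀ j : Fin 4, (if P j then ∑ z ∈ S, (@ite ℕ (z ≠ y ∧ q y z = j)
      (Classical.propDecidable _) 1 0) else 0) =
      ∑ z ∈ S, (if P j then (@ite ℕ (z ≠ y ∧ q y z = j) (Classical.propDecidable _) 1 0) else 0) := by
    intro j
    by_cases h : P j
    · simp only [if_pos h]
    · simp only [if_neg h, Finset.sum_const_zero]
  have h2 : ∀ z, (∑ j : Fin 4, (if P j then
      (@ite ℕ (z ≠ y ∧ q y z = j) (Classical.propDecidable _) 1 0) else 0)) =
      if z ≠ y ∧ P (q y z) then 1 else 0 := by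
    intro z
    rw [Finset.sum_eq_single (q y z)]
    · by_cases h : z ≠ y
      · by_cases h2 : P (q y z)
        · rw [if_pos h2, if_pos ⟨h, rfl⟩, if_pos ⟨h, h2⟩]
        · rw [if_neg h2, if_neg (fun h3 : z ≠ y ∧ P (q y z) => h2 h3.2)]
      · rw [if_neg (fun h3 : z ≠ y ∧ q y z = q y z => h h3.1),
          if_neg (fun h3 : z ≠ y ∧ P (q y z) => h h3.1), ite_self]
    · intro j _ hj
      rw [if_neg (fun h3 : z ≠ y ∧ q y z = j => hj h3.2.symm), ite_self]
    · intro h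
      exact absurd (Finset.mem_univ _) h
  rw [← Finset.sum_congr rfl fun z _ => h2 z, Finset.sum_comm]
  refine Finset.sum_congr rfl fun j _ => ?_
  rw [← h1]
  congr 1
  refine Finset.sum_congr rfl fun z _ => ?_
  congr

open Classical in
private theorem a2_sum {α : Type} (S : Finset α) (q : α → α → Fin 4) {y : α} (hy : y ∈ S) :
    (An S q y 0 : ℝ) + An S q y 1 + An S q y 2 + An S q y 3 = (S.card : ℝ) - 1 := by
  have h1 := a2_card S q y (fun _ => True) (fun _ => Classical.propDecidable _)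
  simp only [if_true, Fin.sum_univ_four, and_true] at h1
  have h2 : (S.filter fun z => z ≠ y) = S.erase y := by
    ext z
    rw [Finset.mem_filter, Finset.mem_erase, and_comm]
  rw [h2, Finset.card_erase_of_mem hy] at h1
  have h3 : 1 ≤ S.card := Finset.card_pos.2 ⟨y, hy⟩
  have h4 : ((S.card - 1 : ℕ) : ℝ) = (S.card : ℝ) - 1 := by
    rw [Nat.cast_sub h3, Nat.cast_one]
  rw [← h4, h1]
  push_cast
  ring

private theorem a2_fin : ∀ a : Fin 4, ((a = 0 ∨ a = 1) ↔ ¬ (a + 2 = 0 ∨ a + 2 = 1)) ∧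
    ((a = 1 ∨ a = 2) ↔ ¬ (a + 2 = 1 ∨ a + 2 = 2)) := by decide

/-- ROW F20-A2.  PROOF.  Let `A_j = An S q y j`, `A_0 + A_1 + A_2 + A_3 = n - 1` for `y ∈ S`.
`paths_ge` for `T y z := q y z = 0 ∨ q y z = 1` and for `T y z := q y z = 1 ∨ q y z = 2` (tournaments by `hq`):
`∑_y ((A_0 + A_1)(A_2 + A_3) + (A_1 + A_2)(A_3 + A_0)) ≥ n (n-1)(n-2) / 3`, and
`(A_0 + A_1)(A_2 + A_3) + (A_1 + A_2)(A_3 + A_0) = 2 A_0 A_2 + 2 A_1 A_3 + (A_0 + A_2)(A_1 + A_3)`,
`(A_0 + A_2)(A_1 + A_3) = ((n-1)² - D²) / 4`.  So the right side is at least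
`n (n-1)(n-2)/3 - n (n-1)²/4 + ∑ D²/4 = n (n-1)(n-5)/12 + ∑ D²/4`. -/
theorem goodman {α : Type} (S : Finset α) (q : α → α → Fin 4) (hq : Anti S q) :
    (S.card : ℝ) * (S.card - 1) * (S.card - 5) / 12 + 1 / 4 * ∑ y ∈ S, Dn S q y ^ 2 ≤
      ∑ y ∈ S, (2 * (An S q y 0 : ℝ) * An S q y 2 + 2 * (An S q y 1 : ℝ) * An S q y 3) := by
  classical
  have p1 := paths_ge S (fun y z => q y z = 0 ∨ q y z = 1) (by
    intro y hy z hz h
    show (q y z = 0 ∨ q y z = 1) ↔ ¬ (q z y = 0 ∨ q z y = 1)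
    rw [hq y hy z hz h]
    exact (a2_fin (q y z)).1)
  have p2 := paths_ge S (fun y z => q y z = 1 ∨ q y z = 2) (by
    intro y hy z hz h
    show (q y z = 1 ∨ q y z = 2) ↔ ¬ (q z y = 1 ∨ q z y = 2)
    rw [hq y hy z hz h]
    exact (a2_fin (q y z)).2)
  have q1 : (S.card : ℝ) * (S.card - 1) * (S.card - 2) / 6 ≤
      ∑ y ∈ S, ((An S q y 0 : ℝ) + An S q y 1) * (An S q y 2 + An S q y 3) := by
    refine p1.trans (le_of_eq (Finset.sum_congr rfl fun y _ => ?_))
    rw [← Nat.cast_add, ← Nat.cast_add]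
    refine congrArg₂ (fun a b : ℕ => (a : ℝ) * (b : ℝ))
      ((a2_card S q y (fun j => j = 0 ∨ j = 1) _).trans ?_)
      ((a2_card S q y (fun j => ¬ (j = 0 ∨ j = 1)) _).trans ?_)
    · rw [Fin.sum_univ_four]
      simp
    · rw [Fin.sum_univ_four]
      simp
  have q2 : (S.card : ℝ) * (S.card - 1) * (S.card - 2) / 6 ≤
      ∑ y ∈ S, ((An S q y 1 : ℝ) + An S q y 2) * (An S q y 0 + An S q y 3) := by
    refine p2.trans (le_of_eq (Finset.sum_congr rfl fun y _ => ?_))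
    rw [← Nat.cast_add, ← Nat.cast_add]
    refine congrArg₂ (fun a b : ℕ => (a : ℝ) * (b : ℝ))
      ((a2_card S q y (fun j => j = 1 ∨ j = 2) _).trans ?_)
      ((a2_card S q y (fun j => ¬ (j = 1 ∨ j = 2)) _).trans ?_)
    · rw [Fin.sum_univ_four]
      simp
    · rw [Fin.sum_univ_four]
      simp
  have key : ∀ y ∈ S, ((An S q y 0 : ℝ) + An S q y 1) * (An S q y 2 + An S q y 3) +
      ((An S q y 1 : ℝ) + An S q y 2) * (An S q y 0 + An S q y 3) =
      (2 * (An S q y 0 : ℝ) * An S q y 2 + 2 * (An S q y 1 : ℝ) * An S q y 3) +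
        (((S.card : ℝ) - 1) ^ 2 / 4 - 1 / 4 * Dn S q y ^ 2) := by
    intro y hy
    rw [← a2_sum S q hy]
    unfold Dn
    ring
  have h1 := Finset.sum_congr rfl key
  rw [Finset.sum_add_distrib, Finset.sum_add_distrib, Finset.sum_sub_distrib, Finset.sum_const,
    nsmul_eq_mul, ← Finset.mul_sum] at h1
  have h2 : (S.card : ℝ) * (S.card - 1) * (S.card - 5) / 12 =
      (S.card : ℝ) * (S.card - 1) * (S.card - 2) / 6 + (S.card : ℝ) * (S.card - 1) * (S.card - 2) / 6 -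
        (S.card : ℝ) * (((S.card : ℝ) - 1) ^ 2 / 4) := by ring
  rw [h2]
  linarith

end Pool.Agent.MP_0af329_co.JP
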