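import Pool.Agent.MP_0af329_co.JPA2

set_option autoImplicit false

namespace Pool.Agent.MP_0af329_co.JP

open Finset EuclideanGeometry Filter Topology

theorem cnt_eq_tc (S : Finset Pt) (a : ℝ) :
    cnt S (Set.Ioi a) = tc S fun x y z => a < ∠ x y z := by
  rw [cnt, tc]
  congr 1

/-- ROW F20-A3.  (Both sides count triples: `#P + #(Q ∧ ¬P) = #(P ∨ Q) = #Q + #(P ∧ ¬Q)`.) -/
theorem tc_exchange (S : Finset Pt) (P Q : Pt → Pt → Pt → Prop) :
    tc S P + tc S (fun x y z => Q x y z ∧ ¬ P x y z) =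
      tc S Q + tc S (fun x y z => ¬ Q x y z ∧ P x y z) := by
  classical
  simp only [tc, Finset.card_filter]
  rw [← Finset.sum_add_distrib, ← Finset.sum_add_distrib]
  refine Finset.sum_congr rfl fun t _ => ?_
  by_cases hP : P t.1 t.2.1 t.2.2 <;> by_cases hQ : Q t.1 t.2.1 t.2.2 <;> simp [hP, hQ]

theorem jpa3_add_two (j : Fin 4) : j + 2 ≠ j := by
  revert j
  decide

theorem jpa3_ind (a b : Fin 4) (p r : Prop) [Decidable p] [Decidable r] :
    (if p ∧ r ∧ a = b + 2 then 1 else 0 : ℕ) =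
      ∑ j : Fin 4, (if p ∧ a = j + 2 then 1 else 0) * (if r ∧ b = j then 1 else 0) := by
  by_cases hp : p
  · by_cases hr : r
    · simp only [hp, hr, true_and]
      revert a b
      decide
    · simp [hr]
  · simp [hp]

theorem jpa3_nat (S : Finset Pt) (q : Pt → Pt → Fin 4) :
    tc S (Opp q) = ∑ y ∈ S, ∑ j : Fin 4, An S q y (j + 2) * An S q y j := by
  classical
  have h1 : tc S (Opp q) = ∑ x ∈ S, ∑ y ∈ S, ∑ z ∈ S,
      (if x ≠ y ∧ z ≠ y ∧ q y x = q y z + 2 then 1 else 0) := by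
    rw [tc, trip, Finset.filter_filter, Finset.card_filter, Finset.sum_product]
    refine Finset.sum_congr rfl fun x _ => ?_
    rw [Finset.sum_product]
    refine Finset.sum_congr rfl fun y _ => Finset.sum_congr rfl fun z _ => ?_
    refine if_congr ?_ rfl rfl
    unfold Opp
    constructor
    · rintro ⟨⟨h1, h2, h3⟩, h4⟩
      exact ⟨h1, h2.symm, h4⟩
    · rintro ⟨h1, h2, h4⟩
      refine ⟨⟨h1, h2.symm, fun h => ?_⟩, h4⟩
      change x = z at h
      rw [h] at h4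
      exact jpa3_add_two _ h4.symm
  rw [h1, Finset.sum_comm]
  refine Finset.sum_congr rfl fun y _ => ?_
  have h2 : ∀ x z : Pt, (if x ≠ y ∧ z ≠ y ∧ q y x = q y z + 2 then 1 else 0 : ℕ) =
      ∑ j : Fin 4, (if x ≠ y ∧ q y x = j + 2 then 1 else 0) *
        (if z ≠ y ∧ q y z = j then 1 else 0) := fun x z => jpa3_ind _ _ _ _
  simp only [h2]
  have h3 : ∀ j : Fin 4, An S q y (j + 2) * An S q y j =
      ∑ x ∈ S, ∑ z ∈ S, (if x ≠ y ∧ q y x = j + 2 then 1 else 0) *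
        (if z ≠ y ∧ q y z = j then 1 else 0) := by
    intro j
    rw [An, An, Finset.card_filter, Finset.card_filter, Finset.sum_mul_sum]
    refine Finset.sum_congr rfl fun x _ => Finset.sum_congr rfl fun z _ => ?_
    congr!
  have h4 : ∀ f : Fin 4 → Pt → Pt → ℕ, ∑ j : Fin 4, ∑ x ∈ S, ∑ z ∈ S, f j x z =
      ∑ x ∈ S, ∑ z ∈ S, ∑ j : Fin 4, f j x z := by
    intro f
    rw [Finset.sum_comm]
    exact Finset.sum_congr rfl fun x _ => Finset.sum_comm
  rw [Finset.sum_congr rfl fun j _ => h3 j, h4]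

/-- ROW F20-A3.  Fix `y`: the ordered pairs `(x, z)` of points different from `y` with `q y x = q y z + 2`
(then `x ≠ z`); `q y z = 0, 2, 1, 3` gives `A_2 A_0 + A_0 A_2 + A_3 A_1 + A_1 A_3`. -/
theorem tc_opp (S : Finset Pt) (q : Pt → Pt → Fin 4) :
    (tc S (Opp q) : ℝ) =
      ∑ y ∈ S, (2 * (An S q y 0 : ℝ) * An S q y 2 + 2 * (An S q y 1 : ℝ) * An S q y 3) := by
  rw [jpa3_nat]
  push_cast
  refine Finset.sum_congr rfl fun y _ => ?_
  rw [Fin.sum_univ_four]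
  have e1 : (0 : Fin 4) + 2 = 2 := by decide
  have e2 : (1 : Fin 4) + 2 = 3 := by decide
  have e3 : (2 : Fin 4) + 2 = 0 := by decide
  have e4 : (3 : Fin 4) + 2 = 1 := by decide
  rw [e1, e2, e3, e4]
  ring

/-- ROW F20-A3.  From `goodman`, `tc_opp`, `tc_exchange`. -/
theorem goodman_cnt (S : Finset Pt) (a : ℝ) (q : Pt → Pt → Fin 4) (hq : Anti S q) :
    (S.card : ℝ) * (S.card - 1) * (S.card - 5) / 12 + 1 / 4 * ∑ y ∈ S, Dn S q y ^ 2 +
      tc S (fun x y z => ¬ Opp q x y z ∧ a < ∠ x y z) ≤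
      cnt S (Set.Ioi a) + tc S (fun x y z => Opp q x y z ∧ ¬ a < ∠ x y z) := by
  have h1 := goodman S q hq
  rw [← tc_opp] at h1
  have h2 := tc_exchange S (fun x y z => a < ∠ x y z) (Opp q)
  rw [← cnt_eq_tc] at h2
  have h3 : (cnt S (Set.Ioi a) : ℝ) + tc S (fun x y z => Opp q x y z ∧ ¬ a < ∠ x y z) =
      tc S (Opp q) + tc S (fun x y z => ¬ Opp q x y z ∧ a < ∠ x y z) := by exact_mod_cast h2
  rw [h3]
  linarith

end Pool.Agent.MP_0af329_co.JP
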