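import Pool.Agent.MP_0af329_co.JC1
import Pool.Agent.MP_0af329_co.Basic

/-!
# The plateau of `F` to the right of `π/2`: definitions
-/

set_option autoImplicit false

namespace Pool.Agent.MP_0af329_co.JP

open Finset EuclideanGeometry Filter Topology

/-! ## Two-coloured orientations

`q y z : Fin 4` is the class of `z` seen from `y`; colour `1`: classes `0, 2`, colour `2`: classes `1, 3`. -/

/-- Opposite classes: `q z y = q y z + 2`. -/
def Anti {α : Type} (S : Finset α) (q : α → α → Fin 4) : Prop :=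
  ∀ y ∈ S, ∀ z ∈ S, y ≠ z → q z y = q y z + 2

open Classical in
/-- The number of `z` in the class `j` of `y`. -/
noncomputable def An {α : Type} (S : Finset α) (q : α → α → Fin 4) (y : α) (j : Fin 4) : ℕ :=
  (S.filter fun z => z ≠ y ∧ q y z = j).card

/-- The difference of the two colour degrees of `y`. -/
noncomputable def Dn {α : Type} (S : Finset α) (q : α → α → Fin 4) (y : α) : ℝ :=
  (An S q y 0 : ℝ) + An S q y 2 - An S q y 1 - An S q y 3

open Classical in
/-- The number of ordered triples of distinct points of `S` with the property `P`. -/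
noncomputable def tc (S : Finset Pt) (P : Pt → Pt → Pt → Prop) : ℕ :=
  ((trip S).filter fun t => P t.1 t.2.1 t.2.2).card

/-- `x` and `z` are in opposite classes of `y`. -/
def Opp (q : Pt → Pt → Fin 4) (x y z : Pt) : Prop := q y x = q y z + 2

/-- The number of ordered triples with angle `> a` which contain `x`. -/
noncomputable def dg (S : Finset Pt) (a : ℝ) (x : Pt) : ℕ :=
  tc S fun p y z => a < ∠ p y z ∧ (p = x ∨ y = x ∨ z = x)

/-! ## The narrow and the wide cone -/

/-- Class `0` or `2`: `z - y` in the narrow cone around the horizontal axis; `1` or `3`: in the wide cone around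
the vertical axis. -/
noncomputable def qN (y z : Pt) : Fin 4 :=
  if |z 1 - y 1| < 99 / 100 * |z 0 - y 0| then (if y 0 < z 0 then 0 else 2)
  else (if y 1 < z 1 then 1 else 3)

/-- Tilted pairs of the wide cone. -/
def Tilt (y x : Pt) : Prop :=
  99 / 100 * |x 0 - y 0| ≤ |x 1 - y 1| ∧ 9 / 10 * |x 1 - y 1| ≤ |x 0 - y 0|

/-! ## Cells of directions -/

/-- The direction from `y` to `z`, in `(-π, π]`. -/
noncomputable def ar (y z : Pt) : ℝ := Complex.arg ⟨z 0 - y 0, z 1 - y 1⟩

/-- The cell of the direction from `y` to `z`: the circle is divided in `4 M` cells. -/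
noncomputable def ce (M : ℕ) (y z : Pt) : ℕ :=
  (⌊2 * (M : ℝ) / Real.pi * ar y z⌋ % (4 * (M : ℤ))).toNat

/-- The cyclic distance of two cells. -/
def cdist (M p q : ℕ) : ℕ := min ((p + 4 * M - q) % (4 * M)) ((q + 4 * M - p) % (4 * M))

/-- The quadrant of the cell `c` in the frame `i`. -/
def Qf (M i c : ℕ) : ℕ := (c + 4 * M - i) % (4 * M) / M

/-- The classes of the frame `i`. -/
noncomputable def qf (M i : ℕ) (y z : Pt) : Fin 4 := Fin.ofNat 4 (Qf M i (ce M y z))

/-- The cell is in the arc `[i, i')` modulo `M`. -/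
def inI (M i i' c : ℕ) : Prop := (c + 4 * M - i) % M < i' - i

instance (M i i' c : ℕ) : Decidable (inI M i i' c) := by unfold inI; infer_instance

/-- Lost triples of the frame `i`. -/
noncomputable def Lc (S : Finset Pt) (a : ℝ) (M i : ℕ) : ℕ :=
  tc S fun x y z => Opp (qf M i) x y z ∧ ¬ a < ∠ x y z

/-- Extra triples of the frame `i`. -/
noncomputable def Xc (S : Finset Pt) (a : ℝ) (M i : ℕ) : ℕ :=
  tc S fun x y z => ¬ Opp (qf M i) x y z ∧ a < ∠ x y z

open Classical in
/-- The number of `z` with the cell of `(y, z)` in the arc `[i, i')` modulo `M`. -/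
noncomputable def Mn (S : Finset Pt) (M i i' : ℕ) (y : Pt) : ℕ :=
  (S.filter fun z => z ≠ y ∧ inI M i i' (ce M y z)).card

open Classical in
/-- The number of `z` in the class `j` and in the arc (`b = true`) or not in the arc (`b = false`). -/
noncomputable def xu (S : Finset Pt) (M i i' : ℕ) (y : Pt) (b : Bool) (j : Fin 4) : ℕ :=
  (S.filter fun z => z ≠ y ∧ qf M i y z = j ∧ (inI M i i' (ce M y z) ↔ b = true)).card

/-! ## Coordinates -/

/-- Rotation by `-φ`. -/
noncomputable def rot (φ : ℝ) (p : Pt) : Pt :=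
  !₂[Real.cos φ * p 0 + Real.sin φ * p 1, - Real.sin φ * p 0 + Real.cos φ * p 1]

/-- The two coordinates are interchanged. -/
noncomputable def sw (p : Pt) : Pt := !₂[p 1, p 0]

/-- Nearly horizontal pairs. -/
def hty (x y : Pt) : Prop := |y 1 - x 1| ≤ 1 / 1000 * |y 0 - x 0|

/-- Nearly vertical pairs. -/
def vty (x y : Pt) : Prop := |y 0 - x 0| ≤ 1 / 1000 * |y 1 - x 1|

open Classical in
/-- The number of `z` with `P y z`. -/
noncomputable def nb (S : Finset Pt) (P : Pt → Pt → Prop) (y : Pt) : ℕ :=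
  (S.filter fun z => z ≠ y ∧ P y z).card

open Classical in
/-- The number of ordered pairs of distinct points with `P`. -/
noncomputable def pc (S : Finset Pt) (P : Pt → Pt → Prop) : ℕ :=
  ((S ×ˢ S).filter fun t => t.1 ≠ t.2 ∧ P t.1 t.2).card

/-- Nearly all pairs are nearly horizontal or nearly vertical, with two colours of nearly equal degrees. -/
structure Geo (S : Finset Pt) (col : Pt → Pt → Prop) : Prop where
  hh : ∀ x ∈ S, ∀ y ∈ S, x ≠ y → |y 1 - x 1| ≤ 2 / 5 * |y 0 - x 0| → col x y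
  hv : ∀ x ∈ S, ∀ y ∈ S, x ≠ y → |y 0 - x 0| ≤ 2 / 5 * |y 1 - x 1| → ¬ col x y
  hD : ∑ y ∈ S, ((nb S col y : ℝ) - nb S (fun y z => ¬ col y z) y) ^ 2 ≤ 1 / 10 ^ 6 * (S.card : ℝ) ^ 3
  hbad : (pc S (fun x y => ¬ hty x y ∧ ¬ vty x y) : ℝ) ≤ 2 / 10 ^ 4 * (S.card : ℝ) ^ 2

/-- Typical points. -/
def Typ (S : Finset Pt) (col : Pt → Pt → Prop) (x : Pt) : Prop :=
  x ∈ S ∧ (nb S (fun x y => ¬ hty x y ∧ ¬ vty x y) x : ℝ) ≤ (S.card : ℝ) / 100 ∧
    |(nb S col x : ℝ) - nb S (fun y z => ¬ col y z) x| ≤ (S.card : ℝ) / 25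

/-- Two far clusters with nearly vertical pairs. -/
structure Clu (S A B : Finset Pt) (u v : Pt) (l : ℝ) : Prop where
  hl : 0 < l
  h0 : v 0 - u 0 = l
  h1 : |v 1 - u 1| ≤ 1 / 1000 * l
  hA : A ⊆ S
  hB : B ⊆ S
  hAB : Disjoint A B
  bA : ∀ p ∈ A, |p 0 - u 0| ≤ 1 / 100000 * l ∧ |p 1 - u 1| ≤ 2 / 1000 * l
  bB : ∀ p ∈ B, |p 0 - v 0| ≤ 1 / 100000 * l ∧ |p 1 - v 1| ≤ 2 / 1000 * l
  cA : 43 / 100 * (S.card : ℝ) ≤ A.card
  cB : 43 / 100 * (S.card : ℝ) ≤ B.card
  vA : 14 / 100 * (S.card : ℝ) ^ 2 ≤ pc A vty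
  vB : 14 / 100 * (S.card : ℝ) ^ 2 ≤ pc B vty

/-- `x` is near `u`. -/
def Near (l : ℝ) (u x : Pt) : Prop := |x 0 - u 0| ≤ l / 5 ∧ |x 1 - u 1| ≤ l / 5

end Pool.Agent.MP_0af329_co.JP
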