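import Pool.Agent.MP_0af329_co.JPH2

set_option autoImplicit false

namespace Pool.Agent.MP_0af329_co.JP

open Finset EuclideanGeometry Filter Topology

/-- `F` is constant, equal to `1/12`, on an interval to the right of `π/2`. -/
theorem F_eq_right (a : ℝ) (h1 : Real.pi / 2 < a) (h2 : a ≤ Real.pi / 2 + 1 / 10 ^ 15) :
    F a = 1 / 12 := by
  have hpi : (2 : ℝ) < Real.pi := by linarith [Real.pi_gt_three]
  have h3 : (1 : ℝ) / 10 ^ 15 ≤ Real.pi / (2 * 10 ^ 15) := by
    rw [div_le_div_iff₀ (by positivity) (by positivity)]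
    nlinarith
  refine le_antisymm ?_ (le_F_right a h1 (by linarith))
  have h4 := JF.F_le_four 2 (by norm_num) a (by
    push_cast
    linarith)
  norm_num at h4
  norm_num
  exact h4

end Pool.Agent.MP_0af329_co.JP
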