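import Pool.Agent.MP_0af329_co.JPDefs

set_option autoImplicit false

namespace Pool.Agent.MP_0af329_co.JP

open Finset EuclideanGeometry Filter Topology

theorem inner_eq (r t : Pt) : inner ℝ r t = r 0 * t 0 + r 1 * t 1 := by
  have h : inner ℝ r t = ∑ i, inner ℝ (r i) (t i) := PiLp.inner_apply r t
  rw [h, Fin.sum_univ_two]
  show t 0 * r 0 + t 1 * r 1 = _
  ring

/-- ROW F20-E0.  PROOF.  `r, t ≠ 0` (otherwise both sides of `h` are `0`); `cos (angle r t) = ⟨r, t⟩ / (‖r‖ ‖t‖)`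
is `< -1/1000 ≤ cos a`, and `cos` is strictly decreasing on `[0, π]`. -/
theorem lt_angle (a : ℝ) (ha0 : 0 ≤ a) (hpi : a ≤ Real.pi) (ha : -(1 / 1000) ≤ Real.cos a) (r t : Pt)
    (h : inner ℝ r t < -(1 / 1000) * (‖r‖ * ‖t‖)) : a < InnerProductGeometry.angle r t := by
  have hpos : 0 < ‖r‖ * ‖t‖ := by
    rcases eq_or_ne r 0 with h0 | h0
    · rw [h0, inner_zero_left, norm_zero, zero_mul, mul_zero] at h
      exact absurd h (lt_irrefl _)
    · rcases eq_or_ne t 0 with h1 | h1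
      · rw [h1, inner_zero_right, norm_zero, mul_zero, mul_zero] at h
        exact absurd h (lt_irrefl _)
      · exact mul_pos (norm_pos_iff.2 h0) (norm_pos_iff.2 h1)
  have hc : Real.cos (InnerProductGeometry.angle r t) < Real.cos a := by
    rw [InnerProductGeometry.cos_angle]
    refine lt_of_lt_of_le ?_ ha
    rw [div_lt_iff₀ hpos]
    exact h
  exact (Real.strictAntiOn_cos.lt_iff_gt ⟨InnerProductGeometry.angle_nonneg r t,
    InnerProductGeometry.angle_le_pi r t⟩ ⟨ha0, hpi⟩).1 hc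

theorem norm_le_add (r : Pt) : ‖r‖ ≤ |r 0| + |r 1| := by
  rw [EuclideanSpace.norm_eq, Fin.sum_univ_two, Real.norm_eq_abs, Real.norm_eq_abs]
  refine Real.sqrt_le_iff.2 ⟨add_nonneg (abs_nonneg _) (abs_nonneg _), ?_⟩
  nlinarith [mul_nonneg (abs_nonneg (r 0)) (abs_nonneg (r 1))]

private theorem e0_aux (a0 b0 a1 b1 m m' nr nt : ℝ) (hm : 0 ≤ m) (hm' : 0 ≤ m')
    (ha : |a1| ≤ m * |a0|) (hb : |b1| ≤ m' * |b0|) (hneg : a0 * b0 < 0)
    (h : (1 + m) * (1 + m') / 1000 < 1 - m * m') (hnr0 : 0 ≤ nr) (hnt0 : 0 ≤ nt)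
    (hnr : nr ≤ |a0| + |a1|) (hnt : nt ≤ |b0| + |b1|) :
    a0 * b0 + a1 * b1 < -(1 / 1000) * (nr * nt) := by
  have e1 : a0 * b0 = -(|a0| * |b0|) := by
    rw [← abs_mul, abs_of_neg hneg, neg_neg]
  have e2 : a1 * b1 ≤ m * m' * (|a0| * |b0|) := by
    calc a1 * b1 ≤ |a1 * b1| := le_abs_self _
      _ = |a1| * |b1| := abs_mul _ _
      _ ≤ (m * |a0|) * (m' * |b0|) := mul_le_mul ha hb (abs_nonneg _) (mul_nonneg hm (abs_nonneg _))
      _ = m * m' * (|a0| * |b0|) := by ring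
  have e3 : nr * nt ≤ (1 + m) * (1 + m') * (|a0| * |b0|) := by
    have h1 : nr ≤ (1 + m) * |a0| := by linarith
    have h2 : nt ≤ (1 + m') * |b0| := by linarith
    calc nr * nt ≤ ((1 + m) * |a0|) * ((1 + m') * |b0|) :=
          mul_le_mul h1 h2 hnt0 (mul_nonneg (by linarith) (abs_nonneg _))
      _ = (1 + m) * (1 + m') * (|a0| * |b0|) := by ring
  have e4 : 0 < |a0| * |b0| := by
    rw [← abs_mul]
    exact abs_pos.2 hneg.ne
  have e5 := mul_lt_mul_of_pos_right h e4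
  rw [e1]
  linarith

/-- ROW F20-E0.  PROOF.  `⟨r, t⟩ ≤ - |r 0||t 0| + m m' |r 0||t 0|`, `‖r‖ ≤ (1 + m)|r 0|`, `‖t‖ ≤ (1 + m')|t 0|`. -/
theorem slope_angle (a : ℝ) (ha0 : 0 ≤ a) (hpi : a ≤ Real.pi) (ha : -(1 / 1000) ≤ Real.cos a) (r t : Pt)
    (m m' : ℝ) (hm : 0 ≤ m) (hm' : 0 ≤ m') (hr : |r 1| ≤ m * |r 0|) (ht : |t 1| ≤ m' * |t 0|)
    (hneg : r 0 * t 0 < 0) (h : (1 + m) * (1 + m') / 1000 < 1 - m * m') :
    a < InnerProductGeometry.angle r t := by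
  refine lt_angle a ha0 hpi ha r t ?_
  rw [inner_eq]
  exact e0_aux (r 0) (t 0) (r 1) (t 1) m m' _ _ hm hm' hr ht hneg h (norm_nonneg _) (norm_nonneg _)
    (norm_le_add r) (norm_le_add t)

/-- ROW F20-E0.  The same with the coordinates interchanged. -/
theorem slope_angle' (a : ℝ) (ha0 : 0 ≤ a) (hpi : a ≤ Real.pi) (ha : -(1 / 1000) ≤ Real.cos a) (r t : Pt)
    (m m' : ℝ) (hm : 0 ≤ m) (hm' : 0 ≤ m') (hr : |r 0| ≤ m * |r 1|) (ht : |t 0| ≤ m' * |t 1|)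
    (hneg : r 1 * t 1 < 0) (h : (1 + m) * (1 + m') / 1000 < 1 - m * m') :
    a < InnerProductGeometry.angle r t := by
  refine lt_angle a ha0 hpi ha r t ?_
  rw [inner_eq, add_comm]
  exact e0_aux (r 1) (t 1) (r 0) (t 0) m m' _ _ hm hm' hr ht hneg h (norm_nonneg _) (norm_nonneg _)
    ((norm_le_add r).trans (le_of_eq (add_comm _ _))) ((norm_le_add t).trans (le_of_eq (add_comm _ _)))

end Pool.Agent.MP_0af329_co.JP
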