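import Pool.Agent.MP_0af329_co.JPE0

set_option autoImplicit false

namespace Pool.Agent.MP_0af329_co.JP

open Finset EuclideanGeometry Filter Topology

private theorem e1_ext {x y : Pt} (h0 : x 0 = y 0) (h1 : x 1 = y 1) : x = y := by
  ext i
  fin_cases i
  · exact h0
  · exact h1

/-- narrow: the first coordinates are different -/
private theorem e1_n {y z : Pt} (h : |z 1 - y 1| < 99 / 100 * |z 0 - y 0|) : z 0 ≠ y 0 := by
  intro h0
  rw [h0, sub_self, abs_zero, mul_zero] at h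
  exact absurd h (not_lt.2 (abs_nonneg _))

/-- wide: the second coordinates are different -/
private theorem e1_w {y z : Pt} (hyz : z ≠ y) (h : ¬ |z 1 - y 1| < 99 / 100 * |z 0 - y 0|) :
    z 1 ≠ y 1 := by
  intro h1
  rw [h1, sub_self, abs_zero, not_lt] at h
  have h2 : |z 0 - y 0| = 0 := le_antisymm (by linarith) (abs_nonneg _)
  exact hyz (e1_ext (sub_eq_zero.1 (abs_eq_zero.1 h2)) h1)

/-- ROW F20-E1.  If `y ≠ z`: in the first case `z 0 ≠ y 0`, in the second one `z 1 ≠ y 1` (otherwise both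
differences are `0`). -/
theorem qN_anti (S : Finset Pt) : Anti S qN := by
  intro y _ z _ hyz
  unfold qN
  rw [abs_sub_comm (y 1) (z 1), abs_sub_comm (y 0) (z 0)]
  by_cases h : |z 1 - y 1| < 99 / 100 * |z 0 - y 0|
  · rw [if_pos h, if_pos h]
    rcases lt_or_gt_of_ne (e1_n h) with h1 | h1
    · rw [if_pos h1, if_neg (not_lt.2 h1.le)]
      rfl
    · rw [if_neg (not_lt.2 h1.le), if_pos h1]
      rfl
  · rw [if_neg h, if_neg h]
    rcases lt_or_gt_of_ne (e1_w (Ne.symm hyz) h) with h1 | h1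
    · rw [if_pos h1, if_neg (not_lt.2 h1.le)]
      rfl
    · rw [if_neg (not_lt.2 h1.le), if_pos h1]
      rfl

theorem Tilt.symm {x y : Pt} (h : Tilt y x) : Tilt x y := by
  unfold Tilt at h ⊢
  rw [abs_sub_comm (y 0) (x 0), abs_sub_comm (y 1) (x 1)]
  exact h

theorem Tilt.ne {x y : Pt} (h : Tilt y x) (hxy : x ≠ y) : x 0 ≠ y 0 := by
  intro h0
  have h2 := h.2
  rw [h0, sub_self, abs_zero] at h2
  have h3 : |x 1 - y 1| = 0 := le_antisymm (by linarith) (abs_nonneg _)
  exact hxy (e1_ext h0 (sub_eq_zero.1 (abs_eq_zero.1 h3)))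

theorem not_tilt {x y : Pt} (hxy : x ≠ y) (h : |y 1 - x 1| ≤ 67 / 100 * (y 0 - x 0)) :
    ¬ Tilt x y ∧ ¬ Tilt y x := by
  have key : ¬ Tilt x y := by
    intro ht
    have h1 := ht.1
    have h2 := le_abs_self (y 0 - x 0)
    have h3 : |y 0 - x 0| = 0 := le_antisymm (by linarith) (abs_nonneg _)
    exact ht.ne (Ne.symm hxy) (sub_eq_zero.1 (abs_eq_zero.1 h3))
  exact ⟨key, fun ht => key ht.symm⟩

private theorem e1_angle (x y z : Pt) :
    ∠ x y z = InnerProductGeometry.angle (x - y) (z - y) := rfl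

private theorem e1_sub0 (x y : Pt) : (x - y) 0 = x 0 - y 0 := rfl

private theorem e1_sub1 (x y : Pt) : (x - y) 1 = x 1 - y 1 := rfl

/-- signs of opposite classes -/
private theorem e1_cases {x y z : Pt} (hxy : x ≠ y) (hzy : z ≠ y) (ho : Opp qN x y z) :
    (|x 1 - y 1| < 99 / 100 * |x 0 - y 0| ∧ |z 1 - y 1| < 99 / 100 * |z 0 - y 0| ∧
      (x 0 - y 0) * (z 0 - y 0) < 0) ∨
    (¬ |x 1 - y 1| < 99 / 100 * |x 0 - y 0| ∧ ¬ |z 1 - y 1| < 99 / 100 * |z 0 - y 0| ∧
      (x 1 - y 1) * (z 1 - y 1) < 0) := by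
  have ho' : qN y x = qN y z + 2 := ho
  unfold qN at ho'
  by_cases h : |x 1 - y 1| < 99 / 100 * |x 0 - y 0|
  · by_cases h' : |z 1 - y 1| < 99 / 100 * |z 0 - y 0|
    · left
      refine ⟨h, h', ?_⟩
      rw [if_pos h, if_pos h'] at ho'
      rcases lt_or_gt_of_ne (e1_n h) with h1 | h1
      · rcases lt_or_gt_of_ne (e1_n h') with h2 | h2
        · rw [if_neg (not_lt.2 h1.le), if_neg (not_lt.2 h2.le)] at ho'
          exact absurd ho' (by decide)
        · exact mul_neg_of_neg_of_pos (sub_neg.2 h1) (sub_pos.2 h2)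
      · rcases lt_or_gt_of_ne (e1_n h') with h2 | h2
        · exact mul_neg_of_pos_of_neg (sub_pos.2 h1) (sub_neg.2 h2)
        · rw [if_pos h1, if_pos h2] at ho'
          exact absurd ho' (by decide)
    · exfalso
      rw [if_pos h, if_neg h'] at ho'
      split_ifs at ho'
      all_goals exact absurd ho' (by decide)
  · by_cases h' : |z 1 - y 1| < 99 / 100 * |z 0 - y 0|
    · exfalso
      rw [if_neg h, if_pos h'] at ho'
      split_ifs at ho'
      all_goals exact absurd ho' (by decide)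
    · right
      refine ⟨h, h', ?_⟩
      rw [if_neg h, if_neg h'] at ho'
      rcases lt_or_gt_of_ne (e1_w hxy h) with h1 | h1
      · rcases lt_or_gt_of_ne (e1_w hzy h') with h2 | h2
        · rw [if_neg (not_lt.2 h1.le), if_neg (not_lt.2 h2.le)] at ho'
          exact absurd ho' (by decide)
        · exact mul_neg_of_neg_of_pos (sub_neg.2 h1) (sub_pos.2 h2)
      · rcases lt_or_gt_of_ne (e1_w hzy h') with h2 | h2
        · exact mul_neg_of_pos_of_neg (sub_pos.2 h1) (sub_neg.2 h2)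
        · rw [if_pos h1, if_pos h2] at ho'
          exact absurd ho' (by decide)

/-- ROW F20-E1.  PROOF.  If `qN y x, qN y z ∈ {0, 2}`: `slope_angle` with `m = m' = 99/100` gives `a < ∠`.
So `qN y x, qN y z ∈ {1, 3}`: both in the wide cone, one above and one below `y`.  If
`(x 0 - y 0)(z 0 - y 0) ≤ 0`: `⟨x - y, z - y⟩ ≤ - |x 1 - y 1||z 1 - y 1|` and the norms are at most `(1 + 100/99)` times
`|x 1 - y 1|`, `|z 1 - y 1|`: `lt_angle`.  If it is positive and `|x 0 - y 0| < 9/10 |x 1 - y 1|`: `⟨ , ⟩ ≤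
(90/99 - 1)|x 1 - y 1||z 1 - y 1|`, norms at most `19/10`, `199/99` times: `lt_angle`; the same for `z`. -/
theorem opp_lost (a : ℝ) (ha0 : 0 ≤ a) (hpi : a ≤ Real.pi) (ha : -(1 / 1000) ≤ Real.cos a) (x y z : Pt)
    (hxy : x ≠ y) (hzy : z ≠ y) (ho : Opp qN x y z) (hn : ¬ a < ∠ x y z) :
    Tilt y x ∧ Tilt y z ∧ 0 < (x 0 - y 0) * (z 0 - y 0) ∧ (x 1 - y 1) * (z 1 - y 1) < 0 := by
  rw [e1_angle] at hn
  rcases e1_cases hxy hzy ho with ⟨h, h', hs⟩ | ⟨h, h', hs⟩
  · exact absurd (slope_angle a ha0 hpi ha (x - y) (z - y) (99 / 100) (99 / 100) (by norm_num)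
      (by norm_num) h.le h'.le hs (by norm_num)) hn
  · rw [not_lt] at h h'
    have hx : |x 0 - y 0| ≤ 100 / 99 * |x 1 - y 1| := by linarith
    have hz : |z 0 - y 0| ≤ 100 / 99 * |z 1 - y 1| := by linarith
    refine ⟨⟨h, ?_⟩, ⟨h', ?_⟩, ?_, hs⟩
    · by_contra hcon
      rw [not_le] at hcon
      exact absurd (slope_angle' a ha0 hpi ha (x - y) (z - y) (9 / 10) (100 / 99) (by norm_num)
        (by norm_num) hcon.le hz hs (by norm_num)) hn
    · by_contra hcon
      rw [not_le] at hcon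
      exact absurd (slope_angle' a ha0 hpi ha (x - y) (z - y) (100 / 99) (9 / 10) (by norm_num)
        (by norm_num) hx hcon.le hs (by norm_num)) hn
    · by_contra hcon
      rw [not_lt] at hcon
      refine absurd (lt_angle a ha0 hpi ha (x - y) (z - y) ?_) hn
      rw [inner_eq, e1_sub0, e1_sub1, e1_sub0, e1_sub1]
      have n1 := norm_le_add (x - y)
      have n2 := norm_le_add (z - y)
      rw [e1_sub0, e1_sub1] at n1 n2
      have e1 : (x 1 - y 1) * (z 1 - y 1) = -(|x 1 - y 1| * |z 1 - y 1|) := by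
        rw [← abs_mul, abs_of_neg hs, neg_neg]
      have e3 : ‖x - y‖ * ‖z - y‖ ≤ (199 / 99 * |x 1 - y 1|) * (199 / 99 * |z 1 - y 1|) :=
        mul_le_mul (by linarith) (by linarith) (norm_nonneg _) (mul_nonneg (by norm_num) (abs_nonneg _))
      have e4 : 0 < |x 1 - y 1| * |z 1 - y 1| := by
        rw [← abs_mul]
        exact abs_pos.2 hs.ne
      rw [e1]
      linarith

/-- ROW F20-E1.  `slope_angle` with `m = 10/9`, `m' = 67/100`. -/
theorem tilt_marked (a : ℝ) (ha0 : 0 ≤ a) (hpi : a ≤ Real.pi) (ha : -(1 / 1000) ≤ Real.cos a)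
    (x y b : Pt) (ht : Tilt y x) (h : (x 0 - y 0) * (b 0 - y 0) < 0)
    (hb : |b 1 - y 1| ≤ 67 / 100 * |b 0 - y 0|) : a < ∠ x y b := by
  rw [e1_angle]
  have h2 := ht.2
  exact slope_angle a ha0 hpi ha (x - y) (b - y) (10 / 9) (67 / 100) (by norm_num) (by norm_num)
    (by rw [e1_sub0, e1_sub1]; linarith) hb h (by norm_num)

end Pool.Agent.MP_0af329_co.JP
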