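import Pool.Agent.MP_0af329_co.JPE1
import Pool.Agent.MP_0af329_co.JPA3

set_option autoImplicit false

namespace Pool.Agent.MP_0af329_co.JP

open Finset EuclideanGeometry Filter Topology

open Classical in
/-- the points of a side (`s`) of `y` with the height condition (`h`) -/
private noncomputable def e3a_q (S : Finset Pt) (P Q : Pt → Pt → Prop) (y : Pt) : Finset Pt :=
  S.filter fun x => x ≠ y ∧ P y x ∧ Q y x

private theorem e3a_two (S : Finset Pt) (P Q Q' : Pt → Pt → Prop) (y : Pt)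
    (hQ : ∀ x, Q y x → Q' y x → False) :
    2 * ((e3a_q S P Q y).card : ℝ) * (e3a_q S P Q' y).card ≤ (nb S P y : ℝ) ^ 2 / 2 := by
  classical
  have h1 : (e3a_q S P Q y).card + (e3a_q S P Q' y).card ≤ nb S P y := by
    have hd : Disjoint (e3a_q S P Q y) (e3a_q S P Q' y) := by
      rw [Finset.disjoint_left]
      intro x hx hx'
      rw [e3a_q, Finset.mem_filter] at hx hx'
      exact hQ x hx.2.2.2 hx'.2.2.2
    rw [← Finset.card_union_of_disjoint hd, nb]
    refine Finset.card_le_card ?_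
    intro x hx
    rw [Finset.mem_union, e3a_q, e3a_q, Finset.mem_filter, Finset.mem_filter] at hx
    rw [Finset.mem_filter]
    rcases hx with hx | hx
    · exact ⟨hx.1, hx.2.1, hx.2.2.1⟩
    · exact ⟨hx.1, hx.2.1, hx.2.2.1⟩
  have h2 : ((e3a_q S P Q y).card : ℝ) + (e3a_q S P Q' y).card ≤ nb S P y := by exact_mod_cast h1
  have h3 : (0 : ℝ) ≤ ((e3a_q S P Q y).card : ℝ) := Nat.cast_nonneg _
  have h4 : (0 : ℝ) ≤ ((e3a_q S P Q' y).card : ℝ) := Nat.cast_nonneg _
  have h5 := mul_le_mul h2 h2 (by linarith) (by linarith)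
  nlinarith [sq_nonneg (((e3a_q S P Q y).card : ℝ) - (e3a_q S P Q' y).card)]

/-- ROW F20-E3a.  PROOF.  By `opp_lost` a lost triple `(x, y, z)` has `x, z` tilted with respect to `y`, on the
same side (left or right) of `y`, one above and one below `y`.  With `l_d, l_u` the numbers of tilted points
left of `y` and below, above `y`: at most `2 l_d l_u ≤ (l_d + l_u)² / 2` ordered pairs `(x, z)` on the left side,
`l_d + l_u ≤ nb`; the same on the right. -/
theorem lost_le (a : ℝ) (ha0 : 0 ≤ a) (hpi : a ≤ Real.pi) (ha : -(1 / 1000) ≤ Real.cos a)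
    (S : Finset Pt) :
    (tc S (fun x y z => Opp qN x y z ∧ ¬ a < ∠ x y z) : ℝ) ≤
      ∑ y ∈ S, ((nb S (fun y x => Tilt y x ∧ x 0 < y 0) y : ℝ) ^ 2 +
        (nb S (fun y x => Tilt y x ∧ y 0 < x 0) y : ℝ) ^ 2) / 2 := by
  classical
  set F : Finset (Pt × Pt × Pt) :=
    (trip S).filter fun t => Opp qN t.1 t.2.1 t.2.2 ∧ ¬ a < ∠ t.1 t.2.1 t.2.2 with hF
  have htc : tc S (fun x y z => Opp qN x y z ∧ ¬ a < ∠ x y z) = F.card := by
    rw [tc, hF]
    congr
  have hfib : F.card = ∑ y ∈ S, (F.filter fun t => t.2.1 = y).card := by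
    refine Finset.card_eq_sum_card_fiberwise ?_
    rintro ⟨x, y, z⟩ ht
    have ht' : (x, y, z) ∈ F := ht
    rw [hF, Finset.mem_filter, mem_trip] at ht'
    exact ht'.1.1.2.1
  rw [htc, hfib]
  push_cast
  refine Finset.sum_le_sum fun y _ => ?_
  set PL : Pt → Pt → Prop := fun y x => Tilt y x ∧ x 0 < y 0 with hPL
  set PR : Pt → Pt → Prop := fun y x => Tilt y x ∧ y 0 < x 0 with hPR
  set QD : Pt → Pt → Prop := fun y x => x 1 < y 1 with hQD
  set QU : Pt → Pt → Prop := fun y x => y 1 < x 1 with hQU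
  have hsub : ((F.filter fun t => t.2.1 = y).card) ≤
      ((e3a_q S PL QD y ×ˢ e3a_q S PL QU y ∪ e3a_q S PL QU y ×ˢ e3a_q S PL QD y) ∪
        (e3a_q S PR QD y ×ˢ e3a_q S PR QU y ∪ e3a_q S PR QU y ×ˢ e3a_q S PR QD y)).card := by
    refine Finset.card_le_card_of_injOn (fun t => (t.1, t.2.2)) ?_ ?_
    · rintro ⟨x, y', z⟩ ht
      have ht' : (x, y', z) ∈ F.filter fun t => t.2.1 = y := ht
      rw [Finset.mem_filter, hF, Finset.mem_filter, mem_trip] at ht'
      obtain ⟨⟨⟨⟨hx, hy', hz⟩, h1, h2, h3⟩, h4, h5⟩, h6⟩ := ht'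
      have h6' : y' = y := h6
      subst h6'
      obtain ⟨t1, t2, s1, s2⟩ := opp_lost a ha0 hpi ha x y' z h1 h2.symm h4 h5
      have hmem : ∀ (P Q : Pt → Pt → Prop) (p : Pt), p ∈ e3a_q S P Q y' ↔
          p ∈ S ∧ p ≠ y' ∧ P y' p ∧ Q y' p := fun P Q p => by rw [e3a_q, Finset.mem_filter]
      rw [Finset.mem_coe, Finset.mem_union, Finset.mem_union, Finset.mem_union,
        Finset.mem_product, Finset.mem_product, Finset.mem_product, Finset.mem_product]
      simp only [hmem]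
      rcases mul_pos_iff.1 s1 with ⟨p1, p2⟩ | ⟨p1, p2⟩
      · rcases mul_neg_iff.1 s2 with ⟨q1, q2⟩ | ⟨q1, q2⟩
        · exact Or.inr (Or.inr ⟨⟨hx, h1, ⟨t1, by linarith⟩, sub_pos.1 q1⟩,
            ⟨hz, h2.symm, ⟨t2, by linarith⟩, sub_neg.1 q2⟩⟩)
        · exact Or.inr (Or.inl ⟨⟨hx, h1, ⟨t1, by linarith⟩, sub_neg.1 q1⟩,
            ⟨hz, h2.symm, ⟨t2, by linarith⟩, sub_pos.1 q2⟩⟩)
      · rcases mul_neg_iff.1 s2 with ⟨q1, q2⟩ | ⟨q1, q2⟩
        · exact Or.inl (Or.inr ⟨⟨hx, h1, ⟨t1, by linarith⟩, sub_pos.1 q1⟩,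
            ⟨hz, h2.symm, ⟨t2, by linarith⟩, sub_neg.1 q2⟩⟩)
        · exact Or.inl (Or.inl ⟨⟨hx, h1, ⟨t1, by linarith⟩, sub_neg.1 q1⟩,
            ⟨hz, h2.symm, ⟨t2, by linarith⟩, sub_pos.1 q2⟩⟩)
    · rintro ⟨x, y1, z⟩ h1 ⟨x', y2, z'⟩ h2 h
      have h1' : y1 = y := (Finset.mem_filter.1 (Finset.mem_coe.1 h1)).2
      have h2' : y2 = y := (Finset.mem_filter.1 (Finset.mem_coe.1 h2)).2
      simp only [Prod.mk.injEq] at h
      rw [h.1, h.2, h1', h2']
  have hle : (((F.filter fun t => t.2.1 = y).card : ℕ) : ℝ) ≤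
      2 * ((e3a_q S PL QD y).card : ℝ) * (e3a_q S PL QU y).card +
        2 * ((e3a_q S PR QD y).card : ℝ) * (e3a_q S PR QU y).card := by
    have h1 := hsub.trans ((Finset.card_union_le _ _).trans
      (Nat.add_le_add (Finset.card_union_le _ _) (Finset.card_union_le _ _)))
    rw [Finset.card_product, Finset.card_product, Finset.card_product, Finset.card_product] at h1
    have h2 : (((F.filter fun t => t.2.1 = y).card : ℕ) : ℝ) ≤
        (((e3a_q S PL QD y).card * (e3a_q S PL QU y).card +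
          (e3a_q S PL QU y).card * (e3a_q S PL QD y).card +
          ((e3a_q S PR QD y).card * (e3a_q S PR QU y).card +
          (e3a_q S PR QU y).card * (e3a_q S PR QD y).card) : ℕ) : ℝ) := by
      exact_mod_cast h1
    push_cast at h2
    linarith
  have hdis : ∀ x, QD y x → QU y x → False := fun x h1 h2 => lt_asymm h1 h2
  have h3 := e3a_two S PL QD QU y hdis
  have h4 := e3a_two S PR QD QU y hdis
  linarith

end Pool.Agent.MP_0af329_co.JP
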