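import Pool.Agent.MP_0af329_co.JPE1
import Pool.Agent.MP_0af329_co.JPA3

set_option autoImplicit false

namespace Pool.Agent.MP_0af329_co.JP

open Finset EuclideanGeometry Filter Topology

/-- fibre count of triples with a given middle point -/
private theorem e3b_fib (S : Finset Pt) (P : Pt → Pt → Pt → Prop) (f : Pt → ℕ)
    (hf : ∀ y ∈ S, ∃ T : Finset (Pt × Pt), f y ≤ T.card ∧
      ∀ t ∈ T, (t.1, y, t.2) ∈ trip S ∧ P t.1 y t.2) :
    ∑ y ∈ S, f y ≤ tc S P := by
  classical
  unfold tc
  rw [Finset.card_eq_sum_card_fiberwise (f := fun t : Pt × Pt × Pt => t.2.1) (t := S)]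
  · apply Finset.sum_le_sum
    intro y hy
    obtain ⟨T, hT, hT'⟩ := hf y hy
    refine hT.trans ?_
    apply Finset.card_le_card_of_injOn (fun t => (t.1, y, t.2))
    · intro t ht
      obtain ⟨h1, h2⟩ := hT' t ht
      simp only [Finset.coe_filter, Set.mem_setOf_eq, Finset.mem_filter]
      exact ⟨⟨h1, h2⟩, trivial⟩
    · rintro ⟨t1, t2⟩ _ ⟨u1, u2⟩ _ h
      simp only [Prod.mk.injEq] at h
      rw [Prod.mk.injEq]
      exact ⟨h.1, h.2.2⟩
  · intro t ht
    have h1 : t ∈ trip S := (Finset.mem_filter.1 (Finset.mem_coe.1 ht)).1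
    obtain ⟨x, y, z⟩ := t
    exact (mem_trip.1 h1).1.2.1

/-- the two products of pairs -/
private theorem e3b_card (X B : Finset Pt) (h : Disjoint X B) :
    ∃ T : Finset (Pt × Pt), 2 * X.card * B.card ≤ T.card ∧
      ∀ t ∈ T, (t.1 ∈ X ∧ t.2 ∈ B) ∨ (t.1 ∈ B ∧ t.2 ∈ X) := by
  classical
  refine ⟨X ×ˢ B ∪ B ×ˢ X, ?_, ?_⟩
  · rw [Finset.card_union_of_disjoint]
    · rw [Finset.card_product, Finset.card_product]
      apply le_of_eq
      ring
    · rw [Finset.disjoint_left]
      intro t h1 h2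
      exact (Finset.disjoint_left.1 h) (Finset.mem_product.1 h1).1 (Finset.mem_product.1 h2).1
  · intro t ht
    rcases Finset.mem_union.1 ht with h1 | h1
    · exact Or.inl (Finset.mem_product.1 h1)
    · exact Or.inr (Finset.mem_product.1 h1)

/-- one marked pair -/
private theorem e3b_mark (a : ℝ) (ha0 : 0 ≤ a) (hpi : a ≤ Real.pi) (ha : -(1 / 1000) ≤ Real.cos a)
    (x y b : Pt) (ht : Tilt y x) (h : (x 0 - y 0) * (b 0 - y 0) < 0)
    (hb : |b 1 - y 1| ≤ 67 / 100 * |b 0 - y 0|) :
    (¬ Opp qN x y b ∧ a < ∠ x y b) ∧ (¬ Opp qN b y x ∧ a < ∠ b y x) := by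
  have h1 := tilt_marked a ha0 hpi ha x y b ht h hb
  have hbn : 0 < |b 0 - y 0| := by
    rw [abs_pos]
    intro h2
    rw [h2, mul_zero] at h
    exact lt_irrefl _ h
  have h2 : qN y b = 0 ∨ qN y b = 2 := by
    unfold qN
    rw [if_pos (by linarith)]
    split_ifs
    · exact Or.inl rfl
    · exact Or.inr rfl
  have h3 : qN y x = 1 ∨ qN y x = 3 := by
    unfold qN
    rw [if_neg (by have := ht.1; linarith)]
    split_ifs
    · exact Or.inl rfl
    · exact Or.inr rfl
  refine ⟨⟨?_, h1⟩, ⟨?_, by rw [EuclideanGeometry.angle_comm]; exact h1⟩⟩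
  · unfold Opp
    rcases h2 with h2 | h2 <;> rcases h3 with h3 | h3 <;> rw [h2, h3] <;> decide
  · unfold Opp
    rcases h2 with h2 | h2 <;> rcases h3 with h3 | h3 <;> rw [h2, h3] <;> decide

/-- ROW F20-E3b.  PROOF.  For `y ∈ A`, `x ∈ S` tilted to the left of `y` and `b ∈ B` the ordered triples `(x, y, b)`
and `(b, y, x)` are counted on the right: `tilt_marked`, and `qN y b = 0`, `qN y x ∈ {1, 3}`; `x ≠ b` by `not_tilt`.
For `y ∈ B`, `x` tilted to the right of `y` and `b ∈ A`: `qN y b = 2`.  The triples are all distinct. -/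
theorem extra_ge (a : ℝ) (ha0 : 0 ≤ a) (hpi : a ≤ Real.pi) (ha : -(1 / 1000) ≤ Real.cos a)
    (S A B : Finset Pt) (hS : ∀ x, x ∈ S ↔ x ∈ A ∨ x ∈ B) (hd : Disjoint A B)
    (hAB : ∀ x ∈ A, ∀ y ∈ B, |y 1 - x 1| ≤ 67 / 100 * (y 0 - x 0)) :
    ∑ y ∈ A, 2 * (nb S (fun y x => Tilt y x ∧ x 0 < y 0) y : ℝ) * B.card +
      ∑ y ∈ B, 2 * (nb S (fun y x => Tilt y x ∧ y 0 < x 0) y : ℝ) * A.card ≤
      tc S (fun x y z => ¬ Opp qN x y z ∧ a < ∠ x y z) := by
  classical
  have hlt : ∀ x ∈ A, ∀ y ∈ B, x 0 < y 0 := by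
    intro x hx y hy
    have h1 := hAB x hx y hy
    have h2 := abs_nonneg (y 1 - x 1)
    have h3 : x 0 ≤ y 0 := by linarith
    rcases h3.lt_or_eq with h4 | h4
    · exact h4
    · exfalso
      have h5 : |y 1 - x 1| = 0 := by
        apply le_antisymm _ h2
        rw [h4] at h1
        simpa using h1
      have h6 : y 1 = x 1 := by
        have := abs_eq_zero.1 h5
        linarith
      have h7 : x = y := by
        ext i
        fin_cases i
        · exact h4
        · exact h6.symm
      rw [h7] at hx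
      exact (Finset.disjoint_left.1 hd) hx hy
  have hSU : S = A ∪ B := by
    ext x
    rw [hS, Finset.mem_union]
  set fA : Pt → ℕ := nb S (fun y x => Tilt y x ∧ x 0 < y 0) with hfA
  set fB : Pt → ℕ := nb S (fun y x => Tilt y x ∧ y 0 < x 0) with hfB
  have key := e3b_fib S (fun x y z => ¬ Opp qN x y z ∧ a < ∠ x y z)
    (fun y => if y ∈ A then 2 * fA y * B.card else 2 * fB y * A.card) (by
    intro y hy
    by_cases hyA : y ∈ A
    · set X : Finset Pt := S.filter fun z => z ≠ y ∧ (Tilt y z ∧ z 0 < y 0) with hX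
      have hXB : Disjoint X B := by
        rw [Finset.disjoint_left]
        intro x hx hxB
        have h1 := (Finset.mem_filter.1 hx).2.2.2
        have h2 := hlt y hyA x hxB
        linarith
      obtain ⟨T, hT, hT'⟩ := e3b_card X B hXB
      refine ⟨T, ?_, ?_⟩
      · have hc : fA y = X.card := by
          rw [hfA, hX]
          unfold nb
          congr!
        simp only [hyA, if_true]
        rw [hc]
        exact hT
      · have main : ∀ x ∈ X, ∀ b ∈ B, ((x, y, b) ∈ trip S ∧ (b, y, x) ∈ trip S) ∧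
            ((¬ Opp qN x y b ∧ a < ∠ x y b) ∧ (¬ Opp qN b y x ∧ a < ∠ b y x)) := by
          intro x hx b hb
          obtain ⟨hxS, hxy, hxt, hx0⟩ := Finset.mem_filter.1 hx
          have hyb := hlt y hyA b hb
          have hbS : b ∈ S := (hS b).2 (Or.inr hb)
          have hyb' : y ≠ b := by
            intro h
            rw [h] at hyb
            exact lt_irrefl _ hyb
          have hxb : x ≠ b := by
            intro h
            rw [h] at hx0
            linarith
          refine ⟨⟨mem_trip.2 ⟨⟨hxS, hy, hbS⟩, hxy, hyb', hxb⟩,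
            mem_trip.2 ⟨⟨hbS, hy, hxS⟩, hyb'.symm, hxy.symm, hxb.symm⟩⟩, ?_⟩
          apply e3b_mark a ha0 hpi ha x y b hxt
          · exact mul_neg_of_neg_of_pos (by linarith) (by linarith)
          · have h1 := hAB y hyA b hb
            rw [abs_of_pos (by linarith : 0 < b 0 - y 0)]
            exact h1
        intro t ht
        rcases hT' t ht with ⟨h1, h2⟩ | ⟨h1, h2⟩
        · exact ⟨(main t.1 h1 t.2 h2).1.1, (main t.1 h1 t.2 h2).2.1⟩
        · exact ⟨(main t.2 h2 t.1 h1).1.2, (main t.2 h2 t.1 h1).2.2⟩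
    · have hyB : y ∈ B := by
        rcases (hS y).1 hy with h | h
        · exact absurd h hyA
        · exact h
      set X : Finset Pt := S.filter fun z => z ≠ y ∧ (Tilt y z ∧ y 0 < z 0) with hX
      have hXB : Disjoint X A := by
        rw [Finset.disjoint_left]
        intro x hx hxA
        have h1 := (Finset.mem_filter.1 hx).2.2.2
        have h2 := hlt x hxA y hyB
        linarith
      obtain ⟨T, hT, hT'⟩ := e3b_card X A hXB
      refine ⟨T, ?_, ?_⟩
      · have hc : fB y = X.card := by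
          rw [hfB, hX]
          unfold nb
          congr!
        simp only [hyA, if_false]
        rw [hc]
        exact hT
      · have main : ∀ x ∈ X, ∀ b ∈ A, ((x, y, b) ∈ trip S ∧ (b, y, x) ∈ trip S) ∧
            ((¬ Opp qN x y b ∧ a < ∠ x y b) ∧ (¬ Opp qN b y x ∧ a < ∠ b y x)) := by
          intro x hx b hb
          obtain ⟨hxS, hxy, hxt, hx0⟩ := Finset.mem_filter.1 hx
          have hyb := hlt b hb y hyB
          have hbS : b ∈ S := (hS b).2 (Or.inl hb)
          have hyb' : y ≠ b := by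
            intro h
            rw [h] at hyb
            exact lt_irrefl _ hyb
          have hxb : x ≠ b := by
            intro h
            rw [h] at hx0
            linarith
          refine ⟨⟨mem_trip.2 ⟨⟨hxS, hy, hbS⟩, hxy, hyb', hxb⟩,
            mem_trip.2 ⟨⟨hbS, hy, hxS⟩, hyb'.symm, hxy.symm, hxb.symm⟩⟩, ?_⟩
          apply e3b_mark a ha0 hpi ha x y b hxt
          · exact mul_neg_of_pos_of_neg (by linarith) (by linarith)
          · have h1 := hAB b hb y hyB
            rw [abs_sub_comm (b 1) (y 1), abs_of_neg (by linarith : b 0 - y 0 < 0), neg_sub]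
            exact h1
        intro t ht
        rcases hT' t ht with ⟨h1, h2⟩ | ⟨h1, h2⟩
        · exact ⟨(main t.1 h1 t.2 h2).1.1, (main t.1 h1 t.2 h2).2.1⟩
        · exact ⟨(main t.2 h2 t.1 h1).1.2, (main t.2 h2 t.1 h1).2.2⟩)
  have hsum : ∑ y ∈ S, (if y ∈ A then 2 * fA y * B.card else 2 * fB y * A.card) =
      ∑ y ∈ A, 2 * fA y * B.card + ∑ y ∈ B, 2 * fB y * A.card := by
    rw [hSU, Finset.sum_union hd]
    congr 1
    · apply Finset.sum_congr rfl
      intro y hy
      rw [if_pos hy]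
    · apply Finset.sum_congr rfl
      intro y hy
      rw [if_neg (Finset.disjoint_right.1 hd hy)]
  rw [hsum] at key
  exact_mod_cast key

end Pool.Agent.MP_0af329_co.JP
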