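import Pool.Agent.MP_0af329_co.JPE3a
import Pool.Agent.MP_0af329_co.JPE3b

set_option autoImplicit false

namespace Pool.Agent.MP_0af329_co.JP

open Finset EuclideanGeometry Filter Topology

theorem e4_bal (S A : Finset Pt) (hA : A ⊆ S)
    (h : ∀ y ∈ A, ∀ x ∈ S, x ≠ y → Tilt y x → x ∈ A) :
    (∑ y ∈ A, nb S (fun y x => Tilt y x ∧ x 0 < y 0) y =
      ∑ y ∈ A, nb S (fun y x => Tilt y x ∧ y 0 < x 0) y) ∧
    (∀ y ∈ A, nb S (fun y x => Tilt y x ∧ x 0 < y 0) y ≤ A.card ∧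
      nb S (fun y x => Tilt y x ∧ y 0 < x 0) y ≤ A.card) := by
  classical
  have e1 : ∀ y ∈ A, nb S (fun y x => Tilt y x ∧ x 0 < y 0) y =
      (A.filter fun x => x ≠ y ∧ Tilt y x ∧ x 0 < y 0).card := by
    intro y hy
    unfold nb
    congr 1
    ext x
    simp only [Finset.mem_filter]
    constructor
    · rintro ⟨h1, h2, h3, h4⟩
      exact ⟨h y hy x h1 h2 h3, h2, h3, h4⟩
    · rintro ⟨h1, h2, h3, h4⟩
      exact ⟨hA h1, h2, h3, h4⟩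
  have e2 : ∀ y ∈ A, nb S (fun y x => Tilt y x ∧ y 0 < x 0) y =
      (A.filter fun x => x ≠ y ∧ Tilt y x ∧ y 0 < x 0).card := by
    intro y hy
    unfold nb
    congr 1
    ext x
    simp only [Finset.mem_filter]
    constructor
    · rintro ⟨h1, h2, h3, h4⟩
      exact ⟨h y hy x h1 h2 h3, h2, h3, h4⟩
    · rintro ⟨h1, h2, h3, h4⟩
      exact ⟨hA h1, h2, h3, h4⟩
  refine ⟨?_, ?_⟩
  · rw [Finset.sum_congr rfl e1, Finset.sum_congr rfl e2]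
    simp only [Finset.card_eq_sum_ones, Finset.sum_filter]
    rw [Finset.sum_comm]
    refine Finset.sum_congr rfl fun y _ => Finset.sum_congr rfl fun x _ => ?_
    by_cases hc : x ≠ y ∧ Tilt y x ∧ y 0 < x 0
    · rw [if_pos hc, if_pos ⟨hc.1.symm, hc.2.1.symm, hc.2.2⟩]
    · rw [if_neg hc, if_neg]
      rintro ⟨h1, h2, h3⟩
      exact hc ⟨h1.symm, h2.symm, h3⟩
  · intro y hy
    rw [e1 y hy, e2 y hy]
    exact ⟨Finset.card_filter_le _ _, Finset.card_filter_le _ _⟩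

/-- ROW F20-E4.  PROOF.  Tilted pairs have both points in `A` or both in `B` (`not_tilt`); both sides are the
number of ordered pairs of `A` (the pair `(y, x)` is counted on the left iff `(x, y)` is counted on the right).
(`A` and `B` may be interchanged.) -/
theorem tilt_balance (S A B : Finset Pt) (hS : ∀ x, x ∈ S ↔ x ∈ A ∨ x ∈ B) (hd : Disjoint A B)
    (hAB : ∀ x ∈ A, ∀ y ∈ B, |y 1 - x 1| ≤ 67 / 100 * (y 0 - x 0)) :
    (∑ y ∈ A, nb S (fun y x => Tilt y x ∧ x 0 < y 0) y =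
      ∑ y ∈ A, nb S (fun y x => Tilt y x ∧ y 0 < x 0) y) ∧
    (∑ y ∈ B, nb S (fun y x => Tilt y x ∧ x 0 < y 0) y =
      ∑ y ∈ B, nb S (fun y x => Tilt y x ∧ y 0 < x 0) y) ∧
    (∀ y ∈ A, nb S (fun y x => Tilt y x ∧ x 0 < y 0) y ≤ A.card ∧
      nb S (fun y x => Tilt y x ∧ y 0 < x 0) y ≤ A.card) ∧
    (∀ y ∈ B, nb S (fun y x => Tilt y x ∧ x 0 < y 0) y ≤ B.card ∧
      nb S (fun y x => Tilt y x ∧ y 0 < x 0) y ≤ B.card) := by
  have hne : ∀ x ∈ A, ∀ y ∈ B, x ≠ y := by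
    intro x hx y hy hxy
    subst hxy
    exact Finset.disjoint_left.mp hd hx hy
  have hA := e4_bal S A (fun x hx => (hS x).2 (Or.inl hx)) (by
    intro y hy x hx hxy ht
    rcases (hS x).1 hx with h1 | h1
    · exact h1
    · exact absurd ht (not_tilt (hne y hy x h1) (hAB y hy x h1)).1)
  have hB := e4_bal S B (fun x hx => (hS x).2 (Or.inr hx)) (by
    intro y hy x hx hxy ht
    rcases (hS x).1 hx with h1 | h1
    · exact absurd ht (not_tilt (hne x h1 y hy) (hAB x h1 y hy)).2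
    · exact h1)
  exact ⟨hA.1, hB.1, hA.2, hB.2⟩

/-- ROW F20-E4.  PROOF.  `goodman_cnt` with `q = qN` (`qN_anti`).  With `l_y, r_y` the numbers of tilted points to the
left and right of `y`: lost `≤ ∑ (l_y² + r_y²)/2 ≤ |A|/2 ∑_A (l_y + r_y) + |B|/2 ∑_B (l_y + r_y)
= |A| ∑_A l_y + |B| ∑_B r_y ≤ 2 |B| ∑_A l_y + 2 |A| ∑_B r_y ≤` extra. -/
theorem two_clusters (a : ℝ) (ha0 : 0 ≤ a) (hpi : a ≤ Real.pi) (ha : -(1 / 1000) ≤ Real.cos a)
    (S A B : Finset Pt) (hS : ∀ x, x ∈ S ↔ x ∈ A ∨ x ∈ B) (hd : Disjoint A B)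
    (hAB : ∀ x ∈ A, ∀ y ∈ B, |y 1 - x 1| ≤ 67 / 100 * (y 0 - x 0))
    (h1 : A.card ≤ 2 * B.card) (h2 : B.card ≤ 2 * A.card) :
    (S.card : ℝ) * (S.card - 1) * (S.card - 5) / 12 ≤ cnt S (Set.Ioi a) := by
  classical
  obtain ⟨t1, t2, t3, t4⟩ := tilt_balance S A B hS hd hAB
  have hg := goodman_cnt S a qN (qN_anti S)
  have hl := lost_le a ha0 hpi ha S
  have he := extra_ge a ha0 hpi ha S A B hS hd hAB
  have hD : 0 ≤ 1 / 4 * ∑ y ∈ S, Dn S qN y ^ 2 := by positivity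
  have hSu : S = A ∪ B := by
    ext x
    rw [hS x, Finset.mem_union]
  have hsplit : ∑ y ∈ S, ((nb S (fun y x => Tilt y x ∧ x 0 < y 0) y : ℝ) ^ 2 +
        (nb S (fun y x => Tilt y x ∧ y 0 < x 0) y : ℝ) ^ 2) / 2 =
      ∑ y ∈ A, ((nb S (fun y x => Tilt y x ∧ x 0 < y 0) y : ℝ) ^ 2 +
        (nb S (fun y x => Tilt y x ∧ y 0 < x 0) y : ℝ) ^ 2) / 2 +
      ∑ y ∈ B, ((nb S (fun y x => Tilt y x ∧ x 0 < y 0) y : ℝ) ^ 2 +
        (nb S (fun y x => Tilt y x ∧ y 0 < x 0) y : ℝ) ^ 2) / 2 := by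
    rw [← Finset.sum_union hd, ← hSu]
  have key : ∀ C : Finset Pt, (∑ y ∈ C, nb S (fun y x => Tilt y x ∧ x 0 < y 0) y =
      ∑ y ∈ C, nb S (fun y x => Tilt y x ∧ y 0 < x 0) y) →
      (∀ y ∈ C, nb S (fun y x => Tilt y x ∧ x 0 < y 0) y ≤ C.card ∧
      nb S (fun y x => Tilt y x ∧ y 0 < x 0) y ≤ C.card) →
      ∑ y ∈ C, ((nb S (fun y x => Tilt y x ∧ x 0 < y 0) y : ℝ) ^ 2 +
        (nb S (fun y x => Tilt y x ∧ y 0 < x 0) y : ℝ) ^ 2) / 2 ≤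
      C.card * ∑ y ∈ C, (nb S (fun y x => Tilt y x ∧ x 0 < y 0) y : ℝ) ∧
      ∑ y ∈ C, (nb S (fun y x => Tilt y x ∧ x 0 < y 0) y : ℝ) =
      ∑ y ∈ C, (nb S (fun y x => Tilt y x ∧ y 0 < x 0) y : ℝ) := by
    intro C hC1 hC2
    have e : ∑ y ∈ C, (nb S (fun y x => Tilt y x ∧ x 0 < y 0) y : ℝ) =
      ∑ y ∈ C, (nb S (fun y x => Tilt y x ∧ y 0 < x 0) y : ℝ) := by
      exact_mod_cast hC1
    refine ⟨?_, e⟩
    have h3 : ∑ y ∈ C, ((nb S (fun y x => Tilt y x ∧ x 0 < y 0) y : ℝ) ^ 2 +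
        (nb S (fun y x => Tilt y x ∧ y 0 < x 0) y : ℝ) ^ 2) / 2 ≤
      ∑ y ∈ C, ((C.card : ℝ) * (nb S (fun y x => Tilt y x ∧ x 0 < y 0) y : ℝ) +
        (C.card : ℝ) * (nb S (fun y x => Tilt y x ∧ y 0 < x 0) y : ℝ)) / 2 := by
      refine Finset.sum_le_sum fun y hy => ?_
      obtain ⟨c1, c2⟩ := hC2 y hy
      have c1' : (nb S (fun y x => Tilt y x ∧ x 0 < y 0) y : ℝ) ≤ C.card := by exact_mod_cast c1
      have c2' : (nb S (fun y x => Tilt y x ∧ y 0 < x 0) y : ℝ) ≤ C.card := by exact_mod_cast c2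
      have d1 : (0 : ℝ) ≤ nb S (fun y x => Tilt y x ∧ x 0 < y 0) y := by positivity
      have d2 : (0 : ℝ) ≤ nb S (fun y x => Tilt y x ∧ y 0 < x 0) y := by positivity
      nlinarith [mul_le_mul_of_nonneg_right c1' d1, mul_le_mul_of_nonneg_right c2' d2]
    refine h3.trans (le_of_eq ?_)
    rw [← Finset.sum_div, Finset.sum_add_distrib, ← Finset.mul_sum, ← Finset.mul_sum, ← e]
    ring
  obtain ⟨kA, kA'⟩ := key A t1 t3
  obtain ⟨kB, kB'⟩ := key B t2 t4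
  have h1' : (A.card : ℝ) ≤ 2 * B.card := by exact_mod_cast h1
  have h2' : (B.card : ℝ) ≤ 2 * A.card := by exact_mod_cast h2
  have eA : ∑ y ∈ A, 2 * (nb S (fun y x => Tilt y x ∧ x 0 < y 0) y : ℝ) * B.card =
      2 * B.card * ∑ y ∈ A, (nb S (fun y x => Tilt y x ∧ x 0 < y 0) y : ℝ) := by
    rw [Finset.mul_sum]
    refine Finset.sum_congr rfl fun y _ => ?_
    ring
  have eB : ∑ y ∈ B, 2 * (nb S (fun y x => Tilt y x ∧ y 0 < x 0) y : ℝ) * A.card =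
      2 * A.card * ∑ y ∈ B, (nb S (fun y x => Tilt y x ∧ y 0 < x 0) y : ℝ) := by
    rw [Finset.mul_sum]
    refine Finset.sum_congr rfl fun y _ => ?_
    ring
  rw [eA, eB] at he
  rw [hsplit] at hl
  have pA : 0 ≤ ∑ y ∈ A, (nb S (fun y x => Tilt y x ∧ x 0 < y 0) y : ℝ) := by positivity
  have pB : 0 ≤ ∑ y ∈ B, (nb S (fun y x => Tilt y x ∧ y 0 < x 0) y : ℝ) := by positivity
  have fA := mul_le_mul_of_nonneg_right h1' pA
  have fB := mul_le_mul_of_nonneg_right h2' pB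
  rw [kB'] at kB
  linarith

end Pool.Agent.MP_0af329_co.JP
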