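import Pool.Agent.MP_0af329_co.JPDefs

set_option autoImplicit false

namespace Pool.Agent.MP_0af329_co.JP

open Finset EuclideanGeometry Filter Topology

theorem ce_lt (M : ℕ) (hM : 0 < M) (y z : Pt) : ce M y z < 4 * M := by
  unfold ce
  have h1 : (0 : ℤ) < 4 * (M : ℤ) := by positivity
  have h2 := Int.emod_lt_of_pos (⌊2 * (M : ℝ) / Real.pi * ar y z⌋) h1
  have h3 := Int.emod_nonneg (⌊2 * (M : ℝ) / Real.pi * ar y z⌋) h1.ne'
  omega

/-- ROW F20-F1a.  PROOF.  `arg (-w) = arg w + π` or `arg w - π` for `w ≠ 0` (`Complex.arg_neg_eq_arg_sub_pi_of_im_pos` etc.,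
or from `Complex.arg_neg_coe_angle`), so the real number inside the floor changes by `± 2 M`. -/
theorem ce_swap (M : ℕ) (hM : 0 < M) (y z : Pt) (h : y ≠ z) :
    ce M z y = (ce M y z + 2 * M) % (4 * M) := by
  have hw : (⟨z 0 - y 0, z 1 - y 1⟩ : ℂ) ≠ 0 := by
    intro h0
    apply h
    have h1 := congrArg Complex.re h0
    have h2 := congrArg Complex.im h0
    simp only [Complex.zero_re, Complex.zero_im] at h1 h2
    ext i
    fin_cases i
    · simp only [Fin.zero_eta]; linarith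
    · simp only [Fin.mk_one]; linarith
  have hn : (⟨y 0 - z 0, y 1 - z 1⟩ : ℂ) = -⟨z 0 - y 0, z 1 - y 1⟩ := by
    apply Complex.ext <;> simp
  have ha := Complex.arg_neg_coe_angle hw
  rw [← hn, ← Real.Angle.coe_add, Real.Angle.angle_eq_iff_two_pi_dvd_sub] at ha
  obtain ⟨k, hk⟩ := ha
  have har : ar z y = ar y z + Real.pi + 2 * Real.pi * k := by
    unfold ar
    linarith
  have hf : ⌊2 * (M : ℝ) / Real.pi * ar z y⌋ =
      ⌊2 * (M : ℝ) / Real.pi * ar y z⌋ + (2 * (M : ℤ) + 4 * (M : ℤ) * k) := by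
    rw [← Int.floor_add_intCast]
    congr 1
    rw [har]
    push_cast
    have hpi := Real.pi_ne_zero
    field_simp
    ring
  have h1 : (0 : ℤ) < 4 * (M : ℤ) := by positivity
  unfold ce
  rw [hf]
  have h3 := Int.emod_nonneg (⌊2 * (M : ℝ) / Real.pi * ar y z⌋) h1.ne'
  have e : (⌊2 * (M : ℝ) / Real.pi * ar y z⌋ + (2 * (M : ℤ) + 4 * (M : ℤ) * k)) % (4 * (M : ℤ)) =
      ((⌊2 * (M : ℝ) / Real.pi * ar y z⌋ % (4 * (M : ℤ))) + 2 * (M : ℤ)) % (4 * (M : ℤ)) := by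
    rw [← add_assoc, Int.add_mul_emod_self_left, Int.emod_add_emod]
  rw [e]
  generalize ⌊2 * (M : ℝ) / Real.pi * ar y z⌋ % (4 * (M : ℤ)) = r at h3
  obtain ⟨n, rfl⟩ := Int.eq_ofNat_of_zero_le h3
  have : ((n : ℤ) + 2 * (M : ℤ)) % (4 * (M : ℤ)) = (((n + 2 * M) % (4 * M) : ℕ) : ℤ) := by
    push_cast; rfl
  rw [this, Int.toNat_natCast, Int.toNat_natCast]

end Pool.Agent.MP_0af329_co.JP
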