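import Pool.Agent.MP_0af329_co.JPDefs

set_option autoImplicit false

namespace Pool.Agent.MP_0af329_co.JP

open Finset EuclideanGeometry Filter Topology

theorem sub_eq_uv (y z : Pt) : z - y = ‖z - y‖ • JF.uv (ar y z) := by
  have hn : ‖z - y‖ = ‖(⟨z 0 - y 0, z 1 - y 1⟩ : ℂ)‖ := by
    rw [EuclideanSpace.norm_eq, Fin.sum_univ_two, Complex.norm_eq_sqrt_sq_add_sq]
    simp only [PiLp.sub_apply, Real.norm_eq_abs, sq_abs]
  have h0 := Complex.norm_mul_cos_arg (⟨z 0 - y 0, z 1 - y 1⟩ : ℂ)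
  have h1 := Complex.norm_mul_sin_arg (⟨z 0 - y 0, z 1 - y 1⟩ : ℂ)
  rw [hn]
  ext i
  fin_cases i
  · have e : JF.uv (ar y z) 0 = Real.cos (ar y z) := by simp [JF.uv]
    show z 0 - y 0 = ‖(⟨z 0 - y 0, z 1 - y 1⟩ : ℂ)‖ * JF.uv (ar y z) 0
    rw [e]
    exact h0.symm
  · have e : JF.uv (ar y z) 1 = Real.sin (ar y z) := by simp [JF.uv]
    show z 1 - y 1 = ‖(⟨z 0 - y 0, z 1 - y 1⟩ : ℂ)‖ * JF.uv (ar y z) 1
    rw [e]
    exact h1.symm

theorem f1b_uv (t : ℝ) : JF.uv (t - 2 * Real.pi) = JF.uv t := by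
  unfold JF.uv
  rw [Real.cos_sub_two_pi, Real.sin_sub_two_pi]

theorem f1b_angle (x y z : Pt) (hxy : x ≠ y) (hzy : z ≠ y) :
    ∠ x y z = InnerProductGeometry.angle (JF.uv (ar y x)) (JF.uv (ar y z)) := by
  unfold EuclideanGeometry.angle
  rw [vsub_eq_sub, vsub_eq_sub, sub_eq_uv y x, sub_eq_uv y z,
    InnerProductGeometry.angle_smul_left_of_pos _ _ (norm_pos_iff.2 (sub_ne_zero.2 hxy)),
    InnerProductGeometry.angle_smul_right_of_pos _ _ (norm_pos_iff.2 (sub_ne_zero.2 hzy))]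

/-- ROW F20-F1b.  PROOF.  `sub_eq_uv`, `InnerProductGeometry.angle_smul_left_of_pos`, `JF.angle_uv` (JC1.lean) and
`uv (t - 2π) = uv t`. -/
theorem angle_ar (x y z : Pt) (hxy : x ≠ y) (hzy : z ≠ y) :
    (|ar y x - ar y z| ≤ Real.pi → ∠ x y z = |ar y x - ar y z|) ∧
    (Real.pi ≤ |ar y x - ar y z| → ∠ x y z = 2 * Real.pi - |ar y x - ar y z|) := by
  have hx1 : -Real.pi < ar y x := Complex.neg_pi_lt_arg _
  have hx2 : ar y x ≤ Real.pi := Complex.arg_le_pi _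
  have hz1 : -Real.pi < ar y z := Complex.neg_pi_lt_arg _
  have hz2 : ar y z ≤ Real.pi := Complex.arg_le_pi _
  constructor
  · intro h
    rw [f1b_angle x y z hxy hzy, JF.angle_uv _ _ h]
  · intro h
    rw [f1b_angle x y z hxy hzy]
    rcases le_total (ar y z) (ar y x) with hle | hle
    · rw [abs_of_nonneg (by linarith)] at h ⊢
      have e : |ar y x - 2 * Real.pi - ar y z| = 2 * Real.pi - (ar y x - ar y z) := by
        rw [abs_of_nonpos (by linarith)]
        ring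
      rw [← f1b_uv (ar y x), JF.angle_uv _ _ (by rw [e]; linarith), e]
    · rw [abs_of_nonpos (by linarith)] at h ⊢
      have e : |ar y x - (ar y z - 2 * Real.pi)| = 2 * Real.pi - -(ar y x - ar y z) := by
        rw [abs_of_nonneg (by linarith)]
        ring
      rw [← f1b_uv (ar y z), JF.angle_uv _ _ (by rw [e]; linarith), e]

end Pool.Agent.MP_0af329_co.JP
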