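import Pool.Agent.MP_0af329_co.JPF1a
import Pool.Agent.MP_0af329_co.JPF1b

set_option autoImplicit false

namespace Pool.Agent.MP_0af329_co.JP

open Finset EuclideanGeometry Filter Topology

/-- The cyclic distance of the residues is at most the distance, and at most the complement. -/
theorem cdist_le_of_nonneg (M : ℕ) (hM : 0 < M) (k k' : ℤ) (h0 : 0 ≤ k - k') (h1 : k - k' ≤ 4 * M) :
    (cdist M (k % (4 * (M : ℤ))).toNat (k' % (4 * (M : ℤ))).toNat : ℤ) ≤ k - k' ∧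
    (cdist M (k % (4 * (M : ℤ))).toNat (k' % (4 * (M : ℤ))).toNat : ℤ) ≤ 4 * M - (k - k') := by
  have hM4 : (0 : ℤ) < 4 * M := by positivity
  obtain ⟨p, hp⟩ : ∃ p, (k % (4 * (M : ℤ))).toNat = p := ⟨_, rfl⟩
  obtain ⟨q, hq⟩ : ∃ q, (k' % (4 * (M : ℤ))).toNat = q := ⟨_, rfl⟩
  have hp' : (p : ℤ) = k % (4 * (M : ℤ)) := by
    rw [← hp]; exact Int.toNat_of_nonneg (Int.emod_nonneg _ hM4.ne')
  have hq' : (q : ℤ) = k' % (4 * (M : ℤ)) := by
    rw [← hq]; exact Int.toNat_of_nonneg (Int.emod_nonneg _ hM4.ne')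
  have hpl : (p : ℤ) < 4 * M := by rw [hp']; exact Int.emod_lt_of_pos _ hM4
  have hql : (q : ℤ) < 4 * M := by rw [hq']; exact Int.emod_lt_of_pos _ hM4
  rw [hp, hq]
  have e1 : (((p + 4 * M - q) % (4 * M) : ℕ) : ℤ) = (k - k') % (4 * (M : ℤ)) := by
    rw [Int.natCast_mod, Nat.cast_sub (by omega)]
    push_cast
    rw [hp', hq']
    rw [show k % (4 * (M : ℤ)) + 4 * (M : ℤ) - k' % (4 * (M : ℤ))
      = (k % (4 * (M : ℤ)) - k' % (4 * (M : ℤ))) + 4 * (M : ℤ) by ring, Int.add_emod_right,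
      ← Int.sub_emod]
  have e2 : (((q + 4 * M - p) % (4 * M) : ℕ) : ℤ) = (4 * (M : ℤ) - (k - k')) % (4 * (M : ℤ)) := by
    rw [Int.natCast_mod, Nat.cast_sub (by omega)]
    push_cast
    rw [hp', hq']
    rw [show k' % (4 * (M : ℤ)) + 4 * (M : ℤ) - k % (4 * (M : ℤ))
      = (k' % (4 * (M : ℤ)) - k % (4 * (M : ℤ))) + 4 * (M : ℤ) by ring, Int.add_emod_right,
      ← Int.sub_emod, show 4 * (M : ℤ) - (k - k') = (k' - k) + 4 * (M : ℤ) by ring, Int.add_emod_right]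
  have f1 : (cdist M p q : ℤ) ≤ (((p + 4 * M - q) % (4 * M) : ℕ) : ℤ) := by
    exact_mod_cast min_le_left _ _
  have f2 : (cdist M p q : ℤ) ≤ (((q + 4 * M - p) % (4 * M) : ℕ) : ℤ) := by
    exact_mod_cast min_le_right _ _
  have g1 : (k - k') % (4 * (M : ℤ)) ≤ k - k' := by
    have := Int.emod_add_mul_ediv (k - k') (4 * (M : ℤ))
    have h2 : 0 ≤ (k - k') / (4 * (M : ℤ)) := Int.ediv_nonneg h0 hM4.le
    nlinarith
  have g2 : (4 * (M : ℤ) - (k - k')) % (4 * (M : ℤ)) ≤ 4 * (M : ℤ) - (k - k') :=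
    by
    have := Int.emod_add_mul_ediv (4 * (M : ℤ) - (k - k')) (4 * (M : ℤ))
    have h2 : 0 ≤ (4 * (M : ℤ) - (k - k')) / (4 * (M : ℤ)) := Int.ediv_nonneg (by omega) hM4.le
    nlinarith
  omega

theorem cdist_comm (M p q : ℕ) : cdist M p q = cdist M q p := by
  unfold cdist
  rw [min_comm]

/-- ROW F20-F1c.  PROOF.  Let `t = 2M/π · ar y x`, `t' = 2M/π · ar y z` in `(-2M, 2M]`, `k = ⌊t⌋`, `k' = ⌊t'⌋`,
`|k - k'| ≤ 4M`.  `cdist ≤ |k - k'|` and `cdist ≤ 4M - |k - k'|`, and `|t - t'| > |k - k'| - 1`,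
`4M - |t - t'| > 4M - |k - k'| - 1`.  So the angle times `2M/π` is `> cdist - 1 ≥ M + 1`. -/
theorem cdist_angle (M : ℕ) (hM : 0 < M) (x y z : Pt) (hxy : x ≠ y) (hzy : z ≠ y)
    (h : M + 2 ≤ cdist M (ce M y x) (ce M y z)) :
    Real.pi / 2 + Real.pi / (2 * M) < ∠ x y z := by
  have hpi := Real.pi_pos
  have hMr : (0 : ℝ) < M := by exact_mod_cast hM
  obtain ⟨t, ht⟩ : ∃ t, 2 * (M : ℝ) / Real.pi * ar y x = t := ⟨_, rfl⟩
  obtain ⟨t', ht'⟩ : ∃ t', 2 * (M : ℝ) / Real.pi * ar y z = t' := ⟨_, rfl⟩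
  have a1 : ar y x ≤ Real.pi := Complex.arg_le_pi _
  have a2 : -Real.pi < ar y x := Complex.neg_pi_lt_arg _
  have b1 : ar y z ≤ Real.pi := Complex.arg_le_pi _
  have b2 : -Real.pi < ar y z := Complex.neg_pi_lt_arg _
  have hax : ar y x = Real.pi / (2 * M) * t := by
    rw [← ht]; field_simp
  have haz : ar y z = Real.pi / (2 * M) * t' := by
    rw [← ht']; field_simp
  have hc : 0 < Real.pi / (2 * (M : ℝ)) := by positivity
  have hcM : Real.pi / (2 * (M : ℝ)) * (2 * M) = Real.pi := by field_simp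
  have t1 : t ≤ 2 * M := by
    by_contra hh
    push Not at hh
    have := mul_lt_mul_of_pos_left hh hc
    rw [hcM, ← hax] at this
    linarith
  have t2 : -(2 * M) < t := by
    by_contra hh
    push Not at hh
    have := mul_le_mul_of_nonneg_left hh hc.le
    rw [mul_neg, hcM, ← hax] at this
    linarith
  have t1' : t' ≤ 2 * M := by
    by_contra hh
    push Not at hh
    have := mul_lt_mul_of_pos_left hh hc
    rw [hcM, ← haz] at this
    linarith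
  have t2' : -(2 * M) < t' := by
    by_contra hh
    push Not at hh
    have := mul_le_mul_of_nonneg_left hh hc.le
    rw [mul_neg, hcM, ← haz] at this
    linarith
  have hce : ce M y x = (⌊t⌋ % (4 * (M : ℤ))).toNat := by unfold ce; rw [ht]
  have hce' : ce M y z = (⌊t'⌋ % (4 * (M : ℤ))).toNat := by unfold ce; rw [ht']
  rw [hce, hce'] at h
  have k1 : -(2 * (M : ℤ)) ≤ ⌊t⌋ := by
    rw [Int.le_floor]; push_cast; exact t2.le
  have k2 : ⌊t⌋ ≤ 2 * (M : ℤ) := by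
    have : (⌊t⌋ : ℝ) ≤ ((2 * (M : ℤ) : ℤ) : ℝ) := by
      push_cast; exact (Int.floor_le t).trans t1
    exact_mod_cast this
  have k1' : -(2 * (M : ℤ)) ≤ ⌊t'⌋ := by
    rw [Int.le_floor]; push_cast; exact t2'.le
  have k2' : ⌊t'⌋ ≤ 2 * (M : ℤ) := by
    have : (⌊t'⌋ : ℝ) ≤ ((2 * (M : ℤ) : ℤ) : ℝ) := by
      push_cast; exact (Int.floor_le t').trans t1'
    exact_mod_cast this
  -- the key: the distance of the floors
  have key : (M : ℤ) + 2 ≤ |⌊t⌋ - ⌊t'⌋| ∧ (M : ℤ) + 2 ≤ 4 * M - |⌊t⌋ - ⌊t'⌋| := by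
    rcases le_total 0 (⌊t⌋ - ⌊t'⌋) with h0 | h0
    · obtain ⟨u1, u2⟩ := cdist_le_of_nonneg M hM ⌊t⌋ ⌊t'⌋ h0 (by omega)
      rw [abs_of_nonneg h0]
      constructor <;> omega
    · obtain ⟨u1, u2⟩ := cdist_le_of_nonneg M hM ⌊t'⌋ ⌊t⌋ (by omega) (by omega)
      rw [cdist_comm] at u1 u2
      rw [abs_of_nonpos h0]
      constructor <;> omega
  obtain ⟨k3, k4⟩ := key
  have f1 := Int.floor_le t
  have f2 := Int.lt_floor_add_one t
  have f1' := Int.floor_le t'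
  have f2' := Int.lt_floor_add_one t'
  have k3r : (M : ℝ) + 2 ≤ |(⌊t⌋ : ℝ) - ⌊t'⌋| := by exact_mod_cast k3
  have k4r : (M : ℝ) + 2 ≤ 4 * M - |(⌊t⌋ : ℝ) - ⌊t'⌋| := by exact_mod_cast k4
  have g1 : (M : ℝ) + 1 < |t - t'| := by
    rcases le_total 0 ((⌊t⌋ : ℝ) - ⌊t'⌋) with h0 | h0
    · rw [abs_of_nonneg h0] at k3r
      have := le_abs_self (t - t')
      linarith
    · rw [abs_of_nonpos h0] at k3r
      have := neg_le_abs (t - t')
      linarith
  have g2 : (M : ℝ) + 1 < 4 * M - |t - t'| := by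
    have : |t - t'| < |(⌊t⌋ : ℝ) - ⌊t'⌋| + 1 := by
      have h1 := le_abs_self ((⌊t⌋ : ℝ) - ⌊t'⌋)
      have h2 := neg_le_abs ((⌊t⌋ : ℝ) - ⌊t'⌋)
      rw [abs_lt]
      constructor <;> linarith
    linarith
  have habs : |ar y x - ar y z| = Real.pi / (2 * M) * |t - t'| := by
    rw [hax, haz, ← mul_sub, abs_mul, abs_of_pos hc]
  obtain ⟨A1, A2⟩ := angle_ar x y z hxy hzy
  have hgoal : Real.pi / 2 + Real.pi / (2 * M) = Real.pi / (2 * M) * (M + 1) := by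
    field_simp
  rw [hgoal]
  rcases le_total (|ar y x - ar y z|) Real.pi with h0 | h0
  · rw [A1 h0, habs]
    exact mul_lt_mul_of_pos_left g1 hc
  · rw [A2 h0, habs]
    have : 2 * Real.pi - Real.pi / (2 * M) * |t - t'| = Real.pi / (2 * M) * (4 * M - |t - t'|) := by
      rw [mul_sub, show Real.pi / (2 * (M : ℝ)) * (4 * M) = 2 * (Real.pi / (2 * (M : ℝ)) * (2 * M)) by ring, hcM]
    rw [this]
    exact mul_lt_mul_of_pos_left g2 hc

end Pool.Agent.MP_0af329_co.JP
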