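import Pool.Agent.MP_0af329_co.JPF1a

set_option autoImplicit false

namespace Pool.Agent.MP_0af329_co.JP

open Finset EuclideanGeometry Filter Topology

theorem Qf_lt (M i c : ℕ) (hM : 0 < M) : Qf M i c < 4 := by
  unfold Qf
  rw [Nat.div_lt_iff_lt_mul hM]
  exact Nat.mod_lt _ (by omega)

/-- The quadrant of the opposite cell. -/
theorem Qf_opp (M i c : ℕ) (hM : 0 < M) (hi : i ≤ M) (hc : c < 4 * M) :
    Qf M i ((c + 2 * M) % (4 * M)) = (Qf M i c + 2) % 4 := by
  unfold Qf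
  obtain ⟨s, hs⟩ : ∃ s, (c + 4 * M - i) % (4 * M) = s := ⟨_, rfl⟩
  have hs4 : s < 4 * M := by rw [← hs]; exact Nat.mod_lt _ (by omega)
  have e : ((c + 2 * M) % (4 * M) + 4 * M - i) % (4 * M) = (s + 2 * M) % (4 * M) := by
    rw [← hs, Nat.mod_add_mod]
    rcases lt_or_ge (c + 2 * M) (4 * M) with h | h
    · rw [Nat.mod_eq_of_lt h]
      congr 1
      omega
    · have : (c + 2 * M) % (4 * M) = c + 2 * M - 4 * M := by
        rw [Nat.mod_eq_sub_mod h, Nat.mod_eq_of_lt (by omega)]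
      rw [this, show c + 4 * M - i + 2 * M = (c + 2 * M - 4 * M + 4 * M - i) + 4 * M by omega,
        Nat.add_mod_right]
  rw [e, hs]
  rcases lt_or_ge (s + 2 * M) (4 * M) with h | h
  · rw [Nat.mod_eq_of_lt h, Nat.add_mul_div_right _ _ hM]
    have : s / M < 2 := by
      rw [Nat.div_lt_iff_lt_mul hM]; omega
    generalize s / M = w at this ⊢
    omega
  · have h1 : (s + 2 * M) % (4 * M) = s + 2 * M - 4 * M := by
      rw [Nat.mod_eq_sub_mod h, Nat.mod_eq_of_lt (by omega)]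
    obtain ⟨r, hr⟩ : ∃ r, s = r + 2 * M := ⟨s - 2 * M, by omega⟩
    rw [h1, hr, show r + 2 * M + 2 * M - 4 * M = r by omega, Nat.add_mul_div_right _ _ hM]
    have : r / M < 2 := by
      rw [Nat.div_lt_iff_lt_mul hM]; omega
    generalize r / M = w at this ⊢
    omega

/-- ROW F20-F2a.  PROOF.  `ce_swap`; with `s = (c + 4M - i) % (4M)`: `((c + 2M) % (4M) + 4M - i) % (4M) = (s + 2M) % (4M)`
and `((s + 2M) % (4M)) / M = (s / M + 2) % 4`. -/
theorem qf_anti (M i : ℕ) (hM : 0 < M) (hi : i ≤ M) (S : Finset Pt) : Anti S (qf M i) := by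
  intro y _ z _ hyz
  unfold qf
  rw [ce_swap M hM y z hyz, Qf_opp M i _ hM hi (ce_lt M hM y z)]
  apply Fin.ext
  simp only [Fin.ofNat, Fin.val_add, Fin.isValue]
  norm_num

end Pool.Agent.MP_0af329_co.JP
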