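import Pool.Agent.MP_0af329_co.JPDefs

set_option autoImplicit false

namespace Pool.Agent.MP_0af329_co.JP

open Finset EuclideanGeometry Filter Topology

private theorem md4 (M x : ℕ) (hx : x < 8 * M) :
    (x < 4 * M ∧ x % (4 * M) = x) ∨ (4 * M ≤ x ∧ x % (4 * M) = x - 4 * M) := by
  rcases Nat.lt_or_ge x (4 * M) with h | h
  · exact Or.inl ⟨h, Nat.mod_eq_of_lt h⟩
  · refine Or.inr ⟨h, ?_⟩
    rw [Nat.mod_eq_sub_mod h, Nat.mod_eq_of_lt (by omega)]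

private theorem dv4 (M x : ℕ) (hM : 0 < M) (hx : x < 4 * M) :
    ∃ r, r < M ∧ (x / M = 0 ∧ x = r ∨ x / M = 1 ∧ x = M + r ∨ x / M = 2 ∧ x = 2 * M + r ∨
      x / M = 3 ∧ x = 3 * M + r) := by
  refine ⟨x % M, Nat.mod_lt _ hM, ?_⟩
  have h1 : M * (x / M) + x % M = x := Nat.div_add_mod x M
  have h2 : x / M < 4 := Nat.div_lt_of_lt_mul (by linarith [Nat.mul_comm M 4])
  generalize x / M = A at h1 h2 ⊢
  generalize x % M = r at h1 ⊢
  interval_cases A <;> omega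

/-- The two residues. -/
private theorem opp_key (M i p q : ℕ) (hM : 0 < M) (hi : i < M) (hp : p < 4 * M) (hq : q < 4 * M)
    (h : Qf M i p = (Qf M i q + 2) % 4) :
    ∃ P Q r s : ℕ, P < 4 * M ∧ Q < 4 * M ∧ r < M ∧ s < M ∧
      (i ≤ p ∧ P = p - i ∨ p < i ∧ P = p + 4 * M - i) ∧
      (i ≤ q ∧ Q = q - i ∨ q < i ∧ Q = q + 4 * M - i) ∧
      (P = 2 * M + r ∧ Q = s ∨ P = 3 * M + r ∧ Q = M + s ∨ P = r ∧ Q = 2 * M + s ∨
        P = M + r ∧ Q = 3 * M + s) := by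
  unfold Qf at h
  have hP : (p + 4 * M - i) % (4 * M) < 4 * M := Nat.mod_lt _ (by omega)
  have hQ : (q + 4 * M - i) % (4 * M) < 4 * M := Nat.mod_lt _ (by omega)
  have e1 := md4 M (p + 4 * M - i) (by omega)
  have e2 := md4 M (q + 4 * M - i) (by omega)
  generalize (p + 4 * M - i) % (4 * M) = P at *
  generalize (q + 4 * M - i) % (4 * M) = Q at *
  obtain ⟨r, hr, h1⟩ := dv4 M P hM hP
  obtain ⟨s, hs, h2⟩ := dv4 M Q hM hQ
  refine ⟨P, Q, r, s, hP, hQ, hr, hs, by omega, by omega, ?_⟩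
  generalize P / M = A at h h1
  generalize Q / M = B at h h2
  rcases h1 with ⟨rfl, h1⟩ | ⟨rfl, h1⟩ | ⟨rfl, h1⟩ | ⟨rfl, h1⟩ <;>
  rcases h2 with ⟨rfl, h2⟩ | ⟨rfl, h2⟩ | ⟨rfl, h2⟩ | ⟨rfl, h2⟩ <;> simp at h <;> omega

private theorem cdist_cases (M p q : ℕ) (hp : p < 4 * M) (hq : q < 4 * M) :
    ∃ D, (q ≤ p ∧ D = p - q ∨ p < q ∧ D = q - p) ∧
      (cdist M p q = D ∨ (cdist M p q = 4 * M - D)) ∧ cdist M p q ≤ D ∧
      (D = 0 ∨ cdist M p q ≤ 4 * M - D) ∧ (D = 0 → cdist M p q = 0) := by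
  unfold cdist
  have e1 := md4 M (p + 4 * M - q) (by omega)
  have e2 := md4 M (q + 4 * M - p) (by omega)
  generalize (p + 4 * M - q) % (4 * M) = P at *
  generalize (q + 4 * M - p) % (4 * M) = Q at *
  rcases Nat.lt_or_ge p q with h | h
  · exact ⟨q - p, by omega, by omega, by omega, by omega, by omega⟩
  · exact ⟨p - q, by omega, by omega, by omega, by omega, by omega⟩

/-- ROW F20-F2b.  PROOF.  Write `(p + 4M - i) % (4M) = Q M + r`, `(q + 4M - i) % (4M) = Q' M + r'`, `r, r' < M`,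
`Q - Q' = ± 2`.  Then `cdist = 2M - |r - r'| ≥ M + 1`. -/
theorem opp_cell (M i p q : ℕ) (hM : 0 < M) (hi : i < M) (hp : p < 4 * M) (hq : q < 4 * M)
    (h : Qf M i p = (Qf M i q + 2) % 4) : M + 1 ≤ cdist M p q := by
  obtain ⟨P, Q, r, s, hP, hQ, hr, hs, h1, h2, h3⟩ := opp_key M i p q hM hi hp hq h
  obtain ⟨D, hD, c1, c2, c3, c4⟩ := cdist_cases M p q hp hq
  omega

private theorem opp_res (M i p q : ℕ) (hM : 3 ≤ M) (hi : i < M) (hp : p < 4 * M) (hq : q < 4 * M)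
    (h : Qf M i p = (Qf M i q + 2) % 4) (hc : cdist M p q ≤ M + 1) :
    (∃ a b : ℕ, a < 5 ∧ b < 5 ∧ p = i + a * M ∧ q + 1 = i + b * M) ∨
    (∃ a b : ℕ, a < 5 ∧ b < 5 ∧ q = i + a * M ∧ p + 1 = i + b * M) := by
  obtain ⟨P, Q, r, s, hP, hQ, hr, hs, h1, h2, h3⟩ := opp_key M i p q (by omega) hi hp hq h
  obtain ⟨D, hD, c1, c2, c3, c4⟩ := cdist_cases M p q hp hq
  have hrs : (r = 0 ∧ s + 1 = M) ∨ (s = 0 ∧ r + 1 = M) := by omega
  rcases hrs with ⟨h5, h6⟩ | ⟨h5, h6⟩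
  · left
    have hp' : ∃ a, a < 5 ∧ p = i + a * M := by
      rcases (by omega : p = i + 0 * M ∨ p = i + 1 * M ∨ p = i + 2 * M ∨ p = i + 3 * M ∨
        p = i + 4 * M) with h | h | h | h | h
      · exact ⟨0, by norm_num, h⟩
      · exact ⟨1, by norm_num, h⟩
      · exact ⟨2, by norm_num, h⟩
      · exact ⟨3, by norm_num, h⟩
      · exact ⟨4, by norm_num, h⟩
    have hq' : ∃ b, b < 5 ∧ q + 1 = i + b * M := by
      rcases (by omega : q + 1 = i + 0 * M ∨ q + 1 = i + 1 * M ∨ q + 1 = i + 2 * M ∨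
        q + 1 = i + 3 * M ∨ q + 1 = i + 4 * M) with h | h | h | h | h
      · exact ⟨0, by norm_num, h⟩
      · exact ⟨1, by norm_num, h⟩
      · exact ⟨2, by norm_num, h⟩
      · exact ⟨3, by norm_num, h⟩
      · exact ⟨4, by norm_num, h⟩
    obtain ⟨a, ha, ha'⟩ := hp'
    obtain ⟨b, hb, hb'⟩ := hq'
    exact ⟨a, b, ha, hb, ha', hb'⟩
  · right
    have hp' : ∃ a, a < 5 ∧ q = i + a * M := by
      rcases (by omega : q = i + 0 * M ∨ q = i + 1 * M ∨ q = i + 2 * M ∨ q = i + 3 * M ∨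
        q = i + 4 * M) with h | h | h | h | h
      · exact ⟨0, by norm_num, h⟩
      · exact ⟨1, by norm_num, h⟩
      · exact ⟨2, by norm_num, h⟩
      · exact ⟨3, by norm_num, h⟩
      · exact ⟨4, by norm_num, h⟩
    have hq' : ∃ b, b < 5 ∧ p + 1 = i + b * M := by
      rcases (by omega : p + 1 = i + 0 * M ∨ p + 1 = i + 1 * M ∨ p + 1 = i + 2 * M ∨
        p + 1 = i + 3 * M ∨ p + 1 = i + 4 * M) with h | h | h | h | h
      · exact ⟨0, by norm_num, h⟩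
      · exact ⟨1, by norm_num, h⟩
      · exact ⟨2, by norm_num, h⟩
      · exact ⟨3, by norm_num, h⟩
      · exact ⟨4, by norm_num, h⟩
    obtain ⟨a, ha, ha'⟩ := hp'
    obtain ⟨b, hb, hb'⟩ := hq'
    exact ⟨a, b, ha, hb, ha', hb'⟩

private theorem same (M i i' p a a' : ℕ) (hi : i < M) (hi' : i' < M) (h : p = i + a * M)
    (h' : p = i' + a' * M) : i = i' := by
  have e1 : p % M = i := by rw [h, Nat.add_mul_mod_self_right, Nat.mod_eq_of_lt hi]
  have e2 : p % M = i' := by rw [h', Nat.add_mul_mod_self_right, Nat.mod_eq_of_lt hi']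
  omega

private theorem differ (M i i' p q a a' b b' : ℕ) (hM : 3 ≤ M) (hi : i < M) (hi' : i' < M)
    (ha : a < 5) (ha' : a' < 5) (hb : b < 5) (hb' : b' < 5)
    (h1 : p = i + a * M) (h2 : q + 1 = i + b * M) (h3 : q = i' + a' * M)
    (h4 : p + 1 = i' + b' * M) : False := by
  interval_cases a <;> interval_cases b' <;> (first | omega | skip) <;>
  interval_cases a' <;> interval_cases b <;> omega

/-- ROW F20-F2b.  PROOF.  As in `opp_cell`: `cdist = 2M - |r - r'| ≤ M + 1` gives `{r, r'} = {0, M - 1}`, so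
`p ≡ i`, `q ≡ i - 1` or `q ≡ i`, `p ≡ i - 1` modulo `M`; the same for `i'`.  Mixed cases give `2 ≡ 0` modulo `M`. -/
theorem opp_unique (M i i' p q : ℕ) (hM : 3 ≤ M) (hi : i < M) (hi' : i' < M) (hp : p < 4 * M)
    (hq : q < 4 * M) (h : Qf M i p = (Qf M i q + 2) % 4) (h' : Qf M i' p = (Qf M i' q + 2) % 4)
    (hc : cdist M p q ≤ M + 1) : i = i' := by
  rcases opp_res M i p q hM hi hp hq h hc with ⟨a, b, ha, hb, h1, h2⟩ | ⟨a, b, ha, hb, h1, h2⟩ <;>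
  rcases opp_res M i' p q hM hi' hp hq h' hc with
    ⟨a', b', ha', hb', h3, h4⟩ | ⟨a', b', ha', hb', h3, h4⟩
  · exact same M i i' p a a' hi hi' h1 h3
  · exact (differ M i i' p q a a' b b' hM hi hi' ha ha' hb hb' h1 h2 h3 h4).elim
  · exact (differ M i' i p q a' a b' b hM hi' hi ha' ha hb' hb h3 h4 h1 h2).elim
  · exact same M i i' q a a' hi hi' h1 h3

end Pool.Agent.MP_0af329_co.JP
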