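import Pool.Agent.MP_0af329_co.JPF2a
import Pool.Agent.MP_0af329_co.JPF2b
import Pool.Agent.MP_0af329_co.JPF1c

set_option autoImplicit false

namespace Pool.Agent.MP_0af329_co.JP

open Finset EuclideanGeometry Filter Topology

private theorem opp_Qf (M i : ℕ) (hM : 0 < M) (x y z : Pt) (h : Opp (qf M i) x y z) :
    Qf M i (ce M y x) = (Qf M i (ce M y z) + 2) % 4 := by
  have h1 := Qf_lt M i (ce M y x) hM
  have h2 := congrArg Fin.val h
  unfold qf at h2
  rw [Fin.val_add] at h2
  simp only [Fin.ofNat_eq_cast, Fin.val_natCast] at h2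
  have h3 : ((2 : Fin 4) : ℕ) = 2 := rfl
  rw [h3] at h2
  omega

/-- ROW F20-F2c.  PROOF.  By `cdist_angle` a triple with `¬ a < ∠` has `cdist ≤ M + 1`, so by `opp_unique` it is lost
in at most one frame `i < M`; there are at most `n³` triples.  (`qf M i y x = qf M i y z + 2` in `Fin 4` is
`Qf M i p = (Qf M i q + 2) % 4` by `Qf_lt`.) -/
theorem sum_lost_le (S : Finset Pt) (a : ℝ) (M : ℕ) (hM : 3 ≤ M)
    (ha : a ≤ Real.pi / 2 + Real.pi / (2 * M)) :
    ∑ i ∈ range M, (Lc S a M i : ℝ) ≤ (S.card : ℝ) ^ 3 := by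
  classical
  have h1 : ∑ i ∈ range M, Lc S a M i ≤ (trip S).card := by
    unfold Lc tc
    simp_rw [Finset.card_filter]
    rw [Finset.sum_comm]
    rw [Finset.card_eq_sum_ones]
    refine Finset.sum_le_sum fun t ht => ?_
    obtain ⟨x, y, z⟩ := t
    rw [mem_trip] at ht
    rw [← Finset.card_filter, Finset.card_le_one]
    intro i hi i' hi'
    rw [Finset.mem_filter, Finset.mem_range] at hi hi'
    simp only at hi hi'
    have hc : ¬ M + 2 ≤ cdist M (ce M y x) (ce M y z) := by
      intro hc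
      exact hi.2.2 (lt_of_le_of_lt ha
        (cdist_angle M (by omega) x y z ht.2.1 (Ne.symm ht.2.2.1) hc))
    exact opp_unique M i i' (ce M y x) (ce M y z) hM hi.1 hi'.1 (ce_lt M (by omega) y x)
      (ce_lt M (by omega) y z) (opp_Qf M i (by omega) x y z hi.2.1)
      (opp_Qf M i' (by omega) x y z hi'.2.1) (by omega)
  have h2 : ((trip S).card : ℝ) ≤ (S.card : ℝ) ^ 3 := by
    have h3 : (trip S).card ≤ (S ×ˢ S ×ˢ S).card := by
      unfold trip
      exact Finset.card_filter_le _ _
    rw [Finset.card_product, Finset.card_product] at h3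
    have h4 : ((trip S).card : ℝ) ≤ ((S.card * (S.card * S.card) : ℕ) : ℝ) := by exact_mod_cast h3
    refine h4.trans (le_of_eq ?_)
    push_cast
    ring
  refine le_trans ?_ h2
  exact_mod_cast h1

end Pool.Agent.MP_0af329_co.JP
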