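import Pool.Agent.MP_0af329_co.JPF2a

set_option autoImplicit false

namespace Pool.Agent.MP_0af329_co.JP

open Finset EuclideanGeometry Filter Topology

private theorem md4' (M x : ℕ) (hx : x < 8 * M) :
    (x < 4 * M ∧ x % (4 * M) = x) ∨ (4 * M ≤ x ∧ x % (4 * M) = x - 4 * M) := by
  rcases Nat.lt_or_ge x (4 * M) with h | h
  · exact Or.inl ⟨h, Nat.mod_eq_of_lt h⟩
  · refine Or.inr ⟨h, ?_⟩
    rw [Nat.mod_eq_sub_mod h, Nat.mod_eq_of_lt (by omega)]

private theorem dv4' (M x : ℕ) (hM : 0 < M) (hx : x < 4 * M) :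
    x % M < M ∧ (x / M = 0 ∧ x = x % M ∨ x / M = 1 ∧ x = M + x % M ∨
      x / M = 2 ∧ x = 2 * M + x % M ∨ x / M = 3 ∧ x = 3 * M + x % M) := by
  refine ⟨Nat.mod_lt _ hM, ?_⟩
  have h1 : M * (x / M) + x % M = x := Nat.div_add_mod x M
  have h2 : x / M < 4 := Nat.div_lt_of_lt_mul (by linarith [Nat.mul_comm M 4])
  generalize x / M = A at h1 h2 ⊢
  generalize x % M = r at h1 ⊢
  interval_cases A <;> omega

private theorem Qf_shift (M i i' c : ℕ) (hM : 0 < M) (h : i < i') (h' : i' < M) (hc : c < 4 * M) :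
    (inI M i i' c → Qf M i c = (Qf M i' c + 1) % 4) ∧ (¬ inI M i i' c → Qf M i c = Qf M i' c) := by
  have hr : (c + 4 * M - i) % M = (c + 4 * M - i) % (4 * M) % M :=
    (Nat.mod_mod_of_dvd _ (Dvd.intro_left 4 rfl)).symm
  unfold inI Qf
  rw [hr]
  have hP : (c + 4 * M - i) % (4 * M) < 4 * M := Nat.mod_lt _ (by omega)
  have hQ : (c + 4 * M - i') % (4 * M) < 4 * M := Nat.mod_lt _ (by omega)
  have e1 := md4' M (c + 4 * M - i) (by omega)
  have e2 := md4' M (c + 4 * M - i') (by omega)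
  generalize (c + 4 * M - i) % (4 * M) = P at *
  generalize (c + 4 * M - i') % (4 * M) = Q at *
  obtain ⟨hr1, h1⟩ := dv4' M P hM hP
  obtain ⟨hs1, h2⟩ := dv4' M Q hM hQ
  generalize P / M = A at h1 ⊢
  generalize Q / M = B at h2 ⊢
  generalize P % M = r at h1 hr1 ⊢
  generalize Q % M = s at h2 hs1
  rcases h1 with ⟨rfl, h1⟩ | ⟨rfl, h1⟩ | ⟨rfl, h1⟩ | ⟨rfl, h1⟩ <;>
  rcases h2 with ⟨rfl, h2⟩ | ⟨rfl, h2⟩ | ⟨rfl, h2⟩ | ⟨rfl, h2⟩ <;> simp <;> omega

/-- ROW F20-F3a.  PROOF.  Let `c = ce M y z`, `s = (c + 4M - i) % (4M) = j M + r`, `r < M`, so `Qf M i c = j` and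
`(c + 4M - i) % M = r`.  `(c + 4M - i') % (4M) = (s + 4M - (i' - i)) % (4M)`: if `r ≥ i' - i` this is
`j M + (r - (i' - i))`, class `j`; if `r < i' - i` it is in the class `j - 1` modulo `4`. -/
theorem qf_shift (M i i' : ℕ) (hM : 0 < M) (h : i < i') (h' : i' < M) (y z : Pt) :
    (inI M i i' (ce M y z) → qf M i y z = qf M i' y z + 1) ∧
    (¬ inI M i i' (ce M y z) → qf M i y z = qf M i' y z) := by
  obtain ⟨h1, h2⟩ := Qf_shift M i i' (ce M y z) hM h h' (ce_lt M hM y z)
  constructor
  · intro h3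
    have h4 := h1 h3
    have h5 := Qf_lt M i' (ce M y z) hM
    unfold qf
    rw [h4]
    generalize Qf M i' (ce M y z) = B at h5 ⊢
    interval_cases B <;> rfl
  · intro h3
    unfold qf
    rw [h2 h3]

/-- ROW F20-F3a. -/
theorem An_eq (M i i' : ℕ) (hM : 0 < M) (h : i < i') (h' : i' < M) (S : Finset Pt) (y : Pt)
    (j : Fin 4) :
    An S (qf M i) y j = xu S M i i' y true j + xu S M i i' y false j ∧
    An S (qf M i') y j = xu S M i i' y false j + xu S M i i' y true (j + 1) := by
  classical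
  unfold An xu
  constructor
  · rw [← Finset.card_union_of_disjoint]
    · congr 1
      ext z
      simp only [Finset.mem_union, Finset.mem_filter]
      by_cases hz : inI M i i' (ce M y z) <;> simp [hz]
    · rw [Finset.disjoint_left]
      intro z hz hz'
      simp only [Finset.mem_filter] at hz hz'
      have h3 := hz.2.2.2
      have h4 := hz'.2.2.2
      simp at h3 h4
      exact h4 h3
  · rw [← Finset.card_union_of_disjoint]
    · congr 1
      ext z
      simp only [Finset.mem_union, Finset.mem_filter]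
      obtain ⟨h1, h2⟩ := qf_shift M i i' hM h h' y z
      by_cases hz : inI M i i' (ce M y z)
      · have h3 := h1 hz
        simp only [hz, h3]
        simp
      · have h3 := h2 hz
        simp only [hz, h3]
        simp
    · rw [Finset.disjoint_left]
      intro z hz hz'
      simp only [Finset.mem_filter] at hz hz'
      have h3 := hz.2.2.2
      have h4 := hz'.2.2.2
      simp at h3 h4
      exact h3 h4

private theorem fib {α : Type} (S : Finset α) (f : α → Fin 4) (P Q : α → Prop) [DecidablePred P]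
    [DecidablePred Q] (R : Fin 4 → α → Prop) [∀ j, DecidablePred (R j)]
    (hR : ∀ j z, R j z ↔ P z ∧ f z = j ∧ Q z) :
    ∑ j, (S.filter (R j)).card = (S.filter fun z => P z ∧ Q z).card := by
  classical
  rw [Finset.card_eq_sum_card_fiberwise (f := f) (t := Finset.univ) (fun _ _ => Finset.mem_coe.2 (Finset.mem_univ _))]
  refine Finset.sum_congr rfl fun j _ => ?_
  congr 1
  ext z
  simp only [Finset.mem_filter, hR]
  tauto

/-- ROW F20-F3a. -/
theorem Mn_eq (M i i' : ℕ) (S : Finset Pt) (y : Pt) (hy : y ∈ S) :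
    Mn S M i i' y = ∑ j, xu S M i i' y true j ∧
    (S.card : ℝ) - 1 - Mn S M i i' y = ∑ j, (xu S M i i' y false j : ℝ) := by
  classical
  have e1 : Mn S M i i' y = ∑ j, xu S M i i' y true j := by
    unfold Mn xu
    rw [fib S (qf M i y) (fun z => z ≠ y) (fun z => inI M i i' (ce M y z)) _
      (fun j z => by simp)]
  have e2 : ∑ j, xu S M i i' y false j =
      (S.filter fun z => z ≠ y ∧ ¬ inI M i i' (ce M y z)).card := by
    unfold xu
    rw [fib S (qf M i y) (fun z => z ≠ y) (fun z => ¬ inI M i i' (ce M y z)) _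
      (fun j z => by simp)]
  refine ⟨e1, ?_⟩
  have e3 : Mn S M i i' y + ∑ j, xu S M i i' y false j = (S.erase y).card := by
    rw [e2]
    unfold Mn
    rw [← Finset.card_union_of_disjoint]
    · congr 1
      ext z
      simp only [Finset.mem_union, Finset.mem_filter, Finset.mem_erase]
      tauto
    · rw [Finset.disjoint_left]
      intro z hz hz'
      simp only [Finset.mem_filter] at hz hz'
      exact hz'.2.2 hz.2.2
  rw [Finset.card_erase_of_mem hy] at e3
  have h1 : 1 ≤ S.card := Finset.card_pos.2 ⟨y, hy⟩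
  have e4 : (Mn S M i i' y : ℝ) + ∑ j, (xu S M i i' y false j : ℝ) = (S.card : ℝ) - 1 := by
    have e5 := congrArg (Nat.cast : ℕ → ℝ) e3
    rw [Nat.cast_add, Nat.cast_sum, Nat.cast_sub h1] at e5
    simpa using e5
  linarith

end Pool.Agent.MP_0af329_co.JP
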