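import Pool.Agent.MP_0af329_co.JPDefs

set_option autoImplicit false

namespace Pool.Agent.MP_0af329_co.JP

open Finset EuclideanGeometry Filter Topology

private theorem f3b_sum (x u : Fin 4 → ℝ) : ∑ j, x j * (u (j + 1) + u (j + 2)) =
    x 0 * (u 1 + u 2) + x 1 * (u 2 + u 3) + x 2 * (u 3 + u 0) + x 3 * (u 0 + u 1) := by
  rw [Fin.sum_univ_four]
  rfl

/-- ROW F20-F3b.  PROOF.  The right side is `x0 (u1 + u2) + x2 (u3 + u0) + x1 (u2 + u3) + x3 (u0 + u1)
≥ (x0 + x2) min (u1 + u2) (u3 + u0) + (x1 + x3) min (u2 + u3) (u0 + u1) ≥ m (min (u1 + u2) (u3 + u0) +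
min (u2 + u3) (u0 + u1))`, and each of the four sums `(u1 + u2) + (u2 + u3)`, ... is at least `u1 + u3` or
`u0 + u2`. -/
theorem eight (x u : Fin 4 → ℝ) (hx : ∀ j, 0 ≤ x j) (hu : ∀ j, 0 ≤ u j) :
    min (x 0 + x 2) (x 1 + x 3) * min (u 0 + u 2) (u 1 + u 3) ≤
      ∑ j, x j * (u (j + 1) + u (j + 2)) := by
  rw [f3b_sum]
  have hx0 := hx 0
  have hx1 := hx 1
  have hx2 := hx 2
  have hx3 := hx 3
  have hu0 := hu 0
  have hu1 := hu 1
  have hu2 := hu 2
  have hu3 := hu 3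
  generalize x 0 = x0 at *
  generalize x 1 = x1 at *
  generalize x 2 = x2 at *
  generalize x 3 = x3 at *
  generalize u 0 = u0 at *
  generalize u 1 = u1 at *
  generalize u 2 = u2 at *
  generalize u 3 = u3 at *
  have hm1 : min (x0 + x2) (x1 + x3) ≤ x0 + x2 := min_le_left _ _
  have hm2 : min (x0 + x2) (x1 + x3) ≤ x1 + x3 := min_le_right _ _
  have hm0 : 0 ≤ min (x0 + x2) (x1 + x3) := le_min (by linarith) (by linarith)
  have hn1 : min (u0 + u2) (u1 + u3) ≤ u0 + u2 := min_le_left _ _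
  have hn2 : min (u0 + u2) (u1 + u3) ≤ u1 + u3 := min_le_right _ _
  have hp1 : min (u1 + u2) (u3 + u0) ≤ u1 + u2 := min_le_left _ _
  have hp2 : min (u1 + u2) (u3 + u0) ≤ u3 + u0 := min_le_right _ _
  have hp0 : 0 ≤ min (u1 + u2) (u3 + u0) := le_min (by linarith) (by linarith)
  have hq1 : min (u2 + u3) (u0 + u1) ≤ u2 + u3 := min_le_left _ _
  have hq2 : min (u2 + u3) (u0 + u1) ≤ u0 + u1 := min_le_right _ _
  have hq0 : 0 ≤ min (u2 + u3) (u0 + u1) := le_min (by linarith) (by linarith)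
  have hpq : min (u0 + u2) (u1 + u3) ≤ min (u1 + u2) (u3 + u0) + min (u2 + u3) (u0 + u1) := by
    rcases min_choice (u1 + u2) (u3 + u0) with h1 | h1 <;>
      rcases min_choice (u2 + u3) (u0 + u1) with h2 | h2 <;> rw [h1, h2] <;> linarith
  generalize min (x0 + x2) (x1 + x3) = m at *
  generalize min (u0 + u2) (u1 + u3) = n at *
  generalize min (u1 + u2) (u3 + u0) = p at *
  generalize min (u2 + u3) (u0 + u1) = q at *
  have e1 : x0 * p ≤ x0 * (u1 + u2) := mul_le_mul_of_nonneg_left hp1 hx0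
  have e2 : x2 * p ≤ x2 * (u3 + u0) := mul_le_mul_of_nonneg_left hp2 hx2
  have e3 : x1 * q ≤ x1 * (u2 + u3) := mul_le_mul_of_nonneg_left hq1 hx1
  have e4 : x3 * q ≤ x3 * (u0 + u1) := mul_le_mul_of_nonneg_left hq2 hx3
  have e5 : m * p ≤ (x0 + x2) * p := mul_le_mul_of_nonneg_right hm1 hp0
  have e6 : m * q ≤ (x1 + x3) * q := mul_le_mul_of_nonneg_right hm2 hq0
  have e7 : m * n ≤ m * (p + q) := mul_le_mul_of_nonneg_left hpq hm0
  nlinarith

/-- ROW F20-F3b.  PROOF.  `2 min (x0 + x2) (x1 + x3) = X - |x0 + x2 - x1 - x3|`, `X = ∑ x`, and the same for `u`;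
`D - D' = 2 (x0 + x2 - x1 - x3)`, `D + D' = 2 (u0 + u2 - u1 - u3)`; so `4 min min ≥ X U - X |D + D'|/2 - U |D - D'|/2
≥ X U - (X + U) (|D| + |D'|)/2`. -/
theorem eight' (x u : Fin 4 → ℝ) (hx : ∀ j, 0 ≤ x j) (hu : ∀ j, 0 ≤ u j) (D D' : ℝ)
    (hD : D = (x 0 + u 0) + (x 2 + u 2) - (x 1 + u 1) - (x 3 + u 3))
    (hD' : D' = (u 0 + x 1) + (u 2 + x 3) - (u 1 + x 2) - (u 3 + x 0)) :
    (∑ j, x j) * (∑ j, u j) ≤ 4 * ∑ j, x j * (u (j + 1) + u (j + 2)) +
      ((∑ j, x j) + ∑ j, u j) * ((|D| + |D'|) / 2) := by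
  have h8 := eight x u hx hu
  rw [Fin.sum_univ_four (f := x), Fin.sum_univ_four (f := u)]
  have hx0 := hx 0
  have hx1 := hx 1
  have hx2 := hx 2
  have hx3 := hx 3
  have hu0 := hu 0
  have hu1 := hu 1
  have hu2 := hu 2
  have hu3 := hu 3
  generalize ∑ j, x j * (u (j + 1) + u (j + 2)) = R at *
  generalize x 0 = x0 at *
  generalize x 1 = x1 at *
  generalize x 2 = x2 at *
  generalize x 3 = x3 at *
  generalize u 0 = u0 at *
  generalize u 1 = u1 at *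
  generalize u 2 = u2 at *
  generalize u 3 = u3 at *
  have m1 : 2 * min (x0 + x2) (x1 + x3) = (x0 + x1 + x2 + x3) - |x0 + x2 - x1 - x3| := by
    rcases le_total (x0 + x2) (x1 + x3) with h | h
    · rw [min_eq_left h, abs_of_nonpos (by linarith)]
      ring
    · rw [min_eq_right h, abs_of_nonneg (by linarith)]
      ring
  have m2 : 2 * min (u0 + u2) (u1 + u3) = (u0 + u1 + u2 + u3) - |u0 + u2 - u1 - u3| := by
    rcases le_total (u0 + u2) (u1 + u3) with h | h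
    · rw [min_eq_left h, abs_of_nonpos (by linarith)]
      ring
    · rw [min_eq_right h, abs_of_nonneg (by linarith)]
      ring
  have a1 : |x0 + x2 - x1 - x3| ≤ (|D| + |D'|) / 2 := by
    have e : x0 + x2 - x1 - x3 = (D - D') / 2 := by rw [hD, hD']; ring
    rw [e, abs_div, abs_two]
    have := abs_sub D D'
    linarith
  have a2 : |u0 + u2 - u1 - u3| ≤ (|D| + |D'|) / 2 := by
    have e : u0 + u2 - u1 - u3 = (D + D') / 2 := by rw [hD, hD']; ring
    rw [e, abs_div, abs_two]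
    have := abs_add_le D D'
    linarith
  have e1 : 4 * (min (x0 + x2) (x1 + x3) * min (u0 + u2) (u1 + u3)) =
      ((x0 + x1 + x2 + x3) - |x0 + x2 - x1 - x3|) * ((u0 + u1 + u2 + u3) - |u0 + u2 - u1 - u3|) := by
    rw [← m1, ← m2]
    ring
  have hX : 0 ≤ x0 + x1 + x2 + x3 := by linarith
  have hU : 0 ≤ u0 + u1 + u2 + u3 := by linarith
  have b1 := mul_le_mul_of_nonneg_left a2 hX
  have b2 := mul_le_mul_of_nonneg_left a1 hU
  have b3 := mul_nonneg (abs_nonneg (x0 + x2 - x1 - x3)) (abs_nonneg (u0 + u2 - u1 - u3))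
  nlinarith

end Pool.Agent.MP_0af329_co.JP
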