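import Pool.Agent.MP_0af329_co.JPF3a

set_option autoImplicit false

namespace Pool.Agent.MP_0af329_co.JP

open Finset EuclideanGeometry Filter Topology

/-- `tc` as a sum of indicators -/
private theorem f3c_tc (S : Finset Pt) (P : Pt → Pt → Pt → Prop) [∀ x y z, Decidable (P x y z)] :
    (tc S P : ℝ) = ∑ t ∈ trip S, if P t.1 t.2.1 t.2.2 then (1 : ℝ) else 0 := by
  classical
  rw [tc, Finset.card_filter]
  push_cast
  refine Finset.sum_congr rfl fun t _ => ?_
  congr

/-- `xu` as a sum of indicators -/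
private theorem f3c_xu (S : Finset Pt) (M i i' : ℕ) (y : Pt) (b : Bool) (j : Fin 4)
    [DecidableEq Pt] :
    (xu S M i i' y b j : ℝ) = ∑ z ∈ S.erase y,
      if qf M i y z = j ∧ (inI M i i' (ce M y z) ↔ b = true) then (1 : ℝ) else 0 := by
  classical
  rw [Finset.sum_ite, Finset.sum_const_zero, add_zero, Finset.sum_const, nsmul_eq_mul, mul_one,
    xu]
  congr 2
  ext z
  simp only [Finset.mem_filter, Finset.mem_erase]
  tauto

/-- the indicator of the forbidden triples -/
private noncomputable def f3c_F (M i i' : ℕ) (x y z : Pt) : ℝ :=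
  if inI M i i' (ce M y x) ∧ ¬ inI M i i' (ce M y z) ∧
    (qf M i y z = qf M i y x + 1 ∨ qf M i y z = qf M i y x + 2) then 1 else 0

private theorem f3c_point (M i i' : ℕ) (x y z : Pt) :
    ∑ j : Fin 4, (if qf M i y x = j ∧ (inI M i i' (ce M y x) ↔ true = true) then (1 : ℝ) else 0) *
      ((if qf M i y z = j + 1 ∧ (inI M i i' (ce M y z) ↔ false = true) then (1 : ℝ) else 0) +
        (if qf M i y z = j + 2 ∧ (inI M i i' (ce M y z) ↔ false = true) then (1 : ℝ) else 0)) =
      f3c_F M i i' x y z := by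
  unfold f3c_F
  rw [Finset.sum_eq_single (qf M i y x)]
  · by_cases h1 : inI M i i' (ce M y x)
    · by_cases h2 : inI M i i' (ce M y z)
      · simp [h1, h2]
      · by_cases h3 : qf M i y z = qf M i y x + 1
        · simp [h1, h2, h3]
        · simp [h1, h2, h3]
    · simp [h1]
  · intro j _ hj
    rw [if_neg (fun h => hj h.1.symm), zero_mul]
  · intro h
    exact absurd (Finset.mem_univ _) h

private theorem f3c_left (S : Finset Pt) (M i i' : ℕ) :
    ∑ y ∈ S, ∑ j, (xu S M i i' y true j : ℝ) *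
      (xu S M i i' y false (j + 1) + xu S M i i' y false (j + 2)) =
      ∑ t ∈ trip S, f3c_F M i i' t.1 t.2.1 t.2.2 := by
  classical
  rw [sum_trip_eq]
  refine Finset.sum_congr rfl fun y _ => ?_
  have h1 : ∑ x ∈ S.erase y, ∑ z ∈ (S.erase y).erase x, f3c_F M i i' x y z =
      ∑ x ∈ S.erase y, ∑ z ∈ S.erase y, f3c_F M i i' x y z := by
    refine Finset.sum_congr rfl fun x hx => ?_
    rw [← Finset.add_sum_erase (S.erase y) _ hx]
    have h2 : f3c_F M i i' x y x = 0 := by
      unfold f3c_F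
      rw [if_neg]
      rintro ⟨h3, h4, _⟩
      exact h4 h3
    rw [h2, zero_add]
  rw [h1]
  have h2 : ∀ j : Fin 4, (xu S M i i' y true j : ℝ) *
      (xu S M i i' y false (j + 1) + xu S M i i' y false (j + 2)) =
      ∑ x ∈ S.erase y, ∑ z ∈ S.erase y,
        (if qf M i y x = j ∧ (inI M i i' (ce M y x) ↔ true = true) then (1 : ℝ) else 0) *
      ((if qf M i y z = j + 1 ∧ (inI M i i' (ce M y z) ↔ false = true) then (1 : ℝ) else 0) +
        (if qf M i y z = j + 2 ∧ (inI M i i' (ce M y z) ↔ false = true) then (1 : ℝ) else 0)) := by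
    intro j
    rw [f3c_xu, f3c_xu, f3c_xu, ← Finset.sum_add_distrib, Finset.sum_mul_sum]
  rw [Finset.sum_congr rfl fun j _ => h2 j, Finset.sum_comm]
  refine Finset.sum_congr rfl fun x _ => ?_
  rw [Finset.sum_comm]
  refine Finset.sum_congr rfl fun z _ => ?_
  exact f3c_point M i i' x y z

private theorem f3c_one {A B C : Prop} [Decidable A] [Decidable B] [Decidable C]
    (h : (A ∧ ¬ B) ∨ (¬ A ∧ B)) :
    (1 : ℝ) ≤ (if ¬ A ∧ C then (1 : ℝ) else 0) + (if ¬ B ∧ C then (1 : ℝ) else 0) +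
      (if A ∧ ¬ C then (1 : ℝ) else 0) + (if B ∧ ¬ C then (1 : ℝ) else 0) := by
  rcases h with ⟨h1, h2⟩ | ⟨h1, h2⟩ <;> by_cases h3 : C <;> simp [h1, h2, h3]

private theorem f3c_opp (M i i' : ℕ) (hM : 0 < M) (h : i < i') (h' : i' < M) (x y z : Pt)
    (hx : inI M i i' (ce M y x)) (hz : ¬ inI M i i' (ce M y z))
    (hq : qf M i y z = qf M i y x + 1 ∨ qf M i y z = qf M i y x + 2) :
    ((Opp (qf M i) x y z ∧ ¬ Opp (qf M i') x y z) ∨ (¬ Opp (qf M i) x y z ∧ Opp (qf M i') x y z)) ∧
    ((Opp (qf M i) z y x ∧ ¬ Opp (qf M i') z y x) ∨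
      (¬ Opp (qf M i) z y x ∧ Opp (qf M i') z y x)) := by
  have h1 := (qf_shift M i i' hM h h' y x).1 hx
  have h2 := (qf_shift M i i' hM h h' y z).2 hz
  unfold Opp
  rw [h2] at hq ⊢
  rw [h1] at hq ⊢
  generalize qf M i' y x = p at hq
  generalize qf M i' y z = r at hq
  revert p r
  decide

/-- ROW F20-F3c.  PROOF.  Fix `y`.  For `x` in the class `j` and in the arc, `z` in the class `j + 1` and not in the
arc: in the frame `i` the classes are `j, j + 1` (not opposite), in the frame `i'` they are `j - 1, j + 1` (opposite),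
by `qf_shift`.  So if `a < ∠ x y z` the triples `(x, y, z)`, `(z, y, x)` are counted in `Xc i`, otherwise in `Lc i'`.
For `z` in the class `j + 2`, not in the arc: opposite in the frame `i`, not opposite in the frame `i'`
(classes `j - 1, j + 2`): counted in `Xc i'` if `a < ∠ x y z`, otherwise in `Lc i`. -/
theorem forb_le (S : Finset Pt) (a : ℝ) (M i i' : ℕ) (hM : 0 < M) (h : i < i') (h' : i' < M) :
    2 * ∑ y ∈ S, ∑ j, (xu S M i i' y true j : ℝ) *
      (xu S M i i' y false (j + 1) + xu S M i i' y false (j + 2)) ≤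
      (Xc S a M i : ℝ) + Xc S a M i' + Lc S a M i + Lc S a M i' := by
  classical
  rw [f3c_left, Xc, Xc, Lc, Lc, f3c_tc, f3c_tc, f3c_tc, f3c_tc, two_mul]
  nth_rewrite 2 [sum_trip_swap S (fun x y z => f3c_F M i i' x y z)]
  rw [← Finset.sum_add_distrib, ← Finset.sum_add_distrib, ← Finset.sum_add_distrib,
    ← Finset.sum_add_distrib]
  refine Finset.sum_le_sum fun t _ => ?_
  obtain ⟨x, y, z⟩ := t
  show f3c_F M i i' x y z + f3c_F M i i' z y x ≤ _
  by_cases hx : inI M i i' (ce M y x) ∧ ¬ inI M i i' (ce M y z) ∧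
      (qf M i y z = qf M i y x + 1 ∨ qf M i y z = qf M i y x + 2)
  · have h1 : f3c_F M i i' x y z = 1 := by
      unfold f3c_F
      rw [if_pos hx]
    have h2 : f3c_F M i i' z y x = 0 := by
      unfold f3c_F
      rw [if_neg]
      rintro ⟨h3, _⟩
      exact hx.2.1 h3
    rw [h1, h2, add_zero]
    exact f3c_one (f3c_opp M i i' hM h h' x y z hx.1 hx.2.1 hx.2.2).1
  · have h1 : f3c_F M i i' x y z = 0 := by
      unfold f3c_F
      rw [if_neg hx]
    rw [h1, zero_add]
    by_cases hz : inI M i i' (ce M y z) ∧ ¬ inI M i i' (ce M y x) ∧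
        (qf M i y x = qf M i y z + 1 ∨ qf M i y x = qf M i y z + 2)
    · have h2 : f3c_F M i i' z y x = 1 := by
        unfold f3c_F
        rw [if_pos hz]
      rw [h2]
      exact f3c_one (f3c_opp M i i' hM h h' z y x hz.1 hz.2.1 hz.2.2).2
    · have h2 : f3c_F M i i' z y x = 0 := by
        unfold f3c_F
        rw [if_neg hz]
      rw [h2]
      positivity

end Pool.Agent.MP_0af329_co.JP
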