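import Pool.Agent.MP_0af329_co.JPF3b
import Pool.Agent.MP_0af329_co.JPF3c
import Pool.Agent.MP_0af329_co.JPA3

set_option autoImplicit false

namespace Pool.Agent.MP_0af329_co.JP

open Finset EuclideanGeometry Filter Topology

/-- ROW F20-F3d.  PROOF.  `goodman_cnt` with `q = qf M i` (`qf_anti`). -/
theorem sumD_le (S : Finset Pt) (a : ℝ) (M i : ℕ) (hM : 0 < M) (hi : i < M) (θ τ : ℝ)
    (hL : (Lc S a M i : ℝ) ≤ θ * (S.card : ℝ) ^ 3)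
    (hc : (cnt S (Set.Ioi a) : ℝ) ≤
      (S.card : ℝ) * (S.card - 1) * (S.card - 5) / 12 + τ * (S.card : ℝ) ^ 3) :
    ∑ y ∈ S, Dn S (qf M i) y ^ 2 ≤ 4 * (θ + τ) * (S.card : ℝ) ^ 3 ∧
      (Xc S a M i : ℝ) ≤ (θ + τ) * (S.card : ℝ) ^ 3 := by
  have h := goodman_cnt S a (qf M i) (qf_anti M i hM hi.le S)
  have hX : (tc S (fun x y z => ¬ Opp (qf M i) x y z ∧ a < ∠ x y z) : ℝ) = (Xc S a M i : ℝ) := rfl
  have hLe : (tc S (fun x y z => Opp (qf M i) x y z ∧ ¬ a < ∠ x y z) : ℝ) = (Lc S a M i : ℝ) := rfl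
  rw [hX, hLe] at h
  have h0 : 0 ≤ ∑ y ∈ S, Dn S (qf M i) y ^ 2 := Finset.sum_nonneg fun y _ => sq_nonneg _
  have h1 : (0 : ℝ) ≤ (Xc S a M i : ℝ) := Nat.cast_nonneg _
  have h2 : 1 / 4 * ∑ y ∈ S, Dn S (qf M i) y ^ 2 + (Xc S a M i : ℝ) ≤
      (θ + τ) * (S.card : ℝ) ^ 3 := by
    have h3 : (θ + τ) * (S.card : ℝ) ^ 3 = θ * (S.card : ℝ) ^ 3 + τ * (S.card : ℝ) ^ 3 := by ring
    rw [h3]
    linarith
  constructor
  · linarith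
  · linarith

/-- Cauchy-Schwarz: `∑ |D_y| ≤ 2 √(θ + τ) n²` -/
theorem f3d_abs (S : Finset Pt) (D : Pt → ℝ) (κ : ℝ) (hκ : 0 ≤ κ)
    (h : ∑ y ∈ S, D y ^ 2 ≤ 4 * κ * (S.card : ℝ) ^ 3) :
    ∑ y ∈ S, |D y| ≤ 2 * Real.sqrt κ * (S.card : ℝ) ^ 2 := by
  have h1 : (∑ y ∈ S, |D y|) ^ 2 ≤ (S.card : ℝ) * ∑ y ∈ S, |D y| ^ 2 := sq_sum_le_card_mul_sum_sq
  have h2 : ∑ y ∈ S, |D y| ^ 2 = ∑ y ∈ S, D y ^ 2 := Finset.sum_congr rfl fun y _ => sq_abs _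
  rw [h2] at h1
  have h3 : (∑ y ∈ S, |D y|) ^ 2 ≤ (2 * Real.sqrt κ * (S.card : ℝ) ^ 2) ^ 2 := by
    have h4 : (S.card : ℝ) * ∑ y ∈ S, D y ^ 2 ≤ (S.card : ℝ) * (4 * κ * (S.card : ℝ) ^ 3) :=
      mul_le_mul_of_nonneg_left h (Nat.cast_nonneg _)
    have h5 : (2 * Real.sqrt κ * (S.card : ℝ) ^ 2) ^ 2 =
        (S.card : ℝ) * (4 * κ * (S.card : ℝ) ^ 3) := by
      have h6 := Real.sq_sqrt hκ
      calc (2 * Real.sqrt κ * (S.card : ℝ) ^ 2) ^ 2 = 4 * (Real.sqrt κ ^ 2) * (S.card : ℝ) ^ 4 := by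
            ring
        _ = _ := by rw [h6]; ring
    rw [h5]
    exact h1.trans h4
  have h7 : 0 ≤ ∑ y ∈ S, |D y| := Finset.sum_nonneg fun y _ => abs_nonneg _
  have h8 : 0 ≤ 2 * Real.sqrt κ * (S.card : ℝ) ^ 2 := by positivity
  exact (pow_le_pow_iff_left₀ h7 h8 (by norm_num)).1 h3

/-- one point -/
theorem f3d_point (S : Finset Pt) (M i i' : ℕ) (hM : 0 < M) (h : i < i') (h' : i' < M)
    (y : Pt) (hy : y ∈ S) :
    (Mn S M i i' y : ℝ) * ((S.card : ℝ) - 1 - Mn S M i i' y) ≤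
      4 * ∑ j, (xu S M i i' y true j : ℝ) *
        (xu S M i i' y false (j + 1) + xu S M i i' y false (j + 2)) +
      (S.card : ℝ) * ((|Dn S (qf M i) y| + |Dn S (qf M i') y|) / 2) := by
  have hA := An_eq M i i' hM h h' S y
  obtain ⟨hm1, hm2⟩ := Mn_eq M i i' S y hy
  have hD : Dn S (qf M i) y = ((xu S M i i' y true 0 : ℝ) + xu S M i i' y false 0) +
      ((xu S M i i' y true 2 : ℝ) + xu S M i i' y false 2) -
      ((xu S M i i' y true 1 : ℝ) + xu S M i i' y false 1) -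
      ((xu S M i i' y true 3 : ℝ) + xu S M i i' y false 3) := by
    unfold Dn
    rw [(hA 0).1, (hA 1).1, (hA 2).1, (hA 3).1]
    push_cast
    ring
  have hD' : Dn S (qf M i') y = ((xu S M i i' y false 0 : ℝ) + xu S M i i' y true 1) +
      ((xu S M i i' y false 2 : ℝ) + xu S M i i' y true 3) -
      ((xu S M i i' y false 1 : ℝ) + xu S M i i' y true 2) -
      ((xu S M i i' y false 3 : ℝ) + xu S M i i' y true 0) := by
    unfold Dn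
    rw [(hA 0).2, (hA 1).2, (hA 2).2, (hA 3).2]
    have e1 : (0 : Fin 4) + 1 = 1 := rfl
    have e2 : (1 : Fin 4) + 1 = 2 := rfl
    have e3 : (2 : Fin 4) + 1 = 3 := rfl
    have e4 : (3 : Fin 4) + 1 = 0 := rfl
    rw [e1, e2, e3, e4]
    push_cast
    ring
  have h1 := eight' (fun j => (xu S M i i' y true j : ℝ)) (fun j => (xu S M i i' y false j : ℝ))
    (fun j => Nat.cast_nonneg _) (fun j => Nat.cast_nonneg _) _ _ hD hD'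
  have e1 : ∑ j, (xu S M i i' y true j : ℝ) = (Mn S M i i' y : ℝ) := by
    rw [hm1]
    push_cast
    rfl
  rw [e1, ← hm2] at h1
  have h2 : (Mn S M i i' y : ℝ) + ((S.card : ℝ) - 1 - Mn S M i i' y) ≤ S.card := by linarith
  have h3 : 0 ≤ (|Dn S (qf M i) y| + |Dn S (qf M i') y|) / 2 := by positivity
  have h4 := mul_le_mul_of_nonneg_right h2 h3
  linarith

/-- ROW F20-F3d.  PROOF.  For `y ∈ S` let `x j = xu true j`, `u j = xu false j`; `eight'` with `D = Dn S (qf M i) y`,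
`D' = Dn S (qf M i') y` (`An_eq`), `X = Mn`, `U = n - 1 - Mn` (`Mn_eq`).  Sum over `y`: by `forb_le` and `sumD_le` the first
sum is at most `2 (2 (θ + τ) + 2 θ) n³ = (8θ + 4τ) n³`, and by Cauchy-Schwarz
`∑ |D_y| ≤ √(n ∑ D_y²) ≤ 2 √(θ + τ) n²`. -/
theorem var_le (S : Finset Pt) (a : ℝ) (M i i' : ℕ) (hM : 0 < M) (h : i < i') (h' : i' < M)
    (θ τ : ℝ) (hθ : 0 ≤ θ) (hτ : 0 ≤ τ) (hL : (Lc S a M i : ℝ) ≤ θ * (S.card : ℝ) ^ 3)
    (hL' : (Lc S a M i' : ℝ) ≤ θ * (S.card : ℝ) ^ 3)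
    (hc : (cnt S (Set.Ioi a) : ℝ) ≤
      (S.card : ℝ) * (S.card - 1) * (S.card - 5) / 12 + τ * (S.card : ℝ) ^ 3) :
    ∑ y ∈ S, (Mn S M i i' y : ℝ) * ((S.card : ℝ) - 1 - Mn S M i i' y) ≤
      (8 * θ + 4 * τ + 2 * Real.sqrt (θ + τ)) * (S.card : ℝ) ^ 3 := by
  have hκ : 0 ≤ θ + τ := add_nonneg hθ hτ
  obtain ⟨hD1, hX1⟩ := sumD_le S a M i hM (h.trans h') θ τ hL hc
  obtain ⟨hD2, hX2⟩ := sumD_le S a M i' hM h' θ τ hL' hc
  have ha1 := f3d_abs S _ (θ + τ) hκ hD1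
  have ha2 := f3d_abs S _ (θ + τ) hκ hD2
  have hf := forb_le S a M i i' hM h h'
  have h1 : ∑ y ∈ S, (Mn S M i i' y : ℝ) * ((S.card : ℝ) - 1 - Mn S M i i' y) ≤
      ∑ y ∈ S, (4 * ∑ j, (xu S M i i' y true j : ℝ) *
        (xu S M i i' y false (j + 1) + xu S M i i' y false (j + 2)) +
      (S.card : ℝ) * ((|Dn S (qf M i) y| + |Dn S (qf M i') y|) / 2)) :=
    Finset.sum_le_sum fun y hy => f3d_point S M i i' hM h h' y hy
  refine h1.trans ?_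
  rw [Finset.sum_add_distrib, ← Finset.mul_sum, ← Finset.mul_sum, ← Finset.sum_div,
    Finset.sum_add_distrib]
  have h2 : (S.card : ℝ) * ((∑ y ∈ S, |Dn S (qf M i) y| + ∑ y ∈ S, |Dn S (qf M i') y|) / 2) ≤
      (S.card : ℝ) * ((2 * Real.sqrt (θ + τ) * (S.card : ℝ) ^ 2 +
        2 * Real.sqrt (θ + τ) * (S.card : ℝ) ^ 2) / 2) :=
    mul_le_mul_of_nonneg_left (by linarith) (Nat.cast_nonneg _)
  have h3 : (S.card : ℝ) * ((2 * Real.sqrt (θ + τ) * (S.card : ℝ) ^ 2 +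
        2 * Real.sqrt (θ + τ) * (S.card : ℝ) ^ 2) / 2) =
      2 * Real.sqrt (θ + τ) * (S.card : ℝ) ^ 3 := by ring
  rw [h3] at h2
  have h4 : (8 * θ + 4 * τ + 2 * Real.sqrt (θ + τ)) * (S.card : ℝ) ^ 3 =
      2 * ((θ + τ) * (S.card : ℝ) ^ 3 + (θ + τ) * (S.card : ℝ) ^ 3 + θ * (S.card : ℝ) ^ 3 +
        θ * (S.card : ℝ) ^ 3) + 2 * Real.sqrt (θ + τ) * (S.card : ℝ) ^ 3 := by ring
  rw [h4]
  linarith

end Pool.Agent.MP_0af329_co.JP
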