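import Pool.Agent.MP_0af329_co.JPDefs

set_option autoImplicit false

namespace Pool.Agent.MP_0af329_co.JP

open Finset EuclideanGeometry Filter Topology

theorem sum_nb (S : Finset Pt) (R : Pt → Pt → Prop) : ∑ y ∈ S, nb S R y = pc S R := by
  classical
  unfold nb pc
  rw [Finset.card_filter, Finset.sum_product]
  refine Finset.sum_congr rfl fun y _ => ?_
  rw [Finset.card_filter]
  refine Finset.sum_congr rfl fun z _ => ?_
  simp only [ne_comm]

open Classical in
/-- the number of `z` in a subset -/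
theorem f4_nb_ge' (S V : Finset Pt) (hV : V ⊆ S) (R : Pt → Pt → Prop) (y : Pt) (hy : y ∉ V) :
    (V.filter fun z => R y z).card ≤ nb S R y := by
  unfold nb
  refine Finset.card_le_card ?_
  intro z hz
  rw [Finset.mem_filter] at hz ⊢
  exact ⟨hV hz.1, fun h => hy (h ▸ hz.1), hz.2⟩

/-- the number of `z` in a subset -/
theorem f4_nb_ge (S V : Finset Pt) (hV : V ⊆ S) (R : Pt → Pt → Prop)
    [∀ y z, Decidable (R y z)] (y : Pt) (hy : y ∉ V) :
    ∑ z ∈ V, (if R y z then (1 : ℝ) else 0) ≤ nb S R y := by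
  have h1 : ∑ z ∈ V, (if R y z then (1 : ℝ) else 0) = ((V.filter fun z => R y z).card : ℝ) := by
    rw [Finset.card_filter]
    push_cast
    rfl
  rw [h1]
  have h2 := f4_nb_ge' S V hV R y hy
  have h3 : (V.filter fun z => R y z).card ≤ nb S R y := by
    refine le_trans (le_of_eq ?_) h2
    exact congrArg Finset.card (Finset.ext fun z => by simp only [Finset.mem_filter])
  exact_mod_cast h3

/-- the complement -/
theorem f4_nb_compl (S : Finset Pt) (R : Pt → Pt → Prop) (y : Pt) (hy : y ∈ S) :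
    (S.card : ℝ) - 1 - nb S R y = nb S (fun y z => ¬ R y z) y := by
  classical
  have e1 : nb S R y = ((S.erase y).filter fun z => R y z).card := by
    unfold nb
    refine congrArg Finset.card (Finset.ext fun z => ?_)
    simp only [Finset.mem_filter, Finset.mem_erase]
    tauto
  have e2 : nb S (fun y z => ¬ R y z) y = ((S.erase y).filter fun z => ¬ R y z).card := by
    unfold nb
    refine congrArg Finset.card (Finset.ext fun z => ?_)
    simp only [Finset.mem_filter, Finset.mem_erase]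
    tauto
  have h1 : nb S R y + nb S (fun y z => ¬ R y z) y = (S.erase y).card := by
    rw [e1, e2]
    exact Finset.card_filter_add_card_filter_not _
  have h2 := Finset.card_erase_add_one hy
  have h3 : (nb S R y : ℝ) + nb S (fun y z => ¬ R y z) y + 1 = S.card := by
    rw [← h2]
    push_cast
    rw [← h1]
    push_cast
    ring
  linarith

/-- double counting -/
theorem f4_double (S V0 V1 : Finset Pt) (R : Pt → Pt → Prop)
    (hR : ∀ x ∈ S, ∀ y ∈ S, x ≠ y → R x y → R y x) (h0 : V0 ⊆ S) (h1 : V1 ⊆ S)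
    (hd : Disjoint V0 V1) :
    (V1.card : ℝ) * V0.card ≤ ∑ z ∈ V0, (nb S R z : ℝ) +
      ∑ y ∈ V1, ((S.card : ℝ) - 1 - nb S R y) := by
  classical
  have a1 : ∀ z ∈ V0, ∑ y ∈ V1, (if R z y then (1 : ℝ) else 0) ≤ nb S R z := fun z hz =>
    f4_nb_ge S V1 h1 R z (Finset.disjoint_left.1 hd hz)
  have a2 : ∀ y ∈ V1, ∑ z ∈ V0, (if ¬ R y z then (1 : ℝ) else 0) ≤
      (S.card : ℝ) - 1 - nb S R y := by
    intro y hy
    rw [f4_nb_compl S R y (h1 hy)]
    exact f4_nb_ge S V0 h0 (fun y z => ¬ R y z) y (Finset.disjoint_right.1 hd hy)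
  have b1 := Finset.sum_le_sum a1
  have b2 := Finset.sum_le_sum a2
  rw [Finset.sum_comm] at b1
  have b3 : (V1.card : ℝ) * V0.card ≤ ∑ y ∈ V1, ∑ z ∈ V0, (if R z y then (1 : ℝ) else 0) +
      ∑ y ∈ V1, ∑ z ∈ V0, (if ¬ R y z then (1 : ℝ) else 0) := by
    rw [← Finset.sum_add_distrib]
    have b4 : (V1.card : ℝ) * V0.card = ∑ y ∈ V1, ∑ z ∈ V0, (1 : ℝ) := by simp
    rw [b4]
    refine Finset.sum_le_sum fun y hy => ?_
    rw [← Finset.sum_add_distrib]
    refine Finset.sum_le_sum fun z hz => ?_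
    by_cases hyz : R y z
    · have hne : y ≠ z := by
        intro h
        subst h
        exact Finset.disjoint_left.1 hd hz hy
      have := hR y (h1 hy) z (h0 hz) hne hyz
      simp [this, hyz]
    · by_cases hzy : R z y
      · simp [hzy, hyz]
      · simp [hzy, hyz]
  linarith

/-- ROW F20-F4.  PROOF.  `V₁ = {y : nb y ≥ (n-1)/2}`, `V₀` the other points.  `∑_{V₀} nb ≤ 2ζn³/(n-1)`,
`∑_{V₁} (n - 1 - nb) ≤ 2ζn³/(n-1)`.  Every pair `y ∈ V₁`, `z ∈ V₀` is either in `R` (counted in the first sum) or not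
(counted in the second sum): `|V₀||V₁| ≤ 4ζn³/(n-1) ≤ 4.01 ζn²`, so `min ≤ 8.02 ζ n`.  If `|V₁|` is the smaller one,
`∑ nb ≤ |V₁| n + 2.01 ζn² ≤ 11 ζn²`, otherwise `∑ (n - 1 - nb) ≤ 11 ζn²`.  (`∑_y nb S R y = pc S R`.) -/
theorem dichotomy (S : Finset Pt) (R : Pt → Pt → Prop)
    (hR : ∀ x ∈ S, ∀ y ∈ S, x ≠ y → R x y → R y x) (ζ : ℝ) (hζ : 0 ≤ ζ)
    (hn : 1000 ≤ S.card)
    (h : ∑ y ∈ S, (nb S R y : ℝ) * ((S.card : ℝ) - 1 - nb S R y) ≤ ζ * (S.card : ℝ) ^ 3) :
    (pc S R : ℝ) ≤ 11 * ζ * (S.card : ℝ) ^ 2 ∨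
      (S.card : ℝ) * (S.card - 1) - pc S R ≤ 11 * ζ * (S.card : ℝ) ^ 2 := by
  classical
  set n : ℝ := (S.card : ℝ) with hnd
  have hn' : (1000 : ℝ) ≤ n := by
    rw [hnd]
    exact_mod_cast hn
  set V1 := S.filter fun y => (n - 1) / 2 ≤ (nb S R y : ℝ) with hV1
  set V0 := S.filter fun y => ¬ (n - 1) / 2 ≤ (nb S R y : ℝ) with hV0
  have hs1 : V1 ⊆ S := Finset.filter_subset _ _
  have hs0 : V0 ⊆ S := Finset.filter_subset _ _
  have hd : Disjoint V0 V1 := (Finset.disjoint_filter_filter_not S S _).symm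
  have hcard : (V1.card : ℝ) + V0.card = n := by
    have := Finset.card_filter_add_card_filter_not (s := S)
      (fun y => (n - 1) / 2 ≤ (nb S R y : ℝ))
    rw [hnd]
    exact_mod_cast this
  have hsplit : ∀ f : Pt → ℝ, ∑ y ∈ S, f y = ∑ y ∈ V1, f y + ∑ y ∈ V0, f y := fun f =>
    (Finset.sum_filter_add_sum_filter_not S _ f).symm
  set A := ∑ z ∈ V0, (nb S R z : ℝ) with hA
  set B := ∑ y ∈ V1, (n - 1 - nb S R y) with hB
  have hdc : (V1.card : ℝ) * V0.card ≤ A + B := f4_double S V0 V1 R hR hs0 hs1 hd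
  have hnbc : ∀ y ∈ S, 0 ≤ n - 1 - nb S R y := by
    intro y hy
    rw [hnd, f4_nb_compl S R y hy]
    exact Nat.cast_nonneg _
  have hA0 : 0 ≤ A := Finset.sum_nonneg fun z _ => Nat.cast_nonneg _
  have hB0 : 0 ≤ B := Finset.sum_nonneg fun y hy => hnbc y (hs1 hy)
  -- the two sums are small
  have hAB : (A + B) * ((n - 1) / 2) ≤ ζ * n ^ 3 := by
    refine le_trans ?_ h
    rw [hsplit, add_mul, add_comm (A * _)]
    refine add_le_add ?_ ?_
    · rw [hB, Finset.sum_mul]
      refine Finset.sum_le_sum fun y hy => ?_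
      have h1 : (n - 1) / 2 ≤ (nb S R y : ℝ) := (Finset.mem_filter.1 hy).2
      rw [mul_comm (nb S R y : ℝ)]
      exact mul_le_mul_of_nonneg_left h1 (hnbc y (hs1 hy))
    · rw [hA, Finset.sum_mul]
      refine Finset.sum_le_sum fun y hy => ?_
      have h1 : ¬ (n - 1) / 2 ≤ (nb S R y : ℝ) := (Finset.mem_filter.1 hy).2
      push Not at h1
      exact mul_le_mul_of_nonneg_left (by linarith) (Nat.cast_nonneg _)
  have hE : A + B ≤ 201 / 100 * ζ * n ^ 2 := by
    have h1 : ζ * n ^ 3 ≤ (201 / 100 * ζ * n ^ 2) * ((n - 1) / 2) := by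
      have h2 : 0 ≤ ζ * n ^ 2 := by positivity
      have h3 : 0 ≤ ζ * n ^ 2 * (201 / 200 * (n - 1) - n) :=
        mul_nonneg h2 (by linarith)
      nlinarith
    exact le_of_mul_le_mul_right (hAB.trans h1) (by linarith)
  have hmain : ∀ p q : ℝ, 0 ≤ p → p ≤ q → p + q = n → p * q ≤ 201 / 100 * ζ * n ^ 2 →
      p * n ≤ 402 / 100 * ζ * n ^ 2 := by
    intro p q hp hpq hs hm
    have h1 : n / 2 ≤ q := by linarith
    have h2 : p * (n / 2) ≤ p * q := mul_le_mul_of_nonneg_left h1 hp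
    linarith
  have hζn : 0 ≤ ζ * n ^ 2 := by positivity
  rcases le_total (V1.card : ℝ) (V0.card : ℝ) with hle | hle
  · left
    have h1 := hmain _ _ (Nat.cast_nonneg _) hle hcard (hdc.trans hE)
    have h2 : (pc S R : ℝ) = ∑ y ∈ S, (nb S R y : ℝ) := by
      rw [← sum_nb]
      push_cast
      rfl
    rw [h2, hsplit]
    have h3 : ∑ y ∈ V1, (nb S R y : ℝ) ≤ V1.card * n := by
      have : ∑ y ∈ V1, (nb S R y : ℝ) ≤ ∑ _y ∈ V1, n := by
        refine Finset.sum_le_sum fun y hy => ?_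
        have := hnbc y (hs1 hy)
        linarith
      simpa using this
    linarith
  · right
    have h1 := hmain _ _ (Nat.cast_nonneg _) hle (by rw [add_comm]; exact hcard)
      (by rw [mul_comm]; exact hdc.trans hE)
    have h2 : (pc S R : ℝ) = ∑ y ∈ S, (nb S R y : ℝ) := by
      rw [← sum_nb]
      push_cast
      rfl
    have h4 : n * (n - 1) - pc S R = ∑ y ∈ S, (n - 1 - nb S R y) := by
      rw [Finset.sum_sub_distrib, ← h2, Finset.sum_const, nsmul_eq_mul, ← hnd]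
    rw [h4, hsplit]
    have h3 : ∑ y ∈ V0, (n - 1 - nb S R y) ≤ V0.card * n := by
      have : ∑ y ∈ V0, (n - 1 - nb S R y) ≤ ∑ _y ∈ V0, n := by
        refine Finset.sum_le_sum fun y hy => ?_
        have : (0 : ℝ) ≤ nb S R y := Nat.cast_nonneg _
        linarith
      simpa using this
    linarith

end Pool.Agent.MP_0af329_co.JP
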