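import Pool.Agent.MP_0af329_co.JPDefs
import Pool.Agent.MP_0af329_co.JPF1a

set_option autoImplicit false

namespace Pool.Agent.MP_0af329_co.JP

open Finset EuclideanGeometry Filter Topology

theorem f5_mod (M A d : ℕ) (hM : 0 < M) (h : d ≤ A % M) : (A - d) % M = A % M - d := by
  have h1 := Nat.div_add_mod A M
  have h2 : A - d = M * (A / M) + (A % M - d) := by omega
  have h3 : A % M - d < M := lt_of_le_of_lt (Nat.sub_le _ _) (Nat.mod_lt _ hM)
  calc (A - d) % M = (M * (A / M) + (A % M - d)) % M := by rw [← h2]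
    _ = (A % M - d) % M := Nat.mul_add_mod _ _ _
    _ = A % M - d := Nat.mod_eq_of_lt h3

/-- If the residue is not in `[i₁, i₂)` then the residue from `i₂` is the residue from `i₁` minus `i₂ - i₁`. -/
theorem f5_shift (M i₁ i₂ c : ℕ) (hM : 0 < M) (h12 : i₁ ≤ i₂) (h2M : i₂ < M) (h : ¬ inI M i₁ i₂ c) :
    (c + 4 * M - i₂) % M = (c + 4 * M - i₁) % M - (i₂ - i₁) := by
  unfold inI at h
  have h1 : i₂ - i₁ ≤ (c + 4 * M - i₁) % M := not_lt.mp h
  have h2 := f5_mod M (c + 4 * M - i₁) (i₂ - i₁) hM h1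
  have h3 : c + 4 * M - i₂ = c + 4 * M - i₁ - (i₂ - i₁) := by omega
  rw [h3, h2]

theorem f5_or (S : Finset Pt) (P Q R : Pt → Pt → Prop) (h : ∀ y z, P y z → Q y z ∨ R y z) :
    pc S P ≤ pc S Q + pc S R := by
  classical
  unfold pc
  refine le_trans (Finset.card_le_card ?_) (Finset.card_union_le _ _)
  intro t ht
  rw [Finset.mem_filter] at ht
  rw [Finset.mem_union, Finset.mem_filter, Finset.mem_filter]
  rcases h _ _ ht.2.2 with h1 | h1
  · exact Or.inl ⟨ht.1, ht.2.1, h1⟩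
  · exact Or.inr ⟨ht.1, ht.2.1, h1⟩

theorem f5_mono (S : Finset Pt) (P Q : Pt → Pt → Prop) (h : ∀ y z, P y z → Q y z) :
    pc S P ≤ pc S Q := by
  classical
  unfold pc
  refine Finset.card_le_card ?_
  intro t ht
  rw [Finset.mem_filter] at ht ⊢
  exact ⟨ht.1, ht.2.1, h _ _ ht.2.2⟩

theorem f5_zero (S : Finset Pt) (P : Pt → Pt → Prop) (h : ∀ y z, ¬ P y z) : pc S P = 0 := by
  classical
  unfold pc
  rw [Finset.card_eq_zero, Finset.filter_eq_empty_iff]
  intro t _ ht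
  exact h _ _ ht.2

theorem f5_set (S : Finset Pt) (P : Pt → Pt → Prop) : ∃ A : Finset (Pt × Pt), A.card = pc S P ∧
    ∀ t, t ∈ A ↔ (t.1 ∈ S ∧ t.2 ∈ S) ∧ t.1 ≠ t.2 ∧ P t.1 t.2 := by
  unfold pc
  refine ⟨_, rfl, fun t => ?_⟩
  simp only [Finset.mem_filter, Finset.mem_product]

theorem f5_compl (S : Finset Pt) (P : Pt → Pt → Prop) :
    (pc S P : ℝ) + pc S (fun y z => ¬ P y z) = (S.card : ℝ) * (S.card - 1) := by
  classical
  obtain ⟨A, hA, hA'⟩ := f5_set S P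
  obtain ⟨B, hB, hB'⟩ := f5_set S (fun y z => ¬ P y z)
  have hd : Disjoint A B := by
    rw [Finset.disjoint_left]
    intro t ht ht'
    exact ((hB' t).mp ht').2.2 ((hA' t).mp ht).2.2
  have hu : A ∪ B = S.offDiag := by
    ext t
    rw [Finset.mem_union, hA', hB', Finset.mem_offDiag]
    tauto
  have h1 : pc S P + pc S (fun y z => ¬ P y z) = S.offDiag.card := by
    rw [← hA, ← hB, ← hu, Finset.card_union_of_disjoint hd]
  have h2 : S.offDiag.card = S.card * S.card - S.card := Finset.offDiag_card S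
  have h3 : S.card ≤ S.card * S.card := Nat.le_mul_self _
  have h4 : ((pc S P + pc S (fun y z => ¬ P y z) : ℕ) : ℝ) = (S.card : ℝ) * S.card - S.card := by
    rw [h1, h2, Nat.cast_sub h3, Nat.cast_mul]
  rw [Nat.cast_add] at h4
  rw [h4]; ring

/-- ROW F20-F5.  PROOF.  Call `i < M` small if `Lc S a M i ≤ θn³`; fewer than `1/θ` (`n > 0`) are not small.
Let `i₁` be the first small frame and `i₂` the last small frame with `i₂ = i₁` or `pc (arc i₁ i₂) ≤ δn²`.  If there is a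
next small frame `i₃ > i₂`, then `n(n-1) - pc (arc i₁ i₃) ≤ δn²`; `g = i₂`, `K = i₃ - i₂ ≤ 1/θ + 1`; the pairs not in
the arc `[i₂, i₃)` are in `[i₁, i₂)` or not in `[i₁, i₃)`.  Otherwise `g = i₂`, `K = M - i₂ + i₁ ≤ 1/θ + 1`, and the pairs
not in this arc are in `[i₁, i₂)`.  (No small frame: impossible because of `hM`.) -/
theorem conc (S : Finset Pt) (a : ℝ) (M : ℕ) (θ δ : ℝ) (hθ : 0 < θ) (hδ : 0 ≤ δ)
    (hM : 1 / θ + 2 ≤ M) (hn : 0 < S.card)
    (hL : ∑ i ∈ range M, (Lc S a M i : ℝ) ≤ (S.card : ℝ) ^ 3)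
    (hdi : ∀ i i' : ℕ, i < i' → i' < M → (Lc S a M i : ℝ) ≤ θ * (S.card : ℝ) ^ 3 →
      (Lc S a M i' : ℝ) ≤ θ * (S.card : ℝ) ^ 3 →
      (pc S (fun y z => inI M i i' (ce M y z)) : ℝ) ≤ δ * (S.card : ℝ) ^ 2 ∨
        (S.card : ℝ) * (S.card - 1) - pc S (fun y z => inI M i i' (ce M y z)) ≤
          δ * (S.card : ℝ) ^ 2) :
    ∃ g K : ℕ, g < M ∧ (K : ℝ) ≤ 1 / θ + 1 ∧
      (pc S (fun y z => ¬ (ce M y z + 4 * M - g) % M < K) : ℝ) ≤ 2 * δ * (S.card : ℝ) ^ 2 := by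
  classical
  have hn' : (0 : ℝ) < (S.card : ℝ) := by exact_mod_cast hn
  have hn3 : (0 : ℝ) < (S.card : ℝ) ^ 3 := by positivity
  have hn2 : (0 : ℝ) ≤ δ * (S.card : ℝ) ^ 2 := by positivity
  have hcount : ∀ T : Finset ℕ, T ⊆ range M →
      (∀ i ∈ T, ¬ (Lc S a M i : ℝ) ≤ θ * (S.card : ℝ) ^ 3) → (T.card : ℝ) ≤ 1 / θ := by
    intro T hT hTs
    have h1 : (T.card : ℝ) * (θ * (S.card : ℝ) ^ 3) ≤ ∑ i ∈ T, (Lc S a M i : ℝ) := by
      rw [← nsmul_eq_mul]
      apply Finset.card_nsmul_le_sum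
      intro i hi
      exact le_of_lt (not_le.mp (hTs i hi))
    have h2 : ∑ i ∈ T, (Lc S a M i : ℝ) ≤ ∑ i ∈ range M, (Lc S a M i : ℝ) :=
      Finset.sum_le_sum_of_subset_of_nonneg hT (fun _ _ _ => Nat.cast_nonneg _)
    have h3 : ((T.card : ℝ) * θ) * (S.card : ℝ) ^ 3 ≤ 1 * (S.card : ℝ) ^ 3 := by
      rw [mul_assoc, one_mul]
      exact le_trans h1 (le_trans h2 hL)
    have h4 : (T.card : ℝ) * θ ≤ 1 := le_of_mul_le_mul_right h3 hn3
    rw [le_div_iff₀ hθ]
    exact h4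
  have hM0 : 0 < M := by
    rcases Nat.eq_zero_or_pos M with h | h
    · exfalso
      rw [h] at hM
      have : 0 < 1 / θ := by positivity
      simp only [Nat.cast_zero] at hM
      linarith
    · exact h
  have hex : ∃ i, i < M ∧ (Lc S a M i : ℝ) ≤ θ * (S.card : ℝ) ^ 3 := by
    by_contra hc
    have h1 := hcount (range M) (le_refl _) (fun i hi hs => hc ⟨i, Finset.mem_range.mp hi, hs⟩)
    rw [Finset.card_range] at h1
    linarith
  obtain ⟨i₁, hi₁⟩ : ∃ i, i = Nat.find hex := ⟨_, rfl⟩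
  have h1M : i₁ < M := by rw [hi₁]; exact (Nat.find_spec hex).1
  have h1s : (Lc S a M i₁ : ℝ) ≤ θ * (S.card : ℝ) ^ 3 := by rw [hi₁]; exact (Nat.find_spec hex).2
  have h1min : ∀ j, j < i₁ → ¬ (Lc S a M j : ℝ) ≤ θ * (S.card : ℝ) ^ 3 := by
    intro j hj hs
    rw [hi₁] at hj
    exact Nat.find_min hex hj ⟨lt_trans (hi₁ ▸ hj) h1M, hs⟩
  obtain ⟨U, hU⟩ : ∃ U : Finset ℕ, U = (range M).filter (fun i => i₁ ≤ i ∧
      (Lc S a M i : ℝ) ≤ θ * (S.card : ℝ) ^ 3 ∧
      (i = i₁ ∨ (pc S (fun y z => inI M i₁ i (ce M y z)) : ℝ) ≤ δ * (S.card : ℝ) ^ 2)) := ⟨_, rfl⟩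
  have hUne : U.Nonempty := ⟨i₁, by
    rw [hU, Finset.mem_filter]
    exact ⟨Finset.mem_range.mpr h1M, le_refl _, h1s, Or.inl rfl⟩⟩
  obtain ⟨i₂, hi₂⟩ : ∃ i, i = U.max' hUne := ⟨_, rfl⟩
  have h2U : i₂ ∈ U := by rw [hi₂]; exact Finset.max'_mem _ _
  have h2max : ∀ j ∈ U, j ≤ i₂ := by intro j hj; rw [hi₂]; exact Finset.le_max' _ _ hj
  rw [hU, Finset.mem_filter] at h2U
  obtain ⟨h2M', h12, h2s, h2p⟩ := h2U
  have h2M : i₂ < M := Finset.mem_range.mp h2M'
  have h2b : (pc S (fun y z => inI M i₁ i₂ (ce M y z)) : ℝ) ≤ δ * (S.card : ℝ) ^ 2 := by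
    rcases h2p with h | h
    · rw [h, f5_zero]
      · simpa using hn2
      · intro y z hyz
        unfold inI at hyz
        omega
    · exact h
  by_cases h3 : ∃ i, i₂ < i ∧ i < M ∧ (Lc S a M i : ℝ) ≤ θ * (S.card : ℝ) ^ 3
  · obtain ⟨i₃, hi₃⟩ : ∃ i, i = Nat.find h3 := ⟨_, rfl⟩
    have h23 : i₂ < i₃ := by rw [hi₃]; exact (Nat.find_spec h3).1
    have h3M : i₃ < M := by rw [hi₃]; exact (Nat.find_spec h3).2.1
    have h3s : (Lc S a M i₃ : ℝ) ≤ θ * (S.card : ℝ) ^ 3 := by rw [hi₃]; exact (Nat.find_spec h3).2.2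
    have h3min : ∀ j, i₂ < j → j < i₃ → ¬ (Lc S a M j : ℝ) ≤ θ * (S.card : ℝ) ^ 3 := by
      intro j hj hj3 hs
      have hj3' : j < Nat.find h3 := by rw [← hi₃]; exact hj3
      exact Nat.find_min h3 hj3' ⟨hj, lt_trans hj3 h3M, hs⟩
    have h13 : i₁ < i₃ := lt_of_le_of_lt h12 h23
    have h3n : ¬ (pc S (fun y z => inI M i₁ i₃ (ce M y z)) : ℝ) ≤ δ * (S.card : ℝ) ^ 2 := by
      intro h
      have : i₃ ∈ U := by
        rw [hU, Finset.mem_filter]
        exact ⟨Finset.mem_range.mpr h3M, le_of_lt h13, h3s, Or.inr h⟩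
      exact absurd (h2max _ this) (not_le.mpr h23)
    have h3c : (S.card : ℝ) * (S.card - 1) - pc S (fun y z => inI M i₁ i₃ (ce M y z)) ≤
        δ * (S.card : ℝ) ^ 2 := by
      rcases hdi i₁ i₃ h13 h3M h1s h3s with h | h
      · exact absurd h h3n
      · exact h
    refine ⟨i₂, i₃ - i₂, h2M, ?_, ?_⟩
    · have h5 := hcount (Finset.Ioo i₂ i₃) (by
        intro j hj
        rw [Finset.mem_Ioo] at hj
        exact Finset.mem_range.mpr (lt_trans hj.2 h3M)) (by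
        intro j hj
        rw [Finset.mem_Ioo] at hj
        exact h3min j hj.1 hj.2)
      rw [Nat.card_Ioo] at h5
      have h6 : i₃ - i₂ = (i₃ - i₂ - 1) + 1 := by omega
      rw [h6, Nat.cast_add, Nat.cast_one]
      linarith
    · have h5 : pc S (fun y z => ¬ (ce M y z + 4 * M - i₂) % M < i₃ - i₂) ≤
          pc S (fun y z => inI M i₁ i₂ (ce M y z)) +
          pc S (fun y z => ¬ inI M i₁ i₃ (ce M y z)) := by
        apply f5_or
        intro y z hyz
        by_cases hc : inI M i₁ i₂ (ce M y z)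
        · exact Or.inl hc
        · right
          rw [f5_shift M i₁ i₂ _ hM0 h12 h2M hc] at hyz
          unfold inI at hc ⊢
          omega
      have h6 : ((pc S (fun y z => ¬ (ce M y z + 4 * M - i₂) % M < i₃ - i₂) : ℕ) : ℝ) ≤
          (pc S (fun y z => inI M i₁ i₂ (ce M y z)) : ℝ) +
          (pc S (fun y z => ¬ inI M i₁ i₃ (ce M y z)) : ℝ) := by exact_mod_cast h5
      have h7 := f5_compl S (fun y z => inI M i₁ i₃ (ce M y z))
      linarith
  · have h3' : ∀ j, i₂ < j → j < M → ¬ (Lc S a M j : ℝ) ≤ θ * (S.card : ℝ) ^ 3 :=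
      fun j hj hjM hs => h3 ⟨j, hj, hjM, hs⟩
    refine ⟨i₂, M - i₂ + i₁, h2M, ?_, ?_⟩
    · have h5 := hcount (range i₁ ∪ Finset.Ioo i₂ M) (by
        intro j hj
        rw [Finset.mem_union, Finset.mem_Ioo, Finset.mem_range] at hj
        rw [Finset.mem_range]
        rcases hj with hj | hj
        · exact lt_trans hj h1M
        · exact hj.2) (by
        intro j hj
        rw [Finset.mem_union, Finset.mem_Ioo, Finset.mem_range] at hj
        rcases hj with hj | hj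
        · exact h1min j hj
        · exact h3' j hj.1 hj.2)
      rw [Finset.card_union_of_disjoint (by
        rw [Finset.disjoint_left]
        intro j hj hj'
        rw [Finset.mem_range] at hj
        rw [Finset.mem_Ioo] at hj'
        omega), Finset.card_range, Nat.card_Ioo] at h5
      have h6 : M - i₂ + i₁ = (i₁ + (M - i₂ - 1)) + 1 := by omega
      rw [h6, Nat.cast_add, Nat.cast_one]
      linarith
    · have h5 : pc S (fun y z => ¬ (ce M y z + 4 * M - i₂) % M < M - i₂ + i₁) ≤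
          pc S (fun y z => inI M i₁ i₂ (ce M y z)) := by
        apply f5_mono
        intro y z hyz
        by_contra hc
        apply hyz
        rw [f5_shift M i₁ i₂ _ hM0 h12 h2M hc]
        have := Nat.mod_lt (ce M y z + 4 * M - i₁) hM0
        unfold inI at hc
        omega
      have h6 : ((pc S (fun y z => ¬ (ce M y z + 4 * M - i₂) % M < M - i₂ + i₁) : ℕ) : ℝ) ≤
          (pc S (fun y z => inI M i₁ i₂ (ce M y z)) : ℝ) := by exact_mod_cast h5
      linarith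

end Pool.Agent.MP_0af329_co.JP
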