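import Pool.Agent.MP_0af329_co.JPDefs
import Pool.Agent.MP_0af329_co.JPF1a

set_option autoImplicit false

namespace Pool.Agent.MP_0af329_co.JP

open Finset EuclideanGeometry Filter Topology

/-- ROW F20-F5.  There is a small frame in the middle range.  PROOF.  Fewer than `1/θ` frames are not small, and
there are at least `M/2 - 4 > 1/θ` values of `s`. -/
theorem exists_mid (S : Finset Pt) (a : ℝ) (M g : ℕ) (θ : ℝ) (hθ : 0 < θ) (hg : g < M)
    (hM : 4 * (1 / θ) + 100 ≤ M) (hn : 0 < S.card)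
    (hL : ∑ i ∈ range M, (Lc S a M i : ℝ) ≤ (S.card : ℝ) ^ 3) :
    ∃ s : ℕ, M + 4 ≤ 4 * s ∧ 4 * s + 4 ≤ 3 * M ∧
      (Lc S a M ((g + s) % M) : ℝ) ≤ θ * (S.card : ℝ) ^ 3 := by
  by_contra hno
  have hno' : ∀ s : ℕ, M + 4 ≤ 4 * s → 4 * s + 4 ≤ 3 * M →
      θ * (S.card : ℝ) ^ 3 < (Lc S a M ((g + s) % M) : ℝ) := by
    intro s h1 h2
    by_contra h3
    exact hno ⟨s, h1, h2, not_lt.1 h3⟩
  have hn3 : (0 : ℝ) < (S.card : ℝ) ^ 3 := by positivity
  have hθ' : 0 < 1 / θ := by positivity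
  have hM100 : (100 : ℝ) ≤ M := by linarith
  have hM' : 100 ≤ M := by exact_mod_cast hM100
  have hI : ∀ s ∈ Finset.Icc ((M + 7) / 4) ((3 * M - 4) / 4), M + 4 ≤ 4 * s ∧ 4 * s + 4 ≤ 3 * M := by
    intro s hs
    rw [Finset.mem_Icc] at hs
    omega
  have hcard : 2 * M ≤ 4 * (Finset.Icc ((M + 7) / 4) ((3 * M - 4) / 4)).card + 10 := by
    rw [Nat.card_Icc]
    omega
  generalize Finset.Icc ((M + 7) / 4) ((3 * M - 4) / 4) = I at hI hcard
  have hinj : Set.InjOn (fun s => (g + s) % M) (I : Set ℕ) := by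
    intro s hs s' hs' h
    have h1 := hI s hs
    have h2 := hI s' hs'
    have h3 : (g + s) ≡ (g + s') [MOD M] := h
    have h4 : s ≡ s' [MOD M] := Nat.ModEq.add_left_cancel' g h3
    have h5 : s % M = s' % M := h4
    rwa [Nat.mod_eq_of_lt (by omega), Nat.mod_eq_of_lt (by omega)] at h5
  have h1 : ∑ s ∈ I, (Lc S a M ((g + s) % M) : ℝ) ≤ ∑ i ∈ range M, (Lc S a M i : ℝ) := by
    rw [← Finset.sum_image (f := fun i => (Lc S a M i : ℝ)) hinj]
    refine Finset.sum_le_sum_of_subset_of_nonneg ?_ (fun i _ _ => Nat.cast_nonneg _)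
    intro i hi
    obtain ⟨s, _, rfl⟩ := Finset.mem_image.1 hi
    exact Finset.mem_range.2 (Nat.mod_lt _ (by omega))
  have h2 : (I.card : ℝ) * (θ * (S.card : ℝ) ^ 3) ≤ ∑ s ∈ I, (Lc S a M ((g + s) % M) : ℝ) := by
    rw [← nsmul_eq_mul]
    exact Finset.card_nsmul_le_sum _ _ _ (fun s hs => (hno' s (hI s hs).1 (hI s hs).2).le)
  have h3 : (2 : ℝ) * M ≤ 4 * I.card + 10 := by exact_mod_cast hcard
  have h4 : 2 * (1 / θ) ≤ (I.card : ℝ) := by linarith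
  have h5 : 2 ≤ (I.card : ℝ) * θ := by
    have h6 := mul_le_mul_of_nonneg_right h4 hθ.le
    have h7 : 2 * (1 / θ) * θ = 2 := by field_simp
    rwa [h7] at h6
  have h8 : (I.card : ℝ) * (θ * (S.card : ℝ) ^ 3) ≤ (S.card : ℝ) ^ 3 := h2.trans (h1.trans hL)
  nlinarith [mul_le_mul_of_nonneg_right h5 hn3.le]

end Pool.Agent.MP_0af329_co.JP
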