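import Pool.Agent.MP_0af329_co.JPDefs

set_option autoImplicit false

namespace Pool.Agent.MP_0af329_co.JP

open Finset EuclideanGeometry Filter Topology

theorem rot_apply (φ : ℝ) (p : Pt) : rot φ p 0 = Real.cos φ * p 0 + Real.sin φ * p 1 ∧
    rot φ p 1 = - Real.sin φ * p 0 + Real.cos φ * p 1 := by
  unfold rot
  constructor <;> rfl

theorem jpr_ext {p q : Pt} (h0 : p 0 = q 0) (h1 : p 1 = q 1) : p = q := by
  ext i
  fin_cases i
  · exact h0
  · exact h1

theorem jpr_inner (u v : Pt) : inner ℝ u v = u 0 * v 0 + u 1 * v 1 := by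
  rw [PiLp.inner_apply, Fin.sum_univ_two]
  simp only [RCLike.inner_apply, conj_trivial]
  ring

theorem jpr_angle (f : Pt → Pt)
    (h : ∀ a b c : Pt, inner ℝ (f a - f b) (f c - f b) = inner ℝ (a - b) (c - b)) (x y z : Pt) :
    ∠ (f x) (f y) (f z) = ∠ x y z := by
  unfold EuclideanGeometry.angle InnerProductGeometry.angle
  simp only [vsub_eq_sub]
  rw [norm_eq_sqrt_real_inner (f x - f y), norm_eq_sqrt_real_inner (f z - f y),
    norm_eq_sqrt_real_inner (x - y), norm_eq_sqrt_real_inner (z - y), h, h, h]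

theorem rot_rot (φ : ℝ) (p : Pt) : rot (-φ) (rot φ p) = p := by
  have h := Real.sin_sq_add_cos_sq φ
  apply jpr_ext
  · rw [(rot_apply (-φ) _).1, (rot_apply φ p).1, (rot_apply φ p).2, Real.cos_neg, Real.sin_neg]
    linear_combination (p 0) * h
  · rw [(rot_apply (-φ) _).2, (rot_apply φ p).1, (rot_apply φ p).2, Real.cos_neg, Real.sin_neg]
    linear_combination (p 1) * h

theorem rot_inj (φ : ℝ) : Function.Injective (rot φ) :=
  Function.LeftInverse.injective (rot_rot φ)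

theorem angle_rot (φ : ℝ) (x y z : Pt) : ∠ (rot φ x) (rot φ y) (rot φ z) = ∠ x y z := by
  refine jpr_angle (rot φ) (fun a b c => ?_) x y z
  have h := Real.sin_sq_add_cos_sq φ
  rw [jpr_inner, jpr_inner]
  simp only [PiLp.sub_apply, (rot_apply φ _).1, (rot_apply φ _).2]
  linear_combination ((a 0 - b 0) * (c 0 - b 0) + (a 1 - b 1) * (c 1 - b 1)) * h

theorem sw_apply (p : Pt) : sw p 0 = p 1 ∧ sw p 1 = p 0 := by
  unfold sw
  constructor <;> rfl

theorem sw_sw (p : Pt) : sw (sw p) = p := by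
  apply jpr_ext
  · rw [(sw_apply _).1, (sw_apply _).2]
  · rw [(sw_apply _).2, (sw_apply _).1]

theorem sw_inj : Function.Injective sw :=
  Function.LeftInverse.injective sw_sw

theorem angle_sw (x y z : Pt) : ∠ (sw x) (sw y) (sw z) = ∠ x y z := by
  refine jpr_angle sw (fun a b c => ?_) x y z
  rw [jpr_inner, jpr_inner]
  simp only [PiLp.sub_apply, (sw_apply _).1, (sw_apply _).2]
  ring

theorem jpr_tc (f : Pt → Pt) (hf : Function.Injective f) (S : Finset Pt) [DecidableEq Pt]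
    (P : Pt → Pt → Pt → Prop) :
    tc (S.image f) P = tc S fun x y z => P (f x) (f y) (f z) := by
  classical
  have h1 : (trip (S.image f)).filter (fun t => P t.1 t.2.1 t.2.2) =
      ((trip S).filter fun t => P (f t.1) (f t.2.1) (f t.2.2)).image
        (fun t => (f t.1, f t.2.1, f t.2.2)) := by
    ext ⟨x, y, z⟩
    simp only [Finset.mem_filter, Finset.mem_image, mem_trip, Prod.mk.injEq, Prod.exists]
    constructor
    · rintro ⟨⟨⟨⟨x', hx', rfl⟩, ⟨y', hy', rfl⟩, ⟨z', hz', rfl⟩⟩, h1, h2, h3⟩, h4⟩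
      exact ⟨x', y', z', ⟨⟨⟨hx', hy', hz'⟩, fun h => h1 (congrArg f h), fun h => h2 (congrArg f h),
        fun h => h3 (congrArg f h)⟩, h4⟩, rfl, rfl, rfl⟩
    · rintro ⟨x', y', z', ⟨⟨⟨hx', hy', hz'⟩, h1, h2, h3⟩, h4⟩, rfl, rfl, rfl⟩
      exact ⟨⟨⟨⟨x', hx', rfl⟩, ⟨y', hy', rfl⟩, ⟨z', hz', rfl⟩⟩, fun h => h1 (hf h),
        fun h => h2 (hf h), fun h => h3 (hf h)⟩, h4⟩
  have h2 : Function.Injective (fun t : Pt × Pt × Pt => (f t.1, f t.2.1, f t.2.2)) := by
    rintro ⟨x, y, z⟩ ⟨x', y', z'⟩ h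
    simp only [Prod.mk.injEq] at h
    rw [hf h.1, hf h.2.1, hf h.2.2]
  have h3 := Finset.card_image_of_injective
    ((trip S).filter fun t => P (f t.1) (f t.2.1) (f t.2.2)) h2
  unfold tc
  rw [← h3, ← h1]

open Classical in
/-- ROW F20-R. -/
theorem cnt_image (f : Pt → Pt) (hf : Function.Injective f)
    (h : ∀ x y z, ∠ (f x) (f y) (f z) = ∠ x y z) (S : Finset Pt) (A : Set ℝ) :
    cnt (S.image f) A = cnt S A := by
  have h1 : ∀ S : Finset Pt, cnt S A = tc S fun x y z => ∠ x y z ∈ A := fun S => rfl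
  rw [h1, h1, jpr_tc f hf]
  simp only [h]

open Classical in
/-- ROW F20-R. -/
theorem dg_image (f : Pt → Pt) (hf : Function.Injective f)
    (h : ∀ x y z, ∠ (f x) (f y) (f z) = ∠ x y z) (S : Finset Pt) (a : ℝ) (x : Pt) :
    dg (S.image f) a (f x) = dg S a x := by
  unfold dg
  rw [jpr_tc f hf]
  simp only [h, hf.eq_iff]

end Pool.Agent.MP_0af329_co.JP
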