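import Pool.Agent.MP_0af329_co.JPF1a
import Pool.Agent.MP_0af329_co.JPF1b
import Pool.Agent.MP_0af329_co.JPR

set_option autoImplicit false

namespace Pool.Agent.MP_0af329_co.JP

open Finset EuclideanGeometry Filter Topology

theorem jpf6a_angle (M g K : ℕ) (hM : 0 < M) (hg : g < M) (y z : Pt)
    (hc : (ce M y z + 4 * M - g) % M < K) :
    ∃ (j : ℤ) (ε : ℝ), 0 ≤ ε ∧ ε ≤ K * Real.pi / (2 * M) ∧
      ar y z - g * Real.pi / (2 * M) = ε + j * (Real.pi / 2) := by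
  have hpi := Real.pi_pos
  have hMr : (0 : ℝ) < M := by exact_mod_cast hM
  have hMz : (0 : ℤ) < M := by exact_mod_cast hM
  have hce : (ce M y z : ℤ) = ⌊2 * (M : ℝ) / Real.pi * ar y z⌋ % (4 * (M : ℤ)) := by
    unfold ce
    exact Int.toNat_of_nonneg (Int.emod_nonneg _ (by omega))
  have h1 : ((((ce M y z + 4 * M - g) % M : ℕ)) : ℤ) = ((ce M y z : ℤ) + 4 * M - g) % M := by
    rw [Int.natCast_mod, Nat.cast_sub (by omega)]
    push_cast
    rfl
  have h2 : ∃ j : ℤ, ⌊2 * (M : ℝ) / Real.pi * ar y z⌋ = g + (((ce M y z + 4 * M - g) % M : ℕ) : ℤ) + M * j := by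
    have h3 := Int.emod_add_mul_ediv ⌊2 * (M : ℝ) / Real.pi * ar y z⌋ (4 * (M : ℤ))
    have h4 := Int.emod_add_mul_ediv ((ce M y z : ℤ) + 4 * M - g) (M : ℤ)
    rw [← hce] at h3
    rw [← h1] at h4
    refine ⟨((ce M y z : ℤ) + 4 * M - g) / M - 4 + 4 * (⌊2 * (M : ℝ) / Real.pi * ar y z⌋ / (4 * (M : ℤ))), ?_⟩
    linear_combination -h3 - h4
  obtain ⟨j, hj⟩ := h2
  generalize (ce M y z + 4 * M - g) % M = r at hc hj
  have h5 := Int.floor_le (2 * (M : ℝ) / Real.pi * ar y z)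
  have h6 := Int.lt_floor_add_one (2 * (M : ℝ) / Real.pi * ar y z)
  rw [hj] at h5 h6
  push_cast at h5 h6
  have hrK : (r : ℝ) + 1 ≤ K := by exact_mod_cast hc
  have e0 : ar y z = Real.pi / (2 * M) * (2 * (M : ℝ) / Real.pi * ar y z) := by
    field_simp
  have hc0 : 0 < Real.pi / (2 * (M : ℝ)) := by positivity
  have e1 : ar y z - g * Real.pi / (2 * M) - j * (Real.pi / 2) =
      Real.pi / (2 * M) * (2 * (M : ℝ) / Real.pi * ar y z - g - M * j) := by
    rw [mul_sub, mul_sub, ← e0]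
    field_simp
  refine ⟨j, ar y z - g * Real.pi / (2 * M) - j * (Real.pi / 2), ?_, ?_, by ring⟩
  · rw [e1]
    refine mul_nonneg hc0.le ?_
    have : (0 : ℝ) ≤ r := Nat.cast_nonneg r
    linarith
  · rw [e1]
    have e2 : (K : ℝ) * Real.pi / (2 * M) = Real.pi / (2 * M) * K := by ring
    rw [e2]
    refine mul_le_mul_of_nonneg_left ?_ hc0.le
    linarith

theorem jpf6a_small (ε : ℝ) (h0 : 0 ≤ ε) (h1 : ε ≤ Real.pi / 4000) :
    |Real.sin ε| ≤ 1 / 1000 * |Real.cos ε| := by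
  have hpi := Real.pi_lt_d2
  have hpi3 := Real.pi_gt_three
  have h2 : ε ≤ 8 / 10000 := by linarith
  have hs0 : 0 ≤ Real.sin ε := Real.sin_nonneg_of_nonneg_of_le_pi h0 (by linarith)
  have hs : Real.sin ε ≤ ε := Real.sin_le h0
  have hc : 1 - ε ^ 2 / 2 ≤ Real.cos ε := Real.one_sub_sq_div_two_le_cos
  have hc0 : 0 ≤ Real.cos ε := by nlinarith
  rw [abs_of_nonneg hs0, abs_of_nonneg hc0]
  nlinarith

theorem jpf6a_par (j : ℤ) (ε : ℝ) :
    (|Real.sin (ε + j * (Real.pi / 2))| = |Real.sin ε| ∧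
      |Real.cos (ε + j * (Real.pi / 2))| = |Real.cos ε|) ∨
    (|Real.sin (ε + j * (Real.pi / 2))| = |Real.cos ε| ∧
      |Real.cos (ε + j * (Real.pi / 2))| = |Real.sin ε|) := by
  have habs : ∀ m : ℤ, ∀ x : ℝ, |(-1 : ℝ) ^ m * x| = |x| := by
    intro m x
    rcases Int.even_or_odd m with h | h
    · rw [h.neg_one_zpow, one_mul]
    · rw [h.neg_one_zpow, neg_one_mul, abs_neg]
  obtain ⟨m, hm | hm⟩ := Int.even_or_odd' j
  · left
    have e : ε + (j : ℝ) * (Real.pi / 2) = ε + m * Real.pi := by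
      rw [hm]
      push_cast
      ring
    rw [e, Real.sin_add_int_mul_pi, Real.cos_add_int_mul_pi, habs, habs]
    exact ⟨rfl, rfl⟩
  · right
    have e : ε + (j : ℝ) * (Real.pi / 2) = (ε + Real.pi / 2) + m * Real.pi := by
      rw [hm]
      push_cast
      ring
    rw [e, Real.sin_add_int_mul_pi, Real.cos_add_int_mul_pi, habs, habs,
      Real.sin_add_pi_div_two, Real.cos_add_pi_div_two, abs_neg]
    exact ⟨rfl, rfl⟩

/-- ROW F20-F6a.  PROOF.  Let `v = z - y`, `ω = ar y z - gπ/(2M)`: the coordinates of `rot φ z - rot φ y` are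
`‖v‖ cos ω`, `‖v‖ sin ω`.  `ω · 2M/π` modulo `M` is in `[0, K)`, so `ω = jπ/2 + ε` with an integer `j` and
`0 ≤ ε < Kπ/(2M) ≤ π/4000`: `|sin ε| ≤ 1/1000 |cos ε|`; `hty` if `j` is even, `vty` if `j` is odd. -/
theorem cell_good (M g K : ℕ) (hM : 0 < M) (hg : g < M) (hK : 2000 * K ≤ M) (y z : Pt) (h : y ≠ z)
    (hc : (ce M y z + 4 * M - g) % M < K) :
    hty (rot (g * Real.pi / (2 * M)) y) (rot (g * Real.pi / (2 * M)) z) ∨
      vty (rot (g * Real.pi / (2 * M)) y) (rot (g * Real.pi / (2 * M)) z) := by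
  have hpi := Real.pi_pos
  have hMr : (0 : ℝ) < M := by exact_mod_cast hM
  obtain ⟨j, ε, h0, h1, he⟩ := jpf6a_angle M g K hM hg y z hc
  have hKr : 2000 * (K : ℝ) ≤ M := by exact_mod_cast hK
  have h1' : ε ≤ Real.pi / 4000 := by
    refine h1.trans ?_
    rw [div_le_div_iff₀ (by positivity) (by norm_num)]
    nlinarith
  have hsc : |Real.sin ε| ≤ 1 / 1000 * |Real.cos ε| := jpf6a_small ε h0 h1'
  have hv0 : z 0 - y 0 = ‖z - y‖ * Real.cos (ar y z) := by
    have h2 := congrArg (fun p : Pt => p 0) (sub_eq_uv y z)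
    exact h2
  have hv1 : z 1 - y 1 = ‖z - y‖ * Real.sin (ar y z) := by
    have h2 := congrArg (fun p : Pt => p 1) (sub_eq_uv y z)
    exact h2
  have hr0 : rot (g * Real.pi / (2 * M)) z 0 - rot (g * Real.pi / (2 * M)) y 0 =
      ‖z - y‖ * Real.cos (ar y z - g * Real.pi / (2 * M)) := by
    rw [(rot_apply _ _).1, (rot_apply _ _).1, Real.cos_sub]
    linear_combination Real.cos (g * Real.pi / (2 * M)) * hv0 +
      Real.sin (g * Real.pi / (2 * M)) * hv1
  have hr1 : rot (g * Real.pi / (2 * M)) z 1 - rot (g * Real.pi / (2 * M)) y 1 =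
      ‖z - y‖ * Real.sin (ar y z - g * Real.pi / (2 * M)) := by
    rw [(rot_apply _ _).2, (rot_apply _ _).2, Real.sin_sub]
    linear_combination Real.cos (g * Real.pi / (2 * M)) * hv1 -
      Real.sin (g * Real.pi / (2 * M)) * hv0
  have hn : |‖z - y‖| = ‖z - y‖ := abs_of_nonneg (norm_nonneg _)
  have hn0 : 0 ≤ ‖z - y‖ := norm_nonneg _
  rcases jpf6a_par j ε with ⟨ha, hb⟩ | ⟨ha, hb⟩
  · left
    unfold hty
    rw [hr0, hr1, he, abs_mul, abs_mul, ha, hb, hn]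
    nlinarith [mul_le_mul_of_nonneg_left hsc hn0]
  · right
    unfold vty
    rw [hr0, hr1, he, abs_mul, abs_mul, ha, hb, hn]
    nlinarith [mul_le_mul_of_nonneg_left hsc hn0]

end Pool.Agent.MP_0af329_co.JP
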