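import Pool.Agent.MP_0af329_co.JPF2a
import Pool.Agent.MP_0af329_co.JPF1b
import Pool.Agent.MP_0af329_co.JPR

set_option autoImplicit false

namespace Pool.Agent.MP_0af329_co.JP

open Finset EuclideanGeometry Filter Topology

private theorem f6b_coord (φ : ℝ) (y z : Pt) :
    rot φ z 0 - rot φ y 0 = ‖(⟨z 0 - y 0, z 1 - y 1⟩ : ℂ)‖ * Real.cos (ar y z - φ) ∧
    rot φ z 1 - rot φ y 1 = ‖(⟨z 0 - y 0, z 1 - y 1⟩ : ℂ)‖ * Real.sin (ar y z - φ) := by
  have h1 : ‖(⟨z 0 - y 0, z 1 - y 1⟩ : ℂ)‖ * Real.cos (ar y z) = z 0 - y 0 :=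
    Complex.norm_mul_cos_arg _
  have h2 : ‖(⟨z 0 - y 0, z 1 - y 1⟩ : ℂ)‖ * Real.sin (ar y z) = z 1 - y 1 :=
    Complex.norm_mul_sin_arg _
  rw [(rot_apply φ z).1, (rot_apply φ y).1, (rot_apply φ z).2, (rot_apply φ y).2,
    Real.cos_sub, Real.sin_sub]
  constructor
  · linear_combination (-Real.cos φ) * h1 - Real.sin φ * h2
  · linear_combination (Real.sin φ) * h1 - Real.cos φ * h2

private theorem f6b_cos {ω : ℝ} (h : 21 / 29 ≤ Real.cos (2 * ω)) :
    ∃ j : ℤ, |ω - j * Real.pi| < Real.pi / 8 := by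
  have hpi := Real.pi_pos
  refine ⟨round (ω / Real.pi), ?_⟩
  have h1 := abs_sub_round (ω / Real.pi)
  have h2 : |ω - round (ω / Real.pi) * Real.pi| ≤ Real.pi / 2 := by
    have h3 : ω - round (ω / Real.pi) * Real.pi =
        (ω / Real.pi - round (ω / Real.pi)) * Real.pi := by
      field_simp
    rw [h3, abs_mul, abs_of_pos hpi]
    nlinarith
  generalize round (ω / Real.pi) = j at *
  by_contra hcon
  push Not at hcon
  have h4 : Real.cos (2 * ω) = Real.cos (2 * |ω - j * Real.pi|) := by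
    have h5 : Real.cos (2 * |ω - j * Real.pi|) = Real.cos (2 * (ω - j * Real.pi)) := by
      rcases abs_choice (ω - j * Real.pi) with h | h
      · rw [h]
      · rw [h, mul_neg, Real.cos_neg]
    rw [h5]
    have h6 : 2 * (ω - j * Real.pi) = 2 * ω - j * (2 * Real.pi) := by ring
    rw [h6, Real.cos_sub_int_mul_two_pi]
  have h7 : Real.cos (2 * |ω - j * Real.pi|) ≤ Real.cos (Real.pi / 4) :=
    Real.cos_le_cos_of_nonneg_of_le_pi (by positivity) (by linarith) (by linarith)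
  rw [Real.cos_pi_div_four] at h7
  have h8 : √2 < 1.42 := by
    rw [Real.sqrt_lt' (by norm_num)]
    norm_num
  rw [h4] at h
  linarith

private theorem f6b_h {ω : ℝ} (h : |Real.sin ω| ≤ 2 / 5 * |Real.cos ω|) :
    ∃ j : ℤ, |ω - j * Real.pi| < Real.pi / 8 := by
  apply f6b_cos
  have h1 : Real.sin ω ^ 2 ≤ (2 / 5) ^ 2 * Real.cos ω ^ 2 := by
    rw [← sq_abs (Real.sin ω), ← sq_abs (Real.cos ω), ← mul_pow]
    exact pow_le_pow_left₀ (abs_nonneg _) h 2
  have h2 := Real.sin_sq_add_cos_sq ω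
  rw [Real.cos_two_mul]
  linarith

private theorem f6b_v {ω : ℝ} (h : |Real.cos ω| ≤ 2 / 5 * |Real.sin ω|) :
    ∃ j : ℤ, |ω - Real.pi / 2 - j * Real.pi| < Real.pi / 8 := by
  apply f6b_cos
  have h1 : Real.cos ω ^ 2 ≤ (2 / 5) ^ 2 * Real.sin ω ^ 2 := by
    rw [← sq_abs (Real.sin ω), ← sq_abs (Real.cos ω), ← mul_pow]
    exact pow_le_pow_left₀ (abs_nonneg _) h 2
  have h2 := Real.sin_sq_add_cos_sq ω
  rw [Real.cos_two_mul, Real.cos_sub_pi_div_two]
  linarith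

private theorem f6b_Qf (M i k : ℕ) (hM : 0 < M) (hi : i < M) (hk : k < 4) (n q : ℤ)
    (h1 : (k : ℤ) * M ≤ n - i - 4 * M * q) (h2 : n - i - 4 * M * q < (k + 1) * M) :
    Qf M i ((n % (4 * (M : ℤ))).toNat) = k := by
  have hM' : (0 : ℤ) < M := by exact_mod_cast hM
  have hc0 : 0 ≤ n % (4 * (M : ℤ)) := Int.emod_nonneg _ (by omega)
  obtain ⟨c, hc⟩ : ∃ c : ℕ, (c : ℤ) = n % (4 * (M : ℤ)) := ⟨_, Int.toNat_of_nonneg hc0⟩
  rw [← hc, Int.toNat_natCast]
  unfold Qf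
  have h3 : (((c + 4 * M - i) % (4 * M) : ℕ) : ℤ) = n - i - 4 * M * q := by
    rw [Int.natCast_mod, Nat.cast_sub (by omega)]
    push_cast
    have h4 : (c : ℤ) + 4 * M - i = (n - i - 4 * M * q) + (4 * M) * (q + 1 - n / (4 * M)) := by
      have h5 := Int.emod_add_mul_ediv n (4 * (M : ℤ))
      rw [hc]
      linarith
    rw [h4, Int.add_mul_emod_self_left]
    have hk' : (k : ℤ) + 1 ≤ 4 := by exact_mod_cast hk
    apply Int.emod_eq_of_lt
    · exact le_trans (by positivity) h1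
    · exact lt_of_lt_of_le h2 (mul_le_mul_of_nonneg_right hk' hM'.le)
  apply Nat.div_eq_of_lt_le
  · have : ((k * M : ℕ) : ℤ) ≤ (((c + 4 * M - i) % (4 * M) : ℕ) : ℤ) := by
      rw [h3]
      push_cast
      exact h1
    exact_mod_cast this
  · have : (((c + 4 * M - i) % (4 * M) : ℕ) : ℤ) < (((k + 1) * M : ℕ) : ℤ) := by
      rw [h3]
      push_cast
      exact h2
    exact_mod_cast this

private theorem f6b_13 (M i : ℕ) (hM : 0 < M) (hi : i < M) (y z : Pt) (j : ℤ)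
    (h1 : -(M : ℤ) ≤ ⌊2 * (M : ℝ) / Real.pi * ar y z⌋ - i - 2 * M * j)
    (h2 : ⌊2 * (M : ℝ) / Real.pi * ar y z⌋ - i - 2 * M * j < 0) :
    qf M i y z = 1 ∨ qf M i y z = 3 := by
  unfold qf ce
  generalize ⌊2 * (M : ℝ) / Real.pi * ar y z⌋ = n at *
  rcases Int.even_or_odd' j with ⟨q, rfl | rfl⟩
  · right
    rw [f6b_Qf M i 3 hM hi (by norm_num) n (q - 1) (by push_cast; linarith) (by push_cast; linarith)]
    rfl
  · left
    rw [f6b_Qf M i 1 hM hi (by norm_num) n q (by push_cast; linarith) (by push_cast; linarith)]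
    rfl

private theorem f6b_02 (M i : ℕ) (hM : 0 < M) (hi : i < M) (y z : Pt) (j : ℤ)
    (h1 : 0 ≤ ⌊2 * (M : ℝ) / Real.pi * ar y z⌋ - i - 2 * M * j)
    (h2 : ⌊2 * (M : ℝ) / Real.pi * ar y z⌋ - i - 2 * M * j < M) :
    qf M i y z = 0 ∨ qf M i y z = 2 := by
  unfold qf ce
  generalize ⌊2 * (M : ℝ) / Real.pi * ar y z⌋ = n at *
  rcases Int.even_or_odd' j with ⟨q, rfl | rfl⟩
  · left
    rw [f6b_Qf M i 0 hM hi (by norm_num) n q (by push_cast; linarith) (by push_cast; linarith)]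
    rfl
  · right
    rw [f6b_Qf M i 2 hM hi (by norm_num) n q (by push_cast; linarith) (by push_cast; linarith)]
    rfl

private theorem f6b_floor (M g : ℕ) (hM : 0 < M) (θ : ℝ) (e : ℤ)
    (h : |θ - g * Real.pi / (2 * M) - e * (Real.pi / 2)| < Real.pi / 8) :
    -(M : ℤ) - 4 < 4 * (⌊2 * (M : ℝ) / Real.pi * θ⌋ - g - e * M) ∧
    4 * (⌊2 * (M : ℝ) / Real.pi * θ⌋ - g - e * M) < (M : ℤ) := by
  have hpi := Real.pi_pos
  have hM' : (0 : ℝ) < M := by exact_mod_cast hM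
  have h1 : 2 * (M : ℝ) / Real.pi * θ - g - e * M =
      (2 * M / Real.pi) * (θ - g * Real.pi / (2 * M) - e * (Real.pi / 2)) := by
    field_simp
  have h2 : |2 * (M : ℝ) / Real.pi * θ - g - e * M| < M / 4 := by
    rw [h1, abs_mul, abs_of_pos (by positivity)]
    calc 2 * (M : ℝ) / Real.pi * |θ - g * Real.pi / (2 * M) - e * (Real.pi / 2)|
        < 2 * (M : ℝ) / Real.pi * (Real.pi / 8) := mul_lt_mul_of_pos_left h (by positivity)
      _ = M / 4 := by field_simp; norm_num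
  obtain ⟨h3, h4⟩ := abs_lt.1 h2
  have h5 := Int.floor_le (2 * (M : ℝ) / Real.pi * θ)
  have h6 := Int.lt_floor_add_one (2 * (M : ℝ) / Real.pi * θ)
  constructor
  · have h7 : ((-(M : ℤ) - 4 : ℤ) : ℝ) <
        ((4 * (⌊2 * (M : ℝ) / Real.pi * θ⌋ - g - e * M) : ℤ) : ℝ) := by
      push_cast
      linarith
    exact_mod_cast h7
  · have h7 : ((4 * (⌊2 * (M : ℝ) / Real.pi * θ⌋ - g - e * M) : ℤ) : ℝ) < ((M : ℤ) : ℝ) := by
      push_cast
      linarith
    exact_mod_cast h7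

private theorem f6b_pos {y z : Pt} (h : y ≠ z) : 0 < ‖(⟨z 0 - y 0, z 1 - y 1⟩ : ℂ)‖ := by
  rw [norm_pos_iff]
  intro h0
  apply h
  have h1 := congrArg Complex.re h0
  have h2 := congrArg Complex.im h0
  simp only [Complex.zero_re, Complex.zero_im] at h1 h2
  ext t
  fin_cases t
  · show y 0 = z 0
    linarith
  · show y 1 = z 1
    linarith

/-- ROW F20-F6b.  PROOF.  With `ω` as in `cell_good`: `|sin ω| ≤ 2/5 |cos ω|` gives `ω ∈ (-π/8, π/8)` modulo `π`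
(`tan (π/8) = √2 - 1 > 2/5`), so the cell `c = ce M y z` satisfies `c - g ∈ [-M/4 - 1, M/4]` modulo `2M` and
`c - g - s ∈ [-M, -1]` modulo `2M`: `Qf M (g + s) c ∈ {1, 3}` if `g + s < M`; if `g + s ≥ M` the frame is
`i = g + s - M` and `Qf M i c ∈ {0, 2}`. -/
theorem cell_h (M g s : ℕ) (hM : 1000 ≤ M) (hg : g < M) (hs : M + 4 ≤ 4 * s) (hs' : 4 * s + 4 ≤ 3 * M)
    (y z : Pt) (h : y ≠ z)
    (hh : |rot (g * Real.pi / (2 * M)) z 1 - rot (g * Real.pi / (2 * M)) y 1| ≤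
      2 / 5 * |rot (g * Real.pi / (2 * M)) z 0 - rot (g * Real.pi / (2 * M)) y 0|) :
    (g + s < M → qf M ((g + s) % M) y z = 1 ∨ qf M ((g + s) % M) y z = 3) ∧
    (M ≤ g + s → qf M ((g + s) % M) y z = 0 ∨ qf M ((g + s) % M) y z = 2) := by
  obtain ⟨e0, e1⟩ := f6b_coord (g * Real.pi / (2 * M)) y z
  have hp := f6b_pos h
  rw [e0, e1, abs_mul, abs_mul, abs_of_pos hp] at hh
  have hh' : |Real.sin (ar y z - g * Real.pi / (2 * M))| ≤
      2 / 5 * |Real.cos (ar y z - g * Real.pi / (2 * M))| := by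
    refine le_of_mul_le_mul_left ?_ hp
    linarith
  obtain ⟨j, hj⟩ := f6b_h hh'
  obtain ⟨h1, h2⟩ := f6b_floor M g (by omega) (ar y z) (2 * j) (by
    have : ar y z - g * Real.pi / (2 * M) - ((2 * j : ℤ) : ℝ) * (Real.pi / 2) =
        ar y z - g * Real.pi / (2 * M) - j * Real.pi := by push_cast; ring
    rw [this]
    exact hj)
  constructor
  · intro hgs
    rw [Nat.mod_eq_of_lt hgs]
    apply f6b_13 M (g + s) (by omega) hgs y z j
    · push_cast
      linarith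
    · push_cast
      linarith
  · intro hgs
    rw [Nat.mod_eq_sub_mod hgs, Nat.mod_eq_of_lt (by omega)]
    apply f6b_02 M (g + s - M) (by omega) (by omega) y z j
    · rw [Nat.cast_sub hgs]
      push_cast
      linarith
    · rw [Nat.cast_sub hgs]
      push_cast
      linarith

/-- ROW F20-F6b.  PROOF.  `ω ∈ (3π/8, 5π/8)` modulo `π`: `c - g ∈ [3M/4 - 1, 5M/4]`, `c - g - s ∈ [0, M - 1]`
modulo `2M`. -/
theorem cell_v (M g s : ℕ) (hM : 1000 ≤ M) (hg : g < M) (hs : M + 4 ≤ 4 * s) (hs' : 4 * s + 4 ≤ 3 * M)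
    (y z : Pt) (h : y ≠ z)
    (hh : |rot (g * Real.pi / (2 * M)) z 0 - rot (g * Real.pi / (2 * M)) y 0| ≤
      2 / 5 * |rot (g * Real.pi / (2 * M)) z 1 - rot (g * Real.pi / (2 * M)) y 1|) :
    (g + s < M → qf M ((g + s) % M) y z = 0 ∨ qf M ((g + s) % M) y z = 2) ∧
    (M ≤ g + s → qf M ((g + s) % M) y z = 1 ∨ qf M ((g + s) % M) y z = 3) := by
  obtain ⟨e0, e1⟩ := f6b_coord (g * Real.pi / (2 * M)) y z
  have hp := f6b_pos h
  rw [e0, e1, abs_mul, abs_mul, abs_of_pos hp] at hh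
  have hh' : |Real.cos (ar y z - g * Real.pi / (2 * M))| ≤
      2 / 5 * |Real.sin (ar y z - g * Real.pi / (2 * M))| := by
    refine le_of_mul_le_mul_left ?_ hp
    linarith
  obtain ⟨j, hj⟩ := f6b_v hh'
  obtain ⟨h1, h2⟩ := f6b_floor M g (by omega) (ar y z) (2 * j + 1) (by
    have : ar y z - g * Real.pi / (2 * M) - ((2 * j + 1 : ℤ) : ℝ) * (Real.pi / 2) =
        ar y z - g * Real.pi / (2 * M) - Real.pi / 2 - j * Real.pi := by push_cast; ring
    rw [this]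
    exact hj)
  constructor
  · intro hgs
    rw [Nat.mod_eq_of_lt hgs]
    apply f6b_02 M (g + s) (by omega) hgs y z j
    · push_cast
      linarith
    · push_cast
      linarith
  · intro hgs
    rw [Nat.mod_eq_sub_mod hgs, Nat.mod_eq_of_lt (by omega)]
    apply f6b_13 M (g + s - M) (by omega) (by omega) y z (j + 1)
    · rw [Nat.cast_sub hgs]
      push_cast
      linarith
    · rw [Nat.cast_sub hgs]
      push_cast
      linarith

end Pool.Agent.MP_0af329_co.JP
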