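import Pool.Agent.MP_0af329_co.JPF2c
import Pool.Agent.MP_0af329_co.JPF3d
import Pool.Agent.MP_0af329_co.JPF4
import Pool.Agent.MP_0af329_co.JPF5a
import Pool.Agent.MP_0af329_co.JPF5b
import Pool.Agent.MP_0af329_co.JPF6a
import Pool.Agent.MP_0af329_co.JPF6b

set_option autoImplicit false

namespace Pool.Agent.MP_0af329_co.JP

open Finset EuclideanGeometry Filter Topology

/-- `Mn` as a number of neighbours. -/
theorem f6_Mn (S : Finset Pt) (M i i' : ℕ) (y : Pt) :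
    Mn S M i i' y = nb S (fun y z => inI M i i' (ce M y z)) y := by
  unfold Mn nb
  congr

/-- Neighbours in the image. -/
theorem f6_nb_image (f : Pt → Pt) (hf : Function.Injective f) (S : Finset Pt)
    (P : Pt → Pt → Prop) (y : Pt) :
    nb (S.image f) P (f y) = nb S (fun a b => P (f a) (f b)) y := by
  classical
  unfold nb
  rw [filter_image, card_image_of_injective _ hf]
  congr 1
  ext z
  simp only [mem_filter, ne_eq, hf.eq_iff]

/-- Pairs in the image. -/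
theorem f6_pc_image (f : Pt → Pt) (hf : Function.Injective f) (S : Finset Pt)
    (P : Pt → Pt → Prop) : pc (S.image f) P = pc S (fun a b => P (f a) (f b)) := by
  classical
  unfold pc
  have h : (S.image f) ×ˢ (S.image f) = (S ×ˢ S).image (Prod.map f f) := by
    ext t
    simp only [mem_product, mem_image, Prod.exists, Prod.map_apply]
    constructor
    · rintro ⟨⟨a, ha, h1⟩, ⟨b, hb, h2⟩⟩
      exact ⟨a, b, ⟨ha, hb⟩, Prod.ext h1 h2⟩
    · rintro ⟨a, b, ⟨ha, hb⟩, rfl⟩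
      exact ⟨⟨a, ha, rfl⟩, ⟨b, hb, rfl⟩⟩
  rw [h, filter_image, card_image_of_injective _ (hf.prodMap hf)]
  congr 1
  ext t
  simp only [mem_filter, ne_eq, Prod.map_fst, Prod.map_snd, hf.eq_iff]

theorem f6_pc_mono (S : Finset Pt) (P Q : Pt → Pt → Prop)
    (h : ∀ x ∈ S, ∀ y ∈ S, x ≠ y → P x y → Q x y) : pc S P ≤ pc S Q := by
  classical
  unfold pc
  refine card_le_card fun t ht => ?_
  rw [mem_filter, mem_product] at ht ⊢
  exact ⟨ht.1, ht.2.1, h _ ht.1.1 _ ht.1.2 ht.2.1 ht.2.2⟩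

theorem f6_nb_congr (S : Finset Pt) (P Q : Pt → Pt → Prop) (y : Pt)
    (h : ∀ z, P y z ↔ Q y z) : nb S P y = nb S Q y := by
  classical
  unfold nb
  congr 1
  ext z
  simp only [mem_filter, h]

/-- Two classes. -/
theorem f6_nb_two (S : Finset Pt) (q : Pt → Pt → Fin 4) (y : Pt) (j j' : Fin 4) (hj : j ≠ j') :
    nb S (fun y z => q y z = j ∨ q y z = j') y = An S q y j + An S q y j' := by
  classical
  have h1 : An S q y j + An S q y j' = ((S.filter fun z => z ≠ y ∧ q y z = j) ∪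
      (S.filter fun z => z ≠ y ∧ q y z = j')).card := by
    rw [card_union_of_disjoint]
    · unfold An
      congr
    · rw [disjoint_left]
      intro z h1 h2
      rw [mem_filter] at h1 h2
      exact hj (h1.2.2.symm.trans h2.2.2)
  rw [h1]
  unfold nb
  congr 1
  ext z
  simp only [mem_filter, mem_union]
  tauto

theorem f6_swap (M i i' : ℕ) (hM : 0 < M) (hi : i < M) (x y : Pt) (h : x ≠ y)
    (hR : inI M i i' (ce M x y)) : inI M i i' (ce M y x) := by
  unfold inI at hR ⊢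
  rw [ce_swap M hM x y h]
  have hc := ce_lt M hM x y
  obtain ⟨c, hce⟩ : ∃ c, c = ce M x y := ⟨_, rfl⟩
  rw [← hce] at hR hc ⊢
  have h1 : ((c + 2 * M) % (4 * M) + 4 * M - i) % M = (c + 4 * M - i) % M := by
    rcases lt_or_ge (c + 2 * M) (4 * M) with h2 | h2
    · rw [Nat.mod_eq_of_lt h2]
      have h3 : c + 2 * M + 4 * M - i = (c + 4 * M - i) + M * 2 := by omega
      rw [h3, Nat.add_mul_mod_self_left]
    · have h3 : (c + 2 * M) % (4 * M) = c + 2 * M - 4 * M := by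
        rw [Nat.mod_eq_sub_mod h2]
        exact Nat.mod_eq_of_lt (by omega)
      rw [h3]
      have h4 : c + 4 * M - i = (c + 2 * M - 4 * M + 4 * M - i) + M * 2 := by omega
      rw [h4, Nat.add_mul_mod_self_left]
  rw [h1]
  exact hR

open Classical in
/-- ROW F20-F6.  PROOF.  `M = 10^15`, `θ = 10^(-11)`, `τ = 5·10^(-12)` (`n³/12 - n(n-1)(n-5)/12 ≤ n²/2 ≤ 5·10^(-13) n³`),
`ζ = 8·10^(-6) ≥ 8θ + 4τ + 2√(θ+τ)`, `δ = 11ζ ≤ 9·10^(-5)`.  `sum_lost_le`; `dichotomy` with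
`R y z := inI M i i' (ce M y z)` (`Mn = nb`, symmetric because `ce_swap` changes the cell by `2M ≡ 0` modulo `M`) and
`var_le`; `conc` gives `g, K`; `exists_mid` gives `s`; `i = (g + s) % M`.
`φ = gπ/(2M)`; `col p q := qf M i (rot (-φ) p) (rot (-φ) q) ∈ {1, 3}` if `g + s < M`, `∈ {0, 2}` otherwise.
`hh`, `hv`: `cell_h`, `cell_v`; `hD`: `(nb - nb)² = Dn²`, `sumD_le`; `hbad`: `cell_good`. -/
theorem frames_main (a : ℝ) (h1 : Real.pi / 2 < a) (h2 : a ≤ Real.pi / 2 + Real.pi / (2 * 10 ^ 15))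
    (S : Finset Pt) (hn : 10 ^ 12 ≤ S.card)
    (hc : (cnt S (Set.Ioi a) : ℝ) ≤ (1 / 12 + 4 / 10 ^ 12) * (S.card : ℝ) ^ 3) :
    ∃ (φ : ℝ) (col : Pt → Pt → Prop), Geo (S.image (rot φ)) col := by
  obtain ⟨M, hMv⟩ : ∃ M : ℕ, M = 10 ^ 15 := ⟨_, rfl⟩
  have hMR : (M : ℝ) = 10 ^ 15 := by rw [hMv]; norm_num
  have hM0 : 0 < M := by rw [hMv]; norm_num
  have hM3 : 3 ≤ M := by rw [hMv]; norm_num
  have hM1000 : 1000 ≤ M := by rw [hMv]; norm_num
  obtain ⟨N, hN⟩ : ∃ N : ℝ, N = (S.card : ℝ) := ⟨_, rfl⟩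
  have hN12 : (10 : ℝ) ^ 12 ≤ N := by
    rw [hN]
    exact_mod_cast hn
  have hN0 : 0 < N := lt_of_lt_of_le (by norm_num) hN12
  have hcard0 : 0 < S.card := lt_of_lt_of_le (by norm_num) hn
  have hcard1000 : 1000 ≤ S.card := le_trans (by norm_num) hn
  have ha : a ≤ Real.pi / 2 + Real.pi / (2 * M) := by
    rw [hMR]
    exact h2
  have hL := sum_lost_le S a M hM3 ha
  -- the constants
  obtain ⟨θ, hθ⟩ : ∃ θ : ℝ, θ = 1 / 10 ^ 11 := ⟨_, rfl⟩
  obtain ⟨τ, hτ⟩ : ∃ τ : ℝ, τ = 5 / 10 ^ 12 := ⟨_, rfl⟩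
  have hθ0 : 0 < θ := by rw [hθ]; norm_num
  have hτ0 : 0 < τ := by rw [hτ]; norm_num
  have hθi : 1 / θ = 10 ^ 11 := by rw [hθ]; norm_num
  have hc' : (cnt S (Set.Ioi a) : ℝ) ≤
      (S.card : ℝ) * (S.card - 1) * (S.card - 5) / 12 + τ * (S.card : ℝ) ^ 3 := by
    refine hc.trans ?_
    rw [← hN, hτ]
    have h3 : N ^ 2 * 10 ^ 12 ≤ N ^ 3 := by
      have := mul_le_mul_of_nonneg_left hN12 (sq_nonneg N)
      calc N ^ 2 * 10 ^ 12 ≤ N ^ 2 * N := this
        _ = N ^ 3 := by ring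
    nlinarith [sq_nonneg N]
  have hsq : 2 * Real.sqrt (θ + τ) ≤ 775 / 10 ^ 8 := by
    have h3 : Real.sqrt (θ + τ) ≤ 3875 / 10 ^ 9 := by
      rw [Real.sqrt_le_left (by norm_num), hθ, hτ]
      norm_num
    linarith
  have hdi : ∀ i i' : ℕ, i < i' → i' < M → (Lc S a M i : ℝ) ≤ θ * (S.card : ℝ) ^ 3 →
      (Lc S a M i' : ℝ) ≤ θ * (S.card : ℝ) ^ 3 →
      (pc S (fun y z => inI M i i' (ce M y z)) : ℝ) ≤ 88 / 10 ^ 6 * (S.card : ℝ) ^ 2 ∨
        (S.card : ℝ) * (S.card - 1) - pc S (fun y z => inI M i i' (ce M y z)) ≤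
          88 / 10 ^ 6 * (S.card : ℝ) ^ 2 := by
    intro i i' hi hi' hLi hLi'
    have hv := var_le S a M i i' hM0 hi hi' θ τ hθ0.le hτ0.le hLi hLi' hc'
    have hv' : ∑ y ∈ S, (nb S (fun y z => inI M i i' (ce M y z)) y : ℝ) *
        ((S.card : ℝ) - 1 - nb S (fun y z => inI M i i' (ce M y z)) y) ≤
        8 / 10 ^ 6 * (S.card : ℝ) ^ 3 := by
      have h3 : ∑ y ∈ S, (nb S (fun y z => inI M i i' (ce M y z)) y : ℝ) *
          ((S.card : ℝ) - 1 - nb S (fun y z => inI M i i' (ce M y z)) y) =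
          ∑ y ∈ S, (Mn S M i i' y : ℝ) * ((S.card : ℝ) - 1 - Mn S M i i' y) :=
        sum_congr rfl fun y _ => by rw [f6_Mn]
      rw [h3]
      refine hv.trans ?_
      refine mul_le_mul_of_nonneg_right ?_ (by positivity)
      rw [hθ, hτ]
      rw [hθ, hτ] at hsq
      norm_num at hsq ⊢
      linarith
    have hd := dichotomy S (fun y z => inI M i i' (ce M y z))
      (fun x _ y _ hxy hR => f6_swap M i i' hM0 (hi.trans hi') x y hxy hR) (8 / 10 ^ 6)
      (by norm_num) hcard1000 hv'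
    rw [show (11 : ℝ) * (8 / 10 ^ 6) = 88 / 10 ^ 6 by norm_num] at hd
    exact hd
  obtain ⟨g, K, hg, hK, hpc⟩ := conc S a M θ (88 / 10 ^ 6) hθ0 (by norm_num)
    (by rw [hθi, hMR]; norm_num) hcard0 hL hdi
  obtain ⟨s, hs, hs', hLs⟩ := exists_mid S a M g θ hθ0 hg (by rw [hθi, hMR]; norm_num) hcard0 hL
  have hK' : 2000 * K ≤ M := by
    have h3 : (2000 : ℝ) * K ≤ M := by
      rw [hθi] at hK
      rw [hMR]
      linarith [hK, (by norm_num : (2000 : ℝ) * (10 ^ 11 + 1) ≤ 10 ^ 15)]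
    exact_mod_cast h3
  have him : (g + s) % M < M := Nat.mod_lt _ hM0
  have hsD := (sumD_le S a M ((g + s) % M) hM0 him θ τ hLs hc').1
  have hinj := rot_inj (g * Real.pi / (2 * M))
  have hcardI : (S.image (rot (g * Real.pi / (2 * M)))).card = S.card :=
    card_image_of_injective _ hinj
  -- the colour on `S`
  obtain ⟨C, hC, hC13, hC02⟩ : ∃ C : Pt → Pt → Prop,
      (∀ y : Pt, ((nb S C y : ℝ) - nb S (fun y z => ¬ C y z) y) ^ 2 =
        Dn S (qf M ((g + s) % M)) y ^ 2) ∧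
      (∀ y z : Pt, y ≠ z →
        |rot (g * Real.pi / (2 * M)) z 1 - rot (g * Real.pi / (2 * M)) y 1| ≤
        2 / 5 * |rot (g * Real.pi / (2 * M)) z 0 - rot (g * Real.pi / (2 * M)) y 0| → C y z) ∧
      (∀ y z : Pt, y ≠ z →
        |rot (g * Real.pi / (2 * M)) z 0 - rot (g * Real.pi / (2 * M)) y 0| ≤
        2 / 5 * |rot (g * Real.pi / (2 * M)) z 1 - rot (g * Real.pi / (2 * M)) y 1| → ¬ C y z) := by
    have hfour : ∀ t : Fin 4, ¬ (t = 1 ∨ t = 3) ↔ (t = 0 ∨ t = 2) := by decide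
    have hfour' : ∀ t : Fin 4, ¬ (t = 0 ∨ t = 2) ↔ (t = 1 ∨ t = 3) := by decide
    obtain ⟨q, hq⟩ : ∃ q : Pt → Pt → Fin 4, q = qf M ((g + s) % M) := ⟨_, rfl⟩
    rcases lt_or_ge (g + s) M with hlt | hge
    · refine ⟨fun y z => q y z = 1 ∨ q y z = 3, ?_, ?_, ?_⟩
      · intro y
        rw [f6_nb_two S q y 1 3 (by decide)]
        rw [f6_nb_congr S (fun y z => ¬ (q y z = 1 ∨ q y z = 3)) (fun y z => q y z = 0 ∨ q y z = 2) y
          (fun z => hfour _), f6_nb_two S q y 0 2 (by decide), ← hq, Dn]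
        push_cast
        ring
      · intro y z hyz hh
        have := (cell_h M g s hM1000 hg hs hs' y z hyz hh).1 hlt
        rw [← hq] at this
        exact this
      · intro y z hyz hh
        have := (cell_v M g s hM1000 hg hs hs' y z hyz hh).1 hlt
        rw [← hq] at this
        exact (hfour _).2 this
    · refine ⟨fun y z => q y z = 0 ∨ q y z = 2, ?_, ?_, ?_⟩
      · intro y
        rw [f6_nb_two S q y 0 2 (by decide)]
        rw [f6_nb_congr S (fun y z => ¬ (q y z = 0 ∨ q y z = 2)) (fun y z => q y z = 1 ∨ q y z = 3) y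
          (fun z => hfour' _), f6_nb_two S q y 1 3 (by decide), ← hq, Dn]
        push_cast
        ring
      · intro y z hyz hh
        have := (cell_h M g s hM1000 hg hs hs' y z hyz hh).2 hge
        rw [← hq] at this
        exact this
      · intro y z hyz hh
        have := (cell_v M g s hM1000 hg hs hs' y z hyz hh).2 hge
        rw [← hq] at this
        exact (hfour' _).2 this
  refine ⟨g * Real.pi / (2 * M), fun x y => C (rot (-(g * Real.pi / (2 * M))) x)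
    (rot (-(g * Real.pi / (2 * M))) y), ?_, ?_, ?_, ?_⟩
  · intro x hx y hy hxy hh
    obtain ⟨x', hx', rfl⟩ := mem_image.1 hx
    obtain ⟨y', hy', rfl⟩ := mem_image.1 hy
    simp only [rot_rot]
    exact hC13 x' y' (fun h => hxy (by rw [h])) hh
  · intro x hx y hy hxy hh
    obtain ⟨x', hx', rfl⟩ := mem_image.1 hx
    obtain ⟨y', hy', rfl⟩ := mem_image.1 hy
    simp only [rot_rot]
    exact hC02 x' y' (fun h => hxy (by rw [h])) hh
  · rw [sum_image (fun x _ y _ h => hinj h), hcardI]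
    have h3 : ∀ y ∈ S, ((nb (S.image (rot (g * Real.pi / (2 * M)))) (fun x y =>
        C (rot (-(g * Real.pi / (2 * M))) x) (rot (-(g * Real.pi / (2 * M))) y))
        (rot (g * Real.pi / (2 * M)) y) : ℝ) -
        nb (S.image (rot (g * Real.pi / (2 * M)))) (fun x y =>
        ¬ C (rot (-(g * Real.pi / (2 * M))) x) (rot (-(g * Real.pi / (2 * M))) y))
        (rot (g * Real.pi / (2 * M)) y)) ^ 2 = Dn S (qf M ((g + s) % M)) y ^ 2 := by
      intro y _
      rw [f6_nb_image _ hinj, f6_nb_image _ hinj]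
      simp only [rot_rot]
      exact hC y
    rw [sum_congr rfl h3]
    refine hsD.trans ?_
    refine mul_le_mul_of_nonneg_right ?_ (by positivity)
    rw [hθ, hτ]
    norm_num
  · rw [f6_pc_image _ hinj, hcardI]
    have h3 : pc S (fun a b => ¬ hty (rot (g * Real.pi / (2 * M)) a) (rot (g * Real.pi / (2 * M)) b) ∧
        ¬ vty (rot (g * Real.pi / (2 * M)) a) (rot (g * Real.pi / (2 * M)) b)) ≤
        pc S (fun y z => ¬ (ce M y z + 4 * M - g) % M < K) := by
      refine f6_pc_mono S _ _ fun x _ y _ hxy h hlt => ?_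
      rcases cell_good M g K hM0 hg hK' x y hxy hlt with h4 | h4
      · exact h.1 h4
      · exact h.2 h4
    have h4 : (pc S (fun a b => ¬ hty (rot (g * Real.pi / (2 * M)) a)
        (rot (g * Real.pi / (2 * M)) b) ∧
        ¬ vty (rot (g * Real.pi / (2 * M)) a) (rot (g * Real.pi / (2 * M)) b)) : ℝ) ≤
        pc S (fun y z => ¬ (ce M y z + 4 * M - g) % M < K) := by exact_mod_cast h3
    refine h4.trans (hpc.trans ?_)
    refine mul_le_mul_of_nonneg_right ?_ (by positivity)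
    norm_num

end Pool.Agent.MP_0af329_co.JP
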