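import Pool.Agent.MP_0af329_co.JPF4

set_option autoImplicit false

namespace Pool.Agent.MP_0af329_co.JP

open Finset EuclideanGeometry Filter Topology

open Classical in
/-- Markov's inequality. -/
theorem g1_markov (S : Finset Pt) (f : Pt → ℝ) (hf : ∀ x ∈ S, 0 ≤ f x) (c : ℝ) :
    ((S.filter fun x => c < f x).card : ℝ) * c ≤ ∑ x ∈ S, f x := by
  calc ((S.filter fun x => c < f x).card : ℝ) * c
      = ∑ _x ∈ S.filter (fun x => c < f x), c := by
        rw [Finset.sum_const, nsmul_eq_mul]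
    _ ≤ ∑ x ∈ S.filter (fun x => c < f x), f x :=
        Finset.sum_le_sum fun x hx => (Finset.mem_filter.1 hx).2.le
    _ ≤ ∑ x ∈ S, f x :=
        Finset.sum_le_sum_of_subset_of_nonneg (Finset.filter_subset _ _)
          (fun x hx _ => hf x hx)

open Classical in
/-- ROW F20-G1.  PROOF.  Markov: at most `0.02 n` points have more than `n/100` bad pairs (`hbad`, `sum_nb`), at most
`625·10^(-6) n` points have `|difference| > n/25` (`hD`). -/
theorem card_nontyp (S : Finset Pt) (col : Pt → Pt → Prop) (hG : Geo S col) (hn : 1000 ≤ S.card) :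
    ((S.filter fun x => ¬ Typ S col x).card : ℝ) ≤ 21 / 1000 * S.card := by
  have hn' : (1000 : ℝ) ≤ (S.card : ℝ) := by exact_mod_cast hn
  have hpos : (0 : ℝ) < (S.card : ℝ) := by linarith
  set n : ℝ := (S.card : ℝ) with hnd
  set f : Pt → ℝ := fun x => (nb S (fun x y => ¬ hty x y ∧ ¬ vty x y) x : ℝ) with hf
  set h : Pt → ℝ := fun x => ((nb S col x : ℝ) - nb S (fun y z => ¬ col y z) x) ^ 2 with hh
  have h1 := g1_markov S f (fun x _ => Nat.cast_nonneg _) (n / 100)
  have h2 := g1_markov S h (fun x _ => sq_nonneg _) ((n / 25) ^ 2)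
  have e1 : ∑ x ∈ S, f x = (pc S (fun x y => ¬ hty x y ∧ ¬ vty x y) : ℝ) := by
    rw [← sum_nb]
    push_cast
    rfl
  have h3 : ((S.filter fun x => n / 100 < f x).card : ℝ) * (n / 100) ≤
      2 / 10 ^ 4 * n ^ 2 := by
    refine h1.trans ?_
    rw [e1]
    exact hG.hbad
  have h4 : ((S.filter fun x => (n / 25) ^ 2 < h x).card : ℝ) * (n / 25) ^ 2 ≤
      1 / 10 ^ 6 * n ^ 3 := h2.trans hG.hD
  have h5 : ((S.filter fun x => n / 100 < f x).card : ℝ) ≤ 2 / 100 * n := by
    have : ((S.filter fun x => n / 100 < f x).card : ℝ) * (n / 100) ≤ (2 / 100 * n) * (n / 100) := by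
      refine h3.trans (le_of_eq ?_)
      ring
    exact le_of_mul_le_mul_right this (by positivity)
  have h6 : ((S.filter fun x => (n / 25) ^ 2 < h x).card : ℝ) ≤ 1 / 1000 * n := by
    have : ((S.filter fun x => (n / 25) ^ 2 < h x).card : ℝ) * (n / 25) ^ 2 ≤
        (1 / 1000 * n) * (n / 25) ^ 2 := by
      refine h4.trans ?_
      have h7 : (0 : ℝ) ≤ n ^ 3 := by positivity
      have h8 : (1 / 1000 * n) * (n / 25) ^ 2 = (1 / 625000) * n ^ 3 := by ring
      rw [h8]
      norm_num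
      linarith
    exact le_of_mul_le_mul_right this (by positivity)
  have hsub : (S.filter fun x => ¬ Typ S col x) ⊆
      (S.filter fun x => n / 100 < f x) ∪ (S.filter fun x => (n / 25) ^ 2 < h x) := by
    intro x hx
    obtain ⟨hxS, hx⟩ := Finset.mem_filter.1 hx
    by_contra hcon
    rw [Finset.mem_union, not_or, Finset.mem_filter, Finset.mem_filter, not_and, not_and] at hcon
    apply hx
    refine ⟨hxS, not_lt.1 (hcon.1 hxS), ?_⟩
    have h7 := not_lt.1 (hcon.2 hxS)
    exact abs_le_of_sq_le_sq h7 (by positivity)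
  have h8 : ((S.filter fun x => ¬ Typ S col x).card : ℝ) ≤
      ((S.filter fun x => n / 100 < f x).card : ℝ) +
        ((S.filter fun x => (n / 25) ^ 2 < h x).card : ℝ) := by
    exact_mod_cast (Finset.card_le_card hsub).trans (Finset.card_union_le _ _)
  linarith

/-- ROW F20-G1.  PROOF.  The set of ordered pairs of distinct typical points with `hty ∨ vty` is finite and not empty
(a typical point has at most `n/100` bad partners and at most `0.021 n` are not typical). -/
theorem exists_longest (S : Finset Pt) (col : Pt → Pt → Prop) (hG : Geo S col)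
    (hn : 1000 ≤ S.card) :
    ∃ u v : Pt, Typ S col u ∧ Typ S col v ∧ u ≠ v ∧ (hty u v ∨ vty u v) ∧
      ∀ x y : Pt, Typ S col x → Typ S col y → x ≠ y → (hty x y ∨ vty x y) →
        max |y 0 - x 0| |y 1 - x 1| ≤ max |v 0 - u 0| |v 1 - u 1| := by
  classical
  have hn' : (1000 : ℝ) ≤ (S.card : ℝ) := by exact_mod_cast hn
  have h0 := card_nontyp S col hG hn
  have hsum : (S.filter fun x => Typ S col x).card + (S.filter fun x => ¬ Typ S col x).card =
      S.card := Finset.card_filter_add_card_filter_not _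
  have hsum' : ((S.filter fun x => Typ S col x).card : ℝ) +
      ((S.filter fun x => ¬ Typ S col x).card : ℝ) = S.card := by exact_mod_cast hsum
  -- a typical point
  obtain ⟨u0, hu0⟩ : ∃ u0, Typ S col u0 := by
    have : (0 : ℝ) < ((S.filter fun x => Typ S col x).card : ℝ) := by linarith
    have h1 : 0 < (S.filter fun x => Typ S col x).card := by exact_mod_cast this
    obtain ⟨x, hx⟩ := Finset.card_pos.1 h1
    exact ⟨x, (Finset.mem_filter.1 hx).2⟩
  -- a good partner
  obtain ⟨v0, hv0, hne, hgood⟩ : ∃ v0, Typ S col v0 ∧ u0 ≠ v0 ∧ (hty u0 v0 ∨ vty u0 v0) := by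
    by_contra hcon
    have hsub : (S.filter fun x => Typ S col x) ⊆
        insert u0 (S.filter fun z => z ≠ u0 ∧ (¬ hty u0 z ∧ ¬ vty u0 z)) := by
      intro z hz
      obtain ⟨hzS, hz⟩ := Finset.mem_filter.1 hz
      rw [Finset.mem_insert]
      by_cases h : z = u0
      · exact Or.inl h
      · refine Or.inr (Finset.mem_filter.2 ⟨hzS, h, ?_⟩)
        have h1 : ¬ (hty u0 z ∨ vty u0 z) := fun h2 => hcon ⟨z, hz, fun h3 => h h3.symm, h2⟩
        exact not_or.1 h1
    have h1 := (Finset.card_le_card hsub).trans (Finset.card_insert_le _ _)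
    have h2 : ((S.filter fun z => z ≠ u0 ∧ (¬ hty u0 z ∧ ¬ vty u0 z)).card : ℝ) ≤
        (S.card : ℝ) / 100 := by
      refine le_trans (le_of_eq ?_) hu0.2.1
      unfold nb
      norm_cast
    have h3 : ((S.filter fun x => Typ S col x).card : ℝ) ≤
        ((S.filter fun z => z ≠ u0 ∧ (¬ hty u0 z ∧ ¬ vty u0 z)).card : ℝ) + 1 := by
      exact_mod_cast h1
    linarith
  -- the longest pair
  set T := (S ×ˢ S).filter fun t => Typ S col t.1 ∧ Typ S col t.2 ∧ t.1 ≠ t.2 ∧
    (hty t.1 t.2 ∨ vty t.1 t.2) with hT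
  have hTne : T.Nonempty :=
    ⟨(u0, v0), Finset.mem_filter.2 ⟨Finset.mem_product.2 ⟨hu0.1, hv0.1⟩, hu0, hv0, hne, hgood⟩⟩
  obtain ⟨t, ht, hmax⟩ := Finset.exists_max_image T
    (fun t => max |t.2 0 - t.1 0| |t.2 1 - t.1 1|) hTne
  obtain ⟨-, h1, h2, h3, h4⟩ := Finset.mem_filter.1 ht
  refine ⟨t.1, t.2, h1, h2, h3, h4, fun x y hx hy hxy hg => ?_⟩
  exact hmax (x, y) (Finset.mem_filter.2 ⟨Finset.mem_product.2 ⟨hx.1, hy.1⟩, hx, hy, hxy, hg⟩)

end Pool.Agent.MP_0af329_co.JP
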