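import Pool.Agent.MP_0af329_co.JPDefs

set_option autoImplicit false

namespace Pool.Agent.MP_0af329_co.JP

open Finset EuclideanGeometry Filter Topology

/-- ROW F20-G2a.  If both were nearly vertical: `l ≤ |z 0 - u 0| + |z 0 - v 0| ≤ 2l/1000`. -/
theorem not_both (u v z : Pt) (l : ℝ) (hl : 0 < l) (h0 : v 0 - u 0 = l)
    (h3 : |z 1 - u 1| ≤ l) (h4 : |z 1 - v 1| ≤ l) : ¬ (vty u z ∧ vty v z) := by
  rintro ⟨hu, hv⟩
  unfold vty at hu hv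
  have h5 := abs_le.1 hu
  have h6 := abs_le.1 hv
  linarith

/-- ROW F20-G2a. -/
theorem box_u (u v z : Pt) (l : ℝ) (hl : 0 < l) (h0 : v 0 - u 0 = l)
    (h1 : |v 1 - u 1| ≤ 1 / 1000 * l) (h4 : |z 0 - v 0| ≤ l) (hu : vty u z) (hv : hty v z) :
    |z 0 - u 0| ≤ 1 / 100000 * l ∧ |z 1 - u 1| ≤ 2 / 1000 * l := by
  unfold vty at hu
  unfold hty at hv
  have h5 := abs_le.1 h1
  have h6 := abs_le.1 hv
  have h7 : |z 1 - u 1| ≤ 2 / 1000 * l := by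
    rw [abs_le]
    constructor <;> linarith
  exact ⟨by linarith, h7⟩

/-- ROW F20-G2a. -/
theorem box_v (u v z : Pt) (l : ℝ) (hl : 0 < l) (h0 : v 0 - u 0 = l)
    (h1 : |v 1 - u 1| ≤ 1 / 1000 * l) (h4 : |z 0 - u 0| ≤ l) (hv : vty v z) (hu : hty u z) :
    |z 0 - v 0| ≤ 1 / 100000 * l ∧ |z 1 - v 1| ≤ 2 / 1000 * l := by
  unfold vty at hv
  unfold hty at hu
  have h5 := abs_le.1 h1
  have h6 := abs_le.1 hu
  have h7 : |z 1 - v 1| ≤ 2 / 1000 * l := by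
    rw [abs_le]
    constructor <;> linarith
  exact ⟨by linarith, h7⟩

/-- ROW F20-G2a. -/
theorem box_cross (u v p q : Pt) (l : ℝ) (hl : 0 < l) (h0 : v 0 - u 0 = l)
    (h1 : |v 1 - u 1| ≤ 1 / 1000 * l)
    (hp : |p 0 - u 0| ≤ 1 / 100000 * l ∧ |p 1 - u 1| ≤ 2 / 1000 * l)
    (hq : |q 0 - v 0| ≤ 1 / 100000 * l ∧ |q 1 - v 1| ≤ 2 / 1000 * l) :
    |q 1 - p 1| ≤ 1 / 100 * |q 0 - p 0| ∧ 9 / 10 * l ≤ q 0 - p 0 := by
  obtain ⟨hp0, hp1⟩ := hp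
  obtain ⟨hq0, hq1⟩ := hq
  have h5 := abs_le.1 h1
  have h6 := abs_le.1 hp0
  have h7 := abs_le.1 hp1
  have h8 := abs_le.1 hq0
  have h9 := abs_le.1 hq1
  have h10 : 9 / 10 * l ≤ q 0 - p 0 := by linarith
  refine ⟨?_, h10⟩
  rw [abs_of_nonneg (show 0 ≤ q 0 - p 0 by linarith), abs_le]
  constructor <;> linarith

end Pool.Agent.MP_0af329_co.JP
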