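import Pool.Agent.MP_0af329_co.JPG1
import Pool.Agent.MP_0af329_co.JPG2a

set_option autoImplicit false

namespace Pool.Agent.MP_0af329_co.JP

open Finset EuclideanGeometry Filter Topology

open Classical in
/-- the points counted by `nb` -/
noncomputable def g2F (S : Finset Pt) (P : Pt → Pt → Prop) (y : Pt) : Finset Pt :=
  S.filter fun z => z ≠ y ∧ P y z

theorem g2_nb (S : Finset Pt) (P : Pt → Pt → Prop) (y : Pt) : nb S P y = (g2F S P y).card := rfl

open Classical in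
theorem g2_mem {S : Finset Pt} {P : Pt → Pt → Prop} {y z : Pt} :
    z ∈ g2F S P y ↔ z ∈ S ∧ z ≠ y ∧ P y z := by
  unfold g2F
  exact Finset.mem_filter

/-- a typical point has at most `0.52 n` points of the colour `col` -/
theorem g2_col {S : Finset Pt} {col : Pt → Pt → Prop} {x : Pt} (hx : Typ S col x) :
    (nb S col x : ℝ) ≤ 52 / 100 * S.card := by
  classical
  have h1 : nb S col x + nb S (fun y z => ¬ col y z) x ≤ S.card := by
    rw [g2_nb, g2_nb, ← Finset.card_union_of_disjoint]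
    · apply Finset.card_le_card
      intro z hz
      rcases Finset.mem_union.1 hz with h | h
      · exact (g2_mem.1 h).1
      · exact (g2_mem.1 h).1
    · rw [Finset.disjoint_left]
      intro z hz hz'
      exact (g2_mem.1 hz').2.2 (g2_mem.1 hz).2.2
  have h2 : (nb S col x : ℝ) + nb S (fun y z => ¬ col y z) x ≤ S.card := by exact_mod_cast h1
  have h3 := abs_le.1 hx.2.2
  linarith [h3.2]

/-- many nearly vertical pairs in a cluster -/
theorem g2_pc {S : Finset Pt} {col : Pt → Pt → Prop} (hG : Geo S col) (hn : 1000 ≤ S.card)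
    {A B : Finset Pt} (hA : A ⊆ S) (hB : B ⊆ S) (hAB : Disjoint A B)
    (hT : ∀ z ∈ A, Typ S col z) (hc : ∀ z ∈ A, ∀ b ∈ B, col z b)
    (cA : 43 / 100 * (S.card : ℝ) ≤ A.card) (cB : 43 / 100 * (S.card : ℝ) ≤ B.card) :
    14 / 100 * (S.card : ℝ) ^ 2 ≤ pc A vty := by
  classical
  have hn' : (1000 : ℝ) ≤ S.card := by exact_mod_cast hn
  have key : ∀ z ∈ A, (A.card : ℝ) - 1 - 10 / 100 * S.card ≤ nb A vty z := by
    intro z hz
    obtain ⟨hzS, hbz, -⟩ := hT z hz
    have hcol := g2_col (hT z hz)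
    have h1 : A.erase z ⊆ g2F A vty z ∪ (g2F A col z ∪
        g2F S (fun x y => ¬ hty x y ∧ ¬ vty x y) z) := by
      intro y hy
      obtain ⟨hyz, hyA⟩ := Finset.mem_erase.1 hy
      by_cases hv : vty z y
      · exact Finset.mem_union_left _ (g2_mem.2 ⟨hyA, hyz, hv⟩)
      · by_cases hh : hty z y
        · refine Finset.mem_union_right _ (Finset.mem_union_left _ (g2_mem.2
            ⟨hyA, hyz, hG.hh z hzS y (hA hyA) hyz.symm ?_⟩))
          unfold hty at hh
          have := abs_nonneg (y 0 - z 0)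
          linarith
        · exact Finset.mem_union_right _ (Finset.mem_union_right _ (g2_mem.2
            ⟨hA hyA, hyz, hh, hv⟩))
    have h2 : (g2F A col z).card + B.card ≤ nb S col z := by
      rw [g2_nb, ← Finset.card_union_of_disjoint]
      · apply Finset.card_le_card
        intro y hy
        rcases Finset.mem_union.1 hy with h | h
        · obtain ⟨h3, h4⟩ := g2_mem.1 h
          exact g2_mem.2 ⟨hA h3, h4⟩
        · refine g2_mem.2 ⟨hB h, ?_, hc z hz y h⟩
          rintro rfl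
          exact Finset.disjoint_left.1 hAB hz h
      · rw [Finset.disjoint_left]
        intro y hy hy'
        exact Finset.disjoint_left.1 hAB (g2_mem.1 hy).1 hy'
    have h3 : (A.erase z).card ≤ nb A vty z + ((g2F A col z).card +
        nb S (fun x y => ¬ hty x y ∧ ¬ vty x y) z) := by
      rw [g2_nb, g2_nb]
      refine (Finset.card_le_card h1).trans ((Finset.card_union_le _ _).trans ?_)
      exact Nat.add_le_add_left (Finset.card_union_le _ _) _
    rw [Finset.card_erase_of_mem hz] at h3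
    have h4 : 1 ≤ A.card := Finset.card_pos.2 ⟨z, hz⟩
    have h5 : (A.card : ℝ) - 1 ≤ (nb A vty z : ℝ) + (((g2F A col z).card : ℝ) +
        nb S (fun x y => ¬ hty x y ∧ ¬ vty x y) z) := by
      have h6 : (((A.card - 1 : ℕ)) : ℝ) ≤ ((nb A vty z + ((g2F A col z).card +
        nb S (fun x y => ¬ hty x y ∧ ¬ vty x y) z) : ℕ) : ℝ) := by exact_mod_cast h3
      rw [Nat.cast_sub h4] at h6
      push_cast at h6
      exact h6
    have h7 : ((g2F A col z).card : ℝ) + B.card ≤ nb S col z := by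
      exact_mod_cast h2
    linarith
  have h1 : (pc A vty : ℝ) = ∑ z ∈ A, (nb A vty z : ℝ) := by
    rw [← sum_nb]
    push_cast
    rfl
  have h2 : (A.card : ℝ) * ((A.card : ℝ) - 1 - 10 / 100 * S.card) ≤ pc A vty := by
    rw [h1, ← nsmul_eq_mul]
    exact Finset.card_nsmul_le_sum _ _ _ key
  refine le_trans ?_ h2
  have h3 : 33 / 100 * (S.card : ℝ) - 1 ≤ (A.card : ℝ) - 1 - 10 / 100 * S.card := by linarith
  have h4 : (0 : ℝ) ≤ 33 / 100 * (S.card : ℝ) - 1 := by linarith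
  calc 14 / 100 * (S.card : ℝ) ^ 2 ≤ (43 / 100 * (S.card : ℝ)) * (33 / 100 * (S.card : ℝ) - 1) := by
        nlinarith
    _ ≤ (A.card : ℝ) * ((A.card : ℝ) - 1 - 10 / 100 * S.card) :=
        mul_le_mul cA h3 h4 (Nat.cast_nonneg _)

/-- the size of a cluster -/
theorem g2_card {S N A : Finset Pt} {col : Pt → Pt → Prop} {u : Pt} (hn : 1000 ≤ S.card)
    (hu : Typ S col u) (hN : 959 / 1000 * (S.card : ℝ) - 2 ≤ N.card)
    (hA : ∀ z ∈ N, z ∉ A → z ∈ S ∧ z ≠ u ∧ col u z) : 43 / 100 * (S.card : ℝ) ≤ A.card := by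
  classical
  have hn' : (1000 : ℝ) ≤ S.card := by exact_mod_cast hn
  have h1 : N ⊆ A ∪ g2F S col u := by
    intro z hz
    by_cases h : z ∈ A
    · exact Finset.mem_union_left _ h
    · obtain ⟨h2, h3, h4⟩ := hA z hz h
      exact Finset.mem_union_right _ (g2_mem.2 ⟨h2, h3, h4⟩)
  have h2 : N.card ≤ A.card + nb S col u := by
    rw [g2_nb]
    exact (Finset.card_le_card h1).trans (Finset.card_union_le _ _)
  have h3 : (N.card : ℝ) ≤ A.card + nb S col u := by exact_mod_cast h2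
  have h4 := g2_col hu
  linarith

/-- ROW F20-G2.  PROOF.  `l = v 0 - u 0 = max |v 0 - u 0| |v 1 - u 1|`.  `N`: the typical `z ≠ u, v` with `uz`, `vz` not bad;
`|N| ≥ n - 0.021n - 2 - 0.02n`.  `A = {z ∈ N : vty u z}`, `B = {z ∈ N : vty v z}`; for `z ∈ N`: `|z i - u i|, |z i - v i| ≤ l`
(`hmax`), `not_both`, so `A`, `B` are disjoint and for `z ∈ A`: `hty v z`, `box_u`; `z ∈ B`: `hty u z`, `box_v`.
For `z ∈ N \ A`: `hty u z`, so `col u z` (`hh`): at most `nb S col u ≤ (n - 1 + n/25)/2 ≤ 0.52n` points; so `|A| ≥ 0.43n`,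
the same for `B`.  `vA`: for `z ∈ A` all `b ∈ B` have `col z b` (`box_cross`), so at most `0.52n - 0.43n` points
`z' ∈ A` have `col z z'`, at most `0.01n` are bad with `z`, the others are `vty z z'`:
`pc A vty ≥ |A| (|A| - 1 - 0.1n) ≥ 0.43n (0.33n - 1) ≥ 0.14n²`; the same for `B` (`col b z` by `box_cross` and `hh`,
with the points in the other order: `|q 1 - p 1| = |p 1 - q 1|`). -/
theorem exists_clu (S : Finset Pt) (col : Pt → Pt → Prop) (hG : Geo S col) (hn : 1000 ≤ S.card)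
    (u v : Pt) (hu : Typ S col u) (hv : Typ S col v) (huv : u 0 < v 0) (hh : hty u v)
    (hmax : ∀ x y : Pt, Typ S col x → Typ S col y → x ≠ y → (hty x y ∨ vty x y) →
        max |y 0 - x 0| |y 1 - x 1| ≤ max |v 0 - u 0| |v 1 - u 1|) :
    ∃ A B : Finset Pt, Clu S A B u v (v 0 - u 0) := by
  classical
  have hn' : (1000 : ℝ) ≤ S.card := by exact_mod_cast hn
  obtain ⟨l, hl⟩ : ∃ l, l = v 0 - u 0 := ⟨_, rfl⟩
  have hl0 : 0 < l := by rw [hl]; linarith
  have h1 : |v 1 - u 1| ≤ 1 / 1000 * l := by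
    have := hh
    unfold hty at this
    rw [← hl, abs_of_pos hl0] at this
    exact this
  have hmaxl : max |v 0 - u 0| |v 1 - u 1| = l := by
    rw [← hl, abs_of_pos hl0]
    exact max_eq_left (by linarith)
  rw [hmaxl] at hmax
  obtain ⟨N, hNdef⟩ : ∃ N : Finset Pt, N = S.filter fun z => z ≠ u ∧ z ≠ v ∧ Typ S col z ∧
      (hty u z ∨ vty u z) ∧ (hty v z ∨ vty v z) := ⟨_, rfl⟩
  have hNm : ∀ z ∈ N, z ∈ S ∧ z ≠ u ∧ z ≠ v ∧ Typ S col z ∧
      (hty u z ∨ vty u z) ∧ (hty v z ∨ vty v z) := by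
    intro z hz
    rw [hNdef] at hz
    exact Finset.mem_filter.1 hz
  have hNc : 959 / 1000 * (S.card : ℝ) - 2 ≤ N.card := by
    have h2 : S ⊆ N ∪ ({u, v} ∪ ((S.filter fun x => ¬ Typ S col x) ∪
        (g2F S (fun x y => ¬ hty x y ∧ ¬ vty x y) u ∪
          g2F S (fun x y => ¬ hty x y ∧ ¬ vty x y) v))) := by
      intro z hz
      simp only [Finset.mem_union, Finset.mem_insert, Finset.mem_singleton, Finset.mem_filter, hNdef,
        g2_mem]
      by_cases e1 : z = u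
      · exact Or.inr (Or.inl (Or.inl e1))
      by_cases e2 : z = v
      · exact Or.inr (Or.inl (Or.inr e2))
      by_cases e3 : Typ S col z
      · by_cases e4 : hty u z ∨ vty u z
        · by_cases e5 : hty v z ∨ vty v z
          · exact Or.inl ⟨hz, e1, e2, e3, e4, e5⟩
          · exact Or.inr (Or.inr (Or.inr (Or.inr ⟨hz, e2, not_or.1 e5⟩)))
        · exact Or.inr (Or.inr (Or.inr (Or.inl ⟨hz, e1, not_or.1 e4⟩)))
      · exact Or.inr (Or.inr (Or.inl ⟨hz, e3⟩))
    have h3 : S.card ≤ N.card + (2 + ((S.filter fun x => ¬ Typ S col x).card +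
        (nb S (fun x y => ¬ hty x y ∧ ¬ vty x y) u + nb S (fun x y => ¬ hty x y ∧ ¬ vty x y) v))) := by
      rw [g2_nb, g2_nb]
      refine (Finset.card_le_card h2).trans ((Finset.card_union_le _ _).trans
        (Nat.add_le_add_left ((Finset.card_union_le _ _).trans (Nat.add_le_add Finset.card_le_two
          ((Finset.card_union_le _ _).trans (Nat.add_le_add_left (Finset.card_union_le _ _) _)))) _))
    have h4 : (S.card : ℝ) ≤ N.card + (2 + (((S.filter fun x => ¬ Typ S col x).card : ℝ) +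
        ((nb S (fun x y => ¬ hty x y ∧ ¬ vty x y) u : ℝ) +
          nb S (fun x y => ¬ hty x y ∧ ¬ vty x y) v))) := by exact_mod_cast h3
    have h5 := card_nontyp S col hG hn
    have h6 := hu.2.1
    have h7 := hv.2.1
    linarith
  have hbu : ∀ z ∈ N, |z 0 - u 0| ≤ l ∧ |z 1 - u 1| ≤ l := by
    intro z hz
    obtain ⟨-, h3, -, h5, h6, -⟩ := hNm z hz
    have h7 := hmax u z hu h5 h3.symm h6
    exact ⟨(le_max_left _ _).trans h7, (le_max_right _ _).trans h7⟩
  have hbv : ∀ z ∈ N, |z 0 - v 0| ≤ l ∧ |z 1 - v 1| ≤ l := by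
    intro z hz
    obtain ⟨-, -, h4, h5, -, h6⟩ := hNm z hz
    have h7 := hmax v z hv h5 h4.symm h6
    exact ⟨(le_max_left _ _).trans h7, (le_max_right _ _).trans h7⟩
  obtain ⟨A, hAdef⟩ : ∃ A : Finset Pt, A = N.filter fun z => vty u z := ⟨_, rfl⟩
  obtain ⟨B, hBdef⟩ : ∃ B : Finset Pt, B = N.filter fun z => vty v z := ⟨_, rfl⟩
  have hAm : ∀ z, z ∈ A ↔ z ∈ N ∧ vty u z := fun z => by rw [hAdef, Finset.mem_filter]
  have hBm : ∀ z, z ∈ B ↔ z ∈ N ∧ vty v z := fun z => by rw [hBdef, Finset.mem_filter]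
  have hnb : ∀ z ∈ N, ¬ (vty u z ∧ vty v z) := fun z hz =>
    not_both u v z l hl0 hl.symm (hbu z hz).2 (hbv z hz).2
  have hAh : ∀ z ∈ A, hty v z := by
    intro z hz
    obtain ⟨h2, h3⟩ := (hAm z).1 hz
    rcases (hNm z h2).2.2.2.2.2 with h4 | h4
    · exact h4
    · exact absurd ⟨h3, h4⟩ (hnb z h2)
  have hBh : ∀ z ∈ B, hty u z := by
    intro z hz
    obtain ⟨h2, h3⟩ := (hBm z).1 hz
    rcases (hNm z h2).2.2.2.2.1 with h4 | h4
    · exact h4
    · exact absurd ⟨h4, h3⟩ (hnb z h2)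
  have bA : ∀ p ∈ A, |p 0 - u 0| ≤ 1 / 100000 * l ∧ |p 1 - u 1| ≤ 2 / 1000 * l := by
    intro z hz
    obtain ⟨h2, h3⟩ := (hAm z).1 hz
    exact box_u u v z l hl0 hl.symm h1 (hbv z h2).1 h3 (hAh z hz)
  have bB : ∀ p ∈ B, |p 0 - v 0| ≤ 1 / 100000 * l ∧ |p 1 - v 1| ≤ 2 / 1000 * l := by
    intro z hz
    obtain ⟨h2, h3⟩ := (hBm z).1 hz
    exact box_v u v z l hl0 hl.symm h1 (hbu z h2).1 h3 (hBh z hz)
  have hAN : ∀ z ∈ A, z ∈ N := fun z hz => ((hAm z).1 hz).1
  have hBN : ∀ z ∈ B, z ∈ N := fun z hz => ((hBm z).1 hz).1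
  have hAS : A ⊆ S := fun z hz => (hNm z (hAN z hz)).1
  have hBS : B ⊆ S := fun z hz => (hNm z (hBN z hz)).1
  have hAB : Disjoint A B := by
    rw [Finset.disjoint_left]
    intro z hz hz'
    exact hnb z (hAN z hz) ⟨((hAm z).1 hz).2, ((hBm z).1 hz').2⟩
  have cA : 43 / 100 * (S.card : ℝ) ≤ A.card := by
    refine g2_card hn hu hNc fun z hz hzA => ?_
    obtain ⟨h3, h4, -, -, h6, -⟩ := hNm z hz
    refine ⟨h3, h4, hG.hh u hu.1 z h3 h4.symm ?_⟩
    rcases h6 with h6 | h6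
    · unfold hty at h6
      have := abs_nonneg (z 0 - u 0)
      linarith
    · exact absurd ((hAm z).2 ⟨hz, h6⟩) hzA
  have cB : 43 / 100 * (S.card : ℝ) ≤ B.card := by
    refine g2_card hn hv hNc fun z hz hzB => ?_
    obtain ⟨h3, -, h4, -, -, h6⟩ := hNm z hz
    refine ⟨h3, h4, hG.hh v hv.1 z h3 h4.symm ?_⟩
    rcases h6 with h6 | h6
    · unfold hty at h6
      have := abs_nonneg (z 0 - v 0)
      linarith
    · exact absurd ((hBm z).2 ⟨hz, h6⟩) hzB
  have hne : ∀ a ∈ A, ∀ b ∈ B, a ≠ b := by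
    rintro a ha b hb rfl
    exact Finset.disjoint_left.1 hAB ha hb
  refine ⟨A, B, ?_⟩
  rw [← hl]
  refine ⟨hl0, hl.symm, h1, hAS, hBS, hAB, bA, bB, cA, cB, ?_, ?_⟩
  · refine g2_pc hG hn hAS hBS hAB (fun z hz => (hNm z (hAN z hz)).2.2.2.1) ?_ cA cB
    intro z hz b hb
    have h2 := (box_cross u v z b l hl0 hl.symm h1 (bA z hz) (bB b hb)).1
    refine hG.hh z (hAS hz) b (hBS hb) (hne z hz b hb) ?_
    have := abs_nonneg (b 0 - z 0)
    linarith
  · refine g2_pc hG hn hBS hAS hAB.symm (fun z hz => (hNm z (hBN z hz)).2.2.2.1) ?_ cB cA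
    intro z hz a ha
    have h2 := (box_cross u v a z l hl0 hl.symm h1 (bA a ha) (bB z hz)).1
    refine hG.hh z (hBS hz) a (hAS ha) (hne a ha z hz).symm ?_
    rw [abs_sub_comm (a 1), abs_sub_comm (a 0)]
    have := abs_nonneg (z 0 - a 0)
    linarith

end Pool.Agent.MP_0af329_co.JP
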