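import Pool.Agent.MP_0af329_co.JPE0
import Pool.Agent.MP_0af329_co.JPG2a

set_option autoImplicit false

namespace Pool.Agent.MP_0af329_co.JP

open Finset EuclideanGeometry Filter Topology

private theorem cm_left (a : ℝ) (ha0 : 0 ≤ a) (hpi : a ≤ Real.pi) (ha : -(1 / 1000) ≤ Real.cos a)
    (u x p q : Pt) (l : ℝ) (hl : 0 < l) (hX : x 0 - u 0 < -(l / 5))
    (hY : |x 1 - u 1| ≤ 2 / 5 * |x 0 - u 0|)
    (hp : |p 0 - u 0| ≤ 1 / 100000 * l ∧ |p 1 - u 1| ≤ 2 / 1000 * l)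
    (hc : |q 1 - p 1| ≤ 1 / 100 * |q 0 - p 0|) (hc' : 9 / 10 * l ≤ q 0 - p 0) :
    a < ∠ x p q := by
  have hp0 := abs_le.1 hp.1
  have hX' : |x 0 - u 0| = -(x 0 - u 0) := abs_of_neg (by linarith)
  have hr0 : x 0 - p 0 < 0 := by linarith [hp0.1]
  have hr0' : |x 0 - p 0| = -(x 0 - p 0) := abs_of_neg hr0
  have hr1 : |x 1 - p 1| ≤ |x 1 - u 1| + |p 1 - u 1| := by
    have e : x 1 - p 1 = (x 1 - u 1) - (p 1 - u 1) := by ring
    rw [e]; exact abs_sub _ _
  unfold EuclideanGeometry.angle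
  apply slope_angle a ha0 hpi ha _ _ (1 / 2) (1 / 100) (by norm_num) (by norm_num)
  · simp only [vsub_eq_sub, PiLp.sub_apply]
    rw [hr0']
    linarith [hp.2, hp0.1, hp0.2]
  · simp only [vsub_eq_sub, PiLp.sub_apply]
    exact hc
  · simp only [vsub_eq_sub, PiLp.sub_apply]
    exact mul_neg_of_neg_of_pos hr0 (by linarith)
  · norm_num

private theorem cm_right (a : ℝ) (ha0 : 0 ≤ a) (hpi : a ≤ Real.pi) (ha : -(1 / 1000) ≤ Real.cos a)
    (v x p q : Pt) (l : ℝ) (hl : 0 < l) (hX : l / 5 < x 0 - v 0)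
    (hY : |x 1 - v 1| ≤ 2 / 5 * |x 0 - v 0|)
    (hq : |q 0 - v 0| ≤ 1 / 100000 * l ∧ |q 1 - v 1| ≤ 2 / 1000 * l)
    (hc : |q 1 - p 1| ≤ 1 / 100 * |q 0 - p 0|) (hc' : 9 / 10 * l ≤ q 0 - p 0) :
    a < ∠ p q x := by
  have hq0 := abs_le.1 hq.1
  have hX' : |x 0 - v 0| = x 0 - v 0 := abs_of_pos (by linarith)
  have hr0 : 0 < x 0 - q 0 := by linarith [hq0.2]
  have hr0' : |x 0 - q 0| = x 0 - q 0 := abs_of_pos hr0
  have hr1 : |x 1 - q 1| ≤ |x 1 - v 1| + |q 1 - v 1| := by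
    have e : x 1 - q 1 = (x 1 - v 1) - (q 1 - v 1) := by ring
    rw [e]; exact abs_sub _ _
  unfold EuclideanGeometry.angle
  apply slope_angle a ha0 hpi ha _ _ (1 / 100) (1 / 2) (by norm_num) (by norm_num)
  · simp only [vsub_eq_sub, PiLp.sub_apply]
    rw [abs_sub_comm (p 1) (q 1), abs_sub_comm (p 0) (q 0)]
    exact hc
  · simp only [vsub_eq_sub, PiLp.sub_apply]
    rw [hr0']
    linarith [hq.2, hq0.1, hq0.2]
  · simp only [vsub_eq_sub, PiLp.sub_apply]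
    exact mul_neg_of_neg_of_pos (by linarith) hr0
  · norm_num

private theorem cm_mid (a : ℝ) (ha0 : 0 ≤ a) (hpi : a ≤ Real.pi) (ha : -(1 / 1000) ≤ Real.cos a)
    (u v x p q : Pt) (l : ℝ) (hl : 0 < l) (h1 : |v 1 - u 1| ≤ 1 / 1000 * l)
    (hX : l / 5 < x 0 - u 0) (hX' : l / 5 < v 0 - x 0) (hY : |x 1 - u 1| ≤ 41 / 1000 * l)
    (hp : |p 0 - u 0| ≤ 1 / 100000 * l ∧ |p 1 - u 1| ≤ 2 / 1000 * l)
    (hq : |q 0 - v 0| ≤ 1 / 100000 * l ∧ |q 1 - v 1| ≤ 2 / 1000 * l) :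
    a < ∠ p x q := by
  have hp0 := abs_le.1 hp.1
  have hq0 := abs_le.1 hq.1
  have r0 : p 0 - x 0 < 0 := by linarith [hp0.2]
  have r0' : |p 0 - x 0| = -(p 0 - x 0) := abs_of_neg r0
  have t0 : 0 < q 0 - x 0 := by linarith [hq0.1]
  have t0' : |q 0 - x 0| = q 0 - x 0 := abs_of_pos t0
  have r1 : |p 1 - x 1| ≤ |p 1 - u 1| + |x 1 - u 1| := by
    have e : p 1 - x 1 = (p 1 - u 1) - (x 1 - u 1) := by ring
    rw [e]; exact abs_sub _ _
  have t1 : |q 1 - x 1| ≤ |q 1 - v 1| + |v 1 - u 1| + |x 1 - u 1| := by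
    have e : q 1 - x 1 = ((q 1 - v 1) + (v 1 - u 1)) - (x 1 - u 1) := by ring
    rw [e]
    have := abs_sub ((q 1 - v 1) + (v 1 - u 1)) (x 1 - u 1)
    have := abs_add_le (q 1 - v 1) (v 1 - u 1)
    linarith
  unfold EuclideanGeometry.angle
  apply slope_angle a ha0 hpi ha _ _ (1 / 4) (1 / 4) (by norm_num) (by norm_num)
  · simp only [vsub_eq_sub, PiLp.sub_apply]
    rw [r0']
    linarith [hp.2, hp0.2]
  · simp only [vsub_eq_sub, PiLp.sub_apply]
    rw [t0']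
    linarith [hq.2, hq0.1]
  · simp only [vsub_eq_sub, PiLp.sub_apply]
    exact mul_neg_of_neg_of_pos r0 t0
  · norm_num

/-- ROW F20-G3b. -/
theorem cross_marked (a : ℝ) (ha0 : 0 ≤ a) (hpi : a ≤ Real.pi) (ha : -(1 / 1000) ≤ Real.cos a)
    (u v x p q : Pt) (l : ℝ) (hl : 0 < l) (h0 : v 0 - u 0 = l) (h1 : |v 1 - u 1| ≤ 1 / 1000 * l)
    (hu : ¬ Near l u x) (hv : ¬ Near l v x)
    (h : |x 1 - u 1| ≤ 1 / 20 * |x 0 - u 0| ∨ |x 1 - v 1| ≤ 1 / 20 * |x 0 - v 0|)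
    (hp : |p 0 - u 0| ≤ 1 / 100000 * l ∧ |p 1 - u 1| ≤ 2 / 1000 * l)
    (hq : |q 0 - v 0| ≤ 1 / 100000 * l ∧ |q 1 - v 1| ≤ 2 / 1000 * l) :
    a < ∠ x p q ∨ a < ∠ p x q ∨ a < ∠ p q x := by
  obtain ⟨hc, hc'⟩ := box_cross u v p q l hl h0 h1 hp hq
  have huv1 : |x 1 - v 1| ≤ |x 1 - u 1| + |v 1 - u 1| := by
    have e : x 1 - v 1 = (x 1 - u 1) - (v 1 - u 1) := by ring
    rw [e]; exact abs_sub _ _
  have huv2 : |x 1 - u 1| ≤ |x 1 - v 1| + |v 1 - u 1| := by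
    have e : x 1 - u 1 = (x 1 - v 1) + (v 1 - u 1) := by ring
    rw [e]; exact abs_add_le _ _
  -- the position of `x 0`
  have hxu : l / 5 < |x 0 - u 0| := by
    by_contra hcon
    have hcon := not_lt.1 hcon
    apply hu
    refine ⟨hcon, ?_⟩
    rcases h with h | h
    · linarith
    · have h5 : |x 0 - v 0| ≤ |x 0 - u 0| + l := by
        have e : x 0 - v 0 = (x 0 - u 0) - (v 0 - u 0) := by ring
        rw [e]
        have := abs_sub (x 0 - u 0) (v 0 - u 0)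
        rw [h0, abs_of_pos hl] at this
        rw [h0]
        exact this
      linarith
  have hxv : l / 5 < |x 0 - v 0| := by
    by_contra hcon
    have hcon := not_lt.1 hcon
    apply hv
    refine ⟨hcon, ?_⟩
    rcases h with h | h
    · have h5 : |x 0 - u 0| ≤ |x 0 - v 0| + l := by
        have e : x 0 - u 0 = (x 0 - v 0) + (v 0 - u 0) := by ring
        rw [e]
        have := abs_add_le (x 0 - v 0) (v 0 - u 0)
        rw [h0, abs_of_pos hl] at this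
        rw [h0]
        exact this
      linarith
    · linarith
  rcases lt_abs.1 hxu with hxu' | hxu'
  · rcases lt_abs.1 hxv with hxv' | hxv'
    · -- right of `v`
      right; right
      have e1 : |x 0 - v 0| = x 0 - v 0 := abs_of_pos (by linarith)
      have e2 : |x 0 - u 0| = x 0 - u 0 := abs_of_pos (by linarith)
      apply cm_right a ha0 hpi ha v x p q l hl hxv' _ hq hc hc'
      rcases h with h | h
      · rw [e2] at h
        rw [e1]
        linarith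
      · linarith [abs_nonneg (x 0 - v 0)]
    · -- between
      right; left
      have e1 : |x 0 - v 0| = -(x 0 - v 0) := abs_of_neg (by linarith)
      have e2 : |x 0 - u 0| = x 0 - u 0 := abs_of_pos (by linarith)
      apply cm_mid a ha0 hpi ha u v x p q l hl h1 hxu' (by linarith) _ hp hq
      rcases h with h | h
      · rw [e2] at h
        linarith
      · rw [e1] at h
        linarith
  · -- left of `u`
    left
    have e2 : |x 0 - u 0| = -(x 0 - u 0) := abs_of_neg (by linarith)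
    have e1 : |x 0 - v 0| = -(x 0 - v 0) := abs_of_neg (by linarith)
    apply cm_left a ha0 hpi ha u x p q l hl (by linarith) _ hp hc hc'
    rcases h with h | h
    · linarith [abs_nonneg (x 0 - u 0)]
    · rw [e1] at h
      rw [e2]
      linarith

end Pool.Agent.MP_0af329_co.JP
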