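import Pool.Agent.MP_0af329_co.JPA3

set_option autoImplicit false

namespace Pool.Agent.MP_0af329_co.JP

open Finset EuclideanGeometry Filter Topology

/-- Counting by an injection. -/
theorem card_le_tc {β : Type} (S : Finset Pt) (P : Pt → Pt → Pt → Prop) (s : Finset β)
    (f : β → Pt × Pt × Pt)
    (hm : ∀ b ∈ s, f b ∈ trip S ∧ P (f b).1 (f b).2.1 (f b).2.2)
    (hi : ∀ b ∈ s, ∀ b' ∈ s, f b = f b' → b = b') : s.card ≤ tc S P := by
  classical
  unfold tc
  apply Finset.card_le_card_of_injOn f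
  · intro b hb
    exact Finset.mem_coe.mpr (Finset.mem_filter.mpr (hm b (Finset.mem_coe.mp hb)))
  · intro b hb b' hb' h
    exact hi b (Finset.mem_coe.mp hb) b' (Finset.mem_coe.mp hb') h

open Classical in
/-- An ordered pair of points different from `x` gives a triple which contains `x`. -/
noncomputable def phiT (a : ℝ) (x : Pt) (t : Pt × Pt) : Pt × Pt × Pt :=
  if a < ∠ x t.1 t.2 then (x, t.1, t.2) else (t.1, t.2, x)

theorem phiT_inj (a : ℝ) (x : Pt) (t t' : Pt × Pt) (h1 : t.1 ≠ x) (h1' : t'.1 ≠ x)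
    (h : phiT a x t = phiT a x t') : t = t' := by
  unfold phiT at h
  split_ifs at h with c c'
  · simp only [Prod.mk.injEq] at h
    exact Prod.ext h.2.1 h.2.2
  · simp only [Prod.mk.injEq] at h
    exact absurd h.1.symm h1'
  · simp only [Prod.mk.injEq] at h
    exact absurd h.1 h1
  · simp only [Prod.mk.injEq] at h
    exact Prod.ext h.1 h.2.1

theorem phiT_mem (a : ℝ) (S A : Finset Pt) (x : Pt) (hx : x ∈ S) (hA : A ⊆ S) (hxA : x ∉ A)
    (h : ∀ p ∈ A, ∀ p' ∈ A, p ≠ p' → vty p p' → a < ∠ x p p' ∨ a < ∠ x p' p)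
    (t : Pt × Pt) (h1 : t.1 ∈ A) (h2 : t.2 ∈ A) (hne : t.1 ≠ t.2) (hv : vty t.1 t.2) :
    phiT a x t ∈ trip S ∧ a < ∠ (phiT a x t).1 (phiT a x t).2.1 (phiT a x t).2.2 ∧
      ((phiT a x t).1 = x ∨ (phiT a x t).2.1 = x ∨ (phiT a x t).2.2 = x) := by
  have n1 : t.1 ≠ x := fun e => hxA (e ▸ h1)
  have n2 : t.2 ≠ x := fun e => hxA (e ▸ h2)
  unfold phiT
  split_ifs with c
  · refine ⟨?_, c, Or.inl rfl⟩
    unfold trip
    rw [Finset.mem_filter]
    refine ⟨?_, n1.symm, hne, n2.symm⟩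
    rw [Finset.mem_product, Finset.mem_product]
    exact ⟨hx, hA h1, hA h2⟩
  · refine ⟨?_, ?_, Or.inr (Or.inr rfl)⟩
    · unfold trip
      rw [Finset.mem_filter]
      refine ⟨?_, hne, n2, n1⟩
      rw [Finset.mem_product, Finset.mem_product]
      exact ⟨hA h1, hA h2, hx⟩
    · rcases h t.1 h1 t.2 h2 hne hv with h' | h'
      · exact absurd h' c
      · rw [EuclideanGeometry.angle_comm]
        exact h'

/-- ROW F20-G3.  PROOF.  `x ∉ A` (points of `A` are near `u`).  For every unordered pair `{p, p'}` counted in `pc A vty`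
(symmetric), twice, the two ordered triples `(x, p, p')`, `(p', p, x)` or `(x, p', p)`, `(p, p', x)` are counted in
`dg S a x` (`far_marked`). -/
theorem dg_ge_pairs (a : ℝ) (S A : Finset Pt) (x : Pt) (hx : x ∈ S) (hA : A ⊆ S) (hxA : x ∉ A)
    (h : ∀ p ∈ A, ∀ p' ∈ A, p ≠ p' → vty p p' → a < ∠ x p p' ∨ a < ∠ x p' p) :
    pc A vty ≤ dg S a x := by
  classical
  unfold pc dg
  apply card_le_tc S _ _ (phiT a x)
  · intro t ht
    rw [Finset.mem_filter, Finset.mem_product] at ht
    exact phiT_mem a S A x hx hA hxA h t ht.1.1 ht.1.2 ht.2.1 ht.2.2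
  · intro t ht t' ht' he
    rw [Finset.mem_filter, Finset.mem_product] at ht ht'
    exact phiT_inj a x t t' (fun e => hxA (e ▸ ht.1.1)) (fun e => hxA (e ▸ ht'.1.1)) he

open Classical in
/-- A pair and a sign give a triple which contains `x`. -/
noncomputable def psiT (a : ℝ) (x : Pt) (t : (Pt × Pt) × Bool) : Pt × Pt × Pt :=
  if t.2 then
    (if a < ∠ x t.1.1 t.1.2 then (x, t.1.1, t.1.2)
      else if a < ∠ t.1.1 x t.1.2 then (t.1.1, x, t.1.2) else (t.1.1, t.1.2, x))
  else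
    (if a < ∠ x t.1.1 t.1.2 then (t.1.2, t.1.1, x)
      else if a < ∠ t.1.1 x t.1.2 then (t.1.2, x, t.1.1) else (x, t.1.2, t.1.1))

/-- ROW F20-G3.  For `p ∈ A`, `q ∈ B` two ordered triples. -/
theorem dg_ge_cross (a : ℝ) (S A B : Finset Pt) (x : Pt) (hx : x ∈ S) (hA : A ⊆ S) (hB : B ⊆ S)
    (hAB : Disjoint A B) (hxA : x ∉ A) (hxB : x ∉ B)
    (h : ∀ p ∈ A, ∀ q ∈ B, a < ∠ x p q ∨ a < ∠ p x q ∨ a < ∠ p q x) :
    2 * A.card * B.card ≤ dg S a x := by
  classical
  have hcard : ((A ×ˢ B) ×ˢ (Finset.univ : Finset Bool)).card = 2 * A.card * B.card := by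
    rw [Finset.card_product, Finset.card_product, Finset.card_univ, Fintype.card_bool]
    ring
  rw [← hcard]
  unfold dg
  have hne : ∀ p ∈ A, ∀ q ∈ B, p ≠ q := fun p hp q hq e =>
    (Finset.disjoint_left.mp hAB) hp (e ▸ hq)
  apply card_le_tc S _ _ (psiT a x)
  · rintro ⟨⟨p, q⟩, b⟩ ht
    rw [Finset.mem_product, Finset.mem_product] at ht
    obtain ⟨⟨hp, hq⟩, -⟩ := ht
    simp only at hp hq
    have n1 : p ≠ x := fun e => hxA (e ▸ hp)
    have n2 : q ≠ x := fun e => hxB (e ▸ hq)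
    have n3 : p ≠ q := hne p hp q hq
    have hp' := hA hp
    have hq' := hB hq
    have hh := h p hp q hq
    cases b
    · unfold psiT trip
      simp only [Bool.false_eq_true, if_false]
      split_ifs with c1 c2
      · refine ⟨?_, ?_, Or.inr (Or.inr rfl)⟩
        · rw [Finset.mem_filter, Finset.mem_product, Finset.mem_product]
          exact ⟨⟨hq', hp', hx⟩, n3.symm, n1, n2⟩
        · show a < ∠ q p x
          rw [EuclideanGeometry.angle_comm]
          exact c1
      · refine ⟨?_, ?_, Or.inr (Or.inl rfl)⟩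
        · rw [Finset.mem_filter, Finset.mem_product, Finset.mem_product]
          exact ⟨⟨hq', hx, hp'⟩, n2, n1.symm, n3.symm⟩
        · show a < ∠ q x p
          rw [EuclideanGeometry.angle_comm]
          exact c2
      · refine ⟨?_, ?_, Or.inl rfl⟩
        · rw [Finset.mem_filter, Finset.mem_product, Finset.mem_product]
          exact ⟨⟨hx, hq', hp'⟩, n2.symm, n3.symm, n1.symm⟩
        · show a < ∠ x q p
          rcases hh with h1 | h1 | h1
          · exact absurd h1 c1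
          · exact absurd h1 c2
          · rw [EuclideanGeometry.angle_comm]
            exact h1
    · unfold psiT trip
      simp only [if_true]
      split_ifs with c1 c2
      · refine ⟨?_, c1, Or.inl rfl⟩
        rw [Finset.mem_filter, Finset.mem_product, Finset.mem_product]
        exact ⟨⟨hx, hp', hq'⟩, n1.symm, n3, n2.symm⟩
      · refine ⟨?_, c2, Or.inr (Or.inl rfl)⟩
        rw [Finset.mem_filter, Finset.mem_product, Finset.mem_product]
        exact ⟨⟨hp', hx, hq'⟩, n1, n2.symm, n3⟩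
      · refine ⟨?_, ?_, Or.inr (Or.inr rfl)⟩
        · rw [Finset.mem_filter, Finset.mem_product, Finset.mem_product]
          exact ⟨⟨hp', hq', hx⟩, n3, n2, n1⟩
        · rcases hh with h1 | h1 | h1
          · exact absurd h1 c1
          · exact absurd h1 c2
          · exact h1
  · rintro ⟨⟨p, q⟩, b⟩ ht ⟨⟨p', q'⟩, b'⟩ ht' he
    rw [Finset.mem_product, Finset.mem_product] at ht ht'
    obtain ⟨⟨hp, hq⟩, -⟩ := ht
    obtain ⟨⟨hp', hq'⟩, -⟩ := ht'
    simp only at hp hq hp' hq'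
    have n1 : p ≠ x := fun e => hxA (e ▸ hp)
    have n2 : q ≠ x := fun e => hxB (e ▸ hq)
    have n1' : p' ≠ x := fun e => hxA (e ▸ hp')
    have n2' : q' ≠ x := fun e => hxB (e ▸ hq')
    have n3 : p ≠ q' := hne p hp q' hq'
    have n4 : p' ≠ q := hne p' hp' q hq
    unfold psiT at he
    cases b <;> cases b' <;> simp only [Bool.false_eq_true, if_false, if_true] at he <;>
      split_ifs at he <;> simp only [Prod.mk.injEq] at he <;>
      (obtain ⟨e1, e2, e3⟩ := he; subst_vars; simp_all)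

/-- ROW F20-G3.  Pairs of `A` and pairs of `B` give different triples. -/
theorem dg_ge_two (a : ℝ) (S A B : Finset Pt) (x : Pt) (hx : x ∈ S) (hA : A ⊆ S) (hB : B ⊆ S)
    (hAB : Disjoint A B) (hxA : x ∉ A) (hxB : x ∉ B)
    (h : ∀ p ∈ A, ∀ p' ∈ A, p ≠ p' → vty p p' → a < ∠ x p p' ∨ a < ∠ x p' p)
    (h' : ∀ p ∈ B, ∀ p' ∈ B, p ≠ p' → vty p p' → a < ∠ x p p' ∨ a < ∠ x p' p) :
    pc A vty + pc B vty ≤ dg S a x := by
  classical
  have hdis : Disjoint ((A ×ˢ A).filter fun t => t.1 ≠ t.2 ∧ vty t.1 t.2)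
      ((B ×ˢ B).filter fun t => t.1 ≠ t.2 ∧ vty t.1 t.2) := by
    rw [Finset.disjoint_left]
    intro t ht ht'
    rw [Finset.mem_filter, Finset.mem_product] at ht ht'
    exact (Finset.disjoint_left.mp hAB) ht.1.1 ht'.1.1
  have hcard : pc A vty + pc B vty =
      (((A ×ˢ A).filter fun t => t.1 ≠ t.2 ∧ vty t.1 t.2) ∪
        ((B ×ˢ B).filter fun t => t.1 ≠ t.2 ∧ vty t.1 t.2)).card := by
    rw [Finset.card_union_of_disjoint hdis]
    unfold pc
    congr!
  rw [hcard]
  unfold dg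
  apply card_le_tc S _ _ (phiT a x)
  · intro t ht
    rw [Finset.mem_union, Finset.mem_filter, Finset.mem_filter,
      Finset.mem_product, Finset.mem_product] at ht
    rcases ht with ht | ht
    · exact phiT_mem a S A x hx hA hxA h t ht.1.1 ht.1.2 ht.2.1 ht.2.2
    · exact phiT_mem a S B x hx hB hxB h' t ht.1.1 ht.1.2 ht.2.1 ht.2.2
  · intro t ht t' ht' he
    rw [Finset.mem_union, Finset.mem_filter, Finset.mem_filter,
      Finset.mem_product, Finset.mem_product] at ht ht'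
    have n1 : t.1 ≠ x := by
      rcases ht with ht | ht
      · exact fun e => hxA (e ▸ ht.1.1)
      · exact fun e => hxB (e ▸ ht.1.1)
    have n1' : t'.1 ≠ x := by
      rcases ht' with ht' | ht'
      · exact fun e => hxA (e ▸ ht'.1.1)
      · exact fun e => hxB (e ▸ ht'.1.1)
    exact phiT_inj a x t t' n1 n1' he

end Pool.Agent.MP_0af329_co.JP
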