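import Pool.Agent.MP_0af329_co.JPG3a
import Pool.Agent.MP_0af329_co.JPG3b
import Pool.Agent.MP_0af329_co.JPG3c

set_option autoImplicit false

namespace Pool.Agent.MP_0af329_co.JP

open Finset EuclideanGeometry Filter Topology

/-- ROW F20-G3.  PROOF.  Otherwise, if `1/20 |x 0 - u 0| < |x 1 - u 1|` and `1/20 |x 0 - v 0| < |x 1 - v 1|`: `far_marked` for `A`
and for `B`, `dg_ge_two`: `dg ≥ 0.28 n²`.  Otherwise `cross_marked`, `dg_ge_cross`: `dg ≥ 2 · 0.43² n² > 0.36 n²`. -/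
theorem near_or (a : ℝ) (ha0 : 0 ≤ a) (hpi : a ≤ Real.pi) (ha : -(1 / 1000) ≤ Real.cos a)
    (S A B : Finset Pt) (u v : Pt) (l : ℝ) (hC : Clu S A B u v l) (hn : 0 < S.card) (x : Pt)
    (hx : x ∈ S) (hd : (dg S a x : ℝ) ≤ 26 / 100 * (S.card : ℝ) ^ 2) :
    Near l u x ∨ Near l v x := by
  by_contra hcon
  have hu : ¬ Near l u x := fun h => hcon (Or.inl h)
  have hv : ¬ Near l v x := fun h => hcon (Or.inr h)
  have hl := hC.hl
  have hxA : x ∉ A := fun h =>
    hu ⟨(hC.bA x h).1.trans (by linarith), (hC.bA x h).2.trans (by linarith)⟩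
  have hxB : x ∉ B := fun h =>
    hv ⟨(hC.bB x h).1.trans (by linarith), (hC.bB x h).2.trans (by linarith)⟩
  have hn' : (0 : ℝ) < S.card := by exact_mod_cast hn
  have hn2 : (0 : ℝ) < (S.card : ℝ) ^ 2 := by positivity
  by_cases hc : |x 1 - u 1| ≤ 1 / 20 * |x 0 - u 0| ∨ |x 1 - v 1| ≤ 1 / 20 * |x 0 - v 0|
  · have h := dg_ge_cross a S A B x hx hC.hA hC.hB hC.hAB hxA hxB
      (fun p hp q hq => cross_marked a ha0 hpi ha u v x p q l hl hC.h0 hC.h1 hu hv hc
        (hC.bA p hp) (hC.bB q hq))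
    have h' : (2 * A.card * B.card : ℝ) ≤ dg S a x := by exact_mod_cast h
    have cA := hC.cA
    have cB := hC.cB
    have h3 : (43 / 100 * (S.card : ℝ)) * (43 / 100 * (S.card : ℝ)) ≤ A.card * B.card :=
      mul_le_mul cA cB (by positivity) (by positivity)
    nlinarith
  · push Not at hc
    have h := dg_ge_two a S A B x hx hC.hA hC.hB hC.hAB hxA hxB
      (fun p hp p' hp' hne hvt => far_marked a ha0 hpi ha u x p p' l hl hu hc.1
        (hC.bA p hp) (hC.bA p' hp') hne hvt)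
      (fun p hp p' hp' hne hvt => far_marked a ha0 hpi ha v x p p' l hl hv hc.2
        (hC.bB p hp) (hC.bB p' hp') hne hvt)
    have h' : (pc A vty : ℝ) + pc B vty ≤ dg S a x := by exact_mod_cast h
    have vA := hC.vA
    have vB := hC.vB
    linarith

end Pool.Agent.MP_0af329_co.JP
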