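import Pool.Agent.MP_0af329_co.JPE0

set_option autoImplicit false

namespace Pool.Agent.MP_0af329_co.JP

open Finset EuclideanGeometry Filter Topology

private theorem fm_aux1 (r0 r1 s0 s1 : ℝ) (h0 : |r0| ≤ 26 * |r1|) (hs : |s0| ≤ 1 / 1000 * |s1|)
    (hr : 0 < |r1|) (hs1 : 0 < |s1|) (h : r1 * s1 < 0) :
    r0 * s0 + r1 * s1 < -(1 / 1000) * ((|r0| + |r1|) * (|s0| + |s1|)) := by
  have e1 : r1 * s1 = -(|r1| * |s1|) := by
    rw [← abs_mul, abs_of_neg h]; ring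
  have e2 : r0 * s0 ≤ 26 / 1000 * (|r1| * |s1|) := by
    calc r0 * s0 ≤ |r0 * s0| := le_abs_self _
      _ = |r0| * |s0| := abs_mul _ _
      _ ≤ (26 * |r1|) * (1 / 1000 * |s1|) := mul_le_mul h0 hs (abs_nonneg _) (by positivity)
      _ = 26 / 1000 * (|r1| * |s1|) := by ring
  have e3 : (|r0| + |r1|) * (|s0| + |s1|) ≤ (27 * |r1|) * (1001 / 1000 * |s1|) :=
    mul_le_mul (by linarith) (by linarith) (by positivity) (by positivity)
  have e4 : 0 < |r1| * |s1| := mul_pos hr hs1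
  nlinarith

private theorem fm_aux2 (r0 r1 s0 s1 : ℝ) (h0 : |r0| ≤ 26 * |r1|) (hs : |s0| ≤ 1 / 1000 * |s1|)
    (h1 : |s1| ≤ 1 / 2 * |r1|) (hr : 0 < |r1|) (hs1 : 0 < |s1|) (h : 0 < r1 * s1) :
    (r0 - s0) * (-s0) + (r1 - s1) * (-s1) <
      -(1 / 1000) * ((|r0 - s0| + |r1 - s1|) * (|-s0| + |-s1|)) := by
  have e1 : r1 * s1 = |r1| * |s1| := by
    rw [← abs_mul, abs_of_pos h]
  have e2 : -(26 / 1000 * (|r1| * |s1|)) ≤ r0 * s0 := by
    have : |r0 * s0| ≤ 26 / 1000 * (|r1| * |s1|) := by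
      calc |r0 * s0| = |r0| * |s0| := abs_mul _ _
        _ ≤ (26 * |r1|) * (1 / 1000 * |s1|) := mul_le_mul h0 hs (abs_nonneg _) (by positivity)
        _ = 26 / 1000 * (|r1| * |s1|) := by ring
    linarith [neg_abs_le (r0 * s0)]
  have e3 : s0 ^ 2 ≤ 1 / 1000 * (|r1| * |s1|) := by
    have h5 : s0 ^ 2 = |s0| * |s0| := by rw [← sq, sq_abs]
    rw [h5]
    calc |s0| * |s0| ≤ (1 / 1000 * |s1|) * (1 / 1000 * |s1|) :=
          mul_le_mul hs hs (abs_nonneg _) (by positivity)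
      _ ≤ (1 / 1000 * (|r1|)) * (1 * |s1|) := by
          apply mul_le_mul _ _ (by positivity) (by positivity)
          · linarith
          · linarith
      _ = 1 / 1000 * (|r1| * |s1|) := by ring
  have e4 : s1 ^ 2 ≤ 1 / 2 * (|r1| * |s1|) := by
    have h5 : s1 ^ 2 = |s1| * |s1| := by rw [← sq, sq_abs]
    rw [h5]
    calc |s1| * |s1| ≤ (1 / 2 * |r1|) * |s1| := mul_le_mul_of_nonneg_right h1 (abs_nonneg _)
      _ = 1 / 2 * (|r1| * |s1|) := by ring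
  have e5 : |r0 - s0| ≤ |r0| + |s0| := abs_sub _ _
  have e6 : |r1 - s1| ≤ |r1| + |s1| := abs_sub _ _
  have e7 : (|r0 - s0| + |r1 - s1|) * (|-s0| + |-s1|) ≤ (28 * |r1|) * (1001 / 1000 * |s1|) := by
    rw [abs_neg, abs_neg]
    exact mul_le_mul (by linarith) (by linarith) (by positivity) (by positivity)
  have e8 : 0 < |r1| * |s1| := mul_pos hr hs1
  nlinarith

/-- ROW F20-G3a. -/
theorem far_marked (a : ℝ) (ha0 : 0 ≤ a) (hpi : a ≤ Real.pi) (ha : -(1 / 1000) ≤ Real.cos a)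
    (u x p p' : Pt) (l : ℝ) (hl : 0 < l) (hx : ¬ Near l u x)
    (h : 1 / 20 * |x 0 - u 0| < |x 1 - u 1|)
    (hp : |p 0 - u 0| ≤ 1 / 100000 * l ∧ |p 1 - u 1| ≤ 2 / 1000 * l)
    (hp' : |p' 0 - u 0| ≤ 1 / 100000 * l ∧ |p' 1 - u 1| ≤ 2 / 1000 * l) (hne : p ≠ p')
    (hv : vty p p') : a < ∠ x p p' ∨ a < ∠ x p' p := by
  have hΔ : 1 / 100 * l < |x 1 - u 1| := by
    by_cases h1 : |x 0 - u 0| ≤ l / 5
    · by_contra h2
      exact hx ⟨h1, by linarith⟩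
    · linarith
  have hs : |p' 0 - p 0| ≤ 1 / 1000 * |p' 1 - p 1| := hv
  have hs1 : 0 < |p' 1 - p 1| := by
    by_contra h1
    have h2 : |p' 1 - p 1| = 0 := le_antisymm (not_lt.1 h1) (abs_nonneg _)
    have h3 : |p' 0 - p 0| = 0 := le_antisymm (by linarith) (abs_nonneg _)
    apply hne
    ext i
    fin_cases i
    · have := abs_eq_zero.1 h3
      simp only [Fin.zero_eta]
      linarith
    · have := abs_eq_zero.1 h2
      simp only [Fin.mk_one]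
      linarith
  have hsl : |p' 1 - p 1| ≤ 4 / 1000 * l := by
    have : |p' 1 - p 1| ≤ |p' 1 - u 1| + |p 1 - u 1| := by
      have e : p' 1 - p 1 = (p' 1 - u 1) - (p 1 - u 1) := by ring
      rw [e]; exact abs_sub _ _
    linarith [hp.2, hp'.2]
  have hr1 : 4 / 5 * |x 1 - u 1| ≤ |x 1 - p 1| := by
    have : |x 1 - u 1| ≤ |x 1 - p 1| + |p 1 - u 1| := by
      have e : x 1 - u 1 = (x 1 - p 1) + (p 1 - u 1) := by ring
      rw [e]; exact abs_add_le _ _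
    linarith [hp.2]
  have hr0 : |x 0 - p 0| ≤ 26 * |x 1 - p 1| := by
    have : |x 0 - p 0| ≤ |x 0 - u 0| + |p 0 - u 0| := by
      have e : x 0 - p 0 = (x 0 - u 0) - (p 0 - u 0) := by ring
      rw [e]; exact abs_sub _ _
    linarith [hp.1]
  have hr : 0 < |x 1 - p 1| := by linarith
  have hs2 : |p' 1 - p 1| ≤ 1 / 2 * |x 1 - p 1| := by linarith
  have hne1 : (x 1 - p 1) * (p' 1 - p 1) ≠ 0 := mul_ne_zero (abs_pos.1 hr) (abs_pos.1 hs1)
  rcases lt_or_gt_of_ne hne1 with h5 | h5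
  · left
    have h6 := fm_aux1 _ _ _ _ hr0 hs hr hs1 h5
    unfold EuclideanGeometry.angle
    apply lt_angle a ha0 hpi ha
    rw [inner_eq]
    have n1 := norm_le_add (x -ᵥ p)
    have n2 := norm_le_add (p' -ᵥ p)
    simp only [vsub_eq_sub, PiLp.sub_apply] at n1 n2 ⊢
    refine lt_of_lt_of_le h6 ?_
    have n3 : ‖x - p‖ * ‖p' - p‖ ≤ (|x 0 - p 0| + |x 1 - p 1|) * (|p' 0 - p 0| + |p' 1 - p 1|) :=
      mul_le_mul n1 n2 (norm_nonneg _) (by positivity)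
    linarith
  · right
    have h6 := fm_aux2 _ _ _ _ hr0 hs hs2 hr hs1 h5
    unfold EuclideanGeometry.angle
    apply lt_angle a ha0 hpi ha
    rw [inner_eq]
    have n1 := norm_le_add (x -ᵥ p')
    have n2 := norm_le_add (p -ᵥ p')
    simp only [vsub_eq_sub, PiLp.sub_apply] at n1 n2 ⊢
    have e0 : (x 0 - p 0) - (p' 0 - p 0) = x 0 - p' 0 := by ring
    have e1 : (x 1 - p 1) - (p' 1 - p 1) = x 1 - p' 1 := by ring
    have e2 : -(p' 0 - p 0) = p 0 - p' 0 := by ring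
    have e3 : -(p' 1 - p 1) = p 1 - p' 1 := by ring
    rw [e0, e1, e2, e3] at h6
    refine lt_of_lt_of_le h6 ?_
    have n3 : ‖x - p'‖ * ‖p - p'‖ ≤ (|x 0 - p' 0| + |x 1 - p' 1|) * (|p 0 - p' 0| + |p 1 - p' 1|) :=
      mul_le_mul n1 n2 (norm_nonneg _) (by positivity)
    linarith

end Pool.Agent.MP_0af329_co.JP
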