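import Pool.Agent.MP_0af329_co.JPG3
import Pool.Agent.MP_0af329_co.JPE4

set_option autoImplicit false

namespace Pool.Agent.MP_0af329_co.JP

open Finset EuclideanGeometry Filter Topology

/-- ROW F20-G4.  PROOF.  `two_clusters` with `A' = {x ∈ S : Near l u x}`, `B' = {x ∈ S : Near l v x}`: disjoint, all of `S` by
`near_or`; for `x ∈ A'`, `y ∈ B'`: `y 0 - x 0 ≥ 3l/5`, `|y 1 - x 1| ≤ 401 l/1000 ≤ 67/100 · 3l/5`; `A ⊆ A'`, `B ⊆ B'`, so both
have at least `0.43 n` points, hence at most `0.57 n ≤ 2 · 0.43 n`. -/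
theorem finish_h (a : ℝ) (ha0 : 0 ≤ a) (hpi : a ≤ Real.pi) (ha : -(1 / 1000) ≤ Real.cos a)
    (S A B : Finset Pt) (u v : Pt) (l : ℝ) (hC : Clu S A B u v l) (hn : 0 < S.card)
    (hd : ∀ x ∈ S, (dg S a x : ℝ) ≤ 26 / 100 * (S.card : ℝ) ^ 2) :
    (S.card : ℝ) * (S.card - 1) * (S.card - 5) / 12 ≤ cnt S (Set.Ioi a) := by
  classical
  have hl := hC.hl
  have h0 := hC.h0
  have h1 := hC.h1
  have hnear : ∀ x ∈ S, Near l u x ∨ Near l v x := fun x hx =>
    near_or a ha0 hpi ha S A B u v l hC hn x hx (hd x hx)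
  have hdis : ∀ x, Near l u x → Near l v x → False := by
    intro x hu hv
    have e1 := abs_le.1 hu.1
    have e2 := abs_le.1 hv.1
    linarith [e1.1, e1.2, e2.1, e2.2]
  set A' : Finset Pt := S.filter fun x => Near l u x with hA'
  set B' : Finset Pt := S.filter fun x => Near l v x with hB'
  have hS : ∀ x, x ∈ S ↔ x ∈ A' ∨ x ∈ B' := by
    intro x
    simp only [hA', hB', Finset.mem_filter]
    constructor
    · intro hx
      rcases hnear x hx with h | h
      · exact Or.inl ⟨hx, h⟩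
      · exact Or.inr ⟨hx, h⟩
    · rintro (h | h)
      · exact h.1
      · exact h.1
  have hdj : Disjoint A' B' := by
    rw [Finset.disjoint_left]
    intro x hx hx'
    exact hdis x (Finset.mem_filter.1 hx).2 (Finset.mem_filter.1 hx').2
  have hAA : A ⊆ A' := by
    intro x hx
    refine Finset.mem_filter.2 ⟨hC.hA hx, ?_, ?_⟩
    · exact (hC.bA x hx).1.trans (by linarith)
    · exact (hC.bA x hx).2.trans (by linarith)
  have hBB : B ⊆ B' := by
    intro x hx
    refine Finset.mem_filter.2 ⟨hC.hB hx, ?_, ?_⟩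
    · exact (hC.bB x hx).1.trans (by linarith)
    · exact (hC.bB x hx).2.trans (by linarith)
  have hcard : A'.card + B'.card = S.card := by
    rw [← Finset.card_union_of_disjoint hdj]
    congr 1
    ext x
    rw [Finset.mem_union, ← hS x]
  have hcard' : (A'.card : ℝ) + B'.card = S.card := by exact_mod_cast hcard
  have cA : 43 / 100 * (S.card : ℝ) ≤ A'.card :=
    hC.cA.trans (by exact_mod_cast Finset.card_le_card hAA)
  have cB : 43 / 100 * (S.card : ℝ) ≤ B'.card :=
    hC.cB.trans (by exact_mod_cast Finset.card_le_card hBB)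
  have hn' : (0 : ℝ) < S.card := by exact_mod_cast hn
  refine two_clusters a ha0 hpi ha S A' B' hS hdj ?_ ?_ ?_
  · intro x hx y hy
    have hx' := (Finset.mem_filter.1 hx).2
    have hy' := (Finset.mem_filter.1 hy).2
    have e1 := abs_le.1 hx'.1
    have e2 := abs_le.1 hx'.2
    have e3 := abs_le.1 hy'.1
    have e4 := abs_le.1 hy'.2
    have e5 := abs_le.1 h1
    rw [abs_le]
    constructor
    · linarith [e1.1, e1.2, e2.1, e2.2, e3.1, e3.2, e4.1, e4.2, e5.1, e5.2]
    · linarith [e1.1, e1.2, e2.1, e2.2, e3.1, e3.2, e4.1, e4.2, e5.1, e5.2]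
  · have : (A'.card : ℝ) ≤ 2 * B'.card := by linarith
    exact_mod_cast this
  · have : (B'.card : ℝ) ≤ 2 * A'.card := by linarith
    exact_mod_cast this

end Pool.Agent.MP_0af329_co.JP
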