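import Pool.Agent.MP_0af329_co.JPG2
import Pool.Agent.MP_0af329_co.JPG4
import Pool.Agent.MP_0af329_co.JPR

set_option autoImplicit false

namespace Pool.Agent.MP_0af329_co.JP

open Finset EuclideanGeometry Filter Topology

theorem g5_hty (x y : Pt) : hty (sw x) (sw y) ↔ vty x y := by
  unfold hty vty
  rw [(sw_apply x).1, (sw_apply x).2, (sw_apply y).1, (sw_apply y).2]

theorem g5_vty (x y : Pt) : vty (sw x) (sw y) ↔ hty x y := by
  unfold hty vty
  rw [(sw_apply x).1, (sw_apply x).2, (sw_apply y).1, (sw_apply y).2]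

open Classical in
theorem g5_nb (S : Finset Pt) (P : Pt → Pt → Prop) (y : Pt) :
    nb (S.image sw) P (sw y) = nb S (fun y z => P (sw y) (sw z)) y := by
  unfold nb
  rw [Finset.filter_image, Finset.card_image_of_injective _ sw_inj]
  congr 1
  refine Finset.filter_congr (fun z _ => ?_)
  rw [sw_inj.ne_iff]

open Classical in
theorem g5_pc (S : Finset Pt) (P : Pt → Pt → Prop) :
    pc (S.image sw) P = pc S (fun y z => P (sw y) (sw z)) := by
  unfold pc
  have h : S.image sw ×ˢ S.image sw = (S ×ˢ S).image (Prod.map sw sw) := by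
    ext ⟨x, y⟩
    simp only [Finset.mem_product, Finset.mem_image, Prod.map, Prod.exists, Prod.mk.injEq]
    constructor
    · rintro ⟨⟨x', hx', rfl⟩, ⟨y', hy', rfl⟩⟩
      exact ⟨x', y', ⟨hx', hy'⟩, rfl, rfl⟩
    · rintro ⟨x', y', ⟨hx', hy'⟩, rfl, rfl⟩
      exact ⟨⟨x', hx', rfl⟩, ⟨y', hy', rfl⟩⟩
  rw [h, Finset.filter_image, Finset.card_image_of_injective _ (sw_inj.prodMap sw_inj)]
  congr 1
  refine Finset.filter_congr (fun z _ => ?_)
  simp only [Prod.map_fst, Prod.map_snd]
  rw [sw_inj.ne_iff]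

theorem g5_bad : (fun x y : Pt => ¬ hty (sw x) (sw y) ∧ ¬ vty (sw x) (sw y)) =
    (fun x y : Pt => ¬ hty x y ∧ ¬ vty x y) := by
  funext x y
  rw [g5_hty, g5_vty]
  exact propext and_comm

theorem g5_col (col : Pt → Pt → Prop) :
    (fun y z : Pt => (fun p q => ¬ col (sw p) (sw q)) (sw y) (sw z)) = fun y z => ¬ col y z := by
  funext y z
  simp only [sw_sw]

theorem g5_col' (col : Pt → Pt → Prop) :
    (fun y z : Pt => (fun p q => ¬ ¬ col (sw p) (sw q)) (sw y) (sw z)) = col := by
  funext y z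
  simp only [sw_sw, not_not]

open Classical in
theorem g5_typ (S : Finset Pt) (col : Pt → Pt → Prop) (x : Pt) :
    Typ (S.image sw) (fun p q => ¬ col (sw p) (sw q)) (sw x) ↔ Typ S col x := by
  unfold Typ
  rw [g5_nb, g5_nb, g5_nb, g5_bad, g5_col, g5_col', Finset.card_image_of_injective _ sw_inj,
    abs_sub_comm]
  have : sw x ∈ S.image sw ↔ x ∈ S := by
    rw [Finset.mem_image]
    constructor
    · rintro ⟨y, hy, h⟩
      rwa [← sw_inj h]
    · intro h
      exact ⟨x, h, rfl⟩
  rw [this]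

open Classical in
/-- ROW F20-G5.  PROOF.  (`|S.image sw| = |S|`, `nb`, `pc` are transported by `sw`; `hty` and `vty` are interchanged.) -/
theorem geo_sw (S : Finset Pt) (col : Pt → Pt → Prop) (hG : Geo S col) :
    Geo (S.image sw) (fun p q => ¬ col (sw p) (sw q)) := by
  constructor
  · intro x hx y hy hxy h
    obtain ⟨x', hx', rfl⟩ := Finset.mem_image.mp hx
    obtain ⟨y', hy', rfl⟩ := Finset.mem_image.mp hy
    rw [(sw_apply x').1, (sw_apply x').2, (sw_apply y').1, (sw_apply y').2] at h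
    rw [sw_sw, sw_sw]
    exact hG.hv x' hx' y' hy' (fun e => hxy (by rw [e])) h
  · intro x hx y hy hxy h
    obtain ⟨x', hx', rfl⟩ := Finset.mem_image.mp hx
    obtain ⟨y', hy', rfl⟩ := Finset.mem_image.mp hy
    rw [(sw_apply x').1, (sw_apply x').2, (sw_apply y').1, (sw_apply y').2] at h
    rw [sw_sw, sw_sw]
    exact not_not_intro (hG.hh x' hx' y' hy' (fun e => hxy (by rw [e])) h)
  · rw [Finset.sum_image (fun x _ y _ h => sw_inj h), Finset.card_image_of_injective _ sw_inj]
    refine le_trans (le_of_eq (Finset.sum_congr rfl (fun y _ => ?_))) hG.hD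
    rw [g5_nb, g5_nb, g5_col, g5_col']
    ring
  · rw [g5_pc, g5_bad, Finset.card_image_of_injective _ sw_inj]
    exact hG.hbad

theorem g5_lt (a : ℝ) (ha0 : 0 ≤ a) (hpi : a ≤ Real.pi) (ha : -(1 / 1000) ≤ Real.cos a)
    (S : Finset Pt) (col : Pt → Pt → Prop) (hG : Geo S col) (hn : 1000 ≤ S.card)
    (hd : ∀ x ∈ S, (dg S a x : ℝ) ≤ 26 / 100 * (S.card : ℝ) ^ 2)
    (u v : Pt) (hu : Typ S col u) (hv : Typ S col v) (huv : u ≠ v) (hh : hty u v)
    (hmax : ∀ x y : Pt, Typ S col x → Typ S col y → x ≠ y → (hty x y ∨ vty x y) →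
        max |y 0 - x 0| |y 1 - x 1| ≤ max |v 0 - u 0| |v 1 - u 1|) :
    (S.card : ℝ) * (S.card - 1) * (S.card - 5) / 12 ≤ cnt S (Set.Ioi a) := by
  rcases lt_trichotomy (u 0) (v 0) with h | h | h
  · obtain ⟨A, B, hC⟩ := exists_clu S col hG hn u v hu hv h hh hmax
    exact finish_h a ha0 hpi ha S A B u v (v 0 - u 0) hC (by omega) hd
  · exfalso
    apply huv
    unfold hty at hh
    rw [h, sub_self, abs_zero, mul_zero] at hh
    have h1 : v 1 - u 1 = 0 := abs_eq_zero.mp (le_antisymm hh (abs_nonneg _))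
    ext i
    fin_cases i
    · exact h
    · exact (sub_eq_zero.mp h1).symm
  · have hh' : hty v u := by
      unfold hty at hh ⊢
      rw [abs_sub_comm (u 1), abs_sub_comm (u 0)]
      exact hh
    have hmax' : ∀ x y : Pt, Typ S col x → Typ S col y → x ≠ y → (hty x y ∨ vty x y) →
        max |y 0 - x 0| |y 1 - x 1| ≤ max |u 0 - v 0| |u 1 - v 1| := by
      intro x y hx hy hxy hxy'
      rw [abs_sub_comm (u 0), abs_sub_comm (u 1)]
      exact hmax x y hx hy hxy hxy'
    obtain ⟨A, B, hC⟩ := exists_clu S col hG hn v u hv hu h hh' hmax'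
    exact finish_h a ha0 hpi ha S A B v u (u 0 - v 0) hC (by omega) hd

/-- ROW F20-G5.  PROOF.  `exists_longest`; if `hty u v`: `u 0 ≠ v 0`; if `u 0 < v 0`: `exists_clu`, `finish_h`; if `v 0 < u 0`
interchange `u` and `v` (`hty` is symmetric, the `max` too).  If `vty u v`: use `S.image sw` (`geo_sw`, `cnt_image`, `dg_image`)
and the points `sw u`, `sw v` (`Typ` is transported too; or apply `exists_longest` to `S.image sw` only after a case
distinction: it is easier to prove first the case `hty` as a lemma for general `S`, `u`, `v`). -/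
theorem geo_final (a : ℝ) (ha0 : 0 ≤ a) (hpi : a ≤ Real.pi) (ha : -(1 / 1000) ≤ Real.cos a)
    (S : Finset Pt) (col : Pt → Pt → Prop) (hG : Geo S col) (hn : 1000 ≤ S.card)
    (hd : ∀ x ∈ S, (dg S a x : ℝ) ≤ 26 / 100 * (S.card : ℝ) ^ 2) :
    (S.card : ℝ) * (S.card - 1) * (S.card - 5) / 12 ≤ cnt S (Set.Ioi a) := by
  classical
  obtain ⟨u, v, hu, hv, huv, hhv, hmax⟩ := exists_longest S col hG hn
  rcases hhv with hh | hv'
  · exact g5_lt a ha0 hpi ha S col hG hn hd u v hu hv huv hh hmax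
  · have hcard : (S.image sw).card = S.card := Finset.card_image_of_injective _ sw_inj
    have hG' := geo_sw S col hG
    have hd' : ∀ x ∈ S.image sw, (dg (S.image sw) a x : ℝ) ≤
        26 / 100 * ((S.image sw).card : ℝ) ^ 2 := by
      intro x hx
      obtain ⟨x', hx', rfl⟩ := Finset.mem_image.mp hx
      rw [hcard, dg_image sw sw_inj angle_sw]
      exact hd x' hx'
    have hmax' : ∀ x y : Pt, Typ (S.image sw) (fun p q => ¬ col (sw p) (sw q)) x →
        Typ (S.image sw) (fun p q => ¬ col (sw p) (sw q)) y → x ≠ y → (hty x y ∨ vty x y) →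
        max |y 0 - x 0| |y 1 - x 1| ≤
          max |(sw v) 0 - (sw u) 0| |(sw v) 1 - (sw u) 1| := by
      intro x y hx hy hxy hxy'
      have ex : x = sw (sw x) := (sw_sw x).symm
      have ey : y = sw (sw y) := (sw_sw y).symm
      rw [ex] at hx
      rw [ey] at hy
      have hx1 := (g5_typ S col (sw x)).mp hx
      have hy1 := (g5_typ S col (sw y)).mp hy
      have h1 := hmax (sw x) (sw y) hx1 hy1 (fun e => hxy (sw_inj e)) (by
        rw [g5_hty, g5_vty]
        exact hxy'.symm)
      rw [(sw_apply x).1, (sw_apply x).2, (sw_apply y).1, (sw_apply y).2] at h1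
      rw [(sw_apply u).1, (sw_apply u).2, (sw_apply v).1, (sw_apply v).2, max_comm,
        max_comm |v 1 - u 1|]
      exact h1
    have := g5_lt a ha0 hpi ha (S.image sw) (fun p q => ¬ col (sw p) (sw q)) hG'
      (by rw [hcard]; exact hn) hd' (sw u) (sw v) ((g5_typ S col u).mpr hu)
      ((g5_typ S col v).mpr hv) (fun e => huv (sw_inj e)) ((g5_hty u v).mpr hv') hmax'
    rw [hcard, cnt_image sw sw_inj angle_sw] at this
    exact this

end Pool.Agent.MP_0af329_co.JP
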