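import Pool.Agent.MP_0af329_co.JPH1a
import Pool.Agent.MP_0af329_co.Final

set_option autoImplicit false

namespace Pool.Agent.MP_0af329_co.JP

open Finset EuclideanGeometry Filter Topology

theorem h1_cnt_mono {S T : Finset Pt} (h : T ⊆ S) (A : Set ℝ) : cnt T A ≤ cnt S A := by
  classical
  unfold cnt
  apply Finset.card_le_card
  apply Finset.filter_subset_filter
  intro t ht
  obtain ⟨x, y, z⟩ := t
  rw [mem_trip] at ht ⊢
  obtain ⟨⟨h1, h2, h3⟩, h4⟩ := ht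
  exact ⟨⟨h h1, h h2, h h3⟩, h4⟩

theorem h1_F_nonneg (a : ℝ) : 0 ≤ F a :=
  ge_of_tendsto' (tendsto_ratio (Set.Ioi a)) fun n => ratio_nonneg n _

theorem h1_F_le (a : ℝ) : F a ≤ 1 :=
  le_of_tendsto' (tendsto_ratio (Set.Ioi a)) fun n => ratio_le_one n _

theorem h1_alg (Fa ρ n r m C : ℝ) (hρ : 0 < ρ) (hρ1 : ρ ≤ 1 / 10) (hF0 : 0 ≤ Fa) (hF1 : Fa ≤ 1)
    (hn : 10 / ρ ^ 2 ≤ n) (hr1 : ρ * n ≤ r) (hr2 : r ≤ ρ * n + 1) (hm : m = n - r) (hm1 : 1 ≤ m)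
    (h1 : (Fa - ρ ^ 2 / 2) * (m * (m - 1) * (m - 2)) + r * ((3 * Fa + 8 * ρ) * n ^ 2) ≤
      C + 6 * r ^ 2 * n) (hC : C ≤ Fa * n ^ 3) : False := by
  have hρ2 : 0 < ρ ^ 2 := by positivity
  have hn2 : 10 ≤ ρ ^ 2 * n := by
    rw [div_le_iff₀ hρ2] at hn
    linarith [mul_comm n (ρ ^ 2)]
  have hn0 : 0 < n := by
    by_contra h
    push Not at h
    nlinarith
  have hρn : 10 ≤ ρ * n := by
    have : ρ ^ 2 * n ≤ ρ * n := by nlinarith [mul_nonneg hρ.le hn0.le]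
    linarith
  have hr0 : 0 < r := by linarith
  have hmn : m ≤ n := by linarith
  have hrn : r ≤ n := by linarith
  -- the terms with `Fa`
  have e1 : Fa * n ^ 3 - 3 * n ^ 2 ≤ Fa * (m * (m - 1) * (m - 2)) + r * (3 * Fa * n ^ 2) := by
    have h2 : 0 ≤ 3 * n * r ^ 2 - r ^ 3 := by
      have : 3 * n * r ^ 2 - r ^ 3 = r ^ 2 * (3 * n - r) := by ring
      rw [this]
      exact mul_nonneg (sq_nonneg r) (by linarith)
    have h3 : 0 ≤ Fa * (3 * n * r ^ 2 - r ^ 3) := mul_nonneg hF0 h2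
    have h4 : Fa * m ^ 2 ≤ n ^ 2 := by
      calc Fa * m ^ 2 ≤ 1 * m ^ 2 := mul_le_mul_of_nonneg_right hF1 (sq_nonneg m)
        _ = m ^ 2 := one_mul _
        _ ≤ n ^ 2 := pow_le_pow_left₀ (by linarith) hmn 2
    have h5 : 0 ≤ Fa * m := mul_nonneg hF0 (by linarith)
    have h6 : Fa * (m * (m - 1) * (m - 2)) + r * (3 * Fa * n ^ 2) =
        Fa * n ^ 3 + Fa * (3 * n * r ^ 2 - r ^ 3) - 3 * (Fa * m ^ 2) + 2 * (Fa * m) := by
      rw [hm]; ring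
    rw [h6]
    linarith
  have e2 : m * (m - 1) * (m - 2) ≤ n ^ 3 := by
    have h2 : m * (m - 1) * (m - 2) = m ^ 3 - m * (3 * m - 2) := by ring
    have h3 : 0 ≤ m * (3 * m - 2) := mul_nonneg (by linarith) (by linarith)
    have h4 : m ^ 3 ≤ n ^ 3 := pow_le_pow_left₀ (by linarith) hmn 3
    linarith
  have e3 : ρ ^ 2 / 2 * (m * (m - 1) * (m - 2)) ≤ ρ ^ 2 / 2 * n ^ 3 :=
    mul_le_mul_of_nonneg_left e2 (by positivity)
  have e4 : 8 * ρ * r * n ^ 2 ≤ 3 * n ^ 2 + ρ ^ 2 / 2 * n ^ 3 + 6 * r ^ 2 * n := by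
    linarith
  have e5 : 2 * ρ ^ 2 * n ^ 3 - 6 * ρ * n ^ 2 ≤ 8 * ρ * r * n ^ 2 - 6 * r ^ 2 * n := by
    have h2 : 8 * ρ * r * n ^ 2 - 6 * r ^ 2 * n = n * (r * (8 * ρ * n - 6 * r)) := by ring
    have h3 : 2 * ρ ^ 2 * n ^ 3 - 6 * ρ * n ^ 2 = n * ((ρ * n) * (2 * ρ * n - 6)) := by ring
    rw [h2, h3]
    apply mul_le_mul_of_nonneg_left _ hn0.le
    apply mul_le_mul hr1 (by linarith) (by linarith) hr0.le
  have e6 : ρ ^ 2 * n ^ 3 * (3 / 2) ≤ (3 + 6 * ρ) * n ^ 2 := by linarith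
  have e7 : ρ ^ 2 * n * (3 / 2) ≤ 3 + 6 * ρ := by
    have h2 : 0 < n ^ 2 := by positivity
    have h3 : ρ ^ 2 * n * (3 / 2) * n ^ 2 ≤ (3 + 6 * ρ) * n ^ 2 := by
      calc ρ ^ 2 * n * (3 / 2) * n ^ 2 = ρ ^ 2 * n ^ 3 * (3 / 2) := by ring
        _ ≤ _ := e6
    exact le_of_mul_le_mul_right h3 h2
  linarith

/-- ROW F20-H1.  PROOF.  By `tendsto_ratio` there is `n₂` with `F a - ρ²/2 ≤ ratio m (Ioi a)` for `m ≥ n₂`.  Let `n` be large and `S₀` a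
minimiser (`exists_minCnt`, Lim.lean; `ratio_le_dens`: `cnt S₀ ≤ F a n³`), `R = {x ∈ S₀ : dg > (3 F a + 8ρ) n²}`.  If
`|R| ≤ ρn`: `S = S₀ \ R` (`dg_mono`, `cnt` is monotone).  Otherwise take `R' ⊆ R` with `r = ⌈ρn⌉₊` points:
`cnt (S₀ \ R') ≥ minCnt (n - r) ≥ (F a - ρ²/2)((n-r)³ - 3n²)` and `cnt_sdiff` give
`0 ≥ -3n² - ρ²n³/2 + 8ρ r n² - 6r²n ≥ (3/2)ρ²n³ - 20 n²` (`ρn ≤ r ≤ ρn + 1`, `F a ≤ 1`), a contradiction for large `n`. -/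
theorem clean (a ρ : ℝ) (hρ : 0 < ρ) (hρ1 : ρ ≤ 1 / 10) :
    ∃ n₁ : ℕ, ∀ n ≥ n₁, ∃ S : Finset Pt, S.card ≤ n ∧ (1 - ρ) * n ≤ S.card ∧
      (cnt S (Set.Ioi a) : ℝ) ≤ F a * (n : ℝ) ^ 3 ∧
      ∀ x ∈ S, (dg S a x : ℝ) ≤ (3 * F a + 8 * ρ) * (n : ℝ) ^ 2 := by
  classical
  have hF0 := h1_F_nonneg a
  have hF1 := h1_F_le a
  have hε : F a - ρ ^ 2 / 2 < dens (Set.Ioi a) := by
    have : 0 < ρ ^ 2 := by positivity
    change F a - ρ ^ 2 / 2 < F a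
    linarith
  have hev := (tendsto_ratio (Set.Ioi a)).eventually (eventually_gt_nhds hε)
  obtain ⟨n₂, hn₂⟩ := eventually_atTop.1 hev
  refine ⟨max (2 * n₂ + 10) (⌈10 / ρ ^ 2⌉₊ + 1), ?_⟩
  intro n hn
  have hnA : 2 * n₂ + 10 ≤ n := le_trans (le_max_left _ _) hn
  have hnB : ⌈10 / ρ ^ 2⌉₊ + 1 ≤ n := le_trans (le_max_right _ _) hn
  have hnR : 10 / ρ ^ 2 ≤ (n : ℝ) := by
    refine (Nat.le_ceil _).trans ?_
    exact_mod_cast (by omega : ⌈10 / ρ ^ 2⌉₊ ≤ n)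
  have hnR10 : (10 : ℝ) ≤ n := by exact_mod_cast (by omega : 10 ≤ n)
  obtain ⟨S₀, hS1, hS2, hS3⟩ := exists_minCnt n (Set.Ioi a)
  have hd := denom_pos (n := n) (by omega)
  have hcnt : (cnt S₀ (Set.Ioi a) : ℝ) ≤ F a * (n : ℝ) ^ 3 := by
    have h1 := ratio_le_dens (Set.Ioi a) (n := n) (by omega)
    rw [ratio, div_le_iff₀ hd] at h1
    rw [hS3]
    refine h1.trans ?_
    change F a * ((n : ℝ) * ((n : ℝ) - 1) * ((n : ℝ) - 2)) ≤ F a * (n : ℝ) ^ 3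
    apply mul_le_mul_of_nonneg_left _ hF0
    have : (n : ℝ) * ((n : ℝ) - 1) * ((n : ℝ) - 2) = (n : ℝ) ^ 3 - (n : ℝ) * (3 * n - 2) := by ring
    rw [this]
    have : 0 ≤ (n : ℝ) * (3 * n - 2) := mul_nonneg (by linarith) (by linarith)
    linarith
  set R := S₀.filter fun x => (3 * F a + 8 * ρ) * (n : ℝ) ^ 2 < (dg S₀ a x : ℝ) with hRdef
  have hRS : R ⊆ S₀ := Finset.filter_subset _ _
  rcases le_or_gt (R.card : ℝ) (ρ * n) with hR | hR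
  · refine ⟨S₀ \ R, ?_, ?_, ?_, ?_⟩
    · rw [← hS1]
      exact Finset.card_le_card Finset.sdiff_subset
    · have h1 : (S₀ \ R).card + R.card = n := by
        rw [Finset.card_sdiff_add_card_eq_card hRS, hS1]
      have h2 : ((S₀ \ R).card : ℝ) + R.card = n := by exact_mod_cast h1
      linarith
    · refine le_trans ?_ hcnt
      exact_mod_cast h1_cnt_mono Finset.sdiff_subset _
    · intro x hx
      rw [Finset.mem_sdiff] at hx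
      have h1 : ¬ (3 * F a + 8 * ρ) * (n : ℝ) ^ 2 < (dg S₀ a x : ℝ) := fun h =>
        hx.2 (Finset.mem_filter.2 ⟨hx.1, h⟩)
      push Not at h1
      refine le_trans ?_ h1
      exact_mod_cast dg_mono Finset.sdiff_subset a x
  · exfalso
    set r := ⌈ρ * n⌉₊ with hr
    have hrR : r ≤ R.card := Nat.ceil_le.2 hR.le
    obtain ⟨R', hR'1, hR'2⟩ := Finset.exists_subset_card_eq hrR
    have hR'S : R' ⊆ S₀ := hR'1.trans hRS
    have hr1 : ρ * n ≤ (r : ℝ) := Nat.le_ceil _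
    have hr2 : (r : ℝ) ≤ ρ * n + 1 := (Nat.ceil_lt_add_one (by positivity)).le
    have hcard : (S₀ \ R').card + r = n := by
      rw [← hR'2, Finset.card_sdiff_add_card_eq_card hR'S, hS1]
    set m := (S₀ \ R').card with hmdef
    have hcardR : (m : ℝ) + r = n := by exact_mod_cast hcard
    have hρn : ρ * n ≤ (n : ℝ) / 10 := by nlinarith
    have hnA' : 2 * (n₂ : ℝ) + 10 ≤ n := by exact_mod_cast hnA
    have hmn₂ : n₂ ≤ m := by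
      have h0 : (0 : ℝ) ≤ n₂ := Nat.cast_nonneg _
      have : (n₂ : ℝ) ≤ m := by linarith
      exact_mod_cast this
    have hm3 : 3 ≤ m := by
      have : (3 : ℝ) ≤ m := by linarith
      exact_mod_cast this
    have hdm := denom_pos hm3
    have h1 : (F a - ρ ^ 2 / 2) * ((m : ℝ) * ((m : ℝ) - 1) * ((m : ℝ) - 2)) ≤
        cnt (S₀ \ R') (Set.Ioi a) := by
      have h2 := (hn₂ m hmn₂).le
      rw [ratio, le_div_iff₀ hdm] at h2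
      refine h2.trans ?_
      exact_mod_cast minCnt_le (hS2.mono Finset.sdiff_subset) (Set.Ioi a)
    have h2 := cnt_sdiff S₀ R' hR'S a
    have h3 : (r : ℝ) * ((3 * F a + 8 * ρ) * (n : ℝ) ^ 2) ≤ ∑ x ∈ R', (dg S₀ a x : ℝ) := by
      have h4 : ∑ _x ∈ R', ((3 * F a + 8 * ρ) * (n : ℝ) ^ 2) ≤ ∑ x ∈ R', (dg S₀ a x : ℝ) :=
        Finset.sum_le_sum fun x hx => (Finset.mem_filter.1 (hR'1 hx)).2.le
      rwa [Finset.sum_const, nsmul_eq_mul, hR'2] at h4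
    rw [hR'2, hS1] at h2
    refine h1_alg (F a) ρ n r m (cnt S₀ (Set.Ioi a)) hρ hρ1 hF0 hF1 hnR hr1 hr2 (by linarith)
      (by linarith [(by exact_mod_cast hm3 : (3 : ℝ) ≤ m)]) ?_ hcnt
    linarith

end Pool.Agent.MP_0af329_co.JP
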