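import Pool.Agent.MP_0af329_co.JPA3

set_option autoImplicit false

namespace Pool.Agent.MP_0af329_co.JP

open Finset EuclideanGeometry Filter Topology

open Classical in
theorem jph1a_dg (S : Finset Pt) (a : ℝ) (x : Pt) : dg S a x = ∑ t ∈ trip S,
    if (a < ∠ t.1 t.2.1 t.2.2 ∧ (t.1 = x ∨ t.2.1 = x ∨ t.2.2 = x)) then 1 else 0 := by
  rw [dg, tc, card_filter]
  refine sum_congr rfl fun t _ => ?_
  congr

open Classical in
theorem jph1a_cnt (S : Finset Pt) (a : ℝ) : cnt S (Set.Ioi a) = ∑ t ∈ trip S,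
    if a < ∠ t.1 t.2.1 t.2.2 then 1 else 0 := by
  rw [cnt, card_filter]
  refine sum_congr rfl fun t _ => ?_
  by_cases h : a < ∠ t.1 t.2.1 t.2.2
  · rw [if_pos h, if_pos (Set.mem_Ioi.2 h)]
  · rw [if_neg h, if_neg (fun h' => h (Set.mem_Ioi.1 h'))]

open Classical in
theorem jph1a_three {S : Finset Pt} {x y z : Pt} (h : (x, y, z) ∈ trip S) :
    ∑ u ∈ S, (if (x = u ∨ y = u ∨ z = u) then 1 else 0) = 3 := by
  rw [mem_trip] at h
  obtain ⟨⟨hx, hy, hz⟩, h1, h2, h3⟩ := h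
  rw [← card_filter]
  have e : S.filter (fun u => x = u ∨ y = u ∨ z = u) = {x, y, z} := by
    ext u
    simp only [mem_filter, mem_insert, mem_singleton]
    constructor
    · rintro ⟨_, h | h | h⟩
      · exact Or.inl h.symm
      · exact Or.inr (Or.inl h.symm)
      · exact Or.inr (Or.inr h.symm)
    · rintro (h | h | h)
      · rw [h]; exact ⟨hx, Or.inl rfl⟩
      · rw [h]; exact ⟨hy, Or.inr (Or.inl rfl)⟩
      · rw [h]; exact ⟨hz, Or.inr (Or.inr rfl)⟩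
  rw [e, card_insert_of_notMem, card_insert_of_notMem, card_singleton]
  · simpa using h2
  · simp only [mem_insert, mem_singleton, not_or]
    exact ⟨h1, h3⟩

theorem jph1a_trip {S T : Finset Pt} (h : T ⊆ S) : trip T ⊆ trip S := by
  rintro ⟨x, y, z⟩ ht
  rw [mem_trip] at ht ⊢
  exact ⟨⟨h ht.1.1, h ht.1.2.1, h ht.1.2.2⟩, ht.2⟩

open Classical in
theorem jph1a_box (S A B C : Finset Pt) (P : Pt × Pt × Pt → Prop) [DecidablePred P] (n : ℕ)
    (hP : ∀ t ∈ trip S, P t → t ∈ A ×ˢ B ×ˢ C) (hn : A.card * (B.card * C.card) = n) :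
    ∑ t ∈ trip S, (if P t then 1 else 0) ≤ n := by
  rw [← card_filter, ← hn, ← card_product, ← card_product]
  refine card_le_card fun t ht => ?_
  rw [mem_filter] at ht
  exact hP t ht.1 ht.2

open Classical in
theorem jph1a_nat (S R : Finset Pt) (hR : R ⊆ S) (a : ℝ) :
    cnt (S \ R) (Set.Ioi a) + ∑ x ∈ R, dg S a x ≤
      cnt S (Set.Ioi a) + 6 * R.card ^ 2 * S.card := by
  have h1 : cnt (S \ R) (Set.Ioi a) ≤ ∑ t ∈ trip S,
      if (a < ∠ t.1 t.2.1 t.2.2 ∧ t.1 ∉ R ∧ t.2.1 ∉ R ∧ t.2.2 ∉ R) then 1 else 0 := by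
    rw [cnt, ← card_filter]
    refine card_le_card ?_
    rintro ⟨x, y, z⟩ ht
    rw [mem_filter, mem_trip] at ht
    rw [mem_filter, mem_trip]
    obtain ⟨⟨⟨hx, hy, hz⟩, h2⟩, h3⟩ := ht
    have hx := Finset.mem_sdiff.1 hx
    have hy := Finset.mem_sdiff.1 hy
    have hz := Finset.mem_sdiff.1 hz
    exact ⟨⟨⟨hx.1, hy.1, hz.1⟩, h2⟩, h3, hx.2, hy.2, hz.2⟩
  have h2 : ∑ x ∈ R, dg S a x = ∑ t ∈ trip S, ∑ x ∈ R,
      if (a < ∠ t.1 t.2.1 t.2.2 ∧ (t.1 = x ∨ t.2.1 = x ∨ t.2.2 = x)) then 1 else 0 := by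
    rw [sum_comm]
    exact sum_congr rfl fun x _ => jph1a_dg S a x
  have h4 : ∀ t ∈ trip S, (if (a < ∠ t.1 t.2.1 t.2.2 ∧ t.1 ∉ R ∧ t.2.1 ∉ R ∧ t.2.2 ∉ R)
      then 1 else 0) + (∑ x ∈ R,
        if (a < ∠ t.1 t.2.1 t.2.2 ∧ (t.1 = x ∨ t.2.1 = x ∨ t.2.2 = x)) then 1 else 0) ≤
      (if a < ∠ t.1 t.2.1 t.2.2 then 1 else 0) + 2 * ((if (t.1 ∈ R ∧ t.2.1 ∈ R) then 1 else 0) +
        (if (t.1 ∈ R ∧ t.2.2 ∈ R) then 1 else 0) + (if (t.2.1 ∈ R ∧ t.2.2 ∈ R) then 1 else 0)) := by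
    intro t _
    by_cases ha : a < ∠ t.1 t.2.1 t.2.2
    · have h5 : (∑ x ∈ R, if (a < ∠ t.1 t.2.1 t.2.2 ∧ (t.1 = x ∨ t.2.1 = x ∨ t.2.2 = x))
          then 1 else 0) ≤ (if t.1 ∈ R then 1 else 0) + (if t.2.1 ∈ R then 1 else 0) +
            (if t.2.2 ∈ R then 1 else 0) := by
        have h6 : ∀ u : Pt, (∑ x ∈ R, if u = x then 1 else 0) = if u ∈ R then 1 else 0 := by
          intro u
          rw [sum_ite_eq]
        rw [← h6 t.1, ← h6 t.2.1, ← h6 t.2.2, ← sum_add_distrib, ← sum_add_distrib]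
        refine sum_le_sum fun x _ => ?_
        by_cases c1 : t.1 = x <;> by_cases c2 : t.2.1 = x <;> by_cases c3 : t.2.2 = x <;>
          simp [c1, c2, c3] <;> split_ifs <;> omega
      refine (Nat.add_le_add_left h5 _).trans ?_
      by_cases c1 : t.1 ∈ R <;> by_cases c2 : t.2.1 ∈ R <;> by_cases c3 : t.2.2 ∈ R <;>
        simp [c1, c2, c3, ha]
    · simp [ha]
  have h7 := sum_le_sum h4
  rw [sum_add_distrib, sum_add_distrib, ← mul_sum, sum_add_distrib, sum_add_distrib,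
    ← jph1a_cnt, ← h2] at h7
  have b1 : ∑ t ∈ trip S, (if (t.1 ∈ R ∧ t.2.1 ∈ R) then 1 else 0) ≤ R.card ^ 2 * S.card := by
    refine jph1a_box S R R S (fun t => t.1 ∈ R ∧ t.2.1 ∈ R) (R.card ^ 2 * S.card) ?_ (by ring)
    rintro ⟨x, y, z⟩ ht hP
    rw [mem_trip] at ht
    rw [mem_product, mem_product]
    exact ⟨hP.1, hP.2, ht.1.2.2⟩
  have b2 : ∑ t ∈ trip S, (if (t.1 ∈ R ∧ t.2.2 ∈ R) then 1 else 0) ≤ R.card ^ 2 * S.card := by
    refine jph1a_box S R S R (fun t => t.1 ∈ R ∧ t.2.2 ∈ R) (R.card ^ 2 * S.card) ?_ (by ring)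
    rintro ⟨x, y, z⟩ ht hP
    rw [mem_trip] at ht
    rw [mem_product, mem_product]
    exact ⟨hP.1, ht.1.2.1, hP.2⟩
  have b3 : ∑ t ∈ trip S, (if (t.2.1 ∈ R ∧ t.2.2 ∈ R) then 1 else 0) ≤ R.card ^ 2 * S.card := by
    refine jph1a_box S S R R (fun t => t.2.1 ∈ R ∧ t.2.2 ∈ R) (R.card ^ 2 * S.card) ?_ (by ring)
    rintro ⟨x, y, z⟩ ht hP
    rw [mem_trip] at ht
    rw [mem_product, mem_product]
    exact ⟨ht.1.1, hP.1, hP.2⟩
  have h8 : 6 * R.card ^ 2 * S.card = 2 * (R.card ^ 2 * S.card + R.card ^ 2 * S.card +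
      R.card ^ 2 * S.card) := by ring
  rw [h8]
  omega

open Classical in
theorem jph1a_sum (S : Finset Pt) (a : ℝ) : ∑ x ∈ S, dg S a x = 3 * cnt S (Set.Ioi a) := by
  have h1 : ∑ x ∈ S, dg S a x = ∑ t ∈ trip S, ∑ x ∈ S,
      if (a < ∠ t.1 t.2.1 t.2.2 ∧ (t.1 = x ∨ t.2.1 = x ∨ t.2.2 = x)) then 1 else 0 := by
    rw [sum_comm]
    exact sum_congr rfl fun x _ => jph1a_dg S a x
  rw [h1, jph1a_cnt, mul_sum]
  refine sum_congr rfl ?_
  rintro ⟨x, y, z⟩ ht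
  by_cases h : a < ∠ x y z
  · have h2 := jph1a_three ht
    simp only [h, true_and, if_true]
    exact h2
  · simp [h]

theorem sum_dg (S : Finset Pt) (a : ℝ) : ∑ x ∈ S, dg S a x = 3 * cnt S (Set.Ioi a) :=
  jph1a_sum S a

theorem dg_mono {S T : Finset Pt} (h : T ⊆ S) (a : ℝ) (x : Pt) : dg T a x ≤ dg S a x := by
  unfold dg tc
  exact card_le_card (@filter_subset_filter (Pt × Pt × Pt) _ (fun _ => Classical.propDecidable _)
    (trip T) (trip S) (jph1a_trip h))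

open Classical in
/-- ROW F20-H1.  PROOF.  A counted triple with `j ≥ 1` points in `R` is counted `j ≤ 1 + 2·[j ≥ 2]` times in the first
sum; there are at most `3 r² n` ordered triples with at least two points in `R`. -/
theorem cnt_sdiff (S R : Finset Pt) (hR : R ⊆ S) (a : ℝ) :
    (cnt (S \ R) (Set.Ioi a) : ℝ) + ∑ x ∈ R, (dg S a x : ℝ) ≤
      cnt S (Set.Ioi a) + 6 * (R.card : ℝ) ^ 2 * S.card := by
  have h := jph1a_nat S R hR a
  exact_mod_cast h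

end Pool.Agent.MP_0af329_co.JP
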