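import Pool.Agent.MP_0af329_co.JPH1
import Pool.Agent.MP_0af329_co.JPF6
import Pool.Agent.MP_0af329_co.JPG5

set_option autoImplicit false

namespace Pool.Agent.MP_0af329_co.JP

open Finset EuclideanGeometry Filter Topology

/-- ROW F20-H2.  PROOF.  `sum_dg`: `3 cnt ≤ n (1/4 + 10^(-11)) n²`, so `frames_main` applies; `rot φ` is injective and preserves
angles (`cnt_image`, `dg_image`, card of the image), `geo_final` (`cos a ≥ -1/1000`: `cos a = - sin (a - π/2)`). -/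
theorem structure_bound (a : ℝ) (h1 : Real.pi / 2 < a)
    (h2 : a ≤ Real.pi / 2 + Real.pi / (2 * 10 ^ 15)) (S : Finset Pt) (hn : 10 ^ 12 ≤ S.card)
    (hd : ∀ x ∈ S, (dg S a x : ℝ) ≤ (1 / 4 + 1 / 10 ^ 11) * (S.card : ℝ) ^ 2) :
    (S.card : ℝ) * (S.card - 1) * (S.card - 5) / 12 ≤ cnt S (Set.Ioi a) := by
  classical
  have hn' : (10 : ℝ) ^ 12 ≤ S.card := by exact_mod_cast hn
  have hnpos : (0 : ℝ) < S.card := lt_of_lt_of_le (by positivity) hn'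
  have hpi := Real.pi_pos
  have hpi4 := Real.pi_lt_four
  have hsum : (3 : ℝ) * cnt S (Set.Ioi a) ≤
      (S.card : ℝ) * ((1 / 4 + 1 / 10 ^ 11) * (S.card : ℝ) ^ 2) := by
    have e : (∑ x ∈ S, (dg S a x : ℝ)) = 3 * cnt S (Set.Ioi a) := by
      have := sum_dg S a
      exact_mod_cast this
    rw [← e]
    calc ∑ x ∈ S, (dg S a x : ℝ) ≤ ∑ x ∈ S, (1 / 4 + 1 / 10 ^ 11) * (S.card : ℝ) ^ 2 :=
          Finset.sum_le_sum hd
      _ = _ := by rw [Finset.sum_const, nsmul_eq_mul]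
  have hn3 : (0 : ℝ) < (S.card : ℝ) ^ 3 := by positivity
  have hc : (cnt S (Set.Ioi a) : ℝ) ≤ (1 / 12 + 4 / 10 ^ 12) * (S.card : ℝ) ^ 3 := by
    nlinarith
  obtain ⟨φ, col, hG⟩ := frames_main a h1 h2 S hn hc
  have hcard : (S.image (rot φ)).card = S.card := Finset.card_image_of_injective _ (rot_inj φ)
  have hcnt : cnt (S.image (rot φ)) (Set.Ioi a) = cnt S (Set.Ioi a) :=
    cnt_image (rot φ) (rot_inj φ) (angle_rot φ) S _
  have hsmall : Real.pi / (2 * 10 ^ 15) ≤ 1 / 1000 := by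
    rw [div_le_iff₀ (by positivity)]
    nlinarith
  have hcos : -(1 / 1000) ≤ Real.cos a := by
    have e : Real.cos a = - Real.sin (a - Real.pi / 2) := by
      rw [Real.sin_sub_pi_div_two, neg_neg]
    rw [e]
    have := Real.sin_le (x := a - Real.pi / 2) (by linarith)
    linarith
  have hapi : a ≤ Real.pi := by
    have : (1 : ℝ) / 1000 ≤ Real.pi / 2 := by
      have := Real.pi_gt_three
      linarith
    linarith
  have key := geo_final a (by linarith) hapi hcos (S.image (rot φ)) col hG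
    (by rw [hcard]; exact le_trans (by norm_num) hn) (by
      intro x hx
      obtain ⟨y, hy, rfl⟩ := Finset.mem_image.1 hx
      rw [hcard, dg_image (rot φ) (rot_inj φ) (angle_rot φ) S a y]
      refine (hd y hy).trans ?_
      have : (0 : ℝ) ≤ (S.card : ℝ) ^ 2 := by positivity
      nlinarith)
  rw [hcard, hcnt] at key
  exact key

/-- ROW F20-H2.  PROOF.  Suppose `f = F a < 1/12`.  For `ρ ≤ 10^(-13)` small with `f < (1-ρ)³/12 - ρ` use `clean` with `n` large: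
`dg ≤ (1/4 + 8ρ) n² ≤ (1/4 + 8ρ)(1-ρ)^(-2) |S|² ≤ (1/4 + 10^(-11)) |S|²`, so `structure_bound`:
`f n³ ≥ m(m-1)(m-5)/12 ≥ m³/12 - m²/2`, `m = |S| ≥ (1-ρ) n`: `f ≥ (1-ρ)³/12 - 1/(2n)`, contradiction. -/
theorem le_F_right (a : ℝ) (h1 : Real.pi / 2 < a)
    (h2 : a ≤ Real.pi / 2 + Real.pi / (2 * 10 ^ 15)) : 1 / 12 ≤ F a := by
  by_contra hcon
  push Not at hcon
  set f : ℝ := F a with hf
  set ρ : ℝ := min (1 / 10 ^ 13) ((1 / 12 - f) / 2) with hρdef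
  have hρ : 0 < ρ := lt_min (by positivity) (by linarith)
  have hρ1 : ρ ≤ 1 / 10 ^ 13 := min_le_left _ _
  have hρ2 : ρ ≤ (1 / 12 - f) / 2 := min_le_right _ _
  obtain ⟨n₁, hcl⟩ := clean a ρ hρ (hρ1.trans (by norm_num))
  obtain ⟨n₂, hn₂⟩ := exists_nat_gt (1 / ρ)
  obtain ⟨n, hna, hnb, hnc⟩ : ∃ n : ℕ, n₁ ≤ n ∧ n₂ ≤ n ∧ 2 * 10 ^ 12 ≤ n :=
    ⟨n₁ + n₂ + 2 * 10 ^ 12, by omega, by omega, by omega⟩
  have hnn₂ : 1 / ρ < n := lt_of_lt_of_le hn₂ (by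
    exact_mod_cast hnb)
  have hn12 : (2 * 10 ^ 12 : ℝ) ≤ n := by
    exact_mod_cast hnc
  have hnpos : (0 : ℝ) < n := lt_of_lt_of_le (by positivity) hn12
  obtain ⟨S, hS1, hS2, hS3, hS4⟩ := hcl n hna
  have hS1' : (S.card : ℝ) ≤ n := by exact_mod_cast hS1
  have hρn : 1 < ρ * n := by
    rw [div_lt_iff₀ hρ] at hnn₂
    linarith
  have hρhalf : ρ ≤ 1 / 2 := hρ1.trans (by norm_num)
  have hSb : (10 ^ 12 : ℝ) ≤ S.card := by
    have : (1 / 2 : ℝ) * n ≤ (1 - ρ) * n := mul_le_mul_of_nonneg_right (by linarith) hnpos.le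
    linarith
  have hSb' : 10 ^ 12 ≤ S.card := by exact_mod_cast hSb
  have hm0 : (0 : ℝ) < S.card := lt_of_lt_of_le (by positivity) hSb
  have hsq : ((1 - ρ) * n) ^ 2 ≤ (S.card : ℝ) ^ 2 :=
    pow_le_pow_left₀ (mul_nonneg (by linarith) hnpos.le) hS2 2
  have hcu : ((1 - ρ) * n) ^ 3 ≤ (S.card : ℝ) ^ 3 :=
    pow_le_pow_left₀ (mul_nonneg (by linarith) hnpos.le) hS2 3
  have hcoef : 1 / 4 + 8 * ρ ≤ (1 / 4 + 1 / 10 ^ 11) * (1 - ρ) ^ 2 := by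
    have h1' : 1 - 2 * ρ ≤ (1 - ρ) ^ 2 := by nlinarith [sq_nonneg ρ]
    have h2' : (1 / 4 + 1 / 10 ^ 11) * (1 - 2 * ρ) ≤ (1 / 4 + 1 / 10 ^ 11 : ℝ) * (1 - ρ) ^ 2 :=
      mul_le_mul_of_nonneg_left h1' (by positivity)
    refine le_trans ?_ h2'
    nlinarith
  have key := structure_bound a h1 h2 S hSb' (by
    intro x hx
    refine (hS4 x hx).trans ?_
    calc (3 * f + 8 * ρ) * (n : ℝ) ^ 2 ≤ (1 / 4 + 8 * ρ) * (n : ℝ) ^ 2 :=
          mul_le_mul_of_nonneg_right (by linarith) (by positivity)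
      _ ≤ ((1 / 4 + 1 / 10 ^ 11) * (1 - ρ) ^ 2) * (n : ℝ) ^ 2 :=
          mul_le_mul_of_nonneg_right hcoef (by positivity)
      _ = (1 / 4 + 1 / 10 ^ 11) * ((1 - ρ) * n) ^ 2 := by ring
      _ ≤ (1 / 4 + 1 / 10 ^ 11) * (S.card : ℝ) ^ 2 :=
          mul_le_mul_of_nonneg_left hsq (by positivity))
  have key2 := key.trans hS3
  have hm2 : (S.card : ℝ) ^ 2 ≤ (n : ℝ) ^ 2 := pow_le_pow_left₀ hm0.le hS1' 2
  have e1 : (S.card : ℝ) ^ 3 / 12 - (S.card : ℝ) ^ 2 / 2 ≤ f * (n : ℝ) ^ 3 := by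
    refine le_trans ?_ key2
    have : (0 : ℝ) ≤ S.card := hm0.le
    nlinarith
  have e2 : (1 - ρ) ^ 3 * (n : ℝ) ^ 3 / 12 - (n : ℝ) ^ 2 / 2 ≤ f * (n : ℝ) ^ 3 := by
    have : ((1 - ρ) * (n : ℝ)) ^ 3 = (1 - ρ) ^ 3 * (n : ℝ) ^ 3 := by ring
    rw [this] at hcu
    linarith
  have e3 : 1 - 3 * ρ ≤ (1 - ρ) ^ 3 := by nlinarith [sq_nonneg ρ, mul_pos hρ hρ]
  have hn3 : (0 : ℝ) < (n : ℝ) ^ 3 := by positivity
  have e4 : (1 - 3 * ρ) * (n : ℝ) ^ 3 ≤ (1 - ρ) ^ 3 * (n : ℝ) ^ 3 :=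
    mul_le_mul_of_nonneg_right e3 hn3.le
  have e5 : f + 2 * ρ ≤ 1 / 12 := by linarith
  have e6 : (f + 2 * ρ) * (n : ℝ) ^ 3 ≤ 1 / 12 * (n : ℝ) ^ 3 :=
    mul_le_mul_of_nonneg_right e5 hn3.le
  have hn2 : (0 : ℝ) < (n : ℝ) ^ 2 := by positivity
  have e7 : (n : ℝ) ^ 2 < ρ * (n : ℝ) ^ 3 := by
    have : (n : ℝ) ^ 2 * 1 < (n : ℝ) ^ 2 * (ρ * n) := mul_lt_mul_of_pos_left hρn hn2
    calc (n : ℝ) ^ 2 = (n : ℝ) ^ 2 * 1 := by ring
      _ < (n : ℝ) ^ 2 * (ρ * n) := this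
      _ = ρ * (n : ℝ) ^ 3 := by ring
  linarith

end Pool.Agent.MP_0af329_co.JP
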