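import Pool.Agent.MP_0af329_co.JTDefs

set_option autoImplicit false

namespace Pool.Agent.MP_0af329_co.JT

/-- The finite check (`bijk` says whether the triple `ijk` of `{0,1,2,3,4}` is marked): if some
triple is marked the sum over the ten triples is at least `26`. -/
theorem five_check (b012 b013 b014 b023 b024 b034 b123 b124 b134 b234 : Bool)
    (h : (b012 || b013 || b014 || b023 || b024 || b034 || b123 || b124 || b134 || b234) = true) :
    26 ≤ gk b012 b013 b023 b123 b014 b024 b124 + gk b013 b012 b023 b123 b014 b034 b134 +
      gk b014 b012 b024 b124 b013 b034 b134 + gk b023 b012 b013 b123 b024 b034 b234 +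
      gk b024 b012 b014 b124 b023 b034 b234 + gk b034 b013 b014 b134 b023 b024 b234 +
      gk b123 b012 b013 b023 b124 b134 b234 + gk b124 b012 b014 b024 b123 b134 b234 +
      gk b134 b013 b014 b034 b123 b124 b234 + gk b234 b023 b024 b034 b123 b124 b134 := by
  revert h b012 b013 b014 b023 b024 b034 b123 b124 b134 b234
  decide +kernel

/-- `gk` is `14` or minus a product of two numbers in `[-2, 2]`. -/
theorem gk_ge (t a b c a' b' c' : Bool) : -4 ≤ gk t a b c a' b' c' := by
  revert t a b c a' b' c'
  decide +kernel

end Pool.Agent.MP_0af329_co.JT
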