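import Pool.Agent.MP_0af329_co.JTDefs

set_option autoImplicit false

namespace Pool.Agent.MP_0af329_co.JT

open Finset

/-- ROW F19-A2a.  Reordering the five variables.  (`Σ_t G t` over `t : Fin 5 → V` is invariant under
`t ↦ t ∘ σ`, `Equiv.sum_comp` with `Equiv.arrowCongr`; or swap sums.) -/
theorem sum_perm {V : Type} [Fintype V] (G : (Fin 5 → V) → ℤ) (σ : Equiv.Perm (Fin 5)) :
    ∑ t, G (t ∘ σ) = ∑ t, G t :=
  Equiv.sum_comp (Equiv.arrowCongr σ.symm (Equiv.refl V)) G

/-- The tuples with `t i = t j` are determined by the other four coordinates. -/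
private theorem card_eq_le {V : Type} [Fintype V] [DecidableEq V] (i j : Fin 5) (h : i ≠ j) :
    (univ.filter fun t : Fin 5 → V => t i = t j).card ≤ Fintype.card V ^ 4 := by
  have h1 : Fintype.card V ^ 4 = (univ : Finset (Fin 4 → V)).card := by
    rw [card_univ, Fintype.card_fun, Fintype.card_fin]
  rw [h1]
  refine card_le_card_of_injOn (fun t k => t (j.succAbove k)) (fun t _ => mem_coe.2 (mem_univ _)) ?_
  intro t ht u hu htu
  rw [mem_coe, mem_filter] at ht hu
  obtain ⟨k0, hk0⟩ := Fin.exists_succAbove_eq h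
  have h2 : ∀ k : Fin 4, t (j.succAbove k) = u (j.succAbove k) := fun k => congrFun htu k
  funext k
  by_cases hk : k = j
  · rw [hk, ← ht.2, ← hu.2, ← hk0]
    exact h2 k0
  · obtain ⟨k', hk'⟩ := Fin.exists_succAbove_eq hk
    rw [← hk']
    exact h2 k'

/-- ROW F19-A2a.  The non-injective 5-tuples: contained in the union over the ten pairs `i < j` of
`{t : t i = t j}`, each of which has `n⁴` elements (or at most). -/
theorem card_not_inj_le {V : Type} [Fintype V] [DecidableEq V] :
    (univ.filter fun t : Fin 5 → V => ¬ Function.Injective t).card ≤ 10 * Fintype.card V ^ 4 := by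
  have hsub : (univ.filter fun t : Fin 5 → V => ¬ Function.Injective t) ⊆
      (univ.filter fun p : Fin 5 × Fin 5 => p.1 < p.2).biUnion
        fun p => univ.filter fun t : Fin 5 → V => t p.1 = t p.2 := by
    intro t ht
    rw [mem_filter] at ht
    have h1 := ht.2
    unfold Function.Injective at h1
    push Not at h1
    obtain ⟨i, j, hij, hne⟩ := h1
    rw [mem_biUnion]
    rcases lt_or_gt_of_ne hne with h | h
    · exact ⟨(i, j), mem_filter.2 ⟨mem_univ _, h⟩, mem_filter.2 ⟨mem_univ _, hij⟩⟩
    · exact ⟨(j, i), mem_filter.2 ⟨mem_univ _, h⟩, mem_filter.2 ⟨mem_univ _, hij.symm⟩⟩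
  refine (card_le_card hsub).trans (card_biUnion_le.trans ?_)
  have h2 : ∀ p ∈ (univ.filter fun p : Fin 5 × Fin 5 => p.1 < p.2),
      (univ.filter fun t : Fin 5 → V => t p.1 = t p.2).card ≤ Fintype.card V ^ 4 := by
    intro p hp
    exact card_eq_le p.1 p.2 (mem_filter.1 hp).2.ne
  refine (sum_le_card_nsmul _ _ _ h2).trans ?_
  rw [smul_eq_mul]
  have h3 : (univ.filter fun p : Fin 5 × Fin 5 => p.1 < p.2).card = 10 := by decide
  rw [h3]

end Pool.Agent.MP_0af329_co.JT
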