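import Pool.Agent.MP_0af329_co.JTDefs

set_option autoImplicit false

namespace Pool.Agent.MP_0af329_co.JT

open Finset

namespace JTA2c

/-- The tuples of length 5 as a product. -/
def e5 (V : Type) : (Fin 5 → V) ≃ V × V × V × V × V where
  toFun t := (t 0, t 1, t 2, t 3, t 4)
  invFun p := ![p.1, p.2.1, p.2.2.1, p.2.2.2.1, p.2.2.2.2]
  left_inv t := by
    funext i
    fin_cases i <;> rfl
  right_inv p := rfl

theorem inner_le {V : Type} [Fintype V] (H : V → V → V → Bool) (x y z : V) :
    ∑ u : V, ∑ w : V, GG H x y z u w ≤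
      (if H x y z = true then (1 : ℤ) else 0) * (14 * (Fintype.card V : ℤ) ^ 2) := by
  by_cases h : H x y z = true
  · rw [if_pos h]
    have e : ∀ u w : V, GG H x y z u w = 14 := by
      intro u w
      unfold GG gk
      rw [if_pos h]
    simp only [e, sum_const, card_univ, nsmul_eq_mul]
    apply le_of_eq
    ring
  · rw [if_neg h, zero_mul]
    have e : ∀ u w : V, GG H x y z u w =
        -(fk (H x y u) (H x z u) (H y z u) * fk (H x y w) (H x z w) (H y z w)) := by
      intro u w
      unfold GG gk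
      rw [if_neg h]
    simp only [e, sum_neg_distrib]
    rw [← sum_mul_sum]
    have := mul_self_nonneg (∑ u : V, fk (H x y u) (H x z u) (H y z u))
    linarith

end JTA2c

/-- ROW F19-A2c.  The sum over all 5-tuples of the functional: `∑_{u, w} f(u) f(w) = (∑_u f(u))² ≥ 0` for
every `xyz` which is not marked.  (Rewrite `∑_t` as `∑_x ∑_y ∑_z ∑_u ∑_w`, e.g. `Fin.consEquiv`/`Fintype.sum_equiv`
with `Fin.cons`, or `Finset.sum` over the product type via an explicit equivalence.) -/
theorem sum_GG_le {V : Type} [Fintype V] (H : V → V → V → Bool) :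
    ∑ t : Fin 5 → V, GG H (t 0) (t 1) (t 2) (t 3) (t 4) ≤
      14 * ((univ.filter fun s : V × V × V => H s.1 s.2.1 s.2.2 = true).card : ℤ) *
        (Fintype.card V : ℤ) ^ 2 := by
  have h1 : ∑ t : Fin 5 → V, GG H (t 0) (t 1) (t 2) (t 3) (t 4) =
      ∑ x : V, ∑ y : V, ∑ z : V, ∑ u : V, ∑ w : V, GG H x y z u w := by
    rw [Fintype.sum_equiv (JTA2c.e5 V) (fun t : Fin 5 → V => GG H (t 0) (t 1) (t 2) (t 3) (t 4))
      (fun p : V × V × V × V × V => GG H p.1 p.2.1 p.2.2.1 p.2.2.2.1 p.2.2.2.2) (fun t => rfl)]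
    simp only [Fintype.sum_prod_type]
  have h2 : ((univ.filter fun s : V × V × V => H s.1 s.2.1 s.2.2 = true).card : ℤ) =
      ∑ x : V, ∑ y : V, ∑ z : V, (if H x y z = true then (1 : ℤ) else 0) := by
    rw [card_filter]
    push_cast
    simp only [Fintype.sum_prod_type]
  rw [h1]
  calc ∑ x : V, ∑ y : V, ∑ z : V, ∑ u : V, ∑ w : V, GG H x y z u w
      ≤ ∑ x : V, ∑ y : V, ∑ z : V,
          (if H x y z = true then (1 : ℤ) else 0) * (14 * (Fintype.card V : ℤ) ^ 2) :=
        sum_le_sum fun x _ => sum_le_sum fun y _ => sum_le_sum fun z _ => JTA2c.inner_le H x y z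
    _ = _ := by
        simp only [← sum_mul]
        rw [h2]
        ring

end Pool.Agent.MP_0af329_co.JT
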