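import Pool.Agent.MP_0af329_co.JTA1
import Pool.Agent.MP_0af329_co.JTA2a
import Pool.Agent.MP_0af329_co.JTA2c

set_option autoImplicit false

namespace Pool.Agent.MP_0af329_co.JT

open Finset

/-- The ten permutations of the five indices which bring `i < j < k`, `u < w` to the front. -/
noncomputable def prm (l : List (Fin 5)) (h : l.Nodup) (h5 : l.length = 5) : Equiv.Perm (Fin 5) :=
  Equiv.ofBijective (fun i => l.get ⟨i, by rw [h5]; exact i.2⟩) ((Finite.injective_iff_bijective).1 (by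
    intro i j hij
    have h1 := (List.Nodup.get_inj_iff h).1 hij
    have h2 : (i : ℕ) = j := by simpa using congrArg Fin.val h1
    exact Fin.ext h2))

/-- ROW F19-A2d.  The density bound `13/70`.
PROOF.  For `t : Fin 5 → V` let `S t` be the sum of the ten terms
`GG H (t i) (t j) (t k) (t u) (t w)`, `i < j < k`, `u < w` the other two indices.  By `sum_perm` (each term is the
term `(0,1,2,3,4)` composed with a permutation) `∑_t S t = 10 ∑_t GG H (t 0) ...`.  For injective `t`: `S t ≥ 26` by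
`five_check` with `bijk = H (t i) (t j) (t k)` (the symmetries `h12`, `h23` bring every triple to increasing order);
for all `t`: `S t ≥ -40` by `gk_ge`.  So `10 · 14 · E · n² ≥ 26 (n⁵ - #noninj) - 40 #noninj ≥ 26 n⁵ - 660 n⁴` by
`sum_GG_le` and `card_not_inj_le`; `26/140 = 13/70`, `660/140 ≤ 5` (if `n = 0` trivial). -/
theorem density_five {V : Type} [Fintype V] (H : V → V → V → Bool)
    (h12 : ∀ x y z, H x y z = H y x z) (h23 : ∀ x y z, H x y z = H x z y)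
    (h5 : ∀ t : Fin 5 → V, Function.Injective t →
      ∃ i j k : Fin 5, i < j ∧ j < k ∧ H (t i) (t j) (t k) = true) :
    13 / 70 * (Fintype.card V : ℝ) ^ 3 - 5 * (Fintype.card V : ℝ) ^ 2 ≤
      ((univ.filter fun s : V × V × V => H s.1 s.2.1 s.2.2 = true).card : ℝ) := by
  classical
  set G : (Fin 5 → V) → ℤ := fun t => GG H (t 0) (t 1) (t 2) (t 3) (t 4) with hG
  set A : ℤ := ∑ t, G t with hA
  have hs : ∀ a b c d e : Fin 5, ([a, b, c, d, e] : List (Fin 5)).Nodup →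
      ∑ t : Fin 5 → V, GG H (t a) (t b) (t c) (t d) (t e) = A := by
    intro a b c d e hn
    exact sum_perm G (prm [a, b, c, d, e] hn rfl)
  have e1 := hs 0 1 2 3 4 (by decide)
  have e2 := hs 0 1 3 2 4 (by decide)
  have e3 := hs 0 1 4 2 3 (by decide)
  have e4 := hs 0 2 3 1 4 (by decide)
  have e5 := hs 0 2 4 1 3 (by decide)
  have e6 := hs 0 3 4 1 2 (by decide)
  have e7 := hs 1 2 3 0 4 (by decide)
  have e8 := hs 1 2 4 0 3 (by decide)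
  have e9 := hs 1 3 4 0 2 (by decide)
  have e10 := hs 2 3 4 0 1 (by decide)
  set S : (Fin 5 → V) → ℤ := fun t =>
    GG H (t 0) (t 1) (t 2) (t 3) (t 4) + GG H (t 0) (t 1) (t 3) (t 2) (t 4) +
    GG H (t 0) (t 1) (t 4) (t 2) (t 3) + GG H (t 0) (t 2) (t 3) (t 1) (t 4) +
    GG H (t 0) (t 2) (t 4) (t 1) (t 3) + GG H (t 0) (t 3) (t 4) (t 1) (t 2) +
    GG H (t 1) (t 2) (t 3) (t 0) (t 4) + GG H (t 1) (t 2) (t 4) (t 0) (t 3) +
    GG H (t 1) (t 3) (t 4) (t 0) (t 2) + GG H (t 2) (t 3) (t 4) (t 0) (t 1) with hS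
  have hsum : ∑ t, S t = 10 * A := by
    simp only [hS, sum_add_distrib]
    rw [e1, e2, e3, e4, e5, e6, e7, e8, e9, e10]
    ring
  have hge : ∀ t, -40 ≤ S t := by
    intro t
    have g := fun a b c d e => gk_ge (H (t a) (t b) (t c)) (H (t a) (t b) (t d)) (H (t a) (t c) (t d))
      (H (t b) (t c) (t d)) (H (t a) (t b) (t e)) (H (t a) (t c) (t e)) (H (t b) (t c) (t e))
    have g1 : -4 ≤ GG H (t 0) (t 1) (t 2) (t 3) (t 4) := g 0 1 2 3 4
    have g2 : -4 ≤ GG H (t 0) (t 1) (t 3) (t 2) (t 4) := g 0 1 3 2 4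
    have g3 : -4 ≤ GG H (t 0) (t 1) (t 4) (t 2) (t 3) := g 0 1 4 2 3
    have g4 : -4 ≤ GG H (t 0) (t 2) (t 3) (t 1) (t 4) := g 0 2 3 1 4
    have g5 : -4 ≤ GG H (t 0) (t 2) (t 4) (t 1) (t 3) := g 0 2 4 1 3
    have g6 : -4 ≤ GG H (t 0) (t 3) (t 4) (t 1) (t 2) := g 0 3 4 1 2
    have g7 : -4 ≤ GG H (t 1) (t 2) (t 3) (t 0) (t 4) := g 1 2 3 0 4
    have g8 : -4 ≤ GG H (t 1) (t 2) (t 4) (t 0) (t 3) := g 1 2 4 0 3
    have g9 : -4 ≤ GG H (t 1) (t 3) (t 4) (t 0) (t 2) := g 1 3 4 0 2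
    have g10 : -4 ≤ GG H (t 2) (t 3) (t 4) (t 0) (t 1) := g 2 3 4 0 1
    simp only [hS]
    linarith
  have hinj : ∀ t : Fin 5 → V, Function.Injective t → 26 ≤ S t := by
    intro t ht
    obtain ⟨i, j, k, hij, hjk, hb⟩ := h5 t ht
    have hor : (H (t 0) (t 1) (t 2) || H (t 0) (t 1) (t 3) || H (t 0) (t 1) (t 4) ||
        H (t 0) (t 2) (t 3) || H (t 0) (t 2) (t 4) || H (t 0) (t 3) (t 4) || H (t 1) (t 2) (t 3) ||
        H (t 1) (t 2) (t 4) || H (t 1) (t 3) (t 4) || H (t 2) (t 3) (t 4)) = true := by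
      have hcases : ∀ i j k : Fin 5, i < j → j < k →
          (i = 0 ∧ j = 1 ∧ k = 2) ∨ (i = 0 ∧ j = 1 ∧ k = 3) ∨ (i = 0 ∧ j = 1 ∧ k = 4) ∨
          (i = 0 ∧ j = 2 ∧ k = 3) ∨ (i = 0 ∧ j = 2 ∧ k = 4) ∨ (i = 0 ∧ j = 3 ∧ k = 4) ∨
          (i = 1 ∧ j = 2 ∧ k = 3) ∨ (i = 1 ∧ j = 2 ∧ k = 4) ∨ (i = 1 ∧ j = 3 ∧ k = 4) ∨
          (i = 2 ∧ j = 3 ∧ k = 4) := by
        decide
      rcases hcases i j k hij hjk with ⟨rfl, rfl, rfl⟩ | ⟨rfl, rfl, rfl⟩ | ⟨rfl, rfl, rfl⟩ | ⟨rfl, rfl, rfl⟩ |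
        ⟨rfl, rfl, rfl⟩ | ⟨rfl, rfl, rfl⟩ | ⟨rfl, rfl, rfl⟩ | ⟨rfl, rfl, rfl⟩ | ⟨rfl, rfl, rfl⟩ |
        ⟨rfl, rfl, rfl⟩ <;> simp [hb]
    have h13 : ∀ x y z, H x y z = H y z x := fun x y z => by rw [h12, h23]
    have key := five_check (H (t 0) (t 1) (t 2)) (H (t 0) (t 1) (t 3)) (H (t 0) (t 1) (t 4))
      (H (t 0) (t 2) (t 3)) (H (t 0) (t 2) (t 4)) (H (t 0) (t 3) (t 4)) (H (t 1) (t 2) (t 3))
      (H (t 1) (t 2) (t 4)) (H (t 1) (t 3) (t 4)) (H (t 2) (t 3) (t 4)) hor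
    refine key.trans (le_of_eq ?_)
    simp only [hS, GG]
    have w1 : H (t 0) (t 3) (t 2) = H (t 0) (t 2) (t 3) := h23 _ _ _
    have w2 : H (t 1) (t 3) (t 2) = H (t 1) (t 2) (t 3) := h23 _ _ _
    have w3 : H (t 0) (t 4) (t 2) = H (t 0) (t 2) (t 4) := h23 _ _ _
    have w4 : H (t 1) (t 4) (t 2) = H (t 1) (t 2) (t 4) := h23 _ _ _
    have w5 : H (t 0) (t 4) (t 3) = H (t 0) (t 3) (t 4) := h23 _ _ _
    have w6 : H (t 1) (t 4) (t 3) = H (t 1) (t 3) (t 4) := h23 _ _ _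
    have w7 : H (t 0) (t 2) (t 1) = H (t 0) (t 1) (t 2) := h23 _ _ _
    have w8 : H (t 0) (t 3) (t 1) = H (t 0) (t 1) (t 3) := h23 _ _ _
    have w9 : H (t 0) (t 4) (t 1) = H (t 0) (t 1) (t 4) := h23 _ _ _
    have w10 : H (t 2) (t 3) (t 1) = H (t 1) (t 2) (t 3) := (h13 _ _ _).symm
    have w11 : H (t 2) (t 4) (t 1) = H (t 1) (t 2) (t 4) := (h13 _ _ _).symm
    have w12 : H (t 3) (t 4) (t 1) = H (t 1) (t 3) (t 4) := (h13 _ _ _).symm
    have w13 : H (t 3) (t 4) (t 2) = H (t 2) (t 3) (t 4) := (h13 _ _ _).symm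
    have w14 : H (t 2) (t 4) (t 3) = H (t 2) (t 3) (t 4) := h23 _ _ _
    have w15 : H (t 1) (t 2) (t 0) = H (t 0) (t 1) (t 2) := (h13 _ _ _).symm
    have w16 : H (t 1) (t 3) (t 0) = H (t 0) (t 1) (t 3) := (h13 _ _ _).symm
    have w17 : H (t 1) (t 4) (t 0) = H (t 0) (t 1) (t 4) := (h13 _ _ _).symm
    have w18 : H (t 2) (t 3) (t 0) = H (t 0) (t 2) (t 3) := (h13 _ _ _).symm
    have w19 : H (t 2) (t 4) (t 0) = H (t 0) (t 2) (t 4) := (h13 _ _ _).symm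
    have w20 : H (t 3) (t 4) (t 0) = H (t 0) (t 3) (t 4) := (h13 _ _ _).symm
    rw [w1, w2, w3, w4, w5, w6, w7, w8, w9, w10, w11, w12, w13, w14, w15, w16, w17, w18, w19, w20]
  -- counting
  set N : ℕ := (univ.filter fun t : Fin 5 → V => ¬ Function.Injective t).card with hN
  set n : ℕ := Fintype.card V with hn
  have hNle : N ≤ 10 * n ^ 4 := card_not_inj_le
  have hlow : (26 : ℤ) * (n : ℤ) ^ 5 - 66 * N ≤ ∑ t, S t := by
    have h1 : ∀ t, (26 : ℤ) - (if ¬ Function.Injective t then 66 else 0) ≤ S t := by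
      intro t
      by_cases h : Function.Injective t
      · rw [if_neg (not_not.2 h)]
        have := hinj t h
        linarith
      · rw [if_pos h]
        have := hge t
        linarith
    have h2 := Finset.sum_le_sum (s := univ) (fun t _ => h1 t)
    refine le_trans (le_of_eq ?_) h2
    rw [sum_sub_distrib, sum_const, card_univ, ← sum_filter, sum_const, ← hN]
    rw [Fintype.card_fun, Fintype.card_fin, ← hn]
    simp
    ring
  have hup := sum_GG_le H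
  set E : ℕ := (univ.filter fun s : V × V × V => H s.1 s.2.1 s.2.2 = true).card with hE
  have h6 : (26 : ℤ) * (n : ℤ) ^ 5 - 660 * (n : ℤ) ^ 4 ≤ 140 * (E : ℤ) * (n : ℤ) ^ 2 := by
    have h7 : (N : ℤ) ≤ 10 * (n : ℤ) ^ 4 := by exact_mod_cast hNle
    have h8 : A ≤ 14 * (E : ℤ) * (n : ℤ) ^ 2 := hup
    rw [hsum] at hlow
    linarith
  rcases Nat.eq_zero_or_pos n with h0 | h0
  · rw [h0]
    simp
  · have h7 : (26 : ℝ) * (n : ℝ) ^ 5 - 660 * (n : ℝ) ^ 4 ≤ 140 * (E : ℝ) * (n : ℝ) ^ 2 := by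
      exact_mod_cast h6
    have h8 : (0 : ℝ) < (n : ℝ) ^ 2 := by positivity
    have h9 : (26 * (n : ℝ) ^ 3 - 660 * (n : ℝ) ^ 2 - 140 * E) * (n : ℝ) ^ 2 ≤ 0 := by nlinarith
    have h10 : 26 * (n : ℝ) ^ 3 - 660 * (n : ℝ) ^ 2 - 140 * E ≤ 0 := by
      by_contra h11
      rw [not_le] at h11
      have := mul_pos h11 h8
      linarith
    have h11 : (0 : ℝ) ≤ (n : ℝ) ^ 2 := h8.le
    nlinarith

end Pool.Agent.MP_0af329_co.JT
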