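import Pool.Agent.MP_0af329_co.JTDefs
import Pool.Agent.MP_0af329_co.JB0

set_option autoImplicit false

namespace Pool.Agent.MP_0af329_co.JT

open EuclideanGeometry

/-- unit vectors -/
private noncomputable def ue (a : ℝ) : Pt := !₂[Real.cos a, Real.sin a]

private theorem inner_ue (a b : ℝ) : inner ℝ (ue a) (ue b) = Real.cos (a - b) := by
  rw [PiLp.inner_apply, Fin.sum_univ_two, Real.cos_sub]
  simp [ue]
  ring

private theorem norm_ue (a : ℝ) : ‖ue a‖ = 1 := by
  have h : ‖ue a‖ ^ 2 = 1 := by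
    rw [← real_inner_self_eq_norm_sq, inner_ue, sub_self, Real.cos_zero]
  nlinarith [norm_nonneg (ue a)]

private theorem angle_ue (a b : ℝ) (h : |a - b| ≤ Real.pi) :
    InnerProductGeometry.angle (ue a) (ue b) = |a - b| := by
  rw [InnerProductGeometry.angle, inner_ue, norm_ue, norm_ue, mul_one, div_one, ← Real.cos_abs,
    Real.arccos_cos (abs_nonneg _) h]

/-- the upper half plane with the positive half axis -/
private def HP (v : Pt) : Prop := 0 < v 1 ∨ (v 1 = 0 ∧ 0 < v 0)

private theorem HP_neg {v : Pt} (hv : v ≠ 0) : HP (-v) ↔ ¬ HP v := by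
  have h0 : v 1 = 0 → v 0 ≠ 0 := by
    intro h1 h2
    apply hv
    ext i
    fin_cases i
    · simpa using h2
    · simpa using h1
  unfold HP
  simp only [PiLp.neg_apply, not_or, not_and, not_lt]
  constructor
  · rintro (h | ⟨h1, h2⟩)
    · exact ⟨by linarith, fun h3 => by linarith⟩
    · exact ⟨by linarith, fun _ => by linarith⟩
  · rintro ⟨h1, h2⟩
    rcases h1.lt_or_eq with h3 | h3
    · left
      linarith
    · right
      refine ⟨by linarith, ?_⟩
      have h4 := h2 h3
      have h5 := h0 h3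
      have : v 0 < 0 := lt_of_le_of_ne h4 h5
      linarith

open Classical in
/-- the representative of the line of `v` in the half plane -/
private noncomputable def rp (v : Pt) : Pt := if HP v then v else -v

/-- the angle of the line of `v` -/
private noncomputable def an (v : Pt) : ℝ := Real.arccos (rp v 0 / ‖rp v‖)

private theorem rp_neg {v : Pt} (hv : v ≠ 0) : rp (-v) = rp v := by
  unfold rp
  rw [neg_neg]
  by_cases h : HP v
  · rw [if_pos h, if_neg (fun h' => (HP_neg hv).mp h' h)]
  · rw [if_neg h, if_pos ((HP_neg hv).mpr h)]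

private theorem HP_rp {v : Pt} (hv : v ≠ 0) : HP (rp v) := by
  unfold rp
  by_cases h : HP v
  · rwa [if_pos h]
  · rw [if_neg h]
    exact (HP_neg hv).mpr h

private theorem rp_ne {v : Pt} (hv : v ≠ 0) : rp v ≠ 0 := by
  unfold rp
  by_cases h : HP v
  · rwa [if_pos h]
  · rw [if_neg h]
    exact neg_ne_zero.mpr hv

private theorem sq_sum (u : Pt) : u 0 ^ 2 + u 1 ^ 2 = ‖u‖ ^ 2 := by
  rw [EuclideanSpace.norm_sq_eq, Fin.sum_univ_two]
  simp

private theorem an_spec {v : Pt} (hv : v ≠ 0) :
    0 ≤ an v ∧ an v < Real.pi ∧ rp v = ‖rp v‖ • ue (an v) := by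
  have hu := HP_rp hv
  have hn := norm_pos_iff.mpr (rp_ne hv)
  have hsq := sq_sum (rp v)
  set u := rp v with hudef
  have h1 : 0 ≤ u 1 := by
    rcases hu with h | h
    · exact h.le
    · exact h.1.ge
  have hle : |u 0 / ‖u‖| ≤ 1 := by
    rw [abs_div, abs_norm, div_le_one hn]
    apply abs_le_of_sq_le_sq _ hn.le
    nlinarith [sq_nonneg (u 1)]
  obtain ⟨hl, hr⟩ := abs_le.mp hle
  have hcos : Real.cos (an v) = u 0 / ‖u‖ := Real.cos_arccos hl hr
  have hsin : Real.sin (an v) = u 1 / ‖u‖ := by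
    unfold an
    rw [← hudef, Real.sin_arccos]
    have e1 : 1 - (u 0 / ‖u‖) ^ 2 = (u 1 / ‖u‖) ^ 2 := by
      field_simp
      linarith
    rw [e1, Real.sqrt_sq (by positivity)]
  refine ⟨Real.arccos_nonneg _, lt_of_le_of_ne (Real.arccos_le_pi _) fun hpi => ?_, ?_⟩
  · have hpi' : an v = Real.pi := hpi
    rw [hpi', Real.sin_pi] at hsin
    rw [hpi', Real.cos_pi] at hcos
    have h3 : u 1 = 0 := by
      have := hsin.symm
      rcases div_eq_zero_iff.mp this with h | h
      · exact h
      · exact absurd h hn.ne'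
    have h4 : u 0 < 0 := by
      rw [eq_div_iff hn.ne'] at hcos
      linarith
    rcases hu with h | h
    · linarith
    · linarith [h.2]
  · ext i
    fin_cases i
    · simp [ue, hcos]
      field_simp
    · simp [ue, hsin]
      field_simp

private theorem angle_rp {v w : Pt} (hv : v ≠ 0) (hw : w ≠ 0) :
    InnerProductGeometry.angle (rp v) (rp w) = |an v - an w| := by
  obtain ⟨a1, a2, a3⟩ := an_spec hv
  obtain ⟨b1, b2, b3⟩ := an_spec hw
  rw [a3, b3, InnerProductGeometry.angle_smul_left_of_pos _ _ (norm_pos_iff.mpr (rp_ne hv)),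
    InnerProductGeometry.angle_smul_right_of_pos _ _ (norm_pos_iff.mpr (rp_ne hw)), angle_ue]
  rw [abs_le]
  constructor <;> linarith

private theorem HP_of_lo {x y : Pt} (h : lo x y) : HP (y - x) := by
  unfold HP
  rw [PiLp.sub_apply, PiLp.sub_apply]
  rcases h with h | ⟨h1, h2⟩
  · left
    linarith
  · right
    exact ⟨by linarith, by linarith⟩

private theorem lo_trans {x y z : Pt} (h1 : lo x y) (h2 : lo y z) : lo x z := by
  rcases h1 with h1 | ⟨h1, h1'⟩ <;> rcases h2 with h2 | ⟨h2, h2'⟩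
  · exact Or.inl (by linarith)
  · exact Or.inl (by linarith)
  · exact Or.inl (by linarith)
  · exact Or.inr ⟨by linarith, by linarith⟩

private theorem lo_ne {x y : Pt} (h : lo x y) : y - x ≠ 0 := by
  intro h0
  have h1 : y = x := sub_eq_zero.mp h0
  rw [h1] at h
  rcases h with h | ⟨-, h⟩
  · exact lt_irrefl _ h
  · exact lt_irrefl _ h

private theorem angle_lo {x y z w : Pt} (h1 : lo x y) (h2 : lo z w) :
    InnerProductGeometry.angle (y - x) (w - z) = |an (y - x) - an (w - z)| := by
  have h := angle_rp (lo_ne h1) (lo_ne h2)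
  have e1 : rp (y - x) = y - x := if_pos (HP_of_lo h1)
  have e2 : rp (w - z) = w - z := if_pos (HP_of_lo h2)
  rwa [e1, e2] at h

/-- ROW F19-A3a.  Directions modulo `π`, with the sign given by the height.  PROOF.  As `exists_dirs` in
JB0.lean (`HP (y - x) ↔ lo x y`; the private lemmas there can be copied): for `lo x y`, `lo y z` (so `lo x z`):
the vectors `y - x`, `z - y`, `z - x` are in the half plane `HP`. -/
theorem exists_dirs_lex : ∃ ψ : Pt → Pt → ℝ,
    (∀ x y, lo x y → 0 ≤ ψ x y ∧ ψ x y < Real.pi) ∧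
    (∀ x y z, lo x y → lo y z → ∠ x y z = Real.pi - |ψ x y - ψ y z| ∧
      ∠ y x z = |ψ x y - ψ x z| ∧ ∠ x z y = |ψ x z - ψ y z|) := by
  refine ⟨fun x y => an (y - x), fun x y h => ?_, fun x y z h1 h2 => ⟨?_, ?_, ?_⟩⟩
  · obtain ⟨a1, a2, -⟩ := an_spec (lo_ne h)
    exact ⟨a1, a2⟩
  · change InnerProductGeometry.angle (x - y) (z - y) = _
    rw [← neg_sub y x, InnerProductGeometry.angle_neg_left, angle_lo h1 h2]
  · change InnerProductGeometry.angle (y - x) (z - x) = _
    exact angle_lo h1 (lo_trans h1 h2)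
  · change InnerProductGeometry.angle (x - z) (y - z) = _
    rw [← neg_sub z x, ← neg_sub z y, InnerProductGeometry.angle_neg_neg]
    exact angle_lo (lo_trans h1 h2) h2

end Pool.Agent.MP_0af329_co.JT
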