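import Mathlib

set_option autoImplicit false

namespace Pool.Agent.MP_0af329_co.JT

private theorem two_L (P g : ℝ) (hg : 2 * P < 5 * g) (hP : 0 < P) (ψ : Fin 5 → Fin 5 → ℝ)
    (hmid : ∀ i j k, i < j → j < k → g ≤ |ψ i j - ψ j k|)
    (hlow : ∀ i j k, i < j → j < k → |ψ i j - ψ i k| ≤ P - g)
    (hup : ∀ i j k, i < j → j < k → |ψ i k - ψ j k| ≤ P - g)
    (j k : Fin 5) (h0j : 0 < j) (hjk : j < k) (hk4 : k < 4)
    (hj : ψ j 4 + g ≤ ψ 0 j) (hk : ψ k 4 + g ≤ ψ 0 k) :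
    ψ j k + g ≤ ψ 0 j ∧ ψ k 4 + g ≤ ψ j k := by
  have h1 := hmid 0 j k h0j hjk
  have h2 := hmid j k 4 hjk hk4
  have h3 := abs_le.1 (hlow j k 4 hjk hk4)
  have h4 := abs_le.1 (hup 0 j k h0j hjk)
  constructor
  · rcases le_abs.1 h1 with h | h
    · linarith
    · exfalso; linarith [h3.2]
  · rcases le_abs.1 h2 with h | h
    · linarith
    · exfalso; linarith [h4.2]

private theorem five_aux (P g : ℝ) (hg : 2 * P < 5 * g) (hP : 0 < P) (ψ : Fin 5 → Fin 5 → ℝ)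
    (h0 : ∀ i j, i < j → 0 ≤ ψ i j ∧ ψ i j ≤ P)
    (hmid : ∀ i j k, i < j → j < k → g ≤ |ψ i j - ψ j k|)
    (hlow : ∀ i j k, i < j → j < k → |ψ i j - ψ i k| ≤ P - g)
    (hup : ∀ i j k, i < j → j < k → |ψ i k - ψ j k| ≤ P - g)
    (h : (ψ 1 4 + g ≤ ψ 0 1 ∧ ψ 2 4 + g ≤ ψ 0 2) ∨ (ψ 1 4 + g ≤ ψ 0 1 ∧ ψ 3 4 + g ≤ ψ 0 3) ∨
      (ψ 2 4 + g ≤ ψ 0 2 ∧ ψ 3 4 + g ≤ ψ 0 3)) : False := by
  have two := two_L P g hg hP ψ hmid hlow hup
  have e1 := le_abs.1 (hmid 0 1 4 (by decide) (by decide))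
  have e2 := le_abs.1 (hmid 0 2 4 (by decide) (by decide))
  have e3 := le_abs.1 (hmid 0 3 4 (by decide) (by decide))
  have three : ψ 1 4 + g ≤ ψ 0 1 → ψ 2 4 + g ≤ ψ 0 2 → ψ 3 4 + g ≤ ψ 0 3 → False := by
    intro a1 a2 a3
    have b12 := two 1 2 (by decide) (by decide) (by decide) a1 a2
    have b23 := two 2 3 (by decide) (by decide) (by decide) a2 a3
    have c := le_abs.1 (hmid 1 2 3 (by decide) (by decide))
    have d1 := h0 0 1 (by decide)
    have d2 := h0 3 4 (by decide)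
    have d3 := abs_le.1 (hup 0 1 2 (by decide) (by decide))
    rcases c with c | c
    · linarith [b12.1, b12.2, b23.1, b23.2, d1.1, d1.2, d2.1, d2.2]
    · linarith [b12.1, b12.2, b23.1, b23.2, d3.1, d3.2]
  have l12 := abs_le.1 (hlow 0 1 2 (by decide) (by decide))
  have l13 := abs_le.1 (hlow 0 1 3 (by decide) (by decide))
  have l23 := abs_le.1 (hlow 0 2 3 (by decide) (by decide))
  have u12 := abs_le.1 (hup 1 2 4 (by decide) (by decide))
  have u13 := abs_le.1 (hup 1 3 4 (by decide) (by decide))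
  have u23 := abs_le.1 (hup 2 3 4 (by decide) (by decide))
  rcases h with ⟨a, b⟩ | ⟨a, b⟩ | ⟨a, b⟩
  · rcases e3 with c | c
    · exact three a b (by linarith)
    · have d := two 1 2 (by decide) (by decide) (by decide) a b
      linarith [d.1, d.2, l13.1, l13.2, u23.1, u23.2]
  · rcases e2 with c | c
    · exact three a (by linarith) b
    · have d := two 1 3 (by decide) (by decide) (by decide) a b
      linarith [d.1, d.2, l12.1, l12.2, u23.1, u23.2]
  · rcases e1 with c | c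
    · exact three (by linarith) a b
    · have d := two 2 3 (by decide) (by decide) (by decide) a b
      linarith [d.1, d.2, l12.1, l12.2, u13.1, u13.2]

/-- Five points, the inequalities between the directions.  `P = π`, `g = π - a > 2π/5`.
PROOF.  Call `j ∈ {1,2,3}` of type L if `ψ 0 j ≥ ψ j 4 + g` and of type R if `ψ j 4 ≥ ψ 0 j + g`.
(P) `j < k` both L: then `ψ 0 j ≥ ψ j k + g` and `ψ j k ≥ ψ k 4 + g`.  Indeed if `ψ j k ≥ ψ 0 j + g` then
`ψ j k - ψ j 4 ≥ 2g > P - g`, against the end inequality; if `ψ k 4 ≥ ψ j k + g` then `ψ 0 k - ψ j k ≥ 2g`, against the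
end inequality.  Three of type L: if `ψ 1 2 ≥ ψ 2 3 + g` then `ψ 0 1 ≥ 3g > P`; if `ψ 2 3 ≥ ψ 1 2 + g` then
`ψ 0 2 ≥ ψ 2 3 + g ≥ ψ 1 2 + 2g`, against the end inequality.  Two of type L, `j < k`, and `r` of type R:
`ψ 0 j - ψ k 4 ≥ 2g`, `ψ r 4 - ψ 0 r ≥ g`, but `ψ 0 j - ψ 0 r ≤ P - g`, `ψ r 4 - ψ k 4 ≤ P - g`: `5g ≤ 2P`.
The other cases: replace `ψ` by `P - ψ`. -/
theorem five_reals (P g : ℝ) (hg : 2 * P < 5 * g) (hP : 0 < P) (ψ : Fin 5 → Fin 5 → ℝ)
    (h0 : ∀ i j, i < j → 0 ≤ ψ i j ∧ ψ i j ≤ P)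
    (hmid : ∀ i j k, i < j → j < k → g ≤ |ψ i j - ψ j k|)
    (hlow : ∀ i j k, i < j → j < k → |ψ i j - ψ i k| ≤ P - g)
    (hup : ∀ i j k, i < j → j < k → |ψ i k - ψ j k| ≤ P - g) : False := by
  have A := five_aux P g hg hP ψ h0 hmid hlow hup
  have B := five_aux P g hg hP (fun i j => P - ψ i j)
    (fun i j hij => ⟨by linarith [(h0 i j hij).2], by linarith [(h0 i j hij).1]⟩)
    (fun i j k hij hjk => by
      have := hmid i j k hij hjk
      rwa [abs_sub_comm, show ψ j k - ψ i j = (P - ψ i j) - (P - ψ j k) by ring] at this)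
    (fun i j k hij hjk => by
      have := hlow i j k hij hjk
      rwa [abs_sub_comm, show ψ i k - ψ i j = (P - ψ i j) - (P - ψ i k) by ring] at this)
    (fun i j k hij hjk => by
      have := hup i j k hij hjk
      rwa [abs_sub_comm, show ψ j k - ψ i k = (P - ψ i k) - (P - ψ j k) by ring] at this)
  have e1 := le_abs.1 (hmid 0 1 4 (by decide) (by decide))
  have e2 := le_abs.1 (hmid 0 2 4 (by decide) (by decide))
  have e3 := le_abs.1 (hmid 0 3 4 (by decide) (by decide))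
  rcases e1 with c1 | c1 <;> rcases e2 with c2 | c2 <;> rcases e3 with c3 | c3
  · exact A (Or.inl ⟨by linarith, by linarith⟩)
  · exact A (Or.inl ⟨by linarith, by linarith⟩)
  · exact A (Or.inr (Or.inl ⟨by linarith, by linarith⟩))
  · exact B (Or.inr (Or.inr ⟨by linarith, by linarith⟩))
  · exact A (Or.inr (Or.inr ⟨by linarith, by linarith⟩))
  · exact B (Or.inr (Or.inl ⟨by linarith, by linarith⟩))
  · exact B (Or.inl ⟨by linarith, by linarith⟩)
  · exact B (Or.inl ⟨by linarith, by linarith⟩)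

end Pool.Agent.MP_0af329_co.JT
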