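import Pool.Agent.MP_0af329_co.JTA3a
import Pool.Agent.MP_0af329_co.JTA3b

set_option autoImplicit false

namespace Pool.Agent.MP_0af329_co.JT

open EuclideanGeometry

/-- ROW F19-A3c.  Sorting by height: `Tuple.sort (fun i => toLex (t i 1, t i 0))`. -/
theorem exists_sort (t : Fin 5 → Pt) (ht : Function.Injective t) :
    ∃ σ : Equiv.Perm (Fin 5), ∀ i j, i < j → lo (t (σ i)) (t (σ j)) := by
  classical
  let f : Fin 5 → Lex (ℝ × ℝ) := fun i => toLex (t i 1, t i 0)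
  refine ⟨Tuple.sort f, fun i j hij => ?_⟩
  have hmono : f (Tuple.sort f i) ≤ f (Tuple.sort f j) := Tuple.monotone_sort f hij.le
  have hne : Tuple.sort f i ≠ Tuple.sort f j := fun h => hij.ne ((Tuple.sort f).injective h)
  generalize Tuple.sort f i = u at hmono hne ⊢
  generalize Tuple.sort f j = v at hmono hne ⊢
  have hfne : f u ≠ f v := by
    intro h
    apply hne
    apply ht
    have h1 : ((t u 1, t u 0) : ℝ × ℝ) = (t v 1, t v 0) := toLex.injective h
    have h2 : t u 1 = t v 1 := (Prod.mk.inj h1).1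
    have h3 : t u 0 = t v 0 := (Prod.mk.inj h1).2
    ext k
    fin_cases k
    · exact h3
    · exact h2
  have hlt : f u < f v := lt_of_le_of_ne hmono hfne
  have := (Prod.Lex.toLex_lt_toLex).1 hlt
  rcases this with h | ⟨h1, h2⟩
  · exact Or.inl h
  · exact Or.inr ⟨h1, h2⟩

/-- ROW F19-A3c.  Every five points have an angle `> a` if `a < 3π/5`.  PROOF.  Otherwise, with `t ∘ σ`
sorted, `ψ` from `exists_dirs_lex`, `five_reals` with `P = π`, `g = π - a` gives a contradiction. -/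
theorem five_points (a : ℝ) (ha : a < 3 * Real.pi / 5) (t : Fin 5 → Pt)
    (ht : Function.Injective t) :
    ∃ i j k : Fin 5, i ≠ j ∧ j ≠ k ∧ i ≠ k ∧ a < ∠ (t i) (t j) (t k) := by
  by_contra hcon
  have hle : ∀ i j k : Fin 5, i ≠ j → j ≠ k → i ≠ k → ∠ (t i) (t j) (t k) ≤ a := by
    intro i j k h1 h2 h3
    by_contra h
    exact hcon ⟨i, j, k, h1, h2, h3, not_le.1 h⟩
  obtain ⟨σ, hσ⟩ := exists_sort t ht
  obtain ⟨ψ, hψ0, hψ⟩ := exists_dirs_lex
  have hinj : ∀ i j : Fin 5, i ≠ j → σ i ≠ σ j := fun i j h h' => h (σ.injective h')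
  refine five_reals Real.pi (Real.pi - a) (by linarith) Real.pi_pos
    (fun i j => ψ (t (σ i)) (t (σ j))) ?_ ?_ ?_ ?_
  · intro i j hij
    have := hψ0 _ _ (hσ i j hij)
    exact ⟨this.1, this.2.le⟩
  · intro i j k hij hjk
    have h := (hψ _ _ _ (hσ i j hij) (hσ j k hjk)).1
    have h' := hle (σ i) (σ j) (σ k) (hinj _ _ hij.ne) (hinj _ _ hjk.ne)
      (hinj _ _ (hij.trans hjk).ne)
    rw [h] at h'
    show Real.pi - a ≤ |ψ (t (σ i)) (t (σ j)) - ψ (t (σ j)) (t (σ k))|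
    linarith
  · intro i j k hij hjk
    have h := (hψ _ _ _ (hσ i j hij) (hσ j k hjk)).2.1
    have h' := hle (σ j) (σ i) (σ k) (hinj _ _ hij.ne') (hinj _ _ (hij.trans hjk).ne)
      (hinj _ _ hjk.ne)
    rw [h] at h'
    show |ψ (t (σ i)) (t (σ j)) - ψ (t (σ i)) (t (σ k))| ≤ Real.pi - (Real.pi - a)
    linarith
  · intro i j k hij hjk
    have h := (hψ _ _ _ (hσ i j hij) (hσ j k hjk)).2.2
    have h' := hle (σ i) (σ k) (σ j) (hinj _ _ (hij.trans hjk).ne) (hinj _ _ hjk.ne')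
      (hinj _ _ hij.ne)
    rw [h] at h'
    show |ψ (t (σ i)) (t (σ k)) - ψ (t (σ j)) (t (σ k))| ≤ Real.pi - (Real.pi - a)
    linarith

end Pool.Agent.MP_0af329_co.JT
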