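import Pool.Agent.MP_0af329_co.JTA2
import Pool.Agent.MP_0af329_co.JTA3c
import Pool.Agent.MP_0af329_co.Final

set_option autoImplicit false

namespace Pool.Agent.MP_0af329_co.JT

open Finset EuclideanGeometry Filter Topology

/-- the symmetric relation: one of the three angles exceeds `a` -/
def Big (a : ℝ) (x y z : Pt) : Prop :=
  x ≠ y ∧ y ≠ z ∧ x ≠ z ∧ (a < ∠ x y z ∨ a < ∠ y x z ∨ a < ∠ x z y)

theorem big12 {a : ℝ} {x y z : Pt} (h : Big a x y z) : Big a y x z := by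
  obtain ⟨h1, h2, h3, h4⟩ := h
  refine ⟨h1.symm, h3, h2, ?_⟩
  rcases h4 with h | h | h
  · exact Or.inr (Or.inl h)
  · exact Or.inl h
  · exact Or.inr (Or.inr (by rwa [EuclideanGeometry.angle_comm]))

theorem big23 {a : ℝ} {x y z : Pt} (h : Big a x y z) : Big a x z y := by
  obtain ⟨h1, h2, h3, h4⟩ := h
  refine ⟨h3, h2.symm, h1, ?_⟩
  rcases h4 with h | h | h
  · exact Or.inr (Or.inr h)
  · exact Or.inr (Or.inl (by rwa [EuclideanGeometry.angle_comm]))
  · exact Or.inl h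

theorem big_sort {a : ℝ} {p : Fin 5 → Pt} {i j k : Fin 5} (hij : i ≠ j) (hjk : j ≠ k) (hik : i ≠ k)
    (h : Big a (p i) (p j) (p k)) :
    ∃ i j k : Fin 5, i < j ∧ j < k ∧ Big a (p i) (p j) (p k) := by
  rcases lt_or_gt_of_ne hij with h1 | h1 <;> rcases lt_or_gt_of_ne hjk with h2 | h2 <;>
    rcases lt_or_gt_of_ne hik with h3 | h3
  · exact ⟨i, j, k, h1, h2, h⟩
  · exact absurd (h1.trans h2) h3.not_gt
  · exact ⟨i, k, j, h3, h2, big23 h⟩
  · exact ⟨k, i, j, h3, h1, big12 (big23 h)⟩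
  · exact ⟨j, i, k, h1, h3, big12 h⟩
  · exact ⟨j, k, i, h2, h3, big23 (big12 h)⟩
  · exact absurd (h2.trans h1) h3.not_gt
  · exact ⟨k, j, i, h2, h1, big23 (big12 (big23 h))⟩

open Classical in
theorem card_big (S : Finset Pt) (a : ℝ) :
    (univ.filter fun s : S × S × S => decide (Big a s.1 s.2.1 s.2.2) = true).card ≤
      3 * cnt S (Set.Ioi a) := by
  set T : Finset (Pt × Pt × Pt) := (trip S).filter fun t => ∠ t.1 t.2.1 t.2.2 ∈ Set.Ioi a with hT
  have hcnt : cnt S (Set.Ioi a) = T.card := rfl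
  let f : S × S × S → Pt × Pt × Pt := fun s => (s.1.1, s.2.1.1, s.2.2.1)
  have hf : Function.Injective f := by
    rintro ⟨x, y, z⟩ ⟨x', y', z'⟩ h
    have e1 : x.1 = x'.1 := congrArg (fun t : Pt × Pt × Pt => t.1) h
    have e2 : y.1 = y'.1 := congrArg (fun t : Pt × Pt × Pt => t.2.1) h
    have e3 : z.1 = z'.1 := congrArg (fun t : Pt × Pt × Pt => t.2.2) h
    rw [Subtype.ext e1, Subtype.ext e2, Subtype.ext e3]
  rw [← Finset.card_image_of_injective _ hf, hcnt]
  have hsub : (univ.filter fun s : S × S × S => decide (Big a s.1 s.2.1 s.2.2) = true).image f ⊆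
      T ∪ (T.image (fun t => (t.2.1, t.1, t.2.2)) ∪ T.image (fun t => (t.1, t.2.2, t.2.1))) := by
    intro t ht
    rw [Finset.mem_image] at ht
    obtain ⟨⟨x, y, z⟩, hs, rfl⟩ := ht
    rw [Finset.mem_filter, decide_eq_true_iff] at hs
    obtain ⟨-, h1, h2, h3, h4⟩ := hs
    have hmem : ∀ u v w : S, u.1 ≠ v.1 → v.1 ≠ w.1 → u.1 ≠ w.1 → a < ∠ u.1 v.1 w.1 →
        (u.1, v.1, w.1) ∈ T := by
      intro u v w huv hvw huw hA
      rw [hT, Finset.mem_filter]
      refine ⟨?_, hA⟩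
      unfold trip
      rw [Finset.mem_filter, Finset.mem_product, Finset.mem_product]
      exact ⟨⟨u.2, v.2, w.2⟩, huv, hvw, huw⟩
    rw [Finset.mem_union, Finset.mem_union, Finset.mem_image, Finset.mem_image]
    rcases h4 with h | h | h
    · exact Or.inl (hmem x y z h1 h2 h3 h)
    · exact Or.inr (Or.inl ⟨(y.1, x.1, z.1), hmem y x z h1.symm h3 h2 h, rfl⟩)
    · exact Or.inr (Or.inr ⟨(x.1, z.1, y.1), hmem x z y h3 h2.symm h1 h, rfl⟩)
  refine (Finset.card_le_card hsub).trans ?_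
  refine (Finset.card_union_le _ _).trans ?_
  have h1 := Finset.card_union_le (T.image (fun t => (t.2.1, t.1, t.2.2)))
    (T.image (fun t => (t.1, t.2.2, t.2.1)))
  have h2 : (T.image (fun t => (t.2.1, t.1, t.2.2))).card ≤ T.card := Finset.card_image_le
  have h3 : (T.image (fun t => (t.1, t.2.2, t.2.1))).card ≤ T.card := Finset.card_image_le
  omega

/-- ROW F19-A4.  PROOF.  `le_dens` (Lim.lean) with `c = 13/210`, `C = 5/3`: for `S` in general position let
`V = S`, `H x y z = decide (x ≠ y ∧ y ≠ z ∧ x ≠ z ∧ (a < ∠ x y z ∨ a < ∠ y x z ∨ a < ∠ x z y))`.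
`density_five` (`h5` from `five_points`; `angle_comm` for the symmetries) and
`#{H} ≤ 3 cnt S (Ioi a)` (three injections into the triples counted by `cnt`); `n(n-1)(n-2) ≤ n³`. -/
theorem le_F_of_lt (a : ℝ) (ha : a < 3 * Real.pi / 5) : 13 / 210 ≤ F a := by
  classical
  refine le_dens (Set.Ioi a) (13 / 210) (5 / 3) fun S _ hS => ?_
  have h1 := density_five (V := S) (fun x y z => decide (Big a x y z))
    (fun x y z => by
      rw [decide_eq_decide]
      exact ⟨big12, big12⟩)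
    (fun x y z => by
      rw [decide_eq_decide]
      exact ⟨big23, big23⟩)
    (fun t ht => by
      obtain ⟨i, j, k, hij, hjk, hik, hA⟩ := five_points a ha (fun i => (t i : Pt))
        (fun i j h => ht (Subtype.ext h))
      have hne : ∀ i j : Fin 5, i ≠ j → (t i : Pt) ≠ t j := fun i j hij h => hij (ht (Subtype.ext h))
      obtain ⟨i', j', k', h1, h2, h3⟩ := big_sort (p := fun i => (t i : Pt)) hij hjk hik
        ⟨hne i j hij, hne j k hjk, hne i k hik, Or.inl hA⟩
      exact ⟨i', j', k', h1, h2, decide_eq_true h3⟩)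
  have h2 := card_big S a
  rw [Fintype.card_coe] at h1
  have h3 : ((univ.filter fun s : S × S × S => decide (Big a s.1 s.2.1 s.2.2) = true).card : ℝ) ≤
      3 * (cnt S (Set.Ioi a) : ℝ) := by exact_mod_cast h2
  have h4 : (3 : ℝ) ≤ (S.card : ℝ) := by exact_mod_cast hS
  have h5 : (S.card : ℝ) * ((S.card : ℝ) - 1) * ((S.card : ℝ) - 2) ≤ (S.card : ℝ) ^ 3 := by
    nlinarith [mul_nonneg (by linarith : (0 : ℝ) ≤ (S.card : ℝ)) (by linarith : (0 : ℝ) ≤ (S.card : ℝ))]
  have h6 := h1.trans h3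
  linarith

/-- ROW F19-A4.  From `le_F_of_lt` and left continuity (`F_left` in Blow.lean). -/
theorem le_F_fifth : 13 / 210 ≤ F (3 * Real.pi / 5) := by
  have h1 : Tendsto F (𝓝[<] (3 * Real.pi / 5)) (𝓝 (F (3 * Real.pi / 5))) :=
    (F_left (3 * Real.pi / 5)).mono_left (nhdsWithin_mono _ Set.Iio_subset_Iic_self)
  refine ge_of_tendsto h1 ?_
  filter_upwards [self_mem_nhdsWithin] with β hβ
  exact le_F_of_lt β hβ

end Pool.Agent.MP_0af329_co.JT
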