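import Pool.Agent.MP_0af329_co.JTDefs
import Pool.Agent.MP_0af329_co.Clus

set_option autoImplicit false

namespace Pool.Agent.MP_0af329_co.JT

open Finset EuclideanGeometry Filter Topology

open Classical in
/-- From a family of point sets to a set in general position. -/
theorem exists_family {I : Type} [Fintype I] (x : ℝ → I → Pt) (a : ℝ)
    (Bad : I → I → I → Prop)
    (hinj : ∀ i j, i ≠ j → ∀ᶠ L in atTop, x L i ≠ x L j)
    (hang : ∀ i j l, i ≠ j → l ≠ j → i ≠ l → ¬ Bad i j l →
      ∀ᶠ L in atTop, ∠ (x L i) (x L j) (x L l) < a) :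
    ∃ S : Finset Pt, S.card = Fintype.card I ∧ GenPos S ∧
      cnt S (Set.Ioi a) ≤ (univ.filter fun t : I × I × I =>
        t.1 ≠ t.2.1 ∧ t.2.2 ≠ t.2.1 ∧ t.1 ≠ t.2.2 ∧ Bad t.1 t.2.1 t.2.2).card := by
  -- choice of `L`
  have hev : ∀ᶠ L : ℝ in atTop, (∀ i j : I, i ≠ j → x L i ≠ x L j) ∧
      ∀ i j l : I, i ≠ j → l ≠ j → i ≠ l → ¬ Bad i j l →
      ∠ (x L i) (x L j) (x L l) < a := by
    apply Filter.Eventually.and
    · rw [Filter.eventually_all]
      intro i
      rw [Filter.eventually_all]
      intro j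
      by_cases hxy : i = j
      · exact Filter.Eventually.of_forall fun L h => absurd hxy h
      · filter_upwards [hinj i j hxy] with L hL _
        exact hL
    · rw [Filter.eventually_all]
      intro i
      rw [Filter.eventually_all]
      intro j
      rw [Filter.eventually_all]
      intro l
      by_cases hxy : i = j
      · exact Filter.Eventually.of_forall fun L h => absurd hxy h
      by_cases hzy : l = j
      · exact Filter.Eventually.of_forall fun L _ h => absurd hzy h
      by_cases hxz : i = l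
      · exact Filter.Eventually.of_forall fun L _ _ h => absurd hxz h
      by_cases hne : ¬ Bad i j l
      · filter_upwards [hang i j l hxy hzy hxz hne] with L hL _ _ _ _
        exact hL
      · exact Filter.Eventually.of_forall fun L _ _ _ h => absurd h hne
  obtain ⟨L, hinjL, hangL⟩ := hev.exists
  obtain ⟨ε, hε, hpert⟩ := exists_eps (Finset.univ.image (x L)) (Set.Iio a) isOpen_Iio
  obtain ⟨q, hq, hgen, hd⟩ := exists_cluster
    (fun i => x L ((Fintype.equivFin I).symm i)) ε hε
  set eq := Fintype.equivFin I with heq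
  set p : I → Pt := fun x => q (eq x) with hp
  have hpinj : Function.Injective p := hq.comp eq.injective
  have himg : (Finset.univ.image q : Finset Pt) = Finset.univ.image p := by
    ext t
    simp only [Finset.mem_image, Finset.mem_univ, true_and]
    constructor
    · rintro ⟨i, rfl⟩
      exact ⟨eq.symm i, by simp [hp]⟩
    · rintro ⟨x, rfl⟩
      exact ⟨eq x, rfl⟩
  rw [himg] at hgen
  have hdp : ∀ i, dist (p i) (x L i) < ε := by
    intro i
    have := hd (eq i)
    simpa [hp] using this
  refine ⟨Finset.univ.image p, ?_, hgen, ?_⟩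
  · rw [Finset.card_image_of_injective _ hpinj, Finset.card_univ]
  have hsub : ((trip (Finset.univ.image p)).filter fun t =>
      ∠ t.1 t.2.1 t.2.2 ∈ Set.Ioi a) ⊆
      (univ.filter fun t : I × I × I =>
        t.1 ≠ t.2.1 ∧ t.2.2 ≠ t.2.1 ∧ t.1 ≠ t.2.2 ∧ Bad t.1 t.2.1 t.2.2).image
        (fun s => (p s.1, p s.2.1, p s.2.2)) := by
    intro t ht
    rw [Finset.mem_filter] at ht
    obtain ⟨ht1, ht2⟩ := ht
    obtain ⟨t1, t2, t3⟩ := t
    rw [mem_trip] at ht1
    simp only [Finset.mem_image, Finset.mem_univ, true_and] at ht1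
    obtain ⟨⟨⟨i, rfl⟩, ⟨j, rfl⟩, ⟨l, rfl⟩⟩, hxy, hyz, hxz⟩ := ht1
    have hxy' : i ≠ j := fun h => hxy (by rw [h])
    have hyz' : j ≠ l := fun h => hyz (by rw [h])
    have hxz' : i ≠ l := fun h => hxz (by rw [h])
    have ht2' : a < ∠ (p i) (p j) (p l) := ht2
    rw [Finset.mem_image]
    refine ⟨(i, j, l), ?_, rfl⟩
    rw [Finset.mem_filter]
    refine ⟨Finset.mem_univ _, hxy', hyz'.symm, hxz', ?_⟩
    by_contra hex
    have h1 := hangL i j l hxy' hyz'.symm hxz' hex
    have h2 := hpert (x L i) (Finset.mem_image_of_mem _ (Finset.mem_univ _))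
      (x L j) (Finset.mem_image_of_mem _ (Finset.mem_univ _))
      (x L l) (Finset.mem_image_of_mem _ (Finset.mem_univ _))
      (hinjL _ _ hxy') (hinjL _ _ hyz') (hinjL _ _ hxz') h1 _ _ _ (hdp _) (hdp _) (hdp _)
    have h3 : ∠ (p i) (p j) (p l) < a := h2
    linarith
  have h1 : cnt (Finset.univ.image p) (Set.Ioi a) =
      ((trip (Finset.univ.image p)).filter fun t => ∠ t.1 t.2.1 t.2.2 ∈ Set.Ioi a).card := by
    rw [cnt]
    congr 1
  rw [h1]
  exact (Finset.card_le_card hsub).trans Finset.card_image_le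

end Pool.Agent.MP_0af329_co.JT
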