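import Pool.Agent.MP_0af329_co.JTDefs

set_option autoImplicit false

namespace Pool.Agent.MP_0af329_co.JT

open EuclideanGeometry Filter Topology

theorem jtb2_div (m a b a' b' : ℕ) (hb : b < m) (hb' : b' < m) (h : a * m + b = a' * m + b') :
    a = a' ∧ b = b' := by
  have hm : 0 < m := by omega
  have h1 : (a * m + b) % m = (a' * m + b') % m := by rw [h]
  rw [Nat.mul_add_mod_self_right, Nat.mul_add_mod_self_right, Nat.mod_eq_of_lt hb,
    Nat.mod_eq_of_lt hb'] at h1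
  refine ⟨?_, h1⟩
  rw [h1] at h
  exact Nat.eq_of_mul_eq_mul_right hm (Nat.add_right_cancel h)

theorem jtb2_fin : ∀ b b' : Fin 10, cT b = cT b' →
    (if b < 8 then (b : ℕ) % 4 else 0) = (if b' < 8 then (b' : ℕ) % 4 else 0) → b = b' := by
  decide

theorem posT_ne {m : ℕ} (x y : Fin 10 × Fin m) (hxy : x ≠ y) (h : cT x.1 = cT y.1) :
    posT x ≠ posT y := by
  intro hp
  unfold posT at hp
  obtain ⟨h1, h2⟩ := jtb2_div m _ _ _ _ x.2.2 y.2.2 hp
  exact hxy (Prod.ext (jtb2_fin _ _ h h1) (Fin.ext h2))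

theorem jtb2_uv_pi (t : ℝ) : JF.uv (t + Real.pi) = - JF.uv t := by
  unfold JF.uv
  ext i
  fin_cases i
  · show Real.cos (t + Real.pi) = - Real.cos t
    exact Real.cos_add_pi t
  · show Real.sin (t + Real.pi) = - Real.sin t
    exact Real.sin_add_pi t

theorem jtb2_uv_five (n : ℕ) :
    JF.uv (((n + 5 : ℕ) : ℝ) * Real.pi / 5) = - JF.uv ((n : ℝ) * Real.pi / 5) := by
  rw [← jtb2_uv_pi]
  congr 1
  push_cast
  ring

theorem jtb2_uv_sub : JF.uv (Real.pi / 5) - JF.uv (4 * Real.pi / 5) =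
    (2 * Real.cos (Real.pi / 5)) • JF.uv 0 := by
  have h1 : 4 * Real.pi / 5 = Real.pi - Real.pi / 5 := by ring
  unfold JF.uv
  rw [h1, Real.cos_pi_sub, Real.sin_pi_sub, Real.cos_zero, Real.sin_zero]
  ext i
  fin_cases i
  · show Real.cos (Real.pi / 5) - -Real.cos (Real.pi / 5) = (2 * Real.cos (Real.pi / 5)) * 1
    ring
  · show Real.sin (Real.pi / 5) - Real.sin (Real.pi / 5) = (2 * Real.cos (Real.pi / 5)) * 0
    ring

theorem jtb2_lim2 (u v w : Pt) :
    Tendsto (fun L : ℝ => (1 / L ^ 2) • (L ^ 2 • u + L • v + w)) atTop (𝓝 u) := by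
  have h1 : Tendsto (fun L : ℝ => u + (L⁻¹) • v + (L⁻¹ ^ 2) • w) atTop (𝓝 u) := by
    have h2 : Tendsto (fun L : ℝ => L⁻¹) atTop (𝓝 0) := tendsto_inv_atTop_zero
    have h3 : Tendsto (fun L : ℝ => u + (L⁻¹) • v + (L⁻¹ ^ 2) • w) atTop
        (𝓝 (u + (0 : ℝ) • v + ((0 : ℝ) ^ 2) • w)) :=
      (tendsto_const_nhds.add (h2.smul_const v)).add ((h2.pow 2).smul_const w)
    simpa using h3
  refine h1.congr' ?_
  filter_upwards [eventually_gt_atTop 0] with L hL
  have hL' : L ≠ 0 := hL.ne'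
  rw [smul_add, smul_add, smul_smul, smul_smul]
  have e1 : 1 / L ^ 2 * L ^ 2 = 1 := by field_simp
  have e2 : 1 / L ^ 2 * L = L⁻¹ := by field_simp
  have e3 : 1 / L ^ 2 = L⁻¹ ^ 2 := by rw [inv_pow, one_div]
  rw [e1, e2, one_smul, e3]

theorem jtb2_lim1 (v w : Pt) :
    Tendsto (fun L : ℝ => (1 / L ^ 1) • (L • v + w)) atTop (𝓝 v) := by
  have h1 : Tendsto (fun L : ℝ => v + (L⁻¹) • w) atTop (𝓝 v) := by
    have h2 : Tendsto (fun L : ℝ => L⁻¹) atTop (𝓝 0) := tendsto_inv_atTop_zero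
    have h3 : Tendsto (fun L : ℝ => v + (L⁻¹) • w) atTop (𝓝 (v + (0 : ℝ) • w)) :=
      tendsto_const_nhds.add (h2.smul_const w)
    simpa using h3
  refine h1.congr' ?_
  filter_upwards [eventually_gt_atTop 0] with L hL
  have hL' : L ≠ 0 := hL.ne'
  rw [smul_add, smul_smul]
  have e1 : 1 / L ^ 1 * L = 1 := by field_simp
  have e3 : 1 / L ^ 1 = L⁻¹ := by rw [pow_one, one_div]
  rw [e1, one_smul, e3]

theorem jtb2_base (c c' : Fin 4) (h : c < c') (w : Pt) :
    ∃ (r : ℝ) (e : ℕ), 0 < r ∧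
      Tendsto (fun L : ℝ => (1 / L ^ e) • (baseT L c' - baseT L c + w)) atTop
        (𝓝 (r • JF.uv ((tb c c' : ℝ) * Real.pi / 5))) := by
  have b0 : ∀ L : ℝ, baseT L 0 = (-(L ^ 2)) • JF.uv (Real.pi / 5) := fun L => rfl
  have b1 : ∀ L : ℝ, baseT L 1 = (-(L ^ 2)) • JF.uv (4 * Real.pi / 5) := fun L => rfl
  have b2 : ∀ L : ℝ, baseT L 2 = 0 := fun L => rfl
  have b3 : ∀ L : ℝ, baseT L 3 = L • JF.uv (3 * Real.pi / 5) := fun L => rfl
  have hcase : (c = 0 ∧ c' = 1) ∨ (c = 0 ∧ c' = 2) ∨ (c = 0 ∧ c' = 3) ∨ (c = 1 ∧ c' = 2) ∨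
      (c = 1 ∧ c' = 3) ∨ (c = 2 ∧ c' = 3) := by
    revert c c'
    decide
  rcases hcase with ⟨rfl, rfl⟩ | ⟨rfl, rfl⟩ | ⟨rfl, rfl⟩ | ⟨rfl, rfl⟩ | ⟨rfl, rfl⟩ | ⟨rfl, rfl⟩
  · refine ⟨2 * Real.cos (Real.pi / 5), 2, ?_, ?_⟩
    · have : 0 < Real.cos (Real.pi / 5) :=
        Real.cos_pos_of_mem_Ioo ⟨by linarith [Real.pi_pos], by linarith [Real.pi_pos]⟩
      linarith
    · have e0 : ((tb 0 1 : ℕ) : ℝ) * Real.pi / 5 = 0 := by
        have : tb 0 1 = 0 := by decide
        rw [this]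
        simp
      rw [e0, ← jtb2_uv_sub]
      refine (jtb2_lim2 _ 0 w).congr fun L => ?_
      rw [b0, b1]
      congr 1
      module
  · refine ⟨1, 2, one_pos, ?_⟩
    have e0 : ((tb 0 2 : ℕ) : ℝ) * Real.pi / 5 = Real.pi / 5 := by
      have : tb 0 2 = 1 := by decide
      rw [this]
      simp
    rw [e0, one_smul]
    refine (jtb2_lim2 _ 0 w).congr fun L => ?_
    rw [b0, b2]
    congr 1
    module
  · refine ⟨1, 2, one_pos, ?_⟩
    have e0 : ((tb 0 3 : ℕ) : ℝ) * Real.pi / 5 = Real.pi / 5 := by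
      have : tb 0 3 = 1 := by decide
      rw [this]
      simp
    rw [e0, one_smul]
    refine (jtb2_lim2 _ (JF.uv (3 * Real.pi / 5)) w).congr fun L => ?_
    rw [b0, b3]
    congr 1
    module
  · refine ⟨1, 2, one_pos, ?_⟩
    have e0 : ((tb 1 2 : ℕ) : ℝ) * Real.pi / 5 = 4 * Real.pi / 5 := by
      have : tb 1 2 = 4 := by decide
      rw [this]
      norm_num
    rw [e0, one_smul]
    refine (jtb2_lim2 _ 0 w).congr fun L => ?_
    rw [b1, b2]
    congr 1
    module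
  · refine ⟨1, 2, one_pos, ?_⟩
    have e0 : ((tb 1 3 : ℕ) : ℝ) * Real.pi / 5 = 4 * Real.pi / 5 := by
      have : tb 1 3 = 4 := by decide
      rw [this]
      norm_num
    rw [e0, one_smul]
    refine (jtb2_lim2 _ (JF.uv (3 * Real.pi / 5)) w).congr fun L => ?_
    rw [b1, b3]
    congr 1
    module
  · refine ⟨1, 1, one_pos, ?_⟩
    have e0 : ((tb 2 3 : ℕ) : ℝ) * Real.pi / 5 = 3 * Real.pi / 5 := by
      have : tb 2 3 = 3 := by decide
      rw [this]
      norm_num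
    rw [e0, one_smul]
    refine (jtb2_lim1 _ w).congr fun L => ?_
    rw [b2, b3]
    congr 1
    module

theorem jtb2_tb : ∀ c c' : Fin 4, c < c' → tb c' c = tb c c' + 5 := by
  decide

/-- ROW F19-B2.  Limits of the directions.  PROOF.  Same cluster: the difference is
`(posT y - posT x) • uv (dT c π/5)` (`e = 0`), for `posT y < posT x` use `uv (t + π) = - uv t`.
`A → B`: divided by `L²` it tends to `uv (π/5) - uv (4π/5) = (2 cos (π/5)) • uv 0`; `A → C₁, C₂`: `uv (π/5)`;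
`B → C₁, C₂`: `uv (4π/5)`; `C₁ → C₂`: divided by `L` it tends to `uv (3π/5)`; the reverse directions have the
opposite sign (`+5` units).  (It may help to prove the statement for the six pairs of clusters and to get
the reverse ones by `neg`.) -/
theorem ptT_dir {m : ℕ} (x y : Fin 10 × Fin m) (hxy : x ≠ y) :
    ∃ (r : ℝ) (e : ℕ), 0 < r ∧
      Tendsto (fun L : ℝ => (1 / L ^ e) • (ptT L y - ptT L x)) atTop
        (𝓝 (r • JF.uv ((DT x y : ℝ) * Real.pi / 5))) := by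
  by_cases hc : cT x.1 = cT y.1
  · have hne := posT_ne x y hxy hc
    have hdiff : ∀ L : ℝ, (1 / L ^ 0) • (ptT L y - ptT L x) =
        ((posT y : ℝ) - posT x) • JF.uv ((dT (cT x.1) : ℝ) * Real.pi / 5) := by
      intro L
      unfold ptT
      rw [hc, pow_zero, div_one, one_smul, sub_smul]
      abel
    rcases lt_or_gt_of_ne hne with h | h
    · have h' : (posT x : ℝ) < posT y := by exact_mod_cast h
      refine ⟨(posT y : ℝ) - posT x, 0, by linarith, ?_⟩
      have e1 : DT x y = dT (cT x.1) := by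
        unfold DT
        rw [if_pos hc, if_pos h]
      rw [e1]
      exact tendsto_const_nhds.congr fun L => (hdiff L).symm
    · have h' : (posT y : ℝ) < posT x := by exact_mod_cast h
      refine ⟨(posT x : ℝ) - posT y, 0, by linarith, ?_⟩
      have e1 : DT x y = dT (cT x.1) + 5 := by
        unfold DT
        rw [if_pos hc, if_neg (not_lt.2 h.le)]
      rw [e1, jtb2_uv_five]
      refine tendsto_const_nhds.congr fun L => ?_
      rw [hdiff L, smul_neg, ← neg_smul, neg_sub]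
  · have hD : DT x y = tb (cT x.1) (cT y.1) := by
      unfold DT
      rw [if_neg hc]
    obtain ⟨w, hw⟩ : ∃ w : Pt, w = (posT y : ℝ) • JF.uv ((dT (cT y.1) : ℝ) * Real.pi / 5) -
      (posT x : ℝ) • JF.uv ((dT (cT x.1) : ℝ) * Real.pi / 5) := ⟨_, rfl⟩
    have hdiff : ∀ L : ℝ, ptT L y - ptT L x = baseT L (cT y.1) - baseT L (cT x.1) + w := by
      intro L
      unfold ptT
      rw [hw]
      abel
    rw [hD]
    rcases lt_or_gt_of_ne hc with h | h
    · obtain ⟨r, e, hr, h1⟩ := jtb2_base _ _ h w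
      refine ⟨r, e, hr, h1.congr fun L => ?_⟩
      rw [hdiff]
    · obtain ⟨r, e, hr, h1⟩ := jtb2_base _ _ h (-w)
      refine ⟨r, e, hr, ?_⟩
      rw [jtb2_tb _ _ h, jtb2_uv_five, smul_neg]
      refine h1.neg.congr fun L => ?_
      rw [hdiff, ← smul_neg]
      congr 1
      abel

end Pool.Agent.MP_0af329_co.JT
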