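import Pool.Agent.MP_0af329_co.JTB2

set_option autoImplicit false

namespace Pool.Agent.MP_0af329_co.JT

open EuclideanGeometry Filter Topology

theorem jtb3_uv_ten (n : ℕ) :
    JF.uv ((n : ℝ) * Real.pi / 5) = JF.uv (((n : ℝ) - 10) * Real.pi / 5) := by
  have h1 : ((n : ℝ) * Real.pi / 5) = ((n : ℝ) - 10) * Real.pi / 5 + Real.pi + Real.pi := by ring
  rw [h1, jtb2_uv_pi, jtb2_uv_pi, neg_neg]

theorem jtb3_angle (a b : ℝ) (h1 : a - b ≤ 3) (h2 : b - a ≤ 3) :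
    InnerProductGeometry.angle (JF.uv (a * Real.pi / 5)) (JF.uv (b * Real.pi / 5)) ≤
      3 * Real.pi / 5 := by
  have hpi := Real.pi_pos
  have h3 : |a * Real.pi / 5 - b * Real.pi / 5| ≤ 3 * Real.pi / 5 := by
    rw [abs_le]
    constructor <;> nlinarith
  rw [JF.angle_uv _ _ (h3.trans (by linarith))]
  exact h3

/-- ROW F19-B3a.  (`DT x y ≤ 9`.)  If `p, q ≤ 9` are not `far`, the angle between the directions is at most
`3π/5`.  PROOF.  `|p - q| ≤ 3`: `angle_uv`; `|p - q| ≥ 7`: replace the larger one by itself minus `10`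
(`uv (t - 2π) = uv t`). -/
theorem angle_not_far (p q : ℕ) (hp : p ≤ 9) (hq : q ≤ 9) (h : ¬ far p q) :
    InnerProductGeometry.angle (JF.uv ((p : ℝ) * Real.pi / 5)) (JF.uv ((q : ℝ) * Real.pi / 5)) ≤
      3 * Real.pi / 5 := by
  unfold far at h
  have hp' : (p : ℝ) ≤ 9 := by exact_mod_cast hp
  have hq' : (q : ℝ) ≤ 9 := by exact_mod_cast hq
  have hp0 : (0 : ℝ) ≤ p := Nat.cast_nonneg p
  have hq0 : (0 : ℝ) ≤ q := Nat.cast_nonneg q
  have hcase : q + 7 ≤ p ∨ p + 7 ≤ q ∨ (p ≤ q + 3 ∧ q ≤ p + 3) := by omega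
  rcases hcase with h1 | h1 | ⟨h1, h2⟩
  · have h1' : (q : ℝ) + 7 ≤ p := by exact_mod_cast h1
    rw [jtb3_uv_ten p]
    exact jtb3_angle _ _ (by linarith) (by linarith)
  · have h1' : (p : ℝ) + 7 ≤ q := by exact_mod_cast h1
    rw [jtb3_uv_ten q]
    exact jtb3_angle _ _ (by linarith) (by linarith)
  · have h1' : (p : ℝ) ≤ q + 3 := by exact_mod_cast h1
    have h2' : (q : ℝ) ≤ p + 3 := by exact_mod_cast h2
    exact jtb3_angle _ _ (by linarith) (by linarith)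

theorem jtb3_tb : ∀ c c' : Fin 4, tb c c' ≤ 9 := by
  decide

theorem jtb3_dT : ∀ c : Fin 4, dT c ≤ 4 := by
  decide

theorem DT_le {m : ℕ} (x y : Fin 10 × Fin m) : DT x y ≤ 9 := by
  unfold DT
  have h1 := jtb3_tb (cT x.1) (cT y.1)
  have h2 := jtb3_dT (cT x.1)
  split_ifs <;> omega

/-- ROW F19-B3b.  PROOF.  `ptT_dir` for `(y, x)` and `(y, z)`, continuity of the angle at nonzero vectors
(`angle_lim` in JC1.lean, `InnerProductGeometry.angle_smul_left_of_pos`), `angle_not_far`. -/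
theorem ptT_angle {m : ℕ} (a : ℝ) (ha : 3 * Real.pi / 5 < a) (x y z : Fin 10 × Fin m)
    (hxy : x ≠ y) (hzy : z ≠ y) (h : ¬ far (DT y x) (DT y z)) :
    ∀ᶠ L : ℝ in atTop, ∠ (ptT L x) (ptT L y) (ptT L z) < a := by
  obtain ⟨r, e, hr, h1⟩ := ptT_dir y x hxy.symm
  obtain ⟨r', e', hr', h1'⟩ := ptT_dir y z hzy.symm
  have hT := JF.angle_lim (smul_ne_zero hr.ne' (JF.uv_ne _)) (smul_ne_zero hr'.ne' (JF.uv_ne _))
    h1 h1'
  rw [InnerProductGeometry.angle_smul_left_of_pos _ _ hr,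
    InnerProductGeometry.angle_smul_right_of_pos _ _ hr'] at hT
  have hev := hT.eventually_lt_const
    (lt_of_le_of_lt (angle_not_far _ _ (DT_le y x) (DT_le y z) h) ha)
  filter_upwards [hev, eventually_gt_atTop (0 : ℝ)] with L hL1 hL
  rw [InnerProductGeometry.angle_smul_left_of_pos _ _ (by positivity),
    InnerProductGeometry.angle_smul_right_of_pos _ _ (by positivity)] at hL1
  exact hL1

/-- ROW F19-B3b.  From `ptT_dir` (the limit is not `0`). -/
theorem ptT_ne {m : ℕ} (x y : Fin 10 × Fin m) (hxy : x ≠ y) :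
    ∀ᶠ L : ℝ in atTop, ptT L x ≠ ptT L y := by
  obtain ⟨r, e, hr, h1⟩ := ptT_dir x y hxy
  have h2 := h1.eventually_ne (smul_ne_zero hr.ne' (JF.uv_ne _))
  filter_upwards [h2] with L hL h3
  rw [h3, sub_self, smul_zero] at hL
  exact hL rfl

end Pool.Agent.MP_0af329_co.JT
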