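import Pool.Agent.MP_0af329_co.Lim
import Pool.Agent.MP_0af329_co.Conf

/-! Row [ANG-UP]: counting in the circle configuration.  Small angles: `x, z` in the same cluster
and (`y` in another cluster, or `y` in the same cluster but not in the middle):
`k (k-1) m² (m-1) + (2/3) k m (m-1) (m-2)` ordered triples.  Large angles: all three in one cluster
with `y` in the middle: `(1/3) k m (m-1) (m-2)` ordered triples. -/

namespace Pool.Agent.MP_0af329_co

open EuclideanGeometry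

/-- `b` is between `a` and `c`. -/
def Btw {m : ℕ} (a b c : Fin m) : Prop := (a < b ∧ b < c) ∨ (c < b ∧ b < a)

instance {m : ℕ} (a b c : Fin m) : Decidable (Btw a b c) := by unfold Btw; infer_instance

/-- The ordered triples of distinct elements of `Fin m`. -/
def tr3 (m : ℕ) : Finset (Fin m × Fin m × Fin m) :=
  Finset.univ.filter fun t => t.1 ≠ t.2.1 ∧ t.2.1 ≠ t.2.2 ∧ t.1 ≠ t.2.2

theorem card_tr3_le (m : ℕ) : (tr3 m).card ≤ m ^ 3 := by
  refine (Finset.card_filter_le _ _).trans (le_of_eq ?_)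
  rw [Finset.card_univ, Fintype.card_prod, Fintype.card_prod, Fintype.card_fin]
  ring

theorem sum_tr3_rot {m : ℕ} (f : Fin m → Fin m → Fin m → ℕ) :
    ∑ t ∈ tr3 m, f t.1 t.2.1 t.2.2 = ∑ t ∈ tr3 m, f t.2.1 t.2.2 t.1 := by
  refine Finset.sum_bij' (fun t _ => (t.2.2, t.1, t.2.1)) (fun t _ => (t.2.1, t.2.2, t.1))
    ?_ ?_ ?_ ?_ ?_
  · rintro ⟨x, y, z⟩ h
    simp only [tr3, Finset.mem_filter, Finset.mem_univ, true_and] at h ⊢
    exact ⟨h.2.2.symm, h.1, h.2.1.symm⟩
  · rintro ⟨x, y, z⟩ h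
    simp only [tr3, Finset.mem_filter, Finset.mem_univ, true_and] at h ⊢
    exact ⟨h.2.1, h.2.2.symm, h.1.symm⟩
  · rintro ⟨x, y, z⟩ _; rfl
  · rintro ⟨x, y, z⟩ _; rfl
  · rintro ⟨x, y, z⟩ _; rfl

theorem three_mul_btw (m : ℕ) :
    3 * ((tr3 m).filter fun t => Btw t.1 t.2.1 t.2.2).card = (tr3 m).card := by
  have h1 : ((tr3 m).filter fun t => Btw t.1 t.2.1 t.2.2).card =
      ∑ t ∈ tr3 m, if Btw t.1 t.2.1 t.2.2 then 1 else 0 := Finset.card_filter _ _
  have h2 := sum_tr3_rot (m := m) (fun a b c => if Btw a b c then 1 else 0)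
  have h3 := sum_tr3_rot (m := m) (fun a b c => if Btw b c a then 1 else 0)
  have h4 : ∑ t ∈ tr3 m, ((if Btw t.1 t.2.1 t.2.2 then 1 else 0) +
      (if Btw t.2.1 t.2.2 t.1 then 1 else 0) + (if Btw t.2.2 t.1 t.2.1 then 1 else 0)) =
      (tr3 m).card := by
    rw [Finset.card_eq_sum_ones]
    refine Finset.sum_congr rfl ?_
    rintro ⟨x, y, z⟩ h
    simp only [tr3, Finset.mem_filter, Finset.mem_univ, true_and] at h
    obtain ⟨h5, h6, h7⟩ := h
    simp only [Btw]
    rcases lt_or_gt_of_ne h5 with h8 | h8 <;> rcases lt_or_gt_of_ne h6 with h9 | h9 <;>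
      rcases lt_or_gt_of_ne h7 with h10 | h10 <;>
      first
      | (exfalso; omega)
      | simp [h8, h9, h10, not_lt.2 h8.le, not_lt.2 h9.le, not_lt.2 h10.le]
  rw [Finset.sum_add_distrib, Finset.sum_add_distrib] at h4
  omega

theorem three_mul_not_btw (m : ℕ) :
    3 * ((tr3 m).filter fun t => ¬ Btw t.1 t.2.1 t.2.2).card = 2 * (tr3 m).card := by
  have h1 := three_mul_btw m
  have h2 := Finset.card_filter_add_card_filter_not (s := tr3 m)
    (fun t => Btw t.1 t.2.1 t.2.2)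
  omega

theorem exists_triple {k m : ℕ} (p : Fin k × Fin m → Pt) {t : Pt × Pt × Pt}
    (ht : t ∈ trip (Finset.univ.image p)) :
    ∃ x y z : Fin k × Fin m, x ≠ y ∧ y ≠ z ∧ x ≠ z ∧ t = (p x, p y, p z) := by
  classical
  obtain ⟨a, b, c⟩ := t
  rw [mem_trip] at ht
  simp only [Finset.mem_image, Finset.mem_univ, true_and] at ht
  obtain ⟨⟨⟨x, rfl⟩, ⟨y, rfl⟩, ⟨z, rfl⟩⟩, h1, h2, h3⟩ := ht
  exact ⟨x, y, z, fun h => h1 (by rw [h]), fun h => h2 (by rw [h]), fun h => h3 (by rw [h]), rfl⟩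

theorem dens_Iio_le (k : ℕ) (hk : 1 ≤ k) (α : ℝ) (hα : α < Real.pi / k) :
    dens (Set.Iio α) ≤ 1 / k - 1 / (3 * (k : ℝ) ^ 2) := by
  classical
  refine dens_le _ _ k hk fun m _ => ?_
  obtain ⟨p, hp, hg, h⟩ := exists_conf k m hk (Real.pi / k - α) (by linarith)
  have hk0 : (0 : ℝ) < k := by exact_mod_cast hk
  have hkpi : Real.pi / k ≤ Real.pi :=
    div_le_self Real.pi_pos.le (by exact_mod_cast hk)
  refine ⟨Finset.univ.image p, ?_, hg, ?_⟩
  · rw [Finset.card_image_of_injective _ hp, Finset.card_univ, Fintype.card_prod,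
      Fintype.card_fin, Fintype.card_fin]
  let I1 : Finset ((Fin k × Fin k) × (Fin m × Fin m × Fin m)) :=
    (Finset.univ : Finset (Fin k)).offDiag ×ˢ Finset.univ
  let I2 : Finset (Fin k × (Fin m × Fin m × Fin m)) :=
    Finset.univ ×ˢ ((tr3 m).filter fun t => ¬ Btw t.1 t.2.1 t.2.2)
  have hsub : ((trip (Finset.univ.image p)).filter fun t =>
      ∠ t.1 t.2.1 t.2.2 ∈ Set.Iio α) ⊆
      I1.image (fun s => (p (s.1.1, s.2.1), p (s.1.2, s.2.2.1), p (s.1.1, s.2.2.2))) ∪
      I2.image (fun s => (p (s.1, s.2.1), p (s.1, s.2.2.1), p (s.1, s.2.2.2))) := by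
    intro t ht
    rw [Finset.mem_filter] at ht
    obtain ⟨⟨x1, x2⟩, ⟨y1, y2⟩, ⟨z1, z2⟩, hxy, hyz, hxz, rfl⟩ := exists_triple p ht.1
    have ht2 : ∠ (p (x1, x2)) (p (y1, y2)) (p (z1, z2)) < α := ht.2
    obtain ⟨h1, h2, h3⟩ := h _ _ _ hxy hyz hxz
    have h4 : x1 = z1 := by
      by_contra hne
      have := (h1 hne).1
      linarith
    subst h4
    rw [Finset.mem_union]
    by_cases h5 : x1 = y1
    · right
      subst h5
      rw [Finset.mem_image]
      refine ⟨(x1, (x2, y2, z2)), ?_, rfl⟩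
      simp only [I2, Finset.mem_product, Finset.mem_univ, true_and, Finset.mem_filter, tr3]
      refine ⟨⟨fun h => hxy (by rw [h]), fun h => hyz (by rw [h]), fun h => hxz (by rw [h])⟩, ?_⟩
      intro hb
      have := (h3 rfl rfl).1 hb
      linarith
    · left
      rw [Finset.mem_image]
      refine ⟨((x1, y1), (x2, y2, z2)), ?_, rfl⟩
      simp only [I1, Finset.mem_product, Finset.mem_univ, and_true, Finset.mem_offDiag, true_and]
      exact h5
  have hcard : cnt (Finset.univ.image p) (Set.Iio α) ≤ I1.card + I2.card := by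
    have h1 : cnt (Finset.univ.image p) (Set.Iio α) =
        ((trip (Finset.univ.image p)).filter fun t => ∠ t.1 t.2.1 t.2.2 ∈ Set.Iio α).card := by
      rw [cnt]
      congr 1
    rw [h1]
    refine (Finset.card_le_card hsub).trans ((Finset.card_union_le _ _).trans ?_)
    exact add_le_add Finset.card_image_le Finset.card_image_le
  have hI1 : (I1.card : ℝ) = ((k : ℝ) ^ 2 - k) * (m : ℝ) ^ 3 := by
    simp only [I1, Finset.card_product, Finset.offDiag_card, Finset.card_univ, Fintype.card_prod,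
      Fintype.card_fin]
    have : k ≤ k * k := Nat.le_mul_self k
    push_cast [Nat.cast_sub this]
    ring
  have hI2 : 3 * (I2.card : ℝ) ≤ 2 * (k : ℝ) * (m : ℝ) ^ 3 := by
    have h1 : 3 * I2.card = k * (2 * (tr3 m).card) := by
      simp only [I2, Finset.card_product, Finset.card_univ, Fintype.card_fin]
      rw [← three_mul_not_btw]
      ring
    have h2 := card_tr3_le m
    have h3 : 3 * I2.card ≤ k * (2 * m ^ 3) := by
      rw [h1]
      exact Nat.mul_le_mul_left _ (Nat.mul_le_mul_left _ h2)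
    have h4 : ((3 * I2.card : ℕ) : ℝ) ≤ ((k * (2 * m ^ 3) : ℕ) : ℝ) := by exact_mod_cast h3
    push_cast at h4
    linarith
  have h1 : (cnt (Finset.univ.image p) (Set.Iio α) : ℝ) ≤ I1.card + I2.card := by
    exact_mod_cast hcard
  have h2 : (1 / (k : ℝ) - 1 / (3 * (k : ℝ) ^ 2)) * ((k : ℝ) * m) ^ 3 =
      (k : ℝ) ^ 2 * (m : ℝ) ^ 3 - (k : ℝ) * (m : ℝ) ^ 3 / 3 := by
    field_simp
  rw [h2]
  rw [hI1] at h1
  linarith

theorem dens_Ioi_le (k : ℕ) (hk : 1 ≤ k) (α : ℝ) (hα : Real.pi - Real.pi / k < α) :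
    dens (Set.Ioi α) ≤ 1 / (3 * (k : ℝ) ^ 2) := by
  classical
  refine dens_le _ _ k hk fun m _ => ?_
  obtain ⟨p, hp, hg, h⟩ := exists_conf k m hk (α - (Real.pi - Real.pi / k)) (by linarith)
  have hk0 : (0 : ℝ) < k := by exact_mod_cast hk
  have hkpi : Real.pi / k ≤ Real.pi :=
    div_le_self Real.pi_pos.le (by exact_mod_cast hk)
  refine ⟨Finset.univ.image p, ?_, hg, ?_⟩
  · rw [Finset.card_image_of_injective _ hp, Finset.card_univ, Fintype.card_prod,
      Fintype.card_fin, Fintype.card_fin]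
  let I2 : Finset (Fin k × (Fin m × Fin m × Fin m)) :=
    Finset.univ ×ˢ ((tr3 m).filter fun t => Btw t.1 t.2.1 t.2.2)
  have hsub : ((trip (Finset.univ.image p)).filter fun t =>
      ∠ t.1 t.2.1 t.2.2 ∈ Set.Ioi α) ⊆
      I2.image (fun s => (p (s.1, s.2.1), p (s.1, s.2.2.1), p (s.1, s.2.2.2))) := by
    intro t ht
    rw [Finset.mem_filter] at ht
    obtain ⟨⟨x1, x2⟩, ⟨y1, y2⟩, ⟨z1, z2⟩, hxy, hyz, hxz, rfl⟩ := exists_triple p ht.1
    have ht2 : α < ∠ (p (x1, x2)) (p (y1, y2)) (p (z1, z2)) := ht.2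
    obtain ⟨h1, h2, h3⟩ := h _ _ _ hxy hyz hxz
    have h4 : x1 = z1 := by
      by_contra hne
      have := (h1 hne).2
      linarith
    subst h4
    have h5 : x1 = y1 := by
      by_contra hne
      have := h2 rfl hne
      linarith
    subst h5
    rw [Finset.mem_image]
    refine ⟨(x1, (x2, y2, z2)), ?_, rfl⟩
    simp only [I2, Finset.mem_product, Finset.mem_univ, true_and, Finset.mem_filter, tr3]
    refine ⟨⟨fun h => hxy (by rw [h]), fun h => hyz (by rw [h]), fun h => hxz (by rw [h])⟩, ?_⟩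
    by_contra hb
    have := (h3 rfl rfl).2 hb
    linarith
  have hcard : cnt (Finset.univ.image p) (Set.Ioi α) ≤ I2.card := by
    have h1 : cnt (Finset.univ.image p) (Set.Ioi α) =
        ((trip (Finset.univ.image p)).filter fun t => ∠ t.1 t.2.1 t.2.2 ∈ Set.Ioi α).card := by
      rw [cnt]
      congr 1
    rw [h1]
    exact (Finset.card_le_card hsub).trans Finset.card_image_le
  have hI2 : 3 * (I2.card : ℝ) ≤ (k : ℝ) * (m : ℝ) ^ 3 := by
    have h1 : 3 * I2.card = k * (tr3 m).card := by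
      simp only [I2, Finset.card_product, Finset.card_univ, Fintype.card_fin]
      rw [← three_mul_btw]
      ring
    have h2 := card_tr3_le m
    have h3 : 3 * I2.card ≤ k * m ^ 3 := by
      rw [h1]
      exact Nat.mul_le_mul_left _ h2
    have h4 : ((3 * I2.card : ℕ) : ℝ) ≤ ((k * m ^ 3 : ℕ) : ℝ) := by exact_mod_cast h3
    push_cast at h4
    linarith
  have h1 : (cnt (Finset.univ.image p) (Set.Ioi α) : ℝ) ≤ I2.card := by
    exact_mod_cast hcard
  have h2 : (1 / (3 * (k : ℝ) ^ 2)) * ((k : ℝ) * m) ^ 3 = (k : ℝ) * (m : ℝ) ^ 3 / 3 := by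
    field_simp
  rw [h2]
  linarith

end Pool.Agent.MP_0af329_co
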