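import Pool.Agent.MP_0af329_co.JTB4a
import Pool.Agent.MP_0af329_co.Upper

set_option autoImplicit false

namespace Pool.Agent.MP_0af329_co.JT

open Finset

/-- The number of blocks of a cluster. -/
def nc (c : Fin 4) : ℕ := if c = 0 then 4 else if c = 1 then 4 else 1

/-- The index of a block in its cluster. -/
def qb (b : Fin 10) : ℕ := if b < 8 then (b : ℕ) % 4 else 0

/-- The points of a cluster. -/
def CL (m : ℕ) (c : Fin 4) : Finset (Fin 10 × Fin m) := univ.filter fun x => cT x.1 = c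

theorem mem_CL {m : ℕ} {c : Fin 4} {x : Fin 10 × Fin m} : x ∈ CL m c ↔ cT x.1 = c := by
  unfold CL
  rw [mem_filter]
  exact ⟨fun h => h.2, fun h => ⟨mem_univ _, h⟩⟩

theorem card_CL (m : ℕ) (c : Fin 4) : (CL m c).card = nc c * m := by
  have h : CL m c = (univ.filter fun b : Fin 10 => cT b = c) ×ˢ (univ : Finset (Fin m)) := by
    ext x
    rw [mem_CL, mem_product, mem_filter]
    exact ⟨fun h => ⟨⟨mem_univ _, h⟩, mem_univ _⟩, fun h => h.1.2⟩
  have h2 : ∀ c : Fin 4, (univ.filter fun b : Fin 10 => cT b = c).card = nc c := by decide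
  rw [h, card_product, card_univ, Fintype.card_fin, h2]

theorem posT_lt {m : ℕ} (x : Fin 10 × Fin m) : posT x < nc (cT x.1) * m := by
  obtain ⟨a, i⟩ := x
  have h1 : ∀ a : Fin 10, qb a + 1 ≤ nc (cT a) := by decide
  have h2 : posT (a, i) = qb a * m + i := rfl
  have h3 := Nat.mul_le_mul_right m (h1 a)
  have h4 := i.2
  show posT (a, i) < nc (cT a) * m
  rw [h2]
  rw [add_mul, one_mul] at h3
  omega

theorem posT_inj {m : ℕ} (x y : Fin 10 × Fin m) (h : cT x.1 = cT y.1)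
    (h' : posT x = posT y) : x = y := by
  obtain ⟨a, i⟩ := x
  obtain ⟨b, j⟩ := y
  have hq : ∀ a b : Fin 10, cT a = cT b → qb a = qb b → a = b := by decide
  have h2 : posT (a, i) = qb a * m + i := rfl
  have h3 : posT (b, j) = qb b * m + j := rfl
  rw [h2, h3] at h'
  have hi := i.2
  have hj := j.2
  have h4 : qb a = qb b := by
    rcases Nat.lt_trichotomy (qb a) (qb b) with h5 | h5 | h5
    · exfalso
      have h6 := Nat.mul_le_mul_right m (Nat.succ_le_of_lt h5)
      rw [Nat.succ_mul] at h6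
      omega
    · exact h5
    · exfalso
      have h6 := Nat.mul_le_mul_right m (Nat.succ_le_of_lt h5)
      rw [Nat.succ_mul] at h6
      omega
  have h5 : a = b := hq a b h h4
  subst h5
  have h6 : i = j := Fin.ext (by omega)
  rw [h6]

/-- Triples in one cluster, the vertex between the other two points. -/
def T1 (m : ℕ) (c : Fin 4) : Finset ((Fin 10 × Fin m) × (Fin 10 × Fin m) × (Fin 10 × Fin m)) :=
  univ.filter fun t => (t.1 ≠ t.2.1 ∧ t.2.2 ≠ t.2.1 ∧ t.1 ≠ t.2.2) ∧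
    (cT t.1.1 = c ∧ cT t.2.1.1 = c ∧ cT t.2.2.1 = c) ∧
    ((posT t.1 ≤ posT t.2.1 ∧ posT t.2.1 < posT t.2.2) ∨
      (posT t.2.2 ≤ posT t.2.1 ∧ posT t.2.1 < posT t.1))

theorem card_T1 (m : ℕ) (c : Fin 4) : 3 * (T1 m c).card ≤ (nc c * m) ^ 3 := by
  have h1 : (T1 m c).card ≤ (((tr3 (nc c * m)).filter fun t => Btw t.1 t.2.1 t.2.2).image
      fun t => ((t.1 : ℕ), (t.2.1 : ℕ), (t.2.2 : ℕ))).card := by
    refine card_le_card_of_injOn (fun t => (posT t.1, posT t.2.1, posT t.2.2)) ?_ ?_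
    · rintro ⟨x, y, z⟩ ht
      rw [mem_coe, T1, mem_filter] at ht
      obtain ⟨-, ⟨hxy, hzy, hxz⟩, ⟨hx, hy, hz⟩, hb⟩ := ht
      dsimp only at hxy hzy hxz hx hy hz hb
      have lx : posT x < nc c * m := by rw [← hx]; exact posT_lt x
      have ly : posT y < nc c * m := by rw [← hy]; exact posT_lt y
      have lz : posT z < nc c * m := by rw [← hz]; exact posT_lt z
      have nxy : posT x ≠ posT y := fun h => hxy (posT_inj x y (hx.trans hy.symm) h)
      have nzy : posT z ≠ posT y := fun h => hzy (posT_inj z y (hz.trans hy.symm) h)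
      have nxz : posT x ≠ posT z := fun h => hxz (posT_inj x z (hx.trans hz.symm) h)
      rw [mem_coe, mem_image]
      refine ⟨(⟨posT x, lx⟩, ⟨posT y, ly⟩, ⟨posT z, lz⟩), ?_, rfl⟩
      rw [mem_filter, tr3, mem_filter]
      refine ⟨⟨mem_univ _, ?_, ?_, ?_⟩, ?_⟩
      · intro h
        exact nxy (congrArg Fin.val h)
      · intro h
        exact nzy (congrArg Fin.val h).symm
      · intro h
        exact nxz (congrArg Fin.val h)
      · unfold Btw
        simp only [Fin.mk_lt_mk]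
        omega
    · rintro ⟨x, y, z⟩ ht ⟨x', y', z'⟩ ht' h
      rw [mem_coe, T1, mem_filter] at ht ht'
      obtain ⟨-, -, ⟨hx, hy, hz⟩, -⟩ := ht
      obtain ⟨-, -, ⟨hx', hy', hz'⟩, -⟩ := ht'
      dsimp only at hx hy hz hx' hy' hz' h
      rw [Prod.mk.injEq, Prod.mk.injEq] at h
      obtain ⟨h1, h2, h3⟩ := h
      rw [posT_inj x x' (hx.trans hx'.symm) h1, posT_inj y y' (hy.trans hy'.symm) h2,
        posT_inj z z' (hz.trans hz'.symm) h3]
  have h2 := h1.trans card_image_le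
  have h3 := three_mul_btw (nc c * m)
  have h4 := card_tr3_le (nc c * m)
  omega

/-- Pairs in a cluster, the second point before the first one. -/
def PC (m : ℕ) (c : Fin 4) : Finset ((Fin 10 × Fin m) × (Fin 10 × Fin m)) :=
  (CL m c ×ˢ CL m c).filter fun q => posT q.2 < posT q.1

theorem card_PC (m : ℕ) (c : Fin 4) : 2 * (PC m c).card ≤ (nc c * m) * (nc c * m) := by
  have h1 : (PC m c).card =
      ((CL m c ×ˢ CL m c).filter fun q => posT q.1 < posT q.2).card := by
    refine card_bij' (fun q _ => (q.2, q.1)) (fun q _ => (q.2, q.1)) ?_ ?_ ?_ ?_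
    · rintro ⟨x, y⟩ h
      rw [PC, mem_filter, mem_product] at h
      rw [mem_filter, mem_product]
      exact ⟨⟨h.1.2, h.1.1⟩, h.2⟩
    · rintro ⟨x, y⟩ h
      rw [mem_filter, mem_product] at h
      rw [PC, mem_filter, mem_product]
      exact ⟨⟨h.1.2, h.1.1⟩, h.2⟩
    · rintro ⟨x, y⟩ _
      rfl
    · rintro ⟨x, y⟩ _
      rfl
  have h2 : Disjoint (PC m c) ((CL m c ×ˢ CL m c).filter fun q => posT q.1 < posT q.2) := by
    rw [disjoint_left]
    rintro ⟨x, y⟩ h h'
    rw [PC, mem_filter] at h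
    rw [mem_filter] at h'
    have h3 := h.2
    have h4 := h'.2
    dsimp only at h3 h4
    omega
  have h3 : (PC m c ∪ (CL m c ×ˢ CL m c).filter fun q => posT q.1 < posT q.2).card ≤
      (CL m c ×ˢ CL m c).card :=
    card_le_card (union_subset (filter_subset _ _) (filter_subset _ _))
  rw [card_union_of_disjoint h2, ← h1, card_product, card_CL] at h3
  omega

/-- Triples with `x, y` in a cluster, `y` before `x`, and `z` in `A`. -/
def T2 (m : ℕ) (c : Fin 4) : Finset ((Fin 10 × Fin m) × (Fin 10 × Fin m) × (Fin 10 × Fin m)) :=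
  (PC m c ×ˢ CL m 0).image fun q => (q.1.1, q.1.2, q.2)

/-- Triples with `z, y` in a cluster, `y` before `z`, and `x` in `A`. -/
def T2' (m : ℕ) (c : Fin 4) : Finset ((Fin 10 × Fin m) × (Fin 10 × Fin m) × (Fin 10 × Fin m)) :=
  (PC m c ×ˢ CL m 0).image fun q => (q.2, q.1.2, q.1.1)

theorem card_T2 (m : ℕ) (c : Fin 4) (hc : nc c = 1) : (T2 m c).card ≤ 2 * m ^ 3 := by
  have h1 := card_PC m c
  have h2 : (T2 m c).card ≤ (PC m c).card * (nc 0 * m) := by
    refine card_image_le.trans ?_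
    rw [card_product, card_CL]
  have h3 : nc 0 = 4 := rfl
  rw [hc, one_mul] at h1
  rw [h3] at h2
  have h4 := Nat.mul_le_mul_right (2 * m) h1
  have h5 : m * m * (2 * m) = 2 * m ^ 3 := by ring
  have h6 : 2 * (PC m c).card * (2 * m) = (PC m c).card * (4 * m) := by ring
  rw [h5, h6] at h4
  exact h2.trans h4

theorem card_T2' (m : ℕ) (c : Fin 4) (hc : nc c = 1) : (T2' m c).card ≤ 2 * m ^ 3 := by
  have h1 := card_PC m c
  have h2 : (T2' m c).card ≤ (PC m c).card * (nc 0 * m) := by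
    refine card_image_le.trans ?_
    rw [card_product, card_CL]
  have h3 : nc 0 = 4 := rfl
  rw [hc, one_mul] at h1
  rw [h3] at h2
  have h4 := Nat.mul_le_mul_right (2 * m) h1
  have h5 : m * m * (2 * m) = 2 * m ^ 3 := by ring
  have h6 : 2 * (PC m c).card * (2 * m) = (PC m c).card * (4 * m) := by ring
  rw [h5, h6] at h4
  exact h2.trans h4

/-- ROW F19-B4.  The number of bad triples.  PROOF.  By `far_cases` (JTB4a.lean, another row) a bad triple is of
one of the types (i) `x, y, z` in the same cluster, `posT y` between `posT x` and `posT z`; (ii) `y` and one of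
`x, z`, say `x`, are in `C₁` (or both in `C₂`), `posT y < posT x`, and the other one, `z`, is in `A`; (iii) `y ∈ C₁`
and `{x, z}` has one point in `B` and one in `C₂`.
(i): for a cluster of `N` points (injected in `Fin N` by `posT`) at most `N³/3` triples (`three_mul_btw`,
`card_tr3_le` in Upper.lean): `2 · (4m)³/3 + 2 · m³/3`; (ii): `2 · 2 · (m(m-1)/2) · 4m ≤ 8 m³`; (iii) `2 · m · 4m · m = 8 m³`.
Total `(130/3 + 16) m³`. -/
theorem card_far_le (m : ℕ) :
    3 * (univ.filter fun t : (Fin 10 × Fin m) × (Fin 10 × Fin m) × (Fin 10 × Fin m) =>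
      t.1 ≠ t.2.1 ∧ t.2.2 ≠ t.2.1 ∧ t.1 ≠ t.2.2 ∧ far (DT t.2.1 t.1) (DT t.2.1 t.2.2)).card ≤
      178 * m ^ 3 := by
  set U1 := (T1 m 0 ∪ T1 m 1) ∪ (T1 m 2 ∪ T1 m 3) with hU1
  set U2 := (T2 m 2 ∪ T2 m 3) ∪ (T2' m 2 ∪ T2' m 3) with hU2
  set U3 := (CL m 1 ×ˢ CL m 2 ×ˢ CL m 3) ∪ (CL m 3 ×ˢ CL m 2 ×ˢ CL m 1) with hU3
  have hsub : (univ.filter fun t : (Fin 10 × Fin m) × (Fin 10 × Fin m) × (Fin 10 × Fin m) =>
      t.1 ≠ t.2.1 ∧ t.2.2 ≠ t.2.1 ∧ t.1 ≠ t.2.2 ∧ far (DT t.2.1 t.1) (DT t.2.1 t.2.2)) ⊆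
      (U1 ∪ U2) ∪ U3 := by
    rintro ⟨x, y, z⟩ ht
    rw [mem_filter] at ht
    obtain ⟨-, hxy, hzy, hxz, hf⟩ := ht
    dsimp only at hxy hzy hxz hf
    rw [mem_union, mem_union]
    have hc2 : ∀ c : Fin 4, (c = 2 ∨ c = 3) → ∀ t : (Fin 10 × Fin m) × (Fin 10 × Fin m) ×
        (Fin 10 × Fin m), t ∈ T2 m c ∨ t ∈ T2' m c → t ∈ U2 := by
      intro c hc t ht
      rw [hU2, mem_union, mem_union, mem_union]
      rcases hc with rfl | rfl
      · rcases ht with ht | ht
        · exact Or.inl (Or.inl ht)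
        · exact Or.inr (Or.inl ht)
      · rcases ht with ht | ht
        · exact Or.inl (Or.inr ht)
        · exact Or.inr (Or.inr ht)
    rcases far_cases x y z hf with ⟨h1, h2, h3⟩ | ⟨h1, h2, h3, h4⟩ | ⟨h1, h2, h3, h4⟩ |
      ⟨h1, h2, h3⟩ | ⟨h1, h2, h3⟩
    · left; left
      have hmem : (x, y, z) ∈ T1 m (cT y.1) := by
        rw [T1, mem_filter]
        exact ⟨mem_univ _, ⟨hxy, hzy, hxz⟩, ⟨h1, rfl, h2⟩, h3⟩
      have hall : ∀ c : Fin 4, (x, y, z) ∈ T1 m c → (x, y, z) ∈ U1 := by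
        intro c hc
        rw [hU1, mem_union, mem_union, mem_union]
        have h5 : ∀ c : Fin 4, c = 0 ∨ c = 1 ∨ c = 2 ∨ c = 3 := by decide
        have h4 := h5 c
        rcases h4 with rfl | rfl | rfl | rfl
        · exact Or.inl (Or.inl hc)
        · exact Or.inl (Or.inr hc)
        · exact Or.inr (Or.inl hc)
        · exact Or.inr (Or.inr hc)
      exact hall _ hmem
    · left; right
      refine hc2 (cT y.1) h1 _ (Or.inl ?_)
      rw [T2, mem_image]
      refine ⟨((x, y), z), ?_, rfl⟩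
      rw [mem_product, PC, mem_filter, mem_product, mem_CL, mem_CL, mem_CL]
      exact ⟨⟨⟨h2, rfl⟩, h3⟩, h4⟩
    · left; right
      refine hc2 (cT y.1) h1 _ (Or.inr ?_)
      rw [T2', mem_image]
      refine ⟨((z, y), x), ?_, rfl⟩
      rw [mem_product, PC, mem_filter, mem_product, mem_CL, mem_CL, mem_CL]
      exact ⟨⟨⟨h2, rfl⟩, h3⟩, h4⟩
    · right
      rw [hU3, mem_union]
      left
      rw [mem_product, mem_product, mem_CL, mem_CL, mem_CL]
      exact ⟨h2, h1, h3⟩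
    · right
      rw [hU3, mem_union]
      right
      rw [mem_product, mem_product, mem_CL, mem_CL, mem_CL]
      exact ⟨h2, h1, h3⟩
  have hcard := card_le_card hsub
  have hu := card_union_le (U1 ∪ U2) U3
  have hu' := card_union_le U1 U2
  have n0 : nc 0 = 4 := rfl
  have n1 : nc 1 = 4 := rfl
  have n2 : nc 2 = 1 := rfl
  have n3 : nc 3 = 1 := rfl
  have k0 := card_T1 m 0
  have k1 := card_T1 m 1
  have k2 := card_T1 m 2
  have k3 := card_T1 m 3
  rw [n0, mul_pow] at k0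
  rw [n1, mul_pow] at k1
  rw [n2, one_mul] at k2
  rw [n3, one_mul] at k3
  have e64 : (4 : ℕ) ^ 3 = 64 := by norm_num
  rw [e64] at k0 k1
  have a1 := card_union_le (T1 m 0 ∪ T1 m 1) (T1 m 2 ∪ T1 m 3)
  have a2 := card_union_le (T1 m 0) (T1 m 1)
  have a3 := card_union_le (T1 m 2) (T1 m 3)
  have b1 := card_union_le (T2 m 2 ∪ T2 m 3) (T2' m 2 ∪ T2' m 3)
  have b2 := card_union_le (T2 m 2) (T2 m 3)
  have b3 := card_union_le (T2' m 2) (T2' m 3)
  have b4 := card_T2 m 2 n2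
  have b5 := card_T2 m 3 n3
  have b6 := card_T2' m 2 n2
  have b7 := card_T2' m 3 n3
  have c1 := card_union_le (CL m 1 ×ˢ CL m 2 ×ˢ CL m 3) (CL m 3 ×ˢ CL m 2 ×ˢ CL m 1)
  rw [card_product, card_product, card_product, card_product, card_CL, card_CL, card_CL,
    n1, n2, n3] at c1
  have c2 : 4 * m * (1 * m * (1 * m)) + 1 * m * (1 * m * (4 * m)) = 8 * m ^ 3 := by ring
  rw [c2] at c1
  rw [← hU1] at a1
  rw [← hU2] at b1
  rw [← hU3] at c1
  omega

end Pool.Agent.MP_0af329_co.JT
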