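import Pool.Agent.MP_0af329_co.JTDefs

set_option autoImplicit false

namespace Pool.Agent.MP_0af329_co.JT

set_option synthInstance.maxSize 2000 in
/-- The table of the bad triples, with the order of the positions as truth values. -/
theorem far_aux : ∀ (a b c : Fin 4) (p q : Bool),
    far (if b = a then (if p = true then dT b else dT b + 5) else tb b a)
      (if b = c then (if q = true then dT b else dT b + 5) else tb b c) →
    (a = b ∧ c = b ∧ ((p = false ∧ q = true) ∨ (q = false ∧ p = true))) ∨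
    ((b = 2 ∨ b = 3) ∧ a = b ∧ p = true ∧ c = 0) ∨
    ((b = 2 ∨ b = 3) ∧ c = b ∧ q = true ∧ a = 0) ∨
    (b = 2 ∧ a = 1 ∧ c = 3) ∨ (b = 2 ∧ a = 3 ∧ c = 1) := by
  decide

/-- ROW F19-B4a.  The table of the bad triples (`y` is the vertex of the angle).  PROOF.  `cT x.1, cT y.1, cT z.1`
take 64 values; unfold `DT`, `tb`, `dT`, `far`; in each case `simp`/`omega`/`decide`.  E.g. generalize
`cT x.1 = a`, ..., `posT x = p`, ..., prove the statement for all `a b c : Fin 4` by `fin_cases` and `split_ifs`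
(`omega` for the order of the positions), or prove by `decide` the statement with Booleans for the order of
the positions. -/
theorem far_cases {m : ℕ} (x y z : Fin 10 × Fin m) (h : far (DT y x) (DT y z)) :
    (cT x.1 = cT y.1 ∧ cT z.1 = cT y.1 ∧
      ((posT x ≤ posT y ∧ posT y < posT z) ∨ (posT z ≤ posT y ∧ posT y < posT x))) ∨
    ((cT y.1 = 2 ∨ cT y.1 = 3) ∧ cT x.1 = cT y.1 ∧ posT y < posT x ∧ cT z.1 = 0) ∨
    ((cT y.1 = 2 ∨ cT y.1 = 3) ∧ cT z.1 = cT y.1 ∧ posT y < posT z ∧ cT x.1 = 0) ∨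
    (cT y.1 = 2 ∧ cT x.1 = 1 ∧ cT z.1 = 3) ∨
    (cT y.1 = 2 ∧ cT x.1 = 3 ∧ cT z.1 = 1) := by
  have h1 := far_aux (cT x.1) (cT y.1) (cT z.1) (decide (posT y < posT x))
    (decide (posT y < posT z))
  simp only [decide_eq_true_eq, decide_eq_false_iff_not, not_lt] at h1
  exact h1 h

end Pool.Agent.MP_0af329_co.JT
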