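import Pool.Agent.MP_0af329_co.JTB1
import Pool.Agent.MP_0af329_co.JTB3
import Pool.Agent.MP_0af329_co.JTB4
import Pool.Agent.MP_0af329_co.Final

set_option autoImplicit false

namespace Pool.Agent.MP_0af329_co.JT

open Finset EuclideanGeometry Filter Topology

/-- ROW F19-B5.  PROOF.  `dens_le` (Lim.lean) with `k = 10`, `c = 89/1500`: `exists_family` with
`x = ptT`, `Bad x y z = far (DT y x) (DT y z)` (`ptT_angle`, `ptT_ne`), `card_far_le`:
`(178/3) m³ = (89/1500) (10 m)³`. -/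
theorem F_le_fifth (a : ℝ) (ha : 3 * Real.pi / 5 < a) : F a ≤ 89 / 1500 := by
  refine dens_le (Set.Ioi a) (89 / 1500) 10 (by norm_num) ?_
  intro m _
  obtain ⟨S, h1, h2, h3⟩ := exists_family (I := Fin 10 × Fin m) (fun L => ptT L) a
    (fun x y z => far (DT y x) (DT y z)) (fun i j hij => ptT_ne i j hij)
    (fun i j l hij hlj _ hb => ptT_angle a ha i j l hij hlj hb)
  refine ⟨S, by rw [h1]; simp, h2, ?_⟩
  have h4 := card_far_le m
  have h5 : 3 * cnt S (Set.Ioi a) ≤ 178 * m ^ 3 := by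
    refine le_trans (Nat.mul_le_mul_left 3 h3) (le_trans (le_of_eq ?_) h4)
    refine congrArg (fun n => 3 * n) (congrArg Finset.card ?_)
    ext t
    simp only [mem_filter]
  have h6 : (3 : ℝ) * (cnt S (Set.Ioi a) : ℝ) ≤ 178 * (m : ℝ) ^ 3 := by exact_mod_cast h5
  push_cast
  nlinarith

end Pool.Agent.MP_0af329_co.JT
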