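import Pool.Agent.MP_0af329_co.JC1

/-!
# The jump of `F` at `3π/5`: definitions
-/

set_option autoImplicit false

namespace Pool.Agent.MP_0af329_co.JT

open Finset EuclideanGeometry Filter Topology

/-! ## The certificate -/

/-- The weights `-2, 2, -1, 0` of a point `u` over a triple `xyz` which is not marked, according to the
number of marked triples among `xyu, xzu, yzu`. -/
def fk (a b c : Bool) : ℤ :=
  match (if a then 1 else 0) + (if b then 1 else 0) + (if c then (1 : ℕ) else 0) with
  | 0 => -2
  | 1 => 2
  | 2 => -1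
  | _ => 0

/-- The local functional. -/
def gk (t a b c a' b' c' : Bool) : ℤ := if t then 14 else - (fk a b c * fk a' b' c')

/-- The functional at an ordered 5-tuple. -/
def GG {V : Type} (H : V → V → V → Bool) (x y z u w : V) : ℤ :=
  gk (H x y z) (H x y u) (H x z u) (H y z u) (H x y w) (H x z w) (H y z w)

/-! ## Heights -/

/-- `x` is lower than `y` (or at the same height and to the left). -/
def lo (x y : Pt) : Prop := x 1 < y 1 ∨ (x 1 = y 1 ∧ x 0 < y 0)

/-! ## The construction: four clusters `A, B, C₁, C₂` of `4m, 4m, m, m` points -/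

/-- The cluster of a block. -/
def cT (b : Fin 10) : Fin 4 := if b < 4 then 0 else if b < 8 then 1 else if b = 8 then 2 else 3

/-- The position in the cluster. -/
def posT {m : ℕ} (x : Fin 10 × Fin m) : ℕ :=
  (if x.1 < 8 then (x.1 : ℕ) % 4 else 0) * m + x.2

/-- The direction of the row of a cluster, in units of `π/5`. -/
def dT (c : Fin 4) : ℕ := if c = 0 then 3 else if c = 1 then 2 else 1

/-- The place of a cluster. -/
noncomputable def baseT (L : ℝ) (c : Fin 4) : Pt :=
  if c = 0 then (-(L ^ 2)) • JF.uv (Real.pi / 5)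
  else if c = 1 then (-(L ^ 2)) • JF.uv (4 * Real.pi / 5)
  else if c = 2 then 0
  else L • JF.uv (3 * Real.pi / 5)

/-- The points. -/
noncomputable def ptT {m : ℕ} (L : ℝ) (x : Fin 10 × Fin m) : Pt :=
  (posT x : ℝ) • JF.uv ((dT (cT x.1) : ℝ) * Real.pi / 5) + baseT L (cT x.1)

/-- The direction from one cluster to another one, in units of `π/5` modulo `10`. -/
def tb (c c' : Fin 4) : ℕ :=
  if c = 0 then (if c' = 1 then 0 else 1)
  else if c = 1 then (if c' = 0 then 5 else 4)
  else if c = 2 then (if c' = 0 then 6 else if c' = 1 then 9 else 3)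
  else (if c' = 0 then 6 else if c' = 1 then 9 else 8)

/-- The limit direction from `x` to `y`, in units of `π/5` modulo `10`. -/
def DT {m : ℕ} (x y : Fin 10 × Fin m) : ℕ :=
  if cT x.1 = cT y.1 then (if posT x < posT y then dT (cT x.1) else dT (cT x.1) + 5)
  else tb (cT x.1) (cT y.1)

/-- Two directions at an angle of at least `4π/5`. -/
def far (p q : ℕ) : Prop :=
  p = q + 4 ∨ p = q + 5 ∨ p = q + 6 ∨ q = p + 4 ∨ q = p + 5 ∨ q = p + 6

instance (p q : ℕ) : Decidable (far p q) := by unfold far; infer_instance

end Pool.Agent.MP_0af329_co.JT
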