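import Pool.Agent.MP_0af329_co.JTA4
import Pool.Agent.MP_0af329_co.JTB5

set_option autoImplicit false

namespace Pool.Agent.MP_0af329_co.JT

open Filter Topology

/-- `F` is not continuous at `3π/5`. -/
theorem not_continuousAt_F_fifth : ¬ ContinuousAt F (3 * Real.pi / 5) := by
  intro hc
  have h1 : Tendsto F (𝓝[>] (3 * Real.pi / 5)) (𝓝 (F (3 * Real.pi / 5))) :=
    hc.tendsto.mono_left nhdsWithin_le_nhds
  have h2 : F (3 * Real.pi / 5) ≤ 89 / 1500 := by
    refine le_of_tendsto h1 ?_
    filter_upwards [self_mem_nhdsWithin] with a ha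
    exact F_le_fifth a ha
  have h3 := le_F_fifth
  norm_num at h2 h3
  linarith

end Pool.Agent.MP_0af329_co.JT
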