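import Pool.Agent.MP_0af329_co.JVDefs
import Pool.Agent.MP_0af329_co.JTB2

set_option autoImplicit false

namespace Pool.Agent.MP_0af329_co.JV

open Finset EuclideanGeometry Filter Topology

theorem jvb2_uv_two_pi (t : ℝ) (k : ℕ) : JF.uv (t + k * (2 * Real.pi)) = JF.uv t := by
  unfold JF.uv
  rw [Real.cos_add_nat_mul_two_pi, Real.sin_add_nat_mul_two_pi]

theorem jvb2_uv_mod (n : ℕ) :
    JF.uv (((n % 20 : ℕ) : ℝ) * Real.pi / 10) = JF.uv ((n : ℝ) * Real.pi / 10) := by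
  rw [← jvb2_uv_two_pi _ (n / 20)]
  congr 1
  have h : ((n % 20 : ℕ) : ℝ) + 20 * ((n / 20 : ℕ) : ℝ) = (n : ℝ) := by
    exact_mod_cast Nat.mod_add_div n 20
  rw [← h]
  ring

theorem jvb2_uv_ten (n : ℕ) :
    JF.uv (((n + 10 : ℕ) : ℝ) * Real.pi / 10) = - JF.uv ((n : ℝ) * Real.pi / 10) := by
  rw [← JT.jtb2_uv_pi]
  congr 1
  push_cast
  ring

theorem jvb2_uv_sub (a b : ℝ) : JF.uv b - JF.uv a =
    (2 * Real.sin ((b - a) / 2)) • JF.uv ((a + b) / 2 + Real.pi / 2) := by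
  have h1 : Real.cos b - Real.cos a = -2 * Real.sin ((b + a) / 2) * Real.sin ((b - a) / 2) :=
    Real.cos_sub_cos b a
  have h2 : Real.sin b - Real.sin a = 2 * Real.sin ((b - a) / 2) * Real.cos ((b + a) / 2) :=
    Real.sin_sub_sin b a
  have h3 : (a + b) / 2 = (b + a) / 2 := by ring
  unfold JF.uv
  rw [h3, Real.cos_add_pi_div_two, Real.sin_add_pi_div_two]
  ext i
  fin_cases i
  · show Real.cos b - Real.cos a = (2 * Real.sin ((b - a) / 2)) * -Real.sin ((b + a) / 2)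
    rw [h1]
    ring
  · show Real.sin b - Real.sin a = (2 * Real.sin ((b - a) / 2)) * Real.cos ((b + a) / 2)
    rw [h2]

theorem jvb2_dV {c : Fin 6} (h : c ≠ 5) : dV c = 4 * (c : ℕ) := by
  unfold dV
  rw [if_neg h]

/-- The positive number `2 sin ((b - a) 2 π / 10)`. -/
theorem jvb2_sin {c c' : Fin 6} (h5 : c ≠ 5) (h5' : c' ≠ 5) (h : c < c') :
    0 < 2 * Real.sin (((dV c' : ℝ) * Real.pi / 10 - (dV c : ℝ) * Real.pi / 10) / 2) := by
  have h1 : (c : ℕ) < c' := h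
  have h2 : (c' : ℕ) ≤ 4 := by
    have h3 : (c' : ℕ) ≠ 5 := fun e => h5' (Fin.ext e)
    have := c'.2
    omega
  have hd : (1 : ℝ) ≤ (c' : ℕ) - (c : ℕ) := by
    have : ((c : ℕ) : ℝ) + 1 ≤ (c' : ℕ) := by exact_mod_cast h1
    linarith
  have hd' : ((c' : ℕ) : ℝ) - (c : ℕ) ≤ 4 := by
    have h4 : ((c' : ℕ) : ℝ) ≤ 4 := by exact_mod_cast h2
    have h5 : (0 : ℝ) ≤ (c : ℕ) := Nat.cast_nonneg _
    linarith
  have hs : 0 < Real.sin (((dV c' : ℝ) * Real.pi / 10 - (dV c : ℝ) * Real.pi / 10) / 2) := by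
    rw [jvb2_dV h5, jvb2_dV h5']
    push_cast
    have e : (4 * ((c' : ℕ) : ℝ) * Real.pi / 10 - 4 * ((c : ℕ) : ℝ) * Real.pi / 10) / 2 =
        (((c' : ℕ) : ℝ) - (c : ℕ)) * (Real.pi / 5) := by ring
    rw [e]
    apply Real.sin_pos_of_pos_of_lt_pi
    · have := Real.pi_pos
      positivity
    · have := Real.pi_pos
      nlinarith
  linarith

theorem jvb2_base (c c' : Fin 6) (h : c ≠ c') :
    ∃ (r : ℝ), 0 < r ∧ ∀ L : ℝ, baseV L c' - baseV L c =
      L • (r • JF.uv ((tv c c' : ℝ) * Real.pi / 10)) := by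
  by_cases h5 : c = 5
  · have h5' : c' ≠ 5 := fun e => h (h5.trans e.symm)
    refine ⟨1, one_pos, fun L => ?_⟩
    have e1 : tv c c' = 4 * (c' : ℕ) := by
      unfold tv
      rw [if_pos h5]
    have e2 : baseV L c = 0 := by
      unfold baseV
      rw [if_pos h5]
    have e3 : baseV L c' = L • JF.uv ((dV c' : ℝ) * Real.pi / 10) := by
      unfold baseV
      rw [if_neg h5']
    rw [e1, e2, e3, sub_zero, one_smul, jvb2_dV h5']
  by_cases h5' : c' = 5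
  · refine ⟨1, one_pos, fun L => ?_⟩
    have e1 : tv c c' = (4 * (c : ℕ) + 10) % 20 := by
      unfold tv
      rw [if_neg h5, if_pos h5']
    have e2 : baseV L c' = 0 := by
      unfold baseV
      rw [if_pos h5']
    have e3 : baseV L c = L • JF.uv ((dV c : ℝ) * Real.pi / 10) := by
      unfold baseV
      rw [if_neg h5]
    rw [e1, e2, e3, zero_sub, one_smul, jvb2_uv_mod, jvb2_uv_ten, smul_neg, jvb2_dV h5]
  have e2 : ∀ L : ℝ, baseV L c' = L • JF.uv ((dV c' : ℝ) * Real.pi / 10) := by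
    intro L
    unfold baseV
    rw [if_neg h5']
  have e3 : ∀ L : ℝ, baseV L c = L • JF.uv ((dV c : ℝ) * Real.pi / 10) := by
    intro L
    unfold baseV
    rw [if_neg h5]
  rcases lt_or_gt_of_ne h with hlt | hgt
  · refine ⟨_, jvb2_sin h5 h5' hlt, fun L => ?_⟩
    have e1 : tv c c' = 2 * ((c : ℕ) + c') + 5 := by
      unfold tv
      rw [if_neg h5, if_neg h5', if_pos hlt]
    rw [e1, e2, e3, ← smul_sub, jvb2_uv_sub]
    congr 3
    rw [jvb2_dV h5, jvb2_dV h5']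
    push_cast
    ring
  · refine ⟨_, jvb2_sin h5' h5 hgt, fun L => ?_⟩
    have e1 : tv c c' = (2 * ((c : ℕ) + c') + 15) % 20 := by
      unfold tv
      rw [if_neg h5, if_neg h5', if_neg (not_lt.2 hgt.le)]
    have e4 : (2 * ((c : ℕ) + c') + 15) = (2 * ((c : ℕ) + c') + 5) + 10 := by ring
    rw [e1, e2, e3, jvb2_uv_mod, e4, jvb2_uv_ten, ← smul_sub, ← neg_sub, jvb2_uv_sub]
    simp only [smul_neg]
    congr 4
    rw [jvb2_dV h5, jvb2_dV h5']
    push_cast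
    ring

/-- ROW F21-B2.  Limits of the directions (see `JT.ptT_dir` in JTB2.lean for a very similar proof).
PROOF.  Same cluster: the difference is `(y.2 - x.2) • uv (dV π/10)` (`e = 0`); for `y.2 < x.2` use
`uv (t + π) = - uv t` (`JT.jtb2_uv_pi`) and `uv (t - 2π) = uv t`.  Different clusters (`e = 1`): the difference is
`L • (v c' - v c) + w`, `v c = uv (4 c π/10)` for `c < 5`, `v 5 = 0` (`JT.jtb2_lim1`); for `c < c' < 5`:
`uv β - uv α = (2 sin ((β-α)/2)) • uv ((α+β)/2 + π/2)` and `0 < sin`, i.e. direction `2(c+c')+5`; for `c' < c` use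
the opposite sign (`+10` units modulo `20`); `c' = 5`: `- uv (4cπ/10) = uv ((4c+10)π/10)`; `c = 5`: `uv (4c'π/10)`. -/
theorem ptV_dir {m : ℕ} (x y : Fin 6 × Fin m) (hxy : x ≠ y) :
    ∃ (r : ℝ) (e : ℕ), 0 < r ∧
      Tendsto (fun L : ℝ => (1 / L ^ e) • (ptV L y - ptV L x)) atTop
        (𝓝 (r • JF.uv ((DV x y : ℝ) * Real.pi / 10))) := by
  by_cases hc : x.1 = y.1
  · have hne : x.2 ≠ y.2 := fun h => hxy (Prod.ext hc h)
    have hdiff : ∀ L : ℝ, (1 / L ^ 0) • (ptV L y - ptV L x) =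
        (((y.2 : ℕ) : ℝ) - ((x.2 : ℕ) : ℝ)) • JF.uv ((dV x.1 : ℝ) * Real.pi / 10) := by
      intro L
      unfold ptV
      rw [hc, pow_zero, div_one, one_smul, sub_smul]
      abel
    rcases lt_or_gt_of_ne hne with h | h
    · have h' : ((x.2 : ℕ) : ℝ) < ((y.2 : ℕ) : ℝ) := by exact_mod_cast h
      refine ⟨((y.2 : ℕ) : ℝ) - ((x.2 : ℕ) : ℝ), 0, by linarith, ?_⟩
      have e1 : DV x y = dV x.1 := by
        unfold DV
        rw [if_pos hc, if_pos h]
      rw [e1]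
      exact tendsto_const_nhds.congr fun L => (hdiff L).symm
    · have h' : ((y.2 : ℕ) : ℝ) < ((x.2 : ℕ) : ℝ) := by exact_mod_cast h
      refine ⟨((x.2 : ℕ) : ℝ) - ((y.2 : ℕ) : ℝ), 0, by linarith, ?_⟩
      have e1 : DV x y = (dV x.1 + 10) % 20 := by
        unfold DV
        rw [if_pos hc, if_neg (not_lt.2 h.le)]
      rw [e1, jvb2_uv_mod, jvb2_uv_ten]
      refine tendsto_const_nhds.congr fun L => ?_
      rw [hdiff L, smul_neg, ← neg_smul, neg_sub]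
  · have hD : DV x y = tv x.1 y.1 := by
      unfold DV
      rw [if_neg hc]
    obtain ⟨w, hw⟩ : ∃ w : Pt, w = ((y.2 : ℕ) : ℝ) • JF.uv ((dV y.1 : ℝ) * Real.pi / 10) -
      ((x.2 : ℕ) : ℝ) • JF.uv ((dV x.1 : ℝ) * Real.pi / 10) := ⟨_, rfl⟩
    obtain ⟨r, hr, hb⟩ := jvb2_base x.1 y.1 hc
    refine ⟨r, 1, hr, ?_⟩
    rw [hD]
    refine (JT.jtb2_lim1 _ w).congr fun L => ?_
    congr 1
    rw [← hb L, hw]
    unfold ptV
    abel

end Pool.Agent.MP_0af329_co.JV
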