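import Pool.Agent.MP_0af329_co.JVB2

set_option autoImplicit false

namespace Pool.Agent.MP_0af329_co.JV

open Finset EuclideanGeometry Filter Topology

theorem jvb3_dV : ∀ c : Fin 6, dV c ≤ 16 := by
  decide

theorem jvb3_tv : ∀ c c' : Fin 6, c ≠ c' → tv c c' ≤ 19 := by
  decide

theorem DV_le {m : ℕ} (x y : Fin 6 × Fin m) : DV x y ≤ 19 := by
  unfold DV
  have h2 := jvb3_dV x.1
  split_ifs with h3 h4
  · omega
  · omega
  · exact jvb3_tv _ _ h3

theorem jvb3_uv_twenty (n : ℕ) :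
    JF.uv ((n : ℝ) * Real.pi / 10) = JF.uv (((n : ℝ) - 20) * Real.pi / 10) := by
  have h1 : ((n : ℝ) * Real.pi / 10) = ((n : ℝ) - 20) * Real.pi / 10 + Real.pi + Real.pi := by ring
  rw [h1, JT.jtb2_uv_pi, JT.jtb2_uv_pi, neg_neg]

theorem jvb3_angle (a b : ℝ) (h1 : a - b ≤ 4) (h2 : b - a ≤ 4) :
    InnerProductGeometry.angle (JF.uv (a * Real.pi / 10)) (JF.uv (b * Real.pi / 10)) ≤
      2 * Real.pi / 5 := by
  have hpi := Real.pi_pos
  have h3 : |a * Real.pi / 10 - b * Real.pi / 10| ≤ 2 * Real.pi / 5 := by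
    rw [abs_le]
    constructor <;> nlinarith
  rw [JF.angle_uv _ _ (h3.trans (by linarith))]
  exact h3

/-- ROW F21-B3 (see JTB3.lean, the same with `π/5`).  If `p, q ≤ 19` are not `farV`, the angle between the
directions is at most `2π/5` (`|p - q| ≤ 4` or `|p - q| ≥ 16`). -/
theorem angle_not_farV (p q : ℕ) (hp : p ≤ 19) (hq : q ≤ 19) (h : ¬ farV p q) :
    InnerProductGeometry.angle (JF.uv ((p : ℝ) * Real.pi / 10)) (JF.uv ((q : ℝ) * Real.pi / 10)) ≤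
      2 * Real.pi / 5 := by
  unfold farV at h
  have hp' : (p : ℝ) ≤ 19 := by exact_mod_cast hp
  have hq' : (q : ℝ) ≤ 19 := by exact_mod_cast hq
  have hp0 : (0 : ℝ) ≤ p := Nat.cast_nonneg p
  have hq0 : (0 : ℝ) ≤ q := Nat.cast_nonneg q
  have hcase : q + 16 ≤ p ∨ p + 16 ≤ q ∨ (p ≤ q + 4 ∧ q ≤ p + 4) := by omega
  rcases hcase with h1 | h1 | ⟨h1, h2⟩
  · have h1' : (q : ℝ) + 16 ≤ p := by exact_mod_cast h1
    rw [jvb3_uv_twenty p]
    exact jvb3_angle _ _ (by linarith) (by linarith)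
  · have h1' : (p : ℝ) + 16 ≤ q := by exact_mod_cast h1
    rw [jvb3_uv_twenty q]
    exact jvb3_angle _ _ (by linarith) (by linarith)
  · have h1' : (p : ℝ) ≤ q + 4 := by exact_mod_cast h1
    have h2' : (q : ℝ) ≤ p + 4 := by exact_mod_cast h2
    exact jvb3_angle _ _ (by linarith) (by linarith)

/-- ROW F21-B3.  As `JT.ptT_angle`. -/
theorem ptV_angle {m : ℕ} (a : ℝ) (ha : 2 * Real.pi / 5 < a) (x y z : Fin 6 × Fin m)
    (hxy : x ≠ y) (hzy : z ≠ y) (h : ¬ farV (DV y x) (DV y z)) :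
    ∀ᶠ L : ℝ in atTop, ∠ (ptV L x) (ptV L y) (ptV L z) < a := by
  obtain ⟨r, e, hr, h1⟩ := ptV_dir y x hxy.symm
  obtain ⟨r', e', hr', h1'⟩ := ptV_dir y z hzy.symm
  have hT := JF.angle_lim (smul_ne_zero hr.ne' (JF.uv_ne _)) (smul_ne_zero hr'.ne' (JF.uv_ne _))
    h1 h1'
  rw [InnerProductGeometry.angle_smul_left_of_pos _ _ hr,
    InnerProductGeometry.angle_smul_right_of_pos _ _ hr'] at hT
  have hev := hT.eventually_lt_const
    (lt_of_le_of_lt (angle_not_farV _ _ (DV_le y x) (DV_le y z) h) ha)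
  filter_upwards [hev, eventually_gt_atTop (0 : ℝ)] with L hL1 hL
  rw [InnerProductGeometry.angle_smul_left_of_pos _ _ (by positivity),
    InnerProductGeometry.angle_smul_right_of_pos _ _ (by positivity)] at hL1
  exact hL1

/-- ROW F21-B3.  As `JT.ptT_ne`. -/
theorem ptV_ne {m : ℕ} (x y : Fin 6 × Fin m) (hxy : x ≠ y) :
    ∀ᶠ L : ℝ in atTop, ptV L x ≠ ptV L y := by
  obtain ⟨r, e, hr, h1⟩ := ptV_dir x y hxy
  have h2 := h1.eventually_ne (smul_ne_zero hr.ne' (JF.uv_ne _))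
  filter_upwards [h2] with L hL h3
  rw [h3, sub_self, smul_zero] at hL
  exact hL rfl

end Pool.Agent.MP_0af329_co.JV
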