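import Pool.Agent.MP_0af329_co.JVDefs
import Pool.Agent.MP_0af329_co.Upper

set_option autoImplicit false

namespace Pool.Agent.MP_0af329_co.JV

open Finset

/-- The two directions along the row of a cluster. -/
def rwV (b : Fin 6) (p : Bool) : ℕ := if p = true then dV b else (dV b + 10) % 20

/-- The weight of a triple of clusters: `6 / m ^ 3` times a bound for its number of bad triples. -/
def wV (a b c : Fin 6) : ℕ :=
  if a = b then (if c = b then 2 else 3) else if c = b then 3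
  else if farV (tv b a) (tv b c) then 6 else 0

theorem row_row : ∀ (b : Fin 6) (p q : Bool), farV (rwV b p) (rwV b q) → p ≠ q := by
  decide

theorem row_dir : ∀ (b c : Fin 6) (p : Bool), b ≠ c → farV (rwV b p) (tv b c) →
    p = decide (farV (dV b) (tv b c)) := by
  decide

theorem dir_row : ∀ (b c : Fin 6) (p : Bool), b ≠ c → farV (tv b c) (rwV b p) →
    p = decide (farV (dV b) (tv b c)) := by
  decide

theorem sum_wV : ∑ s : Fin 6 × Fin 6 × Fin 6, wV s.1 s.2.1 s.2.2 = 312 := by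
  decide +kernel

/-- The positions of the bad triples of three clusters. -/
def BV (m : ℕ) (a b c : Fin 6) : Finset (Fin m × Fin m × Fin m) :=
  univ.filter fun t => ((a, t.1) ≠ (b, t.2.1) ∧ (c, t.2.2) ≠ (b, t.2.1) ∧ (a, t.1) ≠ (c, t.2.2)) ∧
    farV (DV (b, t.2.1) (a, t.1)) (DV (b, t.2.1) (c, t.2.2))

theorem DV_row {m : ℕ} (b : Fin 6) (j i : Fin m) :
    DV (b, j) (b, i) = rwV b (decide (j < i)) := by
  unfold DV rwV
  rw [if_pos rfl]
  by_cases h : j < i
  · rw [if_pos h, if_pos (decide_eq_true h)]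
  · rw [if_neg h, decide_eq_false h, if_neg Bool.false_ne_true]

theorem DV_dir {m : ℕ} (b a : Fin 6) (j i : Fin m) (h : b ≠ a) :
    DV (b, j) (a, i) = tv b a := by
  unfold DV
  rw [if_neg h]

/-- Ordered pairs with a given order. -/
def PV (m : ℕ) (p : Bool) : Finset (Fin m × Fin m) :=
  univ.filter fun q => q.1 ≠ q.2 ∧ decide (q.1 < q.2) = p

theorem card_PV (m : ℕ) (p : Bool) : 2 * (PV m p).card ≤ m * m := by
  have h1 : (PV m p).card = (PV m (!p)).card := by
    refine card_bij' (fun q _ => (q.2, q.1)) (fun q _ => (q.2, q.1)) ?_ ?_ ?_ ?_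
    · rintro ⟨x, y⟩ h
      rw [PV, mem_filter] at h ⊢
      obtain ⟨-, h2, h3⟩ := h
      dsimp only at h2 h3 ⊢
      refine ⟨mem_univ _, fun h => h2 h.symm, ?_⟩
      rw [← h3]
      by_cases h4 : x < y
      · rw [decide_eq_true h4, decide_eq_false (not_lt.mpr h4.le)]; rfl
      · rw [decide_eq_false h4, decide_eq_true (lt_of_le_of_ne (not_lt.mp h4) (Ne.symm h2))]; rfl
    · rintro ⟨x, y⟩ h
      rw [PV, mem_filter] at h ⊢
      obtain ⟨-, h2, h3⟩ := h
      dsimp only at h2 h3 ⊢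
      refine ⟨mem_univ _, fun h => h2 h.symm, ?_⟩
      rw [← Bool.not_not p, ← h3]
      by_cases h4 : x < y
      · rw [decide_eq_true h4, decide_eq_false (not_lt.mpr h4.le)]; rfl
      · rw [decide_eq_false h4, decide_eq_true (lt_of_le_of_ne (not_lt.mp h4) (Ne.symm h2))]; rfl
    · rintro ⟨x, y⟩ _
      rfl
    · rintro ⟨x, y⟩ _
      rfl
  have h2 : Disjoint (PV m p) (PV m (!p)) := by
    rw [disjoint_left]
    rintro ⟨x, y⟩ h h'
    rw [PV, mem_filter] at h h'
    have h3 := h.2.2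
    rw [h'.2.2] at h3
    cases p <;> exact absurd h3 (by decide)
  have h3 : (PV m p ∪ PV m (!p)).card ≤ (univ : Finset (Fin m × Fin m)).card :=
    card_le_card (subset_univ _)
  rw [card_union_of_disjoint h2, ← h1, card_univ, Fintype.card_prod, Fintype.card_fin] at h3
  omega

theorem card_BV_same (m : ℕ) (b : Fin 6) : 3 * (BV m b b b).card ≤ m ^ 3 := by
  have h1 : BV m b b b ⊆ (tr3 m).filter fun t => Btw t.1 t.2.1 t.2.2 := by
    rintro ⟨i, j, k⟩ h
    rw [BV, mem_filter] at h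
    obtain ⟨-, ⟨h1, h2, h3⟩, h4⟩ := h
    dsimp only at h1 h2 h3 h4
    rw [DV_row, DV_row] at h4
    have h5 := row_row _ _ _ h4
    have n1 : i ≠ j := fun h => h1 (by rw [h])
    have n2 : k ≠ j := fun h => h2 (by rw [h])
    have n3 : i ≠ k := fun h => h3 (by rw [h])
    rw [mem_filter, tr3, mem_filter]
    refine ⟨⟨mem_univ _, n1, Ne.symm n2, n3⟩, ?_⟩
    unfold Btw
    dsimp only
    by_cases h6 : j < i
    · right
      have h7 : ¬ j < k := fun h => h5 (by rw [decide_eq_true h6, decide_eq_true h])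
      exact ⟨lt_of_le_of_ne (not_lt.mp h7) n2, h6⟩
    · left
      have h7 : j < k := by
        by_contra h
        exact h5 (by rw [decide_eq_false h6, decide_eq_false h])
      exact ⟨lt_of_le_of_ne (not_lt.mp h6) n1, h7⟩
  have h2 := card_le_card h1
  have h3 := three_mul_btw m
  have h4 := card_tr3_le m
  omega

theorem card_BV_left (m : ℕ) (b c : Fin 6) (h : b ≠ c) : 2 * (BV m b b c).card ≤ m ^ 3 := by
  have h1 : (BV m b b c).card ≤
      (PV m (decide (farV (dV b) (tv b c))) ×ˢ (univ : Finset (Fin m))).card := by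
    refine card_le_card_of_injOn (fun t => ((t.2.1, t.1), t.2.2)) ?_ ?_
    · rintro ⟨i, j, k⟩ ht
      rw [mem_coe, BV, mem_filter] at ht
      obtain ⟨-, ⟨h1, h2, h3⟩, h4⟩ := ht
      dsimp only at h1 h2 h3 h4
      rw [DV_row, DV_dir _ _ _ _ h] at h4
      rw [mem_coe, mem_product, PV, mem_filter]
      exact ⟨⟨mem_univ _, fun h => h1 (by rw [show i = j from h.symm]), row_dir _ _ _ h h4⟩,
        mem_univ _⟩
    · rintro ⟨i, j, k⟩ _ ⟨i', j', k'⟩ _ h
      simp only [Prod.mk.injEq] at h ⊢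
      exact ⟨h.1.2, h.1.1, h.2⟩
  rw [card_product, card_univ, Fintype.card_fin] at h1
  have h2 := Nat.mul_le_mul_right m (card_PV m (decide (farV (dV b) (tv b c))))
  have h3 : m * m * m = m ^ 3 := by ring
  have h4 : 2 * (PV m (decide (farV (dV b) (tv b c)))).card * m =
      2 * ((PV m (decide (farV (dV b) (tv b c)))).card * m) := by ring
  rw [h3, h4] at h2
  exact (Nat.mul_le_mul_left 2 h1).trans h2

theorem card_BV_right (m : ℕ) (b a : Fin 6) (h : b ≠ a) : 2 * (BV m a b b).card ≤ m ^ 3 := by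
  have h1 : (BV m a b b).card ≤
      (PV m (decide (farV (dV b) (tv b a))) ×ˢ (univ : Finset (Fin m))).card := by
    refine card_le_card_of_injOn (fun t => ((t.2.1, t.2.2), t.1)) ?_ ?_
    · rintro ⟨i, j, k⟩ ht
      rw [mem_coe, BV, mem_filter] at ht
      obtain ⟨-, ⟨h1, h2, h3⟩, h4⟩ := ht
      dsimp only at h1 h2 h3 h4
      rw [DV_row, DV_dir _ _ _ _ h] at h4
      rw [mem_coe, mem_product, PV, mem_filter]
      exact ⟨⟨mem_univ _, fun h => h2 (by rw [show k = j from h.symm]), dir_row _ _ _ h h4⟩,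
        mem_univ _⟩
    · rintro ⟨i, j, k⟩ _ ⟨i', j', k'⟩ _ h
      simp only [Prod.mk.injEq] at h ⊢
      exact ⟨h.2, h.1.1, h.1.2⟩
  rw [card_product, card_univ, Fintype.card_fin] at h1
  have h2 := Nat.mul_le_mul_right m (card_PV m (decide (farV (dV b) (tv b a))))
  have h3 : m * m * m = m ^ 3 := by ring
  have h4 : 2 * (PV m (decide (farV (dV b) (tv b a)))).card * m =
      2 * ((PV m (decide (farV (dV b) (tv b a)))).card * m) := by ring
  rw [h3, h4] at h2
  exact (Nat.mul_le_mul_left 2 h1).trans h2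

theorem card_BV (m : ℕ) (a b c : Fin 6) : 6 * (BV m a b c).card ≤ wV a b c * m ^ 3 := by
  unfold wV
  by_cases h1 : a = b
  · subst h1
    rw [if_pos rfl]
    by_cases h2 : c = a
    · subst h2
      rw [if_pos rfl]
      have h3 := card_BV_same m c
      omega
    · rw [if_neg h2]
      have h3 := card_BV_left m a c (Ne.symm h2)
      omega
  · rw [if_neg h1]
    by_cases h2 : c = b
    · subst h2
      rw [if_pos rfl]
      have h3 := card_BV_right m c a (Ne.symm h1)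
      omega
    · rw [if_neg h2]
      by_cases h3 : farV (tv b a) (tv b c)
      · rw [if_pos h3]
        have h4 : (BV m a b c).card ≤ m ^ 3 := by
          refine (card_le_card (subset_univ _)).trans (le_of_eq ?_)
          rw [card_univ, Fintype.card_prod, Fintype.card_prod, Fintype.card_fin]
          ring
        omega
      · rw [if_neg h3]
        have h4 : BV m a b c = ∅ := by
          rw [BV, filter_eq_empty_iff]
          rintro ⟨i, j, k⟩ _ ⟨_, h5⟩
          rw [DV_dir _ _ _ _ (Ne.symm h1), DV_dir _ _ _ _ (Ne.symm h2)] at h5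
          exact h3 h5
        rw [h4, card_empty]
        omega

/-- ROW F21-B4.  The number of bad triples (`y` is the vertex of the angle). -/
theorem card_farV_le (m : ℕ) :
    (univ.filter fun t : (Fin 6 × Fin m) × (Fin 6 × Fin m) × (Fin 6 × Fin m) =>
      t.1 ≠ t.2.1 ∧ t.2.2 ≠ t.2.1 ∧ t.1 ≠ t.2.2 ∧ farV (DV t.2.1 t.1) (DV t.2.1 t.2.2)).card ≤
      52 * m ^ 3 := by
  set A := univ.filter fun t : (Fin 6 × Fin m) × (Fin 6 × Fin m) × (Fin 6 × Fin m) =>
      t.1 ≠ t.2.1 ∧ t.2.2 ≠ t.2.1 ∧ t.1 ≠ t.2.2 ∧ farV (DV t.2.1 t.1) (DV t.2.1 t.2.2) with hA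
  have h1 : A.card = ∑ s : Fin 6 × Fin 6 × Fin 6,
      (A.filter fun t => (t.1.1, t.2.1.1, t.2.2.1) = s).card :=
    card_eq_sum_card_fiberwise fun t _ => mem_coe.mpr (mem_univ _)
  have h2 : ∀ s : Fin 6 × Fin 6 × Fin 6,
      (A.filter fun t => (t.1.1, t.2.1.1, t.2.2.1) = s).card ≤ (BV m s.1 s.2.1 s.2.2).card := by
    rintro ⟨a, b, c⟩
    refine card_le_card_of_injOn (fun t => (t.1.2, t.2.1.2, t.2.2.2)) ?_ ?_
    · rintro ⟨⟨a', i⟩, ⟨b', j⟩, ⟨c', k⟩⟩ ht
      rw [mem_coe, mem_filter, hA, mem_filter] at ht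
      obtain ⟨⟨-, h1, h2, h3, h4⟩, h5⟩ := ht
      simp only [Prod.mk.injEq] at h5
      obtain ⟨rfl, rfl, rfl⟩ := h5
      rw [mem_coe, BV, mem_filter]
      exact ⟨mem_univ _, ⟨h1, h2, h3⟩, h4⟩
    · rintro ⟨⟨a', i⟩, ⟨b', j⟩, ⟨c', k⟩⟩ ht ⟨⟨a'', i'⟩, ⟨b'', j'⟩, ⟨c'', k'⟩⟩ ht' h
      rw [mem_coe, mem_filter] at ht ht'
      have h5 := ht.2
      have h6 := ht'.2
      simp only [Prod.mk.injEq] at h5 h6 h ⊢
      obtain ⟨rfl, rfl, rfl⟩ := h5
      obtain ⟨rfl, rfl, rfl⟩ := h6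
      obtain ⟨rfl, rfl, rfl⟩ := h
      exact ⟨⟨rfl, rfl⟩, ⟨rfl, rfl⟩, rfl, rfl⟩
  have h3 : 6 * A.card ≤ ∑ s : Fin 6 × Fin 6 × Fin 6, wV s.1 s.2.1 s.2.2 * m ^ 3 := by
    rw [h1, mul_sum]
    refine sum_le_sum fun s _ => ?_
    exact (Nat.mul_le_mul_left 6 (h2 s)).trans (card_BV m _ _ _)
  rw [← sum_mul, sum_wV] at h3
  omega

end Pool.Agent.MP_0af329_co.JV
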