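import Pool.Agent.MP_0af329_co.JTB1
import Pool.Agent.MP_0af329_co.JVB3
import Pool.Agent.MP_0af329_co.JVB4
import Pool.Agent.MP_0af329_co.Final

set_option autoImplicit false

namespace Pool.Agent.MP_0af329_co.JV

open Finset EuclideanGeometry Filter Topology

/-- `dens_le` (Lim.lean) with `k = 6`, `c = 13/54`. -/
theorem F_le_two_fifth (a : ℝ) (ha : 2 * Real.pi / 5 < a) : F a ≤ 13 / 54 := by
  refine dens_le (Set.Ioi a) (13 / 54) 6 (by norm_num) ?_
  intro m _
  obtain ⟨S, h1, h2, h3⟩ := JT.exists_family (I := Fin 6 × Fin m) (fun L => ptV L) a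
    (fun x y z => farV (DV y x) (DV y z)) (fun i j hij => ptV_ne i j hij)
    (fun i j l hij hlj _ hb => ptV_angle a ha i j l hij hlj hb)
  refine ⟨S, by rw [h1]; simp, h2, ?_⟩
  have h4 := card_farV_le m
  have h5 : cnt S (Set.Ioi a) ≤ 52 * m ^ 3 := by
    refine le_trans h3 (le_trans (le_of_eq ?_) h4)
    refine congrArg Finset.card ?_
    ext t
    simp only [mem_filter]
  have h6 : (cnt S (Set.Ioi a) : ℝ) ≤ 52 * (m : ℝ) ^ 3 := by exact_mod_cast h5
  push_cast
  nlinarith

end Pool.Agent.MP_0af329_co.JV
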