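import Pool.Agent.MP_0af329_co.JC1

/-!
# The jump of `F` at `2π/5`: the construction after `2π/5`

Six clusters of `m` points at the corners and at the centre of a regular pentagon, every cluster in a row.
All directions are multiples of `π/10`.
-/

set_option autoImplicit false

namespace Pool.Agent.MP_0af329_co.JV

open Finset EuclideanGeometry Filter Topology

/-- The direction of the row of a cluster, in units of `π/10`. -/
def dV (c : Fin 6) : ℕ := if c = 5 then 0 else 4 * c

/-- The place of a cluster. -/
noncomputable def baseV (L : ℝ) (c : Fin 6) : Pt :=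
  if c = 5 then 0 else L • JF.uv ((dV c : ℝ) * Real.pi / 10)

/-- The points. -/
noncomputable def ptV {m : ℕ} (L : ℝ) (x : Fin 6 × Fin m) : Pt :=
  ((x.2 : ℕ) : ℝ) • JF.uv ((dV x.1 : ℝ) * Real.pi / 10) + baseV L x.1

/-- The direction from one cluster to another one, in units of `π/10` modulo `20`. -/
def tv (c c' : Fin 6) : ℕ :=
  if c = 5 then 4 * c' else if c' = 5 then (4 * c + 10) % 20
  else if c < c' then 2 * ((c : ℕ) + c') + 5 else (2 * ((c : ℕ) + c') + 15) % 20

/-- The limit direction from `x` to `y`, in units of `π/10` modulo `20`. -/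
def DV {m : ℕ} (x y : Fin 6 × Fin m) : ℕ :=
  if x.1 = y.1 then (if x.2 < y.2 then dV x.1 else (dV x.1 + 10) % 20) else tv x.1 y.1

/-- Two directions at an angle of at least `π/2`. -/
def farV (p q : ℕ) : Prop := (p + 5 ≤ q ∧ q ≤ p + 15) ∨ (q + 5 ≤ p ∧ p ≤ q + 15)

instance (p q : ℕ) : Decidable (farV p q) := by unfold farV; infer_instance

end Pool.Agent.MP_0af329_co.JV
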