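import Pool.Agent.MP_0af329_co.JWDir

set_option autoImplicit false

namespace Pool.Agent.MP_0af329_co.JW

theorem HoldsC.le {v : ℕ → ℝ} {c : ℕ} (h : HoldsC v c) :
    (wt (c / 256) : ℝ) ≤ v (c % 16) - v (c / 16 % 16) := by
  by_cases h0 : c / 256 = 0
  · have := h.1 h0
    simpa [wt, h0] using this
  · exact (h.2 h0).le

/-- Telescoping along a path. -/
theorem cyc_sum {v : ℕ → ℝ} (s : ℕ) : ∀ (l : List ℕ) (cur : ℕ), cyc s cur l = true →
    (∀ c ∈ l, HoldsC v c) →
    ((sumw l : ℝ) ≤ v cur - v s) ∧
      ((l.any fun d => !Nat.beq (d / 256) 0) = true → (sumw l : ℝ) < v cur - v s) := by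
  intro l
  induction l with
  | nil =>
    intro cur hc _
    have e : cur = s := by simpa [cyc] using hc
    subst e
    simp [sumw]
  | cons c l ih =>
    intro cur hc hv
    have hc' : c % 16 = cur ∧ cyc s (c / 16 % 16) l = true := by
      simpa [cyc, Bool.and_eq_true] using hc
    obtain ⟨e, hc2⟩ := hc'
    obtain ⟨i1, i2⟩ := ih (c / 16 % 16) hc2 (fun d hd => hv d (List.mem_cons_of_mem _ hd))
    have hcc : HoldsC v c := hv c List.mem_cons_self
    have hle := hcc.le
    rw [e] at hle
    have hs : ((sumw (c :: l) : ℤ) : ℝ) = (wt (c / 256) : ℝ) + (sumw l : ℝ) := by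
      simp [sumw]
    refine ⟨by rw [hs]; linarith, ?_⟩
    intro ha
    rw [List.any_cons, Bool.or_eq_true] at ha
    rw [hs]
    rcases ha with ha | ha
    · have h0 : c / 256 ≠ 0 := by
        intro h0
        simp [h0] at ha
      have := hcc.2 h0
      rw [e] at this
      linarith
    · have := i2 ha
      linarith

/-- ROW F21-A1.  Soundness.  PROOF.  Induction on the tree.  Leaf: `leafOK` gives a list of codes, all in `F`, so
all hold; along the list the differences `v (c % 16) - v (c / 16 % 16)` telescope (`cyc`) to `0`, every one is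
`≥ wt (c / 256)` (`> ` if `c / 256 ≠ 0`), so `sumw ≤ 0`, and `< 0` if some code has `c / 256 ≠ 0`. -/
theorem chk_false (n : ℕ) (gd : ℕ → ℕ → ℕ → Bool) (v : ℕ → ℝ)
    (hs : ∀ i j k, i < j → j < k → k < n →
      (∀ c ∈ fct (gd i j k) (pr i j) (pr i k) (pr j k), HoldsC v c) ∨
      (∀ c ∈ fct (gd i j k) (pr j k) (pr i k) (pr i j), HoldsC v c))
    (T : Tr) (F : List ℕ) (hF : ∀ c ∈ F, HoldsC v c) (h : chk n gd F T = true) : False := by
  induction T generalizing F with
  | leaf l =>
    simp only [chk, Bool.and_eq_true, List.all_eq_true, List.any_eq_true] at h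
    obtain ⟨hl, hall⟩ := h
    have hv : ∀ c ∈ l, HoldsC v c := by
      intro c hc
      obtain ⟨d, hd, e⟩ := hall c hc
      have e' : c = d := by simpa using e
      rw [e']
      exact hF d hd
    match l, hl, hv with
    | [], hl, _ => simp [leafOK] at hl
    | c :: l, hl, hv =>
      simp only [leafOK, Bool.and_eq_true, Bool.or_eq_true, decide_eq_true_eq] at hl
      obtain ⟨⟨hc, h0⟩, h1⟩ := hl
      obtain ⟨i1, i2⟩ := cyc_sum (v := v) (c % 16) (c :: l) (c % 16) hc hv
      rw [sub_self] at i1 i2
      have h0' : (0 : ℝ) ≤ (sumw (c :: l) : ℝ) := by exact_mod_cast h0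
      rcases h1 with h1 | h1
      · have h1' : (0 : ℝ) < (sumw (c :: l) : ℝ) := by exact_mod_cast h1
        linarith
      · have := i2 h1
        linarith
  | node i j k l r ihl ihr =>
    simp only [chk, Bool.and_eq_true] at h
    obtain ⟨h1, h2, h3, hl, hr⟩ := h
    have h1' : i < j := by simpa [Nat.blt_eq] using h1
    have h2' : j < k := by simpa [Nat.blt_eq] using h2
    have h3' : k < n := by simpa [Nat.blt_eq] using h3
    rcases hs i j k h1' h2' h3' with hh | hh
    · exact ihl _ (fun c hc => by
        rcases List.mem_append.1 hc with hc | hc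
        · exact hh c hc
        · exact hF c hc) hl
    · exact ihr _ (fun c hc => by
        rcases List.mem_append.1 hc with hc | hc
        · exact hh c hc
        · exact hF c hc) hr

end Pool.Agent.MP_0af329_co.JW
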