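import Pool.Agent.MP_0af329_co.JWA1
import Pool.Agent.MP_0af329_co.JTA3a

set_option autoImplicit false

namespace Pool.Agent.MP_0af329_co.JW

open EuclideanGeometry

/-- The triple `x, y, z` has only angles `≤ a`. -/
def Gd (a : ℝ) (x y z : Pt) : Prop := ∠ x y z ≤ a ∧ ∠ y x z ≤ a ∧ ∠ x z y ≤ a

theorem holdsC_cde (v : ℕ → ℝ) (a b k : ℕ) (ha : a < 16) (hb : b < 16) :
    HoldsC v (cde a b k) ↔ (k = 0 → 0 ≤ v a - v b) ∧ (k ≠ 0 → (wt k : ℝ) < v a - v b) := by
  have h : cde a b k = a + (16 * b + 256 * k) := rfl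
  have h1 : cde a b k % 16 = a := by omega
  have h2 : cde a b k / 16 % 16 = b := by omega
  have h3 : cde a b k / 256 = k := by omega
  rw [HoldsC, h1, h2, h3]

/-- the list of the pairs -/
def prs : List (ℕ × ℕ) := [(0, 1), (0, 2), (1, 2), (0, 3), (1, 3), (2, 3), (0, 4), (1, 4), (2, 4), (3, 4),
  (0, 5), (1, 5), (2, 5), (3, 5), (4, 5)]

theorem prs_pr : ∀ j < 6, ∀ i < j, prs.getD (pr i j) (0, 0) = (i, j) ∧ pr i j < 15 := by decide

theorem pr_surj : ∀ n ≤ 6, ∀ a < n * (n - 1) / 2, ∃ j < n, ∃ i < j, pr i j = a := by decide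

/-- ROW F21-A2.  No configuration.  PROOF.  `ψ` from `JT.exists_dirs_lex`; `v (pr i j) = 5 ψ (p i) (p j) / π` for
`i < j < n`, `v 15 = 0` (let `v c = 5 ψ (p (L.getD c (0,0)).1) (p (L.getD c (0,0)).2) / π` with `L` the list of the 15 pairs
`(0,1), (0,2), (1,2), (0,3), …` for `c < 15`; `n ≤ 6`, so `pr i j ≤ 14` by `interval_cases`/`decide`).  `chk_false`:
base inequalities `0 ≤ ψ < π`.  A triple `i < j < k`: the three angles have the sum `π`
(`EuclideanGeometry.angle_add_angle_add_angle_eq_pi`), so by `exists_dirs_lex`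
`|ψ ij - ψ jk| = |ψ ij - ψ ik| + |ψ ik - ψ jk|`, i.e. `ψ ij ≥ ψ ik ≥ ψ jk` or `ψ jk ≥ ψ ik ≥ ψ ij`: the codes of `fct false`.
If the triple is marked, `π - |ψ ij - ψ jk| ≤ a < 2π/5` gives `|v ij - v jk| > 3`, and
`|ψ ij - ψ ik| ≤ a`, `|ψ ik - ψ jk| ≤ a` give differences `< 2`: the codes of `fct true`. -/
theorem dir_false (n : ℕ) (hn : n ≤ 6) (a : ℝ) (ha : a < 2 * Real.pi / 5) (p : ℕ → Pt)
    (hlo : ∀ i j, i < j → j < n → JT.lo (p i) (p j)) (gd : ℕ → ℕ → ℕ → Bool)
    (hg : ∀ i j k, i < j → j < k → k < n → gd i j k = true → Gd a (p i) (p j) (p k))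
    (T : Tr) (h : chk n gd (bsF n) T = true) : False := by
  obtain ⟨ψ, h1, h2⟩ := JT.exists_dirs_lex
  have hpi := Real.pi_pos
  set v : ℕ → ℝ := fun c => if c < 15 then
    5 * ψ (p (prs.getD c (0, 0)).1) (p (prs.getD c (0, 0)).2) / Real.pi else 0 with hv
  have hpr : ∀ i j, i < j → j < n → pr i j < 15 := fun i j hi hj =>
    (prs_pr j (lt_of_lt_of_le hj hn) i hi).2
  have hvp : ∀ i j, i < j → j < n → v (pr i j) = 5 * ψ (p i) (p j) / Real.pi := by
    intro i j hi hj
    obtain ⟨e1, e2⟩ := prs_pr j (lt_of_lt_of_le hj hn) i hi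
    simp only [hv, e1, e2, if_true]
  have hv15 : v 15 = 0 := by simp [hv]
  refine chk_false n gd v ?_ T (bsF n) ?_ h
  · intro i j k hi hj hk
    have a1 := hlo i j hi (hj.trans hk)
    have a2 := hlo j k hj hk
    obtain ⟨b1, b2, b3⟩ := h2 _ _ _ a1 a2
    have hne : p j ≠ p i := by
      intro e
      rw [e] at a1
      rcases a1 with h | ⟨-, h⟩
      · exact lt_irrefl _ h
      · exact lt_irrefl _ h
    have hsum := EuclideanGeometry.angle_add_angle_add_angle_eq_pi (p k) hne
    rw [EuclideanGeometry.angle_comm (p j) (p k) (p i), EuclideanGeometry.angle_comm (p k) (p i) (p j),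
      b1, b2, b3] at hsum
    have v1 := hvp i j hi (hj.trans hk)
    have v2 := hvp i k (hi.trans hj) hk
    have v3 := hvp j k hj hk
    have l1 := hpr i j hi (hj.trans hk)
    have l2 := hpr i k (hi.trans hj) hk
    have l3 := hpr j k hj hk
    set α := ψ (p i) (p j) with hα
    set β := ψ (p i) (p k) with hβ
    set γ := ψ (p j) (p k) with hγ
    have hmono : ∀ s t : ℝ, s ≤ t → 5 * s / Real.pi ≤ 5 * t / Real.pi := by
      intro s t hst
      apply div_le_div_of_nonneg_right _ hpi.le
      linarith
    have hlt2 : ∀ s t : ℝ, |s - t| ≤ a → -2 < 5 * s / Real.pi - 5 * t / Real.pi := by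
      intro s t hst
      rw [← sub_div, lt_div_iff₀ hpi]
      have := neg_abs_le (s - t)
      linarith
    have hlt3 : ∀ s t : ℝ, Real.pi - (s - t) ≤ a → 3 < 5 * s / Real.pi - 5 * t / Real.pi := by
      intro s t hst
      rw [← sub_div, lt_div_iff₀ hpi]
      linarith
    have w1 : ((wt 1 : ℤ) : ℝ) = 3 := by norm_num [wt]
    have w2 : ((wt 2 : ℤ) : ℝ) = -2 := by norm_num [wt]
    rcases le_total γ α with hc | hc
    · left
      have c1 : β ≤ α := by
        rw [abs_of_nonneg (sub_nonneg.2 hc)] at hsum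
        have := neg_abs_le (α - β)
        have := le_abs_self (β - γ)
        linarith
      have c2 : γ ≤ β := by
        rw [abs_of_nonneg (sub_nonneg.2 hc)] at hsum
        have := le_abs_self (α - β)
        have := neg_abs_le (β - γ)
        linarith
      cases hgd : gd i j k with
      | false =>
        intro c hcm
        simp only [fct, cond_false, List.mem_cons, List.not_mem_nil, or_false] at hcm
        rcases hcm with rfl | rfl
        · rw [holdsC_cde _ _ _ _ (by omega) (by omega)]
          refine ⟨fun _ => ?_, fun h => absurd rfl h⟩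
          rw [v1, v2]
          linarith [hmono _ _ c1]
        · rw [holdsC_cde _ _ _ _ (by omega) (by omega)]
          refine ⟨fun _ => ?_, fun h => absurd rfl h⟩
          rw [v2, v3]
          linarith [hmono _ _ c2]
      | true =>
        obtain ⟨g1, g2, g3⟩ := hg i j k hi hj hk hgd
        rw [b1, abs_of_nonneg (sub_nonneg.2 hc)] at g1
        rw [b2] at g2
        rw [b3] at g3
        intro c hcm
        simp only [fct, cond_true, List.mem_cons, List.not_mem_nil, or_false] at hcm
        rcases hcm with rfl | rfl | rfl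
        · rw [holdsC_cde _ _ _ _ (by omega) (by omega)]
          refine ⟨fun h => absurd h (by norm_num), fun _ => ?_⟩
          rw [v1, v3, w1]
          exact hlt3 _ _ g1
        · rw [holdsC_cde _ _ _ _ (by omega) (by omega)]
          refine ⟨fun h => absurd h (by norm_num), fun _ => ?_⟩
          rw [v1, v2, w2]
          exact hlt2 _ _ (by rw [abs_sub_comm]; exact g2)
        · rw [holdsC_cde _ _ _ _ (by omega) (by omega)]
          refine ⟨fun h => absurd h (by norm_num), fun _ => ?_⟩
          rw [v2, v3, w2]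
          exact hlt2 _ _ (by rw [abs_sub_comm]; exact g3)
    · right
      have hc' : |α - γ| = γ - α := by rw [abs_sub_comm, abs_of_nonneg (sub_nonneg.2 hc)]
      have c1 : α ≤ β := by
        rw [hc'] at hsum
        have := le_abs_self (α - β)
        have := neg_abs_le (β - γ)
        linarith
      have c2 : β ≤ γ := by
        rw [hc'] at hsum
        have := neg_abs_le (α - β)
        have := le_abs_self (β - γ)
        linarith
      cases hgd : gd i j k with
      | false =>
        intro c hcm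
        simp only [fct, cond_false, List.mem_cons, List.not_mem_nil, or_false] at hcm
        rcases hcm with rfl | rfl
        · rw [holdsC_cde _ _ _ _ (by omega) (by omega)]
          refine ⟨fun _ => ?_, fun h => absurd rfl h⟩
          rw [v3, v2]
          linarith [hmono _ _ c2]
        · rw [holdsC_cde _ _ _ _ (by omega) (by omega)]
          refine ⟨fun _ => ?_, fun h => absurd rfl h⟩
          rw [v2, v1]
          linarith [hmono _ _ c1]
      | true =>
        obtain ⟨g1, g2, g3⟩ := hg i j k hi hj hk hgd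
        rw [b1, hc'] at g1
        rw [b2] at g2
        rw [b3] at g3
        intro c hcm
        simp only [fct, cond_true, List.mem_cons, List.not_mem_nil, or_false] at hcm
        rcases hcm with rfl | rfl | rfl
        · rw [holdsC_cde _ _ _ _ (by omega) (by omega)]
          refine ⟨fun h => absurd h (by norm_num), fun _ => ?_⟩
          rw [v1, v3, w1]
          exact hlt3 _ _ g1
        · rw [holdsC_cde _ _ _ _ (by omega) (by omega)]
          refine ⟨fun h => absurd h (by norm_num), fun _ => ?_⟩
          rw [v2, v3, w2]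
          exact hlt2 _ _ g3
        · rw [holdsC_cde _ _ _ _ (by omega) (by omega)]
          refine ⟨fun h => absurd h (by norm_num), fun _ => ?_⟩
          rw [v1, v2, w2]
          exact hlt2 _ _ g2
  · intro c hc
    simp only [bsF, List.mem_flatMap, List.mem_range, List.mem_cons, List.not_mem_nil,
      or_false] at hc
    obtain ⟨b, hb, hcb⟩ := hc
    obtain ⟨j, hj, i, hi, rfl⟩ := pr_surj n hn b hb
    have l1 := hpr i j hi hj
    obtain ⟨d1, d2⟩ := h1 _ _ (hlo i j hi hj)
    have v1 := hvp i j hi hj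
    have w3 : ((wt 3 : ℤ) : ℝ) = -5 := by norm_num [wt]
    rcases hcb with rfl | rfl
    · rw [holdsC_cde _ _ _ _ (by omega) (by omega)]
      refine ⟨fun _ => ?_, fun h => absurd rfl h⟩
      rw [v1, hv15, sub_zero]
      positivity
    · rw [holdsC_cde _ _ _ _ (by omega) (by omega)]
      refine ⟨fun h => absurd h (by norm_num), fun _ => ?_⟩
      rw [v1, hv15, w3, zero_sub, neg_lt_neg_iff, div_lt_iff₀ hpi]
      linarith

end Pool.Agent.MP_0af329_co.JW
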