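import Pool.Agent.MP_0af329_co.JWCert

/-!
# The copies of the pattern with nine triples: enumeration
-/

set_option autoImplicit false

namespace Pool.Agent.MP_0af329_co.JW

/-- The mask of the image of the pattern. -/
def mk9 (p q r s t u : ℕ) : ℕ :=
  Nat.add (Nat.shiftLeft 1 (ixs p q s)) (Nat.add (Nat.shiftLeft 1 (ixs p q t))
  (Nat.add (Nat.shiftLeft 1 (ixs q r t)) (Nat.add (Nat.shiftLeft 1 (ixs q r u))
  (Nat.add (Nat.shiftLeft 1 (ixs p r u)) (Nat.add (Nat.shiftLeft 1 (ixs p r s))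
  (Nat.add (Nat.shiftLeft 1 (ixs p t u)) (Nat.add (Nat.shiftLeft 1 (ixs q s u))
  (Nat.shiftLeft 1 (ixs r s t)))))))))

/-- The same triple. -/
def same (a b c i j k : ℕ) : Bool :=
  (Nat.beq a i && (Nat.beq b j && Nat.beq c k)) || ((Nat.beq a i && (Nat.beq c j && Nat.beq b k)) ||
  ((Nat.beq b i && (Nat.beq a j && Nat.beq c k)) || ((Nat.beq b i && (Nat.beq c j && Nat.beq a k)) ||
  ((Nat.beq c i && (Nat.beq a j && Nat.beq b k)) || (Nat.beq c i && (Nat.beq b j && Nat.beq a k))))))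

/-- The triple `i, j, k` is in the image of the pattern. -/
def hit (p q r s t u i j k : ℕ) : Bool :=
  same p q s i j k || (same p q t i j k || (same q r t i j k || (same q r u i j k ||
  (same p r u i j k || (same p r s i j k || (same p t u i j k || (same q s u i j k ||
  same r s t i j k)))))))

def trips : List (ℕ × ℕ × ℕ) := [(0,1,2), (0,1,3), (0,2,3), (1,2,3), (0,1,4), (0,2,4), (1,2,4), (0,3,4),
  (1,3,4), (2,3,4), (0,1,5), (0,2,5), (1,2,5), (0,3,5), (1,3,5), (2,3,5), (0,4,5), (1,4,5), (2,4,5),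
  (3,4,5)]

def okq (p q r s t u : ℕ) : Bool :=
  (HM.any fun M => Nat.beq M (mk9 p q r s t u)) &&
    trips.all fun x => !gdm (mk9 p q r s t u) x.1 x.2.1 x.2.2 || hit p q r s t u x.1 x.2.1 x.2.2

def all6 (f : ℕ → Bool) : Bool := f 0 && (f 1 && (f 2 && (f 3 && (f 4 && f 5))))

def ne2 (a b : ℕ) (X : Bool) : Bool := bif Nat.beq a b then true else X

def allq : Bool :=
  all6 fun p => all6 fun q => ne2 q p (all6 fun r => ne2 r p (ne2 r q (all6 fun s =>
    ne2 s p (ne2 s q (ne2 s r (all6 fun t => ne2 t p (ne2 t q (ne2 t r (ne2 t s (all6 fun u =>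
      ne2 u p (ne2 u q (ne2 u r (ne2 u s (ne2 u t (okq p q r s t u)))))))))))))))

theorem allq_true : allq = true := by decide +kernel

theorem all6_ok {f : ℕ → Bool} (h : all6 f = true) (i : ℕ) (hi : i < 6) : f i = true := by
  unfold all6 at h
  simp only [Bool.and_eq_true] at h
  obtain ⟨h0, h1, h2, h3, h4, h5⟩ := h
  interval_cases i <;> assumption

theorem ne2_ok {a b : ℕ} {X : Bool} (h : ne2 a b X = true) (hab : a ≠ b) : X = true := by
  have e : Nat.beq a b = false := Bool.eq_false_iff.2 fun h => hab (Nat.eq_of_beq_eq_true h)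
  rw [ne2, e] at h
  exact h

theorem okq_ok (p q r s t u : ℕ) (hp : p < 6) (hq : q < 6) (hr : r < 6) (hs : s < 6) (ht : t < 6)
    (hu : u < 6) (qp : q ≠ p) (rp : r ≠ p) (rq : r ≠ q) (sp : s ≠ p) (sq : s ≠ q) (sr : s ≠ r)
    (tp : t ≠ p) (tq : t ≠ q) (tr : t ≠ r) (ts : t ≠ s) (up : u ≠ p) (uq : u ≠ q) (ur : u ≠ r)
    (us : u ≠ s) (ut : u ≠ t) : okq p q r s t u = true := by
  have h := allq_true
  unfold allq at h
  have h1 := all6_ok (all6_ok h p hp) q hq
  have h2 := all6_ok (ne2_ok h1 qp) r hr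
  have h3 := all6_ok (ne2_ok (ne2_ok h2 rp) rq) s hs
  have h4 := all6_ok (ne2_ok (ne2_ok (ne2_ok h3 sp) sq) sr) t ht
  have h5 := all6_ok (ne2_ok (ne2_ok (ne2_ok (ne2_ok h4 tp) tq) tr) ts) u hu
  exact ne2_ok (ne2_ok (ne2_ok (ne2_ok (ne2_ok h5 up) uq) ur) us) ut

end Pool.Agent.MP_0af329_co.JW
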