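import Pool.Agent.MP_0af329_co.JWA2
import Pool.Agent.MP_0af329_co.JWA3a

/-!
# Forbidden patterns of good triples below `2π/5`
-/

set_option autoImplicit false

namespace Pool.Agent.MP_0af329_co.JW

open EuclideanGeometry

theorem Gd12 {a : ℝ} {x y z : Pt} (h : Gd a x y z) : Gd a y x z := by
  obtain ⟨h1, h2, h3⟩ := h
  exact ⟨h2, h1, by rwa [EuclideanGeometry.angle_comm]⟩

theorem Gd23 {a : ℝ} {x y z : Pt} (h : Gd a x y z) : Gd a x z y := by
  obtain ⟨h1, h2, h3⟩ := h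
  exact ⟨h3, by rwa [EuclideanGeometry.angle_comm], h1⟩

theorem Gd_same {a : ℝ} {p : ℕ → Pt} {x y z i j k : ℕ} (h : same x y z i j k = true)
    (hG : Gd a (p x) (p y) (p z)) : Gd a (p i) (p j) (p k) := by
  unfold same at h
  simp only [Bool.or_eq_true, Bool.and_eq_true, Nat.beq_eq] at h
  rcases h with ⟨rfl, rfl, rfl⟩ | ⟨rfl, rfl, rfl⟩ | ⟨rfl, rfl, rfl⟩ | ⟨rfl, rfl, rfl⟩ |
    ⟨rfl, rfl, rfl⟩ | ⟨rfl, rfl, rfl⟩
  · exact hG
  · exact Gd23 hG
  · exact Gd12 hG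
  · exact Gd23 (Gd12 hG)
  · exact Gd12 (Gd23 hG)
  · exact Gd12 (Gd23 (Gd12 hG))

/-- Sorting by height. -/
theorem exists_sort_n {n : ℕ} (t : Fin n → Pt) (ht : Function.Injective t) :
    ∃ σ : Equiv.Perm (Fin n), ∀ i j, i < j → JT.lo (t (σ i)) (t (σ j)) := by
  classical
  let f : Fin n → Lex (ℝ × ℝ) := fun i => toLex (t i 1, t i 0)
  refine ⟨Tuple.sort f, fun i j hij => ?_⟩
  have hmono : f (Tuple.sort f i) ≤ f (Tuple.sort f j) := Tuple.monotone_sort f hij.le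
  have hne : Tuple.sort f i ≠ Tuple.sort f j := fun h => hij.ne ((Tuple.sort f).injective h)
  generalize Tuple.sort f i = u at hmono hne ⊢
  generalize Tuple.sort f j = v at hmono hne ⊢
  have hfne : f u ≠ f v := by
    intro h
    apply hne
    apply ht
    have h1 : ((t u 1, t u 0) : ℝ × ℝ) = (t v 1, t v 0) := toLex.injective h
    have h2 : t u 1 = t v 1 := (Prod.mk.inj h1).1
    have h3 : t u 0 = t v 0 := (Prod.mk.inj h1).2
    ext k
    fin_cases k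
    · exact h3
    · exact h2
  have hlt : f u < f v := lt_of_le_of_ne hmono hfne
  have := (Prod.Lex.toLex_lt_toLex).1 hlt
  rcases this with h | ⟨h1, h2⟩
  · exact Or.inl h
  · exact Or.inr ⟨h1, h2⟩

theorem trips_mem (i j k : ℕ) (hij : i < j) (hjk : j < k) (hk : k < 6) : (i, j, k) ∈ trips := by
  interval_cases k <;> interval_cases j <;> interval_cases i <;> decide

theorem ex_KC {m : ℕ} (h : m ∈ [14, 13, 11, 7]) : ∃ T : Tr, chk 4 (gdm m) (bsF 4) T = true := by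
  rw [← KC_map, List.mem_map] at h
  obtain ⟨c, hc, rfl⟩ := h
  exact ⟨c.2, List.all_eq_true.1 KC_ok c hc⟩

theorem ex_HC {m : ℕ} (h : m ∈ HM) : ∃ T : Tr, chk 6 (gdm m) (bsF 6) T = true := by
  rw [← HC_map, List.mem_map] at h
  obtain ⟨c, hc, rfl⟩ := h
  exact ⟨c.2, List.all_eq_true.1 HC_ok c hc⟩

/-- The pattern with nine triples does not occur. -/
theorem six_points (a : ℝ) (ha : a < 2 * Real.pi / 5) (t : Fin 6 → Pt)
    (ht : Function.Injective t) (h0 : Gd a (t 0) (t 1) (t 3)) (h1 : Gd a (t 0) (t 1) (t 4))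
    (h2 : Gd a (t 1) (t 2) (t 4)) (h3 : Gd a (t 1) (t 2) (t 5)) (h4 : Gd a (t 0) (t 2) (t 5))
    (h5 : Gd a (t 0) (t 2) (t 3)) (h6 : Gd a (t 0) (t 4) (t 5)) (h7 : Gd a (t 1) (t 3) (t 5))
    (h8 : Gd a (t 2) (t 3) (t 4)) : False := by
  obtain ⟨σ, hσ⟩ := exists_sort_n t ht
  set p : ℕ → Pt := fun i => if h : i < 6 then t (σ ⟨i, h⟩) else t 0 with hp
  have hpt : ∀ i : Fin 6, t i = p (σ.symm i : ℕ) := by
    intro i
    rw [hp]
    simp only [Fin.is_lt, dif_pos, Fin.eta, Equiv.apply_symm_apply]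
  have hne : ∀ i j : Fin 6, i ≠ j → ((σ.symm i : ℕ) ≠ (σ.symm j : ℕ)) := fun i j h h' =>
    h (σ.symm.injective (Fin.ext h'))
  have hok := okq_ok (σ.symm 0) (σ.symm 1) (σ.symm 2) (σ.symm 3) (σ.symm 4) (σ.symm 5)
    (Fin.is_lt _) (Fin.is_lt _) (Fin.is_lt _) (Fin.is_lt _) (Fin.is_lt _) (Fin.is_lt _)
    (hne _ _ (by decide)) (hne _ _ (by decide)) (hne _ _ (by decide)) (hne _ _ (by decide))
    (hne _ _ (by decide)) (hne _ _ (by decide)) (hne _ _ (by decide)) (hne _ _ (by decide))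
    (hne _ _ (by decide)) (hne _ _ (by decide)) (hne _ _ (by decide)) (hne _ _ (by decide))
    (hne _ _ (by decide)) (hne _ _ (by decide)) (hne _ _ (by decide))
  rw [okq, Bool.and_eq_true] at hok
  obtain ⟨hM, htr⟩ := hok
  rw [List.any_eq_true] at hM
  obtain ⟨M, hM, hMe⟩ := hM
  rw [← Nat.eq_of_beq_eq_true hMe] at htr
  obtain ⟨T, hT⟩ := ex_HC hM
  rw [hpt 0, hpt 1, hpt 3] at h0
  rw [hpt 0, hpt 1, hpt 4] at h1
  rw [hpt 1, hpt 2, hpt 4] at h2
  rw [hpt 1, hpt 2, hpt 5] at h3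
  rw [hpt 0, hpt 2, hpt 5] at h4
  rw [hpt 0, hpt 2, hpt 3] at h5
  rw [hpt 0, hpt 4, hpt 5] at h6
  rw [hpt 1, hpt 3, hpt 5] at h7
  rw [hpt 2, hpt 3, hpt 4] at h8
  refine dir_false 6 le_rfl a ha p ?_ (gdm M) ?_ T hT
  · intro i j hij hj
    have hi : i < 6 := hij.trans hj
    rw [hp]
    simp only [hi, hj, dif_pos]
    exact hσ ⟨i, hi⟩ ⟨j, hj⟩ hij
  · intro i j k hij hjk hk hg
    have hmem : (i, j, k) ∈ trips := by
      have hj : j < 6 := hjk.trans hk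
      have hi : i < 6 := hij.trans hj
      exact trips_mem i j k hij hjk hk
    have h := List.all_eq_true.1 htr _ hmem
    simp only [hg, Bool.not_true, Bool.false_or] at h
    unfold hit at h
    simp only [Bool.or_eq_true] at h
    rcases h with h | h | h | h | h | h | h | h | h
    · exact Gd_same h h0
    · exact Gd_same h h1
    · exact Gd_same h h2
    · exact Gd_same h h3
    · exact Gd_same h h4
    · exact Gd_same h h5
    · exact Gd_same h h6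
    · exact Gd_same h h7
    · exact Gd_same h h8

/-- Three of the four triples of four sorted points. -/
theorem four_sorted (a : ℝ) (ha : a < 2 * Real.pi / 5) (p : ℕ → Pt)
    (hlo : ∀ i j, i < j → j < 4 → JT.lo (p i) (p j)) (m : ℕ) (hm : m ∈ [14, 13, 11, 7])
    (hg : ∀ i j k, i < j → j < k → k < 4 → gdm m i j k = true → Gd a (p i) (p j) (p k)) : False := by
  obtain ⟨T, hT⟩ := ex_KC hm
  exact dir_false 4 (by norm_num) a ha p hlo (gdm m) hg T hT

theorem mask4 : ∀ i : Fin 4, ∃ m ∈ [14, 13, 11, 7], ∀ x < 4, ∀ y < 4, ∀ z < 4, x < y → y < z →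
    gdm m x y z = true → ((i : ℕ) = x ∨ (i : ℕ) = y ∨ (i : ℕ) = z) := by
  have key : ∀ m i : ℕ, ((List.range 4).all fun x => (List.range 4).all fun y =>
      (List.range 4).all fun z => !Nat.blt x y || !Nat.blt y z || !gdm m x y z ||
        Nat.beq i x || Nat.beq i y || Nat.beq i z) = true →
      ∀ x < 4, ∀ y < 4, ∀ z < 4, x < y → y < z → gdm m x y z = true →
        (i = x ∨ i = y ∨ i = z) := by
    intro m i h x hx y hy z hz hxy hyz hg
    have h1 := List.all_eq_true.1 (List.all_eq_true.1 (List.all_eq_true.1 h x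
      (List.mem_range.2 hx)) y (List.mem_range.2 hy)) z (List.mem_range.2 hz)
    have e1 : Nat.blt x y = true := by simpa only [Nat.blt_eq] using hxy
    have e2 : Nat.blt y z = true := by simpa only [Nat.blt_eq] using hyz
    simp only [e1, e2, hg, Bool.not_true, Bool.false_or, Bool.or_eq_true, Nat.beq_eq] at h1
    tauto
  intro i
  fin_cases i
  · exact ⟨7, by decide, key 7 0 (by decide +kernel)⟩
  · exact ⟨11, by decide, key 11 1 (by decide +kernel)⟩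
  · exact ⟨13, by decide, key 13 2 (by decide +kernel)⟩
  · exact ⟨14, by decide, key 14 3 (by decide +kernel)⟩

open Classical in
theorem sum_le_two (P0 P1 P2 P3 : Prop) (a0 : ¬ (P1 ∧ P2 ∧ P3)) (a1 : ¬ (P0 ∧ P2 ∧ P3))
    (a2 : ¬ (P0 ∧ P1 ∧ P3)) (a3 : ¬ (P0 ∧ P1 ∧ P2)) :
    (decide P3).toNat + (decide P2).toNat + (decide P1).toNat + (decide P0).toNat ≤ 2 := by
  by_cases g0 : P0 <;> by_cases g1 : P1 <;> by_cases g2 : P2 <;> by_cases g3 : P3 <;>
    simp_all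

open Classical in
/-- Among the four triples of four points at most two are good. -/
theorem four_points (a : ℝ) (ha : a < 2 * Real.pi / 5) (t : Fin 4 → Pt)
    (ht : Function.Injective t) :
    (decide (Gd a (t 0) (t 1) (t 2))).toNat + (decide (Gd a (t 0) (t 1) (t 3))).toNat +
      (decide (Gd a (t 0) (t 2) (t 3))).toNat + (decide (Gd a (t 1) (t 2) (t 3))).toNat ≤ 2 := by
  obtain ⟨σ, hσ⟩ := exists_sort_n t ht
  -- the triple without the point `i`
  set Q : (Fin 4 → Pt) → Fin 4 → Prop := fun s i =>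
    ∀ j k l : Fin 4, j ≠ i → k ≠ i → l ≠ i → j ≠ k → k ≠ l → j ≠ l → Gd a (s j) (s k) (s l) with hQ
  have key : ∀ (s : Fin 4 → Pt) (i j k l : Fin 4), j ≠ i → k ≠ i → l ≠ i → j ≠ k → k ≠ l → j ≠ l →
      Gd a (s j) (s k) (s l) → Q s i := by
    intro s i j k l h1 h2 h3 h4 h5 h6 hG j' k' l' g1 g2 g3 g4 g5 g6
    have hc : (j' = j ∧ k' = k ∧ l' = l) ∨ (j' = j ∧ k' = l ∧ l' = k) ∨ (j' = k ∧ k' = j ∧ l' = l) ∨
        (j' = k ∧ k' = l ∧ l' = j) ∨ (j' = l ∧ k' = j ∧ l' = k) ∨ (j' = l ∧ k' = k ∧ l' = j) := by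
      clear hG
      revert i j k l j' k' l'
      decide
    rcases hc with ⟨rfl, rfl, rfl⟩ | ⟨rfl, rfl, rfl⟩ | ⟨rfl, rfl, rfl⟩ | ⟨rfl, rfl, rfl⟩ |
      ⟨rfl, rfl, rfl⟩ | ⟨rfl, rfl, rfl⟩
    · exact hG
    · exact Gd23 hG
    · exact Gd12 hG
    · exact Gd23 (Gd12 hG)
    · exact Gd12 (Gd23 hG)
    · exact Gd12 (Gd23 (Gd12 hG))
  have hperm : ∀ i, Q t (σ i) → Q (t ∘ σ) i := by
    intro i h j k l h1 h2 h3 h4 h5 h6
    exact h (σ j) (σ k) (σ l) (fun h => h1 (σ.injective h)) (fun h => h2 (σ.injective h))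
      (fun h => h3 (σ.injective h)) (fun h => h4 (σ.injective h)) (fun h => h5 (σ.injective h))
      (fun h => h6 (σ.injective h))
  -- not three in the sorted set
  have hno : ∀ i : Fin 4, ¬ (∀ j, j ≠ i → Q (t ∘ σ) j) := by
    intro i h
    set p : ℕ → Pt := fun i => if h : i < 4 then t (σ ⟨i, h⟩) else t 0 with hp
    have hlo : ∀ i j, i < j → j < 4 → JT.lo (p i) (p j) := by
      intro i j hij hj
      have hi : i < 4 := hij.trans hj
      rw [hp]
      simp only [hi, hj, dif_pos]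
      exact hσ ⟨i, hi⟩ ⟨j, hj⟩ hij
    have hq : ∀ j : Fin 4, j ≠ i → ∀ x y z, (hx : x < 4) → (hy : y < 4) → (hz : z < 4) →
        (⟨x, hx⟩ : Fin 4) ≠ j → (⟨y, hy⟩ : Fin 4) ≠ j → (⟨z, hz⟩ : Fin 4) ≠ j → x ≠ y → y ≠ z →
        x ≠ z → Gd a (p x) (p y) (p z) := by
      intro j hj x y z hx hy hz h1 h2 h3 h4 h5 h6
      have := h j hj ⟨x, hx⟩ ⟨y, hy⟩ ⟨z, hz⟩ h1 h2 h3 (fun h => h4 (congrArg Fin.val h))
        (fun h => h5 (congrArg Fin.val h)) (fun h => h6 (congrArg Fin.val h))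
      rw [hp]
      simp only [hx, hy, hz, dif_pos]
      exact this
    -- mask of the triples which contain `i`
    obtain ⟨m, hm, hmm⟩ := mask4 i
    refine four_sorted a ha p hlo m hm ?_
    intro x y z hxy hyz hz hg
    have hy : y < 4 := hyz.trans hz
    have hx : x < 4 := hxy.trans hy
    have hi := hmm x hx y hy z hz hxy hyz hg
    -- the fourth point
    obtain ⟨j, hj⟩ : ∃ j : Fin 4, j ≠ ⟨x, hx⟩ ∧ j ≠ ⟨y, hy⟩ ∧ j ≠ ⟨z, hz⟩ := by
      have : ∀ x y z : Fin 4, ∃ j : Fin 4, j ≠ x ∧ j ≠ y ∧ j ≠ z := by decide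
      exact this _ _ _
    have hji : j ≠ i := by
      rintro rfl
      rcases hi with h | h | h
      · exact hj.1 (Fin.ext h)
      · exact hj.2.1 (Fin.ext h)
      · exact hj.2.2 (Fin.ext h)
    exact hq j hji x y z hx hy hz hj.1.symm hj.2.1.symm hj.2.2.symm hxy.ne hyz.ne (hxy.trans hyz).ne
  have hno' : ∀ i : Fin 4, ¬ (∀ j, j ≠ i → Q t j) := by
    intro i h
    refine hno (σ.symm i) fun j hj => hperm j (h (σ j) fun hji => hj ?_)
    rw [← hji, Equiv.symm_apply_apply]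
  have q3 : Gd a (t 0) (t 1) (t 2) → Q t 3 :=
    key t 3 0 1 2 (by decide) (by decide) (by decide) (by decide) (by decide) (by decide)
  have q2 : Gd a (t 0) (t 1) (t 3) → Q t 2 :=
    key t 2 0 1 3 (by decide) (by decide) (by decide) (by decide) (by decide) (by decide)
  have q1 : Gd a (t 0) (t 2) (t 3) → Q t 1 :=
    key t 1 0 2 3 (by decide) (by decide) (by decide) (by decide) (by decide) (by decide)
  have q0 : Gd a (t 1) (t 2) (t 3) → Q t 0 :=
    key t 0 1 2 3 (by decide) (by decide) (by decide) (by decide) (by decide) (by decide)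
  have hall : ∀ P : Fin 4 → Prop, (∀ i, ¬ (∀ j, j ≠ i → P j)) →
      ¬ (P 1 ∧ P 2 ∧ P 3) ∧ ¬ (P 0 ∧ P 2 ∧ P 3) ∧ ¬ (P 0 ∧ P 1 ∧ P 3) ∧ ¬ (P 0 ∧ P 1 ∧ P 2) := by
    intro P hP
    refine ⟨fun h => hP 0 ?_, fun h => hP 1 ?_, fun h => hP 2 ?_, fun h => hP 3 ?_⟩ <;>
    · intro j hj
      fin_cases j
      all_goals first | exact absurd rfl hj | exact h.1 | exact h.2.1 | exact h.2.2
  obtain ⟨a0, a1, a2, a3⟩ := hall (Q t) hno'
  exact sum_le_two _ _ _ _ (fun h => a0 ⟨q1 h.1, q2 h.2.1, q3 h.2.2⟩)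
    (fun h => a1 ⟨q0 h.1, q2 h.2.1, q3 h.2.2⟩) (fun h => a2 ⟨q0 h.1, q1 h.2.1, q3 h.2.2⟩)
    (fun h => a3 ⟨q0 h.1, q1 h.2.1, q2 h.2.2⟩)

end Pool.Agent.MP_0af329_co.JW
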