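import Mathlib

/-!
# The jump of `F` at `2π/5`: certificates for systems of inequalities between directions

The unknowns are `v 0, …, v 14` (the directions of the pairs `i < j` of six points in units of `π/5`, the pair
`i < j` has the number `j (j - 1) / 2 + i`) and `v 15` (`= 0`).  The code `a + 16 b + 256 k` stands for
`v a - v b ≥ 0` (`k = 0`), `v a - v b > 3` (`k = 1`), `v a - v b > -2` (`k = 2`), `v a - v b > -5` (`k = 3`).
-/

set_option autoImplicit false

namespace Pool.Agent.MP_0af329_co.JW

/-- The number of the pair `i < j`. -/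
def pr (i j : ℕ) : ℕ := Nat.add (Nat.div (Nat.mul j (Nat.sub j 1)) 2) i

/-- The right hand side. -/
def wt (k : ℕ) : ℤ := if k = 0 then 0 else if k = 1 then 3 else if k = 2 then -2 else -5

/-- The inequality with a given code. -/
def HoldsC (v : ℕ → ℝ) (c : ℕ) : Prop :=
  (c / 256 = 0 → 0 ≤ v (c % 16) - v (c / 16 % 16)) ∧
  (c / 256 ≠ 0 → (wt (c / 256) : ℝ) < v (c % 16) - v (c / 16 % 16))

/-- The code. -/
def cde (a b k : ℕ) : ℕ := Nat.add a (Nat.add (Nat.mul 16 b) (Nat.mul 256 k))

/-- What a triple `i < j < k` gives if the direction `hi` is at least the direction `lo`, `{hi, lo} = {ij, jk}`. -/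
def fct (gd : Bool) (hi mid lo : ℕ) : List ℕ :=
  bif gd then [cde hi lo 1, cde mid hi 2, cde lo mid 2] else [cde hi mid 0, cde mid lo 0]

/-- A tree of cases: the leaves are cycles of inequalities, a node is a case distinction for the triple
`i < j < k`: `v (ij) ≥ v (jk)` or `v (jk) ≥ v (ij)`. -/
inductive Tr where
  | leaf (l : List ℕ) : Tr
  | node (i j k : ℕ) (l r : Tr) : Tr

/-- The inequalities form a path from `cur` to `s`. -/
def cyc (s : ℕ) : ℕ → List ℕ → Bool
  | cur, [] => Nat.beq cur s
  | cur, c :: l => Nat.beq (c % 16) cur && cyc s (c / 16 % 16) l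

def sumw : List ℕ → ℤ
  | [] => 0
  | c :: l => wt (c / 256) + sumw l

/-- A contradictory cycle. -/
def leafOK : List ℕ → Bool
  | [] => false
  | c :: l => cyc (c % 16) (c % 16) (c :: l) && decide (0 ≤ sumw (c :: l)) &&
      (decide (0 < sumw (c :: l)) || (c :: l).any fun d => !Nat.beq (d / 256) 0)

/-- The inequalities `0 ≤ v a < 5`, `a < n (n-1) / 2`. -/
def bsF (n : ℕ) : List ℕ := (List.range (n * (n - 1) / 2)).flatMap fun a => [cde a 15 0, cde 15 a 3]

/-- The check of a tree, `gd` are the marked triples, `F` the inequalities known so far. -/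
def chk (n : ℕ) (gd : ℕ → ℕ → ℕ → Bool) : List ℕ → Tr → Bool
  | F, .leaf l => leafOK l && l.all fun c => F.any fun d => Nat.beq c d
  | F, .node i j k l r => Nat.blt i j && (Nat.blt j k && (Nat.blt k n &&
      (chk n gd (fct (gd i j k) (pr i j) (pr i k) (pr j k) ++ F) l &&
        chk n gd (fct (gd i j k) (pr j k) (pr i k) (pr i j) ++ F) r)))

end Pool.Agent.MP_0af329_co.JW
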