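import Pool.Agent.MP_0af329_co.JWTab
import Pool.Agent.MP_0af329_co.JWDir

/-!
# The jump of `F` at `2π/5`: the six point check
-/

set_option autoImplicit false

namespace Pool.Agent.MP_0af329_co.JW

def c4 (a b c d : ℕ) : ℕ := Nat.add a (Nat.add (Nat.mul 2 b) (Nat.add (Nat.mul 4 c) (Nat.mul 8 d)))

def c6 (a b c d e f : ℕ) : ℕ :=
  Nat.add a (Nat.add (Nat.mul 2 b) (Nat.add (Nat.mul 4 c) (Nat.add (Nat.mul 8 d)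
    (Nat.add (Nat.mul 16 e) (Nat.mul 32 f)))))

def lk24 (T i : ℕ) : ℕ := Nat.land (Nat.shiftRight T (Nat.mul 24 i)) 16777215

/-- Scalar product of two rows of the form with two roots, plus `2^23`. -/
def tab2 (i j : ℕ) : ℕ := lk24 TB2 (Nat.add (Nat.mul 16 i) j)

/-- Scalar product of two rows of the form with four roots, plus `2^23`. -/
def tab4 (r i j : ℕ) : ℕ :=
  bif Nat.beq r 0 then lk24 TB4_0 (Nat.add (Nat.mul 64 i) j) else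
  bif Nat.beq r 1 then lk24 TB4_1 (Nat.add (Nat.mul 64 i) j) else
  bif Nat.beq r 2 then lk24 TB4_2 (Nat.add (Nat.mul 64 i) j) else
  bif Nat.beq r 4 then lk24 TB4_4 (Nat.add (Nat.mul 64 i) j) else
  bif Nat.beq r 8 then lk24 TB4_8 (Nat.add (Nat.mul 64 i) j) else 8388608

/-- The sum of all terms. -/
def sumT (b0 b1 b2 b3 b4 b5 b6 b7 b8 b9 b10 b11 b12 b13 b14 b15 b16 b17 b18 b19 : ℕ) : ℕ :=
  (Nat.add (tab4 (c4 b9 b15 b18 b19) (c6 b2 b5 b7 b11 b13 b16) (c6 b3 b6 b8 b12 b14 b17))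
    (Nat.add (tab4 (c4 b8 b14 b17 b19) (c6 b1 b4 b7 b10 b13 b16) (c6 b3 b6 b9 b12 b15 b18))
    (Nat.add (tab4 (c4 b7 b13 b16 b19) (c6 b1 b4 b8 b10 b14 b17) (c6 b2 b5 b9 b11 b15 b18))
    (Nat.add (tab4 (c4 b6 b12 b17 b18) (c6 b0 b4 b5 b10 b11 b16) (c6 b3 b8 b9 b14 b15 b19))
    (Nat.add (tab4 (c4 b5 b11 b16 b18) (c6 b0 b4 b6 b10 b12 b17) (c6 b2 b7 b9 b13 b15 b19))
    (Nat.add (tab4 (c4 b4 b10 b16 b17) (c6 b0 b5 b6 b11 b12 b18) (c6 b1 b7 b8 b13 b14 b19))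
    (Nat.add (tab4 (c4 b3 b12 b14 b15) (c6 b0 b1 b2 b10 b11 b13) (c6 b6 b8 b9 b17 b18 b19))
    (Nat.add (tab4 (c4 b2 b11 b13 b15) (c6 b0 b1 b3 b10 b12 b14) (c6 b5 b7 b9 b16 b18 b19))
    (Nat.add (tab4 (c4 b1 b10 b13 b14) (c6 b0 b2 b3 b11 b12 b15) (c6 b4 b7 b8 b16 b17 b19))
    (Nat.add (tab4 (c4 b0 b10 b11 b12) (c6 b1 b2 b3 b13 b14 b15) (c6 b4 b5 b6 b16 b17 b18))
    (Nat.add (tab4 (c4 b3 b6 b8 b9) (c6 b0 b1 b2 b4 b5 b7) (c6 b12 b14 b15 b17 b18 b19))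
    (Nat.add (tab4 (c4 b2 b5 b7 b9) (c6 b0 b1 b3 b4 b6 b8) (c6 b11 b13 b15 b16 b18 b19))
    (Nat.add (tab4 (c4 b1 b4 b7 b8) (c6 b0 b2 b3 b5 b6 b9) (c6 b10 b13 b14 b16 b17 b19))
    (Nat.add (tab4 (c4 b0 b4 b5 b6) (c6 b1 b2 b3 b7 b8 b9) (c6 b10 b11 b12 b16 b17 b18))
    (Nat.add (tab4 (c4 b0 b1 b2 b3) (c6 b4 b5 b6 b7 b8 b9) (c6 b10 b11 b12 b13 b14 b15))
    (Nat.add (tab2 (c4 b0 b1 b2 b3) (c4 b4 b10 b16 b17))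
    (Nat.add (tab2 (c4 b0 b4 b5 b6) (c4 b1 b10 b13 b14))
    (Nat.add (tab2 (c4 b0 b10 b11 b12) (c4 b1 b4 b7 b8))
    (Nat.add (tab2 (c4 b0 b2 b1 b3) (c4 b5 b11 b16 b18))
    (Nat.add (tab2 (c4 b0 b5 b4 b6) (c4 b2 b11 b13 b15))
    (Nat.add (tab2 (c4 b0 b11 b10 b12) (c4 b2 b5 b7 b9))
    (Nat.add (tab2 (c4 b0 b3 b1 b2) (c4 b6 b12 b17 b18))
    (Nat.add (tab2 (c4 b0 b6 b4 b5) (c4 b3 b12 b14 b15))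
    (Nat.add (tab2 (c4 b0 b12 b10 b11) (c4 b3 b6 b8 b9))
    (Nat.add (tab2 (c4 b1 b2 b0 b3) (c4 b7 b13 b16 b19))
    (Nat.add (tab2 (c4 b1 b7 b4 b8) (c4 b2 b13 b11 b15))
    (Nat.add (tab2 (c4 b1 b13 b10 b14) (c4 b2 b7 b5 b9))
    (Nat.add (tab2 (c4 b1 b3 b0 b2) (c4 b8 b14 b17 b19))
    (Nat.add (tab2 (c4 b1 b8 b4 b7) (c4 b3 b14 b12 b15))
    (Nat.add (tab2 (c4 b1 b14 b10 b13) (c4 b3 b8 b6 b9))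
    (Nat.add (tab2 (c4 b2 b3 b0 b1) (c4 b9 b15 b18 b19))
    (Nat.add (tab2 (c4 b2 b9 b5 b7) (c4 b3 b15 b12 b14))
    (Nat.add (tab2 (c4 b2 b15 b11 b13) (c4 b3 b9 b6 b8))
    (Nat.add (tab2 (c4 b4 b5 b0 b6) (c4 b7 b16 b13 b19))
    (Nat.add (tab2 (c4 b4 b7 b1 b8) (c4 b5 b16 b11 b18))
    (Nat.add (tab2 (c4 b4 b16 b10 b17) (c4 b5 b7 b2 b9))
    (Nat.add (tab2 (c4 b4 b6 b0 b5) (c4 b8 b17 b14 b19))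
    (Nat.add (tab2 (c4 b4 b8 b1 b7) (c4 b6 b17 b12 b18))
    (Nat.add (tab2 (c4 b4 b17 b10 b16) (c4 b6 b8 b3 b9))
    (Nat.add (tab2 (c4 b5 b6 b0 b4) (c4 b9 b18 b15 b19))
    (Nat.add (tab2 (c4 b5 b9 b2 b7) (c4 b6 b18 b12 b17))
    (Nat.add (tab2 (c4 b5 b18 b11 b16) (c4 b6 b9 b3 b8))
    (Nat.add (tab2 (c4 b7 b8 b1 b4) (c4 b9 b19 b15 b18))
    (Nat.add (tab2 (c4 b7 b9 b2 b5) (c4 b8 b19 b14 b17))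
    (Nat.add (tab2 (c4 b7 b19 b13 b16) (c4 b8 b9 b3 b6))
    (Nat.add (tab2 (c4 b10 b11 b0 b12) (c4 b13 b16 b7 b19))
    (Nat.add (tab2 (c4 b10 b13 b1 b14) (c4 b11 b16 b5 b18))
    (Nat.add (tab2 (c4 b10 b16 b4 b17) (c4 b11 b13 b2 b15))
    (Nat.add (tab2 (c4 b10 b12 b0 b11) (c4 b14 b17 b8 b19))
    (Nat.add (tab2 (c4 b10 b14 b1 b13) (c4 b12 b17 b6 b18))
    (Nat.add (tab2 (c4 b10 b17 b4 b16) (c4 b12 b14 b3 b15))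
    (Nat.add (tab2 (c4 b11 b12 b0 b10) (c4 b15 b18 b9 b19))
    (Nat.add (tab2 (c4 b11 b15 b2 b13) (c4 b12 b18 b6 b17))
    (Nat.add (tab2 (c4 b11 b18 b5 b16) (c4 b12 b15 b3 b14))
    (Nat.add (tab2 (c4 b13 b14 b1 b10) (c4 b15 b19 b9 b18))
    (Nat.add (tab2 (c4 b13 b15 b2 b11) (c4 b14 b19 b8 b17))
    (Nat.add (tab2 (c4 b13 b19 b7 b16) (c4 b14 b15 b3 b12))
    (Nat.add (tab2 (c4 b16 b17 b4 b10) (c4 b18 b19 b9 b15))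
    (Nat.add (tab2 (c4 b16 b18 b5 b11) (c4 b17 b19 b8 b14))
    (Nat.add (tab2 (c4 b16 b19 b7 b13) (c4 b17 b18 b6 b12))
    0))))))))))))))))))))))))))))))))))))))))))))))))))))))))))))

/-- The number of good triples. -/
def sumB (b0 b1 b2 b3 b4 b5 b6 b7 b8 b9 b10 b11 b12 b13 b14 b15 b16 b17 b18 b19 : ℕ) : ℕ :=
  (Nat.add b0
    (Nat.add b1
    (Nat.add b2
    (Nat.add b3
    (Nat.add b4
    (Nat.add b5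
    (Nat.add b6
    (Nat.add b7
    (Nat.add b8
    (Nat.add b9
    (Nat.add b10
    (Nat.add b11
    (Nat.add b12
    (Nat.add b13
    (Nat.add b14
    (Nat.add b15
    (Nat.add b16
    (Nat.add b17
    (Nat.add b18
    (Nat.add b19
    0))))))))))))))))))))

/-- The number of the triple `i < j < k`. -/
def ix (i j k : ℕ) : ℕ :=
  Nat.add (Nat.div (Nat.mul k (Nat.mul (Nat.sub k 1) (Nat.sub k 2))) 6) (pr i j)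

/-- The number of the triple `a, b, c` in any order. -/
def ixs (a b c : ℕ) : ℕ :=
  bif Nat.blt a b then (bif Nat.blt b c then ix a b c else bif Nat.blt a c then ix a c b else ix c a b)
  else (bif Nat.blt a c then ix b a c else bif Nat.blt b c then ix b c a else ix c b a)

/-- The orders of the vertices in the terms with four roots. -/
def E4 : List (Fin 6 × Fin 6 × Fin 6 × Fin 6 × Fin 6 × Fin 6) := [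
  (2, 3, 4, 5, 0, 1),
  (1, 3, 4, 5, 0, 2),
  (0, 3, 4, 5, 1, 2),
  (1, 2, 4, 5, 0, 3),
  (0, 2, 4, 5, 1, 3),
  (0, 1, 4, 5, 2, 3),
  (1, 2, 3, 5, 0, 4),
  (0, 2, 3, 5, 1, 4),
  (0, 1, 3, 5, 2, 4),
  (0, 1, 2, 5, 3, 4),
  (1, 2, 3, 4, 0, 5),
  (0, 2, 3, 4, 1, 5),
  (0, 1, 3, 4, 2, 5),
  (0, 1, 2, 4, 3, 5),
  (0, 1, 2, 3, 4, 5)]

/-- The orders of the vertices in the terms with two roots. -/
def E2 : List (Fin 6 × Fin 6 × Fin 6 × Fin 6 × Fin 6 × Fin 6) := [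
  (0, 1, 2, 3, 4, 5),
  (0, 1, 2, 4, 3, 5),
  (0, 1, 2, 5, 3, 4),
  (0, 2, 1, 3, 4, 5),
  (0, 2, 1, 4, 3, 5),
  (0, 2, 1, 5, 3, 4),
  (1, 2, 0, 3, 4, 5),
  (1, 2, 0, 4, 3, 5),
  (1, 2, 0, 5, 3, 4),
  (0, 3, 1, 2, 4, 5),
  (0, 3, 1, 4, 2, 5),
  (0, 3, 1, 5, 2, 4),
  (1, 3, 0, 2, 4, 5),
  (1, 3, 0, 4, 2, 5),
  (1, 3, 0, 5, 2, 4),
  (2, 3, 0, 1, 4, 5),
  (2, 3, 0, 4, 1, 5),
  (2, 3, 0, 5, 1, 4),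
  (0, 4, 1, 2, 3, 5),
  (0, 4, 1, 3, 2, 5),
  (0, 4, 1, 5, 2, 3),
  (1, 4, 0, 2, 3, 5),
  (1, 4, 0, 3, 2, 5),
  (1, 4, 0, 5, 2, 3),
  (2, 4, 0, 1, 3, 5),
  (2, 4, 0, 3, 1, 5),
  (2, 4, 0, 5, 1, 3),
  (3, 4, 0, 1, 2, 5),
  (3, 4, 0, 2, 1, 5),
  (3, 4, 0, 5, 1, 2),
  (0, 5, 1, 2, 3, 4),
  (0, 5, 1, 3, 2, 4),
  (0, 5, 1, 4, 2, 3),
  (1, 5, 0, 2, 3, 4),
  (1, 5, 0, 3, 2, 4),
  (1, 5, 0, 4, 2, 3),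
  (2, 5, 0, 1, 3, 4),
  (2, 5, 0, 3, 1, 4),
  (2, 5, 0, 4, 1, 3),
  (3, 5, 0, 1, 2, 4),
  (3, 5, 0, 2, 1, 4),
  (3, 5, 0, 4, 1, 2),
  (4, 5, 0, 1, 2, 3),
  (4, 5, 0, 2, 1, 3),
  (4, 5, 0, 3, 1, 2)]

/-- The orders which give the copies of the 9-triple pattern. -/
def HP : List (Fin 6 × Fin 6 × Fin 6 × Fin 6 × Fin 6 × Fin 6) := [
  (0, 1, 2, 3, 4, 5),
  (0, 1, 3, 2, 4, 5),
  (0, 1, 2, 3, 5, 4),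
  (0, 2, 3, 1, 4, 5),
  (0, 1, 3, 2, 5, 4),
  (0, 2, 3, 1, 5, 4),
  (0, 1, 2, 4, 3, 5),
  (0, 1, 3, 4, 2, 5),
  (0, 1, 2, 5, 3, 4),
  (0, 1, 3, 5, 2, 4),
  (1, 2, 3, 0, 5, 4),
  (1, 2, 3, 0, 4, 5),
  (0, 1, 4, 2, 3, 5),
  (0, 1, 4, 3, 2, 5),
  (0, 2, 4, 5, 1, 3),
  (1, 2, 4, 5, 0, 3),
  (0, 3, 4, 5, 1, 2),
  (0, 1, 5, 3, 2, 4),
  (0, 2, 5, 4, 1, 3),
  (1, 3, 5, 4, 0, 2),
  (2, 4, 5, 3, 0, 1),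
  (3, 4, 5, 2, 1, 0),
  (1, 3, 4, 5, 0, 2),
  (0, 1, 5, 2, 3, 4),
  (1, 2, 5, 4, 0, 3),
  (0, 3, 5, 4, 1, 2),
  (2, 4, 5, 3, 1, 0),
  (3, 4, 5, 2, 0, 1),
  (0, 1, 2, 4, 5, 3),
  (0, 1, 2, 5, 4, 3),
  (0, 2, 3, 5, 1, 4),
  (1, 2, 3, 5, 0, 4),
  (0, 2, 3, 4, 1, 5),
  (1, 2, 3, 4, 0, 5),
  (0, 2, 4, 1, 3, 5),
  (0, 1, 4, 5, 2, 3),
  (1, 2, 4, 0, 5, 3),
  (0, 3, 4, 5, 2, 1),
  (0, 1, 5, 4, 2, 3),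
  (0, 2, 5, 3, 1, 4),
  (2, 3, 5, 4, 0, 1),
  (1, 4, 5, 3, 0, 2),
  (3, 4, 5, 1, 2, 0),
  (0, 2, 4, 3, 1, 5),
  (2, 3, 4, 5, 0, 1),
  (0, 2, 5, 1, 3, 4),
  (1, 2, 5, 0, 4, 3),
  (0, 3, 5, 4, 2, 1),
  (1, 4, 5, 3, 2, 0),
  (3, 4, 5, 1, 0, 2),
  (0, 1, 4, 2, 5, 3),
  (0, 2, 4, 1, 5, 3),
  (1, 2, 4, 0, 3, 5),
  (1, 3, 4, 5, 2, 0),
  (0, 1, 5, 2, 4, 3),
  (1, 2, 5, 3, 0, 4),
  (2, 3, 5, 4, 1, 0),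
  (0, 4, 5, 3, 1, 2),
  (3, 4, 5, 0, 2, 1),
  (1, 2, 4, 3, 0, 5),
  (2, 3, 4, 5, 1, 0),
  (0, 2, 5, 1, 4, 3),
  (1, 2, 5, 0, 3, 4),
  (1, 3, 5, 4, 2, 0),
  (0, 4, 5, 3, 2, 1),
  (3, 4, 5, 0, 1, 2),
  (0, 1, 3, 5, 4, 2),
  (0, 2, 3, 5, 4, 1),
  (0, 1, 3, 4, 5, 2),
  (1, 2, 3, 5, 4, 0),
  (0, 2, 3, 4, 5, 1),
  (1, 2, 3, 4, 5, 0),
  (0, 1, 4, 5, 3, 2),
  (0, 2, 4, 5, 3, 1),
  (0, 3, 4, 1, 2, 5),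
  (1, 3, 4, 0, 5, 2),
  (0, 1, 5, 4, 3, 2),
  (0, 3, 5, 2, 1, 4),
  (2, 3, 5, 0, 4, 1),
  (1, 4, 5, 2, 0, 3),
  (2, 4, 5, 1, 3, 0),
  (0, 3, 4, 2, 1, 5),
  (2, 3, 4, 0, 5, 1),
  (0, 2, 5, 4, 3, 1),
  (0, 3, 5, 1, 2, 4),
  (1, 3, 5, 0, 4, 2),
  (1, 4, 5, 2, 3, 0),
  (2, 4, 5, 1, 0, 3),
  (0, 1, 4, 3, 5, 2),
  (1, 2, 4, 5, 3, 0),
  (0, 3, 4, 1, 5, 2),
  (1, 3, 4, 0, 2, 5),
  (0, 1, 5, 3, 4, 2),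
  (1, 3, 5, 2, 0, 4),
  (2, 3, 5, 1, 4, 0),
  (0, 4, 5, 2, 1, 3),
  (2, 4, 5, 0, 3, 1),
  (1, 3, 4, 2, 0, 5),
  (2, 3, 4, 1, 5, 0),
  (1, 2, 5, 4, 3, 0),
  (0, 3, 5, 1, 4, 2),
  (1, 3, 5, 0, 2, 4),
  (0, 4, 5, 2, 3, 1),
  (2, 4, 5, 0, 1, 3),
  (0, 2, 4, 3, 5, 1),
  (1, 2, 4, 3, 5, 0),
  (0, 3, 4, 2, 5, 1),
  (2, 3, 4, 0, 1, 5),
  (0, 2, 5, 3, 4, 1),
  (1, 3, 5, 2, 4, 0),
  (2, 3, 5, 1, 0, 4),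
  (0, 4, 5, 1, 2, 3),
  (1, 4, 5, 0, 3, 2),
  (1, 3, 4, 2, 5, 0),
  (2, 3, 4, 1, 0, 5),
  (1, 2, 5, 3, 4, 0),
  (0, 3, 5, 2, 4, 1),
  (2, 3, 5, 0, 1, 4),
  (0, 4, 5, 1, 3, 2),
  (1, 4, 5, 0, 2, 3)]

def one (L : List ℕ) (i : ℕ) : Bool := Nat.beq (L.getD i 0) 1

/-- The nine triples of the copy `P` are in the list. -/
def pat (L : List ℕ) (P : Fin 6 × Fin 6 × Fin 6 × Fin 6 × Fin 6 × Fin 6) : Bool :=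
  one L (ixs P.1 P.2.1 P.2.2.2.1) && (one L (ixs P.1 P.2.1 P.2.2.2.2.1) &&
  (one L (ixs P.2.1 P.2.2.1 P.2.2.2.2.1) && (one L (ixs P.2.1 P.2.2.1 P.2.2.2.2.2) &&
  (one L (ixs P.1 P.2.2.1 P.2.2.2.2.2) && (one L (ixs P.1 P.2.2.1 P.2.2.2.1) &&
  (one L (ixs P.1 P.2.2.2.2.1 P.2.2.2.2.2) && (one L (ixs P.2.1 P.2.2.2.1 P.2.2.2.2.2) &&
  one L (ixs P.2.2.1 P.2.2.2.1 P.2.2.2.2.1))))))))

/-- The masks of the copies of the 9-triple pattern. -/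
def HM : List ℕ := [88662, 94997, 103782, 111395, 116165, 117443, 145978, 158361, 167146, 173481, 176931, 182979, 209699, 215747, 232131, 234275, 238371, 241955, 242211, 242435, 242465, 242466, 246467, 248003, 248387, 248451, 248513, 248514, 275772, 281820, 289433, 291605, 304553, 312773, 340757, 345541, 348949, 353045, 356629, 356885, 357125, 357137, 357140, 361925, 377285, 378053, 378181, 378245, 378305, 378308, 402857, 404121, 412313, 418457, 419993, 420377, 420489, 420497, 420504, 427433, 434601, 435369, 435497, 435593, 435617, 435624, 537916, 539194, 543964, 547414, 560362, 562534, 595302, 596566, 608854, 610902, 612438, 612886, 612934, 612946, 612948, 623974, 627046, 627814, 628006, 628038, 628066, 628068, 658666, 662074, 666170, 668218, 669754, 670234, 670250, 670258, 670264,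 689386, 690410, 691306, 691370, 691402, 691426, 691432, 789724, 791868, 795964, 799036, 799804, 800028, 800044, 800052, 800056, 804060, 805084, 805980, 806044, 806092, 806100, 806104]

def leaf (b0 b1 b2 b3 b4 b5 b6 b7 b8 b9 b10 b11 b12 b13 b14 b15 b16 b17 b18 b19 : ℕ) : Bool :=
  Nat.ble (Nat.add (sumT b0 b1 b2 b3 b4 b5 b6 b7 b8 b9 b10 b11 b12 b13 b14 b15 b16 b17 b18 b19) (Nat.add 14460000 (Nat.mul 1000000 (sumB b0 b1 b2 b3 b4 b5 b6 b7 b8 b9 b10 b11 b12 b13 b14 b15 b16 b17 b18 b19)))) 523316480 ||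
    HP.any (pat [b0, b1, b2, b3, b4, b5, b6, b7, b8, b9, b10, b11, b12, b13, b14, b15, b16, b17, b18, b19])

def all2 (f : ℕ → Bool) : Bool := f 0 && f 1

def k4 (a b c d : ℕ) (X : Bool) : Bool := bif Nat.ble (Nat.add a (Nat.add b (Nat.add c d))) 2 then X else true

/-- The search, last ten triples. -/
def dfs2 (b0 b1 b2 b3 b4 b5 b6 b7 b8 b9 : ℕ) : Bool :=
  all2 fun b10 => all2 fun b11 => all2 fun b12 => k4 b0 b10 b11 b12 (all2 fun b13 => all2 fun b14 => k4 b1 b10 b13 b14 (all2 fun b15 => k4 b2 b11 b13 b15 (k4 b3 b12 b14 b15 (all2 fun b16 => all2 fun b17 => k4 b4 b10 b16 b17 (all2 fun b18 => k4 b5 b11 b16 b18 (k4 b6 b12 b17 b18 (all2 fun b19 => k4 b7 b13 b16 b19 (k4 b8 b14 b17 b19 (k4 b9 b15 b18 b19 (leaf b0 b1 b2 b3 b4 b5 b6 b7 b8 b9 b10 b11 b12 b13 b14 b15 b16 b17 b18 b19))))))))))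

/-- The search, middle six triples. -/
def dfs1 (b0 b1 b2 b3 : ℕ) : Bool :=
  all2 fun b4 => all2 fun b5 => all2 fun b6 => k4 b0 b4 b5 b6 (all2 fun b7 => all2 fun b8 => k4 b1 b4 b7 b8 (all2 fun b9 => k4 b2 b5 b7 b9 (k4 b3 b6 b8 b9 (dfs2 b0 b1 b2 b3 b4 b5 b6 b7 b8 b9))))

/-- The search. -/
def dfs0 : Bool :=
  all2 fun b0 => all2 fun b1 => all2 fun b2 => all2 fun b3 => k4 b0 b1 b2 b3 (dfs1 b0 b1 b2 b3)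

end Pool.Agent.MP_0af329_co.JW
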