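import Pool.Agent.MP_0af329_co.JWDir
import Pool.Agent.MP_0af329_co.JWLeaf

/-!
# The jump of `F` at `2π/5`: the certificates
-/

set_option autoImplicit false

namespace Pool.Agent.MP_0af329_co.JW

/-- The triples of a mask. -/
def gdm (m i j k : ℕ) : Bool := Nat.beq (Nat.land (Nat.shiftRight m (ix i j k)) 1) 1

/-- Certificates for three marked triples of four points. -/
def KC : List (ℕ × Tr) := [
  (14, (.node 0 2 3 (.node 1 2 3 (.node 0 1 3 (.leaf [320, 548, 338, 565, 515]) (.leaf [560, 531, 337, 581, 260])) (.leaf [337, 293, 242, 799])) (.node 1 2 3 (.leaf [241, 815, 338, 277]) (.node 0 1 3 (.leaf [320, 596, 277, 561, 515]) (.leaf [560, 595, 293, 578, 260]))))),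
  (13, (.node 1 2 3 (.node 0 1 2 (.leaf [288, 338, 245, 783]) (.node 0 2 3 (.leaf [528, 337, 581, 548, 258]) (.leaf [545, 338, 277]))) (.node 0 1 2 (.node 0 2 3 (.leaf [337, 293, 530]) (.leaf [288, 578, 596, 277, 513])) (.leaf [240, 863, 293, 258])))),
  (11, (.node 0 1 2 (.node 0 1 3 (.node 1 2 3 (.leaf [288, 338, 245, 783]) (.leaf [320, 596, 293, 530, 513])) (.leaf [288, 242, 847, 260])) (.node 0 1 3 (.leaf [320, 244, 815, 258]) (.node 1 2 3 (.leaf [528, 545, 338, 581, 260]) (.leaf [240, 863, 293, 258]))))),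
  (7, (.node 0 1 2 (.node 0 1 3 (.node 0 2 3 (.leaf [288, 530, 337, 565, 515]) (.leaf [320, 564, 595, 277, 513])) (.leaf [288, 242, 847, 260])) (.node 0 1 3 (.leaf [320, 244, 815, 258]) (.node 0 2 3 (.leaf [528, 337, 565, 579, 260]) (.leaf [560, 595, 277, 545, 258])))))]

def HC0 : List (ℕ × Tr) := [
  (88662, (.node 0 1 3 (.node 0 1 4 (.node 1 3 5 (.leaf [320, 468, 253, 783]) (.node 0 3 5 (.leaf [163, 218, 333, 564]) (.node 0 4 5 (.leaf [368, 615, 486, 686, 58, 515]) (.node 1 2 4 (.leaf [368, 551, 386, 248, 1007, 366, 518]) (.leaf [368, 647, 296, 242, 1007, 366, 518]))))) (.leaf [320, 244, 895, 263])) (.node 0 1 4 (.leaf [368, 247, 847, 260]) (.node 1 3 5 (.node 0 3 5 (.node 0 4 5 (.node 1 2 4 (.leaf [608, 486, 254, 815, 386, 632, 263]) (.leaf [608, 486, 254, 911, 296, 626, 263])) (.leaf [560, 163, 746, 366, 630, 263])) (.leaf [579, 468, 173, 58])) (.leaf [240, 991, 333, 260]))))),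
  (94997, (.node 0 1 2 (.node 0 1 4 (.node 1 2 5 (.leaf [288, 450, 252, 783]) (.node 0 2 5 (.leaf [161, 202, 300, 530]) (.node 0 4 5 (.leaf [368, 615, 486, 686, 26, 513]) (.node 1 3 4 (.leaf [368, 583, 404, 249, 1007, 366, 518]) (.leaf [368, 663, 329, 244, 1007, 366, 518]))))) (.leaf [288, 242, 895, 263])) (.node 0 1 4 (.leaf [368, 247, 815, 258]) (.node 1 2 5 (.node 0 2 5 (.node 0 4 5 (.node 1 3 4 (.leaf [608, 486, 254, 847, 404, 633, 263]) (.leaf [608, 486, 254, 927, 329, 628, 263])) (.leaf [528, 161, 746, 366, 630, 263])) (.leaf [545, 450, 172, 26])) (.leaf [240, 975, 300, 258]))))),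
  (103782, (.node 0 1 3 (.node 1 3 4 (.leaf [320, 404, 249, 783]) (.node 0 3 4 (.leaf [99, 150, 329, 564]) (.node 0 1 5 (.node 0 4 5 (.node 1 2 5 (.node 2 3 5 (.leaf [432, 555, 450, 604, 469, 253, 783]) (.leaf [432, 555, 450, 732, 349, 245, 783])) (.node 0 1 2 (.node 0 2 4 (.leaf [16, 385, 616, 486, 686, 522]) (.node 1 2 4 (.leaf [33, 386, 280]) (.leaf [432, 715, 300, 626, 647, 280, 609, 486, 686, 522]))) (.leaf [432, 715, 300, 18, 1]))) (.leaf [432, 683, 746, 366, 54, 515])) (.leaf [320, 244, 959, 267])))) (.node 1 3 4 (.node 0 3 4 (.node 0 1 5 (.leaf [432, 251, 847, 260]) (.node 0 4 5 (.leaf [560, 99, 486, 686, 698, 267]) (.node 1 2 5 (.node 0 1 2 (.leaf [16, 33, 450, 700, 267]) (.node 0 2 4 (.node 1 2 4 (.leaf [672, 746, 366, 534, 385, 632, 551, 450, 700, 267]) (.leaf [385, 296, 18])) (.leaf [672, 746, 366, 646, 280, 1]))) (.node 2 3 5 (.leaf [240, 863, 469, 717, 300, 690, 267]) (.leaf [240, 991, 349,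 709, 300, 690, 267]))))) (.leaf [579, 404, 105, 54])) (.leaf [240, 927, 329, 260])))),
  (111395, (.node 0 1 2 (.node 0 1 3 (.node 1 3 4 (.leaf [320, 404, 249, 783]) (.node 0 1 4 (.node 1 2 4 (.leaf [288, 114, 663, 329, 564, 515]) (.node 0 2 4 (.leaf [385, 120, 39, 530]) (.node 2 3 4 (.leaf [244, 863, 405, 329]) (.leaf [609, 118, 663, 345, 645, 280])))) (.leaf [320, 628, 103, 6]))) (.leaf [288, 242, 847, 260])) (.node 0 1 3 (.leaf [320, 244, 815, 258]) (.node 1 3 4 (.node 0 1 4 (.leaf [96, 118, 583, 260]) (.node 1 2 4 (.node 0 2 4 (.node 2 3 4 (.leaf [385, 600, 405, 633, 103, 534]) (.leaf [404, 345, 245, 847])) (.leaf [545, 114, 135, 280])) (.leaf [560, 579, 404, 633, 39, 258]))) (.leaf [240, 927, 329, 260]))))),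
  (116165, (.node 0 1 2 (.node 1 2 4 (.leaf [288, 386, 248, 783]) (.node 0 1 4 (.node 0 2 4 (.leaf [97, 134, 296, 530]) (.node 0 1 5 (.node 0 4 5 (.node 0 2 3 (.node 0 1 3 (.node 0 3 4 (.leaf [337, 565, 403, 617, 22]) (.node 1 3 4 (.leaf [67, 404, 313]) (.node 1 3 5 (.leaf [468, 253, 927, 329]) (.leaf [432, 731, 333, 628, 663, 313, 611, 486, 686, 522])))) (.leaf [288, 530, 337, 565, 3])) (.node 0 3 4 (.leaf [561, 403, 617, 486, 254, 863, 277]) (.leaf [96, 662, 313, 595, 277, 513]))) (.leaf [432, 683, 746, 366, 22, 513])) (.leaf [288, 242, 959, 267]))) (.leaf [288, 626, 103, 6]))) (.node 1 2 4 (.node 0 1 4 (.leaf [96, 118, 551, 258]) (.node 0 2 4 (.node 0 1 5 (.leaf [432, 251, 815, 258]) (.node 0 4 5 (.leaf [528, 97, 486, 686, 698, 267]) (.node 0 2 3 (.node 0 3 4 (.leaf [528, 337, 565, 403, 617, 6]) (.leaf [337, 245, 1007, 366, 662, 313, 531])) (.node 0 1 3 (.leaf [48, 595, 277, 545, 258]) (.node 0 3 4 (.node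 1 3 4 (.node 1 3 5 (.leaf [672, 746, 366, 566, 403, 633, 583, 468, 701, 267]) (.leaf [404, 249, 991, 333])) (.leaf [403, 329, 52])) (.leaf [97, 662, 313, 595, 277])))))) (.leaf [545, 386, 104, 22]))) (.leaf [240, 911, 296, 258])))),
  (117443, (.node 0 1 2 (.node 0 1 3 (.node 1 2 4 (.leaf [288, 386, 248, 783]) (.node 0 1 4 (.node 0 2 4 (.leaf [97, 134, 296, 530]) (.node 0 3 4 (.leaf [320, 564, 403, 617, 22, 513]) (.node 2 3 4 (.leaf [243, 863, 405, 313]) (.node 0 2 5 (.leaf [288, 530, 449, 252, 927, 313, 515]) (.node 2 3 5 (.leaf [469, 253, 927, 345]) (.leaf [96, 662, 345, 709, 284, 513])))))) (.leaf [288, 626, 103, 6]))) (.leaf [288, 242, 847, 260])) (.node 0 1 3 (.leaf [320, 244, 815, 258]) (.node 1 2 4 (.node 0 1 4 (.leaf [96, 118, 551, 258]) (.node 0 2 4 (.node 0 3 4 (.node 2 3 4 (.node 0 2 5 (.node 2 3 5 (.leaf [528, 449, 604, 405, 617, 6]) (.leaf [405, 249, 991, 349])) (.leaf [560, 403, 249, 975,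 284, 545, 258])) (.leaf [403, 345, 245, 831])) (.leaf [528, 97, 662, 313, 579, 260])) (.leaf [545, 386, 104, 22]))) (.leaf [240, 911, 296, 258]))))),
  (145978, (.node 1 2 3 (.node 2 3 4 (.leaf [338, 405, 249, 815]) (.node 1 2 4 (.node 1 3 4 (.leaf [116, 151, 345, 581]) (.node 1 2 5 (.node 0 2 5 (.node 0 2 3 (.node 0 2 4 (.node 0 1 2 (.node 0 1 3 (.node 0 1 4 (.node 1 4 5 (.leaf [368, 487, 254, 783]) (.leaf [450, 700, 747, 382, 71, 548])) (.leaf [320, 548, 114, 263])) (.leaf [16, 49, 579, 260])) (.leaf [385, 664, 345, 581, 548, 18])) (.leaf [449, 252, 911, 280])) (.leaf [449, 700, 555, 338, 53, 19])) (.leaf [241, 815, 450, 284])) (.leaf [338, 245, 975, 300]))) (.leaf [338, 645, 120, 39]))) (.node 2 3 4 (.node 1 2 4 (.leaf [114, 135, 600, 293]) (.node 1 3 4 (.node 1 2 5 (.leaf [450, 252, 863, 293]) (.node 0 2 5 (.leaf [449, 300, 242, 799]) (.node 0 2 3 (.leaf [49, 83, 293, 690, 715, 284]) (.node 0 2 4 (.leaf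 [385, 248, 975, 284]) (.node 0 1 2 (.leaf [33, 578, 596, 405, 649, 280]) (.node 0 1 3 (.leaf [320, 564, 19, 1]) (.node 0 1 4 (.leaf [368, 39, 578, 260]) (.node 1 4 5 (.leaf [578, 116, 487, 702, 715, 300]) (.leaf [240, 1007, 382, 263]))))))))) (.leaf [596, 405, 121, 71]))) (.leaf [242, 927, 345, 293])))),
  (158361, (.node 0 1 2 (.node 1 2 3 (.leaf [288, 338, 245, 783]) (.node 0 1 3 (.node 0 2 3 (.leaf [49, 83, 293, 530]) (.node 0 1 4 (.node 0 3 4 (.node 2 3 4 (.node 1 2 4 (.leaf [114, 135, 600, 293]) (.node 0 3 5 (.node 0 1 5 (.node 0 2 5 (.node 1 4 5 (.leaf [368, 487, 254, 783]) (.leaf [449, 684, 186, 747, 382, 39, 530])) (.leaf [48, 467, 685, 714, 284, 513])) (.leaf [48, 467, 685, 10])) (.leaf [403, 249, 991, 317]))) (.leaf [403, 345, 53])) (.leaf [368, 615, 662, 313, 19, 513])) (.leaf [288, 242, 895, 263]))) (.leaf [288, 578, 52, 3]))) (.node 1 2 3 (.node 0 1 3 (.leaf [48, 67, 548, 258]) (.node 0 2 3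 (.node 0 1 4 (.leaf [368, 247, 815, 258]) (.node 0 3 4 (.leaf [528, 49, 403, 617, 630, 263]) (.node 2 3 4 (.leaf [83, 405, 313]) (.node 1 2 4 (.node 0 3 5 (.leaf [467, 253, 927, 313]) (.node 0 1 5 (.leaf [160, 730, 317, 3]) (.node 0 2 5 (.leaf [528, 449, 684, 730, 317, 3]) (.node 1 4 5 (.leaf [545, 114, 487, 702, 171, 714, 284]) (.leaf [240, 1007, 382, 263]))))) (.leaf [338, 645, 120, 39]))))) (.leaf [545, 338, 53, 19]))) (.leaf [240, 863, 293, 258])))),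
  (167146, (.node 1 2 3 (.node 1 2 4 (.node 0 2 4 (.node 0 2 3 (.node 0 2 5 (.node 1 2 5 (.node 2 3 5 (.leaf [338, 469, 253, 815]) (.node 0 1 2 (.node 0 1 3 (.node 0 3 4 (.node 1 3 4 (.node 0 1 5 (.node 1 4 5 (.leaf [320, 116, 487, 254, 783]) (.leaf [432, 747, 382, 551, 338, 245, 783])) (.leaf [320, 548, 178, 267])) (.leaf [403, 121, 71, 564])) (.leaf [16, 385, 616, 662, 313, 515])) (.leaf [16, 49, 579, 260])) (.leaf [449, 732, 349, 581, 548, 18]))) (.leaf [449, 188, 43, 386, 616, 534])) (.leaf [385, 248, 975, 284])) (.leaf [385, 632, 551, 338, 53, 19])) (.leaf [241, 815, 386, 280])) (.leaf [338, 245, 911, 296])) (.node 1 2 4 (.leaf [386, 248, 863, 293]) (.node 0 2 4 (.leaf [385, 296, 242, 799]) (.node 0 2 3 (.leaf [49, 83, 293, 626, 647, 280]) (.node 0 2 5 (.leaf [449, 252, 911, 280]) (.node 1 2 5 (.leaf [609, 646, 296, 178, 203, 284]) (.node 2 3 5 (.node 0 1 2 (.leaf [33, 578, 596, 469, 717, 284]) (.node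 0 1 3 (.leaf [320, 564, 19, 1]) (.node 0 3 4 (.leaf [560, 403, 617, 646, 280, 1]) (.node 1 3 4 (.leaf [579, 116, 151, 313]) (.node 0 1 5 (.leaf [432, 43, 578, 260]) (.node 1 4 5 (.leaf [240, 863, 293, 626, 487, 702, 267]) (.leaf [240, 1007, 382, 71, 260]))))))) (.leaf [242, 991, 349, 293]))))))))),
  (173481, (.node 0 1 2 (.node 1 2 3 (.leaf [288, 338, 245, 783]) (.node 0 1 3 (.node 0 2 3 (.leaf [49, 83, 293, 530]) (.node 0 1 5 (.node 0 3 5 (.node 0 3 4 (.node 0 2 4 (.node 1 2 4 (.node 1 3 4 (.node 1 4 5 (.leaf [288, 114, 487, 254, 783]) (.leaf [432, 747, 382, 583, 404, 249, 783])) (.leaf [403, 329, 596, 53])) (.leaf [385, 120, 39, 530])) (.leaf [48, 403, 617, 646, 280, 513])) (.leaf [467, 253, 927, 313])) (.leaf [432, 683, 730, 317, 19, 513])) (.leaf [288, 242, 959, 267]))) (.leaf [288, 578, 52, 3]))) (.node 1 2 3 (.node 0 1 3 (.leaf [48, 67, 548, 258]) (.node 0 2 3 (.node 0 1 5 (.leaf [432, 251, 815,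 258]) (.node 0 3 5 (.leaf [528, 49, 467, 685, 698, 267]) (.node 0 3 4 (.leaf [403, 249, 991, 317]) (.node 0 2 4 (.leaf [528, 385, 616, 662, 313, 3]) (.node 1 2 4 (.leaf [545, 114, 135, 280]) (.node 1 3 4 (.leaf [83, 581, 404, 313]) (.node 1 4 5 (.leaf [240, 927, 329, 628, 487, 702, 267]) (.leaf [240, 1007, 382, 39, 258])))))))) (.leaf [545, 338, 53, 19]))) (.leaf [240, 863, 293, 258]))))]

def HC1 : List (ℕ × Tr) := [
  (176931, (.node 0 1 2 (.node 0 1 3 (.node 1 3 4 (.leaf [320, 404, 249, 783]) (.node 0 1 4 (.node 1 2 4 (.leaf [288, 114, 663, 329, 564, 515]) (.node 0 2 4 (.leaf [385, 120, 39, 530]) (.node 2 3 4 (.leaf [244, 863, 405, 329]) (.leaf [609, 118, 663, 345, 645, 280])))) (.leaf [320, 628, 103, 6]))) (.leaf [288, 242, 847, 260])) (.node 0 1 3 (.leaf [320, 244, 815, 258]) (.node 1 3 4 (.node 0 1 4 (.leaf [96, 118, 583, 260]) (.node 1 2 4 (.node 0 2 4 (.node 2 3 4 (.leaf [385, 600, 405, 633, 103,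 534]) (.leaf [404, 345, 245, 847])) (.leaf [545, 114, 135, 280])) (.leaf [560, 579, 404, 633, 39, 258]))) (.leaf [240, 927, 329, 260]))))),
  (182979, (.node 0 1 2 (.node 0 1 3 (.node 1 2 4 (.leaf [288, 386, 248, 783]) (.node 0 1 4 (.node 0 2 4 (.leaf [97, 134, 296, 530]) (.node 0 3 4 (.leaf [320, 564, 403, 617, 22, 513]) (.node 2 3 4 (.leaf [243, 863, 405, 313]) (.node 0 2 5 (.leaf [288, 530, 449, 252, 927, 313, 515]) (.node 2 3 5 (.leaf [469, 253, 927, 345]) (.leaf [96, 662, 345, 709, 284, 513])))))) (.leaf [288, 626, 103, 6]))) (.leaf [288, 242, 847, 260])) (.node 0 1 3 (.leaf [320, 244, 815, 258]) (.node 1 2 4 (.node 0 1 4 (.leaf [96, 118, 551, 258]) (.node 0 2 4 (.node 0 3 4 (.node 2 3 4 (.node 0 2 5 (.node 2 3 5 (.leaf [528, 449, 604, 405, 617, 6]) (.leaf [405, 249, 991, 349])) (.leaf [560, 403, 249, 975, 284, 545, 258])) (.leaf [403, 345, 245, 831])) (.leaf [528, 97, 662, 313, 579, 260])) (.leaf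 [545, 386, 104, 22]))) (.leaf [240, 911, 296, 258]))))),
  (209699, (.node 0 1 2 (.node 0 1 3 (.node 1 3 4 (.leaf [320, 404, 249, 783]) (.node 0 1 4 (.node 1 2 4 (.leaf [288, 114, 663, 329, 564, 515]) (.node 0 2 4 (.leaf [385, 120, 39, 530]) (.node 2 3 4 (.leaf [244, 863, 405, 329]) (.leaf [609, 118, 663, 345, 645, 280])))) (.leaf [320, 628, 103, 6]))) (.leaf [288, 242, 847, 260])) (.node 0 1 3 (.leaf [320, 244, 815, 258]) (.node 1 3 4 (.node 0 1 4 (.leaf [96, 118, 583, 260]) (.node 1 2 4 (.node 0 2 4 (.node 2 3 4 (.leaf [385, 600, 405, 633, 103, 534]) (.leaf [404, 345, 245, 847])) (.leaf [545, 114, 135, 280])) (.leaf [560, 579, 404, 633, 39, 258]))) (.leaf [240, 927, 329, 260]))))),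
  (215747, (.node 0 1 2 (.node 0 1 3 (.node 1 2 4 (.leaf [288, 386, 248, 783]) (.node 0 1 4 (.node 0 2 4 (.leaf [97, 134, 296, 530]) (.node 0 3 4 (.leaf [320, 564, 403, 617, 22, 513]) (.node 0 2 5 (.leaf [288, 530, 449, 252, 927, 313, 515]) (.node 0 4 5 (.leaf [96, 486, 686, 714, 284, 513]) (.leaf [288, 242, 1007, 366, 662, 313, 515]))))) (.leaf [288, 626, 103, 6]))) (.leaf [288, 242, 847, 260])) (.node 0 1 3 (.leaf [320, 244, 815, 258]) (.node 1 2 4 (.node 0 1 4 (.leaf [96, 118, 551, 258]) (.node 0 2 4 (.node 0 3 4 (.node 0 2 5 (.node 0 4 5 (.leaf [560, 403, 617, 486, 254, 815, 258]) (.leaf [528, 449, 684, 746, 366, 6])) (.leaf [560, 403, 249, 975, 284, 545, 258])) (.leaf [528, 97, 662, 313, 579, 260])) (.leaf [545, 386, 104, 22]))) (.leaf [240, 911, 296, 258]))))),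
  (232131, (.node 0 1 2 (.node 0 1 3 (.node 1 2 4 (.leaf [288, 386, 248, 783]) (.node 0 1 4 (.node 0 2 4 (.leaf [97, 134, 296, 530]) (.node 0 3 4 (.leaf [320, 564, 403, 617, 22, 513]) (.node 2 3 4 (.leaf [243, 863, 405, 313]) (.node 0 2 5 (.leaf [288, 530, 449, 252, 927, 313, 515]) (.node 2 3 5 (.leaf [469, 253, 927, 345]) (.leaf [96, 662, 345, 709, 284, 513])))))) (.leaf [288, 626, 103, 6]))) (.leaf [288, 242, 847, 260])) (.node 0 1 3 (.leaf [320, 244, 815, 258]) (.node 1 2 4 (.node 0 1 4 (.leaf [96, 118, 551, 258]) (.node 0 2 4 (.node 0 3 4 (.node 2 3 4 (.node 0 2 5 (.node 2 3 5 (.leaf [528, 449, 604, 405, 617, 6]) (.leaf [405, 249, 991, 349])) (.leaf [560, 403, 249, 975, 284, 545, 258])) (.leaf [403, 345, 245, 831])) (.leaf [528, 97, 662, 313, 579, 260])) (.leaf [545, 386, 104, 22]))) (.leaf [240, 911, 296, 258]))))),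
  (234275, (.node 0 1 2 (.node 0 1 3 (.node 1 3 4 (.leaf [320, 404, 249, 783]) (.node 0 1 4 (.node 1 2 4 (.leaf [288, 114, 663, 329, 564, 515]) (.node 0 2 4 (.leaf [385, 120, 39, 530]) (.node 2 3 4 (.leaf [244, 863, 405, 329]) (.leaf [609, 118, 663, 345, 645, 280])))) (.leaf [320, 628, 103, 6]))) (.leaf [288, 242, 847, 260])) (.node 0 1 3 (.leaf [320, 244, 815, 258]) (.node 1 3 4 (.node 0 1 4 (.leaf [96, 118, 583, 260]) (.node 1 2 4 (.node 0 2 4 (.node 2 3 4 (.leaf [385, 600, 405, 633, 103, 534]) (.leaf [404, 345, 245, 847])) (.leaf [545, 114, 135, 280])) (.leaf [560, 579, 404, 633, 39, 258]))) (.leaf [240, 927, 329, 260]))))),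
  (238371, (.node 0 1 3 (.node 0 1 2 (.node 1 3 4 (.leaf [320, 404, 249, 783]) (.node 0 1 4 (.node 1 2 4 (.leaf [288, 114, 663, 329, 564, 515]) (.node 0 2 4 (.leaf [385, 120, 39, 530]) (.node 2 3 4 (.leaf [244, 863, 405, 329]) (.leaf [609, 118, 663, 345, 645, 280])))) (.leaf [320, 628, 103, 6]))) (.leaf [320, 244, 815, 258])) (.node 0 1 2 (.leaf [288, 242, 847, 260]) (.node 1 3 4 (.node 0 1 4 (.leaf [96, 118, 583, 260]) (.node 1 2 4 (.node 0 2 4 (.node 2 3 4 (.leaf [385, 600, 405, 633, 103, 534]) (.leaf [404, 345, 245, 847])) (.leaf [545, 114, 135, 280])) (.leaf [560, 579, 404, 633, 39, 258]))) (.leaf [240, 927, 329, 260]))))),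
  (241955, (.node 0 1 2 (.node 0 1 3 (.node 1 3 4 (.leaf [320, 404, 249, 783]) (.node 1 2 4 (.leaf [288, 114, 663, 329, 564, 515]) (.node 0 2 4 (.leaf [385, 120, 39, 530]) (.node 2 3 4 (.node 0 2 3 (.leaf [49, 83, 133, 280]) (.node 1 2 3 (.leaf [320, 84, 53, 515]) (.node 1 2 5 (.leaf [288, 450, 252, 783]) (.node 1 4 5 (.leaf [320, 628, 487, 254, 911, 280, 513]) (.leaf [690, 747, 382, 663, 329, 36]))))) (.leaf [320, 628, 663, 137, 280, 513]))))) (.leaf [288, 242, 847, 260])) (.node 0 1 3 (.leaf [320, 244, 815, 258]) (.node 1 3 4 (.node 1 2 4 (.node 0 2 4 (.node 2 3 4 (.leaf [528, 385, 152, 633, 583, 260]) (.node 0 2 3 (.node 1 2 3 (.node 1 2 5 (.node 1 4 5 (.leaf [66, 404, 633, 487, 702, 555]) (.leaf [528, 385, 248, 1007, 382, 583, 260])) (.leaf [240, 975, 300, 258])) (.leaf [560, 83, 69, 260])) (.leaf [385, 88, 53, 19]))) (.leaf [545, 114, 135, 280])) (.leaf [560, 579, 404, 633, 39, 258])) (.leaf [240,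 927, 329, 260]))))),
  (242211, (.node 0 1 2 (.node 0 1 3 (.node 1 2 5 (.leaf [288, 450, 252, 783]) (.node 0 2 5 (.leaf [161, 202, 300, 530]) (.node 0 3 5 (.leaf [320, 564, 467, 685, 26, 513]) (.node 0 2 4 (.leaf [288, 530, 385, 248, 991, 317, 515]) (.node 2 3 4 (.leaf [288, 242, 863, 405, 649, 280, 513]) (.leaf [288, 242, 927, 345, 645, 280, 513])))))) (.leaf [288, 242, 847, 260])) (.node 0 1 3 (.leaf [320, 244, 815, 258]) (.node 1 2 5 (.node 0 2 5 (.node 0 3 5 (.node 0 2 4 (.node 2 3 4 (.leaf [528, 385, 600, 405, 249, 815, 258]) (.leaf [528, 385, 664, 345, 245, 815, 258])) (.leaf [560, 467, 253, 911, 280, 545, 258])) (.leaf [528, 161, 730, 317, 579, 260])) (.leaf [545, 450, 172, 26])) (.leaf [240, 975, 300, 258]))))),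
  (242435, (.node 0 1 2 (.node 0 1 3 (.node 1 3 4 (.leaf [320, 404, 249, 783]) (.node 0 1 4 (.node 2 3 4 (.leaf [244, 863, 405, 329]) (.node 0 2 3 (.node 1 2 5 (.leaf [288, 450, 252, 783]) (.node 0 2 5 (.leaf [161, 202, 300, 530]) (.node 0 3 5 (.leaf [49, 467, 685, 26]) (.node 2 3 5 (.leaf [83, 469, 317]) (.node 0 4 5 (.leaf [96, 486, 686, 730, 317, 515]) (.leaf [709, 172, 746, 366, 118, 663, 345])))))) (.leaf [320, 628, 663, 345, 53, 515]))) (.leaf [320, 628, 103, 6]))) (.leaf [288, 242, 847, 260])) (.node 0 1 3 (.leaf [320, 244, 815, 258]) (.node 1 3 4 (.node 0 1 4 (.leaf [96, 118, 583, 260]) (.node 2 3 4 (.node 0 2 3 (.leaf [560, 83, 405, 633, 583, 260]) (.node 1 2 5 (.node 0 2 5 (.node 0 3 5 (.node 2 3 5 (.node 0 4 5 (.leaf [405, 633, 103, 486, 686, 202, 604]) (.leaf [560, 467, 685, 746, 366, 6])) (.leaf [467, 349, 53])) (.leaf [161, 730, 317, 19])) (.leaf [545, 450, 172, 26])) (.leaf [240, 975, 300,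 258]))) (.leaf [404, 345, 245, 847]))) (.leaf [240, 927, 329, 260])))))]

def HC2 : List (ℕ × Tr) := [
  (242465, (.node 2 3 4 (.node 1 3 4 (.node 0 1 2 (.node 0 2 4 (.leaf [288, 530, 385, 600, 405, 249, 783]) (.leaf [288, 242, 847, 404, 649, 280, 513])) (.node 0 2 4 (.leaf [528, 385, 600, 405, 249, 815, 258]) (.leaf [240, 847, 404, 649, 280, 545, 258]))) (.leaf [244, 863, 405, 329])) (.node 1 3 4 (.leaf [404, 345, 245, 847]) (.node 0 1 2 (.node 0 2 4 (.leaf [288, 530, 385, 664, 329, 244, 783]) (.leaf [288, 242, 927, 345, 645, 280, 513])) (.node 0 2 4 (.leaf [528, 385, 664, 329, 244, 815, 258]) (.leaf [240, 927, 345, 645, 280, 545, 258])))))),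
  (242466, (.node 1 3 4 (.node 0 1 3 (.leaf [320, 404, 249, 783]) (.node 2 3 4 (.node 0 2 3 (.leaf [560, 83, 405, 633, 583, 260]) (.node 0 2 4 (.leaf [385, 600, 53, 19]) (.node 0 1 2 (.node 1 2 3 (.leaf [16, 33, 66, 260]) (.node 0 3 5 (.node 2 3 5 (.leaf [560, 467, 717, 604, 69, 260]) (.leaf [467, 349, 53])) (.leaf [241, 991, 317, 579, 404, 649, 280]))) (.leaf [560, 579, 404, 649, 280, 1])))) (.leaf [404, 345, 245, 847]))) (.node 0 1 3 (.node 2 3 4 (.leaf [244, 863, 405, 329]) (.node 0 2 3 (.node 0 2 4 (.node 0 1 2 (.leaf [16, 385, 664, 329, 564, 515]) (.node 1 2 3 (.node 0 3 5 (.leaf [385, 664, 329, 564, 467, 253, 799]) (.node 2 3 5 (.leaf [83, 469, 317]) (.leaf [320, 84, 709, 732, 317, 515]))) (.leaf [320, 36, 18, 1]))) (.leaf [49, 83, 645, 280])) (.leaf [320, 628, 663, 345, 53, 515]))) (.leaf [240, 927, 329, 260])))),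
  (246467, (.node 0 1 2 (.node 0 1 3 (.node 1 2 4 (.leaf [288, 386, 248, 783]) (.node 0 2 4 (.leaf [97, 134, 296, 530]) (.node 0 3 4 (.leaf [320, 564, 403, 617, 22, 513]) (.node 2 3 4 (.leaf [243, 863, 405, 313]) (.node 1 3 5 (.leaf [320, 468, 253, 783]) (.node 0 1 5 (.node 2 3 5 (.leaf [244, 863, 469, 333]) (.node 0 4 5 (.leaf [645, 104, 486, 686, 186, 731, 349]) (.leaf [160, 746, 366, 662, 313, 515]))) (.leaf [320, 692, 171, 10]))))))) (.leaf [288, 242, 847, 260])) (.node 0 1 3 (.leaf [320, 244, 815, 258]) (.node 1 2 4 (.node 0 2 4 (.node 0 3 4 (.node 2 3 4 (.node 1 3 5 (.node 0 1 5 (.leaf [160, 186, 587, 260]) (.node 2 3 5 (.node 0 4 5 (.leaf [560, 403, 617, 486, 686, 10]) (.leaf [469, 701, 171, 746, 366, 134, 600])) (.leaf [468, 349, 245, 847]))) (.leaf [240, 991, 333, 260])) (.leaf [403, 345, 245, 831])) (.leaf [528, 97, 662, 313, 579, 260])) (.leaf [545, 386, 104, 22])) (.leaf [240, 911, 296, 258]))))),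
  (248003, (.node 0 1 2 (.node 0 1 3 (.node 1 2 4 (.leaf [288, 386, 248, 783]) (.node 0 2 4 (.leaf [97, 134, 296, 530]) (.node 0 3 4 (.leaf [320, 564, 403, 617, 22, 513]) (.node 0 2 5 (.leaf [288, 530, 449, 252, 927, 313, 515]) (.node 2 3 5 (.leaf [288, 242, 863, 469, 717, 284, 513]) (.leaf [288, 242, 991, 349, 709, 284, 513])))))) (.leaf [288, 242, 847, 260])) (.node 0 1 3 (.leaf [320, 244, 815, 258]) (.node 1 2 4 (.node 0 2 4 (.node 0 3 4 (.node 0 2 5 (.node 2 3 5 (.leaf [528, 449, 604, 469, 253, 815, 258]) (.leaf [528, 449, 732, 349, 245, 815, 258])) (.leaf [560, 403, 249, 975, 284, 545, 258])) (.leaf [528, 97, 662, 313, 579, 260])) (.leaf [545, 386, 104, 22])) (.leaf [240, 911, 296, 258]))))),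
  (248387, (.node 0 1 2 (.node 0 1 3 (.node 1 3 5 (.leaf [320, 468, 253, 783]) (.node 0 1 5 (.node 1 2 5 (.leaf [288, 178, 731, 333, 564, 515]) (.node 0 2 5 (.leaf [449, 188, 43, 530]) (.node 2 3 5 (.leaf [244, 863, 469, 333]) (.leaf [673, 186, 731, 349, 709, 284])))) (.leaf [320, 692, 171, 10]))) (.leaf [288, 242, 847, 260])) (.node 0 1 3 (.leaf [320, 244, 815, 258]) (.node 1 3 5 (.node 0 1 5 (.leaf [160, 186, 587, 260]) (.node 1 2 5 (.node 0 2 5 (.node 2 3 5 (.leaf [449, 604, 469, 701, 171, 538]) (.leaf [468, 349, 245, 847])) (.leaf [545, 178, 203, 284])) (.leaf [560, 579, 468, 701, 43, 258]))) (.leaf [240, 991, 333, 260]))))),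
  (248451, (.node 0 1 3 (.node 0 1 2 (.node 1 3 5 (.leaf [320, 468, 253, 783]) (.node 0 1 5 (.node 1 2 5 (.leaf [288, 178, 731, 333, 564, 515]) (.node 0 2 5 (.leaf [449, 188, 43, 530]) (.node 2 3 5 (.leaf [244, 863, 469, 333]) (.leaf [673, 186, 731, 349, 709, 284])))) (.leaf [320, 692, 171, 10]))) (.leaf [320, 244, 815, 258])) (.node 0 1 2 (.leaf [288, 242, 847, 260]) (.node 1 3 5 (.node 0 1 5 (.leaf [160, 186, 587, 260]) (.node 1 2 5 (.node 0 2 5 (.node 2 3 5 (.leaf [449, 604, 469, 701, 171, 538]) (.leaf [468, 349, 245, 847])) (.leaf [545, 178, 203, 284])) (.leaf [560, 579, 468, 701, 43, 258]))) (.leaf [240, 991, 333, 260]))))),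
  (248513, (.node 2 3 4 (.node 2 3 5 (.node 1 3 5 (.node 0 1 2 (.node 0 2 5 (.leaf [288, 530, 449, 604, 405, 249, 783]) (.leaf [288, 242, 847, 468, 717, 284, 513])) (.node 0 2 5 (.leaf [528, 449, 604, 405, 249, 815, 258]) (.leaf [240, 847, 468, 717, 284, 545, 258]))) (.leaf [244, 863, 469, 333])) (.leaf [405, 249, 991, 349])) (.node 2 3 5 (.leaf [469, 253, 927, 345]) (.node 1 3 5 (.leaf [468, 349, 245, 847]) (.node 0 1 2 (.node 0 2 5 (.leaf [288, 530, 449, 732, 333, 244, 783]) (.leaf [288, 242, 927, 345, 709, 284, 513])) (.node 0 2 5 (.leaf [528, 449, 732, 333, 244, 815, 258]) (.leaf [240, 927, 345, 709, 284, 545, 258]))))))),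
  (248514, (.node 2 3 4 (.node 0 3 4 (.node 2 3 5 (.node 1 3 5 (.node 0 1 3 (.leaf [320, 468, 253, 783]) (.node 0 2 3 (.leaf [560, 83, 469, 701, 587, 260]) (.node 1 2 3 (.node 0 1 2 (.leaf [16, 33, 66, 260]) (.node 0 2 5 (.leaf [449, 604, 53, 19]) (.leaf [560, 579, 468, 717, 284, 1]))) (.leaf [560, 403, 649, 600, 69, 260])))) (.leaf [244, 863, 469, 333])) (.leaf [405, 249, 991, 349])) (.leaf [243, 863, 405, 313])) (.node 0 3 4 (.leaf [403, 345, 245, 831]) (.node 2 3 5 (.leaf [469, 253, 927, 345]) (.node 1 3 5 (.leaf [468, 349, 245, 847]) (.node 0 1 3 (.node 0 2 3 (.node 1 2 3 (.leaf [320, 84, 645, 664, 313, 515]) (.node 0 1 2 (.node 0 2 5 (.leaf [16, 449, 732, 333, 564, 515]) (.leaf [49, 83, 709, 284])) (.leaf [320, 36, 18, 1]))) (.leaf [320, 692, 731, 349, 53, 515])) (.leaf [240, 991, 333, 260]))))))),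
  (275772, (.node 0 2 3 (.node 1 2 3 (.node 0 2 4 (.node 1 2 5 (.node 2 4 5 (.leaf [385, 488, 254, 799]) (.node 0 1 2 (.leaf [33, 450, 748, 398, 616, 534]) (.node 1 3 4 (.node 0 1 4 (.node 0 1 5 (.leaf [432, 555, 18, 1]) (.leaf [368, 247, 959, 267])) (.leaf [608, 534, 337, 581, 404, 633, 263])) (.leaf [450, 748, 398, 248, 927, 329, 548])))) (.leaf [338, 245, 975, 300])) (.leaf [337, 245, 911, 280])) (.leaf [337, 293, 242, 799])) (.node 1 2 3 (.leaf [241, 815, 338, 277]) (.node 0 2 4 (.leaf [385, 248, 863, 277]) (.node 1 2 5 (.leaf [450, 252, 863, 293]) (.node 2 4 5 (.node 0 1 2 (.node 1 3 4 (.leaf [578, 404, 249, 911, 488, 718, 300]) (.node 0 1 4 (.leaf [368, 663, 329, 596, 277, 609, 518]) (.node 0 1 5 (.leaf [432, 251, 895, 263]) (.leaf [16, 33, 690, 267])))) (.leaf [609, 646, 488, 718, 300, 18])) (.leaf [241, 1007, 398, 280]))))))),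
  (281820, (.node 0 2 3 (.node 1 2 3 (.node 1 2 4 (.node 0 2 4 (.node 0 2 5 (.node 2 4 5 (.leaf [386, 488, 254, 815]) (.node 0 1 2 (.node 0 1 4 (.node 0 3 4 (.leaf [16, 337, 565, 403, 617, 518]) (.leaf [449, 748, 398, 248, 927, 313, 531])) (.leaf [16, 97, 630, 263])) (.leaf [449, 748, 398, 632, 551, 18]))) (.leaf [337, 245, 975, 284])) (.leaf [337, 581, 548, 386, 104, 22])) (.leaf [338, 245, 911, 296])) (.leaf [337, 293, 242, 799])) (.node 1 2 3 (.leaf [241, 815, 338, 277]) (.node 1 2 4 (.leaf [386, 248, 863, 293]) (.node 0 2 4 (.leaf [97, 134, 296, 578, 596, 277]) (.node 0 2 5 (.leaf [449, 252, 863, 277]) (.node 2 4 5 (.node 0 1 2 (.leaf [33, 626, 647, 488, 718, 284]) (.node 0 1 4 (.leaf [368, 615, 22, 1]) (.node 0 3 4 (.leaf [561, 403, 249, 911, 488, 718, 284]) (.leaf [608, 662, 313, 595, 277, 1])))) (.leaf [242, 1007, 398, 296]))))))))]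

def HC3 : List (ℕ × Tr) := [
  (289433, (.node 0 1 2 (.node 1 2 3 (.leaf [288, 338, 245, 783]) (.node 0 1 3 (.node 0 2 3 (.leaf [49, 83, 293, 530]) (.node 0 1 4 (.node 0 3 4 (.node 2 3 4 (.node 0 3 5 (.node 0 2 5 (.node 2 4 5 (.leaf [449, 652, 600, 293, 530]) (.leaf [449, 748, 398, 600, 293, 530])) (.leaf [48, 467, 685, 714, 284, 513])) (.leaf [403, 249, 991, 317])) (.leaf [403, 345, 53])) (.leaf [368, 615, 662, 313, 19, 513])) (.leaf [288, 242, 895, 263]))) (.leaf [288, 578, 52, 3]))) (.node 1 2 3 (.node 0 1 3 (.leaf [48, 67, 548, 258]) (.node 0 2 3 (.node 0 1 4 (.leaf [368, 247, 815, 258]) (.node 0 3 4 (.leaf [528, 49, 403, 617, 630, 263]) (.node 2 3 4 (.leaf [83, 405, 313]) (.node 0 3 5 (.leaf [467, 253, 927, 313]) (.node 0 2 5 (.leaf [528, 449, 684, 730, 317, 3]) (.node 2 4 5 (.leaf [545, 338, 645, 488, 718, 284]) (.leaf [545, 338, 645, 712, 284]))))))) (.leaf [545, 338, 53, 19]))) (.leaf [240, 863,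 293, 258])))),
  (291605, (.node 0 1 2 (.node 0 1 4 (.node 1 2 5 (.leaf [288, 450, 252, 783]) (.node 0 2 3 (.node 2 4 5 (.leaf [337, 245, 911, 488, 718, 300, 530]) (.leaf [337, 245, 1007, 398, 712, 300, 530])) (.node 1 3 4 (.leaf [368, 583, 404, 249, 863, 277, 513]) (.leaf [368, 663, 329, 244, 863, 277, 513])))) (.leaf [288, 242, 895, 263])) (.node 0 1 4 (.leaf [368, 247, 815, 258]) (.node 1 2 5 (.node 0 2 3 (.node 1 3 4 (.leaf [528, 337, 245, 847, 404, 633, 263]) (.leaf [528, 337, 245, 927, 329, 628, 263])) (.node 2 4 5 (.leaf [545, 450, 652, 488, 254, 863, 277]) (.leaf [545, 450, 748, 398, 248, 863, 277]))) (.leaf [240, 975, 300, 258]))))),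
  (304553, (.node 0 1 2 (.node 1 2 3 (.leaf [288, 338, 245, 783]) (.node 0 1 3 (.node 0 2 3 (.leaf [49, 83, 293, 530]) (.node 0 1 5 (.node 0 3 5 (.node 0 3 4 (.node 0 2 4 (.node 2 3 5 (.node 2 4 5 (.leaf [385, 488, 254, 799]) (.leaf [385, 712, 604, 293, 530])) (.leaf [467, 349, 53])) (.leaf [48, 403, 617, 646, 280, 513])) (.leaf [467, 253, 927, 313])) (.leaf [432, 683, 730, 317, 19, 513])) (.leaf [288, 242, 959, 267]))) (.leaf [288, 578, 52, 3]))) (.node 1 2 3 (.node 0 1 3 (.leaf [48, 67, 548, 258]) (.node 0 2 3 (.node 0 1 5 (.leaf [432, 251, 815, 258]) (.node 0 3 5 (.leaf [528, 49, 467, 685, 698, 267]) (.node 0 3 4 (.leaf [403, 249, 991, 317]) (.node 0 2 4 (.leaf [528, 385, 616, 662, 313, 3]) (.node 2 3 5 (.leaf [83, 469, 317]) (.node 2 4 5 (.leaf [545, 338, 709, 652, 280]) (.leaf [241, 1007, 398, 280]))))))) (.leaf [545, 338, 53, 19]))) (.leaf [240, 863, 293, 258])))),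
  (312773, (.node 0 1 2 (.node 1 2 4 (.leaf [288, 386, 248, 783]) (.node 0 1 5 (.node 2 4 5 (.node 0 2 3 (.node 2 3 5 (.leaf [337, 469, 253, 799]) (.leaf [337, 709, 652, 296, 530])) (.node 1 3 5 (.leaf [432, 587, 468, 253, 863, 277, 513]) (.leaf [432, 731, 333, 244, 863, 277, 513]))) (.leaf [242, 1007, 398, 296])) (.leaf [288, 242, 959, 267]))) (.node 1 2 4 (.node 0 1 5 (.leaf [432, 251, 815, 258]) (.node 2 4 5 (.leaf [386, 488, 254, 815]) (.node 0 2 3 (.node 1 3 5 (.leaf [528, 337, 245, 847, 468, 701, 267]) (.leaf [528, 337, 245, 991, 333, 692, 267])) (.node 2 3 5 (.leaf [545, 386, 712, 604, 277]) (.leaf [241, 991, 349, 277]))))) (.leaf [240, 911, 296, 258])))),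
  (340757, (.node 0 1 2 (.node 0 1 4 (.node 1 2 5 (.leaf [288, 450, 252, 783]) (.node 0 2 5 (.leaf [161, 202, 300, 530]) (.node 0 4 5 (.leaf [368, 615, 486, 686, 26, 513]) (.node 1 3 4 (.leaf [368, 583, 404, 249, 1007, 366, 518]) (.leaf [368, 663, 329, 244, 1007, 366, 518]))))) (.leaf [288, 242, 895, 263])) (.node 0 1 4 (.leaf [368, 247, 815, 258]) (.node 1 2 5 (.node 0 2 5 (.node 0 4 5 (.node 1 3 4 (.leaf [608, 486, 254, 847, 404, 633, 263]) (.leaf [608, 486, 254, 927, 329, 628, 263])) (.leaf [528, 161, 746, 366, 630, 263])) (.leaf [545, 450, 172, 26])) (.leaf [240, 975, 300, 258]))))),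
  (345541, (.node 0 1 2 (.node 1 2 4 (.leaf [288, 386, 248, 783]) (.node 0 1 4 (.node 0 2 4 (.leaf [97, 134, 296, 530]) (.node 0 1 5 (.node 0 4 5 (.node 2 4 5 (.node 1 2 5 (.leaf [178, 203, 652, 296]) (.node 0 2 3 (.node 0 1 3 (.node 1 2 3 (.node 0 3 4 (.leaf [337, 565, 403, 617, 22]) (.node 1 3 4 (.leaf [67, 404, 313]) (.node 1 3 5 (.leaf [66, 468, 701, 43]) (.leaf [432, 731, 333, 628, 663, 313, 611, 486, 686, 522])))) (.leaf [337, 69, 36, 530])) (.leaf [288, 530, 337, 565, 3])) (.node 0 3 4 (.leaf [561, 403, 617, 486, 254, 863, 277]) (.leaf [96, 662, 313, 595, 277, 513])))) (.leaf [486, 398, 104])) (.leaf [432, 683, 746, 366, 22, 513])) (.leaf [288, 242, 959, 267]))) (.leaf [288, 626, 103, 6]))) (.node 1 2 4 (.node 0 1 4 (.leaf [96, 118, 551, 258]) (.node 0 2 4 (.node 0 1 5 (.leaf [432, 251, 815, 258]) (.node 0 4 5 (.leaf [528, 97, 486, 686, 698, 267]) (.node 2 4 5 (.leaf [134, 488, 366]) (.node 1 2 5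 (.node 0 2 3 (.node 0 3 4 (.leaf [528, 337, 565, 403, 617, 6]) (.leaf [337, 245, 1007, 366, 662, 313, 531])) (.node 0 1 3 (.leaf [48, 595, 277, 545, 258]) (.node 1 2 3 (.leaf [545, 66, 84, 277]) (.node 0 3 4 (.node 1 3 4 (.node 1 3 5 (.leaf [672, 746, 366, 566, 403, 633, 583, 468, 701, 267]) (.leaf [178, 731, 333, 36])) (.leaf [403, 329, 52])) (.leaf [97, 662, 313, 595, 277]))))) (.leaf [386, 712, 188, 43]))))) (.leaf [545, 386, 104, 22]))) (.leaf [240, 911, 296, 258])))),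
  (348949, (.node 0 1 2 (.node 0 1 4 (.node 1 2 5 (.leaf [288, 450, 252, 783]) (.node 0 2 5 (.leaf [161, 202, 300, 530]) (.node 0 4 5 (.leaf [368, 615, 486, 686, 26, 513]) (.node 1 3 4 (.leaf [368, 583, 404, 249, 1007, 366, 518]) (.leaf [368, 663, 329, 244, 1007, 366, 518]))))) (.leaf [288, 242, 895, 263])) (.node 0 1 4 (.leaf [368, 247, 815, 258]) (.node 1 2 5 (.node 0 2 5 (.node 0 4 5 (.node 1 3 4 (.leaf [608, 486, 254, 847, 404, 633, 263]) (.leaf [608, 486, 254, 927, 329, 628, 263])) (.leaf [528, 161, 746, 366, 630, 263])) (.leaf [545, 450, 172, 26])) (.leaf [240, 975, 300, 258]))))),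
  (353045, (.node 1 3 4 (.node 2 3 4 (.node 0 2 3 (.leaf [337, 405, 249, 799]) (.node 0 1 3 (.leaf [561, 67, 404, 649, 600, 277]) (.node 0 1 4 (.leaf [368, 583, 52, 3]) (.node 0 1 2 (.leaf [288, 242, 895, 263]) (.node 0 2 4 (.leaf [97, 134, 600, 277]) (.node 0 3 5 (.node 0 4 5 (.leaf [608, 486, 254, 863, 277, 545, 258]) (.leaf [561, 467, 685, 746, 366, 22])) (.leaf [240, 991, 317, 595, 277, 545, 258]))))))) (.leaf [404, 345, 245, 847])) (.node 2 3 4 (.leaf [244, 863, 405, 329]) (.node 0 2 3 (.node 0 1 3 (.node 0 1 4 (.node 0 1 2 (.node 0 2 4 (.node 0 3 5 (.leaf [288, 530, 337, 565, 467, 253, 783]) (.node 0 4 5 (.leaf [97, 486, 686, 730, 317, 531]) (.leaf [368, 663, 329, 244, 1007, 366, 518]))) (.leaf [337, 645, 104, 22])) (.leaf [368, 247, 815, 258])) (.leaf [48, 67, 628, 263])) (.leaf [337, 645, 664, 329, 52, 531])) (.leaf [241, 927, 345, 277]))))),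
  (356629, (.node 0 1 2 (.node 0 1 4 (.node 1 2 5 (.leaf [288, 450, 252, 783]) (.node 0 2 5 (.leaf [161, 202, 300, 530]) (.node 0 4 5 (.leaf [368, 615, 486, 686, 26, 513]) (.node 1 3 4 (.leaf [368, 583, 404, 249, 1007, 366, 518]) (.leaf [368, 663, 329, 244, 1007, 366, 518]))))) (.leaf [288, 242, 895, 263])) (.node 0 1 4 (.leaf [368, 247, 815, 258]) (.node 1 2 5 (.node 0 2 5 (.node 0 4 5 (.node 1 3 4 (.leaf [608, 486, 254, 847, 404, 633, 263]) (.leaf [608, 486, 254, 927, 329, 628, 263])) (.leaf [528, 161, 746, 366, 630, 263])) (.leaf [545, 450, 172, 26])) (.leaf [240, 975, 300, 258]))))),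
  (356885, (.node 0 1 2 (.node 0 1 4 (.node 1 2 5 (.leaf [288, 450, 252, 783]) (.node 0 1 5 (.node 0 2 5 (.leaf [161, 202, 300, 530]) (.node 0 4 5 (.leaf [368, 615, 486, 686, 26, 513]) (.node 0 2 3 (.leaf [288, 530, 337, 245, 1007, 366, 518]) (.node 0 3 4 (.node 2 3 4 (.node 2 4 5 (.leaf [150, 649, 488, 366]) (.leaf [160, 746, 398, 600, 277, 513])) (.leaf [241, 927, 345, 277])) (.leaf [368, 615, 54, 595, 277, 513]))))) (.leaf [288, 690, 171, 10]))) (.leaf [288, 242, 895, 263])) (.node 0 1 4 (.leaf [368, 247, 815, 258]) (.node 1 2 5 (.node 0 1 5 (.leaf [160, 186, 555, 258]) (.node 0 2 5 (.node 0 4 5 (.node 0 2 3 (.node 0 3 4 (.leaf [528, 337, 565, 99, 630, 263]) (.node 2 3 4 (.leaf [337, 405, 249, 799]) (.node 2 4 5 (.leaf [528, 337, 645, 488, 686, 10]) (.leaf [486, 398, 664, 105])))) (.leaf [608, 486, 254, 863, 277, 545, 258])) (.leaf [528, 161, 746, 366, 630, 263])) (.leaf [545, 450, 172, 26]))) (.leaf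 [240, 975, 300, 258])))))]

def HC4 : List (ℕ × Tr) := [
  (357125, (.node 1 3 4 (.node 2 3 4 (.node 0 2 3 (.leaf [337, 405, 249, 799]) (.node 0 2 4 (.leaf [97, 134, 600, 277]) (.node 1 3 5 (.node 0 3 5 (.node 0 4 5 (.node 0 1 5 (.leaf [404, 649, 104, 486, 686, 186, 587]) (.node 0 1 2 (.leaf [288, 530, 561, 467, 685, 10]) (.node 1 2 5 (.node 2 4 5 (.leaf [545, 450, 652, 600, 277]) (.leaf [486, 398, 104])) (.leaf [240, 975, 300, 258])))) (.leaf [561, 467, 685, 746, 366, 22])) (.leaf [243, 847, 468, 317])) (.leaf [404, 249, 991, 333])))) (.leaf [404, 345, 245, 847])) (.node 2 3 4 (.leaf [244, 863, 405, 329]) (.node 0 2 3 (.node 0 2 4 (.node 1 3 5 (.leaf [468, 253, 927, 329]) (.node 0 3 5 (.leaf [467, 333, 244, 831]) (.node 0 4 5 (.leaf [97, 486, 686, 730, 317, 531]) (.node 0 1 5 (.node 0 1 2 (.node 1 2 5 (.leaf [288, 450, 252, 783]) (.node 2 4 5 (.leaf [134, 488, 366]) (.leaf [337, 645, 712, 300, 530])))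 (.leaf [160, 730, 317, 531, 545, 258])) (.leaf [692, 171, 746, 366, 134, 664, 329]))))) (.leaf [337, 645, 104, 22])) (.leaf [241, 927, 345, 277]))))),
  (357137, (.node 0 1 2 (.node 0 1 4 (.node 1 2 5 (.leaf [288, 450, 252, 783]) (.node 0 2 5 (.leaf [161, 202, 300, 530]) (.node 0 4 5 (.leaf [368, 615, 486, 686, 26, 513]) (.node 1 3 4 (.leaf [368, 583, 404, 249, 1007, 366, 518]) (.leaf [368, 663, 329, 244, 1007, 366, 518]))))) (.leaf [288, 242, 895, 263])) (.node 0 1 4 (.leaf [368, 247, 815, 258]) (.node 1 2 5 (.node 0 2 5 (.node 0 4 5 (.node 1 3 4 (.leaf [608, 486, 254, 847, 404, 633, 263]) (.leaf [608, 486, 254, 927, 329, 628, 263])) (.leaf [528, 161, 746, 366, 630, 263])) (.leaf [545, 450, 172, 26])) (.leaf [240, 975, 300, 258]))))),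
  (357140, (.node 1 3 4 (.node 2 3 4 (.node 0 2 3 (.leaf [337, 405, 249, 799]) (.node 0 1 3 (.leaf [561, 67, 404, 649, 600, 277]) (.node 0 1 4 (.leaf [368, 583, 52, 3]) (.node 0 2 4 (.leaf [97, 134, 600, 277]) (.node 0 3 5 (.node 0 4 5 (.leaf [608, 486, 254, 847, 404, 633, 263]) (.leaf [561, 467, 685, 746, 366, 22])) (.leaf [240, 991, 317, 595, 405, 633, 263])))))) (.leaf [404, 345, 245, 847])) (.node 2 3 4 (.leaf [244, 863, 405, 329]) (.node 0 2 3 (.node 0 1 3 (.node 0 1 4 (.node 0 2 4 (.node 0 3 5 (.leaf [368, 663, 345, 565, 467, 253, 783]) (.node 0 4 5 (.leaf [97, 486, 686, 730, 317, 531]) (.leaf [368, 663, 329, 244, 1007, 366, 518]))) (.leaf [337, 645, 104, 22])) (.leaf [48, 67, 628, 263])) (.leaf [337, 645, 664, 329, 52, 531])) (.leaf [241, 927, 345, 277]))))),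
  (361925, (.node 0 1 2 (.node 1 2 4 (.leaf [288, 386, 248, 783]) (.node 0 1 4 (.node 0 2 4 (.leaf [97, 134, 296, 530]) (.node 0 1 5 (.node 0 4 5 (.node 2 4 5 (.node 0 2 3 (.node 2 3 5 (.leaf [337, 469, 253, 799]) (.leaf [337, 709, 652, 296, 530])) (.node 0 3 4 (.leaf [561, 403, 617, 486, 254, 863, 277]) (.leaf [96, 662, 313, 595, 277, 513]))) (.leaf [486, 398, 104])) (.leaf [432, 683, 746, 366, 22, 513])) (.leaf [288, 242, 959, 267]))) (.leaf [288, 626, 103, 6]))) (.node 1 2 4 (.node 0 1 4 (.leaf [96, 118, 551, 258]) (.node 0 2 4 (.node 0 1 5 (.leaf [432, 251, 815, 258]) (.node 0 4 5 (.leaf [528, 97, 486, 686, 698, 267]) (.node 2 4 5 (.leaf [134, 488, 366]) (.node 0 2 3 (.node 0 3 4 (.leaf [528, 337, 565, 403, 617, 6]) (.leaf [337, 245, 1007, 366, 662, 313, 531])) (.node 2 3 5 (.leaf [545, 386, 712, 604, 277]) (.leaf [241, 991, 349, 277])))))) (.leaf [545, 386, 104, 22]))) (.leaf [240, 911, 296, 258])))),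
  (377285, (.node 1 2 4 (.node 0 1 2 (.leaf [288, 386, 248, 783]) (.node 0 1 4 (.leaf [96, 118, 551, 258]) (.node 2 4 5 (.leaf [386, 488, 254, 815]) (.node 0 4 5 (.leaf [486, 398, 632, 103]) (.node 0 2 3 (.node 0 3 4 (.leaf [528, 337, 565, 403, 617, 6]) (.leaf [337, 245, 1007, 366, 662, 313, 531])) (.node 2 3 5 (.leaf [545, 386, 712, 604, 277]) (.leaf [241, 991, 349, 277]))))))) (.node 0 1 2 (.node 0 1 4 (.node 2 4 5 (.node 0 4 5 (.node 0 2 3 (.node 2 3 5 (.leaf [337, 469, 253, 799]) (.leaf [337, 709, 652, 296, 530])) (.node 0 3 4 (.leaf [561, 403, 617, 486, 254, 863, 277]) (.leaf [96, 662, 313, 595, 277, 513]))) (.leaf [118, 647, 488, 366])) (.leaf [242, 1007, 398, 296])) (.leaf [288, 626, 103, 6])) (.leaf [240, 911, 296, 258])))),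
  (378053, (.node 0 1 2 (.node 1 2 4 (.leaf [288, 386, 248, 783]) (.node 0 1 4 (.node 0 2 4 (.leaf [97, 134, 296, 530]) (.node 0 1 5 (.node 0 4 5 (.node 2 4 5 (.node 0 2 3 (.node 2 3 5 (.leaf [337, 469, 253, 799]) (.leaf [337, 709, 652, 296, 530])) (.node 0 3 4 (.leaf [561, 403, 617, 486, 254, 863, 277]) (.leaf [96, 662, 313, 595, 277, 513]))) (.leaf [486, 398, 104])) (.leaf [432, 683, 746, 366, 22, 513])) (.leaf [288, 242, 959, 267]))) (.leaf [288, 626, 103, 6]))) (.node 1 2 4 (.node 0 1 4 (.leaf [96, 118, 551, 258]) (.node 0 2 4 (.node 0 1 5 (.leaf [432, 251, 815, 258]) (.node 0 4 5 (.leaf [528, 97, 486, 686, 698, 267]) (.node 2 4 5 (.leaf [134, 488, 366]) (.node 0 2 3 (.node 0 3 4 (.leaf [528, 337, 565, 403, 617, 6]) (.leaf [337, 245, 1007, 366, 662, 313, 531])) (.node 2 3 5 (.leaf [545, 386, 712, 604, 277]) (.leaf [241, 991, 349, 277])))))) (.leaf [545, 386, 104, 22]))) (.leaf [240, 911, 296, 258])))),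
  (378181, (.node 0 1 2 (.node 1 2 4 (.leaf [288, 386, 248, 783]) (.node 0 2 4 (.leaf [97, 134, 296, 530]) (.node 0 1 5 (.node 0 4 5 (.node 2 4 5 (.node 0 2 3 (.node 2 3 5 (.leaf [337, 469, 253, 799]) (.leaf [337, 709, 652, 296, 530])) (.node 1 3 5 (.leaf [432, 587, 468, 253, 863, 277, 513]) (.leaf [432, 731, 333, 244, 863, 277, 513]))) (.leaf [486, 398, 104])) (.leaf [432, 683, 746, 366, 22, 513])) (.leaf [288, 242, 959, 267])))) (.node 1 2 4 (.node 0 2 4 (.node 0 1 5 (.leaf [432, 251, 815, 258]) (.node 0 4 5 (.leaf [528, 97, 486, 686, 698, 267]) (.node 2 4 5 (.leaf [134, 488, 366]) (.node 0 2 3 (.node 1 3 5 (.leaf [528, 337, 245, 847, 468, 701, 267]) (.leaf [528, 337, 245, 991, 333, 692, 267])) (.node 2 3 5 (.leaf [545, 386, 712, 604, 277]) (.leaf [241, 991, 349, 277])))))) (.leaf [545, 386, 104, 22])) (.leaf [240, 911, 296, 258])))),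
  (378245, (.node 1 3 4 (.node 0 3 4 (.node 1 3 5 (.node 2 3 5 (.node 0 2 3 (.leaf [337, 469, 253, 799]) (.node 0 1 3 (.leaf [561, 67, 468, 717, 604, 277]) (.node 0 1 5 (.leaf [432, 587, 52, 3]) (.node 0 4 5 (.leaf [561, 403, 617, 486, 254, 863, 277]) (.leaf [672, 746, 366, 566, 403, 633, 583, 468, 701, 267]))))) (.leaf [468, 349, 245, 847])) (.leaf [404, 249, 991, 333])) (.leaf [243, 847, 404, 313])) (.node 0 3 4 (.leaf [403, 329, 244, 831]) (.node 1 3 5 (.leaf [468, 253, 927, 329]) (.node 2 3 5 (.leaf [244, 863, 469, 333]) (.node 0 2 3 (.node 0 1 3 (.node 0 1 5 (.node 0 4 5 (.leaf [432, 731, 333, 628, 663, 313, 611, 486, 686, 522]) (.leaf [337, 245, 1007, 366, 662, 313, 531])) (.leaf [48, 67, 692, 267])) (.leaf [337, 709, 732, 333, 52, 531])) (.leaf [241, 991, 349, 277]))))))),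
  (378305, (.node 0 1 2 (.node 1 2 4 (.leaf [288, 386, 248, 783]) (.node 0 2 4 (.leaf [97, 134, 296, 530]) (.node 0 1 5 (.node 0 4 5 (.node 0 1 3 (.node 0 3 4 (.leaf [48, 403, 617, 486, 686, 522]) (.node 1 3 4 (.leaf [67, 404, 313]) (.node 1 3 5 (.leaf [468, 253, 927, 329]) (.leaf [432, 731, 333, 628, 663, 313, 611, 486, 686, 522])))) (.node 1 3 5 (.leaf [432, 587, 52, 3]) (.leaf [432, 731, 333, 52, 3]))) (.leaf [432, 683, 746, 366, 22, 513])) (.leaf [288, 242, 959, 267])))) (.node 1 2 4 (.node 0 2 4 (.node 0 1 5 (.leaf [432, 251, 815, 258]) (.node 0 4 5 (.leaf [528, 97, 486, 686, 698, 267]) (.node 0 1 3 (.node 1 3 5 (.leaf [48, 67, 468, 701, 267]) (.leaf [48, 67, 692, 267])) (.node 0 3 4 (.node 1 3 4 (.node 1 3 5 (.leaf [672, 746, 366, 566, 403, 633, 583, 468, 701, 267]) (.leaf [404, 249, 991, 333])) (.leaf [403, 329, 52])) (.leaf [672, 746, 366, 662, 313, 3]))))) (.leaf [545, 386, 104, 22])) (.leaf [240,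 911, 296, 258])))),
  (378308, (.node 1 3 4 (.node 0 3 4 (.node 1 3 5 (.node 2 3 5 (.node 0 2 3 (.leaf [337, 469, 253, 799]) (.node 0 1 3 (.leaf [561, 67, 468, 717, 604, 277]) (.node 0 1 5 (.leaf [432, 587, 52, 3]) (.node 0 4 5 (.leaf [561, 403, 617, 486, 254, 863, 277]) (.leaf [672, 746, 366, 566, 403, 633, 583, 468, 701, 267]))))) (.leaf [468, 349, 245, 847])) (.leaf [404, 249, 991, 333])) (.leaf [243, 847, 404, 313])) (.node 0 3 4 (.leaf [403, 329, 244, 831]) (.node 1 3 5 (.leaf [468, 253, 927, 329]) (.node 2 3 5 (.leaf [244, 863, 469, 333]) (.node 0 2 3 (.node 0 1 3 (.node 0 1 5 (.node 0 4 5 (.leaf [432, 731, 333, 628, 663, 313, 611, 486, 686, 522]) (.leaf [337, 245, 1007, 366, 662, 313, 531])) (.leaf [48, 67, 692, 267])) (.leaf [337, 709, 732, 333, 52, 531])) (.leaf [241, 991, 349, 277])))))))]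

def HC5 : List (ℕ × Tr) := [
  (402857, (.node 0 1 2 (.node 1 2 3 (.leaf [288, 338, 245, 783]) (.node 0 1 3 (.node 0 2 3 (.leaf [49, 83, 293, 530]) (.node 0 1 5 (.node 0 3 5 (.node 0 3 4 (.node 0 2 4 (.node 1 2 4 (.node 1 3 4 (.node 1 4 5 (.leaf [288, 114, 487, 254, 783]) (.leaf [432, 747, 382, 583, 404, 249, 783])) (.leaf [403, 329, 596, 53])) (.leaf [385, 120, 39, 530])) (.leaf [48, 403, 617, 646, 280, 513])) (.leaf [467, 253, 927, 313])) (.leaf [432, 683, 730, 317, 19, 513])) (.leaf [288, 242, 959, 267]))) (.leaf [288, 578, 52, 3]))) (.node 1 2 3 (.node 0 1 3 (.leaf [48, 67, 548, 258]) (.node 0 2 3 (.node 0 1 5 (.leaf [432, 251, 815, 258]) (.node 0 3 5 (.leaf [528, 49, 467, 685, 698, 267]) (.node 0 3 4 (.leaf [403, 249, 991, 317]) (.node 0 2 4 (.leaf [528, 385, 616, 662, 313, 3]) (.node 1 2 4 (.leaf [545, 114, 135, 280]) (.node 1 3 4 (.leaf [83, 581, 404, 313]) (.node 1 4 5 (.leaf [240, 927, 329, 628,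 487, 702, 267]) (.leaf [240, 1007, 382, 39, 258])))))))) (.leaf [545, 338, 53, 19]))) (.leaf [240, 863, 293, 258])))),
  (404121, (.node 0 1 2 (.node 1 2 3 (.leaf [288, 338, 245, 783]) (.node 0 1 3 (.node 0 2 3 (.leaf [49, 83, 293, 530]) (.node 0 1 4 (.node 0 3 4 (.node 2 3 4 (.node 1 2 4 (.leaf [114, 135, 600, 293]) (.node 0 3 5 (.node 0 1 5 (.node 0 2 5 (.node 1 4 5 (.leaf [368, 487, 254, 783]) (.leaf [449, 684, 186, 747, 382, 39, 530])) (.leaf [48, 467, 685, 714, 284, 513])) (.leaf [48, 467, 685, 10])) (.leaf [403, 249, 991, 317]))) (.leaf [403, 345, 53])) (.leaf [368, 615, 662, 313, 19, 513])) (.leaf [288, 242, 895, 263]))) (.leaf [288, 578, 52, 3]))) (.node 1 2 3 (.node 0 1 3 (.leaf [48, 67, 548, 258]) (.node 0 2 3 (.node 0 1 4 (.leaf [368, 247, 815, 258]) (.node 0 3 4 (.leaf [528, 49, 403, 617, 630, 263]) (.node 2 3 4 (.leaf [83, 405, 313]) (.node 1 2 4 (.node 0 3 5 (.leaf [467, 253, 927, 313]) (.node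 0 1 5 (.leaf [160, 730, 317, 3]) (.node 0 2 5 (.leaf [528, 449, 684, 730, 317, 3]) (.node 1 4 5 (.leaf [545, 114, 487, 702, 171, 714, 284]) (.leaf [240, 1007, 382, 263]))))) (.leaf [338, 645, 120, 39]))))) (.leaf [545, 338, 53, 19]))) (.leaf [240, 863, 293, 258])))),
  (412313, (.node 0 1 2 (.node 1 2 3 (.leaf [288, 338, 245, 783]) (.node 0 1 3 (.node 0 2 3 (.leaf [49, 83, 293, 530]) (.node 0 1 4 (.node 0 3 4 (.node 1 3 4 (.node 2 3 4 (.node 1 2 4 (.leaf [114, 135, 600, 293]) (.node 1 4 5 (.leaf [368, 487, 254, 783]) (.node 0 1 5 (.node 0 2 5 (.leaf [449, 684, 186, 747, 382, 39, 530]) (.node 2 4 5 (.leaf [151, 649, 488, 382]) (.leaf [48, 403, 649, 712, 284, 513]))) (.leaf [368, 695, 171, 10])))) (.leaf [403, 345, 53])) (.leaf [403, 121, 71, 596, 53])) (.leaf [368, 615, 662, 313, 19, 513])) (.leaf [288, 242, 895, 263]))) (.leaf [288, 578, 52, 3]))) (.node 1 2 3 (.node 0 1 3 (.leaf [48, 67, 548, 258]) (.node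 0 2 3 (.node 0 1 4 (.leaf [368, 247, 815, 258]) (.node 0 3 4 (.leaf [528, 49, 403, 617, 630, 263]) (.node 1 3 4 (.leaf [83, 581, 116, 151, 313]) (.node 2 3 4 (.leaf [83, 405, 313]) (.node 1 2 4 (.node 1 4 5 (.node 0 1 5 (.leaf [160, 186, 635, 263]) (.node 0 2 5 (.node 2 4 5 (.leaf [528, 449, 652, 664, 313, 3]) (.leaf [487, 398, 664, 121])) (.leaf [545, 114, 487, 702, 171, 714, 284]))) (.leaf [240, 1007, 382, 263])) (.leaf [338, 645, 120, 39])))))) (.leaf [545, 338, 53, 19]))) (.leaf [240, 863, 293, 258])))),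
  (418457, (.node 0 1 2 (.node 1 2 3 (.leaf [288, 338, 245, 783]) (.node 0 2 3 (.leaf [49, 83, 293, 530]) (.node 0 1 4 (.node 0 3 4 (.node 2 3 4 (.node 1 2 4 (.leaf [114, 135, 600, 293]) (.node 0 3 5 (.node 1 3 5 (.node 1 4 5 (.leaf [368, 487, 254, 783]) (.leaf [578, 468, 701, 747, 382, 39])) (.leaf [467, 333, 596, 53])) (.leaf [403, 249, 991, 317]))) (.leaf [403, 345, 53])) (.leaf [368, 615, 662, 313, 19, 513])) (.leaf [288, 242, 895, 263])))) (.node 1 2 3 (.node 0 2 3 (.node 0 1 4 (.leaf [368, 247, 815, 258]) (.node 0 3 4 (.leaf [528, 49, 403, 617, 630, 263]) (.node 2 3 4 (.leaf [83, 405, 313]) (.node 1 2 4 (.node 0 3 5 (.leaf [467, 253, 927, 313]) (.node 1 3 5 (.leaf [83, 581, 468, 317]) (.node 1 4 5 (.leaf [114, 487, 702, 731, 333, 548]) (.leaf [240, 1007, 382, 263])))) (.leaf [338, 645, 120, 39]))))) (.leaf [545, 338, 53, 19])) (.leaf [240, 863, 293, 258])))),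
  (419993, (.node 0 1 2 (.node 1 2 3 (.leaf [288, 338, 245, 783]) (.node 0 1 3 (.node 0 2 3 (.leaf [49, 83, 293, 530]) (.node 0 1 4 (.node 0 3 4 (.node 0 3 5 (.node 0 2 5 (.node 2 4 5 (.leaf [288, 530, 449, 652, 488, 254, 783]) (.leaf [288, 530, 449, 748, 398, 248, 783])) (.leaf [48, 467, 685, 714, 284, 513])) (.leaf [403, 249, 991, 317])) (.leaf [368, 615, 662, 313, 19, 513])) (.leaf [288, 242, 895, 263]))) (.leaf [288, 578, 52, 3]))) (.node 1 2 3 (.node 0 1 3 (.leaf [48, 67, 548, 258]) (.node 0 2 3 (.node 0 1 4 (.leaf [368, 247, 815, 258]) (.node 0 3 4 (.leaf [528, 49, 403, 617, 630, 263]) (.node 0 3 5 (.leaf [467, 253, 927, 313]) (.node 0 2 5 (.leaf [528, 449, 684, 730, 317, 3]) (.node 2 4 5 (.leaf [240, 911, 488, 718, 284, 545, 258]) (.leaf [240, 1007, 398, 712, 284, 545, 258])))))) (.leaf [545, 338, 53, 19]))) (.leaf [240, 863, 293, 258])))),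
  (420377, (.node 0 1 2 (.node 1 2 3 (.leaf [288, 338, 245, 783]) (.node 0 1 4 (.node 1 3 4 (.node 2 3 4 (.node 1 2 4 (.leaf [114, 135, 600, 293]) (.node 1 4 5 (.leaf [368, 487, 254, 783]) (.node 0 1 5 (.node 0 2 5 (.leaf [449, 684, 186, 747, 382, 39, 530]) (.node 2 4 5 (.leaf [151, 649, 488, 382]) (.leaf [368, 151, 649, 712, 284, 513]))) (.leaf [368, 695, 171, 10])))) (.leaf [242, 927, 345, 293])) (.leaf [368, 71, 596, 293, 530, 513])) (.leaf [288, 242, 895, 263]))) (.node 1 2 3 (.node 0 1 4 (.leaf [368, 247, 815, 258]) (.node 1 3 4 (.leaf [528, 545, 338, 581, 116, 263]) (.node 2 3 4 (.leaf [338, 405, 249, 815]) (.node 1 2 4 (.node 1 4 5 (.node 0 1 5 (.leaf [160, 186, 635, 263]) (.node 0 2 5 (.node 2 4 5 (.leaf [528, 449, 652, 664, 121, 263]) (.leaf [487, 398, 664, 121])) (.leaf [545, 114, 487, 702, 171, 714, 284]))) (.leaf [240, 1007, 382, 263])) (.leaf [338, 645, 120, 39]))))) (.leaf [240, 863, 293,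 258])))),
  (420489, (.node 1 2 3 (.node 0 1 2 (.leaf [288, 338, 245, 783]) (.node 0 1 3 (.leaf [48, 67, 548, 258]) (.node 2 3 4 (.leaf [338, 405, 249, 815]) (.node 0 3 4 (.leaf [403, 345, 581, 52]) (.node 0 3 5 (.leaf [467, 253, 927, 313]) (.node 0 2 5 (.leaf [528, 449, 684, 730, 317, 3]) (.node 2 4 5 (.leaf [545, 338, 645, 488, 718, 284]) (.leaf [545, 338, 645, 712, 284])))))))) (.node 0 1 2 (.node 0 1 3 (.node 2 3 4 (.node 0 3 4 (.node 0 3 5 (.node 0 2 5 (.node 2 4 5 (.leaf [449, 652, 600, 293, 530]) (.leaf [449, 748, 398, 600, 293, 530])) (.leaf [48, 467, 685, 714, 284, 513])) (.leaf [403, 249, 991, 317])) (.leaf [67, 596, 405, 313])) (.leaf [242, 927, 345, 293])) (.leaf [288, 578, 52, 3])) (.leaf [240, 863, 293, 258])))),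
  (420497, (.node 0 1 4 (.node 0 1 2 (.node 1 4 5 (.leaf [368, 487, 254, 783]) (.node 0 1 5 (.node 1 2 5 (.leaf [288, 178, 747, 382, 615, 518]) (.node 0 2 5 (.leaf [449, 188, 43, 530]) (.node 2 4 5 (.leaf [247, 911, 488, 382]) (.leaf [673, 186, 747, 398, 712, 284])))) (.leaf [368, 695, 171, 10]))) (.leaf [368, 247, 815, 258])) (.node 0 1 2 (.leaf [288, 242, 895, 263]) (.node 1 4 5 (.node 0 1 5 (.leaf [160, 186, 635, 263]) (.node 1 2 5 (.node 0 2 5 (.node 2 4 5 (.leaf [449, 652, 488, 702, 171, 538]) (.leaf [487, 398, 248, 895])) (.leaf [545, 178, 203, 284])) (.leaf [608, 630, 487, 702, 43, 258]))) (.leaf [240, 1007, 382, 263]))))),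
  (420504, (.node 0 3 4 (.node 2 3 4 (.node 1 2 3 (.leaf [338, 405, 249, 815]) (.node 0 1 3 (.node 0 1 4 (.node 1 2 4 (.leaf [114, 135, 600, 293]) (.node 0 3 5 (.node 1 3 5 (.node 1 4 5 (.leaf [368, 487, 254, 783]) (.leaf [578, 468, 701, 747, 382, 39])) (.leaf [467, 333, 244, 831])) (.leaf [403, 249, 991, 317]))) (.leaf [48, 403, 617, 630, 263])) (.leaf [578, 52, 403, 649, 600, 293]))) (.leaf [403, 345, 245, 831])) (.node 2 3 4 (.leaf [243, 863, 405, 313]) (.node 1 2 3 (.node 0 1 3 (.leaf [338, 645, 664, 313, 67, 548]) (.node 0 1 4 (.leaf [368, 615, 662, 313, 3]) (.node 1 2 4 (.node 0 3 5 (.leaf [467, 253, 927, 313]) (.node 1 3 5 (.leaf [243, 847, 468, 317]) (.node 1 4 5 (.leaf [114, 487, 702, 731, 333, 548]) (.leaf [240, 1007, 382, 263])))) (.leaf [338, 645, 120, 39])))) (.leaf [242, 927, 345, 293]))))),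
  (427433, (.node 0 1 2 (.node 1 2 3 (.leaf [288, 338, 245, 783]) (.node 0 1 5 (.node 2 3 5 (.node 0 2 4 (.node 2 4 5 (.leaf [385, 488, 254, 799]) (.leaf [385, 712, 604, 293, 530])) (.node 1 4 5 (.leaf [432, 635, 487, 254, 911, 280, 513]) (.leaf [432, 747, 382, 247, 911, 280, 513]))) (.leaf [242, 991, 349, 293])) (.leaf [288, 242, 959, 267]))) (.node 1 2 3 (.node 0 1 5 (.leaf [432, 251, 815, 258]) (.node 2 3 5 (.leaf [338, 469, 253, 815]) (.node 0 2 4 (.node 1 4 5 (.leaf [528, 385, 248, 895, 487, 702, 267]) (.leaf [528, 385, 248, 1007, 382, 695, 267])) (.node 2 4 5 (.leaf [545, 338, 709, 652, 280]) (.leaf [241, 1007, 398, 280]))))) (.leaf [240, 863, 293, 258]))))]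

def HC6 : List (ℕ × Tr) := [
  (434601, (.node 1 2 3 (.node 0 1 2 (.leaf [288, 338, 245, 783]) (.node 0 1 3 (.leaf [48, 67, 548, 258]) (.node 2 3 5 (.leaf [338, 469, 253, 815]) (.node 0 3 5 (.leaf [467, 349, 581, 52]) (.node 0 3 4 (.leaf [403, 249, 991, 317]) (.node 0 2 4 (.leaf [528, 385, 616, 662, 313, 3]) (.node 2 4 5 (.leaf [545, 338, 709, 652, 280]) (.leaf [241, 1007, 398, 280])))))))) (.node 0 1 2 (.node 0 1 3 (.node 2 3 5 (.node 0 3 5 (.node 0 3 4 (.node 0 2 4 (.node 2 4 5 (.leaf [385, 488, 254, 799]) (.leaf [385, 712, 604, 293, 530])) (.leaf [48, 403, 617, 646, 280, 513])) (.leaf [467, 253, 927, 313])) (.leaf [67, 596, 469, 317])) (.leaf [242, 991, 349, 293])) (.leaf [288, 578, 52, 3])) (.leaf [240, 863, 293, 258])))),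
  (435369, (.node 0 1 2 (.node 1 2 3 (.leaf [288, 338, 245, 783]) (.node 0 1 3 (.node 0 2 3 (.leaf [49, 83, 293, 530]) (.node 0 1 5 (.node 0 3 5 (.node 0 3 4 (.node 0 2 4 (.node 2 3 5 (.node 2 4 5 (.leaf [385, 488, 254, 799]) (.leaf [385, 712, 604, 293, 530])) (.leaf [467, 349, 53])) (.leaf [48, 403, 617, 646, 280, 513])) (.leaf [467, 253, 927, 313])) (.leaf [432, 683, 730, 317, 19, 513])) (.leaf [288, 242, 959, 267]))) (.leaf [288, 578, 52, 3]))) (.node 1 2 3 (.node 0 1 3 (.leaf [48, 67, 548, 258]) (.node 0 2 3 (.node 0 1 5 (.leaf [432, 251, 815, 258]) (.node 0 3 5 (.leaf [528, 49, 467, 685, 698, 267]) (.node 0 3 4 (.leaf [403, 249, 991, 317]) (.node 0 2 4 (.leaf [528, 385, 616, 662, 313, 3]) (.node 2 3 5 (.leaf [83, 469, 317]) (.node 2 4 5 (.leaf [545, 338, 709, 652, 280]) (.leaf [241, 1007, 398, 280]))))))) (.leaf [545, 338, 53, 19]))) (.leaf [240, 863, 293, 258])))),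
  (435497, (.node 0 1 2 (.node 1 2 3 (.leaf [288, 338, 245, 783]) (.node 0 2 3 (.leaf [49, 83, 293, 530]) (.node 0 1 5 (.node 0 3 5 (.node 2 3 5 (.node 0 2 4 (.node 2 4 5 (.leaf [385, 488, 254, 799]) (.leaf [385, 712, 604, 293, 530])) (.node 1 4 5 (.leaf [432, 635, 487, 254, 911, 280, 513]) (.leaf [432, 747, 382, 247, 911, 280, 513]))) (.leaf [467, 349, 53])) (.leaf [432, 683, 730, 317, 19, 513])) (.leaf [288, 242, 959, 267])))) (.node 1 2 3 (.node 0 2 3 (.node 0 1 5 (.leaf [432, 251, 815, 258]) (.node 0 3 5 (.leaf [528, 49, 467, 685, 698, 267]) (.node 2 3 5 (.leaf [83, 469, 317]) (.node 0 2 4 (.node 1 4 5 (.leaf [528, 385, 248, 895, 487, 702, 267]) (.leaf [528, 385, 248, 1007, 382, 695, 267])) (.node 2 4 5 (.leaf [545, 338, 709, 652, 280]) (.leaf [241, 1007, 398, 280])))))) (.leaf [545, 338, 53, 19])) (.leaf [240, 863, 293, 258])))),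
  (435593, (.node 0 1 2 (.node 1 2 3 (.leaf [288, 338, 245, 783]) (.node 0 2 3 (.leaf [49, 83, 293, 530]) (.node 0 1 5 (.node 0 3 5 (.node 0 3 4 (.node 1 3 4 (.node 1 4 5 (.leaf [288, 578, 404, 633, 487, 254, 783]) (.leaf [432, 747, 382, 583, 404, 249, 783])) (.leaf [403, 329, 596, 53])) (.leaf [467, 253, 927, 313])) (.leaf [432, 683, 730, 317, 19, 513])) (.leaf [288, 242, 959, 267])))) (.node 1 2 3 (.node 0 2 3 (.node 0 1 5 (.leaf [432, 251, 815, 258]) (.node 0 3 5 (.leaf [528, 49, 467, 685, 698, 267]) (.node 0 3 4 (.leaf [403, 249, 991, 317]) (.node 1 3 4 (.leaf [83, 581, 404, 313]) (.node 1 4 5 (.leaf [240, 927, 329, 628, 487, 702, 267]) (.leaf [240, 1007, 382, 663, 329, 548, 258])))))) (.leaf [545, 338, 53, 19])) (.leaf [240, 863, 293, 258])))),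
  (435617, (.node 0 3 4 (.node 1 3 4 (.node 0 3 5 (.node 1 3 5 (.node 2 3 5 (.node 2 3 4 (.node 0 1 5 (.node 0 1 2 (.node 0 1 4 (.node 0 2 4 (.node 1 4 5 (.leaf [288, 530, 385, 616, 118, 487, 254, 783]) (.leaf [432, 747, 382, 583, 404, 249, 783])) (.leaf [432, 219, 717, 604, 133, 280, 513])) (.leaf [432, 683, 570, 403, 617, 6])) (.leaf [432, 251, 815, 258])) (.node 0 1 2 (.leaf [288, 242, 959, 267]) (.node 0 2 4 (.leaf [528, 385, 152, 633, 583, 180, 267]) (.node 1 2 4 (.leaf [545, 114, 135, 280]) (.leaf [672, 570, 403, 633, 39, 258]))))) (.leaf [403, 137, 88, 469, 685, 570])) (.leaf [467, 349, 245, 831])) (.leaf [467, 189, 75, 404, 617, 566])) (.leaf [403, 249, 991, 317])) (.leaf [403, 329, 244, 831])) (.node 1 3 4 (.leaf [243, 847, 404, 313]) (.node 0 3 5 (.leaf [467, 253, 927, 313]) (.node 1 3 5 (.leaf [611, 662, 329, 180, 219, 317]) (.node 2 3 5 (.leaf [243, 863, 469, 317]) (.node 2 3 4 (.leaf [675,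 730, 349, 133, 152, 313]) (.node 0 1 5 (.node 0 1 2 (.node 0 2 4 (.node 1 2 4 (.leaf [288, 114, 663, 313, 675, 522]) (.leaf [385, 120, 39, 530])) (.leaf [432, 75, 628, 663, 137, 280, 513])) (.leaf [432, 251, 815, 258])) (.node 0 1 2 (.leaf [288, 242, 959, 267]) (.node 0 1 4 (.leaf [96, 662, 313, 675, 698, 267]) (.node 0 2 4 (.leaf [528, 385, 88, 709, 732, 189, 267]) (.node 1 4 5 (.leaf [240, 927, 329, 628, 487, 702, 267]) (.leaf [240, 1007, 382, 103, 646, 280, 545, 258]))))))))))))),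
  (435624, (.node 0 3 4 (.node 1 3 4 (.node 0 3 5 (.node 1 3 5 (.node 2 3 5 (.node 1 2 3 (.leaf [338, 469, 253, 815]) (.node 0 1 3 (.node 0 1 2 (.node 0 2 4 (.node 1 2 4 (.node 0 1 5 (.node 1 4 5 (.leaf [114, 487, 254, 863, 293]) (.leaf [432, 747, 382, 583, 404, 249, 783])) (.leaf [48, 67, 180, 267])) (.leaf [385, 120, 583, 404, 617, 534])) (.leaf [33, 578, 404, 617, 646, 280])) (.leaf [48, 67, 596, 293, 18, 1])) (.leaf [578, 52, 467, 717, 604, 293]))) (.leaf [467, 349, 245, 831])) (.leaf [467, 189, 75, 404, 617, 566])) (.leaf [403, 249, 991, 317])) (.leaf [403, 329, 244, 831])) (.node 1 3 4 (.leaf [243, 847, 404, 313]) (.node 0 3 5 (.leaf [467, 253, 927, 313]) (.node 1 3 5 (.leaf [611, 662, 329, 180, 219, 317]) (.node 2 3 5 (.leaf [243, 863, 469, 317]) (.node 1 2 3 (.node 0 1 3 (.leaf [338, 709, 732, 317, 67, 548]) (.node 0 1 2 (.leaf [16, 33, 338, 581, 52, 3]) (.node 0 2 4 (.leaf [385, 616, 662, 329,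 548, 18]) (.node 1 2 4 (.leaf [609, 662, 329, 628, 135, 280]) (.node 0 1 5 (.leaf [432, 75, 52, 3]) (.node 1 4 5 (.leaf [240, 927, 329, 628, 487, 702, 267]) (.leaf [338, 245, 1007, 382, 39]))))))) (.leaf [242, 991, 349, 293])))))))),
  (537916, (.node 0 2 3 (.node 0 3 5 (.node 3 4 5 (.leaf [337, 565, 467, 669, 489, 254, 799]) (.leaf [337, 565, 467, 749, 414, 249, 799])) (.node 3 4 5 (.leaf [337, 245, 927, 489, 734, 317, 531]) (.leaf [337, 245, 1007, 414, 729, 317, 531]))) (.node 0 3 5 (.node 3 4 5 (.leaf [561, 467, 669, 489, 254, 863, 277]) (.leaf [561, 467, 749, 414, 249, 863, 277])) (.node 3 4 5 (.leaf [241, 927, 489, 734, 317, 595, 277]) (.leaf [241, 1007, 414, 729, 317, 595, 277]))))),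
  (539194, (.node 1 2 3 (.node 2 3 4 (.leaf [338, 405, 249, 815]) (.node 1 2 5 (.node 0 2 5 (.node 0 2 3 (.node 0 2 4 (.node 0 1 2 (.node 0 1 3 (.node 0 3 5 (.node 3 4 5 (.leaf [467, 669, 345, 581, 564]) (.leaf [245, 1007, 414, 345])) (.leaf [16, 449, 684, 730, 317, 515])) (.leaf [16, 49, 579, 260])) (.leaf [385, 664, 345, 581, 548, 18])) (.leaf [449, 252, 911, 280])) (.leaf [449, 700, 555, 338, 53, 19])) (.leaf [241, 815, 450, 284])) (.leaf [338, 245, 975, 300]))) (.node 2 3 4 (.node 1 2 5 (.leaf [450, 252, 863, 293]) (.node 0 2 5 (.leaf [449, 300, 242, 799]) (.node 0 2 3 (.leaf [49, 83, 293, 690, 715, 284]) (.node 0 2 4 (.leaf [385, 248, 975, 284]) (.node 0 1 2 (.leaf [33, 578, 596, 405, 649, 280]) (.node 0 1 3 (.leaf [320, 564, 19, 1]) (.node 0 3 5 (.leaf [560, 467, 685, 714, 284, 1]) (.node 3 4 5 (.leaf [405, 489, 254, 863]) (.leaf [579, 596, 405, 729, 317]))))))))) (.leaf [242, 927, 345, 293])))),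
  (543964, (.node 0 2 3 (.node 1 2 3 (.node 1 3 5 (.node 3 4 5 (.leaf [337, 581, 468, 669, 489, 254, 799]) (.leaf [337, 581, 468, 749, 414, 249, 799])) (.node 3 4 5 (.leaf [338, 245, 927, 489, 734, 333, 548]) (.leaf [338, 245, 1007, 414, 729, 333, 548]))) (.leaf [337, 293, 242, 799])) (.node 1 2 3 (.leaf [241, 815, 338, 277]) (.node 1 3 5 (.node 3 4 5 (.leaf [578, 468, 669, 489, 254, 863, 293]) (.leaf [578, 468, 749, 414, 249, 863, 293])) (.node 3 4 5 (.leaf [241, 927, 489, 734, 333, 596, 277]) (.leaf [241, 1007, 414, 729, 333, 596, 277])))))),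
  (547414, (.node 0 1 3 (.node 0 1 4 (.node 1 3 5 (.leaf [320, 468, 253, 783]) (.node 1 2 4 (.node 2 3 4 (.leaf [368, 551, 386, 600, 405, 249, 783]) (.leaf [368, 551, 386, 664, 345, 245, 783])) (.node 1 2 5 (.leaf [450, 252, 911, 296]) (.node 0 2 5 (.leaf [449, 300, 242, 799]) (.node 0 2 3 (.leaf [337, 245, 975, 284]) (.node 2 3 4 (.node 3 4 5 (.leaf [405, 489, 254, 863]) (.leaf [595, 405, 729, 333, 564])) (.leaf [241, 927, 345, 277]))))))) (.leaf [320, 244, 895, 263])) (.node 0 1 4 (.leaf [368, 247, 847, 260]) (.node 1 3 5 (.node 1 2 4 (.node 1 2 5 (.node 0 2 5 (.node 0 2 3 (.node 2 3 4 (.leaf [337, 405, 249, 799]) (.node 3 4 5 (.leaf [579, 468, 669, 345, 565]) (.leaf [245, 1007, 414, 345]))) (.leaf [449, 252, 863, 277])) (.leaf [241, 815, 450, 284])) (.leaf [386, 248, 975, 300])) (.node 2 3 4 (.leaf [240, 863, 405, 649, 296, 626, 263]) (.leaf [240, 927, 345, 645, 296, 626, 263]))) (.leaf [240, 991, 333,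 260])))))]

def HC7 : List (ℕ × Tr) := [
  (560362, (.node 1 2 3 (.node 1 2 4 (.node 0 2 4 (.node 0 2 3 (.node 0 2 5 (.node 2 3 5 (.leaf [338, 469, 253, 815]) (.node 0 1 2 (.node 0 1 3 (.node 0 3 4 (.node 3 4 5 (.leaf [403, 489, 254, 831]) (.leaf [403, 729, 349, 581, 564])) (.leaf [16, 385, 616, 662, 313, 515])) (.leaf [16, 49, 579, 260])) (.leaf [449, 732, 349, 581, 548, 18]))) (.leaf [385, 248, 975, 284])) (.leaf [385, 632, 551, 338, 53, 19])) (.leaf [241, 815, 386, 280])) (.leaf [338, 245, 911, 296])) (.node 1 2 4 (.leaf [386, 248, 863, 293]) (.node 0 2 4 (.leaf [385, 296, 242, 799]) (.node 0 2 3 (.leaf [49, 83, 293, 626, 647, 280]) (.node 0 2 5 (.leaf [449, 252, 911, 280]) (.node 2 3 5 (.node 0 1 2 (.leaf [33, 578, 596, 469, 717, 284]) (.node 0 1 3 (.leaf [320, 564, 19, 1]) (.node 0 3 4 (.leaf [560, 403, 617, 646, 280, 1]) (.node 3 4 5 (.leaf [579, 596, 469, 669, 313]) (.leaf [243, 1007, 414, 313])))))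 (.leaf [242, 991, 349, 293])))))))),
  (562534, (.node 0 1 3 (.node 1 3 4 (.leaf [320, 404, 249, 783]) (.node 0 1 5 (.node 1 4 5 (.node 3 4 5 (.node 0 2 3 (.node 2 3 5 (.leaf [337, 469, 253, 799]) (.leaf [432, 235, 734, 349, 565, 515])) (.node 2 3 5 (.leaf [595, 469, 669, 329, 564]) (.leaf [241, 991, 349, 277]))) (.leaf [244, 1007, 414, 329])) (.leaf [432, 123, 663, 329, 564, 515])) (.leaf [320, 244, 959, 267]))) (.node 1 3 4 (.node 0 1 5 (.leaf [432, 251, 847, 260]) (.node 1 4 5 (.leaf [560, 579, 404, 633, 183, 267]) (.node 3 4 5 (.leaf [404, 489, 254, 847]) (.node 0 2 3 (.node 2 3 5 (.leaf [337, 469, 253, 799]) (.leaf [579, 404, 729, 349, 565])) (.node 2 3 5 (.leaf [560, 595, 469, 749, 190, 267]) (.leaf [241, 991, 349, 277])))))) (.leaf [240, 927, 329, 260])))),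
  (595302, (.node 0 1 3 (.node 1 3 4 (.leaf [320, 404, 249, 783]) (.node 0 3 4 (.leaf [99, 150, 329, 564]) (.node 0 1 5 (.node 0 4 5 (.node 0 1 2 (.node 0 2 4 (.leaf [16, 385, 616, 486, 686, 522]) (.node 1 2 4 (.leaf [33, 386, 280]) (.node 1 2 5 (.leaf [450, 252, 911, 296]) (.leaf [432, 715, 300, 626, 647, 280, 609, 486, 686, 522])))) (.node 1 2 5 (.leaf [432, 555, 18, 1]) (.leaf [432, 715, 300, 18, 1]))) (.leaf [432, 683, 746, 366, 54, 515])) (.leaf [320, 244, 959, 267])))) (.node 1 3 4 (.node 0 3 4 (.node 0 1 5 (.leaf [432, 251, 847, 260]) (.node 0 4 5 (.leaf [560, 99, 486, 686, 698, 267]) (.node 0 1 2 (.node 1 2 5 (.leaf [16, 33, 450, 700, 267]) (.leaf [16, 33, 690, 267])) (.node 0 2 4 (.node 1 2 4 (.node 1 2 5 (.leaf [672, 746, 366, 534, 385, 632, 551, 450, 700, 267]) (.leaf [386, 248, 975, 300])) (.leaf [385, 296, 18])) (.leaf [672, 746, 366, 646, 280, 1]))))) (.leaf [579, 404, 105, 54])) (.leaf [240,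 927, 329, 260])))),
  (596566, (.node 0 2 3 (.node 2 3 4 (.leaf [337, 405, 249, 799]) (.node 0 3 4 (.leaf [99, 150, 345, 565]) (.node 0 2 5 (.node 1 2 5 (.node 1 2 4 (.node 0 1 2 (.leaf [33, 386, 664, 345, 565, 531]) (.node 0 1 4 (.leaf [368, 551, 18, 1]) (.node 0 4 5 (.leaf [608, 486, 254, 815, 386, 632, 263]) (.leaf [449, 684, 746, 366, 54, 531])))) (.leaf [450, 252, 911, 296])) (.leaf [449, 300, 242, 799])) (.leaf [337, 245, 975, 284])))) (.node 2 3 4 (.node 0 3 4 (.node 0 2 5 (.leaf [449, 252, 863, 277]) (.node 1 2 5 (.leaf [241, 815, 450, 284]) (.node 1 2 4 (.leaf [386, 248, 975, 300]) (.node 0 1 2 (.node 0 1 4 (.node 0 4 5 (.leaf [561, 99, 486, 686, 714, 284]) (.leaf [368, 647, 296, 242, 1007, 366, 518])) (.leaf [16, 33, 626, 263])) (.leaf [561, 595, 405, 649, 296, 18]))))) (.leaf [595, 405, 105, 54])) (.leaf [241, 927, 345, 277])))),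
  (608854, (.node 0 1 3 (.node 0 1 4 (.node 1 3 5 (.leaf [320, 468, 253, 783]) (.node 0 3 5 (.leaf [163, 218, 333, 564]) (.node 0 4 5 (.leaf [368, 615, 486, 686, 58, 515]) (.node 1 2 4 (.leaf [368, 551, 386, 248, 1007, 366, 518]) (.leaf [368, 647, 296, 242, 1007, 366, 518]))))) (.leaf [320, 244, 895, 263])) (.node 0 1 4 (.leaf [368, 247, 847, 260]) (.node 1 3 5 (.node 0 3 5 (.node 0 4 5 (.node 1 2 4 (.leaf [608, 486, 254, 815, 386, 632, 263]) (.leaf [608, 486, 254, 911, 296, 626, 263])) (.leaf [560, 163, 746, 366, 630, 263])) (.leaf [579, 468, 173, 58])) (.leaf [240, 991, 333, 260]))))),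
  (610902, (.node 0 1 3 (.node 0 1 4 (.node 1 3 5 (.leaf [320, 468, 253, 783]) (.node 0 3 5 (.leaf [163, 218, 333, 564]) (.node 0 4 5 (.leaf [368, 615, 486, 686, 58, 515]) (.node 1 2 4 (.leaf [368, 551, 386, 248, 1007, 366, 518]) (.leaf [368, 647, 296, 242, 1007, 366, 518]))))) (.leaf [320, 244, 895, 263])) (.node 0 1 4 (.leaf [368, 247, 847, 260]) (.node 1 3 5 (.node 0 3 5 (.node 0 4 5 (.node 1 2 4 (.leaf [608, 486, 254, 815, 386, 632, 263]) (.leaf [608, 486, 254, 911, 296, 626, 263])) (.leaf [560, 163, 746, 366, 630, 263])) (.leaf [579, 468, 173, 58])) (.leaf [240, 991, 333, 260]))))),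
  (612438, (.node 0 1 3 (.node 0 1 4 (.node 1 3 5 (.leaf [320, 468, 253, 783]) (.node 0 3 5 (.leaf [163, 218, 333, 564]) (.node 0 4 5 (.leaf [368, 615, 486, 686, 58, 515]) (.node 1 2 4 (.leaf [368, 551, 386, 248, 1007, 366, 518]) (.leaf [368, 647, 296, 242, 1007, 366, 518]))))) (.leaf [320, 244, 895, 263])) (.node 0 1 4 (.leaf [368, 247, 847, 260]) (.node 1 3 5 (.node 0 3 5 (.node 0 4 5 (.node 1 2 4 (.leaf [608, 486, 254, 815, 386, 632, 263]) (.leaf [608, 486, 254, 911, 296, 626, 263])) (.leaf [560, 163, 746, 366, 630, 263])) (.leaf [579, 468, 173, 58])) (.leaf [240, 991, 333, 260]))))),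
  (612886, (.node 0 1 3 (.node 0 1 4 (.node 1 3 5 (.leaf [320, 468, 253, 783]) (.node 0 3 5 (.leaf [163, 218, 333, 564]) (.node 0 4 5 (.leaf [368, 615, 486, 686, 58, 515]) (.node 3 4 5 (.leaf [246, 927, 489, 366]) (.node 2 3 4 (.node 0 2 3 (.leaf [337, 405, 249, 799]) (.leaf [595, 405, 729, 333, 564])) (.leaf [245, 1007, 414, 345])))))) (.leaf [320, 244, 895, 263])) (.node 0 1 4 (.leaf [368, 247, 847, 260]) (.node 1 3 5 (.node 0 3 5 (.node 0 4 5 (.node 3 4 5 (.node 2 3 4 (.leaf [405, 489, 254, 863]) (.node 0 2 3 (.leaf [579, 468, 669, 345, 565]) (.leaf [241, 927, 345, 277]))) (.leaf [486, 414, 249, 879])) (.leaf [560, 163, 746, 366, 630, 263])) (.leaf [579, 468, 173, 58])) (.leaf [240, 991, 333, 260]))))),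
  (612934, (.node 0 2 3 (.node 2 3 4 (.leaf [337, 405, 249, 799]) (.node 0 3 4 (.leaf [99, 150, 345, 565]) (.node 0 2 5 (.node 1 2 5 (.node 1 2 4 (.node 0 4 5 (.node 0 1 5 (.leaf [386, 664, 105, 486, 686, 186, 555]) (.node 0 1 3 (.leaf [320, 564, 531, 449, 684, 10]) (.node 1 3 5 (.node 3 4 5 (.leaf [579, 468, 669, 345, 565]) (.leaf [486, 414, 105])) (.leaf [240, 991, 333, 260])))) (.leaf [449, 684, 746, 366, 54, 531])) (.leaf [450, 252, 911, 296])) (.leaf [449, 300, 242, 799])) (.leaf [337, 245, 975, 284])))) (.node 2 3 4 (.node 0 3 4 (.node 0 2 5 (.leaf [449, 252, 863, 277]) (.node 1 2 5 (.leaf [241, 815, 450, 284]) (.node 1 2 4 (.leaf [386, 248, 975, 300]) (.node 0 4 5 (.leaf [561, 99, 486, 686, 714, 284]) (.node 0 1 5 (.node 0 1 3 (.node 1 3 5 (.leaf [320, 468, 253, 783]) (.node 3 4 5 (.leaf [150, 489, 366]) (.leaf [595, 405, 729, 333, 564]))) (.leaf [160, 714, 284, 561, 579, 260])) (.leaf [690, 171,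 746, 366, 150, 649, 296])))))) (.leaf [595, 405, 105, 54])) (.leaf [241, 927, 345, 277])))),
  (612946, (.node 0 1 3 (.node 0 1 4 (.node 1 3 5 (.leaf [320, 468, 253, 783]) (.node 0 3 5 (.leaf [163, 218, 333, 564]) (.node 0 4 5 (.leaf [368, 615, 486, 686, 58, 515]) (.node 1 2 4 (.leaf [368, 551, 386, 248, 1007, 366, 518]) (.leaf [368, 647, 296, 242, 1007, 366, 518]))))) (.leaf [320, 244, 895, 263])) (.node 0 1 4 (.leaf [368, 247, 847, 260]) (.node 1 3 5 (.node 0 3 5 (.node 0 4 5 (.node 1 2 4 (.leaf [608, 486, 254, 815, 386, 632, 263]) (.leaf [608, 486, 254, 911, 296, 626, 263])) (.leaf [560, 163, 746, 366, 630, 263])) (.leaf [579, 468, 173, 58])) (.leaf [240, 991, 333, 260])))))]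

def HC8 : List (ℕ × Tr) := [
  (612948, (.node 0 2 3 (.node 2 3 4 (.leaf [337, 405, 249, 799]) (.node 0 3 4 (.leaf [99, 150, 345, 565]) (.node 0 2 5 (.node 1 2 5 (.node 1 2 4 (.node 0 1 2 (.leaf [33, 386, 664, 345, 565, 531]) (.node 0 1 4 (.leaf [368, 551, 18, 1]) (.node 0 4 5 (.leaf [608, 486, 254, 815, 386, 632, 263]) (.leaf [449, 684, 746, 366, 54, 531])))) (.leaf [450, 252, 911, 296])) (.leaf [449, 300, 242, 799])) (.leaf [337, 245, 975, 284])))) (.node 2 3 4 (.node 0 3 4 (.node 0 2 5 (.leaf [449, 252, 863, 277]) (.node 1 2 5 (.leaf [241, 815, 450, 284]) (.node 1 2 4 (.leaf [386, 248, 975, 300]) (.node 0 1 2 (.node 0 1 4 (.node 0 4 5 (.leaf [561, 99, 486, 686, 714, 284]) (.leaf [368, 647, 296, 242, 1007, 366, 518])) (.leaf [16, 33, 626, 263])) (.leaf [561, 595, 405, 649, 296, 18]))))) (.leaf [595, 405, 105, 54])) (.leaf [241, 927, 345, 277])))),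
  (623974, (.node 0 1 3 (.node 1 3 4 (.leaf [320, 404, 249, 783]) (.node 0 1 4 (.node 0 3 4 (.leaf [99, 150, 329, 564]) (.node 0 1 5 (.node 0 4 5 (.node 3 4 5 (.node 0 2 3 (.node 2 3 5 (.leaf [337, 469, 253, 799]) (.leaf [96, 486, 734, 349, 565, 515])) (.node 2 3 5 (.leaf [595, 469, 669, 329, 564]) (.leaf [241, 991, 349, 277]))) (.leaf [486, 414, 105])) (.leaf [432, 683, 746, 366, 54, 515])) (.leaf [320, 244, 959, 267]))) (.leaf [320, 628, 103, 6]))) (.node 1 3 4 (.node 0 1 4 (.leaf [96, 118, 583, 260]) (.node 0 3 4 (.node 0 1 5 (.leaf [432, 251, 847, 260]) (.node 0 4 5 (.leaf [560, 99, 486, 686, 698, 267]) (.node 3 4 5 (.leaf [150, 489, 366]) (.node 0 2 3 (.node 2 3 5 (.leaf [337, 469, 253, 799]) (.leaf [579, 404, 729, 349, 565])) (.node 2 3 5 (.leaf [560, 595, 469, 749, 366, 6]) (.leaf [241, 991, 349, 277])))))) (.leaf [579, 404, 105, 54]))) (.leaf [240, 927, 329, 260])))),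
  (627046, (.node 0 2 3 (.node 0 2 4 (.node 1 2 4 (.node 1 2 5 (.node 2 3 5 (.leaf [337, 469, 253, 799]) (.node 0 3 5 (.leaf [163, 218, 349, 565]) (.node 0 4 5 (.leaf [385, 616, 486, 686, 58, 531]) (.node 0 1 4 (.leaf [450, 732, 173, 746, 366, 118, 551]) (.node 0 1 3 (.leaf [320, 244, 1007, 366, 6]) (.node 1 3 4 (.node 3 4 5 (.leaf [404, 489, 254, 847]) (.leaf [579, 404, 729, 349, 565])) (.leaf [240, 927, 329, 260]))))))) (.leaf [386, 248, 975, 300])) (.leaf [385, 296, 242, 799])) (.leaf [337, 245, 911, 280])) (.node 0 2 4 (.leaf [385, 248, 863, 277]) (.node 1 2 4 (.leaf [241, 815, 386, 280]) (.node 1 2 5 (.leaf [450, 252, 911, 296]) (.node 2 3 5 (.node 0 3 5 (.node 0 4 5 (.node 0 1 4 (.node 0 1 3 (.node 1 3 4 (.leaf [320, 404, 249, 783]) (.node 3 4 5 (.leaf [595, 469, 669, 329, 564]) (.leaf [244, 1007, 414, 329]))) (.leaf [96, 486, 254, 847, 260])) (.leaf [626, 103, 486, 686, 218, 717, 300])) (.leaf [561,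 163, 746, 366, 646, 280])) (.leaf [595, 469, 173, 58])) (.leaf [241, 991, 349, 277]))))))),
  (627814, (.node 0 2 3 (.node 0 2 4 (.node 1 2 4 (.node 1 2 5 (.node 2 3 5 (.leaf [337, 469, 253, 799]) (.node 0 1 2 (.leaf [33, 450, 732, 349, 565, 531]) (.node 0 1 5 (.leaf [432, 555, 18, 1]) (.node 0 3 5 (.leaf [163, 218, 349, 565]) (.node 0 4 5 (.leaf [385, 616, 486, 686, 58, 531]) (.leaf [672, 746, 366, 534, 385, 632, 551, 450, 700, 267])))))) (.leaf [386, 248, 975, 300])) (.leaf [385, 296, 242, 799])) (.leaf [337, 245, 911, 280])) (.node 0 2 4 (.leaf [385, 248, 863, 277]) (.node 1 2 4 (.leaf [241, 815, 386, 280]) (.node 1 2 5 (.leaf [450, 252, 911, 296]) (.node 2 3 5 (.node 0 1 2 (.node 0 1 5 (.node 0 3 5 (.node 0 4 5 (.leaf [432, 715, 300, 626, 647, 280, 609, 486, 686, 522]) (.leaf [561, 163, 746, 366, 646, 280])) (.leaf [595, 469, 173, 58])) (.leaf [16, 33, 690, 267])) (.leaf [561, 595, 469, 717, 300, 18]))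 (.leaf [241, 991, 349, 277]))))))),
  (628006, (.node 0 1 3 (.node 1 3 4 (.leaf [320, 404, 249, 783]) (.node 0 1 4 (.node 0 3 4 (.leaf [99, 150, 329, 564]) (.node 0 1 5 (.node 0 4 5 (.node 3 4 5 (.node 0 2 3 (.node 2 3 5 (.leaf [337, 469, 253, 799]) (.leaf [96, 486, 734, 349, 565, 515])) (.node 2 3 5 (.leaf [595, 469, 669, 329, 564]) (.leaf [241, 991, 349, 277]))) (.leaf [486, 414, 105])) (.leaf [432, 683, 746, 366, 54, 515])) (.leaf [320, 244, 959, 267]))) (.leaf [320, 628, 103, 6]))) (.node 1 3 4 (.node 0 1 4 (.leaf [96, 118, 583, 260]) (.node 0 3 4 (.node 0 1 5 (.leaf [432, 251, 847, 260]) (.node 0 4 5 (.leaf [560, 99, 486, 686, 698, 267]) (.node 3 4 5 (.leaf [150, 489, 366]) (.node 0 2 3 (.node 2 3 5 (.leaf [337, 469, 253, 799]) (.leaf [579, 404, 729, 349, 565])) (.node 2 3 5 (.leaf [560, 595, 469, 749, 366, 6]) (.leaf [241, 991, 349, 277])))))) (.leaf [579, 404, 105, 54]))) (.leaf [240, 927, 329, 260])))),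
  (628038, (.node 0 1 3 (.node 1 3 4 (.leaf [320, 404, 249, 783]) (.node 0 1 4 (.node 0 3 4 (.leaf [99, 150, 329, 564]) (.node 0 1 5 (.node 0 4 5 (.node 3 4 5 (.node 0 2 3 (.node 2 3 5 (.leaf [337, 469, 253, 799]) (.leaf [96, 486, 734, 349, 565, 515])) (.node 2 3 5 (.leaf [595, 469, 669, 329, 564]) (.leaf [241, 991, 349, 277]))) (.leaf [486, 414, 105])) (.leaf [432, 683, 746, 366, 54, 515])) (.leaf [320, 244, 959, 267]))) (.leaf [320, 628, 103, 6]))) (.node 1 3 4 (.node 0 1 4 (.leaf [96, 118, 583, 260]) (.node 0 3 4 (.node 0 1 5 (.leaf [432, 251, 847, 260]) (.node 0 4 5 (.leaf [560, 99, 486, 686, 698, 267]) (.node 3 4 5 (.leaf [150, 489, 366]) (.node 0 2 3 (.node 2 3 5 (.leaf [337, 469, 253, 799]) (.leaf [579, 404, 729, 349, 565])) (.node 2 3 5 (.leaf [560, 595, 469, 749, 366, 6]) (.leaf [241, 991, 349, 277])))))) (.leaf [579, 404, 105, 54]))) (.leaf [240, 927, 329, 260])))),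
  (628066, (.node 0 1 3 (.node 1 3 4 (.leaf [320, 404, 249, 783]) (.node 0 3 4 (.leaf [99, 150, 329, 564]) (.node 0 1 5 (.node 0 4 5 (.node 3 4 5 (.node 2 3 5 (.node 0 2 3 (.leaf [83, 469, 669, 329, 564]) (.node 0 1 2 (.node 0 2 4 (.leaf [385, 616, 54, 19]) (.node 1 2 4 (.leaf [33, 386, 280]) (.node 1 2 5 (.leaf [450, 252, 911, 296]) (.leaf [432, 715, 300, 626, 647, 280, 609, 486, 686, 522])))) (.leaf [320, 564, 19, 1]))) (.node 0 2 4 (.leaf [385, 616, 486, 734, 349, 245, 799]) (.leaf [609, 486, 734, 349, 245, 911, 280]))) (.leaf [486, 414, 105])) (.leaf [432, 683, 746, 366, 54, 515])) (.leaf [320, 244, 959, 267])))) (.node 1 3 4 (.node 0 3 4 (.node 0 1 5 (.leaf [432, 251, 847, 260]) (.node 0 4 5 (.leaf [560, 99, 486, 686, 698, 267]) (.node 3 4 5 (.leaf [150, 489, 366]) (.node 2 3 5 (.node 0 2 4 (.leaf [385, 248, 863, 469, 749, 366, 534]) (.leaf [241, 863, 469, 749, 366, 646, 280])) (.node 0 2 3 (.node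 0 1 2 (.leaf [16, 49, 579, 260]) (.node 0 2 4 (.node 1 2 4 (.node 1 2 5 (.leaf [672, 746, 366, 534, 385, 632, 551, 450, 700, 267]) (.leaf [386, 248, 975, 300])) (.leaf [385, 296, 18])) (.leaf [49, 99, 646, 280]))) (.leaf [579, 404, 729, 349, 53])))))) (.leaf [579, 404, 105, 54])) (.leaf [240, 927, 329, 260])))),
  (628068, (.node 0 2 3 (.node 0 2 4 (.node 1 2 4 (.node 1 2 5 (.node 0 2 5 (.node 2 3 5 (.leaf [337, 469, 253, 799]) (.node 0 1 2 (.leaf [33, 450, 732, 349, 565, 531]) (.node 0 1 5 (.leaf [432, 555, 18, 1]) (.node 0 1 3 (.leaf [48, 531, 337, 709, 700, 267]) (.node 1 3 4 (.node 0 3 4 (.node 0 4 5 (.leaf [99, 486, 686, 202, 732, 349, 565]) (.leaf [672, 746, 366, 534, 385, 632, 551, 450, 700, 267])) (.leaf [385, 632, 583, 404, 105, 534])) (.leaf [385, 632, 663, 329, 52, 531])))))) (.leaf [385, 632, 551, 450, 172, 26])) (.leaf [386, 248, 975, 300])) (.leaf [385, 296, 242, 799])) (.leaf [337, 245, 911,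 280])) (.node 0 2 4 (.leaf [385, 248, 863, 277]) (.node 1 2 4 (.leaf [241, 815, 386, 280]) (.node 1 2 5 (.leaf [450, 252, 911, 296]) (.node 0 2 5 (.leaf [161, 202, 300, 626, 647, 280]) (.node 2 3 5 (.node 0 1 2 (.node 0 1 5 (.node 0 1 3 (.node 1 3 4 (.leaf [561, 67, 404, 633, 647, 280]) (.node 0 3 4 (.leaf [609, 150, 329, 628, 647, 280]) (.node 0 4 5 (.leaf [432, 715, 300, 626, 647, 280, 609, 486, 686, 522]) (.leaf [595, 469, 717, 172, 746, 366, 54])))) (.leaf [432, 715, 604, 277, 561, 3])) (.leaf [16, 33, 690, 267])) (.leaf [561, 595, 469, 717, 300, 18])) (.leaf [241, 991, 349, 277])))))))),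
  (658666, (.node 0 2 4 (.node 1 2 4 (.node 1 2 3 (.node 0 2 5 (.node 1 2 5 (.node 1 4 5 (.node 0 1 3 (.leaf [320, 548, 386, 632, 487, 254, 783]) (.node 0 1 5 (.leaf [432, 251, 847, 260]) (.leaf [672, 538, 385, 632, 487, 702, 267]))) (.node 0 1 3 (.node 0 1 5 (.leaf [432, 747, 382, 551, 338, 245, 783]) (.leaf [320, 548, 178, 267])) (.leaf [240, 1007, 382, 551, 338, 581, 260]))) (.leaf [449, 188, 43, 386, 616, 534])) (.leaf [385, 248, 975, 284])) (.leaf [386, 248, 863, 293])) (.leaf [385, 296, 242, 799])) (.node 1 2 4 (.leaf [241, 815, 386, 280]) (.node 1 2 3 (.leaf [338, 245, 911, 296]) (.node 0 2 5 (.leaf [449, 252, 911, 280]) (.node 1 2 5 (.leaf [609, 646, 296, 178, 203, 284]) (.node 1 4 5 (.node 0 1 3 (.leaf [320, 596, 293, 626, 487, 254, 783]) (.node 0 1 5 (.leaf [432, 43, 578, 260]) (.leaf [240, 863, 293, 626, 487, 702, 267]))) (.node 0 1 3 (.node 0 1 5 (.leaf [432, 747, 382, 647, 280, 673, 522]) (.leaf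 [320, 244, 959, 267])) (.leaf [240, 1007, 382, 647, 296, 578, 260]))))))))),
  (662074, (.node 1 2 3 (.node 2 3 4 (.leaf [338, 405, 249, 815]) (.node 1 2 4 (.node 1 3 4 (.leaf [116, 151, 345, 581]) (.node 1 2 5 (.node 0 2 5 (.node 0 2 3 (.node 0 2 4 (.node 0 1 2 (.node 0 1 3 (.node 0 1 4 (.node 1 4 5 (.leaf [368, 487, 254, 783]) (.leaf [450, 700, 747, 382, 71, 548])) (.leaf [320, 548, 114, 263])) (.leaf [16, 49, 579, 260])) (.leaf [385, 664, 345, 581, 548, 18])) (.leaf [449, 252, 911, 280])) (.leaf [449, 700, 555, 338, 53, 19])) (.leaf [241, 815, 450, 284])) (.leaf [338, 245, 975, 300]))) (.leaf [338, 645, 120, 39]))) (.node 2 3 4 (.node 1 2 4 (.leaf [114, 135, 600, 293]) (.node 1 3 4 (.node 1 2 5 (.leaf [450, 252, 863, 293]) (.node 0 2 5 (.leaf [449, 300, 242, 799]) (.node 0 2 3 (.leaf [49, 83, 293, 690, 715, 284]) (.node 0 2 4 (.leaf [385, 248, 975, 284]) (.node 0 1 2 (.leaf [33, 578, 596, 405, 649, 280])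 (.node 0 1 3 (.leaf [320, 564, 19, 1]) (.node 0 1 4 (.leaf [368, 39, 578, 260]) (.node 1 4 5 (.leaf [578, 116, 487, 702, 715, 300]) (.leaf [240, 1007, 382, 263]))))))))) (.leaf [596, 405, 121, 71]))) (.leaf [242, 927, 345, 293]))))]

def HC9 : List (ℕ × Tr) := [
  (666170, (.node 0 1 4 (.node 0 1 3 (.node 1 4 5 (.leaf [368, 487, 254, 783]) (.node 1 3 5 (.leaf [320, 180, 747, 382, 615, 518]) (.node 0 3 5 (.leaf [467, 189, 75, 564]) (.node 1 2 3 (.leaf [320, 548, 338, 245, 991, 317, 515]) (.leaf [320, 596, 293, 242, 991, 317, 515]))))) (.leaf [368, 247, 847, 260])) (.node 0 1 3 (.leaf [320, 244, 895, 263]) (.node 1 4 5 (.node 1 3 5 (.node 0 3 5 (.node 1 2 3 (.leaf [560, 467, 253, 815, 338, 581, 260]) (.leaf [560, 467, 253, 863, 293, 578, 260])) (.leaf [579, 180, 219, 317])) (.leaf [608, 630, 487, 702, 75, 260])) (.leaf [240, 1007, 382, 263]))))),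
  (668218, (.node 1 2 3 (.node 2 3 4 (.leaf [338, 405, 249, 815]) (.node 1 2 4 (.node 1 3 4 (.leaf [116, 151, 345, 581]) (.node 1 2 5 (.node 1 4 5 (.node 0 1 4 (.leaf [368, 487, 254, 783]) (.node 0 1 3 (.leaf [320, 548, 114, 263]) (.node 0 2 4 (.leaf [608, 534, 385, 664, 121, 263]) (.node 0 2 3 (.leaf [49, 83, 645, 280]) (.node 0 2 5 (.leaf [161, 202, 700, 555, 338, 645, 280]) (.node 0 3 5 (.leaf [338, 53, 467, 253, 815]) (.leaf [450, 172, 730, 317, 579, 548]))))))) (.leaf [450, 700, 747, 382, 71, 548])) (.leaf [338, 245, 975, 300]))) (.leaf [338, 645, 120, 39]))) (.node 2 3 4 (.node 1 2 4 (.leaf [114, 135, 600, 293]) (.node 1 3 4 (.node 1 2 5 (.leaf [450, 252, 863, 293]) (.node 1 4 5 (.leaf [578, 116, 487, 702, 715, 300]) (.node 0 1 4 (.node 0 1 3 (.node 0 2 4 (.node 0 2 3 (.node 0 2 5 (.node 0 3 5 (.leaf [578, 564, 467, 685, 202, 300]) (.leaf [242, 991, 317, 83, 293])) (.leaf [385, 600, 293, 690, 715,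 172, 26])) (.leaf [385, 600, 53, 19])) (.leaf [368, 151, 649, 280, 609, 518])) (.leaf [368, 39, 578, 260])) (.leaf [240, 1007, 382, 263])))) (.leaf [596, 405, 121, 71]))) (.leaf [242, 927, 345, 293])))),
  (669754, (.node 0 1 4 (.node 0 1 3 (.node 1 4 5 (.leaf [368, 487, 254, 783]) (.node 1 3 5 (.leaf [320, 180, 747, 382, 615, 518]) (.node 0 3 5 (.leaf [467, 189, 75, 564]) (.node 1 2 3 (.leaf [320, 548, 338, 245, 991, 317, 515]) (.leaf [320, 596, 293, 242, 991, 317, 515]))))) (.leaf [368, 247, 847, 260])) (.node 0 1 3 (.leaf [320, 244, 895, 263]) (.node 1 4 5 (.node 1 3 5 (.node 0 3 5 (.node 1 2 3 (.leaf [560, 467, 253, 815, 338, 581, 260]) (.leaf [560, 467, 253, 863, 293, 578, 260])) (.leaf [579, 180, 219, 317])) (.leaf [608, 630, 487, 702, 75, 260])) (.leaf [240, 1007, 382, 263]))))),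
  (670234, (.node 1 2 3 (.node 2 3 4 (.leaf [338, 405, 249, 815]) (.node 1 2 4 (.node 1 3 4 (.leaf [116, 151, 345, 581]) (.node 1 2 5 (.node 0 2 5 (.node 0 2 4 (.node 1 4 5 (.node 0 1 4 (.leaf [368, 487, 254, 783]) (.node 0 1 3 (.leaf [320, 548, 114, 263]) (.leaf [608, 134, 664, 345, 581, 260]))) (.leaf [450, 700, 747, 382, 71, 548])) (.leaf [449, 700, 555, 338, 645, 104, 22])) (.leaf [241, 815, 450, 284])) (.leaf [338, 245, 975, 300]))) (.leaf [338, 645, 120, 39]))) (.node 2 3 4 (.node 1 2 4 (.leaf [114, 135, 600, 293]) (.node 1 3 4 (.node 1 2 5 (.leaf [450, 252, 863, 293]) (.node 0 2 5 (.leaf [449, 300, 242, 799]) (.node 0 2 4 (.leaf [97, 134, 600, 293, 690, 715, 284]) (.node 1 4 5 (.leaf [578, 116, 487, 702, 715, 300]) (.node 0 1 4 (.node 0 1 3 (.leaf [320, 596, 405, 649, 104, 518]) (.leaf [368, 39, 578, 260])) (.leaf [240, 1007, 382, 263])))))) (.leaf [596, 405, 121, 71]))) (.leaf [242, 927, 345, 293])))),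
  (670250, (.node 1 2 3 (.node 2 3 4 (.leaf [338, 405, 249, 815]) (.node 1 2 5 (.node 0 2 5 (.node 0 2 3 (.node 0 2 4 (.node 0 1 2 (.node 0 1 3 (.node 0 3 5 (.node 3 4 5 (.leaf [467, 669, 345, 581, 564]) (.leaf [245, 1007, 414, 345])) (.leaf [16, 449, 684, 730, 317, 515])) (.leaf [16, 49, 579, 260])) (.leaf [385, 664, 345, 581, 548, 18])) (.leaf [449, 252, 911, 280])) (.leaf [449, 700, 555, 338, 53, 19])) (.leaf [241, 815, 450, 284])) (.leaf [338, 245, 975, 300]))) (.node 2 3 4 (.node 1 2 5 (.leaf [450, 252, 863, 293]) (.node 0 2 5 (.leaf [449, 300, 242, 799]) (.node 0 2 3 (.leaf [49, 83, 293, 690, 715, 284]) (.node 0 2 4 (.leaf [385, 248, 975, 284]) (.node 0 1 2 (.leaf [33, 578, 596, 405, 649, 280]) (.node 0 1 3 (.leaf [320, 564, 19, 1]) (.node 0 3 5 (.leaf [560, 467, 685, 714, 284, 1]) (.node 3 4 5 (.leaf [405, 489, 254, 863]) (.leaf [579, 596, 405, 729, 317]))))))))) (.leaf [242, 927, 345, 293])))),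
  (670258, (.node 0 1 4 (.node 0 1 3 (.node 1 4 5 (.leaf [368, 487, 254, 783]) (.node 0 1 5 (.node 1 3 5 (.leaf [320, 180, 747, 382, 615, 518]) (.node 0 3 5 (.leaf [467, 189, 75, 564]) (.node 3 4 5 (.leaf [247, 927, 489, 382]) (.leaf [675, 186, 747, 414, 729, 317])))) (.leaf [368, 695, 171, 10]))) (.leaf [368, 247, 847, 260])) (.node 0 1 3 (.leaf [320, 244, 895, 263]) (.node 1 4 5 (.node 0 1 5 (.leaf [160, 186, 635, 263]) (.node 1 3 5 (.node 0 3 5 (.node 3 4 5 (.leaf [467, 669, 489, 702, 171, 570]) (.leaf [487, 414, 249, 895])) (.leaf [579, 180, 219, 317])) (.leaf [608, 630, 487, 702, 75, 260]))) (.leaf [240, 1007, 382, 263]))))),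
  (670264, (.node 1 2 3 (.node 2 3 4 (.leaf [338, 405, 249, 815]) (.node 1 2 4 (.node 1 3 4 (.leaf [116, 151, 345, 581]) (.node 1 2 5 (.node 0 2 5 (.node 0 2 4 (.node 0 1 2 (.node 0 1 4 (.node 1 4 5 (.leaf [368, 487, 254, 783]) (.leaf [450, 700, 747, 382, 71, 548])) (.leaf [16, 33, 114, 263])) (.leaf [385, 664, 345, 581, 548, 18])) (.leaf [449, 252, 911, 280])) (.leaf [241, 815, 450, 284])) (.leaf [338, 245, 975, 300]))) (.leaf [338, 645, 120, 39]))) (.node 2 3 4 (.node 1 2 4 (.leaf [114, 135, 600, 293]) (.node 1 3 4 (.node 1 2 5 (.leaf [450, 252, 863, 293]) (.node 0 2 5 (.leaf [449, 300, 242, 799]) (.node 0 2 4 (.leaf [385, 248, 975, 284]) (.node 0 1 2 (.leaf [33, 578, 596, 405, 649, 280]) (.node 0 1 4 (.leaf [368, 39, 18, 1]) (.node 1 4 5 (.leaf [578, 116, 487, 702, 715, 300]) (.leaf [240, 1007, 382, 263]))))))) (.leaf [596, 405, 121, 71]))) (.leaf [242, 927, 345, 293])))),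
  (689386, (.node 1 2 3 (.node 1 2 4 (.node 2 3 5 (.leaf [338, 469, 253, 815]) (.node 1 2 5 (.node 1 3 5 (.leaf [180, 219, 349, 581]) (.node 1 4 5 (.leaf [386, 632, 487, 702, 75, 548]) (.node 0 1 3 (.node 0 1 5 (.leaf [432, 747, 382, 551, 338, 245, 783]) (.leaf [320, 548, 178, 267])) (.leaf [240, 1007, 382, 551, 338, 581, 260])))) (.leaf [338, 709, 188, 43]))) (.leaf [338, 245, 911, 296])) (.node 1 2 4 (.leaf [386, 248, 863, 293]) (.node 2 3 5 (.node 1 2 5 (.leaf [178, 203, 604, 293]) (.node 1 3 5 (.node 1 4 5 (.node 0 1 3 (.leaf [320, 596, 293, 626, 487, 254, 783]) (.node 0 1 5 (.leaf [432, 43, 578, 260]) (.leaf [240, 863, 293, 626, 487, 702, 267]))) (.leaf [578, 180, 747, 382, 647, 296])) (.leaf [596, 469, 189, 75]))) (.leaf [242, 991, 349, 293]))))),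
  (690410, (.node 1 2 3 (.node 1 2 4 (.node 0 2 4 (.node 0 2 3 (.node 0 2 5 (.node 2 3 5 (.leaf [338, 469, 253, 815]) (.node 0 1 2 (.node 0 1 3 (.node 0 3 4 (.node 3 4 5 (.leaf [403, 489, 254, 831]) (.leaf [403, 729, 349, 581, 564])) (.leaf [16, 385, 616, 662, 313, 515])) (.leaf [16, 49, 579, 260])) (.leaf [449, 732, 349, 581, 548, 18]))) (.leaf [385, 248, 975, 284])) (.leaf [385, 632, 551, 338, 53, 19])) (.leaf [241, 815, 386, 280])) (.leaf [338, 245, 911, 296])) (.node 1 2 4 (.leaf [386, 248, 863, 293]) (.node 0 2 4 (.leaf [385, 296, 242, 799]) (.node 0 2 3 (.leaf [49, 83, 293, 626, 647, 280]) (.node 0 2 5 (.leaf [449, 252, 911, 280]) (.node 2 3 5 (.node 0 1 2 (.leaf [33, 578, 596, 469, 717, 284]) (.node 0 1 3 (.leaf [320, 564, 19, 1]) (.node 0 3 4 (.leaf [560, 403, 617, 646, 280, 1]) (.node 3 4 5 (.leaf [579, 596, 469, 669, 313]) (.leaf [243, 1007, 414, 313]))))) (.leaf [242, 991, 349, 293])))))))),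
  (691306, (.node 1 2 3 (.node 1 2 4 (.node 0 2 4 (.node 0 2 3 (.node 0 2 5 (.node 1 2 5 (.node 2 3 5 (.leaf [338, 469, 253, 815]) (.node 0 1 2 (.node 0 1 3 (.node 0 1 5 (.node 1 4 5 (.leaf [320, 548, 386, 632, 487, 254, 783]) (.leaf [432, 747, 382, 551, 338, 245, 783])) (.leaf [320, 548, 178, 267])) (.leaf [16, 49, 579, 260])) (.leaf [449, 732, 349, 581, 548, 18]))) (.leaf [449, 188, 43, 386, 616, 534])) (.leaf [385, 248, 975, 284])) (.leaf [385, 632, 551, 338, 53, 19])) (.leaf [241, 815, 386, 280])) (.leaf [338, 245, 911, 296])) (.node 1 2 4 (.leaf [386, 248, 863, 293]) (.node 0 2 4 (.leaf [385, 296, 242, 799]) (.node 0 2 3 (.leaf [49, 83, 293, 626, 647, 280]) (.node 0 2 5 (.leaf [449, 252, 911, 280]) (.node 1 2 5 (.leaf [609, 646, 296, 178, 203, 284]) (.node 2 3 5 (.node 0 1 2 (.leaf [33, 578, 596, 469, 717, 284]) (.node 0 1 3 (.leaf [320, 564, 19, 1]) (.node 0 1 5 (.leaf [432, 43, 578, 260]) (.node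 1 4 5 (.leaf [240, 863, 293, 626, 487, 702, 267]) (.leaf [240, 1007, 382, 647, 296, 578, 260]))))) (.leaf [242, 991, 349, 293])))))))))]

def HC10 : List (ℕ × Tr) := [
  (691370, (.node 3 4 5 (.node 0 3 4 (.leaf [403, 489, 254, 831]) (.node 0 4 5 (.node 1 4 5 (.node 0 1 4 (.leaf [611, 118, 487, 734, 669, 313]) (.node 0 1 5 (.leaf [432, 635, 103, 6]) (.node 0 1 3 (.leaf [320, 244, 959, 267]) (.node 2 3 5 (.leaf [240, 863, 469, 669, 313, 579, 260]) (.node 1 2 3 (.leaf [672, 234, 734, 349, 581, 260]) (.leaf [242, 991, 349, 293])))))) (.leaf [247, 927, 489, 382])) (.leaf [662, 489, 174, 106]))) (.node 0 3 4 (.node 0 4 5 (.leaf [166, 234, 414, 617]) (.node 1 4 5 (.leaf [487, 414, 249, 895]) (.node 0 1 4 (.node 0 1 5 (.node 0 1 3 (.node 2 3 5 (.node 1 2 3 (.leaf [338, 469, 253, 815]) (.leaf [320, 596, 469, 749, 174, 522])) (.leaf [320, 564, 403, 729, 349, 245, 783])) (.leaf [432, 251, 847, 260])) (.leaf [96,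 118, 695, 267])) (.leaf [403, 729, 749, 382, 103, 566])))) (.leaf [243, 1007, 414, 313])))),
  (691402, (.node 1 2 3 (.node 1 2 4 (.node 2 3 5 (.leaf [338, 469, 253, 815]) (.node 1 2 5 (.node 1 3 5 (.leaf [180, 219, 349, 581]) (.node 1 4 5 (.leaf [386, 632, 487, 702, 75, 548]) (.node 0 1 3 (.node 0 1 5 (.leaf [432, 747, 382, 551, 338, 245, 783]) (.leaf [320, 548, 178, 267])) (.leaf [240, 1007, 382, 551, 338, 581, 260])))) (.leaf [338, 709, 188, 43]))) (.leaf [338, 245, 911, 296])) (.node 1 2 4 (.leaf [386, 248, 863, 293]) (.node 2 3 5 (.node 1 2 5 (.leaf [178, 203, 604, 293]) (.node 1 3 5 (.node 1 4 5 (.node 0 1 3 (.leaf [320, 596, 293, 626, 487, 254, 783]) (.node 0 1 5 (.leaf [432, 43, 578, 260]) (.leaf [240, 863, 293, 626, 487, 702, 267]))) (.leaf [578, 180, 747, 382, 647, 296])) (.leaf [596, 469, 189, 75]))) (.leaf [242, 991, 349, 293]))))),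
  (691426, (.node 0 2 4 (.node 1 2 4 (.node 0 2 5 (.node 1 2 5 (.node 2 3 5 (.node 3 4 5 (.leaf [449, 604, 469, 669, 489, 254, 799]) (.leaf [449, 604, 469, 749, 414, 249, 799])) (.node 2 3 4 (.leaf [449, 732, 349, 133, 616, 534]) (.node 1 4 5 (.node 3 4 5 (.leaf [385, 632, 487, 734, 349, 245, 799]) (.leaf [487, 414, 137, 632])) (.node 0 1 2 (.node 0 1 5 (.leaf [432, 747, 382, 551, 386, 248, 783]) (.leaf [16, 33, 178, 267])) (.leaf [449, 732, 349, 245, 1007, 382, 551, 18]))))) (.leaf [449, 188, 43, 386, 616, 534])) (.leaf [385, 248, 975, 284])) (.leaf [385, 296, 242, 799])) (.node 1 2 4 (.leaf [241, 815, 386, 280]) (.node 0 2 5 (.leaf [449, 252, 911, 280]) (.node 1 2 5 (.leaf [609, 646, 296, 178, 203, 284]) (.node 2 3 5 (.node 2 3 4 (.node 1 4 5 (.node 0 1 2 (.leaf [33, 626, 487, 254, 863, 469, 717, 284]) (.node 0 1 5 (.leaf [432, 43, 18, 1]) (.leaf [240, 911, 296, 626, 487, 702, 267]))) (.node 3 4 5 (.leaf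 [647, 152, 489, 382]) (.leaf [241, 863, 469, 749, 382, 647, 280]))) (.leaf [609, 646, 88, 469, 717, 284])) (.node 3 4 5 (.leaf [241, 927, 489, 734, 349, 709, 284]) (.leaf [241, 1007, 414, 729, 349, 709, 284])))))))),
  (691432, (.node 1 2 3 (.node 1 2 4 (.node 0 2 4 (.node 0 2 5 (.node 1 2 5 (.node 2 3 5 (.leaf [338, 469, 253, 815]) (.node 0 1 2 (.node 0 1 3 (.node 0 3 4 (.node 1 3 4 (.node 0 1 5 (.node 1 4 5 (.leaf [116, 487, 702, 203, 732, 349, 581]) (.leaf [432, 747, 382, 551, 338, 245, 783])) (.leaf [16, 33, 178, 267])) (.leaf [386, 616, 566, 403, 121, 551])) (.leaf [386, 616, 662, 313, 67, 548])) (.leaf [16, 33, 338, 581, 52, 3])) (.leaf [449, 732, 349, 581, 548, 18]))) (.leaf [449, 188, 43, 386, 616, 534])) (.leaf [385, 248, 975, 284])) (.leaf [241, 815, 386, 280])) (.leaf [338, 245, 911, 296])) (.node 1 2 4 (.leaf [386, 248, 863, 293]) (.node 0 2 4 (.leaf [385, 296, 242, 799]) (.node 0 2 5 (.leaf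 [449, 252, 911, 280]) (.node 1 2 5 (.leaf [609, 646, 296, 178, 203, 284]) (.node 2 3 5 (.node 0 1 2 (.leaf [33, 578, 596, 469, 717, 284]) (.node 0 1 3 (.leaf [48, 67, 596, 293, 18, 1]) (.node 0 3 4 (.leaf [578, 52, 403, 617, 646, 296]) (.node 1 3 4 (.leaf [626, 151, 313, 611, 646, 296]) (.node 0 1 5 (.leaf [432, 43, 18, 1]) (.node 1 4 5 (.leaf [240, 863, 293, 626, 487, 702, 267]) (.leaf [596, 469, 717, 188, 747, 382, 71]))))))) (.leaf [242, 991, 349, 293])))))))),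
  (789724, (.node 0 2 3 (.node 1 2 3 (.node 1 2 4 (.node 0 2 4 (.node 0 2 5 (.node 2 4 5 (.leaf [386, 488, 254, 815]) (.node 0 1 2 (.node 0 1 4 (.node 0 3 4 (.leaf [16, 337, 565, 403, 617, 518]) (.leaf [449, 748, 398, 248, 927, 313, 531])) (.leaf [16, 97, 630, 263])) (.leaf [449, 748, 398, 632, 551, 18]))) (.leaf [337, 245, 975, 284])) (.leaf [337, 581, 548, 386, 104, 22])) (.leaf [338, 245, 911, 296])) (.leaf [337, 293, 242, 799])) (.node 1 2 3 (.leaf [241, 815, 338, 277]) (.node 1 2 4 (.leaf [386, 248, 863, 293]) (.node 0 2 4 (.leaf [97, 134, 296, 578, 596, 277]) (.node 0 2 5 (.leaf [449, 252, 863, 277]) (.node 2 4 5 (.node 0 1 2 (.leaf [33, 626, 647, 488, 718, 284]) (.node 0 1 4 (.leaf [368, 615, 22, 1]) (.node 0 3 4 (.leaf [561, 403, 249, 911, 488, 718, 284]) (.leaf [608, 662, 313, 595, 277, 1])))) (.leaf [242, 1007, 398, 296])))))))),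
  (791868, (.node 0 2 3 (.node 1 2 3 (.node 0 2 4 (.node 1 2 5 (.node 2 4 5 (.leaf [385, 488, 254, 799]) (.node 0 1 2 (.leaf [33, 450, 748, 398, 616, 534]) (.node 1 3 4 (.node 0 1 4 (.node 0 1 5 (.leaf [432, 555, 18, 1]) (.leaf [368, 247, 959, 267])) (.leaf [608, 534, 337, 581, 404, 633, 263])) (.leaf [450, 748, 398, 248, 927, 329, 548])))) (.leaf [338, 245, 975, 300])) (.leaf [337, 245, 911, 280])) (.leaf [337, 293, 242, 799])) (.node 1 2 3 (.leaf [241, 815, 338, 277]) (.node 0 2 4 (.leaf [385, 248, 863, 277]) (.node 1 2 5 (.leaf [450, 252, 863, 293]) (.node 2 4 5 (.node 0 1 2 (.node 1 3 4 (.leaf [578, 404, 249, 911, 488, 718, 300]) (.node 0 1 4 (.leaf [368, 663, 329, 596, 277, 609, 518]) (.node 0 1 5 (.leaf [432, 251, 895, 263]) (.leaf [16, 33, 690, 267])))) (.leaf [609, 646, 488, 718, 300, 18])) (.leaf [241, 1007, 398, 280]))))))),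
  (795964, (.node 0 2 3 (.node 0 2 4 (.node 2 4 5 (.leaf [385, 488, 254, 799]) (.node 0 2 5 (.node 2 3 5 (.leaf [337, 197, 748, 398, 616, 534]) (.node 0 3 5 (.leaf [467, 205, 92, 565]) (.node 3 4 5 (.leaf [248, 927, 489, 398]) (.leaf [675, 202, 748, 414, 729, 317])))) (.leaf [385, 712, 172, 26]))) (.leaf [337, 245, 911, 280])) (.node 0 2 4 (.leaf [385, 248, 863, 277]) (.node 2 4 5 (.node 0 2 5 (.leaf [161, 202, 652, 280]) (.node 2 3 5 (.node 0 3 5 (.node 3 4 5 (.leaf [467, 669, 489, 718, 172, 570]) (.leaf [488, 414, 249, 911])) (.leaf [595, 197, 220, 317])) (.leaf [609, 646, 488, 718, 92, 277]))) (.leaf [241, 1007, 398, 280]))))),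
  (799036, (.node 0 2 3 (.node 1 2 3 (.node 0 2 4 (.node 1 2 5 (.node 2 4 5 (.leaf [385, 488, 254, 799]) (.node 1 3 4 (.node 0 1 4 (.node 0 1 3 (.node 0 1 5 (.node 0 3 5 (.leaf [338, 565, 467, 685, 186, 555]) (.leaf [67, 404, 249, 991, 317])) (.leaf [368, 583, 548, 450, 700, 171, 10])) (.leaf [368, 583, 52, 3])) (.leaf [608, 534, 337, 581, 404, 633, 263])) (.leaf [450, 748, 398, 248, 927, 329, 548]))) (.leaf [338, 245, 975, 300])) (.leaf [337, 245, 911, 280])) (.leaf [337, 293, 242, 799])) (.node 1 2 3 (.leaf [241, 815, 338, 277]) (.node 0 2 4 (.leaf [385, 248, 863, 277]) (.node 1 2 5 (.leaf [450, 252, 863, 293]) (.node 2 4 5 (.node 1 3 4 (.leaf [578, 404, 249, 911, 488, 718, 300]) (.node 0 1 4 (.leaf [368, 663, 329, 596, 277, 609, 518]) (.node 0 1 3 (.leaf [48, 67, 628, 263]) (.node 0 1 5 (.leaf [160, 186, 715, 300, 578, 628, 263]) (.node 0 3 5 (.leaf [467, 253, 927, 329, 52]) (.leaf [690, 171, 730, 317,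 595, 293])))))) (.leaf [241, 1007, 398, 280]))))))),
  (799804, (.node 0 2 3 (.node 1 2 3 (.node 0 2 4 (.node 1 2 5 (.node 2 4 5 (.leaf [385, 488, 254, 799]) (.node 0 1 2 (.leaf [33, 450, 748, 398, 616, 534]) (.node 2 3 4 (.node 1 3 4 (.node 0 1 4 (.node 0 1 5 (.leaf [432, 555, 18, 1]) (.leaf [368, 247, 959, 267])) (.leaf [608, 534, 337, 581, 116, 263])) (.leaf [385, 152, 121, 71, 548, 18])) (.leaf [450, 748, 398, 88, 581, 548])))) (.leaf [338, 245, 975, 300])) (.leaf [337, 245, 911, 280])) (.leaf [337, 293, 242, 799])) (.node 1 2 3 (.leaf [241, 815, 338, 277]) (.node 0 2 4 (.leaf [385, 248, 863, 277]) (.node 1 2 5 (.leaf [450, 252, 863, 293]) (.node 2 4 5 (.node 0 1 2 (.node 2 3 4 (.leaf [578, 596, 133, 488, 718, 300]) (.node 1 3 4 (.leaf [33, 578, 116, 151, 137, 280]) (.node 0 1 4 (.leaf [368, 71, 596, 277, 609, 518]) (.node 0 1 5 (.leaf [432, 251, 895, 263]) (.leaf [16, 33, 690, 267]))))) (.leaf [609,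 646, 488, 718, 300, 18])) (.leaf [241, 1007, 398, 280]))))))),
  (800028, (.node 1 2 3 (.node 0 2 3 (.node 0 3 5 (.node 3 4 5 (.leaf [337, 565, 467, 669, 489, 254, 799]) (.leaf [337, 565, 467, 749, 414, 249, 799])) (.node 3 4 5 (.leaf [337, 245, 927, 489, 734, 317, 531]) (.leaf [337, 245, 1007, 414, 729, 317, 531]))) (.leaf [241, 815, 338, 277])) (.node 0 2 3 (.leaf [337, 293, 242, 799]) (.node 0 3 5 (.node 3 4 5 (.leaf [561, 467, 669, 489, 254, 863, 277]) (.leaf [561, 467, 749, 414, 249, 863, 277])) (.node 3 4 5 (.leaf [241, 927, 489, 734, 317, 595, 277]) (.leaf [241, 1007, 414, 729, 317, 595, 277]))))))]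

def HC11 : List (ℕ × Tr) := [
  (800044, (.node 0 2 3 (.node 1 2 3 (.node 0 2 4 (.node 1 2 5 (.node 2 4 5 (.leaf [385, 488, 254, 799]) (.node 0 1 2 (.leaf [33, 450, 748, 398, 616, 534]) (.node 1 3 4 (.node 0 1 4 (.node 0 1 5 (.leaf [432, 555, 18, 1]) (.leaf [96, 534, 385, 712, 700, 267])) (.leaf [337, 581, 404, 633, 103, 534])) (.leaf [450, 748, 398, 248, 927, 329, 548])))) (.leaf [338, 245, 975, 300])) (.leaf [337, 245, 911, 280])) (.leaf [337, 293, 242, 799])) (.node 1 2 3 (.leaf [241, 815, 338, 277]) (.node 0 2 4 (.leaf [385, 248, 863, 277]) (.node 1 2 5 (.leaf [450, 252, 863, 293]) (.node 2 4 5 (.node 0 1 2 (.node 1 3 4 (.leaf [578, 404, 249, 911, 488, 718, 300]) (.node 0 1 4 (.leaf [609, 118, 663, 329, 596, 277]) (.node 0 1 5 (.leaf [432, 715, 652, 280, 609, 6]) (.leaf [16, 33, 690, 267])))) (.leaf [609, 646, 488, 718, 300, 18])) (.leaf [241, 1007, 398, 280]))))))),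
  (800052, (.node 0 2 4 (.node 0 2 3 (.node 2 4 5 (.leaf [385, 488, 254, 799]) (.node 0 2 5 (.node 2 3 5 (.leaf [337, 197, 748, 398, 616, 534]) (.node 0 3 5 (.leaf [467, 205, 92, 565]) (.node 3 4 5 (.leaf [248, 927, 489, 398]) (.leaf [675, 202, 748, 414, 729, 317])))) (.leaf [385, 712, 172, 26]))) (.leaf [385, 248, 863, 277])) (.node 0 2 3 (.leaf [337, 245, 911, 280]) (.node 2 4 5 (.node 0 2 5 (.leaf [161, 202, 652, 280]) (.node 2 3 5 (.node 0 3 5 (.node 3 4 5 (.leaf [467, 669, 489, 718, 172, 570]) (.leaf [488, 414, 249, 911])) (.leaf [595, 197, 220, 317])) (.leaf [609, 646, 488, 718, 92, 277]))) (.leaf [241, 1007, 398, 280]))))),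
  (800056, (.node 2 4 5 (.node 0 2 4 (.leaf [385, 488, 254, 799]) (.node 3 4 5 (.node 0 3 4 (.leaf [609, 150, 489, 718, 652, 280]) (.node 1 3 4 (.leaf [404, 489, 254, 847]) (.node 1 2 4 (.leaf [628, 135, 488, 734, 669, 329]) (.node 1 2 5 (.leaf [450, 652, 120, 39]) (.node 1 2 3 (.leaf [338, 245, 975, 300]) (.node 0 2 3 (.leaf [49, 83, 293, 242, 911, 280]) (.node 0 3 5 (.leaf [467, 669, 105, 54]) (.leaf [609, 646, 488, 734, 317, 19])))))))) (.leaf [488, 414, 249, 911]))) (.node 0 2 4 (.node 3 4 5 (.leaf [248, 927, 489, 398]) (.node 0 3 4 (.node 1 3 4 (.node 1 2 4 (.node 1 2 5 (.node 1 2 3 (.node 0 2 3 (.node 0 3 5 (.leaf [49, 467, 749, 398, 616, 534]) (.leaf [99, 150, 729, 317])) (.leaf [385, 248, 815, 338, 53, 19])) (.leaf [450, 252, 863, 293])) (.leaf [114, 135, 712, 300])) (.leaf [404, 729, 749, 398, 120, 583])) (.leaf [244, 1007, 414, 329])) (.leaf [385, 712, 748, 414, 105, 534]))) (.leaf [241, 1007,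 398, 280])))),
  (804060, (.node 1 2 3 (.node 1 2 4 (.node 2 4 5 (.leaf [386, 488, 254, 815]) (.node 1 2 5 (.node 2 3 5 (.leaf [338, 197, 748, 398, 632, 551]) (.node 1 3 5 (.leaf [468, 205, 92, 581]) (.node 3 4 5 (.leaf [248, 927, 489, 398]) (.leaf [692, 203, 748, 414, 729, 333])))) (.leaf [386, 712, 188, 43]))) (.leaf [338, 245, 911, 296])) (.node 1 2 4 (.leaf [386, 248, 863, 293]) (.node 2 4 5 (.node 1 2 5 (.leaf [178, 203, 652, 296]) (.node 2 3 5 (.node 1 3 5 (.node 3 4 5 (.leaf [468, 669, 489, 718, 188, 587]) (.leaf [488, 414, 249, 911])) (.leaf [596, 197, 220, 333])) (.leaf [626, 647, 488, 718, 92, 293]))) (.leaf [242, 1007, 398, 296]))))),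
  (805084, (.node 0 2 3 (.node 1 2 3 (.node 1 2 4 (.node 0 2 4 (.node 0 2 5 (.node 2 4 5 (.leaf [386, 488, 254, 815]) (.node 0 1 2 (.node 0 1 4 (.node 0 3 4 (.leaf [16, 337, 565, 403, 617, 518]) (.leaf [449, 748, 398, 248, 927, 313, 531])) (.leaf [16, 97, 630, 263])) (.leaf [449, 748, 398, 632, 551, 18]))) (.leaf [337, 245, 975, 284])) (.leaf [337, 581, 548, 386, 104, 22])) (.leaf [338, 245, 911, 296])) (.leaf [337, 293, 242, 799])) (.node 1 2 3 (.leaf [241, 815, 338, 277]) (.node 1 2 4 (.leaf [386, 248, 863, 293]) (.node 0 2 4 (.leaf [97, 134, 296, 578, 596, 277]) (.node 0 2 5 (.leaf [449, 252, 863, 277]) (.node 2 4 5 (.node 0 1 2 (.leaf [33, 626, 647, 488, 718, 284]) (.node 0 1 4 (.leaf [368, 615, 22, 1]) (.node 0 3 4 (.leaf [561, 403, 249, 911, 488, 718, 284]) (.leaf [608, 662, 313, 595, 277, 1])))) (.leaf [242, 1007, 398, 296])))))))),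
  (805980, (.node 0 2 3 (.node 1 2 3 (.node 1 2 4 (.node 0 2 4 (.node 0 2 5 (.node 2 4 5 (.leaf [386, 488, 254, 815]) (.node 0 1 2 (.node 0 1 4 (.node 0 3 4 (.leaf [368, 551, 338, 565, 99, 518]) (.node 2 3 4 (.leaf [368, 551, 386, 152, 105, 518]) (.leaf [449, 748, 398, 88, 565, 531]))) (.leaf [16, 97, 630, 263])) (.leaf [449, 748, 398, 632, 551, 18]))) (.leaf [337, 245, 975, 284])) (.leaf [337, 581, 548, 386, 104, 22])) (.leaf [338, 245, 911, 296])) (.leaf [337, 293, 242, 799])) (.node 1 2 3 (.leaf [241, 815, 338, 277]) (.node 1 2 4 (.leaf [386, 248, 863, 293]) (.node 0 2 4 (.leaf [97, 134, 296, 578, 596, 277]) (.node 0 2 5 (.leaf [449, 252, 863, 277]) (.node 2 4 5 (.node 0 1 2 (.leaf [33, 626, 647, 488, 718, 284]) (.node 0 1 4 (.leaf [368, 615, 22, 1]) (.node 0 3 4 (.node 2 3 4 (.leaf [561, 595, 133, 488, 718, 284]) (.leaf [608, 150, 137, 296, 626, 263])) (.leaf [608, 54, 595, 293, 626, 263])))) (.leaf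 [242, 1007, 398, 296])))))))),
  (806044, (.node 0 2 3 (.node 1 2 3 (.node 1 3 5 (.node 3 4 5 (.leaf [337, 581, 468, 669, 489, 254, 799]) (.leaf [337, 581, 468, 749, 414, 249, 799])) (.node 3 4 5 (.leaf [338, 245, 927, 489, 734, 333, 548]) (.leaf [338, 245, 1007, 414, 729, 333, 548]))) (.leaf [337, 293, 242, 799])) (.node 1 2 3 (.leaf [241, 815, 338, 277]) (.node 1 3 5 (.node 3 4 5 (.leaf [578, 468, 669, 489, 254, 863, 293]) (.leaf [578, 468, 749, 414, 249, 863, 293])) (.node 3 4 5 (.leaf [241, 927, 489, 734, 333, 596, 277]) (.leaf [241, 1007, 414, 729, 333, 596, 277])))))),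
  (806092, (.node 0 2 3 (.node 1 2 3 (.node 1 2 4 (.node 0 2 5 (.node 2 4 5 (.leaf [386, 488, 254, 815]) (.node 0 1 2 (.node 0 1 4 (.node 0 3 4 (.leaf [338, 565, 403, 617, 118, 551]) (.leaf [449, 748, 398, 248, 927, 313, 531])) (.leaf [16, 33, 386, 632, 103, 6])) (.leaf [449, 748, 398, 632, 551, 18]))) (.leaf [337, 245, 975, 284])) (.leaf [338, 245, 911, 296])) (.leaf [337, 293, 242, 799])) (.node 1 2 3 (.leaf [241, 815, 338, 277]) (.node 1 2 4 (.leaf [386, 248, 863, 293]) (.node 0 2 5 (.leaf [449, 252, 863, 277]) (.node 2 4 5 (.node 0 1 2 (.leaf [33, 626, 647, 488, 718, 284]) (.node 0 1 4 (.leaf [96, 118, 647, 296, 18, 1]) (.node 0 3 4 (.leaf [561, 403, 249, 911, 488, 718, 284]) (.leaf [626, 103, 662, 313, 595, 293])))) (.leaf [242, 1007, 398, 296]))))))),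
  (806100, (.node 2 4 5 (.node 1 2 4 (.leaf [386, 488, 254, 815]) (.node 3 4 5 (.node 0 3 4 (.leaf [403, 489, 254, 831]) (.node 0 2 4 (.leaf [611, 134, 488, 734, 669, 313]) (.node 0 2 5 (.leaf [449, 652, 104, 22]) (.node 0 1 2 (.leaf [33, 626, 647, 488, 718, 284]) (.node 0 1 4 (.leaf [368, 615, 22, 1]) (.leaf [608, 662, 489, 718, 284, 1])))))) (.leaf [488, 414, 249, 911]))) (.node 1 2 4 (.node 3 4 5 (.leaf [248, 927, 489, 398]) (.node 0 3 4 (.node 0 2 4 (.node 0 2 5 (.node 0 1 2 (.node 0 1 4 (.leaf [16, 449, 748, 414, 617, 518]) (.leaf [16, 97, 630, 263])) (.leaf [449, 748, 398, 632, 551, 18])) (.leaf [97, 134, 712, 284])) (.leaf [403, 729, 749, 398, 104, 566])) (.leaf [243, 1007, 414, 313]))) (.leaf [242, 1007, 398, 296])))),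
  (806104, (.node 1 2 4 (.node 1 2 3 (.node 2 4 5 (.leaf [386, 488, 254, 815]) (.node 1 2 5 (.node 2 3 5 (.leaf [338, 197, 748, 398, 632, 551]) (.node 1 3 5 (.leaf [468, 205, 92, 581]) (.node 3 4 5 (.leaf [248, 927, 489, 398]) (.leaf [692, 203, 748, 414, 729, 333])))) (.leaf [386, 712, 188, 43]))) (.leaf [386, 248, 863, 293])) (.node 1 2 3 (.leaf [338, 245, 911, 296]) (.node 2 4 5 (.node 1 2 5 (.leaf [178, 203, 652, 296]) (.node 2 3 5 (.node 1 3 5 (.node 3 4 5 (.leaf [468, 669, 489, 718, 188, 587]) (.leaf [488, 414, 249, 911])) (.leaf [596, 197, 220, 333])) (.leaf [626, 647, 488, 718, 92, 293]))) (.leaf [242, 1007, 398, 296])))))]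

/-- Certificates for the copies of the pattern with nine triples. -/
def HC : List (ℕ × Tr) := HC0 ++ HC1 ++ HC2 ++ HC3 ++ HC4 ++ HC5 ++ HC6 ++ HC7 ++ HC8 ++ HC9 ++ HC10 ++ HC11

theorem KC_ok : (KC.all fun c => chk 4 (gdm c.1) (bsF 4) c.2) = true := by decide +kernel

theorem HC_ok : (HC.all fun c => chk 6 (gdm c.1) (bsF 6) c.2) = true := by decide +kernel

theorem KC_map : KC.map Prod.fst = [14, 13, 11, 7] := by decide +kernel

theorem HC_map : HC.map Prod.fst = HM := by decide +kernel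

end Pool.Agent.MP_0af329_co.JW
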