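import Pool.Agent.MP_0af329_co.JWLeaf

/-!
# The jump of `F` at `2π/5`: kernel evaluations
-/

set_option autoImplicit false

namespace Pool.Agent.MP_0af329_co.JW

theorem dfs0_true : dfs0 = true := by decide +kernel

/-- Scalar product. -/
def dot : List ℤ → List ℤ → ℤ
  | a :: l, b :: l' => a * b + dot l l'
  | _, _ => 0

/-- Row of the form with two roots. -/
def row2 (i : ℕ) : List ℤ := R2L.getD i []

/-- Row of the form with four roots, root pattern `r`. -/
def row4 (r i : ℕ) : List ℤ :=
  if r = 0 then R4L0.getD i [] else if r = 1 then R4L1.getD i [] else if r = 2 then R4L2.getD i []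
  else if r = 4 then R4L4.getD i [] else if r = 8 then R4L8.getD i [] else []

def ckTab (n : ℕ) (T : ℕ → ℕ → ℕ) (R : ℕ → List ℤ) : Bool :=
  (List.range n).all fun i => (List.range n).all fun j =>
    decide ((T i j : ℤ) = dot (R i) (R j) + 8388608)

theorem ck2 : ckTab 16 tab2 row2 = true := by decide +kernel
theorem ck40 : ckTab 64 (tab4 0) (row4 0) = true := by decide +kernel
theorem ck41 : ckTab 64 (tab4 1) (row4 1) = true := by decide +kernel
theorem ck42 : ckTab 64 (tab4 2) (row4 2) = true := by decide +kernel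
theorem ck44 : ckTab 64 (tab4 4) (row4 4) = true := by decide +kernel
theorem ck48 : ckTab 64 (tab4 8) (row4 8) = true := by decide +kernel

theorem tab2_eq (i j : ℕ) (hi : i < 16) (hj : j < 16) :
    (tab2 i j : ℤ) = dot (row2 i) (row2 j) + 8388608 :=
  of_decide_eq_true (List.all_eq_true.1 (List.all_eq_true.1 ck2 i (List.mem_range.2 hi)) j
    (List.mem_range.2 hj))

theorem tab4_eq (r i j : ℕ) (hi : i < 64) (hj : j < 64) :
    (tab4 r i j : ℤ) = dot (row4 r i) (row4 r j) + 8388608 := by
  have key : ∀ s, ckTab 64 (tab4 s) (row4 s) = true →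
      (tab4 s i j : ℤ) = dot (row4 s i) (row4 s j) + 8388608 := fun s h =>
    of_decide_eq_true (List.all_eq_true.1 (List.all_eq_true.1 h i (List.mem_range.2 hi)) j
      (List.mem_range.2 hj))
  by_cases h0 : r = 0
  · subst h0; exact key 0 ck40
  by_cases h1 : r = 1
  · subst h1; exact key 1 ck41
  by_cases h2 : r = 2
  · subst h2; exact key 2 ck42
  by_cases h4 : r = 4
  · subst h4; exact key 4 ck44
  by_cases h8 : r = 8
  · subst h8; exact key 8 ck48
  have e : row4 r i = [] := by
    rw [row4, if_neg h0, if_neg h1, if_neg h2, if_neg h4, if_neg h8]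
  have e' : tab4 r i j = 8388608 := by
    have f : ∀ k, r ≠ k → Nat.beq r k = false := fun k hk =>
      Bool.eq_false_iff.2 fun h => hk (Nat.eq_of_beq_eq_true h)
    rw [tab4, f 0 h0, f 1 h1, f 2 h2, f 4 h4, f 8 h8]
    rfl
  rw [e, e', dot]
  · norm_num
  · intro a l b l' h _
    exact absurd h (by simp)

theorem lk24_le (T i : ℕ) : lk24 T i ≤ 16777215 := Nat.and_le_right

theorem tab2_le (i j : ℕ) : tab2 i j ≤ 16777215 := lk24_le _ _

theorem tab4_le (r i j : ℕ) : tab4 r i j ≤ 16777215 := by
  unfold tab4
  cases Nat.beq r 0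
  · cases Nat.beq r 1
    · cases Nat.beq r 2
      · cases Nat.beq r 4
        · cases Nat.beq r 8
          · show 8388608 ≤ 16777215
            norm_num
          · exact lk24_le _ _
        · exact lk24_le _ _
      · exact lk24_le _ _
    · exact lk24_le _ _
  · exact lk24_le _ _

end Pool.Agent.MP_0af329_co.JW
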