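import Pool.Agent.MP_0af329_co.JWChk

/-!
# Sums over all sextuples
-/

set_option autoImplicit false

namespace Pool.Agent.MP_0af329_co.JW

open Finset

/-- Reordering the six variables. -/
theorem sum_perm6 {V : Type} [Fintype V] (G : (Fin 6 → V) → ℤ) (σ : Equiv.Perm (Fin 6)) :
    ∑ t, G (t ∘ σ) = ∑ t, G t :=
  Equiv.sum_comp (Equiv.arrowCongr σ.symm (Equiv.refl V)) G

private theorem card_eq_le {V : Type} [Fintype V] [DecidableEq V] (i j : Fin 6) (h : i ≠ j) :
    (univ.filter fun t : Fin 6 → V => t i = t j).card ≤ Fintype.card V ^ 5 := by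
  have h1 : Fintype.card V ^ 5 = (univ : Finset (Fin 5 → V)).card := by
    rw [card_univ, Fintype.card_fun, Fintype.card_fin]
  rw [h1]
  refine card_le_card_of_injOn (fun t k => t (j.succAbove k)) (fun t _ => mem_coe.2 (mem_univ _)) ?_
  intro t ht u hu htu
  rw [mem_coe, mem_filter] at ht hu
  obtain ⟨k0, hk0⟩ := Fin.exists_succAbove_eq h
  have h2 : ∀ k : Fin 5, t (j.succAbove k) = u (j.succAbove k) := fun k => congrFun htu k
  funext k
  by_cases hk : k = j
  · rw [hk, ← ht.2, ← hu.2, ← hk0]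
    exact h2 k0
  · obtain ⟨k', hk'⟩ := Fin.exists_succAbove_eq hk
    rw [← hk']
    exact h2 k'

/-- The non-injective 6-tuples. -/
theorem card_not_inj6_le {V : Type} [Fintype V] [DecidableEq V] :
    (univ.filter fun t : Fin 6 → V => ¬ Function.Injective t).card ≤ 15 * Fintype.card V ^ 5 := by
  have hsub : (univ.filter fun t : Fin 6 → V => ¬ Function.Injective t) ⊆
      (univ.filter fun p : Fin 6 × Fin 6 => p.1 < p.2).biUnion
        fun p => univ.filter fun t : Fin 6 → V => t p.1 = t p.2 := by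
    intro t ht
    rw [mem_filter] at ht
    have h1 := ht.2
    unfold Function.Injective at h1
    push Not at h1
    obtain ⟨i, j, hij, hne⟩ := h1
    rw [mem_biUnion]
    rcases lt_or_gt_of_ne hne with h | h
    · exact ⟨(i, j), mem_filter.2 ⟨mem_univ _, h⟩, mem_filter.2 ⟨mem_univ _, hij⟩⟩
    · exact ⟨(j, i), mem_filter.2 ⟨mem_univ _, h⟩, mem_filter.2 ⟨mem_univ _, hij.symm⟩⟩
  refine (card_le_card hsub).trans (card_biUnion_le.trans ?_)
  have h2 : ∀ p ∈ (univ.filter fun p : Fin 6 × Fin 6 => p.1 < p.2),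
      (univ.filter fun t : Fin 6 → V => t p.1 = t p.2).card ≤ Fintype.card V ^ 5 := by
    intro p hp
    exact card_eq_le p.1 p.2 (mem_filter.1 hp).2.ne
  refine (sum_le_card_nsmul _ _ _ h2).trans ?_
  rw [smul_eq_mul]
  have h3 : (univ.filter fun p : Fin 6 × Fin 6 => p.1 < p.2).card = 15 := by decide
  rw [h3]

/-- The tuples of length 6 as a product. -/
def e6 (V : Type) : (Fin 6 → V) ≃ V × V × V × V × V × V where
  toFun t := (t 0, t 1, t 2, t 3, t 4, t 5)
  invFun p := ![p.1, p.2.1, p.2.2.1, p.2.2.2.1, p.2.2.2.2.1, p.2.2.2.2.2]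
  left_inv t := by
    funext i
    fin_cases i <;> rfl
  right_inv p := rfl

theorem sum_six {V : Type} [Fintype V] (f : V → V → V → V → V → V → ℤ) :
    ∑ t : Fin 6 → V, f (t 0) (t 1) (t 2) (t 3) (t 4) (t 5) =
      ∑ a : V, ∑ b : V, ∑ c : V, ∑ d : V, ∑ x : V, ∑ y : V, f a b c d x y := by
  rw [Fintype.sum_equiv (e6 V) (fun t : Fin 6 → V => f (t 0) (t 1) (t 2) (t 3) (t 4) (t 5))
    (fun p : V × V × V × V × V × V => f p.1 p.2.1 p.2.2.1 p.2.2.2.1 p.2.2.2.2.1 p.2.2.2.2.2)
    (fun t => rfl)]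
  simp only [Fintype.sum_prod_type]

theorem dot_eq : ∀ (l l' : List ℤ) (m : ℕ), l.length ≤ m →
    dot l l' = ∑ k ∈ range m, l.getD k 0 * l'.getD k 0
  | [], l', m, _ => by simp [dot]
  | a :: l, [], m, _ => by simp [dot]
  | a :: l, b :: l', 0, h => by simp at h
  | a :: l, b :: l', m + 1, h => by
    rw [dot, sum_range_succ', dot_eq l l' m (by simpa using h)]
    simp [add_comm]

/-- A sum of squares. -/
theorem sum_dot_nonneg {V : Type} [Fintype V] (f : V → List ℤ) : 0 ≤ ∑ x, ∑ y, dot (f x) (f y) := by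
  set m := ∑ x, (f x).length with hm
  have h1 : ∀ x, (f x).length ≤ m := fun x =>
    single_le_sum (f := fun x => (f x).length) (fun _ _ => Nat.zero_le _) (mem_univ x)
  have h2 : ∑ x, ∑ y, dot (f x) (f y) = ∑ k ∈ range m, (∑ x, (f x).getD k 0) ^ 2 := by
    calc ∑ x, ∑ y, dot (f x) (f y)
        = ∑ x, ∑ y, ∑ k ∈ range m, (f x).getD k 0 * (f y).getD k 0 :=
          sum_congr rfl fun x _ => sum_congr rfl fun y _ => dot_eq _ _ m (h1 x)
      _ = ∑ k ∈ range m, ∑ x, ∑ y, (f x).getD k 0 * (f y).getD k 0 := by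
          rw [sum_comm (s := range m)]
          exact sum_congr rfl fun x _ => sum_comm
      _ = _ := by
          refine sum_congr rfl fun k _ => ?_
          rw [sq, sum_mul_sum]
  rw [h2]
  exact sum_nonneg fun k _ => sq_nonneg _

end Pool.Agent.MP_0af329_co.JW
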