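import Pool.Agent.MP_0af329_co.JWD1

/-!
# The functional on sextuples
-/

set_option autoImplicit false

namespace Pool.Agent.MP_0af329_co.JW

open Finset

/-- Six different indices. -/
abbrev Tup : Type := Fin 6 × Fin 6 × Fin 6 × Fin 6 × Fin 6 × Fin 6

/-- The entries. -/
def Tup.toL (e : Tup) : List (Fin 6) :=
  [e.1, e.2.1, e.2.2.1, e.2.2.2.1, e.2.2.2.2.1, e.2.2.2.2.2]

def B4 (a b c d : Bool) : ℕ := c4 a.toNat b.toNat c.toNat d.toNat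

def B6 (a b c d e f : Bool) : ℕ := c6 a.toNat b.toNat c.toNat d.toNat e.toNat f.toNat

theorem B4_lt : ∀ a b c d : Bool, B4 a b c d < 16 := by decide

theorem B6_lt : ∀ a b c d e f : Bool, B6 a b c d e f < 64 := by decide

section

variable {V : Type} [Fintype V] (g : V → V → V → Bool)

/-- The row of a vertex `x` over four roots. -/
def fl4 (a b c d x : V) : List ℤ :=
  row4 (B4 (g a b c) (g a b d) (g a c d) (g b c d))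
    (B6 (g a b x) (g a c x) (g b c x) (g a d x) (g b d x) (g c d x))

def t4 (a b c d x y : V) : ℤ := dot (fl4 g a b c d x) (fl4 g a b c d y)

/-- The row of two vertices `u, w` over two roots. -/
def fl2 (x y u w : V) : List ℤ := row2 (B4 (g x y u) (g x y w) (g x u w) (g y u w))

def t2 (x y u w u' w' : V) : ℤ := dot (fl2 g x y u w) (fl2 g x y u' w')

theorem sum_t4 : 0 ≤ ∑ t : Fin 6 → V, t4 g (t 0) (t 1) (t 2) (t 3) (t 4) (t 5) := by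
  rw [sum_six (t4 g)]
  exact sum_nonneg fun a _ => sum_nonneg fun b _ => sum_nonneg fun c _ => sum_nonneg fun d _ =>
    sum_dot_nonneg fun x => fl4 g a b c d x

theorem sum_t2 : 0 ≤ ∑ t : Fin 6 → V, t2 g (t 0) (t 1) (t 2) (t 3) (t 4) (t 5) := by
  rw [sum_six (t2 g)]
  refine sum_nonneg fun x _ => sum_nonneg fun y _ => ?_
  have h := sum_dot_nonneg fun p : V × V => fl2 g x y p.1 p.2
  simp only [Fintype.sum_prod_type] at h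
  exact h

def T4 (t : Fin 6 → V) (e : Tup) : ℤ :=
  t4 g (t e.1) (t e.2.1) (t e.2.2.1) (t e.2.2.2.1) (t e.2.2.2.2.1) (t e.2.2.2.2.2)

def T2 (t : Fin 6 → V) (e : Tup) : ℤ :=
  t2 g (t e.1) (t e.2.1) (t e.2.2.1) (t e.2.2.2.1) (t e.2.2.2.2.1) (t e.2.2.2.2.2)

end

theorem exists_perm (e : Tup) (h : e.toL.Nodup) : ∃ σ : Equiv.Perm (Fin 6), σ 0 = e.1 ∧
    σ 1 = e.2.1 ∧ σ 2 = e.2.2.1 ∧ σ 3 = e.2.2.2.1 ∧ σ 4 = e.2.2.2.2.1 ∧ σ 5 = e.2.2.2.2.2 := by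
  refine ⟨Equiv.ofBijective (fun i : Fin 6 => e.toL.get ⟨i, i.2⟩)
    ((Finite.injective_iff_bijective).1 ?_), rfl, rfl, rfl, rfl, rfl, rfl⟩
  intro i j hij
  have h1 := (List.Nodup.get_inj_iff h).1 hij
  have h2 : (i : ℕ) = j := by simpa using congrArg Fin.val h1
  exact Fin.ext h2

section

variable {V : Type} [Fintype V] (g : V → V → V → Bool)

theorem sum_T4 (e : Tup) (h : e.toL.Nodup) : 0 ≤ ∑ t : Fin 6 → V, T4 g t e := by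
  obtain ⟨σ, h0, h1, h2, h3, h4, h5⟩ := exists_perm e h
  have := sum_perm6 (fun t : Fin 6 → V => t4 g (t 0) (t 1) (t 2) (t 3) (t 4) (t 5)) σ
  simp only [Function.comp_apply, h0, h1, h2, h3, h4, h5] at this
  unfold T4
  rw [this]
  exact sum_t4 g

theorem sum_T2 (e : Tup) (h : e.toL.Nodup) : 0 ≤ ∑ t : Fin 6 → V, T2 g t e := by
  obtain ⟨σ, h0, h1, h2, h3, h4, h5⟩ := exists_perm e h
  have := sum_perm6 (fun t : Fin 6 → V => t2 g (t 0) (t 1) (t 2) (t 3) (t 4) (t 5)) σ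
  simp only [Function.comp_apply, h0, h1, h2, h3, h4, h5] at this
  unfold T2
  rw [this]
  exact sum_t2 g

theorem list_sum_nonneg (F : (Fin 6 → V) → Tup → ℤ) : ∀ L : List Tup,
    (∀ e ∈ L, 0 ≤ ∑ t : Fin 6 → V, F t e) → 0 ≤ ∑ t : Fin 6 → V, (L.map (F t)).sum
  | [], _ => by simp
  | e :: L, h => by
    simp only [List.map_cons, List.sum_cons, sum_add_distrib]
    exact add_nonneg (h e List.mem_cons_self)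
      (list_sum_nonneg F L fun e' he' => h e' (List.mem_cons_of_mem _ he'))

theorem E4_all : (E4.all fun e => decide (Tup.toL e).Nodup) = true := by decide +kernel

theorem E2_all : (E2.all fun e => decide (Tup.toL e).Nodup) = true := by decide +kernel

theorem E4_nodup (e : Tup) (he : e ∈ E4) : (Tup.toL e).Nodup :=
  of_decide_eq_true (List.all_eq_true.1 E4_all e he)

theorem E2_nodup (e : Tup) (he : e ∈ E2) : (Tup.toL e).Nodup :=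
  of_decide_eq_true (List.all_eq_true.1 E2_all e he)

/-- The functional. -/
def SS (t : Fin 6 → V) : ℤ := (E4.map (T4 g t)).sum + (E2.map (T2 g t)).sum

theorem sum_SS : 0 ≤ ∑ t : Fin 6 → V, SS g t := by
  unfold SS
  rw [sum_add_distrib]
  exact add_nonneg (list_sum_nonneg (T4 g) E4 fun e he => sum_T4 g e (E4_nodup e he))
    (list_sum_nonneg (T2 g) E2 fun e he => sum_T2 g e (E2_nodup e he))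

end

/-! ### The functional computed from the truth values of the twenty triples -/

def u4 (bv : ℕ → ℕ) (e : Tup) : ℕ :=
  tab4 (c4 (bv (ixs e.1 e.2.1 e.2.2.1)) (bv (ixs e.1 e.2.1 e.2.2.2.1))
      (bv (ixs e.1 e.2.2.1 e.2.2.2.1)) (bv (ixs e.2.1 e.2.2.1 e.2.2.2.1)))
    (c6 (bv (ixs e.1 e.2.1 e.2.2.2.2.1)) (bv (ixs e.1 e.2.2.1 e.2.2.2.2.1))
      (bv (ixs e.2.1 e.2.2.1 e.2.2.2.2.1)) (bv (ixs e.1 e.2.2.2.1 e.2.2.2.2.1))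
      (bv (ixs e.2.1 e.2.2.2.1 e.2.2.2.2.1)) (bv (ixs e.2.2.1 e.2.2.2.1 e.2.2.2.2.1)))
    (c6 (bv (ixs e.1 e.2.1 e.2.2.2.2.2)) (bv (ixs e.1 e.2.2.1 e.2.2.2.2.2))
      (bv (ixs e.2.1 e.2.2.1 e.2.2.2.2.2)) (bv (ixs e.1 e.2.2.2.1 e.2.2.2.2.2))
      (bv (ixs e.2.1 e.2.2.2.1 e.2.2.2.2.2)) (bv (ixs e.2.2.1 e.2.2.2.1 e.2.2.2.2.2)))

def u2 (bv : ℕ → ℕ) (e : Tup) : ℕ :=
  tab2 (c4 (bv (ixs e.1 e.2.1 e.2.2.1)) (bv (ixs e.1 e.2.1 e.2.2.2.1))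
      (bv (ixs e.1 e.2.2.1 e.2.2.2.1)) (bv (ixs e.2.1 e.2.2.1 e.2.2.2.1)))
    (c4 (bv (ixs e.1 e.2.1 e.2.2.2.2.1)) (bv (ixs e.1 e.2.1 e.2.2.2.2.2))
      (bv (ixs e.1 e.2.2.2.2.1 e.2.2.2.2.2)) (bv (ixs e.2.1 e.2.2.2.2.1 e.2.2.2.2.2)))

-- BEGIN GEN
theorem u4_0 (bv : ℕ → ℕ) : u4 bv (2, 3, 4, 5, 0, 1) =
    tab4 (c4 (bv 9) (bv 15) (bv 18) (bv 19))
    (c6 (bv 2) (bv 5) (bv 7) (bv 11) (bv 13) (bv 16))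
    (c6 (bv 3) (bv 6) (bv 8) (bv 12) (bv 14) (bv 17)) := rfl

theorem u4_1 (bv : ℕ → ℕ) : u4 bv (1, 3, 4, 5, 0, 2) =
    tab4 (c4 (bv 8) (bv 14) (bv 17) (bv 19))
    (c6 (bv 1) (bv 4) (bv 7) (bv 10) (bv 13) (bv 16))
    (c6 (bv 3) (bv 6) (bv 9) (bv 12) (bv 15) (bv 18)) := rfl

theorem u4_2 (bv : ℕ → ℕ) : u4 bv (0, 3, 4, 5, 1, 2) =
    tab4 (c4 (bv 7) (bv 13) (bv 16) (bv 19))
    (c6 (bv 1) (bv 4) (bv 8) (bv 10) (bv 14) (bv 17))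
    (c6 (bv 2) (bv 5) (bv 9) (bv 11) (bv 15) (bv 18)) := rfl

theorem u4_3 (bv : ℕ → ℕ) : u4 bv (1, 2, 4, 5, 0, 3) =
    tab4 (c4 (bv 6) (bv 12) (bv 17) (bv 18))
    (c6 (bv 0) (bv 4) (bv 5) (bv 10) (bv 11) (bv 16))
    (c6 (bv 3) (bv 8) (bv 9) (bv 14) (bv 15) (bv 19)) := rfl

theorem u4_4 (bv : ℕ → ℕ) : u4 bv (0, 2, 4, 5, 1, 3) =
    tab4 (c4 (bv 5) (bv 11) (bv 16) (bv 18))
    (c6 (bv 0) (bv 4) (bv 6) (bv 10) (bv 12) (bv 17))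
    (c6 (bv 2) (bv 7) (bv 9) (bv 13) (bv 15) (bv 19)) := rfl

theorem u4_5 (bv : ℕ → ℕ) : u4 bv (0, 1, 4, 5, 2, 3) =
    tab4 (c4 (bv 4) (bv 10) (bv 16) (bv 17))
    (c6 (bv 0) (bv 5) (bv 6) (bv 11) (bv 12) (bv 18))
    (c6 (bv 1) (bv 7) (bv 8) (bv 13) (bv 14) (bv 19)) := rfl

theorem u4_6 (bv : ℕ → ℕ) : u4 bv (1, 2, 3, 5, 0, 4) =
    tab4 (c4 (bv 3) (bv 12) (bv 14) (bv 15))
    (c6 (bv 0) (bv 1) (bv 2) (bv 10) (bv 11) (bv 13))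
    (c6 (bv 6) (bv 8) (bv 9) (bv 17) (bv 18) (bv 19)) := rfl

theorem u4_7 (bv : ℕ → ℕ) : u4 bv (0, 2, 3, 5, 1, 4) =
    tab4 (c4 (bv 2) (bv 11) (bv 13) (bv 15))
    (c6 (bv 0) (bv 1) (bv 3) (bv 10) (bv 12) (bv 14))
    (c6 (bv 5) (bv 7) (bv 9) (bv 16) (bv 18) (bv 19)) := rfl

theorem u4_8 (bv : ℕ → ℕ) : u4 bv (0, 1, 3, 5, 2, 4) =
    tab4 (c4 (bv 1) (bv 10) (bv 13) (bv 14))
    (c6 (bv 0) (bv 2) (bv 3) (bv 11) (bv 12) (bv 15))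
    (c6 (bv 4) (bv 7) (bv 8) (bv 16) (bv 17) (bv 19)) := rfl

theorem u4_9 (bv : ℕ → ℕ) : u4 bv (0, 1, 2, 5, 3, 4) =
    tab4 (c4 (bv 0) (bv 10) (bv 11) (bv 12))
    (c6 (bv 1) (bv 2) (bv 3) (bv 13) (bv 14) (bv 15))
    (c6 (bv 4) (bv 5) (bv 6) (bv 16) (bv 17) (bv 18)) := rfl

theorem u4_10 (bv : ℕ → ℕ) : u4 bv (1, 2, 3, 4, 0, 5) =
    tab4 (c4 (bv 3) (bv 6) (bv 8) (bv 9))
    (c6 (bv 0) (bv 1) (bv 2) (bv 4) (bv 5) (bv 7))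
    (c6 (bv 12) (bv 14) (bv 15) (bv 17) (bv 18) (bv 19)) := rfl

theorem u4_11 (bv : ℕ → ℕ) : u4 bv (0, 2, 3, 4, 1, 5) =
    tab4 (c4 (bv 2) (bv 5) (bv 7) (bv 9))
    (c6 (bv 0) (bv 1) (bv 3) (bv 4) (bv 6) (bv 8))
    (c6 (bv 11) (bv 13) (bv 15) (bv 16) (bv 18) (bv 19)) := rfl

theorem u4_12 (bv : ℕ → ℕ) : u4 bv (0, 1, 3, 4, 2, 5) =
    tab4 (c4 (bv 1) (bv 4) (bv 7) (bv 8))
    (c6 (bv 0) (bv 2) (bv 3) (bv 5) (bv 6) (bv 9))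
    (c6 (bv 10) (bv 13) (bv 14) (bv 16) (bv 17) (bv 19)) := rfl

theorem u4_13 (bv : ℕ → ℕ) : u4 bv (0, 1, 2, 4, 3, 5) =
    tab4 (c4 (bv 0) (bv 4) (bv 5) (bv 6))
    (c6 (bv 1) (bv 2) (bv 3) (bv 7) (bv 8) (bv 9))
    (c6 (bv 10) (bv 11) (bv 12) (bv 16) (bv 17) (bv 18)) := rfl

theorem u4_14 (bv : ℕ → ℕ) : u4 bv (0, 1, 2, 3, 4, 5) =
    tab4 (c4 (bv 0) (bv 1) (bv 2) (bv 3))
    (c6 (bv 4) (bv 5) (bv 6) (bv 7) (bv 8) (bv 9))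
    (c6 (bv 10) (bv 11) (bv 12) (bv 13) (bv 14) (bv 15)) := rfl

theorem u2_0 (bv : ℕ → ℕ) : u2 bv (0, 1, 2, 3, 4, 5) =
    tab2 (c4 (bv 0) (bv 1) (bv 2) (bv 3)) (c4 (bv 4) (bv 10) (bv 16) (bv 17)) := rfl

theorem u2_1 (bv : ℕ → ℕ) : u2 bv (0, 1, 2, 4, 3, 5) =
    tab2 (c4 (bv 0) (bv 4) (bv 5) (bv 6)) (c4 (bv 1) (bv 10) (bv 13) (bv 14)) := rfl

theorem u2_2 (bv : ℕ → ℕ) : u2 bv (0, 1, 2, 5, 3, 4) =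
    tab2 (c4 (bv 0) (bv 10) (bv 11) (bv 12)) (c4 (bv 1) (bv 4) (bv 7) (bv 8)) := rfl

theorem u2_3 (bv : ℕ → ℕ) : u2 bv (0, 2, 1, 3, 4, 5) =
    tab2 (c4 (bv 0) (bv 2) (bv 1) (bv 3)) (c4 (bv 5) (bv 11) (bv 16) (bv 18)) := rfl

theorem u2_4 (bv : ℕ → ℕ) : u2 bv (0, 2, 1, 4, 3, 5) =
    tab2 (c4 (bv 0) (bv 5) (bv 4) (bv 6)) (c4 (bv 2) (bv 11) (bv 13) (bv 15)) := rfl

theorem u2_5 (bv : ℕ → ℕ) : u2 bv (0, 2, 1, 5, 3, 4) =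
    tab2 (c4 (bv 0) (bv 11) (bv 10) (bv 12)) (c4 (bv 2) (bv 5) (bv 7) (bv 9)) := rfl

theorem u2_6 (bv : ℕ → ℕ) : u2 bv (1, 2, 0, 3, 4, 5) =
    tab2 (c4 (bv 0) (bv 3) (bv 1) (bv 2)) (c4 (bv 6) (bv 12) (bv 17) (bv 18)) := rfl

theorem u2_7 (bv : ℕ → ℕ) : u2 bv (1, 2, 0, 4, 3, 5) =
    tab2 (c4 (bv 0) (bv 6) (bv 4) (bv 5)) (c4 (bv 3) (bv 12) (bv 14) (bv 15)) := rfl

theorem u2_8 (bv : ℕ → ℕ) : u2 bv (1, 2, 0, 5, 3, 4) =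
    tab2 (c4 (bv 0) (bv 12) (bv 10) (bv 11)) (c4 (bv 3) (bv 6) (bv 8) (bv 9)) := rfl

theorem u2_9 (bv : ℕ → ℕ) : u2 bv (0, 3, 1, 2, 4, 5) =
    tab2 (c4 (bv 1) (bv 2) (bv 0) (bv 3)) (c4 (bv 7) (bv 13) (bv 16) (bv 19)) := rfl

theorem u2_10 (bv : ℕ → ℕ) : u2 bv (0, 3, 1, 4, 2, 5) =
    tab2 (c4 (bv 1) (bv 7) (bv 4) (bv 8)) (c4 (bv 2) (bv 13) (bv 11) (bv 15)) := rfl

theorem u2_11 (bv : ℕ → ℕ) : u2 bv (0, 3, 1, 5, 2, 4) =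
    tab2 (c4 (bv 1) (bv 13) (bv 10) (bv 14)) (c4 (bv 2) (bv 7) (bv 5) (bv 9)) := rfl

theorem u2_12 (bv : ℕ → ℕ) : u2 bv (1, 3, 0, 2, 4, 5) =
    tab2 (c4 (bv 1) (bv 3) (bv 0) (bv 2)) (c4 (bv 8) (bv 14) (bv 17) (bv 19)) := rfl

theorem u2_13 (bv : ℕ → ℕ) : u2 bv (1, 3, 0, 4, 2, 5) =
    tab2 (c4 (bv 1) (bv 8) (bv 4) (bv 7)) (c4 (bv 3) (bv 14) (bv 12) (bv 15)) := rfl

theorem u2_14 (bv : ℕ → ℕ) : u2 bv (1, 3, 0, 5, 2, 4) =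
    tab2 (c4 (bv 1) (bv 14) (bv 10) (bv 13)) (c4 (bv 3) (bv 8) (bv 6) (bv 9)) := rfl

theorem u2_15 (bv : ℕ → ℕ) : u2 bv (2, 3, 0, 1, 4, 5) =
    tab2 (c4 (bv 2) (bv 3) (bv 0) (bv 1)) (c4 (bv 9) (bv 15) (bv 18) (bv 19)) := rfl

theorem u2_16 (bv : ℕ → ℕ) : u2 bv (2, 3, 0, 4, 1, 5) =
    tab2 (c4 (bv 2) (bv 9) (bv 5) (bv 7)) (c4 (bv 3) (bv 15) (bv 12) (bv 14)) := rfl

theorem u2_17 (bv : ℕ → ℕ) : u2 bv (2, 3, 0, 5, 1, 4) =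
    tab2 (c4 (bv 2) (bv 15) (bv 11) (bv 13)) (c4 (bv 3) (bv 9) (bv 6) (bv 8)) := rfl

theorem u2_18 (bv : ℕ → ℕ) : u2 bv (0, 4, 1, 2, 3, 5) =
    tab2 (c4 (bv 4) (bv 5) (bv 0) (bv 6)) (c4 (bv 7) (bv 16) (bv 13) (bv 19)) := rfl

theorem u2_19 (bv : ℕ → ℕ) : u2 bv (0, 4, 1, 3, 2, 5) =
    tab2 (c4 (bv 4) (bv 7) (bv 1) (bv 8)) (c4 (bv 5) (bv 16) (bv 11) (bv 18)) := rfl

theorem u2_20 (bv : ℕ → ℕ) : u2 bv (0, 4, 1, 5, 2, 3) =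
    tab2 (c4 (bv 4) (bv 16) (bv 10) (bv 17)) (c4 (bv 5) (bv 7) (bv 2) (bv 9)) := rfl

theorem u2_21 (bv : ℕ → ℕ) : u2 bv (1, 4, 0, 2, 3, 5) =
    tab2 (c4 (bv 4) (bv 6) (bv 0) (bv 5)) (c4 (bv 8) (bv 17) (bv 14) (bv 19)) := rfl

theorem u2_22 (bv : ℕ → ℕ) : u2 bv (1, 4, 0, 3, 2, 5) =
    tab2 (c4 (bv 4) (bv 8) (bv 1) (bv 7)) (c4 (bv 6) (bv 17) (bv 12) (bv 18)) := rfl

theorem u2_23 (bv : ℕ → ℕ) : u2 bv (1, 4, 0, 5, 2, 3) =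
    tab2 (c4 (bv 4) (bv 17) (bv 10) (bv 16)) (c4 (bv 6) (bv 8) (bv 3) (bv 9)) := rfl

theorem u2_24 (bv : ℕ → ℕ) : u2 bv (2, 4, 0, 1, 3, 5) =
    tab2 (c4 (bv 5) (bv 6) (bv 0) (bv 4)) (c4 (bv 9) (bv 18) (bv 15) (bv 19)) := rfl

theorem u2_25 (bv : ℕ → ℕ) : u2 bv (2, 4, 0, 3, 1, 5) =
    tab2 (c4 (bv 5) (bv 9) (bv 2) (bv 7)) (c4 (bv 6) (bv 18) (bv 12) (bv 17)) := rfl

theorem u2_26 (bv : ℕ → ℕ) : u2 bv (2, 4, 0, 5, 1, 3) =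
    tab2 (c4 (bv 5) (bv 18) (bv 11) (bv 16)) (c4 (bv 6) (bv 9) (bv 3) (bv 8)) := rfl

theorem u2_27 (bv : ℕ → ℕ) : u2 bv (3, 4, 0, 1, 2, 5) =
    tab2 (c4 (bv 7) (bv 8) (bv 1) (bv 4)) (c4 (bv 9) (bv 19) (bv 15) (bv 18)) := rfl

theorem u2_28 (bv : ℕ → ℕ) : u2 bv (3, 4, 0, 2, 1, 5) =
    tab2 (c4 (bv 7) (bv 9) (bv 2) (bv 5)) (c4 (bv 8) (bv 19) (bv 14) (bv 17)) := rfl

theorem u2_29 (bv : ℕ → ℕ) : u2 bv (3, 4, 0, 5, 1, 2) =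
    tab2 (c4 (bv 7) (bv 19) (bv 13) (bv 16)) (c4 (bv 8) (bv 9) (bv 3) (bv 6)) := rfl

theorem u2_30 (bv : ℕ → ℕ) : u2 bv (0, 5, 1, 2, 3, 4) =
    tab2 (c4 (bv 10) (bv 11) (bv 0) (bv 12)) (c4 (bv 13) (bv 16) (bv 7) (bv 19)) := rfl

theorem u2_31 (bv : ℕ → ℕ) : u2 bv (0, 5, 1, 3, 2, 4) =
    tab2 (c4 (bv 10) (bv 13) (bv 1) (bv 14)) (c4 (bv 11) (bv 16) (bv 5) (bv 18)) := rfl

theorem u2_32 (bv : ℕ → ℕ) : u2 bv (0, 5, 1, 4, 2, 3) =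
    tab2 (c4 (bv 10) (bv 16) (bv 4) (bv 17)) (c4 (bv 11) (bv 13) (bv 2) (bv 15)) := rfl

theorem u2_33 (bv : ℕ → ℕ) : u2 bv (1, 5, 0, 2, 3, 4) =
    tab2 (c4 (bv 10) (bv 12) (bv 0) (bv 11)) (c4 (bv 14) (bv 17) (bv 8) (bv 19)) := rfl

theorem u2_34 (bv : ℕ → ℕ) : u2 bv (1, 5, 0, 3, 2, 4) =
    tab2 (c4 (bv 10) (bv 14) (bv 1) (bv 13)) (c4 (bv 12) (bv 17) (bv 6) (bv 18)) := rfl

theorem u2_35 (bv : ℕ → ℕ) : u2 bv (1, 5, 0, 4, 2, 3) =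
    tab2 (c4 (bv 10) (bv 17) (bv 4) (bv 16)) (c4 (bv 12) (bv 14) (bv 3) (bv 15)) := rfl

theorem u2_36 (bv : ℕ → ℕ) : u2 bv (2, 5, 0, 1, 3, 4) =
    tab2 (c4 (bv 11) (bv 12) (bv 0) (bv 10)) (c4 (bv 15) (bv 18) (bv 9) (bv 19)) := rfl

theorem u2_37 (bv : ℕ → ℕ) : u2 bv (2, 5, 0, 3, 1, 4) =
    tab2 (c4 (bv 11) (bv 15) (bv 2) (bv 13)) (c4 (bv 12) (bv 18) (bv 6) (bv 17)) := rfl

theorem u2_38 (bv : ℕ → ℕ) : u2 bv (2, 5, 0, 4, 1, 3) =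
    tab2 (c4 (bv 11) (bv 18) (bv 5) (bv 16)) (c4 (bv 12) (bv 15) (bv 3) (bv 14)) := rfl

theorem u2_39 (bv : ℕ → ℕ) : u2 bv (3, 5, 0, 1, 2, 4) =
    tab2 (c4 (bv 13) (bv 14) (bv 1) (bv 10)) (c4 (bv 15) (bv 19) (bv 9) (bv 18)) := rfl

theorem u2_40 (bv : ℕ → ℕ) : u2 bv (3, 5, 0, 2, 1, 4) =
    tab2 (c4 (bv 13) (bv 15) (bv 2) (bv 11)) (c4 (bv 14) (bv 19) (bv 8) (bv 17)) := rfl

theorem u2_41 (bv : ℕ → ℕ) : u2 bv (3, 5, 0, 4, 1, 2) =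
    tab2 (c4 (bv 13) (bv 19) (bv 7) (bv 16)) (c4 (bv 14) (bv 15) (bv 3) (bv 12)) := rfl

theorem u2_42 (bv : ℕ → ℕ) : u2 bv (4, 5, 0, 1, 2, 3) =
    tab2 (c4 (bv 16) (bv 17) (bv 4) (bv 10)) (c4 (bv 18) (bv 19) (bv 9) (bv 15)) := rfl

theorem u2_43 (bv : ℕ → ℕ) : u2 bv (4, 5, 0, 2, 1, 3) =
    tab2 (c4 (bv 16) (bv 18) (bv 5) (bv 11)) (c4 (bv 17) (bv 19) (bv 8) (bv 14)) := rfl

theorem u2_44 (bv : ℕ → ℕ) : u2 bv (4, 5, 0, 3, 1, 2) =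
    tab2 (c4 (bv 16) (bv 19) (bv 7) (bv 13)) (c4 (bv 17) (bv 18) (bv 6) (bv 12)) := rfl

theorem sumT_eq (bv : ℕ → ℕ) :
    sumT (bv 0) (bv 1) (bv 2) (bv 3) (bv 4) (bv 5) (bv 6) (bv 7) (bv 8) (bv 9) (bv 10) (bv 11)
      (bv 12) (bv 13) (bv 14) (bv 15) (bv 16) (bv 17) (bv 18) (bv 19) =
    (E4.map (u4 bv)).sum + (E2.map (u2 bv)).sum := by
  unfold sumT E4 E2
  simp only [List.map_cons, List.map_nil, List.sum_cons, List.sum_nil, Nat.add_eq, add_zero,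
    add_assoc,
    u4_0, u4_1, u4_2, u4_3, u4_4, u4_5, u4_6, u4_7,
    u4_8, u4_9, u4_10, u4_11, u4_12, u4_13, u4_14, u2_0,
    u2_1, u2_2, u2_3, u2_4, u2_5, u2_6, u2_7, u2_8,
    u2_9, u2_10, u2_11, u2_12, u2_13, u2_14, u2_15, u2_16,
    u2_17, u2_18, u2_19, u2_20, u2_21, u2_22, u2_23, u2_24,
    u2_25, u2_26, u2_27, u2_28, u2_29, u2_30, u2_31, u2_32,
    u2_33, u2_34, u2_35, u2_36, u2_37, u2_38, u2_39, u2_40,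
    u2_41, u2_42, u2_43, u2_44]

end Pool.Agent.MP_0af329_co.JW
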