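import Pool.Agent.MP_0af329_co.JWD2

/-!
# The pointwise inequality
-/

set_option autoImplicit false

namespace Pool.Agent.MP_0af329_co.JW

open Finset

/-- The triples in the order of their numbers. -/
def DL : List (Fin 6 × Fin 6 × Fin 6) := [(0,1,2), (0,1,3), (0,2,3), (1,2,3), (0,1,4), (0,2,4), (1,2,4),
  (0,3,4), (1,3,4), (2,3,4), (0,1,5), (0,2,5), (1,2,5), (0,3,5), (1,3,5), (2,3,5), (0,4,5), (1,4,5),
  (2,4,5), (3,4,5)]

def dec (n : ℕ) : Fin 6 × Fin 6 × Fin 6 := DL.getD n (0, 1, 2)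

theorem dec_cases : ∀ i j k : Fin 6, i ≠ j → j ≠ k → i ≠ k →
    dec (ixs i j k) = (i, j, k) ∨ dec (ixs i j k) = (i, k, j) ∨ dec (ixs i j k) = (j, i, k) ∨
    dec (ixs i j k) = (j, k, i) ∨ dec (ixs i j k) = (k, i, j) ∨ dec (ixs i j k) = (k, j, i) := by
  decide +kernel

section

variable {V : Type} (g : V → V → V → Bool)

/-- The truth values of the twenty triples. -/
def bvf (t : Fin 6 → V) (n : ℕ) : ℕ :=
  (g (t (dec n).1) (t (dec n).2.1) (t (dec n).2.2)).toNat

theorem bv_ixs (h12 : ∀ x y z, g x y z = g y x z) (h23 : ∀ x y z, g x y z = g x z y)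
    (t : Fin 6 → V) (i j k : Fin 6) (hij : i ≠ j) (hjk : j ≠ k) (hik : i ≠ k) :
    bvf g t (ixs i j k) = (g (t i) (t j) (t k)).toNat := by
  unfold bvf
  rcases dec_cases i j k hij hjk hik with h | h | h | h | h | h <;> rw [h]
  · rw [h23]
  · rw [h12]
  · rw [h23, h12]
  · rw [h12, h23]
  · rw [h12, h23, h12]

theorem u4_eq (h12 : ∀ x y z, g x y z = g y x z) (h23 : ∀ x y z, g x y z = g x z y)
    (t : Fin 6 → V) (e : Tup) (he : e.toL.Nodup) :
    (u4 (bvf g t) e : ℤ) = T4 g t e + 8388608 := by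
  obtain ⟨a, b, c, d, x, y⟩ := e
  simp only [Tup.toL, List.nodup_cons, List.mem_cons, List.not_mem_nil, or_false, not_or,
    not_false_eq_true, List.nodup_nil, and_true] at he
  obtain ⟨⟨ab, ac, ad, ax, ay⟩, ⟨bc, bd, bx, by'⟩, ⟨cd, cx, cy⟩, ⟨dx, dy⟩, xy⟩ := he
  have B := bv_ixs g h12 h23 t
  unfold u4 T4 t4 fl4
  dsimp only
  rw [B a b c ab bc ac, B a b d ab bd ad, B a c d ac cd ad, B b c d bc cd bd,
    B a b x ab bx ax, B a c x ac cx ax, B b c x bc cx bx, B a d x ad dx ax, B b d x bd dx bx,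
    B c d x cd dx cx,
    B a b y ab by' ay, B a c y ac cy ay, B b c y bc cy by', B a d y ad dy ay, B b d y bd dy by',
    B c d y cd dy cy]
  exact tab4_eq _ _ _ (B6_lt _ _ _ _ _ _) (B6_lt _ _ _ _ _ _)

theorem u2_eq (h12 : ∀ x y z, g x y z = g y x z) (h23 : ∀ x y z, g x y z = g x z y)
    (t : Fin 6 → V) (e : Tup) (he : e.toL.Nodup) :
    (u2 (bvf g t) e : ℤ) = T2 g t e + 8388608 := by
  obtain ⟨a, b, c, d, x, y⟩ := e
  simp only [Tup.toL, List.nodup_cons, List.mem_cons, List.not_mem_nil, or_false, not_or,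
    not_false_eq_true, List.nodup_nil, and_true] at he
  obtain ⟨⟨ab, ac, ad, ax, ay⟩, ⟨bc, bd, bx, by'⟩, ⟨cd, cx, cy⟩, ⟨dx, dy⟩, xy⟩ := he
  have B := bv_ixs g h12 h23 t
  unfold u2 T2 t2 fl2
  dsimp only
  rw [B a b c ab bc ac, B a b d ab bd ad, B a c d ac cd ad, B b c d bc cd bd,
    B a b x ab bx ax, B a b y ab by' ay, B a x y ax xy ay, B b x y bx xy by']
  exact tab2_eq _ _ (B4_lt _ _ _ _) (B4_lt _ _ _ _)

theorem list_sum_cast (u : Tup → ℕ) (T : Tup → ℤ) : ∀ L : List Tup,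
    (∀ e ∈ L, (u e : ℤ) = T e + 8388608) →
    (((L.map u).sum : ℕ) : ℤ) = (L.map T).sum + 8388608 * L.length
  | [], _ => by simp
  | e :: L, h => by
    rw [List.map_cons, List.sum_cons, List.map_cons, List.sum_cons, Nat.cast_add,
      h e List.mem_cons_self, list_sum_cast u T L fun e' he' => h e' (List.mem_cons_of_mem _ he'),
      List.length_cons]
    push_cast
    ring

/-- The sum of the table entries. -/
theorem sumT_cast (h12 : ∀ x y z, g x y z = g y x z) (h23 : ∀ x y z, g x y z = g x z y)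
    (t : Fin 6 → V) :
    ((sumT (bvf g t 0) (bvf g t 1) (bvf g t 2) (bvf g t 3) (bvf g t 4) (bvf g t 5) (bvf g t 6)
      (bvf g t 7) (bvf g t 8) (bvf g t 9) (bvf g t 10) (bvf g t 11) (bvf g t 12) (bvf g t 13)
      (bvf g t 14) (bvf g t 15) (bvf g t 16) (bvf g t 17) (bvf g t 18) (bvf g t 19) : ℕ) : ℤ) =
      SS g t + 503316480 := by
  rw [sumT_eq (bvf g t), Nat.cast_add,
    list_sum_cast (u4 (bvf g t)) (T4 g t) E4 fun e he => u4_eq g h12 h23 t e (E4_nodup e he),
    list_sum_cast (u2 (bvf g t)) (T2 g t) E2 fun e he => u2_eq g h12 h23 t e (E2_nodup e he)]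
  have l4 : E4.length = 15 := rfl
  have l2 : E2.length = 45 := rfl
  rw [l4, l2]
  unfold SS
  push_cast
  ring

/-- The number of good triples among six points. -/
def NG (t : Fin 6 → V) : ℕ := ∑ n ∈ range 20, bvf g t n

theorem u4_le (bv : ℕ → ℕ) (e : Tup) : u4 bv e ≤ 16777215 := tab4_le _ _ _

theorem u2_le (bv : ℕ → ℕ) (e : Tup) : u2 bv e ≤ 16777215 := tab2_le _ _

theorem list_sum_le (u : Tup → ℕ) (h : ∀ e, u e ≤ 16777215) : ∀ L : List Tup,
    (L.map u).sum ≤ 16777215 * L.length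
  | [] => by simp
  | e :: L => by
    rw [List.map_cons, List.sum_cons, List.length_cons]
    have := list_sum_le u h L
    have := h e
    linarith

theorem SS_le (h12 : ∀ x y z, g x y z = g y x z) (h23 : ∀ x y z, g x y z = g x z y)
    (t : Fin 6 → V) : SS g t + 1000000 * NG g t ≤ 523316480 := by
  have h1 := sumT_cast g h12 h23 t
  rw [sumT_eq (bvf g t)] at h1
  have h2 := list_sum_le _ (u4_le (bvf g t)) E4
  have h3 := list_sum_le _ (u2_le (bvf g t)) E2
  have l4 : E4.length = 15 := rfl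
  have l2 : E2.length = 45 := rfl
  rw [l4] at h2
  rw [l2] at h3
  have h4 : NG g t ≤ 20 := by
    unfold NG
    refine (sum_le_card_nsmul (range 20) _ 1 fun n _ => Bool.toNat_le _).trans ?_
    rw [card_range, smul_eq_mul]
  have h5 : ((((E4.map (u4 (bvf g t))).sum + (E2.map (u2 (bvf g t))).sum : ℕ)) : ℤ) ≤
      16777215 * 15 + 16777215 * 45 := by exact_mod_cast Nat.add_le_add h2 h3
  have h6 : (NG g t : ℤ) ≤ 20 := by exact_mod_cast h4
  rw [h1] at h5
  linarith

/-! ### The use of the search -/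

theorem all2_ok {f : ℕ → Bool} (h : all2 f = true) (b : Bool) : f b.toNat = true := by
  rw [all2, Bool.and_eq_true] at h
  cases b
  · exact h.1
  · exact h.2

theorem k4_ok {a b c d : ℕ} {X : Bool} (h : k4 a b c d X = true) (h' : a + b + c + d ≤ 2) :
    X = true := by
  have e : Nat.ble (Nat.add a (Nat.add b (Nat.add c d))) 2 = true := by
    rw [Nat.ble_eq]
    show a + (b + (c + d)) ≤ 2
    omega
  rw [k4, e] at h
  exact h

end

end Pool.Agent.MP_0af329_co.JW
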