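import Pool.Agent.MP_0af329_co.JWD3

/-!
# The density bound `723/1000`
-/

set_option autoImplicit false

namespace Pool.Agent.MP_0af329_co.JW

open Finset

/-- The result of the search. -/
theorem leaf_ok (b : ℕ → Bool)
    (k0 : (b 0).toNat + (b 1).toNat + (b 2).toNat + (b 3).toNat ≤ 2)
    (k1 : (b 0).toNat + (b 4).toNat + (b 5).toNat + (b 6).toNat ≤ 2)
    (k2 : (b 1).toNat + (b 4).toNat + (b 7).toNat + (b 8).toNat ≤ 2)
    (k3 : (b 2).toNat + (b 5).toNat + (b 7).toNat + (b 9).toNat ≤ 2)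
    (k4 : (b 3).toNat + (b 6).toNat + (b 8).toNat + (b 9).toNat ≤ 2)
    (k5 : (b 0).toNat + (b 10).toNat + (b 11).toNat + (b 12).toNat ≤ 2)
    (k6 : (b 1).toNat + (b 10).toNat + (b 13).toNat + (b 14).toNat ≤ 2)
    (k7 : (b 2).toNat + (b 11).toNat + (b 13).toNat + (b 15).toNat ≤ 2)
    (k8 : (b 3).toNat + (b 12).toNat + (b 14).toNat + (b 15).toNat ≤ 2)
    (k9 : (b 4).toNat + (b 10).toNat + (b 16).toNat + (b 17).toNat ≤ 2)
    (k10 : (b 5).toNat + (b 11).toNat + (b 16).toNat + (b 18).toNat ≤ 2)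
    (k11 : (b 6).toNat + (b 12).toNat + (b 17).toNat + (b 18).toNat ≤ 2)
    (k12 : (b 7).toNat + (b 13).toNat + (b 16).toNat + (b 19).toNat ≤ 2)
    (k13 : (b 8).toNat + (b 14).toNat + (b 17).toNat + (b 19).toNat ≤ 2)
    (k14 : (b 9).toNat + (b 15).toNat + (b 18).toNat + (b 19).toNat ≤ 2) :
    leaf (b 0).toNat (b 1).toNat (b 2).toNat (b 3).toNat (b 4).toNat (b 5).toNat (b 6).toNat
      (b 7).toNat (b 8).toNat (b 9).toNat (b 10).toNat (b 11).toNat (b 12).toNat (b 13).toNat
      (b 14).toNat (b 15).toNat (b 16).toNat (b 17).toNat (b 18).toNat (b 19).toNat = true := by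
  have h := dfs0_true
  have h1 := k4_ok (all2_ok (all2_ok (all2_ok (all2_ok h (b 0)) (b 1)) (b 2)) (b 3)) k0
  have h2 := k4_ok (all2_ok (all2_ok (all2_ok h1 (b 4)) (b 5)) (b 6)) k1
  have h3 := k4_ok (all2_ok (all2_ok h2 (b 7)) (b 8)) k2
  have h4 := k4_ok (k4_ok (all2_ok h3 (b 9)) k3) k4
  have h5 := k4_ok (all2_ok (all2_ok (all2_ok h4 (b 10)) (b 11)) (b 12)) k5
  have h6 := k4_ok (all2_ok (all2_ok h5 (b 13)) (b 14)) k6
  have h7 := k4_ok (k4_ok (all2_ok h6 (b 15)) k7) k8
  have h8 := k4_ok (all2_ok (all2_ok h7 (b 16)) (b 17)) k9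
  have h9 := k4_ok (k4_ok (all2_ok h8 (b 18)) k10) k11
  exact k4_ok (k4_ok (k4_ok (all2_ok h9 (b 19)) k12) k13) k14

section

variable {V : Type} (g : V → V → V → Bool)

theorem sumB_eq (bv : ℕ → ℕ) :
    sumB (bv 0) (bv 1) (bv 2) (bv 3) (bv 4) (bv 5) (bv 6) (bv 7) (bv 8) (bv 9) (bv 10) (bv 11)
      (bv 12) (bv 13) (bv 14) (bv 15) (bv 16) (bv 17) (bv 18) (bv 19) =
    ∑ n ∈ range 20, bv n := by
  unfold sumB
  simp only [sum_range_succ, range_zero, sum_empty, Nat.add_eq]
  ring

theorem HP_all : (HP.all fun e => decide (Tup.toL e).Nodup) = true := by decide +kernel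

theorem HP_nodup (e : Tup) (he : e ∈ HP) : (Tup.toL e).Nodup :=
  of_decide_eq_true (List.all_eq_true.1 HP_all e he)

theorem one_ok (bv : ℕ → ℕ) (i j k : Fin 6)
    (h : one [bv 0, bv 1, bv 2, bv 3, bv 4, bv 5, bv 6, bv 7, bv 8, bv 9, bv 10, bv 11, bv 12, bv 13,
      bv 14, bv 15, bv 16, bv 17, bv 18, bv 19] (ixs i j k) = true) : bv (ixs i j k) = 1 := by
  have h1 := Nat.eq_of_beq_eq_true h
  have h2 : ∀ n, ([bv 0, bv 1, bv 2, bv 3, bv 4, bv 5, bv 6, bv 7, bv 8, bv 9, bv 10, bv 11, bv 12,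
      bv 13, bv 14, bv 15, bv 16, bv 17, bv 18, bv 19].getD n 0) = 1 → bv n = 1 := by
    intro n hn
    by_cases hn20 : n < 20
    · interval_cases n <;> exact hn
    · rw [List.getD_eq_default _ _ (by simpa using not_lt.1 hn20)] at hn
      exact absurd hn (by norm_num)
  exact h2 _ h1

/-- The inequality for six different points. -/
theorem SS_inj (h12 : ∀ x y z, g x y z = g y x z) (h23 : ∀ x y z, g x y z = g x z y)
    (hK : ∀ t : Fin 4 → V, Function.Injective t →
      (g (t 0) (t 1) (t 2)).toNat + (g (t 0) (t 1) (t 3)).toNat +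
        (g (t 0) (t 2) (t 3)).toNat + (g (t 1) (t 2) (t 3)).toNat ≤ 2)
    (hH : ∀ t : Fin 6 → V, Function.Injective t →
      g (t 0) (t 1) (t 3) = true → g (t 0) (t 1) (t 4) = true → g (t 1) (t 2) (t 4) = true →
      g (t 1) (t 2) (t 5) = true → g (t 0) (t 2) (t 5) = true → g (t 0) (t 2) (t 3) = true →
      g (t 0) (t 4) (t 5) = true → g (t 1) (t 3) (t 5) = true → g (t 2) (t 3) (t 4) = true → False)
    (t : Fin 6 → V) (ht : Function.Injective t) : SS g t + 1000000 * NG g t ≤ 5540000 := by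
  have hk : ∀ i j k l : Fin 6, i < j → j < k → k < l →
      (g (t i) (t j) (t k)).toNat + (g (t i) (t j) (t l)).toNat +
        (g (t i) (t k) (t l)).toNat + (g (t j) (t k) (t l)).toNat ≤ 2 := by
    intro i j k l hij hjk hkl
    refine hK ![t i, t j, t k, t l] ?_
    have hinj : Function.Injective ![i, j, k, l] := by
      have n1 := hij.ne
      have n2 := hjk.ne
      have n3 := hkl.ne
      have n4 := (hij.trans hjk).ne
      have n5 := (hjk.trans hkl).ne
      have n6 := ((hij.trans hjk).trans hkl).ne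
      intro x y hxy
      fin_cases x <;> fin_cases y <;>
        first
          | rfl
          | exact absurd hxy n1
          | exact absurd hxy n2
          | exact absurd hxy n3
          | exact absurd hxy n4
          | exact absurd hxy n5
          | exact absurd hxy n6
          | exact absurd hxy.symm n1
          | exact absurd hxy.symm n2
          | exact absurd hxy.symm n3
          | exact absurd hxy.symm n4
          | exact absurd hxy.symm n5
          | exact absurd hxy.symm n6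
    have e : ![t i, t j, t k, t l] = t ∘ ![i, j, k, l] := by
      funext x
      fin_cases x <;> rfl
    rw [e]
    exact ht.comp hinj
  have hleaf := leaf_ok (fun n => g (t (dec n).1) (t (dec n).2.1) (t (dec n).2.2))
    (hk 0 1 2 3 (by decide) (by decide) (by decide)) (hk 0 1 2 4 (by decide) (by decide) (by decide))
    (hk 0 1 3 4 (by decide) (by decide) (by decide)) (hk 0 2 3 4 (by decide) (by decide) (by decide))
    (hk 1 2 3 4 (by decide) (by decide) (by decide)) (hk 0 1 2 5 (by decide) (by decide) (by decide))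
    (hk 0 1 3 5 (by decide) (by decide) (by decide)) (hk 0 2 3 5 (by decide) (by decide) (by decide))
    (hk 1 2 3 5 (by decide) (by decide) (by decide)) (hk 0 1 4 5 (by decide) (by decide) (by decide))
    (hk 0 2 4 5 (by decide) (by decide) (by decide)) (hk 1 2 4 5 (by decide) (by decide) (by decide))
    (hk 0 3 4 5 (by decide) (by decide) (by decide)) (hk 1 3 4 5 (by decide) (by decide) (by decide))
    (hk 2 3 4 5 (by decide) (by decide) (by decide))
  change leaf (bvf g t 0) (bvf g t 1) (bvf g t 2) (bvf g t 3) (bvf g t 4) (bvf g t 5) (bvf g t 6)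
      (bvf g t 7) (bvf g t 8) (bvf g t 9) (bvf g t 10) (bvf g t 11) (bvf g t 12) (bvf g t 13)
      (bvf g t 14) (bvf g t 15) (bvf g t 16) (bvf g t 17) (bvf g t 18) (bvf g t 19) = true at hleaf
  rw [leaf, Bool.or_eq_true] at hleaf
  rcases hleaf with h | h
  · have h1 := Nat.le_of_ble_eq_true h
    have h2 := sumT_cast g h12 h23 t
    have h3 : sumB (bvf g t 0) (bvf g t 1) (bvf g t 2) (bvf g t 3) (bvf g t 4) (bvf g t 5)
        (bvf g t 6) (bvf g t 7) (bvf g t 8) (bvf g t 9) (bvf g t 10) (bvf g t 11) (bvf g t 12)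
        (bvf g t 13) (bvf g t 14) (bvf g t 15) (bvf g t 16) (bvf g t 17) (bvf g t 18)
        (bvf g t 19) = NG g t := sumB_eq (bvf g t)
    rw [h3] at h1
    simp only [Nat.add_eq, Nat.mul_eq] at h1
    have h4 : ((sumT (bvf g t 0) (bvf g t 1) (bvf g t 2) (bvf g t 3) (bvf g t 4) (bvf g t 5)
        (bvf g t 6) (bvf g t 7) (bvf g t 8) (bvf g t 9) (bvf g t 10) (bvf g t 11) (bvf g t 12)
        (bvf g t 13) (bvf g t 14) (bvf g t 15) (bvf g t 16) (bvf g t 17) (bvf g t 18)
        (bvf g t 19) : ℕ) : ℤ) + (14460000 + 1000000 * (NG g t : ℤ)) ≤ 523316480 := by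
      exact_mod_cast h1
    rw [h2] at h4
    linarith
  · exfalso
    rw [List.any_eq_true] at h
    obtain ⟨P, hP, h⟩ := h
    have hnd := HP_nodup P hP
    obtain ⟨σ, s0, s1, s2, s3, s4, s5⟩ := exists_perm P hnd
    have hg : ∀ i j k : Fin 6, i ≠ j → j ≠ k → i ≠ k →
        one [bvf g t 0, bvf g t 1, bvf g t 2, bvf g t 3, bvf g t 4, bvf g t 5, bvf g t 6, bvf g t 7,
          bvf g t 8, bvf g t 9, bvf g t 10, bvf g t 11, bvf g t 12, bvf g t 13, bvf g t 14,
          bvf g t 15, bvf g t 16, bvf g t 17, bvf g t 18, bvf g t 19]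
          (ixs (σ i) (σ j) (σ k)) = true → g ((t ∘ σ) i) ((t ∘ σ) j) ((t ∘ σ) k) = true := by
      intro i j k hij hjk hik hone
      have h1 := one_ok (bvf g t) (σ i) (σ j) (σ k) hone
      rw [bv_ixs g h12 h23 t _ _ _ (fun h => hij (σ.injective h)) (fun h => hjk (σ.injective h))
        (fun h => hik (σ.injective h))] at h1
      simp only [Function.comp_apply]
      cases hb : g (t (σ i)) (t (σ j)) (t (σ k))
      · rw [hb] at h1
        exact absurd h1 (by decide)
      · rfl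
    unfold pat at h
    simp only [Bool.and_eq_true] at h
    rw [← s0, ← s1, ← s2, ← s3, ← s4, ← s5] at h
    obtain ⟨c1, c2, c3, c4, c5, c6, c7, c8, c9⟩ := h
    exact hH (t ∘ σ) (ht.comp σ.injective) (hg 0 1 3 (by decide) (by decide) (by decide) c1)
      (hg 0 1 4 (by decide) (by decide) (by decide) c2)
      (hg 1 2 4 (by decide) (by decide) (by decide) c3)
      (hg 1 2 5 (by decide) (by decide) (by decide) c4)
      (hg 0 2 5 (by decide) (by decide) (by decide) c5)
      (hg 0 2 3 (by decide) (by decide) (by decide) c6)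
      (hg 0 4 5 (by decide) (by decide) (by decide) c7)
      (hg 1 3 5 (by decide) (by decide) (by decide) c8)
      (hg 2 3 4 (by decide) (by decide) (by decide) c9)

end

/-- Sum of one triple over all sextuples. -/
theorem sum_one {V : Type} [Fintype V] (g : V → V → V → Bool) (i j k : Fin 6)
    (hij : i ≠ j) (hjk : j ≠ k) (hik : i ≠ k) :
    ∑ t : Fin 6 → V, (((g (t i) (t j) (t k)).toNat : ℕ) : ℤ) =
      (Fintype.card V : ℤ) ^ 3 *
        ((univ.filter fun s : V × V × V => g s.1 s.2.1 s.2.2 = true).card : ℤ) := by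
  obtain ⟨σ, h0, h1, h2⟩ : ∃ σ : Equiv.Perm (Fin 6), σ 0 = i ∧ σ 1 = j ∧ σ 2 = k := by
    have : ∀ i j k : Fin 6, i ≠ j → j ≠ k → i ≠ k → ∃ a b c : Fin 6,
        [i, j, k, a, b, c].Nodup := by decide +kernel
    obtain ⟨a, b, c, h⟩ := this i j k hij hjk hik
    obtain ⟨σ, h0, h1, h2, -, -, -⟩ := exists_perm (i, j, k, a, b, c) h
    exact ⟨σ, h0, h1, h2⟩
  have h3 := sum_perm6 (fun t : Fin 6 → V => (((g (t 0) (t 1) (t 2)).toNat : ℕ) : ℤ)) σ
  simp only [Function.comp_apply, h0, h1, h2] at h3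
  rw [h3, sum_six fun a b c _ _ _ => (((g a b c).toNat : ℕ) : ℤ)]
  simp only [sum_const, card_univ, nsmul_eq_mul]
  rw [card_filter]
  push_cast
  simp only [Fintype.sum_prod_type, mul_sum]
  refine sum_congr rfl fun a _ => sum_congr rfl fun b _ => sum_congr rfl fun c _ => ?_
  cases g a b c
  · simp
  · simp
    ring

theorem dec_ne : ∀ n < 20, (dec n).1 ≠ (dec n).2.1 ∧ (dec n).2.1 ≠ (dec n).2.2 ∧
    (dec n).1 ≠ (dec n).2.2 := by
  decide +kernel

/-- The density bound. -/
theorem density_six {V : Type} [Fintype V] (g : V → V → V → Bool)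
    (h12 : ∀ x y z, g x y z = g y x z) (h23 : ∀ x y z, g x y z = g x z y)
    (hK : ∀ t : Fin 4 → V, Function.Injective t →
      (g (t 0) (t 1) (t 2)).toNat + (g (t 0) (t 1) (t 3)).toNat +
        (g (t 0) (t 2) (t 3)).toNat + (g (t 1) (t 2) (t 3)).toNat ≤ 2)
    (hH : ∀ t : Fin 6 → V, Function.Injective t →
      g (t 0) (t 1) (t 3) = true → g (t 0) (t 1) (t 4) = true → g (t 1) (t 2) (t 4) = true →
      g (t 1) (t 2) (t 5) = true → g (t 0) (t 2) (t 5) = true → g (t 0) (t 2) (t 3) = true →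
      g (t 0) (t 4) (t 5) = true → g (t 1) (t 3) (t 5) = true → g (t 2) (t 3) (t 4) = true →
      False) :
    723 / 1000 * (Fintype.card V : ℝ) ^ 3 - 400 * (Fintype.card V : ℝ) ^ 2 ≤
      ((univ.filter fun s : V × V × V => g s.1 s.2.1 s.2.2 = false).card : ℝ) := by
  classical
  set n : ℕ := Fintype.card V with hn
  set E : ℕ := (univ.filter fun s : V × V × V => g s.1 s.2.1 s.2.2 = true).card with hE
  set B : ℕ := (univ.filter fun s : V × V × V => g s.1 s.2.1 s.2.2 = false).card with hB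
  have hEB : E + B = n ^ 3 := by
    have h1 := card_filter_add_card_filter_not (s := (univ : Finset (V × V × V)))
      (fun s : V × V × V => g s.1 s.2.1 s.2.2 = true)
    rw [card_univ, Fintype.card_prod, Fintype.card_prod, ← hn] at h1
    have h2 : (univ.filter fun s : V × V × V => ¬ g s.1 s.2.1 s.2.2 = true).card = B := by
      rw [hB]
      congr 1
      ext s
      simp only [mem_filter, mem_univ, true_and, Bool.not_eq_true]
    rw [h2] at h1
    rw [hE, h1]
    ring
  set N : ℕ := (univ.filter fun t : Fin 6 → V => ¬ Function.Injective t).card with hN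
  have hNle : N ≤ 15 * n ^ 5 := card_not_inj6_le
  have hNG : ∑ t : Fin 6 → V, ((NG g t : ℕ) : ℤ) = 20 * ((n : ℤ) ^ 3 * E) := by
    unfold NG
    push_cast
    rw [sum_comm]
    have h1 : ∀ m ∈ range 20, ∑ t : Fin 6 → V, ((bvf g t m : ℕ) : ℤ) = (n : ℤ) ^ 3 * E := by
      intro m hm
      obtain ⟨a, b, c⟩ := dec_ne m (mem_range.1 hm)
      exact sum_one g _ _ _ a b c
    rw [sum_congr rfl h1, sum_const, card_range, nsmul_eq_mul]
    push_cast
    ring
  have hup : ∑ t : Fin 6 → V, (SS g t + 1000000 * ((NG g t : ℕ) : ℤ)) ≤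
      5540000 * (n : ℤ) ^ 6 + 523316480 * N := by
    have h1 : ∀ t : Fin 6 → V, SS g t + 1000000 * ((NG g t : ℕ) : ℤ) ≤
        5540000 + (if ¬ Function.Injective t then 523316480 else 0) := by
      intro t
      by_cases h : Function.Injective t
      · rw [if_neg (not_not.2 h), add_zero]
        exact SS_inj g h12 h23 hK hH t h
      · rw [if_pos h]
        have := SS_le g h12 h23 t
        linarith
    refine (sum_le_sum fun t _ => h1 t).trans (le_of_eq ?_)
    rw [sum_add_distrib, sum_const, card_univ, ← sum_filter, sum_const, ← hN]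
    rw [Fintype.card_fun, Fintype.card_fin, ← hn]
    simp
    ring
  rw [sum_add_distrib, ← mul_sum, hNG] at hup
  have hSS := sum_SS g
  have h6 : 20000000 * ((n : ℤ) ^ 3 * E) ≤ 5540000 * (n : ℤ) ^ 6 + 7849747200 * (n : ℤ) ^ 5 := by
    have h7 : (N : ℤ) ≤ 15 * (n : ℤ) ^ 5 := by exact_mod_cast hNle
    linarith
  rcases Nat.eq_zero_or_pos n with h0 | h0
  · rw [h0]
    simp
  · have h7 : (20000000 : ℝ) * ((n : ℝ) ^ 3 * E) ≤ 5540000 * (n : ℝ) ^ 6 +
        7849747200 * (n : ℝ) ^ 5 := by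
      exact_mod_cast h6
    have h8 : (0 : ℝ) < (n : ℝ) ^ 3 := by positivity
    have h9 : (20000000 * (E : ℝ) - 5540000 * (n : ℝ) ^ 3 - 7849747200 * (n : ℝ) ^ 2) *
        (n : ℝ) ^ 3 ≤ 0 := by nlinarith
    have h10 : 20000000 * (E : ℝ) - 5540000 * (n : ℝ) ^ 3 - 7849747200 * (n : ℝ) ^ 2 ≤ 0 := by
      by_contra h11
      rw [not_le] at h11
      have := mul_pos h11 h8
      linarith
    have h11 : (E : ℝ) + B = (n : ℝ) ^ 3 := by exact_mod_cast hEB
    have h12 : (0 : ℝ) ≤ (n : ℝ) ^ 2 := by positivity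
    linarith

end Pool.Agent.MP_0af329_co.JW
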