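import Pool.Agent.MP_0af329_co.JWD4
import Pool.Agent.MP_0af329_co.JWA3
import Pool.Agent.MP_0af329_co.JTA4
import Pool.Agent.MP_0af329_co.JVB5

/-!
# `F` is discontinuous at `2π/5`
-/

set_option autoImplicit false

namespace Pool.Agent.MP_0af329_co.JW

open Finset EuclideanGeometry Filter Topology

/-- Triples with two equal entries. -/
theorem card_deg_le {V : Type} [Fintype V] [DecidableEq V] :
    (univ.filter fun s : V × V × V => s.1 = s.2.1 ∨ s.2.1 = s.2.2 ∨ s.1 = s.2.2).card ≤
      3 * Fintype.card V ^ 2 := by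
  have h1 : (univ.filter fun s : V × V × V => s.1 = s.2.1 ∨ s.2.1 = s.2.2 ∨ s.1 = s.2.2) ⊆
      ((univ : Finset (V × V)).image fun p => (p.1, p.1, p.2)) ∪
      (((univ : Finset (V × V)).image fun p => (p.2, p.1, p.1)) ∪
        ((univ : Finset (V × V)).image fun p => (p.1, p.2, p.1))) := by
    rintro ⟨x, y, z⟩ h
    rw [mem_filter] at h
    rw [mem_union, mem_union, mem_image, mem_image, mem_image]
    rcases h.2 with h | h | h
    · exact Or.inl ⟨(x, z), mem_univ _, by dsimp only at h ⊢; rw [h]⟩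
    · exact Or.inr (Or.inl ⟨(y, x), mem_univ _, by dsimp only at h ⊢; rw [h]⟩)
    · exact Or.inr (Or.inr ⟨(x, y), mem_univ _, by dsimp only at h ⊢; rw [h]⟩)
  have h2 : ∀ f : V × V → V × V × V, ((univ : Finset (V × V)).image f).card ≤
      Fintype.card V ^ 2 := by
    intro f
    refine card_image_le.trans ?_
    rw [card_univ, Fintype.card_prod, sq]
  refine (card_le_card h1).trans ((card_union_le _ _).trans ?_)
  have h3 := card_union_le ((univ : Finset (V × V)).image fun p => (p.2, p.1, p.1))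
    ((univ : Finset (V × V)).image fun p => (p.1, p.2, p.1))
  have a1 := h2 fun p => (p.1, p.1, p.2)
  have a2 := h2 fun p => (p.2, p.1, p.1)
  have a3 := h2 fun p => (p.1, p.2, p.1)
  omega

/-- `F` before `2π/5`. -/
theorem le_F_of_lt (a : ℝ) (ha : a < 2 * Real.pi / 5) : 241 / 1000 ≤ F a := by
  classical
  refine le_dens (Set.Ioi a) (241 / 1000) 200 fun S _ hS => ?_
  set g : S → S → S → Bool := fun x y z => decide (Gd a (x : Pt) y z) with hg
  have hgd : ∀ x y z : S, g x y z = true → Gd a (x : Pt) y z := fun x y z h => of_decide_eq_true h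
  have h12 : ∀ x y z, g x y z = g y x z := fun x y z => by
    rw [hg, decide_eq_decide]
    exact ⟨Gd12, Gd12⟩
  have h23 : ∀ x y z, g x y z = g x z y := fun x y z => by
    rw [hg, decide_eq_decide]
    exact ⟨Gd23, Gd23⟩
  have hinj : ∀ {n : ℕ} (t : Fin n → S), Function.Injective t →
      Function.Injective fun i => (t i : Pt) := fun t ht i j h => ht (Subtype.ext h)
  have h1 := density_six g h12 h23 (fun t ht => four_points a ha (fun i => (t i : Pt)) (hinj t ht))
    (fun t ht c0 c1 c2 c3 c4 c5 c6 c7 c8 => six_points a ha (fun i => (t i : Pt)) (hinj t ht)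
      (hgd _ _ _ c0) (hgd _ _ _ c1) (hgd _ _ _ c2) (hgd _ _ _ c3) (hgd _ _ _ c4) (hgd _ _ _ c5)
      (hgd _ _ _ c6) (hgd _ _ _ c7) (hgd _ _ _ c8))
  have h2 := JT.card_big S a
  rw [Fintype.card_coe] at h1
  have h3 : (univ.filter fun s : S × S × S => g s.1 s.2.1 s.2.2 = false).card ≤
      3 * cnt S (Set.Ioi a) + 3 * S.card ^ 2 := by
    have hsub : (univ.filter fun s : S × S × S => g s.1 s.2.1 s.2.2 = false) ⊆
        (univ.filter fun s : S × S × S => decide (JT.Big a (s.1 : Pt) s.2.1 s.2.2) = true) ∪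
        (univ.filter fun s : S × S × S => s.1 = s.2.1 ∨ s.2.1 = s.2.2 ∨ s.1 = s.2.2) := by
      rintro ⟨x, y, z⟩ h
      rw [mem_filter] at h
      rw [mem_union, mem_filter, mem_filter, decide_eq_true_iff]
      by_cases hd : x = y ∨ y = z ∨ x = z
      · exact Or.inr ⟨mem_univ _, hd⟩
      · left
        push Not at hd
        refine ⟨mem_univ _, fun h => hd.1 (Subtype.ext h), fun h => hd.2.1 (Subtype.ext h),
          fun h => hd.2.2 (Subtype.ext h), ?_⟩
        have h4 : ¬ Gd a (x : Pt) y z := of_decide_eq_false h.2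
        by_contra h5
        push Not at h5
        exact h4 ⟨h5.1, h5.2.1, h5.2.2⟩
    have h4 := card_deg_le (V := S)
    rw [Fintype.card_coe] at h4
    have h5 := (card_le_card hsub).trans (card_union_le _ _)
    omega
  have h4 : ((univ.filter fun s : S × S × S => g s.1 s.2.1 s.2.2 = false).card : ℝ) ≤
      3 * (cnt S (Set.Ioi a) : ℝ) + 3 * (S.card : ℝ) ^ 2 := by exact_mod_cast h3
  have h5 : (3 : ℝ) ≤ (S.card : ℝ) := by exact_mod_cast hS
  have h6 : (S.card : ℝ) * ((S.card : ℝ) - 1) * ((S.card : ℝ) - 2) ≤ (S.card : ℝ) ^ 3 := by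
    nlinarith [mul_nonneg (by linarith : (0 : ℝ) ≤ (S.card : ℝ)) (by linarith : (0 : ℝ) ≤ (S.card : ℝ))]
  have h7 := h1.trans h4
  have h8 : (0 : ℝ) ≤ (S.card : ℝ) ^ 2 := by positivity
  linarith

/-- From `le_F_of_lt` and left continuity. -/
theorem le_F_two_fifth : 241 / 1000 ≤ F (2 * Real.pi / 5) := by
  have h1 : Tendsto F (𝓝[<] (2 * Real.pi / 5)) (𝓝 (F (2 * Real.pi / 5))) :=
    (F_left (2 * Real.pi / 5)).mono_left (nhdsWithin_mono _ Set.Iio_subset_Iic_self)
  refine ge_of_tendsto h1 ?_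
  filter_upwards [self_mem_nhdsWithin] with β hβ
  exact le_F_of_lt β hβ

/-- `F` is not continuous at `2π/5`. -/
theorem not_continuousAt_F_two_fifth : ¬ ContinuousAt F (2 * Real.pi / 5) := by
  intro hc
  have h1 : Tendsto F (𝓝[>] (2 * Real.pi / 5)) (𝓝 (F (2 * Real.pi / 5))) :=
    hc.tendsto.mono_left nhdsWithin_le_nhds
  have h2 : F (2 * Real.pi / 5) ≤ 13 / 54 := by
    refine le_of_tendsto h1 ?_
    filter_upwards [self_mem_nhdsWithin] with a ha
    exact JV.F_le_two_fifth a ha
  have h3 := le_F_two_fifth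
  norm_num at h2 h3
  linarith

end Pool.Agent.MP_0af329_co.JW
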