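import Pool.Agent.MP_0af329_co.Cert

/-!
# Lower bounds for `G` on `[π/(k+1), π/k)`, `3 ≤ k ≤ 13`, and the jumps at `π/m`, `m ≤ 14`
-/

set_option autoImplicit false

namespace Pool.Agent.MP_0af329_co

open EuclideanGeometry Filter Topology

/-- The real features of a certificate. -/
noncomputable def feat (E O : List (List ℤ)) : List (ℤ → ℝ) :=
  E.map (fun u (i : ℤ) => ((u.getD i.natAbs 0 : ℤ) : ℝ) / 10000) ++
    O.map (fun u (i : ℤ) => ((i.sign * u.getD i.natAbs 0 : ℤ) : ℝ) / 10000)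

theorem Qr_append (L M : List (ℤ → ℝ)) (i j : ℤ) : Qr (L ++ M) i j = Qr L i j + Qr M i j := by
  unfold Qr
  rw [List.map_append, List.sum_append]

theorem Qr_even (E : List (List ℤ)) (i j : ℤ) :
    Qr (E.map (fun u (i : ℤ) => ((u.getD i.natAbs 0 : ℤ) : ℝ) / 10000)) i j =
      (evI E i.natAbs j.natAbs : ℝ) / 100000000 := by
  induction E with
  | nil => simp [Qr, evI]
  | cons u E ih =>
    have h1 : Qr ((u :: E).map (fun u (i : ℤ) => ((u.getD i.natAbs 0 : ℤ) : ℝ) / 10000)) i j =
        ((u.getD i.natAbs 0 : ℤ) : ℝ) / 10000 * (((u.getD j.natAbs 0 : ℤ) : ℝ) / 10000) +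
          Qr (E.map (fun u (i : ℤ) => ((u.getD i.natAbs 0 : ℤ) : ℝ) / 10000)) i j := by
      simp only [Qr, List.map_cons, List.sum_cons]
    have h2 : evI (u :: E) i.natAbs j.natAbs =
        u.getD i.natAbs 0 * u.getD j.natAbs 0 + evI E i.natAbs j.natAbs := by
      simp only [evI, List.map_cons, List.sum_cons]
    rw [h1, h2, ih]
    push_cast
    ring

theorem Qr_odd (O : List (List ℤ)) (i j : ℤ) :
    Qr (O.map (fun u (i : ℤ) => ((i.sign * u.getD i.natAbs 0 : ℤ) : ℝ) / 10000)) i j =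
      (i.sign * j.sign * evI O i.natAbs j.natAbs : ℤ) / 100000000 := by
  induction O with
  | nil => simp [Qr, evI]
  | cons u O ih =>
    have h1 : Qr ((u :: O).map
        (fun u (i : ℤ) => ((i.sign * u.getD i.natAbs 0 : ℤ) : ℝ) / 10000)) i j =
        ((i.sign * u.getD i.natAbs 0 : ℤ) : ℝ) / 10000 *
          (((j.sign * u.getD j.natAbs 0 : ℤ) : ℝ) / 10000) +
          Qr (O.map (fun u (i : ℤ) => ((i.sign * u.getD i.natAbs 0 : ℤ) : ℝ) / 10000)) i j := by
      simp only [Qr, List.map_cons, List.sum_cons]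
    have h2 : evI (u :: O) i.natAbs j.natAbs =
        u.getD i.natAbs 0 * u.getD j.natAbs 0 + evI O i.natAbs j.natAbs := by
      simp only [evI, List.map_cons, List.sum_cons]
    rw [h1, h2, ih]
    push_cast
    ring

theorem evI_comm (L : List (List ℤ)) (i j : ℕ) : evI L i j = evI L j i := by
  unfold evI
  congr 1
  exact List.map_congr_left fun u _ => mul_comm _ _

theorem evI_zero {O : List (List ℤ)} (h : ∀ u ∈ O, u.getD 0 0 = 0) (j : ℕ) :
    evI O 0 j = 0 := by
  induction O with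
  | nil => simp [evI]
  | cons u O ih =>
    have h2 : evI (u :: O) 0 j = u.getD 0 0 * u.getD j 0 + evI O 0 j := by
      simp only [evI, List.map_cons, List.sum_cons]
    rw [h2, h u (by simp), ih fun v hv => h v (by simp [hv])]
    ring

theorem sign_mul {O : List (List ℤ)} (h : ∀ u ∈ O, u.getD 0 0 = 0) (i j : ℕ) :
    (i : ℤ).sign * (j : ℤ).sign * evI O i j = evI O i j := by
  rcases Nat.eq_zero_or_pos i with rfl | hi
  · rw [evI_zero h]; simp
  rcases Nat.eq_zero_or_pos j with rfl | hj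
  · rw [evI_comm, evI_zero h]; simp
  rw [Int.sign_eq_one_of_pos (by exact_mod_cast hi), Int.sign_eq_one_of_pos (by exact_mod_cast hj)]
  ring

theorem Qr_feat_pp (E : List (List ℤ)) {O : List (List ℤ)} (h : ∀ u ∈ O, u.getD 0 0 = 0)
    (i j : ℕ) : Qr (feat E O) i j = ((evI E i j + evI O i j : ℤ) : ℝ) / 100000000 := by
  rw [feat, Qr_append, Qr_even, Qr_odd]
  simp only [Int.natAbs_natCast]
  rw [sign_mul h]
  push_cast
  ring

theorem Qr_feat_nn (E : List (List ℤ)) {O : List (List ℤ)} (h : ∀ u ∈ O, u.getD 0 0 = 0)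
    (i j : ℕ) : Qr (feat E O) (-i) (-j) = ((evI E i j + evI O i j : ℤ) : ℝ) / 100000000 := by
  rw [feat, Qr_append, Qr_even, Qr_odd]
  simp only [Int.natAbs_neg, Int.natAbs_natCast, Int.sign_neg, neg_mul_neg]
  rw [sign_mul h]
  push_cast
  ring

theorem Qr_feat_np (E : List (List ℤ)) {O : List (List ℤ)} (h : ∀ u ∈ O, u.getD 0 0 = 0)
    (i j : ℕ) : Qr (feat E O) (-i) j = ((evI E i j - evI O i j : ℤ) : ℝ) / 100000000 := by
  rw [feat, Qr_append, Qr_even, Qr_odd]
  simp only [Int.natAbs_neg, Int.natAbs_natCast, Int.sign_neg]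
  rw [neg_mul, neg_mul, sign_mul h]
  push_cast
  ring

theorem Qr_feat_pn (E : List (List ℤ)) {O : List (List ℤ)} (h : ∀ u ∈ O, u.getD 0 0 = 0)
    (i j : ℕ) : Qr (feat E O) i (-j) = ((evI E i j - evI O i j : ℤ) : ℝ) / 100000000 := by
  rw [Qr_comm, Qr_feat_np E h, evI_comm, evI_comm O]

theorem Ph_sum (k a b c : ℕ) (ln : ℤ) :
    Ph k ((ln : ℝ) / 10000) a + Ph k ((ln : ℝ) / 10000) b + Ph k ((ln : ℝ) / 10000) c =
      ((zI a + zI b + zI c + 10000 * ln * ((a : ℤ) + b + c - k) : ℤ) : ℝ) / 100000000 := by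
  unfold Ph zI
  by_cases ha : a = 0 <;> by_cases hb : b = 0 <;> by_cases hc : c = 0 <;>
    simp only [ha, hb, hc, if_true, if_false] <;> push_cast <;> ring

theorem good_of_chk {k : ℕ} {ln vn : ℤ} {E O : List (List ℤ)} (h : chk k ln vn E O = true) :
    Good k ((ln : ℝ) / 10000) ((vn : ℝ) / 10000) (feat E O) := by
  unfold chk at h
  rw [Bool.and_eq_true, List.all_eq_true, List.all_eq_true] at h
  obtain ⟨h0, h1⟩ := h
  have hO : ∀ u ∈ O, u.getD 0 0 = 0 := fun u hu => of_decide_eq_true (h0 u hu)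
  constructor
  · intro a b c hab hc hk
    have ha := h1 a (List.mem_range.2 (by omega))
    rw [List.all_eq_true] at ha
    have hb := ha b (List.mem_range.2 (by omega))
    rw [Bool.and_eq_true, List.all_eq_true] at hb
    have he := hb.1 (c - (a + b)) (List.mem_range.2 (by omega))
    have hc' : a + b + (c - (a + b)) = c := by omega
    rw [hc', Bool.or_eq_true] at he
    rcases he with he | he
    · have := of_decide_eq_true he
      omega
    · have h2 := of_decide_eq_true he
      have h3 : ((30000 * vn + (evI E a c + evI O a c + (evI E a b - evI O a b) +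
        (evI E c b + evI O c b)) : ℤ) : ℝ) ≤
        ((zI a + zI b + zI c + 10000 * ln * ((a : ℤ) + b + c - k) : ℤ) : ℝ) := by
        exact_mod_cast h2
      rw [Qr_feat_pp E hO, Qr_feat_np E hO, Qr_feat_nn E hO, Ph_sum]
      push_cast at h3 ⊢
      linarith
  · intro a b c hak hbk hck hs1 hs2
    have ha := h1 a (List.mem_range.2 (by omega))
    rw [List.all_eq_true] at ha
    have hb := ha b (List.mem_range.2 (by omega))
    rw [Bool.and_eq_true, List.all_eq_true, List.all_eq_true] at hb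
    have he := hb.2 c (List.mem_range.2 (by omega))
    rw [Bool.or_eq_true, Bool.or_eq_true] at he
    rcases he with (he | he) | he
    · have := of_decide_eq_true he
      omega
    · have := of_decide_eq_true he
      omega
    · have h2 := of_decide_eq_true he
      have h3 : ((30000 * vn + (evI E a c - evI O a c + (evI E b a - evI O b a) +
        (evI E c b - evI O c b)) : ℤ) : ℝ) ≤
        ((zI a + zI b + zI c + 10000 * ln * ((a : ℤ) + b + c - k) : ℤ) : ℝ) := by
        exact_mod_cast h2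
      rw [Qr_feat_pn E hO, Qr_feat_pn E hO, Qr_feat_pn E hO, Ph_sum]
      push_cast at h3 ⊢
      linarith

/-- The parameters for an angle slightly larger than `π / (k + 1)`. -/
theorem par_of {k : ℕ} (hk : 2 ≤ k) {α : ℝ} (h1 : Real.pi / (k + 1) < α)
    (h2 : α ≤ Real.pi / (k + 1) + Real.pi / (20 * (k + 1))) :
    ∃ β δ : ℝ, Par k β δ ∧ β + δ = α := by
  have hpi := Real.pi_pos
  have hk' : (2 : ℝ) ≤ k := by exact_mod_cast hk
  have hk0 : (0 : ℝ) < (k : ℝ) + 1 := by linarith
  have hk1 : (0 : ℝ) < (k : ℝ) - 1 := by linarith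
  set δ : ℝ := (α - Real.pi / (k + 1)) * ((k + 1) / (k - 1)) with hδdef
  have hr : ((k : ℝ) + 1) / (k - 1) ≤ 3 := by
    rw [div_le_iff₀ hk1]
    linarith
  have hδ : 0 < δ := mul_pos (by linarith) (div_pos hk0 hk1)
  have hp : 0 < Real.pi / (k + 1) := div_pos hpi hk0
  have hδ2 : δ ≤ Real.pi / (k + 1) * (3 / 20) := by
    have h3 : α - Real.pi / (k + 1) ≤ Real.pi / (k + 1) * (1 / 20) := by
      have : Real.pi / (20 * ((k : ℝ) + 1)) = Real.pi / (k + 1) * (1 / 20) := by
        field_simp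
      linarith
    calc δ ≤ (Real.pi / (k + 1) * (1 / 20)) * 3 := by
          apply mul_le_mul h3 hr (div_pos hk0 hk1).le (by positivity)
      _ = Real.pi / (k + 1) * (3 / 20) := by ring
  refine ⟨α - δ, δ, ⟨by omega, by linarith, hδ, by linarith, ?_⟩, by ring⟩
  have h4 : δ * (k - 1) = (α - Real.pi / (k + 1)) * (k + 1) := by
    rw [hδdef]
    field_simp
  have h5 : Real.pi / ((k : ℝ) + 1) * (k + 1) = Real.pi := by
    field_simp
  linarith

/-- A certificate gives a lower bound for `G` from `π / (k + 1)` on. -/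
theorem le_G_of_chk {k : ℕ} (hk : 2 ≤ k) {ln vn : ℤ} (hln : 0 ≤ ln) (hvn : 0 ≤ vn)
    {E O : List (List ℤ)} (h : chk k ln vn E O = true) {α : ℝ} (hα : Real.pi / (k + 1) ≤ α) :
    (vn : ℝ) / 10000 ≤ G α := by
  have hpi := Real.pi_pos
  have hk0 : (0 : ℝ) < (k : ℝ) + 1 := by positivity
  have h1 : (vn : ℝ) / 10000 ≤ G (Real.pi / (k + 1)) := by
    refine le_G_of_right (β := Real.pi / (k + 1) + Real.pi / (20 * (k + 1)))
      (by linarith [show 0 < Real.pi / (20 * ((k : ℝ) + 1)) by positivity]) fun x hx hx' => ?_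
    obtain ⟨β, δ, P, rfl⟩ := par_of hk hx hx'
    exact le_dens_of_good P (good_of_chk h) (by positivity) (by positivity)
  exact h1.trans (G_mono hα)

/-- The pairs `(k, 10 ^ 4 V)` of the lower bounds `V ≤ G` on `[π/(k+1), π/k)`. -/
def lowTable : List (ℕ × ℕ) :=
  [(3, 2924), (4, 2230), (5, 1798), (6, 1506), (7, 1293), (8, 1132), (9, 1007), (10, 907),
    (11, 826), (12, 757), (13, 699)]

theorem le_G_table {k v : ℕ} (hkv : (k, v) ∈ lowTable) {α : ℝ} (hα : Real.pi / (k + 1) ≤ α) :
    (v : ℝ) / 10000 ≤ G α := by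
  simp only [lowTable, List.mem_cons, Prod.mk.injEq, List.not_mem_nil, or_false] at hkv
  rcases hkv with ⟨rfl, rfl⟩ | ⟨rfl, rfl⟩ | ⟨rfl, rfl⟩ | ⟨rfl, rfl⟩ | ⟨rfl, rfl⟩ | ⟨rfl, rfl⟩ |
    ⟨rfl, rfl⟩ | ⟨rfl, rfl⟩ | ⟨rfl, rfl⟩ | ⟨rfl, rfl⟩ | ⟨rfl, rfl⟩
  · exact (le_of_eq (by norm_num)).trans
      (le_G_of_chk (by norm_num) (by norm_num) (by norm_num) chk3 hα)
  · exact (le_of_eq (by norm_num)).trans
      (le_G_of_chk (by norm_num) (by norm_num) (by norm_num) chk4 hα)
  · exact (le_of_eq (by norm_num)).trans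
      (le_G_of_chk (by norm_num) (by norm_num) (by norm_num) chk5 hα)
  · exact (le_of_eq (by norm_num)).trans
      (le_G_of_chk (by norm_num) (by norm_num) (by norm_num) chk6 hα)
  · exact (le_of_eq (by norm_num)).trans
      (le_G_of_chk (by norm_num) (by norm_num) (by norm_num) chk7 hα)
  · exact (le_of_eq (by norm_num)).trans
      (le_G_of_chk (by norm_num) (by norm_num) (by norm_num) chk8 hα)
  · exact (le_of_eq (by norm_num)).trans
      (le_G_of_chk (by norm_num) (by norm_num) (by norm_num) chk9 hα)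
  · exact (le_of_eq (by norm_num)).trans
      (le_G_of_chk (by norm_num) (by norm_num) (by norm_num) chk10 hα)
  · exact (le_of_eq (by norm_num)).trans
      (le_G_of_chk (by norm_num) (by norm_num) (by norm_num) chk11 hα)
  · exact (le_of_eq (by norm_num)).trans
      (le_G_of_chk (by norm_num) (by norm_num) (by norm_num) chk12 hα)
  · exact (le_of_eq (by norm_num)).trans
      (le_G_of_chk (by norm_num) (by norm_num) (by norm_num) chk13 hα)

theorem disc_of_table {k v : ℕ} (hkv : (k, v) ∈ lowTable)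
    (h : (1 : ℝ) / ((k + 1 : ℕ) : ℝ) - 1 / (3 * ((k + 1 : ℕ) : ℝ) ^ 2) < (v : ℝ) / 10000) :
    ¬ ContinuousAt G (Real.pi / ((k + 1 : ℕ) : ℝ)) := by
  refine not_continuousAt_G_of_left
    (c := 1 / ((k + 1 : ℕ) : ℝ) - 1 / (3 * ((k + 1 : ℕ) : ℝ) ^ 2)) (fun x hx => ?_) ?_
  · exact G_le (k + 1) (by omega) x hx
  · refine h.trans_le (le_G_table hkv ?_)
    push_cast
    exact le_rfl

theorem discont_G_le (m : ℕ) (h2 : 2 ≤ m) (h14 : m ≤ 14) :
    ¬ ContinuousAt G (Real.pi / (m : ℝ)) := by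
  rcases (show m = 2 ∨ m = 3 ∨ 4 ≤ m by omega) with rfl | rfl | hm
  · exact_mod_cast not_continuousAt_G_half
  · exact_mod_cast not_continuousAt_G_third
  · interval_cases m
    · exact disc_of_table (k := 3) (v := 2924) (by simp [lowTable]) (by norm_num)
    · exact disc_of_table (k := 4) (v := 2230) (by simp [lowTable]) (by norm_num)
    · exact disc_of_table (k := 5) (v := 1798) (by simp [lowTable]) (by norm_num)
    · exact disc_of_table (k := 6) (v := 1506) (by simp [lowTable]) (by norm_num)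
    · exact disc_of_table (k := 7) (v := 1293) (by simp [lowTable]) (by norm_num)
    · exact disc_of_table (k := 8) (v := 1132) (by simp [lowTable]) (by norm_num)
    · exact disc_of_table (k := 9) (v := 1007) (by simp [lowTable]) (by norm_num)
    · exact disc_of_table (k := 10) (v := 907) (by simp [lowTable]) (by norm_num)
    · exact disc_of_table (k := 11) (v := 826) (by simp [lowTable]) (by norm_num)
    · exact disc_of_table (k := 12) (v := 757) (by simp [lowTable]) (by norm_num)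
    · exact disc_of_table (k := 13) (v := 699) (by simp [lowTable]) (by norm_num)

end Pool.Agent.MP_0af329_co
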