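import Pool.Agent.MP_0af329_co.Wirt

/-!
# The lower bound `1/(2m) + (m/6) sin² (π/(2m)) ≤ G(π/m)`
-/

set_option autoImplicit false

namespace Pool.Agent.MP_0af329_co

open EuclideanGeometry

/-! ## Sums of floors over the shifts `j / M` -/

/-- `∑_{j < M} ⌊y + j/M⌋`. -/
noncomputable def fs (M : ℕ) (y : ℝ) : ℤ := ∑ j ∈ Finset.range M, ⌊y + (j : ℝ) / M⌋

theorem fs_step {M : ℕ} (hM : 1 ≤ M) (y : ℝ) : fs M (y + 1 / M) = fs M y + 1 := by
  have hM0 : (M : ℝ) ≠ 0 := by positivity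
  unfold fs
  have h1 : ∑ j ∈ Finset.range M, ⌊y + 1 / M + (j : ℝ) / M⌋ =
      ∑ j ∈ Finset.range M, ⌊y + ((j + 1 : ℕ) : ℝ) / M⌋ := by
    refine Finset.sum_congr rfl fun j _ => ?_
    congr 1
    push_cast
    ring
  have h2 := Finset.sum_range_succ (fun j : ℕ => ⌊y + (j : ℝ) / M⌋) M
  have h3 := Finset.sum_range_succ' (fun j : ℕ => ⌊y + (j : ℝ) / M⌋) M
  have h4 : ⌊y + (M : ℝ) / M⌋ = ⌊y + ((0 : ℕ) : ℝ) / M⌋ + 1 := by
    rw [div_self hM0, Nat.cast_zero, zero_div, add_zero, Int.floor_add_one]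
  rw [h1]
  rw [h2] at h3
  linarith

theorem fs_add {M : ℕ} (hM : 1 ≤ M) (y : ℝ) (i : ℕ) : fs M (y + (i : ℝ) / M) = fs M y + i := by
  induction i with
  | zero => simp
  | succ i ih =>
    have e : y + ((i + 1 : ℕ) : ℝ) / M = (y + (i : ℝ) / M) + 1 / M := by push_cast; ring
    rw [e, fs_step hM, ih]
    push_cast
    ring

theorem fs_mono (M : ℕ) {y y' : ℝ} (h : y ≤ y') : fs M y ≤ fs M y' := by
  unfold fs
  refine Finset.sum_le_sum fun j _ => Int.floor_mono ?_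
  linarith

theorem fs_upper {M : ℕ} (hM : 1 ≤ M) {y y' : ℝ} (h : y ≤ y') :
    (fs M y' : ℝ) - fs M y ≤ M * (y' - y) + 1 := by
  have hM0 : (0 : ℝ) < M := by positivity
  have h0 : 0 ≤ M * (y' - y) := mul_nonneg hM0.le (by linarith)
  set i := ⌈M * (y' - y)⌉₊ with hi
  have h1 : y' ≤ y + (i : ℝ) / M := by
    have h2 := Nat.le_ceil (M * (y' - y))
    have h3 : y' - y ≤ (i : ℝ) / M := by
      rw [le_div_iff₀ hM0]
      linarith
    linarith
  have h4 := fs_mono M h1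
  rw [fs_add hM] at h4
  have h5 := Nat.ceil_lt_add_one h0
  have h6 : (fs M y' : ℝ) ≤ fs M y + i := by exact_mod_cast h4
  linarith

theorem fs_lower {M : ℕ} (hM : 1 ≤ M) {y y' : ℝ} (h : y ≤ y') :
    M * (y' - y) - 1 ≤ (fs M y' : ℝ) - fs M y := by
  have hM0 : (0 : ℝ) < M := by positivity
  have h0 : 0 ≤ M * (y' - y) := mul_nonneg hM0.le (by linarith)
  set i := ⌊M * (y' - y)⌋₊ with hi
  have h1 : y + (i : ℝ) / M ≤ y' := by
    have h2 := Nat.floor_le h0
    have h3 : (i : ℝ) / M ≤ y' - y := by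
      rw [div_le_iff₀ hM0]
      linarith
    linarith
  have h4 := fs_mono M h1
  rw [fs_add hM] at h4
  have h5 := Nat.lt_floor_add_one (M * (y' - y))
  have h6 : (fs M y : ℝ) + i ≤ fs M y' := by exact_mod_cast h4
  linarith

/-! ## Pairs of directions -/

theorem cd_neg (D : ℝ) : cd (-D) = cd D := by
  unfold cd
  rw [abs_neg]

/-- The average correlation of two directions. -/
theorem sum_cor_ge {m M : ℕ} (hm : 2 ≤ m) (hM : 1 ≤ M) {a b : ℝ} (h : |b - a| < 2 * Real.pi) :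
    (M : ℝ) * m - 2 * (M * (cd (b - a) * m / Real.pi) + 1) ≤
      ∑ j ∈ Finset.range M, cor m ⌊a * m / Real.pi + (j : ℝ) / M⌋ ⌊b * m / Real.pi + (j : ℝ) / M⌋ := by
  have hpi := Real.pi_pos
  have hm0 : (0 : ℝ) < m := by positivity
  have main : ∀ a b : ℝ, a ≤ b → b - a < 2 * Real.pi →
      (M : ℝ) * m - 2 * (M * (cd (b - a) * m / Real.pi) + 1) ≤
      ∑ j ∈ Finset.range M,
        cor m ⌊a * m / Real.pi + (j : ℝ) / M⌋ ⌊b * m / Real.pi + (j : ℝ) / M⌋ := by
    intro a b hab hlt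
    have hs : a * m / Real.pi ≤ b * m / Real.pi := by gcongr
    have hle : ∀ j : ℕ, ⌊a * m / Real.pi + (j : ℝ) / M⌋ ≤ ⌊b * m / Real.pi + (j : ℝ) / M⌋ :=
      fun j => Int.floor_mono (by linarith)
    have hsub : b * m / Real.pi - a * m / Real.pi = (b - a) * m / Real.pi := by ring
    unfold cd
    rw [abs_of_nonneg (by linarith : 0 ≤ b - a)]
    by_cases hc : b - a ≤ Real.pi
    · rw [if_pos hc]
      have h1 : ∑ j ∈ Finset.range M, ((m : ℝ) - 2 * ((⌊b * m / Real.pi + (j : ℝ) / M⌋ : ℝ) -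
          ⌊a * m / Real.pi + (j : ℝ) / M⌋)) ≤ ∑ j ∈ Finset.range M,
          cor m ⌊a * m / Real.pi + (j : ℝ) / M⌋ ⌊b * m / Real.pi + (j : ℝ) / M⌋ :=
        Finset.sum_le_sum fun j _ => cor_ge (by omega) (hle j)
      have h2 := fs_upper hM hs
      unfold fs at h2
      push_cast at h2
      rw [Finset.sum_sub_distrib, ← Finset.mul_sum, Finset.sum_sub_distrib, Finset.sum_const,
        Finset.card_range, nsmul_eq_mul] at h1
      rw [hsub] at h2
      linarith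
    · rw [if_neg hc]
      have hup : ∀ j : ℕ, ⌊b * m / Real.pi + (j : ℝ) / M⌋ ≤
          ⌊a * m / Real.pi + (j : ℝ) / M⌋ + 2 * m := by
        intro j
        have h3 : b * m / Real.pi + (j : ℝ) / M ≤ a * m / Real.pi + (j : ℝ) / M +
            ((2 * m : ℤ) : ℝ) := by
          have h4 : (b - a) * m / Real.pi ≤ 2 * m := by
            rw [div_le_iff₀ hpi]
            nlinarith
          push_cast
          linarith
        calc ⌊b * m / Real.pi + (j : ℝ) / M⌋ ≤ ⌊a * m / Real.pi + (j : ℝ) / M +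
            ((2 * m : ℤ) : ℝ)⌋ := Int.floor_mono h3
          _ = ⌊a * m / Real.pi + (j : ℝ) / M⌋ + 2 * m := Int.floor_add_intCast _ _
      have h1 : ∑ j ∈ Finset.range M, ((m : ℝ) - 2 * (2 * m -
          ((⌊b * m / Real.pi + (j : ℝ) / M⌋ : ℝ) -
          ⌊a * m / Real.pi + (j : ℝ) / M⌋))) ≤ ∑ j ∈ Finset.range M,
          cor m ⌊a * m / Real.pi + (j : ℝ) / M⌋ ⌊b * m / Real.pi + (j : ℝ) / M⌋ :=
        Finset.sum_le_sum fun j _ => cor_ge' (by omega) (hup j)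
      have h2 := fs_lower hM hs
      unfold fs at h2
      push_cast at h2
      rw [Finset.sum_sub_distrib, ← Finset.mul_sum, Finset.sum_sub_distrib,
        Finset.sum_sub_distrib, Finset.sum_const, Finset.sum_const,
        Finset.card_range, nsmul_eq_mul, nsmul_eq_mul] at h1
      rw [hsub] at h2
      have e : (2 * Real.pi - (b - a)) * m / Real.pi = 2 * m - (b - a) * m / Real.pi := by
        field_simp
      rw [e]
      nlinarith
  rcases le_total a b with hab | hab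
  · rw [abs_of_nonneg (by linarith)] at h
    exact main a b hab h
  · rw [abs_of_nonpos (by linarith)] at h
    have := main b a hab (by linarith)
    rw [← cd_neg, neg_sub]
    refine this.trans (le_of_eq ?_)
    exact Finset.sum_congr rfl fun j _ => cor_comm _ _ _

/-- Two directions of the same arc are at an angle less than `π / m`. -/
theorem same_le {m : ℕ} (hm : 2 ≤ m) {a b u : ℝ} (h : |b - a| < 2 * Real.pi) :
    same m ⌊a * m / Real.pi + u⌋ ⌊b * m / Real.pi + u⌋ ≤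
      if cd (b - a) < Real.pi / m then 1 else 0 := by
  have hpi := Real.pi_pos
  have hm2 : (2 : ℝ) ≤ m := by exact_mod_cast hm
  have hm0 : (0 : ℝ) < m := by positivity
  unfold same
  by_cases hd : (2 * (m : ℤ)) ∣ ⌊a * m / Real.pi + u⌋ - ⌊b * m / Real.pi + u⌋
  · rw [if_pos hd, if_pos]
    set A := a * m / Real.pi + u with hA
    set B := b * m / Real.pi + u with hB
    have hAB : B - A = (b - a) * m / Real.pi := by rw [hA, hB]; ring
    have ha1 := Int.floor_le A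
    have ha2 := Int.lt_floor_add_one A
    have hb1 := Int.floor_le B
    have hb2 := Int.lt_floor_add_one B
    rw [abs_lt] at h
    have hs1 : B - A < 2 * m := by
      rw [hAB, div_lt_iff₀ hpi]
      nlinarith
    have hs2 : -(2 * m) < B - A := by
      rw [hAB, lt_div_iff₀ hpi]
      nlinarith
    have k1 : (⌊A⌋ - ⌊B⌋ : ℤ) < 2 * m + 1 := by
      have : ((⌊A⌋ - ⌊B⌋ : ℤ) : ℝ) < ((2 * m + 1 : ℤ) : ℝ) := by push_cast; linarith
      exact_mod_cast this
    have k2 : -(2 * m + 1 : ℤ) < ⌊A⌋ - ⌊B⌋ := by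
      have : ((-(2 * m + 1) : ℤ) : ℝ) < ((⌊A⌋ - ⌊B⌋ : ℤ) : ℝ) := by push_cast; linarith
      exact_mod_cast this
    obtain ⟨q, hq⟩ := hd
    have hmz : (2 : ℤ) ≤ m := by exact_mod_cast hm
    have hq1 : q ≤ 1 := by
      by_contra hcon
      have : 2 ≤ q := by omega
      nlinarith
    have hq2 : -1 ≤ q := by
      by_contra hcon
      have : q ≤ -2 := by omega
      nlinarith
    have hcdle : ∀ x : ℝ, (b - a) * m / Real.pi = x → b - a = x * Real.pi / m := by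
      intro x hx
      rw [← hx]
      field_simp
    rcases (show q = 0 ∨ q = 1 ∨ q = -1 by omega) with rfl | rfl | rfl
    · -- the same integer
      have e : ⌊A⌋ = ⌊B⌋ := by linarith
      rw [e] at ha1 ha2
      have h1 : |B - A| < 1 := by
        rw [abs_lt]; constructor <;> linarith
      rw [hAB, abs_div, abs_mul, abs_of_pos hm0, abs_of_pos hpi, div_lt_one hpi] at h1
      have h2 : |b - a| < Real.pi / m := by
        rw [lt_div_iff₀ hm0]
        exact h1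
      have h3 : Real.pi / m ≤ Real.pi := div_le_self hpi.le (by linarith)
      unfold cd
      rw [if_pos (by linarith)]
      exact h2
    · -- `⌊A⌋ = ⌊B⌋ + 2 m`
      have e : (⌊A⌋ : ℝ) = ⌊B⌋ + 2 * m := by
        have : ⌊A⌋ = ⌊B⌋ + 2 * m := by linarith
        rw [this]; push_cast; ring
      have h1 : (a - b) * m / Real.pi > 2 * m - 1 := by
        have : (a - b) * m / Real.pi = A - B := by rw [hA, hB]; ring
        rw [this]
        linarith
      rw [gt_iff_lt, lt_div_iff₀ hpi] at h1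
      have h2 : 2 * Real.pi - (a - b) < Real.pi / m := by
        rw [lt_div_iff₀ hm0]
        nlinarith
      have h3 : Real.pi / m ≤ Real.pi / 2 := by gcongr
      unfold cd
      rw [abs_sub_comm, abs_of_nonneg (by linarith), if_neg (by linarith)]
      exact h2
    · have e : (⌊B⌋ : ℝ) = ⌊A⌋ + 2 * m := by
        have : ⌊B⌋ = ⌊A⌋ + 2 * m := by linarith
        rw [this]; push_cast; ring
      have h1 : (b - a) * m / Real.pi > 2 * m - 1 := by
        rw [← hAB]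
        linarith
      rw [gt_iff_lt, lt_div_iff₀ hpi] at h1
      have h2 : 2 * Real.pi - (b - a) < Real.pi / m := by
        rw [lt_div_iff₀ hm0]
        nlinarith
      have h3 : Real.pi / m ≤ Real.pi / 2 := by gcongr
      unfold cd
      rw [abs_of_nonneg (by linarith), if_neg (by linarith)]
      exact h2
  · rw [if_neg hd]
    split_ifs <;> norm_num

/-- The inequality for a family of directions. -/
theorem circle_pd {ι : Type*} {m : ℕ} (hm : 2 ≤ m) (T : Finset ι) (hT : T.Nonempty)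
    (d : ι → ℝ) (hd : ∀ x ∈ T, ∀ z ∈ T, |d z - d x| < 2 * Real.pi) :
    (T.card : ℝ) ^ 2 * (1 / (2 * m) + Real.sin (Real.pi / (2 * m)) ^ 2 * m / 2) -
      Real.sin (Real.pi / (2 * m)) ^ 2 * m / Real.pi * ∑ x ∈ T, ∑ z ∈ T, cd (d z - d x) -
      T.card ≤ ∑ x ∈ T, ∑ z ∈ T, if cd (d z - d x) < Real.pi / m then (1 : ℝ) else 0 := by
  have hpi := Real.pi_pos
  have hm0 : (0 : ℝ) < m := by positivity
  set R := Real.sin (Real.pi / (2 * m)) ^ 2 with hR
  have hR0 : 0 ≤ R := sq_nonneg _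
  have hR1 : R ≤ 1 := Real.sin_sq_le_one _
  set M := T.card with hM
  have hM1 : 1 ≤ M := hT.card_pos
  have hM0 : (0 : ℝ) < M := by exact_mod_cast hT.card_pos
  have h1 : ∀ j ∈ Finset.range M, (M : ℝ) ^ 2 / (2 * m) + 1 / 2 * R * ∑ x ∈ T, ∑ z ∈ T,
      cor m ⌊d x * m / Real.pi + (j : ℝ) / M⌋ ⌊d z * m / Real.pi + (j : ℝ) / M⌋ ≤
      ∑ x ∈ T, ∑ z ∈ T, if cd (d z - d x) < Real.pi / m then (1 : ℝ) else 0 := by
    intro j _
    refine (star hm T fun x => ⌊d x * m / Real.pi + (j : ℝ) / M⌋).trans ?_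
    exact Finset.sum_le_sum fun x hx => Finset.sum_le_sum fun z hz => same_le hm (hd x hx z hz)
  have h2 := Finset.sum_le_sum h1
  rw [Finset.sum_add_distrib, ← Finset.mul_sum, Finset.sum_const, Finset.sum_const,
    Finset.card_range, nsmul_eq_mul, nsmul_eq_mul] at h2
  have h3 : ∑ j ∈ Finset.range M, ∑ x ∈ T, ∑ z ∈ T,
      cor m ⌊d x * m / Real.pi + (j : ℝ) / M⌋ ⌊d z * m / Real.pi + (j : ℝ) / M⌋ =
      ∑ x ∈ T, ∑ z ∈ T, ∑ j ∈ Finset.range M,
      cor m ⌊d x * m / Real.pi + (j : ℝ) / M⌋ ⌊d z * m / Real.pi + (j : ℝ) / M⌋ := by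
    rw [Finset.sum_comm]
    refine Finset.sum_congr rfl fun x _ => ?_
    rw [Finset.sum_comm]
  rw [h3] at h2
  have h4 : ∑ x ∈ T, ∑ z ∈ T, ((M : ℝ) * m - 2 * (M * (cd (d z - d x) * m / Real.pi) + 1)) ≤
      ∑ x ∈ T, ∑ z ∈ T, ∑ j ∈ Finset.range M,
      cor m ⌊d x * m / Real.pi + (j : ℝ) / M⌋ ⌊d z * m / Real.pi + (j : ℝ) / M⌋ :=
    Finset.sum_le_sum fun x hx => Finset.sum_le_sum fun z hz =>
      sum_cor_ge hm hM1 (hd x hx z hz)
  have h5 : ∑ x ∈ T, ∑ z ∈ T, ((M : ℝ) * m - 2 * (M * (cd (d z - d x) * m / Real.pi) + 1)) =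
      (M : ℝ) ^ 2 * (M * m - 2) - 2 * M * (m / Real.pi) * ∑ x ∈ T, ∑ z ∈ T, cd (d z - d x) := by
    have e : ∀ x z : ι, ((M : ℝ) * m - 2 * (M * (cd (d z - d x) * m / Real.pi) + 1)) =
        (M * m - 2) - 2 * M * (m / Real.pi) * cd (d z - d x) := fun x z => by ring
    simp only [e, Finset.sum_sub_distrib, ← Finset.mul_sum, Finset.sum_const, nsmul_eq_mul]
    rw [← hM]
    ring
  rw [h5] at h4
  set X := ∑ x ∈ T, ∑ z ∈ T, cd (d z - d x)
  set Y := ∑ x ∈ T, ∑ z ∈ T, if cd (d z - d x) < Real.pi / m then (1 : ℝ) else 0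
  have h6 : (M : ℝ) * ((M : ℝ) ^ 2 / (2 * m)) + 1 / 2 * R * ((M : ℝ) ^ 2 * (M * m - 2) -
      2 * M * (m / Real.pi) * X) ≤ M * Y := by
    refine le_trans ?_ h2
    have := mul_le_mul_of_nonneg_left h4 (show 0 ≤ 1 / 2 * R by positivity)
    linarith
  have h7 : (M : ℝ) * ((M : ℝ) ^ 2 * (1 / (2 * m) + R * m / 2) - R * m / Real.pi * X - M) ≤
      M * Y := by
    refine le_trans ?_ h6
    have e : (M : ℝ) * ((M : ℝ) ^ 2 / (2 * m)) + 1 / 2 * R * ((M : ℝ) ^ 2 * (M * m - 2) -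
        2 * M * (m / Real.pi) * X) =
        M * ((M : ℝ) ^ 2 * (1 / (2 * m) + R * m / 2) - R * m / Real.pi * X) - R * M ^ 2 := by
      ring
    rw [e]
    have h8 : R * (M : ℝ) ^ 2 ≤ 1 * (M : ℝ) ^ 2 := mul_le_mul_of_nonneg_right hR1 (by positivity)
    nlinarith
  exact le_of_mul_le_mul_left h7 hM0

/-- The bound at one vertex. -/
theorem vertex_pd {m : ℕ} (hm : 2 ≤ m) {S : Finset Pt} (h2 : 2 ≤ S.card) {y : Pt} (hy : y ∈ S)
    [DecidableEq Pt] :
    ((S.card : ℝ) - 1) ^ 2 * (1 / (2 * m) + Real.sin (Real.pi / (2 * m)) ^ 2 * m / 2) -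
      Real.sin (Real.pi / (2 * m)) ^ 2 * m / Real.pi *
        ∑ x ∈ S.erase y, ∑ z ∈ (S.erase y).erase x, ∠ x y z - 2 * ((S.card : ℝ) - 1) ≤
      ∑ x ∈ S.erase y, ∑ z ∈ (S.erase y).erase x,
        if ∠ x y z ∈ Set.Iio (Real.pi / m) then (1 : ℝ) else 0 := by
  have hpi := Real.pi_pos
  have hm0 : (0 : ℝ) < m := by positivity
  have hex : ∀ x : Pt, ∃ θ : ℝ, x ≠ y → (-Real.pi < θ ∧ θ ≤ Real.pi ∧
      (x - y) 0 = ‖x - y‖ * Real.cos θ ∧ (x - y) 1 = ‖x - y‖ * Real.sin θ) := by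
    intro x
    by_cases hx : x = y
    · exact ⟨0, fun h => absurd hx h⟩
    · obtain ⟨θ, h⟩ := exists_arg (x - y) (sub_ne_zero.2 hx)
      exact ⟨θ, fun _ => h⟩
  choose d hd using hex
  set T := S.erase y with hT
  have hTy : ∀ x ∈ T, x ≠ y := fun x hx => Finset.ne_of_mem_erase hx
  have hlt : ∀ x ∈ T, ∀ z ∈ T, |d z - d x| < 2 * Real.pi := by
    intro x hx z hz
    have h1 := hd x (hTy x hx)
    have h2 := hd z (hTy z hz)
    rw [abs_lt]
    constructor <;> linarith [h1.1, h1.2.1, h2.1, h2.2.1]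
  have hang : ∀ x ∈ T, ∀ z ∈ T, ∠ x y z = cd (d z - d x) := by
    intro x hx z hz
    exact angle_eq_cd (sub_ne_zero.2 (hTy x hx)) (sub_ne_zero.2 (hTy z hz)) (hd x (hTy x hx))
      (hd z (hTy z hz))
  have hcn : T.card = S.card - 1 := Finset.card_erase_of_mem hy
  have hc : (T.card : ℝ) = (S.card : ℝ) - 1 := by
    rw [hcn, Nat.cast_sub (by omega)]
    simp
  have hne : T.Nonempty := by
    rw [← Finset.card_pos, hcn]
    omega
  have h3 := circle_pd hm T hne d hlt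
  rw [hc] at h3
  have hself : ∀ x ∈ T, ∠ x y x = 0 := fun x hx => angle_self_of_ne (hTy x hx)
  have e1 : ∑ x ∈ T, ∑ z ∈ T, cd (d z - d x) = ∑ x ∈ T, ∑ z ∈ T.erase x, ∠ x y z := by
    refine Finset.sum_congr rfl fun x hx => ?_
    rw [← Finset.sum_erase_add _ _ hx, ← hang x hx x hx, hself x hx, add_zero]
    exact Finset.sum_congr rfl fun z hz => (hang x hx z (Finset.mem_of_mem_erase hz)).symm
  have e2 : ∑ x ∈ T, ∑ z ∈ T, (if cd (d z - d x) < Real.pi / m then (1 : ℝ) else 0) =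
      (∑ x ∈ T, ∑ z ∈ T.erase x, if ∠ x y z ∈ Set.Iio (Real.pi / m) then (1 : ℝ) else 0) +
        ((S.card : ℝ) - 1) := by
    have e3 : ((S.card : ℝ) - 1) = ∑ x ∈ T, (1 : ℝ) := by
      rw [Finset.sum_const, nsmul_eq_mul, mul_one, hc]
    rw [e3, ← Finset.sum_add_distrib]
    refine Finset.sum_congr rfl fun x hx => ?_
    rw [← Finset.sum_erase_add _ _ hx]
    congr 1
    · refine Finset.sum_congr rfl fun z hz => ?_
      rw [← hang x hx z (Finset.mem_of_mem_erase hz)]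
      simp only [Set.mem_Iio]
    · rw [← hang x hx x hx, hself x hx, if_pos (div_pos hpi hm0)]
  rw [e1, e2] at h3
  linarith

/-- The lower bound for the density of the angles less than `π / m`. -/
theorem le_dens_pd {m : ℕ} (hm : 2 ≤ m) :
    1 / (2 * m) + m / 6 * Real.sin (Real.pi / (2 * m)) ^ 2 ≤ dens (Set.Iio (Real.pi / m)) := by
  classical
  have hpi := Real.pi_pos
  have hm0 : (0 : ℝ) < m := by positivity
  refine le_dens _ _ 2 fun S hS hn => ?_
  have hn' : (3 : ℝ) ≤ S.card := by exact_mod_cast hn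
  set R := Real.sin (Real.pi / (2 * m)) ^ 2 with hR
  have hR0 : 0 ≤ R := sq_nonneg _
  -- the sum over the vertices
  have h1 : (S.card : ℝ) * (((S.card : ℝ) - 1) ^ 2 * (1 / (2 * m) + R * m / 2) -
      2 * ((S.card : ℝ) - 1)) ≤
      ∑ t ∈ trip S, ((if ∠ t.1 t.2.1 t.2.2 ∈ Set.Iio (Real.pi / m) then (1 : ℝ) else 0) +
        R * m / Real.pi * ∠ t.1 t.2.1 t.2.2) := by
    rw [sum_trip_eq S (fun x y z => (if ∠ x y z ∈ Set.Iio (Real.pi / m) then (1 : ℝ) else 0) +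
        R * m / Real.pi * ∠ x y z), ← nsmul_eq_mul]
    refine Finset.card_nsmul_le_sum _ _ _ fun y hy => ?_
    have := vertex_pd hm (by omega) hy
    simp only [Finset.sum_add_distrib, ← Finset.mul_sum]
    linarith
  rw [Finset.sum_add_distrib, ← Finset.mul_sum, ← cnt_eq_sum] at h1
  -- the angle sum
  have r1 := sum_trip_rot S (fun x y z => ∠ x y z)
  have r2 := sum_trip_rot S (fun x y z => ∠ y z x)
  have h2 : ∑ t ∈ trip S, (∠ t.1 t.2.1 t.2.2 + ∠ t.2.1 t.2.2 t.1 + ∠ t.2.2 t.1 t.2.1) =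
      Real.pi * ((S.card : ℝ) * ((S.card : ℝ) - 1) * ((S.card : ℝ) - 2)) := by
    rw [← card_trip, mul_comm, ← nsmul_eq_mul, ← Finset.sum_const]
    refine Finset.sum_congr rfl ?_
    rintro ⟨x, y, z⟩ ht
    rw [mem_trip] at ht
    exact angle_add_angle_add_angle_eq_pi z ht.2.1.symm
  simp only [Finset.sum_add_distrib] at h2
  have r2' : ∑ t ∈ trip S, ∠ t.2.2 t.1 t.2.1 = ∑ t ∈ trip S, ∠ t.1 t.2.1 t.2.2 :=
    (r1.trans r2).symm
  rw [r2', ← r1] at h2
  have h3 : R * m / Real.pi * ∑ t ∈ trip S, ∠ t.1 t.2.1 t.2.2 =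
      R * m / 3 * ((S.card : ℝ) * ((S.card : ℝ) - 1) * ((S.card : ℝ) - 2)) := by
    have h4 : ∑ t ∈ trip S, ∠ t.1 t.2.1 t.2.2 =
        Real.pi / 3 * ((S.card : ℝ) * ((S.card : ℝ) - 1) * ((S.card : ℝ) - 2)) := by
      linarith
    rw [h4]
    generalize (S.card : ℝ) * ((S.card : ℝ) - 1) * ((S.card : ℝ) - 2) = X
    have : Real.pi ≠ 0 := hpi.ne'
    clear_value R
    field_simp
  rw [h3] at h1
  have h5 : 0 ≤ 1 / (2 * (m : ℝ)) + R * m / 2 := by positivity
  have h6 : 0 ≤ (S.card : ℝ) * ((S.card : ℝ) - 1) := by nlinarith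
  have h7 : ((S.card : ℝ) * ((S.card : ℝ) - 1) * ((S.card : ℝ) - 2)) *
      (1 / (2 * (m : ℝ)) + R * m / 2) ≤
      (S.card : ℝ) * (((S.card : ℝ) - 1) ^ 2 * (1 / (2 * m) + R * m / 2)) := by
    nlinarith [mul_nonneg h5 h6]
  nlinarith

/-- The lower bound for `G`. -/
theorem le_G_pd {m : ℕ} (hm : 2 ≤ m) {α : ℝ} (hα : Real.pi / m ≤ α) :
    1 / (2 * m) + m / 6 * Real.sin (Real.pi / (2 * m)) ^ 2 ≤ G α :=
  (le_dens_pd hm).trans (G_mono hα)

end Pool.Agent.MP_0af329_co
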