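import Pool.Agent.MP_0af329_co.QCrt2

/-!
# Certificates for the excluded patterns of four points
-/

set_option autoImplicit false

namespace Pool.Agent.MP_0af329_co.Q5

def e0 : Tr := .sp 0 1 2 3
  (.fk [0, 0, -1] [1] [(0, 1), (3, 1), (7, 1), (8, 1)])
  (.fk [0, -1] [1] [(0, 1), (4, 1), (5, 1), (6, 1)])
  (.fk [0, -1] [0, 1] [(1, 1), (3, 1), (5, 1), (9, 1)])
  (.fk [0, 0, 0, -1] [0, 1] [(2, 1), (7, 1), (9, 1), (11, 1)])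
  (.fk [-1, 0, -1] [1, 1] [(0, 2), (1, 1), (2, 2), (3, 1), (8, 1), (10, 1)])
  (.fk [-1, -1] [1, 1] [(0, 2), (1, 2), (2, 1), (5, 1), (6, 1), (9, 1)])
  (.fk [-1] [1] [(1, 1), (2, 1), (3, 1), (6, 1)])

def e1 : Tr := .sp 0 1 2 3
  (.fk [1, 0, -1, -1] [1, -1, 1] [(3, 1), (4, 1), (8, 1), (11, 1)])
  (.fk [0, 0, 0, -1] [0, 0, 1] [(2, 1), (7, 1), (9, 1), (11, 1)])
  (.fk [-1] [1] [(1, 1), (2, 1), (3, 1), (6, 1)])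
  (.fk [1, 0, -3, -1] [1, 1, 1] [(0, 1), (4, 1), (5, 1), (6, 3), (7, 4), (8, 4)])
  (.fk [0, 0, -1] [1, 1] [(2, 1), (3, 1), (8, 1), (10, 1), (30, 1)])
  (.fk [0, -1] [1, 1] [(1, 1), (5, 1), (6, 1), (9, 1), (30, 1)])
  (.fk [-1] [1] [(1, 1), (2, 1), (3, 1), (6, 1)])

def e3 : Tr := .sp 0 1 2 3
  (.fk [1, 0, -1, -1] [1, -1, 1] [(3, 1), (4, 1), (8, 1), (11, 1)])
  (.fk [] [0, 1] [(1, 2), (4, 1), (9, 1), (31, 1)])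
  (.fk [-1] [2] [(0, 1), (2, 1), (3, 2), (6, 2), (31, 1)])
  (.fk [1, -1, 0, -1] [-1, 1, 1] [(0, 1), (1, 2), (3, 1), (5, 2), (7, 1), (8, 1), (9, 2)])
  (.fk [0, 0, -1] [1, 1] [(2, 1), (3, 1), (8, 1), (10, 1), (30, 1)])
  (.fk [0, -1] [1, 1, 1] [(6, 1), (8, 1), (9, 1), (11, 1), (30, 1), (31, 1)])
  (.fk [-2] [2, 1] [(2, 2), (3, 2), (4, 1), (6, 2), (9, 1), (31, 1)])

def e9 : Tr := .sp 0 1 2 3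
  (.fk [0, 0, 0, -1] [0, 0, 1] [(1, 1), (4, 1), (10, 1), (11, 1)])
  (.fk [0, 0, 0, -1] [0, 0, 1] [(2, 1), (7, 1), (9, 1), (11, 1)])
  (.fk [0, 0, 0, -1] [0, 0, 1] [(5, 1), (8, 1), (9, 1), (10, 1)])
  (.fk [1, 1, -4, -1] [1, 1, 1] [(0, 1), (3, 1), (6, 4), (7, 5), (8, 5)])
  (.fk [0, 0, -1] [0, 1] [(2, 1), (6, 1), (8, 1), (10, 1)])
  (.fk [0, -1] [1, 1] [(1, 1), (5, 1), (6, 1), (9, 1), (30, 1)])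
  (.fk [-1] [1, 1] [(2, 1), (4, 1), (6, 1), (9, 1), (33, 1)])

def e10 : Tr := .sp 0 1 2 3
  (.lb 0 2 1 3)
  (.fk [-1] [2] [(0, 3), (2, 1), (3, 2), (6, 2), (31, 1)])
  (.fk [0, 0, 0, -1] [0, 0, 1] [(5, 1), (8, 1), (9, 1), (10, 1)])
  (.fk [0, 1, -2, -1] [1, 1, 1] [(2, 1), (3, 1), (6, 2), (7, 3), (8, 3), (31, 1)])
  (.fk [0, 0, -1] [0, 1] [(2, 1), (6, 1), (8, 1), (10, 1)])
  (.fk [-1, 1, -1, -1] [4, -1, -1] [(0, 5), (2, 1), (3, 5), (6, 5), (7, 1), (10, 1)])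
  (.fk [-1] [0, 1] [(0, 1), (2, 1), (4, 1), (9, 1)])

def e12 : Tr := .sp 0 1 2 3
  (.fk [-1] [-1, 2] [(1, 1), (2, 1), (3, 1), (6, 1), (7, 2), (10, 2)])
  (.fk [-1] [2] [(0, 3), (1, 1), (3, 2), (6, 2), (32, 1)])
  (.fk [0, 0, 0, -1] [0, 0, 1] [(5, 1), (8, 1), (9, 1), (10, 1)])
  (.fk [0, 1, -2, -1] [1, 1, 1] [(1, 1), (3, 1), (6, 2), (7, 3), (8, 3), (32, 1)])
  (.fk [0, 0, -1] [0, 1, 1] [(5, 1), (6, 1), (10, 1), (11, 1), (32, 1)])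
  (.fk [-1, -2] [2, 2] [(0, 3), (1, 3), (5, 2), (6, 2), (9, 2), (32, 1)])
  (.fk [-1] [0, 0, 1] [(0, 1), (1, 1), (7, 1), (10, 1)])

def e13 : Tr := .sp 0 1 2 3
  (.fk [-1] [-1, 2] [(1, 1), (2, 1), (3, 1), (6, 1), (7, 2), (10, 2)])
  (.fk [] [1] [(3, 1), (6, 1), (30, 1)])
  (.fk [1, -1] [0, 1] [(0, 1), (2, 1), (5, 1), (9, 1), (33, 1)])
  (.fk [1, 1, -4, -1] [1, 1, 1] [(0, 1), (3, 1), (6, 4), (7, 5), (8, 5)])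
  (.fk [0, 0, -1] [0, 1, 1] [(5, 1), (6, 1), (10, 1), (11, 1), (32, 1)])
  (.fk [0, -1] [1, 1] [(1, 1), (5, 1), (6, 1), (9, 1), (30, 1)])
  (.fk [-1] [0, 0, 2] [(1, 1), (2, 1), (7, 2), (10, 2), (30, 1)])

def e14 : Tr := .sp 0 1 2 3
  (.fk [-1, -1] [-1, 4, -1] [(2, 3), (5, 1), (6, 1), (7, 4), (9, 1), (10, 4)])
  (.fk [-1] [3] [(0, 4), (3, 3), (6, 3), (31, 1), (32, 1)])
  (.fk [0, 0, 0, -1] [0, 0, 1] [(5, 1), (8, 1), (9, 1), (10, 1)])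
  (.fk [0, 1, -1, -1] [1, 1, 1] [(3, 1), (6, 1), (7, 2), (8, 2), (31, 1), (32, 1)])
  (.fk [1, 0, -2] [1, 2] [(1, 1), (6, 1), (8, 2), (10, 2), (32, 1), (33, 1)])
  (.fk [-1, 1, -1, -1] [5, -1, -1] [(0, 6), (3, 6), (6, 6), (7, 1), (10, 1), (32, 1)])
  (.fk [-2] [0, 2, 1] [(0, 2), (4, 2), (7, 1), (9, 2), (10, 1), (32, 1)])

def e28 : Tr := .sp 0 1 2 3
  (.fk [-1] [-1, 3, -1] [(2, 2), (3, 1), (4, 1), (6, 1), (7, 3), (9, 1), (10, 3)])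
  (.fk [-1] [2] [(0, 3), (1, 1), (3, 2), (6, 2), (32, 1)])
  (.fk [-1] [0, 2] [(0, 1), (1, 3), (4, 2), (9, 2), (32, 1)])
  (.fk [-1, 3, 0, -3] [-1, 3, 3] [(0, 1), (3, 3), (4, 4), (7, 3), (8, 3), (9, 4), (32, 4)])
  (.fk [-1, 3, -3] [-1, 3, 3] [(1, 1), (3, 4), (4, 3), (6, 4), (10, 3), (11, 3), (32, 4)])
  (.fk [-1, 1, -1, -1] [-1, 5, -1] [(1, 6), (4, 6), (7, 1), (9, 6), (10, 1), (32, 1)])
  (.fk [-1] [0, 0, 1] [(0, 1), (1, 1), (7, 1), (10, 1)])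

def e29 : Tr := .sp 0 1 2 3
  (.fk [-1] [-1, 3, -1] [(2, 2), (3, 1), (4, 1), (6, 1), (7, 3), (9, 1), (10, 3)])
  (.fk [1, 0, 0, -1] [1, -1, 1] [(3, 2), (4, 1), (6, 1), (7, 1), (11, 1), (33, 1)])
  (.fk [-1] [0, 3] [(1, 4), (4, 3), (9, 3), (30, 1), (32, 1)])
  (.fk [1, 1, -4, -1] [1, 1, 1] [(0, 1), (3, 1), (6, 4), (7, 5), (8, 5)])
  (.fk [0, 1, -1] [-1, 1, 1] [(0, 1), (3, 2), (4, 1), (6, 2), (10, 1), (11, 1), (32, 1)])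
  (.fk [-1, 1, -1, -1] [-1, 5, -1] [(1, 6), (4, 6), (7, 1), (9, 6), (10, 1), (32, 1)])
  (.fk [-1] [0, 0, 2] [(1, 1), (2, 1), (7, 2), (10, 2), (30, 1)])

def e46 : Tr := .sp 0 1 2 3
  (.fk [-1] [-1, 3] [(2, 2), (3, 1), (6, 1), (7, 3), (10, 3), (31, 1)])
  (.fk [-1, 1] [0, 1] [(0, 1), (3, 1), (5, 1), (9, 1), (32, 1)])
  (.fk [0, 1, 0, -1] [0, -1, 1] [(1, 1), (3, 1), (8, 1), (10, 1)])
  (.fk [0, 1, -1, -1] [1, 1, 1] [(3, 1), (6, 1), (7, 2), (8, 2), (31, 1), (32, 1)])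
  (.fk [1, 0, -2] [1, 2] [(1, 1), (6, 1), (8, 2), (10, 2), (32, 1), (33, 1)])
  (.fk [-1, 1, -1, -1] [5, -1, -1] [(0, 6), (3, 6), (6, 6), (7, 1), (10, 1), (32, 1)])
  (.fk [-1, 1] [0, 1] [(0, 1), (3, 1), (5, 1), (9, 1), (32, 1)])

def e73 : Tr := .sp 0 1 2 3
  (.fk [0, 0, 0, -1] [0, 0, 1] [(1, 1), (4, 1), (10, 1), (11, 1)])
  (.fk [0, 0, 0, -1] [0, 0, 1] [(2, 1), (7, 1), (9, 1), (11, 1)])
  (.fk [0, 0, 0, -1] [0, 0, 1] [(5, 1), (8, 1), (9, 1), (10, 1)])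
  (.fk [-2, -2, 5, -5] [-2, 5, 5] [(2, 7), (5, 7), (6, 5), (9, 7), (30, 2), (33, 2)])
  (.fk [0, 0, -1] [1, 1, 1] [(2, 1), (5, 1), (10, 1), (11, 1), (30, 1), (33, 1)])
  (.fk [0, -1] [1, 1, 1] [(1, 1), (8, 1), (9, 1), (11, 1), (30, 1), (36, 1)])
  (.fk [-1] [0, 1, 1] [(4, 1), (7, 1), (9, 1), (10, 1), (30, 1)])

def e74 : Tr := .sp 0 1 2 3
  (.fk [] [1] [(0, 1), (6, 1), (33, 1)])
  (.fk [-1] [-1, 3] [(1, 2), (2, 1), (4, 3), (6, 1), (9, 3), (33, 1)])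
  (.fk [0, 0, 0, -1] [0, 0, 1] [(5, 1), (8, 1), (9, 1), (10, 1)])
  (.fk [-1, -1, 2, -2] [-1, 2, 2] [(0, 1), (2, 3), (5, 3), (6, 2), (9, 3), (33, 1)])
  (.fk [] [1] [(0, 1), (6, 1), (33, 1)])
  (.fk [0, -1] [1, 1, 1] [(0, 1), (8, 1), (9, 1), (11, 1), (31, 1), (36, 1)])
  (.fk [-1] [0, 1] [(0, 1), (2, 1), (4, 1), (9, 1)])

def e78 : Tr := .sp 0 1 2 3
  (.fk [1, 0, 0, -2] [1, 0, 2] [(2, 1), (4, 2), (6, 1), (10, 2), (11, 2), (31, 1), (33, 1)])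
  (.fk [-1] [-1, 4] [(1, 3), (4, 4), (6, 1), (9, 4), (32, 1), (33, 1)])
  (.fk [1, -1] [-1, 1] [(2, 1), (5, 1), (6, 1), (9, 1)])
  (.fk [-1, -1, 5, -5] [-1, 5, 5] [(0, 1), (5, 6), (6, 5), (9, 6), (32, 6), (33, 1)])
  (.fk [] [1] [(0, 1), (6, 1), (33, 1)])
  (.fk [1, -2] [2, 2] [(0, 1), (2, 1), (5, 2), (9, 2), (31, 1), (36, 2)])
  (.fk [-2] [0, 2, 1] [(0, 2), (4, 2), (7, 1), (9, 2), (10, 1), (32, 1)])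

def e82 : Tr := .sp 0 1 2 3
  (.fk [] [1, 0, -1] [(0, 1), (1, 1), (3, 1), (4, 1), (6, 1), (9, 1)])
  (.fk [0, 0, 0, -1] [0, 0, 1] [(2, 1), (7, 1), (9, 1), (11, 1)])
  (.fk [] [0, 1] [(4, 1), (9, 1), (31, 1)])
  (.fk [-2, -2, 3, -3] [-2, 3, 3] [(0, 2), (2, 5), (3, 2), (5, 5), (6, 3), (9, 5)])
  (.fk [-1, -1, 1, -1] [6, -1, -1] [(0, 7), (3, 7), (6, 7), (9, 1), (31, 1), (34, 1)])
  (.fk [] [0, 1] [(4, 1), (9, 1), (31, 1)])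
  (.fk [-1] [0, 1, 1] [(0, 1), (7, 1), (9, 1), (10, 1), (34, 1)])

def e83 : Tr := .sp 0 1 2 3
  (.fk [] [1] [(3, 1), (6, 1), (30, 1)])
  (.fk [0, 0, 0, -1] [0, 0, 1] [(2, 1), (7, 1), (9, 1), (11, 1)])
  (.fk [] [0, 1] [(4, 1), (9, 1), (31, 1)])
  (.fk [-1, -1, 2, -2] [-1, 2, 2] [(2, 3), (3, 1), (5, 3), (6, 2), (9, 3), (30, 1)])
  (.fk [] [1] [(3, 1), (6, 1), (30, 1)])
  (.fk [] [0, 1] [(4, 1), (9, 1), (31, 1)])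
  (.fk [-1] [1, 1, 1] [(3, 1), (7, 1), (9, 1), (10, 1), (34, 1), (36, 1)])

def e84 : Tr := .sp 0 1 2 3
  (.fk [-1] [3, 0, -1] [(0, 4), (3, 3), (4, 1), (6, 3), (9, 1), (32, 1)])
  (.lb 0 1 2 3)
  (.fk [-1] [0, 2] [(0, 1), (1, 3), (4, 2), (9, 2), (32, 1)])
  (.fk [-1, -1, 4, -4] [-1, 4, 4] [(0, 1), (3, 1), (5, 5), (6, 4), (9, 5), (32, 5)])
  (.fk [-1, -1, 1, -1] [5, -1, -1] [(0, 6), (1, 1), (3, 6), (6, 6), (9, 1), (34, 1)])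
  (.fk [-1, 1, -1, -1] [-1, 5, -1] [(1, 6), (4, 6), (7, 1), (9, 6), (10, 1), (32, 1)])
  (.fk [-1] [0, 0, 1] [(0, 1), (1, 1), (7, 1), (10, 1)])

def e85 : Tr := .sp 0 1 2 3
  (.fk [] [1] [(3, 1), (6, 1), (30, 1)])
  (.fk [1, 0, 0, -1] [0, -1, 1] [(0, 1), (4, 1), (7, 1), (11, 1)])
  (.fk [-1] [0, 3] [(1, 4), (4, 3), (9, 3), (30, 1), (32, 1)])
  (.fk [-1, -1, 5, -5] [-1, 5, 5] [(3, 1), (5, 6), (6, 5), (9, 6), (30, 1), (32, 6)])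
  (.fk [] [1] [(3, 1), (6, 1), (30, 1)])
  (.fk [3, 2, -2, -2] [-2, 3, -2] [(0, 5), (2, 3), (4, 5), (7, 2), (9, 5), (10, 2)])
  (.fk [-1] [0, 0, 2] [(1, 1), (2, 1), (7, 2), (10, 2), (30, 1)])

def e86 : Tr := .sp 0 1 2 3
  (.fk [-1] [3, 0, -1] [(0, 4), (3, 3), (4, 1), (6, 3), (9, 1), (32, 1)])
  (.fk [] [0, 1] [(1, 1), (9, 1), (34, 1)])
  (.fk [] [0, 1] [(4, 1), (9, 1), (31, 1)])
  (.fk [0, -1, 2, -2] [-1, 2, 2] [(1, 1), (3, 1), (5, 3), (6, 2), (9, 3), (32, 2)])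
  (.fk [-1, -1, 1, -1] [6, -1, -1] [(0, 7), (3, 7), (6, 7), (9, 1), (31, 1), (34, 1)])
  (.fk [] [0, 1] [(4, 1), (9, 1), (31, 1)])
  (.fk [-1] [0, 0, 2] [(0, 1), (2, 1), (7, 2), (10, 2), (31, 1)])

def e92 : Tr := .sp 0 1 2 3
  (.fk [-1] [0, 2, -1] [(0, 1), (2, 1), (4, 1), (7, 2), (9, 1), (10, 2)])
  (.fk [1, 0, 0, -1] [1, -1, 1] [(3, 1), (4, 1), (7, 1), (11, 1), (36, 1)])
  (.fk [-1] [0, 2] [(0, 1), (1, 3), (4, 2), (9, 2), (32, 1)])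
  (.fk [-1, -1, 5, -5] [-1, 5, 5] [(0, 1), (5, 6), (6, 5), (9, 6), (32, 6), (33, 1)])
  (.fk [] [1] [(0, 1), (6, 1), (33, 1)])
  (.fk [-1, 1, -1, -1] [-1, 5, -1] [(1, 6), (4, 6), (7, 1), (9, 6), (10, 1), (32, 1)])
  (.fk [-1] [0, 0, 1] [(0, 1), (1, 1), (7, 1), (10, 1)])

def e93 : Tr := .sp 0 1 2 3
  (.fk [-1] [-1, 4, -1] [(2, 3), (3, 1), (4, 1), (7, 4), (9, 1), (10, 4), (36, 1)])
  (.fk [1, 0, 0, -1] [1, -1, 1] [(3, 1), (4, 1), (7, 1), (11, 1), (36, 1)])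
  (.fk [-1] [0, 3] [(1, 4), (4, 3), (9, 3), (30, 1), (32, 1)])
  (.fk [-1, -1, 6, -6] [-1, 6, 6] [(5, 7), (6, 6), (9, 7), (30, 1), (32, 7), (33, 1)])
  (.fk [0, 1, -1] [2, 1, 1] [(4, 1), (6, 1), (10, 1), (11, 1), (30, 2), (32, 1), (33, 1)])
  (.fk [-1, 1, -1, -1] [-1, 5, -1] [(1, 6), (4, 6), (7, 1), (9, 6), (10, 1), (32, 1)])
  (.fk [-1] [0, 0, 2] [(1, 1), (2, 1), (7, 2), (10, 2), (30, 1)])

def e94 : Tr := .sp 0 1 2 3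
  (.fk [1, 0, -1] [1] [(1, 1), (2, 1), (7, 1), (8, 1), (33, 1)])
  (.fk [] [0, 1] [(1, 1), (9, 1), (34, 1)])
  (.fk [] [0, 1] [(4, 1), (9, 1), (31, 1)])
  (.fk [-1, -1, 5, -5] [-1, 5, 5] [(0, 1), (5, 6), (6, 5), (9, 6), (32, 6), (33, 1)])
  (.fk [] [1] [(0, 1), (6, 1), (33, 1)])
  (.fk [] [0, 1] [(4, 1), (9, 1), (31, 1)])
  (.fk [-1] [0, 0, 2] [(0, 1), (2, 1), (7, 2), (10, 2), (31, 1)])

def e102 : Tr := .sp 0 1 2 3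
  (.fk [-1] [3] [(0, 4), (3, 3), (6, 3), (31, 1), (32, 1)])
  (.fk [-1, 0, -1] [-1, 4, -1] [(1, 3), (3, 1), (4, 4), (8, 1), (9, 4), (10, 1)])
  (.lc 0 2 3 1)
  (.fk [0, 0, 1, -1] [0, 1, 1] [(6, 1), (9, 1), (32, 1), (35, 1)])
  (.fk [-1, -1, 1, -1] [5, -1, -1] [(0, 6), (3, 6), (4, 1), (6, 6), (9, 1), (31, 1)])
  (.fk [0, -1] [1, 1, 1] [(0, 1), (8, 1), (9, 1), (11, 1), (31, 1), (36, 1)])
  (.fk [-3, 1] [3, 1, 3] [(3, 2), (5, 1), (7, 3), (9, 1), (10, 3), (31, 2), (36, 3)])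

def e110 : Tr := .sp 0 1 2 3
  (.fk [0, 1, 0, -1] [0, 0, 1] [(3, 1), (5, 1), (10, 1), (11, 1), (31, 1)])
  (.fk [-2, 3] [-2, 3] [(1, 1), (3, 1), (5, 3), (6, 2), (9, 3), (32, 2)])
  (.fk [1] [-1] [(1, 1), (2, 1), (3, 1), (6, 1)])
  (.fk [0, 0, 1, -1] [0, 1, 1] [(6, 1), (9, 1), (32, 1), (35, 1)])
  (.fk [] [1] [(0, 1), (6, 1), (33, 1)])
  (.fk [] [1] [(0, 1), (3, 1), (36, 1)])
  (.fk [-1, 1] [0, 1] [(0, 1), (3, 1), (5, 1), (9, 1), (32, 1)])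

def e118 : Tr := .sp 0 1 2 3
  (.fk [-2, 3] [3, 0, -2] [(0, 5), (4, 5), (5, 3), (6, 3), (9, 2), (32, 2)])
  (.fk [] [0, 1] [(1, 1), (9, 1), (34, 1)])
  (.fk [] [0, 1] [(4, 1), (9, 1), (31, 1)])
  (.fk [0, 0, 1, -1] [0, 1, 1] [(6, 1), (9, 1), (32, 1), (35, 1)])
  (.fk [-1, 2, 1, -1] [2, -1, -1] [(0, 3), (4, 2), (5, 3), (6, 3), (9, 1), (31, 1)])
  (.fk [-1, 1] [-1, 0, 3] [(4, 1), (5, 4), (6, 1), (8, 3), (11, 3), (31, 1), (32, 1)])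
  (.fk [-1, 1] [1, 0, 1] [(4, 1), (5, 1), (7, 1), (10, 1), (31, 1), (36, 1)])

def e150 : Tr := .sp 0 1 2 3
  (.fk [1, 0, -1] [1] [(1, 1), (2, 1), (3, 1), (8, 1), (37, 1)])
  (.fk [1, -1] [1] [(1, 1), (2, 1), (5, 1), (6, 1), (34, 1)])
  (.fk [] [0, 1] [(4, 1), (9, 1), (31, 1)])
  (.fk [0, 0, 0, -1] [0, 0, 1] [(5, 1), (8, 1), (9, 1), (10, 1)])
  (.fk [-2, 3, -3] [3, 3, 3] [(0, 5), (4, 3), (10, 3), (11, 3), (31, 2), (32, 5)])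
  (.fk [] [0, 1] [(4, 1), (9, 1), (31, 1)])
  (.fk [-1] [1, 1, 1] [(3, 1), (6, 1), (9, 1), (10, 1), (34, 1), (37, 1)])

def e156 : Tr := .sp 0 1 2 3
  (.fk [] [0, 1] [(2, 1), (10, 1), (37, 1)])
  (.fk [-1] [2] [(0, 3), (1, 1), (3, 2), (6, 2), (32, 1)])
  (.fk [-1] [0, 2] [(0, 1), (1, 3), (4, 2), (9, 2), (32, 1)])
  (.fk [-1, 3, 0, -3] [-1, 0, 3] [(0, 1), (3, 3), (4, 4), (8, 3), (9, 4), (10, 3), (32, 1)])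
  (.fk [-1, 3, -3] [-1, 3, 3] [(1, 1), (3, 4), (4, 3), (6, 4), (10, 3), (11, 3), (32, 4)])
  (.fk [-1, 1, -1, -1] [-1, 6, -1] [(1, 7), (4, 7), (9, 7), (10, 1), (32, 1), (37, 1)])
  (.fk [] [0, 0, 1] [(2, 1), (10, 1), (37, 1)])

def e157 : Tr := .sp 0 1 2 3
  (.fk [] [0, 1] [(2, 1), (10, 1), (37, 1)])
  (.fk [1, 0, 0, -1] [1, -1] [(2, 1), (3, 1), (4, 1), (6, 1), (10, 1), (11, 1)])
  (.fk [-1] [0, 3] [(1, 4), (4, 3), (9, 3), (30, 1), (32, 1)])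
  (.fk [-1, 4, 0, -4] [-1, 0, 4] [(3, 4), (4, 5), (8, 4), (9, 5), (10, 4), (30, 1), (32, 1)])
  (.fk [] [0, 1] [(7, 1), (10, 1), (32, 1)])
  (.fk [-1, 1, -1, -1] [-1, 6, -1] [(1, 7), (4, 7), (9, 7), (10, 1), (32, 1), (37, 1)])
  (.fk [] [1] [(0, 1), (6, 1), (33, 1)])

def e158 : Tr := .sp 0 1 2 3
  (.fk [] [0, 1] [(2, 1), (10, 1), (37, 1)])
  (.fk [-1] [3] [(0, 4), (3, 3), (6, 3), (31, 1), (32, 1)])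
  (.fk [] [0, 1] [(4, 1), (9, 1), (31, 1)])
  (.fk [0, 1, 0, -1] [-1, 0, 1] [(1, 1), (3, 1), (4, 2), (8, 1), (9, 2), (10, 1)])
  (.fk [-1, 4, -4] [-1, 4, 4] [(3, 5), (4, 4), (6, 5), (10, 4), (11, 4), (31, 1), (32, 5)])
  (.fk [] [0, 1] [(4, 1), (9, 1), (31, 1)])
  (.fk [] [0, 1] [(1, 1), (9, 1), (34, 1)])

def e162 : Tr := .sp 0 1 2 3
  (.fk [2, 2, -3, -3] [3, -3, 2] [(0, 1), (2, 1), (3, 1), (5, 2), (8, 3), (9, 1), (11, 3)])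
  (.fk [-1] [0, 1] [(0, 1), (2, 1), (4, 1), (9, 1)])
  (.fk [-2, 1, 2, -2] [2, -1, 2] [(2, 2), (3, 1), (7, 2), (9, 1), (10, 2), (31, 1), (35, 1)])
  (.ld 1 2 3 0)
  (.fk [-1] [0, 2] [(0, 1), (2, 3), (7, 2), (10, 2), (31, 1)])
  (.fk [-1, -1, 1] [1, 1, 1] [(0, 2), (2, 1), (7, 1), (9, 1), (11, 1), (31, 2)])
  (.fk [-3, 1] [3, 1] [(2, 3), (3, 2), (5, 1), (6, 3), (9, 1), (31, 2)])

def e163 : Tr := .sp 0 1 2 3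
  (.fk [3, 3, -4, -4] [3, -4, 3] [(2, 1), (5, 3), (6, 1), (8, 4), (9, 1), (11, 4)])
  (.fk [] [0, 1] [(1, 2), (4, 1), (9, 1), (31, 1)])
  (.fk [0, -1, 2, -2] [2, 1, 2] [(0, 2), (3, 3), (7, 2), (9, 3), (10, 2), (31, 1), (35, 3)])
  (.fk [1, 0, 0, -1] [0, 1, 1] [(0, 1), (1, 1), (8, 1), (9, 1), (35, 1), (37, 1)])
  (.fk [-1, -1, 1, -1] [-1, 5, -1] [(2, 6), (4, 1), (7, 6), (9, 1), (10, 6), (31, 1)])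
  (.fk [-1, -3, 3] [3, 3, 3] [(2, 1), (7, 3), (9, 3), (11, 3), (30, 4), (31, 4)])
  (.fk [-3, 1] [3, 1] [(2, 3), (3, 2), (5, 1), (6, 3), (9, 1), (31, 2)])

def e171 : Tr := .sp 0 1 2 3
  (.fk [3, 3, -4, -4] [3, -4, 3] [(2, 1), (5, 3), (6, 1), (8, 4), (9, 1), (11, 4)])
  (.fk [0, 1] [0, 1] [(1, 3), (3, 1), (5, 1), (9, 1), (31, 2)])
  (.fk [0, 0, 1, -1] [1, 0, 1] [(0, 1), (7, 1), (9, 1), (10, 1), (33, 1), (35, 1)])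
  (.fk [1, 1, 0, -4] [1, 4, 1] [(0, 1), (2, 3), (3, 1), (8, 1), (9, 3), (11, 3), (37, 4)])
  (.fk [-1, 0, 1, -1] [-1, 4, -1] [(2, 5), (3, 1), (5, 1), (7, 5), (9, 1), (10, 5), (31, 1)])
  (.fk [-2, 0, 3] [3, 0, 3] [(2, 2), (3, 3), (5, 3), (7, 3), (11, 3), (30, 5), (31, 2)])
  (.fk [-2, 1] [2, 1] [(2, 2), (5, 1), (6, 2), (9, 1), (31, 1), (33, 1)])

def e173 : Tr := .sp 0 1 2 3
  (.fk [-1, 3, 0, -3] [-1, 0, 3] [(1, 4), (3, 4), (5, 3), (6, 1), (10, 3), (11, 3), (32, 1)])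
  (.fk [] [1] [(3, 1), (6, 1), (30, 1)])
  (.fk [0, 0, 1, -1] [1, 0, 1] [(0, 1), (7, 1), (9, 1), (10, 1), (33, 1), (35, 1)])
  (.fk [2, 2, 0, -5] [2, 5, 5] [(0, 2), (3, 2), (8, 5), (9, 3), (32, 3), (35, 3), (37, 5)])
  (.fk [] [0, 1] [(7, 1), (10, 1), (32, 1)])
  (.fk [-2, 0, 3] [3, 0, 3] [(1, 2), (3, 3), (5, 3), (7, 3), (11, 3), (30, 5), (32, 2)])
  (.fk [-3, 2] [3, 2] [(1, 1), (5, 2), (6, 3), (9, 2), (32, 3), (33, 1)])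

def e174 : Tr := .sp 0 1 2 3
  (.fk [0, 1, 0, -1] [0, 0, 1] [(3, 1), (5, 1), (10, 1), (11, 1), (31, 1)])
  (.fk [-1, 1] [0, 1] [(0, 1), (3, 1), (5, 1), (9, 1), (32, 1)])
  (.fk [-1, 1, 1, -1] [1, -1, 1] [(7, 1), (10, 1), (32, 1)])
  (.fk [0, 1, 0, -2] [1, 0, 2] [(3, 1), (8, 2), (9, 1), (10, 2), (31, 1), (35, 1)])
  (.fk [] [0, 1] [(7, 1), (10, 1), (32, 1)])
  (.fk [-1, 0, 1] [1, 0, 1] [(0, 2), (3, 1), (5, 1), (7, 1), (11, 1), (31, 1), (32, 1)])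
  (.fk [-4, 3] [4, 3] [(5, 3), (6, 4), (9, 3), (31, 1), (32, 4), (33, 1)])

def e179 : Tr := .sp 0 1 2 3
  (.fk [2, 2, -3, -2] [2, -2, 2] [(5, 2), (6, 1), (8, 3), (11, 2), (37, 1)])
  (.fk [] [0, 1] [(1, 1), (9, 1), (34, 1)])
  (.fk [-1, 1] [1] [(2, 1), (4, 1), (5, 1), (6, 1), (31, 1)])
  (.fk [1, 0, 0, -1] [0, 1, 1] [(0, 1), (1, 1), (8, 1), (9, 1), (35, 1), (37, 1)])
  (.fk [-1, -1, 1, -1] [-1, 6, -1] [(2, 7), (7, 7), (9, 1), (10, 7), (31, 1), (34, 1)])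
  (.fk [] [0, 1] [(4, 1), (9, 1), (31, 1)])
  (.fk [-1, 1] [1] [(2, 1), (4, 1), (5, 1), (6, 1), (31, 1)])

def e222 : Tr := .sp 0 1 2 3
  (.fk [1] [1, 0, -1] [(1, 2), (2, 1), (4, 1), (6, 1), (9, 1), (33, 1)])
  (.fk [2, -1] [2] [(1, 2), (2, 2), (3, 1), (5, 1), (34, 1), (36, 2)])
  (.fk [] [0, 1] [(4, 1), (9, 1), (31, 1)])
  (.fk [-1, -1, 5, -5] [-1, 5, 5] [(0, 1), (5, 6), (6, 5), (9, 6), (32, 6), (33, 1)])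
  (.fk [] [1] [(0, 1), (6, 1), (33, 1)])
  (.fk [] [0, 1] [(4, 1), (9, 1), (31, 1)])
  (.fk [] [0, 1] [(1, 1), (9, 1), (34, 1)])

def e235 : Tr := .sp 0 1 2 3
  (.fk [1, 1, 0, -2] [1, -2, 1] [(2, 1), (5, 1), (6, 1), (7, 2), (9, 1), (11, 2)])
  (.fk [-1, 1] [-1, 1] [(2, 1), (5, 1), (6, 1), (9, 1)])
  (.fk [0, 0, 1, -1] [0, 0, 1] [(6, 1), (7, 1), (9, 1), (10, 1), (35, 1)])
  (.fk [-1, -1, 6, -6] [-1, 6, 6] [(2, 7), (6, 6), (9, 7), (30, 1), (33, 1), (35, 7)])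
  (.fk [1, 0, 2, -2] [1, 1, -2] [(1, 1), (5, 2), (6, 3), (7, 3), (9, 2), (10, 3), (33, 1)])
  (.fk [-2, 0, 3] [3, 0, 3] [(2, 2), (3, 3), (5, 3), (7, 3), (11, 3), (30, 5), (31, 2)])
  (.fk [-4, 3] [4, 3] [(2, 4), (5, 3), (9, 3), (31, 1), (33, 1), (36, 4)])

def e238 : Tr := .sp 0 1 2 3
  (.fk [0, 1, 0, -1] [0, 0, 1] [(3, 1), (5, 1), (10, 1), (11, 1), (31, 1)])
  (.fk [-2, 3] [-2, 3] [(1, 1), (3, 1), (5, 3), (6, 2), (9, 3), (32, 2)])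
  (.fk [0, 0, 1, -1] [0, 0, 1] [(6, 1), (7, 1), (9, 1), (10, 1), (35, 1)])
  (.fk [0, 0, 1, -1] [0, 1, 1] [(6, 1), (9, 1), (32, 1), (35, 1)])
  (.fk [1, 0, 2, -2] [1, 1, -2] [(1, 1), (5, 2), (6, 3), (7, 3), (9, 2), (10, 3), (33, 1)])
  (.fk [-1, 0, 1] [1, 0, 1] [(0, 2), (3, 1), (5, 1), (7, 1), (11, 1), (31, 1), (32, 1)])
  (.fk [-1, 1] [1, 1] [(5, 1), (9, 1), (32, 1), (36, 1)])

def e245 : Tr := .sp 0 1 2 3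
  (.fk [-1, 4] [4, 0, -1] [(4, 5), (5, 4), (6, 4), (9, 1), (30, 5), (32, 1)])
  (.fk [0, 1] [-1] [(0, 1), (4, 1), (5, 1), (6, 1)])
  (.fk [-1] [0, 3] [(1, 4), (4, 3), (9, 3), (30, 1), (32, 1)])
  (.fk [0, 0, 1, -1] [0, 1, 1] [(6, 1), (9, 1), (32, 1), (35, 1)])
  (.fk [-1, 4, 1, -1] [4, -1, -1] [(1, 1), (4, 4), (5, 5), (6, 5), (9, 1), (30, 5)])
  (.fk [-1, 1, -1, -1] [-1, 6, -1] [(1, 7), (4, 7), (9, 7), (10, 1), (32, 1), (37, 1)])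
  (.fk [-1, 2] [2] [(0, 1), (1, 1), (4, 2), (5, 2), (32, 1), (36, 2)])

def e246 : Tr := .sp 0 1 2 3
  (.fk [-2, 3] [3, 0, -2] [(0, 5), (4, 5), (5, 3), (6, 3), (9, 2), (32, 2)])
  (.fk [] [0, 1] [(1, 1), (9, 1), (34, 1)])
  (.fk [] [0, 1] [(4, 1), (9, 1), (31, 1)])
  (.fk [0, 0, 1, -1] [0, 0, 1] [(6, 1), (7, 1), (9, 1), (10, 1), (35, 1)])
  (.fk [-1, 2, 1, -1] [2, -1, -1] [(0, 3), (4, 2), (5, 3), (6, 3), (9, 1), (31, 1)])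
  (.fk [] [0, 1] [(4, 1), (9, 1), (31, 1)])
  (.fk [-1, 1] [1, 1] [(5, 1), (9, 1), (32, 1), (36, 1)])

def e586 : Tr := .sp 0 1 2 3
  (.fk [] [0, 0, 1] [(4, 1), (9, 1), (31, 1)])
  (.fk [] [0, 1] [(1, 1), (4, 1), (39, 1)])
  (.fk [0, 1, 0, -1] [0, -1, 1] [(1, 1), (3, 1), (8, 1), (10, 1)])
  (.fk [-1, 5, -1, -5] [5, -1, 5] [(0, 1), (3, 5), (8, 6), (10, 6), (31, 6), (36, 1)])
  (.fk [] [1] [(0, 1), (6, 1), (33, 1)])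
  (.fk [] [1] [(0, 1), (3, 1), (36, 1)])
  (.fk [-1] [0, 1, 1] [(0, 1), (4, 1), (7, 1), (10, 1), (39, 1)])

def e588 : Tr := .sp 0 1 2 3
  (.fk [-1] [-1, 0, 4] [(1, 5), (3, 1), (4, 4), (9, 4), (32, 1), (36, 1)])
  (.fk [] [1] [(0, 1), (3, 1), (36, 1)])
  (.lc 0 1 3 2)
  (.fk [-1, 2, -1, -2] [2, -1, 2] [(0, 1), (1, 3), (3, 2), (8, 3), (10, 3), (36, 1)])
  (.fk [] [1] [(0, 1), (6, 1), (33, 1)])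
  (.fk [] [1] [(0, 1), (3, 1), (36, 1)])
  (.fk [-1] [0, 0, 1] [(0, 1), (1, 1), (7, 1), (10, 1)])

def e590 : Tr := .sp 0 1 2 3
  (.fk [-1] [-1, 4] [(2, 3), (3, 1), (7, 4), (10, 4), (31, 1), (36, 1)])
  (.fk [] [0, 1] [(1, 1), (4, 1), (39, 1)])
  (.fk [1] [-1] [(1, 1), (2, 1), (3, 1), (6, 1)])
  (.fk [-1, 5, -1, -5] [5, -1, 5] [(0, 1), (3, 5), (8, 6), (10, 6), (31, 6), (36, 1)])
  (.fk [] [1] [(0, 1), (6, 1), (33, 1)])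
  (.fk [] [1] [(0, 1), (3, 1), (36, 1)])
  (.fk [-1] [0, 0, 2] [(0, 1), (2, 1), (7, 2), (10, 2), (31, 1)])

def e604 : Tr := .sp 0 1 2 3
  (.fk [-1] [-1, 5, -1] [(2, 4), (3, 1), (4, 1), (7, 5), (10, 5), (36, 1), (39, 1)])
  (.fk [1, 0, 0, -1] [1, -1, 1] [(3, 1), (4, 1), (7, 1), (11, 1), (36, 1)])
  (.fk [] [0, 1] [(1, 1), (4, 1), (39, 1)])
  (.fk [-1, 2, -1, -2] [2, -1, 2] [(0, 1), (1, 3), (3, 2), (8, 3), (10, 3), (36, 1)])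
  (.fk [] [1] [(0, 1), (6, 1), (33, 1)])
  (.fk [] [0, 1] [(1, 1), (4, 1), (39, 1)])
  (.fk [-1] [0, 0, 1] [(0, 1), (1, 1), (7, 1), (10, 1)])

def e605 : Tr := .sp 0 1 2 3
  (.fk [-1] [-1, 5, -1] [(2, 4), (3, 1), (4, 1), (7, 5), (10, 5), (36, 1), (39, 1)])
  (.fk [1, 0, 0, -1] [1, -1, 1] [(3, 1), (4, 1), (7, 1), (11, 1), (36, 1)])
  (.fk [] [0, 1] [(1, 1), (4, 1), (39, 1)])
  (.fk [] [1] [(1, 1), (9, 1), (34, 1)])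
  (.fk [0, 1, -1, 1] [3, 1, 1] [(4, 1), (6, 2), (9, 1), (30, 3), (32, 1), (33, 2)])
  (.fk [] [0, 1] [(1, 1), (4, 1), (39, 1)])
  (.fk [-1] [0, 0, 2] [(1, 1), (2, 1), (7, 2), (10, 2), (30, 1)])

def e622 : Tr := .sp 0 1 2 3
  (.fk [-1, 5] [-1, 0, 5] [(3, 6), (5, 5), (9, 5), (31, 6), (32, 1), (36, 1)])
  (.fk [-1, 3] [-1, 3] [(1, 2), (3, 2), (5, 3), (6, 1), (32, 1), (39, 3)])
  (.fk [1] [-1] [(1, 1), (2, 1), (3, 1), (6, 1)])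
  (.fk [-1, 5, -1, 1] [5, -1, -1] [(0, 1), (3, 5), (5, 6), (9, 6), (31, 6), (36, 1)])
  (.fk [] [1] [(0, 1), (6, 1), (33, 1)])
  (.fk [-1, 1] [0, -1, 2] [(0, 1), (3, 1), (5, 3), (8, 2), (9, 1), (11, 2), (32, 1)])
  (.fk [-2, 2] [0, 2, 1] [(0, 2), (3, 2), (5, 2), (7, 1), (10, 1), (32, 1), (39, 2)])

def e649 : Tr := .sp 0 1 2 3
  (.fk [] [-1, 0, 1] [(0, 1), (1, 1), (3, 1), (4, 1), (6, 1), (9, 1)])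
  (.fk [] [1] [(3, 1), (6, 1), (30, 1)])
  (.fk [-3, 2, 2, -2] [2, -2, 2] [(1, 1), (2, 3), (7, 2), (10, 2), (30, 1)])
  (.fk [-1, -1, -1, 1] [6, -1, -1] [(1, 7), (4, 7), (6, 1), (9, 7), (30, 1), (33, 1)])
  (.fk [-1, 0, -1, 1] [-1, 1, 1] [(1, 1), (2, 2), (3, 1), (5, 1), (6, 2), (9, 1)])
  (.fk [-1, -2, 2] [2, 2, 2] [(1, 3), (2, 1), (7, 2), (11, 2), (30, 3), (39, 2)])
  (.fk [] [1] [(0, 1), (6, 1), (33, 1)])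

def e651 : Tr := .sp 0 1 2 3
  (.fk [1, 0, 0, -1] [0, -1, 1] [(0, 1), (4, 1), (7, 1), (11, 1)])
  (.fk [] [1] [(3, 1), (6, 1), (30, 1)])
  (.fk [-4, 3, 3, -3] [3, -3, 3] [(2, 4), (7, 3), (10, 3), (30, 1), (31, 1)])
  (.fk [-1, 5, -1, -5] [5, -1, 5] [(3, 5), (6, 1), (8, 6), (10, 6), (30, 1), (31, 6)])
  (.fk [-2, 0, -3, 3] [-2, 3, 3] [(2, 5), (3, 2), (5, 3), (6, 5), (9, 3), (31, 2)])
  (.fk [] [1] [(3, 1), (6, 1), (30, 1)])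
  (.fk [] [1] [(0, 1), (6, 1), (33, 1)])

def e665 : Tr := .sp 0 1 2 3
  (.fk [] [0, 0, 1] [(1, 1), (9, 1), (34, 1)])
  (.fk [] [1] [(3, 1), (6, 1), (30, 1)])
  (.fk [-3, 2, 2, -2] [2, -2, 2] [(1, 1), (2, 3), (7, 2), (10, 2), (30, 1)])
  (.fk [] [1] [(1, 1), (9, 1), (34, 1)])
  (.fk [-3, 2, -2, 2] [-3, 2, 2] [(1, 3), (2, 5), (3, 5), (4, 2), (6, 5), (9, 2)])
  (.fk [] [0, 1] [(1, 1), (4, 1), (39, 1)])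
  (.fk [] [1] [(0, 1), (6, 1), (33, 1)])

def e668 : Tr := .sp 0 1 2 3
  (.fk [] [0, 1] [(2, 1), (10, 1), (37, 1)])
  (.fk [1, -1] [1, -1] [(2, 1), (5, 1), (6, 1), (9, 1)])
  (.fk [-1, 1, 1, -1] [1, -1, 1] [(7, 1), (10, 1), (32, 1)])
  (.fk [-2, 3, -2, -3] [3, -2, 3] [(0, 2), (1, 5), (3, 3), (6, 2), (8, 5), (10, 5)])
  (.fk [-2, 3, -3, 3] [-2, 3, 3] [(1, 2), (3, 5), (4, 3), (6, 5), (9, 3), (32, 5)])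
  (.fk [] [0, 1] [(1, 1), (4, 1), (39, 1)])
  (.fk [] [0, 0, 1] [(2, 1), (10, 1), (37, 1)])

def e669 : Tr := .sp 0 1 2 3
  (.fk [] [0, 1] [(2, 1), (10, 1), (37, 1)])
  (.fk [1, -1] [1, -1] [(2, 1), (5, 1), (6, 1), (9, 1)])
  (.fk [-1, 1, 1, -1] [1, -1, 1] [(7, 1), (10, 1), (32, 1)])
  (.fk [] [1] [(1, 1), (9, 1), (34, 1)])
  (.fk [-2, 3, -3, 3] [-2, 3, 3] [(1, 2), (3, 5), (4, 3), (6, 5), (9, 3), (32, 5)])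
  (.fk [] [0, 1] [(1, 1), (4, 1), (39, 1)])
  (.fk [] [1] [(0, 1), (6, 1), (33, 1)])

def e670 : Tr := .sp 0 1 2 3
  (.fk [] [0, 1] [(2, 1), (10, 1), (37, 1)])
  (.fk [1, -1] [1, -1] [(2, 1), (5, 1), (6, 1), (9, 1)])
  (.fk [-1, 1, 1, -1] [1, -1, 1] [(7, 1), (10, 1), (32, 1)])
  (.fk [0, 2, -1, -2] [2, -1, 2] [(2, 1), (3, 2), (6, 1), (8, 3), (10, 3), (31, 2)])
  (.fk [-1, 2, -2, 2] [-1, 2, 2] [(3, 3), (4, 2), (6, 3), (9, 2), (31, 1), (32, 3)])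
  (.fk [1, -1, 1] [1, 4, 1] [(2, 1), (4, 3), (7, 1), (11, 1), (31, 3), (39, 4)])
  (.fk [] [0, 0, 1] [(2, 1), (10, 1), (37, 1)])

def e673 : Tr := .sp 0 1 2 3
  (.fk [4, 4, -5, -5] [4, -5, 4] [(2, 1), (5, 4), (6, 1), (8, 5), (11, 5), (39, 1)])
  (.lb 0 3 2 1)
  (.fk [0, 0, 1, -1] [1, 0, 1] [(0, 1), (3, 1), (7, 1), (10, 1), (35, 1), (39, 1)])
  (.fk [-1, -1, -1, 1] [5, -1, -1] [(1, 6), (3, 1), (4, 6), (6, 1), (9, 6), (30, 1)])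
  (.fk [-1, -1, -4, 4] [-1, 4, 4] [(1, 1), (2, 5), (4, 1), (6, 5), (9, 4), (35, 5)])
  (.fk [-1, -2, 2] [2, 2, 2] [(1, 3), (2, 1), (7, 2), (11, 2), (30, 3), (39, 2)])
  (.fk [-1] [1] [(1, 1), (2, 1), (3, 1), (6, 1)])

def e675 : Tr := .sp 0 1 2 3
  (.fk [4, 4, -5, -5] [4, -5, 4] [(2, 1), (5, 4), (6, 1), (8, 5), (11, 5), (39, 1)])
  (.fk [] [0, 1] [(1, 1), (4, 1), (39, 1)])
  (.fk [0, 0, 1, -1] [1, 0, 1] [(0, 1), (3, 1), (7, 1), (10, 1), (35, 1), (39, 1)])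
  (.fk [] [1] [(4, 1), (9, 1), (31, 1)])
  (.fk [-1, -1, -5, 5] [-1, 5, 5] [(2, 6), (4, 1), (6, 6), (9, 5), (31, 1), (35, 6)])
  (.fk [-1, -3, 3] [3, 0, 3] [(2, 1), (4, 3), (7, 3), (11, 3), (30, 4), (31, 1)])
  (.fk [-2, 1] [2, 1] [(2, 2), (3, 1), (5, 1), (6, 2), (31, 1), (39, 1)])

def e677 : Tr := .sp 0 1 2 3
  (.fk [-1] [0, 0, 3] [(1, 4), (4, 3), (9, 3), (30, 1), (32, 1)])
  (.lc 1 2 3 0)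
  (.fk [0, 0, 1, -1] [1, 0, 1] [(0, 1), (3, 1), (7, 1), (10, 1), (35, 1), (39, 1)])
  (.fk [-1, -1, -1, 1] [5, -1, -1] [(1, 6), (3, 1), (4, 6), (6, 1), (9, 6), (30, 1)])
  (.fk [0, 0, -1, 1] [0, 1, 1] [(6, 1), (9, 1), (32, 1), (35, 1)])
  (.fk [-1, -3, 3] [3, 3, 3] [(1, 4), (7, 3), (11, 3), (30, 4), (32, 1), (39, 3)])
  (.fk [-1] [2] [(0, 1), (1, 1), (3, 2), (6, 2), (32, 1)])

def e682 : Tr := .sp 0 1 2 3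
  (.fk [4, 4, -5, -5] [4, -5, 4] [(2, 1), (5, 4), (6, 1), (8, 5), (11, 5), (39, 1)])
  (.fk [-1, 2] [0, 2, -1] [(0, 1), (1, 1), (3, 2), (5, 2), (7, 1), (10, 1), (39, 2)])
  (.fk [-3, 2, 2, -2] [2, -2, 2] [(0, 1), (2, 3), (7, 2), (10, 2), (31, 1)])
  (.fk [-1, 4, -1, 1] [4, -1, -1] [(0, 1), (3, 4), (5, 5), (6, 1), (9, 5), (31, 5)])
  (.fk [-1, 0, -3, 3] [-1, 3, 3] [(2, 4), (3, 1), (6, 4), (9, 3), (31, 1), (35, 3)])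
  (.fk [-3, 0, 2] [2, 0, 2] [(0, 5), (2, 3), (3, 2), (5, 2), (7, 2), (11, 2), (31, 3)])
  (.fk [-3, 2] [3, 2] [(2, 3), (5, 2), (6, 3), (31, 1), (33, 1), (39, 2)])

def e683 : Tr := .sp 0 1 2 3
  (.fk [4, 4, -5, -5] [4, -5, 4] [(2, 1), (5, 4), (6, 1), (8, 5), (11, 5), (39, 1)])
  (.fk [-1, 3] [0, 3, -1] [(1, 2), (3, 3), (5, 3), (7, 1), (10, 1), (30, 1), (39, 3)])
  (.fk [-1, 1] [1, -1] [(2, 1), (5, 1), (6, 1), (9, 1)])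
  (.fk [-1, 5, -1, 1] [5, -1, -1] [(3, 5), (5, 6), (6, 1), (9, 6), (30, 1), (31, 6)])
  (.fk [-1, 0, -3, 3] [-1, 3, 3] [(2, 4), (3, 1), (6, 4), (9, 3), (31, 1), (35, 3)])
  (.fk [-2, 0, 3] [3, 0, 3] [(2, 2), (3, 3), (5, 3), (7, 3), (11, 3), (30, 5), (31, 2)])
  (.fk [-3, 2] [3, 2] [(2, 3), (5, 2), (6, 3), (31, 1), (33, 1), (39, 2)])

def e684 : Tr := .sp 0 1 2 3
  (.fk [-2, 3] [-2, 0, 3] [(1, 5), (3, 5), (5, 3), (6, 2), (9, 3), (32, 2)])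
  (.fk [0, -1] [3, -1] [(0, 3), (1, 1), (3, 2), (6, 3), (9, 1), (35, 1)])
  (.fk [-1, 1, 1, -1] [1, -1, 1] [(7, 1), (10, 1), (32, 1)])
  (.fk [-2, 3, -2, 2] [3, -2, -2] [(0, 2), (1, 5), (3, 3), (5, 5), (6, 2), (9, 5)])
  (.fk [0, 0, -1, 1] [0, 1, 1] [(6, 1), (9, 1), (32, 1), (35, 1)])
  (.fk [-3, 0, 2] [2, 0, 2] [(0, 5), (1, 3), (3, 2), (5, 2), (7, 2), (11, 2), (32, 3)])
  (.fk [-1, 1] [1, 1] [(5, 1), (6, 1), (32, 1), (39, 1)])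

def e685 : Tr := .sp 0 1 2 3
  (.fk [-2, 3] [-2, 0, 3] [(1, 5), (3, 5), (5, 3), (6, 2), (9, 3), (32, 2)])
  (.fk [] [1] [(3, 1), (6, 1), (30, 1)])
  (.fk [] [1] [(0, 1), (6, 1), (33, 1)])
  (.fk [-1, 2, -1, 1] [2, -1, -1] [(1, 3), (3, 2), (5, 3), (6, 1), (9, 3), (30, 1)])
  (.fk [0, 0, -1, 1] [0, 1, 1] [(6, 1), (9, 1), (32, 1), (35, 1)])
  (.fk [-2, 0, 3] [3, 0, 3] [(1, 2), (3, 3), (5, 3), (7, 3), (11, 3), (30, 5), (32, 2)])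
  (.fk [-1, 1] [1, 1] [(5, 1), (6, 1), (32, 1), (39, 1)])

def e686 : Tr := .sp 0 1 2 3
  (.fk [-1, 4] [-1, 0, 4] [(3, 5), (5, 4), (6, 1), (9, 4), (31, 5), (32, 1)])
  (.fk [3, -2] [3, -2] [(1, 1), (2, 3), (3, 1), (6, 3), (9, 2), (35, 2)])
  (.fk [0, 1] [0, -1] [(1, 1), (3, 1), (5, 1), (9, 1)])
  (.fk [] [1] [(4, 1), (9, 1), (31, 1)])
  (.fk [0, 0, -1, 1] [0, 1, 1] [(6, 1), (9, 1), (32, 1), (35, 1)])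
  (.fk [-1, 0, 1] [1, 0, 1] [(0, 2), (3, 1), (5, 1), (7, 1), (11, 1), (31, 1), (32, 1)])
  (.fk [-1, 1] [1, 1] [(5, 1), (6, 1), (32, 1), (39, 1)])

def e691 : Tr := .sp 0 1 2 3
  (.fk [4, 4, -5, -5] [4, -5, 4] [(2, 1), (5, 4), (6, 1), (8, 5), (11, 5), (39, 1)])
  (.lc 0 1 2 3)
  (.fk [-1, 1] [1] [(2, 1), (4, 1), (5, 1), (6, 1), (31, 1)])
  (.fk [1, 0, 0, -1] [1, 1, 1] [(0, 1), (8, 1), (34, 1), (35, 1), (37, 1)])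
  (.fk [-1, -1, -6, 6] [-1, 6, 6] [(2, 7), (6, 7), (9, 6), (31, 1), (34, 1), (35, 7)])
  (.fk [] [0, 1, 1] [(4, 1), (5, 1), (8, 1), (11, 1), (31, 1), (39, 1)])
  (.fk [-1, 1] [1] [(2, 1), (4, 1), (5, 1), (6, 1), (31, 1)])

def e693 : Tr := .sp 0 1 2 3
  (.fk [1, 3, -3] [3, 0, 1] [(2, 1), (4, 2), (5, 3), (8, 3), (9, 1), (30, 2), (37, 3)])
  (.fk [1] [0, -1] [(0, 1), (2, 1), (4, 1), (9, 1)])
  (.fk [-1, 1] [1] [(1, 1), (4, 1), (5, 1), (6, 1), (32, 1)])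
  (.fk [2, 0, -1, 1] [2, -1, -1] [(0, 2), (2, 3), (5, 1), (6, 1), (9, 3), (34, 2)])
  (.fk [0, 0, -1, 1] [0, 1, 1] [(6, 1), (9, 1), (32, 1), (35, 1)])
  (.fk [] [0, 1] [(1, 1), (4, 1), (39, 1)])
  (.fk [-1, 1] [1] [(1, 1), (4, 1), (5, 1), (6, 1), (32, 1)])

def e725 : Tr := .sp 0 1 2 3
  (.fk [] [1] [(3, 1), (6, 1), (30, 1)])
  (.fk [1] [0, -1] [(0, 1), (2, 1), (4, 1), (9, 1)])
  (.fk [-1, 1, 1, -1] [1, -1, 1] [(7, 1), (10, 1), (32, 1)])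
  (.fk [] [1] [(1, 1), (9, 1), (34, 1)])
  (.fk [] [1] [(3, 1), (6, 1), (30, 1)])
  (.fk [] [0, 1] [(1, 1), (4, 1), (39, 1)])
  (.fk [1] [0, -1] [(0, 1), (2, 1), (4, 1), (9, 1)])

def e732 : Tr := .sp 0 1 2 3
  (.fk [] [0, 1] [(2, 1), (10, 1), (37, 1)])
  (.fk [1] [1, -1] [(2, 1), (3, 1), (4, 1), (9, 1), (36, 1)])
  (.fk [-1, 1, 1, -1] [1, -1, 1] [(7, 1), (10, 1), (32, 1)])
  (.fk [-1, 2, -1, -2] [2, -1, 2] [(0, 1), (1, 3), (3, 2), (8, 3), (10, 3), (36, 1)])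
  (.fk [] [1] [(0, 1), (6, 1), (33, 1)])
  (.fk [] [0, 1] [(1, 1), (4, 1), (39, 1)])
  (.fk [] [0, 0, 1] [(2, 1), (10, 1), (37, 1)])

def e733 : Tr := .sp 0 1 2 3
  (.fk [] [0, 1] [(2, 1), (10, 1), (37, 1)])
  (.fk [1] [1, -1] [(2, 1), (3, 1), (4, 1), (9, 1), (36, 1)])
  (.fk [-1, 1, 1, -1] [1, -1, 1] [(7, 1), (10, 1), (32, 1)])
  (.fk [] [1] [(1, 1), (9, 1), (34, 1)])
  (.fk [0, 1, -1, 1] [3, 1, 1] [(4, 1), (6, 2), (9, 1), (30, 3), (32, 1), (33, 2)])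
  (.fk [] [0, 1] [(1, 1), (4, 1), (39, 1)])
  (.fk [] [0, 0, 1] [(2, 1), (10, 1), (37, 1)])

def e734 : Tr := .sp 0 1 2 3
  (.fk [] [0, 1] [(2, 1), (10, 1), (37, 1)])
  (.fk [1] [1, 0, -1] [(1, 1), (2, 2), (3, 1), (7, 1), (10, 1), (36, 1)])
  (.fk [-1, 1, 1, -1] [1, -1, 1] [(7, 1), (10, 1), (32, 1)])
  (.fk [-1, 5, -1, -5] [5, -1, 5] [(0, 1), (3, 5), (8, 6), (10, 6), (31, 6), (36, 1)])
  (.fk [] [1] [(0, 1), (6, 1), (33, 1)])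
  (.fk [1, -1, 1] [1, 4, 1] [(2, 1), (4, 3), (7, 1), (11, 1), (31, 3), (39, 4)])
  (.fk [] [0, 0, 1] [(2, 1), (10, 1), (37, 1)])

def e739 : Tr := .sp 0 1 2 3
  (.fk [3, 3, 0, -5] [3, -5, 3] [(2, 2), (5, 3), (6, 3), (7, 5), (11, 5), (39, 2)])
  (.fk [0, 1] [-1, 1] [(0, 1), (1, 1), (5, 1), (6, 1), (39, 1)])
  (.fk [0, 0, 1, -1] [1, 0, 1] [(0, 1), (3, 1), (7, 1), (10, 1), (35, 1), (39, 1)])
  (.fk [] [1] [(4, 1), (9, 1), (31, 1)])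
  (.fk [2, 0, 3, -3] [2, 2, -3] [(1, 2), (3, 2), (5, 3), (6, 5), (7, 5), (10, 5), (39, 3)])
  (.fk [-2, 0, 3] [0, 0, 3] [(2, 2), (5, 3), (6, 3), (7, 3), (11, 3), (30, 2), (31, 2)])
  (.fk [-1, 1] [1, 1] [(2, 1), (5, 1), (36, 1), (39, 1)])

def e742 : Tr := .sp 0 1 2 3
  (.fk [-2, 3] [3, 0, 3] [(0, 5), (5, 3), (6, 3), (9, 3), (31, 5), (32, 2)])
  (.fk [] [0, 1] [(1, 1), (4, 1), (39, 1)])
  (.fk [-1, 1, 1, -1] [1, -1, 1] [(7, 1), (10, 1), (32, 1)])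
  (.fk [] [1] [(4, 1), (9, 1), (31, 1)])
  (.fk [-1, 0, 1, -1] [5, -1, -1] [(0, 6), (3, 5), (5, 1), (6, 6), (31, 1), (39, 1)])
  (.fk [-2, -3, 3] [3, 0, 3] [(0, 5), (4, 3), (7, 3), (11, 3), (31, 2), (32, 2)])
  (.fk [-1, 1] [1, 1, 1] [(5, 1), (10, 1), (36, 1), (37, 1), (39, 1)])

def e746 : Tr := .sp 0 1 2 3
  (.fk [3, 3, 0, -5] [3, -5, 3] [(2, 2), (5, 3), (6, 3), (7, 5), (11, 5), (39, 2)])
  (.fk [-1, 2] [-1, 2] [(1, 1), (2, 1), (3, 1), (5, 2), (6, 1), (39, 2)])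
  (.fk [0, 1, 2, -2] [0, -1, 2] [(1, 1), (3, 1), (6, 2), (7, 2), (10, 2), (35, 1), (39, 1)])
  (.fk [-1, 5, -1, 1] [5, -1, -1] [(0, 1), (3, 5), (5, 6), (9, 6), (31, 6), (36, 1)])
  (.fk [1, 0, 1, -1] [1, 1, -1] [(1, 1), (5, 1), (6, 2), (7, 2), (10, 2), (33, 1), (39, 1)])
  (.fk [-3, 0, 2] [2, 0, 2] [(0, 5), (2, 3), (3, 2), (5, 2), (7, 2), (11, 2), (31, 3)])
  (.fk [-1, 1] [1, 1] [(2, 1), (5, 1), (36, 1), (39, 1)])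

def e747 : Tr := .sp 0 1 2 3
  (.fk [3, 3, 0, -5] [3, -5, 3] [(2, 2), (5, 3), (6, 3), (7, 5), (11, 5), (39, 2)])
  (.fk [-1, 2] [-1, 2] [(1, 1), (2, 1), (3, 1), (5, 2), (6, 1), (39, 2)])
  (.fk [0, 2, 2, -2] [-1, -2, 2] [(1, 2), (3, 3), (6, 3), (7, 2), (10, 2), (30, 1)])
  (.fk [-1, 6, -1, 1] [6, -1, -1] [(3, 6), (5, 7), (9, 7), (30, 1), (31, 7), (36, 1)])
  (.fk [1, 0, 1, -1] [1, 1, -1] [(1, 1), (5, 1), (6, 2), (7, 2), (10, 2), (33, 1), (39, 1)])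
  (.fk [-2, 0, 3] [3, 0, 3] [(2, 2), (3, 3), (5, 3), (7, 3), (11, 3), (30, 5), (31, 2)])
  (.fk [-1, 1] [1, 1] [(2, 1), (5, 1), (36, 1), (39, 1)])

def e750 : Tr := .sp 0 1 2 3
  (.fk [-1, 5] [-1, 0, 5] [(3, 6), (5, 5), (9, 5), (31, 6), (32, 1), (36, 1)])
  (.fk [-1, 3] [-1, 3] [(1, 2), (3, 2), (5, 3), (6, 1), (32, 1), (39, 3)])
  (.fk [0, 1, 2, -2] [0, -1, 2] [(1, 1), (3, 1), (6, 2), (7, 2), (10, 2), (35, 1), (39, 1)])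
  (.fk [-1, 5, -1, 1] [5, -1, -1] [(0, 1), (3, 5), (5, 6), (9, 6), (31, 6), (36, 1)])
  (.fk [1, 0, 1, -1] [1, 1, -1] [(1, 1), (5, 1), (6, 2), (7, 2), (10, 2), (33, 1), (39, 1)])
  (.fk [-1, 0, 1] [1, 0, 1] [(0, 2), (3, 1), (5, 1), (7, 1), (11, 1), (31, 1), (32, 1)])
  (.fk [-1, 2] [1, 2] [(1, 1), (3, 1), (5, 2), (32, 1), (36, 1), (39, 2)])

def e755 : Tr := .sp 0 1 2 3
  (.fk [3, 3, 0, -5] [3, -5, 3] [(2, 2), (5, 3), (6, 3), (7, 5), (11, 5), (39, 2)])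
  (.fk [0, 1] [-1, 1] [(0, 1), (1, 1), (5, 1), (6, 1), (39, 1)])
  (.fk [-4, 3, 3, -3] [3, -3, 3] [(2, 4), (7, 3), (10, 3), (30, 1), (31, 1)])
  (.fk [1, 0, 1, -1] [3, 1, 1] [(0, 1), (6, 1), (9, 2), (31, 2), (34, 3), (35, 1)])
  (.fk [-1, 6, 1, -1] [6, -1, -1] [(4, 6), (5, 7), (6, 7), (30, 7), (31, 1), (39, 1)])
  (.fk [-1, 1, 1] [-1, 0, 1] [(2, 1), (4, 1), (5, 2), (6, 2), (7, 1), (11, 1), (31, 1)])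
  (.fk [-1, 2] [2] [(0, 1), (2, 1), (4, 2), (5, 2), (31, 1), (36, 2)])

def e757 : Tr := .sp 0 1 2 3
  (.fk [-1, 5] [5, 0, -1] [(4, 6), (5, 5), (6, 5), (30, 6), (32, 1), (39, 1)])
  (.fk [0, 1] [-1] [(0, 1), (4, 1), (5, 1), (6, 1)])
  (.fk [-1, 2] [2] [(0, 1), (1, 1), (4, 2), (5, 2), (32, 1), (36, 2)])
  (.fk [] [1] [(1, 1), (9, 1), (34, 1)])
  (.fk [-1, 5, 1, -1] [5, -1, -1] [(1, 1), (4, 5), (5, 6), (6, 6), (30, 6), (39, 1)])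
  (.fk [-1, 1, 1] [-1, 0, 1] [(1, 1), (4, 1), (5, 2), (6, 2), (7, 1), (11, 1), (32, 1)])
  (.fk [-1, 2] [2] [(0, 1), (1, 1), (4, 2), (5, 2), (32, 1), (36, 2)])

def e923 : Tr := .sp 0 1 2 3
  (.fk [0, 0, 1] [-1] [(0, 1), (3, 1), (7, 1), (8, 1)])
  (.fk [-1, 0, 4] [4, 0, -1] [(3, 4), (7, 5), (8, 4), (10, 1), (30, 5), (31, 1)])
  (.fk [-1, 0, 2] [2] [(0, 1), (2, 1), (7, 2), (8, 2), (31, 1), (33, 2)])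
  (.fk [1, 0, 0, -1] [1, 1] [(0, 1), (11, 1), (34, 1), (37, 1)])
  (.fk [-2, 1, 2, 1] [-2, 1, 1] [(2, 3), (3, 3), (4, 1), (7, 3), (8, 3), (9, 1), (31, 2)])
  (.fk [-1, 1, 4, -1] [4, -1, -1] [(2, 1), (3, 5), (7, 4), (8, 5), (10, 1), (30, 5)])
  (.fk [-1, 0, 2] [2] [(0, 1), (2, 1), (7, 2), (8, 2), (31, 1), (33, 2)])

def e924 : Tr := .sp 0 1 2 3
  (.fk [-1, 0, 1] [-1, 1] [(1, 1), (3, 1), (8, 1), (10, 1)])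
  (.fk [3, -4, 3] [3, -4] [(1, 1), (2, 3), (5, 4), (7, 3), (8, 3), (9, 4), (33, 1)])
  (.fk [-1, 1, 1, -1] [1, -1, 1] [(7, 1), (10, 1), (32, 1)])
  (.fk [-1, 2, 0, -2] [2, -1, 2] [(0, 1), (1, 3), (3, 2), (7, 1), (10, 3), (38, 2)])
  (.fk [-3, 2, 3, 2] [-3, 2, 2] [(1, 3), (3, 5), (4, 2), (7, 5), (8, 5), (9, 2), (32, 5)])
  (.fk [-1, 1, 2, -1] [2, -1, -1] [(0, 3), (3, 3), (7, 2), (8, 3), (10, 1), (32, 1)])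
  (.fk [-2, 0, 2] [2, 0, 1] [(1, 2), (7, 1), (8, 2), (10, 1), (32, 1), (33, 2)])

def e925 : Tr := .sp 0 1 2 3
  (.fk [-1, 0, 3] [-3, 3, -1] [(0, 2), (2, 2), (3, 3), (4, 1), (8, 3), (10, 3), (39, 1)])
  (.fk [3, -4, 3] [3, -4] [(1, 1), (2, 3), (5, 4), (7, 3), (8, 3), (9, 4), (33, 1)])
  (.fk [-1, 0, 2] [2] [(0, 1), (1, 1), (7, 2), (8, 2), (32, 1), (33, 2)])
  (.fk [] [1] [(1, 1), (9, 1), (34, 1)])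
  (.fk [-3, 2, 3, 2] [-3, 2, 2] [(1, 3), (3, 5), (4, 2), (7, 5), (8, 5), (9, 2), (32, 5)])
  (.fk [-1, 1, 5, -1] [5, -1, -1] [(3, 6), (7, 5), (8, 6), (10, 1), (30, 6), (32, 1)])
  (.fk [-1, 0, 2] [2] [(0, 1), (1, 1), (7, 2), (8, 2), (32, 1), (33, 2)])

def e926 : Tr := .sp 0 1 2 3
  (.fk [] [0, 1] [(2, 1), (10, 1), (37, 1)])
  (.fk [4, -5, 4] [4, -5] [(2, 4), (5, 5), (7, 4), (8, 4), (9, 5), (31, 1), (33, 1)])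
  (.fk [-1, 1, 1, -1] [1, -1, 1] [(7, 1), (10, 1), (32, 1)])
  (.fk [0, 1, 0, -1] [1, 0, 1] [(3, 1), (10, 1), (31, 1), (38, 1)])
  (.fk [-1, 1, 1, 1] [-1, 1, 1] [(3, 2), (4, 1), (7, 2), (8, 2), (9, 1), (31, 1), (32, 2)])
  (.fk [-1, 1, 2, -1] [2, -1, -1] [(0, 3), (3, 3), (7, 2), (8, 3), (10, 1), (32, 1)])
  (.fk [-1, 0, 1] [1, 0, 1] [(8, 1), (10, 1), (31, 1), (33, 1)])

def e941 : Tr := .sp 0 1 2 3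
  (.fk [-2, 3] [-2, 0, 3] [(1, 5), (3, 5), (5, 3), (6, 2), (9, 3), (32, 2)])
  (.fk [1, -1, 1] [1, -1] [(2, 1), (7, 1), (8, 1), (9, 1), (35, 1)])
  (.fk [-1, 1, 1] [1, -1] [(5, 1), (7, 1), (8, 1), (9, 1), (32, 1)])
  (.fk [-1, 2, -1, 1] [2, -1, -1] [(1, 3), (3, 2), (5, 3), (6, 1), (9, 3), (30, 1)])
  (.fk [-1, 0, 1, 2] [-1, 2, 2] [(1, 1), (3, 1), (7, 3), (8, 3), (9, 2), (32, 3), (35, 2)])
  (.fk [-1, 1, 5, -1] [5, -1, -1] [(3, 6), (7, 5), (8, 6), (10, 1), (30, 6), (32, 1)])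
  (.fk [-2, 1, 2] [2, 1] [(1, 1), (5, 1), (7, 2), (8, 2), (32, 2), (33, 1), (39, 1)])

def e942 : Tr := .sp 0 1 2 3
  (.fk [-1, 4] [-1, 0, 4] [(3, 5), (5, 4), (6, 1), (9, 4), (31, 5), (32, 1)])
  (.fk [1, -1, 1] [1, -1] [(2, 1), (7, 1), (8, 1), (9, 1), (35, 1)])
  (.fk [-1, 1, 1] [1, -1] [(5, 1), (7, 1), (8, 1), (9, 1), (32, 1)])
  (.fk [] [1] [(4, 1), (9, 1), (31, 1)])
  (.fk [-1, 0, 1, 3] [-1, 3, 3] [(3, 1), (7, 4), (8, 4), (9, 3), (31, 1), (32, 4), (35, 3)])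
  (.fk [-1, 1, 2, -1] [2, -1, -1] [(0, 3), (3, 3), (7, 2), (8, 3), (10, 1), (32, 1)])
  (.fk [-3, 2, 3] [3, 2] [(5, 2), (7, 3), (8, 3), (31, 1), (32, 3), (33, 1), (39, 2)])

def e1755 : Tr := .sp 0 1 2 3
  (.fk [1] [0, -1, 1] [(0, 1), (7, 1), (9, 1), (10, 1), (34, 1)])
  (.fk [] [0, 0, 1] [(2, 1), (10, 1), (37, 1)])
  (.fk [-1, 1, 1, -1] [1, -1, 1] [(2, 1), (7, 1), (40, 1)])
  (.fk [6, -1, -1, 1] [6, 6, -1] [(0, 6), (9, 7), (10, 7), (33, 1), (34, 7), (36, 1), (37, 7)])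
  (.fk [1, 1, -1, 1] [6, 1, 1] [(1, 1), (4, 1), (6, 5), (9, 1), (30, 5), (33, 5)])
  (.fk [-2, -3, 3, 3] [3, 3, 3] [(2, 2), (7, 3), (10, 3), (30, 5), (31, 5)])
  (.fk [1] [0, 0, -1] [(0, 1), (1, 1), (7, 1), (10, 1)])

def e1771 : Tr := .sp 0 1 2 3
  (.fk [3, 3, 0, -5] [3, -5, 3] [(2, 2), (5, 3), (6, 3), (7, 5), (11, 5), (39, 2)])
  (.fk [] [0, 0, 1] [(2, 1), (10, 1), (37, 1)])
  (.fk [0, 1, 1, -1] [0, -1, 1] [(1, 1), (3, 1), (6, 1), (7, 1), (40, 1)])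
  (.fk [5, -2, -2, 2] [5, 5, -2] [(0, 5), (4, 7), (9, 7), (10, 7), (33, 2), (36, 2), (37, 7)])
  (.fk [3, 0, 1, -1] [3, 3, -1] [(1, 3), (5, 1), (6, 4), (7, 4), (33, 3), (39, 1), (40, 4)])
  (.fk [-2, -3, 3, 3] [3, 3, 3] [(2, 2), (7, 3), (10, 3), (30, 5), (31, 5)])
  (.fk [-1, 1] [1, 1] [(2, 1), (5, 1), (36, 1), (39, 1)])

def e1774 : Tr := .sp 0 1 2 3
  (.fk [-1, 5] [-1, 0, 5] [(3, 6), (5, 5), (9, 5), (31, 6), (32, 1), (36, 1)])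
  (.fk [-1, 3] [-1, 3] [(1, 2), (3, 2), (5, 3), (6, 1), (32, 1), (39, 3)])
  (.fk [0, 1, 1, -1] [0, -1, 1] [(1, 1), (3, 1), (6, 1), (7, 1), (40, 1)])
  (.fk [-1, 5, -1, 1] [5, -1, -1] [(0, 1), (3, 5), (5, 6), (9, 6), (31, 6), (36, 1)])
  (.fk [] [1] [(0, 1), (6, 1), (33, 1)])
  (.fk [-1, -1, 1, 1] [1, 1, 1] [(0, 2), (7, 1), (10, 1), (31, 2), (32, 1)])
  (.fk [-1, 2] [1, 2] [(1, 1), (3, 1), (5, 2), (32, 1), (36, 1), (39, 2)])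

def e1902 : Tr := .sp 0 1 2 3
  (.fk [-1, 5] [-1, 0, 5] [(3, 6), (5, 5), (9, 5), (31, 6), (32, 1), (36, 1)])
  (.fk [-1, 0, 5] [-1, 0, 5] [(6, 6), (8, 5), (10, 5), (31, 1), (32, 6), (33, 1)])
  (.fk [1, -1, 0, 1] [-1, 1, -1] [(2, 1), (6, 1), (8, 1), (10, 1)])
  (.fk [-1, 5, -1, 1] [5, -1, -1] [(0, 1), (3, 5), (5, 6), (9, 6), (31, 6), (36, 1)])
  (.fk [-1, 0, 1, 2] [0, -1, 2] [(0, 1), (6, 1), (8, 3), (9, 2), (10, 3), (31, 1), (35, 2)])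
  (.fk [-1, 1, 0, 2] [0, -1, 2] [(0, 1), (3, 1), (5, 3), (9, 3), (10, 2), (32, 1), (38, 2)])
  (.fk [-5, 3, 3] [3, 3, 3] [(0, 2), (5, 3), (8, 3), (31, 2), (32, 2), (39, 3), (40, 3)])

def e1909 : Tr := .sp 0 1 2 3
  (.fk [-1, 5] [5, 0, -1] [(4, 6), (5, 5), (6, 5), (30, 6), (32, 1), (39, 1)])
  (.fk [-1, 0, 3] [-1, 0, 3] [(1, 1), (3, 1), (6, 4), (8, 3), (10, 3), (32, 4)])
  (.fk [-1, 0, 0, 3] [0, 3, -3] [(1, 4), (4, 3), (5, 3), (8, 3), (10, 3), (30, 1), (32, 1)])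
  (.fk [2, -3, 2, 3] [2, 2, -3] [(0, 2), (3, 3), (6, 2), (8, 5), (9, 5), (10, 5), (34, 5)])
  (.fk [-1, 5, 1, -1] [5, -1, -1] [(1, 1), (4, 5), (5, 6), (6, 6), (30, 6), (39, 1)])
  (.fk [-2, 0, 0, 3] [0, 3, 3] [(1, 5), (4, 3), (5, 3), (10, 3), (30, 2), (32, 2), (38, 3)])
  (.fk [-5, 3, 3] [3, 0, 3] [(1, 5), (4, 3), (5, 3), (8, 3), (30, 2), (32, 2), (40, 3)])

/-- The excluded patterns of four points. -/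
def EX : List (ℕ × Tr) := [(0, e0), (1, e1), (3, e3), (9, e9), (10, e10), (12, e12), (13, e13),
    (14, e14), (28, e28), (29, e29), (46, e46), (73, e73), (74, e74), (78, e78), (82, e82), (83,
    e83), (84, e84), (85, e85), (86, e86), (92, e92), (93, e93), (94, e94), (102, e102), (110,
    e110), (118, e118), (150, e150), (156, e156), (157, e157), (158, e158), (162, e162), (163,
    e163), (171, e171), (173, e173), (174, e174), (179, e179), (222, e222), (235, e235), (238,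
    e238), (245, e245), (246, e246), (586, e586), (588, e588), (590, e590), (604, e604), (605,
    e605), (622, e622), (649, e649), (651, e651), (665, e665), (668, e668), (669, e669), (670,
    e670), (673, e673), (675, e675), (677, e677), (682, e682), (683, e683), (684, e684), (685,
    e685), (686, e686), (691, e691), (693, e693), (725, e725), (732, e732), (733, e733), (734,
    e734), (739, e739), (742, e742), (746, e746), (747, e747), (750, e750), (755, e755), (757,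
    e757), (923, e923), (924, e924), (925, e925), (926, e926), (941, e941), (942, e942), (1755,
    e1755), (1771, e1771), (1774, e1774), (1902, e1902), (1909, e1909)]

theorem EX_ok : (EX.all fun x => ck x.1 4095 x.2 []) = true := by decide +kernel

end Pool.Agent.MP_0af329_co.Q5
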