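import Pool.Agent.MP_0af329_co.QCrt2

/-!
# Certificates for the excluded patterns of five points
-/

set_option autoImplicit false

namespace Pool.Agent.MP_0af329_co.Q5

def n0 : Tr := .sp 0 1 3 4
  (.sp 0 1 2 4
  (.sp 0 1 2 3
  (.sp 0 2 3 4
  (.fk [-2, 0, 0, 0, -2] [12, 0, -1, 0, 0, 1, 0, 0, -2, 1, -2] [(6, 12), (10, 1), (15, 14), (19,
    1), (21, 12), (44, 2), (48, 2), (57, 1)])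
  (.fk [0, 2, 0, 0, 0, 0, 0, 0, -2] [1, 0, 0, 0, 1, 0, 0, 0, -1, 0, 0, 0, 1, -2, 2] [(13, 2),
    (22, 2), (56, 2)])
  (.fk [-2, 0, 0, 0, 0, 2, 0, 2, 0, -2] [1, 0, 2, 0, -1, 0, 0, 0, -1, 2, 0, 0, 1] [(1, 2), (19,
    2), (21, 2), (22, 2), (57, 2), (58, 2)])
  (.fk [-2, -2, 5, 0, 0, 3, 0, 3, 0, -5] [3, 5, 3, -5, 2, -2, 0, -3, 0, 0, 0, 3] [(0, 6), (5, 2),
    (10, 2), (21, 6), (39, 2), (52, 2), (57, 2), (59, 2)])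
  (.fk [-10, 0, 12, 0, 0, -2, -2, 2, 0, -2] [7, 12, -2, -5, 12, 0, 0, -5, -2, 0, 0, 5] [(1, 10),
    (10, 12), (15, 14), (21, 14), (22, 14), (48, 2), (50, 2), (57, 2), (58, 14)])
  (.fk [] [1, 0, 0, -1, 0, 0, 0, -1, 0, 0, 0, 1] [(0, 2), (6, 2)])
  (.fk [] [1, 0, 0, -1, 0, 0, 0, -1, 0, 0, 0, 1] [(0, 2), (15, 2)]))
  (.fk [-1, 0, -1] [5, 0, -1, 0, -6, 0, 0, 0, 6] [(1, 1), (6, 6), (10, 1), (15, 6), (21, 6), (33,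
    1), (38, 1)])
  (.fk [] [1] [(0, 1), (6, 1), (33, 1)])
  (.fk [2, 3, 0, -3, -1] [3, 2, 3, -4, 0, -1, 0, 3] [(0, 6), (10, 1), (15, 4), (21, 3), (37, 2),
    (38, 3), (44, 1), (48, 1)])
  (.fk [0, 0, -1] [0, 1, 1, 0, 1] [(5, 1), (6, 1), (10, 1), (19, 1), (41, 1), (46, 1)])
  (.fk [] [1, 0, 0, -2, 0, 0, 0, 2] [(0, 1), (6, 1), (15, 2), (21, 2), (33, 1)])
  (.fk [0, 1, 0, 0, 0, 0, 0, 0, -1] [1, 0, 0, 0, 0, 0, 0, 0, -1, 1] [(0, 1), (6, 1), (13, 1),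
    (22, 1), (56, 1)]))
  (.fk [] [1, 0, 0, 0, 1] [(15, 1), (21, 1), (30, 1), (33, 1)])
  (.fk [] [1] [(0, 1), (15, 1), (42, 1)])
  (.fk [1, 3, 0, 0, 1, 0, -1, 0, -3] [1, 1, 1, 3, -3, 3] [(0, 1), (13, 3), (21, 3), (22, 3), (42,
    2), (46, 1), (47, 1), (56, 3)])
  (.fk [0, 1, 0, 0, 1, -1, 0, 0, -1] [0, 1, 1, 1, -1, 1] [(15, 1), (19, 1), (21, 1), (22, 1),
    (32, 1), (50, 1), (56, 1)])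
  (.fk [0, 1, 0, 0, 0, 0, 0, 0, -1] [1, 1, 0, 1, -1, 1] [(1, 1), (15, 1), (21, 1), (22, 1), (30,
    1), (48, 1), (56, 1)])
  (.fk [] [1] [(0, 1), (15, 1), (42, 1)]))
  (.sp 0 1 2 3
  (.fk [0, 0, 0, -1] [0, 0, 1, 0, 0, 1] [(1, 1), (10, 1), (13, 1), (24, 1), (41, 1)])
  (.fk [0, -1] [1, 0, 0, 0, 0, 1] [(5, 1), (6, 1), (13, 1), (24, 1), (30, 1)])
  (.fk [] [1] [(0, 1), (6, 1), (33, 1)])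
  (.fk [1, 0, 0, -1] [1, 1, 1, 0, 1, -1] [(0, 1), (13, 1), (22, 1), (24, 1), (37, 1), (38, 1),
    (55, 1)])
  (.sp 0 1 2 4
  (.fk [1, 0, -1, 0, 0, 0, -1] [0, 0, 1, 0, 0, 1, 1] [(0, 1), (5, 1), (6, 1), (10, 1), (13, 1),
    (19, 1), (41, 1), (50, 1)])
  (.sp 0 2 3 4
  (.fk [0, 0, 0, -1, 0, 0, -1] [8, 0, -1, 0, 0, 0, 1, 0, 0, -1] [(6, 8), (15, 8), (21, 8), (39,
    1), (41, 1), (48, 1), (50, 1), (57, 1)])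
  (.fk [0, -2] [1, 0, 0, 0, 1, 0, 0, 0, -1, 0, 0, -1, 2] [(5, 2), (6, 2), (13, 2), (24, 2)])
  (.fk [0, -2] [1, 0, 0, 0, 1, 0, 0, 0, -1, 0, 0, -1, 2] [(5, 2), (13, 2), (15, 2), (24, 2)])
  (.fk [8, -10, -1, 0, 0, 9, -10, 9, 0, -9] [-1, 9, 9, 9, -10, 10, 0, -1, 0, 10, -9, 10] [(1, 2),
    (5, 20), (6, 2), (21, 18), (24, 10), (32, 2), (41, 10), (50, 10), (57, 10)])
  (.fk [0, -2, 0, -2, 0, -2, 0, 2, 0, -2] [21, -2, -2, 1, 0, 0, 0, -1, 0, -2, -1] [(6, 22), (10,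
    2), (15, 24), (21, 24), (34, 2), (39, 2), (46, 2), (57, 2)])
  (.fk [0, -2, 2, -2, 0, -4, 0, 4] [5, 3, 4, 1, 0, -1, 0, -1, 1, -2, -1, 2] [(6, 4), (10, 3),
    (13, 2), (19, 1), (22, 4), (24, 2), (39, 2), (57, 3), (59, 4)])
  (.fk [0, -2] [1, 0, 0, 1, 0, 0, 0, -1, 0, 0, -1, 2] [(5, 2), (13, 2), (15, 2), (24, 2)]))
  (.fk [1, -1, -1] [0, 1, 0, 0, -1, 1, 1, 0, 1] [(0, 2), (5, 2), (6, 2), (10, 1), (24, 1), (41,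
    1), (48, 1)])
  (.fk [0, -1, 0, 0, 1, 0, -1] [1, 0, 1, 0, 0, 0, -1, 1] [(1, 1), (5, 1), (13, 1), (19, 1), (21,
    1), (24, 1), (47, 1)])
  (.fk [0, -1, 0, 0, 1, -1] [1, 1, 1, -1, 0, 0, 0, 1] [(5, 1), (6, 1), (19, 1), (24, 1), (32, 1),
    (50, 1)])
  (.fk [1, -3, -1] [2, 3, 0, -1, 1, 1, -2, 3] [(1, 2), (5, 4), (6, 2), (10, 1), (15, 2), (21, 2),
    (24, 3), (41, 1), (48, 3)])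
  (.fk [] [1, 0, 0, -1, 0, 0, 1] [(0, 2), (6, 1), (15, 1), (51, 1)]))
  (.fk [0, -1] [1, 0, 0, 0, 1] [(5, 1), (6, 1), (13, 1), (24, 1), (30, 1)])
  (.fk [-1] [1, 1, 1, 0, 1] [(6, 1), (10, 1), (13, 1), (24, 1), (33, 1), (37, 1), (39, 1)]))
  (.fk [0, -1, 0, 0, 1, 0, 0, 1, -1] [1, -1, 1] [(5, 1), (22, 1), (55, 1)])
  (.fk [0, -1, 0, 0, -1, 0, 0, 6, -6] [-1, 6, 6] [(5, 7), (21, 6), (24, 7), (33, 1), (42, 1),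
    (44, 7)])
  (.fk [] [0, 1] [(5, 1), (22, 1), (55, 1)])
  (.fk [0, 0, 0, 0, -1, 0, 0, 1] [1, 1, 1] [(22, 1), (24, 1), (33, 1), (34, 1), (56, 1)])
  (.sp 0 1 2 3
  (.fk [0, 0, 0, -1] [0, 0, 1, 0, 0, 1] [(1, 1), (10, 1), (13, 1), (24, 1), (41, 1)])
  (.fk [0, -1] [1, 0, 0, 0, 0, 1] [(5, 1), (6, 1), (13, 1), (24, 1), (30, 1)])
  (.fk [] [1, 0, 0, 0, 1] [(0, 1), (6, 1), (42, 1), (51, 1)])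
  (.fk [3, 0, 0, -5] [3, 5, 5, 0, 3] [(0, 3), (5, 5), (13, 3), (24, 3), (32, 2), (37, 5), (38,
    5), (39, 2)])
  (.sp 0 1 2 4
  (.fk [1, 0, -1, 0, 0, 0, -1] [-1, 0, 1, 0, 1, 1, 1, 1] [(0, 1), (5, 1), (10, 1), (13, 1), (15,
    1), (19, 1), (41, 1), (50, 1), (51, 1)])
  (.fk [0, -2] [1, 0, 0, 0, -1, 0, 0, 1, 2] [(5, 2), (6, 1), (13, 2), (15, 1), (24, 2), (51, 1)])
  (.fk [1, -1, -1] [0, 1, 0, 0, -1, 1, 1, 0, 1] [(0, 2), (5, 2), (6, 2), (10, 1), (24, 1), (41,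
    1), (48, 1)])
  (.fk [7, -2, -7, -2, 7, 0, -7] [7, 0, 7, 7, 7, -2, 9] [(10, 9), (19, 7), (34, 2), (38, 9), (39,
    2), (42, 2), (47, 7), (51, 9)])
  (.fk [0, -1, 0, 0, 1, -1] [0, 1, 1, 0, 0, 0, 1, 1] [(5, 1), (15, 1), (19, 1), (24, 1), (32, 1),
    (50, 1), (51, 1)])
  (.fk [4, -4, -4, -1] [4, 4, 0, 0, 4, -1, 4, 4] [(5, 3), (6, 4), (10, 5), (15, 4), (24, 4), (38,
    5), (39, 1), (48, 4), (51, 4)])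
  (.fk [0, 0, -1] [0, 0, 1, 0, 1, 1] [(5, 1), (6, 1), (10, 1), (19, 1), (41, 1), (46, 1)]))
  (.fk [0, -1] [1, 0, 0, 0, 1] [(5, 1), (6, 1), (13, 1), (24, 1), (30, 1)])
  (.fk [-1] [1, 1, 1, 1, 1] [(6, 1), (10, 1), (13, 1), (24, 1), (37, 1), (39, 1), (42, 1), (51,
    1)]))

theorem n0_ok : ck 6291457 23635043 n0 [] = true := by decide +kernel

def n1 : Tr := .sp 0 1 2 3
  (.sp 0 1 2 4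
  (.sp 0 1 3 4
  (.sp 0 2 3 4
  (.fk [2, -2, 0, 0, 0, -2, -2] [5, 0, 0, 0, -5, 0, -2, 0, 7, -2, 2, 0, 5] [(0, 10), (3, 2), (5,
    2), (12, 2), (47, 2), (50, 2), (54, 2)])
  (.fk [-1] [1, 1, 0, 0, 1, 0, 0, 0, -1, 0, 0, 0, 1, 1] [(0, 1), (3, 2), (16, 1), (31, 1), (40,
    1), (57, 1)])
  (.fk [2, 0, 0, -2, 0, -2, -2] [7, 0, 0, 0, 7, 0, 0, 0, 9, -2, 0, 0, -7, 0, 2] [(12, 16), (34,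
    2), (40, 2), (41, 2), (47, 2), (48, 2), (50, 2)])
  (.sp 1 2 3 4
  (.fk [] [1, 0, 0, 0, 0, 0, 0, 0, 0, -1, 0, 0, 0, 1, 0, 0, 0, 1] [(31, 2)])
  (.fk [-1, 0, 0, 0, -1] [0, 2, 0, 0, 2, 0, 0, 0, 0, 0, 0, 0, -2, -1, 0, 0, 2] [(0, 1), (2, 1),
    (7, 4), (12, 1), (14, 1), (48, 1)])
  (.fk [-2] [3, 1, 0, 0, -1, 0, 0, 0, 0, 3, 0, 0, 1, 3, 0, 0, 1, -3] [(0, 2), (13, 6), (31, 2),
    (40, 2), (57, 2)])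
  (.fk [-2, -2, 1, 1, -2, 1, 1, 1, 1, -2] [0, 1, 1, 2, 1, 1, -1, 0, -1, 0, -1, 1, -1, 0, -1, 1,
    -1] [(5, 2), (7, 2), (14, 2), (16, 2)])
  (.fk [-2, 0, -1, 0, -2, 1, 2, 1, -2, 1] [1, 2, 2, -1, 1, 1, -1, 0, 1, 0, -1, 2, -1, 0, 1, 0,
    -1] [(0, 2), (9, 2), (13, 2), (14, 2), (38, 2), (41, 2)])
  (.fk [0, -1, -1, 0, 0, 0, -1, 0, 1, 1] [0, 1, 1, 0, -1, 0, 0, 1, -1, 0, 0, 0, 1, 0, 1] [(0, 1),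
    (3, 2), (7, 1), (31, 1), (40, 1)])
  (.fk [0, 0, 0, -2] [0, 3, 0, 3, 0, 0, 0, 0, 0, 0, 0, -1, 0, 0, 0, 1] [(7, 4), (9, 2), (16, 2),
    (41, 2), (49, 2)]))
  (.fk [1, 0, -1, -1, -1] [3, 0, 0, -4, 0, -1, 0, 3, 0, 0, 0, 4, -1, 1] [(0, 6), (14, 1), (21,
    1), (38, 1), (41, 1), (54, 1)])
  (.fk [0, 0, 2, 0, 0, -2] [1, 2, 0, 1, 0, 0, 0, 1, 0, 0, 0, -1] [(8, 2), (12, 2), (47, 2), (57,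
    2)])
  (.fk [1, 0, -1, 0, 0, 0, -1] [1, 1, 0, 1, 0, 0, 0, 1, -1, 1] [(3, 1), (12, 2), (13, 1), (38,
    1), (50, 1), (57, 1)]))
  (.fk [0, 0, 0, 0, 0, -1] [1, 0, 0, 0, 1] [(0, 1), (3, 1), (16, 1), (21, 1), (47, 1)])
  (.fk [0, 0, -1] [1, 0, 0, 0, 0, 0, 0, 0, 1] [(0, 1), (7, 1), (12, 1), (21, 1), (38, 1)])
  (.fk [0, 1, -1, 0, 1, -1, 0, 0, -1] [1, 1, 1, 1, 0, 0, 0, 1] [(0, 2), (7, 1), (16, 1), (38, 1),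
    (47, 1), (52, 1), (53, 1)])
  (.fk [0, 0, 0, 0, 0, 0, 0, -1] [1, 1, 1] [(3, 1), (5, 1), (12, 1), (14, 1), (55, 1), (56, 1)])
  (.fk [0, 0, 0, 0, 0, -1] [1, 0, 0, 1] [(0, 1), (3, 1), (16, 1), (21, 1), (47, 1)])
  (.fk [0, 0, -1] [1, 0, 0, 0, 0, 0, 0, 1] [(0, 1), (7, 1), (12, 1), (21, 1), (38, 1)]))
  (.fk [0, 0, 0, 0, -1] [1] [(0, 1), (13, 1), (14, 1), (15, 1)])
  (.fk [0, 0, -1] [1, 0, 0, 0, 1] [(3, 1), (7, 1), (12, 1), (15, 1), (38, 1)])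
  (.fk [1, -1, -1, 0, 0, 0, -2] [2, 2, 2, 1, 1, -1] [(3, 2), (5, 1), (7, 2), (9, 1), (13, 2),
    (14, 2), (16, 2), (38, 1), (40, 1), (47, 2)])
  (.fk [0, 0, 0, 0, 0, -1] [1, 1, 1] [(0, 1), (2, 1), (12, 1), (14, 1), (49, 1), (50, 1)])
  (.fk [0, 0, 0, 0, -1] [1] [(0, 1), (13, 1), (14, 1), (15, 1)])
  (.fk [0, 0, -1] [1, 0, 0, 1] [(3, 1), (7, 1), (12, 1), (15, 1), (38, 1)]))
  (.fk [1, -1, 1, -1] [1, -1, 1] [(5, 1), (8, 1), (41, 1)])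
  (.sp 0 1 2 4
  (.fk [0, 0, 0, 0, 0, -1] [1, 0, 0, 0, 1] [(3, 1), (6, 1), (12, 1), (16, 1), (47, 1)])
  (.fk [0, -1] [0, 1, 0, 0, 0, 1] [(3, 1), (5, 1), (9, 1), (13, 1), (48, 1)])
  (.sp 0 1 3 4
  (.sp 1 2 3 4
  (.fk [] [-1, 0, 0, 0, 0, 0, 1, 0, 0, 1, 0, 0, 0, 1] [(31, 2)])
  (.fk [-2, 4, 0, 0, 0, 0, 0, -2, 0, -2] [3, 0, 2, 0, 2, -2, 3, 0, 0, 3, 0, 0, 2, -1, 2] [(2, 2),
    (6, 2), (9, 2), (12, 2), (31, 4), (38, 2), (53, 2), (57, 2), (59, 2)])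
  (.fk [-1, 0, 0, 0, 1, 0, -1] [1, 1, 0, 0, 0, 0, 1, 0, 1, -2, 1, 0, 0, 1] [(2, 1), (13, 2), (15,
    1), (40, 1), (47, 1), (57, 1)])
  (.fk [0, 0, 0, 1, 0, 0, 1, 0, -1, -1] [1, 1, 1, 0, 0, 1, 0, 0, 1, 0, 0, 0, 1] [(31, 2), (55,
    2), (56, 2)])
  (.fk [-1, 0, 0, 0, 1, 0, 0, 0, -1] [1, 1, 1, 0, 0, 0, 0, 1, -1, 1, 0, 0, 0, 1] [(2, 1), (5, 1),
    (9, 1), (15, 1), (38, 1), (47, 1), (58, 1), (59, 1)])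
  (.fk [-1, -1, 0, 1, 1, 0, -1] [1, 1, 0, 0, 0, 1, 0, 1, 0, 1, 0, 0, 2, -1] [(2, 1), (3, 1), (8,
    1), (9, 2), (15, 1), (31, 3), (47, 1), (57, 1)])
  (.fk [0, -2, 0, 0, 2, 0, -2, -2] [7, 0, 2, 2, -2, 7, 0, 0, -9, 2, 0, 0, 9, -4] [(3, 4), (8, 4),
    (9, 2), (13, 14), (41, 2), (47, 2), (49, 2), (53, 2), (58, 2)]))
  (.fk [-1] [1, 0, 0, 0, 1] [(2, 1), (3, 1), (15, 1), (21, 1), (31, 1)])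
  (.fk [-1] [1, 0, 0, 0, 0, 0, 0, 0, 1] [(2, 1), (6, 1), (12, 1), (21, 1), (31, 1)])
  (.fk [-2, 1, 0, 0, 1, 0, 0, 0, -1] [1, 1, 1, 1, 0, 0, 0, 1] [(2, 2), (6, 1), (15, 1), (31, 2),
    (52, 1), (53, 1)])
  (.fk [0, 0, 0, 0, 0, 0, 0, -1] [1, 1, 1] [(3, 1), (5, 1), (12, 1), (14, 1), (55, 1), (56, 1)])
  (.fk [-1] [1, 0, 0, 1] [(2, 1), (3, 1), (15, 1), (21, 1), (31, 1)])
  (.fk [-1] [1, 0, 0, 0, 0, 0, 0, 1] [(2, 1), (6, 1), (12, 1), (21, 1), (31, 1)]))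
  (.fk [0, 0, 0, 0, 0, 0, -1] [1, 1, 1] [(2, 1), (13, 1), (14, 1), (16, 1), (31, 1), (47, 1)])
  (.fk [0, 0, 0, 0, 0, -1] [1, 1, 0, 1] [(2, 1), (3, 1), (6, 1), (12, 1), (47, 1), (49, 1)])
  (.fk [0, 0, 0, 0, -1] [1, 1, 0, 1] [(3, 1), (6, 1), (14, 1), (15, 1), (31, 1), (48, 1)])
  (.fk [-1] [1, 1, 1] [(12, 1), (13, 1), (15, 1), (16, 1), (48, 1), (49, 1)]))
  (.fk [0, 0, 0, -1] [0, 1, 1] [(2, 1), (5, 1), (7, 1), (9, 1), (38, 1)])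
  (.fk [0, 0, -1] [1, 1, 1] [(0, 1), (2, 1), (3, 1), (5, 1), (40, 1), (41, 1)])
  (.fk [0, -1] [1, 1] [(0, 1), (5, 1), (6, 1), (9, 1), (31, 1)])
  (.fk [-1, 0, 1] [1, 0, 1] [(3, 1), (8, 1), (31, 1), (40, 1)])

theorem n1_ok : ck 256 2225133 n1 [] = true := by decide +kernel

def n2 : Tr := .sp 0 2 3 4
  (.sp 0 1 3 4
  (.fk [] [-1, 0, 0, 0, 1] [(3, 1), (6, 1), (12, 1), (15, 1)])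
  (.fk [0, 0, -1, 0, 0, -1] [6, 0, 0, 0, 6, 0, -1] [(6, 7), (12, 6), (15, 7), (33, 6), (38, 1),
    (47, 1), (57, 1)])
  (.fk [0, 0, 0, 0, -1] [4, 1, 0, 0, 4] [(3, 4), (6, 4), (15, 4), (34, 1), (42, 5), (44, 1), (54,
    1)])
  (.fk [0, 2, -1, 0, 2, -1, 0, 1, -2] [2, 2, 2, -1, 0, -1] [(3, 2), (12, 2), (38, 1), (47, 1),
    (52, 1), (53, 1), (57, 1)])
  (.fk [] [-1, 0, 0, 1] [(3, 1), (6, 1), (12, 1), (15, 1)])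
  (.fk [0, -1, 1, 0, 1, 0, 0, -1, -1, -1] [8, -1, -1, 9, -1, 1] [(6, 8), (12, 9), (15, 9), (33,
    9), (35, 1), (46, 1), (55, 1), (59, 1)])
  (.fk [0, -1] [3, 0, 0, 3] [(3, 2), (6, 3), (15, 3), (34, 1), (35, 1), (42, 3)]))
  (.sp 0 1 2 4
  (.fk [] [-1, 0, 0, 0, 1] [(0, 1), (6, 1), (12, 1), (21, 1)])
  (.fk [1, 0, 0, 0, -1, 0, -1] [3, -1, 1, 0, 3] [(6, 3), (12, 2), (21, 3), (30, 2), (44, 1), (46,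
    1), (50, 1)])
  (.fk [-1] [3, 0, 0, 0, 3] [(0, 2), (6, 3), (21, 3), (31, 1), (32, 1), (42, 3)])
  (.fk [3, 0, -2, 0, 3, 0, -3] [3, 3, 3, 0, 2] [(0, 3), (6, 2), (12, 3), (38, 2), (46, 5), (47,
    3), (57, 2)])
  (.fk [] [-1, 0, 0, 1] [(0, 1), (6, 1), (12, 1), (21, 1)])
  (.fk [-1] [4, 0, 0, 4] [(6, 4), (12, 4), (21, 4), (30, 5), (31, 1), (32, 1)])
  (.fk [-1] [3, 0, 0, 3] [(0, 2), (6, 3), (21, 3), (31, 1), (32, 1), (42, 3)]))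
  (.sp 0 1 2 3
  (.fk [] [-1, 0, 0, 0, 1] [(0, 1), (3, 1), (15, 1), (21, 1)])
  (.fk [-1, 0, 0, 0, 0, -1, 0, -1] [10, 0, -1, 0, 10, 1, -1] [(3, 10), (15, 11), (21, 11), (30,
    11), (31, 1), (40, 1), (52, 1), (57, 1), (59, 1)])
  (.fk [0, 0, -1] [2, 0, 0, 0, 3] [(0, 2), (15, 3), (21, 3), (33, 2), (37, 1), (38, 1)])
  (.fk [3, 3, 0, -3, 0, -2] [3, 3, 3, 0, 2] [(0, 3), (3, 3), (15, 2), (37, 5), (38, 3), (47, 2),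
    (57, 2)])
  (.fk [] [-1, 0, 0, 1] [(0, 1), (3, 1), (15, 1), (21, 1)])
  (.fk [-1] [4, 0, 0, 4] [(3, 4), (15, 4), (21, 4), (30, 5), (31, 1), (32, 1)])
  (.fk [-1] [3, 0, 0, 3] [(0, 2), (15, 3), (21, 3), (31, 1), (32, 1), (33, 3)]))
  (.sp 0 1 2 3
  (.sp 0 1 2 4
  (.fk [0, 0, 1, 0, 0, 1, 0, 0, 0, -1] [-1, 0, 0, 0, -1, 0, 0, 0, 1, 1, 1] [(0, 2), (3, 1), (12,
    1), (52, 1), (53, 1)])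
  (.fk [] [1, 0, 0, 0, -1] [(3, 1), (6, 1), (12, 1), (15, 1)])
  (.fk [] [1] [(0, 1), (15, 1), (42, 1)])
  (.fk [1, 0, 0, 0, 3, 0, -3] [3, 3, 3, 0, 2, 0, 0, -2] [(0, 1), (12, 3), (31, 2), (40, 2), (46,
    1), (47, 3), (57, 2)])
  (.fk [0, 0, 1, 0, 0, 1, 0, 0, 0, -1] [-1, 0, 0, -1, 0, 0, 0, 1, 1, 1] [(0, 2), (3, 1), (12, 1),
    (52, 1), (53, 1)])
  (.fk [] [1] [(12, 1), (15, 1), (30, 1)])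
  (.fk [-2, 0, 6, 0, 0, 6, 0, 0, 0, -6] [6, 0, 1, -6, 1, 0, 0, 5, 6, 6] [(0, 10), (3, 6), (31,
    2), (40, 1), (42, 6), (49, 1), (52, 6), (53, 6), (57, 1)]))
  (.fk [] [1] [(3, 1), (6, 1), (30, 1)])
  (.fk [] [1] [(0, 1), (6, 1), (33, 1)])
  (.fk [3, 3, 0, -3, 0, -2] [3, 3, 3, -2] [(0, 3), (3, 3), (15, 2), (37, 1), (38, 3), (47, 2),
    (57, 2)])
  (.sp 0 1 2 4
  (.fk [0, 0, 1, 0, 0, 1, 0, 0, 0, -1] [-1, 0, 0, 0, -1, 0, 0, 1, 1, 1] [(0, 2), (3, 1), (12, 1),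
    (52, 1), (53, 1)])
  (.fk [0, 0, 5, 0, 0, 7, -2, 0, 0, -7] [7, 0, 2, 0, -7, 0, 2, 5, 7, 7] [(3, 7), (6, 2), (12, 7),
    (32, 2), (35, 2), (41, 2), (48, 2), (50, 2), (52, 7), (53, 7), (57, 2)])
  (.fk [] [1] [(0, 1), (15, 1), (42, 1)])
  (.fk [3, 0, -2, 0, 3, 0, -3] [3, 3, 3, 0, 0, 2, -2] [(0, 3), (6, 2), (12, 3), (35, 2), (41, 2),
    (46, 1), (47, 3), (57, 2)])
  (.fk [0, 0, 1, 0, 0, 1, 0, 0, 0, -1] [-1, 0, 0, -1, 0, 0, 1, 1, 1] [(0, 2), (3, 1), (12, 1),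
    (52, 1), (53, 1)])
  (.fk [] [1] [(12, 1), (15, 1), (30, 1)])
  (.fk [0, 0, 2, 0, 0, 4, 0, 0, 0, -4] [4, 0, 1, -2, 1, 2, 3, 4, 4] [(0, 6), (3, 2), (35, 2),
    (40, 1), (41, 2), (42, 4), (49, 1), (52, 4), (53, 4), (57, 1)]))
  (.fk [] [1] [(3, 1), (6, 1), (30, 1)])
  (.fk [] [1] [(0, 1), (6, 1), (33, 1)]))
  (.sp 0 1 3 4
  (.fk [] [-1, 0, 0, 0, 1] [(3, 1), (6, 1), (12, 1), (15, 1)])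
  (.fk [0, -1] [4, 1, 0, 0, 4] [(6, 4), (12, 4), (15, 4), (33, 5), (35, 1), (43, 1), (54, 1)])
  (.fk [0, 0, 0, 0, -1] [4, 1, 0, 0, 4] [(3, 4), (6, 4), (15, 4), (34, 1), (42, 5), (44, 1), (54,
    1)])
  (.fk [0, 1, 0, 0, 1, 0, 0, -1, -1] [1, 1, 1, 1, 2] [(3, 1), (6, 1), (12, 1), (15, 1), (38, 2),
    (53, 2), (58, 2)])
  (.fk [] [-1, 0, 0, 1] [(3, 1), (6, 1), (12, 1), (15, 1)])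
  (.fk [0, 0, -1, 0, 0, -1, 0, 1, 0, -1] [8, 0, 0, 7, -1, -1] [(6, 8), (12, 8), (15, 8), (33, 8),
    (37, 1), (46, 1), (57, 1)])
  (.fk [0, -1] [3, 0, 0, 3] [(3, 2), (6, 3), (15, 3), (34, 1), (35, 1), (42, 3)]))
  (.sp 0 1 2 4
  (.fk [] [-1, 0, 0, 0, 1] [(0, 1), (6, 1), (12, 1), (21, 1)])
  (.fk [0, 0, 0, 0, 0, -1] [2, 0, 0, 0, 3, 1] [(6, 3), (12, 2), (21, 3), (30, 2), (37, 1), (47,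
    1), (57, 1)])
  (.fk [-1] [3, 0, 0, 0, 3] [(0, 2), (6, 3), (21, 3), (31, 1), (32, 1), (42, 3)])
  (.fk [2, 0, 0, 0, 2, 0, -3] [2, 3, 3, 0, 3] [(0, 2), (12, 2), (32, 1), (37, 3), (44, 1), (47,
    3), (48, 1), (57, 3)])
  (.fk [] [-1, 0, 0, 1] [(0, 1), (6, 1), (12, 1), (21, 1)])
  (.fk [-1, 0, 0, 0, 1, 0, -1, -1, 0, -1] [12, -1, -1, 12, 0, -1] [(6, 12), (12, 13), (21, 13),
    (30, 13), (32, 1), (49, 1), (52, 1), (57, 1), (58, 1)])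
  (.fk [-1] [3, 0, 1, 3, 1] [(0, 2), (6, 3), (21, 3), (31, 1), (37, 1), (42, 3), (49, 1), (57,
    1)]))
  (.sp 0 1 2 3
  (.fk [] [-1, 0, 0, 0, 1] [(0, 1), (3, 1), (15, 1), (21, 1)])
  (.fk [] [1] [(3, 1), (6, 1), (30, 1)])
  (.fk [-1] [3, 0, 0, 0, 3] [(0, 2), (15, 3), (21, 3), (31, 1), (32, 1), (33, 3)])
  (.fk [2, 2, 0, -3] [2, 3, 3] [(0, 2), (3, 2), (32, 1), (35, 1), (37, 3), (38, 3), (39, 1)])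
  (.fk [] [-1, 0, 0, 1] [(0, 1), (3, 1), (15, 1), (21, 1)])
  (.fk [0, 0, -1, -1] [6, 0, -1, 7] [(3, 6), (15, 7), (21, 7), (30, 6), (35, 1), (37, 1), (39,
    1), (40, 1)])
  (.fk [] [1] [(0, 1), (6, 1), (33, 1)]))

theorem n2_ok : ck 4105 2134089 n2 [] = true := by decide +kernel

def n3 : Tr := .sp 0 1 3 4
  (.sp 0 2 3 4
  (.fk [] [-1, 0, 0, 0, 1] [(3, 1), (6, 1), (12, 1), (15, 1)])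
  (.fk [0, -1] [2, 0, 0, 0, 2] [(3, 3), (4, 1), (12, 2), (15, 2), (35, 1), (36, 2)])
  (.fk [0, 0, 0, 0, 0, -1] [4, 1, 0, 0, 4] [(3, 4), (6, 4), (12, 4), (37, 1), (45, 5), (47, 1),
    (57, 1)])
  (.fk [0, -1, 1, 0, -1, 1, 0, 1, 0, -1] [1, 1, 1, -1] [(4, 1), (6, 1), (13, 1), (15, 1), (35,
    1), (44, 1)])
  (.fk [] [-1, 0, 0, 1] [(3, 1), (6, 1), (12, 1), (15, 1)])
  (.fk [0, -1, 0, 0, -1] [5, 0, 0, 5, 0, -1] [(3, 6), (12, 6), (15, 5), (24, 1), (35, 1), (36,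
    5), (44, 1)])
  (.fk [0, -1] [2, 0, 0, 2] [(3, 3), (4, 1), (6, 2), (12, 2), (35, 1), (45, 2)]))
  (.sp 0 1 2 3
  (.fk [2, 0, -1, -2] [2, -1, 2, 0, 0, 2] [(2, 1), (3, 2), (6, 1), (13, 2), (24, 2), (38, 1),
    (40, 1), (41, 2)])
  (.sp 0 1 2 4
  (.fk [-1, 1, -1, 0, 0, 0, 0, 0, -1] [6, 0, 0, 0, -7, 1, -1, 0, 6, 0, 1] [(3, 12), (6, 6), (9,
    1), (15, 6), (21, 6), (24, 1), (38, 1), (40, 1), (52, 1), (56, 1)])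
  (.fk [-1] [-1, 0, 0, 0, 0, 1, 0, 0, 1, 1] [(3, 1), (9, 1), (13, 1), (15, 1), (21, 1), (24, 1),
    (32, 1)])
  (.fk [-3, 0, -3] [0, 7, 0, 0, -3, 7, 0, 0, 0, 7] [(3, 3), (9, 7), (18, 7), (24, 7), (31, 3),
    (32, 3), (37, 3), (38, 3)])
  (.fk [-3, 0, 0, 0, 0, 1, -1] [1, 1, 1, 0, 4, 0, 0, 0, 4] [(9, 4), (13, 5), (15, 1), (24, 4),
    (30, 3), (32, 4), (44, 1)])
  (.fk [] [1] [(12, 1), (15, 1), (30, 1)])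
  (.fk [-1, 0, -1] [-1, 2, 0, 0, 3, -1, 0, 0, 2] [(4, 1), (9, 3), (12, 1), (15, 1), (18, 2), (24,
    2), (36, 1), (38, 1), (40, 1)])
  (.fk [-1] [4, 0, 0, 4, 0, 0, 0, 4] [(21, 4), (30, 1), (31, 1), (32, 1), (36, 4), (45, 4)]))
  (.sp 0 1 2 4
  (.fk [-1, -1] [2, 0, -1, 0, 3, 0, 0, 0, 2, 1] [(3, 6), (15, 2), (18, 1), (21, 2), (24, 1), (32,
    1), (35, 1), (36, 3)])
  (.fk [0, -1] [0, 1, 0, 0, 0, 1] [(3, 1), (9, 1), (13, 1), (18, 1), (35, 1)])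
  (.fk [1, -1] [0, 1, 0, 0, -1, 0, 0, 0, 0, 1] [(2, 1), (6, 1), (18, 1), (24, 1), (35, 1)])
  (.fk [1, -1, 0, 0, 0, 1, -1] [0, 1, 1, -1, 1] [(6, 1), (9, 1), (15, 1), (18, 1), (35, 1), (44,
    1)])
  (.fk [-1, 0, 0, 0, 0, 0, -1] [7, -1, 0, 0, 0, 0, 0, 7] [(3, 7), (15, 7), (18, 1), (21, 7), (30,
    8), (31, 1), (46, 1), (50, 1)])
  (.fk [1, -1] [0, 1, 0, -1, 0, 0, 0, 0, 1] [(2, 1), (6, 1), (18, 1), (24, 1), (35, 1)])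
  (.fk [0, -1] [0, 1, 0, 0, 1] [(3, 1), (9, 1), (13, 1), (18, 1), (35, 1)]))
  (.fk [0, 0, 1, -1] [0, 1, 1] [(6, 1), (9, 1), (32, 1), (35, 1)])
  (.fk [] [1] [(3, 1), (6, 1), (30, 1)])
  (.fk [1, -1] [1, 1] [(2, 1), (9, 1), (35, 1), (36, 1)])
  (.fk [-1] [1, 1, 0, 0, 1] [(3, 1), (9, 1), (13, 1), (24, 1), (32, 1), (36, 1)]))
  (.sp 0 1 2 3
  (.fk [-1, 0, 0, 0, -1] [5, 0, -1, 0, 5, 1] [(6, 5), (9, 1), (12, 6), (21, 5), (24, 1), (30, 6),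
    (32, 1), (44, 1)])
  (.sp 0 1 2 4
  (.fk [-1, 0, 0, 0, -1] [5, 0, -1, 0, -6, 0, 0, 0, 6] [(6, 6), (12, 12), (15, 5), (18, 1), (21,
    6), (32, 1), (44, 1)])
  (.fk [-1] [0, 1, 0, 0, -1, 0, 0, 0, 1, 1] [(4, 1), (6, 1), (12, 1), (18, 1), (21, 1), (24, 1),
    (32, 1)])
  (.fk [0, 0, 0, 0, -1] [0, 1, 0, 0, 0, 1] [(4, 1), (9, 1), (12, 1), (18, 1), (44, 1)])
  (.fk [-1, 0, 0, 0, 0, 4, -4] [4, 4, 4, -1, 0, 0, 0, 0, 4] [(3, 1), (4, 4), (6, 1), (15, 4),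
    (24, 4), (31, 5), (32, 5), (44, 4)])
  (.fk [-1, 0, 0, 0, 0, 0, -1] [4, -1, 0, -5, 1, 0, 0, 5] [(4, 1), (6, 5), (9, 1), (12, 9), (15,
    4), (18, 1), (21, 5), (46, 1), (50, 1)])
  (.fk [0, 0, 0, 0, -1] [0, 1, 1, 0, 1] [(4, 1), (9, 1), (12, 1), (18, 1), (47, 1), (50, 1)])
  (.fk [-1] [0, 1, 0, -1, 0, 0, 0, 1, 1] [(4, 1), (6, 1), (12, 1), (18, 1), (21, 1), (24, 1),
    (32, 1)]))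
  (.sp 0 1 2 4
  (.fk [3, -5, 0, 0, -2] [3, 0, -2, 0, 0, 5, 0, 0, 5] [(2, 3), (9, 5), (12, 10), (15, 3), (18,
    2), (21, 5), (35, 5), (44, 2)])
  (.fk [-3] [0, 4, 0, 0, 0, 1, 0, 0, 0, 4] [(4, 3), (9, 1), (18, 4), (24, 4), (30, 3), (32, 3)])
  (.fk [1, 0, 0, 0, -1] [-1, 0, 0, 0, 0, 1, 0, 0, 0, 1] [(2, 1), (9, 1), (15, 1), (24, 1), (44,
    1)])
  (.fk [1, -3, 0, 0, 1, 1, -1] [1, 1, 1, -1, 3, 0, 0, 2] [(6, 1), (9, 3), (12, 1), (15, 1), (21,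
    2), (31, 3), (35, 3)])
  (.fk [1, -3] [1, 0, 0, 0, 1, 0, 0, 3] [(2, 1), (4, 2), (9, 1), (12, 4), (15, 1), (21, 3), (35,
    3)])
  (.fk [1, 0, 0, 0, -1] [1, 1] [(2, 1), (18, 1), (44, 1), (45, 1)])
  (.fk [1, -1] [-1, 0, 0, 0, 1, 0, 0, 1] [(2, 1), (9, 1), (15, 1), (21, 1), (35, 1)]))
  (.fk [0, 0, 1, -1] [0, 1, 1] [(6, 1), (9, 1), (32, 1), (35, 1)])
  (.fk [0, -1, 1, -1] [2, -1, -1, 3] [(2, 1), (4, 1), (6, 3), (9, 1), (12, 3), (21, 3), (30, 2)])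
  (.fk [1, -1] [1, 1, 1] [(2, 1), (9, 1), (36, 1), (38, 1), (41, 1)])
  (.fk [-1] [1, 1, 0, 1] [(4, 1), (9, 1), (12, 1), (21, 1), (32, 1), (36, 1)]))
  (.sp 0 2 3 4
  (.fk [0, 0, 0, 0, 0, 0, 0, 1, -1] [-1, 0, 0, 0, 1, 1, 1] [(4, 1), (6, 1), (13, 1), (15, 1),
    (35, 1), (44, 1)])
  (.fk [0, 0, 0, 0, 0, 0, 0, 1, -1] [1, 0, 0, 0, 0, 1, 1] [(15, 1), (24, 1), (35, 1), (36, 1),
    (44, 1)])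
  (.fk [0, 0, 0, 0, 0, 0, 0, 1, -1] [1, 0, 0, 0, 0, 1, 1] [(6, 1), (24, 1), (35, 1), (44, 1),
    (45, 1)])
  (.fk [0, -1, 1, 0, 0, 1, 0, 0, 0, -1] [1, 1, 1] [(3, 1), (4, 1), (6, 1), (15, 1), (35, 1), (52,
    1), (53, 1)])
  (.fk [0, 0, 0, 0, 0, 0, 0, 1, -1] [-1, 0, 0, 1, 1, 1] [(4, 1), (6, 1), (13, 1), (15, 1), (35,
    1), (44, 1)])
  (.fk [0, 0, 0, 0, 0, 0, 0, 1, -1] [1, 0, 0, 0, 1, 1] [(15, 1), (24, 1), (35, 1), (36, 1), (44,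
    1)])
  (.fk [0, 0, 0, 0, 0, 0, 0, 1, -1] [1, 0, 0, 0, 1, 1] [(6, 1), (24, 1), (35, 1), (44, 1), (45,
    1)]))
  (.sp 0 2 3 4
  (.fk [] [-1, 0, 0, 0, 1] [(3, 1), (6, 1), (12, 1), (15, 1)])
  (.fk [0, 0, -1] [4, 1, 0, 0, 4] [(3, 4), (12, 4), (15, 4), (36, 5), (38, 1), (46, 1), (57, 1)])
  (.fk [0, 0, 0, 0, 0, -1] [4, 1, 0, 0, 4] [(3, 4), (6, 4), (12, 4), (37, 1), (45, 5), (47, 1),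
    (57, 1)])
  (.fk [0, -1, 1, 0, -1, 1, 0, 1, 0, -1] [1, 1, 1, -1] [(4, 1), (6, 1), (13, 1), (15, 1), (35,
    1), (44, 1)])
  (.fk [] [-1, 0, 0, 1] [(3, 1), (6, 1), (12, 1), (15, 1)])
  (.fk [0, -1, 0, 0, -1, 0, 0, 1, -1] [5, 0, 0, 4, -1, -1] [(3, 5), (4, 1), (12, 5), (13, 1),
    (15, 5), (24, 1), (36, 5)])
  (.fk [0, 0, -1] [3, 0, 0, 3] [(3, 3), (6, 2), (12, 3), (37, 1), (38, 1), (45, 3)]))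
  (.fk [0, 0, 0, 0, -1] [1, 1] [(3, 1), (4, 1), (21, 1), (24, 1), (44, 1)])
  (.fk [0, -1] [1, 1] [(12, 1), (13, 1), (21, 1), (24, 1), (35, 1)])

theorem n3_ok : ck 32836 19182172 n3 [] = true := by decide +kernel

def n4 : Tr := .sp 0 1 3 4
  (.sp 0 1 2 3
  (.sp 0 1 2 4
  (.sp 0 2 3 4
  (.fk [-1, -1, -1] [2, 0, -1, 0, 2, 1, 0, 0, 3, 0, -1, 0, -2] [(0, 6), (3, 2), (5, 1), (8, 1),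
    (19, 1), (27, 1), (39, 1)])
  (.fk [-2] [1, 2, 0, 0, -1, 0, 0, 0, 1, 2, 0, 0, 1] [(0, 2), (3, 2), (10, 2), (27, 2), (31, 2),
    (46, 2)])
  (.fk [-2] [1, 2, 0, 0, 1, 2, 0, 0, -1, 0, 0, 0, 1] [(0, 2), (12, 2), (19, 2), (27, 2), (31, 2),
    (37, 2)])
  (.sp 1 2 3 4
  (.fk [3, 1, -3, -3, -2] [0, 3, 0, 0, 0, 3, 0, 0, 0, 0, 0, 3, -3, 3, 0, 0, -3, -2] [(3, 2), (5,
    2), (8, 6), (12, 2), (14, 2), (24, 2)])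
  (.fk [] [1, 0, 0, 0, 0, 0, 0, 0, 0, -1, 0, 0, 0, 1, 0, 0, 0, 1] [(34, 2)])
  (.fk [-2, -1, 1, 0, 0, 0, 1, 0, 1, -1] [1, -1, 1, 0, 0, 1, 0, 0, 0, 0, 0, -1, 2, -1, 0, 0, 1]
    [(0, 1), (10, 1), (22, 2), (31, 1), (37, 1)])
  (.fk [0, 0, -1, 0, 0, -1, 0, 1, 0, -1] [2, 0, 0, -1, 1, 1, 1, 0, 0, 0, 1, 0, 0, 0, -1] [(0, 2),
    (8, 2), (10, 2), (19, 2), (47, 2)])
  (.fk [-2, 0, -1, 0, -2, 1, 2, 1, -2, 1] [0, 2, 2, -1, 1, 1, -1, 2, -2, 0, 1, 0, 0, 0, -1] [(0,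
    2), (8, 2), (14, 2), (24, 2), (41, 2)])
  (.fk [-1, -1, -1, 0, 0, 0, -1, 0, 1, 1] [0, 2, 1, -1, -1, 0, 0, 1, 1, 0, 1, 0, 0, 0, 0, 1, -1]
    [(0, 2), (3, 2), (10, 2), (27, 2), (31, 2)])
  (.fk [1, 1, -1, -2] [0, 1, 1, 0, 1, 0, 0, 0, 0, 0, 1, -1, 1, 0, 0, -1] [(8, 2), (19, 1), (27,
    1), (39, 1), (41, 1)]))
  (.fk [1, 0, -1, -1, -1] [2, 0, 0, 2, 0, 0, 0, 3, -1, 1, 0, -3, 0, -1] [(0, 4), (8, 1), (14, 1),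
    (21, 1), (24, 1), (41, 1)])
  (.fk [-2, 0, 0, 0, -2] [5, 0, 0, -7, 0, -2, 0, 5, 2, 0, 0, 5] [(3, 10), (10, 2), (14, 2), (15,
    2), (37, 2), (48, 2)])
  (.fk [0, 0, -1] [0, 1, 1, 0, 0, 0, 0, 1] [(0, 1), (3, 1), (22, 1), (27, 1), (46, 1), (58, 1)]))
  (.fk [0, 0, 0, 0, 0, 0, 0, -1] [1, 0, 0, 0, 0, 0, 0, 0, 1] [(0, 1), (3, 1), (15, 1), (22, 1),
    (53, 1)])
  (.fk [0, 0, -1] [1, 0, 0, 0, 1] [(3, 1), (8, 1), (12, 1), (15, 1), (37, 1)])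
  (.fk [1, 0, -1, 0, 1, 0, -1, -1] [1, 1, 1, 1, 0, 0, 0, 1] [(3, 2), (8, 1), (22, 1), (37, 1),
    (46, 1), (47, 1), (53, 1)])
  (.fk [0, 0, 0, 0, 0, -1] [1, 1, 0, 0, 1] [(0, 1), (10, 1), (12, 1), (19, 1), (37, 1), (47, 1)])
  (.fk [0, 0, 0, 0, 0, 0, 0, -1] [1, 0, 0, 0, 0, 0, 0, 1] [(0, 1), (3, 1), (15, 1), (22, 1), (53,
    1)])
  (.fk [0, 0, -1] [1, 0, 0, 1] [(3, 1), (8, 1), (12, 1), (15, 1), (37, 1)]))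
  (.fk [0, 0, 0, 0, 0, 0, 0, -1] [1, 0, 0, 0, 1] [(0, 1), (6, 1), (12, 1), (22, 1), (53, 1)])
  (.sp 1 2 3 4
  (.fk [0, 0, 0, 0, 0, 0, 0, 0, 0, -1] [0, -1, 1, 0, 0, 0, 1, 0, 0, 1] [(8, 1), (10, 1), (19, 1),
    (22, 1), (59, 1)])
  (.fk [-1, 1, 0, -1] [0, 1, 0, 0, 1, -1, 1] [(6, 1), (8, 1), (19, 1), (27, 1), (32, 1)])
  (.fk [0, -1, 0, -1, 0, 0, 1, 0, 1, -1] [1, -1, 1, 0, 0, 0, 1, 0, 0, 1] [(3, 1), (5, 1), (8, 1),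
    (22, 1), (34, 1), (58, 1)])
  (.fk [0, -1, 0, 0, -1, 0, 0, 0, 1, -1] [1, 1, 1, 0, 0, 1, 0, 0, 0, -1] [(3, 1), (5, 2), (8, 1),
    (10, 1), (12, 1), (14, 1), (19, 1), (50, 1)])
  (.fk [-1] [0, 1, 0, 1, 0, 1, 0, 0, 1] [(3, 1), (6, 1), (8, 1), (22, 1), (31, 1), (32, 1), (58,
    1)])
  (.fk [0, -1, 0, 0, 0, 0, -1, 0, 1] [1, 1, 1, 0, 1, 0, 0, 0, 1] [(3, 1), (10, 1), (22, 1), (27,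
    1), (31, 1), (39, 2), (59, 1)])
  (.fk [0, -1, 0, -1] [2, 1, 0, 0, 1, 1] [(3, 1), (5, 2), (8, 1), (19, 1), (24, 2), (27, 1), (31,
    1), (48, 2)]))
  (.fk [0, 1, 0, -1, 0, 0, 0, -1] [1, 0, 1, 1] [(8, 1), (10, 1), (12, 1), (22, 1), (31, 1), (53,
    1)])
  (.fk [0, 0, -1] [1, 1] [(0, 1), (3, 1), (8, 1), (10, 1), (32, 1)])
  (.fk [0, 0, 0, 0, 0, 0, 0, -1] [1, 0, 0, 1] [(0, 1), (6, 1), (12, 1), (22, 1), (53, 1)])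
  (.sp 1 2 3 4
  (.sp 0 1 2 4
  (.fk [] [0, 0, 1, 0, 1, 0, 0, 0, 0, 1, 0, 0, 0, -1] [(39, 2)])
  (.fk [-2, 0, 0, 0, 0, -1, 0, -6] [6, 0, -1, 0, 0, 0, -1, 0, 8, 0, 1, 6] [(3, 14), (6, 8), (15,
    7), (22, 6), (27, 1), (31, 2), (37, 1), (47, 1), (53, 6)])
  (.fk [] [0, 1, 0, 0, -1, 0, 0, 0, 0, 1, 0, 0, 0, 1] [(34, 2)])
  (.fk [] [1, 0, 0, 1, 0, 0, 0, 0, 1, 0, 0, 0, -1] [(39, 2)])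
  (.fk [0, 0, 0, 0, 0, -2] [1, 2, 0, 0, 0, 0, 0, 1, 0, 2] [(3, 1), (6, 1), (10, 2), (12, 1), (15,
    1), (19, 2), (37, 2), (47, 2)])
  (.fk [0, 0, 0, 0, -1] [1, 1, 0, 0, 0, 0, 0, 1] [(3, 1), (6, 1), (14, 1), (15, 1), (31, 1), (48,
    1)])
  (.fk [-2] [0, 1, 0, -1, 0, 0, 0, 2, 1, 2, 0, 0, -1] [(3, 2), (6, 2), (10, 2), (24, 2), (37,
    2)]))
  (.fk [-1, 1, 0, 1, 0, 0, 0, -1, 0, -1] [0, 0, 1, 0, 1, 1, 1, 1, -1] [(3, 1), (6, 1), (12, 1),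
    (27, 1), (37, 1), (53, 1), (59, 1)])
  (.fk [-1, -1, 0, 0, 0, 0, 1, 0, 1, -1] [1, -1, 1, 0, 1, 1, 1, 0, 1] [(3, 2), (6, 1), (22, 1),
    (34, 2), (37, 1), (58, 1)])
  (.fk [-3, -1, 0, 3, -4, 0, 0, 0, 3, -3] [3, 3, 3, 0, 3, 3, 0, 1, -4] [(0, 3), (3, 1), (10, 3),
    (12, 4), (14, 4), (19, 3), (22, 1), (24, 1), (37, 3), (50, 3), (55, 1)])
  (.fk [-1, -1, 0, 1] [0, 1, 0, 1, 1, 1, 0, 1] [(3, 2), (6, 1), (22, 1), (34, 2), (37, 1), (58,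
    1)])
  (.fk [0, -1, 0, 0, 0, 0, -1, 0, 1] [1, 1, 1, 0, 0, 0, 0, 1] [(3, 1), (10, 1), (22, 1), (27, 1),
    (34, 1), (39, 1), (59, 1)])
  (.fk [-1, 1, 0, -2, 0, 0, 0, -1] [3, 3, 1, 1, 1, 1, 1, -1] [(3, 1), (6, 1), (12, 1), (19, 3),
    (24, 3), (27, 3), (37, 1), (41, 1), (48, 3), (53, 1), (58, 1)])))
  (.sp 0 1 2 3
  (.sp 0 2 3 4
  (.fk [0, 0, -1, 0, -3, -1] [3, 0, -1, 0, 4, 0, 0, 0, 3] [(0, 4), (3, 7), (8, 1), (14, 3), (15,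
    4), (27, 1), (43, 3), (47, 1)])
  (.fk [0, 0, -1] [0, 1, 0, 0, 1] [(0, 1), (3, 1), (8, 1), (27, 1), (46, 1)])
  (.sp 1 2 3 4
  (.fk [1, 1, 0, -1, 0, -3, 0, -1, 0, 1] [0, 1, 2, 0, -1, 3, -1, 0, 1, -1, 1, 0, 0, 0, 1] [(10,
    2), (15, 2), (19, 2), (22, 2), (37, 2), (47, 2)])
  (.fk [0, 1, 0, -1, -1, 0, 0, 1, 0, -1] [0, 1, 1, 0, 0, 0, 1, 0, 0, 0, 1, 0, 1, 0, 1] [(14, 1),
    (19, 1), (27, 2), (31, 1), (41, 2), (43, 1), (47, 1)])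
  (.fk [1, 1, -1, 0, -1, 0, -1, 1, -1] [-1, 1, -1, 0, 0, 0, 1, 0, 1, -1, 1, 0, 1, 0, 1] [(3, 1),
    (8, 1), (14, 1), (27, 1), (43, 1), (47, 1)])
  (.fk [-1, -1, 0, 1, 0, 0, 0, 1, 0, -1] [0, 1, 0, 1, 0, 1, 0, -1, 1, -1, 0, 0, 0, 1] [(5, 2),
    (15, 1), (27, 1), (37, 1), (47, 1)])
  (.fk [0, 9, 0, -1, -10, -1, 0, 9, -10, 1] [0, 1, 10, 0, 1, 9, 0, 0, -1, 1, 0, 9, -10, 9] [(12,
    1), (14, 10), (15, 1), (31, 1), (32, 1), (34, 2), (41, 2), (47, 10), (50, 10)])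
  (.fk [3, 1, -6, 0, 0, 1, -3, 1, -1] [3, 3, 1, 3, -3, 1, 0, 3, -3, 3, 0, -2, 2, 1] [(8, 6), (12,
    2), (15, 2), (24, 6), (43, 2), (46, 2), (50, 2), (56, 2)])
  (.fk [1, 3, -2, -3, -2, 1, 0, 3, 0, -3] [2, 0, 3, 1, -1, 3, 0, 1, -1, 1, 0, 2, -2, 3] [(8, 2),
    (10, 2), (14, 2), (27, 2), (47, 2), (48, 2), (58, 6)]))
  (.fk [0, 0, 0, 0, -1, 0, 0, 1, 0, -1] [0, 1, 1, 0, 0, 0, 0, 1] [(3, 1), (8, 1), (14, 1), (27,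
    1), (43, 1), (47, 1)])
  (.fk [1, 2, -1, -1, -1, 0, 0, 0, -2] [1, 2, 0, 2, -1, 1, 0, 1, -1, 2] [(0, 1), (3, 1), (8, 3),
    (14, 1), (15, 1), (24, 1), (41, 1), (56, 2), (58, 2)])
  (.fk [2, 1, 0, -2, 0, -2, 0, 1, -1] [2, 2, 1, 2, -2, 2, 0, -1, 0, 1] [(12, 1), (24, 1), (27,
    2), (34, 1), (41, 2), (47, 1), (56, 1), (59, 1)])
  (.fk [0, 0, -1] [0, 1, 0, 1] [(0, 1), (3, 1), (8, 1), (27, 1), (46, 1)]))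
  (.fk [0, -1] [1, 0, 0, 0, 0, 1] [(0, 1), (5, 1), (6, 1), (24, 1), (43, 1)])
  (.sp 0 1 2 4
  (.fk [0, 0, 0, 0, 0, -1] [1, 0, 0, 0, 1, 0, 0, 0, 1] [(3, 2), (6, 1), (21, 1), (46, 1), (47,
    1)])
  (.fk [0, 1, 0, 0, -1, 0, 0, 0, -1] [1, 0, 0, 0, 1, 0, 0, 0, 0, -1, 1] [(6, 1), (14, 1), (15,
    1), (22, 1), (56, 1)])
  (.fk [-1, 1, 0, -1] [1, 0, 0, 0, 0, -1, 1, 0, 1] [(8, 1), (10, 1), (15, 1), (21, 1), (32, 1)])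
  (.sp 1 2 3 4
  (.fk [] [1, 0, 0, 0, 1, 0, 0, 0, -1, 0, 0, 0, 1] [(43, 2)])
  (.fk [0, 1, 0, 1, -1, 0, -1, 0, 0, -1] [1, -1, 1, 0, 0, 0, 1, 0, 0, 0, 0, 1, -1, 1] [(14, 2),
    (21, 1), (22, 1), (47, 1), (59, 1)])
  (.fk [0, 0, 0, -2] [1, 0, 0, 0, 1, 0, 0, 0, -1, 2, 0, 0, 1] [(5, 2), (8, 2), (10, 2), (24, 2),
    (43, 2)])
  (.fk [-2, 0, 0, -1, 0, 0, 1, 0, 1, -1] [1, 1, 1, -1, 0, 0, 0, -1, 2, 0, 0, 1] [(0, 2), (5, 2),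
    (8, 2), (10, 2), (32, 2)])
  (.fk [0, 1, 0, 0, -1, 0, 0, 0, -1] [0, 1, 1, 0, 0, 1, 0, 0, 1, 0, 1, -1] [(8, 1), (14, 2), (21,
    1), (47, 1), (58, 1), (59, 1)])
  (.fk [0, 0, 0, 0, 0, 0, -1] [1, 1, 0, 0, 0, 1] [(10, 1), (14, 1), (24, 1), (27, 1), (39, 1),
    (47, 1)])
  (.fk [0, 0, 0, -2] [1, 0, 0, 1, 0, 0, 0, -1, 2, 0, 0, 1] [(5, 2), (8, 2), (10, 2), (24, 2),
    (43, 2)]))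
  (.fk [-1, -3, 0, 0, 3, -3] [3, 3, 3, 0, 0, 0, 0, 0, 3] [(0, 4), (3, 3), (5, 3), (19, 3), (24,
    3), (31, 1), (32, 4), (50, 3)])
  (.fk [0, 0, 0, 0, -1] [1, 1, 0, 1] [(3, 1), (6, 1), (14, 1), (15, 1), (31, 1), (48, 1)])
  (.fk [-1] [1, 1, 1, 0, 0, 0, 0, 1] [(3, 1), (15, 1), (19, 1), (21, 1), (43, 1), (46, 1), (48,
    1)]))
  (.fk [0, 0, 0, -1] [1, 0, 1, 0, 1] [(5, 1), (8, 1), (10, 1), (24, 1), (31, 1), (43, 1)])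
  (.fk [0, 0, -1] [1, 1] [(0, 1), (3, 1), (8, 1), (10, 1), (32, 1)])
  (.fk [0, 0, 0, 0, -1] [1, 0, 0, 1] [(0, 1), (6, 1), (14, 1), (21, 1), (43, 1)])
  (.fk [-1] [1, 1, 1, 0, 1] [(3, 1), (6, 1), (10, 1), (24, 1), (37, 1), (39, 1), (43, 1)]))
  (.sp 0 2 3 4
  (.fk [0, -1] [1, 0, 0, 0, 1] [(5, 1), (6, 1), (12, 1), (15, 1), (34, 1)])
  (.sp 1 2 3 4
  (.fk [0, -1, 0, 0, 1, 0, 0, 1, -1, -1] [0, 0, 1, 0, 0, 0, 1, 0, 1, -1, 1] [(5, 1), (8, 1), (10,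
    1), (19, 1), (55, 1), (59, 1)])
  (.fk [0, -1, 0, -1, 1, 0, 0, 1, -1] [0, 1, -1, 0, 0, 0, 1, 0, 1, -1, 1] [(5, 1), (8, 1), (19,
    1), (27, 1), (39, 1)])
  (.fk [0, -5, 0, 0, -1, 0, -1, 5, 0, -5] [-1, 0, 5, 0, 0, 0, 5, 0, 5, 1, 5] [(5, 5), (8, 5),
    (12, 6), (14, 6), (19, 1), (27, 5), (34, 6), (39, 1), (50, 6)])
  (.fk [0, 0, 0, 0, -1, 0, 0, 0, 1, -1] [1, 1, 1, 0, 0, 0, 0, 0, 1] [(10, 1), (12, 1), (14, 1),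
    (19, 1), (34, 1), (41, 1), (50, 1)])
  (.fk [0, -3, -1, 0, 2, 0, 0, 2, -2] [0, 2, 0, -1, 0, 2, 0, 3, -2, 2] [(5, 3), (8, 3), (12, 1),
    (15, 1), (34, 1), (37, 1), (41, 2)])
  (.fk [0, -2, 0, 0, 1, 0, -1, 1, 0, -1] [1, 1, 1, 0, 0, 1, 0, 2, -1, 1] [(5, 2), (8, 1), (10,
    1), (12, 1), (21, 1), (27, 2), (34, 1), (39, 1), (59, 2)])
  (.fk [0, -1, 0, -1, 1, 0, 0, 1, -1] [1, 0, 1, 0, 0, 1, 0, 1, -1, 1] [(5, 1), (8, 1), (10, 1),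
    (24, 1), (48, 1), (55, 2)]))
  (.sp 0 1 2 3
  (.fk [0, 0, -1] [1, 0, 0, 0, 0, 0, 0, 0, 1] [(0, 1), (8, 1), (12, 1), (21, 1), (37, 1)])
  (.fk [0, -1] [1, 0, 0, 0, 1] [(0, 1), (5, 1), (15, 1), (21, 1), (34, 1)])
  (.fk [-1] [1, 0, 0, 0, 1, 0, 0, 0, 1] [(12, 1), (15, 1), (21, 2), (31, 1), (32, 1)])
  (.sp 0 1 2 4
  (.fk [1, 0, 0, -1, 0, -1] [1, 0, 0, 0, 1, 1, 1, 0, 1] [(5, 1), (8, 1), (12, 1), (27, 1), (34,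
    1), (37, 2), (47, 1)])
  (.fk [3, -3, 3, -3, 0, 0, -2] [3, 0, 2, 0, 3, 3, 3, -3, 2, 0, 0, 3] [(5, 6), (27, 2), (32, 2),
    (34, 6), (37, 2), (48, 2), (50, 2)])
  (.sp 1 2 3 4
  (.fk [] [1, 0, 0, 0, 0, -1, 0, 0, 1, 0, 0, 0, 0, 0, 0, 0, 1] [(34, 2)])
  (.fk [0, 5, -5, 0, -7, 5, 0, -2, 5, -5] [0, 0, 5, 0, 0, 0, 0, 0, 0, 0, 5, 5, -5, 5, 0, -5, 5,
    -7] [(8, 10), (12, 2), (21, 2), (22, 2), (43, 2), (56, 2)])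
  (.fk [0, -3, 1, -3, 3, -3, 3] [3, -3, 3, 0, 0, 0, 0, 0, 0, 0, 1, -1, 3, -3, 0, 3, -3, 3] [(5,
    4), (15, 2), (21, 2), (37, 2), (41, 2)])
  (.fk [-1, 5, -5, -1, -6, 4, 0, 0, 4, -4] [0, 4, -1, -1, 0, -1, 0, -1, -1, 5, 5, -4, 5, 0, -5,
    6, -5] [(0, 2), (8, 10), (10, 2), (24, 2), (39, 2)])
  (.fk [-1, -2, 2, 1, 1, -3, 0, 0, -3, 3] [1, 3, 0, -1, 1, 0, 0, 0, -1, 2, -2, 3, -3, 0, 2, -2,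
    3] [(0, 2), (5, 4), (14, 2), (31, 2), (48, 2)])
  (.fk [1, -2, -2, 0, 1, 1, -1] [1, 1, 0, -1, 0, 1, 0, 1, 1, 0, 2, -1, 0, 0, 2, -1] [(5, 2), (8,
    2), (21, 4), (34, 2), (37, 2)])
  (.fk [-1, 1, -1, -1] [1, 0, 0, 1, -1, 0, 0, 0, -1, 1, 1, 0, 0, 0, -1, 1] [(8, 2), (10, 2), (15,
    2), (24, 2)]))
  (.fk [0, -1, -1, 1, 1, 1, -3] [3, 3, 1, -3, -3, -1, 1, 2, 0, 0, 1, 2] [(10, 2), (21, 2), (24,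
    2), (27, 2), (39, 2), (50, 2)])
  (.fk [-1, 0, 0, 0, -1, -7] [7, 3, 7, -1, -4, 0, 0, 4, 0, 0, 0, 1] [(0, 8), (10, 4), (12, 8),
    (14, 8), (19, 3), (24, 1), (27, 4), (39, 1), (50, 7)])
  (.fk [1, 1, -1, -1, -2] [1, 0, 0, 1, 1, 1, 1, 0, 0, 0, -1, 2] [(8, 2), (14, 2), (15, 2), (24,
    2), (34, 2), (37, 2)])
  (.fk [-2, -2, 2, -3] [2, 5, 2, 3, 0, 2, -2, 2, 0, 0, 2, 5] [(5, 4), (10, 3), (12, 4), (19, 2),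
    (24, 5), (27, 2), (34, 10), (41, 1), (48, 5)]))
  (.fk [0, 0, -1] [0, 1, 0, 1] [(8, 1), (10, 1), (15, 1), (21, 1), (32, 1)])
  (.fk [0, -1] [1, 1, 0, 1] [(0, 1), (5, 1), (15, 1), (21, 1), (31, 1), (39, 1)])
  (.fk [-1] [1, 0, 0, 1, 0, 0, 0, 1] [(12, 1), (15, 1), (21, 2), (31, 1), (32, 1)]))
  (.fk [0, -1, 0, 0, 0, 0, 0, 1, 0, -1] [0, 1, 1, 1] [(5, 1), (8, 1), (12, 1), (27, 1), (34, 1),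
    (47, 1)])
  (.fk [0, -1] [1, 0, 0, 1] [(5, 1), (6, 1), (12, 1), (15, 1), (34, 1)])
  (.sp 1 2 3 4
  (.fk [0, 0, 0, -1, -1, -1, 0, 0, 1, 1] [0, 1, 0, 0, 1, 1, 1, 0, 1, -1] [(6, 1), (10, 1), (12,
    1), (21, 1), (34, 1), (37, 1), (39, 1)])
  (.sp 0 1 2 4
  (.fk [1, 0, 0, -1, 1, -1, 0, 0, -1, 1] [1, -1, 1, 0, -1, 1, -1, 0, 0, 0, 1, 0, 0, 1] [(53, 2)])
  (.fk [0, -10, -1, -1, 1, 1, 0, 0, -1, -1] [9, 0, 0, 0, 0, 0, -1, 0, 8, -1, -1, 10, -1, 1] [(0,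
    9), (5, 10), (6, 9), (8, 1), (10, 1), (21, 18), (34, 9), (39, 1), (58, 2)])
  (.fk [0, 0, 0, 1, 0, 0, -1, 0, 1, -1] [0, 0, 1, 0, 1, -1, 1, 0, 0, 0, 1, 0, 0, -1] [(59, 2)])
  (.fk [0, 0, 0, 1, 0, 0, -1, 0, 1, -1] [0, 0, 1, 1, -1, 1, 0, 0, 0, 1, 0, 0, -1] [(59, 2)])
  (.fk [0, 0, 0, 0, 0, -1] [1, 1, 1] [(0, 1), (12, 1), (14, 1), (19, 1), (32, 1), (50, 1)])
  (.fk [0, -1, -1, -1, -1, 1, 1] [2, 0, 1, -1, 1, 0, 0, 1, -1, 0, 1, 1] [(0, 2), (5, 1), (6, 2),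
    (8, 1), (21, 2), (34, 2), (41, 1)])
  (.fk [-1] [1, 0, 1, 0, 0, 0, 0, 1, 1, 0, -1] [(3, 1), (6, 1), (19, 1), (27, 1), (31, 1), (37,
    1)]))
  (.fk [0, -1, 0, -1, 1, -1, 1] [1, -1, 1, 0, 1, 1, 1, 1, -1, 1] [(5, 1), (6, 1), (21, 2), (37,
    1), (41, 1), (53, 2)])
  (.fk [0, 0, 0, 0, -1, -1, 0, 0, 1, -1] [2, 1, 2, 1, 1, 1, -1, 1, 1] [(3, 1), (6, 1), (10, 2),
    (14, 2), (19, 2), (34, 1), (37, 1), (41, 1), (50, 2), (53, 2)])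
  (.fk [0, -1, 0, 0, 1, -1, 0, 0, -1, 1] [0, 1, 0, 1, 1, 1, 1, -1, 1] [(5, 1), (6, 1), (21, 2),
    (37, 1), (41, 1), (53, 2)])
  (.fk [0, -1, 0, 0, 1, 0, -1] [1, 1, 1, 0, 0, -1, 1, -1, 1] [(5, 1), (10, 1), (21, 1), (27, 1),
    (39, 1), (47, 1)])
  (.fk [0, 0, 0, -1, -1, -1, 0, 0, 1, 1] [0, 0, 1, 1, 1, 1, 0, 1, -1] [(6, 1), (10, 1), (12, 1),
    (21, 1), (34, 1), (37, 1), (39, 1)]))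
  (.fk [0, 0, -1] [1, 1] [(8, 1), (15, 1), (21, 1), (27, 1), (46, 1)]))
  (.fk [0, 0, 0, 0, 0, 0, 0, 0, -1] [0, 1, 1] [(5, 1), (14, 1), (22, 1), (24, 1), (53, 1)])
  (.fk [0, 0, 0, 0, 0, 0, 0, -1] [1, 1, 1] [(3, 1), (5, 1), (12, 1), (14, 1), (55, 1), (56, 1)])
  (.fk [0, 0, 0, 0, -1] [1, 1] [(3, 1), (14, 1), (21, 1), (24, 1), (34, 1)])
  (.fk [0, -1] [1, 1] [(5, 1), (12, 1), (21, 1), (24, 1), (43, 1)])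

theorem n4_ok : ck 0 157865321 n4 [] = true := by decide +kernel

def n5 : Tr := .sp 0 1 2 4
  (.sp 0 1 3 4
  (.sp 0 1 2 3
  (.sp 1 2 3 4
  (.fk [] [1, 0, 0, 0, 0, 0, 1, 0, 0, 0, -1, 0, 0, 0, 1] [(31, 2)])
  (.fk [] [1, 0, 0, 0, 0, 0, 1, 0, 0, 0, 1, 0, 0, 0, -1] [(34, 2)])
  (.fk [0, 0, -2] [1, 0, 0, 0, 2, 0, -1, 0, 0, 0, 1, 0, 0, 0, 1] [(0, 2), (3, 2), (7, 2), (13,
    2), (38, 2)])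
  (.fk [1, 1, 0, 1, 0, -1, 0, -1, 0, -1] [1, 1, 0, 0, 0, 1, 0, 1, -1, 0, 0, 1, -1] [(9, 2), (12,
    2), (47, 1), (53, 1), (59, 1)])
  (.fk [-2, 0, 0, 1, 0, 0, 1, 0, -1] [0, 1, 1, 0, 1, -1, 0, 0, 0, 1, 0, 0, 1, -1] [(0, 2), (7,
    1), (16, 1), (58, 1), (59, 1)])
  (.fk [] [1, 0, 0, 0, 0, 1, 0, 0, 0, 1, 0, 0, 0, -1] [(34, 2)])
  (.fk [0, 0, 0, 0, 0, -2] [1, 2, 0, 0, 2, -1, 0, 0, 0, 1, 0, 2, -2, 1] [(0, 2), (7, 2), (12, 2),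
    (13, 2), (47, 2), (57, 2)]))
  (.fk [0, 0, 0, 0, 0, 0, 0, -1] [1, 0, 0, 0, 1] [(0, 1), (6, 1), (12, 1), (22, 1), (53, 1)])
  (.fk [0, 0, 0, 0, 0, -1] [1, 0, 0, 0, 0, 0, 0, 0, 1] [(3, 1), (6, 1), (12, 1), (16, 1), (47,
    1)])
  (.fk [4, 3, 0, -4, -1, -4, 0, -3] [4, 4, 4, 3, 0, -1, 0, 4] [(5, 1), (7, 4), (12, 8), (16, 4),
    (22, 3), (38, 4), (44, 1), (47, 4), (53, 3), (54, 1)])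
  (.fk [0, -1, -3, 3, -1] [0, 3, 3, -1, 0, -1, 0, 0, 3] [(5, 4), (6, 3), (9, 3), (16, 3), (21,
    1), (44, 1), (49, 3), (54, 1)])
  (.fk [0, 0, 0, 0, 0, 0, 0, -1] [1, 0, 0, 1] [(0, 1), (6, 1), (12, 1), (22, 1), (53, 1)])
  (.fk [0, 0, 0, 0, 0, -1] [1, 0, 0, 0, 0, 0, 0, 1] [(3, 1), (6, 1), (12, 1), (16, 1), (47, 1)]))
  (.fk [0, 0, 0, 0, 0, -1] [1, 0, 0, 0, 1] [(0, 1), (3, 1), (16, 1), (21, 1), (47, 1)])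
  (.sp 1 2 3 4
  (.fk [] [1, 0, 0, 0, 0, 1, 0, 0, 0, 0, 1] [(31, 1), (34, 1), (39, 1)])
  (.sp 0 1 2 3
  (.fk [0, 0, -1] [1, 0, 0, 0, 0, 0, 0, 0, 1] [(0, 1), (7, 1), (12, 1), (21, 1), (38, 1)])
  (.fk [] [0, 1, 0, 0, -1, 0, 0, 0, 0, 1, 0, 0, 0, 0, 1] [(34, 2)])
  (.fk [-2] [2, -1, 0, 0, 1, 0, 0, 0, 2, -1, 0, 0, 0, 2, -1] [(6, 2), (12, 2), (16, 2), (21, 2),
    (49, 2)])
  (.fk [1, 0, 0, -1, 0, -1] [0, 1, 1, -1, 0, 0, 0, 0, 1, 0, 0, 1, 0, 1] [(5, 1), (7, 1), (12, 1),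
    (16, 1), (34, 1), (38, 1), (47, 1)])
  (.fk [7, 1, -7, 7, -6, 0, 0, -6, 6, -6] [7, 7, 1, -7, 0, 6, 0, 6, 13, -6, 0, 0, 0, 7] [(9, 14),
    (12, 12), (21, 12), (22, 6), (34, 12), (38, 6), (57, 6), (59, 6)])
  (.fk [] [0, 1, 0, -1, 0, 0, 0, 0, 1, 0, 0, 0, 0, 1] [(31, 2)])
  (.fk [2, 0, 0, -2, 0, -16, 0, 0, -2] [14, -1, 14, -1, 16, -2, 0, 14, 1, 0, 0, 16, -16, 1] [(6,
    14), (7, 14), (12, 30), (21, 14), (47, 16), (54, 2), (56, 2), (57, 16), (58, 2)]))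
  (.fk [0, -1] [1, 0, 0, 0, 1, -1, 0, 0, 0, 0, 1] [(5, 1), (9, 1), (12, 1), (13, 2), (21, 1),
    (31, 1)])
  (.fk [1, 0, 0, 1, 0, -1, -1, 0, 1, -1] [1, 1, 1, 0, 1, 0, 0, 1, -1, 1] [(9, 1), (12, 1), (34,
    1), (47, 1), (49, 1), (50, 2)])
  (.fk [] [1, 0, 0, 0, 1, 0, 0, 0, 0, 1] [(31, 1), (34, 1), (39, 1)])
  (.fk [1, 0, 0, 0, 1, -1, -1] [0, 0, 1, 0, 0, 1, 0, 1, -1, 1] [(47, 1), (53, 1), (59, 1)])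
  (.fk [0, -1] [1, 0, 0, 1, -1, 0, 0, 0, 0, 1] [(5, 1), (9, 1), (12, 1), (13, 2), (21, 1), (31,
    1)]))
  (.fk [0, 0, 0, 0, 1, -1, 0, 0, -1] [1, 1, 1, 1] [(0, 1), (5, 1), (16, 1), (22, 1), (34, 1),
    (47, 1), (53, 1)])
  (.sp 0 1 2 3
  (.fk [1, 1, 0, 0, 1, -1, -1, -1] [0, 0, 1, 0, 1, 1, 1, 1, -1, 1] [(9, 1), (12, 1), (31, 1),
    (47, 1), (50, 1), (55, 1), (56, 1)])
  (.fk [0, 0, 0, 0, 0, 0, 0, -1] [1, 0, 0, 0, 1, 1] [(0, 1), (5, 1), (6, 1), (12, 1), (53, 1),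
    (55, 1)])
  (.fk [0, 0, 0, 0, 0, -1] [1, 0, 0, 0, 0, 0, 0, 1] [(3, 1), (6, 1), (12, 1), (16, 1), (47, 1)])
  (.fk [9, 8, 0, -9, -1, -9, 0, -8, -1] [10, 9, 9, 8, -1, -1, 9, 0, -1] [(7, 9), (9, 1), (12,
    18), (16, 9), (22, 9), (34, 2), (38, 9), (47, 9), (48, 1), (53, 9), (54, 1)])
  (.fk [0, 0, -2, 1] [0, 2, 1] [(2, 2), (5, 1), (6, 2), (9, 1), (38, 1), (40, 1)])
  (.fk [1, 0, 0, 0, 1, -1, -1, -1] [1, 0, 0, 1, 0, 1, 1, -1, 1] [(0, 1), (6, 1), (12, 1), (22,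
    1), (47, 1), (50, 1), (56, 1)])
  (.fk [-1, 1, 0, 0, 0, 0, 0, -1] [1, 1, 1, 1, 1] [(3, 1), (6, 1), (7, 1), (12, 1), (39, 1), (40,
    1), (53, 1), (55, 1)]))
  (.fk [0, 0, 0, 0, 0, -1] [1, 0, 0, 1] [(0, 1), (3, 1), (16, 1), (21, 1), (47, 1)])
  (.fk [0, -1] [1, 1] [(5, 1), (12, 1), (13, 1), (21, 1), (54, 1)]))
  (.sp 0 1 2 3
  (.fk [] [0, 0, 1, 0, 0, 1] [(9, 1), (13, 1), (34, 1), (48, 1)])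
  (.sp 0 1 3 4
  (.fk [-2, 0, 0, 0, 0, 0, 0, -4] [4, 0, -1, 0, 4, 1, 0, 0, 4, 1] [(0, 10), (2, 2), (6, 4), (15,
    4), (22, 4), (39, 1), (48, 1), (53, 4), (54, 1)])
  (.fk [0, 0, 0, 0, -1] [1, 0, 0, 0, 1] [(0, 1), (6, 1), (13, 1), (21, 1), (44, 1)])
  (.fk [0, -1] [1, 0, 0, 0, 0, -1, 0, 0, 1, 1] [(0, 1), (5, 1), (9, 1), (13, 1), (15, 1), (21,
    1), (48, 1)])
  (.sp 1 2 3 4
  (.fk [0, 0, 0, -6, 0, -1] [-3, 6, -1, 0, 3, 6, 0, 0, -3, 5, 0, 0, 3, -1] [(2, 4), (5, 6), (7,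
    5), (13, 6), (15, 1), (22, 6), (47, 1), (57, 1), (58, 6)])
  (.fk [2, -2, 0, -2] [1, 0, 0, 0, 1, 0, 0, 2, -3, 2, 0, 0, 1] [(5, 2), (6, 2), (7, 2), (13, 2),
    (41, 2)])
  (.fk [] [1, 0, 0, 0, 1, 0, 0, 0, -1, 0, 0, 0, 1] [(9, 2), (13, 2), (48, 2)])
  (.fk [-2, -1, 0, 1, -1, 0, 1, -1, 2, -1] [1, 1, 1, -2, -1, -1, 0, 1, 0, 0, 1, 1] [(0, 3), (2,
    2), (3, 1), (15, 1), (21, 1)])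
  (.fk [] [-1, 0, 0, 1, 0, 0, 0, -1, 0, 0, 0, 1] [(9, 2), (13, 2)])
  (.fk [0, 0, 0, -1] [1, 0, 0, 1, 0, 0, 0, -1, 1, 0, 0, 1] [(2, 1), (7, 1), (13, 2), (39, 1),
    (41, 1)])
  (.fk [1, 0, 0, -1, -1, 0, 0, -1, 1] [1, 0, 1, 0, 0, -1, 0, 0, 1, 0, 1, -1] [(7, 1), (15, 1),
    (21, 1), (22, 1), (58, 1)]))
  (.fk [-2, 1, 0, 0, 1, 0, 0, -1] [1, 1, 1, 0, 1, 0, 0, 0, 1] [(0, 2), (2, 2), (39, 1), (48, 1),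
    (55, 1), (56, 1)])
  (.fk [0, 0, 0, 0, -1] [1, 0, 0, 1] [(0, 1), (6, 1), (13, 1), (21, 1), (44, 1)])
  (.fk [0, -1, 0, 0, -1] [1, 1, 0, 0, 0, 0, 0, 2] [(0, 2), (5, 1), (13, 2), (15, 2), (21, 1),
    (44, 1), (54, 1)]))
  (.fk [0, 0, 0, 0, -1] [1, 0, 0, 0, 1] [(3, 1), (6, 1), (13, 1), (15, 1), (44, 1)])
  (.fk [] [1, 0, 0, 0, 1] [(9, 1), (13, 1), (34, 1), (48, 1)])
  (.fk [-3, 0, -1, 1] [1, 1, 1, 0, 3] [(0, 4), (2, 4), (3, 1), (5, 1), (9, 1), (13, 3), (48, 3)])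
  (.fk [0, -1] [1, 1, 0, 0, 1] [(0, 1), (5, 1), (6, 1), (13, 1), (39, 1), (48, 1)])
  (.fk [-1] [1, 0, 1, 0, 1] [(3, 1), (6, 1), (7, 1), (13, 1), (40, 1), (48, 1)]))
  (.sp 0 1 3 4
  (.sp 1 2 3 4
  (.sp 0 1 2 3
  (.fk [0, 0, -1] [1, 0, 0, 0, 0, 0, 0, 0, 0, 0, 0, 0, 1] [(3, 1), (7, 1), (12, 1), (15, 1), (38,
    1)])
  (.fk [1, 1, 0, -1, 0, 0, 0, -3] [1, 0, 1, 0, -1, 1, 0, 0, 3, -1, 1, 0, 0, 1] [(3, 1), (6, 1),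
    (7, 1), (12, 3), (22, 2), (53, 3), (58, 1)])
  (.fk [] [0, 1, 0, 0, -1, 0, 0, 0, 0, 0, 1, 0, 0, 1] [(31, 2)])
  (.fk [0, 1, 0, -1, 0, 0, 0, -1] [0, 1, 1, -1, 0, 0, 0, 1, 0, 1, 0, 0, 1] [(2, 1), (7, 1), (12,
    1), (22, 1), (31, 1), (38, 1), (53, 1)])
  (.fk [1, 7, -13, 7, 6, 0, -6, -6] [1, 13, 7, -7, 0, -6, 0, 6, 0, 7, 0, 0, 1, 6] [(2, 12), (6,
    12), (9, 14), (22, 6), (38, 6), (47, 6), (53, 6), (57, 6)])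
  (.fk [0, -1] [1, 0, 0, 0, 0, 0, 0, 0, 0, 0, 0, 1] [(5, 1), (6, 1), (12, 1), (15, 1), (34, 1)])
  (.fk [] [0, 1, 0, -1, 0, 0, 0, 0, 0, 1, 0, 0, 1] [(34, 2)]))
  (.fk [] [1, 0, 0, 0, 0, 0, 1, 0, 0, 1] [(31, 1), (34, 1), (39, 1)])
  (.fk [-1] [1, 0, 0, 0, 0, 0, 1, 0, 1, -1] [(2, 1), (9, 1), (12, 1), (13, 2), (15, 1), (34, 1)])
  (.fk [0, 0, 0, 1, -1, 0, 1, 0, 0, -1] [1, 1, 1, 0, 0, 0, 0, 0, 1] [(9, 1), (12, 1), (31, 1),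
    (44, 1), (55, 1), (56, 1)])
  (.fk [0, 1, 0, 0, 1, 0, 0, -1, -1] [0, 0, 1, 1, -1, 1, 0, 0, 0, 1] [(47, 1), (53, 1), (59, 1)])
  (.fk [] [1, 0, 0, 0, 0, 1, 0, 0, 1] [(31, 1), (34, 1), (39, 1)])
  (.fk [-1] [1, 0, 0, 0, 0, 1, 0, 1, -1] [(2, 1), (9, 1), (12, 1), (13, 2), (15, 1), (34, 1)]))
  (.fk [-1] [1, 0, 0, 0, 1] [(2, 1), (3, 1), (15, 1), (21, 1), (31, 1)])
  (.sp 0 1 2 3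
  (.fk [1, 0, -6, -1, -1] [6, -1, 0, 0, 6, 0, 0, 0, 5, 1] [(7, 5), (12, 12), (15, 5), (21, 6),
    (38, 6), (39, 1), (41, 1), (44, 1), (48, 1)])
  (.fk [0, -1] [1, 0, 0, 0, 0, 0, 0, 0, 1] [(5, 1), (6, 1), (12, 1), (15, 1), (34, 1)])
  (.fk [-1] [1, 0, 0, 0, 1] [(2, 1), (6, 1), (12, 1), (21, 1), (31, 1)])
  (.sp 1 2 3 4
  (.fk [] [1, 0, 0, 0, 1, 0, 0, 0, 1, 0, 0, 0, -1] [(34, 2)])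
  (.fk [] [1, 0, 0, 0, 1, 0, 0, 0, -1, 0, 0, 0, 1] [(31, 2)])
  (.fk [-1, 0, 0, 0, 1, 0, -1] [0, 1, 0, 0, 0, 1, 0, 0, 0, 0, 0, 1, -1, 1] [(2, 2), (7, 1), (15,
    1), (47, 1), (57, 1)])
  (.fk [0, 0, 0, -1, -2, 0, 1, 0, 1, -1] [1, 1, 1, -1, 2, 2, 0, 1, 0, 0, 0, 1] [(2, 2), (5, 2),
    (7, 2), (12, 2), (38, 2), (39, 2), (44, 2)])
  (.fk [] [1, 0, 0, 1, 0, 0, 0, 1, 0, 0, 0, -1] [(34, 2)])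
  (.fk [0, -2, 0, 0, 2, 0, -2] [1, 2, 0, 1, 2, 0, 2, -1, 0, 0, 0, -1, 2] [(2, 2), (5, 2), (7, 2),
    (21, 2), (34, 2), (47, 2), (57, 2)])
  (.fk [0, 0, 0, -2] [1, 0, 0, 1, 2, 2, 0, -1, 0, 0, 0, -1] [(2, 2), (5, 2), (7, 2), (13, 2),
    (38, 2)]))
  (.fk [-1, -1, -7, -1] [7, -1, -1, 8, 0, 0, 0, 8] [(7, 8), (12, 16), (15, 8), (21, 8), (31, 1),
    (34, 1), (38, 8), (39, 1)])
  (.fk [0, -1] [1, 1, 0, 0, 0, 0, 0, 1] [(5, 1), (6, 1), (12, 1), (15, 1), (31, 1), (39, 1)])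
  (.fk [-1] [1, 0, 0, 1] [(2, 1), (6, 1), (12, 1), (21, 1), (31, 1)]))
  (.fk [-1, 0, 0, 0, 1, 0, 0, 0, -1] [1, 1, 1, 1] [(2, 1), (5, 1), (15, 1), (22, 1), (31, 1),
    (34, 1), (53, 1)])
  (.sp 0 1 2 3
  (.fk [0, 0, -1] [1, 0, 0, 0, 0, 0, 0, 1] [(3, 1), (7, 1), (12, 1), (15, 1), (38, 1)])
  (.fk [0, -1] [1, 0, 0, 0, 0, 0, 0, 1] [(5, 1), (6, 1), (12, 1), (15, 1), (34, 1)])
  (.sp 1 2 3 4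
  (.fk [0, 1, 0, 0, -1, 0, 0, -1, 1] [-1, 0, 0, 0, 0, -1, 0, 0, 1, 1, 1, 0, 1] [(9, 2), (12, 2),
    (44, 2)])
  (.fk [0, 7, 0, -2, -9, 0, 0, -7, 7] [7, 0, 0, 0, 0, -9, 0, 0, 7, 7, 7, 0, 9] [(12, 16), (34,
    2), (40, 2), (41, 2), (44, 16), (48, 2)])
  (.fk [-4, 1, 0, 0, 1, 0, 0, -1, 1] [1, 0, 0, 0, 2, -1, 0, 0, -1, 1, 1, 2, -1] [(2, 4), (6, 2),
    (9, 2), (15, 2), (21, 2), (31, 2)])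
  (.fk [0, 1, 0, 1, -1, 0, 1, -1, 0, -1] [1, 1, 1, 0, -1, 0, 0, 1, 1, -1, 0, 1] [(9, 2), (12, 2),
    (53, 2), (55, 2)])
  (.fk [-2, 1, 0, 0, 1, 0, 0, 0, -1] [1, 1, 1, 1, -1, 1, 0, 0, 0, 0, 1, -1, 1] [(2, 2), (6, 1),
    (15, 1), (38, 1), (47, 1), (58, 1), (59, 1)])
  (.fk [-2, 1, 0, 0, -1, 0, 0, -1, 1] [1, 0, 0, 2, -1, 0, 0, 1, 1, 1, 0, 1] [(2, 2), (3, 2), (6,
    2), (12, 2), (31, 2), (44, 2)])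
  (.fk [-7, 5, 0, -3, 2, 0, 0, -2, 2] [2, 0, 0, 5, -5, 3, 0, 0, 2, 2, 2, -2] [(2, 7), (6, 5), (9,
    4), (15, 2), (21, 2), (38, 3), (40, 3)]))
  (.fk [0, 1, 0, -1, 0, 0, 0, -1] [1, 1, 1, 1, 1] [(2, 1), (5, 1), (7, 1), (12, 1), (31, 1), (38,
    1), (53, 1), (55, 1)])
  (.fk [0, 0, -1] [1, 1, 0, 0, 0, 0, 1] [(2, 1), (3, 1), (12, 1), (15, 1), (38, 1), (40, 1)])
  (.fk [0, -1, 0, 0, -1, 0, 0, -7, -1] [8, 1, 0, 7, -1, -1, 8, 1] [(6, 8), (12, 16), (15, 8),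
    (22, 8), (31, 2), (39, 1), (48, 1), (53, 8), (54, 1)])
  (.fk [-1, 1, 0, 0, 0, 0, 0, -1] [1, 1, 1, 1, 1] [(3, 1), (6, 1), (7, 1), (12, 1), (39, 1), (40,
    1), (53, 1), (55, 1)]))
  (.fk [-1] [1, 0, 0, 1] [(2, 1), (3, 1), (15, 1), (21, 1), (31, 1)])
  (.fk [0, -1] [1, 1] [(5, 1), (12, 1), (13, 1), (21, 1), (54, 1)]))
  (.sp 0 1 3 4
  (.fk [0, 0, 0, 0, 1, 0, -1, -1] [1, 0, 0, 0, 1, 1, 1] [(2, 1), (3, 1), (16, 1), (22, 1), (31,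
    1), (47, 1), (53, 1)])
  (.sp 0 1 2 3
  (.fk [1, 0, -1, 0, 0, 0, -1] [1, 0, 0, 0, 0, 0, 0, 0, 1, 1, 1] [(3, 1), (7, 1), (13, 1), (16,
    1), (38, 1), (44, 1), (47, 1)])
  (.fk [0, 0, 0, 0, -1] [1, 0, 0, 0, 1] [(0, 1), (6, 1), (13, 1), (21, 1), (44, 1)])
  (.sp 1 2 3 4
  (.fk [0, 2, 0, -2, -2, 0, -2] [5, 0, -2, 0, 0, -7, 2, 0, 2, 5, 0, 0, 7, 0, 2] [(13, 14), (21,
    2), (38, 2), (44, 4), (47, 2), (57, 2)])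
  (.fk [-1, 1, 0, -1] [0, 1, 0, 0, 1, -1, 1, 0, 0, 0, 0, 0, 0, 1] [(2, 2), (6, 1), (16, 1), (38,
    1), (57, 1)])
  (.fk [] [1, 0, 0, 0, 0, -1, 0, 0, 0, 1, 0, 0, 1] [(9, 2), (13, 2), (54, 2)])
  (.fk [-14, 0, 0, 5, 0, 0, 5, 0, 5, -5] [5, 5, 5, 0, -7, 0, 0, 0, 7, 0, 0, -7] [(0, 14), (2,
    14), (9, 12), (48, 2), (54, 2)])
  (.fk [0, -1] [1, 0, 0, 0, 0, 0, 0, 0, 1, 0, 0, 1] [(3, 1), (5, 1), (13, 2), (31, 1), (39, 1)])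
  (.fk [] [-1, 0, 0, 0, -1, 0, 0, 0, 1, 0, 0, 1] [(9, 2), (13, 2)])
  (.fk [0, 2, 0, -2, -2] [1, 2, 0, 0, -1, 2, 0, 2, -1, 0, 0, 1, 2] [(2, 2), (13, 2), (16, 2),
    (21, 2), (38, 2), (44, 2), (57, 2)]))
  (.fk [0, 0, 0, -1] [1, 1, 1, 0, 1] [(2, 1), (5, 1), (7, 1), (13, 1), (31, 1), (38, 1), (54, 1)])
  (.fk [-2, 0, -5, 5, -2, -2, 2] [0, 5, 5, 0, 0, 0, 0, -2, -2, -2] [(0, 2), (2, 5), (5, 5), (6,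
    5), (9, 5), (12, 2), (15, 2)])
  (.fk [1, -2, 0, 0, 0, 0, -1] [1, 0, 0, 0, 2, 0, 0, 1, 1, 1] [(3, 1), (5, 2), (6, 1), (13, 3),
    (16, 1), (44, 1), (47, 1), (54, 2)])
  (.fk [-1] [1, 1, 1, 0, 1] [(3, 1), (6, 1), (7, 1), (13, 1), (39, 1), (40, 1), (54, 1)]))
  (.fk [0, -1, 0, 0, 1, 0, -1] [1, 0, 0, 0, 1, 1, 1] [(2, 1), (5, 1), (16, 1), (21, 1), (31, 1),
    (34, 1), (47, 1)])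
  (.sp 0 1 2 3
  (.fk [0, 1, -1, 0, 0, 0, 0, 0, -1] [1, 0, 0, 0, 1, 1] [(0, 1), (7, 1), (13, 1), (22, 1), (38,
    1), (56, 1)])
  (.fk [1, -1, 0, 0, 0, 0, -1] [1, 0, 0, 0, 0, 0, 0, 1, 1, 1] [(5, 1), (6, 1), (13, 1), (16, 1),
    (34, 1), (44, 1), (47, 1)])
  (.fk [-1, 1, 0, 0, 0, 0, 0, 0, -1] [1, 0, 0, 0, 1, 1, 1] [(2, 1), (6, 1), (13, 1), (22, 1),
    (31, 1), (44, 1), (53, 1)])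
  (.sp 1 2 3 4
  (.fk [0, 0, 0, -2] [-1, 2, 0, 0, 1, 2, 0, 1, 2, 0, -1] [(2, 2), (5, 2), (7, 2), (22, 2), (34,
    2), (58, 2)])
  (.fk [] [1, 0, 0, 0, 1, 0, 0, 1, 0, 0, -1] [(34, 2)])
  (.fk [0, 0, 0, -2, 0, -1, 2, 0, 0, -1] [3, -1, 1, 0, -1, 1, 2, 3, 0, 1, 1, -1, -1] [(5, 2), (7,
    1), (13, 4), (15, 1), (34, 2), (38, 2), (53, 1), (58, 1)])
  (.fk [0, 0, 0, 0, 0, 0, 0, 0, 0, -4] [1, 4, 0, 0, 1, 4, 0, 4, 0, 0, 1] [(2, 2), (5, 8), (7, 1),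
    (16, 1), (22, 4), (38, 4), (57, 3), (59, 4)])
  (.fk [] [1, 0, 0, 1, 0, 0, -1, 0, 0, 1] [(31, 2)])
  (.fk [] [1, 0, 0, 1, 0, 0, 1, 0, 0, -1] [(34, 2)])
  (.fk [0, 0, 0, -1] [0, 1, 1, 0, 0, 0, 0, 1, 0, 0, 1] [(2, 1), (5, 1), (16, 1), (22, 1), (39,
    1), (57, 1), (58, 1)]))
  (.fk [-2, -2, -15, 15, -4, -4, 2] [-2, 15, 15, -2, 0, 0, -2, -4, -4] [(2, 13), (5, 17), (6,
    17), (9, 15), (12, 4), (15, 4), (49, 2), (50, 2), (54, 2)])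
  (.fk [1, -1, 0, 0, 0, 0, -1] [1, 0, 0, 0, 0, 0, 1, 1, 1] [(5, 1), (6, 1), (13, 1), (16, 1),
    (34, 1), (44, 1), (47, 1)])
  (.fk [-1, 1, 0, 0, 0, 0, 0, 0, -1] [1, 0, 1, 1, 1, 1] [(6, 1), (7, 1), (13, 1), (22, 1), (31,
    1), (40, 1), (44, 1), (53, 1)]))
  (.fk [0, 0, 0, 0, 1, 0, -1, -1] [1, 1, 0, 1, 1, 1] [(2, 1), (3, 1), (5, 1), (16, 1), (31, 1),
    (47, 1), (53, 1), (55, 1)])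
  (.sp 1 2 3 4
  (.fk [] [1, 0, 0, 0, 0, 1, 0, 1] [(31, 1), (34, 1), (39, 1)])
  (.fk [0, 0, 0, 1, 0, 0, -1, 0, 1, -1] [1, -1, 1, 0, 0, 0, 1, 0, 0, 1] [(47, 1), (53, 1), (59,
    1)])
  (.fk [] [1, 0, 0, 0, 0, 0, 0, 1] [(9, 1), (13, 1), (31, 1), (54, 1)])
  (.fk [0, -3, 0, 2, 0, 0, -2, 0, 2, -2] [2, 2, 2, 0, 2, 0, 2, 4, 4] [(2, 4), (3, 3), (5, 3), (9,
    2), (16, 4), (31, 2), (34, 5), (44, 4), (47, 4)])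
  (.fk [] [1, 0, 0, 0, 1, 0, 1] [(31, 1), (34, 1), (39, 1)])
  (.sp 0 1 2 3
  (.fk [1, 0, -1, 0, 0, 0, -1] [1, 0, 0, 0, 0, 0, 0, 0, 0, 0, 1, 1, 1] [(3, 1), (7, 1), (13, 1),
    (16, 1), (38, 1), (44, 1), (47, 1)])
  (.fk [14, 0, 0, 0, -14, 0, -14, 0, -2, -2] [14, 1, 14, 0, -1, 14, -2, 14, -1, 0, 15, 0, 16]
    [(6, 14), (7, 14), (13, 30), (21, 14), (44, 30), (47, 16), (55, 2), (57, 16), (58, 2)])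
  (.fk [] [0, 1, 0, 0, -1, 0, 0, 0, 1, 0, 1] [(31, 2)])
  (.fk [0, 1, 0, -1, -1] [0, 1, 1, -1, 0, 0, 1, 1, 0, 1] [(2, 1), (7, 1), (13, 1), (21, 1), (31,
    1), (38, 1), (44, 1)])
  (.fk [-1, -1, -5, 5, 0, -3] [5, 2, 5, 1, 3, 0, 0, -1, 0, -1, -3] [(0, 6), (3, 6), (5, 6), (7,
    3), (9, 4), (15, 3), (47, 3), (57, 3)])
  (.fk [8, 2, -2, -2, -10, 0, -8] [8, -1, -2, -1, 0, 0, 10, 1, 0, 9, 8, 8] [(6, 10), (7, 2), (13,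
    18), (16, 8), (21, 10), (40, 2), (44, 18), (47, 8)])
  (.fk [] [0, 1, 0, -1, 0, 0, 0, 1, 0, 1] [(34, 2)]))
  (.fk [0, 0, 0, -1, 0, 0, -1, 0, 1] [0, 1, 1, 0, 1, 1, 1, 2, 1] [(2, 2), (16, 2), (31, 1), (34,
    1), (39, 1), (47, 1), (53, 1), (57, 1), (58, 1)]))
  (.fk [0, -1, 0, 0, 1, 0, -1] [1, 1, 0, 0, 1, 1] [(2, 1), (5, 1), (16, 1), (21, 1), (47, 1),
    (48, 1), (54, 1)]))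
  (.sp 0 1 2 3
  (.fk [1, 0, 0, 0, 0, -1] [0, 0, 1, 0, 1, 1] [(9, 1), (12, 1), (34, 1), (47, 1), (49, 1)])
  (.sp 0 1 3 4
  (.fk [0, 0, 0, 0, 0, 0, 0, -1] [1, 0, 0, 0, 1] [(0, 1), (6, 1), (12, 1), (22, 1), (53, 1)])
  (.fk [2, -5, 0, 0, 2, -2] [0, 2, 0, 0, 5, -3, 0, 0, 2, 2, 2] [(0, 5), (5, 5), (6, 5), (9, 3),
    (31, 1), (49, 2), (50, 2), (54, 2)])
  (.sp 1 2 3 4
  (.fk [1, -1, 0, 0, -1, -1, 1] [1, 0, 0, 0, 1, 1, 0, 0, 0, -2, 0, 0, 1, 1, 1] [(5, 1), (9, 1),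
    (12, 3), (21, 1), (31, 1), (44, 2)])
  (.fk [1, 0, 0, 0, -1, -1, 1] [-1, 0, 0, 0, 0, 1, 0, 0, 0, -1, 0, 0, 1, 1, 1] [(9, 2), (12, 2),
    (44, 2)])
  (.fk [0, 0, 0, 0, 0, -1] [0, 1, 0, 0, 0, 0, 0, 0, 0, 0, 1, 0, 0, 1, 1] [(2, 2), (7, 1), (15,
    1), (44, 1), (50, 1), (57, 1)])
  (.fk [1, 0, 0, 1, -1, -1, 0, 0, 1, -1] [1, 1, 1, 0, 1, 0, 0, 0, -1, 0, 0, 1, 1, 1] [(9, 2),
    (12, 2), (44, 2), (49, 2), (50, 2)])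
  (.fk [1, -2, 0, 0, -1, -1, 1] [1, 0, 0, 0, 1, 0, 0, 2, -1, 0, 0, 1, 1, 1] [(0, 2), (5, 2), (6,
    2), (12, 2), (34, 2), (44, 2)])
  (.fk [0, 0, 0, 0, 0, -1] [0, 1, 0, 0, 0, 0, 0, 0, 0, 1, 0, 0, 1] [(2, 2), (7, 1), (15, 1), (47,
    1), (57, 1)])
  (.fk [-2, -2, -3, 0, 4, -4, 4] [4, 3, 0, 4, -4, 0, 0, -2, 2, -3, 0, 0, 1, 4] [(5, 2), (6, 1),
    (9, 2), (15, 4), (16, 3), (21, 4), (38, 3), (57, 3)]))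
  (.fk [0, 0, 0, 0, 1, -1, 0, 0, -1] [1, 1, 1, 0, 0, 0, 0, 1, 1] [(0, 1), (2, 1), (5, 1), (22,
    1), (34, 1), (47, 1), (49, 1), (53, 1)])
  (.fk [0, 0, 0, 0, 0, 0, 0, -1] [1, 1, 0, 1] [(0, 1), (5, 1), (6, 1), (12, 1), (53, 1), (55, 1)])
  (.fk [3, 0, 0, 0, -3, -3] [5, 3, 0, 5, -3, 0, 0, 2, 3] [(0, 4), (6, 5), (9, 3), (15, 1), (21,
    5), (44, 3), (47, 3), (49, 3), (54, 3)])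
  (.fk [0, -1, 0, 0, 1, -1] [1, 1, 1, 0, 0, 0, 0, 0, 1, 1] [(2, 1), (15, 1), (21, 1), (22, 1),
    (49, 1), (50, 1), (54, 1), (55, 1)]))
  (.fk [0, 0, 0, 0, 0, -1] [1, 0, 0, 0, 1, 1] [(2, 1), (3, 1), (6, 1), (12, 1), (47, 1), (49, 1)])
  (.fk [1, 0, 0, -1, 0, -1] [1, 1, 1, 1, 0, 1] [(5, 1), (7, 1), (12, 1), (16, 1), (34, 1), (38,
    1), (44, 1), (50, 1)])
  (.fk [0, 0, -4, 4, 0, 0, -3] [4, 4, 4] [(0, 4), (2, 4), (3, 4), (5, 4), (9, 4), (48, 3), (49,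
    3), (50, 3)])
  (.fk [1, -1, 0, 0, 0, -1] [1, 1, 0, 1, 1] [(0, 1), (5, 1), (6, 1), (12, 1), (39, 1), (47, 1),
    (49, 1)])
  (.fk [0, 0, 0, 0, 0, -1] [1, 0, 1, 1, 1] [(3, 1), (6, 1), (7, 1), (12, 1), (40, 1), (47, 1),
    (49, 1)]))
  (.sp 0 1 3 4
  (.fk [0, 0, 0, 0, 0, 0, 0, -1] [1, 0, 0, 0, 1] [(0, 1), (3, 1), (15, 1), (22, 1), (53, 1)])
  (.sp 0 1 2 3
  (.fk [] [0, 0, 1, 0, 0, 1] [(9, 1), (13, 1), (31, 1), (54, 1)])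
  (.fk [0, 0, 0, 0, -1] [1, 0, 0, 0, 1, 0, 0, 0, 0, 0, 1] [(0, 1), (6, 1), (13, 1), (21, 1), (47,
    1), (50, 1)])
  (.fk [0, 0, 0, 0, -1] [1, 0, 0, 0, 0, 0, 0, 0, 1, 0, 1] [(3, 1), (6, 1), (13, 1), (15, 1), (47,
    1), (50, 1)])
  (.fk [1, -1, 0, -1, -1] [1, 1, 1, 0, 2, 0, 0, 1, 0, 1] [(3, 1), (5, 2), (7, 1), (13, 3), (15,
    1), (38, 1), (47, 1), (50, 1), (54, 2)])
  (.fk [1, -1, -1, 1, 0, 0, 0, -1] [0, 1, 1, -1, 1, 0, 0, 1, 1] [(5, 2), (6, 1), (9, 1), (15, 1),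
    (22, 1), (48, 1), (53, 1), (54, 1)])
  (.fk [0, 0, 0, 0, -1] [1, 0, 0, 1, 0, 0, 0, 0, 0, 1] [(0, 1), (6, 1), (13, 1), (21, 1), (47,
    1), (50, 1)])
  (.fk [0, 0, 0, 0, -1] [1, 0, 0, 0, 0, 0, 0, 1, 0, 1] [(3, 1), (6, 1), (13, 1), (15, 1), (47,
    1), (50, 1)]))
  (.fk [0, -1] [1, 0, 0, 0, 1] [(0, 1), (5, 1), (15, 1), (21, 1), (34, 1)])
  (.sp 1 2 3 4
  (.fk [0, 0, 0, 1, 0, 0, 1, 0, -1, -1] [1, -1, 1, 0, 0, 0, 1, 0, 0, 1] [(47, 1), (53, 1), (59,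
    1)])
  (.fk [] [1, 0, 0, 0, 1, 0, 0, 0, 1] [(31, 1), (34, 1), (39, 1)])
  (.fk [] [1, 0, 0, 0, 1] [(9, 1), (13, 1), (34, 1), (48, 1)])
  (.fk [0, -3, 0, 4, -7, 0, 4, -3, 3, -4] [4, 4, 0, -3, 1, -3, 7, 4, 4] [(0, 7), (3, 3), (5, 4),
    (9, 4), (15, 7), (21, 3), (22, 4), (31, 4), (47, 4), (59, 4)])
  (.sp 0 1 2 3
  (.fk [0, 1, -1, 0, 0, 0, 0, 0, -1] [1, 0, 0, 0, 0, 0, 0, 1, 1, 1] [(0, 1), (7, 1), (13, 1),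
    (22, 1), (38, 1), (44, 1), (53, 1)])
  (.fk [] [0, 1, 0, 0, -1, 0, 0, 1, 0, 0, 0, 1] [(34, 2)])
  (.fk [0, 0, 0, 0, -1] [1, 0, 0, 0, 0, 0, 0, 0, 0, 0, 1] [(3, 1), (6, 1), (13, 1), (15, 1), (44,
    1)])
  (.fk [1, 0, 0, -1, -1] [0, 1, 1, -1, 0, 0, 1, 0, 0, 1, 1] [(5, 1), (7, 1), (13, 1), (15, 1),
    (34, 1), (38, 1), (44, 1)])
  (.fk [2, -1, -2, 2, -3, 0, 0, -3, 3] [2, 2, 2, -2, 0, 0, -1, -3, -3, 3, 2] [(0, 3), (3, 3), (9,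
    4), (15, 3), (21, 3)])
  (.fk [] [0, 1, 0, -1, 0, 0, 1, 0, 0, 0, 1] [(31, 2)])
  (.fk [0, 1, 0, 0, -1, 0, 0, 0, -1] [1, 0, 0, 0, 0, 0, 1, 1, 1, 1, 1] [(6, 1), (13, 1), (15, 1),
    (22, 1), (31, 1), (44, 2), (48, 1), (53, 1)]))
  (.fk [] [1, 0, 0, 1, 0, 0, 0, 1] [(31, 1), (34, 1), (39, 1)])
  (.fk [0, 0, 0, -1, -1, 0, 1] [0, 1, 1, 0, 1, 0, 1, 1, 1] [(0, 1), (5, 1), (15, 1), (22, 1),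
    (31, 1), (39, 1), (47, 1), (57, 1), (58, 1)]))
  (.fk [0, 0, 0, 0, 0, 0, 0, -1] [1, 0, 1, 1, 0, 1] [(0, 1), (3, 1), (15, 1), (22, 1), (47, 1),
    (50, 1), (56, 1)])
  (.sp 0 1 2 3
  (.sp 1 2 3 4
  (.fk [] [1, 0, 0, 0, 0, 0, 1, 0, 0, 1, 0, 0, -1] [(34, 2)])
  (.fk [-1, 0, 0, 0, -1, 0, 1] [-1, 1, 0, 0, 0, 1, -1, 0, 1, 1, 0, 0, 0, 1] [(0, 1), (3, 1), (7,
    1), (21, 1), (47, 1), (57, 1)])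
  (.fk [] [1, 0, 0, 0, 0, 0, 1, 0, 0, -1, 0, 0, -1] [(9, 2), (13, 2)])
  (.fk [0, 0, 0, 1, -4, 0, 1, 0, 1, -1] [1, 1, 1, 0, 0, -2, 0, 0, 2, 0, 4, 2, 4] [(0, 4), (15,
    4), (39, 1), (47, 4), (48, 1), (50, 4), (54, 1)])
  (.fk [] [1, 0, 0, 0, 0, 1, 0, 0, 1, 0, 0, -1] [(34, 2)])
  (.fk [] [1, 0, 0, 0, 0, 1, 0, 0, -1, 0, 0, 1] [(31, 2)])
  (.fk [-1, 0, 0, -1, -3, 0, 2, 0, 1] [1, 2, 1, -2, 1, 0, 0, 2, 0, 1, 1, 1, 2] [(6, 2), (7, 1),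
    (13, 2), (15, 1), (21, 2), (31, 2), (47, 2), (53, 1), (57, 2), (58, 1)]))
  (.fk [0, 0, 0, 0, -1] [1, 0, 0, 0, 1] [(0, 1), (6, 1), (13, 1), (21, 1), (44, 1)])
  (.fk [0, 0, 0, 0, -1] [1, 0, 0, 0, 0, 0, 0, 1, 0, 1] [(3, 1), (6, 1), (13, 1), (15, 1), (47,
    1), (50, 1)])
  (.fk [2, 2, 0, -2, -4] [1, 2, 2, 2, 1, 0, 2, 1] [(7, 2), (13, 2), (15, 2), (21, 2), (38, 2),
    (39, 1), (44, 4), (48, 1), (54, 1)])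
  (.fk [3, 3, -3, 3, -6, -1, -1] [0, 3, 3, 3, 3, 0, 3, 3, -1] [(6, 3), (9, 3), (15, 4), (16, 1),
    (21, 3), (44, 7), (48, 4), (49, 1), (54, 3)])
  (.fk [0, 0, 0, 0, -1] [1, 0, 0, 1] [(0, 1), (6, 1), (13, 1), (21, 1), (44, 1)])
  (.fk [0, 0, 0, 0, -1] [1, 0, 0, 0, 0, 0, 1] [(3, 1), (6, 1), (13, 1), (15, 1), (44, 1)]))
  (.fk [0, -1] [1, 1, 0, 1, 1] [(0, 1), (5, 1), (15, 1), (21, 1), (31, 1), (48, 1), (54, 1)]))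
  (.fk [-1] [1, 1] [(2, 1), (12, 1), (13, 1), (15, 1), (48, 1)])

theorem n5_ok : ck 512 6402797 n5 [] = true := by decide +kernel

end Pool.Agent.MP_0af329_co.Q5
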