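import Pool.Agent.MP_0af329_co.QGeo2

/-!
# Certificates that exclude angle patterns of five points

A pattern prescribes for some of the 30 angles of five points whether they are below `π / 4`.
A certificate splits a 4-subset into its seven position types; its leaves are linear
contradictions between angles or one of the three exclusion lemmas.
-/

set_option autoImplicit false

namespace Pool.Agent.MP_0af329_co.Q5

open EuclideanGeometry

/-! ### Linear forms -/

/-- The value of a linear form. -/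
def lin : List ℤ → (ℕ → ℝ) → ℝ
  | [], _ => 0
  | a :: l, v => a * v 0 + lin l (fun n => v (n + 1))

/-- Add `k` to the coefficient `n`. -/
def ad : List ℤ → ℕ → ℤ → List ℤ
  | [], 0, k => [k]
  | [], n + 1, k => 0 :: ad [] n k
  | a :: l, 0, k => (a + k) :: l
  | a :: l, n + 1, k => a :: ad l n k

theorem lin_ad : ∀ (l : List ℤ) (n : ℕ) (k : ℤ) (v : ℕ → ℝ), lin (ad l n k) v = lin l v + k * v n
  | [], 0, k, v => by simp [ad, lin]
  | [], n + 1, k, v => by
    simp only [ad, lin, lin_ad [] n k]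
    simp
  | a :: l, 0, k, v => by
    rw [ad, lin, lin]
    push_cast
    ring
  | a :: l, n + 1, k, v => by
    rw [ad, lin, lin, lin_ad l n k]
    ring

theorem lin_zero : ∀ (l : List ℤ) (v : ℕ → ℝ), (l.all fun a => decide (a = 0)) = true → lin l v = 0
  | [], _, _ => rfl
  | a :: l, v, h => by
    rw [List.all_cons, Bool.and_eq_true] at h
    rw [lin, lin_zero l _ h.2, of_decide_eq_true h.1]
    simp

/-! ### The angles of five points -/

/-- Vertex of the angle number `i`. -/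
def vV (i : ℕ) : ℕ := [0,1,2, 0,1,3, 0,2,3, 1,2,3, 0,1,4, 0,2,4, 1,2,4, 0,3,4, 1,3,4, 2,3,4].getD i 0
/-- First side point of the angle number `i`. -/
def vA (i : ℕ) : ℕ := [1,0,0, 1,0,0, 2,0,0, 2,1,1, 1,0,0, 2,0,0, 2,1,1, 3,0,0, 3,1,1, 3,2,2].getD i 0
/-- Second side point of the angle number `i`. -/
def vB (i : ℕ) : ℕ := [2,2,1, 3,3,1, 3,3,2, 3,3,2, 4,4,1, 4,4,2, 4,4,2, 4,4,3, 4,4,3, 4,4,3].getD i 0

/-- The number of the angle at `v` between `x` and `y`. -/
def bp (v x y : ℕ) : ℕ := Nat.land (Nat.shiftRight 0x3bab83a0a441aa01c0bc5c000399b00000038002d1902c05b0105003609c360028e0000009a800140e010018901b8024049240008000001a408000abd80a80c303cc0001830000000000 (Nat.mul 5 (25 * v + 5 * x + y))) 31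

/-- `v, x, y` are three different numbers below 5. -/
def d3 (v x y : ℕ) : Bool := decide (v < 5 ∧ x < 5 ∧ y < 5 ∧ v ≠ x ∧ v ≠ y ∧ x ≠ y)

def bpc (v x y : ℕ) : Bool := !(d3 v x y) || decide (bp v x y < 30 ∧
    vV (bp v x y) = v ∧ ((vA (bp v x y) = x ∧ vB (bp v x y) = y) ∨
      (vA (bp v x y) = y ∧ vB (bp v x y) = x)))

theorem bpc_all : ((List.range 125).all fun n => bpc (n / 25) (n / 5 % 5) (n % 5)) = true := by
  decide +kernel

theorem bp_spec {v x y : ℕ} (h : d3 v x y = true) : bp v x y < 30 ∧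
    vV (bp v x y) = v ∧ ((vA (bp v x y) = x ∧ vB (bp v x y) = y) ∨
      (vA (bp v x y) = y ∧ vB (bp v x y) = x)) := by
  have h' := h
  rw [d3, decide_eq_true_eq] at h'
  have h1 := List.all_eq_true.1 bpc_all (25 * v + 5 * x + y) (List.mem_range.2 (by omega))
  rw [show (25 * v + 5 * x + y) / 25 = v by omega, show (25 * v + 5 * x + y) / 5 % 5 = x by omega,
    show (25 * v + 5 * x + y) % 5 = y by omega, bpc, h] at h1
  simpa using h1

/-- The angle number `i`; number 30 is `π / 4`. -/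
noncomputable def vl (P : ℕ → Pt) (i : ℕ) : ℝ :=
  if i < 30 then ∠ (P (vA i)) (P (vV i)) (P (vB i)) else Real.pi / 4

/-- Five points in general position without an angle `π / 4`. -/
structure Gd (P : ℕ → Pt) : Prop where
  col : ∀ i < 5, ∀ j < 5, ∀ k < 5, i ≠ j → j ≠ k → i ≠ k → ¬ Collinear ℝ {P i, P j, P k}
  ne : ∀ i < 5, ∀ j < 5, ∀ k < 5, i ≠ j → j ≠ k → i ≠ k → ∠ (P i) (P j) (P k) ≠ Real.pi / 4

theorem Gd.pne {P : ℕ → Pt} (h : Gd P) {i j : ℕ} (hi : i < 5) (hj : j < 5) (hij : i ≠ j) :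
    P i ≠ P j := by
  intro he
  obtain ⟨k, hk, h1, h2⟩ : ∃ k < 5, k ≠ i ∧ k ≠ j := by
    by_cases e0 : 0 ≠ i ∧ 0 ≠ j
    · exact ⟨0, by omega, e0⟩
    · by_cases e1 : 1 ≠ i ∧ 1 ≠ j
      · exact ⟨1, by omega, e1⟩
      · exact ⟨2, by omega, by omega, by omega⟩
  refine h.col i hi j hj k hk hij h2.symm h1.symm ?_
  rw [he]
  simpa using collinear_pair ℝ (P j) (P k)

theorem vl_bp (P : ℕ → Pt) {v x y : ℕ} (h : d3 v x y = true) :
    vl P (bp v x y) = ∠ (P x) (P v) (P y) := by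
  obtain ⟨h1, h2, h3⟩ := bp_spec h
  rw [vl, if_pos h1, h2]
  rcases h3 with h3 | h3
  · rw [h3.1, h3.2]
  · rw [h3.1, h3.2]; exact angle_comm _ _ _

theorem var_spec : ∀ i < 30, d3 (vV i) (vA i) (vB i) = true := by decide +kernel

theorem Gd.pos {P : ℕ → Pt} (h : Gd P) {i : ℕ} (hi : i ≤ 30) : 0 < vl P i := by
  rw [vl]
  split_ifs with h30
  · have h1 := var_spec i h30
    rw [d3, decide_eq_true_eq] at h1
    obtain ⟨a, b, c, d, e, f⟩ := h1
    have h2 := h.col _ b _ a _ c (Ne.symm d) e f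
    rw [collinear_iff_eq_or_eq_or_angle_eq_zero_or_angle_eq_pi] at h2
    push Not at h2
    exact lt_of_le_of_ne (angle_nonneg _ _ _) (Ne.symm h2.2.2.1)
  · positivity

theorem Gd.vne {P : ℕ → Pt} (h : Gd P) {i : ℕ} (hi : i < 30) : vl P i ≠ vl P 30 := by
  rw [vl, if_pos hi, vl, if_neg (lt_irrefl 30)]
  have h1 := var_spec i hi
  rw [d3, decide_eq_true_eq] at h1
  obtain ⟨a, b, c, d, e, f⟩ := h1
  exact h.ne _ b _ a _ c (Ne.symm d) e f

theorem tri_spec : ∀ t < 10, vV (3 * t) = vA (3 * t + 1) ∧ vV (3 * t) = vA (3 * t + 2) ∧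
    vV (3 * t + 1) = vA (3 * t) ∧ vV (3 * t + 1) = vB (3 * t + 2) ∧
    vV (3 * t + 2) = vB (3 * t) ∧ vV (3 * t + 2) = vB (3 * t + 1) := by decide +kernel

theorem Gd.tri {P : ℕ → Pt} (h : Gd P) {t : ℕ} (ht : t < 10) :
    vl P (3 * t) + vl P (3 * t + 1) + vl P (3 * t + 2) = 4 * vl P 30 := by
  rw [vl, if_pos (by omega), vl, if_pos (by omega), vl, if_pos (by omega), vl,
    if_neg (lt_irrefl 30)]
  obtain ⟨a, b, c, d, e, f⟩ := tri_spec t ht
  rw [← a, ← b, ← c, ← d, ← e, ← f]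
  have h1 := var_spec (3 * t) (by omega)
  rw [d3, decide_eq_true_eq, ← c, ← e] at h1
  obtain ⟨a1, b1, c1, d1, e1, f1⟩ := h1
  have h2 := angle_add_angle_add_angle_eq_pi (p₁ := P (vV (3 * t))) (P (vV (3 * t + 2)))
    (h.pne b1 a1 (Ne.symm d1))
  rw [angle_comm (P (vV (3 * t + 1))) (P (vV (3 * t))) (P (vV (3 * t + 2)))]
  linarith [angle_comm (P (vV (3 * t))) (P (vV (3 * t + 1))) (P (vV (3 * t + 2))),
    angle_comm (P (vV (3 * t + 1))) (P (vV (3 * t + 2))) (P (vV (3 * t)))]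

end Pool.Agent.MP_0af329_co.Q5
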