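import Pool.Agent.MP_0af329_co.QCrt

/-!
# The certificate checker
-/

set_option autoImplicit false

namespace Pool.Agent.MP_0af329_co.Q5

open EuclideanGeometry

/-- A position fact: `(true, a, b, c, d)` says `Cvx a b c d`, `(false, p, a, b, c)` says
`Inn p a b c`. -/
abbrev Fact := Bool × ℕ × ℕ × ℕ × ℕ

/-- Four different numbers below 5. -/
def d4 (a b c d : ℕ) : Bool := d3 a b c && (d3 a b d && (d3 a c d && d3 b c d))

def Holds (P : ℕ → Pt) (f : Fact) : Prop :=
  d4 f.2.1 f.2.2.1 f.2.2.2.1 f.2.2.2.2 = true ∧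
    (f.1 = true → Cvx (P f.2.1) (P f.2.2.1) (P f.2.2.2.1) (P f.2.2.2.2)) ∧
    (f.1 = false → Inn (P f.2.1) (P f.2.2.1) (P f.2.2.2.1) (P f.2.2.2.2))

/-- The cone relations of a fact: `(v, x, w, y)` says `∠ x v y = ∠ x v w + ∠ w v y`. -/
def cns : Fact → List (ℕ × ℕ × ℕ × ℕ)
  | (true, a, b, c, d) => [(a, b, c, d), (b, c, d, a), (c, d, a, b), (d, a, b, c)]
  | (false, p, a, b, c) => [(a, b, p, c), (b, c, p, a), (c, a, p, b)]

def CH (P : ℕ → Pt) (c : ℕ × ℕ × ℕ × ℕ) : Prop :=
  d4 c.1 c.2.1 c.2.2.1 c.2.2.2 = true ∧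
    ∠ (P c.2.1) (P c.1) (P c.2.2.2) = ∠ (P c.2.1) (P c.1) (P c.2.2.1) +
      ∠ (P c.2.2.1) (P c.1) (P c.2.2.2)

theorem d4_iff {a b c d : ℕ} : d4 a b c d = true ↔ (a < 5 ∧ b < 5 ∧ c < 5 ∧ d < 5) ∧
    a ≠ b ∧ a ≠ c ∧ a ≠ d ∧ b ≠ c ∧ b ≠ d ∧ c ≠ d := by
  simp only [d4, d3, Bool.and_eq_true, decide_eq_true_eq]
  constructor
  · rintro ⟨h1, h2, h3, h4⟩
    exact ⟨⟨h1.1, h1.2.1, h1.2.2.1, h2.2.2.1⟩, h1.2.2.2.1, h1.2.2.2.2.1, h2.2.2.2.2.1,
      h1.2.2.2.2.2, h2.2.2.2.2.2, h3.2.2.2.2.2⟩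
  · rintro ⟨⟨h1, h2, h3, h4⟩, h5, h6, h7, h8, h9, h10⟩
    exact ⟨⟨h1, h2, h3, h5, h6, h8⟩, ⟨h1, h2, h4, h5, h7, h9⟩, ⟨h1, h3, h4, h6, h7, h10⟩,
      ⟨h2, h3, h4, h8, h9, h10⟩⟩

theorem cns_ok {P : ℕ → Pt} (g : Gd P) {f : Fact} (h : Holds P f) : ∀ c ∈ cns f, CH P c := by
  obtain ⟨k, a, b, c, d⟩ := f
  obtain ⟨h1, h2, h3⟩ := h
  have h1' := d4_iff.1 h1
  simp only at h1'
  obtain ⟨⟨ha, hb, hc, hd⟩, hab, hac, had, hbc, hbd, hcd⟩ := h1'
  cases k
  · have hI := h3 rfl
    simp only at hI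
    intro x hx
    simp only [cns, List.mem_cons, List.not_mem_nil, or_false] at hx
    rcases hx with rfl | rfl | rfl
    · exact ⟨d4_iff.2 (by simp only; omega), hI.angle (g.pne ha hb hab)⟩
    · exact ⟨d4_iff.2 (by simp only; omega), hI.rot.angle (g.pne ha hc hac)⟩
    · exact ⟨d4_iff.2 (by simp only; omega), hI.rot.rot.angle (g.pne ha hd had)⟩
  · have hI := h2 rfl
    simp only at hI
    intro x hx
    simp only [cns, List.mem_cons, List.not_mem_nil, or_false] at hx
    rcases hx with rfl | rfl | rfl | rfl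
    · exact ⟨d4_iff.2 (by simp only; omega), hI.angle (g.pne hc ha hac.symm)⟩
    · exact ⟨d4_iff.2 (by simp only; omega), hI.rot.angle (g.pne hd hb hbd.symm)⟩
    · exact ⟨d4_iff.2 (by simp only; omega), hI.rot.rot.angle (g.pne ha hc hac)⟩
    · exact ⟨d4_iff.2 (by simp only; omega), hI.rot.rot.rot.angle (g.pne hb hd hbd)⟩

/-! ### Accumulating a linear combination -/

/-- Add multiples of cone relations. -/
def acC : List (ℕ × ℕ × ℕ × ℕ) → List ℤ → List ℤ → List ℤ
  | (v, x, w, y) :: cs, k :: ks, acc =>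
    acC cs ks (bif decide (k = 0) then acc else
      ad (ad (ad acc (bp v x y) k) (bp v x w) (-k)) (bp v w y) (-k))
  | _, _, acc => acc

theorem acC_ok (P : ℕ → Pt) : ∀ (cs : List (ℕ × ℕ × ℕ × ℕ)) (ks acc : List ℤ),
    (∀ c ∈ cs, CH P c) → lin (acC cs ks acc) (vl P) = lin acc (vl P)
  | [], _, _, _ => by simp [acC]
  | c :: cs, [], _, _ => by simp [acC]
  | (v, x, w, y) :: cs, k :: ks, acc, h => by
    rw [acC, acC_ok P cs ks _ fun c hc => h c (List.mem_cons_of_mem _ hc)]
    cases hk : decide (k = 0)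
    · obtain ⟨h1, h2⟩ := h _ List.mem_cons_self
      have h3 := d4_iff.1 h1
      simp only at h2 h3
      rw [cond_false, lin_ad, lin_ad, lin_ad, vl_bp P (v := v) (x := x) (y := y)
        (by simp only [d3, decide_eq_true_eq]; omega), vl_bp P (v := v) (x := x) (y := w)
        (by simp only [d3, decide_eq_true_eq]; omega), vl_bp P (v := v) (x := w) (y := y)
        (by simp only [d3, decide_eq_true_eq]; omega), h2]
      push_cast
      ring
    · rw [cond_true]

/-- Add multiples of the angle sums. -/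
def acT : ℕ → List ℤ → List ℤ → List ℤ
  | t, k :: ks, acc =>
    acT (t + 1) ks (bif decide (k = 0) then acc else
      ad (ad (ad (ad acc (3 * t) k) (3 * t + 1) k) (3 * t + 2) k) 30 (-4 * k))
  | _, [], acc => acc

theorem acT_ok {P : ℕ → Pt} (g : Gd P) : ∀ (ks : List ℤ) (t : ℕ) (acc : List ℤ),
    t + ks.length ≤ 10 → lin (acT t ks acc) (vl P) = lin acc (vl P)
  | [], _, _, _ => by simp [acT]
  | k :: ks, t, acc, h => by
    rw [List.length_cons] at h
    rw [acT, acT_ok g ks _ _ (by omega)]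
    cases hk : decide (k = 0)
    · rw [cond_false, lin_ad, lin_ad, lin_ad, lin_ad]
      have h1 := g.tri (t := t) (by omega)
      push_cast
      linear_combination (k : ℝ) * h1
    · rw [cond_true]

/-- Add multiples of inequalities. -/
def acI (val : ℕ) : List (ℕ × ℕ) → List ℤ → List ℤ
  | (i, m) :: L, acc => acI val L
    (bif Nat.blt i 30 then
      (bif val.testBit i then ad (ad acc 30 m) i (-m) else ad (ad acc i m) 30 (-m))
      else ad acc (i - 30) m)
  | [], acc => acc

/-- The side conditions of the inequalities. -/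
def okI (care : ℕ) : List (ℕ × ℕ) → Bool
  | (i, m) :: L => Nat.blt 0 m && (Nat.ble i 60 && ((!(Nat.blt i 30) || care.testBit i) && okI care L))
  | [] => true

/-- The pattern `(val, care)` holds for `P`. -/
def NG (val care : ℕ) (P : ℕ → Pt) : Prop :=
  ∀ i < 30, care.testBit i = true → (val.testBit i = true ↔ vl P i < vl P 30)

theorem acI_ok {P : ℕ → Pt} (g : Gd P) {val care : ℕ} (hn : NG val care P) :
    ∀ (L : List (ℕ × ℕ)) (acc : List ℤ), okI care L = true →
      lin acc (vl P) ≤ lin (acI val L acc) (vl P) ∧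
        (L ≠ [] → lin acc (vl P) < lin (acI val L acc) (vl P))
  | [], acc, _ => by simp [acI]
  | (i, m) :: L, acc, h => by
    rw [okI, Bool.and_eq_true, Bool.and_eq_true, Bool.and_eq_true] at h
    obtain ⟨hm, hi, hc, hL⟩ := h
    have hm' : (0 : ℝ) < m := by
      have : 0 < m := by simpa [Nat.blt_eq] using hm
      exact_mod_cast this
    have hi' : i ≤ 60 := Nat.le_of_ble_eq_true hi
    obtain ⟨acc', hacc⟩ : ∃ a, a = (bif Nat.blt i 30 then
      (bif val.testBit i then ad (ad acc 30 (m : ℤ)) i (-(m : ℤ))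
        else ad (ad acc i (m : ℤ)) 30 (-(m : ℤ)))
      else ad acc (i - 30) (m : ℤ)) := ⟨_, rfl⟩
    have key : lin acc (vl P) < lin acc' (vl P) := by
      rw [hacc]
      cases hb : Nat.blt i 30
      · rw [cond_false, lin_ad]
        have h1 : ¬ i < 30 := by
          intro h2
          have h3 : Nat.blt i 30 = true := by simpa only [Nat.blt_eq] using h2
          rw [h3] at hb
          exact Bool.noConfusion hb
        have h2 := g.pos (i := i - 30) (by omega)
        have h3 := mul_pos hm' h2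
        push_cast
        linarith
      · have h1 : i < 30 := by simpa only [Nat.blt_eq] using hb
        rw [hb] at hc
        have h2 := hn i h1 (by simpa using hc)
        rw [cond_true]
        cases hv : val.testBit i
        · rw [cond_false, lin_ad, lin_ad]
          rw [hv] at h2
          have h3 : vl P 30 < vl P i := by
            refine lt_of_le_of_ne (not_lt.1 fun h4 => ?_) (Ne.symm (g.vne h1))
            exact Bool.noConfusion (h2.2 h4)
          have h4 := mul_lt_mul_of_pos_left h3 hm'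
          push_cast
          linarith
        · rw [cond_true, lin_ad, lin_ad]
          have h3 : vl P i < vl P 30 := h2.1 hv
          have h4 := mul_lt_mul_of_pos_left h3 hm'
          push_cast
          linarith
    have h5 := acI_ok g hn L acc' hL
    rw [acI, ← hacc]
    exact ⟨(key.trans_le h5.1).le, fun _ => key.trans_le h5.1⟩

/-! ### Certificate trees -/

/-- Certificate trees. -/
inductive Tr
  | fk (tri con : List ℤ) (ine : List (ℕ × ℕ))
  | lb (a b c d : ℕ)
  | lc (a b c d : ℕ)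
  | ld (a b c p : ℕ)
  | sp (a b c d : ℕ) (t0 t1 t2 t3 t4 t5 t6 : Tr)

/-- The angle at `v` between `x` and `y` is prescribed to be small. -/
def sml (val care v x y : ℕ) : Bool :=
  d3 v x y && (care.testBit (bp v x y) && val.testBit (bp v x y))

/-- The angle at `v` between `x` and `y` is prescribed to be large. -/
def big (val care v x y : ℕ) : Bool :=
  d3 v x y && (care.testBit (bp v x y) && !(val.testBit (bp v x y)))

theorem sml_ok {P : ℕ → Pt} (g : Gd P) {val care v x y : ℕ} (hn : NG val care P)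
    (h : sml val care v x y = true) : |cr (P v) (P x) (P y)| < dt (P v) (P x) (P y) := by
  rw [sml, Bool.and_eq_true, Bool.and_eq_true] at h
  obtain ⟨h1, h2, h3⟩ := h
  have h4 := (hn _ (bp_spec h1).1 h2).1 h3
  rw [vl_bp P h1, vl, if_neg (lt_irrefl 30)] at h4
  rw [d3, decide_eq_true_eq] at h1
  exact cr_lt_of_lt (g.pne h1.2.1 h1.1 (Ne.symm h1.2.2.2.1))
    (g.pne h1.2.2.1 h1.1 (Ne.symm h1.2.2.2.2.1)) h4

theorem big_ok {P : ℕ → Pt} (g : Gd P) {val care v x y : ℕ} (hn : NG val care P)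
    (h : big val care v x y = true) : dt (P v) (P x) (P y) < |cr (P v) (P x) (P y)| := by
  rw [big, Bool.and_eq_true, Bool.and_eq_true, Bool.not_eq_true'] at h
  obtain ⟨h1, h2, h3⟩ := h
  have h4 : vl P 30 < vl P (bp v x y) := by
    refine lt_of_le_of_ne (not_lt.1 fun h4 => ?_) (Ne.symm (g.vne (bp_spec h1).1))
    have h5 := (hn _ (bp_spec h1).1 h2).2 h4
    rw [h3] at h5
    exact Bool.noConfusion h5
  rw [vl_bp P h1, vl, if_neg (lt_irrefl 30)] at h4
  rw [d3, decide_eq_true_eq] at h1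
  exact lt_cr_of_lt (g.pne h1.2.1 h1.1 (Ne.symm h1.2.2.2.1))
    (g.pne h1.2.2.1 h1.1 (Ne.symm h1.2.2.2.2.1)) h4

/-- Convexity of `a b c d` is known, up to rotation and reflection. -/
def hasC (F : List Fact) (a b c d : ℕ) : Bool :=
  F.any fun f => decide (f = (true, a, b, c, d)) || (decide (f = (true, b, c, d, a)) ||
    (decide (f = (true, c, d, a, b)) || (decide (f = (true, d, a, b, c)) ||
    (decide (f = (true, a, d, c, b)) || (decide (f = (true, d, c, b, a)) ||
    (decide (f = (true, c, b, a, d)) || decide (f = (true, b, a, d, c))))))))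

theorem hasC_ok {P : ℕ → Pt} {F : List Fact} (hF : ∀ f ∈ F, Holds P f) {a b c d : ℕ}
    (h : hasC F a b c d = true) : Cvx (P a) (P b) (P c) (P d) := by
  rw [hasC, List.any_eq_true] at h
  obtain ⟨f, hf, h⟩ := h
  simp only [Bool.or_eq_true, decide_eq_true_eq] at h
  have h1 := (hF f hf).2.1
  rcases h with rfl | rfl | rfl | rfl | rfl | rfl | rfl | rfl
  · exact h1 rfl
  · exact (h1 rfl).rot.rot.rot
  · exact (h1 rfl).rot.rot
  · exact (h1 rfl).rot
  · exact (h1 rfl).rev
  · exact (h1 rfl).rev.rot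
  · exact (h1 rfl).rev.rot.rot
  · exact (h1 rfl).rev.rot.rot.rot

/-- The checker. -/
def ck (val care : ℕ) : Tr → List Fact → Bool
  | .fk tri con ine, F => okI care ine && (!ine.isEmpty && (decide (tri.length ≤ 10) &&
      ((acI val ine (acC (F.flatMap cns) con (acT 0 tri []))).all fun a => decide (a = 0))))
  | .lb a b c d, F => hasC F a b c d && (big val care a b c && (big val care b c d &&
      (big val care c d a && big val care d a b)))
  | .lc a b c d, F => hasC F a b c d && (sml val care a b c && (sml val care d a b &&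
      (big val care d c b && big val care c b a)))
  | .ld a b c p, _ => sml val care a b p && (big val care b a p && (sml val care b c p &&
      (big val care c b p && (sml val care c a p && big val care a c p))))
  | .sp a b c d t0 t1 t2 t3 t4 t5 t6, F => d4 a b c d && (ck val care t0 ((true, a, c, b, d) :: F) &&
      (ck val care t1 ((true, a, b, c, d) :: F) && (ck val care t2 ((true, a, b, d, c) :: F) &&
      (ck val care t3 ((false, a, b, c, d) :: F) && (ck val care t4 ((false, b, a, c, d) :: F) &&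
      (ck val care t5 ((false, c, a, b, d) :: F) && ck val care t6 ((false, d, a, b, c) :: F)))))))

theorem dp {P : ℕ → Pt} (g : Gd P) {a b c : ℕ} (h : a < 5 ∧ b < 5 ∧ c < 5)
    (hn : a ≠ b ∧ b ≠ c ∧ a ≠ c) : acute_det (P a) (P b) (P c) ≠ 0 := fun h0 =>
  g.col a h.1 b h.2.1 c h.2.2 hn.1 hn.2.1 hn.2.2 (acute_collinear h0)

theorem ck_ok {P : ℕ → Pt} (g : Gd P) {val care : ℕ} (hn : NG val care P) :
    ∀ (t : Tr) (F : List Fact), (∀ f ∈ F, Holds P f) → ck val care t F = true → False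
  | .fk tri con ine, F, hF, h => by
    rw [ck, Bool.and_eq_true, Bool.and_eq_true, Bool.and_eq_true, decide_eq_true_eq] at h
    obtain ⟨h1, h2, h3, h4⟩ := h
    have h5 := lin_zero _ (vl P) h4
    have hne : ine ≠ [] := by
      rintro rfl
      simp at h2
    have h6 := (acI_ok g hn ine (acC (F.flatMap cns) con (acT 0 tri [])) h1).2 hne
    rw [h5, acC_ok P _ _ _ (fun c hc => ?_), acT_ok g _ _ _ (by omega)] at h6
    · exact lt_irrefl _ h6
    · obtain ⟨f, hf, hc⟩ := List.mem_flatMap.1 hc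
      exact cns_ok g (hF f hf) c hc
  | .lb a b c d, F, hF, h => by
    simp only [ck, Bool.and_eq_true] at h
    obtain ⟨h1, h2, h3, h4, h5⟩ := h
    exact (hasC_ok hF h1).lemB (big_ok g hn h2) (big_ok g hn h3) (big_ok g hn h4) (big_ok g hn h5)
  | .lc a b c d, F, hF, h => by
    simp only [ck, Bool.and_eq_true] at h
    obtain ⟨h1, h2, h3, h4, h5⟩ := h
    exact (hasC_ok hF h1).lemC (sml_ok g hn h2) (sml_ok g hn h3) (big_ok g hn h4) (big_ok g hn h5)
  | .ld a b c p, F, hF, h => by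
    simp only [ck, Bool.and_eq_true] at h
    obtain ⟨h1, h2, h3, h4, h5, h6⟩ := h
    exact lemD (sml_ok g hn h1) (big_ok g hn h2) (sml_ok g hn h3) (big_ok g hn h4)
      (sml_ok g hn h5) (big_ok g hn h6)
  | .sp a b c d t0 t1 t2 t3 t4 t5 t6, F, hF, h => by
    simp only [ck, Bool.and_eq_true] at h
    obtain ⟨h4, k0, k1, k2, k3, k4, k5, k6⟩ := h
    obtain ⟨⟨ha, hb, hc, hd⟩, hab, hac, had, hbc, hbd, hcd⟩ := d4_iff.1 h4
    have ext : ∀ f : Fact, Holds P f → ∀ f' ∈ f :: F, Holds P f' := by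
      intro f hf f' hf'
      rcases List.mem_cons.1 hf' with rfl | hf'
      · exact hf
      · exact hF f' hf'
    have D : ∀ x y z w : ℕ, (x < 5 ∧ y < 5 ∧ z < 5 ∧ w < 5) →
        (x ≠ y ∧ x ≠ z ∧ x ≠ w ∧ y ≠ z ∧ y ≠ w ∧ z ≠ w) → d4 x y z w = true :=
      fun x y z w h1 h2 => d4_iff.2 ⟨h1, h2⟩
    rcases options (dp g ⟨hb, hc, hd⟩ ⟨hbc, hcd, hbd⟩) (dp g ⟨ha, hc, hd⟩ ⟨hac, hcd, had⟩)
      (dp g ⟨ha, hb, hd⟩ ⟨hab, hbd, had⟩) (dp g ⟨ha, hb, hc⟩ ⟨hab, hbc, hac⟩) with
      o | o | o | o | o | o | o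
    · exact ck_ok g hn t0 _ (ext _ ⟨D _ _ _ _ (by simp only; omega) (by simp only; omega),
        fun _ => o, fun e => Bool.noConfusion e⟩) k0
    · exact ck_ok g hn t1 _ (ext _ ⟨D _ _ _ _ (by simp only; omega) (by simp only; omega),
        fun _ => o, fun e => Bool.noConfusion e⟩) k1
    · exact ck_ok g hn t2 _ (ext _ ⟨D _ _ _ _ (by simp only; omega) (by simp only; omega),
        fun _ => o, fun e => Bool.noConfusion e⟩) k2
    · exact ck_ok g hn t3 _ (ext _ ⟨D _ _ _ _ (by simp only; omega) (by simp only; omega),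
        fun e => Bool.noConfusion e, fun _ => o⟩) k3
    · exact ck_ok g hn t4 _ (ext _ ⟨D _ _ _ _ (by simp only; omega) (by simp only; omega),
        fun e => Bool.noConfusion e, fun _ => o⟩) k4
    · exact ck_ok g hn t5 _ (ext _ ⟨D _ _ _ _ (by simp only; omega) (by simp only; omega),
        fun e => Bool.noConfusion e, fun _ => o⟩) k5
    · exact ck_ok g hn t6 _ (ext _ ⟨D _ _ _ _ (by simp only; omega) (by simp only; omega),
        fun e => Bool.noConfusion e, fun _ => o⟩) k6

end Pool.Agent.MP_0af329_co.Q5
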