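import Pool.Agent.MP_0af329_co.QEv

/-!
# The search over all five point patterns
-/

set_option autoImplicit false

namespace Pool.Agent.MP_0af329_co.Q5

/-- The `i`-th seed. -/
def sdq (i : ℕ) : ℕ := SEEDL.getD i 0

noncomputable def dfsI (i : ℕ) : Bool :=
  dfs (8 * (i + 1)) (sdq i % 8) (sdq i / 8 % 8) (sdq i / 64 % 8) (sdq i / 512 % 8)

theorem dfs_all : ((List.range 42).all dfsI) = true := by decide +kernel

/-- The 4-point table: every pattern without the digit 7 is a seed, or an excluded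
representative, or has a neighbour with smaller key. -/
def P01 (d : ℕ) : ℕ := d / 2 % 2 + 2 * (d % 2) + 4 * (d / 4)
def P12 (d : ℕ) : ℕ := d % 2 + 2 * (d / 4) + 4 * (d / 2 % 2)

def g01 (q : ℕ) : ℕ := cd (P01 (q % 8)) (P01 (q / 8 % 8)) (q / 512 % 8) (q / 64 % 8)
def g12 (q : ℕ) : ℕ := cd (P12 (q % 8)) (q / 64 % 8) (q / 8 % 8) (P01 (q / 512 % 8))
def g23 (q : ℕ) : ℕ := cd (q / 8 % 8) (q % 8) (P12 (q / 64 % 8)) (P12 (q / 512 % 8))

/-- The excluded representatives. -/
def EXL : List ℕ := [0, 1, 3, 9, 10, 12, 13, 14, 28, 29, 46, 73, 74, 78, 82, 83, 84, 85, 86, 92, 93, 94, 102, 110, 118, 150, 156, 157, 158, 162, 163, 171, 173, 174, 179, 222, 235, 238, 245, 246, 586, 588, 590, 604, 605, 622, 649, 651, 665, 668, 669, 670, 673, 675, 677, 682, 683, 684, 685, 686, 691, 693, 725, 732, 733, 734, 739, 742, 746, 747, 750, 755, 757, 923, 924, 925, 926, 941, 942, 1755, 1771, 1774, 1902, 1909]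

noncomputable def keyOk (q : ℕ) : Bool :=
  (Nat.beq (key q) 0 && EXL.contains q) ||
  ((Nat.beq (key q % 8) 0 && (Nat.ble 8 (key q) && (Nat.blt (key q) 344 &&
    Nat.beq (sdq (key q / 8 - 1)) q))) ||
  (Nat.blt (key (g01 q)) (key q) || (Nat.blt (key (g12 q)) (key q) || Nat.blt (key (g23 q)) (key q))))

theorem key_all : ((List.range 7).all fun a => (List.range 7).all fun b =>
    (List.range 7).all fun c => (List.range 7).all fun d => keyOk (cd a b c d)) = true := by
  decide +kernel

/-- The flag numbers of the other positions of the extra point. -/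
noncomputable def flOk (q : ℕ) : Bool :=
  Nat.beq (f2 (wF q)) (f3 (wF (g23 q))) && (Nat.beq (f1 (wF q)) (f2 (wF (g12 q))) &&
    Nat.beq (f0 (wF q)) (f1 (wF (g01 q))))

theorem fl_all : ((List.range 4096).all flOk) = true := by decide +kernel

end Pool.Agent.MP_0af329_co.Q5
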