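import Pool.Agent.MP_0af329_co.QTa
import Pool.Agent.MP_0af329_co.QTb

/-!
# The evaluation of the five point certificate
-/

set_option autoImplicit false

namespace Pool.Agent.MP_0af329_co.Q5

/-- The code of four digits. -/
def cd (a b c d : ℕ) : ℕ := Nat.add a (Nat.add (Nat.mul 8 b) (Nat.add (Nat.mul 64 c) (Nat.mul 512 d)))

/-- The key of a 4-point pattern. -/
noncomputable def key (q : ℕ) : ℕ := Nat.land (Nat.shiftRight KEY (Nat.mul 10 q)) 1023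

/-- The flag numbers of a 4-point pattern. -/
noncomputable def wF (q : ℕ) : ℕ := Nat.land (Nat.shiftRight FT (Nat.mul 32 q)) 4294967295

def f0 (w : ℕ) : ℕ := Nat.land w 255
def f1 (w : ℕ) : ℕ := Nat.land (Nat.shiftRight w 8) 255
def f2 (w : ℕ) : ℕ := Nat.land (Nat.shiftRight w 16) 255
def f3 (w : ℕ) : ℕ := Nat.shiftRight w 24

/-- A row of a table. -/
def rw4 (T i : ℕ) : ℕ :=
  Nat.land (Nat.shiftRight T (Nat.mul 4096 i))
    0xffffffffffffffffffffffffffffffffffffffffffffffffffffffffffffffffffffffffffffffffffffffffffffffffffffffffffffffffffffffffffffffffffffffffffffffffffffffffffffffffffffffffffffffffffffffffffffffffffffffffffffffffffffffffffffffffffffffffffffffffffffffffffffffffffffffffffffffffffffffffffffffffffffffffffffffffffffffffffffffffffffffffffffffffffffffffffffffffffffffffffffffffffffffffffffffffffffffffffffffffffffffffffffffffffffffffffffffffffffffffffffffffffffffffffffffff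ffffffffffffffffffffffffffffffffffffffffffffffffffffffffffffffffffffffffffffffffffffffffffffffffffffffffffffffffffffffffffffffffffffffffffffffffffffffffffffffffffffffffffffffffffffffffffffffffffffffffffffffffffffffffffffffffffffffffffffffffffffffffffffffffffffffffffffffffffffffffffffffffffffffffffffffffffffffffffffffffffffffffffffffffffffffffffffffffffffffffffffffffffffffffffffffffffffffffffffffffffffffffffffffffffffffffffffffffffffffffffffffffffffffffffffffffffffffffffffffffffffffffffffffffffffffffffffffffffffffffffffffffffffffffffffffffffffffffffffffff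

/-- Table lookup. -/
def tb (T i j : ℕ) : ℕ :=
  Nat.land (Nat.shiftRight (rw4 T i) (Nat.mul 32 j)) 4294967295

/-- The quadratic form for a root digit. -/
noncomputable def QTd (d : ℕ) : ℕ :=
  bif Nat.beq d 0 then QT0 else bif Nat.beq (Nat.land (Nat.shiftRight 22 d) 1) 1 then QT1 else QT2

noncomputable def qq (d i j : ℕ) : ℕ := tb (QTd d) i j

/-- Number of small angles of a digit. -/
def pc (d : ℕ) : ℕ := Nat.land (Nat.shiftRight 59796 (Nat.mul 2 d)) 3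

/-- Value of a pair of triangles with a common vertex. -/
noncomputable def pr (r d e : ℕ) : ℕ :=
  Nat.land (Nat.shiftRight PRT (Nat.mul 20 (Nat.add (Nat.mul 64 r) (Nat.add (Nat.mul 8 d) e)))) 1048575

def all7 (f : ℕ → Bool) : Bool := f 0 && (f 1 && (f 2 && (f 3 && (f 4 && (f 5 && f 6)))))

/-- Terms known when the digits of `0 1 2 3` and `0 1 2 4` are known. -/
noncomputable def A1 (d0 d1 d2 d3 d4 d5 d6 w0 w1 : ℕ) : ℕ :=
  Nat.add (qq d0 (f3 w0) (f3 w1)) (Nat.add (pr 0 d1 d5) (Nat.add (pr 3 d1 d6) (Nat.add (pr 0 d2 d4)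
    (Nat.add (pr 4 d2 d6) (Nat.add (pr 1 d3 d4) (pr 4 d3 d5))))))

noncomputable def A2 (d0 d1 d2 d3 d4 d5 d6 d7 d8 w0 w1 w2 : ℕ) : ℕ :=
  Nat.add (qq d1 (f2 w0) (f3 w2)) (Nat.add (qq d4 (f2 w1) (f2 w2)) (Nat.add (pr 0 d0 d7)
    (Nat.add (pr 3 d0 d8) (Nat.add (pr 7 d2 d8) (Nat.add (pr 7 d3 d7) (Nat.add (pr 8 d5 d8)
      (pr 8 d6 d7)))))))

noncomputable def A3 (d0 d1 d2 d3 d4 d5 d6 d7 d8 d9 w0 w1 w2 w3 w4 : ℕ) : ℕ :=
  Nat.add (qq d2 (f1 w0) (f3 w3)) (Nat.add (qq d3 (f0 w0) (f3 w4)) (Nat.add (qq d5 (f1 w1) (f2 w3))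
    (Nat.add (qq d6 (f0 w1) (f2 w4)) (Nat.add (qq d7 (f1 w2) (f1 w3)) (Nat.add (qq d8 (f0 w2) (f1 w4))
      (Nat.add (qq d9 (f0 w3) (f0 w4)) (Nat.add (pr 6 d0 d9) (Nat.add (pr 7 d1 d9) (pr 8 d4 d9)))))))))

/-- Code of ten digits. -/
def pk (d0 d1 d2 d3 d4 d5 d6 d7 d8 d9 : ℕ) : ℕ :=
  Nat.add d0 (Nat.mul 8 (Nat.add d1 (Nat.mul 8 (Nat.add d2 (Nat.mul 8 (Nat.add d3 (Nat.mul 8
    (Nat.add d4 (Nat.mul 8 (Nat.add d5 (Nat.mul 8 (Nat.add d6 (Nat.mul 8 (Nat.add d7 (Nat.mul 8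
      (Nat.add d8 (Nat.mul 8 d9)))))))))))))))))

/-- The pattern is excluded. -/
def ngm (m : ℕ) : Bool := NGP.any fun x => Nat.beq (Nat.land m x.2) x.1

/-- The final check for ten digits. -/
noncomputable def leaf (d0 d1 d2 d3 d4 d5 d6 d7 d8 d9 acc pcs w0 w1 w2 w3 w4 : ℕ) : Bool :=
  Nat.ble (Nat.add acc (A3 d0 d1 d2 d3 d4 d5 d6 d7 d8 d9 w0 w1 w2 w3 w4))
    (Nat.add (Nat.mul 1080000 (Nat.add pcs (pc d9))) 21467202560) ||
      ngm (pk d0 d1 d2 d3 d4 d5 d6 d7 d8 d9)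

noncomputable def dfs3 (s8 d0 d1 d2 d3 d4 d5 d6 d7 d8 acc pcs w0 w1 w2 : ℕ) : Bool :=
  all7 fun d9 =>
    let q3 := cd d2 d5 d7 d9
    let q4 := cd d3 d6 d8 d9
    !(Nat.ble s8 (key q3)) || (!(Nat.ble s8 (key q4)) ||
      leaf d0 d1 d2 d3 d4 d5 d6 d7 d8 d9 acc pcs w0 w1 w2 (wF q3) (wF q4))

noncomputable def dfs2 (s8 d0 d1 d2 d3 d4 d5 d6 acc pcs w0 w1 : ℕ) : Bool :=
  all7 fun d7 => all7 fun d8 =>
    let q2 := cd d1 d4 d7 d8
    !(Nat.ble s8 (key q2)) ||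
      (let w2 := wF q2
      dfs3 s8 d0 d1 d2 d3 d4 d5 d6 d7 d8 (Nat.add acc (A2 d0 d1 d2 d3 d4 d5 d6 d7 d8 w0 w1 w2))
        (Nat.add pcs (Nat.add (pc d7) (pc d8))) w0 w1 w2)

noncomputable def dfs1 (s8 d0 d1 d2 d3 pcs w0 : ℕ) : Bool :=
  all7 fun d4 => all7 fun d5 => all7 fun d6 =>
    let q1 := cd d0 d4 d5 d6
    !(Nat.ble s8 (key q1)) ||
      (let w1 := wF q1
      dfs2 s8 d0 d1 d2 d3 d4 d5 d6 (A1 d0 d1 d2 d3 d4 d5 d6 w0 w1)
        (Nat.add pcs (Nat.add (pc d4) (Nat.add (pc d5) (pc d6)))) w0 w1)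

/-- The search for a seed. -/
noncomputable def dfs (s8 d0 d1 d2 d3 : ℕ) : Bool :=
  dfs1 s8 d0 d1 d2 d3 (Nat.add (pc d0) (Nat.add (pc d1) (Nat.add (pc d2) (pc d3))))
    (wF (cd d0 d1 d2 d3))

end Pool.Agent.MP_0af329_co.Q5
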