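import Pool.Agent.MP_0af329_co.QSum
import Pool.Agent.MP_0af329_co.Final

/-!
# At least `8/27` of the angles are below `π / 4`
-/

set_option autoImplicit false

namespace Pool.Agent.MP_0af329_co.Q5

open EuclideanGeometry

open Classical in
/-- Indicator of a triple of different points with angle in `A`. -/
noncomputable def ic (A : Set ℝ) (x y z : Pt) : ℤ :=
  if (x ≠ y ∧ y ≠ z ∧ x ≠ z) ∧ ∠ x y z ∈ A then 1 else 0

theorem ic_nonneg (A : Set ℝ) (x y z : Pt) : 0 ≤ ic A x y z := by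
  rw [ic]; split_ifs <;> norm_num

/-- Ordered triples with angle in `A`, as a triple sum. -/
theorem cnt_sum (V : Finset Pt) (A : Set ℝ) :
    (cnt V A : ℤ) = ∑ x ∈ V, ∑ y ∈ V, ∑ z ∈ V, ic A x y z := by
  rw [cnt, trip, Finset.filter_filter, Finset.card_filter]
  push_cast
  rw [Finset.sum_product]
  refine Finset.sum_congr rfl fun x _ => ?_
  rw [Finset.sum_product]
  rfl

open Classical in
theorem deg_sum (V : Finset Pt) :
    ∑ x ∈ V, ∑ y ∈ V, ∑ z ∈ V, (if x = y ∨ y = z ∨ x = z then (1 : ℤ) else 0) ≤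
      3 * (V.card : ℤ) ^ 2 := by
  have h : ∀ x ∈ V, ∀ y ∈ V, ∑ z ∈ V, (if x = y ∨ y = z ∨ x = z then (1 : ℤ) else 0) ≤
      (if x = y then (V.card : ℤ) else 0) + 2 := by
    intro x hx y hy
    by_cases hxy : x = y
    · rw [if_pos hxy]
      have h1 : ∑ z ∈ V, (if x = y ∨ y = z ∨ x = z then (1 : ℤ) else 0) ≤ ∑ z ∈ V, 1 := by
        refine Finset.sum_le_sum fun z _ => ?_
        split_ifs <;> norm_num
      rw [Finset.sum_const, nsmul_eq_mul, mul_one] at h1
      linarith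
    · rw [if_neg hxy]
      have h1 : ∑ z ∈ V, (if x = y ∨ y = z ∨ x = z then (1 : ℤ) else 0) ≤
          ∑ z ∈ V, ((if y = z then (1 : ℤ) else 0) + if x = z then 1 else 0) := by
        refine Finset.sum_le_sum fun z _ => ?_
        by_cases h2 : y = z <;> by_cases h3 : x = z <;> simp [h2, h3, hxy]
      rw [Finset.sum_add_distrib, Finset.sum_ite_eq, Finset.sum_ite_eq, if_pos hx, if_pos hy] at h1
      linarith
  have h2 := Finset.sum_le_sum fun x hx => Finset.sum_le_sum fun y hy => h x hx y hy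
  refine h2.trans ?_
  simp only [Finset.sum_add_distrib, Finset.sum_ite_eq, Finset.sum_const, nsmul_eq_mul]
  have h3 : ∑ x ∈ V, (if x ∈ V then (V.card : ℤ) else 0) = V.card * V.card := by
    rw [Finset.sum_congr rfl fun x hx => if_pos hx, Finset.sum_const, nsmul_eq_mul]
  rw [h3]
  nlinarith

theorem pc_dg (x y z : Pt) :
    (pc (dg x y z) : ℤ) = (sm x y z).toNat + (sm y x z).toNat + (sm z x y).toNat := by
  rw [dg]
  cases sm x y z <;> cases sm y x z <;> cases sm z x y <;> rfl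

theorem pc_sum (V : Finset Pt) : ∑ x ∈ V, ∑ y ∈ V, ∑ z ∈ V, (pc (dg x y z) : ℤ) =
    3 * ∑ x ∈ V, ∑ y ∈ V, ∑ z ∈ V, ((sm y x z).toNat : ℤ) := by
  simp only [pc_dg, Finset.sum_add_distrib]
  have h1 : ∑ x ∈ V, ∑ y ∈ V, ∑ z ∈ V, ((sm x y z).toNat : ℤ) =
      ∑ x ∈ V, ∑ y ∈ V, ∑ z ∈ V, ((sm y x z).toNat : ℤ) := by
    rw [Finset.sum_comm]
  have h2 : ∑ x ∈ V, ∑ y ∈ V, ∑ z ∈ V, ((sm z x y).toNat : ℤ) =
      ∑ x ∈ V, ∑ y ∈ V, ∑ z ∈ V, ((sm y x z).toNat : ℤ) := by
    refine Finset.sum_congr rfl fun x _ => ?_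
    rw [Finset.sum_comm]
  rw [h1, h2]
  ring

theorem sm_sum (V : Finset Pt) : ∑ x ∈ V, ∑ y ∈ V, ∑ z ∈ V, ((sm y x z).toNat : ℤ) ≤
    cnt V (Set.Iio (Real.pi / 4)) + 3 * (V.card : ℤ) ^ 2 := by
  classical
  refine le_trans ?_ (add_le_add_right (deg_sum V) _)
  rw [cnt_sum, ← Finset.sum_add_distrib]
  refine Finset.sum_le_sum fun x _ => ?_
  rw [← Finset.sum_add_distrib]
  refine Finset.sum_le_sum fun y _ => ?_
  rw [← Finset.sum_add_distrib]
  refine Finset.sum_le_sum fun z _ => ?_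
  have h0 := ic_nonneg (Set.Iio (Real.pi / 4)) x y z
  by_cases h1 : x = y ∨ y = z ∨ x = z
  · rw [if_pos h1]
    cases sm y x z
    · simp only [Bool.toNat_false, Nat.cast_zero]; linarith
    · simp only [Bool.toNat_true, Nat.cast_one]; linarith
  · rw [if_neg h1, add_zero]
    push Not at h1
    by_cases h2 : ∠ x y z < Real.pi / 4
    · rw [ic, if_pos ⟨h1, h2⟩]
      cases sm y x z <;> simp
    · have h3 : sm y x z = false := by
        rw [sm, decide_eq_false_iff_not]
        exact h2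
      rw [h3]
      exact h0

theorem tb_le (T i j : ℕ) : tb T i j ≤ 4294967295 := Nat.and_le_right

theorem qt_le (x y z u v : Pt) : qt x y z u v ≤ 2147483647 := by
  rw [qt, qz]
  have h := tb_le (QTd (dg x y z)) (Fl x y z u) (Fl x y z v)
  zify at h
  linarith

theorem rt_le (x a b c d : Pt) : rt x a b c d ≤ 2147483647 := by
  rw [rt, qz]
  have h := tb_le QT3 (fv x a b) (fv x c d)
  zify at h
  linarith

theorem Sx_lower (p : Fin 5 → Pt) : -100000000000 ≤ Sx p := by
  rw [Sx, SS]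
  generalize p 0 = a, p 1 = b, p 2 = c, p 3 = d, p 4 = e
  have h1 : 0 ≤ NN a b c d e := by rw [NN]; positivity
  have h2 : QQ a b c d e ≤ 10 * 2147483647 := by
    rw [QQ]
    linarith [qt_le a b c d e, qt_le a b d c e, qt_le a c d b e, qt_le b c d a e,
      qt_le a b e c d, qt_le a c e b d, qt_le b c e a d, qt_le a d e b c, qt_le b d e a c,
      qt_le c d e a b]
  have h3 : RR a b c d e ≤ 15 * 2147483647 := by
    rw [RR]
    linarith [rt_le a b d c e, rt_le b a d c e, rt_le a c d b e, rt_le c a d b e,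
      rt_le b c d a e, rt_le c b d a e, rt_le a b c d e, rt_le b a c d e, rt_le d a c b e,
      rt_le d b c a e, rt_le e a c b d, rt_le e b c a d, rt_le c a b d e, rt_le d a b c e,
      rt_le e a b c d]
  linarith

end Pool.Agent.MP_0af329_co.Q5
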