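import Pool.Agent.MP_0af329_co.QFin

/-!
# At least `8/27` of the angles are below `π / 4`: conclusion
-/

set_option autoImplicit false

namespace Pool.Agent.MP_0af329_co.Q5

open EuclideanGeometry Filter Topology

open Classical in
/-- Degenerate or exceptional triples. -/
noncomputable def wz (x y z : Pt) : ℤ := (if x = y ∨ y = z ∨ x = z then 1 else 0) +
  ic {Real.pi / 4} x y z

theorem wz_nonneg (x y z : Pt) : 0 ≤ wz x y z := by
  have h := ic_nonneg {Real.pi / 4} x y z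
  rw [wz]
  split_ifs <;> linarith

theorem wz_one {x y z : Pt} (h : x = y ∨ y = z ∨ x = z ∨ ∠ x y z = Real.pi / 4) :
    1 ≤ wz x y z := by
  have h0 := ic_nonneg {Real.pi / 4} x y z
  rw [wz]
  by_cases h1 : x = y ∨ y = z ∨ x = z
  · rw [if_pos h1]
    linarith
  · rw [if_neg h1, ic, if_pos]
    · norm_num
    · push Not at h1
      refine ⟨h1, ?_⟩
      rcases h with h | h | h | h
      · exact absurd h h1.1
      · exact absurd h h1.2.1
      · exact absurd h h1.2.2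
      · exact h

theorem wz_sum {V : Finset Pt} (hV : GenPos V) :
    ∑ x ∈ V, ∑ y ∈ V, ∑ z ∈ V, wz x y z ≤ 5 * (V.card : ℤ) ^ 2 := by
  simp only [wz, Finset.sum_add_distrib]
  rw [← cnt_sum]
  have h1 := deg_sum V
  have h2 := cnt_singleton_le hV (Real.pi / 4)
  have h3 : (cnt V {Real.pi / 4} : ℤ) ≤ 2 * (V.card : ℤ) ^ 2 := by exact_mod_cast h2
  linarith

/-- Triples of different indices. -/
def D5 : Finset (Fin 5 × Fin 5 × Fin 5) :=
  Finset.univ.filter fun t => t.1 ≠ t.2.1 ∧ t.2.1 ≠ t.2.2 ∧ t.1 ≠ t.2.2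

theorem D5_card : D5.card = 60 := by decide +kernel

noncomputable def WW (p : Fin 5 → Pt) : ℤ := ∑ t ∈ D5, wz (p t.1) (p t.2.1) (p t.2.2)

theorem WW_nonneg (p : Fin 5 → Pt) : 0 ≤ WW p := Finset.sum_nonneg fun _ _ => wz_nonneg _ _ _

theorem WW_one {V : Finset Pt} (hV : GenPos V) {p : Fin 5 → Pt} (hp : ∀ i, p i ∈ V)
    (h : ¬ G5 p) : 1 ≤ WW p := by
  have key : ∃ i j k : Fin 5, (i ≠ j ∧ j ≠ k ∧ i ≠ k) ∧
      (p i = p j ∨ p j = p k ∨ p i = p k ∨ ∠ (p i) (p j) (p k) = Real.pi / 4) := by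
    by_contra hcon
    push Not at hcon
    apply h
    constructor
    · intro i j k h1 h2 h3
      obtain ⟨a, b, c, d⟩ := hcon i j k ⟨h1, h2, h3⟩
      exact hV _ (hp i) _ (hp j) _ (hp k) a b c
    · intro i j k h1 h2 h3
      exact (hcon i j k ⟨h1, h2, h3⟩).2.2.2
  obtain ⟨i, j, k, h1, h2⟩ := key
  have h3 : (i, j, k) ∈ D5 := by
    rw [D5, Finset.mem_filter]
    exact ⟨Finset.mem_univ _, h1⟩
  exact (wz_one h2).trans (Finset.single_le_sum
    (f := fun t : Fin 5 × Fin 5 × Fin 5 => wz (p t.1) (p t.2.1) (p t.2.2))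
    (fun _ _ => wz_nonneg _ _ _) h3)

theorem S5_WW {V : Finset Pt} (hV : GenPos V) : S5 V WW ≤ 300 * (V.card : ℤ) ^ 4 := by
  have h : S5 V WW = ∑ t ∈ D5, S5 V (fun p => wz (p t.1) (p t.2.1) (p t.2.2)) := by
    rw [S5]
    simp only [WW]
    rw [Finset.sum_comm]
    rfl
  rw [h]
  have h1 : ∀ t ∈ D5, S5 V (fun p => wz (p t.1) (p t.2.1) (p t.2.2)) ≤
      5 * (V.card : ℤ) ^ 4 := by
    intro t ht
    rw [D5, Finset.mem_filter] at ht
    rw [S5_three V wz ht.2.1 ht.2.2.1 ht.2.2.2]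
    have h2 := mul_le_mul_of_nonneg_left (wz_sum hV) (sq_nonneg (V.card : ℤ))
    refine h2.trans (le_of_eq ?_)
    ring
  have h2 := Finset.sum_le_card_nsmul _ _ _ h1
  rw [D5_card] at h2
  refine h2.trans (le_of_eq ?_)
  rw [nsmul_eq_mul]
  push_cast
  ring

theorem main_ineq {V : Finset Pt} (hV : GenPos V) :
    9600000 * (V.card : ℤ) ^ 5 ≤
      32400000 * (V.card : ℤ) ^ 2 * (cnt V (Set.Iio (Real.pi / 4)) + 3 * (V.card : ℤ) ^ 2) +
        30000000000000 * (V.card : ℤ) ^ 4 := by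
  have h1 : 0 ≤ S5 V (fun p => Sx p + 100000000000 * WW p) := by
    refine Finset.sum_nonneg fun p hp => ?_
    rw [Fintype.mem_piFinset] at hp
    by_cases hg : G5 p
    · have h2 := Sx_nonneg hg
      have h3 := WW_nonneg p
      positivity
    · have h2 := Sx_lower p
      have h3 := WW_one hV hp hg
      linarith
  have h2 : S5 V (fun p => Sx p + 100000000000 * WW p) = 1080000 *
      S5 V (fun p => NN (p 0) (p 1) (p 2) (p 3) (p 4)) - 9600000 * (V.card : ℤ) ^ 5 -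
      S5 V (fun p => QQ (p 0) (p 1) (p 2) (p 3) (p 4)) -
      S5 V (fun p => RR (p 0) (p 1) (p 2) (p 3) (p 4)) + 100000000000 * S5 V WW := by
    have h3 : (Fintype.piFinset fun _ : Fin 5 => V).card = V.card ^ 5 :=
      Fintype.card_piFinset_const V 5
    have e1 : ∀ p : Fin 5 → Pt, Sx p + 100000000000 * WW p =
        1080000 * NN (p 0) (p 1) (p 2) (p 3) (p 4) + (-9600000) +
          (-1) * QQ (p 0) (p 1) (p 2) (p 3) (p 4) + (-1) * RR (p 0) (p 1) (p 2) (p 3) (p 4) +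
          100000000000 * WW p := by
      intro p
      rw [Sx, SS]
      ring
    simp only [S5, e1, Finset.sum_add_distrib, ← Finset.mul_sum, Finset.sum_const, nsmul_eq_mul,
      h3]
    push_cast
    ring
  rw [h2, S5_NN, pc_sum] at h1
  have h4 := S5_QQ V
  have h5 := S5_RR V
  have h6 := S5_WW hV
  have h7 := mul_le_mul_of_nonneg_left (sm_sum V) (sq_nonneg (V.card : ℤ))
  nlinarith

theorem le_cnt {V : Finset Pt} (hV : GenPos V) (hn : 3 ≤ V.card) :
    (8 / 27 : ℝ) * ((V.card : ℝ) * ((V.card : ℝ) - 1) * ((V.card : ℝ) - 2)) -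
      1000000 * (V.card : ℝ) ^ 2 ≤ cnt V (Set.Iio (Real.pi / 4)) := by
  have h := main_ineq hV
  obtain ⟨c, hc⟩ : ∃ c : ℝ, c = cnt V (Set.Iio (Real.pi / 4)) := ⟨_, rfl⟩
  obtain ⟨n, hn'⟩ : ∃ n : ℝ, n = V.card := ⟨_, rfl⟩
  have h1 : 9600000 * n ^ 5 ≤ 32400000 * n ^ 2 * (c + 3 * n ^ 2) + 30000000000000 * n ^ 4 := by
    rw [hc, hn']
    exact_mod_cast h
  have h3 : (3 : ℝ) ≤ n := by rw [hn']; exact_mod_cast hn
  rw [← hc, ← hn']
  have h4 : 9600000 * n ^ 3 ≤ 32400000 * (c + 3 * n ^ 2) + 30000000000000 * n ^ 2 := by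
    have h5 : (0 : ℝ) < n ^ 2 := by positivity
    refine le_of_mul_le_mul_left ?_ h5
    calc n ^ 2 * (9600000 * n ^ 3) = 9600000 * n ^ 5 := by ring
      _ ≤ _ := h1
      _ = n ^ 2 * (32400000 * (c + 3 * n ^ 2) + 30000000000000 * n ^ 2) := by ring
  nlinarith [sq_nonneg n]

theorem le_dens_quarter : 8 / 27 ≤ dens (Set.Iio (Real.pi / 4)) :=
  le_dens _ (8 / 27) 1000000 fun _ hS hn => le_cnt hS hn

/-- `G = 8/27` on `[π/4, π/3)`. -/
theorem G_quarter_eq (α : ℝ) (h1 : Real.pi / 4 ≤ α) (h2 : α < Real.pi / 3) : G α = 8 / 27 := by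
  apply le_antisymm
  · have := G_le 3 (by norm_num) α (by push_cast; linarith)
    norm_num at this
    linarith
  · exact le_dens_quarter.trans (G_mono h1)

end Pool.Agent.MP_0af329_co.Q5
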