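import Pool.Agent.MP_0af329_co.QGeo

/-!
# Three exclusion lemmas and the seven position types of four points
-/

set_option autoImplicit false

namespace Pool.Agent.MP_0af329_co.Q5

open EuclideanGeometry

/-- In a convex quadrilateral `a b c d` the four angles `b a c`, `c b d`, `d c a`, `a d b` are not
all larger than `π / 4`. -/
theorem Cvx.lemB {a b c d : Pt} (h : Cvx a b c d) (hA : dt a b c < |cr a b c|)
    (hB : dt b c d < |cr b c d|) (hC : dt c d a < |cr c d a|) (hD : dt d a b < |cr d a b|) :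
    False := by
  obtain ⟨s, t, h1, h2, h3, h4, h5, h6⟩ := h
  obtain ⟨P0, hP0⟩ : ∃ P0, P0 = c 0 - a 0 := ⟨_, rfl⟩
  obtain ⟨P1, hP1⟩ : ∃ P1, P1 = c 1 - a 1 := ⟨_, rfl⟩
  obtain ⟨Q0, hQ0⟩ : ∃ Q0, Q0 = d 0 - b 0 := ⟨_, rfl⟩
  obtain ⟨Q1, hQ1⟩ : ∃ Q1, Q1 = d 1 - b 1 := ⟨_, rfl⟩
  have b0 : b 0 - a 0 = s * P0 - t * Q0 := by rw [hP0, hQ0]; linear_combination -h5
  have b1 : b 1 - a 1 = s * P1 - t * Q1 := by rw [hP1, hQ1]; linear_combination -h6
  obtain ⟨κ, hκ⟩ : ∃ κ, κ = P0 * Q1 - P1 * Q0 := ⟨_, rfl⟩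
  obtain ⟨g, hg⟩ : ∃ g, g = P0 * Q0 + P1 * Q1 := ⟨_, rfl⟩
  obtain ⟨PP, hPP⟩ : ∃ PP, PP = P0 ^ 2 + P1 ^ 2 := ⟨_, rfl⟩
  obtain ⟨QQ, hQQ⟩ : ∃ QQ, QQ = Q0 ^ 2 + Q1 ^ 2 := ⟨_, rfl⟩
  have eA : dt a b c = s * PP - t * g := by
    rw [dt, b0, b1, ← hP0, ← hP1, hPP, hg]; ring
  have fA : cr a b c = t * κ := by
    rw [cr, b0, b1, ← hP0, ← hP1, hκ]; ring
  have cb0 : c 0 - b 0 = (1 - s) * P0 + t * Q0 := by linear_combination -b0 - hP0
  have cb1 : c 1 - b 1 = (1 - s) * P1 + t * Q1 := by linear_combination -b1 - hP1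
  have eB : dt b c d = (1 - s) * g + t * QQ := by
    rw [dt, cb0, cb1, ← hQ0, ← hQ1, hQQ, hg]; ring
  have fB : cr b c d = (1 - s) * κ := by
    rw [cr, cb0, cb1, ← hQ0, ← hQ1, hκ]; ring
  have dc0 : d 0 - c 0 = (1 - t) * Q0 - (1 - s) * P0 := by linear_combination -cb0 - hQ0
  have dc1 : d 1 - c 1 = (1 - t) * Q1 - (1 - s) * P1 := by linear_combination -cb1 - hQ1
  have ac0 : a 0 - c 0 = -P0 := by linear_combination hP0
  have ac1 : a 1 - c 1 = -P1 := by linear_combination hP1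
  have eC : dt c d a = (1 - s) * PP - (1 - t) * g := by
    rw [dt, dc0, dc1, ac0, ac1, hPP, hg]; ring
  have fC : cr c d a = (1 - t) * κ := by
    rw [cr, dc0, dc1, ac0, ac1, hκ]; ring
  have ad0 : a 0 - d 0 = -((1 - t) * Q0 + s * P0) := by linear_combination hQ0 - b0
  have ad1 : a 1 - d 1 = -((1 - t) * Q1 + s * P1) := by linear_combination hQ1 - b1
  have bd0 : b 0 - d 0 = -Q0 := by linear_combination hQ0
  have bd1 : b 1 - d 1 = -Q1 := by linear_combination hQ1
  have eD : dt d a b = (1 - t) * QQ + s * g := by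
    rw [dt, ad0, ad1, bd0, bd1, hQQ, hg]; ring
  have fD : cr d a b = s * κ := by
    rw [cr, ad0, ad1, bd0, bd1, hκ]; ring
  rw [eA, fA, abs_mul, abs_of_pos h3] at hA
  rw [eB, fB, abs_mul, abs_of_pos (by linarith : 0 < 1 - s)] at hB
  rw [eC, fC, abs_mul, abs_of_pos (by linarith : 0 < 1 - t)] at hC
  rw [eD, fD, abs_mul, abs_of_pos h1] at hD
  have p0 : 0 ≤ PP := by rw [hPP]; positivity
  have q0 : 0 ≤ QQ := by rw [hQQ]; positivity
  have hsq : (|κ| + g) * (|κ| - g) ≤ PP * QQ := by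
    have e1 : (|κ| + g) * (|κ| - g) = κ ^ 2 - g ^ 2 := by
      rw [← sq_abs κ]; ring
    have e2 : PP * QQ = κ ^ 2 + g ^ 2 := by rw [hPP, hQQ, hκ, hg]; ring
    rw [e1, e2]
    nlinarith [sq_nonneg g]
  obtain ⟨U, hU⟩ : ∃ U, U = |κ| + g := ⟨_, rfl⟩
  obtain ⟨V, hV⟩ : ∃ V, V = |κ| - g := ⟨_, rfl⟩
  rw [← hU, ← hV] at hsq
  have kA : s * PP < t * U := by rw [hU]; linarith
  have kB : t * QQ < (1 - s) * V := by rw [hV]; linarith
  have kC : (1 - s) * PP < (1 - t) * U := by rw [hU]; linarith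
  have kD : (1 - t) * QQ < s * V := by rw [hV]; linarith
  have m1 := mul_lt_mul'' kA kB (mul_nonneg h1.le p0) (mul_nonneg h3.le q0)
  have m2 := mul_lt_mul'' kC kD (mul_nonneg (by linarith) p0) (mul_nonneg (by linarith) q0)
  have n1 : s * (PP * QQ) < (1 - s) * (U * V) := by
    have : t * (s * (PP * QQ)) < t * ((1 - s) * (U * V)) := by linarith
    exact lt_of_mul_lt_mul_left this h3.le
  have n2 : (1 - s) * (PP * QQ) < s * (U * V) := by
    have : (1 - t) * ((1 - s) * (PP * QQ)) < (1 - t) * (s * (U * V)) := by linarith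
    exact lt_of_mul_lt_mul_left this (by linarith)
  linarith

/-- In a convex quadrilateral `a b c d` it is impossible that the angles `b a c`, `a d b` are
smaller and the angles `c d b`, `b c a` are larger than `π / 4`. -/
theorem Cvx.lemC {a b c d : Pt} (h : Cvx a b c d) (hA : |cr a b c| < dt a b c)
    (hD : |cr d a b| < dt d a b) (hD' : dt d c b < |cr d c b|) (hC : dt c b a < |cr c b a|) :
    False := by
  obtain ⟨s, t, h1, h2, h3, h4, h5, h6⟩ := h
  obtain ⟨P0, hP0⟩ : ∃ P0, P0 = c 0 - a 0 := ⟨_, rfl⟩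
  obtain ⟨P1, hP1⟩ : ∃ P1, P1 = c 1 - a 1 := ⟨_, rfl⟩
  obtain ⟨Q0, hQ0⟩ : ∃ Q0, Q0 = d 0 - b 0 := ⟨_, rfl⟩
  obtain ⟨Q1, hQ1⟩ : ∃ Q1, Q1 = d 1 - b 1 := ⟨_, rfl⟩
  have b0 : b 0 - a 0 = s * P0 - t * Q0 := by rw [hP0, hQ0]; linear_combination -h5
  have b1 : b 1 - a 1 = s * P1 - t * Q1 := by rw [hP1, hQ1]; linear_combination -h6
  obtain ⟨κ, hκ⟩ : ∃ κ, κ = P0 * Q1 - P1 * Q0 := ⟨_, rfl⟩
  obtain ⟨g, hg⟩ : ∃ g, g = P0 * Q0 + P1 * Q1 := ⟨_, rfl⟩
  obtain ⟨PP, hPP⟩ : ∃ PP, PP = P0 ^ 2 + P1 ^ 2 := ⟨_, rfl⟩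
  obtain ⟨QQ, hQQ⟩ : ∃ QQ, QQ = Q0 ^ 2 + Q1 ^ 2 := ⟨_, rfl⟩
  have eA : dt a b c = s * PP - t * g := by
    rw [dt, b0, b1, ← hP0, ← hP1, hPP, hg]; ring
  have fA : cr a b c = t * κ := by
    rw [cr, b0, b1, ← hP0, ← hP1, hκ]; ring
  have cb0 : b 0 - c 0 = -((1 - s) * P0 + t * Q0) := by linear_combination b0 + hP0
  have cb1 : b 1 - c 1 = -((1 - s) * P1 + t * Q1) := by linear_combination b1 + hP1
  have dc0 : c 0 - d 0 = (1 - s) * P0 - (1 - t) * Q0 := by linear_combination -cb0 + hQ0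
  have dc1 : c 1 - d 1 = (1 - s) * P1 - (1 - t) * Q1 := by linear_combination -cb1 + hQ1
  have ac0 : a 0 - c 0 = -P0 := by linear_combination hP0
  have ac1 : a 1 - c 1 = -P1 := by linear_combination hP1
  have ad0 : a 0 - d 0 = -((1 - t) * Q0 + s * P0) := by linear_combination hQ0 - b0
  have ad1 : a 1 - d 1 = -((1 - t) * Q1 + s * P1) := by linear_combination hQ1 - b1
  have bd0 : b 0 - d 0 = -Q0 := by linear_combination hQ0
  have bd1 : b 1 - d 1 = -Q1 := by linear_combination hQ1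
  have eD : dt d a b = (1 - t) * QQ + s * g := by
    rw [dt, ad0, ad1, bd0, bd1, hQQ, hg]; ring
  have fD : cr d a b = s * κ := by
    rw [cr, ad0, ad1, bd0, bd1, hκ]; ring
  have eD' : dt d c b = (1 - t) * QQ - (1 - s) * g := by
    rw [dt, dc0, dc1, bd0, bd1, hQQ, hg]; ring
  have fD' : cr d c b = -((1 - s) * κ) := by
    rw [cr, dc0, dc1, bd0, bd1, hκ]; ring
  have eC : dt c b a = (1 - s) * PP + t * g := by
    rw [dt, cb0, cb1, ac0, ac1, hPP, hg]; ring
  have fC : cr c b a = -(t * κ) := by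
    rw [cr, cb0, cb1, ac0, ac1, hκ]; ring
  rw [eA, fA, abs_mul, abs_of_pos h3] at hA
  rw [eD, fD, abs_mul, abs_of_pos h1] at hD
  rw [eD', fD', abs_neg, abs_mul, abs_of_pos (by linarith : 0 < 1 - s)] at hD'
  rw [eC, fC, abs_neg, abs_mul, abs_of_pos h3] at hC
  have p0 : 0 ≤ PP := by rw [hPP]; positivity
  have q0 : 0 ≤ QQ := by rw [hQQ]; positivity
  obtain ⟨U, hU⟩ : ∃ U, U = |κ| + g := ⟨_, rfl⟩
  obtain ⟨V, hV⟩ : ∃ V, V = |κ| - g := ⟨_, rfl⟩
  have kA : t * U < s * PP := by rw [hU]; linarith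
  have kD : s * V < (1 - t) * QQ := by rw [hV]; linarith
  have kD' : (1 - t) * QQ < (1 - s) * U := by rw [hU]; linarith
  have kC : (1 - s) * PP < t * V := by rw [hV]; linarith
  have U0 : 0 < U := by
    have : 0 < (1 - s) * U := lt_of_le_of_lt (mul_nonneg (by linarith) q0) kD'
    exact (pos_iff_pos_of_mul_pos this).1 (by linarith)
  have V0 : 0 < V := by
    have : 0 < t * V := lt_of_le_of_lt (mul_nonneg (by linarith) p0) kC
    exact (pos_iff_pos_of_mul_pos this).1 h3
  have P0' : 0 < PP := by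
    have : 0 < s * PP := lt_trans (mul_pos h3 U0) kA
    exact (pos_iff_pos_of_mul_pos this).1 h1
  have c1 : s * V * PP < (1 - s) * U * PP := mul_lt_mul_of_pos_right (kD.trans kD') P0'
  have c2 : (1 - s) * PP * U < t * V * U := mul_lt_mul_of_pos_right kC U0
  have c3 : t * U * V < s * PP * V := mul_lt_mul_of_pos_right kA V0
  linarith

/-- In a triangle the side opposite to the angle below `π / 4` is shorter than the side opposite
to the angle above `π / 4`. -/
theorem side_lt {x y z : Pt} (hx : |cr x y z| < dt x y z) (hy : dt y x z < |cr y x z|) :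
    dt z y y < dt z x x := by
  have e : cr y x z = -cr x y z := by rw [cr, cr]; ring
  rw [e, abs_neg] at hy
  have h := hy.trans hx
  rw [dt, dt] at h
  rw [dt, dt]
  linarith

theorem lemD {a b c p : Pt} (h1 : |cr a b p| < dt a b p) (h2 : dt b a p < |cr b a p|)
    (h3 : |cr b c p| < dt b c p) (h4 : dt c b p < |cr c b p|)
    (h5 : |cr c a p| < dt c a p) (h6 : dt a c p < |cr a c p|) : False := by
  have k1 := side_lt h1 h2
  have k2 := side_lt h3 h4
  have k3 := side_lt h5 h6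
  linarith

theorem mkCvx {x y z w : Pt} {lx ly lz lw : ℝ} (hx : 0 < lx) (hz : 0 < lz) (hy : ly < 0)
    (hw : lw < 0) (e : lx + ly + lz + lw = 0)
    (e0 : lx * x 0 + ly * y 0 + lz * z 0 + lw * w 0 = 0)
    (e1 : lx * x 1 + ly * y 1 + lz * z 1 + lw * w 1 = 0) : Cvx x y z w := by
  have n1 : lx + lz ≠ 0 := by positivity
  have n2 : ly + lw = -(lx + lz) := by linarith
  refine ⟨lz / (lx + lz), lw / (ly + lw), by positivity, ?_, ?_, ?_, ?_, ?_⟩
  · rw [div_lt_one (by positivity)]; linarith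
  · exact div_pos_of_neg_of_neg hw (by linarith)
  · rw [div_lt_one_of_neg (by linarith)]; linarith
  · rw [n2]; field_simp; linear_combination e0 - y 0 * e
  · rw [n2]; field_simp; linear_combination e1 - y 1 * e

theorem mkInn {p a b c : Pt} {lp la lb lc : ℝ} (hp : lp < 0) (ha : 0 < la) (hb : 0 < lb)
    (hc : 0 < lc) (e : lp + la + lb + lc = 0)
    (e0 : lp * p 0 + la * a 0 + lb * b 0 + lc * c 0 = 0)
    (e1 : lp * p 1 + la * a 1 + lb * b 1 + lc * c 1 = 0) : Inn p a b c := by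
  have n1 : la + lb + lc ≠ 0 := by positivity
  have n2 : lp = -(la + lb + lc) := by linarith
  refine ⟨la / (la + lb + lc), lb / (la + lb + lc), lc / (la + lb + lc), by positivity,
    by positivity, by positivity, ?_, ?_, ?_⟩
  · field_simp
  · field_simp
    rw [n2] at e0
    linarith
  · field_simp
    rw [n2] at e1
    linarith

/-- The seven position types of four points in general position. -/
theorem options {a b c d : Pt} (h1 : acute_det b c d ≠ 0) (h2 : acute_det a c d ≠ 0)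
    (h3 : acute_det a b d ≠ 0) (h4 : acute_det a b c ≠ 0) :
    Cvx a c b d ∨ Cvx a b c d ∨ Cvx a b d c ∨ Inn a b c d ∨ Inn b a c d ∨ Inn c a b d ∨
      Inn d a b c := by
  obtain ⟨l0, hl0⟩ : ∃ l, l = acute_det b c d := ⟨_, rfl⟩
  obtain ⟨l1, hl1⟩ : ∃ l, l = - acute_det a c d := ⟨_, rfl⟩
  obtain ⟨l2, hl2⟩ : ∃ l, l = acute_det a b d := ⟨_, rfl⟩
  obtain ⟨l3, hl3⟩ : ∃ l, l = - acute_det a b c := ⟨_, rfl⟩
  have n0 : l0 ≠ 0 := by rw [hl0]; exact h1
  have n1 : l1 ≠ 0 := by rw [hl1]; exact neg_ne_zero.2 h2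
  have n2 : l2 ≠ 0 := by rw [hl2]; exact h3
  have n3 : l3 ≠ 0 := by rw [hl3]; exact neg_ne_zero.2 h4
  rw [acute_det] at hl0 hl1 hl2 hl3
  have s0 : l0 + l1 + l2 + l3 = 0 := by rw [hl0, hl1, hl2, hl3]; ring
  have sx : l0 * a 0 + l1 * b 0 + l2 * c 0 + l3 * d 0 = 0 := by
    rw [hl0, hl1, hl2, hl3]; ring
  have sy : l0 * a 1 + l1 * b 1 + l2 * c 1 + l3 * d 1 = 0 := by
    rw [hl0, hl1, hl2, hl3]; ring
  clear hl0 hl1 hl2 hl3 h1 h2 h3 h4
  rcases lt_or_gt_of_ne n0 with g0 | g0 <;> rcases lt_or_gt_of_ne n1 with g1 | g1 <;>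
    rcases lt_or_gt_of_ne n2 with g2 | g2 <;> rcases lt_or_gt_of_ne n3 with g3 | g3
  · linarith
  · -- only l3 positive: d inside
    refine Or.inr (Or.inr (Or.inr (Or.inr (Or.inr (Or.inr ?_)))))
    exact mkInn (lp := -l3) (la := -l0) (lb := -l1) (lc := -l2) (by linarith) (by linarith)
      (by linarith) (by linarith) (by linarith) (by linarith) (by linarith)
  · refine Or.inr (Or.inr (Or.inr (Or.inr (Or.inr (Or.inl ?_)))))
    exact mkInn (lp := -l2) (la := -l0) (lb := -l1) (lc := -l3) (by linarith) (by linarith)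
      (by linarith) (by linarith) (by linarith) (by linarith) (by linarith)
  · -- a b negative, c d positive: diagonals ab, cd
    refine Or.inl ?_
    exact mkCvx (lx := -l0) (ly := -l2) (lz := -l1) (lw := -l3) (by linarith) (by linarith)
      (by linarith) (by linarith) (by linarith) (by linarith) (by linarith)
  · refine Or.inr (Or.inr (Or.inr (Or.inr (Or.inl ?_))))
    exact mkInn (lp := -l1) (la := -l0) (lb := -l2) (lc := -l3) (by linarith) (by linarith)
      (by linarith) (by linarith) (by linarith) (by linarith) (by linarith)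
  · -- a c negative, b d positive: diagonals ac, bd
    refine Or.inr (Or.inl ?_)
    exact mkCvx (lx := -l0) (ly := -l1) (lz := -l2) (lw := -l3) (by linarith) (by linarith)
      (by linarith) (by linarith) (by linarith) (by linarith) (by linarith)
  · -- a d negative, b c positive: diagonals ad, bc
    refine Or.inr (Or.inr (Or.inl ?_))
    exact mkCvx (lx := -l0) (ly := -l1) (lz := -l3) (lw := -l2) (by linarith) (by linarith)
      (by linarith) (by linarith) (by linarith) (by linarith) (by linarith)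
  · -- only a negative: a inside
    refine Or.inr (Or.inr (Or.inr (Or.inl ?_)))
    exact mkInn (lp := l0) (la := l1) (lb := l2) (lc := l3) (by linarith) (by linarith)
      (by linarith) (by linarith) (by linarith) (by linarith) (by linarith)
  · -- only a positive: a inside
    refine Or.inr (Or.inr (Or.inr (Or.inl ?_)))
    exact mkInn (lp := -l0) (la := -l1) (lb := -l2) (lc := -l3) (by linarith) (by linarith)
      (by linarith) (by linarith) (by linarith) (by linarith) (by linarith)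
  · -- a d positive, b c negative
    refine Or.inr (Or.inr (Or.inl ?_))
    exact mkCvx (lx := l0) (ly := l1) (lz := l3) (lw := l2) (by linarith) (by linarith)
      (by linarith) (by linarith) (by linarith) (by linarith) (by linarith)
  · -- a c positive, b d negative
    refine Or.inr (Or.inl ?_)
    exact mkCvx (lx := l0) (ly := l1) (lz := l2) (lw := l3) (by linarith) (by linarith)
      (by linarith) (by linarith) (by linarith) (by linarith) (by linarith)
  · -- only b negative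
    refine Or.inr (Or.inr (Or.inr (Or.inr (Or.inl ?_))))
    exact mkInn (lp := l1) (la := l0) (lb := l2) (lc := l3) (by linarith) (by linarith)
      (by linarith) (by linarith) (by linarith) (by linarith) (by linarith)
  · -- a b positive, c d negative
    refine Or.inl ?_
    exact mkCvx (lx := l0) (ly := l2) (lz := l1) (lw := l3) (by linarith) (by linarith)
      (by linarith) (by linarith) (by linarith) (by linarith) (by linarith)
  · refine Or.inr (Or.inr (Or.inr (Or.inr (Or.inr (Or.inl ?_)))))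
    exact mkInn (lp := l2) (la := l0) (lb := l1) (lc := l3) (by linarith) (by linarith)
      (by linarith) (by linarith) (by linarith) (by linarith) (by linarith)
  · refine Or.inr (Or.inr (Or.inr (Or.inr (Or.inr (Or.inr ?_)))))
    exact mkInn (lp := l3) (la := l0) (lb := l1) (lc := l2) (by linarith) (by linarith)
      (by linarith) (by linarith) (by linarith) (by linarith) (by linarith)
  · linarith

end Pool.Agent.MP_0af329_co.Q5
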