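import Pool.Agent.MP_0af329_co.QPsD

/-!
# Certificate of the quadratic form 3
-/

set_option autoImplicit false
set_option maxRecDepth 100000

namespace Pool.Agent.MP_0af329_co.Q5

/-- Integer approximation of the scaled Cholesky factor, shifted by `2 ^ 21`. -/
def LL3 : List (List ℕ) := [
  [2155925, 2097152, 2097152],
  [2083370, 2102392, 2097152],
  [2063980, 2086508, 2098387]]

/-- Dependent flags. -/
def DP3 : List (List (ℕ × ℤ)) := [[(0, -2), (1, -4), (2, -2)], [(0, -2), (1, -4), (2, -2)]]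

/-- Parameters. -/
noncomputable def PM3 : Pm := ⟨QT3, 65536, 15474, 2097152, 2⟩

theorem ckC3 : ckC PM3 LL3 = true := by decide +kernel
theorem ckS3 : ckS QT3 6 = true := by decide +kernel
theorem ckW3 : ckW QT3 3 5 DP3 = true := by decide +kernel
theorem ckP3_0 : ckP PM3 LL3 0 3 = true := by decide +kernel

theorem psd3 {ι : Type*} (V : Finset ι) (f : ι → ℕ) (hf : ∀ u ∈ V, f u ≤ 5) :
    0 ≤ ∑ u ∈ V, ∑ v ∈ V, qz QT3 (f u) (f v) := by
  have hL : LL3.length = 3 := by decide +kernel
  refine psd_sum (m := 3) (by norm_num) ckS3 ckW3 (fun y => ?_) V f hf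
  refine psd_of_ck (p := PM3) ckC3 (fun i hi => ?_) (fun i hi j hj => ?_) y
  · have hi' : i < 3 := hi
    exact ckP_row ckP3_0 (by omega) (by omega) (by omega)
  · have hi' : i < 3 := hi
    have hj' : j < 3 := hj
    exact ckS_ok ckS3 (by omega) (by omega)

end Pool.Agent.MP_0af329_co.Q5
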