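import Pool.Agent.MP_0af329_co.QInv
import Pool.Agent.MP_0af329_co.QCrt2
import Pool.Agent.MP_0af329_co.QL0
import Pool.Agent.MP_0af329_co.QL1
import Pool.Agent.MP_0af329_co.QL2
import Pool.Agent.MP_0af329_co.QL3

/-!
# Digits and codes of points
-/

set_option autoImplicit false

namespace Pool.Agent.MP_0af329_co.Q5

open EuclideanGeometry

open Classical in
/-- The angle at `v` between `a` and `b` is below `π / 4`. -/
noncomputable def sm (v a b : Pt) : Bool := decide (∠ a v b < Real.pi / 4)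

theorem sm_comm (v a b : Pt) : sm v a b = sm v b a := by
  rw [sm, sm, angle_comm]

def dgb (x y z : Bool) : ℕ := x.toNat + 2 * y.toNat + 4 * z.toNat

/-- The digit of a triangle. -/
noncomputable def dg (a b c : Pt) : ℕ := dgb (sm a b c) (sm b a c) (sm c a b)

theorem dg_lt (a b c : Pt) : dg a b c < 8 := by
  rw [dg]
  cases sm a b c <;> cases sm b a c <;> cases sm c a b <;> decide

theorem dg01 (a b c : Pt) : dg b a c = P01 (dg a b c) := by
  rw [dg, dg, sm_comm c b a]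
  cases sm a b c <;> cases sm b a c <;> cases sm c a b <;> rfl

theorem dg12 (a b c : Pt) : dg a c b = P12 (dg a b c) := by
  rw [dg, dg, sm_comm a c b]
  cases sm a b c <;> cases sm b a c <;> cases sm c a b <;> rfl

theorem cd_eq (a b c d : ℕ) : cd a b c d = a + (8 * b + (64 * c + 512 * d)) := rfl

theorem cd0 {a b c d : ℕ} (ha : a < 8) : cd a b c d % 8 = a := by
  rw [cd_eq]; omega

theorem cd1 {a b c d : ℕ} (ha : a < 8) (hb : b < 8) : cd a b c d / 8 % 8 = b := by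
  rw [cd_eq]; omega

theorem cd2 {a b c d : ℕ} (ha : a < 8) (hb : b < 8) (hc : c < 8) : cd a b c d / 64 % 8 = c := by
  rw [cd_eq]; omega

theorem cd3 {a b c d : ℕ} (ha : a < 8) (hb : b < 8) (hc : c < 8) (hd : d < 8) :
    cd a b c d / 512 % 8 = d := by
  rw [cd_eq]; omega

/-- The code of four points. -/
noncomputable def c4 (w x y z : Pt) : ℕ := cd (dg w x y) (dg w x z) (dg w y z) (dg x y z)

theorem c4_lt (w x y z : Pt) : c4 w x y z < 4096 := by
  rw [c4, cd_eq]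
  have h1 := dg_lt w x y
  have h2 := dg_lt w x z
  have h3 := dg_lt w y z
  have h4 := dg_lt x y z
  omega

theorem c4_mod (w x y z : Pt) : c4 w x y z % 8 = dg w x y := cd0 (dg_lt _ _ _)

theorem c4_01 (w x y z : Pt) : c4 x w y z = g01 (c4 w x y z) := by
  rw [g01, c4, c4, cd0 (dg_lt _ _ _), cd1 (dg_lt _ _ _) (dg_lt _ _ _),
    cd2 (dg_lt _ _ _) (dg_lt _ _ _) (dg_lt _ _ _),
    cd3 (dg_lt _ _ _) (dg_lt _ _ _) (dg_lt _ _ _) (dg_lt _ _ _), dg01 w x y, dg01 w x z]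

theorem c4_12 (w x y z : Pt) : c4 w y x z = g12 (c4 w x y z) := by
  rw [g12, c4, c4, cd0 (dg_lt _ _ _), cd1 (dg_lt _ _ _) (dg_lt _ _ _),
    cd2 (dg_lt _ _ _) (dg_lt _ _ _) (dg_lt _ _ _),
    cd3 (dg_lt _ _ _) (dg_lt _ _ _) (dg_lt _ _ _) (dg_lt _ _ _), dg12 w x y, dg01 x y z]

theorem c4_23 (w x y z : Pt) : c4 w x z y = g23 (c4 w x y z) := by
  rw [g23, c4, c4, cd0 (dg_lt _ _ _), cd1 (dg_lt _ _ _) (dg_lt _ _ _),
    cd2 (dg_lt _ _ _) (dg_lt _ _ _) (dg_lt _ _ _),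
    cd3 (dg_lt _ _ _) (dg_lt _ _ _) (dg_lt _ _ _) (dg_lt _ _ _), dg12 w y z, dg12 x y z]

/-- The flag of `u` over the root `x, y, z`. -/
noncomputable def Fl (x y z u : Pt) : ℕ := f3 (wF (c4 x y z u))

theorem flOk_of {q : ℕ} (h : q < 4096) : f2 (wF q) = f3 (wF (g23 q)) ∧
    f1 (wF q) = f2 (wF (g12 q)) ∧ f0 (wF q) = f1 (wF (g01 q)) := by
  have h1 := List.all_eq_true.1 fl_all q (List.mem_range.2 h)
  rw [flOk, Bool.and_eq_true, Bool.and_eq_true] at h1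
  exact ⟨Nat.eq_of_beq_eq_true h1.1, Nat.eq_of_beq_eq_true h1.2.1, Nat.eq_of_beq_eq_true h1.2.2⟩

theorem fl2 (x y z u : Pt) : f2 (wF (c4 x y u z)) = Fl x y z u := by
  rw [(flOk_of (c4_lt _ _ _ _)).1, ← c4_23, Fl]

theorem fl1 (x y z u : Pt) : f1 (wF (c4 x u y z)) = Fl x y z u := by
  rw [(flOk_of (c4_lt _ _ _ _)).2.1, ← c4_12, fl2]

theorem fl0 (x y z u : Pt) : f0 (wF (c4 u x y z)) = Fl x y z u := by
  rw [(flOk_of (c4_lt _ _ _ _)).2.2, ← c4_01, fl1]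

theorem ivA_of {q : ℕ} (h : q < 4096) : f3 (wF (g01 q)) = rho (q % 8) (f3 (wF q)) ∧
    f3 (wF (g12 q)) = rho (8 + q % 8) (f3 (wF q)) ∧ f3 (wF q) ≤ ncl (q % 8) := by
  have h1 := List.all_eq_true.1 ivA_all q (List.mem_range.2 h)
  rw [ivA, Bool.and_eq_true, Bool.and_eq_true] at h1
  exact ⟨Nat.eq_of_beq_eq_true h1.1, Nat.eq_of_beq_eq_true h1.2.1, Nat.le_of_ble_eq_true h1.2.2⟩

theorem Fl_le (x y z u : Pt) : Fl x y z u ≤ ncl (dg x y z) := by
  have h := (ivA_of (c4_lt x y z u)).2.2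
  rwa [c4_mod] at h

theorem Fl01 (x y z u : Pt) : Fl y x z u = rho (dg x y z) (Fl x y z u) := by
  rw [Fl, c4_01, (ivA_of (c4_lt x y z u)).1, c4_mod, Fl]

theorem Fl12 (x y z u : Pt) : Fl x z y u = rho (8 + dg x y z) (Fl x y z u) := by
  rw [Fl, c4_12, (ivA_of (c4_lt x y z u)).2.1, c4_mod, Fl]

/-- The quadratic form of the root `x, y, z` at `u, v`. -/
noncomputable def qt (x y z u v : Pt) : ℤ := qz (QTd (dg x y z)) (Fl x y z u) (Fl x y z v)

theorem ivB_of {d e k i j : ℕ} (h : ivB d e k = true) (hi : i ≤ ncl d) (hj : j ≤ ncl d) :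
    tb (QTd e) (rho k i) (rho k j) = tb (QTd d) i j := by
  rw [ivB] at h
  exact Nat.eq_of_beq_eq_true (List.all_eq_true.1 (List.all_eq_true.1 h i
    (List.mem_range.2 (Nat.lt_succ_of_le hi))) j (List.mem_range.2 (Nat.lt_succ_of_le hj)))

theorem ivB01 {d : ℕ} (h : d < 8) : ivB d (P01 d) d = true := by
  interval_cases d
  · exact ivB_0
  · exact ivB_1
  · exact ivB_2
  · exact ivB_3
  · exact ivB_4
  · exact ivB_5
  · exact ivB_6
  · exact ivB_7

theorem ivB12 {d : ℕ} (h : d < 8) : ivB d (P12 d) (8 + d) = true := by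
  interval_cases d
  · exact ivB_8
  · exact ivB_9
  · exact ivB_10
  · exact ivB_11
  · exact ivB_12
  · exact ivB_13
  · exact ivB_14
  · exact ivB_15

theorem qt01 (x y z u v : Pt) : qt y x z u v = qt x y z u v := by
  rw [qt, qt, qz, qz, Fl01 x y z u, Fl01 x y z v, dg01 x y z,
    ivB_of (ivB01 (dg_lt x y z)) (Fl_le _ _ _ _) (Fl_le _ _ _ _)]

theorem qt12 (x y z u v : Pt) : qt x z y u v = qt x y z u v := by
  rw [qt, qt, qz, qz, Fl12 x y z u, Fl12 x y z v, dg12 x y z,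
    ivB_of (ivB12 (dg_lt x y z)) (Fl_le _ _ _ _) (Fl_le _ _ _ _)]

theorem cls (d : ℕ) (h : d < 8) : (QTd d = QT0 ∧ ncl d = 109) ∨ (QTd d = QT1 ∧ ncl d = 116) ∨
    (QTd d = QT2 ∧ ncl d = 104) := by
  interval_cases d
  · exact Or.inl ⟨rfl, rfl⟩
  · exact Or.inr (Or.inl ⟨rfl, rfl⟩)
  · exact Or.inr (Or.inl ⟨rfl, rfl⟩)
  · exact Or.inr (Or.inr ⟨rfl, rfl⟩)
  · exact Or.inr (Or.inl ⟨rfl, rfl⟩)
  · exact Or.inr (Or.inr ⟨rfl, rfl⟩)
  · exact Or.inr (Or.inr ⟨rfl, rfl⟩)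
  · exact Or.inr (Or.inr ⟨rfl, rfl⟩)

theorem qtuv (x y z u v : Pt) : qt x y z v u = qt x y z u v := by
  rw [qt, qt, qz, qz]
  have h1 := Fl_le x y z u
  have h2 := Fl_le x y z v
  rcases cls (dg x y z) (dg_lt _ _ _) with ⟨e, f⟩ | ⟨e, f⟩ | ⟨e, f⟩
  · rw [e, ckS_ok ckS0 (by omega) (by omega)]
  · rw [e, ckS_ok ckS1 (by omega) (by omega)]
  · rw [e, ckS_ok ckS2 (by omega) (by omega)]

theorem qt_sum (V : Finset Pt) (x y z : Pt) : 0 ≤ ∑ u ∈ V, ∑ v ∈ V, qt x y z u v := by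
  simp only [qt]
  rcases cls (dg x y z) (dg_lt _ _ _) with ⟨e, f⟩ | ⟨e, f⟩ | ⟨e, f⟩
  · rw [e]
    exact psd0 V _ fun u _ => f ▸ Fl_le x y z u
  · rw [e]
    exact psd1 V _ fun u _ => f ▸ Fl_le x y z u
  · rw [e]
    exact psd2 V _ fun u _ => f ▸ Fl_le x y z u

/-! ### The form with one root point -/

/-- The flag of `a, b` over the root `x`. -/
noncomputable def fv (x a b : Pt) : ℕ :=
  fx ((sm a x b).toNat + (sm b x a).toNat + 3 * (sm x a b).toNat)

theorem fv_comm (x a b : Pt) : fv x a b = fv x b a := by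
  rw [fv, fv, sm_comm x a b, add_comm (sm a x b).toNat]

theorem fv_le (x a b : Pt) : fv x a b ≤ 5 := by
  rw [fv]
  cases sm a x b <;> cases sm b x a <;> cases sm x a b <;> decide

theorem fdv0 (a b c : Pt) : fdv 0 (dg a b c) = fv a b c := by
  rw [fv, dg, sm_comm b a c, sm_comm c a b, sm_comm b c a, sm_comm c b a]
  cases sm a b c <;> cases sm b a c <;> cases sm c a b <;> rfl

theorem fdv1 (a b c : Pt) : fdv 1 (dg a b c) = fv b a c := by
  rw [fv, dg, sm_comm c b a]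
  cases sm a b c <;> cases sm b a c <;> cases sm c a b <;> rfl

theorem fdv2 (a b c : Pt) : fdv 2 (dg a b c) = fv c a b := by
  rw [fv, dg, sm_comm a c b, sm_comm b c a]
  cases sm a b c <;> cases sm b a c <;> cases sm c a b <;> rfl

noncomputable def rt (x a b c d : Pt) : ℤ := qz QT3 (fv x a b) (fv x c d)

theorem rt_ab (x a b c d : Pt) : rt x b a c d = rt x a b c d := by
  rw [rt, rt, fv_comm x b a]

theorem rt_cd (x a b c d : Pt) : rt x a b d c = rt x a b c d := by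
  rw [rt, rt, fv_comm x d c]

theorem rt_sw (x a b c d : Pt) : rt x c d a b = rt x a b c d := by
  have h1 := fv_le x a b
  have h2 := fv_le x c d
  rw [rt, rt, qz, qz, ckS_ok ckS3 (by omega) (by omega)]

theorem rt_sum (V : Finset Pt) (x : Pt) :
    0 ≤ ∑ a ∈ V, ∑ b ∈ V, ∑ c ∈ V, ∑ d ∈ V, rt x a b c d := by
  have h := psd3 (V ×ˢ V) (fun t => fv x t.1 t.2) fun t _ => fv_le x t.1 t.2
  rw [Finset.sum_product] at h
  simp only [Finset.sum_product] at h
  exact h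

theorem pr_of {r s d e : ℕ} (hr : r < 3) (hs : s < 3) (hd : d < 8) (he : e < 8) :
    (pr (3 * r + s) d e : ℤ) = qz QT3 (fdv r d) (fdv s e) + 131072 := by
  have h := List.all_eq_true.1 (List.all_eq_true.1 (List.all_eq_true.1 (List.all_eq_true.1 pr_all r
    (List.mem_range.2 hr)) s (List.mem_range.2 hs)) d (List.mem_range.2 hd)) e (List.mem_range.2 he)
  have h1 : pr (3 * r + s) d e + 2147352576 = tb QT3 (fdv r d) (fdv s e) :=
    Nat.eq_of_beq_eq_true h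
  rw [qz, ← h1]
  push_cast
  ring

end Pool.Agent.MP_0af329_co.Q5
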