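import Pool.Agent.MP_0af329_co.QGeo3

/-!
# The certificate function of five points
-/

set_option autoImplicit false

namespace Pool.Agent.MP_0af329_co.Q5

open EuclideanGeometry

/-- Number of small angles. -/
noncomputable def NN (a b c d e : Pt) : ℤ :=
  (pc (dg a b c) : ℤ) + pc (dg a b d) + pc (dg a c d) + pc (dg b c d) + pc (dg a b e) +
    pc (dg a c e) + pc (dg b c e) + pc (dg a d e) + pc (dg b d e) + pc (dg c d e)

/-- The forms with three root points. -/
noncomputable def QQ (a b c d e : Pt) : ℤ :=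
  qt a b c d e + qt a b d c e + qt a c d b e + qt b c d a e + qt a b e c d + qt a c e b d +
    qt b c e a d + qt a d e b c + qt b d e a c + qt c d e a b

/-- The forms with one root point. -/
noncomputable def RR (a b c d e : Pt) : ℤ :=
  rt a b d c e + rt b a d c e + rt a c d b e + rt c a d b e + rt b c d a e + rt c b d a e +
    rt a b c d e + rt b a c d e + rt d a c b e + rt d b c a e + rt e a c b d + rt e b c a d +
    rt c a b d e + rt d a b c e + rt e a b c d

/-- The certificate function. -/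
noncomputable def SS (a b c d e : Pt) : ℤ :=
  120000 * (9 * NN a b c d e - 80) - QQ a b c d e - RR a b c d e

theorem pc01 (a b c : Pt) : pc (dg b a c) = pc (dg a b c) := by
  rw [dg, dg, sm_comm c b a]
  cases sm a b c <;> cases sm b a c <;> cases sm c a b <;> rfl

theorem pc12 (a b c : Pt) : pc (dg a c b) = pc (dg a b c) := by
  rw [dg, dg, sm_comm a c b]
  cases sm a b c <;> cases sm b a c <;> cases sm c a b <;> rfl

theorem NN01 (a b c d e : Pt) : NN b a c d e = NN a b c d e := by
  rw [NN, NN, pc01 a b c, pc01 a b d, pc01 a b e]; ring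

theorem NN12 (a b c d e : Pt) : NN a c b d e = NN a b c d e := by
  rw [NN, NN, pc12 a b c, pc01 b c d, pc01 b c e]; ring

theorem NN23 (a b c d e : Pt) : NN a b d c e = NN a b c d e := by
  rw [NN, NN, pc12 a c d, pc12 b c d, pc01 c d e]; ring

theorem NN34 (a b c d e : Pt) : NN a b c e d = NN a b c d e := by
  rw [NN, NN, pc12 a d e, pc12 b d e, pc12 c d e]; ring

theorem QQ01 (a b c d e : Pt) : QQ b a c d e = QQ a b c d e := by
  rw [QQ, QQ, qt01 a b c, qt01 a b d, qt01 a b e, qtuv c d e a b]; ring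

theorem QQ12 (a b c d e : Pt) : QQ a c b d e = QQ a b c d e := by
  rw [QQ, QQ, qt12 a b c, qt01 b c d, qt01 b c e, qtuv a d e b c]; ring

theorem QQ23 (a b c d e : Pt) : QQ a b d c e = QQ a b c d e := by
  rw [QQ, QQ, qt12 a c d, qt12 b c d, qt01 c d e, qtuv a b e c d]; ring

theorem QQ34 (a b c d e : Pt) : QQ a b c e d = QQ a b c d e := by
  rw [QQ, QQ, qt12 a d e, qt12 b d e, qt12 c d e, qtuv a b c d e]; ring

theorem RR01 (a b c d e : Pt) : RR b a c d e = RR a b c d e := by
  rw [RR, RR, rt_ab c a b d e, rt_ab d a b c e, rt_ab e a b c d]; ring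

theorem RR12 (a b c d e : Pt) : RR a c b d e = RR a b c d e := by
  rw [RR, RR, rt_ab a b c d e, rt_ab d b c a e, rt_ab e b c a d]; ring

theorem RR23 (a b c d e : Pt) : RR a b d c e = RR a b c d e := by
  rw [RR, RR, rt_ab a c d b e, rt_ab b c d a e, rt_sw e b c a d, rt_sw e a c b d,
    rt_cd e a b c d]; ring

theorem RR34 (a b c d e : Pt) : RR a b c e d = RR a b c d e := by
  rw [RR, RR, rt_sw a c d b e, rt_sw b c d a e, rt_sw a b d c e, rt_sw c b d a e,
    rt_sw b a d c e, rt_sw c a d b e, rt_cd a b c d e, rt_cd b a c d e, rt_cd c a b d e]; ring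

theorem SS01 (a b c d e : Pt) : SS b a c d e = SS a b c d e := by
  rw [SS, SS, NN01, QQ01, RR01]

theorem SS12 (a b c d e : Pt) : SS a c b d e = SS a b c d e := by
  rw [SS, SS, NN12, QQ12, RR12]

theorem SS23 (a b c d e : Pt) : SS a b d c e = SS a b c d e := by
  rw [SS, SS, NN23, QQ23, RR23]

theorem SS34 (a b c d e : Pt) : SS a b c e d = SS a b c d e := by
  rw [SS, SS, NN34, QQ34, RR34]

/-! ### The kernel check gives the sign -/

theorem qq_cast (x y z u v : Pt) :
    (qq (dg x y z) (Fl x y z u) (Fl x y z v) : ℤ) = qt x y z u v + 2147483648 := by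
  rw [qt, qz, qq]; ring

theorem pr_cast {r s : ℕ} (hr : r < 3) (hs : s < 3) (a b c a' b' c' : Pt) :
    (pr (3 * r + s) (dg a b c) (dg a' b' c') : ℤ) =
      qz QT3 (fdv r (dg a b c)) (fdv s (dg a' b' c')) + 131072 :=
  pr_of hr hs (dg_lt _ _ _) (dg_lt _ _ _)

theorem SS_of_leaf (a b c d e : Pt)
    (h : leaf (dg a b c) (dg a b d) (dg a c d) (dg b c d) (dg a b e) (dg a c e) (dg b c e)
      (dg a d e) (dg b d e) (dg c d e)
      (Nat.add (A1 (dg a b c) (dg a b d) (dg a c d) (dg b c d) (dg a b e) (dg a c e) (dg b c e)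
        (wF (c4 a b c d)) (wF (c4 a b c e)))
        (A2 (dg a b c) (dg a b d) (dg a c d) (dg b c d) (dg a b e) (dg a c e) (dg b c e)
        (dg a d e) (dg b d e) (wF (c4 a b c d)) (wF (c4 a b c e)) (wF (c4 a b d e))))
      (Nat.add (Nat.add (Nat.add (pc (dg a b c)) (Nat.add (pc (dg a b d))
        (Nat.add (pc (dg a c d)) (pc (dg b c d)))))
        (Nat.add (pc (dg a b e)) (Nat.add (pc (dg a c e)) (pc (dg b c e)))))
        (Nat.add (pc (dg a d e)) (pc (dg b d e))))
      (wF (c4 a b c d)) (wF (c4 a b c e)) (wF (c4 a b d e)) (wF (c4 a c d e)) (wF (c4 b c d e))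
      = true)
    (hn : ngm (pk (dg a b c) (dg a b d) (dg a c d) (dg b c d) (dg a b e) (dg a c e) (dg b c e)
      (dg a d e) (dg b d e) (dg c d e)) = false) : 0 ≤ SS a b c d e := by
  rw [leaf, hn, Bool.or_false] at h
  have h1 := Nat.le_of_ble_eq_true h
  rw [A1, A2, A3, fl2 a b d c, fl2 a b e c, fl2 a b e d, fl1 a c d b, fl0 b c d a,
    fl1 a c e b, fl2 a c e d, fl0 b c e a, fl2 b c e d, fl1 a d e b, fl1 a d e c, fl0 b d e a,
    fl1 b d e c, fl0 c d e a, fl0 c d e b] at h1
  simp only [Nat.add_eq, Nat.mul_eq] at h1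
  change _ + _ ≤ _ at h1
  have g3 : ∀ x y z u, f3 (wF (c4 x y z u)) = Fl x y z u := fun _ _ _ _ => rfl
  simp only [g3] at h1
  zify at h1
  have p0 := fun a b c a' b' c' => pr_cast (r := 0) (s := 0) (by norm_num) (by norm_num) a b c a' b' c'
  have p1 := fun a b c a' b' c' => pr_cast (r := 0) (s := 1) (by norm_num) (by norm_num) a b c a' b' c'
  have p3 := fun a b c a' b' c' => pr_cast (r := 1) (s := 0) (by norm_num) (by norm_num) a b c a' b' c'
  have p4 := fun a b c a' b' c' => pr_cast (r := 1) (s := 1) (by norm_num) (by norm_num) a b c a' b' c'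
  have p6 := fun a b c a' b' c' => pr_cast (r := 2) (s := 0) (by norm_num) (by norm_num) a b c a' b' c'
  have p7 := fun a b c a' b' c' => pr_cast (r := 2) (s := 1) (by norm_num) (by norm_num) a b c a' b' c'
  have p8 := fun a b c a' b' c' => pr_cast (r := 2) (s := 2) (by norm_num) (by norm_num) a b c a' b' c'
  norm_num at p0 p1 p3 p4 p6 p7 p8
  rw [qq_cast, qq_cast, qq_cast, qq_cast, qq_cast, qq_cast, qq_cast, qq_cast, qq_cast, qq_cast,
    p0, p0, p0, p1, p3, p3, p4, p4, p6, p7, p7, p7, p8, p8, p8] at h1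
  simp only [fdv0, fdv1, fdv2] at h1
  have hr : ∀ x a b c d, qz QT3 (fv x a b) (fv x c d) = rt x a b c d := fun _ _ _ _ _ => rfl
  simp only [hr] at h1
  rw [SS, NN, QQ, RR]
  linarith

end Pool.Agent.MP_0af329_co.Q5
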