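import Pool.Agent.MP_0af329_co.QGeo4
import Pool.Agent.MP_0af329_co.QCd
import Pool.Agent.MP_0af329_co.QCd2

/-!
# Bits of the code; excluded patterns do not occur
-/

set_option autoImplicit false

namespace Pool.Agent.MP_0af329_co.Q5

open EuclideanGeometry

/-- A number from its bits. -/
def bn : List Bool → ℕ
  | [] => 0
  | b :: l => b.toNat + 2 * bn l

theorem bn_testBit : ∀ (l : List Bool) (i : ℕ), (bn l).testBit i = l.getD i false
  | [], i => by simp [bn]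
  | b :: l, 0 => by
    rw [bn, Nat.testBit_zero, List.getD_cons_zero]
    cases b
    · simp
    · simp [Nat.add_mod]
  | b :: l, i + 1 => by
    rw [bn, Nat.testBit_succ, List.getD_cons_succ, ← bn_testBit l i]
    congr 1
    cases b
    · simp
    · simp only [Bool.toNat_true]; omega

/-- The code of five points. -/
noncomputable def code (P : ℕ → Pt) : ℕ :=
  pk (dg (P 0) (P 1) (P 2)) (dg (P 0) (P 1) (P 3)) (dg (P 0) (P 2) (P 3)) (dg (P 1) (P 2) (P 3))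
    (dg (P 0) (P 1) (P 4)) (dg (P 0) (P 2) (P 4)) (dg (P 1) (P 2) (P 4)) (dg (P 0) (P 3) (P 4))
    (dg (P 1) (P 3) (P 4)) (dg (P 2) (P 3) (P 4))

/-- The bits. -/
noncomputable def bl (P : ℕ → Pt) : List Bool :=
  [sm (P 0) (P 1) (P 2), sm (P 1) (P 0) (P 2), sm (P 2) (P 0) (P 1),
   sm (P 0) (P 1) (P 3), sm (P 1) (P 0) (P 3), sm (P 3) (P 0) (P 1),
   sm (P 0) (P 2) (P 3), sm (P 2) (P 0) (P 3), sm (P 3) (P 0) (P 2),
   sm (P 1) (P 2) (P 3), sm (P 2) (P 1) (P 3), sm (P 3) (P 1) (P 2),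
   sm (P 0) (P 1) (P 4), sm (P 1) (P 0) (P 4), sm (P 4) (P 0) (P 1),
   sm (P 0) (P 2) (P 4), sm (P 2) (P 0) (P 4), sm (P 4) (P 0) (P 2),
   sm (P 1) (P 2) (P 4), sm (P 2) (P 1) (P 4), sm (P 4) (P 1) (P 2),
   sm (P 0) (P 3) (P 4), sm (P 3) (P 0) (P 4), sm (P 4) (P 0) (P 3),
   sm (P 1) (P 3) (P 4), sm (P 3) (P 1) (P 4), sm (P 4) (P 1) (P 3),
   sm (P 2) (P 3) (P 4), sm (P 3) (P 2) (P 4), sm (P 4) (P 2) (P 3)]

theorem bn3 (x y z : Bool) (l : List Bool) : bn (x :: y :: z :: l) = dgb x y z + 8 * bn l := by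
  rw [bn, bn, bn, dgb]; ring

theorem code_eq (P : ℕ → Pt) : code P = bn (bl P) := by
  rw [bl, bn3, bn3, bn3, bn3, bn3, bn3, bn3, bn3, bn3, bn3]
  rfl

theorem code_c4 (P : ℕ → Pt) : Nat.land (code P) 4095 = c4 (P 0) (P 1) (P 2) (P 3) := by
  have h1 : Nat.land (code P) 4095 = code P % 4096 := by
    change code P &&& 4095 = _
    rw [show (4095 : ℕ) = 2 ^ 12 - 1 by norm_num, Nat.and_two_pow_sub_one_eq_mod]
  rw [h1, code, pk, c4, cd_eq]
  simp only [Nat.add_eq, Nat.mul_eq]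
  have a0 := dg_lt (P 0) (P 1) (P 2)
  have a1 := dg_lt (P 0) (P 1) (P 3)
  have a2 := dg_lt (P 0) (P 2) (P 3)
  have a3 := dg_lt (P 1) (P 2) (P 3)
  omega

theorem bl_getD (P : ℕ → Pt) {i : ℕ} (hi : i < 30) :
    (bl P).getD i false = sm (P (vV i)) (P (vA i)) (P (vB i)) := by
  interval_cases i <;> rfl

theorem code_testBit (P : ℕ → Pt) {i : ℕ} (hi : i < 30) :
    (code P).testBit i = true ↔ vl P i < vl P 30 := by
  rw [code_eq, bn_testBit, bl_getD P hi, vl, if_pos hi, vl, if_neg (lt_irrefl 30), sm,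
    decide_eq_true_iff]

theorem NG_of_match {P : ℕ → Pt} {val care : ℕ} (h : Nat.land (code P) care = val) :
    NG val care P := by
  intro i hi hc
  rw [← code_testBit P hi, ← h]
  change (code P &&& care).testBit i = true ↔ _
  rw [Nat.testBit_land, hc, Bool.and_true]

theorem exl_false {P : ℕ → Pt} (g : Gd P) (h : EXL.contains (c4 (P 0) (P 1) (P 2) (P 3)) = true) :
    False := by
  have h1 : EXL = EX.map Prod.fst := by decide +kernel
  rw [List.contains_iff_mem, h1, List.mem_map] at h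
  obtain ⟨x, hx, hx2⟩ := h
  have h2 := List.all_eq_true.1 EX_ok x hx
  refine ck_ok g (val := x.1) (care := 4095) ?_ x.2 [] (fun f hf => by simp at hf) h2
  exact NG_of_match (by rw [code_c4, hx2])

/-- The excluded five point patterns: value, care, number of the certificate with its value and
care, and a renumbering. -/
def NGC : List (ℕ × ℕ × ℕ × ℕ × ℕ × List ℕ) := [
  (4105, 2134089, 2, 4105, 2134089, [0, 1, 2, 3, 4]),
  (8210, 17048082, 2, 4105, 2134089, [1, 0, 2, 3, 4]),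
  (65668, 134808708, 2, 4105, 2134089, [2, 0, 1, 3, 4]),
  (1, 459279793, 5, 512, 6402797, [3, 0, 2, 1, 4]),
  (128, 920309888, 5, 512, 6402797, [4, 2, 3, 0, 1]),
  (2097224, 2134089, 2, 4105, 2134089, [0, 3, 1, 2, 4]),
  (128, 918212736, 5, 512, 6402797, [4, 2, 0, 3, 1]),
  (262144, 771704832, 1, 256, 2225133, [4, 3, 2, 1, 0]),
  (0, 428453268, 4, 0, 157865321, [2, 4, 1, 3, 0]),
  (612368384, 613564416, 2, 4105, 2134089, [4, 3, 0, 1, 2]),
  (262144, 918818224, 5, 512, 6402797, [3, 1, 4, 2, 0]),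
  (1048576, 466619824, 5, 512, 6402797, [3, 4, 2, 1, 0]),
  (32, 901177376, 5, 512, 6402797, [4, 3, 1, 0, 2]),
  (8536064, 613564416, 2, 4105, 2134089, [4, 0, 1, 2, 3]),
  (512, 786129408, 5, 512, 6402797, [4, 1, 2, 3, 0]),
  (16777216, 936887296, 1, 256, 2225133, [4, 2, 3, 1, 0]),
  (64, 920342592, 5, 512, 6402797, [4, 0, 3, 2, 1]),
  (64, 412978628, 1, 256, 2225133, [2, 4, 3, 0, 1]),
  (8388608, 853610344, 1, 256, 2225133, [3, 2, 0, 4, 1]),
  (262144, 516165040, 5, 512, 6402797, [3, 1, 2, 4, 0]),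
  (32833, 2134089, 2, 4105, 2134089, [0, 2, 1, 3, 4]),
  (524288, 771647488, 1, 256, 2225133, [4, 3, 1, 2, 0]),
  (306184192, 306186528, 2, 4105, 2134089, [3, 4, 0, 1, 2]),
  (128, 6353901, 1, 256, 2225133, [0, 1, 3, 2, 4]),
  (538050560, 613564416, 2, 4105, 2134089, [4, 2, 0, 1, 3]),
  (32, 901173280, 5, 512, 6402797, [4, 3, 0, 1, 2]),
  (64, 786124864, 5, 512, 6402797, [4, 0, 2, 3, 1]),
  (2097152, 920719200, 1, 256, 2225133, [3, 2, 4, 0, 1]),
  (33554432, 932701184, 1, 256, 2225133, [4, 2, 1, 3, 0]),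
  (68173824, 613564416, 2, 4105, 2134089, [4, 1, 0, 2, 3]),
  (8201, 615686217, 3, 32836, 19182172, [0, 4, 1, 2, 3]),
  (8192, 912272232, 5, 512, 6402797, [3, 1, 0, 4, 2]),
  (32900, 748209284, 3, 32836, 19182172, [2, 4, 0, 1, 3]),
  (402653188, 405316885, 0, 6291457, 23635043, [2, 0, 1, 3, 4]),
  (16777744, 17048082, 2, 4105, 2134089, [1, 3, 0, 2, 4]),
  (4113, 308320593, 3, 32836, 19182172, [0, 3, 1, 2, 4]),
  (0, 449097122, 4, 0, 157865321, [3, 0, 1, 2, 4]),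
  (524288, 919079856, 5, 512, 6402797, [3, 2, 4, 1, 0]),
  (512, 920347136, 5, 512, 6402797, [4, 1, 3, 2, 0]),
  (8192, 1018621956, 1, 256, 2225133, [4, 2, 0, 1, 3]),
  (8192, 1035137056, 1, 256, 2225133, [4, 3, 0, 1, 2]),
  (17047552, 17048082, 2, 4105, 2134089, [1, 4, 0, 2, 3]),
  (8202, 323234570, 3, 32836, 19182172, [1, 3, 0, 2, 4]),
  (4114, 630592018, 3, 32836, 19182172, [1, 4, 0, 2, 3]),
  (65604, 440994916, 3, 32836, 19182172, [2, 3, 0, 1, 4]),
  (135397376, 248662304, 3, 32836, 19182172, [4, 3, 2, 0, 1]),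
  (0, 919148852, 4, 0, 157865321, [3, 0, 2, 4, 1]),
  (0, 920011849, 4, 0, 157865321, [4, 2, 0, 3, 1]),
  (16, 917950480, 5, 512, 6402797, [4, 1, 0, 3, 2]),
  (671088644, 673850453, 0, 6291457, 23635043, [2, 0, 1, 4, 3]),
  (268435504, 831080752, 0, 6291457, 23635043, [3, 4, 2, 1, 0]),
  (9961472, 182077512, 0, 6291457, 23635043, [4, 3, 0, 2, 1]),
  (512, 470781828, 1, 256, 2225133, [2, 4, 3, 1, 0]),
  (8388608, 383790952, 1, 256, 2225133, [3, 1, 0, 4, 2]),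
  (262144, 754933761, 1, 256, 2225133, [4, 0, 2, 1, 3]),
  (2097152, 922636304, 1, 256, 2225133, [4, 1, 3, 0, 2]),
  (262658, 17048082, 2, 4105, 2134089, [1, 2, 0, 3, 4]),
  (4194400, 440994916, 3, 32836, 19182172, [3, 2, 0, 1, 4]),
  (0, 918858146, 4, 0, 157865321, [3, 0, 1, 4, 2]),
  (0, 331946804, 4, 0, 157865321, [3, 0, 2, 1, 4]),
  (8, 403541390, 5, 512, 6402797, [2, 0, 3, 1, 4]),
  (8192, 918563688, 5, 512, 6402797, [3, 1, 4, 0, 2])]

def certs : List (ℕ × ℕ × Tr) := [(6291457, 23635043, n0), (256, 2225133, n1), (4105, 2134089, n2), (32836, 19182172, n3), (0, 157865321, n4), (512, 6402797, n5)]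

/-- The renumbering is a permutation of `0, …, 4`. -/
def okT (t : List ℕ) : Bool :=
  (List.range 5).all fun i => Nat.blt (t.getD i 0) 5 &&
    (List.range i).all fun j => !(Nat.beq (t.getD i 0) (t.getD j 0))

def okPat (x : ℕ × ℕ × ℕ × ℕ × ℕ × List ℕ) : Bool :=
  okT x.2.2.2.2.2 && (certs.any fun c => Nat.beq c.1 x.2.2.2.1 && Nat.beq c.2.1 x.2.2.2.2.1) &&
  (List.range 30).all fun i => !(Nat.testBit x.2.2.2.2.1 i) ||
    (let j := bp (x.2.2.2.2.2.getD (vV i) 0) (x.2.2.2.2.2.getD (vA i) 0) (x.2.2.2.2.2.getD (vB i) 0)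
    Nat.testBit x.2.1 j && (Nat.testBit x.1 j == Nat.testBit x.2.2.2.1 i))

theorem NGC_ok : (NGC.all okPat) = true := by decide +kernel

theorem certs_ok : (certs.all fun c => ck c.1 c.2.1 c.2.2 []) = true := by
  simp only [certs, List.all_cons, List.all_nil, Bool.and_true, n0_ok, n1_ok, n2_ok, n3_ok, n4_ok,
    n5_ok]

theorem NGP_eq : NGP = NGC.map fun x => (x.1, x.2.1) := by decide +kernel

theorem okT_of {t : List ℕ} (h : okT t = true) : (∀ i < 5, t.getD i 0 < 5) ∧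
    ∀ i < 5, ∀ j < 5, i ≠ j → t.getD i 0 ≠ t.getD j 0 := by
  rw [okT] at h
  have h1 := List.all_eq_true.1 h
  have h2 : ∀ i < 5, ∀ j < i, t.getD i 0 ≠ t.getD j 0 := by
    intro i hi j hj he
    have h3 := h1 i (List.mem_range.2 hi)
    rw [Bool.and_eq_true] at h3
    have h4 := List.all_eq_true.1 h3.2 j (List.mem_range.2 hj)
    rw [he, Nat.beq_refl] at h4
    exact Bool.noConfusion h4
  refine ⟨fun i hi => ?_, fun i hi j hj hij => ?_⟩
  · have h3 := h1 i (List.mem_range.2 hi)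
    rw [Bool.and_eq_true] at h3
    simpa only [Nat.blt_eq] using h3.1
  · rcases lt_or_gt_of_ne hij with h3 | h3
    · exact (h2 j hj i h3).symm
    · exact h2 i hi j h3

theorem Gd.perm {P : ℕ → Pt} (g : Gd P) {t : List ℕ} (h : okT t = true) :
    Gd fun i => P (t.getD i 0) := by
  obtain ⟨h1, h2⟩ := okT_of h
  exact ⟨fun i hi j hj k hk a b c => g.col _ (h1 i hi) _ (h1 j hj) _ (h1 k hk) (h2 i hi j hj a)
    (h2 j hj k hk b) (h2 i hi k hk c), fun i hi j hj k hk a b c => g.ne _ (h1 i hi) _ (h1 j hj) _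
    (h1 k hk) (h2 i hi j hj a) (h2 j hj k hk b) (h2 i hi k hk c)⟩

theorem ngm_false {P : ℕ → Pt} (g : Gd P) (h : ngm (code P) = true) : False := by
  rw [ngm, List.any_eq_true] at h
  obtain ⟨y, hy, hm⟩ := h
  rw [NGP_eq, List.mem_map] at hy
  obtain ⟨x, hx, rfl⟩ := hy
  have hm := Nat.eq_of_beq_eq_true hm
  simp only at hm
  have hn := NG_of_match hm
  have h1 := List.all_eq_true.1 NGC_ok x hx
  rw [okPat, Bool.and_eq_true, Bool.and_eq_true, List.any_eq_true] at h1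
  obtain ⟨⟨h2, c, hc, h3⟩, h4⟩ := h1
  rw [Bool.and_eq_true] at h3
  have e1 := Nat.eq_of_beq_eq_true h3.1
  have e2 := Nat.eq_of_beq_eq_true h3.2
  have h5 := List.all_eq_true.1 certs_ok c hc
  obtain ⟨k1, k2⟩ := okT_of h2
  refine ck_ok (g.perm h2) (val := c.1) (care := c.2.1) ?_ c.2.2 [] (fun f hf => by simp at hf) h5
  intro i hi hcare
  have h6 := List.all_eq_true.1 h4 i (List.mem_range.2 hi)
  rw [← e2, hcare, Bool.not_true, Bool.false_or, Bool.and_eq_true, beq_iff_eq, ← e1] at h6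
  have hv := var_spec i hi
  rw [d3, decide_eq_true_eq] at hv
  obtain ⟨v1, v2, v3, v4, v5, v6⟩ := hv
  have hd : d3 (x.2.2.2.2.2.getD (vV i) 0) (x.2.2.2.2.2.getD (vA i) 0)
      (x.2.2.2.2.2.getD (vB i) 0) = true := by
    rw [d3, decide_eq_true_eq]
    exact ⟨k1 _ v1, k1 _ v2, k1 _ v3, k2 _ v1 _ v2 v4, k2 _ v1 _ v3 v5, k2 _ v2 _ v3 v6⟩
  have h7 := hn _ (bp_spec hd).1 h6.1
  rw [h6.2, vl_bp P hd] at h7
  have e30 : ∀ Q : ℕ → Pt, vl Q 30 = Real.pi / 4 := by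
    intro Q
    rw [vl, if_neg (lt_irrefl 30)]
  rw [h7, e30, e30]
  rw [vl, if_pos hi]

end Pool.Agent.MP_0af329_co.Q5
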