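import Pool.Agent.MP_0af329_co.QGeo5

/-!
# The certificate function is nonnegative on good five point configurations
-/

set_option autoImplicit false

namespace Pool.Agent.MP_0af329_co.Q5

open EuclideanGeometry

/-! ### The search -/

theorem all7_of {f : ℕ → Bool} (h : all7 f = true) {i : ℕ} (hi : i < 7) : f i = true := by
  simp only [all7, Bool.and_eq_true] at h
  interval_cases i
  · exact h.1
  · exact h.2.1
  · exact h.2.2.1
  · exact h.2.2.2.1
  · exact h.2.2.2.2.1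
  · exact h.2.2.2.2.2.1
  · exact h.2.2.2.2.2.2

theorem nble {a b : ℕ} {x : Bool} (h : (!(Nat.ble a b) || x) = true) (hab : a ≤ b) : x = true := by
  rwa [Nat.ble_eq_true_of_le hab, Bool.not_true, Bool.false_or] at h

theorem dfs_leaf {s8 d0 d1 d2 d3 d4 d5 d6 d7 d8 d9 : ℕ} (h : dfs s8 d0 d1 d2 d3 = true)
    (h4 : d4 < 7) (h5 : d5 < 7) (h6 : d6 < 7) (h7 : d7 < 7) (h8 : d8 < 7) (h9 : d9 < 7)
    (k1 : s8 ≤ key (cd d0 d4 d5 d6)) (k2 : s8 ≤ key (cd d1 d4 d7 d8))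
    (k3 : s8 ≤ key (cd d2 d5 d7 d9)) (k4 : s8 ≤ key (cd d3 d6 d8 d9)) :
    leaf d0 d1 d2 d3 d4 d5 d6 d7 d8 d9
      (Nat.add (A1 d0 d1 d2 d3 d4 d5 d6 (wF (cd d0 d1 d2 d3)) (wF (cd d0 d4 d5 d6)))
        (A2 d0 d1 d2 d3 d4 d5 d6 d7 d8 (wF (cd d0 d1 d2 d3)) (wF (cd d0 d4 d5 d6))
          (wF (cd d1 d4 d7 d8))))
      (Nat.add (Nat.add (Nat.add (pc d0) (Nat.add (pc d1) (Nat.add (pc d2) (pc d3))))
        (Nat.add (pc d4) (Nat.add (pc d5) (pc d6)))) (Nat.add (pc d7) (pc d8)))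
      (wF (cd d0 d1 d2 d3)) (wF (cd d0 d4 d5 d6)) (wF (cd d1 d4 d7 d8)) (wF (cd d2 d5 d7 d9))
      (wF (cd d3 d6 d8 d9)) = true := by
  rw [dfs, dfs1] at h
  have a4 := all7_of h h4
  have a5 := all7_of a4 h5
  have a6 := all7_of a5 h6
  have g1 := nble a6 k1
  rw [dfs2] at g1
  have a7 := all7_of g1 h7
  have a8 := all7_of a7 h8
  have g2 := nble a8 k2
  rw [dfs3] at g2
  have a9 := all7_of g2 h9
  exact nble (nble a9 k3) k4

/-! ### Good configurations -/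

/-- Five points in general position without an angle `π / 4`. -/
structure G5 (p : Fin 5 → Pt) : Prop where
  col : ∀ i j k : Fin 5, i ≠ j → j ≠ k → i ≠ k → ¬ Collinear ℝ {p i, p j, p k}
  ne : ∀ i j k : Fin 5, i ≠ j → j ≠ k → i ≠ k → ∠ (p i) (p j) (p k) ≠ Real.pi / 4

theorem G5.comp {p : Fin 5 → Pt} (h : G5 p) (s : Equiv.Perm (Fin 5)) : G5 (p ∘ s) :=
  ⟨fun i j k a b c => h.col _ _ _ (s.injective.ne a) (s.injective.ne b) (s.injective.ne c),
    fun i j k a b c => h.ne _ _ _ (s.injective.ne a) (s.injective.ne b) (s.injective.ne c)⟩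

/-- Extension to all indices. -/
def xt (p : Fin 5 → Pt) (n : ℕ) : Pt := p ⟨n % 5, Nat.mod_lt _ (by norm_num)⟩

theorem G5.gd {p : Fin 5 → Pt} (h : G5 p) : Gd (xt p) := by
  have e : ∀ i j : ℕ, i < 5 → j < 5 → i ≠ j →
      (⟨i % 5, Nat.mod_lt _ (by norm_num)⟩ : Fin 5) ≠ ⟨j % 5, Nat.mod_lt _ (by norm_num)⟩ := by
    intro i j hi hj hij he
    rw [Fin.mk.injEq] at he
    omega
  exact ⟨fun i hi j hj k hk a b c => h.col _ _ _ (e i j hi hj a) (e j k hj hk b) (e i k hi hk c),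
    fun i hi j hj k hk a b c => h.ne _ _ _ (e i j hi hj a) (e j k hj hk b) (e i k hi hk c)⟩

theorem dg_lt7 {a b c : Pt} (h : ¬ Collinear ℝ {a, b, c}) : dg a b c < 7 := by
  have hab : a ≠ b := by
    rintro rfl
    apply h
    simpa using collinear_pair ℝ a c
  have h1 := angle_add_angle_add_angle_eq_pi (p₁ := a) (p₂ := b) c hab.symm
  rcases lt_or_eq_of_le (Nat.le_of_lt_succ (dg_lt a b c)) with h2 | h2
  · exact h2
  · exfalso
    rw [dg, dgb] at h2
    have hs : sm a b c = true ∧ sm b a c = true ∧ sm c a b = true := by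
      cases h3 : sm a b c <;> cases h4 : sm b a c <;> cases h5 : sm c a b <;>
        simp [h3, h4, h5] at h2 ⊢
    obtain ⟨h3, h4, h5⟩ := hs
    rw [sm, decide_eq_true_iff] at h3 h4 h5
    rw [angle_comm b a c] at h3
    rw [angle_comm a c b] at h5
    linarith [Real.pi_pos, angle_comm a b c, angle_comm b c a, angle_comm c a b]

/-! ### Invariance under all permutations -/

noncomputable def Sx (p : Fin 5 → Pt) : ℤ := SS (p 0) (p 1) (p 2) (p 3) (p 4)

theorem Sx_swap (i : Fin 4) (p : Fin 5 → Pt) :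
    Sx (p ∘ Equiv.swap i.castSucc i.succ) = Sx p := by
  fin_cases i
  · exact SS01 (p 0) (p 1) (p 2) (p 3) (p 4)
  · exact SS12 (p 0) (p 1) (p 2) (p 3) (p 4)
  · exact SS23 (p 0) (p 1) (p 2) (p 3) (p 4)
  · exact SS34 (p 0) (p 1) (p 2) (p 3) (p 4)

theorem Sx_perm (s : Equiv.Perm (Fin 5)) : ∀ p : Fin 5 → Pt, Sx (p ∘ s) = Sx p := by
  have h : s ∈ Submonoid.closure
      (Set.range fun i : Fin 4 => Equiv.swap i.castSucc i.succ) := by
    rw [Equiv.Perm.mclosure_swap_castSucc_succ]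
    trivial
  induction h using Submonoid.closure_induction with
  | mem x hx =>
    obtain ⟨i, rfl⟩ := hx
    exact Sx_swap i
  | one => intro p; rfl
  | mul x y _ _ hx hy =>
    intro p
    have e : p ∘ (x * y : Equiv.Perm (Fin 5)) = (p ∘ x) ∘ y := rfl
    rw [e, hy, hx]

/-! ### The main inequality -/

noncomputable def Kx (p : Fin 5 → Pt) : ℕ := key (c4 (p 0) (p 1) (p 2) (p 3))

/-- A permutation from two inverse maps. -/
def mkp (f g : Fin 5 → Fin 5) (h1 : ∀ i, g (f i) = i) (h2 : ∀ i, f (g i) = i) :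
    Equiv.Perm (Fin 5) := ⟨f, g, h1, h2⟩

theorem key_of {a b c d : ℕ} (ha : a < 7) (hb : b < 7) (hc : c < 7) (hd : d < 7) :
    keyOk (cd a b c d) = true :=
  List.all_eq_true.1 (List.all_eq_true.1 (List.all_eq_true.1 (List.all_eq_true.1 key_all a
    (List.mem_range.2 ha)) b (List.mem_range.2 hb)) c (List.mem_range.2 hc)) d
    (List.mem_range.2 hd)

theorem Sx_min {p : Fin 5 → Pt} (g : G5 p) (hmin : ∀ s : Equiv.Perm (Fin 5), Kx p ≤ Kx (p ∘ s)) :
    0 ≤ Sx p := by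
  have D : ∀ i j k : Fin 5, i ≠ j → j ≠ k → i ≠ k → dg (p i) (p j) (p k) < 7 :=
    fun i j k a b c => dg_lt7 (g.col i j k a b c)
  have m01 : Kx p ≤ key (c4 (p 1) (p 0) (p 2) (p 3)) := hmin (Equiv.swap 0 1)
  have m12 : Kx p ≤ key (c4 (p 0) (p 2) (p 1) (p 3)) := hmin (Equiv.swap 1 2)
  have m23 : Kx p ≤ key (c4 (p 0) (p 1) (p 3) (p 2)) := hmin (Equiv.swap 2 3)
  have k1 : Kx p ≤ key (c4 (p 0) (p 1) (p 2) (p 4)) := hmin (Equiv.swap 3 4)
  have k2 : Kx p ≤ key (c4 (p 0) (p 1) (p 3) (p 4)) :=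
    hmin (mkp ![0, 1, 3, 4, 2] ![0, 1, 4, 2, 3] (by decide) (by decide))
  have k3 : Kx p ≤ key (c4 (p 0) (p 2) (p 3) (p 4)) :=
    hmin (mkp ![0, 2, 3, 4, 1] ![0, 4, 1, 2, 3] (by decide) (by decide))
  have k4 : Kx p ≤ key (c4 (p 1) (p 2) (p 3) (p 4)) :=
    hmin (mkp ![1, 2, 3, 4, 0] ![4, 0, 1, 2, 3] (by decide) (by decide))
  have hk := key_of (D 0 1 2 (by decide) (by decide) (by decide))
    (D 0 1 3 (by decide) (by decide) (by decide)) (D 0 2 3 (by decide) (by decide) (by decide))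
    (D 1 2 3 (by decide) (by decide) (by decide))
  rw [c4_01] at m01
  rw [c4_12] at m12
  rw [c4_23] at m23
  change keyOk (c4 (p 0) (p 1) (p 2) (p 3)) = true at hk
  rw [keyOk, Bool.or_eq_true, Bool.or_eq_true, Bool.or_eq_true, Bool.or_eq_true,
    Bool.and_eq_true, Bool.and_eq_true, Bool.and_eq_true, Bool.and_eq_true] at hk
  have hblt : ∀ {a b : ℕ}, Nat.blt a b = true → a < b := by
    intro a b h
    simpa only [Nat.blt_eq] using h
  rcases hk with hk | hk | hk | hk | hk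
  · exact (exl_false g.gd hk.2).elim
  · obtain ⟨h1, h2, h3, h4⟩ := hk
    have h1 := Nat.eq_of_beq_eq_true h1
    have h2 := Nat.le_of_ble_eq_true h2
    have h3 := hblt h3
    have h4 := Nat.eq_of_beq_eq_true h4
    obtain ⟨s, hs⟩ : ∃ s, s = key (c4 (p 0) (p 1) (p 2) (p 3)) / 8 - 1 := ⟨_, rfl⟩
    rw [← hs] at h4
    have hs8 : 8 * (s + 1) = Kx p := by
      rw [Kx]; omega
    have hs42 : s < 42 := by omega
    have h5 := List.all_eq_true.1 dfs_all s (List.mem_range.2 hs42)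
    rw [dfsI, h4, hs8] at h5
    rw [c4, cd0 (dg_lt _ _ _), cd1 (dg_lt _ _ _) (dg_lt _ _ _),
      cd2 (dg_lt _ _ _) (dg_lt _ _ _) (dg_lt _ _ _),
      cd3 (dg_lt _ _ _) (dg_lt _ _ _) (dg_lt _ _ _) (dg_lt _ _ _)] at h5
    have h6 := dfs_leaf h5 (D 0 1 4 (by decide) (by decide) (by decide))
      (D 0 2 4 (by decide) (by decide) (by decide)) (D 1 2 4 (by decide) (by decide) (by decide))
      (D 0 3 4 (by decide) (by decide) (by decide)) (D 1 3 4 (by decide) (by decide) (by decide))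
      (D 2 3 4 (by decide) (by decide) (by decide)) k1 k2 k3 k4
    refine SS_of_leaf _ _ _ _ _ h6 ?_
    rw [Bool.eq_false_iff]
    intro h7
    exact ngm_false g.gd h7
  · exact absurd (hblt hk) (not_lt.2 m01)
  · exact absurd (hblt hk) (not_lt.2 m12)
  · exact absurd (hblt hk) (not_lt.2 m23)

theorem Sx_nonneg {p : Fin 5 → Pt} (g : G5 p) : 0 ≤ Sx p := by
  obtain ⟨s, hs⟩ := Finite.exists_min fun s : Equiv.Perm (Fin 5) => Kx (p ∘ s)
  have h := Sx_min (g.comp s) fun t => hs (s * t)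
  rwa [Sx_perm] at h

end Pool.Agent.MP_0af329_co.Q5
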