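import Pool.Agent.MP_0af329_co.QEv

/-!
# Positive semidefinite integer forms given by tables

The factor of the Gram part is stored with nonnegative entries; the products of its rows are
read off from products of packed numbers.
-/

set_option autoImplicit false

namespace Pool.Agent.MP_0af329_co.Q5

/-- Table entry of a form. -/
def qz (T i j : ℕ) : ℤ := (tb T i j : ℤ) - 2147483648

/-- Scalar product of two rows. -/
def dot : List ℕ → List ℕ → ℕ
  | a :: l, b :: l' => a * b + dot l l'
  | _, _ => 0

theorem dot_eq : ∀ (l l' : List ℕ) (m : ℕ), l.length ≤ m →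
    dot l l' = ∑ k ∈ Finset.range m, l.getD k 0 * l'.getD k 0
  | [], l', m, _ => by simp [dot]
  | a :: l, [], m, _ => by simp [dot]
  | a :: l, b :: l', 0, h => by simp at h
  | a :: l, b :: l', m + 1, h => by
    rw [dot, Finset.sum_range_succ', dot_eq l l' m (by simpa using h)]
    simp [add_comm]

/-- Packed row. -/
def pkP : List ℕ → ℕ
  | [] => 0
  | a :: l => Nat.add a (Nat.mul 18446744073709551616 (pkP l))

/-- Packed reversed row. -/
def pkQ : ℕ → List ℕ → ℕ
  | acc, [] => acc
  | acc, a :: l => pkQ (Nat.add (Nat.mul acc 18446744073709551616) a) l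

theorem pkQ_acc : ∀ (l : List ℕ) (acc : ℕ),
    pkQ acc l = acc * 18446744073709551616 ^ l.length + pkQ 0 l
  | [], acc => by simp [pkQ]
  | a :: l, acc => by
    have e1 : pkQ acc (a :: l) = pkQ (acc * 18446744073709551616 + a) l := rfl
    have e2 : pkQ 0 (a :: l) = pkQ (0 * 18446744073709551616 + a) l := rfl
    rw [e1, e2, pkQ_acc l (acc * 18446744073709551616 + a),
      pkQ_acc l (0 * 18446744073709551616 + a), List.length_cons, pow_succ]
    ring

theorem pkQ_le (C : ℕ) : ∀ l : List ℕ, (∀ a ∈ l, a ≤ C) →
    18446744073709551615 * pkQ 0 l ≤ C * 18446744073709551616 ^ l.length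
  | [], _ => by simp [pkQ]
  | a :: l, h => by
    have e2 : pkQ 0 (a :: l) = pkQ (0 * 18446744073709551616 + a) l := rfl
    have ih := pkQ_le C l fun x hx => h x (List.mem_cons_of_mem _ hx)
    have ha := h a List.mem_cons_self
    rw [e2, pkQ_acc l, List.length_cons, pow_succ]
    have h1 : a * 18446744073709551616 ^ l.length ≤ C * 18446744073709551616 ^ l.length :=
      Nat.mul_le_mul_right _ ha
    rw [zero_mul, zero_add]
    linarith

/-- The scalar product sits in the middle digit of the product. -/
theorem pk_mul (C : ℕ) : ∀ (l l' : List ℕ), l.length = l'.length → (∀ a ∈ l, a ≤ C) →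
    (∀ a ∈ l', a ≤ C) → ∃ lo hi, pkP l * pkQ 0 l' * 18446744073709551616 =
      lo * 18446744073709551616 + 18446744073709551616 ^ l.length *
        (dot l l' + 18446744073709551616 * hi) ∧
      18446744073709551615 * (lo * 18446744073709551616) ≤
        l.length * (C * C) * 18446744073709551616 ^ l.length
  | [], [], _, _, _ => ⟨0, 0, by simp [pkP, dot], by simp⟩
  | [], b :: l', h, _, _ => by simp at h
  | a :: l, [], h, _, _ => by simp at h
  | a :: l, b :: l', h, ha, hb => by
    obtain ⟨lo, hi, h1, h2⟩ := pk_mul C l l' (by simpa using h)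
      (fun x hx => ha x (List.mem_cons_of_mem _ hx)) (fun x hx => hb x (List.mem_cons_of_mem _ hx))
    have hl : l.length = l'.length := by simpa using h
    have e1 : pkP (a :: l) = a + 18446744073709551616 * pkP l := rfl
    have e2 : pkQ 0 (b :: l') = b * 18446744073709551616 ^ l.length + pkQ 0 l' := by
      have e3 : pkQ 0 (b :: l') = pkQ (0 * 18446744073709551616 + b) l' := rfl
      rw [e3, pkQ_acc l', hl]
      ring
    have hQ := pkQ_le C l' fun x hx => hb x (List.mem_cons_of_mem _ hx)
    have haC := ha a List.mem_cons_self
    refine ⟨lo * 18446744073709551616 + a * pkQ 0 l', hi + pkP l * b, ?_, ?_⟩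
    · rw [e1, e2, dot, List.length_cons, pow_succ]
      have e4 : (a + 18446744073709551616 * pkP l) *
          (b * 18446744073709551616 ^ l.length + pkQ 0 l') * 18446744073709551616 =
          a * b * 18446744073709551616 ^ l.length * 18446744073709551616 +
          18446744073709551616 * pkP l * b * 18446744073709551616 ^ l.length *
            18446744073709551616 + a * pkQ 0 l' * 18446744073709551616 +
          18446744073709551616 * (pkP l * pkQ 0 l' * 18446744073709551616) := by ring
      rw [e4, h1]
      ring
    · rw [List.length_cons, pow_succ]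
      rw [← hl] at hQ
      have h3 : a * (18446744073709551615 * pkQ 0 l') ≤
          C * (C * 18446744073709551616 ^ l.length) := Nat.mul_le_mul haC hQ
      have h4 : 18446744073709551615 * ((lo * 18446744073709551616 + a * pkQ 0 l') *
          18446744073709551616) = 18446744073709551616 *
            (18446744073709551615 * (lo * 18446744073709551616)) +
          18446744073709551616 * (a * (18446744073709551615 * pkQ 0 l')) := by ring
      rw [h4]
      have h5 := Nat.mul_le_mul_left 18446744073709551616 h2
      have h6 := Nat.mul_le_mul_left 18446744073709551616 h3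
      push_cast
      linarith

end Pool.Agent.MP_0af329_co.Q5
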