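import Pool.Agent.MP_0af329_co.QPsA

/-!
# Positive semidefinite integer forms given by tables: the check
-/

set_option autoImplicit false

namespace Pool.Agent.MP_0af329_co.Q5

/-- The scalar product of two rows, computed from packed numbers. -/
def dotP (s : ℕ) (l l' : List ℕ) : ℕ :=
  Nat.land (Nat.shiftRight (Nat.mul (pkP l) (pkQ 0 l')) s) 18446744073709551615

theorem dotP_eq {m : ℕ} {l l' : List ℕ} (hl : l.length = m + 1) (hl' : l'.length = m + 1)
    (ha : ∀ a ∈ l, a ≤ 4194304) (hb : ∀ a ∈ l', a ≤ 4194304) (hm : m ≤ 127) :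
    dotP (64 * m) l l' = dot l l' := by
  obtain ⟨lo, hi, h1, h2⟩ := pk_mul 4194304 l l' (by omega) ha hb
  rw [hl, pow_succ] at h1
  rw [hl, pow_succ] at h2
  have hX : (0 : ℕ) < 18446744073709551616 ^ m := by positivity
  have hlo : lo < 18446744073709551616 ^ m := by
    by_contra hcon
    have h3 : 18446744073709551616 ^ m ≤ lo := not_lt.1 hcon
    have h4 : 18446744073709551615 * (18446744073709551616 ^ m * 18446744073709551616) ≤
        18446744073709551615 * (lo * 18446744073709551616) :=
      Nat.mul_le_mul_left _ (Nat.mul_le_mul_right _ h3)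
    have h5 : (m + 1) * (4194304 * 4194304) * (18446744073709551616 ^ m * 18446744073709551616) ≤
        128 * (4194304 * 4194304) * (18446744073709551616 ^ m * 18446744073709551616) :=
      Nat.mul_le_mul_right _ (Nat.mul_le_mul_right _ (by omega))
    have h6 := h4.trans (h2.trans h5)
    omega
  have h3 : pkP l * pkQ 0 l' = lo + 18446744073709551616 ^ m *
      (dot l l' + 18446744073709551616 * hi) := by
    have h4 : pkP l * pkQ 0 l' * 18446744073709551616 = (lo + 18446744073709551616 ^ m *
        (dot l l' + 18446744073709551616 * hi)) * 18446744073709551616 := by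
      rw [h1]; ring
    exact Nat.eq_of_mul_eq_mul_right (by norm_num) h4
  have hd : dot l l' < 18446744073709551616 := by
    rw [dot_eq l l' (m + 1) (by omega)]
    have h4 : ∀ k ∈ Finset.range (m + 1), l.getD k 0 * l'.getD k 0 ≤ 4194304 * 4194304 := by
      intro k hk
      rw [Finset.mem_range] at hk
      refine Nat.mul_le_mul ?_ ?_
      · rw [List.getD_eq_getElem?_getD, List.getElem?_eq_getElem (by omega)]
        exact ha _ (List.getElem_mem _)
      · rw [List.getD_eq_getElem?_getD, List.getElem?_eq_getElem (by omega)]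
        exact hb _ (List.getElem_mem _)
    have h5 := Finset.sum_le_card_nsmul _ _ _ h4
    rw [Finset.card_range, smul_eq_mul] at h5
    have h6 : (m + 1) * (4194304 * 4194304) ≤ 128 * (4194304 * 4194304) :=
      Nat.mul_le_mul_right _ (by omega)
    omega
  have e1 : dotP (64 * m) l l' =
      (pkP l * pkQ 0 l') >>> (64 * m) &&& 18446744073709551615 := rfl
  rw [e1, Nat.shiftRight_eq_div_pow, pow_mul, show (2 : ℕ) ^ 64 = 18446744073709551616 by norm_num,
    h3, Nat.add_mul_div_left _ _ hX, Nat.div_eq_of_lt hlo, zero_add,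
    show (18446744073709551615 : ℕ) = 2 ^ 64 - 1 by norm_num, Nat.and_two_pow_sub_one_eq_mod,
    show (2 : ℕ) ^ 64 = 18446744073709551616 by norm_num, Nat.add_mul_mod_self_left,
    Nat.mod_eq_of_lt hd]

/-- Sum of a row. -/
def smN : List ℕ → ℕ
  | [] => 0
  | a :: l => Nat.add a (smN l)

theorem smN_eq : ∀ (l : List ℕ) (m : ℕ), l.length ≤ m →
    smN l = ∑ k ∈ Finset.range m, l.getD k 0
  | [], m, _ => by simp [smN]
  | a :: l, 0, h => by simp at h
  | a :: l, m + 1, h => by
    have e : smN (a :: l) = a + smN l := rfl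
    rw [e, Finset.sum_range_succ', smN_eq l m (by simpa using h)]
    simp [add_comm]

/-- Parameters: table, square of the scale, bound `dl`, shift `B`, number of rows minus one. -/
structure Pm where
  (T s2 dl B m1 : ℕ)

/-- The off-diagonal entries of one row. -/
def ckRow (p : Pm) (C sh i : ℕ) (li : List ℕ) : ℕ → List (List ℕ) → Bool
  | j, lj :: ls => bif Nat.blt j i then
      (Nat.ble (Nat.add (Nat.mul p.s2 (tb p.T i j)) (Nat.mul p.B (Nat.add (smN li) (smN lj))))
          (Nat.add C (Nat.add (dotP sh li lj) p.dl)) &&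
        (Nat.ble (Nat.add C (dotP sh li lj))
          (Nat.add (Nat.add (Nat.mul p.s2 (tb p.T i j)) (Nat.mul p.B (Nat.add (smN li) (smN lj))))
            p.dl) && ckRow p C sh i li (Nat.succ j) ls)) else true
  | _, [] => true

/-- The diagonal entry. -/
def ckDg (p : Pm) (C sh i : ℕ) (li : List ℕ) : Bool :=
  Nat.ble (Nat.add C (Nat.add (dotP sh li li) (Nat.mul p.m1 p.dl)))
    (Nat.add (Nat.mul p.s2 (tb p.T i i)) (Nat.mul p.B (Nat.add (smN li) (smN li))))

/-- Some rows. -/
def ckL (p : Pm) (C sh : ℕ) (L : List (List ℕ)) : ℕ → List (List ℕ) → Bool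
  | i, li :: ls => ckRow p C sh i li 0 L && (ckDg p C sh i li && ckL p C sh L (Nat.succ i) ls)
  | _, [] => true

theorem ckRow_ok (p : Pm) (C sh i : ℕ) (li : List ℕ) : ∀ (j : ℕ) (ls : List (List ℕ)),
    ckRow p C sh i li j ls = true → ∀ k, k < ls.length → j + k < i →
      p.s2 * tb p.T i (j + k) + p.B * (smN li + smN (ls.getD k [])) ≤
        C + (dotP sh li (ls.getD k []) + p.dl) ∧
      C + dotP sh li (ls.getD k []) ≤
        p.s2 * tb p.T i (j + k) + p.B * (smN li + smN (ls.getD k [])) + p.dl
  | j, [], _, k, hk, _ => by simp at hk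
  | j, lj :: ls, h, k, hk, hji => by
    rw [ckRow] at h
    have h1 : Nat.blt j i = true := by
      have : j < i := by omega
      simpa only [Nat.blt_eq] using this
    rw [h1, cond_true, Bool.and_eq_true, Bool.and_eq_true] at h
    cases k with
    | zero =>
      rw [add_zero, List.getD_cons_zero]
      exact ⟨Nat.le_of_ble_eq_true h.1, Nat.le_of_ble_eq_true h.2.1⟩
    | succ k =>
      have h2 := ckRow_ok p C sh i li (Nat.succ j) ls h.2.2 k (by simpa using hk)
        (by rw [Nat.succ_eq_add_one]; omega)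
      rw [show j + (k + 1) = Nat.succ j + k by rw [Nat.succ_eq_add_one]; omega,
        List.getD_cons_succ]
      exact h2

theorem ckL_ok (p : Pm) (C sh : ℕ) (L : List (List ℕ)) : ∀ (i : ℕ) (ls : List (List ℕ)),
    ckL p C sh L i ls = true → ∀ k, k < ls.length →
      ckRow p C sh (i + k) (ls.getD k []) 0 L = true ∧ ckDg p C sh (i + k) (ls.getD k []) = true
  | i, [], _, k, hk => by simp at hk
  | i, li :: ls, h, k, hk => by
    rw [ckL, Bool.and_eq_true, Bool.and_eq_true] at h
    cases k with
    | zero => rw [add_zero, List.getD_cons_zero]; exact ⟨h.1, h.2.1⟩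
    | succ k =>
      have h2 := ckL_ok p C sh L (Nat.succ i) ls h.2.2 k (by simpa using hk)
      rw [show i + (k + 1) = Nat.succ i + k by rw [Nat.succ_eq_add_one]; omega,
        List.getD_cons_succ]
      exact h2

/-- The check of the rows `a, …, a + n - 1`. -/
def ckP (p : Pm) (L : List (List ℕ)) (a n : ℕ) : Bool :=
  ckL p (Nat.add (Nat.mul p.s2 2147483648) (Nat.mul (Nat.succ p.m1) (Nat.mul p.B p.B)))
    (Nat.mul 64 p.m1) L a ((L.drop a).take n)

/-- Side conditions. -/
def ckC (p : Pm) (L : List (List ℕ)) : Bool :=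
  Nat.blt 0 p.s2 && (Nat.ble p.m1 127 && (Nat.beq L.length (Nat.succ p.m1) &&
    (L.all fun l => Nat.beq l.length (Nat.succ p.m1) && l.all fun a => Nat.ble a 4194304)))

/-- Symmetry of a table. -/
def ckS (T n : ℕ) : Bool :=
  (List.range n).all fun i => (List.range i).all fun j => Nat.beq (tb T i j) (tb T j i)

theorem ckS_ok {T n : ℕ} (h : ckS T n = true) {i j : ℕ} (hi : i < n) (hj : j < n) :
    tb T i j = tb T j i := by
  have h1 := List.all_eq_true.1 h
  rcases lt_trichotomy i j with h2 | h2 | h2
  · exact (Nat.eq_of_beq_eq_true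
      (List.all_eq_true.1 (h1 j (List.mem_range.2 hj)) i (List.mem_range.2 h2))).symm
  · rw [h2]
  · exact Nat.eq_of_beq_eq_true
      (List.all_eq_true.1 (h1 i (List.mem_range.2 hi)) j (List.mem_range.2 h2))

theorem ckP_row {p : Pm} {L : List (List ℕ)} {a n : ℕ} (h : ckP p L a n = true) {i : ℕ}
    (h1 : a ≤ i) (h2 : i < a + n) (h3 : i < L.length) :
    ckRow p (p.s2 * 2147483648 + (p.m1 + 1) * (p.B * p.B)) (64 * p.m1) i (L.getD i []) 0 L = true ∧
      ckDg p (p.s2 * 2147483648 + (p.m1 + 1) * (p.B * p.B)) (64 * p.m1) i (L.getD i []) = true := by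
  have h4 := ckL_ok p _ _ L a _ h (i - a) (by
    rw [List.length_take, List.length_drop]
    omega)
  have h5 : ((L.drop a).take n).getD (i - a) [] = L.getD i [] := by
    rw [List.getD_eq_getElem?_getD, List.getD_eq_getElem?_getD, List.getElem?_take,
      if_pos (by omega), List.getElem?_drop, show a + (i - a) = i by omega]
  rw [h5, show a + (i - a) = i by omega] at h4
  exact h4

end Pool.Agent.MP_0af329_co.Q5
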