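import Pool.Agent.MP_0af329_co.QPsC

/-!
# Positive semidefinite integer forms given by tables: soundness
-/

set_option autoImplicit false

namespace Pool.Agent.MP_0af329_co.Q5

theorem dd_sum (m : ℕ) (D : ℕ → ℕ → ℤ) (dl : ℤ)
    (h1 : ∀ i < m, ∀ j < m, i ≠ j → D i j ≤ dl ∧ -dl ≤ D i j)
    (h2 : ∀ i < m, ((m : ℤ) - 1) * dl ≤ D i i) (y : ℕ → ℤ) :
    0 ≤ ∑ i ∈ Finset.range m, ∑ j ∈ Finset.range m, D i j * y i * y j := by
  have key : ∀ i ∈ Finset.range m, ∀ j ∈ Finset.range m,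
      (if i = j then 2 * m * dl * y i ^ 2 else 0) - dl * (y i ^ 2 + y j ^ 2) ≤
        2 * (D i j * y i * y j) := by
    intro i hi j hj
    rw [Finset.mem_range] at hi hj
    split_ifs with hij
    · subst hij
      nlinarith [h2 i hi, sq_nonneg (y i), mul_nonneg (sub_nonneg.2 (h2 i hi)) (sq_nonneg (y i))]
    · obtain ⟨h3, h4⟩ := h1 i hi j hj hij
      nlinarith [mul_nonneg (sub_nonneg.2 h3) (sq_nonneg (y i - y j)),
        mul_nonneg (sub_nonneg.2 h4) (sq_nonneg (y i + y j))]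
  have h3 : ∑ i ∈ Finset.range m, ∑ j ∈ Finset.range m,
      ((if i = j then 2 * m * dl * y i ^ 2 else 0) - dl * (y i ^ 2 + y j ^ 2)) = 0 := by
    simp only [Finset.sum_sub_distrib, Finset.sum_ite_eq, Finset.mem_range]
    have h4 : ∑ i ∈ Finset.range m, (if i < m then 2 * (m : ℤ) * dl * y i ^ 2 else 0) =
        2 * m * dl * ∑ i ∈ Finset.range m, y i ^ 2 := by
      rw [Finset.mul_sum]
      refine Finset.sum_congr rfl fun i hi => ?_
      rw [if_pos (Finset.mem_range.1 hi)]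
    have h5 : ∑ i ∈ Finset.range m, ∑ j ∈ Finset.range m, dl * (y i ^ 2 + y j ^ 2) =
        2 * m * dl * ∑ i ∈ Finset.range m, y i ^ 2 := by
      simp only [← Finset.mul_sum, Finset.sum_add_distrib, Finset.sum_const, Finset.card_range,
        nsmul_eq_mul]
      ring
    rw [h4, h5, sub_self]
  have h4 := Finset.sum_le_sum fun i hi => Finset.sum_le_sum fun j hj => key i hi j hj
  rw [h3] at h4
  simp only [← Finset.mul_sum] at h4
  linarith

theorem gram_sum (m : ℕ) (L : ℕ → ℕ → ℤ) (y : ℕ → ℤ) :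
    0 ≤ ∑ i ∈ Finset.range m, ∑ j ∈ Finset.range m,
      (∑ k ∈ Finset.range m, L i k * L j k) * y i * y j := by
  have h : ∑ i ∈ Finset.range m, ∑ j ∈ Finset.range m,
      (∑ k ∈ Finset.range m, L i k * L j k) * y i * y j =
      ∑ k ∈ Finset.range m, (∑ i ∈ Finset.range m, L i k * y i) ^ 2 := by
    have h1 : ∀ k, (∑ i ∈ Finset.range m, L i k * y i) ^ 2 =
        ∑ i ∈ Finset.range m, ∑ j ∈ Finset.range m, (L i k * y i) * (L j k * y j) := by
      intro k
      rw [sq, Finset.sum_mul_sum]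
    simp only [h1]
    symm
    rw [Finset.sum_comm]
    refine Finset.sum_congr rfl fun i _ => ?_
    rw [Finset.sum_comm]
    refine Finset.sum_congr rfl fun j _ => ?_
    rw [Finset.sum_mul, Finset.sum_mul]
    refine Finset.sum_congr rfl fun k _ => ?_
    ring
  rw [h]
  exact Finset.sum_nonneg fun k _ => sq_nonneg _

theorem gram_eq (m : ℕ) (a b : ℕ → ℕ) (B : ℤ) :
    ∑ k ∈ Finset.range m, ((a k : ℤ) - B) * ((b k : ℤ) - B) =
      ((∑ k ∈ Finset.range m, a k * b k : ℕ) : ℤ) -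
        B * (((∑ k ∈ Finset.range m, a k : ℕ) : ℤ) + ((∑ k ∈ Finset.range m, b k : ℕ) : ℤ)) +
        m * B ^ 2 := by
  have h : ∀ k ∈ Finset.range m, ((a k : ℤ) - B) * ((b k : ℤ) - B) =
      (a k * b k : ℤ) - (B * a k + B * b k) + B ^ 2 := by
    intro k _
    ring
  rw [Finset.sum_congr rfl h, Finset.sum_add_distrib, Finset.sum_sub_distrib,
    Finset.sum_add_distrib, ← Finset.mul_sum, ← Finset.mul_sum, Finset.sum_const,
    Finset.card_range, nsmul_eq_mul]
  push_cast
  ring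

theorem psd_of_ck {p : Pm} {L : List (List ℕ)} (hc : ckC p L = true)
    (hr : ∀ i < p.m1 + 1,
      ckRow p (p.s2 * 2147483648 + (p.m1 + 1) * (p.B * p.B)) (64 * p.m1) i (L.getD i []) 0 L = true ∧
      ckDg p (p.s2 * 2147483648 + (p.m1 + 1) * (p.B * p.B)) (64 * p.m1) i (L.getD i []) = true)
    (hs : ∀ i < p.m1 + 1, ∀ j < p.m1 + 1, tb p.T i j = tb p.T j i) (y : ℕ → ℤ) :
    0 ≤ ∑ i ∈ Finset.range (p.m1 + 1), ∑ j ∈ Finset.range (p.m1 + 1),
      qz p.T i j * y i * y j := by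
  rw [ckC, Bool.and_eq_true, Bool.and_eq_true, Bool.and_eq_true] at hc
  obtain ⟨h1, h2, h3, h4⟩ := hc
  have h1 : 0 < p.s2 := by simpa only [Nat.blt_eq] using h1
  have h2 : p.m1 ≤ 127 := Nat.le_of_ble_eq_true h2
  have h3 : L.length = p.m1 + 1 := Nat.eq_of_beq_eq_true h3
  have hrow : ∀ i < p.m1 + 1, (L.getD i []).length = p.m1 + 1 ∧
      ∀ a ∈ L.getD i [], a ≤ 4194304 := by
    intro i hi
    have h6 : L.getD i [] = L[i]'(by omega) := by
      rw [List.getD_eq_getElem?_getD, List.getElem?_eq_getElem (by omega)]; rfl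
    rw [h6]
    have h7 := List.all_eq_true.1 h4 _ (List.getElem_mem (by omega : i < L.length))
    rw [Bool.and_eq_true] at h7
    exact ⟨Nat.eq_of_beq_eq_true h7.1, fun a ha =>
      Nat.le_of_ble_eq_true (List.all_eq_true.1 h7.2 a ha)⟩
  obtain ⟨G, hG⟩ : ∃ G : ℕ → ℕ → ℤ, G = fun i j => ∑ k ∈ Finset.range (p.m1 + 1),
      (((L.getD i []).getD k 0 : ℤ) - p.B) * (((L.getD j []).getD k 0 : ℤ) - p.B) := ⟨_, rfl⟩
  have hGs : ∀ i j, G i j = G j i := by
    intro i j
    rw [hG]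
    exact Finset.sum_congr rfl fun k _ => mul_comm _ _
  have hqs : ∀ i < p.m1 + 1, ∀ j < p.m1 + 1, qz p.T i j = qz p.T j i := by
    intro i hi j hj
    rw [qz, qz, hs i hi j hj]
  have hGe : ∀ i < p.m1 + 1, ∀ j < p.m1 + 1, G i j =
      (dotP (64 * p.m1) (L.getD i []) (L.getD j []) : ℤ) -
        p.B * ((smN (L.getD i []) : ℤ) + smN (L.getD j [])) + (p.m1 + 1) * p.B ^ 2 := by
    intro i hi j hj
    rw [dotP_eq (hrow i hi).1 (hrow j hj).1 (hrow i hi).2 (hrow j hj).2 h2,
      dot_eq _ _ (p.m1 + 1) (hrow i hi).1.le, smN_eq _ (p.m1 + 1) (hrow i hi).1.le,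
      smN_eq _ (p.m1 + 1) (hrow j hj).1.le, hG]
    have h5 := gram_eq (p.m1 + 1) (fun k => (L.getD i []).getD k 0)
      (fun k => (L.getD j []).getD k 0) p.B
    refine h5.trans ?_
    push_cast
    ring
  have hlow : ∀ i < p.m1 + 1, ∀ j < i, p.s2 * qz p.T i j - G i j ≤ p.dl ∧
      -(p.dl : ℤ) ≤ p.s2 * qz p.T i j - G i j := by
    intro i hi j hj
    have h7 := ckRow_ok p _ _ i _ 0 L (hr i hi).1 j (by omega) (by omega)
    rw [zero_add] at h7
    obtain ⟨h8, h9⟩ := h7
    rw [hGe i hi j (by omega), qz]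
    zify at h8 h9
    constructor
    · linarith
    · linarith
  have hdd := dd_sum (p.m1 + 1) (fun i j => p.s2 * qz p.T i j - G i j) p.dl ?_ ?_ y
  · have hgr := gram_sum (p.m1 + 1) (fun i k => ((L.getD i []).getD k 0 : ℤ) - p.B) y
    have h8 : (p.s2 : ℤ) * ∑ i ∈ Finset.range (p.m1 + 1), ∑ j ∈ Finset.range (p.m1 + 1),
        qz p.T i j * y i * y j =
        ∑ i ∈ Finset.range (p.m1 + 1), ∑ j ∈ Finset.range (p.m1 + 1),
          (p.s2 * qz p.T i j - G i j) * y i * y j +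
        ∑ i ∈ Finset.range (p.m1 + 1), ∑ j ∈ Finset.range (p.m1 + 1),
          (∑ k ∈ Finset.range (p.m1 + 1), (((L.getD i []).getD k 0 : ℤ) - p.B) *
            (((L.getD j []).getD k 0 : ℤ) - p.B)) * y i * y j := by
      rw [Finset.mul_sum, ← Finset.sum_add_distrib]
      refine Finset.sum_congr rfl fun i _ => ?_
      rw [Finset.mul_sum, ← Finset.sum_add_distrib]
      refine Finset.sum_congr rfl fun j _ => ?_
      rw [hG]
      ring
    have h9 : (0 : ℤ) ≤ p.s2 * ∑ i ∈ Finset.range (p.m1 + 1), ∑ j ∈ Finset.range (p.m1 + 1),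
        qz p.T i j * y i * y j := by
      rw [h8]
      exact add_nonneg hdd hgr
    exact nonneg_of_mul_nonneg_right h9 (by exact_mod_cast h1)
  · intro i hi j hj hij
    rcases lt_or_gt_of_ne hij with h6 | h6
    · have h7 := hlow j hj i h6
      rw [hqs i hi j hj, hGs i j]
      exact h7
    · exact hlow i hi j h6
  · intro i hi
    have h6 := Nat.le_of_ble_eq_true (hr i hi).2
    have h7 : p.s2 * 2147483648 + (p.m1 + 1) * (p.B * p.B) +
        (dotP (64 * p.m1) (L.getD i []) (L.getD i []) + p.m1 * p.dl) ≤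
        p.s2 * tb p.T i i + p.B * (smN (L.getD i []) + smN (L.getD i [])) := h6
    rw [hGe i hi i hi, qz]
    zify at h7
    push_cast
    linarith

/-! ### Dependent flags -/

/-- A sparse combination. -/
def ev (q : ℕ → ℤ) : List (ℕ × ℤ) → ℤ
  | (k, c) :: l => c * q k + ev q l
  | [] => 0

/-- The coefficient of `k` in a sparse combination. -/
def lsm : List (ℕ × ℤ) → ℕ → ℤ
  | (k', c) :: l, k => (if k' = k then c else 0) + lsm l k
  | [], _ => 0

theorem ev_eq (m : ℕ) (q : ℕ → ℤ) : ∀ l : List (ℕ × ℤ), (∀ x ∈ l, x.1 < m) →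
    ev q l = ∑ k ∈ Finset.range m, lsm l k * q k
  | [], _ => by simp [ev, lsm]
  | (k, c) :: l, h => by
    have h1 : k < m := h _ List.mem_cons_self
    rw [ev, ev_eq m q l fun x hx => h x (List.mem_cons_of_mem _ hx)]
    simp only [lsm, add_mul, Finset.sum_add_distrib, ite_mul, zero_mul, Finset.sum_ite_eq,
      Finset.mem_range, if_pos h1]

/-- The dependent rows. -/
def ckW (T m n : ℕ) (dep : List (List (ℕ × ℤ))) : Bool :=
  (dep.all fun l => l.all fun x => Nat.blt x.1 m) &&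
  ((List.range (n + 1 - m)).all fun i => (List.range (n + 1)).all fun j =>
    decide (qz T (m + i) j = ev (fun k => qz T k j) (dep.getD i [])))

/-- Coordinates of the flag `i`. -/
def wt (m : ℕ) (dep : List (List (ℕ × ℤ))) (i k : ℕ) : ℤ :=
  if i < m then (if i = k then 1 else 0) else lsm (dep.getD (i - m) []) k

theorem ckW_ok {T m n : ℕ} {dep : List (List (ℕ × ℤ))} (h : ckW T m n dep = true) {i j : ℕ}
    (hi : i ≤ n) (hj : j ≤ n) :
    qz T i j = ∑ k ∈ Finset.range m, wt m dep i k * qz T k j := by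
  rw [ckW, Bool.and_eq_true] at h
  by_cases him : i < m
  · simp only [wt, if_pos him, ite_mul, one_mul, zero_mul, Finset.sum_ite_eq, Finset.mem_range]
  · simp only [wt, if_neg him]
    have h1 := List.all_eq_true.1 (List.all_eq_true.1 h.2 (i - m) (List.mem_range.2 (by omega)))
      j (List.mem_range.2 (by omega))
    rw [decide_eq_true_eq, show m + (i - m) = i by omega] at h1
    rw [h1]
    refine ev_eq m (fun k => qz T k j) _ fun x hx => ?_
    by_cases hl : i - m < dep.length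
    · have h2 : dep.getD (i - m) [] = dep[i - m] := by
        rw [List.getD_eq_getElem?_getD, List.getElem?_eq_getElem hl]; rfl
      rw [h2] at hx
      have h3 := List.all_eq_true.1 (List.all_eq_true.1 h.1 _ (List.getElem_mem hl)) x hx
      simpa only [Nat.blt_eq] using h3
    · rw [List.getD_eq_default _ _ (by omega)] at hx
      simp at hx

theorem psd_sum {T m n : ℕ} {dep : List (List (ℕ × ℤ))} (h0 : m ≤ n)
    (h1 : ckS T (n + 1) = true) (h3 : ckW T m n dep = true)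
    (h4 : ∀ y : ℕ → ℤ, 0 ≤ ∑ i ∈ Finset.range m, ∑ j ∈ Finset.range m, qz T i j * y i * y j)
    {ι : Type*} (V : Finset ι) (f : ι → ℕ)
    (hf : ∀ u ∈ V, f u ≤ n) : 0 ≤ ∑ u ∈ V, ∑ v ∈ V, qz T (f u) (f v) := by
  have hs : ∀ i ≤ n, ∀ j ≤ n, qz T i j = qz T j i := by
    intro i hi j hj
    rw [qz, qz, ckS_ok h1 (by omega) (by omega)]
  obtain ⟨y, hy⟩ : ∃ y : ℕ → ℤ, y = fun k => ∑ u ∈ V, wt m dep (f u) k := ⟨_, rfl⟩
  have h5 : ∑ u ∈ V, ∑ v ∈ V, qz T (f u) (f v) =
      ∑ i ∈ Finset.range m, ∑ j ∈ Finset.range m, qz T i j * y i * y j := by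
    have h6 : ∀ u ∈ V, ∀ v ∈ V, qz T (f u) (f v) = ∑ i ∈ Finset.range m,
        ∑ j ∈ Finset.range m, qz T i j * wt m dep (f u) i * wt m dep (f v) j := by
      intro u hu v hv
      rw [ckW_ok h3 (hf u hu) (hf v hv)]
      refine Finset.sum_congr rfl fun i hi => ?_
      rw [Finset.mem_range] at hi
      rw [hs i (by omega) _ (hf v hv), ckW_ok h3 (hf v hv) (show i ≤ n by omega),
        Finset.mul_sum]
      refine Finset.sum_congr rfl fun j hj => ?_
      rw [Finset.mem_range] at hj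
      rw [hs j (by omega) i (by omega)]
      ring
    rw [Finset.sum_congr rfl fun u hu => Finset.sum_congr rfl fun v hv => h6 u hu v hv]
    have h7 : ∀ u ∈ V, ∑ v ∈ V, ∑ i ∈ Finset.range m, ∑ j ∈ Finset.range m,
        qz T i j * wt m dep (f u) i * wt m dep (f v) j = ∑ i ∈ Finset.range m,
          ∑ j ∈ Finset.range m, qz T i j * wt m dep (f u) i * y j := by
      intro u _
      rw [Finset.sum_comm]
      refine Finset.sum_congr rfl fun i _ => ?_
      rw [Finset.sum_comm]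
      refine Finset.sum_congr rfl fun j _ => ?_
      rw [hy, Finset.mul_sum]
    rw [Finset.sum_congr rfl h7, Finset.sum_comm]
    refine Finset.sum_congr rfl fun i _ => ?_
    rw [Finset.sum_comm]
    refine Finset.sum_congr rfl fun j _ => ?_
    rw [← Finset.sum_mul, ← Finset.mul_sum]
    rw [hy]
  rw [h5]
  exact h4 y

end Pool.Agent.MP_0af329_co.Q5
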