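import Pool.Agent.MP_0af329_co.QGeo6

/-!
# Summation over all quintuples of points
-/

set_option autoImplicit false

namespace Pool.Agent.MP_0af329_co.Q5

open EuclideanGeometry

/-- Sum over all quintuples of points of `V`. -/
noncomputable def S5 (V : Finset Pt) (f : (Fin 5 → Pt) → ℤ) : ℤ :=
  ∑ p ∈ Fintype.piFinset (fun _ : Fin 5 => V), f p

theorem S5_perm (V : Finset Pt) (e : Equiv.Perm (Fin 5)) (f : (Fin 5 → Pt) → ℤ) :
    S5 V (fun p => f (p ∘ e)) = S5 V f := by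
  refine Finset.sum_nbij' (fun p => p ∘ e) (fun p => p ∘ e.symm) ?_ ?_ ?_ ?_ ?_
  · intro p hp
    rw [Fintype.mem_piFinset] at hp ⊢
    exact fun i => hp (e i)
  · intro p hp
    rw [Fintype.mem_piFinset] at hp ⊢
    exact fun i => hp (e.symm i)
  · intro p _
    ext i : 1
    simp
  · intro p _
    ext i : 1
    simp
  · intro p _
    rfl

theorem S5_eq (V : Finset Pt) (f : Pt → Pt → Pt → Pt → Pt → ℤ) :
    S5 V (fun p => f (p 0) (p 1) (p 2) (p 3) (p 4)) =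
      ∑ x ∈ V, ∑ y ∈ V, ∑ z ∈ V, ∑ u ∈ V, ∑ v ∈ V, f x y z u v := by
  have h : S5 V (fun p => f (p 0) (p 1) (p 2) (p 3) (p 4)) =
      ∑ t ∈ V ×ˢ V ×ˢ V ×ˢ V ×ˢ V, f t.1 t.2.1 t.2.2.1 t.2.2.2.1 t.2.2.2.2 := by
    refine Finset.sum_nbij' (fun p => (p 0, p 1, p 2, p 3, p 4))
      (fun t => ![t.1, t.2.1, t.2.2.1, t.2.2.2.1, t.2.2.2.2]) ?_ ?_ ?_ ?_ ?_
    · intro p hp
      rw [Fintype.mem_piFinset] at hp
      simp only [Finset.mem_product]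
      exact ⟨hp 0, hp 1, hp 2, hp 3, hp 4⟩
    · intro t ht
      simp only [Finset.mem_product] at ht
      rw [Fintype.mem_piFinset]
      intro i
      fin_cases i
      · exact ht.1
      · exact ht.2.1
      · exact ht.2.2.1
      · exact ht.2.2.2.1
      · exact ht.2.2.2.2
    · intro p _
      ext i : 1
      fin_cases i <;> rfl
    · intro t _
      rfl
    · intro p _
      rfl
  rw [h]
  simp only [Finset.sum_product]

theorem S5_add (V : Finset Pt) (f g : (Fin 5 → Pt) → ℤ) :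
    S5 V (fun p => f p + g p) = S5 V f + S5 V g := Finset.sum_add_distrib

theorem S5_mono {V : Finset Pt} {f g : (Fin 5 → Pt) → ℤ}
    (h : ∀ p, (∀ i, p i ∈ V) → f p ≤ g p) : S5 V f ≤ S5 V g :=
  Finset.sum_le_sum fun p hp => h p fun i => Fintype.mem_piFinset.1 hp i

/-- Moving five coordinates. -/
theorem S5_move (V : Finset Pt) (f : Pt → Pt → Pt → Pt → Pt → ℤ) (a b c d e : Fin 5)
    (s : Equiv.Perm (Fin 5)) (h0 : s 0 = a) (h1 : s 1 = b) (h2 : s 2 = c) (h3 : s 3 = d)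
    (h4 : s 4 = e) : S5 V (fun p => f (p a) (p b) (p c) (p d) (p e)) =
      ∑ x ∈ V, ∑ y ∈ V, ∑ z ∈ V, ∑ u ∈ V, ∑ v ∈ V, f x y z u v := by
  subst h0 h1 h2 h3 h4
  exact (S5_perm V s fun p => f (p 0) (p 1) (p 2) (p 3) (p 4)).trans (S5_eq V f)

theorem exP : ∀ a b c : Fin 5, a ≠ b → b ≠ c → a ≠ c → ∃ s : Equiv.Perm (Fin 5),
    s 0 = a ∧ s 1 = b ∧ s 2 = c := by
  intro a b c hab hbc hac
  let t : Equiv.Perm (Fin 5) := Equiv.swap 0 a
  let u : Equiv.Perm (Fin 5) := Equiv.swap (t 1) b * t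
  let w : Equiv.Perm (Fin 5) := Equiv.swap (u 2) c * u
  refine ⟨w, ?_⟩
  revert a b c
  decide +kernel

/-- Three coordinates. -/
theorem S5_three (V : Finset Pt) (g : Pt → Pt → Pt → ℤ) {a b c : Fin 5} (hab : a ≠ b)
    (hbc : b ≠ c) (hac : a ≠ c) : S5 V (fun p => g (p a) (p b) (p c)) =
      (V.card : ℤ) ^ 2 * ∑ x ∈ V, ∑ y ∈ V, ∑ z ∈ V, g x y z := by
  obtain ⟨s, h0, h1, h2⟩ := exP a b c hab hbc hac
  rw [S5_move V (fun x y z _ _ => g x y z) a b c (s 3) (s 4) s h0 h1 h2 rfl rfl]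
  simp only [Finset.sum_const, nsmul_eq_mul, ← Finset.mul_sum]
  ring

/-- The five coordinates of a form with root of three points. -/
theorem S5_qt (V : Finset Pt) (a b c d e : Fin 5) (s : Equiv.Perm (Fin 5)) (h0 : s 0 = a)
    (h1 : s 1 = b) (h2 : s 2 = c) (h3 : s 3 = d) (h4 : s 4 = e) :
    0 ≤ S5 V (fun p => qt (p a) (p b) (p c) (p d) (p e)) := by
  rw [S5_move V qt a b c d e s h0 h1 h2 h3 h4]
  exact Finset.sum_nonneg fun x _ => Finset.sum_nonneg fun y _ => Finset.sum_nonneg fun z _ =>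
    qt_sum V x y z

theorem S5_rt (V : Finset Pt) (a b c d e : Fin 5) (s : Equiv.Perm (Fin 5)) (h0 : s 0 = a)
    (h1 : s 1 = b) (h2 : s 2 = c) (h3 : s 3 = d) (h4 : s 4 = e) :
    0 ≤ S5 V (fun p => rt (p a) (p b) (p c) (p d) (p e)) := by
  rw [S5_move V rt a b c d e s h0 h1 h2 h3 h4]
  exact Finset.sum_nonneg fun x _ => rt_sum V x

/-- A permutation from the list of its values. -/
theorem exL (a b c d e : Fin 5) (h : a ≠ b ∧ a ≠ c ∧ a ≠ d ∧ a ≠ e ∧ b ≠ c ∧ b ≠ d ∧ b ≠ e ∧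
    c ≠ d ∧ c ≠ e ∧ d ≠ e) : ∃ s : Equiv.Perm (Fin 5),
    s 0 = a ∧ s 1 = b ∧ s 2 = c ∧ s 3 = d ∧ s 4 = e := by
  obtain ⟨h1, h2, h3, h4, h5, h6, h7, h8, h9, h10⟩ := h
  have hinj : Function.Injective ![a, b, c, d, e] := by
    intro i j hij
    fin_cases i <;> fin_cases j <;> simp_all
  refine ⟨Equiv.ofBijective _ (Finite.injective_iff_bijective.1 hinj), rfl, rfl, rfl, rfl, rfl⟩

theorem S5_qt' (V : Finset Pt) (a b c d e : Fin 5) (h : a ≠ b ∧ a ≠ c ∧ a ≠ d ∧ a ≠ e ∧ b ≠ c ∧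
    b ≠ d ∧ b ≠ e ∧ c ≠ d ∧ c ≠ e ∧ d ≠ e) :
    0 ≤ S5 V (fun p => qt (p a) (p b) (p c) (p d) (p e)) := by
  obtain ⟨s, h0, h1, h2, h3, h4⟩ := exL a b c d e h
  exact S5_qt V a b c d e s h0 h1 h2 h3 h4

theorem S5_rt' (V : Finset Pt) (a b c d e : Fin 5) (h : a ≠ b ∧ a ≠ c ∧ a ≠ d ∧ a ≠ e ∧ b ≠ c ∧
    b ≠ d ∧ b ≠ e ∧ c ≠ d ∧ c ≠ e ∧ d ≠ e) :
    0 ≤ S5 V (fun p => rt (p a) (p b) (p c) (p d) (p e)) := by
  obtain ⟨s, h0, h1, h2, h3, h4⟩ := exL a b c d e h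
  exact S5_rt V a b c d e s h0 h1 h2 h3 h4

theorem S5_QQ (V : Finset Pt) : 0 ≤ S5 V (fun p => QQ (p 0) (p 1) (p 2) (p 3) (p 4)) := by
  simp only [QQ, S5_add]
  have h1 := S5_qt' V 0 1 2 3 4 (by decide)
  have h2 := S5_qt' V 0 1 3 2 4 (by decide)
  have h3 := S5_qt' V 0 2 3 1 4 (by decide)
  have h4 := S5_qt' V 1 2 3 0 4 (by decide)
  have h5 := S5_qt' V 0 1 4 2 3 (by decide)
  have h6 := S5_qt' V 0 2 4 1 3 (by decide)
  have h7 := S5_qt' V 1 2 4 0 3 (by decide)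
  have h8 := S5_qt' V 0 3 4 1 2 (by decide)
  have h9 := S5_qt' V 1 3 4 0 2 (by decide)
  have h10 := S5_qt' V 2 3 4 0 1 (by decide)
  linarith

theorem S5_RR (V : Finset Pt) : 0 ≤ S5 V (fun p => RR (p 0) (p 1) (p 2) (p 3) (p 4)) := by
  simp only [RR, S5_add]
  have h1 := S5_rt' V 0 1 3 2 4 (by decide)
  have h2 := S5_rt' V 1 0 3 2 4 (by decide)
  have h3 := S5_rt' V 0 2 3 1 4 (by decide)
  have h4 := S5_rt' V 2 0 3 1 4 (by decide)
  have h5 := S5_rt' V 1 2 3 0 4 (by decide)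
  have h6 := S5_rt' V 2 1 3 0 4 (by decide)
  have h7 := S5_rt' V 0 1 2 3 4 (by decide)
  have h8 := S5_rt' V 1 0 2 3 4 (by decide)
  have h9 := S5_rt' V 3 0 2 1 4 (by decide)
  have h10 := S5_rt' V 3 1 2 0 4 (by decide)
  have h11 := S5_rt' V 4 0 2 1 3 (by decide)
  have h12 := S5_rt' V 4 1 2 0 3 (by decide)
  have h13 := S5_rt' V 2 0 1 3 4 (by decide)
  have h14 := S5_rt' V 3 0 1 2 4 (by decide)
  have h15 := S5_rt' V 4 0 1 2 3 (by decide)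
  linarith

theorem S5_NN (V : Finset Pt) : S5 V (fun p => NN (p 0) (p 1) (p 2) (p 3) (p 4)) =
    10 * ((V.card : ℤ) ^ 2 * ∑ x ∈ V, ∑ y ∈ V, ∑ z ∈ V, (pc (dg x y z) : ℤ)) := by
  simp only [NN, S5_add]
  have h : ∀ a b c : Fin 5, a ≠ b → b ≠ c → a ≠ c →
      S5 V (fun p => (pc (dg (p a) (p b) (p c)) : ℤ)) =
      (V.card : ℤ) ^ 2 * ∑ x ∈ V, ∑ y ∈ V, ∑ z ∈ V, (pc (dg x y z) : ℤ) :=
    fun a b c h1 h2 h3 => S5_three V (fun x y z => (pc (dg x y z) : ℤ)) h1 h2 h3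
  rw [h 0 1 2 (by decide) (by decide) (by decide), h 0 1 3 (by decide) (by decide) (by decide),
    h 0 2 3 (by decide) (by decide) (by decide), h 1 2 3 (by decide) (by decide) (by decide),
    h 0 1 4 (by decide) (by decide) (by decide), h 0 2 4 (by decide) (by decide) (by decide),
    h 1 2 4 (by decide) (by decide) (by decide), h 0 3 4 (by decide) (by decide) (by decide),
    h 1 3 4 (by decide) (by decide) (by decide), h 2 3 4 (by decide) (by decide) (by decide)]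
  ring

end Pool.Agent.MP_0af329_co.Q5
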