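import Pool.Agent.MP_0af329_co.Circ

/-!
# A positive definite kernel on the circle

`m ≥ 2` is an integer.  The circle of directions is cut into `2 m` arcs of length `π / m`.
-/

set_option autoImplicit false

namespace Pool.Agent.MP_0af329_co

open EuclideanGeometry

/-! ## The discrete Wirtinger inequality for antiperiodic sequences -/

theorem wirt_step {s c w c' B K x y z : ℝ} (hw : w = s * K + c * B) (hc : c' = c * K - s * B)
    (hsc : s ^ 2 + c ^ 2 = 1) (hBK : B ^ 2 + K ^ 2 = 1) (hs : 0 < s) (hw0 : 0 < w) :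
    1 / 2 * B * (c' / w * (x ^ 2 + z ^ 2) - 2 * x * z / w) ≤
      1 / 2 * B * (c / s * (x ^ 2 + y ^ 2) - 2 * x * y / s) +
        (1 / 2 * K * (y ^ 2 + z ^ 2) - y * z) := by
  have key : 1 / 2 * B * (c / s * (x ^ 2 + y ^ 2) - 2 * x * y / s) +
        (1 / 2 * K * (y ^ 2 + z ^ 2) - y * z) -
      1 / 2 * B * (c' / w * (x ^ 2 + z ^ 2) - 2 * x * z / w) =
      (B * x - w * y + s * z) ^ 2 / (2 * s * w) := by
    rw [eq_div_iff (by positivity)]
    have e1 : c / s * s = c := div_mul_cancel₀ _ hs.ne'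
    have e2 : c' / w * w = c' := div_mul_cancel₀ _ hw0.ne'
    have e3 : 2 * x * y / s * s = 2 * x * y := div_mul_cancel₀ _ hs.ne'
    have e4 : 2 * x * z / w * w = 2 * x * z := div_mul_cancel₀ _ hw0.ne'
    have e5 : (1 / 2 * B * (c / s * (x ^ 2 + y ^ 2) - 2 * x * y / s) +
        (1 / 2 * K * (y ^ 2 + z ^ 2) - y * z) -
        1 / 2 * B * (c' / w * (x ^ 2 + z ^ 2) - 2 * x * z / w)) * (2 * s * w) =
        B * w * ((c / s * s) * (x ^ 2 + y ^ 2) - 2 * x * y / s * s) +
          s * w * (K * (y ^ 2 + z ^ 2) - 2 * y * z) -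
        B * s * ((c' / w * w) * (x ^ 2 + z ^ 2) - 2 * x * z / w * w) := by
      ring
    rw [e5, e1, e2, e3, e4, hc, hw]
    linear_combination (B ^ 2 * x ^ 2) * hsc + (s ^ 2 * z ^ 2) * hBK
  have h3 : 0 ≤ (B * x - w * y + s * z) ^ 2 / (2 * s * w) := by
    positivity
  linarith

theorem wirt {m : ℕ} (hm : 2 ≤ m) (h : ℕ → ℝ) (ha : h m = -h 0) :
    4 * Real.sin (Real.pi / (2 * m)) ^ 2 * ∑ t ∈ Finset.range m, h t ^ 2 ≤
      ∑ t ∈ Finset.range m, (h t - h (t + 1)) ^ 2 := by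
  have hpi := Real.pi_pos
  have hm0 : (0 : ℝ) < m := by positivity
  set β : ℝ := Real.pi / m with hβ
  set B := Real.sin β with hB
  set K := Real.cos β with hK
  have hBK : B ^ 2 + K ^ 2 = 1 := Real.sin_sq_add_cos_sq β
  have hspos : ∀ n : ℕ, 1 ≤ n → n < m → 0 < Real.sin (n * β) := by
    intro n h1 h2
    have h1' : (1 : ℝ) ≤ n := by exact_mod_cast h1
    have h2' : (n : ℝ) < m := by exact_mod_cast h2
    have hβ0 : 0 < β := div_pos hpi hm0
    apply Real.sin_pos_of_pos_of_lt_pi (by positivity)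
    calc (n : ℝ) * β < m * β := by gcongr
      _ = Real.pi := by rw [hβ]; field_simp
  -- the induction
  have hind : ∀ n : ℕ, 1 ≤ n → n < m →
      1 / 2 * B * (Real.cos (n * β) / Real.sin (n * β) * (h 0 ^ 2 + h n ^ 2) -
        2 * h 0 * h n / Real.sin (n * β)) ≤
      ∑ t ∈ Finset.range n, (1 / 2 * K * (h t ^ 2 + h (t + 1) ^ 2) - h t * h (t + 1)) := by
    intro n hn
    induction n, hn using Nat.le_induction with
    | base =>
      intro h1
      have hs := hspos 1 le_rfl h1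
      rw [Nat.cast_one, one_mul] at hs ⊢
      rw [Finset.sum_range_one]
      apply le_of_eq
      rw [← hB, ← hK]
      have : B ≠ 0 := hs.ne'
      field_simp
    | succ n hn ih =>
      intro h1
      rw [Finset.sum_range_succ]
      have hs := hspos n hn (by omega)
      have hs1 := hspos (n + 1) (by omega) h1
      have e1 : Real.sin (((n + 1 : ℕ) : ℝ) * β) =
          Real.sin (n * β) * K + Real.cos (n * β) * B := by
        push_cast
        rw [add_mul, one_mul, Real.sin_add]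
      have e2 : Real.cos (((n + 1 : ℕ) : ℝ) * β) =
          Real.cos (n * β) * K - Real.sin (n * β) * B := by
        push_cast
        rw [add_mul, one_mul, Real.cos_add]
      have h3 := wirt_step (x := h 0) (y := h n) (z := h (n + 1)) e1 e2
        (Real.sin_sq_add_cos_sq (n * β)) hBK hs hs1
      have h4 := ih (by omega)
      linarith
  have h5 := hind (m - 1) (by omega) (by omega)
  have h6 : ∑ t ∈ Finset.range m, (1 / 2 * K * (h t ^ 2 + h (t + 1) ^ 2) - h t * h (t + 1)) =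
      ∑ t ∈ Finset.range (m - 1), (1 / 2 * K * (h t ^ 2 + h (t + 1) ^ 2) - h t * h (t + 1)) +
        (1 / 2 * K * (h (m - 1) ^ 2 + h m ^ 2) - h (m - 1) * h m) := by
    conv_lhs => rw [show m = (m - 1) + 1 by omega]
    rw [Finset.sum_range_succ]
    rw [show m - 1 + 1 = m by omega]
  have e3 : (((m - 1 : ℕ) : ℝ)) * β = Real.pi - β := by
    rw [Nat.cast_sub (by omega)]
    push_cast
    rw [sub_mul, one_mul, hβ]
    field_simp
  rw [e3, Real.sin_pi_sub, Real.cos_pi_sub, ← hB, ← hK] at h5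
  have hB0 : 0 < B := by
    have := hspos 1 le_rfl (by omega)
    rwa [Nat.cast_one, one_mul] at this
  have h7 : 1 / 2 * B * (-K / B * (h 0 ^ 2 + h (m - 1) ^ 2) - 2 * h 0 * h (m - 1) / B) =
      -(1 / 2 * K * (h (m - 1) ^ 2 + h m ^ 2) - h (m - 1) * h m) := by
    rw [ha]
    field_simp
    ring
  rw [h7] at h5
  have h8 : 0 ≤ ∑ t ∈ Finset.range m,
      (1 / 2 * K * (h t ^ 2 + h (t + 1) ^ 2) - h t * h (t + 1)) := by
    rw [h6]
    linarith
  have h9 : ∑ t ∈ Finset.range m, h (t + 1) ^ 2 = ∑ t ∈ Finset.range m, h t ^ 2 := by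
    have h10 := Finset.sum_range_succ (fun t => h t ^ 2) m
    have h11 := Finset.sum_range_succ' (fun t => h t ^ 2) m
    rw [ha, neg_sq] at h10
    linarith
  have h12 : 4 * Real.sin (Real.pi / (2 * m)) ^ 2 = 2 - 2 * K := by
    have h13 : K = 1 - 2 * Real.sin (Real.pi / (2 * m)) ^ 2 := by
      rw [hK, hβ, show Real.pi / (m : ℝ) = 2 * (Real.pi / (2 * m)) by field_simp,
        Real.cos_two_mul, Real.sin_sq]
      ring
    linarith
  have h14 : ∑ t ∈ Finset.range m, (h t - h (t + 1)) ^ 2 =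
      ∑ t ∈ Finset.range m, h t ^ 2 + ∑ t ∈ Finset.range m, h (t + 1) ^ 2 -
        2 * ∑ t ∈ Finset.range m, h t * h (t + 1) := by
    rw [Finset.mul_sum, ← Finset.sum_add_distrib, ← Finset.sum_sub_distrib]
    exact Finset.sum_congr rfl fun t _ => by ring
  have h15 : ∑ t ∈ Finset.range m, (1 / 2 * K * (h t ^ 2 + h (t + 1) ^ 2) - h t * h (t + 1)) =
      1 / 2 * K * (∑ t ∈ Finset.range m, h t ^ 2 + ∑ t ∈ Finset.range m, h (t + 1) ^ 2) -
        ∑ t ∈ Finset.range m, h t * h (t + 1) := by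
    rw [← Finset.sum_add_distrib, Finset.mul_sum, ← Finset.sum_sub_distrib]
  rw [h15, h9] at h8
  rw [h12, h14, h9]
  linarith

/-! ## Signs -/

/-- The sign of an integer: `+1` on `[0, m)`, `-1` on `[m, 2 m)`, and `2 m`-periodic. -/
noncomputable def sg (m : ℕ) (n : ℤ) : ℝ := if Even (n / (m : ℤ)) then 1 else -1

noncomputable def pp (m : ℕ) (n : ℤ) : ℝ := if (m : ℤ) ∣ n ∧ Even (n / (m : ℤ)) then 1 else 0

noncomputable def qq (m : ℕ) (n : ℤ) : ℝ := if (m : ℤ) ∣ n ∧ ¬ Even (n / (m : ℤ)) then 1 else 0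

theorem sg_sq (m : ℕ) (n : ℤ) : sg m n ^ 2 = 1 := by
  unfold sg
  split_ifs <;> norm_num

theorem abs_sg (m : ℕ) (n : ℤ) : |sg m n| = 1 := by
  unfold sg
  split_ifs <;> norm_num

theorem sg_sub (m : ℕ) (hm : 1 ≤ m) (n : ℤ) : sg m (n - m) = -sg m n := by
  have hm' : (m : ℤ) ≠ 0 := by omega
  have h : (n - m) / (m : ℤ) = n / m - 1 := by
    have := Int.add_mul_ediv_right n (-1) hm'
    rw [neg_one_mul] at this
    rw [sub_eq_add_neg, this]
    ring
  unfold sg
  rw [h]
  by_cases he : Even (n / (m : ℤ))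
  · rw [if_pos he, if_neg (by rw [Int.even_sub_one]; exact not_not.2 he)]
  · rw [if_neg he, if_pos (by rw [Int.even_sub_one]; exact he)]
    norm_num

theorem sg_step (m : ℕ) (hm : 1 ≤ m) (n : ℤ) :
    sg m n - sg m (n - 1) = 2 * (pp m n - qq m n) := by
  have hm' : (0 : ℤ) < m := by omega
  by_cases hd : (m : ℤ) ∣ n
  · obtain ⟨q, rfl⟩ := hd
    have h1 : (m : ℤ) * q / m = q := Int.mul_ediv_cancel_left q hm'.ne'
    have h2 : ((m : ℤ) * q - 1) / m = q - 1 := by
      rw [Int.ediv_eq_iff_of_pos hm']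
      constructor
      · nlinarith
      · nlinarith
    unfold sg pp qq
    rw [h1, h2]
    by_cases he : Even q
    · rw [if_pos he, if_neg (by rw [Int.even_sub_one]; exact not_not.2 he),
        if_pos ⟨dvd_mul_right _ _, he⟩, if_neg (by tauto)]
      norm_num
    · rw [if_neg he, if_pos (by rw [Int.even_sub_one]; exact he), if_neg (by tauto),
        if_pos ⟨dvd_mul_right _ _, he⟩]
      norm_num
  · have h2 : (n - 1) / (m : ℤ) = n / m := by
      rw [Int.ediv_eq_iff_of_pos hm']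
      have h3 := Int.emod_add_mul_ediv n m
      have h4 := Int.emod_nonneg n hm'.ne'
      have h5 := Int.emod_lt_of_pos n hm'
      have h6 : n % m ≠ 0 := fun h => hd (Int.dvd_of_emod_eq_zero h)
      have h7 : 1 ≤ n % m := by omega
      constructor <;> nlinarith
    unfold sg pp qq
    rw [h2, if_neg (show ¬ ((m : ℤ) ∣ n ∧ Even (n / (m : ℤ))) by tauto),
      if_neg (show ¬ ((m : ℤ) ∣ n ∧ ¬ Even (n / (m : ℤ))) by tauto)]
    ring

theorem pp_nonneg (m : ℕ) (n : ℤ) : 0 ≤ pp m n := by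
  unfold pp; split_ifs <;> norm_num

theorem qq_nonneg (m : ℕ) (n : ℤ) : 0 ≤ qq m n := by
  unfold qq; split_ifs <;> norm_num

theorem pp_add_qq (m : ℕ) (n : ℤ) : pp m n + qq m n = if (m : ℤ) ∣ n then 1 else 0 := by
  unfold pp qq
  by_cases h : (m : ℤ) ∣ n <;> by_cases he : Even (n / (m : ℤ)) <;> simp [h, he]

theorem dvd_sub_iff {m : ℕ} (hm : 1 ≤ m) (c : ℤ) {t : ℕ} (ht : t < m) :
    (m : ℤ) ∣ c - t ↔ t = (c % m).toNat := by
  have hm' : (0 : ℤ) < m := by omega
  have h4 := Int.emod_nonneg c hm'.ne'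
  have h5 := Int.emod_lt_of_pos c hm'
  constructor
  · intro h
    have h1 : c % m = (t : ℤ) % m :=
      Int.emod_eq_emod_iff_emod_sub_eq_zero.2 (Int.emod_eq_zero_of_dvd h)
    have h2 : (t : ℤ) % m = t := Int.emod_eq_of_lt (by omega) (by omega)
    rw [h2] at h1
    omega
  · intro h
    have h1 : (t : ℤ) = c % m := by omega
    rw [h1]
    exact Int.dvd_self_sub_emod

theorem sum_pp_qq {m : ℕ} (hm : 1 ≤ m) (c : ℤ) :
    ∑ t ∈ Finset.range m, (pp m (c - t) + qq m (c - t)) = 1 := by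
  have hm' : (0 : ℤ) < m := by omega
  have h4 := Int.emod_nonneg c hm'.ne'
  have h5 := Int.emod_lt_of_pos c hm'
  have h6 : (c % m).toNat < m := by omega
  rw [Finset.sum_eq_single_of_mem (c % m).toNat (Finset.mem_range.2 h6)]
  · rw [pp_add_qq, if_pos ((dvd_sub_iff hm c h6).2 rfl)]
  · intro t ht hne
    rw [pp_add_qq, if_neg (fun h => hne ((dvd_sub_iff hm c (Finset.mem_range.1 ht)).1 h))]

/-- The correlation of the sign vectors of two integers. -/
noncomputable def cor (m : ℕ) (n n' : ℤ) : ℝ :=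
  ∑ t ∈ Finset.range m, sg m (n - t) * sg m (n' - t)

theorem cor_self (m : ℕ) (n : ℤ) : cor m n n = m := by
  unfold cor
  have : ∀ t ∈ Finset.range m, sg m (n - t) * sg m (n - t) = 1 := fun t _ => by
    rw [← sq, sg_sq]
  rw [Finset.sum_congr rfl this]
  simp

theorem cor_comm (m : ℕ) (n n' : ℤ) : cor m n n' = cor m n' n :=
  Finset.sum_congr rfl fun _ _ => mul_comm _ _

theorem cor_succ {m : ℕ} (hm : 1 ≤ m) (n n' : ℤ) : cor m n n' - 2 ≤ cor m n (n' + 1) := by
  unfold cor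
  have h1 : ∀ t ∈ Finset.range m, sg m (n - t) * sg m (n' - t) -
      2 * (pp m (n' + 1 - t) + qq m (n' + 1 - t)) ≤ sg m (n - t) * sg m (n' + 1 - t) := by
    intro t _
    have h2 := sg_step m hm (n' + 1 - t)
    have e : n' + 1 - (t : ℤ) - 1 = n' - t := by ring
    rw [e] at h2
    have p0 := pp_nonneg m (n' + 1 - t)
    have q0 := qq_nonneg m (n' + 1 - t)
    have h3 : sg m (n' + 1 - t) = sg m (n' - t) +
        2 * (pp m (n' + 1 - t) - qq m (n' + 1 - t)) := by linarith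
    rw [h3]
    rcases (show sg m (n - t) = 1 ∨ sg m (n - t) = -1 by unfold sg; split_ifs <;> simp) with h | h
    · rw [h]; linarith
    · rw [h]; linarith
  have h4 := Finset.sum_le_sum h1
  rw [Finset.sum_sub_distrib, ← Finset.mul_sum, sum_pp_qq hm, mul_one] at h4
  exact h4

theorem cor_add {m : ℕ} (hm : 1 ≤ m) (n : ℤ) (j : ℕ) : (m : ℝ) - 2 * j ≤ cor m n (n + j) := by
  induction j with
  | zero => simp [cor_self]
  | succ j ih =>
    have h1 := cor_succ hm n (n + j)
    have e : n + ((j + 1 : ℕ) : ℤ) = n + j + 1 := by push_cast; ring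
    rw [e]
    push_cast
    linarith

theorem cor_ge {m : ℕ} (hm : 1 ≤ m) {n n' : ℤ} (h : n ≤ n') :
    (m : ℝ) - 2 * ((n' : ℝ) - n) ≤ cor m n n' := by
  have h1 := cor_add hm n (n' - n).toNat
  have h2 : (((n' - n).toNat : ℕ) : ℤ) = n' - n := Int.toNat_of_nonneg (by omega)
  have h3 : (((n' - n).toNat : ℕ) : ℝ) = (n' : ℝ) - n := by
    have : ((((n' - n).toNat : ℕ) : ℤ) : ℝ) = ((n' - n : ℤ) : ℝ) := by rw [h2]
    push_cast at this
    exact this
  rw [h2, h3] at h1
  have e : n + (n' - n) = n' := by ring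
  rw [e] at h1
  exact h1

theorem sg_add_two {m : ℕ} (hm : 1 ≤ m) (n : ℤ) : sg m (n + 2 * m) = sg m n := by
  have h1 := sg_sub m hm (n + 2 * m)
  have h2 := sg_sub m hm (n + m)
  have e1 : n + 2 * (m : ℤ) - m = n + m := by ring
  have e2 : n + (m : ℤ) - m = n := by ring
  rw [e1] at h1
  rw [e2] at h2
  rw [h2, h1]
  ring

theorem cor_add_two {m : ℕ} (hm : 1 ≤ m) (n n' : ℤ) : cor m (n + 2 * m) n' = cor m n n' := by
  unfold cor
  refine Finset.sum_congr rfl fun t _ => ?_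
  have e : n + 2 * (m : ℤ) - t = (n - t) + 2 * m := by ring
  rw [e, sg_add_two hm]

theorem cor_ge' {m : ℕ} (hm : 1 ≤ m) {n n' : ℤ} (h : n' ≤ n + 2 * m) :
    (m : ℝ) - 2 * (2 * m - ((n' : ℝ) - n)) ≤ cor m n n' := by
  have h1 := cor_ge hm h
  rw [cor_comm, cor_add_two hm] at h1
  push_cast at h1
  linarith

/-- Both in the same class modulo `2 m`. -/
noncomputable def same (m : ℕ) (n n' : ℤ) : ℝ := if (2 * (m : ℤ)) ∣ n - n' then 1 else 0

theorem sum_pp_mul {m : ℕ} (hm : 1 ≤ m) (c c' : ℤ) :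
    ∑ t ∈ Finset.range m, (pp m (c - t) * pp m (c' - t) + qq m (c - t) * qq m (c' - t)) ≤
      same m c c' := by
  have hm' : (0 : ℤ) < m := by omega
  have h4 := Int.emod_nonneg c hm'.ne'
  have h5 := Int.emod_lt_of_pos c hm'
  have h6 : (c % m).toNat < m := by omega
  have hs0 : 0 ≤ same m c c' := by unfold same; split_ifs <;> norm_num
  rw [Finset.sum_eq_single_of_mem (c % m).toNat (Finset.mem_range.2 h6)]
  · set t := (c % m).toNat
    have hc : (m : ℤ) ∣ c - t := (dvd_sub_iff hm c h6).2 rfl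
    by_cases hc' : (m : ℤ) ∣ c' - t
    · obtain ⟨q, hq⟩ := hc
      obtain ⟨r, hr⟩ := hc'
      have e1 : (m : ℤ) * q / m = q := Int.mul_ediv_cancel_left q hm'.ne'
      have e2 : (m : ℤ) * r / m = r := Int.mul_ediv_cancel_left r hm'.ne'
      unfold pp qq
      rw [hq, hr, e1, e2]
      have hsame : (Even q ↔ Even r) → same m c c' = 1 := by
        intro hqr
        have : Even (q - r) := by
          rw [Int.even_sub]
          exact hqr
        obtain ⟨s, hs⟩ := this
        unfold same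
        rw [if_pos]
        refine ⟨s, ?_⟩
        have : c - c' = m * (q - r) := by
          rw [mul_sub, ← hq, ← hr]
          ring
        rw [this, hs]
        ring
      have d1 : (m : ℤ) ∣ m * q := dvd_mul_right _ _
      have d2 : (m : ℤ) ∣ m * r := dvd_mul_right _ _
      by_cases k1 : Even q <;> by_cases k2 : Even r
      · rw [if_pos ⟨d1, k1⟩, if_pos ⟨d2, k2⟩, if_neg (by tauto), hsame (by tauto)]
        norm_num
      · rw [if_neg (show ¬ ((m : ℤ) ∣ m * r ∧ Even r) by tauto),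
          if_neg (show ¬ ((m : ℤ) ∣ m * q ∧ ¬ Even q) by tauto)]
        simpa using hs0
      · rw [if_neg (show ¬ ((m : ℤ) ∣ m * q ∧ Even q) by tauto),
          if_neg (show ¬ ((m : ℤ) ∣ m * r ∧ ¬ Even r) by tauto)]
        simpa using hs0
      · rw [if_neg (show ¬ ((m : ℤ) ∣ m * q ∧ Even q) by tauto),
          if_neg (show ¬ ((m : ℤ) ∣ m * r ∧ Even r) by tauto),
          if_pos (show (m : ℤ) ∣ m * q ∧ ¬ Even q by tauto),
          if_pos (show (m : ℤ) ∣ m * r ∧ ¬ Even r by tauto), hsame (by tauto)]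
        norm_num
    · have z1 : pp m (c' - t) = 0 := if_neg fun h => hc' h.1
      have z2 : qq m (c' - t) = 0 := if_neg fun h => hc' h.1
      rw [z1, z2]
      simpa using hs0
  · intro t ht hne
    have h7 : ¬ (m : ℤ) ∣ c - t := fun h => hne ((dvd_sub_iff hm c (Finset.mem_range.1 ht)).1 h)
    have z1 : pp m (c - t) = 0 := if_neg fun h => h7 h.1
    have z2 : qq m (c - t) = 0 := if_neg fun h => h7 h.1
    rw [z1, z2]
    ring

/-- The inequality for a family of integers. -/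
theorem star {ι : Type*} {m : ℕ} (hm : 2 ≤ m) (T : Finset ι) (c : ι → ℤ) :
    (T.card : ℝ) ^ 2 / (2 * m) +
      1 / 2 * Real.sin (Real.pi / (2 * m)) ^ 2 * ∑ x ∈ T, ∑ z ∈ T, cor m (c x) (c z) ≤
      ∑ x ∈ T, ∑ z ∈ T, same m (c x) (c z) := by
  have hm1 : 1 ≤ m := by omega
  have hm0 : (0 : ℝ) < m := by positivity
  set P : ℕ → ℝ := fun t => ∑ x ∈ T, pp m (c x - t) with hP
  set Q : ℕ → ℝ := fun t => ∑ x ∈ T, qq m (c x - t) with hQ
  set H : ℕ → ℝ := fun t => ∑ x ∈ T, sg m (c x - t) with hH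
  have h1 : ∑ t ∈ Finset.range m, (P t ^ 2 + Q t ^ 2) ≤ ∑ x ∈ T, ∑ z ∈ T, same m (c x) (c z) := by
    have e : ∑ t ∈ Finset.range m, (P t ^ 2 + Q t ^ 2) = ∑ x ∈ T, ∑ z ∈ T,
        ∑ t ∈ Finset.range m, (pp m (c x - t) * pp m (c z - t) +
          qq m (c x - t) * qq m (c z - t)) := by
      simp only [hP, hQ, sq, Finset.sum_mul_sum, ← Finset.sum_add_distrib]
      rw [Finset.sum_comm]
      refine Finset.sum_congr rfl fun x _ => ?_
      rw [Finset.sum_comm]
    rw [e]
    exact Finset.sum_le_sum fun x _ => Finset.sum_le_sum fun z _ => sum_pp_mul hm1 _ _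
  have h2 : ∑ t ∈ Finset.range m, (P t + Q t) = T.card := by
    simp only [hP, hQ, ← Finset.sum_add_distrib]
    rw [Finset.sum_comm]
    rw [Finset.sum_congr rfl fun x _ => sum_pp_qq hm1 (c x)]
    simp
  have h3 : (T.card : ℝ) ^ 2 / m ≤ ∑ t ∈ Finset.range m, (P t + Q t) ^ 2 := by
    have := sq_sum_le_card_mul_sum_sq (s := Finset.range m) (f := fun t => P t + Q t)
    rw [h2, Finset.card_range] at this
    rw [div_le_iff₀ hm0]
    linarith
  have h4 : ∀ t : ℕ, H t - H (t + 1) = 2 * (P t - Q t) := by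
    intro t
    simp only [hH, hP, hQ, ← Finset.sum_sub_distrib, Finset.mul_sum]
    refine Finset.sum_congr rfl fun x _ => ?_
    have := sg_step m hm1 (c x - t)
    have e : c x - ((t + 1 : ℕ) : ℤ) = c x - t - 1 := by push_cast; ring
    rw [e]
    exact this
  have h5 : H m = -H 0 := by
    simp only [hH, ← Finset.sum_neg_distrib]
    refine Finset.sum_congr rfl fun x _ => ?_
    have := sg_sub m hm1 (c x)
    simpa using this
  have h6 := wirt hm H h5
  have h7 : ∑ t ∈ Finset.range m, (H t - H (t + 1)) ^ 2 =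
      4 * ∑ t ∈ Finset.range m, (P t - Q t) ^ 2 := by
    rw [Finset.mul_sum]
    exact Finset.sum_congr rfl fun t _ => by rw [h4]; ring
  have h8 : ∑ t ∈ Finset.range m, H t ^ 2 = ∑ x ∈ T, ∑ z ∈ T, cor m (c x) (c z) := by
    simp only [hH, cor, sq, Finset.sum_mul_sum]
    rw [Finset.sum_comm]
    refine Finset.sum_congr rfl fun x _ => ?_
    rw [Finset.sum_comm]
  have h9 : ∑ t ∈ Finset.range m, (P t ^ 2 + Q t ^ 2) =
      1 / 2 * (∑ t ∈ Finset.range m, (P t + Q t) ^ 2 +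
        ∑ t ∈ Finset.range m, (P t - Q t) ^ 2) := by
    rw [← Finset.sum_add_distrib, Finset.mul_sum]
    exact Finset.sum_congr rfl fun t _ => by ring
  rw [← h8]
  rw [h7] at h6
  have h10 : (T.card : ℝ) ^ 2 / (2 * m) = 1 / 2 * ((T.card : ℝ) ^ 2 / m) := by
    field_simp
  rw [h10]
  linarith

end Pool.Agent.MP_0af329_co
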